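import Mathlib

section
/-! Convolution of singular kernels with bounded, boundedly supported functions on a
three dimensional Euclidean space. -/

set_option linter.unusedSectionVars false

set_option linter.unusedVariables false

set_option linter.style.haveILetI false

namespace Pool.Agent.TF

open MeasureTheory Set Metric Filter Topology

open scoped ENNReal NNReal RealInnerProductSpace

variable {V : Type*} [NormedAddCommGroup V] [InnerProductSpace ℝ V] [FiniteDimensional ℝ V]
  [MeasurableSpace V] [BorelSpace V]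

/-- bounded measurable functions with bounded support -/
structure BC (f : V → ℝ) : Prop where
  meas : Measurable f
  bdd : ∃ M, ∀ x, |f x| ≤ M
  supp : ∃ R, ∀ x, R ≤ ‖x‖ → f x = 0

theorem BC.bounds {f : V → ℝ} (hf : BC f) : ∃ M R, 0 ≤ M ∧ 0 < R ∧ (∀ x, |f x| ≤ M) ∧
    (∀ x, R ≤ ‖x‖ → f x = 0) := by
  obtain ⟨M, hM⟩ := hf.bdd
  obtain ⟨R, hR⟩ := hf.supp
  refine ⟨M, max R 1, (abs_nonneg _).trans (hM 0), by positivity, hM, fun x hx => hR x ?_⟩
  exact (le_max_left _ _).trans hx

theorem BC.add {f g : V → ℝ} (hf : BC f) (hg : BC g) : BC (fun x => f x + g x) := by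
  obtain ⟨M, R, -, -, hM, hR⟩ := hf.bounds
  obtain ⟨M', R', -, -, hM', hR'⟩ := hg.bounds
  refine ⟨hf.meas.add hg.meas, ⟨M + M', fun x => (abs_add_le _ _).trans (add_le_add (hM x) (hM' x))⟩,
    ⟨max R R', fun x hx => ?_⟩⟩
  rw [hR x ((le_max_left _ _).trans hx), hR' x ((le_max_right _ _).trans hx), add_zero]

theorem BC.const_mul {f : V → ℝ} (hf : BC f) (c : ℝ) : BC (fun x => c * f x) := by
  obtain ⟨M, R, hM0, -, hM, hR⟩ := hf.bounds
  refine ⟨hf.meas.const_mul c, ⟨|c| * M, fun x => ?_⟩, ⟨R, fun x hx => by rw [hR x hx, mul_zero]⟩⟩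
  rw [abs_mul]
  exact mul_le_mul_of_nonneg_left (hM x) (abs_nonneg _)

theorem BC.neg {f : V → ℝ} (hf : BC f) : BC (fun x => -f x) := by
  simpa using hf.const_mul (-1)

theorem BC.sub {f g : V → ℝ} (hf : BC f) (hg : BC g) : BC (fun x => f x - g x) := by
  simpa [sub_eq_add_neg] using hf.add hg.neg

theorem BC.zero : BC (fun _ : V => (0 : ℝ)) :=
  ⟨measurable_const, ⟨0, fun _ => by simp⟩, ⟨0, fun _ _ => rfl⟩⟩

theorem BC.sum {ι : Type*} (s : Finset ι) {f : ι → V → ℝ} (hf : ∀ i ∈ s, BC (f i)) :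
    BC (fun x => ∑ i ∈ s, f i x) := by
  classical
  induction s using Finset.induction_on with
  | empty => simpa using BC.zero
  | insert a s ha ih =>
    have h1 := (hf a (Finset.mem_insert_self a s)).add
      (ih fun i hi => hf i (Finset.mem_insert_of_mem hi))
    refine ⟨?_, ?_, ?_⟩
    · simpa [Finset.sum_insert ha] using h1.meas
    · simpa [Finset.sum_insert ha] using h1.bdd
    · simpa [Finset.sum_insert ha] using h1.supp

theorem BC.indicator {f : V → ℝ} (hf : BC f) {s : Set V} (hs : MeasurableSet s) :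
    BC (s.indicator f) := by
  obtain ⟨M, R, hM0, -, hM, hR⟩ := hf.bounds
  refine ⟨hf.meas.indicator hs, ⟨M, fun x => ?_⟩, ⟨R, fun x hx => ?_⟩⟩
  · by_cases h : x ∈ s
    · simpa [h] using hM x
    · simpa [h] using hM0
  · by_cases h : x ∈ s
    · simpa [h] using hR x hx
    · simp [h]

theorem BC.comp_isom {f : V → ℝ} (hf : BC f) (L : V ≃ₗᵢ[ℝ] V) : BC (fun x => f (L x)) := by
  obtain ⟨M, R, hM0, -, hM, hR⟩ := hf.bounds
  refine ⟨hf.meas.comp L.continuous.measurable, ⟨M, fun x => hM _⟩, ⟨R, fun x hx => hR _ ?_⟩⟩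
  rwa [L.norm_map]

theorem BC.translate {f : V → ℝ} (hf : BC f) (c : V) : BC (fun x => f (x + c)) := by
  obtain ⟨M, R, hM0, -, hM, hR⟩ := hf.bounds
  refine ⟨hf.meas.comp (measurable_id.add_const c), ⟨M, fun x => hM _⟩,
    ⟨R + ‖c‖, fun x hx => hR _ ?_⟩⟩
  have h1 : ‖x‖ ≤ ‖x + c‖ + ‖c‖ := by
    calc ‖x‖ = ‖(x + c) - c‖ := by simp
      _ ≤ _ := norm_sub_le _ _
  linarith

theorem BC.integrable {f : V → ℝ} (hf : BC f) : Integrable f := by
  obtain ⟨M, R, hM0, -, hM, hR⟩ := hf.bounds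
  have h1 : Integrable ((ball (0 : V) R).indicator fun _ => M) := by
    rw [integrable_indicator_iff measurableSet_ball]
    exact integrableOn_const (by finiteness)
  refine h1.mono' hf.meas.aestronglyMeasurable (Eventually.of_forall fun x => ?_)
  by_cases h : x ∈ ball (0 : V) R
  · simpa [h] using hM x
  · have : f x = 0 := hR x (by simpa using h)
    simp [h, this]

theorem BC.mul_bdd {f g : V → ℝ} (hf : BC f) (hg : Measurable g) {B : ℝ} (hB : ∀ x, |g x| ≤ B) :
    Integrable (fun x => f x * g x) := by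
  refine (hf.integrable.norm.mul_const B).mono' (hf.meas.mul hg).aestronglyMeasurable
    (Eventually.of_forall fun x => ?_)
  rw [norm_mul]
  exact mul_le_mul_of_nonneg_left (hB x) (norm_nonneg _)

/-- admissible singular kernels -/
structure Ker (K : V → ℝ) : Prop where
  meas : Measurable K
  cont : ∀ v, v ≠ 0 → ContinuousAt K v
  bd : ∃ C, 0 ≤ C ∧ ∀ v, |K v| ≤ C * (1 + (‖v‖ ^ 2)⁻¹)

section dim3

variable [hd : Fact (Module.finrank ℝ V = 3)]

include hd in
theorem nontriv : Nontrivial V :=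
  Module.nontrivial_of_finrank_pos (R := ℝ) (by rw [hd.out]; norm_num)

include hd in
theorem integrableOn_inv_sq (r : ℝ) : IntegrableOn (fun v : V => (‖v‖ ^ 2)⁻¹) (ball 0 r) := by
  refine integrableOn_ball_of_norm_le_rpow (α := 2) (C := 1) ?_ ?_ ?_ ?_
  · rw [hd.out]; norm_num
  · rw [hd.out]; norm_num
  · refine Eventually.of_forall fun x => ?_
    rw [Real.norm_of_nonneg (by positivity), one_mul, Real.rpow_neg (norm_nonneg _)]
    norm_num
  · exact (measurable_norm.pow_const 2).inv.aestronglyMeasurable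

variable (V) in
/-- the constant `∫_{|v|<1} |v|^{-2}` -/
noncomputable def c2 : ℝ := ∫ v in ball (0 : V) 1, (‖v‖ ^ 2)⁻¹

/-- dominating function -/
noncomputable def dom (R : ℝ) (x y : V) : ℝ :=
  2 * (ball (0 : V) R).indicator (fun _ => (1 : ℝ)) y +
    (ball (0 : V) 1).indicator (fun v => (‖v‖ ^ 2)⁻¹) (x - y)

theorem dom_nonneg (R : ℝ) (x y : V) : 0 ≤ dom R x y := by
  unfold dom
  have h1 : 0 ≤ (ball (0 : V) R).indicator (fun _ => (1 : ℝ)) y :=
    indicator_nonneg (fun _ _ => zero_le_one) _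
  have h2 : 0 ≤ (ball (0 : V) 1).indicator (fun v => (‖v‖ ^ 2)⁻¹) (x - y) :=
    indicator_nonneg (fun _ _ => by positivity) _
  linarith

theorem le_dom {R : ℝ} {x y : V} (hy : y ∈ ball (0 : V) R) :
    1 + (‖x - y‖ ^ 2)⁻¹ ≤ dom R x y := by
  unfold dom
  rw [indicator_of_mem hy]
  by_cases h : x - y ∈ ball (0 : V) 1
  · rw [indicator_of_mem h]; linarith
  · rw [indicator_of_notMem h]
    have h1 : 1 ≤ ‖x - y‖ := by simpa using h
    have h2 : (‖x - y‖ ^ 2)⁻¹ ≤ 1 := inv_le_one_of_one_le₀ (one_le_pow₀ h1)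
    linarith

variable (V) in
/-- the total mass of the dominating function -/
noncomputable def cdom (R : ℝ) : ℝ := 2 * volume.real (ball (0 : V) R) + c2 V

include hd in
theorem integrable_ind_inv_sq : Integrable ((ball (0 : V) 1).indicator fun v => (‖v‖ ^ 2)⁻¹) :=
  (integrable_indicator_iff measurableSet_ball).mpr (integrableOn_inv_sq 1)

theorem integrable_dom (R : ℝ) (x : V) : Integrable (fun y => dom R x y) := by
  unfold dom
  refine Integrable.add (Integrable.const_mul ?_ 2) ?_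
  · rw [integrable_indicator_iff measurableSet_ball]
    exact integrableOn_const (by finiteness)
  · exact (integrable_ind_inv_sq (V := V)).comp_sub_left x

theorem integral_dom (R : ℝ) (x : V) : ∫ y, dom R x y = cdom V R := by
  unfold dom cdom c2
  rw [integral_add, integral_const_mul, integral_indicator measurableSet_ball,
    integral_sub_left_eq_self (fun v : V => (ball (0 : V) 1).indicator (fun v => (‖v‖ ^ 2)⁻¹) v)
      volume x, integral_indicator measurableSet_ball]
  · simp
  · refine (Integrable.const_mul ?_ 2)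
    rw [integrable_indicator_iff measurableSet_ball]
    exact integrableOn_const (by finiteness)
  · exact (integrable_ind_inv_sq (V := V)).comp_sub_left x

theorem ker_le_dom {K : V → ℝ} {C : ℝ} (hC : 0 ≤ C) (hb : ∀ v, |K v| ≤ C * (1 + (‖v‖ ^ 2)⁻¹))
    {f : V → ℝ} {M R : ℝ} (hM : ∀ x, |f x| ≤ M) (hR : ∀ x, R ≤ ‖x‖ → f x = 0) (x y : V) :
    |K (x - y) * f y| ≤ C * M * dom R x y := by
  have hM0 : 0 ≤ M := (abs_nonneg _).trans (hM 0)
  by_cases hy : y ∈ ball (0 : V) R
  · rw [abs_mul]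
    calc |K (x - y)| * |f y| ≤ (C * (1 + (‖x - y‖ ^ 2)⁻¹)) * M :=
          mul_le_mul (hb _) (hM _) (abs_nonneg _) (by positivity)
      _ ≤ (C * dom R x y) * M := by
          gcongr
          exact le_dom hy
      _ = _ := by ring
  · have : f y = 0 := hR y (by simpa using hy)
    rw [this, mul_zero, abs_zero]
    have := dom_nonneg R x y
    positivity

theorem Ker.integrable {K : V → ℝ} (hK : Ker K) {f : V → ℝ} (hf : BC f) (x : V) :
    Integrable (fun y => K (x - y) * f y) := by
  obtain ⟨M, R, hM0, hR0, hM, hR⟩ := hf.bounds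
  obtain ⟨C, hC, hb⟩ := hK.bd
  refine ((integrable_dom R x).const_mul (C * M)).mono' ?_ (Eventually.of_forall fun y => ?_)
  · exact ((hK.meas.comp (measurable_const.sub measurable_id)).mul hf.meas).aestronglyMeasurable
  · exact ker_le_dom hC hb hM hR x y

theorem ker_int_abs_le {K : V → ℝ} (hKm : Measurable K) {C : ℝ} (hC : 0 ≤ C)
    (hb : ∀ v, |K v| ≤ C * (1 + (‖v‖ ^ 2)⁻¹))
    {f : V → ℝ} {M R : ℝ} (hfm : Measurable f) (hM : ∀ x, |f x| ≤ M)
    (hR : ∀ x, R ≤ ‖x‖ → f x = 0) (x : V) :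
    ∫ y, |K (x - y) * f y| ≤ C * M * cdom V R := by
  rw [← integral_dom R x, ← integral_const_mul]
  refine integral_mono_of_nonneg (Eventually.of_forall fun y => abs_nonneg _)
    ((integrable_dom R x).const_mul (C * M)) (Eventually.of_forall fun y => ?_)
  exact ker_le_dom hC hb hM hR x y

theorem Ker.bound {K : V → ℝ} (hK : Ker K) {f : V → ℝ} (hf : BC f) :
    ∃ B, ∀ x, |∫ y, K (x - y) * f y| ≤ B := by
  obtain ⟨M, R, hM0, hR0, hM, hR⟩ := hf.bounds
  obtain ⟨C, hC, hb⟩ := hK.bd
  refine ⟨C * M * cdom V R, fun x => ?_⟩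
  refine (abs_integral_le_integral_abs).trans ?_
  exact ker_int_abs_le hK.meas hC hb hf.meas hM hR x

theorem Ker.integrable_prod {K : V → ℝ} (hK : Ker K) {f g : V → ℝ} (hf : BC f) (hg : BC g) :
    Integrable (fun p : V × V => f p.1 * (K (p.1 - p.2) * g p.2)) (volume.prod volume) := by
  obtain ⟨M, R, hM0, hR0, hM, hR⟩ := hg.bounds
  obtain ⟨C, hC, hb⟩ := hK.bd
  have hm : AEStronglyMeasurable (fun p : V × V => f p.1 * (K (p.1 - p.2) * g p.2))
      (volume.prod volume) := by
    refine ((hf.meas.comp measurable_fst).mul ((hK.meas.comp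
      (measurable_fst.sub measurable_snd)).mul (hg.meas.comp measurable_snd))).aestronglyMeasurable
  rw [integrable_prod_iff hm]
  refine ⟨Eventually.of_forall fun x => (hK.integrable hg x).const_mul (f x), ?_⟩
  have h2 : Integrable (fun x => |f x| * (C * M * cdom V R)) := hf.integrable.abs.mul_const _
  refine h2.mono' hm.norm.integral_prod_right' (Eventually.of_forall fun x => ?_)
  rw [Real.norm_of_nonneg (integral_nonneg fun y => norm_nonneg _)]
  calc ∫ y, ‖f x * (K (x - y) * g y)‖ = |f x| * ∫ y, |K (x - y) * g y| := by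
        rw [← integral_const_mul]
        refine integral_congr_ae (Eventually.of_forall fun y => ?_)
        simp only [Real.norm_eq_abs, abs_mul]
    _ ≤ _ := mul_le_mul_of_nonneg_left (ker_int_abs_le hK.meas hC hb hg.meas hM hR x)
        (abs_nonneg _)

/-- continuity of `x ↦ ∫ K (x - y) f y` -/
theorem Ker.continuous_conv {K : V → ℝ} (hK : Ker K) {f : V → ℝ} (hf : BC f) :
    Continuous (fun x => ∫ y, K (x - y) * f y) := by
  obtain ⟨M, R, hM0, hR0, hM, hR⟩ := hf.bounds
  obtain ⟨C, hC, hb⟩ := hK.bd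
  -- cut-off kernels
  set Kn : ℕ → V → ℝ := fun n v => K v * (min 1 (((n : ℝ) + 1) * ‖v‖)) ^ 3 with hKn
  have hcut0 : ∀ (n : ℕ) (v : V), 0 ≤ (min 1 (((n : ℝ) + 1) * ‖v‖)) ^ 3 := fun n v => by
    have : 0 ≤ min 1 (((n : ℝ) + 1) * ‖v‖) := le_min zero_le_one (by positivity)
    positivity
  have hcut1 : ∀ (n : ℕ) (v : V), (min 1 (((n : ℝ) + 1) * ‖v‖)) ^ 3 ≤ 1 := fun n v => by
    have : 0 ≤ min 1 (((n : ℝ) + 1) * ‖v‖) := le_min zero_le_one (by positivity)
    exact pow_le_one₀ this (min_le_left _ _)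
  have hKnb : ∀ (n : ℕ) (v : V), |Kn n v| ≤ |K v| := fun n v => by
    rw [hKn]
    simp only
    rw [abs_mul, abs_of_nonneg (hcut0 n v)]
    exact mul_le_of_le_one_right (abs_nonneg _) (hcut1 n v)
  -- bounded
  have hKnB : ∀ (n : ℕ) (v : V), |Kn n v| ≤ C * (((n : ℝ) + 1) ^ 2 * (1 + 1) ) := fun n v => by
    rw [hKn]
    simp only
    rw [abs_mul, abs_of_nonneg (hcut0 n v)]
    have hm0 : 0 ≤ min 1 (((n : ℝ) + 1) * ‖v‖) := le_min zero_le_one (by positivity)
    have h1 : (min 1 (((n : ℝ) + 1) * ‖v‖)) ^ 3 ≤ (min 1 (((n : ℝ) + 1) * ‖v‖)) ^ 2 :=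
      pow_le_pow_of_le_one hm0 (min_le_left _ _) (by norm_num)
    have h2 : (min 1 (((n : ℝ) + 1) * ‖v‖)) ^ 2 ≤ 1 := pow_le_one₀ hm0 (min_le_left _ _)
    have h3 : (min 1 (((n : ℝ) + 1) * ‖v‖)) ^ 2 ≤ ((n : ℝ) + 1) ^ 2 * ‖v‖ ^ 2 := by
      rw [← mul_pow]
      exact pow_le_pow_left₀ hm0 (min_le_right _ _) 2
    have h4 : (‖v‖ ^ 2)⁻¹ * (min 1 (((n : ℝ) + 1) * ‖v‖)) ^ 2 ≤ ((n : ℝ) + 1) ^ 2 := by
      by_cases hv : ‖v‖ = 0
      · simp [hv]; positivity
      · have hv2 : 0 < ‖v‖ ^ 2 := by positivity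
        rw [inv_mul_le_iff₀ hv2]
        linarith [h3, mul_comm (((n : ℝ) + 1) ^ 2) (‖v‖ ^ 2)]
    have h5 : (1 : ℝ) ≤ ((n : ℝ) + 1) ^ 2 := by
      have : (1 : ℝ) ≤ (n : ℝ) + 1 := by linarith [Nat.cast_nonneg (α := ℝ) n]
      exact one_le_pow₀ this
    calc |K v| * (min 1 (((n : ℝ) + 1) * ‖v‖)) ^ 3
        ≤ (C * (1 + (‖v‖ ^ 2)⁻¹)) * (min 1 (((n : ℝ) + 1) * ‖v‖)) ^ 2 :=
          mul_le_mul (hb v) h1 (hcut0 n v) (by positivity)
      _ = C * ((min 1 (((n : ℝ) + 1) * ‖v‖)) ^ 2 +
            (‖v‖ ^ 2)⁻¹ * (min 1 (((n : ℝ) + 1) * ‖v‖)) ^ 2) := by ring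
      _ ≤ C * (((n : ℝ) + 1) ^ 2 * (1 + 1)) := by
          gcongr
          linarith
  have hKnc : ∀ n, Continuous (Kn n) := by
    intro n
    rw [continuous_iff_continuousAt]
    intro v
    by_cases hv : v = 0
    · subst hv
      have h0 : Kn n 0 = 0 := by simp [hKn]
      rw [ContinuousAt, h0]
      have hlim : Tendsto (fun v : V => C * (((n : ℝ) + 1) ^ 2 * (‖v‖ ^ 1 * (((n : ℝ) + 1))
          + (((n : ℝ) + 1)) * ‖v‖))) (𝓝 0) (𝓝 0) := by
        have hc : Continuous (fun v : V => C * (((n : ℝ) + 1) ^ 2 * (‖v‖ ^ 1 * (((n : ℝ) + 1))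
          + (((n : ℝ) + 1)) * ‖v‖))) := by fun_prop
        have := hc.tendsto 0
        simpa using this
      refine squeeze_zero_norm (fun v => ?_) hlim
      rw [hKn]
      simp only
      rw [norm_mul, Real.norm_eq_abs, Real.norm_of_nonneg (hcut0 n v)]
      have hm0 : 0 ≤ min 1 (((n : ℝ) + 1) * ‖v‖) := le_min zero_le_one (by positivity)
      set m := min 1 (((n : ℝ) + 1) * ‖v‖) with hm
      have hm1 : m ≤ 1 := min_le_left _ _
      have hm2 : m ≤ ((n : ℝ) + 1) * ‖v‖ := min_le_right _ _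
      have h4 : (‖v‖ ^ 2)⁻¹ * m ^ 2 ≤ ((n : ℝ) + 1) ^ 2 := by
        by_cases hv : ‖v‖ = 0
        · simp [hv]; positivity
        · have hv2 : 0 < ‖v‖ ^ 2 := by positivity
          rw [inv_mul_le_iff₀ hv2]
          calc m ^ 2 ≤ (((n : ℝ) + 1) * ‖v‖) ^ 2 := pow_le_pow_left₀ hm0 hm2 2
            _ = _ := by ring
      have h5 : (1 : ℝ) ≤ ((n : ℝ) + 1) ^ 2 := by
        have : (1 : ℝ) ≤ (n : ℝ) + 1 := by linarith [Nat.cast_nonneg (α := ℝ) n]
        exact one_le_pow₀ this
      have h6 : m ^ 2 ≤ 1 := pow_le_one₀ hm0 hm1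
      calc |K v| * m ^ 3 ≤ (C * (1 + (‖v‖ ^ 2)⁻¹)) * m ^ 3 :=
            mul_le_mul_of_nonneg_right (hb v) (by positivity)
        _ = C * ((m ^ 2 + (‖v‖ ^ 2)⁻¹ * m ^ 2) * m) := by ring
        _ ≤ C * ((((n : ℝ) + 1) ^ 2 + ((n : ℝ) + 1) ^ 2) * (((n : ℝ) + 1) * ‖v‖)) := by
            gcongr
            linarith
        _ = _ := by ring
    · rw [hKn]
      refine (hK.cont v hv).mul ?_
      exact Continuous.continuousAt (by fun_prop)
  -- uniform convergence
  have hsmall : Tendsto (fun n : ℕ => ∫ v in ball (0 : V) (1 / ((n : ℝ) + 1)),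
      (1 + (‖v‖ ^ 2)⁻¹)) atTop (𝓝 0) := by
    have hanti : Antitone (fun n : ℕ => ball (0 : V) (1 / ((n : ℝ) + 1))) := by
      intro a b hab
      refine ball_subset_ball ?_
      exact one_div_le_one_div_of_le (by positivity) (by exact_mod_cast Nat.succ_le_succ hab)
    have h1 := tendsto_setIntegral_of_antitone (μ := (volume : Measure V))
      (f := fun v : V => 1 + (‖v‖ ^ 2)⁻¹) (s := fun n : ℕ => ball (0 : V) (1 / ((n : ℝ) + 1)))
      (fun n => measurableSet_ball) hanti
      ⟨0, (integrableOn_const (by finiteness)).add (integrableOn_inv_sq _)⟩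
    have h2 : (⋂ n : ℕ, ball (0 : V) (1 / ((n : ℝ) + 1))) ⊆ {0} := by
      intro v hv
      rw [mem_iInter] at hv
      by_contra hne
      have hpos : 0 < ‖v‖ := norm_pos_iff.mpr hne
      obtain ⟨n, hn⟩ := exists_nat_one_div_lt hpos
      have := hv n
      rw [mem_ball_zero_iff] at this
      linarith
    have h3 : ∫ v in ⋂ n : ℕ, ball (0 : V) (1 / ((n : ℝ) + 1)), (1 + (‖v‖ ^ 2)⁻¹) = 0 := by
      refine setIntegral_measure_zero _ ?_
      haveI := nontriv (V := V)
      exact measure_mono_null h2 (measure_singleton _)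
    rwa [h3] at h1
  have hunif : TendstoUniformly (fun (n : ℕ) (x : V) => ∫ y, Kn n (x - y) * f y)
      (fun x => ∫ y, K (x - y) * f y) atTop := by
    rw [Metric.tendstoUniformly_iff]
    intro ε hε
    have h1 : Tendsto (fun n : ℕ => M * C * ∫ v in ball (0 : V) (1 / ((n : ℝ) + 1)),
        (1 + (‖v‖ ^ 2)⁻¹)) atTop (𝓝 0) := by
      simpa using hsmall.const_mul (M * C)
    filter_upwards [h1.eventually (gt_mem_nhds hε)] with n hn x
    refine lt_of_le_of_lt ?_ hn
    have hKnI : Integrable (fun y => Kn n (x - y) * f y) := by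
      refine (hK.integrable hf x).mono ?_ (Eventually.of_forall fun y => ?_)
      · exact (((hKnc n).measurable.comp (measurable_const.sub measurable_id)).mul
          hf.meas).aestronglyMeasurable
      · have h8 : ‖Kn n (x - y)‖ * ‖f y‖ ≤ ‖K (x - y)‖ * ‖f y‖ :=
          mul_le_mul_of_nonneg_right (hKnb n (x - y)) (norm_nonneg (f y))
        simpa only [norm_mul (Kn n (x - y)) (f y), norm_mul (K (x - y)) (f y)] using h8
    rw [Real.dist_eq, ← integral_sub (hK.integrable hf x) hKnI]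
    refine (abs_integral_le_integral_abs).trans ?_
    have hI : Integrable (fun v : V => (ball (0 : V) (1 / ((n : ℝ) + 1))).indicator
        (fun v => 1 + (‖v‖ ^ 2)⁻¹) v) := by
      rw [integrable_indicator_iff measurableSet_ball]
      exact (integrableOn_const (by finiteness)).add (integrableOn_inv_sq _)
    have h5 : ∫ v in ball (0 : V) (1 / ((n : ℝ) + 1)), (1 + (‖v‖ ^ 2)⁻¹) =
        ∫ y, (ball (0 : V) (1 / ((n : ℝ) + 1))).indicator
        (fun v => 1 + (‖v‖ ^ 2)⁻¹) (x - y) := by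
      rw [integral_sub_left_eq_self (fun v : V => (ball (0 : V) (1 / ((n : ℝ) + 1))).indicator
        (fun v => 1 + (‖v‖ ^ 2)⁻¹) v) volume x, integral_indicator measurableSet_ball]
    rw [h5, ← integral_const_mul]
    refine integral_mono_of_nonneg (Eventually.of_forall fun y => abs_nonneg _)
      ((hI.comp_sub_left x).const_mul _) (Eventually.of_forall fun y => ?_)
    simp only
    by_cases hy : x - y ∈ ball (0 : V) (1 / ((n : ℝ) + 1))
    · rw [indicator_of_mem hy]
      have e1 : K (x - y) * f y - Kn n (x - y) * f y =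
          (K (x - y) * (1 - (min 1 (((n : ℝ) + 1) * ‖x - y‖)) ^ 3)) * f y := by
        rw [hKn]; ring
      rw [e1, abs_mul, abs_mul]
      have e2 : |1 - (min 1 (((n : ℝ) + 1) * ‖x - y‖)) ^ 3| ≤ 1 := by
        rw [abs_le]
        constructor <;> linarith [hcut0 n (x - y), hcut1 n (x - y)]
      calc |K (x - y)| * |1 - (min 1 (((n : ℝ) + 1) * ‖x - y‖)) ^ 3| * |f y|
          ≤ (C * (1 + (‖x - y‖ ^ 2)⁻¹)) * 1 * M := by
            refine mul_le_mul (mul_le_mul (hb _) e2 (abs_nonneg _) (by positivity)) (hM _)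
              (abs_nonneg _) (by positivity)
        _ = _ := by ring
    · rw [indicator_of_notMem hy, mul_zero]
      have h7 : 1 / ((n : ℝ) + 1) ≤ ‖x - y‖ := by simpa using hy
      have h8 : 1 ≤ ((n : ℝ) + 1) * ‖x - y‖ := by
        rw [div_le_iff₀ (by positivity)] at h7
        linarith [mul_comm ((n : ℝ) + 1) ‖x - y‖]
      have h9 : Kn n (x - y) = K (x - y) := by
        rw [hKn]
        simp [min_eq_left h8]
      rw [h9, sub_self, abs_zero]
  refine hunif.continuous (Eventually.of_forall fun n => ?_).frequently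
  have hbd : ∀ x, ∀ᵐ y : V, ‖Kn n (x - y) * f y‖ ≤ C * (((n : ℝ) + 1) ^ 2 * (1 + 1)) * |f y| :=
    fun x => Eventually.of_forall fun y => by
      rw [norm_mul]
      exact mul_le_mul_of_nonneg_right (hKnB n _) (abs_nonneg _)
  refine continuous_of_dominated (fun x => ?_) hbd (hf.integrable.abs.const_mul _)
    (Eventually.of_forall fun y => ?_)
  · exact (((hKnc n).measurable.comp (measurable_const.sub measurable_id)).mul
          hf.meas).aestronglyMeasurable
  · exact ((hKnc n).comp (continuous_id.sub continuous_const)).mul continuous_const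

end dim3

end Pool.Agent.TF

end

section
/-! Newtonian potentials, their directional derivatives, energy and force forms. -/

set_option linter.unusedSectionVars false

set_option linter.unusedVariables false

set_option linter.style.haveILetI false

namespace Pool.Agent.TF

open MeasureTheory Set Metric Filter Topology

open scoped ENNReal NNReal RealInnerProductSpace

variable {V : Type*} [NormedAddCommGroup V] [InnerProductSpace ℝ V] [FiniteDimensional ℝ V]
  [MeasurableSpace V] [BorelSpace V]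

/-- Newtonian potential of a density -/
noncomputable def pot (f : V → ℝ) (x : V) : ℝ := ∫ y, ‖x - y‖⁻¹ * f y

/-- derivative of the potential in direction `e` -/
noncomputable def grad (e : V) (f : V → ℝ) (x : V) : ℝ :=
  ∫ y, -(⟪x - y, e⟫ * (‖x - y‖ ^ 3)⁻¹) * f y

/-- Coulomb energy form -/
noncomputable def En (f g : V → ℝ) : ℝ := ∫ x, f x * pot g x

/-- force form -/
noncomputable def Fo (e : V) (f g : V → ℝ) : ℝ := ∫ x, f x * grad e g x

theorem ker_pot : Ker (fun v : V => ‖v‖⁻¹) where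
  meas := measurable_norm.inv
  cont v hv := by
    have : ‖v‖ ≠ 0 := norm_ne_zero_iff.mpr hv
    fun_prop (disch := assumption)
  bd := by
    refine ⟨1, zero_le_one, fun v => ?_⟩
    rw [abs_of_nonneg (by positivity), one_mul, ← inv_pow]
    nlinarith [sq_nonneg (‖v‖⁻¹ - 1)]

theorem ker_grad (e : V) : Ker (fun v : V => -(⟪v, e⟫ * (‖v‖ ^ 3)⁻¹)) where
  meas := ((measurable_id.inner measurable_const).mul (measurable_norm.pow_const 3).inv).neg
  cont v hv := by
    have : ‖v‖ ^ 3 ≠ 0 := pow_ne_zero _ (norm_ne_zero_iff.mpr hv)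
    fun_prop (disch := assumption)
  bd := by
    refine ⟨‖e‖, norm_nonneg _, fun v => ?_⟩
    rw [abs_neg, abs_mul, abs_of_nonneg (by positivity : (0 : ℝ) ≤ (‖v‖ ^ 3)⁻¹)]
    have h1 : |⟪v, e⟫| ≤ ‖v‖ * ‖e‖ := abs_real_inner_le_norm v e
    by_cases hv : ‖v‖ = 0
    · simp [hv]
    · have hv2 : 0 < ‖v‖ := lt_of_le_of_ne (norm_nonneg _) (Ne.symm hv)
      calc |⟪v, e⟫| * (‖v‖ ^ 3)⁻¹ ≤ (‖v‖ * ‖e‖) * (‖v‖ ^ 3)⁻¹ :=
            mul_le_mul_of_nonneg_right h1 (by positivity)
        _ = ‖e‖ * (‖v‖ ^ 2)⁻¹ := by field_simp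
        _ ≤ ‖e‖ * (1 + (‖v‖ ^ 2)⁻¹) := by
            gcongr
            linarith

section dim3

variable [hd : Fact (Module.finrank ℝ V = 3)]

theorem pot_integrable {f : V → ℝ} (hf : BC f) (x : V) :
    Integrable (fun y => ‖x - y‖⁻¹ * f y) := ker_pot.integrable hf x

theorem grad_integrable {f : V → ℝ} (hf : BC f) (e x : V) :
    Integrable (fun y => -(⟪x - y, e⟫ * (‖x - y‖ ^ 3)⁻¹) * f y) := (ker_grad e).integrable hf x

theorem pot_continuous {f : V → ℝ} (hf : BC f) : Continuous (pot f) :=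
  ker_pot.continuous_conv hf

theorem grad_continuous {f : V → ℝ} (hf : BC f) (e : V) : Continuous (grad e f) :=
  (ker_grad e).continuous_conv hf

theorem pot_bound {f : V → ℝ} (hf : BC f) : ∃ B, ∀ x, |pot f x| ≤ B := ker_pot.bound hf

theorem grad_bound {f : V → ℝ} (hf : BC f) (e : V) : ∃ B, ∀ x, |grad e f x| ≤ B :=
  (ker_grad e).bound hf

/-! ### linearity -/

theorem pot_add {f g : V → ℝ} (hf : BC f) (hg : BC g) (x : V) :
    pot (fun y => f y + g y) x = pot f x + pot g x := by
  unfold pot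
  rw [← integral_add (pot_integrable hf x) (pot_integrable hg x)]
  exact integral_congr_ae (Eventually.of_forall fun y => by ring)

theorem pot_const_mul (c : ℝ) (f : V → ℝ) (x : V) :
    pot (fun y => c * f y) x = c * pot f x := by
  unfold pot
  rw [← integral_const_mul]
  exact integral_congr_ae (Eventually.of_forall fun y => by ring)

theorem pot_sub {f g : V → ℝ} (hf : BC f) (hg : BC g) (x : V) :
    pot (fun y => f y - g y) x = pot f x - pot g x := by
  unfold pot
  rw [← integral_sub (pot_integrable hf x) (pot_integrable hg x)]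
  exact integral_congr_ae (Eventually.of_forall fun y => by ring)

theorem grad_add {f g : V → ℝ} (hf : BC f) (hg : BC g) (e x : V) :
    grad e (fun y => f y + g y) x = grad e f x + grad e g x := by
  unfold grad
  rw [← integral_add (grad_integrable hf e x) (grad_integrable hg e x)]
  exact integral_congr_ae (Eventually.of_forall fun y => by ring)

theorem grad_sub {f g : V → ℝ} (hf : BC f) (hg : BC g) (e x : V) :
    grad e (fun y => f y - g y) x = grad e f x - grad e g x := by
  unfold grad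
  rw [← integral_sub (grad_integrable hf e x) (grad_integrable hg e x)]
  exact integral_congr_ae (Eventually.of_forall fun y => by ring)

theorem pot_congr_ae {f g : V → ℝ} (h : f =ᵐ[volume] g) : pot f = pot g := by
  funext x
  unfold pot
  refine integral_congr_ae ?_
  filter_upwards [h] with y hy
  rw [hy]

theorem pot_nonneg {f : V → ℝ} (hf : ∀ x, 0 ≤ f x) (x : V) : 0 ≤ pot f x :=
  integral_nonneg fun y => mul_nonneg (by positivity) (hf y)

/-! ### isometries and translations -/

theorem pot_comp_isom (L : V ≃ₗᵢ[ℝ] V) (f : V → ℝ) (x : V) :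
    pot (fun y => f (L y)) x = pot f (L x) := by
  unfold pot
  rw [← L.measurePreserving.integral_comp L.toMeasurableEquiv.measurableEmbedding
    (fun y => ‖L x - y‖⁻¹ * f y)]
  refine integral_congr_ae (Eventually.of_forall fun y => ?_)
  simp only
  rw [← map_sub, L.norm_map]

theorem grad_comp_isom (L : V ≃ₗᵢ[ℝ] V) (e : V) (f : V → ℝ) (x : V) :
    grad e (fun y => f (L y)) x = grad (L e) f (L x) := by
  unfold grad
  rw [← L.measurePreserving.integral_comp L.toMeasurableEquiv.measurableEmbedding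
    (fun y => -(⟪L x - y, L e⟫ * (‖L x - y‖ ^ 3)⁻¹) * f y)]
  refine integral_congr_ae (Eventually.of_forall fun y => ?_)
  simp only
  rw [← map_sub, L.norm_map, L.inner_map_map]

theorem pot_translate (f : V → ℝ) (c x : V) :
    pot (fun y => f (y + c)) x = pot f (x + c) := by
  unfold pot
  rw [← integral_add_right_eq_self (fun y => ‖x + c - y‖⁻¹ * f y) c]
  refine integral_congr_ae (Eventually.of_forall fun y => ?_)
  simp only
  rw [add_sub_add_right_eq_sub]

theorem grad_translate (e : V) (f : V → ℝ) (c x : V) :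
    grad e (fun y => f (y + c)) x = grad e f (x + c) := by
  unfold grad
  rw [← integral_add_right_eq_self (fun y => -(⟪x + c - y, e⟫ * (‖x + c - y‖ ^ 3)⁻¹) * f y) c]
  refine integral_congr_ae (Eventually.of_forall fun y => ?_)
  simp only
  rw [add_sub_add_right_eq_sub]

/-! ### the line derivative -/

theorem hasDerivAt_inv_norm_line (v e : V) (s : ℝ) (h : v + s • e ≠ 0) :
    HasDerivAt (fun s : ℝ => ‖v + s • e‖⁻¹)
      (-(⟪v + s • e, e⟫ * (‖v + s • e‖ ^ 3)⁻¹)) s := by
  have hn : 0 < ‖v + s • e‖ := norm_pos_iff.mpr h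
  have h1 : HasDerivAt (fun s : ℝ => v + s • e) e s := by
    simpa using ((hasDerivAt_id s).smul_const e).const_add v
  have h2 : HasDerivAt (fun s : ℝ => ‖v + s • e‖ ^ 2) (2 * ⟪v + s • e, e⟫) s := h1.norm_sq
  have h3 : HasDerivAt (fun s : ℝ => √(‖v + s • e‖ ^ 2))
      (2 * ⟪v + s • e, e⟫ / (2 * √(‖v + s • e‖ ^ 2))) s := h2.sqrt (by positivity)
  have h4 : (fun s : ℝ => √(‖v + s • e‖ ^ 2)) = fun s : ℝ => ‖v + s • e‖ := by
    funext s; exact Real.sqrt_sq (norm_nonneg _)
  rw [h4, Real.sqrt_sq (norm_nonneg _)] at h3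
  have h5 := h3.inv hn.ne'
  refine h5.congr_deriv ?_
  field_simp

theorem line_null (x e : V) : volume {y : V | ∃ s : ℝ, x - y + s • e = 0} = 0 := by
  haveI := nontriv (V := V)
  set A : AffineSubspace ℝ V := AffineSubspace.mk' x (Submodule.span ℝ {e}) with hA
  have hne : A ≠ ⊤ := by
    intro h
    have h1 : A.direction = ⊤ := by rw [h]; exact AffineSubspace.direction_top ℝ V V
    rw [hA, AffineSubspace.direction_mk'] at h1
    have h2 : Module.finrank ℝ (Submodule.span ℝ {e} : Submodule ℝ V) ≤ 1 := by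
      have := finrank_span_le_card (R := ℝ) ({e} : Set V)
      simpa using this
    rw [h1, finrank_top, hd.out] at h2
    omega
  refine measure_mono_null ?_ (Measure.addHaar_affineSubspace volume A hne)
  rintro y ⟨s, hs⟩
  rw [SetLike.mem_coe, hA, AffineSubspace.mem_mk', Submodule.mem_span_singleton]
  refine ⟨s, ?_⟩
  rw [vsub_eq_sub]
  have : s • e = y - x := by
    have h := hs
    rw [sub_add_eq_add_sub, sub_eq_zero] at h
    rw [← h]; abel
  exact this

theorem pot_sub_pot_le {f : V → ℝ} (hf : BC f) (x e : V) {a b : ℝ} (hab : a ≤ b) :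
    pot f (x + b • e) - pot f (x + a • e) = ∫ s in Ioc a b, grad e f (x + s • e) := by
  obtain ⟨M, R, hM0, hR0, hM, hR⟩ := hf.bounds
  obtain ⟨C, hC, hb⟩ := (ker_grad e).bd
  have hmeas : Measurable (fun p : ℝ × V =>
      -(⟪x + p.1 • e - p.2, e⟫ * (‖x + p.1 • e - p.2‖ ^ 3)⁻¹) * f p.2) := by
    have h1 : Measurable (fun p : ℝ × V => x + p.1 • e - p.2) := by fun_prop
    exact ((ker_grad e).meas.comp h1).mul (hf.meas.comp measurable_snd)
  have hint : Integrable (fun p : ℝ × V =>
      -(⟪x + p.1 • e - p.2, e⟫ * (‖x + p.1 • e - p.2‖ ^ 3)⁻¹) * f p.2)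
      ((volume.restrict (Ioc a b)).prod volume) := by
    rw [integrable_prod_iff hmeas.aestronglyMeasurable]
    refine ⟨Eventually.of_forall fun s => grad_integrable hf e (x + s • e), ?_⟩
    have h2 : Integrable (fun _ : ℝ => C * M * cdom V R) (volume.restrict (Ioc a b)) :=
      integrableOn_const (by simp)
    refine h2.mono' hmeas.aestronglyMeasurable.norm.integral_prod_right'
      (Eventually.of_forall fun s => ?_)
    rw [Real.norm_of_nonneg (integral_nonneg fun y => norm_nonneg _)]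
    exact ker_int_abs_le (ker_grad e).meas hC hb hf.meas hM hR (x + s • e)
  unfold grad
  rw [integral_integral_swap hint]
  unfold pot
  rw [← integral_sub (pot_integrable hf _) (pot_integrable hf _)]
  refine integral_congr_ae ?_
  have hnull : ∀ᵐ y : V, ∀ s : ℝ, x - y + s • e ≠ 0 := by
    have := line_null x e
    rw [← compl_compl {y : V | ∃ s : ℝ, x - y + s • e = 0}, ← mem_ae_iff] at this
    filter_upwards [this] with y hy s hs
    exact hy ⟨s, hs⟩
  filter_upwards [hnull] with y hy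
  have h3 : ∀ s : ℝ, x + s • e - y = x - y + s • e := fun s => by abel
  simp only [h3]
  rw [← sub_mul, integral_mul_const]
  congr 1
  rw [← intervalIntegral.integral_of_le hab]
  rw [intervalIntegral.integral_eq_sub_of_hasDerivAt
    (fun s _ => hasDerivAt_inv_norm_line (x - y) e s (hy s))]
  refine Continuous.intervalIntegrable ?_ _ _
  rw [continuous_iff_continuousAt]
  intro s
  exact ((ker_grad e).cont _ (hy s)).comp (f := fun s : ℝ => x - y + s • e)
    (Continuous.continuousAt (by fun_prop))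

theorem pot_sub_pot {f : V → ℝ} (hf : BC f) (x e : V) (a b : ℝ) :
    pot f (x + b • e) - pot f (x + a • e) = ∫ s in a..b, grad e f (x + s • e) := by
  rcases le_total a b with h | h
  · rw [intervalIntegral.integral_of_le h, pot_sub_pot_le hf x e h]
  · rw [intervalIntegral.integral_of_ge h, ← pot_sub_pot_le hf x e h]; ring

theorem hasDerivAt_pot {f : V → ℝ} (hf : BC f) (x e : V) (t : ℝ) :
    HasDerivAt (fun t : ℝ => pot f (x + t • e)) (grad e f (x + t • e)) t := by
  have h1 : (fun t : ℝ => pot f (x + t • e)) =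
      fun t : ℝ => pot f (x + (0 : ℝ) • e) + ∫ s in (0 : ℝ)..t, grad e f (x + s • e) := by
    funext t
    rw [← pot_sub_pot hf x e 0 t]; ring
  rw [h1]
  refine HasDerivAt.const_add _ ?_
  have hc : Continuous (fun s : ℝ => grad e f (x + s • e)) :=
    (grad_continuous hf e).comp (by fun_prop)
  exact intervalIntegral.integral_hasDerivAt_right (hc.intervalIntegrable _ _)
    (hc.stronglyMeasurableAtFilter _ _) hc.continuousAt

/-! ### decay -/

theorem pot_decay {f : V → ℝ} (hf : BC f) {ε : ℝ} (hε : 0 < ε) :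
    ∃ R', ∀ x, R' ≤ ‖x‖ → |pot f x| < ε := by
  obtain ⟨M, R, hM0, hR0, hM, hR⟩ := hf.bounds
  set I := ∫ y, |f y| with hI
  have hI0 : 0 ≤ I := integral_nonneg fun y => abs_nonneg _
  refine ⟨R + (I + 1) / ε, fun x hx => ?_⟩
  have hpos : 0 < (I + 1) / ε := by positivity
  have hx1 : 0 < ‖x‖ - R := by linarith
  have h1 : |pot f x| ≤ ∫ y, (‖x‖ - R)⁻¹ * |f y| := by
    refine (abs_integral_le_integral_abs).trans ?_
    refine integral_mono_of_nonneg (Eventually.of_forall fun y => abs_nonneg _)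
      (hf.integrable.abs.const_mul _) (Eventually.of_forall fun y => ?_)
    simp only
    rw [abs_mul, abs_of_nonneg (by positivity : (0 : ℝ) ≤ ‖x - y‖⁻¹)]
    by_cases hy : R ≤ ‖y‖
    · rw [hR y hy]; simp
    · push Not at hy
      have h2 : ‖x‖ - R ≤ ‖x - y‖ := by
        have := norm_sub_norm_le x y
        linarith
      exact mul_le_mul_of_nonneg_right (inv_anti₀ hx1 h2) (abs_nonneg _)
  rw [integral_const_mul, ← hI] at h1
  refine h1.trans_lt ?_
  rw [inv_mul_lt_iff₀ hx1]
  have h3 : (I + 1) / ε ≤ ‖x‖ - R := by linarith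
  rw [div_le_iff₀ hε] at h3
  linarith

/-! ### energy and force forms -/

theorem En_integrable {f g : V → ℝ} (hf : BC f) (hg : BC g) :
    Integrable (fun x => f x * pot g x) := by
  obtain ⟨B, hB⟩ := pot_bound hg
  exact hf.mul_bdd (pot_continuous hg).measurable hB

theorem Fo_integrable {f g : V → ℝ} (hf : BC f) (hg : BC g) (e : V) :
    Integrable (fun x => f x * grad e g x) := by
  obtain ⟨B, hB⟩ := grad_bound hg e
  exact hf.mul_bdd (grad_continuous hg e).measurable hB

theorem En_symm {f g : V → ℝ} (hf : BC f) (hg : BC g) : En f g = En g f := by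
  unfold En pot
  simp_rw [← integral_const_mul]
  rw [integral_integral_swap (ker_pot.integrable_prod hf hg)]
  refine integral_congr_ae (Eventually.of_forall fun x => ?_)
  refine integral_congr_ae (Eventually.of_forall fun y => ?_)
  simp only
  rw [norm_sub_rev]; ring

theorem Fo_antisymm {f g : V → ℝ} (hf : BC f) (hg : BC g) (e : V) : Fo e f g = -Fo e g f := by
  unfold Fo grad
  simp_rw [← integral_const_mul]
  rw [integral_integral_swap ((ker_grad e).integrable_prod hf hg), ← integral_neg]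
  refine integral_congr_ae (Eventually.of_forall fun x => ?_)
  simp only
  rw [← integral_neg]
  refine integral_congr_ae (Eventually.of_forall fun y => ?_)
  simp only
  rw [norm_sub_rev, ← neg_sub x y, inner_neg_left]; ring

theorem Fo_self {f : V → ℝ} (hf : BC f) (e : V) : Fo e f f = 0 := by
  have := Fo_antisymm hf hf e
  linarith

theorem En_sub_left {f g h : V → ℝ} (hf : BC f) (hg : BC g) (hh : BC h) :
    En (fun x => f x - g x) h = En f h - En g h := by
  unfold En
  rw [← integral_sub (En_integrable hf hh) (En_integrable hg hh)]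
  exact integral_congr_ae (Eventually.of_forall fun y => by ring)

theorem En_sub_right {f g h : V → ℝ} (hf : BC f) (hg : BC g) (hh : BC h) :
    En f (fun x => g x - h x) = En f g - En f h := by
  unfold En
  rw [← integral_sub (En_integrable hf hg) (En_integrable hf hh)]
  refine integral_congr_ae (Eventually.of_forall fun y => ?_)
  simp only
  rw [pot_sub hg hh]; ring

theorem Fo_add_left {f g h : V → ℝ} (hf : BC f) (hg : BC g) (hh : BC h) (e : V) :
    Fo e (fun x => f x + g x) h = Fo e f h + Fo e g h := by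
  unfold Fo
  rw [← integral_add (Fo_integrable hf hh e) (Fo_integrable hg hh e)]
  exact integral_congr_ae (Eventually.of_forall fun y => by ring)

theorem Fo_add_right {f g h : V → ℝ} (hf : BC f) (hg : BC g) (hh : BC h) (e : V) :
    Fo e f (fun x => g x + h x) = Fo e f g + Fo e f h := by
  unfold Fo
  rw [← integral_add (Fo_integrable hf hg e) (Fo_integrable hf hh e)]
  refine integral_congr_ae (Eventually.of_forall fun y => ?_)
  simp only
  rw [grad_add hg hh]; ring

theorem Fo_sub_right {f g h : V → ℝ} (hf : BC f) (hg : BC g) (hh : BC h) (e : V) :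
    Fo e f (fun x => g x - h x) = Fo e f g - Fo e f h := by
  unfold Fo
  rw [← integral_sub (Fo_integrable hf hg e) (Fo_integrable hf hh e)]
  refine integral_congr_ae (Eventually.of_forall fun y => ?_)
  simp only
  rw [grad_sub hg hh]; ring

theorem En_comp_isom (L : V ≃ₗᵢ[ℝ] V) (f g : V → ℝ) :
    En (fun x => f (L x)) (fun x => g (L x)) = En f g := by
  unfold En
  rw [← L.measurePreserving.integral_comp L.toMeasurableEquiv.measurableEmbedding
    (fun x => f x * pot g x)]
  refine integral_congr_ae (Eventually.of_forall fun y => ?_)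
  simp only
  rw [pot_comp_isom]

theorem Fo_comp_isom (L : V ≃ₗᵢ[ℝ] V) (e : V) (f g : V → ℝ) :
    Fo e (fun x => f (L x)) (fun x => g (L x)) = Fo (L e) f g := by
  unfold Fo
  rw [← L.measurePreserving.integral_comp L.toMeasurableEquiv.measurableEmbedding
    (fun x => f x * grad (L e) g x)]
  refine integral_congr_ae (Eventually.of_forall fun y => ?_)
  simp only
  rw [grad_comp_isom]

theorem Fo_neg_dir (e : V) (f g : V → ℝ) : Fo (-e) f g = -Fo e f g := by
  unfold Fo grad
  rw [← integral_neg]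
  refine integral_congr_ae (Eventually.of_forall fun x => ?_)
  simp only
  rw [← mul_neg, ← integral_neg]
  congr 1
  refine integral_congr_ae (Eventually.of_forall fun y => ?_)
  simp only
  rw [inner_neg_right]; ring

/-- derivative of the interaction energy under a rigid shift of the first density -/
theorem hasDerivAt_shift {f g : V → ℝ} (hf : BC f) (hg : BC g) (e : V) :
    HasDerivAt (fun t : ℝ => ∫ x, f x * pot g (x + t • e)) (Fo e f g) 0 := by
  obtain ⟨B, hB⟩ := grad_bound hg e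
  obtain ⟨B', hB'⟩ := pot_bound hg
  have key := hasDerivAt_integral_of_dominated_loc_of_deriv_le (μ := (volume : Measure V))
    (F := fun (t : ℝ) (x : V) => f x * pot g (x + t • e))
    (F' := fun (t : ℝ) (x : V) => f x * grad e g (x + t • e)) (x₀ := (0 : ℝ))
    (bound := fun x => |f x| * B) (s := univ) (Filter.univ_mem)
    (Eventually.of_forall fun t => ?_) ?_ ?_ ?_ ?_ ?_
  · simpa [Fo] using key.2
  · exact (hf.meas.mul ((pot_continuous hg).comp
      (continuous_id.add continuous_const)).measurable).aestronglyMeasurable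
  · simpa using En_integrable hf hg
  · exact (hf.meas.mul ((grad_continuous hg e).comp
      (continuous_id.add continuous_const)).measurable).aestronglyMeasurable
  · refine Eventually.of_forall fun x t _ => ?_
    rw [norm_mul]
    exact mul_le_mul_of_nonneg_left (hB _) (norm_nonneg _)
  · exact hf.integrable.abs.mul_const B
  · refine Eventually.of_forall fun x t _ => ?_
    exact (hasDerivAt_pot hg x e t).const_mul (f x)

end dim3

end Pool.Agent.TF

end

section
/-! The Coulomb kernel is positive semidefinite, by the Riesz composition formula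
`|x|^{-2} * |x|^{-2} = C / |x|` in dimension three. -/

set_option linter.unusedSectionVars false

set_option linter.unusedVariables false

set_option linter.style.haveILetI false

namespace Pool.Agent.TF

open MeasureTheory Set Metric Filter Topology

open scoped ENNReal NNReal RealInnerProductSpace

variable {V : Type*} [NormedAddCommGroup V] [InnerProductSpace ℝ V] [FiniteDimensional ℝ V]
  [MeasurableSpace V] [BorelSpace V]

/-- `|v|^{-2}` as a real function -/
noncomputable def kq (v : V) : ℝ := (‖v‖ ^ 2)⁻¹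

theorem kq_meas : Measurable (kq : V → ℝ) := (measurable_norm.pow_const 2).inv

theorem kq_nonneg (v : V) : 0 ≤ kq v := by unfold kq; positivity

/-- `|v|^{-2}` as an extended nonnegative function -/
noncomputable def qe (v : V) : ℝ≥0∞ := ENNReal.ofReal (kq v)

theorem qe_meas : Measurable (qe : V → ℝ≥0∞) := kq_meas.ennreal_ofReal

/-- the composition integral -/
noncomputable def A0 (v : V) : ℝ≥0∞ := ∫⁻ w, qe w * qe (v + w)

theorem qe_smul {r : ℝ} (hr : 0 < r) (w : V) : qe (r • w) = ENNReal.ofReal (r ^ 2)⁻¹ * qe w := by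
  unfold qe kq
  rw [← ENNReal.ofReal_mul (by positivity), norm_smul, Real.norm_of_nonneg hr.le, mul_pow, mul_inv]

theorem qe_isom (L : V ≃ₗᵢ[ℝ] V) (w : V) : qe (L w) = qe w := by
  unfold qe kq
  rw [L.norm_map]

section dim3

variable [hd : Fact (Module.finrank ℝ V = 3)]

theorem lintegral_smul_eq {r : ℝ} (hr : 0 < r) {F : V → ℝ≥0∞} (hF : Measurable F) :
    ∫⁻ w, F w = ENNReal.ofReal (r ^ 3) * ∫⁻ w, F (r • w) := by
  have h1 : ∫⁻ w, F (r • w) = ∫⁻ w, F w ∂(Measure.map (fun x : V => r • x) volume) := by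
    rw [lintegral_map hF (measurable_const_smul r)]
  rw [h1, Measure.map_addHaar_smul _ hr.ne', lintegral_smul_measure, smul_eq_mul, ← mul_assoc,
    hd.out, abs_of_nonneg (by positivity), ← ENNReal.ofReal_mul (by positivity),
    mul_inv_cancel₀ (by positivity), ENNReal.ofReal_one, one_mul]

theorem A0_smul {r : ℝ} (hr : 0 < r) (v : V) : A0 (r • v) = ENNReal.ofReal r⁻¹ * A0 v := by
  unfold A0
  have hm : Measurable (fun w : V => qe w * qe (r • v + w)) :=
    qe_meas.mul (qe_meas.comp (measurable_const.add measurable_id))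
  rw [lintegral_smul_eq hr hm]
  simp_rw [← smul_add, qe_smul hr]
  have : ∀ w : V, ENNReal.ofReal (r ^ 2)⁻¹ * qe w * (ENNReal.ofReal (r ^ 2)⁻¹ * qe (v + w)) =
      (ENNReal.ofReal (r ^ 2)⁻¹ * ENNReal.ofReal (r ^ 2)⁻¹) * (qe w * qe (v + w)) := fun w => by ring
  simp_rw [this]
  have hm2 : Measurable (fun w : V => qe w * qe (v + w)) :=
    qe_meas.mul (qe_meas.comp (measurable_const.add measurable_id))
  rw [lintegral_const_mul _ hm2,
    ← mul_assoc, ← ENNReal.ofReal_mul (by positivity), ← ENNReal.ofReal_mul (by positivity)]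
  congr 2
  field_simp

theorem A0_isom (L : V ≃ₗᵢ[ℝ] V) (v : V) : A0 (L v) = A0 v := by
  unfold A0
  have hm : Measurable (fun w : V => qe w * qe (L v + w)) :=
    qe_meas.mul (qe_meas.comp (measurable_const.add measurable_id))
  rw [← L.measurePreserving.lintegral_comp hm]
  refine lintegral_congr fun w => ?_
  rw [← map_add, qe_isom, qe_isom]

/-- any two vectors of equal norm are related by a linear isometry -/
theorem exists_isom {W : Type*} [NormedAddCommGroup W] [InnerProductSpace ℝ W]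
    {v w : W} (h : ‖v‖ = ‖w‖) : ∃ L : W ≃ₗᵢ[ℝ] W, L v = w :=
  ⟨(ℝ ∙ (v - w))ᗮ.reflection, Submodule.reflection_sub h⟩

theorem A0_eq {u v : V} (hu : ‖u‖ = 1) (hv : v ≠ 0) : A0 v = ENNReal.ofReal ‖v‖⁻¹ * A0 u := by
  have hv' : 0 < ‖v‖ := norm_pos_iff.mpr hv
  obtain ⟨L, hL⟩ := exists_isom (v := ‖v‖ • u) (w := v)
    (by rw [norm_smul, hu, mul_one, norm_norm])
  have h1 : A0 v = A0 (L (‖v‖ • u)) := by rw [hL]
  rw [h1, A0_isom, A0_smul hv']

theorem kq_prod_le {u : V} (hu : ‖u‖ = 1) (w : V) :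
    kq w * kq (u + w) ≤ 4 * (ball (0 : V) 1).indicator (fun v => (‖v‖ ^ 2)⁻¹) w +
      4 * (ball (0 : V) 1).indicator (fun v => (‖v‖ ^ 2)⁻¹) (u + w) +
      225 * (1 + ‖w‖) ^ (-(4 : ℝ)) := by
  have i1 : 0 ≤ (ball (0 : V) 1).indicator (fun v => (‖v‖ ^ 2)⁻¹) w :=
    indicator_nonneg (fun _ _ => by positivity) _
  have i2 : 0 ≤ (ball (0 : V) 1).indicator (fun v => (‖v‖ ^ 2)⁻¹) (u + w) :=
    indicator_nonneg (fun _ _ => by positivity) _
  have i3 : 0 ≤ (1 + ‖w‖) ^ (-(4 : ℝ)) := by positivity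
  have hn1 : 1 ≤ ‖u + w‖ + ‖w‖ := by
    calc (1 : ℝ) = ‖(u + w) - w‖ := by simp [hu]
      _ ≤ _ := norm_sub_le _ _
  have hn2 : ‖w‖ ≤ 1 + ‖u + w‖ := by
    calc ‖w‖ = ‖(u + w) - u‖ := by simp
      _ ≤ ‖u + w‖ + ‖u‖ := norm_sub_le _ _
      _ = _ := by rw [hu]; ring
  have hkey : ∀ {a : ℝ}, 1 / 2 ≤ a → (a ^ 2)⁻¹ ≤ 4 := by
    intro a ha
    rw [inv_le_comm₀ (by positivity) (by norm_num)]
    nlinarith
  by_cases h1 : ‖w‖ < 1 / 2
  · have hm : w ∈ ball (0 : V) 1 := by rw [mem_ball_zero_iff]; linarith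
    rw [indicator_of_mem hm]
    rw [indicator_of_mem hm] at i1
    have h3 : kq (u + w) ≤ 4 := hkey (by linarith)
    have h4 : kq w * kq (u + w) ≤ kq w * 4 := mul_le_mul_of_nonneg_left h3 (kq_nonneg _)
    have h5 : kq w = (‖w‖ ^ 2)⁻¹ := rfl
    nlinarith
  · by_cases h2 : ‖u + w‖ < 1 / 2
    · have hm : u + w ∈ ball (0 : V) 1 := by rw [mem_ball_zero_iff]; linarith
      rw [indicator_of_mem hm]
      rw [indicator_of_mem hm] at i2
      have h3 : kq w ≤ 4 := hkey (by linarith)
      have h4 : kq w * kq (u + w) ≤ 4 * kq (u + w) := mul_le_mul_of_nonneg_right h3 (kq_nonneg _)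
      have h5 : kq (u + w) = (‖u + w‖ ^ 2)⁻¹ := rfl
      nlinarith
    · push Not at h1 h2
      have hw : 0 < ‖w‖ := by linarith
      have huw : 0 < ‖u + w‖ := by linarith
      have h3 : kq w ≤ 9 * ((1 + ‖w‖) ^ 2)⁻¹ := by
        unfold kq
        rw [← div_eq_mul_inv, inv_eq_one_div, div_le_div_iff₀ (by positivity) (by positivity)]
        nlinarith
      have h4 : kq (u + w) ≤ 25 * ((1 + ‖w‖) ^ 2)⁻¹ := by
        unfold kq
        rw [← div_eq_mul_inv, inv_eq_one_div, div_le_div_iff₀ (by positivity) (by positivity)]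
        have : 1 + ‖w‖ ≤ 5 * ‖u + w‖ := by linarith
        have h6 : (1 + ‖w‖) ^ 2 ≤ (5 * ‖u + w‖) ^ 2 := by gcongr
        nlinarith
      have h5 : kq w * kq (u + w) ≤ (9 * ((1 + ‖w‖) ^ 2)⁻¹) * (25 * ((1 + ‖w‖) ^ 2)⁻¹) :=
        mul_le_mul h3 h4 (kq_nonneg _) (by positivity)
      have h6 : (9 * ((1 + ‖w‖) ^ 2)⁻¹) * (25 * ((1 + ‖w‖) ^ 2)⁻¹) =
          225 * (1 + ‖w‖) ^ (-(4 : ℝ)) := by
        rw [Real.rpow_neg (by positivity)]
        have : (1 + ‖w‖) ^ (4 : ℝ) = (1 + ‖w‖) ^ 4 := by norm_cast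
        rw [this]
        field_simp
        norm_num
      linarith

theorem A0_lt_top {u : V} (hu : ‖u‖ = 1) : A0 u < ∞ := by
  have hI : Integrable (fun w : V => 4 * (ball (0 : V) 1).indicator (fun v => (‖v‖ ^ 2)⁻¹) w +
      4 * (ball (0 : V) 1).indicator (fun v => (‖v‖ ^ 2)⁻¹) (u + w) +
      225 * (1 + ‖w‖) ^ (-(4 : ℝ))) := by
    refine (((integrable_ind_inv_sq (V := V)).const_mul 4).add
      (((integrable_ind_inv_sq (V := V)).comp_add_left u).const_mul 4)).add ?_
    refine (integrable_one_add_norm ?_).const_mul 225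
    rw [hd.out]; norm_num
  refine lt_of_le_of_lt ?_ hI.lintegral_lt_top
  unfold A0
  refine lintegral_mono fun w => ?_
  unfold qe
  rw [← ENNReal.ofReal_mul (kq_nonneg _)]
  exact ENNReal.ofReal_le_ofReal (kq_prod_le hu w)

theorem A0_pos {u : V} (hu : ‖u‖ = 1) : A0 u ≠ 0 := by
  haveI := nontriv (V := V)
  intro h
  have hm2 : Measurable (fun w : V => qe w * qe (u + w)) :=
    qe_meas.mul (qe_meas.comp (measurable_const.add measurable_id))
  unfold A0 at h
  rw [lintegral_eq_zero_iff hm2] at h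
  have h1 : ∀ᵐ w : V, w ≠ 0 := by
    rw [ae_iff]; simp
  have h2 : ∀ᵐ w : V, w ≠ -u := by
    rw [ae_iff]; simp
  have h3 : ∀ᵐ w : V, False := by
    filter_upwards [h, h1, h2] with w hw hw1 hw2
    have e1 : qe w ≠ 0 := by
      unfold qe kq
      have : 0 < ‖w‖ := norm_pos_iff.mpr hw1
      rw [ne_eq, ENNReal.ofReal_eq_zero, not_le]
      positivity
    have e2 : qe (u + w) ≠ 0 := by
      unfold qe kq
      have : 0 < ‖u + w‖ := by
        refine norm_pos_iff.mpr fun h0 => hw2 ?_
        rw [add_comm] at h0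
        exact eq_neg_of_add_eq_zero_left h0
      rw [ne_eq, ENNReal.ofReal_eq_zero, not_le]
      positivity
    simp only [Pi.zero_apply, mul_eq_zero] at hw
    tauto
  rw [ae_iff] at h3
  simp at h3

/-- the Riesz constant -/
theorem exists_riesz (V : Type*) [NormedAddCommGroup V] [InnerProductSpace ℝ V]
    [FiniteDimensional ℝ V] [MeasurableSpace V] [BorelSpace V]
    [hd : Fact (Module.finrank ℝ V = 3)] :
    ∃ C : ℝ, 0 < C ∧ ∀ v : V, v ≠ 0 → A0 v = ENNReal.ofReal (C * ‖v‖⁻¹) := by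
  haveI := nontriv (V := V)
  obtain ⟨u, hu⟩ := exists_norm_eq V (zero_le_one (α := ℝ))
  refine ⟨(A0 u).toReal, ENNReal.toReal_pos (A0_pos hu) (A0_lt_top hu).ne, fun v hv => ?_⟩
  rw [A0_eq hu hv, ENNReal.ofReal_mul ENNReal.toReal_nonneg, ENNReal.ofReal_toReal
    (A0_lt_top hu).ne, mul_comm]

theorem A_eq (x y : V) : ∫⁻ w, qe (x - w) * qe (y - w) = A0 (y - x) := by
  unfold A0
  rw [← lintegral_sub_left_eq_self (fun w => qe w * qe (y - x + w)) x]
  refine lintegral_congr fun w => ?_
  congr 2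
  abel

/-- positive semidefiniteness of the Coulomb form -/
theorem coulomb_psd {f : V → ℝ} (hf : Measurable f)
    (hI : Integrable (fun p : V × V => f p.1 * (‖p.1 - p.2‖⁻¹ * f p.2)) (volume.prod volume)) :
    0 ≤ ∫ x, ∫ y, f x * (‖x - y‖⁻¹ * f y) := by
  haveI := nontriv (V := V)
  obtain ⟨C, hC, hA⟩ := exists_riesz V
  set T : V → V × V → ℝ := fun w p => (f p.1 * kq (p.1 - w)) * (f p.2 * kq (p.2 - w)) with hT
  have hTm : Measurable (Function.uncurry T) := by
    have m1 : Measurable (fun q : V × (V × V) => q.2.1 - q.1) := by fun_prop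
    have m2 : Measurable (fun q : V × (V × V) => q.2.2 - q.1) := by fun_prop
    have m3 : Measurable (fun q : V × (V × V) => q.2.1) := by fun_prop
    have m4 : Measurable (fun q : V × (V × V) => q.2.2) := by fun_prop
    exact ((hf.comp m3).mul (kq_meas.comp m1)).mul ((hf.comp m4).mul (kq_meas.comp m2))
  have hne : ∀ x : V, ∀ᵐ y : V, y - x ≠ 0 := by
    intro x
    have : ∀ᵐ y : V, y ≠ x := by rw [ae_iff]; simp
    filter_upwards [this] with y hy
    exact sub_ne_zero.mpr hy
  -- inner lintegral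
  have hin : ∀ p : V × V, ∫⁻ w, ‖T w p‖ₑ = ‖f p.1‖ₑ * ‖f p.2‖ₑ * A0 (p.2 - p.1) := by
    intro p
    rw [← A_eq, ← lintegral_const_mul]
    · refine lintegral_congr fun w => ?_
      simp only [hT]
      rw [enorm_mul, enorm_mul, enorm_mul, Real.enorm_of_nonneg (kq_nonneg _),
        Real.enorm_of_nonneg (kq_nonneg _)]
      unfold qe
      ring
    · exact (qe_meas.comp (measurable_const.sub measurable_id)).mul
        (qe_meas.comp (measurable_const.sub measurable_id))
  have hTI : Integrable (Function.uncurry T) ((volume : Measure V).prod (volume.prod volume)) := by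
    refine ⟨hTm.aestronglyMeasurable, ?_⟩
    rw [HasFiniteIntegral, lintegral_prod_symm' _ hTm.enorm]
    change ∫⁻ p : V × V, ∫⁻ w, ‖T w p‖ₑ ∂volume ∂(volume.prod volume) < ∞
    simp_rw [hin]
    have hm3 : Measurable (fun p : V × V => ‖f p.1‖ₑ * ‖f p.2‖ₑ * A0 (p.2 - p.1)) := by
      have : (fun p : V × V => ‖f p.1‖ₑ * ‖f p.2‖ₑ * A0 (p.2 - p.1)) =
          fun p => ∫⁻ w, ‖T w p‖ₑ := by funext p; rw [hin]
      rw [this]
      exact hTm.enorm.lintegral_prod_left'
    have hI2 : ∫⁻ p : V × V, ENNReal.ofReal C * ‖f p.1 * (‖p.1 - p.2‖⁻¹ * f p.2)‖ₑ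
        ∂(volume.prod volume) < ∞ := by
      rw [lintegral_const_mul' _ _ ENNReal.ofReal_ne_top]
      exact ENNReal.mul_lt_top ENNReal.ofReal_lt_top hI.2
    refine lt_of_eq_of_lt ?_ hI2
    have hm4 : Measurable (fun p : V × V =>
        ENNReal.ofReal C * ‖f p.1 * (‖p.1 - p.2‖⁻¹ * f p.2)‖ₑ) := by
      have m1 : Measurable (fun p : V × V => ‖p.1 - p.2‖⁻¹) := by fun_prop
      exact (((hf.comp measurable_fst).mul (m1.mul (hf.comp measurable_snd))).enorm).const_mul _
    rw [lintegral_prod _ hm3.aemeasurable, lintegral_prod _ hm4.aemeasurable]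
    refine lintegral_congr fun x => ?_
    refine lintegral_congr_ae ?_
    filter_upwards [hne x] with y hy
    rw [hA _ hy, enorm_mul, enorm_mul, Real.enorm_of_nonneg (by positivity : 0 ≤ ‖x - y‖⁻¹),
      ENNReal.ofReal_mul hC.le, norm_sub_rev]
    ring
  have hreal : ∀ x y : V, y - x ≠ 0 →
      ∫ w, T w (x, y) = C * (f x * (‖x - y‖⁻¹ * f y)) := by
    intro x y hxy
    have e1 : ∀ w, T w (x, y) = (f x * f y) * (kq (x - w) * kq (y - w)) := fun w => by
      simp only [hT]; ring
    simp_rw [e1]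
    rw [integral_const_mul]
    have e2 : ∫ w, kq (x - w) * kq (y - w) = C * ‖x - y‖⁻¹ := by
      rw [integral_eq_lintegral_of_nonneg_ae]
      · have : ∫⁻ w, ENNReal.ofReal (kq (x - w) * kq (y - w)) = A0 (y - x) := by
          rw [← A_eq]
          refine lintegral_congr fun w => ?_
          rw [ENNReal.ofReal_mul (kq_nonneg _)]; rfl
        rw [this, hA _ hxy, ENNReal.toReal_ofReal (by positivity), norm_sub_rev]
      · exact Eventually.of_forall fun w => mul_nonneg (kq_nonneg _) (kq_nonneg _)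
      · exact ((kq_meas.comp (measurable_const.sub measurable_id)).mul
          (kq_meas.comp (measurable_const.sub measurable_id))).aestronglyMeasurable
    rw [e2]; ring
  have hsq : ∀ w : V, ∫ p : V × V, T w p ∂((volume : Measure V).prod (volume : Measure V)) =
      (∫ x, f x * kq (x - w)) ^ 2 := by
    intro w
    simp only [hT]
    rw [integral_prod_mul (μ := (volume : Measure V)) (ν := (volume : Measure V))
      (fun x => f x * kq (x - w)) (fun y => f y * kq (y - w)), sq]
  have hswap := integral_integral_swap hTI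
  have h1 : 0 ≤ ∫ w : V, ∫ p : V × V, T w p ∂((volume : Measure V).prod (volume : Measure V)) := by
    refine integral_nonneg fun w => ?_
    rw [hsq]; positivity
  rw [hswap] at h1
  have h2 : ∫ p : V × V, ∫ w, T w p ∂volume ∂((volume : Measure V).prod (volume : Measure V)) =
      C * ∫ x, ∫ y, f x * (‖x - y‖⁻¹ * f y) := by
    have hTI2 : Integrable (fun p : V × V => ∫ w, T w p)
        ((volume : Measure V).prod (volume : Measure V)) := hTI.integral_prod_right
    rw [integral_prod _ hTI2, ← integral_const_mul]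
    refine integral_congr_ae (Eventually.of_forall fun x => ?_)
    simp only
    rw [← integral_const_mul]
    refine integral_congr_ae ?_
    filter_upwards [hne x] with y hy
    exact hreal x y hy
  rw [h2] at h1
  exact nonneg_of_mul_nonneg_right h1 hC

theorem En_nonneg {f : V → ℝ} (hf : BC f) : 0 ≤ En f f := by
  unfold En pot
  simp_rw [← integral_const_mul]
  exact coulomb_psd hf.meas (ker_pot.integrable_prod hf hf)

end dim3

end Pool.Agent.TF

end

section
/-! Existence for the Thomas-Fermi equation by a contraction argument. -/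

set_option linter.unusedSectionVars false

set_option linter.unusedVariables false

set_option linter.style.haveILetI false

namespace Pool.Agent.TF

open MeasureTheory Set Metric Filter Topology

open scoped ENNReal NNReal RealInnerProductSpace

/-- `v ↦ v_+^{3/2}` -/
noncomputable def tf (v : ℝ) : ℝ := max v 0 * √(max v 0)

theorem tf_nonneg (v : ℝ) : 0 ≤ tf v := by unfold tf; positivity

theorem tf_of_nonpos {v : ℝ} (hv : v ≤ 0) : tf v = 0 := by
  unfold tf; rw [max_eq_right hv]; simp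

theorem tf_mono : Monotone tf := by
  intro a b hab
  unfold tf
  have h := max_le_max_right 0 hab
  have h2 := Real.sqrt_le_sqrt h
  exact mul_le_mul h h2 (Real.sqrt_nonneg _) (le_max_right _ _)

theorem tf_continuous : Continuous tf := by unfold tf; fun_prop

/-- truncated version -/
noncomputable def tfM (M v : ℝ) : ℝ := tf (min v M)

theorem tfM_continuous (M : ℝ) : Continuous (tfM M) := by
  unfold tfM
  exact tf_continuous.comp (by fun_prop)

theorem tfM_nonneg (M v : ℝ) : 0 ≤ tfM M v := tf_nonneg _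

theorem tfM_le (M v : ℝ) : tfM M v ≤ tf M := tf_mono (min_le_right _ _)

theorem tf_lip {M a b : ℝ} (hM : 0 ≤ M) (hab : a ≤ b) (hb : b ≤ M) :
    tf b - tf a ≤ 2 * √M * (b - a) := by
  unfold tf
  set s := max a 0 with hs
  set t := max b 0 with ht
  have hst : s ≤ t := max_le_max_right 0 hab
  have hs0 : 0 ≤ s := le_max_right _ _
  have ht0 : 0 ≤ t := le_max_right _ _
  have htM : t ≤ M := max_le hb hM
  have hd : t - s ≤ b - a := by
    rw [ht, hs]
    rcases le_total b 0 with h | h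
    · rw [max_eq_right h, max_eq_right (hab.trans h)]; linarith
    · rw [max_eq_left h]
      have := le_max_left a 0
      linarith
  have e1 : √s ≤ √t := Real.sqrt_le_sqrt hst
  have e2 : √t ≤ √M := Real.sqrt_le_sqrt htM
  have e3 : √s * √s = s := Real.mul_self_sqrt hs0
  have e4 : √t * √t = t := Real.mul_self_sqrt ht0
  have e5 : 0 ≤ √s := Real.sqrt_nonneg _
  have e6 : 0 ≤ √M := Real.sqrt_nonneg _
  have h1 : (t - s) * √t ≤ (t - s) * √M := mul_le_mul_of_nonneg_left e2 (by linarith)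
  have h2 : s * (√t - √s) ≤ √M * (t - s) := by
    have h3 : s * (√t - √s) = √s * (√s * (√t - √s)) := by rw [← mul_assoc, e3]
    have h4 : √s * (√t - √s) ≤ (√t + √s) * (√t - √s) := by
      refine mul_le_mul_of_nonneg_right ?_ (by linarith)
      have := Real.sqrt_nonneg t
      linarith
    have h5 : (√t + √s) * (√t - √s) = t - s := by linear_combination e4 - e3
    calc s * (√t - √s) = √s * (√s * (√t - √s)) := h3
      _ ≤ √s * (t - s) := mul_le_mul_of_nonneg_left (by linarith) e5
      _ ≤ √M * (t - s) := mul_le_mul_of_nonneg_right (e1.trans e2) (by linarith)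
  have h6 : t * √t - s * √s = (t - s) * √t + s * (√t - √s) := by ring
  rw [h6]
  have h7 : √M * (t - s) ≤ √M * (b - a) := mul_le_mul_of_nonneg_left hd e6
  linarith only [h1, h2, h7]

theorem tfM_coc {M : ℝ} (hM : 0 ≤ M) (a b : ℝ) :
    (tfM M a - tfM M b) ^ 2 ≤ 2 * √M * ((tfM M a - tfM M b) * (a - b)) := by
  have key : ∀ a b : ℝ, a ≤ b →
      (tfM M b - tfM M a) ^ 2 ≤ 2 * √M * ((tfM M b - tfM M a) * (b - a)) := by
    intro a b hab
    have h0 : 0 ≤ tfM M b - tfM M a := sub_nonneg.mpr (tf_mono (min_le_min_right M hab))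
    have h1 : tfM M b - tfM M a ≤ 2 * √M * (min b M - min a M) :=
      tf_lip hM (min_le_min_right M hab) (min_le_right _ _)
    have h2 : min b M - min a M ≤ b - a := by
      rcases le_total b M with h | h
      · rw [min_eq_left h, min_eq_left (hab.trans h)]
      · rw [min_eq_right h]
        rcases le_total a M with h' | h'
        · rw [min_eq_left h']; linarith
        · rw [min_eq_right h']; linarith
    have h3 : tfM M b - tfM M a ≤ 2 * √M * (b - a) :=
      h1.trans (mul_le_mul_of_nonneg_left h2 (by positivity))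
    linarith only [mul_le_mul_of_nonneg_left h3 h0]
  rcases le_total a b with h | h
  · have := key a b h
    linarith only [this]
  · exact key b a h

variable {V : Type*} [NormedAddCommGroup V] [InnerProductSpace ℝ V] [FiniteDimensional ℝ V]
  [MeasurableSpace V] [BorelSpace V] [hd : Fact (Module.finrank ℝ V = 3)]

/-- the operator `f ↦ N f - a (N f) ∘ θ` -/
noncomputable def kop (a : ℝ) (θ : V ≃ₗᵢ[ℝ] V) (f : V → ℝ) (x : V) : ℝ :=
  pot f x - a * pot f (θ x)

/-- its quadratic form -/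
noncomputable def Qf (a : ℝ) (θ : V ≃ₗᵢ[ℝ] V) (f g : V → ℝ) : ℝ := ∫ x, f x * kop a θ g x

theorem kop_continuous (a : ℝ) (θ : V ≃ₗᵢ[ℝ] V) {f : V → ℝ} (hf : BC f) :
    Continuous (kop a θ f) := by
  unfold kop
  exact (pot_continuous hf).sub (continuous_const.mul ((pot_continuous hf).comp θ.continuous))

theorem Qf_eq (a : ℝ) (θ : V ≃ₗᵢ[ℝ] V) {f g : V → ℝ} (hf : BC f) (hg : BC g) :
    Qf a θ f g = En f g - a * En f (fun x => g (θ x)) := by
  unfold Qf kop En
  rw [← integral_const_mul, ← integral_sub (En_integrable hf hg)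
    ((En_integrable hf (hg.comp_isom θ)).const_mul a)]
  refine integral_congr_ae (Eventually.of_forall fun x => ?_)
  simp only
  rw [pot_comp_isom]; ring

theorem kop_sub (a : ℝ) (θ : V ≃ₗᵢ[ℝ] V) {f g : V → ℝ} (hf : BC f) (hg : BC g) (x : V) :
    kop a θ (fun y => f y - g y) x = kop a θ f x - kop a θ g x := by
  unfold kop
  rw [pot_sub hf hg, pot_sub hf hg]; ring

theorem Qf_integrable (a : ℝ) (θ : V ≃ₗᵢ[ℝ] V) {f g : V → ℝ} (hf : BC f) (hg : BC g) :
    Integrable (fun x => f x * kop a θ g x) := by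
  have : (fun x => f x * kop a θ g x) =
      fun x => f x * pot g x - a * (f x * pot (fun y => g (θ y)) x) := by
    funext x
    unfold kop
    rw [pot_comp_isom]; ring
  rw [this]
  exact (En_integrable hf hg).sub ((En_integrable hf (hg.comp_isom θ)).const_mul a)

theorem En_theta (θ : V ≃ₗᵢ[ℝ] V) (hθ : ∀ x, θ (θ x) = x) {f g : V → ℝ} (hf : BC f) (hg : BC g) :
    En f (fun x => g (θ x)) = En g (fun x => f (θ x)) := by
  rw [← En_comp_isom θ f (fun x => g (θ x))]
  simp only [hθ]
  exact En_symm (hf.comp_isom θ) hg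

theorem Qf_symm (a : ℝ) (θ : V ≃ₗᵢ[ℝ] V) (hθ : ∀ x, θ (θ x) = x) {f g : V → ℝ}
    (hf : BC f) (hg : BC g) : Qf a θ f g = Qf a θ g f := by
  rw [Qf_eq a θ hf hg, Qf_eq a θ hg hf, En_symm hf hg, En_theta θ hθ hf hg]

theorem Qf_nonneg {a : ℝ} (ha0 : 0 ≤ a) (ha1 : a ≤ 1) (θ : V ≃ₗᵢ[ℝ] V) (hθ : ∀ x, θ (θ x) = x)
    {f : V → ℝ} (hf : BC f) : 0 ≤ Qf a θ f f := by
  rw [Qf_eq a θ hf hf]
  have hft := hf.comp_isom θ
  have h1 : 0 ≤ En f f := En_nonneg hf
  have h2 : 0 ≤ En (fun x => f x - f (θ x)) (fun x => f x - f (θ x)) := En_nonneg (hf.sub hft)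
  rw [En_sub_left hf hft (hf.sub hft), En_sub_right hf hf hft, En_sub_right hft hf hft,
    En_comp_isom θ f f, En_symm hft hf] at h2
  nlinarith

/-- Schur bound -/
theorem En_schur {f g : V → ℝ} (hf : BC f) (hg : BC g) {R : ℝ}
    (hfR : ∀ x, R ≤ ‖x‖ → f x = 0) (hgR : ∀ x, R ≤ ‖x‖ → g x = 0) :
    |En f g| ≤ cdom V R / 2 * ((∫ x, f x ^ 2) + ∫ x, g x ^ 2) := by
  set χ : V → ℝ := (ball (0 : V) R).indicator (fun _ => (1 : ℝ)) with hχ
  have hχ0 : ∀ x, 0 ≤ χ x := fun x => indicator_nonneg (fun _ _ => zero_le_one) _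
  have hχ1 : ∀ x, |χ x| ≤ 1 := fun x => by
    rw [abs_of_nonneg (hχ0 x)]
    exact indicator_le_self' (fun _ _ => zero_le_one) _
  have hχs : ∀ x, R ≤ ‖x‖ → χ x = 0 := fun x hx => indicator_of_notMem (by simpa using hx) _
  have hχB : BC χ := ⟨measurable_const.indicator measurableSet_ball, ⟨1, hχ1⟩, ⟨R, hχs⟩⟩
  have hsq : ∀ {h : V → ℝ}, BC h → BC (fun x => h x ^ 2) := by
    intro h hh
    obtain ⟨M, R', hM0, -, hM, hR'⟩ := hh.bounds
    refine ⟨hh.meas.pow_const 2, ⟨M ^ 2, fun x => ?_⟩, ⟨R', fun x hx => by rw [hR' x hx]; norm_num⟩⟩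
    rw [abs_pow]
    exact pow_le_pow_left₀ (abs_nonneg _) (hM x) 2
  have hpχ : ∀ x, |pot χ x| ≤ cdom V R := by
    intro x
    refine (abs_integral_le_integral_abs).trans ?_
    have := ker_int_abs_le (V := V) (K := fun v => ‖v‖⁻¹) measurable_norm.inv (C := 1)
      zero_le_one (fun v => by
        rw [abs_of_nonneg (by positivity), one_mul, ← inv_pow]
        nlinarith [sq_nonneg (‖v‖⁻¹ - 1)]) hχB.meas hχ1 hχs x
    simpa using this
  have hA : ∀ {h : V → ℝ}, BC h → En (fun x => h x ^ 2) χ ≤ cdom V R * ∫ x, h x ^ 2 := by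
    intro h hh
    unfold En
    rw [← integral_const_mul]
    refine integral_mono (En_integrable (hsq hh) hχB) ((hsq hh).integrable.const_mul _) fun x => ?_
    simp only
    rw [mul_comm]
    exact mul_le_mul_of_nonneg_right ((le_abs_self _).trans (hpχ x)) (sq_nonneg _)
  have hB : |En f g| ≤ 1 / 2 * (En (fun x => f x ^ 2) χ + En χ (fun x => g x ^ 2)) := by
    unfold En pot
    simp_rw [← integral_const_mul]
    rw [← integral_prod _ (ker_pot.integrable_prod hf hg),
      ← integral_prod _ (ker_pot.integrable_prod (hsq hf) hχB),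
      ← integral_prod _ (ker_pot.integrable_prod hχB (hsq hg)),
      ← integral_add (ker_pot.integrable_prod (hsq hf) hχB)
        (ker_pot.integrable_prod hχB (hsq hg)), ← integral_const_mul]
    refine (abs_integral_le_integral_abs).trans ?_
    refine integral_mono (ker_pot.integrable_prod hf hg).abs
      (((ker_pot.integrable_prod (hsq hf) hχB).add
        (ker_pot.integrable_prod hχB (hsq hg))).const_mul _) fun p => ?_
    simp only
    have hk : 0 ≤ ‖p.1 - p.2‖⁻¹ := by positivity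
    rw [abs_mul, abs_mul, abs_of_nonneg hk]
    by_cases h1 : R ≤ ‖p.1‖
    · rw [hfR _ h1, abs_zero, zero_mul]
      have := hχ0 p.1
      have := hχ0 p.2
      positivity
    · by_cases h2 : R ≤ ‖p.2‖
      · rw [hgR _ h2, abs_zero, mul_zero, mul_zero]
        have := hχ0 p.1
        have := hχ0 p.2
        positivity
      · have e1 : χ p.1 = 1 := indicator_of_mem (by simpa using h1) _
        have e2 : χ p.2 = 1 := indicator_of_mem (by simpa using h2) _
        rw [e1, e2, ← sq_abs (f p.1), ← sq_abs (g p.2)]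
        nlinarith [mul_nonneg hk (sq_nonneg (|f p.1| - |g p.2|))]
  have h1 := hA hf
  have h2 := hA hg
  rw [En_symm hχB (hsq hg)] at hB
  linarith

theorem Qf_schur {a : ℝ} (ha0 : 0 ≤ a) (ha1 : a ≤ 1) (θ : V ≃ₗᵢ[ℝ] V)
    {f : V → ℝ} (hf : BC f) {R : ℝ}
    (hfR : ∀ x, R ≤ ‖x‖ → f x = 0) :
    Qf a θ f f ≤ 2 * cdom V R * ∫ x, f x ^ 2 := by
  rw [Qf_eq a θ hf hf]
  have h1 := En_schur hf hf hfR hfR
  have h2 := En_schur hf (hf.comp_isom θ) hfR (fun x hx => hfR _ (by rwa [θ.norm_map]))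
  have h3 : ∫ x, (f (θ x)) ^ 2 = ∫ x, f x ^ 2 :=
    θ.measurePreserving.integral_comp θ.toMeasurableEquiv.measurableEmbedding (fun x => f x ^ 2)
  rw [h3] at h2
  have h4 := (abs_le.mp h1).2
  have h5 := (abs_le.mp h2).1
  have h6 : 0 ≤ |En f (fun x => f (θ x))| := abs_nonneg _
  have h7 : 0 ≤ cdom V R / 2 * ((∫ x, f x ^ 2) + ∫ x, f x ^ 2) := h6.trans h2
  nlinarith

/-- the nonlinear map -/
noncomputable def Gop (a : ℝ) (θ : V ≃ₗᵢ[ℝ] V) (M : ℝ) (W : V → ℝ) (S : Set V) (f : V → ℝ) :
    V → ℝ := S.indicator (fun x => tfM M (W x - kop a θ f x))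

theorem Gop_BC {a : ℝ} {θ : V ≃ₗᵢ[ℝ] V} {M : ℝ} {W : V → ℝ} (hW : Measurable W) {S : Set V}
    (hS : MeasurableSet S) {R : ℝ} (hSR : S ⊆ ball 0 R) {f : V → ℝ} (hf : BC f) :
    BC (Gop a θ M W S f) := by
  refine ⟨?_, ⟨tf M, fun x => ?_⟩, ⟨R, fun x hx => ?_⟩⟩
  · exact ((tfM_continuous M).measurable.comp
      (hW.sub (kop_continuous a θ hf).measurable)).indicator hS
  · unfold Gop
    by_cases h : x ∈ S
    · rw [indicator_of_mem h, abs_of_nonneg (tfM_nonneg _ _)]; exact tfM_le _ _
    · rw [indicator_of_notMem h, abs_zero]; exact tf_nonneg _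
  · unfold Gop
    rw [indicator_of_notMem]
    intro h
    have := hSR h
    rw [mem_ball_zero_iff] at this
    linarith

theorem BC.sq {h : V → ℝ} (hh : BC h) : BC (fun x => h x ^ 2) := by
  obtain ⟨M, R', hM0, -, hM, hR'⟩ := hh.bounds
  refine ⟨hh.meas.pow_const 2, ⟨M ^ 2, fun x => ?_⟩, ⟨R', fun x hx => by rw [hR' x hx]; norm_num⟩⟩
  rw [abs_pow]
  exact pow_le_pow_left₀ (abs_nonneg _) (hM x) 2

theorem Qf_add_left (a : ℝ) (θ : V ≃ₗᵢ[ℝ] V) {f g h : V → ℝ} (hf : BC f) (hg : BC g)
    (hh : BC h) : Qf a θ (fun x => f x + g x) h = Qf a θ f h + Qf a θ g h := by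
  unfold Qf
  rw [← integral_add (Qf_integrable a θ hf hh) (Qf_integrable a θ hg hh)]
  exact integral_congr_ae (Eventually.of_forall fun y => by ring)

theorem Qf_mul_left (a : ℝ) (θ : V ≃ₗᵢ[ℝ] V) (c : ℝ) (f h : V → ℝ) :
    Qf a θ (fun x => c * f x) h = c * Qf a θ f h := by
  unfold Qf
  rw [← integral_const_mul]
  exact integral_congr_ae (Eventually.of_forall fun y => by ring)

/-- the contraction estimate -/
theorem contr {a : ℝ} (ha0 : 0 ≤ a) (ha1 : a ≤ 1) (θ : V ≃ₗᵢ[ℝ] V) (hθ : ∀ x, θ (θ x) = x)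
    {M : ℝ} {W : V → ℝ} (hW : Measurable W) {S : Set V}
    (hS : MeasurableSet S) {R : ℝ} (hSR : S ⊆ ball 0 R)
    {L : ℝ} (hL : 0 < L)
    (hcoc : ∀ u v, (tfM M u - tfM M v) ^ 2 ≤ L * ((tfM M u - tfM M v) * (u - v)))
    {τ : ℝ} (hτ0 : 0 < τ) (hτ1 : τ ≤ 1 / 2) (hτ2 : 2 * τ * (2 * cdom V R) * L ≤ 1)
    {f g : V → ℝ} (hf : BC f) (hg : BC g) {d' : V → ℝ}
    (hd' : ∀ x, d' x = (1 - τ) * (f x - g x) + τ * (Gop a θ M W S f x - Gop a θ M W S g x)) :
    (∫ x, d' x ^ 2) + 6 * L * Qf a θ d' d' ≤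
      (1 - τ) * ((∫ x, (f x - g x) ^ 2) +
        6 * L * Qf a θ (fun x => f x - g x) (fun x => f x - g x)) := by
  set F := Gop a θ M W S f with hF
  set G := Gop a θ M W S g with hG
  have hFB : BC F := Gop_BC hW hS hSR hf
  have hGB : BC G := Gop_BC hW hS hSR hg
  set d : V → ℝ := fun x => f x - g x with hd
  set e : V → ℝ := fun x => F x - G x with he
  have hdB : BC d := hf.sub hg
  have heB : BC e := hFB.sub hGB
  have heR : ∀ x, R ≤ ‖x‖ → e x = 0 := by
    intro x hx
    have hx' : x ∉ S := fun h => by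
      have := hSR h
      rw [mem_ball_zero_iff] at this
      linarith
    simp only [he, hF, hG, Gop, indicator_of_notMem hx', sub_self]
  have hd'e : d' = fun x => (1 - τ) * d x + τ * e x := by
    funext x; rw [hd']
  have hA : BC (fun x => (1 - τ) * d x) := hdB.const_mul _
  have hB : BC (fun x => τ * e x) := heB.const_mul _
  have hd'B : BC d' := by rw [hd'e]; exact hA.add hB
  -- (iii)
  have h3 : ∫ x, e x ^ 2 ≤ -(L * Qf a θ e d) := by
    unfold Qf
    rw [← integral_const_mul, ← integral_neg]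
    refine integral_mono heB.sq.integrable
      (((Qf_integrable a θ heB hdB).const_mul L).neg) fun x => ?_
    simp only
    by_cases hx : x ∈ S
    · have e1 : e x = tfM M (W x - kop a θ f x) - tfM M (W x - kop a θ g x) := by
        simp only [he, hF, hG, Gop, indicator_of_mem hx]
      have e2 := hcoc (W x - kop a θ f x) (W x - kop a θ g x)
      have e3 : kop a θ d x = kop a θ f x - kop a θ g x := kop_sub a θ hf hg x
      rw [e3, e1]
      linarith
    · have e1 : e x = 0 := by simp only [he, hF, hG, Gop, indicator_of_notMem hx, sub_self]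
      rw [e1]; simp
  -- (ii)
  have h2 : Qf a θ d' d' = (1 - τ) ^ 2 * Qf a θ d d + 2 * τ * (1 - τ) * Qf a θ e d +
      τ ^ 2 * Qf a θ e e := by
    have e1 : Qf a θ d' d' = (1 - τ) * Qf a θ d d' + τ * Qf a θ e d' := by
      nth_rewrite 1 [hd'e]
      rw [Qf_add_left a θ hA hB hd'B, Qf_mul_left, Qf_mul_left]
    have e2 : ∀ {h : V → ℝ}, BC h → Qf a θ h d' = (1 - τ) * Qf a θ d h + τ * Qf a θ e h := by
      intro h hh
      rw [Qf_symm a θ hθ hh hd'B, hd'e, Qf_add_left a θ hA hB hh, Qf_mul_left, Qf_mul_left]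
    rw [e1, e2 hdB, e2 heB, Qf_symm a θ hθ hdB heB]
    ring
  -- (i)
  have h1 : ∫ x, d' x ^ 2 ≤ (1 - τ) ^ 2 * (∫ x, d x ^ 2) + τ * (1 / 2 * (∫ x, d x ^ 2) +
      2 * ∫ x, e x ^ 2) + τ ^ 2 * ∫ x, e x ^ 2 := by
    have e1 : (1 - τ) ^ 2 * (∫ x, d x ^ 2) + τ * (1 / 2 * (∫ x, d x ^ 2) +
      2 * ∫ x, e x ^ 2) + τ ^ 2 * ∫ x, e x ^ 2 =
        ∫ x, (((1 - τ) ^ 2 + τ / 2) * d x ^ 2 + (2 * τ + τ ^ 2) * e x ^ 2) := by
      rw [integral_add (hdB.sq.integrable.const_mul _) (heB.sq.integrable.const_mul _),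
        integral_const_mul, integral_const_mul]
      ring
    rw [e1]
    refine integral_mono hd'B.sq.integrable
      ((hdB.sq.integrable.const_mul _).add (heB.sq.integrable.const_mul _)) fun x => ?_
    simp only [hd'e, Pi.add_apply]
    linarith only [mul_nonneg hτ0.le (sq_nonneg (d x - 2 * (1 - τ) * e x)),
      mul_nonneg (mul_nonneg hτ0.le hτ0.le) (sq_nonneg (e x)),
      mul_nonneg (mul_nonneg (mul_nonneg hτ0.le hτ0.le) (by linarith : (0 : ℝ) ≤ 1 - τ))
        (sq_nonneg (e x))]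
  have h4 : Qf a θ e e ≤ 2 * cdom V R * ∫ x, e x ^ 2 := Qf_schur ha0 ha1 θ heB heR
  have hE : 0 ≤ ∫ x, e x ^ 2 := integral_nonneg fun x => sq_nonneg _
  have hD : 0 ≤ ∫ x, d x ^ 2 := integral_nonneg fun x => sq_nonneg _
  have hQ : 0 ≤ Qf a θ d d := Qf_nonneg ha0 ha1 θ hθ hdB
  generalize (∫ x, e x ^ 2) = E2 at *
  generalize (∫ x, d x ^ 2) = D2 at *
  generalize Qf a θ e d = Qed at *
  generalize Qf a θ e e = Qee at *
  generalize Qf a θ d d = Qdd at *
  rw [h2]
  have k1 : 0 ≤ τ * (1 - τ) := mul_nonneg hτ0.le (by linarith)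
  have k2 : 12 * (τ * (1 - τ)) * (L * Qed) ≤ 12 * (τ * (1 - τ)) * (-E2) :=
    mul_le_mul_of_nonneg_left (by linarith) (by linarith)
  have k3 : 6 * L * (τ ^ 2 * Qee) ≤ 6 * L * (τ ^ 2 * (2 * cdom V R * E2)) := by
    have : 0 ≤ 6 * L * τ ^ 2 := by positivity
    linarith only [mul_le_mul_of_nonneg_left h4 this]
  have k4 : 6 * L * (τ ^ 2 * (2 * cdom V R * E2)) ≤ 3 * τ * E2 := by
    have : 0 ≤ 3 * τ * E2 := by positivity
    linarith only [mul_le_mul_of_nonneg_right hτ2 this]
  have k0 := mul_le_mul_of_nonneg_left hτ1 hτ0.le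
  have k5 : (1 - τ) ^ 2 + τ / 2 ≤ 1 - τ := by linarith only [k0]
  have k6 : 6 * τ * E2 ≤ 12 * (τ * (1 - τ)) * E2 := by
    have : 6 * τ ≤ 12 * (τ * (1 - τ)) := by linarith only [k0]
    exact mul_le_mul_of_nonneg_right this hE
  have k7 : τ ^ 2 * E2 ≤ τ / 2 * E2 := mul_le_mul_of_nonneg_right (by linarith only [k0]) hE
  have k8 : ((1 - τ) ^ 2 + τ / 2) * D2 ≤ (1 - τ) * D2 := mul_le_mul_of_nonneg_right k5 hD
  have k9 : (1 - τ) ^ 2 * (6 * L * Qdd) ≤ (1 - τ) * (6 * L * Qdd) :=
    mul_le_mul_of_nonneg_right (by linarith only [k0, hτ0]) (by positivity)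
  have k10 : 0 ≤ τ * E2 := by positivity
  linarith only [h1, k2, k3, k4, k6, k7, k8, k9, k10]

end Pool.Agent.TF

end

section
/-! Existence for the Thomas-Fermi equation: the limit. -/

set_option linter.unusedSectionVars false

set_option linter.unusedVariables false

set_option linter.style.haveILetI false

namespace Pool.Agent.TF

open MeasureTheory Set Metric Filter Topology

open scoped ENNReal NNReal RealInnerProductSpace

variable {V : Type*} [NormedAddCommGroup V] [InnerProductSpace ℝ V] [FiniteDimensional ℝ V]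
  [MeasurableSpace V] [BorelSpace V] [hd : Fact (Module.finrank ℝ V = 3)]

/-- the iteration -/
noncomputable def itf (a : ℝ) (θ : V ≃ₗᵢ[ℝ] V) (M : ℝ) (W : V → ℝ) (S : Set V) (τ : ℝ) :
    ℕ → V → ℝ
  | 0 => fun _ => 0
  | n + 1 => fun x => (1 - τ) * itf a θ M W S τ n x + τ * Gop a θ M W S (itf a θ M W S τ n) x

theorem Gop_nonneg (a : ℝ) (θ : V ≃ₗᵢ[ℝ] V) (M : ℝ) (W : V → ℝ) (S : Set V) (f : V → ℝ) (x : V) :
    0 ≤ Gop a θ M W S f x := indicator_nonneg (fun _ _ => tfM_nonneg _ _) _

theorem Gop_le (a : ℝ) (θ : V ≃ₗᵢ[ℝ] V) (M : ℝ) (W : V → ℝ) (S : Set V) (f : V → ℝ) (x : V) :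
    Gop a θ M W S f x ≤ tf M := by
  unfold Gop
  by_cases h : x ∈ S
  · rw [indicator_of_mem h]; exact tfM_le _ _
  · rw [indicator_of_notMem h]; exact tf_nonneg _

theorem exists_sol {a : ℝ} (ha0 : 0 ≤ a) (ha1 : a ≤ 1) (θ : V ≃ₗᵢ[ℝ] V)
    (hθ : ∀ x, θ (θ x) = x) {M : ℝ} (hM : 0 ≤ M) {W : V → ℝ} (hW : Measurable W) {S : Set V}
    (hS : MeasurableSet S) {R : ℝ} (hSR : S ⊆ ball 0 R) :
    ∃ ρ : V → ℝ, BC ρ ∧ (∀ x, 0 ≤ ρ x) ∧ (∀ x, x ∉ S → ρ x = 0) ∧
      ∀ x, x ∈ S → ρ x = tfM M (W x - kop a θ ρ x) := by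
  set L : ℝ := 2 * √M + 1 with hLdef
  have hL : 0 < L := by positivity
  have hcoc : ∀ u v, (tfM M u - tfM M v) ^ 2 ≤ L * ((tfM M u - tfM M v) * (u - v)) := by
    intro u v
    have h1 := tfM_coc hM u v
    have h2 : 0 ≤ (tfM M u - tfM M v) * (u - v) := by
      rcases le_total u v with h | h
      · have : tfM M u ≤ tfM M v := tf_mono (min_le_min_right M h)
        exact mul_nonneg_of_nonpos_of_nonpos (by linarith) (by linarith)
      · have : tfM M v ≤ tfM M u := tf_mono (min_le_min_right M h)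
        exact mul_nonneg (by linarith) (by linarith)
    rw [hLdef, add_mul, one_mul]
    linarith
  have hc0 : 0 ≤ cdom V R := by
    rw [← integral_dom R (0 : V)]
    exact integral_nonneg fun y => dom_nonneg R 0 y
  set τ : ℝ := min (1 / 2) (1 / (2 * (2 * cdom V R) * L + 1)) with hτdef
  have hτ0 : 0 < τ := lt_min (by norm_num) (by positivity)
  have hτ1 : τ ≤ 1 / 2 := min_le_left _ _
  have hτ2 : 2 * τ * (2 * cdom V R) * L ≤ 1 := by
    have h1 : τ ≤ 1 / (2 * (2 * cdom V R) * L + 1) := min_le_right _ _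
    rw [le_div_iff₀ (by positivity)] at h1
    have : 0 ≤ 2 * (2 * cdom V R) * L := by positivity
    nlinarith
  set ρs := itf a θ M W S τ with hρs
  have hBC : ∀ n, BC (ρs n) := by
    intro n
    induction n with
    | zero => exact BC.zero
    | succ n ih => exact (ih.const_mul _).add ((Gop_BC hW hS hSR ih).const_mul _)
  have hS0 : ∀ n x, x ∉ S → ρs n x = 0 := by
    intro n
    induction n with
    | zero => intro x _; rfl
    | succ n ih =>
      intro x hx
      change (1 - τ) * ρs n x + τ * Gop a θ M W S (ρs n) x = 0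
      rw [ih x hx]
      unfold Gop
      rw [indicator_of_notMem hx]
      ring
  have hbd : ∀ n x, 0 ≤ ρs n x ∧ ρs n x ≤ tf M := by
    intro n
    induction n with
    | zero => intro x; exact ⟨le_refl _, tf_nonneg _⟩
    | succ n ih =>
      intro x
      change 0 ≤ (1 - τ) * ρs n x + τ * Gop a θ M W S (ρs n) x ∧
        (1 - τ) * ρs n x + τ * Gop a θ M W S (ρs n) x ≤ tf M
      have h1 := Gop_nonneg a θ M W S (ρs n) x
      have h2 := Gop_le a θ M W S (ρs n) x
      obtain ⟨h3, h4⟩ := ih x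
      have h5 : 0 ≤ 1 - τ := by linarith
      constructor
      · positivity
      · nlinarith
  -- the increments
  set dn : ℕ → V → ℝ := fun n x => ρs (n + 1) x - ρs n x with hdn
  have hdB : ∀ n, BC (dn n) := fun n => (hBC (n + 1)).sub (hBC n)
  set J : ℕ → ℝ := fun n => (∫ x, dn n x ^ 2) + 6 * L * Qf a θ (dn n) (dn n) with hJ
  have hJs : ∀ n, J (n + 1) ≤ (1 - τ) * J n := by
    intro n
    refine contr ha0 ha1 θ hθ hW hS hSR hL hcoc hτ0 hτ1 hτ2 (hBC (n + 1)) (hBC n) ?_
    intro x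
    change ((1 - τ) * ρs (n + 1) x + τ * Gop a θ M W S (ρs (n + 1)) x) -
      ((1 - τ) * ρs n x + τ * Gop a θ M W S (ρs n) x) = _
    ring
  have hJn : ∀ n, J n ≤ (1 - τ) ^ n * J 0 := by
    intro n
    induction n with
    | zero => simp
    | succ n ih =>
      refine (hJs n).trans ?_
      rw [pow_succ]
      have h5 : 0 ≤ 1 - τ := by linarith
      calc (1 - τ) * J n ≤ (1 - τ) * ((1 - τ) ^ n * J 0) := mul_le_mul_of_nonneg_left ih h5
        _ = _ := by ring
  have hQn : ∀ n, 0 ≤ Qf a θ (dn n) (dn n) := fun n => Qf_nonneg ha0 ha1 θ hθ (hdB n)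
  have hd2 : ∀ n, ∫ x, dn n x ^ 2 ≤ (1 - τ) ^ n * J 0 := by
    intro n
    refine le_trans ?_ (hJn n)
    have := hQn n
    have h6 : 0 ≤ 6 * L * Qf a θ (dn n) (dn n) := by positivity
    simp only [hJ]
    linarith
  set r : ℝ := √(1 - τ) with hr
  have hr0 : 0 < r := Real.sqrt_pos.mpr (by linarith)
  have hr1 : r < 1 := by
    rw [hr, Real.sqrt_lt' one_pos]; linarith
  have hr2 : r ^ 2 = 1 - τ := Real.sq_sqrt (by linarith)
  set vB : ℝ := volume.real (ball (0 : V) R) with hvB
  have hL1 : ∀ n, ∫ x, |dn n x| ≤ (vB + J 0) / 2 * r ^ n := by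
    intro n
    have hI1 : Integrable ((ball (0 : V) R).indicator fun _ => (1 : ℝ)) := by
      rw [integrable_indicator_iff measurableSet_ball]
      exact integrableOn_const (by finiteness)
    have hrn : 0 < r ^ n := pow_pos hr0 n
    have h1 : ∫ x, |dn n x| ≤ ∫ x, ((r ^ n / 2) * (ball (0 : V) R).indicator (fun _ => (1 : ℝ)) x +
        (1 / (2 * r ^ n)) * dn n x ^ 2) := by
      refine integral_mono (hdB n).integrable.abs
        ((hI1.const_mul _).add ((hdB n).sq.integrable.const_mul _)) fun x => ?_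
      simp only
      by_cases hx : x ∈ ball (0 : V) R
      · rw [indicator_of_mem hx]
        have e1 : |dn n x| = 2 * ((r ^ n) * (|dn n x|)) / (2 * r ^ n) := by field_simp
        have e2 : r ^ n / 2 * 1 + 1 / (2 * r ^ n) * dn n x ^ 2 =
            ((r ^ n) ^ 2 + |dn n x| ^ 2) / (2 * r ^ n) := by
          rw [sq_abs]; field_simp
        rw [e2]
        nth_rewrite 1 [e1]
        refine div_le_div_of_nonneg_right ?_ (by positivity)
        nlinarith [sq_nonneg (r ^ n - |dn n x|)]
      · have hx' : x ∉ S := fun h => hx (hSR h)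
        have e1 : dn n x = 0 := by simp only [hdn, hS0 _ x hx', sub_self]
        rw [e1, indicator_of_notMem hx]
        simp
    refine h1.trans ?_
    rw [integral_add (hI1.const_mul _) ((hdB n).sq.integrable.const_mul _), integral_const_mul,
      integral_const_mul, integral_indicator measurableSet_ball]
    have e3 : ∫ x in ball (0 : V) R, (1 : ℝ) = vB := by simp [hvB]
    rw [e3]
    have e4 : 1 / (2 * r ^ n) * ∫ x, dn n x ^ 2 ≤ 1 / (2 * r ^ n) * ((1 - τ) ^ n * J 0) :=
      mul_le_mul_of_nonneg_left (hd2 n) (by positivity)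
    have e5 : 1 / (2 * r ^ n) * ((1 - τ) ^ n * J 0) = J 0 / 2 * r ^ n := by
      rw [← hr2, ← pow_mul, mul_comm 2 n, pow_mul]
      field_simp
    rw [e5] at e4
    linarith
  -- almost everywhere convergence
  have hsum : ∀ᵐ x : V, Summable (fun n => dn n x) := by
    have h1 : ∫⁻ x, ∑' n, ‖dn n x‖ₑ ≠ ∞ := by
      rw [lintegral_tsum fun n => (hdB n).meas.enorm.aemeasurable]
      have h2 : ∀ n, ∫⁻ x, ‖dn n x‖ₑ ≤ ENNReal.ofReal ((vB + J 0) / 2 * r ^ n) := by
        intro n
        rw [← ofReal_integral_norm_eq_lintegral_enorm (hdB n).integrable]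
        exact ENNReal.ofReal_le_ofReal (hL1 n)
      refine ne_top_of_le_ne_top ?_ (ENNReal.tsum_le_tsum h2)
      have h3 : Summable (fun n => (vB + J 0) / 2 * r ^ n) :=
        (summable_geometric_of_lt_one hr0.le hr1).mul_left _
      have h4 : ∀ n, 0 ≤ (vB + J 0) / 2 * r ^ n := fun n =>
        (integral_nonneg fun x => abs_nonneg _).trans (hL1 n)
      rw [← ENNReal.ofReal_tsum_of_nonneg h4 h3]
      exact ENNReal.ofReal_ne_top
    have hm : Measurable (fun x => ∑' n, ‖dn n x‖ₑ) :=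
      Measurable.tsum fun n => (hdB n).meas.enorm
    filter_upwards [ae_lt_top hm h1] with x hx
    have h5 : Summable (fun n => ‖dn n x‖₊) := by
      rw [← ENNReal.tsum_coe_ne_top_iff_summable]
      exact hx.ne
    exact Summable.of_norm (by simpa using NNReal.summable_coe.mpr h5)
  have htel : ∀ n x, ρs n x = ∑ i ∈ Finset.range n, dn i x := by
    intro n x
    simp only [hdn]
    rw [Finset.sum_range_sub (fun i => ρs i x) n]
    change ρs n x = ρs n x - 0
    ring
  have hconv : ∀ᵐ x : V, ∃ l, Tendsto (fun n => ρs n x) atTop (𝓝 l) := by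
    filter_upwards [hsum] with x hx
    refine ⟨∑' n, dn n x, ?_⟩
    simp_rw [htel]
    exact hx.hasSum.tendsto_sum_nat
  obtain ⟨g, hgm, hg⟩ := measurable_limit_of_tendsto_metrizable_ae
    (fun n => (hBC n).meas.aemeasurable) hconv
  -- the cut-off limit
  set ρ0 : V → ℝ := S.indicator (fun x => max 0 (min (g x) (tf M))) with hρ0
  have hρ0B : BC ρ0 := by
    refine ⟨(measurable_const.max (hgm.min measurable_const)).indicator hS,
      ⟨tf M, fun x => ?_⟩, ⟨R, fun x hx => ?_⟩⟩
    · simp only [hρ0]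
      by_cases h : x ∈ S
      · rw [indicator_of_mem h, abs_of_nonneg (le_max_left _ _)]
        exact max_le (tf_nonneg _) (min_le_right _ _)
      · rw [indicator_of_notMem h, abs_zero]; exact tf_nonneg _
    · simp only [hρ0]
      rw [indicator_of_notMem]
      intro h
      have := hSR h
      rw [mem_ball_zero_iff] at this
      linarith
  have hlim : ∀ᵐ x : V, Tendsto (fun n => ρs n x) atTop (𝓝 (ρ0 x)) := by
    filter_upwards [hg] with x hx
    by_cases h : x ∈ S
    · have h1 : 0 ≤ g x := ge_of_tendsto' hx fun n => (hbd n x).1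
      have h2 : g x ≤ tf M := le_of_tendsto' hx fun n => (hbd n x).2
      simp only [hρ0]
      rw [indicator_of_mem h, min_eq_left h2, max_eq_right h1]
      exact hx
    · have h1 : ρ0 x = 0 := by simp only [hρ0]; rw [indicator_of_notMem h]
      rw [h1]
      simp_rw [hS0 _ x h]
      exact tendsto_const_nhds
  -- convergence of potentials
  have hpot : ∀ x, Tendsto (fun n => pot (ρs n) x) atTop (𝓝 (pot ρ0 x)) := by
    intro x
    set χ : V → ℝ := (ball (0 : V) R).indicator (fun _ => tf M) with hχ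
    have hχB : BC χ := by
      refine ⟨measurable_const.indicator measurableSet_ball, ⟨tf M, fun x => ?_⟩,
        ⟨R, fun x hx => indicator_of_notMem (by simpa using hx) _⟩⟩
      rw [abs_of_nonneg (indicator_nonneg (fun _ _ => tf_nonneg _) _)]
      exact indicator_le_self' (fun _ _ => tf_nonneg _) _
    unfold pot
    refine tendsto_integral_of_dominated_convergence (fun y => ‖x - y‖⁻¹ * χ y)
      (fun n => (pot_integrable (hBC n) x).aestronglyMeasurable) (pot_integrable hχB x)
      (fun n => Eventually.of_forall fun y => ?_) ?_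
    · rw [norm_mul, Real.norm_of_nonneg (by positivity : 0 ≤ ‖x - y‖⁻¹),
        Real.norm_of_nonneg (hbd n y).1]
      refine mul_le_mul_of_nonneg_left ?_ (by positivity)
      by_cases hy : y ∈ ball (0 : V) R
      · rw [hχ, indicator_of_mem hy]; exact (hbd n y).2
      · rw [hχ, indicator_of_notMem hy, hS0 n y fun h => hy (hSR h)]
    · filter_upwards [hlim] with y hy
      exact hy.const_mul _
  have hkop : ∀ x, Tendsto (fun n => kop a θ (ρs n) x) atTop (𝓝 (kop a θ ρ0 x)) := by
    intro x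
    unfold kop
    exact (hpot x).sub ((hpot (θ x)).const_mul a)
  have hG : ∀ x, Tendsto (fun n => Gop a θ M W S (ρs n) x) atTop (𝓝 (Gop a θ M W S ρ0 x)) := by
    intro x
    unfold Gop
    by_cases h : x ∈ S
    · simp only [indicator_of_mem h]
      exact ((tfM_continuous M).tendsto _).comp (tendsto_const_nhds.sub (hkop x))
    · simp only [indicator_of_notMem h]
      exact tendsto_const_nhds
  have heq : ∀ᵐ x : V, ρ0 x = Gop a θ M W S ρ0 x := by
    filter_upwards [hlim] with x hx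
    have h1 : Tendsto (fun n => ρs (n + 1) x) atTop (𝓝 (ρ0 x)) := hx.comp (tendsto_add_atTop_nat 1)
    have h2 : Tendsto (fun n => ρs (n + 1) x) atTop
        (𝓝 ((1 - τ) * ρ0 x + τ * Gop a θ M W S ρ0 x)) :=
      (hx.const_mul _).add ((hG x).const_mul _)
    have h3 := tendsto_nhds_unique h1 h2
    have h4 : τ * ρ0 x = τ * Gop a θ M W S ρ0 x := by linarith
    exact mul_left_cancel₀ hτ0.ne' h4
  refine ⟨Gop a θ M W S ρ0, Gop_BC hW hS hSR hρ0B, Gop_nonneg _ _ _ _ _ _, ?_, ?_⟩
  · intro x hx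
    unfold Gop
    rw [indicator_of_notMem hx]
  · intro x hx
    have h1 : pot (Gop a θ M W S ρ0) = pot ρ0 := by
      refine pot_congr_ae ?_
      filter_upwards [heq] with y hy
      exact hy.symm
    have h2 : kop a θ (Gop a θ M W S ρ0) x = kop a θ ρ0 x := by
      unfold kop
      rw [h1]
    rw [h2]
    unfold Gop
    rw [indicator_of_mem hx]

end Pool.Agent.TF

end

section
/-! The model space `ℝ × ℝ²`, the half space and its reflection. -/

set_option linter.unusedSectionVars false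

set_option linter.unusedVariables false

set_option linter.style.haveILetI false

namespace Pool.Agent.TF

open MeasureTheory Set Metric Filter Topology

open scoped ENNReal NNReal RealInnerProductSpace

/-! ### whole space solutions -/

section whole

variable {V : Type*} [NormedAddCommGroup V] [InnerProductSpace ℝ V] [FiniteDimensional ℝ V]
  [MeasurableSpace V] [BorelSpace V] [hd : Fact (Module.finrank ℝ V = 3)]

/-- whole space Thomas-Fermi equation with bounded nuclear density -/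
theorem exists_tf {m : V → ℝ} (hm : BC m) {φ₀ : ℝ} (hφ : 0 < φ₀) :
    ∃ ρ : V → ℝ, BC ρ ∧ (∀ x, 0 ≤ ρ x) ∧ ∀ x, ρ x = tf (pot (fun y => m y - ρ y) x - φ₀) := by
  obtain ⟨R, hR⟩ := pot_decay hm hφ
  obtain ⟨M, hM⟩ := pot_bound hm
  have hM0 : 0 ≤ M := (abs_nonneg _).trans (hM 0)
  set S : Set V := {x | φ₀ ≤ pot m x} with hS
  have hSm : MeasurableSet S := measurableSet_le measurable_const (pot_continuous hm).measurable
  have hSR : S ⊆ ball 0 R := by
    intro x hx
    rw [mem_ball_zero_iff]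
    by_contra h
    push Not at h
    have h1 := hR x h
    have h2 : φ₀ ≤ pot m x := hx
    have h3 := (abs_lt.mp h1).2
    linarith
  obtain ⟨ρ, hρB, hρ0, hρS, hρ⟩ := exists_sol (V := V) (a := 0) le_rfl zero_le_one
    (LinearIsometryEquiv.refl ℝ V) (fun x => rfl) hM0
    (W := fun x => pot m x - φ₀) ((pot_continuous hm).measurable.sub measurable_const) hSm hSR
  refine ⟨ρ, hρB, hρ0, fun x => ?_⟩
  have hk : kop 0 (LinearIsometryEquiv.refl ℝ V) ρ x = pot ρ x := by unfold kop; ring
  have hpos : 0 ≤ pot ρ x := pot_nonneg hρ0 x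
  rw [pot_sub hm hρB]
  by_cases hx : x ∈ S
  · rw [hρ x hx, hk]
    unfold tfM
    rw [min_eq_left]
    · congr 1; ring
    · have := (abs_le.mp (hM x)).2
      linarith
  · rw [hρS x hx, tf_of_nonpos]
    have : pot m x < φ₀ := by simpa [hS] using hx
    linarith

end whole

/-! ### the model space -/

/-- the plane -/
abbrev E2 := EuclideanSpace ℝ (Fin 2)

/-- the model of three space -/
abbrev X := WithLp 2 (ℝ × E2)

instance : Fact (Module.finrank ℝ X = 3) := ⟨by
  have : Module.finrank ℝ X = Module.finrank ℝ (ℝ × E2) :=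
    LinearEquiv.finrank_eq (WithLp.linearEquiv 2 ℝ (ℝ × E2))
  rw [this]; simp⟩

/-- coordinates -/
noncomputable def mk (s : ℝ) (z : E2) : X := WithLp.toLp 2 (s, z)

@[simp] theorem mk_fst (s : ℝ) (z : E2) : (mk s z).fst = s := rfl

@[simp] theorem mk_snd (s : ℝ) (z : E2) : (mk s z).snd = z := rfl

theorem mk_eta (x : X) : mk x.fst x.snd = x := rfl

/-- first unit vector -/
noncomputable def e1 : X := mk 1 0

/-- the reflection -/
noncomputable def th : X ≃ₗᵢ[ℝ] X :=
  LinearIsometryEquiv.withLpProdCongr 2 (LinearIsometryEquiv.neg ℝ) (LinearIsometryEquiv.refl ℝ E2)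

@[simp] theorem th_mk (s : ℝ) (z : E2) : th (mk s z) = mk (-s) z := rfl

@[simp] theorem th_fst (x : X) : (th x).fst = -x.fst := rfl

theorem th_th (x : X) : th (th x) = x := by
  rw [← mk_eta x, th_mk, th_mk, neg_neg]

theorem norm_sq_eq (x : X) : ‖x‖ ^ 2 = x.fst ^ 2 + ‖x.snd‖ ^ 2 := by
  rw [WithLp.prod_norm_sq_eq_of_L2, Real.norm_eq_abs, sq_abs]

theorem norm_mk_sq (s : ℝ) (z : E2) : ‖mk s z‖ ^ 2 = s ^ 2 + ‖z‖ ^ 2 := norm_sq_eq _

theorem inner_e1 (x : X) : ⟪x, e1⟫ = x.fst := by
  rw [WithLp.prod_inner_apply]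
  simp [e1, mk]

theorem th_e1 : th e1 = -e1 := by
  unfold e1
  rw [th_mk]
  unfold mk
  rw [← WithLp.toLp_neg]
  simp

theorem mk_add_smul (s t : ℝ) (z : E2) : mk s z + t • e1 = mk (s + t) z := by
  unfold mk e1 mk
  rw [← WithLp.toLp_smul, ← WithLp.toLp_add]
  simp

theorem fst_continuous : Continuous (fun x : X => x.fst) := by fun_prop

theorem mk_continuous : Continuous (fun p : ℝ × E2 => mk p.1 p.2) := by
  unfold mk; fun_prop

/-- the right half space -/
def Om : Set X := {x | 0 < x.fst}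

theorem Om_meas : MeasurableSet Om := measurableSet_lt measurable_const fst_continuous.measurable

theorem abs_fst_le (x : X) : |x.fst| ≤ ‖x‖ := by
  refine abs_le_of_sq_le_sq ?_ (norm_nonneg _)
  rw [norm_sq_eq]
  nlinarith [sq_nonneg ‖x.snd‖]

theorem dist_th_le {x y : X} (hx : 0 ≤ x.fst) (hy : 0 ≤ y.fst) : ‖x - y‖ ≤ ‖th x - y‖ := by
  refine le_of_sq_le_sq ?_ (norm_nonneg _)
  rw [norm_sq_eq, norm_sq_eq]
  have e1 : (x - y).fst = x.fst - y.fst := rfl
  have e2 : (th x - y).fst = -x.fst - y.fst := rfl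
  have e3 : (th x - y).snd = (x - y).snd := rfl
  rw [e1, e2, e3]
  nlinarith [mul_nonneg hx hy]

/-- half space solution with prescribed harmonic part -/
theorem exists_half {h : X → ℝ} (hh : BC h) {φ₀ : ℝ} (hφ : 0 < φ₀) :
    ∃ ρ : X → ℝ, BC ρ ∧ (∀ x, 0 ≤ ρ x) ∧ (∀ x, x ∉ Om → ρ x = 0) ∧
      ∀ x, x ∈ Om → ρ x = tf (pot (fun y => h y - ρ y + ρ (th y)) x - φ₀) := by
  obtain ⟨R, hR⟩ := pot_decay hh hφ
  obtain ⟨M, hM⟩ := pot_bound hh
  have hM0 : 0 ≤ M := (abs_nonneg _).trans (hM 0)
  set S : Set X := Om ∩ {x | φ₀ ≤ pot h x} with hS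
  have hSm : MeasurableSet S :=
    Om_meas.inter (measurableSet_le measurable_const (pot_continuous hh).measurable)
  have hSR : S ⊆ ball 0 R := by
    intro x hx
    rw [mem_ball_zero_iff]
    by_contra h
    push Not at h
    have h1 := hR x h
    have h2 : φ₀ ≤ pot _ x := hx.2
    have h3 := (abs_lt.mp h1).2
    linarith
  obtain ⟨ρ, hρB, hρ0, hρS, hρ⟩ := exists_sol (V := X) (a := 1) zero_le_one le_rfl
    th th_th hM0
    (W := fun x => pot h x - φ₀) ((pot_continuous hh).measurable.sub measurable_const) hSm hSR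
  have hOm : ∀ x, x ∉ Om → ρ x = 0 := fun x hx => hρS x fun h => hx h.1
  refine ⟨ρ, hρB, hρ0, hOm, fun x hx => ?_⟩
  have hk : kop 1 th ρ x = pot ρ x - pot ρ (th x) := by unfold kop; ring
  have hpos : 0 ≤ pot ρ x - pot ρ (th x) := by
    unfold pot
    rw [← integral_sub (pot_integrable hρB x) (pot_integrable hρB (th x))]
    haveI := nontriv (V := X)
    have hne : ∀ᵐ y : X, y ≠ x := by rw [ae_iff]; simp
    refine integral_nonneg_of_ae ?_
    filter_upwards [hne] with y hyx
    simp only [Pi.zero_apply]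
    by_cases hy : y ∈ Om
    · rw [← sub_mul]
      refine mul_nonneg ?_ (hρ0 y)
      rw [sub_nonneg]
      exact inv_anti₀ (norm_pos_iff.mpr (sub_ne_zero.mpr (Ne.symm hyx)))
          (dist_th_le (le_of_lt hx) (le_of_lt hy))
    · rw [hOm y hy]; simp
  have hρt : BC (fun y => ρ (th y)) := hρB.comp_isom th
  rw [pot_add (hh.sub hρB) hρt, pot_sub hh hρB, pot_comp_isom]
  by_cases hxS : x ∈ S
  · rw [hρ x hxS, hk]
    unfold tfM
    rw [min_eq_left]
    · congr 1; ring
    · have := (abs_le.mp (hM x)).2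
      linarith
  · rw [hρS x hxS, tf_of_nonpos]
    have : pot h x < φ₀ := by
      by_contra h'
      push Not at h'
      exact hxS ⟨hx, h'⟩
    linarith

/-! ### integration in coordinates -/

theorem mk_measurePreserving : MeasurePreserving (fun p : ℝ × E2 => mk p.1 p.2) volume volume :=
  WithLp.volume_preserving_toLp ℝ E2

theorem mk_embedding : MeasurableEmbedding (fun p : ℝ × E2 => mk p.1 p.2) :=
  (MeasurableEquiv.toLp 2 (ℝ × E2)).measurableEmbedding

theorem integral_X (f : X → ℝ) : ∫ x, f x = ∫ p : ℝ × E2, f (mk p.1 p.2) :=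
  (mk_measurePreserving.integral_comp mk_embedding f).symm

theorem integrable_X {f : X → ℝ} (hf : Integrable f) :
    Integrable (fun p : ℝ × E2 => f (mk p.1 p.2)) :=
  (mk_measurePreserving.integrable_comp_emb mk_embedding).mpr hf

theorem integral_X_swap {f : X → ℝ} (hf : Integrable f) :
    ∫ x, f x = ∫ z : E2, ∫ s : ℝ, f (mk s z) := by
  rw [integral_X]
  have h := integrable_X hf
  rw [Measure.volume_eq_prod] at h ⊢
  rw [integral_prod_symm _ h]

/-! ### the antiderivative of `tf` -/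

/-- `v ↦ (2/5) v_+^{5/2}` -/
noncomputable def Phi (v : ℝ) : ℝ := 2 / 5 * (v * tf v)

theorem Phi_nonneg (v : ℝ) : 0 ≤ Phi v := by
  unfold Phi
  rcases le_total v 0 with h | h
  · rw [tf_of_nonpos h]; simp
  · have := tf_nonneg v
    positivity

theorem Phi_of_nonpos {v : ℝ} (h : v ≤ 0) : Phi v = 0 := by unfold Phi; rw [tf_of_nonpos h]; simp

theorem hasDerivAt_Phi (v : ℝ) : HasDerivAt Phi (tf v) v := by
  rcases lt_trichotomy v 0 with h | h | h
  · rw [tf_of_nonpos h.le]
    have h1 : Phi =ᶠ[𝓝 v] fun _ => 0 := by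
      filter_upwards [gt_mem_nhds h] with w hw
      exact Phi_of_nonpos hw.le
    exact (hasDerivAt_const v (0 : ℝ)).congr_of_eventuallyEq h1
  · subst h
    rw [hasDerivAt_iff_tendsto_slope]
    have h1 : slope Phi 0 =ᶠ[𝓝[≠] 0] fun w => 2 / 5 * tf w := by
      filter_upwards [self_mem_nhdsWithin] with w hw
      have hw' : w ≠ 0 := hw
      rw [slope_def_field, Phi_of_nonpos le_rfl]
      unfold Phi
      field_simp
      ring
    refine Tendsto.congr' h1.symm ?_
    have h2 : tf 0 = 2 / 5 * tf 0 := by rw [tf_of_nonpos le_rfl]; simp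
    rw [h2]
    exact ((tf_continuous.const_mul _).tendsto 0).mono_left nhdsWithin_le_nhds
  · have h1 : Phi =ᶠ[𝓝 v] fun w => 2 / 5 * (w * (w * √w)) := by
      filter_upwards [lt_mem_nhds h] with w hw
      unfold Phi tf
      rw [max_eq_left hw.le]
    have h2 : tf v = v * √v := by unfold tf; rw [max_eq_left h.le]
    rw [h2]
    have h3 : HasDerivAt (fun w : ℝ => √w) (1 / (2 * √v)) v := Real.hasDerivAt_sqrt h.ne'
    have h4 := (((hasDerivAt_id v).mul ((hasDerivAt_id v).mul h3)).const_mul (2 / 5 : ℝ))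
    have h5 : HasDerivAt (fun w => 2 / 5 * (w * (w * √w)))
        (2 / 5 * (1 * (v * √v) + v * (1 * √v + v * (1 / (2 * √v))))) v := h4
    refine (h5.congr_deriv ?_).congr_of_eventuallyEq h1
    have hs : √v ≠ 0 := (Real.sqrt_pos.mpr h).ne'
    have hs2 : √v * √v = v := Real.mul_self_sqrt h.le
    field_simp
    have : √v ^ 2 = v := by rw [sq]; exact hs2
    rw [this]
    ring

theorem Phi_continuous : Continuous Phi := by
  unfold Phi
  exact continuous_const.mul (continuous_id.mul tf_continuous)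

/-! ### force on the electrons in the half space -/

theorem tf_pot_BC {h : X → ℝ} (hh : BC h) {φ₀ : ℝ} (hφ : 0 < φ₀) :
    BC (fun x => tf (pot h x - φ₀)) := by
  obtain ⟨R, hR⟩ := pot_decay hh hφ
  obtain ⟨M, hM⟩ := pot_bound hh
  refine ⟨tf_continuous.measurable.comp ((pot_continuous hh).measurable.sub measurable_const),
    ⟨tf M, fun x => ?_⟩, ⟨R, fun x hx => ?_⟩⟩
  · rw [abs_of_nonneg (tf_nonneg _)]
    refine tf_mono ?_
    have := (abs_le.mp (hM x)).2
    linarith
  · refine tf_of_nonpos ?_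
    have := (abs_lt.mp (hR x hx)).2
    linarith

/-- electron pressure on the plane -/
noncomputable def Pr (h : X → ℝ) (φ₀ : ℝ) : ℝ := ∫ z : E2, Phi (pot h (mk 0 z) - φ₀)

theorem ftc {h : X → ℝ} (hh : BC h) {φ₀ : ℝ} (hφ : 0 < φ₀) :
    ∫ x, Om.indicator (fun x => tf (pot h x - φ₀)) x * grad e1 h x = -Pr h φ₀ := by
  have hB := tf_pot_BC hh hφ
  have hI : Integrable (fun x => Om.indicator (fun x => tf (pot h x - φ₀)) x * grad e1 h x) := by
    obtain ⟨B, hB'⟩ := grad_bound hh e1
    exact (hB.indicator Om_meas).mul_bdd (grad_continuous hh e1).measurable hB'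
  rw [integral_X_swap hI]
  unfold Pr
  rw [← integral_neg]
  refine integral_congr_ae (Eventually.of_forall fun z => ?_)
  simp only
  have hline : ∀ s : ℝ, mk s z = mk 0 z + s • e1 := fun s => by rw [mk_add_smul, zero_add]
  have hder : ∀ s : ℝ, HasDerivAt (fun s : ℝ => Phi (pot h (mk s z) - φ₀))
      (tf (pot h (mk s z) - φ₀) * grad e1 h (mk s z)) s := by
    intro s
    have h1 : HasDerivAt (fun s : ℝ => pot h (mk s z) - φ₀) (grad e1 h (mk s z)) s := by
      have := (hasDerivAt_pot hh (mk 0 z) e1 s).sub_const φ₀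
      simpa only [← hline] using this
    exact (hasDerivAt_Phi _).comp s h1
  obtain ⟨R, hR⟩ := pot_decay hh hφ
  have hzero : ∀ s : ℝ, R ≤ s → tf (pot h (mk s z) - φ₀) = 0 ∧ Phi (pot h (mk s z) - φ₀) = 0 := by
    intro s hs
    have h1 : R ≤ ‖mk s z‖ := hs.trans ((le_abs_self s).trans (abs_fst_le (mk s z)))
    have h2 := (abs_lt.mp (hR _ h1)).2
    exact ⟨tf_of_nonpos (by linarith), Phi_of_nonpos (by linarith)⟩
  have hcont : Continuous (fun s : ℝ => tf (pot h (mk s z) - φ₀) * grad e1 h (mk s z)) := by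
    have hmc : Continuous (fun s : ℝ => mk s z) := mk_continuous.comp (continuous_id.prodMk continuous_const)
    exact (tf_continuous.comp (((pot_continuous hh).comp hmc).sub continuous_const)).mul
      ((grad_continuous hh e1).comp hmc)
  have h1 : ∫ s : ℝ, Om.indicator (fun x => tf (pot h x - φ₀)) (mk s z) * grad e1 h (mk s z) =
      ∫ s in Ioi (0 : ℝ), tf (pot h (mk s z) - φ₀) * grad e1 h (mk s z) := by
    rw [← integral_indicator measurableSet_Ioi]
    refine integral_congr_ae (Eventually.of_forall fun s => ?_)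
    simp only
    by_cases hs : 0 < s
    · rw [indicator_of_mem (show mk s z ∈ Om from hs), indicator_of_mem (show s ∈ Ioi (0 : ℝ) from hs)]
    · rw [indicator_of_notMem (show mk s z ∉ Om from hs),
        indicator_of_notMem (show s ∉ Ioi (0 : ℝ) from hs), zero_mul]
  rw [h1]
  have h2 : IntegrableOn (fun s : ℝ => tf (pot h (mk s z) - φ₀) * grad e1 h (mk s z))
      (Ioi 0) := by
    have h3 : IntegrableOn (fun s : ℝ => tf (pot h (mk s z) - φ₀) * grad e1 h (mk s z))
        (Icc 0 (max R 0)) := hcont.continuousOn.integrableOn_Icc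
    have h4 : IntegrableOn (fun s : ℝ => tf (pot h (mk s z) - φ₀) * grad e1 h (mk s z))
        (Ioi (max R 0)) := by
      refine (integrableOn_zero).congr_fun (fun s hs => ?_) measurableSet_Ioi
      rw [(hzero s ((le_max_left _ _).trans (le_of_lt hs))).1, zero_mul]
    refine (h3.union h4).mono_set fun s hs => ?_
    rcases le_or_gt s (max R 0) with h | h
    · exact Or.inl ⟨le_of_lt hs, h⟩
    · exact Or.inr h
  rw [integral_Ioi_of_hasDerivAt_of_tendsto' (fun s _ => hder s) h2 (m := 0)]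
  · ring
  · refine tendsto_const_nhds.congr' ?_
    filter_upwards [eventually_ge_atTop R] with s hs
    exact (hzero s hs).2.symm

end Pool.Agent.TF

end

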