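import Mathlib
import Pool.Agent.Lib.MP_9cf0c9_mp.Tr.BaseA

section
/-! The potential of a uniform ball. -/

set_option linter.unusedSectionVars false

set_option linter.unusedVariables false

set_option linter.style.haveILetI false

namespace Pool.Agent.TF

open MeasureTheory Set Metric Filter Topology

open scoped ENNReal NNReal RealInnerProductSpace

/-- indicator of a centred ball -/
noncomputable def chi (r : ℝ) : X → ℝ := (ball (0 : X) r).indicator fun _ => (1 : ℝ)

theorem chi_nonneg (r : ℝ) (x : X) : 0 ≤ chi r x := indicator_nonneg (fun _ _ => zero_le_one) _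

theorem chi_BC (r : ℝ) : BC (chi r) := by
  refine ⟨measurable_const.indicator measurableSet_ball, ⟨1, fun x => ?_⟩,
    ⟨r, fun x hx => indicator_of_notMem (by simpa using hx) _⟩⟩
  rw [abs_of_nonneg (chi_nonneg r x)]
  exact indicator_le_self' (fun _ _ => zero_le_one) _

theorem chi_isom (r : ℝ) (L : X ≃ₗᵢ[ℝ] X) (x : X) : chi r (L x) = chi r x := by
  unfold chi
  by_cases h : x ∈ ball (0 : X) r
  · have h' : L x ∈ ball (0 : X) r := by
      rw [mem_ball_zero_iff] at h ⊢; rwa [L.norm_map]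
    rw [indicator_of_mem h, indicator_of_mem h']
  · have h' : L x ∉ ball (0 : X) r := by
      rw [mem_ball_zero_iff] at h ⊢; rwa [L.norm_map]
    rw [indicator_of_notMem h, indicator_of_notMem h']

theorem vol_ball (x : X) {r : ℝ} (hr : 0 ≤ r) :
    volume.real (ball x r) = 4 / 3 * Real.pi * r ^ 3 := by
  have hf : Module.finrank ℝ X = 3 := Fact.out
  haveI := nontriv (V := X)
  have h := InnerProductSpace.volume_ball_of_dim_odd (E := X) (k := 1) (by rw [hf]) x r
  rw [Measure.real, h, hf]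
  rw [ENNReal.toReal_mul, ENNReal.toReal_pow, ENNReal.toReal_ofReal hr,
    ENNReal.toReal_ofReal (by positivity)]
  norm_num [Nat.doubleFactorial]
  ring

/-- the inner radial integral -/
theorem inner_rad (a : ℝ) {ρ : ℝ} (hρ : 0 ≤ ρ) :
    ∫ t in (0 : ℝ)..ρ, t * (√(a ^ 2 + t ^ 2))⁻¹ = √(a ^ 2 + ρ ^ 2) - |a| := by
  have h1 : ContinuousOn (fun t : ℝ => √(a ^ 2 + t ^ 2)) (Icc 0 ρ) := by fun_prop
  have h2 : ∀ t ∈ Ioo (0 : ℝ) ρ, HasDerivAt (fun t : ℝ => √(a ^ 2 + t ^ 2))
      (t * (√(a ^ 2 + t ^ 2))⁻¹) t := by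
    intro t ht
    have hpos : 0 < a ^ 2 + t ^ 2 := by
      have := ht.1
      positivity
    have h3 : HasDerivAt (fun t : ℝ => a ^ 2 + t ^ 2) (2 * t) t := by
      simpa using (hasDerivAt_pow 2 t).const_add (a ^ 2)
    have h4 := h3.sqrt hpos.ne'
    refine h4.congr_deriv ?_
    have : √(a ^ 2 + t ^ 2) ≠ 0 := (Real.sqrt_pos.mpr hpos).ne'
    field_simp
  have hmeas : Measurable (fun t : ℝ => t * (√(a ^ 2 + t ^ 2))⁻¹) := by fun_prop
  have h5 : IntervalIntegrable (fun t : ℝ => t * (√(a ^ 2 + t ^ 2))⁻¹) volume 0 ρ := by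
    refine (intervalIntegrable_const (c := (1 : ℝ))).mono_fun' hmeas.aestronglyMeasurable
      (Eventually.of_forall fun t => ?_)
    change ‖t * (√(a ^ 2 + t ^ 2))⁻¹‖ ≤ 1
    rw [norm_mul, norm_inv, Real.norm_eq_abs, Real.norm_of_nonneg (Real.sqrt_nonneg _)]
    by_cases ht : √(a ^ 2 + t ^ 2) = 0
    · rw [ht]; simp
    · have hp : 0 < √(a ^ 2 + t ^ 2) := lt_of_le_of_ne (Real.sqrt_nonneg _) (Ne.symm ht)
      rw [← div_eq_mul_inv, div_le_one hp]
      refine Real.abs_le_sqrt ?_
      nlinarith [sq_nonneg a]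
  rw [intervalIntegral.integral_eq_sub_of_hasDerivAt_of_le hρ h1 h2 h5]
  congr 1
  rw [zero_pow two_ne_zero, add_zero, Real.sqrt_sq_eq_abs]

/-- the slice integral -/
theorem slice (D r s : ℝ) (hr : 0 < r) (hs : |s| < r) :
    ∫ z : E2, ‖mk D 0 - mk s z‖⁻¹ * chi r (mk s z) =
      2 * Real.pi * (√((D - s) ^ 2 + (r ^ 2 - s ^ 2)) - |D - s|) := by
  have hs2 : s ^ 2 < r ^ 2 := by
    rw [← sq_abs s]; exact pow_lt_pow_left₀ hs (abs_nonneg _) two_ne_zero
  set ρ := √(r ^ 2 - s ^ 2) with hρ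
  have hρ0 : 0 ≤ ρ := Real.sqrt_nonneg _
  have hρ2 : ρ ^ 2 = r ^ 2 - s ^ 2 := Real.sq_sqrt (by linarith)
  set g : ℝ → ℝ := (Iio ρ).indicator (fun t => (√((D - s) ^ 2 + t ^ 2))⁻¹) with hg
  have h1 : (fun z : E2 => ‖mk D 0 - mk s z‖⁻¹ * chi r (mk s z)) = fun z => g ‖z‖ := by
    funext z
    have e1 : ‖mk D 0 - mk s z‖ = √((D - s) ^ 2 + ‖z‖ ^ 2) := by
      rw [← Real.sqrt_sq (norm_nonneg (mk D 0 - mk s z)), norm_sq_eq]
      congr 3
      change ‖(0 : E2) - z‖ = ‖z‖
      simp
    by_cases hz : ‖z‖ < ρ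
    · have h2 : mk s z ∈ ball (0 : X) r := by
        rw [mem_ball_zero_iff]
        refine lt_of_pow_lt_pow_left₀ 2 hr.le ?_
        rw [norm_mk_sq]
        have : ‖z‖ ^ 2 < ρ ^ 2 := pow_lt_pow_left₀ hz (norm_nonneg _) two_ne_zero
        linarith
      have h3 : chi r (mk s z) = 1 := indicator_of_mem h2 _
      rw [h3, mul_one, hg, indicator_of_mem (show ‖z‖ ∈ Iio ρ from hz), e1]
    · have h2 : mk s z ∉ ball (0 : X) r := by
        rw [mem_ball_zero_iff]
        intro h
        have h4 : ‖mk s z‖ ^ 2 < r ^ 2 := pow_lt_pow_left₀ h (norm_nonneg _) two_ne_zero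
        rw [norm_mk_sq] at h4
        push Not at hz
        have : ρ ^ 2 ≤ ‖z‖ ^ 2 := pow_le_pow_left₀ hρ0 hz 2
        linarith
      have h3 : chi r (mk s z) = 0 := indicator_of_notMem h2 _
      rw [h3, mul_zero, hg, indicator_of_notMem (show ‖z‖ ∉ Iio ρ from hz)]
  rw [h1, integral_fun_norm_addHaar (volume : Measure E2) g]
  have h4 : volume.real (ball (0 : E2) 1) = Real.pi := by
    rw [Measure.real, EuclideanSpace.volume_ball_fin_two]
    simp [Real.pi_nonneg]
  have h5 : Module.finrank ℝ E2 = 2 := by simp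
  rw [h4, h5]
  have h6 : ∫ y in Ioi (0 : ℝ), y ^ (2 - 1) • g y = √((D - s) ^ 2 + ρ ^ 2) - |D - s| := by
    rw [← inner_rad (D - s) hρ0, intervalIntegral.integral_of_le hρ0,
      ← integral_indicator measurableSet_Ioi, ← integral_indicator measurableSet_Ioc]
    refine integral_congr_ae ?_
    have hne : ∀ᵐ t : ℝ, t ≠ ρ := by rw [ae_iff]; simp
    filter_upwards [hne] with t ht
    by_cases h0 : 0 < t
    · rw [indicator_of_mem (show t ∈ Ioi (0 : ℝ) from h0), hg]
      by_cases h7 : t < ρ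
      · rw [indicator_of_mem (show t ∈ Iio ρ from h7),
          indicator_of_mem (show t ∈ Ioc 0 ρ from ⟨h0, h7.le⟩)]
        simp
      · rw [indicator_of_notMem (show t ∉ Iio ρ from h7), indicator_of_notMem]
        · simp
        · intro h8
          exact h7 (lt_of_le_of_ne h8.2 ht)
    · rw [indicator_of_notMem (show t ∉ Ioi (0 : ℝ) from h0), indicator_of_notMem]
      intro h8
      exact h0 h8.1
  rw [h6, hρ2]
  simp only [smul_eq_mul, nsmul_eq_mul]
  push_cast
  ring

/-- the outer integral -/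
theorem outer (D r : ℝ) (hD : 0 < D) (hr : 0 < r) :
    ∫ s in (-r)..r, (√(D ^ 2 + r ^ 2 - 2 * s * D) - (D - s)) =
      ((D + r) ^ 3 - |D - r| ^ 3) / (3 * D) - 2 * D * r := by
  set A : ℝ → ℝ := fun s => -((D ^ 2 + r ^ 2 - 2 * s * D) * √(D ^ 2 + r ^ 2 - 2 * s * D)) / (3 * D)
    - (D * s - s ^ 2 / 2) with hA
  have h1 : ContinuousOn A (Icc (-r) r) := by
    have : Continuous A := by rw [hA]; fun_prop
    exact this.continuousOn
  have h2 : ∀ s ∈ Ioo (-r) r, HasDerivAt A (√(D ^ 2 + r ^ 2 - 2 * s * D) - (D - s)) s := by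
    intro s hs
    have hq : 0 < D ^ 2 + r ^ 2 - 2 * s * D := by
      nlinarith [sq_nonneg (D - r), mul_pos hD (sub_pos.mpr hs.2)]
    have h3 : HasDerivAt (fun s : ℝ => D ^ 2 + r ^ 2 - 2 * s * D) (-(2 * D)) s := by
      have := ((hasDerivAt_id s).const_mul 2).mul_const D |>.const_sub (D ^ 2 + r ^ 2)
      simpa using this
    have h4 := h3.sqrt hq.ne'
    have h5 := ((h3.mul h4).neg.div_const (3 * D))
    have h6 : HasDerivAt (fun s : ℝ => D * s - s ^ 2 / 2) (D - s) s := by
      have := ((hasDerivAt_id s).const_mul D).sub ((hasDerivAt_pow 2 s).div_const 2)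
      refine this.congr_deriv ?_
      simp
    have h7 := h5.sub h6
    refine h7.congr_deriv ?_
    have hs0 : √(D ^ 2 + r ^ 2 - 2 * s * D) ≠ 0 := (Real.sqrt_pos.mpr hq).ne'
    have hs2 : √(D ^ 2 + r ^ 2 - 2 * s * D) ^ 2 = D ^ 2 + r ^ 2 - 2 * s * D := Real.sq_sqrt hq.le
    congr 1
    set q := √(D ^ 2 + r ^ 2 - 2 * s * D) with hqdef
    rw [← hs2]
    field_simp
    ring
  have h3 : IntervalIntegrable (fun s => √(D ^ 2 + r ^ 2 - 2 * s * D) - (D - s)) volume (-r) r :=
    (Continuous.intervalIntegrable (by fun_prop) _ _)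
  rw [intervalIntegral.integral_eq_sub_of_hasDerivAt_of_le (by linarith) h1 h2 h3]
  have e1 : D ^ 2 + r ^ 2 - 2 * r * D = (D - r) ^ 2 := by ring
  have e2 : D ^ 2 + r ^ 2 - 2 * (-r) * D = (D + r) ^ 2 := by ring
  simp only [hA]
  rw [e1, e2, Real.sqrt_sq_eq_abs, Real.sqrt_sq (by positivity : 0 ≤ D + r)]
  have e3 : (D - r) ^ 2 * |D - r| = |D - r| ^ 3 := by
    rw [← sq_abs (D - r)]; ring
  rw [e3]
  field_simp
  ring

theorem newton_axis (D r : ℝ) (hD : 0 < D) (hr : 0 < r) :
    pot (chi r) (mk D 0) ≤ 4 / 3 * Real.pi * r ^ 3 * D⁻¹ ∧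
      (r ≤ D → pot (chi r) (mk D 0) = 4 / 3 * Real.pi * r ^ 3 * D⁻¹) := by
  have hI := pot_integrable (chi_BC r) (mk D 0)
  have h1 : pot (chi r) (mk D 0) = ∫ s : ℝ, ∫ z : E2, ‖mk D 0 - mk s z‖⁻¹ * chi r (mk s z) := by
    unfold pot
    rw [integral_X]
    have h := integrable_X hI
    rw [Measure.volume_eq_prod] at h ⊢
    rw [integral_prod _ h]
  have h2 : ∀ s : ℝ, s ∉ Ioo (-r) r → ∫ z : E2, ‖mk D 0 - mk s z‖⁻¹ * chi r (mk s z) = 0 := by
    intro s hs
    have : ∀ z : E2, chi r (mk s z) = 0 := by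
      intro z
      refine indicator_of_notMem ?_ _
      rw [mem_ball_zero_iff]
      intro h
      have := lt_of_le_of_lt (abs_fst_le (mk s z)) h
      exact hs (abs_lt.mp this)
    simp [this]
  set F : ℝ → ℝ := fun s => 2 * Real.pi * (√((D - s) ^ 2 + (r ^ 2 - s ^ 2)) - |D - s|) with hF
  have h3 : pot (chi r) (mk D 0) = ∫ s in (-r)..r, F s := by
    rw [h1, intervalIntegral.integral_of_le (by linarith), ← integral_indicator measurableSet_Ioc]
    refine integral_congr_ae ?_
    have hne : ∀ᵐ t : ℝ, t ≠ r := by rw [ae_iff]; simp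
    filter_upwards [hne] with s hs
    by_cases h : s ∈ Ioo (-r) r
    · rw [indicator_of_mem (show s ∈ Ioc (-r) r from ⟨h.1, h.2.le⟩),
        slice D r s hr (abs_lt.mpr h)]
    · rw [h2 s h, indicator_of_notMem]
      intro h'
      exact h ⟨h'.1, lt_of_le_of_ne h'.2 hs⟩
  have hFc : Continuous F := by rw [hF]; fun_prop
  have hGc : Continuous (fun s : ℝ => 2 * Real.pi * (√(D ^ 2 + r ^ 2 - 2 * s * D) - (D - s))) := by
    fun_prop
  have hval : ∫ s in (-r)..r, 2 * Real.pi * (√(D ^ 2 + r ^ 2 - 2 * s * D) - (D - s)) =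
      2 * Real.pi * (((D + r) ^ 3 - |D - r| ^ 3) / (3 * D) - 2 * D * r) := by
    rw [intervalIntegral.integral_const_mul, outer D r hD hr]
  have hFG : ∀ s : ℝ, F s ≤ 2 * Real.pi * (√(D ^ 2 + r ^ 2 - 2 * s * D) - (D - s)) := by
    intro s
    rw [hF]
    have e1 : (D - s) ^ 2 + (r ^ 2 - s ^ 2) = D ^ 2 + r ^ 2 - 2 * s * D := by ring
    simp only [e1]
    have := le_abs_self (D - s)
    have hpi : 0 < 2 * Real.pi := by positivity
    exact mul_le_mul_of_nonneg_left (by linarith) hpi.le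
  constructor
  · rw [h3]
    refine (intervalIntegral.integral_mono_on (by linarith) (hFc.intervalIntegrable _ _)
      (hGc.intervalIntegrable _ _) fun s _ => hFG s).trans ?_
    rw [hval]
    have hpi : 0 < Real.pi := Real.pi_pos
    rcases le_total r D with h | h
    · rw [abs_of_nonneg (by linarith)]
      apply le_of_eq
      field_simp
      ring
    · rw [abs_of_nonpos (by linarith)]
      have e1 : 4 / 3 * Real.pi * r ^ 3 * D⁻¹ -
          2 * Real.pi * (((D + r) ^ 3 - (-(D - r)) ^ 3) / (3 * D) - 2 * D * r) =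
          4 / 3 * Real.pi * (r - D) ^ 3 * D⁻¹ := by
        field_simp
        ring
      have e2 : 0 ≤ 4 / 3 * Real.pi * (r - D) ^ 3 * D⁻¹ := by
        have : 0 ≤ r - D := by linarith
        positivity
      linarith
  · intro h
    have h4 : ∫ s in (-r)..r, F s =
        ∫ s in (-r)..r, 2 * Real.pi * (√(D ^ 2 + r ^ 2 - 2 * s * D) - (D - s)) := by
      refine intervalIntegral.integral_congr fun s hs => ?_
      rw [uIcc_of_le (by linarith)] at hs
      have e1 : (D - s) ^ 2 + (r ^ 2 - s ^ 2) = D ^ 2 + r ^ 2 - 2 * s * D := by ring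
      simp only [hF, e1]
      rw [abs_of_nonneg (by linarith [hs.2])]
    rw [h3, h4, hval, abs_of_nonneg (by linarith)]
    field_simp
    ring

/-- the potential of a uniform ball -/
theorem newton {r : ℝ} (hr : 0 < r) {v : X} (hv : v ≠ 0) :
    pot (chi r) v ≤ 4 / 3 * Real.pi * r ^ 3 * ‖v‖⁻¹ ∧
      (r ≤ ‖v‖ → pot (chi r) v = 4 / 3 * Real.pi * r ^ 3 * ‖v‖⁻¹) := by
  have hn : 0 < ‖v‖ := norm_pos_iff.mpr hv
  have h1 : ‖v‖ = ‖mk ‖v‖ 0‖ := by
    have : ‖mk ‖v‖ 0‖ ^ 2 = ‖v‖ ^ 2 := by rw [norm_mk_sq]; simp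
    exact ((sq_eq_sq₀ (norm_nonneg _) (norm_nonneg _)).mp this).symm
  obtain ⟨L, hL⟩ := exists_isom (v := v) (w := mk ‖v‖ 0) h1
  have h2 : pot (chi r) v = pot (chi r) (mk ‖v‖ 0) := by
    rw [← hL, ← pot_comp_isom]
    simp only [chi_isom]
  rw [h2]
  exact newton_axis ‖v‖ r hn hr

/-- translated ball indicator -/
noncomputable def chiAt (x₀ : X) (r : ℝ) (x : X) : ℝ := chi r (x - x₀)

theorem chiAt_fun (x₀ : X) (r : ℝ) : chiAt x₀ r = fun x => chi r (x + -x₀) := by
  funext x; simp only [chiAt, sub_eq_add_neg]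

theorem chiAt_BC (x₀ : X) (r : ℝ) : BC (chiAt x₀ r) := by
  rw [chiAt_fun]
  exact (chi_BC r).translate (-x₀)

theorem chiAt_eq (x₀ : X) (r : ℝ) : chiAt x₀ r = (ball x₀ r).indicator fun _ => (1 : ℝ) := by
  funext x
  unfold chiAt chi
  by_cases h : x ∈ ball x₀ r
  · rw [indicator_of_mem h, indicator_of_mem]
    rwa [mem_ball_zero_iff, ← dist_eq_norm]
  · rw [indicator_of_notMem h, indicator_of_notMem]
    rwa [mem_ball_zero_iff, ← dist_eq_norm]

theorem pot_chiAt (x₀ : X) (r : ℝ) (x : X) : pot (chiAt x₀ r) x = pot (chi r) (x - x₀) := by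
  rw [chiAt_fun, pot_translate, sub_eq_add_neg]

/-- super mean value property of potentials -/
theorem mean_le {h : X → ℝ} (hh : BC h) {x₀ : X} {r : ℝ} (hr : 0 < r)
    (hpos : ∀ x ∈ ball x₀ r, 0 ≤ h x) :
    ∫ x in ball x₀ r, pot h x ≤ 4 / 3 * Real.pi * r ^ 3 * pot h x₀ := by
  have h1 : ∫ x in ball x₀ r, pot h x = En (chiAt x₀ r) h := by
    unfold En
    rw [← integral_indicator measurableSet_ball, chiAt_eq]
    refine integral_congr_ae (Eventually.of_forall fun x => ?_)
    by_cases hx : x ∈ ball x₀ r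
    · simp [hx]
    · simp [hx]
  rw [h1, En_symm (chiAt_BC x₀ r) hh]
  have h2 : 4 / 3 * Real.pi * r ^ 3 * pot h x₀ =
      ∫ y, 4 / 3 * Real.pi * r ^ 3 * (‖x₀ - y‖⁻¹ * h y) := by
    unfold pot
    rw [integral_const_mul]
  rw [h2]
  haveI := nontriv (V := X)
  have hne : ∀ᵐ y : X, y ≠ x₀ := by rw [ae_iff]; simp
  unfold En
  refine integral_mono_ae (En_integrable hh (chiAt_BC x₀ r))
    ((pot_integrable hh x₀).const_mul _) ?_
  filter_upwards [hne] with y hy
  rw [pot_chiAt]
  have hv : y - x₀ ≠ 0 := sub_ne_zero.mpr hy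
  obtain ⟨n1, n2⟩ := newton hr hv
  by_cases hb : y ∈ ball x₀ r
  · have := mul_le_mul_of_nonneg_left n1 (hpos y hb)
    rw [norm_sub_rev x₀ y]
    linarith
  · have hb' : r ≤ ‖y - x₀‖ := by
      rw [mem_ball, dist_eq_norm] at hb
      linarith
    rw [n2 hb', norm_sub_rev x₀ y]
    apply le_of_eq
    ring

end Pool.Agent.TF

end

section
/-! Minimum principle in the half space. -/

set_option linter.unusedSectionVars false

set_option linter.unusedVariables false

set_option linter.style.haveILetI false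

namespace Pool.Agent.TF

open MeasureTheory Set Metric Filter Topology

open scoped ENNReal NNReal RealInnerProductSpace

/-- the odd extension -/
noncomputable def odd (f : X → ℝ) (x : X) : ℝ := f x - f (th x)

theorem odd_BC {f : X → ℝ} (hf : BC f) : BC (odd f) := hf.sub (hf.comp_isom th)

theorem pot_odd_th {f : X → ℝ} (hf : BC f) (x : X) : pot (odd f) (th x) = -pot (odd f) x := by
  unfold odd
  rw [pot_sub hf (hf.comp_isom th), pot_sub hf (hf.comp_isom th), pot_comp_isom, pot_comp_isom,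
    th_th]
  ring

theorem pot_odd_zero {f : X → ℝ} (hf : BC f) (z : E2) : pot (odd f) (mk 0 z) = 0 := by
  have h := pot_odd_th hf (mk 0 z)
  rw [th_mk, neg_zero] at h
  linarith

theorem min_principle {f : X → ℝ} (hf : BC f) (hfO : ∀ x, x ∉ Om → f x = 0)
    (hneg : ∀ x, x ∈ Om → pot (odd f) x < 0 → 0 ≤ f x) :
    ∀ x, x ∈ Om → 0 ≤ pot (odd f) x := by
  intro xs hxs
  by_contra hcon
  push Not at hcon
  have hB := odd_BC hf
  have hc := pot_continuous hB
  set w := pot (odd f) with hw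
  obtain ⟨R, hR⟩ := pot_decay hB (neg_pos.mpr hcon)
  set K : Set X := closedBall 0 (max R ‖xs‖) ∩ {x | 0 ≤ x.fst} with hK
  have hKc : IsCompact K := (isCompact_closedBall _ _).inter_right
    (isClosed_le continuous_const fst_continuous)
  have hfst : ∀ {x : X}, x ∈ Om → 0 ≤ x.fst := fun {x} (hx : 0 < x.fst) => hx.le
  have hxsK : xs ∈ K := ⟨by rw [mem_closedBall_zero_iff]; exact le_max_right _ _, hfst hxs⟩
  obtain ⟨x1, hx1K, hx1⟩ := hKc.exists_isMinOn ⟨xs, hxsK⟩ hc.continuousOn
  set c0 := w x1 with hc0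
  have hc0s : c0 ≤ w xs := hx1 hxsK
  have hc0n : c0 < 0 := lt_of_le_of_lt hc0s hcon
  have hglob : ∀ x : X, 0 ≤ x.fst → c0 ≤ w x := by
    intro x hx
    by_cases h : ‖x‖ ≤ max R ‖xs‖
    · exact hx1 (show x ∈ K from ⟨by rwa [mem_closedBall_zero_iff], hx⟩)
    · push Not at h
      have h1 := hR x ((le_max_left _ _).trans h.le)
      have h2 := (abs_lt.mp h1).1
      linarith
  set Z : Set X := K ∩ {x | w x = c0} with hZ
  have hZc : IsCompact Z := hKc.inter_right (isClosed_eq hc continuous_const)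
  obtain ⟨x0, hx0Z, hx0⟩ := hZc.exists_isMinOn ⟨x1, hx1K, rfl⟩ fst_continuous.continuousOn
  have hx0w : w x0 = c0 := hx0Z.2
  have hx0pos : 0 < x0.fst := by
    have h1 : 0 ≤ x0.fst := hx0Z.1.2
    rcases h1.lt_or_eq with h | h
    · exact h
    · exfalso
      have h2 : w x0 = 0 := by
        rw [← mk_eta x0, ← h]
        exact pot_odd_zero hf _
      linarith
  -- a small ball
  have hopen : IsOpen {x : X | w x < 0} := isOpen_lt hc continuous_const
  have hx0o : x0 ∈ {x : X | w x < 0} := by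
    change w x0 < 0
    linarith
  obtain ⟨r1, hr1, hball⟩ := Metric.isOpen_iff.mp hopen x0 hx0o
  set r := min r1 x0.fst with hr
  have hr0 : 0 < r := lt_min hr1 hx0pos
  have hsub1 : ∀ x ∈ ball x0 r, w x < 0 := fun x hx =>
    hball (ball_subset_ball (min_le_left _ _) hx)
  have hsub2 : ∀ x ∈ ball x0 r, x ∈ Om := by
    intro x hx
    have h1 : |(x - x0).fst| < x0.fst :=
      lt_of_le_of_lt (abs_fst_le _) (by
        rw [mem_ball, dist_eq_norm] at hx
        exact lt_of_lt_of_le hx (min_le_right _ _))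
    have h2 : (x - x0).fst = x.fst - x0.fst := rfl
    rw [h2] at h1
    have := (abs_lt.mp h1).1
    change 0 < x.fst
    linarith
  have hpos : ∀ x ∈ ball x0 r, 0 ≤ odd f x := by
    intro x hx
    have h1 : th x ∉ Om := by
      intro h
      have h2 : 0 < (th x).fst := h
      rw [th_fst] at h2
      have h3 : 0 < x.fst := hsub2 x hx
      linarith
    unfold odd
    rw [hfO _ h1, sub_zero]
    exact hneg x (hsub2 x hx) (hsub1 x hx)
  have hmean := mean_le hB hr0 hpos
  rw [← hw, hx0w, ← vol_ball x0 hr0.le] at hmean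
  have hint : IntegrableOn w (ball x0 r) :=
    (hc.continuousOn.integrableOn_compact (isCompact_closedBall x0 r)).mono_set
      ball_subset_closedBall
  have hconst : IntegrableOn (fun _ : X => c0) (ball x0 r) := integrableOn_const (by finiteness)
  have h3 : ∫ x in ball x0 r, (w x - c0) ≤ 0 := by
    rw [integral_sub hint hconst, setIntegral_const, smul_eq_mul]
    linarith
  have h4 : 0 ≤ᵐ[volume.restrict (ball x0 r)] fun x => w x - c0 := by
    refine (ae_restrict_iff' measurableSet_ball).mpr (Eventually.of_forall fun x hx => ?_)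
    have := hglob x (hfst (hsub2 x hx))
    simp only [Pi.zero_apply]
    linarith
  have h5 : ∫ x in ball x0 r, (w x - c0) = 0 := le_antisymm h3 (integral_nonneg_of_ae h4)
  rw [setIntegral_eq_zero_iff_of_nonneg_ae h4 (hint.sub hconst)] at h5
  -- a point to the left
  set x' : X := x0 - (r / 2) • e1 with hx'
  have hx'b : x' ∈ ball x0 r := by
    rw [mem_ball, dist_eq_norm, hx', sub_sub_cancel_left, norm_neg, norm_smul]
    have : ‖e1‖ = 1 := by
      have h : ‖e1‖ ^ 2 = 1 := by
        unfold e1; rw [norm_mk_sq]; simp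
      nlinarith [norm_nonneg e1]
    rw [this, mul_one, Real.norm_of_nonneg (by positivity)]
    linarith
  have hx'f : x'.fst = x0.fst - r / 2 := by
    rw [hx']
    change x0.fst - (r / 2) * 1 = _
    ring
  have hx'w : c0 < w x' := by
    have h6 := hglob x' (hfst (hsub2 x' hx'b))
    rcases h6.lt_or_eq with h | h
    · exact h
    · exfalso
      have h7 : x' ∈ Z := by
        refine ⟨⟨?_, hfst (hsub2 x' hx'b)⟩, h.symm⟩
        rw [mem_closedBall_zero_iff]
        by_contra h8
        push Not at h8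
        have h9 := hR x' ((le_max_left _ _).trans h8.le)
        have h10 := (abs_lt.mp h9).1
        linarith
      have h8 : x0.fst ≤ x'.fst := hx0 h7
      rw [hx'f] at h8
      linarith
  have hU : IsOpen (ball x0 r ∩ {x | c0 < w x}) := isOpen_ball.inter (isOpen_lt continuous_const hc)
  have hUpos : 0 < volume (ball x0 r ∩ {x | c0 < w x}) := hU.measure_pos _ ⟨x', hx'b, hx'w⟩
  rw [Filter.EventuallyEq, ae_restrict_iff' measurableSet_ball, ae_iff] at h5
  have h6 : volume (ball x0 r ∩ {x | c0 < w x}) = 0 := by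
    refine measure_mono_null ?_ h5
    intro x hx
    rw [Set.mem_ofPred_eq, Classical.not_imp]
    refine ⟨hx.1, ?_⟩
    simp only [Pi.zero_apply]
    have : c0 < w x := hx.2
    intro h
    linarith
  rw [h6] at hUpos
  exact lt_irrefl _ hUpos

end Pool.Agent.TF

end

section
/-! The semigroup identity for the Poisson kernel of the half space. -/

set_option linter.unusedSectionVars false

set_option linter.unusedVariables false

set_option linter.style.haveILetI false

namespace Pool.Agent.TF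

open MeasureTheory Set Metric Filter Topology

open scoped ENNReal NNReal RealInnerProductSpace

/-- first one dimensional integral -/
theorem J1 {s t : ℝ} (hs : 0 < s) (ht : 0 < t) :
    IntegrableOn (fun v : ℝ => v ^ 2 / (s ^ 2 + t ^ 2 * v ^ 2) ^ 3) (Ioi 0) ∧
    ∫ v in Ioi (0 : ℝ), v ^ 2 / (s ^ 2 + t ^ 2 * v ^ 2) ^ 3 = Real.pi / (16 * s ^ 3 * t ^ 3) := by
  set F : ℝ → ℝ := fun v => v * (t ^ 2 * v ^ 2 - s ^ 2) / (8 * s ^ 2 * t ^ 2 *
    (s ^ 2 + t ^ 2 * v ^ 2) ^ 2) + Real.arctan (v * t / s) / (8 * s ^ 3 * t ^ 3) with hF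
  have hD : ∀ v : ℝ, 0 < s ^ 2 + t ^ 2 * v ^ 2 := fun v => by positivity
  have hder : ∀ v ∈ Ici (0 : ℝ), HasDerivAt F (v ^ 2 / (s ^ 2 + t ^ 2 * v ^ 2) ^ 3) v := by
    intro v _
    have h1 : HasDerivAt (fun v : ℝ => s ^ 2 + t ^ 2 * v ^ 2) (t ^ 2 * (2 * v)) v := by
      have := ((hasDerivAt_pow 2 v).const_mul (t ^ 2)).const_add (s ^ 2)
      simpa using this
    have h2 : HasDerivAt (fun v : ℝ => v * (t ^ 2 * v ^ 2 - s ^ 2))
        (1 * (t ^ 2 * v ^ 2 - s ^ 2) + v * (t ^ 2 * (2 * v))) v := by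
      have h3 : HasDerivAt (fun v : ℝ => t ^ 2 * v ^ 2 - s ^ 2) (t ^ 2 * (2 * v)) v := by
        have := ((hasDerivAt_pow 2 v).const_mul (t ^ 2)).sub_const (s ^ 2)
        simpa using this
      exact (hasDerivAt_id v).mul h3
    have h4 : HasDerivAt (fun v : ℝ => 8 * s ^ 2 * t ^ 2 * (s ^ 2 + t ^ 2 * v ^ 2) ^ 2)
        (8 * s ^ 2 * t ^ 2 * (2 * (s ^ 2 + t ^ 2 * v ^ 2) * (t ^ 2 * (2 * v)))) v := by
      have := (h1.pow 2).const_mul (8 * s ^ 2 * t ^ 2)
      simpa using this
    have h5 := h2.div h4 (by positivity)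
    have h6 : HasDerivAt (fun v : ℝ => Real.arctan (v * t / s))
        (1 / (1 + (v * t / s) ^ 2) * (1 * t / s)) v := by
      have h7 : HasDerivAt (fun v : ℝ => v * t / s) (1 * t / s) v :=
        ((hasDerivAt_id v).mul_const t).div_const s
      exact (Real.hasDerivAt_arctan (v * t / s)).comp v h7
    have h8 := h5.add (h6.div_const (8 * s ^ 3 * t ^ 3))
    refine h8.congr_deriv ?_
    have hDv := hD v
    have e1 : 1 + (v * t / s) ^ 2 = (s ^ 2 + t ^ 2 * v ^ 2) / s ^ 2 := by
      field_simp; try ring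
    rw [e1]
    field_simp
    ring
  have hpos : ∀ v ∈ Ioi (0 : ℝ), 0 ≤ v ^ 2 / (s ^ 2 + t ^ 2 * v ^ 2) ^ 3 := fun v _ => by
    have := hD v
    positivity
  have hlim : Tendsto F atTop (𝓝 (Real.pi / (16 * s ^ 3 * t ^ 3))) := by
    have h1 : Tendsto (fun v : ℝ => v * (t ^ 2 * v ^ 2 - s ^ 2) / (8 * s ^ 2 * t ^ 2 *
        (s ^ 2 + t ^ 2 * v ^ 2) ^ 2)) atTop (𝓝 0) := by
      have h2 : Tendsto (fun v : ℝ => 1 / (8 * s ^ 2 * t ^ 4) * v⁻¹) atTop (𝓝 0) := by
        have h := (tendsto_inv_atTop_zero (𝕜 := ℝ)).const_mul (1 / (8 * s ^ 2 * t ^ 4))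
        rwa [mul_zero] at h
      refine squeeze_zero_norm' ?_ h2
      filter_upwards [eventually_gt_atTop 0] with v hv
      have hDv := hD v
      rw [norm_div, norm_mul, Real.norm_of_nonneg hv.le,
        Real.norm_of_nonneg (by positivity : 0 ≤ 8 * s ^ 2 * t ^ 2 * (s ^ 2 + t ^ 2 * v ^ 2) ^ 2),
        Real.norm_eq_abs, div_le_iff₀ (by positivity)]
      have h3 : |t ^ 2 * v ^ 2 - s ^ 2| ≤ s ^ 2 + t ^ 2 * v ^ 2 := by
        rw [abs_le]
        constructor <;> nlinarith [sq_nonneg s, sq_nonneg (t * v)]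
      have h4 : v * |t ^ 2 * v ^ 2 - s ^ 2| ≤ v * (s ^ 2 + t ^ 2 * v ^ 2) :=
        mul_le_mul_of_nonneg_left h3 hv.le
      refine h4.trans ?_
      have h5 : 1 / (8 * s ^ 2 * t ^ 4) * v⁻¹ * (8 * s ^ 2 * t ^ 2 * (s ^ 2 + t ^ 2 * v ^ 2) ^ 2) =
          (s ^ 2 + t ^ 2 * v ^ 2) * ((s ^ 2 + t ^ 2 * v ^ 2) / (t ^ 2 * v)) := by
        field_simp
      rw [h5]
      have h6 : v ≤ (s ^ 2 + t ^ 2 * v ^ 2) / (t ^ 2 * v) := by
        rw [le_div_iff₀ (by positivity)]
        nlinarith [sq_nonneg s]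
      nlinarith [mul_le_mul_of_nonneg_left h6 hDv.le]
    have h2 : Tendsto (fun v : ℝ => Real.arctan (v * t / s) / (8 * s ^ 3 * t ^ 3)) atTop
        (𝓝 (Real.pi / 2 / (8 * s ^ 3 * t ^ 3))) := by
      have h3 : Tendsto (fun v : ℝ => v * t / s) atTop atTop :=
        (tendsto_id.atTop_mul_const ht).atTop_div_const hs
      exact ((tendsto_nhds_of_tendsto_nhdsWithin Real.tendsto_arctan_atTop).comp h3).div_const _
    have h3 := h1.add h2
    have e : (0 : ℝ) + Real.pi / 2 / (8 * s ^ 3 * t ^ 3) = Real.pi / (16 * s ^ 3 * t ^ 3) := by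
      field_simp; ring
    rwa [e] at h3
  refine ⟨integrableOn_Ioi_deriv_of_nonneg' hder hpos hlim, ?_⟩
  rw [integral_Ioi_of_hasDerivAt_of_nonneg' hder hpos hlim]
  simp [hF]

/-- second integral -/
theorem J2 {α Δ : ℝ} (hα : 0 < α) (hΔ : 0 < Δ) (z₀ : E2) :
    ∫⁻ z : E2, ENNReal.ofReal (((α * ‖z - z₀‖ ^ 2 + Δ) ^ 3)⁻¹) =
      ENNReal.ofReal (Real.pi / (2 * α * Δ ^ 2)) := by
  set f : ℝ → ℝ := fun t => ((α * t ^ 2 + Δ) ^ 3)⁻¹ with hf
  set F : ℝ → ℝ := fun t => -(1 / (4 * α)) * ((α * t ^ 2 + Δ) ^ 2)⁻¹ with hF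
  have hD : ∀ t : ℝ, 0 < α * t ^ 2 + Δ := fun t => by positivity
  have hder : ∀ t ∈ Ici (0 : ℝ), HasDerivAt F (t * f t) t := by
    intro t _
    have h1 : HasDerivAt (fun t : ℝ => α * t ^ 2 + Δ) (α * (2 * t)) t := by
      have := ((hasDerivAt_pow 2 t).const_mul α).add_const Δ
      simpa using this
    have h2 : HasDerivAt (fun t : ℝ => (α * t ^ 2 + Δ) ^ 2)
        (2 * (α * t ^ 2 + Δ) * (α * (2 * t))) t := by
      have := h1.fun_pow 2
      simpa using this
    have h3 := (h2.inv (pow_pos (hD t) 2).ne').const_mul (-(1 / (4 * α)))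
    refine h3.congr_deriv ?_
    have := hD t
    rw [hf]
    field_simp
    try ring
  have hpos : ∀ t ∈ Ioi (0 : ℝ), 0 ≤ t * f t := fun t ht => by
    have := hD t
    have h0 : 0 < t := ht
    rw [hf]
    positivity
  have hlim : Tendsto F atTop (𝓝 0) := by
    have h1 : Tendsto (fun t : ℝ => (α * t ^ 2 + Δ) ^ 2) atTop atTop := by
      have h2 : Tendsto (fun t : ℝ => α * t ^ 2 + Δ) atTop atTop :=
        tendsto_atTop_add_const_right _ _ ((tendsto_pow_atTop two_ne_zero).const_mul_atTop hα)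
      exact (tendsto_pow_atTop two_ne_zero).comp h2
    have h3 := h1.inv_tendsto_atTop.const_mul (-(1 / (4 * α)))
    rw [mul_zero] at h3
    exact h3
  have hI1 : IntegrableOn (fun t => t * f t) (Ioi 0) := integrableOn_Ioi_deriv_of_nonneg' hder hpos hlim
  have hv : ∫ t in Ioi (0 : ℝ), t * f t = 1 / (4 * α * Δ ^ 2) := by
    rw [integral_Ioi_of_hasDerivAt_of_nonneg' hder hpos hlim]
    simp only [hF]
    have := hΔ
    field_simp
    simp
  have hfin : Module.finrank ℝ E2 = 2 := by simp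
  have hI2 : Integrable (fun z : E2 => f ‖z‖) := by
    rw [integrable_fun_norm_addHaar (volume : Measure E2) (f := f), hfin]
    refine hI1.congr_fun (fun t _ => ?_) measurableSet_Ioi
    simp
  have hv2 : ∫ z : E2, f ‖z‖ = Real.pi / (2 * α * Δ ^ 2) := by
    rw [integral_fun_norm_addHaar (volume : Measure E2) f, hfin]
    have h4 : volume.real (ball (0 : E2) 1) = Real.pi := by
      rw [Measure.real, EuclideanSpace.volume_ball_fin_two]
      simp [Real.pi_nonneg]
    rw [h4]
    have : ∫ y in Ioi (0 : ℝ), y ^ (2 - 1) • f y = ∫ t in Ioi (0 : ℝ), t * f t := by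
      refine setIntegral_congr_fun measurableSet_Ioi fun t _ => ?_
      simp
    rw [this, hv]
    simp only [smul_eq_mul, nsmul_eq_mul]
    push_cast
    field_simp
    norm_num
  have h5 : ∫⁻ z : E2, ENNReal.ofReal (((α * ‖z - z₀‖ ^ 2 + Δ) ^ 3)⁻¹) =
      ∫⁻ z : E2, ENNReal.ofReal (f ‖z‖) :=
    lintegral_sub_right_eq_self (fun z : E2 => ENNReal.ofReal (f ‖z‖)) z₀
  rw [h5, ← ofReal_integral_eq_lintegral_ofReal hI2, hv2]
  exact Eventually.of_forall fun z => by
    have := hD ‖z‖
    simp only [hf, Pi.zero_apply]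
    positivity

/-- third integral -/
theorem J3 {a b c : ℝ} (ha : 0 < a) (hb : 0 < b) (hc : 0 < c) :
    IntegrableOn (fun v : ℝ => (1 + (v ^ 2)⁻¹) * (((b * v - a / v) ^ 2 + c ^ 2) ^ 2)⁻¹) (Ioi 0) ∧
    ∫ v in Ioi (0 : ℝ), (1 + (v ^ 2)⁻¹) * (((b * v - a / v) ^ 2 + c ^ 2) ^ 2)⁻¹ =
      (1 / a + 1 / b) * (Real.pi / (4 * c ^ 3)) := by
  set H : ℝ → ℝ := fun q => q / (2 * c ^ 2 * (q ^ 2 + c ^ 2)) + Real.arctan (q / c) / (2 * c ^ 3)
    with hH
  set G : ℝ → ℝ := fun q => ((q ^ 2 + c ^ 2) ^ 2)⁻¹ with hG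
  have hGpos : ∀ q, 0 ≤ G q := fun q => by simp only [hG]; positivity
  have hHder : ∀ q, HasDerivAt H (G q) q := by
    intro q
    have h1 : HasDerivAt (fun q : ℝ => 2 * c ^ 2 * (q ^ 2 + c ^ 2)) (2 * c ^ 2 * (2 * q)) q := by
      have := (((hasDerivAt_pow 2 q).add_const (c ^ 2)).const_mul (2 * c ^ 2))
      simpa using this
    have h2 := (hasDerivAt_id q).div h1 (by positivity)
    have h3' : HasDerivAt (fun q : ℝ => q / c) (1 / c) q := (hasDerivAt_id q).div_const c
    have h3 : HasDerivAt (fun q : ℝ => Real.arctan (q / c)) (1 / (1 + (q / c) ^ 2) * (1 / c)) q :=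
      h3'.arctan
    have h4 := h2.add (h3.div_const (2 * c ^ 3))
    refine h4.congr_deriv ?_
    simp only [hG, id]
    have e1 : 1 + (q / c) ^ 2 = (q ^ 2 + c ^ 2) / c ^ 2 := by
      field_simp; try ring
    rw [e1]
    have : 0 < q ^ 2 + c ^ 2 := by positivity
    field_simp
    ring
  have hHtop : Tendsto H atTop (𝓝 (Real.pi / (4 * c ^ 3))) := by
    have h1 : Tendsto (fun q : ℝ => q / (2 * c ^ 2 * (q ^ 2 + c ^ 2))) atTop (𝓝 0) := by
      have h2 : Tendsto (fun q : ℝ => 1 / (2 * c ^ 2) * q⁻¹) atTop (𝓝 0) := by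
        have h := (tendsto_inv_atTop_zero (𝕜 := ℝ)).const_mul (1 / (2 * c ^ 2))
        rwa [mul_zero] at h
      refine squeeze_zero_norm' ?_ h2
      filter_upwards [eventually_gt_atTop 0] with q hq
      rw [Real.norm_of_nonneg (by positivity), div_le_iff₀ (by positivity)]
      have : 1 / (2 * c ^ 2) * q⁻¹ * (2 * c ^ 2 * (q ^ 2 + c ^ 2)) = q + c ^ 2 / q := by
        field_simp
      rw [this]
      have : 0 < c ^ 2 / q := by positivity
      linarith
    have h3 : Tendsto (fun q : ℝ => Real.arctan (q / c) / (2 * c ^ 3)) atTop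
        (𝓝 (Real.pi / 2 / (2 * c ^ 3))) :=
      ((tendsto_nhds_of_tendsto_nhdsWithin Real.tendsto_arctan_atTop).comp
        (tendsto_id.atTop_div_const hc)).div_const _
    have h4 := h1.add h3
    have e : (0 : ℝ) + Real.pi / 2 / (2 * c ^ 3) = Real.pi / (4 * c ^ 3) := by
      field_simp; ring
    rwa [e] at h4
  have hHodd : ∀ q, H (-q) = -H q := by
    intro q
    simp only [hH]
    rw [neg_div c q, Real.arctan_neg]
    ring
  have hHbot : Tendsto H atBot (𝓝 (-(Real.pi / (4 * c ^ 3)))) := by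
    have h1 : H = fun q => -H (-q) := by funext q; rw [hHodd]; ring
    rw [h1]
    exact (hHtop.comp tendsto_neg_atBot_atTop).neg
  set q : ℝ → ℝ := fun v => b * v - a / v with hq
  set F : ℝ → ℝ := fun v => if v ≤ 0 then -(Real.pi / (4 * c ^ 3)) else H (q v) with hF
  have hqder : ∀ v : ℝ, 0 < v → HasDerivAt q (b + a * (v ^ 2)⁻¹) v := by
    intro v hv
    have h1 : HasDerivAt (fun v : ℝ => a / v) (-(a * (v ^ 2)⁻¹)) v := by
      have := (hasDerivAt_inv hv.ne').const_mul a
      simp only [div_eq_mul_inv]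
      refine this.congr_deriv ?_
      ring
    have h2 := ((hasDerivAt_id v).const_mul b).sub h1
    refine h2.congr_deriv ?_
    ring
  have hFder : ∀ v ∈ Ioi (0 : ℝ), HasDerivAt F ((b + a * (v ^ 2)⁻¹) * G (q v)) v := by
    intro v hv
    have h1 : F =ᶠ[𝓝 v] fun v => H (q v) := by
      filter_upwards [lt_mem_nhds (show (0 : ℝ) < v from hv)] with w hw
      simp only [hF, if_neg (not_le.mpr hw)]
    refine HasDerivAt.congr_of_eventuallyEq ?_ h1
    have h2 := (hHder (q v)).comp v (hqder v hv)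
    refine h2.congr_deriv ?_
    ring
  have hFcont : ContinuousWithinAt F (Ici 0) 0 := by
    have h1 : ContinuousWithinAt F (Ioi 0) 0 := by
      have hF0 : F 0 = -(Real.pi / (4 * c ^ 3)) := by simp [hF]
      rw [ContinuousWithinAt, hF0]
      have h2 : Tendsto q (𝓝[>] 0) atBot := by
        have h3 : Tendsto (fun v : ℝ => a / v) (𝓝[>] 0) atTop := by
          simp only [div_eq_mul_inv]
          exact tendsto_inv_nhdsGT_zero.const_mul_atTop ha
        have h4 : Tendsto (fun v : ℝ => b * v) (𝓝[>] 0) (𝓝 (b * 0)) :=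
          ((continuous_const.mul continuous_id).tendsto 0).mono_left nhdsWithin_le_nhds
        simp only [hq, sub_eq_add_neg]
        exact h4.add_atBot (tendsto_neg_atTop_atBot.comp h3)
      refine (hHbot.comp h2).congr' ?_
      filter_upwards [self_mem_nhdsWithin] with v hv
      simp only [hF, if_neg (not_le.mpr (show (0 : ℝ) < v from hv)), Function.comp]
    have h5 : ContinuousWithinAt F (insert 0 (Ioi 0)) 0 := continuousWithinAt_insert_self.mpr h1
    have h6 : insert (0 : ℝ) (Ioi 0) = Ici 0 := Ioi_insert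
    rwa [h6] at h5
  have hpos : ∀ v ∈ Ioi (0 : ℝ), 0 ≤ (b + a * (v ^ 2)⁻¹) * G (q v) := fun v hv => by
    have := hGpos (q v)
    positivity
  have hFlim : Tendsto F atTop (𝓝 (Real.pi / (4 * c ^ 3))) := by
    have h2 : Tendsto q atTop atTop := by
      have h3 : Tendsto (fun v : ℝ => a / v) atTop (𝓝 0) := tendsto_const_nhds.div_atTop tendsto_id
      have h4 : Tendsto (fun v : ℝ => b * v) atTop atTop := tendsto_id.const_mul_atTop hb
      simp only [hq, sub_eq_add_neg]
      exact h4.atTop_add h3.neg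
    refine (hHtop.comp h2).congr' ?_
    filter_upwards [eventually_gt_atTop 0] with v hv
    simp only [hF, if_neg (not_le.mpr hv), Function.comp]
  have hI : IntegrableOn (fun v => (b + a * (v ^ 2)⁻¹) * G (q v)) (Ioi 0) :=
    integrableOn_Ioi_deriv_of_nonneg hFcont hFder hpos hFlim
  have hval : ∫ v in Ioi (0 : ℝ), (b + a * (v ^ 2)⁻¹) * G (q v) = Real.pi / (2 * c ^ 3) := by
    rw [integral_Ioi_of_hasDerivAt_of_nonneg hFcont hFder hpos hFlim]
    have hF0 : F 0 = -(Real.pi / (4 * c ^ 3)) := by simp [hF]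
    rw [hF0]
    field_simp
    norm_num
  have hqm : Measurable q := by
    simp only [hq]; fun_prop
  have hGm : Measurable G := by simp only [hG]; fun_prop
  have hGqm : Measurable (fun v => G (q v)) := hGm.comp hqm
  have hI1 : IntegrableOn (fun v => G (q v)) (Ioi 0) := by
    refine (hI.const_mul (1 / b)).mono' hGqm.aestronglyMeasurable ?_
    refine (ae_restrict_iff' measurableSet_Ioi).mpr (Eventually.of_forall fun v hv => ?_)
    have h0 : 0 < v := hv
    rw [Real.norm_of_nonneg (hGpos _)]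
    have e1 : 1 / b * ((b + a * (v ^ 2)⁻¹) * G (q v)) = G (q v) + a / b * (v ^ 2)⁻¹ * G (q v) := by
      field_simp
    rw [e1]
    have := hGpos (q v)
    have : 0 ≤ a / b * (v ^ 2)⁻¹ * G (q v) := by positivity
    linarith
  have hI2 : IntegrableOn (fun v => (v ^ 2)⁻¹ * G (q v)) (Ioi 0) := by
    refine (hI.const_mul (1 / a)).mono' (((measurable_id.pow_const 2).inv).mul
      hGqm).aestronglyMeasurable ?_
    refine (ae_restrict_iff' measurableSet_Ioi).mpr (Eventually.of_forall fun v hv => ?_)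
    have h0 : 0 < v := hv
    have h1 := hGpos (q v)
    rw [Real.norm_of_nonneg (by positivity)]
    have e1 : 1 / a * ((b + a * (v ^ 2)⁻¹) * G (q v)) =
        b / a * G (q v) + (v ^ 2)⁻¹ * G (q v) := by
      field_simp
    rw [e1]
    have : 0 ≤ b / a * G (q v) := by positivity
    linarith
  -- inversion
  have hinv : ∫ v in Ioi (0 : ℝ), G (q v) = a / b * ∫ v in Ioi (0 : ℝ), (v ^ 2)⁻¹ * G (q v) := by
    have h1 : ∫ y in Ioi (0 : ℝ), G (q y) = (a / b) * ∫ y in Ioi (0 : ℝ), G (q (a / b * y)) := by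
      have := integral_comp_mul_left_Ioi' (fun y => G (q y)) 0 (div_pos ha hb)
      simpa using this.symm
    have h2 := integral_comp_rpow_Ioi (fun y => G (q (a / b * y))) (p := -1) (by norm_num)
    rw [h1, ← h2]
    congr 1
    refine setIntegral_congr_fun measurableSet_Ioi fun v hv => ?_
    have h0 : 0 < v := hv
    simp only [smul_eq_mul]
    have e1 : |(-1 : ℝ)| * v ^ ((-1 : ℝ) - 1) = (v ^ 2)⁻¹ := by
      rw [abs_neg, abs_one, one_mul, show ((-1 : ℝ) - 1) = -(2 : ℝ) by norm_num,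
        Real.rpow_neg h0.le]
      norm_cast
    have e2 : v ^ (-1 : ℝ) = v⁻¹ := Real.rpow_neg_one v
    rw [e1, e2]
    congr 1
    have e3 : q (a / b * v⁻¹) = -q v := by
      simp only [hq]
      field_simp
      ring
    rw [e3]
    simp only [hG]
    rw [neg_sq]
  have hsum : ∫ v in Ioi (0 : ℝ), (b + a * (v ^ 2)⁻¹) * G (q v) =
      b * (∫ v in Ioi (0 : ℝ), G (q v)) + a * ∫ v in Ioi (0 : ℝ), (v ^ 2)⁻¹ * G (q v) := by
    rw [← integral_const_mul, ← integral_const_mul, ← integral_add (hI1.const_mul b)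
      (hI2.const_mul a)]
    refine setIntegral_congr_fun measurableSet_Ioi fun v hv => ?_
    ring
  have hsplit : (fun v : ℝ => (1 + (v ^ 2)⁻¹) * (((b * v - a / v) ^ 2 + c ^ 2) ^ 2)⁻¹) =
      fun v => G (q v) + (v ^ 2)⁻¹ * G (q v) := by
    funext v
    simp only [hG, hq]
    ring
  rw [hsplit]
  refine ⟨hI1.add hI2, ?_⟩
  rw [integral_add hI1 hI2]
  rw [hval] at hsum
  set I1 := ∫ v in Ioi (0 : ℝ), G (q v)
  set I2 := ∫ v in Ioi (0 : ℝ), (v ^ 2)⁻¹ * G (q v)
  have h9 : I2 = Real.pi / (4 * c ^ 3) / a := by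
    rw [hinv] at hsum
    have : b * (a / b * I2) + a * I2 = 2 * a * I2 := by field_simp; ring
    rw [this] at hsum
    field_simp at hsum ⊢
    linarith
  rw [hinv, h9]
  field_simp
  ring

/-- completing the square -/
theorem complete_sq (p q z : E2) (v : ℝ) :
    ‖p - z‖ ^ 2 + v ^ 2 * ‖q - z‖ ^ 2 =
      (1 + v ^ 2) * ‖z - (1 + v ^ 2)⁻¹ • (p + v ^ 2 • q)‖ ^ 2 +
        v ^ 2 / (1 + v ^ 2) * ‖p - q‖ ^ 2 := by
  have hv : (1 + v ^ 2) ≠ 0 := by positivity
  have e1 : z - (1 + v ^ 2)⁻¹ • (p + v ^ 2 • q) =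
      -((1 + v ^ 2)⁻¹ • ((p - z) + v ^ 2 • (q - z))) := by
    have : z = (1 + v ^ 2)⁻¹ • ((1 + v ^ 2) • z) := by rw [smul_smul, inv_mul_cancel₀ hv, one_smul]
    nth_rewrite 1 [this]
    rw [← smul_sub, ← smul_neg]
    congr 1
    rw [add_smul, one_smul, smul_sub]
    abel
  have e2 : p - q = (p - z) - (q - z) := by abel
  rw [e1, e2, norm_neg, norm_smul, mul_pow, norm_sub_sq_real (p - z) (q - z),
    norm_add_sq_real (p - z) (v ^ 2 • (q - z)), norm_smul, inner_smul_right]
  simp only [norm_inv, Real.norm_eq_abs, abs_of_nonneg (by positivity : (0 : ℝ) ≤ 1 + v ^ 2),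
    abs_of_nonneg (sq_nonneg v)]
  set P := ‖p - z‖
  set Q := ‖q - z‖
  set I := ⟪p - z, q - z⟫
  field_simp
  ring

/-- the semigroup identity -/
theorem poisson_semigroup {a b : ℝ} (ha : 0 < a) (hb : 0 < b) (p q : E2) :
    ∫⁻ z : E2, ENNReal.ofReal ((√(a ^ 2 + ‖p - z‖ ^ 2) ^ 3)⁻¹ * (√(b ^ 2 + ‖q - z‖ ^ 2) ^ 3)⁻¹) =
      ENNReal.ofReal (2 * Real.pi * (a + b) / (a * b) *
        (√((a + b) ^ 2 + ‖p - q‖ ^ 2) ^ 3)⁻¹) := by
  set c : ℝ := √((a + b) ^ 2 + ‖p - q‖ ^ 2) with hc
  have hc0 : 0 < c := Real.sqrt_pos.mpr (by positivity)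
  have hc2 : c ^ 2 = (a + b) ^ 2 + ‖p - q‖ ^ 2 := Real.sq_sqrt (by positivity)
  set K : E2 → ℝ → ℝ := fun z v =>
    v ^ 2 / (a ^ 2 + ‖p - z‖ ^ 2 + (b ^ 2 + ‖q - z‖ ^ 2) * v ^ 2) ^ 3 with hK
  have hKm : Measurable (Function.uncurry K) := by
    have : Continuous (fun w : E2 × ℝ => a ^ 2 + ‖p - w.1‖ ^ 2 + (b ^ 2 + ‖q - w.1‖ ^ 2) * w.2 ^ 2) := by
      fun_prop
    exact (measurable_snd.pow_const 2).div (this.measurable.pow_const 3)
  have hK0 : ∀ z v, 0 ≤ K z v := fun z v => by simp only [hK]; positivity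
  have h1 : ∀ z : E2, ENNReal.ofReal ((√(a ^ 2 + ‖p - z‖ ^ 2) ^ 3)⁻¹ *
      (√(b ^ 2 + ‖q - z‖ ^ 2) ^ 3)⁻¹) =
      ENNReal.ofReal (16 / Real.pi) * ∫⁻ v in Ioi (0 : ℝ), ENNReal.ofReal (K z v) := by
    intro z
    have hs : 0 < √(a ^ 2 + ‖p - z‖ ^ 2) := Real.sqrt_pos.mpr (by positivity)
    have ht : 0 < √(b ^ 2 + ‖q - z‖ ^ 2) := Real.sqrt_pos.mpr (by positivity)
    obtain ⟨j1, j2⟩ := J1 hs ht
    have e1 : ∀ v : ℝ, v ^ 2 / (√(a ^ 2 + ‖p - z‖ ^ 2) ^ 2 + √(b ^ 2 + ‖q - z‖ ^ 2) ^ 2 * v ^ 2) ^ 3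
        = K z v := by
      intro v
      rw [Real.sq_sqrt (by positivity), Real.sq_sqrt (by positivity)]
    simp_rw [e1] at j1 j2
    rw [← ofReal_integral_eq_lintegral_ofReal j1 (Eventually.of_forall fun v => hK0 z v), j2,
      ← ENNReal.ofReal_mul (by positivity)]
    congr 1
    have := Real.pi_pos
    field_simp
  simp_rw [h1]
  have hKm' : Measurable (fun w : E2 × ℝ => ENNReal.ofReal (K w.1 w.2)) := hKm.ennreal_ofReal
  rw [lintegral_const_mul' _ _ ENNReal.ofReal_ne_top,
    lintegral_lintegral_swap (μ := (volume : Measure E2)) (ν := volume.restrict (Ioi (0 : ℝ)))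
      (f := fun z v => ENNReal.ofReal (K z v)) hKm'.aemeasurable]
  have h2 : ∫⁻ v in Ioi (0 : ℝ), ∫⁻ z : E2, ENNReal.ofReal (K z v) =
      ∫⁻ v in Ioi (0 : ℝ), ENNReal.ofReal (Real.pi / 2 *
        ((1 + (v ^ 2)⁻¹) * (((b * v - a / v) ^ 2 + c ^ 2) ^ 2)⁻¹)) := by
    refine setLIntegral_congr_fun measurableSet_Ioi fun v hv => ?_
    have hv0 : 0 < v := hv
    set Δ : ℝ := a ^ 2 + b ^ 2 * v ^ 2 + v ^ 2 / (1 + v ^ 2) * ‖p - q‖ ^ 2 with hΔ
    have hΔ0 : 0 < Δ := by positivity
    have e1 : ∀ z : E2, ENNReal.ofReal (K z v) = ENNReal.ofReal (v ^ 2) *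
        ENNReal.ofReal ((((1 + v ^ 2) * ‖z - (1 + v ^ 2)⁻¹ • (p + v ^ 2 • q)‖ ^ 2 + Δ) ^ 3)⁻¹) := by
      intro z
      rw [← ENNReal.ofReal_mul (by positivity)]
      congr 1
      simp only [hK]
      rw [div_eq_mul_inv]
      congr 3
      rw [hΔ]
      have := complete_sq p q z v
      linarith
    simp_rw [e1]
    rw [lintegral_const_mul' _ _ ENNReal.ofReal_ne_top, J2 (by positivity) hΔ0,
      ← ENNReal.ofReal_mul (by positivity)]
    congr 1
    have e2 : Δ * (1 + v ^ 2) = v ^ 2 * ((b * v - a / v) ^ 2 + c ^ 2) := by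
      rw [hc2, hΔ]
      field_simp
      ring
    have e3 : Δ = v ^ 2 * ((b * v - a / v) ^ 2 + c ^ 2) / (1 + v ^ 2) := by
      rw [← e2]; field_simp
    rw [e3]
    have e4 : 0 < (b * v - a / v) ^ 2 + c ^ 2 := by positivity
    set Y := (b * v - a / v) ^ 2 + c ^ 2 with hY
    field_simp
    ring
  rw [h2]
  obtain ⟨j1, j2⟩ := J3 ha hb hc0
  rw [← ofReal_integral_eq_lintegral_ofReal (j1.const_mul _)
    (Eventually.of_forall fun v => by simp only [Pi.zero_apply]; positivity), integral_const_mul, j2,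
    ← ENNReal.ofReal_mul (by positivity)]
  congr 1
  have := Real.pi_pos
  field_simp
  ring

end Pool.Agent.TF

end

section
/-! Force between two charges on opposite sides of a plane whose half space potentials are
nonnegative. -/

set_option linter.unusedSectionVars false

set_option linter.unusedVariables false

set_option linter.style.haveILetI false

namespace Pool.Agent.TF

open MeasureTheory Set Metric Filter Topology

open scoped ENNReal NNReal RealInnerProductSpace

theorem grad_neg_dir (e : X) (f : X → ℝ) (x : X) : grad (-e) f x = -grad e f x := by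
  unfold grad
  rw [← integral_neg]
  refine integral_congr_ae (Eventually.of_forall fun y => ?_)
  simp only
  rw [inner_neg_right]; ring

theorem grad_odd {f : X → ℝ} (hf : BC f) (z : E2) :
    grad e1 (odd f) (mk 0 z) = 2 * grad e1 f (mk 0 z) := by
  unfold odd
  rw [grad_sub hf (hf.comp_isom th), grad_comp_isom, th_e1, th_mk, neg_zero, grad_neg_dir]
  ring

/-- normal derivative on the plane -/
noncomputable def gP (f : X → ℝ) (z : E2) : ℝ := grad e1 f (mk 0 z)

theorem gP_nonneg {f : X → ℝ} (hf : BC f) (hw : ∀ x, x ∈ Om → 0 ≤ pot (odd f) x) (z : E2) :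
    0 ≤ gP f z := by
  have h1 := hasDerivAt_pot (odd_BC hf) (mk 0 z) e1 0
  rw [zero_smul, add_zero, grad_odd hf] at h1
  have h2 : Tendsto (slope (fun t : ℝ => pot (odd f) (mk 0 z + t • e1)) 0) (𝓝[>] 0)
      (𝓝 (2 * grad e1 f (mk 0 z))) :=
    (hasDerivAt_iff_tendsto_slope.mp h1).mono_left (nhdsWithin_mono _ fun t ht => ne_of_gt ht)
  have h3 : 0 ≤ 2 * grad e1 f (mk 0 z) := by
    refine ge_of_tendsto h2 ?_
    filter_upwards [self_mem_nhdsWithin] with t ht
    have ht0 : 0 < t := ht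
    rw [slope_def_field, zero_smul, add_zero, pot_odd_zero hf, mk_add_smul, sub_zero, sub_zero,
      zero_add]
    exact div_nonneg (hw _ ht0) ht0.le
  unfold gP
  linarith

theorem norm_sub_mk (x : X) (z : E2) : ‖x - mk 0 z‖ = √(x.fst ^ 2 + ‖x.snd - z‖ ^ 2) := by
  rw [← Real.sqrt_sq (norm_nonneg (x - mk 0 z)), norm_sq_eq]
  congr 3
  change (x.fst - 0) = _
  ring

/-- the plane kernel -/
noncomputable def pk (x : X) (z : E2) : ℝ := (‖x - mk 0 z‖ ^ 3)⁻¹

theorem pk_nonneg (x : X) (z : E2) : 0 ≤ pk x z := by unfold pk; positivity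

theorem pk_meas : Measurable (fun p : X × E2 => pk p.1 p.2) := by
  unfold pk
  have h : Continuous (fun p : X × E2 => p.1 - mk 0 p.2) :=
    continuous_fst.sub (mk_continuous.comp (continuous_const.prodMk continuous_snd))
  exact (h.norm.measurable.pow_const 3).inv

theorem pk_meas' (x : X) : Measurable (pk x) := by
  have h : Continuous (fun z : E2 => ‖x - mk 0 z‖ ^ 3) :=
    ((continuous_const.sub (mk_continuous.comp (continuous_const.prodMk continuous_id))).norm).pow 3
  exact h.measurable.inv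

theorem pk_lint {x y : X} (hx : 0 < x.fst) (hy : y.fst < 0) :
    ∫⁻ z : E2, ENNReal.ofReal (pk x z * pk y z) =
      ENNReal.ofReal (2 * Real.pi * (x.fst - y.fst) / (x.fst * -y.fst) * (‖x - y‖ ^ 3)⁻¹) := by
  have h := poisson_semigroup hx (neg_pos.mpr hy) x.snd y.snd
  have e1 : ∀ z : E2, pk x z * pk y z =
      (√(x.fst ^ 2 + ‖x.snd - z‖ ^ 2) ^ 3)⁻¹ * (√((-y.fst) ^ 2 + ‖y.snd - z‖ ^ 2) ^ 3)⁻¹ := by
    intro z
    unfold pk
    rw [norm_sub_mk, norm_sub_mk, neg_sq]
  simp_rw [e1]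
  rw [h]
  congr 1
  have e2 : ‖x - y‖ = √((x.fst + -y.fst) ^ 2 + ‖x.snd - y.snd‖ ^ 2) := by
    rw [← Real.sqrt_sq (norm_nonneg (x - y)), norm_sq_eq]
    congr 3
  rw [e2]
  ring

theorem grad_plane {f : X → ℝ} (z : E2) :
    grad e1 f (mk 0 z) = ∫ x, f x * (x.fst * pk x z) := by
  unfold grad
  refine integral_congr_ae (Eventually.of_forall fun y => ?_)
  simp only
  rw [inner_e1]
  have e1 : (mk 0 z - y).fst = -y.fst := by
    change 0 - y.fst = _
    ring
  rw [e1]
  unfold pk
  rw [norm_sub_rev]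
  ring

theorem grad_plane_th {f : X → ℝ} (z : E2) :
    grad e1 f (mk 0 z) = ∫ x, f (th x) * (-x.fst * pk x z) := by
  rw [grad_plane, ← th.measurePreserving.integral_comp th.toMeasurableEquiv.measurableEmbedding
    (fun x => f x * (x.fst * pk x z))]
  refine integral_congr_ae (Eventually.of_forall fun y => ?_)
  simp only
  have e1 : pk (th y) z = pk y z := by
    unfold pk
    have : th y - mk 0 z = th (y - mk 0 z) := by rw [map_sub, th_mk, neg_zero]
    rw [this, th.norm_map]
  rw [e1, th_fst]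

theorem abs_aux1 {F G A B : ℝ} (hA : 0 ≤ A) (hB : 0 ≤ B) :
    |F * A * (G * B)| = |F| * |G| * (A * B) := by
  rw [abs_mul, abs_mul, abs_mul, abs_of_nonneg hA, abs_of_nonneg hB]; ring

theorem abs_aux2 {c F G K : ℝ} (hc : 0 ≤ c) (hK : 0 ≤ K) :
    |c * (F * (-K * G))| = c * (|F| * |G| * K) := by
  rw [abs_mul, abs_mul, abs_mul, abs_neg, abs_of_nonneg hc, abs_of_nonneg hK]; ring

theorem rellich {f g : X → ℝ} (hf : BC f) (hg : BC g) (hfO : ∀ x, x ∉ Om → f x = 0)
    (hgO : ∀ x, x ∉ Om → g x = 0) (hwf : ∀ x, x ∈ Om → 0 ≤ pot (odd f) x)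
    (hwg : ∀ x, x ∈ Om → 0 ≤ pot (odd g) x) : Fo e1 f (fun x => g (th x)) ≤ 0 := by
  set T : E2 → X × X → ℝ := fun z p =>
    (f p.1 * (p.1.fst * pk p.1 z)) * (g (th p.2) * (-p.2.fst * pk p.2 z)) with hT
  have hgt : BC (fun x => g (th x)) := hg.comp_isom th
  have hTm : Measurable (Function.uncurry T) := by
    have m1 : Measurable (fun w : E2 × (X × X) => (w.2.1, w.1)) := by fun_prop
    have m2 : Measurable (fun w : E2 × (X × X) => (w.2.2, w.1)) := by fun_prop
    have m3 : Measurable (fun w : E2 × (X × X) => w.2.1) := by fun_prop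
    have m4 : Measurable (fun w : E2 × (X × X) => w.2.2) := by fun_prop
    have n1 := pk_meas.comp m1
    have n2 := pk_meas.comp m2
    exact ((hf.meas.comp m3).mul ((fst_continuous.measurable.comp m3).mul n1)).mul
      ((hgt.meas.comp m4).mul ((fst_continuous.measurable.comp m4).neg.mul n2))
  -- the integrated kernel
  set Kf : X × X → ℝ := fun p => f p.1 * (-(⟪p.1 - p.2, e1⟫ * (‖p.1 - p.2‖ ^ 3)⁻¹) * g (th p.2))
    with hKf
  have hKI0 := (ker_grad e1).integrable_prod hf hgt
  have hKI : Integrable Kf ((volume : Measure X).prod (volume : Measure X)) := hKI0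
  have hgO' : ∀ y : X, ¬ y.fst < 0 → g (th y) = 0 := by
    intro y hy
    refine hgO _ fun h => hy ?_
    have h2 : 0 < (th y).fst := h
    rw [th_fst] at h2
    linarith
  have hlin : ∀ p : X × X, ∫⁻ z, ‖T z p‖ₑ = ‖(2 * Real.pi) * Kf p‖ₑ := by
    intro p
    by_cases h1 : p.1 ∈ Om
    · by_cases h2 : p.2.fst < 0
      · have hx : 0 < p.1.fst := h1
        have e1' : ∀ z, ‖T z p‖ₑ = ENNReal.ofReal (|f p.1| * |g (th p.2)| * (p.1.fst * -p.2.fst)) *
            ENNReal.ofReal (pk p.1 z * pk p.2 z) := by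
          intro z
          have hpk1 := pk_nonneg p.1 z
          have hpk2 := pk_nonneg p.2 z
          have hy : 0 < -p.2.fst := by linarith
          rw [← ENNReal.ofReal_mul (by positivity), ← ofReal_norm]
          congr 1
          simp only [hT]
          rw [Real.norm_eq_abs, abs_aux1 (by positivity : 0 ≤ p.1.fst * pk p.1 z)
            (by positivity : 0 ≤ -p.2.fst * pk p.2 z)]
          ring
        simp_rw [e1']
        rw [lintegral_const_mul' _ _ ENNReal.ofReal_ne_top, pk_lint hx h2,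
          ← ENNReal.ofReal_mul (by
            have hy : 0 < -p.2.fst := by linarith
            positivity), ← ofReal_norm]
        congr 1
        simp only [hKf]
        rw [inner_e1]
        have e2 : (p.1 - p.2).fst = p.1.fst - p.2.fst := rfl
        have hxy : 0 ≤ p.1.fst - p.2.fst := by linarith
        rw [e2, Real.norm_eq_abs, abs_aux2 (by positivity : 0 ≤ 2 * Real.pi)
          (by positivity : 0 ≤ (p.1.fst - p.2.fst) * (‖p.1 - p.2‖ ^ 3)⁻¹)]
        have hx' : p.1.fst ≠ 0 := hx.ne'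
        have hy' : p.2.fst ≠ 0 := h2.ne
        field_simp
      · have e1' : ∀ z, T z p = 0 := fun z => by simp only [hT]; rw [hgO' _ h2]; ring
        have e2 : Kf p = 0 := by simp only [hKf]; rw [hgO' _ h2]; ring
        simp [e1', e2]
    · have e1' : ∀ z, T z p = 0 := fun z => by simp only [hT]; rw [hfO _ h1]; ring
      have e2 : Kf p = 0 := by simp only [hKf]; rw [hfO _ h1]; ring
      simp [e1', e2]
  have hTI : Integrable (Function.uncurry T) ((volume : Measure E2).prod (volume.prod volume)) := by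
    refine ⟨hTm.aestronglyMeasurable, ?_⟩
    rw [HasFiniteIntegral, lintegral_prod_symm' _ hTm.enorm]
    change ∫⁻ p : X × X, ∫⁻ z, ‖T z p‖ₑ ∂volume ∂(volume.prod volume) < ∞
    simp_rw [hlin]
    exact (hKI.const_mul (2 * Real.pi)).2
  have hreal : ∀ p : X × X, ∫ z, T z p = -(2 * Real.pi) * Kf p := by
    intro p
    by_cases h1 : p.1 ∈ Om
    · by_cases h2 : p.2.fst < 0
      · have hx : 0 < p.1.fst := h1
        have hy : 0 < -p.2.fst := by linarith
        have e1' : ∀ z, T z p = (f p.1 * g (th p.2) * (p.1.fst * -p.2.fst)) *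
            (pk p.1 z * pk p.2 z) := by
          intro z
          simp only [hT]; ring
        simp_rw [e1']
        have hm : Measurable (fun z : E2 => pk p.1 z * pk p.2 z) :=
          (pk_meas' p.1).mul (pk_meas' p.2)
        rw [integral_const_mul, integral_eq_lintegral_of_nonneg_ae
          (Eventually.of_forall fun z => mul_nonneg (pk_nonneg _ _) (pk_nonneg _ _))
          hm.aestronglyMeasurable, pk_lint hx h2, ENNReal.toReal_ofReal (by
            have : 0 < p.1.fst - p.2.fst := by linarith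
            positivity)]
        simp only [hKf]
        rw [inner_e1]
        have e2 : (p.1 - p.2).fst = p.1.fst - p.2.fst := rfl
        rw [e2]
        have hx' : p.1.fst ≠ 0 := hx.ne'
        have hy' : p.2.fst ≠ 0 := h2.ne
        field_simp
      · have e1' : ∀ z, T z p = 0 := fun z => by simp only [hT]; rw [hgO' _ h2]; ring
        have e2 : Kf p = 0 := by simp only [hKf]; rw [hgO' _ h2]; ring
        simp [e1', e2]
    · have e1' : ∀ z, T z p = 0 := fun z => by simp only [hT]; rw [hfO _ h1]; ring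
      have e2 : Kf p = 0 := by simp only [hKf]; rw [hfO _ h1]; ring
      simp [e1', e2]
  have hprod : ∀ z : E2, ∫ p : X × X, T z p ∂((volume : Measure X).prod (volume : Measure X)) =
      gP f z * gP g z := by
    intro z
    simp only [hT]
    rw [integral_prod_mul (μ := (volume : Measure X)) (ν := (volume : Measure X))
      (fun x => f x * (x.fst * pk x z)) (fun y => g (th y) * (-y.fst * pk y z)), ← grad_plane,
      ← grad_plane_th]
    rfl
  have hswap := integral_integral_swap hTI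
  have h1 : 0 ≤ ∫ z : E2, ∫ p : X × X, T z p ∂((volume : Measure X).prod (volume : Measure X)) := by
    refine integral_nonneg fun z => ?_
    rw [hprod]
    exact mul_nonneg (gP_nonneg hf hwf z) (gP_nonneg hg hwg z)
  rw [hswap] at h1
  simp_rw [hreal] at h1
  rw [integral_const_mul] at h1
  have h2 : Fo e1 f (fun x => g (th x)) = ∫ p, Kf p ∂((volume : Measure X).prod (volume : Measure X)) := by
    rw [integral_prod _ hKI]
    unfold Fo grad
    simp only [hKf]
    refine integral_congr_ae (Eventually.of_forall fun x => ?_)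
    simp only
    rw [← integral_const_mul]
  rw [h2]
  have hpi := Real.pi_pos
  nlinarith

end Pool.Agent.TF

end

section
/-! Two groups of nuclei separated by a plane repel each other. -/

set_option linter.unusedSectionVars false

set_option linter.unusedVariables false

set_option linter.style.haveILetI false

namespace Pool.Agent.TF

open MeasureTheory Set Metric Filter Topology

open scoped ENNReal NNReal RealInnerProductSpace

theorem grad_congr_ae {f g : X → ℝ} (h : f =ᵐ[volume] g) (e : X) : grad e f = grad e g := by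
  funext x
  unfold grad
  refine integral_congr_ae ?_
  filter_upwards [h] with y hy
  rw [hy]

theorem plane_null (c : ℝ) : ∀ᵐ x : X, x.fst ≠ c := by
  rw [ae_iff]
  simp only [not_not]
  have hms : MeasurableSet {x : X | x.fst = c} :=
    fst_continuous.measurable (measurableSet_singleton c)
  have h1 : volume {x : X | x.fst = c} =
      (volume : Measure (ℝ × E2)) ((fun p : ℝ × E2 => mk p.1 p.2) ⁻¹' {x : X | x.fst = c}) :=
    (mk_measurePreserving.measure_preimage hms.nullMeasurableSet).symm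
  have h2 : (fun p : ℝ × E2 => mk p.1 p.2) ⁻¹' {x : X | x.fst = c} = ({c} : Set ℝ) ×ˢ univ := by
    ext p
    simp [mk_fst]
  rw [h1, h2, Measure.volume_eq_prod, Measure.prod_prod]
  simp

theorem Fo_th_symm {f g : X → ℝ} (hf : BC f) (hg : BC g) :
    Fo e1 f (fun x => g (th x)) = Fo e1 g (fun x => f (th x)) := by
  have h := Fo_comp_isom th e1 (fun x => f (th x)) g
  simp only [th_th] at h
  rw [h, th_e1, Fo_neg_dir, Fo_antisymm (hf.comp_isom th) hg]
  ring

/-- The force on the nuclei to the right of the plane `x₁ = 0` is nonnegative. -/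
theorem force_nonpos {mA mB ρ : X → ℝ} (hA : BC mA) (hB : BC mB) (hρ : BC ρ)
    (hA0 : ∀ x, 0 ≤ mA x) (hB0 : ∀ x, 0 ≤ mB x)
    (hAs : ∀ x, ¬ 0 < x.fst → mA x = 0) (hBs : ∀ x, ¬ x.fst < 0 → mB x = 0)
    {φ₀ : ℝ} (hφ : 0 < φ₀)
    (heq : ∀ x, ρ x = tf (pot (fun y => mA y + mB y - ρ y) x - φ₀)) :
    Fo e1 mA (fun y => mB y - ρ y) ≤ 0 := by
  set μ : X → ℝ := fun y => mA y + mB y - ρ y with hμ
  have hμB : BC μ := (hA.add hB).sub hρ
  set fR : X → ℝ := Om.indicator μ with hfR
  set fL : X → ℝ := Om.indicator (fun x => μ (th x)) with hfL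
  have hfRB : BC fR := hμB.indicator Om_meas
  have hfLB : BC fL := (hμB.comp_isom th).indicator Om_meas
  have hfRO : ∀ x, x ∉ Om → fR x = 0 := fun x hx => indicator_of_notMem hx _
  have hfLO : ∀ x, x ∉ Om → fL x = 0 := fun x hx => indicator_of_notMem hx _
  set ρR : X → ℝ := Om.indicator ρ with hρR
  have hρRB : BC ρR := hρ.indicator Om_meas
  have hAρ : mA = fun x => fR x + ρR x := by
    funext x
    by_cases hx : x ∈ Om
    · rw [hfR, hρR, indicator_of_mem hx, indicator_of_mem hx, hμ]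
      have : mB x = 0 := hBs x (by
        have h0 : 0 < x.fst := hx
        linarith)
      simp only [this]; ring
    · rw [hfR, hρR, indicator_of_notMem hx, indicator_of_notMem hx, hAs x hx]; ring
  -- decomposition of μ
  have hdec : μ =ᵐ[volume] fun x => fR x + fL (th x) := by
    filter_upwards [plane_null 0] with x hx
    rcases lt_or_gt_of_ne hx with h | h
    · have h1 : x ∉ Om := not_lt.mpr h.le
      have h2 : th x ∈ Om := by
        change 0 < (th x).fst
        rw [th_fst]; linarith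
      rw [hfR, hfL, indicator_of_notMem h1, indicator_of_mem h2, th_th, zero_add]
    · have h1 : x ∈ Om := h
      have h2 : th x ∉ Om := by
        intro h'
        have h'' : 0 < (th x).fst := h'
        rw [th_fst] at h''
        linarith
      rw [hfR, hfL, indicator_of_mem h1, indicator_of_notMem h2, add_zero]
  have hfRt := hfRB.comp_isom th
  have hfLt := hfLB.comp_isom th
  have hpotμ : pot μ = pot (fun x => fR x + fL (th x)) := pot_congr_ae hdec
  have hgradμ : grad e1 μ = grad e1 (fun x => fR x + fL (th x)) := grad_congr_ae hdec e1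
  -- the half space solution
  have hhB : BC (fun x => fR (th x) + fL (th x)) := hfRt.add hfLt
  obtain ⟨ρu, hρuB, hρu0, hρuO, hρu⟩ := exists_half hhB hφ
  have hρut := hρuB.comp_isom th
  set hu : X → ℝ := fun y => (fR (th y) + fL (th y)) - ρu y + ρu (th y) with hhu
  have huB : BC hu := (hhB.sub hρuB).add hρut
  -- potentials in terms of the pieces
  have pμ : ∀ x, pot μ x = pot fR x + pot fL (th x) := by
    intro x
    rw [hpotμ, pot_add hfRB hfLt, pot_comp_isom]
  have pu : ∀ x, pot hu x = pot fR (th x) + pot fL (th x) - pot ρu x + pot ρu (th x) := by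
    intro x
    rw [hhu, pot_add (hhB.sub hρuB) hρut, pot_sub hhB hρuB, pot_add hfRt hfLt, pot_comp_isom,
      pot_comp_isom, pot_comp_isom]
  have hw1 : ∀ x, pot (odd (fun y => fR y + ρu y)) x = pot μ x - pot hu x := by
    intro x
    unfold odd
    rw [pot_sub (hfRB.add hρuB) ((hfRB.add hρuB).comp_isom th), pot_comp_isom th
      (fun y => fR y + ρu y), pot_add hfRB hρuB, pot_add hfRB hρuB, pμ, pu]
    ring
  have hw2 : ∀ x, pot (odd (fun y => fL y + ρu y)) x = pot μ (th x) - pot hu x := by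
    intro x
    unfold odd
    rw [pot_sub (hfLB.add hρuB) ((hfLB.add hρuB).comp_isom th), pot_comp_isom th
      (fun y => fL y + ρu y), pot_add hfLB hρuB, pot_add hfLB hρuB, pμ, pu, th_th]
    ring
  have hOR : ∀ x, x ∉ Om → fR x + ρu x = 0 := fun x hx => by rw [hfRO x hx, hρuO x hx, add_zero]
  have hOL : ∀ x, x ∉ Om → fL x + ρu x = 0 := fun x hx => by rw [hfLO x hx, hρuO x hx, add_zero]
  have hthA : ∀ x, x ∈ Om → mA (th x) = 0 := fun x hx => hAs _ (by
    have h0 : 0 < x.fst := hx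
    rw [th_fst]; linarith)
  have hmin1 := min_principle (hfRB.add hρuB) hOR (by
    intro x hx hneg
    rw [hw1] at hneg
    have h1 : ρ x ≤ ρu x := by
      rw [heq x, hρu x hx]
      exact tf_mono (by linarith)
    have h2 : fR x = mA x + mB x - ρ x := by rw [hfR, indicator_of_mem hx]
    rw [h2]
    have := hA0 x
    have := hB0 x
    linarith)
  have hmin2 := min_principle (hfLB.add hρuB) hOL (by
    intro x hx hneg
    rw [hw2] at hneg
    have h1 : ρ (th x) ≤ ρu x := by
      rw [heq (th x), hρu x hx]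
      exact tf_mono (by linarith)
    have h2 : fL x = mA (th x) + mB (th x) - ρ (th x) := by rw [hfL, indicator_of_mem hx]
    rw [h2]
    have := hA0 (th x)
    have := hB0 (th x)
    linarith)
  have hrel := rellich (hfRB.add hρuB) (hfLB.add hρuB) hOR hOL hmin1 hmin2
  -- expand
  have e1' : Fo e1 (fun y => fR y + ρu y) (fun x => fL (th x) + ρu (th x)) =
      Fo e1 fR (fun x => fL (th x)) + Fo e1 fR (fun x => ρu (th x)) +
      (Fo e1 ρu (fun x => fL (th x)) + Fo e1 ρu (fun x => ρu (th x))) := by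
    rw [Fo_add_left hfRB hρuB (hfLt.add hρut), Fo_add_right hfRB hfLt hρut,
      Fo_add_right hρuB hfLt hρut]
  rw [e1', Fo_th_symm hfRB hρuB] at hrel
  -- FTC identities
  have hftc1 := ftc hμB hφ
  have hftc2 := ftc huB hφ
  have hρR' : (Om.indicator fun x => tf (pot μ x - φ₀)) = ρR := by
    rw [hρR]
    congr 1
    funext x
    exact (heq x).symm
  have hρu' : (Om.indicator fun x => tf (pot hu x - φ₀)) = ρu := by
    funext x
    by_cases hx : x ∈ Om
    · rw [indicator_of_mem hx, hρu x hx]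
    · rw [indicator_of_notMem hx, hρuO x hx]
  rw [hρR'] at hftc1
  rw [hρu'] at hftc2
  have htrace : Pr hu φ₀ = Pr μ φ₀ := by
    unfold Pr
    refine integral_congr_ae (Eventually.of_forall fun z => ?_)
    simp only
    rw [pμ, pu, th_mk, neg_zero]
    congr 1
    ring
  rw [htrace] at hftc2
  have k1 : Fo e1 ρR μ = -Pr μ φ₀ := hftc1
  have k2 : Fo e1 ρu hu = -Pr μ φ₀ := hftc2
  have k3 : Fo e1 ρu hu = Fo e1 ρu (fun x => fR (th x)) + Fo e1 ρu (fun x => fL (th x)) +
      Fo e1 ρu (fun x => ρu (th x)) := by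
    rw [hhu, Fo_add_right hρuB (hhB.sub hρuB) hρut, Fo_sub_right hρuB hhB hρuB,
      Fo_add_right hρuB hfRt hfLt, Fo_self hρuB]
    ring
  have k4 : Fo e1 mA (fun y => mB y - ρ y) = Fo e1 mA μ := by
    have : μ = fun y => mA y + (mB y - ρ y) := by funext y; rw [hμ]; ring
    rw [this, Fo_add_right hA hA (hB.sub hρ), Fo_self hA]
    ring
  have k5 : Fo e1 mA μ = Fo e1 fR μ + Fo e1 ρR μ := by
    nth_rewrite 1 [hAρ]
    rw [Fo_add_left hfRB hρRB hμB]
  have k6 : Fo e1 fR μ = Fo e1 fR (fun x => fL (th x)) := by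
    have : Fo e1 fR μ = Fo e1 fR (fun x => fR x + fL (th x)) := by
      unfold Fo
      rw [hgradμ]
    rw [this, Fo_add_right hfRB hfRB hfLt, Fo_self hfRB]
    ring
  rw [k4, k5, k6, k1]
  linarith

theorem Fo_translate (e v : X) (f g : X → ℝ) :
    Fo e (fun x => f (x + v)) (fun x => g (x + v)) = Fo e f g := by
  unfold Fo
  rw [← integral_add_right_eq_self (fun x => f x * grad e g x) v]
  refine integral_congr_ae (Eventually.of_forall fun x => ?_)
  simp only
  rw [grad_translate]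

/-- The same with a plane `x₁ = c`. -/
theorem force_nonpos' {mA mB ρ : X → ℝ} (hA : BC mA) (hB : BC mB) (hρ : BC ρ)
    (hA0 : ∀ x, 0 ≤ mA x) (hB0 : ∀ x, 0 ≤ mB x) (c : ℝ)
    (hAs : ∀ x, ¬ c < x.fst → mA x = 0) (hBs : ∀ x, ¬ x.fst < c → mB x = 0)
    {φ₀ : ℝ} (hφ : 0 < φ₀)
    (heq : ∀ x, ρ x = tf (pot (fun y => mA y + mB y - ρ y) x - φ₀)) :
    Fo e1 mA (fun y => mB y - ρ y) ≤ 0 := by
  have hfst : ∀ x : X, (x + c • e1).fst = x.fst + c := fun x => by
    change x.fst + c * 1 = _
    ring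
  have h := force_nonpos (mA := fun x => mA (x + c • e1)) (mB := fun x => mB (x + c • e1))
    (ρ := fun x => ρ (x + c • e1)) (hA.translate _) (hB.translate _) (hρ.translate _)
    (fun x => hA0 _) (fun x => hB0 _)
    (fun x hx => hAs _ (by rw [hfst]; intro h; apply hx; linarith))
    (fun x hx => hBs _ (by rw [hfst]; intro h; apply hx; linarith)) hφ (fun x => ?_)
  · rwa [Fo_translate e1 (c • e1) mA (fun y => mB y - ρ y)] at h
  · rw [heq, pot_translate (fun y => mA y + mB y - ρ y)]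

end Pool.Agent.TF

end

section
/-! General admissible densities and minimality of solutions. -/

set_option linter.unusedSectionVars false

set_option linter.unusedVariables false

set_option linter.style.haveILetI false

namespace Pool.Agent.TF

open MeasureTheory Set Metric Filter Topology

open scoped ENNReal NNReal RealInnerProductSpace

/-! ### pointwise inequalities -/

theorem tf_eq_rpow {w : ℝ} (hw : 0 ≤ w) : tf w = w ^ (3 / 2 : ℝ) := by
  unfold tf
  rw [max_eq_left hw, Real.sqrt_eq_rpow]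
  rcases hw.eq_or_lt with h | h
  · subst h
    rw [zero_mul, Real.zero_rpow (by norm_num)]
  · nth_rewrite 1 [← Real.rpow_one w]
    rw [← Real.rpow_add h]
    norm_num

theorem Phi_eq_rpow {w : ℝ} (hw : 0 ≤ w) : Phi w = 2 / 5 * w ^ (5 / 2 : ℝ) := by
  unfold Phi
  rw [tf_eq_rpow hw]
  rcases hw.eq_or_lt with h | h
  · subst h
    rw [zero_mul, Real.zero_rpow (by norm_num)]
  · congr 1
    nth_rewrite 1 [← Real.rpow_one w]
    rw [← Real.rpow_add h]
    norm_num

theorem young_tf (w : ℝ) {s : ℝ} (hs : 0 ≤ s) : -Phi w ≤ 3 / 5 * s ^ (5 / 3 : ℝ) - w * s := by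
  rcases le_total w 0 with hw | hw
  · rw [Phi_of_nonpos hw]
    have h1 : 0 ≤ s ^ (5 / 3 : ℝ) := Real.rpow_nonneg hs _
    have h2 : w * s ≤ 0 := mul_nonpos_of_nonpos_of_nonneg hw hs
    linarith
  · rw [Phi_eq_rpow hw]
    have hpq : (5 / 2 : ℝ).HolderConjugate (5 / 3) := by
      rw [Real.holderConjugate_iff]
      norm_num
    have h := Real.young_inequality_of_nonneg hw hs hpq
    have e1 : w ^ (5 / 2 : ℝ) / (5 / 2) = 2 / 5 * w ^ (5 / 2 : ℝ) := by ring
    have e2 : s ^ (5 / 3 : ℝ) / (5 / 3) = 3 / 5 * s ^ (5 / 3 : ℝ) := by ring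
    rw [e1, e2] at h
    linarith

theorem young_tf_eq (w : ℝ) : 3 / 5 * tf w ^ (5 / 3 : ℝ) - w * tf w = -Phi w := by
  rcases le_total w 0 with hw | hw
  · rw [tf_of_nonpos hw, Phi_of_nonpos hw, Real.zero_rpow (by norm_num)]
    ring
  · rw [Phi_eq_rpow hw]
    have h1 : tf w ^ (5 / 3 : ℝ) = w ^ (5 / 2 : ℝ) := by
      rw [tf_eq_rpow hw, ← Real.rpow_mul hw]
      norm_num
    have h2 : w * tf w = w ^ (5 / 2 : ℝ) := by
      have h3 := Phi_eq_rpow hw
      unfold Phi at h3
      linarith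
    rw [h1, h2]
    ring

/-! ### integral helpers -/

theorem integral_sub2 {α : Type*} [MeasurableSpace α] {μ : Measure α} {f g h : α → ℝ}
    (hf : Integrable f μ) (hg : Integrable g μ) (hh : Integrable h μ) :
    ∫ x, (f x - g x - h x) ∂μ = ∫ x, f x ∂μ - ∫ x, g x ∂μ - ∫ x, h x ∂μ := by
  have h1 : Integrable (fun x => f x - g x) μ := hf.sub hg
  rw [integral_sub h1 hh, integral_sub hf hg]

theorem integral_add2 {α : Type*} [MeasurableSpace α] {μ : Measure α} {f g h : α → ℝ}
    (hf : Integrable f μ) (hg : Integrable g μ) (hh : Integrable h μ) :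
    ∫ x, (f x + (g x + h x)) ∂μ = ∫ x, f x ∂μ + (∫ x, g x ∂μ + ∫ x, h x ∂μ) := by
  have h1 : Integrable (fun x => g x + h x) μ := hg.add hh
  rw [integral_add hf h1, integral_add hg hh]

theorem integral_ssa {α : Type*} [MeasurableSpace α] {μ : Measure α} {f g h k : α → ℝ}
    (hf : Integrable f μ) (hg : Integrable g μ) (hh : Integrable h μ) (hk : Integrable k μ) :
    ∫ x, (f x - g x - h x + k x) ∂μ =
      ∫ x, f x ∂μ - ∫ x, g x ∂μ - ∫ x, h x ∂μ + ∫ x, k x ∂μ := by
  have h1 : Integrable (fun x => f x - g x - h x) μ := (hf.sub hg).sub hh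
  rw [integral_add h1 hk, integral_sub2 hf hg hh]

/-! ### the class of densities -/

variable {V : Type*} [NormedAddCommGroup V] [InnerProductSpace ℝ V] [FiniteDimensional ℝ V]
  [MeasurableSpace V] [BorelSpace V]

/-- admissible nonnegative densities -/
structure TC (f : V → ℝ) : Prop where
  meas : Measurable f
  nonneg : ∀ x, 0 ≤ f x
  int : Integrable f
  int53 : Integrable (fun x => f x ^ (5 / 3 : ℝ))

theorem BC.toTC {f : V → ℝ} (hf : BC f) (h0 : ∀ x, 0 ≤ f x) : TC f := by
  refine ⟨hf.meas, h0, hf.integrable, ?_⟩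
  obtain ⟨M, R, hM0, hR0, hM, hR⟩ := hf.bounds
  have : BC (fun x => f x ^ (5 / 3 : ℝ)) := by
    refine ⟨hf.meas.pow_const _, ⟨M ^ (5 / 3 : ℝ), fun x => ?_⟩, ⟨R, fun x hx => ?_⟩⟩
    · rw [abs_of_nonneg (Real.rpow_nonneg (h0 x) _)]
      refine Real.rpow_le_rpow (h0 x) ?_ (by norm_num)
      have := hM x
      rwa [abs_of_nonneg (h0 x)] at this
    · rw [hR x hx, Real.zero_rpow (by norm_num)]
  exact this.integrable

section dim3

variable [hd : Fact (Module.finrank ℝ V = 3)]

include hd in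
theorem integrableOn_rpow52 : IntegrableOn (fun v : V => (‖v‖⁻¹) ^ (5 / 2 : ℝ)) (ball 0 1) := by
  refine integrableOn_ball_of_norm_le_rpow (α := 5 / 2) (C := 1) ?_ ?_ ?_ ?_
  · rw [hd.out]; norm_num
  · rw [hd.out]; norm_num
  · refine Eventually.of_forall fun x => ?_
    rw [Real.norm_of_nonneg (by positivity), one_mul, Real.rpow_neg (norm_nonneg _),
      Real.inv_rpow (norm_nonneg _)]
  · exact ((measurable_norm.inv).pow_const _).aestronglyMeasurable

/-- local singular weight -/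
noncomputable def wt (v : V) : ℝ :=
  (ball (0 : V) 1).indicator (fun v => (‖v‖⁻¹) ^ (5 / 2 : ℝ)) v

theorem wt_nonneg (v : V) : 0 ≤ wt v := indicator_nonneg (fun _ _ => by positivity) _

theorem wt_integrable : Integrable (wt : V → ℝ) :=
  (integrable_indicator_iff measurableSet_ball).mpr integrableOn_rpow52

theorem tc_pointwise {s : ℝ} (hs : 0 ≤ s) (v : V) :
    ‖v‖⁻¹ * s ≤ s + (3 / 5 * s ^ (5 / 3 : ℝ) + 2 / 5 * wt v) := by
  have h53 : 0 ≤ s ^ (5 / 3 : ℝ) := Real.rpow_nonneg hs _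
  by_cases hv : v ∈ ball (0 : V) 1
  · have h1 : wt v = (‖v‖⁻¹) ^ (5 / 2 : ℝ) := indicator_of_mem hv _
    have h2 := young_tf (‖v‖⁻¹) hs
    rw [Phi_eq_rpow (by positivity)] at h2
    rw [h1]
    linarith
  · have h1 : wt v = 0 := indicator_of_notMem hv _
    have h2 : 1 ≤ ‖v‖ := by simpa using hv
    have h3 : ‖v‖⁻¹ ≤ 1 := inv_le_one_of_one_le₀ h2
    have h4 : ‖v‖⁻¹ * s ≤ 1 * s := mul_le_mul_of_nonneg_right h3 hs
    rw [h1]
    linarith

theorem TC.dom_integrable {f : V → ℝ} (hf : TC f) (x : V) :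
    Integrable (fun y => f y + (3 / 5 * f y ^ (5 / 3 : ℝ) + 2 / 5 * wt (x - y))) :=
  hf.int.add ((hf.int53.const_mul _).add ((wt_integrable.comp_sub_left x).const_mul _))

theorem TC.pot_integrable {f : V → ℝ} (hf : TC f) (x : V) :
    Integrable (fun y => ‖x - y‖⁻¹ * f y) := by
  refine (hf.dom_integrable x).mono' ?_ (Eventually.of_forall fun y => ?_)
  · have : Measurable (fun y : V => ‖x - y‖⁻¹) := by fun_prop
    exact (this.mul hf.meas).aestronglyMeasurable
  · rw [Real.norm_of_nonneg (mul_nonneg (by positivity) (hf.nonneg y))]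
    exact tc_pointwise (hf.nonneg y) (x - y)

/-- the uniform bound of the potential -/
noncomputable def tcB (f : V → ℝ) : ℝ :=
  (∫ y, f y) + (3 / 5 * (∫ y, f y ^ (5 / 3 : ℝ)) + 2 / 5 * ∫ v, wt (v : V))

theorem TC.pot_le {f : V → ℝ} (hf : TC f) (x : V) : pot f x ≤ tcB f := by
  unfold pot tcB
  have h1 : ∫ y, (f y + (3 / 5 * f y ^ (5 / 3 : ℝ) + 2 / 5 * wt (x - y))) =
      (∫ y, f y) + (3 / 5 * (∫ y, f y ^ (5 / 3 : ℝ)) + 2 / 5 * ∫ v, wt (v : V)) := by
    rw [integral_add2 hf.int (hf.int53.const_mul _)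
      ((wt_integrable.comp_sub_left x).const_mul _), integral_const_mul, integral_const_mul,
      integral_sub_left_eq_self (fun v : V => wt v) volume x]
  rw [← h1]
  refine integral_mono (hf.pot_integrable x) (hf.dom_integrable x) fun y => ?_
  exact tc_pointwise (hf.nonneg y) (x - y)

theorem TC.prod_integrable {f g : V → ℝ} (hf : TC f) (hg : TC g) :
    Integrable (fun p : V × V => f p.1 * (‖p.1 - p.2‖⁻¹ * g p.2)) (volume.prod volume) := by
  have hm : AEStronglyMeasurable (fun p : V × V => f p.1 * (‖p.1 - p.2‖⁻¹ * g p.2))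
      (volume.prod volume) := by
    have m1 : Measurable (fun p : V × V => ‖p.1 - p.2‖⁻¹) := by fun_prop
    exact ((hf.meas.comp measurable_fst).mul (m1.mul
      (hg.meas.comp measurable_snd))).aestronglyMeasurable
  rw [integrable_prod_iff hm]
  refine ⟨Eventually.of_forall fun x => (hg.pot_integrable x).const_mul (f x), ?_⟩
  refine (hf.int.mul_const (tcB g)).mono' hm.norm.integral_prod_right'
    (Eventually.of_forall fun x => ?_)
  rw [Real.norm_of_nonneg (integral_nonneg fun y => norm_nonneg _)]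
  have : ∫ y, ‖f x * (‖x - y‖⁻¹ * g y)‖ = f x * pot g x := by
    unfold pot
    rw [← integral_const_mul]
    refine integral_congr_ae (Eventually.of_forall fun y => ?_)
    simp only
    rw [Real.norm_of_nonneg]
    exact mul_nonneg (hf.nonneg x) (mul_nonneg (by positivity) (hg.nonneg y))
  simp only
  rw [this]
  exact mul_le_mul_of_nonneg_left (hg.pot_le x) (hf.nonneg x)

theorem TC.En_integrable {f g : V → ℝ} (hf : TC f) (hg : TC g) :
    Integrable (fun x => f x * pot g x) := by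
  have h := (hf.prod_integrable hg).integral_prod_left
  refine h.congr (Eventually.of_forall fun x => ?_)
  simp only
  rw [integral_const_mul]
  rfl

theorem TC.En_symm {f g : V → ℝ} (hf : TC f) (hg : TC g) : En f g = En g f := by
  unfold En pot
  simp_rw [← integral_const_mul]
  rw [integral_integral_swap (hf.prod_integrable hg)]
  refine integral_congr_ae (Eventually.of_forall fun x => ?_)
  refine integral_congr_ae (Eventually.of_forall fun y => ?_)
  simp only
  rw [norm_sub_rev]; ring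

/-- positivity of the energy of a difference -/
theorem TC.psd {f g : V → ℝ} (hf : TC f) (hg : TC g) : 2 * En f g ≤ En f f + En g g := by
  have hff := hf.prod_integrable hf
  have hfg := hf.prod_integrable hg
  have hgf := hg.prod_integrable hf
  have hgg := hg.prod_integrable hg
  have e1 : ∀ p : V × V, (f p.1 - g p.1) * (‖p.1 - p.2‖⁻¹ * (f p.2 - g p.2)) =
      f p.1 * (‖p.1 - p.2‖⁻¹ * f p.2) - f p.1 * (‖p.1 - p.2‖⁻¹ * g p.2) -
      g p.1 * (‖p.1 - p.2‖⁻¹ * f p.2) + g p.1 * (‖p.1 - p.2‖⁻¹ * g p.2) := fun p => by ring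
  have hI : Integrable (fun p : V × V => (f p.1 - g p.1) * (‖p.1 - p.2‖⁻¹ * (f p.2 - g p.2)))
      (volume.prod volume) := by
    simp_rw [e1]
    exact ((hff.sub hfg).sub hgf).add hgg
  have h := coulomb_psd (hf.meas.sub hg.meas) hI
  have h' : 0 ≤ ∫ x, ∫ y, (f x - g x) * (‖x - y‖⁻¹ * (f y - g y)) := h
  rw [← integral_prod (fun p : V × V => (f p.1 - g p.1) * (‖p.1 - p.2‖⁻¹ * (f p.2 - g p.2))) hI]
    at h'
  simp_rw [e1] at h'
  rw [integral_ssa hff hfg hgf hgg, integral_prod _ hff, integral_prod _ hfg, integral_prod _ hgf,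
    integral_prod _ hgg] at h'
  have e2 : ∀ a b : V → ℝ, (∫ x, ∫ y, a x * (‖x - y‖⁻¹ * b y)) = En a b := by
    intro a b
    unfold En pot
    simp_rw [← integral_const_mul]
  simp only [e2] at h'
  rw [hg.En_symm hf] at h'
  linarith

/-- the Thomas-Fermi functional with nuclear density `m` and chemical potential `-φ₀` -/
noncomputable def Ef (φ₀ : ℝ) (m σ : V → ℝ) : ℝ :=
  3 / 5 * (∫ x, σ x ^ (5 / 3 : ℝ)) + φ₀ * (∫ x, σ x) - (∫ x, σ x * pot m x) +
    1 / 2 * En σ σ + 1 / 2 * En m m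

/-- solutions of the Thomas-Fermi equation are minimizers -/
theorem Ef_min {m ρ σ : V → ℝ} {φ₀ : ℝ} (hm : BC m) (hρ : BC ρ) (hρ0 : ∀ x, 0 ≤ ρ x)
    (heq : ∀ x, ρ x = tf (pot (fun y => m y - ρ y) x - φ₀)) (hσ : TC σ) :
    Ef φ₀ m ρ ≤ Ef φ₀ m σ := by
  have hρT := hρ.toTC hρ0
  obtain ⟨B, hB⟩ := pot_bound (hm.sub hρ)
  set w : V → ℝ := fun x => pot (fun y => m y - ρ y) x - φ₀ with hw
  have hwm : Measurable w := (pot_continuous (hm.sub hρ)).measurable.sub measurable_const
  have hwb : ∀ x, |w x| ≤ B + |φ₀| := fun x => by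
    refine (abs_sub _ _).trans ?_
    have := hB x
    linarith
  obtain ⟨Bm, hBm⟩ := pot_bound hm
  have hIw : ∀ {s : V → ℝ}, TC s → Integrable (fun x => w x * s x) := by
    intro s hs
    exact hs.int.bdd_mul hwm.aestronglyMeasurable (Eventually.of_forall hwb)
  have hIm : ∀ {s : V → ℝ}, TC s → Integrable (fun x => s x * pot m x) := by
    intro s hs
    have h1 : Integrable (fun x => pot m x * s x) :=
      hs.int.bdd_mul (pot_continuous hm).measurable.aestronglyMeasurable
        (Eventually.of_forall hBm)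
    exact h1.congr (Eventually.of_forall fun x => by ring)
  have hkey : 3 / 5 * (∫ x, ρ x ^ (5 / 3 : ℝ)) - ∫ x, w x * ρ x ≤
      3 / 5 * (∫ x, σ x ^ (5 / 3 : ℝ)) - ∫ x, w x * σ x := by
    rw [← integral_const_mul, ← integral_const_mul, ← integral_sub (hρT.int53.const_mul _)
      (hIw hρT), ← integral_sub (hσ.int53.const_mul _) (hIw hσ)]
    refine integral_mono ((hρT.int53.const_mul _).sub (hIw hρT))
      ((hσ.int53.const_mul _).sub (hIw hσ)) fun x => ?_
    simp only
    have h1 := young_tf (w x) (hσ.nonneg x)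
    have h2 := young_tf_eq (w x)
    have h3 : ρ x = tf (w x) := heq x
    rw [h3]
    linarith
  -- expand the pairing with w
  have hexp : ∀ {s : V → ℝ}, TC s → ∫ x, w x * s x =
      (∫ x, s x * pot m x) - En s ρ - φ₀ * ∫ x, s x := by
    intro s hs
    have e1 : (fun x => w x * s x) = fun x => s x * pot m x - s x * pot ρ x - φ₀ * s x := by
      funext x
      simp only [hw]
      rw [pot_sub hm hρ]
      ring
    rw [e1, integral_sub2 (hIm hs) (hs.En_integrable hρT) (hs.int.const_mul _),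
      integral_const_mul]
    rfl
  rw [hexp hρT, hexp hσ] at hkey
  have hpsd := hσ.psd hρT
  unfold Ef
  linarith

end dim3

end Pool.Agent.TF

end

section
/-! Monotonicity of the energy when groups of nuclei are moved apart in one direction. -/

set_option linter.unusedSectionVars false

set_option linter.unusedVariables false

set_option linter.style.haveILetI false

namespace Pool.Agent.TF

open MeasureTheory Set Metric Filter Topology

open scoped ENNReal NNReal RealInnerProductSpace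

variable {ι : Type*} [Fintype ι]

/-! ### finite sums -/

theorem pot_sum {ι' : Type*} (s : Finset ι') {f : ι' → X → ℝ} (hf : ∀ i ∈ s, BC (f i)) (x : X) :
    pot (fun y => ∑ i ∈ s, f i y) x = ∑ i ∈ s, pot (f i) x := by
  unfold pot
  rw [← integral_finsetSum s fun i hi => pot_integrable (hf i hi) x]
  refine integral_congr_ae (Eventually.of_forall fun y => ?_)
  simp only
  rw [Finset.mul_sum]

theorem Fo_sum_left {ι' : Type*} (s : Finset ι') {f : ι' → X → ℝ} (hf : ∀ i ∈ s, BC (f i))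
    {g : X → ℝ} (hg : BC g) (e : X) :
    Fo e (fun y => ∑ i ∈ s, f i y) g = ∑ i ∈ s, Fo e (f i) g := by
  unfold Fo
  rw [← integral_finsetSum s fun i hi => Fo_integrable (hf i hi) hg e]
  refine integral_congr_ae (Eventually.of_forall fun y => ?_)
  simp only
  rw [Finset.sum_mul]

theorem Fo_sum_right {ι' : Type*} (s : Finset ι') {f : ι' → X → ℝ} (hf : ∀ i ∈ s, BC (f i))
    {g : X → ℝ} (hg : BC g) (e : X) :
    Fo e g (fun y => ∑ i ∈ s, f i y) = ∑ i ∈ s, Fo e g (f i) := by
  rw [Fo_antisymm hg (BC.sum s hf), Fo_sum_left s hf hg, ← Finset.sum_neg_distrib]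
  refine Finset.sum_congr rfl fun i hi => ?_
  rw [Fo_antisymm (hf i hi) hg, neg_neg]

theorem En_sum_left {ι' : Type*} (s : Finset ι') {f : ι' → X → ℝ} (hf : ∀ i ∈ s, BC (f i))
    {g : X → ℝ} (hg : BC g) :
    En (fun y => ∑ i ∈ s, f i y) g = ∑ i ∈ s, En (f i) g := by
  unfold En
  rw [← integral_finsetSum s fun i hi => En_integrable (hf i hi) hg]
  refine integral_congr_ae (Eventually.of_forall fun y => ?_)
  simp only
  rw [Finset.sum_mul]

theorem En_sum_right {ι' : Type*} (s : Finset ι') {f : ι' → X → ℝ} (hf : ∀ i ∈ s, BC (f i))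
    {g : X → ℝ} (hg : BC g) :
    En g (fun y => ∑ i ∈ s, f i y) = ∑ i ∈ s, En g (f i) := by
  rw [En_symm hg (BC.sum s hf), En_sum_left s hf hg]
  refine Finset.sum_congr rfl fun i hi => ?_
  rw [En_symm (hf i hi) hg]

/-! ### the moving nuclei -/

/-- total nuclear density at time `t` -/
noncomputable def MS (m : ι → X → ℝ) (b : ι → ℝ) (t : ℝ) (x : X) : ℝ :=
  ∑ i, m i (x + (-(t * b i)) • e1)

theorem MS_BC {m : ι → X → ℝ} (hm : ∀ i, BC (m i)) (b : ι → ℝ) (t : ℝ) : BC (MS m b t) :=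
  BC.sum Finset.univ fun i _ => (hm i).translate _

theorem MS_add (m : ι → X → ℝ) (b : ι → ℝ) (t δ : ℝ) :
    MS m b (t + δ) = MS (fun i x => m i (x + (-(t * b i)) • e1)) b δ := by
  funext x
  unfold MS
  refine Finset.sum_congr rfl fun i _ => ?_
  congr 1
  rw [add_assoc, ← add_smul]
  congr 2
  ring

theorem MS_zero (m : ι → X → ℝ) (b : ι → ℝ) (x : X) : MS m b 0 x = ∑ i, m i x := by
  unfold MS
  simp

theorem pot_MS {m : ι → X → ℝ} (hm : ∀ i, BC (m i)) (b : ι → ℝ) (t : ℝ) (x : X) :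
    pot (MS m b t) x = ∑ i, pot (m i) (x + (-(t * b i)) • e1) := by
  unfold MS
  rw [pot_sum Finset.univ fun i _ => (hm i).translate _]
  refine Finset.sum_congr rfl fun i _ => ?_
  rw [pot_translate]

theorem hasDerivAt_shift_mul {f g : X → ℝ} (hf : BC f) (hg : BC g) (c : ℝ) :
    HasDerivAt (fun t : ℝ => ∫ x, f x * pot g (x + (t * c) • e1)) (c * Fo e1 f g) 0 := by
  have h1 : HasDerivAt (fun t : ℝ => t * c) c 0 := by
    simpa using (hasDerivAt_id (0 : ℝ)).mul_const c
  have h2 : HasDerivAt (fun t : ℝ => ∫ x, f x * pot g (x + t • e1)) (Fo e1 f g)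
      ((fun t : ℝ => t * c) 0) := by
    simpa using hasDerivAt_shift hf hg e1
  have h3 := h2.comp (0 : ℝ) h1
  rw [mul_comm]
  exact h3

theorem En_shift {f g : X → ℝ} (u v : ℝ) :
    En (fun x => f (x + u • e1)) (fun x => g (x + v • e1)) =
      ∫ x, f x * pot g (x + (v - u) • e1) := by
  unfold En
  rw [← integral_add_right_eq_self (fun x => f x * pot g (x + (v - u) • e1)) (u • e1)]
  refine integral_congr_ae (Eventually.of_forall fun x => ?_)
  simp only
  rw [pot_translate, add_assoc, ← add_smul]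
  congr 3
  ring_nf

/-- derivative of the nuclear part of the energy -/
theorem deriv_total {m : ι → X → ℝ} (hm : ∀ i, BC (m i)) (b : ι → ℝ) {ρ : X → ℝ} (hρ : BC ρ) :
    HasDerivAt (fun δ : ℝ => 1 / 2 * En (MS m b δ) (MS m b δ) - ∫ x, ρ x * pot (MS m b δ) x)
      (∑ i, b i * Fo e1 (m i) (fun x => (∑ j, m j x) - ρ x)) 0 := by
  have h1 : ∀ δ : ℝ, En (MS m b δ) (MS m b δ) =
      ∑ i, ∑ j, ∫ x, m i x * pot (m j) (x + (δ * (b i - b j)) • e1) := by
    intro δ
    unfold MS
    rw [En_sum_left Finset.univ (fun i _ => (hm i).translate _)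
      (BC.sum Finset.univ fun i _ => (hm i).translate _)]
    refine Finset.sum_congr rfl fun i _ => ?_
    rw [En_sum_right Finset.univ (fun i _ => (hm i).translate _) ((hm i).translate _)]
    refine Finset.sum_congr rfl fun j _ => ?_
    rw [En_shift]
    refine integral_congr_ae (Eventually.of_forall fun x => ?_)
    simp only
    congr 4
    ring
  have h2 : ∀ δ : ℝ, ∫ x, ρ x * pot (MS m b δ) x =
      ∑ i, ∫ x, ρ x * pot (m i) (x + (δ * (-b i)) • e1) := by
    intro δ
    rw [← integral_finsetSum]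
    · refine integral_congr_ae (Eventually.of_forall fun x => ?_)
      simp only
      rw [pot_MS hm, Finset.mul_sum]
      refine Finset.sum_congr rfl fun i _ => ?_
      congr 4
      ring
    · intro i _
      have := En_integrable hρ ((hm i).translate ((δ * (-b i)) • e1))
      refine this.congr (Eventually.of_forall fun x => ?_)
      simp only
      rw [pot_translate]
  simp_rw [h1, h2]
  have h3 : HasDerivAt (fun δ : ℝ => 1 / 2 * (∑ i, ∑ j, ∫ x, m i x *
      pot (m j) (x + (δ * (b i - b j)) • e1)) - ∑ i, ∫ x, ρ x * pot (m i) (x + (δ * (-b i)) • e1))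
      (1 / 2 * (∑ i, ∑ j, (b i - b j) * Fo e1 (m i) (m j)) - ∑ i, (-b i) * Fo e1 ρ (m i)) 0 := by
    refine HasDerivAt.sub (HasDerivAt.const_mul _ ?_) ?_
    · refine HasDerivAt.fun_sum fun i _ => HasDerivAt.fun_sum fun j _ => ?_
      exact hasDerivAt_shift_mul (hm i) (hm j) (b i - b j)
    · exact HasDerivAt.fun_sum fun i _ => hasDerivAt_shift_mul hρ (hm i) (-b i)
  refine h3.congr_deriv ?_
  have h4 : ∀ i, Fo e1 (m i) (fun x => (∑ j, m j x) - ρ x) =
      (∑ j, Fo e1 (m i) (m j)) - Fo e1 (m i) ρ := by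
    intro i
    rw [Fo_sub_right (hm i) (BC.sum Finset.univ fun j _ => hm j) hρ,
      Fo_sum_right Finset.univ (fun j _ => hm j) (hm i)]
  have h5 : ∑ i, ∑ j, (b i - b j) * Fo e1 (m i) (m j) =
      2 * ∑ i, b i * ∑ j, Fo e1 (m i) (m j) := by
    have e1' : ∑ i, ∑ j, b j * Fo e1 (m i) (m j) = -∑ i, ∑ j, b i * Fo e1 (m i) (m j) := by
      rw [Finset.sum_comm, ← Finset.sum_neg_distrib]
      refine Finset.sum_congr rfl fun i _ => ?_
      rw [← Finset.sum_neg_distrib]
      refine Finset.sum_congr rfl fun j _ => ?_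
      rw [Fo_antisymm (hm j) (hm i)]
      ring
    have e2' : ∑ i, b i * ∑ j, Fo e1 (m i) (m j) = ∑ i, ∑ j, b i * Fo e1 (m i) (m j) :=
      Finset.sum_congr rfl fun i _ => by rw [Finset.mul_sum]
    simp_rw [sub_mul, Finset.sum_sub_distrib]
    rw [e1', e2']
    ring
  rw [h5]
  simp_rw [h4, mul_sub, Finset.sum_sub_distrib]
  have h6 : ∑ i, -b i * Fo e1 ρ (m i) = ∑ i, b i * Fo e1 (m i) ρ := by
    refine Finset.sum_congr rfl fun i _ => ?_
    rw [Fo_antisymm hρ (hm i)]
    ring
  rw [h6]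
  ring

/-! ### Abel summation -/

theorem abel_sum (n : ℕ) : ∀ (b F : ι → ℝ), (Finset.univ.filter fun i => 0 < b i).card = n →
    (∀ i, 0 ≤ b i) → (∀ β : ℝ, 0 ≤ β → ∑ i, (if β < b i then F i else 0) ≤ 0) →
    ∑ i, b i * F i ≤ 0 := by
  induction n using Nat.strong_induction_on with
  | _ n ih =>
    intro b F hn hb0 hlev
    by_cases hne : (Finset.univ.filter fun i => 0 < b i).Nonempty
    · obtain ⟨i0, hi0, hmin⟩ := Finset.exists_min_image _ b hne
      rw [Finset.mem_filter] at hi0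
      have hpos : 0 < b i0 := hi0.2
      have hmin' : ∀ i, 0 < b i → b i0 ≤ b i := fun i hi =>
        hmin i (Finset.mem_filter.mpr ⟨Finset.mem_univ _, hi⟩)
      set b' : ι → ℝ := fun i => if 0 < b i then b i - b i0 else 0 with hb'
      have hb'0 : ∀ i, 0 ≤ b' i := by
        intro i
        simp only [hb']
        split_ifs with h
        · linarith [hmin' i h]
        · exact le_rfl
      have hcard : (Finset.univ.filter fun i => 0 < b' i).card < n := by
        rw [← hn]
        refine Finset.card_lt_card ?_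
        rw [Finset.ssubset_iff_of_subset]
        · refine ⟨i0, Finset.mem_filter.mpr ⟨Finset.mem_univ _, hpos⟩, ?_⟩
          rw [Finset.mem_filter]
          intro h
          have := h.2
          simp only [hb', if_pos hpos, sub_self] at this
          exact lt_irrefl _ this
        · intro i hi
          rw [Finset.mem_filter] at hi ⊢
          refine ⟨Finset.mem_univ _, ?_⟩
          by_contra h
          have := hi.2
          simp only [hb', if_neg h] at this
          exact lt_irrefl _ this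
      have h1 := ih _ hcard b' F rfl hb'0 (by
        intro β hβ
        have h2 := hlev (β + b i0) (by linarith)
        refine le_of_eq_of_le ?_ h2
        refine Finset.sum_congr rfl fun i _ => ?_
        by_cases h : 0 < b i
        · simp only [hb', if_pos h]
          by_cases h3 : β < b i - b i0
          · rw [if_pos h3, if_pos (by linarith)]
          · rw [if_neg h3, if_neg (by linarith)]
        · simp only [hb', if_neg h]
          rw [if_neg (by linarith), if_neg (by linarith)])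
      have h2 := hlev 0 le_rfl
      have h3 : ∑ i, b i * F i = (∑ i, b' i * F i) + b i0 * ∑ i, (if 0 < b i then F i else 0) := by
        rw [Finset.mul_sum, ← Finset.sum_add_distrib]
        refine Finset.sum_congr rfl fun i _ => ?_
        by_cases h : 0 < b i
        · simp only [hb', if_pos h]; ring
        · have : b i = 0 := le_antisymm (not_lt.mp h) (hb0 i)
          simp only [hb', if_neg h]
          rw [this]; ring
      rw [h3]
      have := mul_nonpos_of_nonneg_of_nonpos hpos.le h2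
      linarith
    · rw [Finset.not_nonempty_iff_eq_empty, Finset.filter_eq_empty_iff] at hne
      have : ∀ i, b i = 0 := fun i => le_antisymm (not_lt.mp (hne (Finset.mem_univ i))) (hb0 i)
      simp [this]

/-- sign of the derivative -/
theorem sign_lemma {m : ι → X → ℝ} (hm : ∀ i, BC (m i)) (hm0 : ∀ i x, 0 ≤ m i x)
    {α : ι → ℝ} {ε : ℝ} (hsupp : ∀ i x, ε ≤ |x.fst - α i| → m i x = 0)
    {b : ι → ℝ} (hb0 : ∀ i, 0 ≤ b i) (hgap : ∀ i j, b i < b j → α i + 2 * ε ≤ α j)
    {φ₀ : ℝ} (hφ : 0 < φ₀) {ρ : X → ℝ} (hρ : BC ρ)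
    (heq : ∀ x, ρ x = tf (pot (fun y => (∑ i, m i y) - ρ y) x - φ₀)) :
    ∑ i, b i * Fo e1 (m i) (fun x => (∑ j, m j x) - ρ x) ≤ 0 := by
  classical
  refine abel_sum _ b _ rfl hb0 fun β hβ => ?_
  set mA : X → ℝ := fun x => ∑ i, (if β < b i then m i x else 0) with hmA
  set mB : X → ℝ := fun x => ∑ i, (if β < b i then 0 else m i x) with hmB
  have hAi : ∀ i ∈ (Finset.univ : Finset ι), BC (fun x => if β < b i then m i x else 0) := by
    intro i _
    by_cases h : β < b i
    · simpa [h] using hm i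
    · simpa [h] using BC.zero
  have hBi : ∀ i ∈ (Finset.univ : Finset ι), BC (fun x => if β < b i then 0 else m i x) := by
    intro i _
    by_cases h : β < b i
    · simpa [h] using BC.zero
    · simpa [h] using hm i
  have hA : BC mA := BC.sum Finset.univ hAi
  have hB : BC mB := BC.sum Finset.univ hBi
  have hsum : ∀ x, ∑ i, m i x = mA x + mB x := by
    intro x
    simp only [hmA, hmB]
    rw [← Finset.sum_add_distrib]
    refine Finset.sum_congr rfl fun i _ => ?_
    split_ifs <;> ring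
  have hM : BC (fun x => (∑ j, m j x) - ρ x) := (BC.sum Finset.univ fun i _ => hm i).sub hρ
  have h1 : ∑ i, (if β < b i then Fo e1 (m i) (fun x => (∑ j, m j x) - ρ x) else 0) =
      Fo e1 mA (fun x => (∑ j, m j x) - ρ x) := by
    simp only [hmA]
    rw [Fo_sum_left Finset.univ hAi hM]
    refine Finset.sum_congr rfl fun i _ => ?_
    by_cases h : β < b i
    · simp [h]
    · simp [h, Fo]
  rw [h1]
  have h2 : (fun x => (∑ j, m j x) - ρ x) = fun x => mA x + (mB x - ρ x) := by
    funext x; rw [hsum]; ring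
  rw [h2, Fo_add_right hA hA (hB.sub hρ), Fo_self hA, zero_add]
  by_cases hne : (Finset.univ.filter fun i => β < b i).Nonempty
  · obtain ⟨j0, hj0, hmin⟩ := Finset.exists_min_image _ α hne
    rw [Finset.mem_filter] at hj0
    refine force_nonpos' hA hB hρ ?_ ?_ (α j0 - ε) ?_ ?_ hφ ?_
    · intro x
      exact Finset.sum_nonneg fun i _ => by
        split_ifs
        · exact hm0 i x
        · exact le_rfl
    · intro x
      exact Finset.sum_nonneg fun i _ => by
        split_ifs
        · exact le_rfl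
        · exact hm0 i x
    · intro x hx
      refine Finset.sum_eq_zero fun i _ => ?_
      split_ifs with h
      · refine hsupp i x ?_
        have h3 := hmin i (Finset.mem_filter.mpr ⟨Finset.mem_univ _, h⟩)
        push Not at hx
        rw [abs_sub_comm]
        refine le_trans ?_ (le_abs_self _)
        linarith
      · rfl
    · intro x hx
      refine Finset.sum_eq_zero fun i _ => ?_
      split_ifs with h
      · rfl
      · refine hsupp i x ?_
        push Not at h hx
        have h3 := hgap i j0 (lt_of_le_of_lt h hj0.2)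
        refine le_trans ?_ (le_abs_self _)
        linarith
    · intro x
      rw [heq x]
      congr 3
      funext y
      rw [hsum]
  · rw [Finset.not_nonempty_iff_eq_empty, Finset.filter_eq_empty_iff] at hne
    have h3 : mA = fun _ => 0 := by
      funext x
      simp only [hmA]
      exact Finset.sum_eq_zero fun i hi => if_neg (hne hi)
    rw [h3]
    simp [Fo]

end Pool.Agent.TF

end

section
/-! The energy along the path. -/

set_option linter.unusedSectionVars false

set_option linter.unusedVariables false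

set_option linter.style.haveILetI false

namespace Pool.Agent.TF

open MeasureTheory Set Metric Filter Topology

open scoped ENNReal NNReal RealInnerProductSpace

variable {ι : Type*} [Fintype ι]

/-- Lipschitz bound along lines -/
theorem pot_line_lip {f : X → ℝ} (hf : BC f) : ∃ B, 0 ≤ B ∧ ∀ (x : X) (u v : ℝ),
    |pot f (x + u • e1) - pot f (x + v • e1)| ≤ B * |u - v| := by
  obtain ⟨B, hB⟩ := grad_bound hf e1
  refine ⟨B, (abs_nonneg _).trans (hB 0), fun x u v => ?_⟩
  rw [pot_sub_pot hf x e1 v u]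
  have h := intervalIntegral.norm_integral_le_of_norm_le_const (a := v) (b := u)
    (f := fun s : ℝ => grad e1 f (x + s • e1)) (C := B) fun s _ => by
      rw [Real.norm_eq_abs]; exact hB _
  rwa [Real.norm_eq_abs] at h

/-- uniform bound of the masses along the path -/
theorem mass_bound {m : ι → X → ℝ} (hm : ∀ i, BC (m i)) {b : ι → ℝ}
    {φ₀ : ℝ} (hφ : 0 < φ₀) {T : ℝ} (hT : 0 ≤ T) :
    ∃ C, 0 ≤ C ∧ ∀ t ∈ Icc 0 T, ∀ ρ : X → ℝ, BC ρ → (∀ x, 0 ≤ ρ x) →
      (∀ x, ρ x = tf (pot (fun y => MS m b t y - ρ y) x - φ₀)) → ∫ x, ρ x ≤ C := by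
  choose B hB using fun i => pot_bound (hm i)
  have hcard : 0 < φ₀ / (Fintype.card ι + 1) := by positivity
  choose R hR using fun i => pot_decay (hm i) hcard
  set Bt : ℝ := ∑ i, B i with hBt
  set Rt : ℝ := ∑ i, (|R i| + T * |b i|) * ‖e1‖ + ∑ i, (|R i| + T * |b i| * ‖e1‖) with hRt
  refine ⟨∫ x in ball (0 : X) Rt, tf Bt, setIntegral_nonneg measurableSet_ball fun _ _ =>
    tf_nonneg _, fun t ht ρ hρ hρ0 heq => ?_⟩
  have hpot : ∀ x, ρ x ≤ tf (pot (MS m b t) x - φ₀) := by
    intro x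
    rw [heq x, pot_sub (MS_BC hm b t) hρ]
    refine tf_mono ?_
    have := pot_nonneg hρ0 x
    linarith
  have hle : ∀ x, ρ x ≤ tf Bt := by
    intro x
    refine (hpot x).trans (tf_mono ?_)
    rw [pot_MS hm]
    have : ∑ i, pot (m i) (x + (-(t * b i)) • e1) ≤ ∑ i, B i :=
      Finset.sum_le_sum fun i _ => (le_abs_self _).trans (hB i _)
    linarith
  have hzero : ∀ x, x ∉ ball (0 : X) Rt → ρ x = 0 := by
    intro x hx
    rw [mem_ball_zero_iff] at hx
    push Not at hx
    refine le_antisymm ((hpot x).trans ?_) (hρ0 x)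
    refine le_of_eq (tf_of_nonpos ?_)
    rw [pot_MS hm]
    have h1 : ∀ i ∈ (Finset.univ : Finset ι),
        pot (m i) (x + (-(t * b i)) • e1) ≤ φ₀ / (Fintype.card ι + 1) := by
      intro i _
      refine (le_abs_self _).trans (hR i _ ?_).le
      have h2 : ‖x‖ ≤ ‖x + (-(t * b i)) • e1‖ + ‖(-(t * b i)) • e1‖ := by
        have := norm_sub_le (x + (-(t * b i)) • e1) ((-(t * b i)) • e1)
        simpa using this
      have h3 : ‖(-(t * b i)) • e1‖ ≤ T * |b i| * ‖e1‖ := by
        rw [norm_smul, norm_neg, Real.norm_eq_abs, abs_mul, abs_of_nonneg ht.1]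
        have := ht.2
        gcongr
      have h4 : |R i| + T * |b i| * ‖e1‖ ≤ ∑ i, (|R i| + T * |b i| * ‖e1‖) :=
        Finset.single_le_sum (f := fun i => |R i| + T * |b i| * ‖e1‖)
          (fun i _ => by positivity) (Finset.mem_univ i)
      have h5 : 0 ≤ ∑ i, (|R i| + T * |b i|) * ‖e1‖ := by positivity
      have h6 := le_abs_self (R i)
      linarith
    have h2 := Finset.sum_le_sum h1
    rw [Finset.sum_const, Finset.card_univ, nsmul_eq_mul] at h2
    have h3 : (Fintype.card ι : ℝ) * (φ₀ / (Fintype.card ι + 1)) ≤ φ₀ := by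
      rw [mul_div_assoc', div_le_iff₀ (by positivity)]
      nlinarith [Nat.cast_nonneg (α := ℝ) (Fintype.card ι)]
    linarith
  have h1 : ∫ x, ρ x = ∫ x in ball (0 : X) Rt, ρ x := by
    rw [← integral_indicator measurableSet_ball]
    refine integral_congr_ae (Eventually.of_forall fun x => ?_)
    by_cases hx : x ∈ ball (0 : X) Rt
    · rw [indicator_of_mem hx]
    · rw [indicator_of_notMem hx, hzero x hx]
  rw [h1]
  exact setIntegral_mono hρ.integrable.integrableOn (integrableOn_const (by finiteness)) hle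

/-- the energy is nonincreasing along the path -/
theorem path_antitone {m : ι → X → ℝ} (hm : ∀ i, BC (m i)) (hm0 : ∀ i x, 0 ≤ m i x)
    {α : ι → ℝ} {ε : ℝ} (hsupp : ∀ i x, ε ≤ |x.fst - α i| → m i x = 0)
    {b : ι → ℝ} (hb0 : ∀ i, 0 ≤ b i) (hgap : ∀ i j, b i < b j → α i + 2 * ε ≤ α j)
    {φ₀ : ℝ} (hφ : 0 < φ₀) {T : ℝ} (hT : 0 ≤ T) :
    ∃ ρ1 : X → ℝ, BC ρ1 ∧ (∀ x, 0 ≤ ρ1 x) ∧ ∀ σ : X → ℝ, TC σ →
      Ef φ₀ (MS m b T) ρ1 ≤ Ef φ₀ (MS m b 0) σ := by
  choose ρ hρB hρ0 hρ using fun t => exists_tf (MS_BC hm b t) hφ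
  set E : ℝ → ℝ := fun t => Ef φ₀ (MS m b t) (ρ t) with hE
  set a : ℝ → ℝ := fun t => 1 / 2 * En (MS m b t) (MS m b t) with ha
  -- comparison
  have hcomp : ∀ s t, E t ≤ E s + (a t - a s) - ((∫ x, ρ s x * pot (MS m b t) x) -
      ∫ x, ρ s x * pot (MS m b s) x) := by
    intro s t
    have h1 := Ef_min (MS_BC hm b t) (hρB t) (hρ0 t) (hρ t) ((hρB s).toTC (hρ0 s))
    simp only [hE, ha]
    unfold Ef at h1 ⊢
    linarith
  -- continuity of a
  have hac : Continuous a := by
    rw [continuous_iff_continuousAt]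
    intro t
    have h1 := (deriv_total (m := fun i x => m i (x + (-(t * b i)) • e1))
      (fun i => (hm i).translate _) b (ρ := fun _ => 0) BC.zero).continuousAt
    simp only [zero_mul, integral_zero, sub_zero, ← MS_add] at h1
    have h2 : ContinuousAt (fun s : ℝ => s - t) t := (continuous_id.sub continuous_const).continuousAt
    have h4 := ContinuousAt.comp_of_eq (f := fun s : ℝ => s - t) (x := t) h1 h2 (sub_self t)
    refine h4.congr (Eventually.of_forall fun s => ?_)
    simp only [ha, Function.comp, add_sub_cancel]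
  -- Lipschitz bound of the potential
  choose L hL0 hL using fun i => pot_line_lip (hm i)
  set Lt : ℝ := ∑ i, L i * |b i| with hLt
  have hLt0 : 0 ≤ Lt := Finset.sum_nonneg fun i _ => mul_nonneg (hL0 i) (abs_nonneg _)
  have hLip : ∀ s t x, |pot (MS m b t) x - pot (MS m b s) x| ≤ Lt * |t - s| := by
    intro s t x
    rw [pot_MS hm, pot_MS hm, ← Finset.sum_sub_distrib]
    refine (Finset.abs_sum_le_sum_abs _ _).trans ?_
    rw [hLt, Finset.sum_mul]
    refine Finset.sum_le_sum fun i _ => ?_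
    refine (hL i x _ _).trans ?_
    have : |-(t * b i) - -(s * b i)| = |b i| * |t - s| := by
      rw [← abs_mul, ← abs_neg]; congr 1; ring
    rw [this]
    apply le_of_eq
    ring
  obtain ⟨C, hC0, hC⟩ := mass_bound hm (b := b) hφ hT
  have hmass : ∀ s ∈ Icc 0 T, ∫ x, ρ s x ≤ C := fun s hs => hC s hs (ρ s) (hρB s) (hρ0 s) (hρ s)
  have hdiff : ∀ s ∈ Icc 0 T, ∀ t, |(∫ x, ρ s x * pot (MS m b t) x) -
      ∫ x, ρ s x * pot (MS m b s) x| ≤ C * Lt * |t - s| := by
    intro s hs t
    rw [← integral_sub (En_integrable (hρB s) (MS_BC hm b t))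
      (En_integrable (hρB s) (MS_BC hm b s))]
    refine (abs_integral_le_integral_abs).trans ?_
    calc ∫ x, |ρ s x * pot (MS m b t) x - ρ s x * pot (MS m b s) x|
        ≤ ∫ x, ρ s x * (Lt * |t - s|) := by
          refine integral_mono_of_nonneg (Eventually.of_forall fun x => abs_nonneg _)
            ((hρB s).integrable.mul_const _) (Eventually.of_forall fun x => ?_)
          simp only
          rw [← mul_sub, abs_mul, abs_of_nonneg (hρ0 s x)]
          exact mul_le_mul_of_nonneg_left (hLip s t x) (hρ0 s x)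
      _ = (∫ x, ρ s x) * (Lt * |t - s|) := by rw [integral_mul_const]
      _ ≤ C * (Lt * |t - s|) := mul_le_mul_of_nonneg_right (hmass s hs) (by positivity)
      _ = _ := by ring
  have hEc : ContinuousOn E (Icc 0 T) := by
    intro t ht
    rw [ContinuousWithinAt, tendsto_iff_dist_tendsto_zero]
    have h1 : Tendsto (fun s => |a s - a t| + C * Lt * |s - t|) (𝓝[Icc 0 T] t) (𝓝 0) := by
      have h2 : Continuous (fun s => |a s - a t| + C * Lt * |s - t|) := by fun_prop
      have h3 := h2.tendsto t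
      simp only [sub_self, abs_zero, mul_zero, add_zero] at h3
      exact h3.mono_left nhdsWithin_le_nhds
    refine squeeze_zero' (Eventually.of_forall fun s => dist_nonneg) ?_ h1
    filter_upwards [self_mem_nhdsWithin] with s hs
    rw [Real.dist_eq, abs_le]
    have c1 := hcomp s t
    have c2 := hcomp t s
    have d1 := abs_le.mp (hdiff s hs t)
    have d2 := abs_le.mp (hdiff t ht s)
    have e1' := abs_le.mp (le_refl |a s - a t|)
    rw [abs_sub_comm t s] at d1
    constructor <;> linarith [d1.1, d1.2, d2.1, d2.2, e1'.1, e1'.2]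
  -- slopes
  have hslope : ∀ t ∈ Ico 0 T, ∀ r, (0 : ℝ) < r → ∃ᶠ z in 𝓝[>] t, slope E t z < r := by
    intro t ht r hr
    set mt : ι → X → ℝ := fun i x => m i (x + (-(t * b i)) • e1) with hmt
    have hmtB : ∀ i, BC (mt i) := fun i => (hm i).translate _
    have hder := deriv_total hmtB b (hρB t)
    have hMSt : ∀ x, ∑ i, mt i x = MS m b t x := fun x => rfl
    have hsgn : ∑ i, b i * Fo e1 (mt i) (fun x => (∑ j, mt j x) - ρ t x) ≤ 0 := by
      refine sign_lemma hmtB (fun i x => hm0 i _) (α := fun i => α i + t * b i) (ε := ε) ?_ hb0 ?_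
        hφ (hρB t) ?_
      · intro i x hx
        refine hsupp i _ ?_
        have : (x + (-(t * b i)) • e1).fst = x.fst - t * b i := by
          change x.fst + (-(t * b i)) * 1 = _
          ring
        rw [this]
        have e2 : x.fst - t * b i - α i = x.fst - (α i + t * b i) := by ring
        rw [e2]
        exact hx
      · intro i j hij
        have h1 := hgap i j hij
        have h2 : t * b i ≤ t * b j := mul_le_mul_of_nonneg_left hij.le ht.1
        linarith
      · intro x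
        rw [hρ t x]
        rfl
    set D : ℝ → ℝ := fun δ => 1 / 2 * En (MS mt b δ) (MS mt b δ) -
      ∫ x, ρ t x * pot (MS mt b δ) x with hD
    set d0 := ∑ i, b i * Fo e1 (mt i) (fun x => (∑ j, mt j x) - ρ t x) with hd0
    have h1 : Tendsto (slope D 0) (𝓝[>] 0) (𝓝 d0) :=
      (hasDerivAt_iff_tendsto_slope.mp hder).mono_left
        (nhdsWithin_mono _ fun s hs => ne_of_gt hs)
    have h2 : ∀ᶠ δ in 𝓝[>] (0 : ℝ), slope D 0 δ < r := h1.eventually (gt_mem_nhds (by linarith))
    have h3 : Tendsto (fun z : ℝ => z - t) (𝓝[>] t) (𝓝[>] 0) := by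
      refine tendsto_nhdsWithin_iff.mpr ⟨?_, ?_⟩
      · have : Tendsto (fun z : ℝ => z - t) (𝓝 t) (𝓝 (t - t)) :=
          (continuous_id.sub continuous_const).tendsto t
        rw [sub_self] at this
        exact this.mono_left nhdsWithin_le_nhds
      · filter_upwards [self_mem_nhdsWithin] with z hz
        exact sub_pos.mpr (show t < z from hz)
    have h4 := h3.eventually h2
    refine Eventually.frequently ?_
    filter_upwards [h4, self_mem_nhdsWithin] with z hz hzt
    refine lt_of_le_of_lt ?_ hz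
    have hzt' : 0 < z - t := sub_pos.mpr (show t < z from hzt)
    rw [slope_def_field, slope_def_field, sub_zero]
    refine div_le_div_of_nonneg_right ?_ hzt'.le
    have e3 : MS mt b (z - t) = MS m b z := by
      rw [hmt, ← MS_add]
      congr 1
      ring
    have e4 : MS mt b 0 = MS m b t := by
      rw [hmt, ← MS_add, add_zero]
    simp only [hD]
    rw [e3, e4]
    have := hcomp t z
    simp only [ha] at this
    linarith
  have hfin := image_le_of_liminf_slope_right_le_deriv_boundary (f := E) (a := 0) (b := T) hEc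
    (B := fun _ => E 0) (B' := fun _ => 0) le_rfl continuousOn_const
    (fun x _ => hasDerivWithinAt_const _ _ _) (fun x hx r hr => hslope x hx r hr)
    (x := T) ⟨hT, le_rfl⟩
  refine ⟨ρ T, hρB T, hρ0 T, fun σ hσ => ?_⟩
  have h0 := Ef_min (MS_BC hm b 0) (hρB 0) (hρ0 0) (hρ 0) hσ
  exact hfin.trans h0

end Pool.Agent.TF

end

section
/-! Point nuclei as limits of uniform balls. -/

set_option linter.unusedSectionVars false

set_option linter.unusedVariables false

set_option linter.style.haveILetI false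

namespace Pool.Agent.TF

open MeasureTheory Set Metric Filter Topology

open scoped ENNReal NNReal RealInnerProductSpace

section defs

variable {V : Type*} [NormedAddCommGroup V] [InnerProductSpace ℝ V] [FiniteDimensional ℝ V]
  [MeasurableSpace V] [BorelSpace V] {ι : Type*} [Fintype ι]

/-- nuclear repulsion (the diagonal terms vanish since `0⁻¹ = 0`) -/
noncomputable def Unuc (z : ι → ℝ) (R : ι → V) : ℝ :=
  1 / 2 * ∑ i, ∑ j, z i * z j * ‖R i - R j‖⁻¹

/-- the Thomas-Fermi functional with point nuclei at fixed chemical potential `-φ₀` -/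
noncomputable def Ept (φ₀ : ℝ) (z : ι → ℝ) (R : ι → V) (σ : V → ℝ) : ℝ :=
  3 / 5 * (∫ x, σ x ^ (5 / 3 : ℝ)) + φ₀ * (∫ x, σ x) - (∑ i, z i * pot σ (R i)) +
    1 / 2 * En σ σ + Unuc z R

end defs

variable {ι : Type*} [Fintype ι]

/-- normalization of the ball -/
noncomputable def kap (ε : ℝ) : ℝ := (4 / 3 * Real.pi * ε ^ 3)⁻¹

theorem kap_pos {ε : ℝ} (hε : 0 < ε) : 0 < kap ε := by
  unfold kap
  have := Real.pi_pos
  positivity

theorem kap_pot_le {ε : ℝ} (hε : 0 < ε) {v : X} (hv : v ≠ 0) : kap ε * pot (chi ε) v ≤ ‖v‖⁻¹ := by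
  have h := (newton hε hv).1
  have h1 : kap ε * pot (chi ε) v ≤ kap ε * (4 / 3 * Real.pi * ε ^ 3 * ‖v‖⁻¹) :=
    mul_le_mul_of_nonneg_left h (kap_pos hε).le
  refine h1.trans (le_of_eq ?_)
  unfold kap
  have := Real.pi_pos
  field_simp

theorem kap_pot_eq {ε : ℝ} (hε : 0 < ε) {v : X} (hv : ε ≤ ‖v‖) : kap ε * pot (chi ε) v = ‖v‖⁻¹ := by
  have hv0 : v ≠ 0 := by
    intro h
    rw [h, norm_zero] at hv
    linarith
  rw [(newton hε hv0).2 hv]
  unfold kap
  have := Real.pi_pos
  field_simp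

/-- smeared unit charge -/
noncomputable def sm (ε : ℝ) (c : X) (x : X) : ℝ := kap ε * chiAt c ε x

theorem sm_BC (ε : ℝ) (c : X) : BC (sm ε c) := (chiAt_BC c ε).const_mul _

theorem sm_nonneg {ε : ℝ} (hε : 0 < ε) (c x : X) : 0 ≤ sm ε c x :=
  mul_nonneg (kap_pos hε).le (chi_nonneg _ _)

theorem pot_sm (ε : ℝ) (c x : X) : pot (sm ε c) x = kap ε * pot (chi ε) (x - c) := by
  unfold sm
  rw [pot_const_mul, pot_chiAt]

/-- smeared nuclei -/
noncomputable def mpt (ε : ℝ) (z : ι → ℝ) (R : ι → X) (x : X) : ℝ := ∑ i, z i * sm ε (R i) x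

theorem mpt_BC (ε : ℝ) (z : ι → ℝ) (R : ι → X) : BC (mpt ε z R) :=
  BC.sum Finset.univ fun i _ => (sm_BC ε (R i)).const_mul _

/-- self energy of a smeared unit charge -/
noncomputable def selfE (ε : ℝ) : ℝ := En (sm ε 0) (sm ε 0)

theorem sm_translate (ε : ℝ) (c : X) : sm ε c = fun x => sm ε 0 (x + -c) := by
  funext x
  unfold sm chiAt
  rw [sub_zero, sub_eq_add_neg]

theorem En_translate (f g : X → ℝ) (v : X) :
    En (fun x => f (x + v)) (fun x => g (x + v)) = En f g := by
  unfold En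
  rw [← integral_add_right_eq_self (fun x => f x * pot g x) v]
  refine integral_congr_ae (Eventually.of_forall fun x => ?_)
  simp only
  rw [pot_translate]

theorem En_sm_self (ε : ℝ) (c : X) : En (sm ε c) (sm ε c) = selfE ε := by
  rw [sm_translate, En_translate (sm ε 0) (sm ε 0)]
  rfl

theorem En_sm_ne {ε : ℝ} (hε : 0 < ε) {c d : X} (h : 2 * ε ≤ ‖c - d‖) :
    En (sm ε c) (sm ε d) = ‖c - d‖⁻¹ := by
  have h1 : En (sm ε c) (sm ε d) = ∫ x, ‖d - x‖⁻¹ * sm ε c x := by
    unfold En
    refine integral_congr_ae (Eventually.of_forall fun x => ?_)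
    simp only
    by_cases hx : x ∈ ball c ε
    · have h2 : ε ≤ ‖x - d‖ := by
        rw [mem_ball, dist_eq_norm] at hx
        have h3 : ‖c - d‖ ≤ ‖x - d‖ + ‖x - c‖ := by
          have := norm_sub_le (x - d) (x - c)
          simpa using this
        linarith
      rw [pot_sm, kap_pot_eq hε h2, norm_sub_rev]
      ring
    · have h2 : sm ε c x = 0 := by
        unfold sm
        rw [chiAt_eq, indicator_of_notMem hx, mul_zero]
      rw [h2]
      ring
  rw [h1]
  change pot (sm ε c) d = _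
  rw [pot_sm, kap_pot_eq hε, norm_sub_rev]
  rw [norm_sub_rev]
  linarith

theorem En_mpt {ε : ℝ} (hε : 0 < ε) (z : ι → ℝ) {R : ι → X}
    (hR : ∀ i j, i ≠ j → 2 * ε ≤ ‖R i - R j‖) :
    1 / 2 * En (mpt ε z R) (mpt ε z R) = Unuc z R + 1 / 2 * ∑ i, z i ^ 2 * selfE ε := by
  classical
  have hb : ∀ i ∈ (Finset.univ : Finset ι), BC (fun x => z i * sm ε (R i) x) :=
    fun i _ => (sm_BC ε (R i)).const_mul _
  have h1 : En (mpt ε z R) (mpt ε z R) = ∑ i, ∑ j, z i * z j * En (sm ε (R i)) (sm ε (R j)) := by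
    unfold mpt
    rw [En_sum_left Finset.univ hb (BC.sum Finset.univ hb)]
    refine Finset.sum_congr rfl fun i _ => ?_
    rw [En_sum_right Finset.univ hb ((sm_BC ε (R i)).const_mul _)]
    refine Finset.sum_congr rfl fun j _ => ?_
    unfold En
    rw [← integral_const_mul]
    refine integral_congr_ae (Eventually.of_forall fun x => ?_)
    simp only
    rw [pot_const_mul]
    ring
  have h2 : ∀ i, ∑ j, z i * z j * En (sm ε (R i)) (sm ε (R j)) =
      (∑ j, z i * z j * ‖R i - R j‖⁻¹) + z i ^ 2 * selfE ε := by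
    intro i
    have h3 : ∀ j, z i * z j * En (sm ε (R i)) (sm ε (R j)) =
        z i * z j * ‖R i - R j‖⁻¹ + (if j = i then z i ^ 2 * selfE ε else 0) := by
      intro j
      by_cases hij : j = i
      · subst hij
        rw [En_sm_self, if_pos rfl, sub_self, norm_zero, inv_zero]
        ring
      · rw [En_sm_ne hε (hR i j (Ne.symm hij)), if_neg hij, add_zero]
    simp_rw [h3]
    rw [Finset.sum_add_distrib, Finset.sum_ite_eq' Finset.univ i]
    simp
  rw [h1]
  simp_rw [h2]
  rw [Finset.sum_add_distrib]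
  unfold Unuc
  ring

/-- pairing of a density with a smeared nucleus -/
noncomputable def pairS (ε : ℝ) (σ : X → ℝ) (c : X) : ℝ := ∫ x, σ x * pot (sm ε c) x

theorem pairS_int {ε : ℝ} {σ : X → ℝ} (hσ : TC σ) (c : X) :
    Integrable (fun x => σ x * pot (sm ε c) x) := by
  obtain ⟨B, hB⟩ := pot_bound (sm_BC ε c)
  have h1 : Integrable (fun x => pot (sm ε c) x * σ x) :=
    hσ.int.bdd_mul (pot_continuous (sm_BC ε c)).measurable.aestronglyMeasurable
      (Eventually.of_forall hB)
  exact h1.congr (Eventually.of_forall fun x => by ring)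

theorem pairS_le {ε : ℝ} (hε : 0 < ε) {σ : X → ℝ} (hσ : TC σ) (c : X) :
    pairS ε σ c ≤ pot σ c := by
  haveI := nontriv (V := X)
  have hne : ∀ᵐ x : X, x ≠ c := by rw [ae_iff]; simp
  unfold pairS
  change _ ≤ ∫ y, ‖c - y‖⁻¹ * σ y
  refine integral_mono_ae (pairS_int hσ c) (hσ.pot_integrable c) ?_
  filter_upwards [hne] with x hx
  rw [pot_sm, mul_comm, norm_sub_rev]
  exact mul_le_mul_of_nonneg_right (kap_pot_le hε (sub_ne_zero.mpr hx)) (hσ.nonneg x)

theorem pairS_tendsto {σ : X → ℝ} (hσ : TC σ) (c : X) :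
    Tendsto (fun ε => pairS ε σ c) (𝓝[>] 0) (𝓝 (pot σ c)) := by
  haveI := nontriv (V := X)
  have hne : ∀ᵐ x : X, x ≠ c := by rw [ae_iff]; simp
  unfold pairS
  change Tendsto _ _ (𝓝 (∫ y, ‖c - y‖⁻¹ * σ y))
  refine tendsto_integral_filter_of_dominated_convergence (fun x => ‖c - x‖⁻¹ * σ x)
    (Eventually.of_forall fun ε => (pairS_int hσ c).aestronglyMeasurable) ?_
    (hσ.pot_integrable c) ?_
  · filter_upwards [self_mem_nhdsWithin] with ε hε
    filter_upwards [hne] with x hx
    have hε' : 0 < ε := hε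
    have h1 : 0 ≤ pot (sm ε c) x := pot_nonneg (sm_nonneg hε' c) x
    rw [Real.norm_of_nonneg (mul_nonneg (hσ.nonneg x) h1), pot_sm, mul_comm, norm_sub_rev]
    exact mul_le_mul_of_nonneg_right (kap_pot_le hε' (sub_ne_zero.mpr hx)) (hσ.nonneg x)
  · filter_upwards [hne] with x hx
    have hx' : 0 < ‖x - c‖ := norm_pos_iff.mpr (sub_ne_zero.mpr hx)
    refine tendsto_const_nhds.congr' ?_
    have h1 : ∀ᶠ ε in 𝓝[>] (0 : ℝ), ε < ‖x - c‖ :=
      (gt_mem_nhds hx').filter_mono nhdsWithin_le_nhds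
    filter_upwards [self_mem_nhdsWithin, h1] with ε hε h2
    rw [pot_sm, kap_pot_eq hε h2.le, norm_sub_rev, mul_comm]

/-- relation between the smeared and the point functional -/
theorem Ef_mpt {ε : ℝ} (hε : 0 < ε) (z : ι → ℝ) {R : ι → X}
    (hR : ∀ i j, i ≠ j → 2 * ε ≤ ‖R i - R j‖) {σ : X → ℝ} (hσ : TC σ) (φ₀ : ℝ) :
    Ef φ₀ (mpt ε z R) σ = Ept φ₀ z R σ + 1 / 2 * (∑ i, z i ^ 2 * selfE ε) +
      ∑ i, z i * (pot σ (R i) - pairS ε σ (R i)) := by
  have h1 : ∫ x, σ x * pot (mpt ε z R) x = ∑ i, z i * pairS ε σ (R i) := by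
    have h2 : ∀ x, σ x * pot (mpt ε z R) x = ∑ i, z i * (σ x * pot (sm ε (R i)) x) := by
      intro x
      unfold mpt
      rw [pot_sum Finset.univ fun i _ => (sm_BC ε (R i)).const_mul _, Finset.mul_sum]
      refine Finset.sum_congr rfl fun i _ => ?_
      rw [pot_const_mul]
      ring
    simp_rw [h2]
    rw [integral_finsetSum _ fun i _ => (pairS_int hσ (R i)).const_mul _]
    refine Finset.sum_congr rfl fun i _ => ?_
    rw [integral_const_mul]
    rfl
  unfold Ef Ept
  rw [h1, En_mpt hε z hR]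
  simp_rw [mul_sub, Finset.sum_sub_distrib]
  ring

/-- Stretching the nuclear configuration in the first direction does not increase the energy. -/
theorem stretch {z : ι → ℝ} (hz : ∀ i, 0 ≤ z i) {R : ι → X} (hR : Function.Injective R)
    {b : ι → ℝ} (hb0 : ∀ i, 0 ≤ b i) (hmono : ∀ i j, (R i).fst ≤ (R j).fst → b i ≤ b j)
    {φ₀ : ℝ} (hφ : 0 < φ₀) {σ : X → ℝ} (hσ : TC σ) {η : ℝ} (hη : 0 < η) :
    ∃ σ' : X → ℝ, TC σ' ∧ Ept φ₀ z (fun i => R i + b i • e1) σ' ≤ Ept φ₀ z R σ + η := by
  classical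
  set R' : ι → X := fun i => R i + b i • e1 with hR'def
  have hfst' : ∀ i, (R' i).fst = (R i).fst + b i := fun i => by
    change (R i).fst + b i * 1 = _
    ring
  have hsnd' : ∀ i, (R' i).snd = (R i).snd := fun i => by
    change (R i).snd + b i • (0 : E2) = _
    simp
  have hR' : Function.Injective R' := by
    have key : ∀ i j, R' i = R' j → (R i).fst ≤ (R j).fst → i = j := by
      intro i j hij hle
      have h1 := hmono i j hle
      have h2 : (R' i).fst = (R' j).fst := by rw [hij]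
      have h3 : (R' i).snd = (R' j).snd := by rw [hij]
      rw [hfst', hfst'] at h2
      rw [hsnd', hsnd'] at h3
      have h4 : (R i).fst = (R j).fst := by linarith
      refine hR ?_
      rw [← mk_eta (R i), ← mk_eta (R j), h4, h3]
    intro i j hij
    rcases le_total (R i).fst (R j).fst with h | h
    · exact key i j hij h
    · exact (key j i hij.symm h).symm
  -- smallness conditions
  have c1 : ∀ᶠ ε in 𝓝[>] (0 : ℝ), ∀ i j, i ≠ j → 2 * ε ≤ ‖R i - R j‖ := by
    rw [eventually_all]; intro i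
    rw [eventually_all]; intro j
    by_cases hij : i = j
    · exact Eventually.of_forall fun ε h => absurd hij h
    · have hpos : 0 < ‖R i - R j‖ / 2 := by
        have : 0 < ‖R i - R j‖ := norm_pos_iff.mpr (sub_ne_zero.mpr fun h => hij (hR h))
        positivity
      filter_upwards [(gt_mem_nhds hpos).filter_mono nhdsWithin_le_nhds] with ε hε _
      linarith
  have c2 : ∀ᶠ ε in 𝓝[>] (0 : ℝ), ∀ i j, i ≠ j → 2 * ε ≤ ‖R' i - R' j‖ := by
    rw [eventually_all]; intro i
    rw [eventually_all]; intro j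
    by_cases hij : i = j
    · exact Eventually.of_forall fun ε h => absurd hij h
    · have hpos : 0 < ‖R' i - R' j‖ / 2 := by
        have : 0 < ‖R' i - R' j‖ := norm_pos_iff.mpr (sub_ne_zero.mpr fun h => hij (hR' h))
        positivity
      filter_upwards [(gt_mem_nhds hpos).filter_mono nhdsWithin_le_nhds] with ε hε _
      linarith
  have c3 : ∀ᶠ ε in 𝓝[>] (0 : ℝ), ∀ i j, b i < b j → (R i).fst + 2 * ε ≤ (R j).fst := by
    rw [eventually_all]; intro i
    rw [eventually_all]; intro j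
    by_cases hij : b i < b j
    · have hlt : (R i).fst < (R j).fst := by
        by_contra h
        push Not at h
        have := hmono j i h
        linarith
      have hpos : 0 < ((R j).fst - (R i).fst) / 2 := by linarith
      filter_upwards [(gt_mem_nhds hpos).filter_mono nhdsWithin_le_nhds] with ε hε _
      linarith
    · exact Eventually.of_forall fun ε h => absurd h hij
  have c4 : ∀ᶠ ε in 𝓝[>] (0 : ℝ), ∑ i, z i * (pot σ (R i) - pairS ε σ (R i)) < η := by
    have h1 : Tendsto (fun ε => ∑ i, z i * (pot σ (R i) - pairS ε σ (R i))) (𝓝[>] 0)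
        (𝓝 (∑ i, z i * (pot σ (R i) - pot σ (R i)))) :=
      tendsto_finsetSum _ fun i _ => (tendsto_const_nhds.sub (pairS_tendsto hσ (R i))).const_mul _
    have h2 : ∑ i, z i * (pot σ (R i) - pot σ (R i)) = 0 := by simp
    rw [h2] at h1
    exact h1.eventually (gt_mem_nhds hη)
  obtain ⟨ε, h1, h2, h3, h4, hε⟩ := (c1.and (c2.and (c3.and (c4.and self_mem_nhdsWithin)))).exists
  have hε' : 0 < ε := hε
  set m : ι → X → ℝ := fun i x => z i * sm ε (R i) x with hm
  have hmB : ∀ i, BC (m i) := fun i => (sm_BC ε (R i)).const_mul _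
  have hm0 : ∀ i x, 0 ≤ m i x := fun i x => mul_nonneg (hz i) (sm_nonneg hε' _ _)
  have hsupp : ∀ i (x : X), ε ≤ |x.fst - (R i).fst| → m i x = 0 := by
    intro i x hx
    have h5 : x ∉ ball (R i) ε := by
      rw [mem_ball, dist_eq_norm]
      have := abs_fst_le (x - R i)
      have h6 : (x - R i).fst = x.fst - (R i).fst := rfl
      rw [h6] at this
      linarith
    simp only [hm]
    unfold sm
    rw [chiAt_eq, indicator_of_notMem h5]
    ring
  obtain ⟨ρ1, hρB, hρ0, hρ⟩ := path_antitone hmB hm0 hsupp hb0 h3 hφ zero_le_one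
  have e0 : MS m b 0 = mpt ε z R := by
    funext x
    rw [MS_zero]
    rfl
  have e1' : MS m b 1 = mpt ε z R' := by
    funext x
    unfold MS mpt
    refine Finset.sum_congr rfl fun i _ => ?_
    simp only [hm]
    unfold sm chiAt
    congr 3
    rw [hR'def]
    simp only
    rw [one_mul, neg_smul]
    abel
  have h5 := hρ σ hσ
  rw [e0, e1', Ef_mpt hε' z h1 hσ, Ef_mpt hε' z h2 (hρB.toTC hρ0)] at h5
  refine ⟨ρ1, hρB.toTC hρ0, ?_⟩
  have h6 : 0 ≤ ∑ i, z i * (pot ρ1 (R' i) - pairS ε ρ1 (R' i)) :=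
    Finset.sum_nonneg fun i _ => mul_nonneg (hz i)
      (sub_nonneg.mpr (pairS_le hε' (hρB.toTC hρ0) (R' i)))
  linarith

end Pool.Agent.TF

end

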