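import Mathlib

/-! Thomas-Fermi molecules: the definitions of the problem. -/

set_option autoImplicit false

namespace Pool.Agent.Lib.MP_9cf0c9_mp

open MeasureTheory Set

/-- three dimensional Euclidean space -/
abbrev E3 : Type := EuclideanSpace ℝ (Fin 3)

/-- admissible densities: measurable, nonnegative, with finite integrals of `ρ` and `ρ ^ (5/3)` -/
structure IsDensity (ρ : E3 → ℝ) : Prop where
  meas : Measurable ρ
  nonneg : ∀ x, 0 ≤ ρ x
  integrable : Integrable ρ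
  integrable53 : Integrable (fun x => ρ x ^ (5 / 3 : ℝ))

/-- the nuclear potential `V` -/
noncomputable def V {k : ℕ} (z : Fin k → ℝ) (R : Fin k → E3) (x : E3) : ℝ :=
  ∑ j, z j / ‖x - R j‖

/-- the nuclear repulsion `U` -/
noncomputable def U {k : ℕ} (z : Fin k → ℝ) (R : Fin k → E3) : ℝ :=
  ∑ i, ∑ j, if i < j then z i * z j / ‖R i - R j‖ else 0

/-- the Thomas-Fermi functional `ξ` -/
noncomputable def xi {k : ℕ} (z : Fin k → ℝ) (R : Fin k → E3) (ρ : E3 → ℝ) : ℝ :=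
  3 / 5 * (∫ x, ρ x ^ (5 / 3 : ℝ)) - (∫ x, V z R x * ρ x) +
    1 / 2 * (∫ x, ∫ y, ρ x * ρ y / ‖x - y‖) + U z R

/-- the energy `e` with `lam` electrons -/
noncomputable def energy {k : ℕ} (z : Fin k → ℝ) (R : Fin k → E3) (lam : ℝ) : ℝ :=
  sInf {t | ∃ ρ : E3 → ℝ, IsDensity ρ ∧ ∫ x, ρ x = lam ∧ xi z R ρ = t}

/-- the energy `e(lam, l)` of the dilated molecule -/
noncomputable def dilated {k : ℕ} (z : Fin k → ℝ) (R : Fin k → E3) (lam l : ℝ) : ℝ :=
  energy z (fun j => l • R j) lam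

/-- the pressure `P = -(3 l^2)⁻¹ ∂e/∂l` -/
noncomputable def pressure {k : ℕ} (z : Fin k → ℝ) (R : Fin k → E3) (lam l : ℝ) : ℝ :=
  -(1 / (3 * l ^ 2)) * deriv (dilated z R lam) l

end Pool.Agent.Lib.MP_9cf0c9_mp
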