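import Mathlib
import Pool.Agent.Lib.MP_9cf0c9_mp.Tr.Mol
import Pool.Agent.Lib.MP_9cf0c9_mp.Tr.BaseB

section
/-! Transfer to a general three dimensional space and dilations. -/

set_option linter.unusedSectionVars false

set_option linter.unusedVariables false

set_option linter.style.haveILetI false

namespace Pool.Agent.TF

open MeasureTheory Set Metric Filter Topology

open scoped ENNReal NNReal RealInnerProductSpace

variable {V : Type*} [NormedAddCommGroup V] [InnerProductSpace ℝ V] [FiniteDimensional ℝ V]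
  [MeasurableSpace V] [BorelSpace V]

variable {W : Type*} [NormedAddCommGroup W] [InnerProductSpace ℝ W] [FiniteDimensional ℝ W]
  [MeasurableSpace W] [BorelSpace W]

variable {ι : Type*} [Fintype ι]

/-! ### invariance -/

theorem pot_push (L : V ≃ₗᵢ[ℝ] W) (σ : V → ℝ) (x : V) :
    pot (fun y => σ (L.symm y)) (L x) = pot σ x := by
  unfold pot
  rw [← L.measurePreserving.integral_comp L.toMeasurableEquiv.measurableEmbedding
    (fun y => ‖L x - y‖⁻¹ * σ (L.symm y))]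
  refine integral_congr_ae (Eventually.of_forall fun y => ?_)
  simp only
  rw [← map_sub, L.norm_map, L.symm_apply_apply]

theorem integral_push (L : V ≃ₗᵢ[ℝ] W) (F : V → ℝ) : ∫ y, F (L.symm y) = ∫ x, F x := by
  rw [← L.measurePreserving.integral_comp L.toMeasurableEquiv.measurableEmbedding
    (fun y => F (L.symm y))]
  simp only [L.symm_apply_apply]

theorem En_push (L : V ≃ₗᵢ[ℝ] W) (σ τ : V → ℝ) :
    En (fun y => σ (L.symm y)) (fun y => τ (L.symm y)) = En σ τ := by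
  unfold En
  rw [← L.measurePreserving.integral_comp L.toMeasurableEquiv.measurableEmbedding
    (fun y => σ (L.symm y) * pot (fun y => τ (L.symm y)) y)]
  simp only [L.symm_apply_apply, pot_push]

theorem Ept_push (L : V ≃ₗᵢ[ℝ] W) (φ₀ : ℝ) (z : ι → ℝ) (R : ι → V) (σ : V → ℝ) :
    Ept φ₀ z (fun i => L (R i)) (fun y => σ (L.symm y)) = Ept φ₀ z R σ := by
  unfold Ept Unuc
  rw [En_push, integral_push L (fun x => σ x ^ (5 / 3 : ℝ)), integral_push L σ]
  simp only [pot_push, ← map_sub, L.norm_map]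

theorem TC.push (L : V ≃ₗᵢ[ℝ] W) {σ : V → ℝ} (hσ : TC σ) : TC (fun y => σ (L.symm y)) := by
  refine ⟨hσ.meas.comp L.symm.continuous.measurable, fun y => hσ.nonneg _, ?_, ?_⟩
  · exact L.symm.measurePreserving.integrable_comp_of_integrable hσ.int
  · exact L.symm.measurePreserving.integrable_comp_of_integrable hσ.int53

theorem pot_translateV (σ : V → ℝ) (v x : V) :
    pot (fun y => σ (y - v)) (x + v) = pot σ x := by
  unfold pot
  rw [← integral_sub_right_eq_self (fun y => ‖x - y‖⁻¹ * σ y) v]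
  refine integral_congr_ae (Eventually.of_forall fun y => ?_)
  simp only
  congr 3
  abel

theorem Ept_translate (φ₀ : ℝ) (z : ι → ℝ) (R : ι → V) (σ : V → ℝ) (v : V) :
    Ept φ₀ z (fun i => R i + v) (fun y => σ (y - v)) = Ept φ₀ z R σ := by
  have hE : En (fun y => σ (y - v)) (fun y => σ (y - v)) = En σ σ := by
    unfold En
    rw [← integral_sub_right_eq_self (fun x => σ x * pot σ x) v]
    refine integral_congr_ae (Eventually.of_forall fun y => ?_)
    simp only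
    have := pot_translateV σ v (y - v)
    rw [sub_add_cancel] at this
    rw [this]
  unfold Ept Unuc
  rw [hE, integral_sub_right_eq_self (fun x => σ x ^ (5 / 3 : ℝ)) v,
    integral_sub_right_eq_self (fun x => σ x) v]
  simp only [pot_translateV, add_sub_add_right_eq_sub]

theorem TC.translate {σ : V → ℝ} (hσ : TC σ) (v : V) : TC (fun y => σ (y - v)) :=
  ⟨hσ.meas.comp (measurable_id.sub_const v), fun y => hσ.nonneg _, hσ.int.comp_sub_right v,
    hσ.int53.comp_sub_right v⟩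

section dim3

variable [hd : Fact (Module.finrank ℝ V = 3)]

theorem exists_isom_X {u : V} (hu : ‖u‖ = 1) : ∃ L : V ≃ₗᵢ[ℝ] X, L u = e1 := by
  have hX : Module.finrank ℝ X = 3 := Fact.out
  have hV : Module.finrank ℝ V = 3 := hd.out
  have b1 : OrthonormalBasis (Fin 3) ℝ V := (stdOrthonormalBasis ℝ V).reindex (finCongr hV)
  have b2 : OrthonormalBasis (Fin 3) ℝ X := (stdOrthonormalBasis ℝ X).reindex (finCongr hX)
  have L0 : V ≃ₗᵢ[ℝ] X := b1.repr.trans b2.repr.symm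
  have he : ‖e1‖ = 1 := by
    have h : ‖e1‖ ^ 2 = 1 := by
      unfold e1; rw [norm_mk_sq]; simp
    nlinarith [norm_nonneg e1]
  obtain ⟨M, hM⟩ := exists_isom (v := L0 u) (w := e1) (by rw [L0.norm_map, hu, he])
  exact ⟨L0.trans M, hM⟩

/-- stretching along a unit vector -/
theorem stretchV {z : ι → ℝ} (hz : ∀ i, 0 ≤ z i) {R : ι → V} (hR : Function.Injective R)
    {u : V} (hu : ‖u‖ = 1) {b : ι → ℝ}
    (hmono : ∀ i j, ⟪R i, u⟫ ≤ ⟪R j, u⟫ → b i ≤ b j)
    {φ₀ : ℝ} (hφ : 0 < φ₀) {σ : V → ℝ} (hσ : TC σ) {η : ℝ} (hη : 0 < η) :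
    ∃ σ' : V → ℝ, TC σ' ∧ Ept φ₀ z (fun i => R i + b i • u) σ' ≤ Ept φ₀ z R σ + η := by
  by_cases hne : Nonempty ι
  · obtain ⟨i0, -, hi0⟩ := Finset.exists_min_image (Finset.univ : Finset ι) b Finset.univ_nonempty
    obtain ⟨L, hL⟩ := exists_isom_X hu
    have hfst : ∀ x : V, (L x).fst = ⟪x, u⟫ := by
      intro x
      rw [← inner_e1, ← hL, L.inner_map_map]
    obtain ⟨σ1, hσ1, h1⟩ := stretch hz (R := fun i => L (R i))
      (fun i j hij => hR (L.injective hij)) (b := fun i => b i - b i0)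
      (fun i => sub_nonneg.mpr (hi0 i (Finset.mem_univ i)))
      (fun i j hij => by
        rw [hfst, hfst] at hij
        have := hmono i j hij
        linarith) hφ (hσ.push L) hη
    rw [Ept_push] at h1
    have h2 : (fun i => L (R i) + (b i - b i0) • e1) = fun i => L (R i + (b i - b i0) • u) := by
      funext i
      rw [map_add, map_smul, hL]
    have hσ2 : TC (fun x => σ1 (L x)) := by
      have := hσ1.push L.symm
      simpa using this
    have h3 : Ept φ₀ z (fun i => L (R i + (b i - b i0) • u)) σ1 =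
        Ept φ₀ z (fun i => R i + (b i - b i0) • u) (fun x => σ1 (L x)) := by
      have h := Ept_push L φ₀ z (fun i => R i + (b i - b i0) • u) (fun x => σ1 (L x))
      simp only [L.apply_symm_apply] at h
      exact h
    rw [h2, h3] at h1
    refine ⟨fun y => σ1 (L (y - (b i0) • u)), hσ2.translate _, ?_⟩
    have h4 := Ept_translate φ₀ z (fun i => R i + (b i - b i0) • u) (fun x => σ1 (L x)) (b i0 • u)
    have h5 : (fun i => R i + (b i - b i0) • u + b i0 • u) = fun i => R i + b i • u := by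
      funext i
      rw [add_assoc, ← add_smul, sub_add_cancel]
    rw [h5] at h4
    rw [h4]
    exact h1
  · rw [not_nonempty_iff] at hne
    refine ⟨σ, hσ, ?_⟩
    have : (fun i => R i + b i • u) = R := by funext i; exact (hne.false i).elim
    rw [this]
    linarith

/-- stretching along the axes of an orthonormal basis -/
theorem stretch_basis {z : ι → ℝ} (hz : ∀ i, 0 ≤ z i) {R : ι → V} (hR : Function.Injective R)
    {κ : Type*} [Fintype κ] (v : OrthonormalBasis κ ℝ V) {c : κ → ℝ} (hc : ∀ k, 0 ≤ c k)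
    {φ₀ : ℝ} (hφ : 0 < φ₀) {σ : V → ℝ} (hσ : TC σ) {η : ℝ} (hη : 0 < η) (s : Finset κ) :
    ∃ σ' : V → ℝ, TC σ' ∧ Ept φ₀ z (fun i => R i + ∑ k ∈ s, (c k * ⟪R i, v k⟫) • v k) σ' ≤
      Ept φ₀ z R σ + η := by
  classical
  induction s using Finset.induction_on generalizing η with
  | empty =>
    refine ⟨σ, hσ, ?_⟩
    simp only [Finset.sum_empty, add_zero]
    linarith
  | insert a s ha ih =>
    obtain ⟨σ1, hσ1, h1⟩ := ih (half_pos hη)
    set R1 : ι → V := fun i => R i + ∑ k ∈ s, (c k * ⟪R i, v k⟫) • v k with hR1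
    have hin : ∀ i l, ⟪R1 i, v l⟫ = ⟪R i, v l⟫ + (if l ∈ s then c l * ⟪R i, v l⟫ else 0) := by
      intro i l
      simp only [hR1]
      rw [inner_add_left, sum_inner]
      congr 1
      have : ∀ k ∈ s, ⟪(c k * ⟪R i, v k⟫) • v k, v l⟫ =
          if k = l then c l * ⟪R i, v l⟫ else 0 := by
        intro k _
        rw [real_inner_smul_left, v.inner_eq_ite]
        split_ifs with h
        · rw [h, mul_one]
        · rw [mul_zero]
      rw [Finset.sum_congr rfl this, Finset.sum_ite_eq' s l]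
    have hR1inj : Function.Injective R1 := by
      intro i j hij
      refine hR ?_
      refine v.repr.injective ?_
      ext l
      rw [v.repr_apply_apply, v.repr_apply_apply, real_inner_comm, real_inner_comm (R j)]
      have h2 : ⟪R1 i, v l⟫ = ⟪R1 j, v l⟫ := by rw [hij]
      rw [hin, hin] at h2
      split_ifs at h2 with h
      · have h3 : (1 + c l) * ⟪R i, v l⟫ = (1 + c l) * ⟪R j, v l⟫ := by linarith
        exact mul_left_cancel₀ (by have := hc l; positivity) h3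
      · linarith
    obtain ⟨σ2, hσ2, h2⟩ := stretchV hz hR1inj (u := v a) (v.norm_eq_one a)
      (b := fun i => c a * ⟪R i, v a⟫) (fun i j hij => by
        rw [hin, hin, if_neg ha, if_neg ha, add_zero, add_zero] at hij
        exact mul_le_mul_of_nonneg_left hij (hc a)) hφ hσ1 (half_pos hη)
    refine ⟨σ2, hσ2, ?_⟩
    have h3 : (fun i => R i + ∑ k ∈ insert a s, (c k * ⟪R i, v k⟫) • v k) =
        fun i => R1 i + (c a * ⟪R i, v a⟫) • v a := by
      funext i
      simp only [hR1]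
      rw [Finset.sum_insert ha]
      abel
    rw [h3]
    linarith

/-- dilation -/
theorem dilate {z : ι → ℝ} (hz : ∀ i, 0 ≤ z i) {R : ι → V} (hR : Function.Injective R)
    {θ : ℝ} (hθ : 1 ≤ θ)
    {φ₀ : ℝ} (hφ : 0 < φ₀) {σ : V → ℝ} (hσ : TC σ) {η : ℝ} (hη : 0 < η) :
    ∃ σ' : V → ℝ, TC σ' ∧ Ept φ₀ z (fun i => θ • R i) σ' ≤ Ept φ₀ z R σ + η := by
  obtain ⟨σ', hσ', h⟩ := stretch_basis hz hR (stdOrthonormalBasis ℝ V) (c := fun _ => θ - 1)
    (fun _ => by linarith) hφ hσ hη Finset.univ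
  refine ⟨σ', hσ', ?_⟩
  have h1 : (fun i => R i + ∑ k, ((θ - 1) * ⟪R i, stdOrthonormalBasis ℝ V k⟫) •
      stdOrthonormalBasis ℝ V k) = fun i => θ • R i := by
    funext i
    have h2 := (stdOrthonormalBasis ℝ V).sum_repr' (R i)
    have h3 : ∑ k, ((θ - 1) * ⟪R i, stdOrthonormalBasis ℝ V k⟫) • stdOrthonormalBasis ℝ V k =
        (θ - 1) • R i := by
      nth_rewrite 2 [← h2]
      rw [Finset.smul_sum]
      refine Finset.sum_congr rfl fun k _ => ?_
      rw [smul_smul, real_inner_comm]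
    rw [h3, sub_smul, one_smul]
    abel
  rw [h1] at h
  exact h

end dim3

end Pool.Agent.TF

end

section
/-! Energy at fixed mass: convexity, boundedness and monotonicity under dilation. -/

set_option linter.unusedSectionVars false

set_option linter.unusedVariables false

set_option linter.style.haveILetI false

namespace Pool.Agent.TF

open MeasureTheory Set Metric Filter Topology

open scoped ENNReal NNReal RealInnerProductSpace

/-! ### convex functions on the half line -/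

theorem exists_slope {f : ℝ → ℝ} (hf : ConvexOn ℝ (Ici 0) f) {C : ℝ}
    (hC : ∀ y, 0 ≤ y → f y ≤ C) {l : ℝ} (hl : 0 < l) :
    ∃ p, 0 ≤ p ∧ ∀ y, 0 ≤ y → f l - p * (y - l) ≤ f y := by
  set A : Set ℝ := {t | ∃ x, 0 ≤ x ∧ x < l ∧ t = (f l - f x) / (l - x)} with hA
  have hne : A.Nonempty := ⟨_, 0, le_rfl, hl, rfl⟩
  have hub : ∀ y, l < y → ∀ t ∈ A, t ≤ (f y - f l) / (y - l) := by
    rintro y hy t ⟨x, hx0, hxl, rfl⟩
    exact hf.slope_mono_adjacent hx0 (hl.le.trans hy.le) hxl hy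
  have hbdd : BddAbove A := ⟨_, hub (l + 1) (by linarith)⟩
  set m := sSup A with hm
  have h1 : ∀ y, l < y → f l + m * (y - l) ≤ f y := by
    intro y hy
    have h2 : m ≤ (f y - f l) / (y - l) := csSup_le hne (hub y hy)
    have h3 : 0 < y - l := by linarith
    rw [le_div_iff₀ h3] at h2
    linarith
  have h2 : ∀ x, 0 ≤ x → x < l → f l + m * (x - l) ≤ f x := by
    intro x hx hxl
    have h3 : (f l - f x) / (l - x) ≤ m := le_csSup hbdd ⟨x, hx, hxl, rfl⟩
    have h4 : 0 < l - x := by linarith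
    rw [div_le_iff₀ h4] at h3
    linarith
  have hm0 : m ≤ 0 := by
    by_contra hcon
    push Not at hcon
    have hCl := hC l hl.le
    have h3 := h1 (l + (C - f l + 1) / m) (by
      have : 0 < (C - f l + 1) / m := div_pos (by linarith) hcon
      linarith)
    have h4 := hC (l + (C - f l + 1) / m) (by
      have : 0 < (C - f l + 1) / m := div_pos (by linarith) hcon
      linarith)
    have h5 : m * (l + (C - f l + 1) / m - l) = C - f l + 1 := by
      field_simp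
      ring
    linarith
  refine ⟨-m, by linarith, fun y hy => ?_⟩
  rcases lt_trichotomy y l with h | h | h
  · have := h2 y hy h; linarith
  · subst h; simp
  · have := h1 y h; linarith

variable {V : Type*} [NormedAddCommGroup V] [InnerProductSpace ℝ V] [FiniteDimensional ℝ V]
  [MeasurableSpace V] [BorelSpace V]

variable {ι : Type*} [Fintype ι]

section dim3

variable [hd : Fact (Module.finrank ℝ V = 3)]

/-! ### a lower bound of the functional -/

theorem tc_pointwise' {a : ℝ} (ha : 0 < a) {s : ℝ} (hs : 0 ≤ s) (v : V) :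
    ‖v‖⁻¹ * s ≤ s + (3 / 5 * a ^ (5 / 3 : ℝ) * s ^ (5 / 3 : ℝ) +
      2 / 5 * (a ^ (5 / 2 : ℝ))⁻¹ * wt v) := by
  have h53 : 0 ≤ s ^ (5 / 3 : ℝ) := Real.rpow_nonneg hs _
  have ha53 : 0 ≤ a ^ (5 / 3 : ℝ) := Real.rpow_nonneg ha.le _
  by_cases hv : v ∈ ball (0 : V) 1
  · have h1 : wt v = (‖v‖⁻¹) ^ (5 / 2 : ℝ) := indicator_of_mem hv _
    have h2 := young_tf (‖v‖⁻¹ / a) (mul_nonneg ha.le hs)
    rw [Phi_eq_rpow (by positivity), Real.mul_rpow ha.le hs,
      Real.div_rpow (by positivity) ha.le] at h2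
    have h3 : ‖v‖⁻¹ / a * (a * s) = ‖v‖⁻¹ * s := by field_simp
    rw [h3] at h2
    rw [h1]
    have h4 : 2 / 5 * (a ^ (5 / 2 : ℝ))⁻¹ * ‖v‖⁻¹ ^ (5 / 2 : ℝ) =
        2 / 5 * (‖v‖⁻¹ ^ (5 / 2 : ℝ) / a ^ (5 / 2 : ℝ)) := by ring
    rw [h4]
    linarith
  · have h1 : wt v = 0 := indicator_of_notMem hv _
    have h2 : 1 ≤ ‖v‖ := by simpa using hv
    have h3 : ‖v‖⁻¹ ≤ 1 := inv_le_one_of_one_le₀ h2
    have h4 : ‖v‖⁻¹ * s ≤ 1 * s := mul_le_mul_of_nonneg_right h3 hs
    rw [h1]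
    have : 0 ≤ 3 / 5 * a ^ (5 / 3 : ℝ) * s ^ (5 / 3 : ℝ) := by positivity
    linarith

theorem TC.pot_le' {a : ℝ} (ha : 0 < a) {f : V → ℝ} (hf : TC f) (x : V) :
    pot f x ≤ (∫ y, f y) + (3 / 5 * a ^ (5 / 3 : ℝ) * (∫ y, f y ^ (5 / 3 : ℝ)) +
      2 / 5 * (a ^ (5 / 2 : ℝ))⁻¹ * ∫ v, wt (v : V)) := by
  unfold pot
  have hI : Integrable (fun y => f y + (3 / 5 * a ^ (5 / 3 : ℝ) * f y ^ (5 / 3 : ℝ) +
      2 / 5 * (a ^ (5 / 2 : ℝ))⁻¹ * wt (x - y))) :=
    hf.int.add ((hf.int53.const_mul _).add ((wt_integrable.comp_sub_left x).const_mul _))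
  have h1 : ∫ y, (f y + (3 / 5 * a ^ (5 / 3 : ℝ) * f y ^ (5 / 3 : ℝ) +
      2 / 5 * (a ^ (5 / 2 : ℝ))⁻¹ * wt (x - y))) =
      (∫ y, f y) + (3 / 5 * a ^ (5 / 3 : ℝ) * (∫ y, f y ^ (5 / 3 : ℝ)) +
        2 / 5 * (a ^ (5 / 2 : ℝ))⁻¹ * ∫ v, wt (v : V)) := by
    rw [integral_add2 hf.int (hf.int53.const_mul _)
      ((wt_integrable.comp_sub_left x).const_mul _), integral_const_mul, integral_const_mul,
      integral_sub_left_eq_self (fun v : V => wt v) volume x]
  rw [← h1]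
  refine integral_mono (hf.pot_integrable x) hI fun y => ?_
  exact tc_pointwise' ha (hf.nonneg y) (x - y)

theorem Unuc_nonneg {z : ι → ℝ} (hz : ∀ i, 0 ≤ z i) (R : ι → V) : 0 ≤ Unuc z R := by
  unfold Unuc
  have : 0 ≤ ∑ i, ∑ j, z i * z j * ‖R i - R j‖⁻¹ :=
    Finset.sum_nonneg fun i _ => Finset.sum_nonneg fun j _ =>
      mul_nonneg (mul_nonneg (hz i) (hz j)) (by positivity)
  linarith

theorem TC.En_nonneg {f g : V → ℝ} (hf : TC f) (hg : TC g) : 0 ≤ En f g :=
  integral_nonneg fun x => mul_nonneg (hf.nonneg x) (pot_nonneg hg.nonneg x)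

theorem Ept_lower {z : ι → ℝ} (hz : ∀ i, 0 ≤ z i) (R : ι → V) :
    ∃ C : ℝ, ∀ σ : V → ℝ, TC σ → -((∑ i, z i) * ∫ x, σ x) - C ≤ Ept 0 z R σ := by
  set Z : ℝ := ∑ i, z i with hZ
  have hZ0 : 0 ≤ Z := Finset.sum_nonneg fun i _ => hz i
  set a : ℝ := (1 / (Z + 1)) ^ (3 / 5 : ℝ) with ha
  have ha0 : 0 < a := Real.rpow_pos_of_pos (by positivity) _
  have ha53 : a ^ (5 / 3 : ℝ) = 1 / (Z + 1) := by
    rw [ha, ← Real.rpow_mul (by positivity)]
    norm_num
  set B : ℝ := 2 / 5 * (a ^ (5 / 2 : ℝ))⁻¹ * ∫ v, wt (v : V) with hB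
  refine ⟨Z * B, fun σ hσ => ?_⟩
  set T : ℝ := ∫ x, σ x ^ (5 / 3 : ℝ) with hT
  have hT0 : 0 ≤ T := integral_nonneg fun x => Real.rpow_nonneg (hσ.nonneg x) _
  have h1 : ∑ i, z i * pot σ (R i) ≤ ∑ i, z i * ((∫ y, σ y) + (3 / 5 * (1 / (Z + 1)) * T + B)) := by
    refine Finset.sum_le_sum fun i _ => mul_le_mul_of_nonneg_left ?_ (hz i)
    have := hσ.pot_le' ha0 (R i)
    rw [ha53] at this
    exact this
  rw [← Finset.sum_mul, ← hZ] at h1
  have h2 : Z * (1 / (Z + 1)) ≤ 1 := by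
    rw [mul_one_div, div_le_one (by linarith)]
    linarith
  have h3 : Z * (3 / 5 * (1 / (Z + 1)) * T) ≤ 3 / 5 * T := by
    have : Z * (3 / 5 * (1 / (Z + 1)) * T) = 3 / 5 * (Z * (1 / (Z + 1))) * T := by ring
    rw [this]
    have h4 : 3 / 5 * (Z * (1 / (Z + 1))) ≤ 3 / 5 := by linarith
    exact mul_le_mul_of_nonneg_right h4 hT0
  have h5 := Unuc_nonneg hz R
  have h6 := hσ.En_nonneg hσ
  unfold Ept
  rw [← hT]
  have h7 : Z * ((∫ y, σ y) + (3 / 5 * (1 / (Z + 1)) * T + B)) =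
      Z * (∫ y, σ y) + Z * (3 / 5 * (1 / (Z + 1)) * T) + Z * B := by ring
  rw [h7] at h1
  linarith

/-! ### convexity -/

theorem TC.comb {σ τ : V → ℝ} (hσ : TC σ) (hτ : TC τ) {a b : ℝ} (ha : 0 ≤ a) (hb : 0 ≤ b)
    (hab : a + b = 1) :
    TC (fun x => a * σ x + b * τ x) ∧
      ∫ x, (a * σ x + b * τ x) ^ (5 / 3 : ℝ) ≤
        a * (∫ x, σ x ^ (5 / 3 : ℝ)) + b * (∫ x, τ x ^ (5 / 3 : ℝ)) := by
  have hconv := convexOn_rpow (p := 5 / 3) (by norm_num)
  have hpt : ∀ x, (a * σ x + b * τ x) ^ (5 / 3 : ℝ) ≤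
      a * σ x ^ (5 / 3 : ℝ) + b * τ x ^ (5 / 3 : ℝ) := fun x =>
    hconv.2 (hσ.nonneg x) (hτ.nonneg x) ha hb hab
  have hI : Integrable (fun x => a * σ x ^ (5 / 3 : ℝ) + b * τ x ^ (5 / 3 : ℝ)) :=
    (hσ.int53.const_mul a).add (hτ.int53.const_mul b)
  have hm : Measurable (fun x => a * σ x + b * τ x) :=
    (hσ.meas.const_mul a).add (hτ.meas.const_mul b)
  have hnn : ∀ x, 0 ≤ a * σ x + b * τ x := fun x =>
    add_nonneg (mul_nonneg ha (hσ.nonneg x)) (mul_nonneg hb (hτ.nonneg x))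
  have hI2 : Integrable (fun x => (a * σ x + b * τ x) ^ (5 / 3 : ℝ)) := by
    refine hI.mono' (hm.pow_const _).aestronglyMeasurable (Eventually.of_forall fun x => ?_)
    rw [Real.norm_of_nonneg (Real.rpow_nonneg (hnn x) _)]
    exact hpt x
  refine ⟨⟨hm, hnn, (hσ.int.const_mul a).add (hτ.int.const_mul b), hI2⟩, ?_⟩
  have h := integral_mono hI2 hI hpt
  rw [integral_add (hσ.int53.const_mul a) (hτ.int53.const_mul b), integral_const_mul,
    integral_const_mul] at h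
  exact h

theorem TC.pot_comb {σ τ : V → ℝ} (hσ : TC σ) (hτ : TC τ) (a b : ℝ) (x : V) :
    pot (fun y => a * σ y + b * τ y) x = a * pot σ x + b * pot τ x := by
  unfold pot
  rw [← integral_const_mul, ← integral_const_mul, ← integral_add
    ((hσ.pot_integrable x).const_mul a) ((hτ.pot_integrable x).const_mul b)]
  refine integral_congr_ae (Eventually.of_forall fun y => ?_)
  simp only
  ring

theorem TC.En_comb {σ τ : V → ℝ} (hσ : TC σ) (hτ : TC τ) {a b : ℝ} (ha : 0 ≤ a) (hb : 0 ≤ b)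
    (hab : a + b = 1) :
    En (fun x => a * σ x + b * τ x) (fun x => a * σ x + b * τ x) ≤ a * En σ σ + b * En τ τ := by
  have h1 : En (fun x => a * σ x + b * τ x) (fun x => a * σ x + b * τ x) =
      a ^ 2 * En σ σ + 2 * (a * b) * En σ τ + b ^ 2 * En τ τ := by
    have e1 : ∀ x, (a * σ x + b * τ x) * pot (fun x => a * σ x + b * τ x) x =
        a ^ 2 * (σ x * pot σ x) + a * b * (σ x * pot τ x) + a * b * (τ x * pot σ x) +
          b ^ 2 * (τ x * pot τ x) := by
      intro x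
      rw [hσ.pot_comb hτ]
      ring
    have i1 := (hσ.En_integrable hσ).const_mul (a ^ 2)
    have i2 := (hσ.En_integrable hτ).const_mul (a * b)
    have i3 := (hτ.En_integrable hσ).const_mul (a * b)
    have i4 := (hτ.En_integrable hτ).const_mul (b ^ 2)
    have hs := hτ.En_symm hσ
    have i12 : Integrable (fun x => a ^ 2 * (σ x * pot σ x) + a * b * (σ x * pot τ x)) := i1.add i2
    have i123 : Integrable (fun x => a ^ 2 * (σ x * pot σ x) + a * b * (σ x * pot τ x) +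
      a * b * (τ x * pot σ x)) := i12.add i3
    unfold En
    simp_rw [e1]
    rw [integral_add i123 i4, integral_add i12 i3, integral_add i1 i2, integral_const_mul,
      integral_const_mul, integral_const_mul, integral_const_mul]
    unfold En at hs
    rw [hs]
    ring
  have h2 := hσ.psd hτ
  have h3 : a * b * (2 * En σ τ) ≤ a * b * (En σ σ + En τ τ) :=
    mul_le_mul_of_nonneg_left h2 (mul_nonneg ha hb)
  rw [h1]
  have hb' : b = 1 - a := by linarith
  subst hb'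
  nlinarith

theorem Ept_comb (z : ι → ℝ) (R : ι → V) {σ τ : V → ℝ} (hσ : TC σ) (hτ : TC τ) {a b : ℝ}
    (ha : 0 ≤ a) (hb : 0 ≤ b) (hab : a + b = 1) :
    Ept 0 z R (fun x => a * σ x + b * τ x) ≤ a * Ept 0 z R σ + b * Ept 0 z R τ := by
  have h1 := (hσ.comb hτ ha hb hab).2
  have h2 := hσ.En_comb hτ ha hb hab
  have h3 : ∑ i, z i * pot (fun x => a * σ x + b * τ x) (R i) =
      a * (∑ i, z i * pot σ (R i)) + b * (∑ i, z i * pot τ (R i)) := by
    rw [Finset.mul_sum, Finset.mul_sum, ← Finset.sum_add_distrib]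
    refine Finset.sum_congr rfl fun i _ => ?_
    rw [hσ.pot_comb hτ]
    ring
  unfold Ept
  rw [h3]
  have hU : Unuc z R = a * Unuc z R + b * Unuc z R := by rw [← add_mul, hab, one_mul]
  have e1 : a * (3 / 5 * (∫ x, σ x ^ (5 / 3 : ℝ)) + 0 * (∫ x, σ x) - (∑ i, z i * pot σ (R i)) +
      1 / 2 * En σ σ + Unuc z R) + b * (3 / 5 * (∫ x, τ x ^ (5 / 3 : ℝ)) + 0 * (∫ x, τ x) -
      (∑ i, z i * pot τ (R i)) + 1 / 2 * En τ τ + Unuc z R) =
      3 / 5 * (a * (∫ x, σ x ^ (5 / 3 : ℝ)) + b * (∫ x, τ x ^ (5 / 3 : ℝ))) -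
      (a * (∑ i, z i * pot σ (R i)) + b * (∑ i, z i * pot τ (R i))) +
      1 / 2 * (a * En σ σ + b * En τ τ) + (a * Unuc z R + b * Unuc z R) := by ring
  rw [e1, ← hU]
  linarith

/-! ### scaling and the upper bound -/

theorem integral_smul3 {s : ℝ} (hs : 0 < s) (F : V → ℝ) :
    ∫ x, F (s • x) = (s ^ 3)⁻¹ * ∫ x, F x := by
  have h := Measure.integral_comp_smul_of_nonneg (volume : Measure V) F s (hR := hs.le)
  rw [hd.out] at h
  rw [h, smul_eq_mul]

/-- rescaled density -/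
noncomputable def scl (s : ℝ) (h : V → ℝ) (x : V) : ℝ := s ^ 3 * h (s • x)

theorem pot_scl {s : ℝ} (hs : 0 < s) (h : V → ℝ) (x : V) :
    pot (scl s h) x = s * pot h (s • x) := by
  unfold pot scl
  have e1 : ∀ y, ‖x - y‖⁻¹ * (s ^ 3 * h (s • y)) =
      s ^ 4 * (fun y => ‖s • x - y‖⁻¹ * h y) (s • y) := by
    intro y
    simp only
    rw [← smul_sub, norm_smul, Real.norm_of_nonneg hs.le, mul_inv]
    field_simp
  simp_rw [e1]
  rw [integral_const_mul, integral_smul3 hs (fun y => ‖s • x - y‖⁻¹ * h y)]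
  field_simp

theorem TC.scl {s : ℝ} (hs : 0 < s) {h : V → ℝ} (hh : TC h) : TC (scl s h) := by
  refine ⟨(hh.meas.comp (measurable_const_smul s)).const_mul _,
    fun x => mul_nonneg (by positivity) (hh.nonneg _), ?_, ?_⟩
  · exact ((integrable_comp_smul_iff volume h hs.ne').mpr hh.int).const_mul _
  · have h1 := ((integrable_comp_smul_iff volume (fun x => h x ^ (5 / 3 : ℝ)) hs.ne').mpr
      hh.int53).const_mul ((s ^ 3) ^ (5 / 3 : ℝ))
    refine h1.congr (Eventually.of_forall fun x => ?_)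
    simp only [Pool.Agent.TF.scl]
    rw [Real.mul_rpow (by positivity) (hh.nonneg _)]

theorem rpow_35 {s : ℝ} (hs : 0 < s) : (s ^ 3) ^ (5 / 3 : ℝ) = s ^ 5 := by
  rw [← Real.rpow_natCast, ← Real.rpow_mul hs.le, ← Real.rpow_natCast]
  norm_num

theorem Ept_scl_le {z : ι → ℝ} (hz : ∀ i, 0 ≤ z i) (R : ι → V) {s : ℝ} (hs : 0 < s) (hs1 : s ≤ 1)
    {h : V → ℝ} (hh : TC h) :
    Ept 0 z R (scl s h) ≤ Unuc z R + s * (3 / 5 * (∫ x, h x ^ (5 / 3 : ℝ)) + 1 / 2 * En h h) := by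
  have h1 : ∫ x, scl s h x ^ (5 / 3 : ℝ) = s ^ 2 * ∫ x, h x ^ (5 / 3 : ℝ) := by
    have e1 : ∀ x, scl s h x ^ (5 / 3 : ℝ) = s ^ 5 * (fun x => h x ^ (5 / 3 : ℝ)) (s • x) := by
      intro x
      simp only [scl]
      rw [Real.mul_rpow (by positivity) (hh.nonneg _), rpow_35 hs]
    simp_rw [e1]
    rw [integral_const_mul, integral_smul3 hs (fun x => h x ^ (5 / 3 : ℝ))]
    field_simp
  have h2 : En (scl s h) (scl s h) = s * En h h := by
    unfold En
    have e1 : ∀ x, scl s h x * pot (scl s h) x = s ^ 4 * (fun x => h x * pot h x) (s • x) := by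
      intro x
      rw [pot_scl hs]
      simp only [scl]
      ring
    simp_rw [e1]
    rw [integral_const_mul, integral_smul3 hs (fun x => h x * pot h x)]
    field_simp
  have h3 : 0 ≤ ∑ i, z i * pot (scl s h) (R i) :=
    Finset.sum_nonneg fun i _ => mul_nonneg (hz i) (pot_nonneg (hh.scl hs).nonneg _)
  unfold Ept
  rw [h1, h2]
  have hT0 : 0 ≤ ∫ x, h x ^ (5 / 3 : ℝ) := integral_nonneg fun x => Real.rpow_nonneg (hh.nonneg x) _
  have h4 : s ^ 2 * (∫ x, h x ^ (5 / 3 : ℝ)) ≤ s * ∫ x, h x ^ (5 / 3 : ℝ) := by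
    refine mul_le_mul_of_nonneg_right ?_ hT0
    nlinarith
  linarith

theorem exists_mass {lam : ℝ} (hl : 0 ≤ lam) : ∃ h : V → ℝ, TC h ∧ ∫ x, h x = lam := by
  set b : V → ℝ := (ball (0 : V) 1).indicator fun _ => 1 with hb
  have hvol : 0 < volume.real (ball (0 : V) 1) := by
    rw [Measure.real, ENNReal.toReal_pos_iff]
    exact ⟨measure_ball_pos _ _ one_pos, measure_ball_lt_top⟩
  have hbc : BC b := by
    refine ⟨measurable_const.indicator measurableSet_ball, ⟨1, fun x => ?_⟩, ⟨1, fun x hx => ?_⟩⟩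
    · rw [hb]
      by_cases h : x ∈ ball (0 : V) 1
      · rw [indicator_of_mem h]; simp
      · rw [indicator_of_notMem h]; simp
    · rw [hb, indicator_of_notMem]
      simpa using hx
  have hint : ∫ x, b x = volume.real (ball (0 : V) 1) := by
    rw [hb, integral_indicator measurableSet_ball]
    simp
  refine ⟨fun x => lam / volume.real (ball (0 : V) 1) * b x, (hbc.const_mul _).toTC fun x =>
    mul_nonneg (div_nonneg hl hvol.le) ?_, ?_⟩
  · exact indicator_nonneg (fun _ _ => zero_le_one) _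
  · rw [integral_const_mul, hint]
    field_simp

theorem scl_mass {s : ℝ} (hs : 0 < s) (h : V → ℝ) : ∫ x, scl s h x = ∫ x, h x := by
  unfold scl
  rw [integral_const_mul, integral_smul3 hs h]
  field_simp

theorem Ept_upper {z : ι → ℝ} (hz : ∀ i, 0 ≤ z i) (R : ι → V) {lam : ℝ} (hl : 0 ≤ lam) :
    ∃ σ : V → ℝ, TC σ ∧ ∫ x, σ x = lam ∧ Ept 0 z R σ ≤ Unuc z R + 1 := by
  obtain ⟨h, hh, hm⟩ := exists_mass (V := V) hl
  set A : ℝ := 3 / 5 * (∫ x, h x ^ (5 / 3 : ℝ)) + 1 / 2 * En h h with hA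
  have hA0 : 0 ≤ A := by
    have h1 : 0 ≤ ∫ x, h x ^ (5 / 3 : ℝ) :=
      integral_nonneg fun x => Real.rpow_nonneg (hh.nonneg x) _
    have h2 := hh.En_nonneg hh
    rw [hA]; positivity
  have hs : 0 < 1 / (1 + A) := by positivity
  have hs1 : 1 / (1 + A) ≤ 1 := by
    rw [div_le_one (by linarith)]; linarith
  refine ⟨scl (1 / (1 + A)) h, hh.scl hs, (scl_mass hs h).trans hm, ?_⟩
  refine (Ept_scl_le hz R hs hs1 hh).trans ?_
  rw [← hA]
  have : 1 / (1 + A) * A ≤ 1 := by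
    rw [one_div, inv_mul_le_iff₀ (by linarith)]
    linarith
  linarith

/-! ### the energy at fixed mass -/

/-- values of the functional at mass `lam` -/
def SS (z : ι → ℝ) (R : ι → V) (lam : ℝ) : Set ℝ :=
  {t | ∃ σ : V → ℝ, TC σ ∧ ∫ x, σ x = lam ∧ Ept 0 z R σ = t}

/-- energy at fixed mass -/
noncomputable def eTF (z : ι → ℝ) (R : ι → V) (lam : ℝ) : ℝ := sInf (SS z R lam)

theorem SS_bdd {z : ι → ℝ} (hz : ∀ i, 0 ≤ z i) (R : ι → V) (lam : ℝ) :
    BddBelow (SS z R lam) := by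
  obtain ⟨C, hC⟩ := Ept_lower hz R
  refine ⟨-((∑ i, z i) * lam) - C, ?_⟩
  rintro t ⟨σ, hσ, hm, rfl⟩
  have := hC σ hσ
  rwa [hm] at this

theorem SS_nonempty {z : ι → ℝ} (hz : ∀ i, 0 ≤ z i) (R : ι → V) {lam : ℝ} (hl : 0 ≤ lam) :
    (SS z R lam).Nonempty := by
  obtain ⟨σ, hσ, hm, -⟩ := Ept_upper hz R hl
  exact ⟨_, σ, hσ, hm, rfl⟩

theorem eTF_le {z : ι → ℝ} (hz : ∀ i, 0 ≤ z i) (R : ι → V) {σ : V → ℝ} (hσ : TC σ) :
    eTF z R (∫ x, σ x) ≤ Ept 0 z R σ := csInf_le (SS_bdd hz R _) ⟨σ, hσ, rfl, rfl⟩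

theorem eTF_upper {z : ι → ℝ} (hz : ∀ i, 0 ≤ z i) (R : ι → V) {lam : ℝ} (hl : 0 ≤ lam) :
    eTF z R lam ≤ Unuc z R + 1 := by
  obtain ⟨σ, hσ, hm, h⟩ := Ept_upper hz R hl
  have := eTF_le hz R hσ
  rw [hm] at this
  exact this.trans h

theorem exists_near {z : ι → ℝ} (hz : ∀ i, 0 ≤ z i) (R : ι → V) {lam : ℝ} (hl : 0 ≤ lam)
    {η : ℝ} (hη : 0 < η) : ∃ σ : V → ℝ, TC σ ∧ ∫ x, σ x = lam ∧ Ept 0 z R σ < eTF z R lam + η := by
  obtain ⟨t, ⟨σ, hσ, hm, rfl⟩, h⟩ := exists_lt_of_csInf_lt (SS_nonempty hz R hl)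
    (lt_add_of_pos_right (sInf (SS z R lam)) hη)
  exact ⟨σ, hσ, hm, h⟩

theorem eTF_convex {z : ι → ℝ} (hz : ∀ i, 0 ≤ z i) (R : ι → V) :
    ConvexOn ℝ (Ici 0) (eTF z R) := by
  refine ⟨convex_Ici 0, fun x hx y hy a b ha hb hab => ?_⟩
  simp only [smul_eq_mul]
  refine le_of_forall_pos_le_add fun η hη => ?_
  obtain ⟨σ, hσ, hm, h1⟩ := exists_near hz R (mem_Ici.mp hx) hη
  obtain ⟨τ, hτ, hm', h2⟩ := exists_near hz R (mem_Ici.mp hy) hη
  have h3 := eTF_le hz R (hσ.comb hτ ha hb hab).1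
  rw [integral_add (hσ.int.const_mul a) (hτ.int.const_mul b), integral_const_mul,
    integral_const_mul, hm, hm'] at h3
  have h4 := Ept_comb z R hσ hτ ha hb hab
  have h5 : a * Ept 0 z R σ + b * Ept 0 z R τ ≤ a * (eTF z R x + η) + b * (eTF z R y + η) :=
    add_le_add (mul_le_mul_of_nonneg_left h1.le ha) (mul_le_mul_of_nonneg_left h2.le hb)
  have h6 : a * (eTF z R x + η) + b * (eTF z R y + η) =
      a * eTF z R x + b * eTF z R y + (a + b) * η := by ring
  rw [h6, hab, one_mul] at h5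
  linarith

theorem Ept_eq (φ₀ : ℝ) (z : ι → ℝ) (R : ι → V) (σ : V → ℝ) :
    Ept φ₀ z R σ = Ept 0 z R σ + φ₀ * ∫ x, σ x := by
  unfold Ept; ring

theorem Unuc_smul {z : ι → ℝ} (R : ι → V) {θ : ℝ} (hθ : 0 < θ) :
    Unuc z (fun i => θ • R i) = θ⁻¹ * Unuc z R := by
  have h : ∀ i j, z i * z j * ‖θ • R i - θ • R j‖⁻¹ = θ⁻¹ * (z i * z j * ‖R i - R j‖⁻¹) := by
    intro i j
    rw [← smul_sub, norm_smul, Real.norm_of_nonneg hθ.le, mul_inv]
    ring
  unfold Unuc
  simp_rw [h, ← Finset.mul_sum]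
  ring

theorem Ept_zero_mass (z : ι → ℝ) (R : ι → V) {σ : V → ℝ} (hσ : TC σ) (h0 : ∫ x, σ x = 0) :
    Ept 0 z R σ = Unuc z R := by
  have h1 : σ =ᵐ[volume] 0 := (integral_eq_zero_iff_of_nonneg hσ.nonneg hσ.int).mp h0
  have h2 : pot σ = pot (0 : V → ℝ) := pot_congr_ae h1
  have h3 : ∀ x, pot σ x = 0 := fun x => by rw [h2]; simp [pot]
  have h4 : ∫ x, σ x ^ (5 / 3 : ℝ) = 0 := by
    have : (fun x => σ x ^ (5 / 3 : ℝ)) =ᵐ[volume] fun _ => 0 := by
      filter_upwards [h1] with x hx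
      rw [hx]
      simp [Real.zero_rpow]
    rw [integral_congr_ae this, integral_zero]
  unfold Ept En
  simp [h3, h4]

/-- the Thomas-Fermi energy does not increase when the nuclei are dilated -/
theorem eTF_dilate {z : ι → ℝ} (hz : ∀ i, 0 ≤ z i) {R : ι → V} (hR : Function.Injective R)
    {θ : ℝ} (hθ : 1 ≤ θ) {lam : ℝ} (hl : 0 ≤ lam) :
    eTF z (fun i => θ • R i) lam ≤ eTF z R lam := by
  have hθ0 : 0 < θ := by linarith
  refine le_csInf (SS_nonempty hz R hl) ?_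
  rintro t ⟨σ, hσ, hm, rfl⟩
  rcases hl.eq_or_lt with h0 | h0
  · -- no electrons
    subst h0
    obtain ⟨τ, hτ, hmτ⟩ := exists_mass (V := V) (le_refl (0 : ℝ))
    have h1 := eTF_le hz (fun i => θ • R i) hτ
    rw [hmτ, Ept_zero_mass z _ hτ hmτ, Unuc_smul R hθ0] at h1
    rw [Ept_zero_mass z R hσ hm]
    refine h1.trans ?_
    have h2 := Unuc_nonneg hz R
    have h3 : θ⁻¹ ≤ 1 := inv_le_one_of_one_le₀ hθ
    nlinarith
  · obtain ⟨p, hp, hslope⟩ := exists_slope (eTF_convex hz (fun i => θ • R i))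
      (C := Unuc z (fun i => θ • R i) + 1) (fun y hy => eTF_upper hz _ hy) h0
    refine le_of_forall_pos_le_add fun ε hε => ?_
    set η : ℝ := ε / (lam + 1) with hη
    have hη0 : 0 < η := div_pos hε (by linarith)
    obtain ⟨σ', hσ', h1⟩ := dilate hz hR hθ (φ₀ := p + η) (by linarith) hσ hη0
    rw [Ept_eq, Ept_eq (p + η) z R σ, hm] at h1
    have h2 := eTF_le hz (fun i => θ • R i) hσ'
    have hy0 : 0 ≤ ∫ x, σ' x := integral_nonneg hσ'.nonneg
    have h3 := hslope (∫ x, σ' x) hy0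
    have h4 : η * (lam + 1) = ε := by
      rw [hη]; field_simp
    have h5 : 0 ≤ η * ∫ x, σ' x := mul_nonneg hη0.le hy0
    nlinarith

end dim3

end Pool.Agent.TF

end

section
/-! Thomas-Fermi molecules: the definitions of the problem and the general form of the library. -/

set_option autoImplicit false

namespace Pool.Agent
end Pool.Agent

namespace Pool.Agent.Lib.MP_9cf0c9_mp

open MeasureTheory Set

open Pool.Agent

instance : Fact (Module.finrank ℝ E3 = 3) := ⟨by simp⟩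

theorem isDensity_iff (ρ : E3 → ℝ) : IsDensity ρ ↔ TF.TC ρ :=
  ⟨fun h => ⟨h.meas, h.nonneg, h.integrable, h.integrable53⟩,
    fun h => ⟨h.meas, h.nonneg, h.int, h.int53⟩⟩

theorem U_eq {k : ℕ} (z : Fin k → ℝ) (R : Fin k → E3) : U z R = TF.Unuc z R := by
  set F : Fin k → Fin k → ℝ := fun i j => z i * z j / ‖R i - R j‖ with hF
  have hsym : ∀ i j, F i j = F j i := by
    intro i j
    simp only [hF]
    rw [norm_sub_rev, mul_comm (z i)]
  have hdiag : ∀ i, F i i = 0 := by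
    intro i
    simp [hF]
  have h1 : ∀ i j, F i j = (if i < j then F i j else 0) + (if j < i then F j i else 0) := by
    intro i j
    rcases lt_trichotomy i j with h | h | h
    · rw [if_pos h, if_neg h.not_gt, add_zero]
    · subst h
      rw [if_neg (lt_irrefl _), hdiag, add_zero]
    · rw [if_neg h.not_gt, if_pos h, zero_add, hsym]
  have h2 : ∑ i, ∑ j, F i j = 2 * ∑ i, ∑ j, (if i < j then F i j else 0) := by
    have h3 : ∑ i, ∑ j, F i j = (∑ i, ∑ j, (if i < j then F i j else 0)) +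
        ∑ i, ∑ j, (if j < i then F j i else 0) := by
      rw [← Finset.sum_add_distrib]
      refine Finset.sum_congr rfl fun i _ => ?_
      rw [← Finset.sum_add_distrib]
      exact Finset.sum_congr rfl fun j _ => h1 i j
    rw [h3, Finset.sum_comm (f := fun i j => if j < i then F j i else 0)]
    ring
  have h4 : TF.Unuc z R = 1 / 2 * ∑ i, ∑ j, F i j := by
    unfold TF.Unuc
    simp only [hF, div_eq_mul_inv]
  rw [h4, h2]
  unfold U
  ring

theorem xi_eq {k : ℕ} (z : Fin k → ℝ) (R : Fin k → E3) {ρ : E3 → ℝ} (hρ : TF.TC ρ) :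
    xi z R ρ = TF.Ept 0 z R ρ := by
  have h1 : ∫ x, V z R x * ρ x = ∑ i, z i * TF.pot ρ (R i) := by
    have e1 : ∀ x, V z R x * ρ x = ∑ i, z i * (‖R i - x‖⁻¹ * ρ x) := by
      intro x
      unfold V
      rw [Finset.sum_mul]
      refine Finset.sum_congr rfl fun i _ => ?_
      rw [norm_sub_rev, div_eq_mul_inv, mul_assoc]
    simp_rw [e1]
    rw [integral_finsetSum _ fun i _ => (hρ.pot_integrable (R i)).const_mul (z i)]
    refine Finset.sum_congr rfl fun i _ => ?_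
    rw [integral_const_mul]
    rfl
  have h2 : ∫ x, ∫ y, ρ x * ρ y / ‖x - y‖ = TF.En ρ ρ := by
    unfold TF.En TF.pot
    refine integral_congr_ae (Filter.Eventually.of_forall fun x => ?_)
    simp only
    rw [← integral_const_mul]
    refine integral_congr_ae (Filter.Eventually.of_forall fun y => ?_)
    simp only
    rw [div_eq_mul_inv]
    ring
  unfold xi TF.Ept
  rw [h1, h2, U_eq]
  ring

theorem energy_eq {k : ℕ} (z : Fin k → ℝ) (R : Fin k → E3) (lam : ℝ) :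
    energy z R lam = TF.eTF z R lam := by
  unfold energy TF.eTF TF.SS
  congr 1
  ext t
  constructor
  · rintro ⟨ρ, h, hm, ht⟩
    have h' := (isDensity_iff ρ).mp h
    exact ⟨ρ, h', hm, by rw [← xi_eq z R h', ht]⟩
  · rintro ⟨ρ, h, hm, ht⟩
    exact ⟨ρ, (isDensity_iff ρ).mpr h, hm, by rw [xi_eq z R h, ht]⟩

theorem dilated_anti {k : ℕ} {z : Fin k → ℝ} (hz : ∀ j, 0 ≤ z j) {R : Fin k → E3}
    (hR : Function.Injective R) {lam : ℝ} (hlam : 0 ≤ lam) {l₁ l₂ : ℝ} (h1 : 0 < l₁)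
    (h2 : l₁ ≤ l₂) : dilated z R lam l₂ ≤ dilated z R lam l₁ := by
  unfold dilated
  rw [energy_eq, energy_eq]
  have hinj : Function.Injective fun j => l₁ • R j := fun i j hij =>
    hR (smul_right_injective E3 h1.ne' hij)
  have h := TF.eTF_dilate hz hinj (θ := l₂ / l₁) (by rwa [one_le_div h1]) hlam
  have e : (fun j => (l₂ / l₁) • l₁ • R j) = fun j => l₂ • R j := by
    funext j
    rw [smul_smul, div_mul_cancel₀ _ h1.ne']
  rwa [e] at h

/-- a function which is nonincreasing near a point has nonpositive derivative there -/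
theorem nonpos_of_anti {f : ℝ → ℝ} {s : Set ℝ} {l d : ℝ} (hs : s ∈ nhds l) (hf : AntitoneOn f s)
    (hd : HasDerivAt f d l) : d ≤ 0 := by
  have hacc : AccPt l (Filter.principal s) := by
    rw [accPt_principal_iff_nhdsWithin]
    have h1 : nhdsWithin l (s \ {l}) = nhdsWithin l {l}ᶜ := by
      rw [sdiff_eq, inter_comm]
      exact nhdsWithin_inter_of_mem' (mem_nhdsWithin_of_mem_nhds hs)
    rw [h1]
    infer_instance
  exact hd.hasDerivWithinAt.nonpos_of_antitoneOn hacc hf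

end Pool.Agent.Lib.MP_9cf0c9_mp

end

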