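import Mathlib
import Pool.Agent.Lib.MP_9cf0c9_mp.Tr.BaseC
/-! Convexity from local quadratic supports, the Legendre formula for the energy at fixed mass and
the sign of the reciprocal compressibility. -/

set_option autoImplicit false

set_option linter.unusedSectionVars false

set_option linter.unusedVariables false

namespace Pool.Agent
end Pool.Agent

namespace Pool.Agent.TF

open MeasureTheory Set Metric Filter Topology

/-! ### convexity from local supports -/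

/-- an upper semicontinuous function with local quadratic lower supports `-ε t ^ 2`, for every
`ε > 0`, is convex -/
theorem convexOn_of_support {f : ℝ → ℝ} (husc : UpperSemicontinuousOn f (Ioi 0))
    (h : ∀ x, 0 < x → ∀ ε, 0 < ε → ∃ a δ, 0 < δ ∧ ∀ t, |t| < δ →
      f x + a * t - ε * t ^ 2 ≤ f (x + t)) :
    ConvexOn ℝ (Ioi 0) f := by
  refine LinearOrder.convexOn_of_lt (convex_Ioi 0) fun x hx y hy hxy a b ha hb hab => ?_
  simp only [smul_eq_mul]
  by_contra hcon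
  push Not at hcon
  have hx0 : 0 < x := hx
  have hL : 0 < y - x := by linarith
  set m : ℝ := a * x + b * y with hm
  have hmx : x < m := by
    have : m - x = b * (y - x) := by rw [hm]; have : a = 1 - b := by linarith
                                     subst this; ring
    have h2 : 0 < b * (y - x) := mul_pos hb hL
    linarith
  have hmy : m < y := by
    have : y - m = a * (y - x) := by rw [hm]; have : b = 1 - a := by linarith
                                     subst this; ring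
    have h2 : 0 < a * (y - x) := mul_pos ha hL
    linarith
  set q : ℝ := (f y - f x) / (y - x) with hq
  have hqy : q * (y - x) = f y - f x := by rw [hq]; field_simp
  have hlm : f x + q * (m - x) = a * f x + b * f y := by
    have e : m - x = b * (y - x) := by rw [hm]; have : a = 1 - b := by linarith
                                       subst this; ring
    rw [e]
    have : q * (b * (y - x)) = b * (f y - f x) := by rw [← hqy]; ring
    rw [this]
    have : a = 1 - b := by linarith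
    subst this; ring
  set d : ℝ := f m - (f x + q * (m - x)) with hd
  have hd0 : 0 < d := by rw [hd, hlm]; linarith
  set c : ℝ := d / (2 * (y - x) ^ 2) with hc
  have hc0 : 0 < c := by positivity
  set g : ℝ → ℝ := fun t => f t + (-(f x + q * (t - x)) - c * ((t - x) * (y - t))) with hg
  have husg : UpperSemicontinuousOn g (Icc x y) := by
    refine UpperSemicontinuousOn.add (husc.mono fun t ht => lt_of_lt_of_le hx0 ht.1) ?_
    exact (by fun_prop : Continuous fun t : ℝ =>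
      -(f x + q * (t - x)) - c * ((t - x) * (y - t))).continuousOn.upperSemicontinuousOn
  obtain ⟨t0, ht0, hmax⟩ := husg.exists_isMaxOn (nonempty_Icc.mpr hxy.le) isCompact_Icc
  have hgm : 0 < g m := by
    have h1 : (m - x) * (y - m) ≤ (y - x) ^ 2 := by nlinarith
    have h2 : c * ((m - x) * (y - m)) ≤ c * (y - x) ^ 2 := mul_le_mul_of_nonneg_left h1 hc0.le
    have h3 : c * (y - x) ^ 2 = d / 2 := by rw [hc]; field_simp
    simp only [hg]
    linarith
  have hgt0 : 0 < g t0 := lt_of_lt_of_le hgm (hmax ⟨hmx.le, hmy.le⟩)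
  have hgx : g x = 0 := by simp only [hg]; ring
  have hgy : g y = 0 := by simp only [hg]; rw [hqy]; ring
  have htx : x < t0 := lt_of_le_of_ne ht0.1 fun e => by rw [← e, hgx] at hgt0; exact lt_irrefl _ hgt0
  have hty : t0 < y := lt_of_le_of_ne ht0.2 fun e => by rw [e, hgy] at hgt0; exact lt_irrefl _ hgt0
  obtain ⟨p, δ, hδ, hsup⟩ := h t0 (hx0.trans htx) (c / 2) (by positivity)
  set r : ℝ := min (δ / 2) (min (t0 - x) (y - t0)) with hr
  have hr0 : 0 < r := lt_min (by linarith) (lt_min (by linarith) (by linarith))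
  have hr1 : r < δ := lt_of_le_of_lt (min_le_left _ _) (by linarith)
  have hr2 : r ≤ t0 - x := (min_le_right _ _).trans (min_le_left _ _)
  have hr3 : r ≤ y - t0 := (min_le_right _ _).trans (min_le_right _ _)
  have hup := hsup r (by rw [abs_of_pos hr0]; exact hr1)
  have hdn := hsup (-r) (by rw [abs_neg, abs_of_pos hr0]; exact hr1)
  have h1 : g (t0 + r) ≤ g t0 := hmax ⟨by linarith, by linarith⟩
  have h2 : g (t0 + -r) ≤ g t0 := hmax ⟨by linarith, by linarith⟩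
  simp only [hg] at h1 h2
  have h3 : 0 < c * r ^ 2 := by positivity
  nlinarith

theorem convexOn_rpow_neg {p : ℝ} (hp : 0 ≤ p) : ConvexOn ℝ (Ioi 0) fun v : ℝ => v ^ (-p) := by
  refine ⟨convex_Ioi 0, fun x hx y hy a b ha hb hab => ?_⟩
  have hx0 : 0 < x := hx
  have hy0 : 0 < y := hy
  have hxy : 0 < a • x + b • y := (convex_Ioi (0 : ℝ)) hx hy ha hb hab
  have h1 := strictConcaveOn_log_Ioi.concaveOn.2 hx hy ha hb hab
  have h2 := convexOn_exp.2 (mem_univ (Real.log x * (-p))) (mem_univ (Real.log y * (-p))) ha hb hab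
  beta_reduce
  rw [Real.rpow_def_of_pos hxy, Real.rpow_def_of_pos hx0, Real.rpow_def_of_pos hy0]
  refine le_trans (Real.exp_le_exp.mpr ?_) h2
  simp only [smul_eq_mul] at h1 ⊢
  nlinarith

/-! ### a lower bound with a small coefficient of the mass -/

section dim3

variable {V : Type*} [NormedAddCommGroup V] [InnerProductSpace ℝ V] [FiniteDimensional ℝ V]
  [MeasurableSpace V] [BorelSpace V]

variable {ι : Type*} [Fintype ι]

variable [hd : Fact (Module.finrank ℝ V = 3)]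

theorem Ept_scl (z : ι → ℝ) (R : ι → V) {s : ℝ} (hs : 0 < s) {h : V → ℝ} (hh : TC h) :
    Ept 0 z R (scl s h) = s ^ 2 * (3 / 5 * ∫ x, h x ^ (5 / 3 : ℝ)) -
      s * (∑ i, z i * pot h (s • R i)) + s / 2 * En h h + Unuc z R := by
  have h1 : ∫ x, scl s h x ^ (5 / 3 : ℝ) = s ^ 2 * ∫ x, h x ^ (5 / 3 : ℝ) := by
    have e1 : ∀ x, scl s h x ^ (5 / 3 : ℝ) = s ^ 5 * (fun x => h x ^ (5 / 3 : ℝ)) (s • x) := by
      intro x
      simp only [scl]
      rw [Real.mul_rpow (by positivity) (hh.nonneg _), rpow_35 hs]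
    simp_rw [e1]
    rw [integral_const_mul, integral_smul3 hs (fun x => h x ^ (5 / 3 : ℝ))]
    field_simp
  have h2 : En (scl s h) (scl s h) = s * En h h := by
    unfold En
    have e1 : ∀ x, scl s h x * pot (scl s h) x = s ^ 4 * (fun x => h x * pot h x) (s • x) := by
      intro x
      rw [pot_scl hs]
      simp only [scl]
      ring
    simp_rw [e1]
    rw [integral_const_mul, integral_smul3 hs (fun x => h x * pot h x)]
    field_simp
  have h3 : ∑ i, z i * pot (scl s h) (R i) = s * ∑ i, z i * pot h (s • R i) := by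
    rw [Finset.mul_sum]
    refine Finset.sum_congr rfl fun i _ => ?_
    rw [pot_scl hs]
    ring
  unfold Ept
  rw [h1, h2, h3]
  ring

theorem scl_scl_inv {s : ℝ} (hs : 0 < s) (h : V → ℝ) : scl s (scl s⁻¹ h) = h := by
  funext x
  unfold scl
  rw [smul_smul, inv_mul_cancel₀ hs.ne', one_smul]
  field_simp

theorem Ept_lower_eps {z : ι → ℝ} (hz : ∀ i, 0 ≤ z i) (R : ι → V) {ε : ℝ} (hε : 0 < ε) :
    ∃ C : ℝ, ∀ σ : V → ℝ, TC σ → -(ε * ∫ x, σ x) - C ≤ Ept 0 z R σ := by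
  set Z : ℝ := ∑ i, z i with hZ
  have hZ0 : 0 ≤ Z := Finset.sum_nonneg fun i _ => hz i
  set s : ℝ := min 1 (ε / (Z + 1)) with hs
  have hs0 : 0 < s := lt_min one_pos (by positivity)
  have hs1 : s ≤ 1 := min_le_left _ _
  have hsZ : s * Z ≤ ε := by
    have h1 : s ≤ ε / (Z + 1) := min_le_right _ _
    have h2 : s * Z ≤ ε / (Z + 1) * Z := mul_le_mul_of_nonneg_right h1 hZ0
    have h3 : ε / (Z + 1) * Z ≤ ε := by
      rw [div_mul_eq_mul_div, div_le_iff₀ (by linarith)]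
      nlinarith
    linarith
  obtain ⟨C, hC⟩ := Ept_lower (z := fun i => z i / s) (fun i => div_nonneg (hz i) hs0.le)
    (fun i => s • R i)
  set U' : ℝ := Unuc (fun i => z i / s) (fun i => s • R i) with hU'
  refine ⟨s ^ 2 * C + s ^ 2 * U', fun σ hσ => ?_⟩
  have hτ : TC (scl s⁻¹ σ) := hσ.scl (inv_pos.mpr hs0)
  have hm : ∫ x, scl s⁻¹ σ x = ∫ x, σ x := scl_mass (inv_pos.mpr hs0) σ
  have h1 := hC _ hτ
  rw [hm, ← Finset.sum_div, ← hZ] at h1
  have h2 := Ept_scl z R hs0 hτ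
  rw [scl_scl_inv hs0] at h2
  have h3 : ∑ i, z i / s * pot (scl s⁻¹ σ) (s • R i) =
      (∑ i, z i * pot (scl s⁻¹ σ) (s • R i)) / s := by
    rw [Finset.sum_div]
    exact Finset.sum_congr rfl fun i _ => by ring
  unfold Ept at h1
  rw [h3, ← hU'] at h1
  have hE := hτ.En_nonneg hτ
  have hU := Unuc_nonneg hz R
  have hM0 : 0 ≤ ∫ x, σ x := integral_nonneg hσ.nonneg
  rw [h2]
  set K : ℝ := 3 / 5 * ∫ x, scl s⁻¹ σ x ^ (5 / 3 : ℝ) with hK
  set A : ℝ := ∑ i, z i * pot (scl s⁻¹ σ) (s • R i) with hA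
  set E : ℝ := En (scl s⁻¹ σ) (scl s⁻¹ σ) with hE'
  set M : ℝ := ∫ x, σ x with hM
  have h4 : s ^ 2 * (-(Z / s * M) - C) ≤ s ^ 2 * (K + 0 * (∫ x, scl s⁻¹ σ x) - A / s +
      1 / 2 * E + U') := mul_le_mul_of_nonneg_left h1 (by positivity)
  have h5 : s ^ 2 * (-(Z / s * M) - C) = -(s * Z * M) - s ^ 2 * C := by field_simp
  have h6 : s ^ 2 * (K + 0 * (∫ x, scl s⁻¹ σ x) - A / s + 1 / 2 * E + U') =
      s ^ 2 * K - s * A + s ^ 2 / 2 * E + s ^ 2 * U' := by field_simp; ring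
  rw [h5, h6] at h4
  have h7 : s * Z * M ≤ ε * M := mul_le_mul_of_nonneg_right hsZ hM0
  have h8 : s ^ 2 / 2 * E ≤ s / 2 * E := mul_le_mul_of_nonneg_right (by nlinarith) hE
  linarith

/-! ### the functional with a chemical potential -/

/-- the minimum of the functional with chemical potential `φ₀` -/
noncomputable def GTF (φ₀ : ℝ) (z : ι → ℝ) (R : ι → V) : ℝ :=
  sInf {t | ∃ σ : V → ℝ, TC σ ∧ Ept φ₀ z R σ = t}

theorem GTF_bdd {φ₀ : ℝ} (hφ : 0 < φ₀) {z : ι → ℝ} (hz : ∀ i, 0 ≤ z i) (R : ι → V) :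
    BddBelow {t | ∃ σ : V → ℝ, TC σ ∧ Ept φ₀ z R σ = t} := by
  obtain ⟨C, hC⟩ := Ept_lower_eps hz R hφ
  refine ⟨-C, ?_⟩
  rintro t ⟨σ, hσ, rfl⟩
  have := hC σ hσ
  rw [Ept_eq]
  linarith

theorem GTF_nonempty (φ₀ : ℝ) (z : ι → ℝ) (R : ι → V) :
    {t | ∃ σ : V → ℝ, TC σ ∧ Ept φ₀ z R σ = t}.Nonempty := by
  obtain ⟨h, hh, -⟩ := exists_mass (V := V) (le_refl (0 : ℝ))
  exact ⟨_, h, hh, rfl⟩

theorem GTF_le {φ₀ : ℝ} (hφ : 0 < φ₀) {z : ι → ℝ} (hz : ∀ i, 0 ≤ z i) (R : ι → V) {σ : V → ℝ}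
    (hσ : TC σ) : GTF φ₀ z R ≤ Ept φ₀ z R σ := csInf_le (GTF_bdd hφ hz R) ⟨σ, hσ, rfl⟩

theorem le_GTF {φ₀ : ℝ} {z : ι → ℝ} (R : ι → V) {c : ℝ}
    (h : ∀ σ : V → ℝ, TC σ → c ≤ Ept φ₀ z R σ) : c ≤ GTF φ₀ z R := by
  refine le_csInf (GTF_nonempty φ₀ z R) ?_
  rintro t ⟨σ, hσ, rfl⟩
  exact h σ hσ

/-- a minimiser computes `GTF` -/
theorem GTF_eq {φ₀ : ℝ} (hφ : 0 < φ₀) {z : ι → ℝ} (hz : ∀ i, 0 ≤ z i) (R : ι → V) {ρ : V → ℝ}
    (hρ : TC ρ) (hmin : ∀ σ : V → ℝ, TC σ → Ept φ₀ z R ρ ≤ Ept φ₀ z R σ) :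
    GTF φ₀ z R = Ept φ₀ z R ρ :=
  le_antisymm (GTF_le hφ hz R hρ) (le_GTF R hmin)

theorem GTF_sub_le {φ₀ : ℝ} (hφ : 0 < φ₀) {z : ι → ℝ} (hz : ∀ i, 0 ≤ z i) (R : ι → V) {lam : ℝ}
    (hl : 0 ≤ lam) : GTF φ₀ z R - φ₀ * lam ≤ eTF z R lam := by
  refine le_csInf (SS_nonempty hz R hl) ?_
  rintro t ⟨σ, hσ, hm, rfl⟩
  have h1 := GTF_le hφ hz R hσ
  rw [Ept_eq, hm] at h1
  linarith

theorem exists_GTF_near {z : ι → ℝ} (hz : ∀ i, 0 ≤ z i) (R : ι → V) {lam : ℝ} (hl : 0 < lam)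
    {η : ℝ} (hη : 0 < η) : ∃ φ₀, 0 < φ₀ ∧ eTF z R lam ≤ GTF φ₀ z R - φ₀ * lam + η := by
  obtain ⟨p, hp, hslope⟩ := exists_slope (eTF_convex hz R)
    (C := Unuc z R + 1) (fun y hy => eTF_upper hz _ hy) hl
  have hη' : 0 < η / lam := div_pos hη hl
  refine ⟨p + η / lam, by linarith, ?_⟩
  have h1 : eTF z R lam + p * lam ≤ GTF (p + η / lam) z R := by
    refine le_GTF R fun σ hσ => ?_
    have hy0 : 0 ≤ ∫ x, σ x := integral_nonneg hσ.nonneg
    have h2 := eTF_le hz R hσ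
    have h3 := hslope (∫ x, σ x) hy0
    rw [Ept_eq]
    have h5 : 0 ≤ η / lam * ∫ x, σ x := mul_nonneg hη'.le hy0
    nlinarith
  have h2 : (p + η / lam) * lam = p * lam + η := by field_simp
  rw [h2]
  linarith

/-- the energy of a rescaled density in the dilated molecule -/
theorem Ept_scl_dilate (φ₀ : ℝ) (z : ι → ℝ) (R : ι → V) {s : ℝ} (hs : 0 < s) {h : V → ℝ}
    (hh : TC h) :
    Ept φ₀ z (fun i => s⁻¹ • R i) (scl s h) = s ^ 2 * (3 / 5 * ∫ x, h x ^ (5 / 3 : ℝ)) +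
      s * (-(∑ i, z i * pot h (R i)) + 1 / 2 * En h h + Unuc z R) + φ₀ * ∫ x, h x := by
  have e : ∀ i, s • s⁻¹ • R i = R i := fun i => by
    rw [smul_smul, mul_inv_cancel₀ hs.ne', one_smul]
  rw [Ept_eq, scl_mass hs, Ept_scl z _ hs hh, Unuc_smul R (inv_pos.mpr hs), inv_inv]
  simp_rw [e]
  ring

theorem GTF_usc {φ₀ : ℝ} (hφ : 0 < φ₀) {z : ι → ℝ} (hz : ∀ i, 0 ≤ z i) (R : ι → V) :
    UpperSemicontinuousOn (fun v : ℝ => GTF φ₀ z fun i => v ^ (1 / 3 : ℝ) • R i) (Ioi 0) := by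
  intro v hv c hc
  have hv0 : 0 < v := hv
  have hl0 : 0 < v ^ (1 / 3 : ℝ) := Real.rpow_pos_of_pos hv0 _
  obtain ⟨t, ⟨σ, hσ, rfl⟩, hlt⟩ := exists_lt_of_csInf_lt (GTF_nonempty φ₀ z _) hc
  set R0 : ι → V := fun i => v ^ (1 / 3 : ℝ) • R i with hR0
  set F : ℝ → ℝ := fun s => s ^ 2 * (3 / 5 * ∫ x, σ x ^ (5 / 3 : ℝ)) +
      s * (-(∑ i, z i * pot σ (R0 i)) + 1 / 2 * En σ σ + Unuc z R0) + φ₀ * ∫ x, σ x with hF
  have hF1 : F 1 = Ept φ₀ z R0 σ := by
    simp only [hF]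
    unfold Ept
    ring
  have hFc : Continuous F := by fun_prop
  have hcont : Tendsto (fun w : ℝ => F (v ^ (1 / 3 : ℝ) / w ^ (1 / 3 : ℝ))) (𝓝[Ioi 0] v)
      (𝓝 (F 1)) := by
    have h1 : ContinuousAt (fun w : ℝ => v ^ (1 / 3 : ℝ) / w ^ (1 / 3 : ℝ)) v :=
      continuousAt_const.div (Real.continuousAt_rpow_const _ _ (Or.inl hv0.ne')) hl0.ne'
    have h2 : v ^ (1 / 3 : ℝ) / v ^ (1 / 3 : ℝ) = 1 := div_self hl0.ne'
    have h3 : Tendsto (fun w : ℝ => v ^ (1 / 3 : ℝ) / w ^ (1 / 3 : ℝ)) (𝓝[Ioi 0] v) (𝓝 1) := by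
      have h4 := h1.tendsto
      simp only [h2] at h4
      exact h4.mono_left nhdsWithin_le_nhds
    exact (hFc.tendsto 1).comp h3
  have hev := hcont.eventually_lt_const (by rw [hF1]; exact hlt : F 1 < c)
  filter_upwards [hev, self_mem_nhdsWithin] with w hw hw0
  have hw0' : 0 < w := hw0
  have hlw : 0 < w ^ (1 / 3 : ℝ) := Real.rpow_pos_of_pos hw0' _
  set s : ℝ := v ^ (1 / 3 : ℝ) / w ^ (1 / 3 : ℝ) with hs
  have hs0 : 0 < s := div_pos hl0 hlw
  have hRw : (fun i => w ^ (1 / 3 : ℝ) • R i) = fun i => s⁻¹ • R0 i := by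
    funext i
    simp only [hR0, hs]
    rw [smul_smul, inv_div, div_mul_cancel₀ _ hl0.ne']
  have h5 := GTF_le hφ hz (fun i => s⁻¹ • R0 i) (hσ.scl hs0)
  rw [Ept_scl_dilate φ₀ z R0 hs0 hσ] at h5
  rw [← hRw] at h5
  exact lt_of_le_of_lt h5 hw

/-- local quadratic supports of the energy under dilation (at every scale `c`) give convexity in
the volume -/
theorem GTF_convex_of_support {φ₀ : ℝ} (hφ : 0 < φ₀) {z : ι → ℝ} (hz : ∀ i, 0 ≤ z i)
    (R : ι → V) (h : ∀ c : ℝ, 0 < c → ∀ ε : ℝ, 0 < ε → ∃ a δ : ℝ, 0 < δ ∧ ∀ t : ℝ, |t| < δ →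
      GTF φ₀ z (fun i => c • R i) + a * t - ε * t ^ 2 ≤
        GTF φ₀ z (fun i => (1 + t) ^ (1 / 3 : ℝ) • c • R i)) :
    ConvexOn ℝ (Ioi 0) fun v : ℝ => GTF φ₀ z fun i => v ^ (1 / 3 : ℝ) • R i := by
  refine convexOn_of_support (GTF_usc hφ hz R) fun v hv ε hε => ?_
  have hl0 : 0 < v ^ (1 / 3 : ℝ) := Real.rpow_pos_of_pos hv _
  obtain ⟨a, δ, hδ, hsup⟩ := h (v ^ (1 / 3 : ℝ)) hl0 (ε * v ^ 2) (by positivity)
  refine ⟨a / v, min (v * δ) v, lt_min (by positivity) hv, fun t ht => ?_⟩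
  have ht1 : |t| < v * δ := lt_of_lt_of_le ht (min_le_left _ _)
  have ht2 : |t| < v := lt_of_lt_of_le ht (min_le_right _ _)
  have h1 : |t / v| < δ := by
    rw [abs_div, abs_of_pos hv, div_lt_iff₀ hv]
    linarith
  have h2 := hsup (t / v) h1
  have h3 : (fun i => (1 + t / v) ^ (1 / 3 : ℝ) • v ^ (1 / 3 : ℝ) • R i) =
      fun i => (v + t) ^ (1 / 3 : ℝ) • R i := by
    funext i
    have h4 : 0 ≤ 1 + t / v := by
      have h5 : -1 < t / v := by
        rw [lt_div_iff₀ hv]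
        have := neg_abs_le t
        linarith
      linarith
    rw [smul_smul, ← Real.mul_rpow h4 hv.le]
    congr 2
    field_simp
  rw [h3] at h2
  have h6 : a * (t / v) = a / v * t := by ring
  have h7 : ε * v ^ 2 * (t / v) ^ 2 = ε * t ^ 2 := by field_simp
  rw [h6, h7] at h2
  exact h2

/-- convexity in the volume at every fixed chemical potential gives it at every fixed mass -/
theorem eTF_convex_volume {z : ι → ℝ} (hz : ∀ i, 0 ≤ z i) (R : ι → V)
    (h : ∀ φ₀ : ℝ, 0 < φ₀ →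
      ConvexOn ℝ (Ioi 0) fun v : ℝ => GTF φ₀ z fun i => v ^ (1 / 3 : ℝ) • R i)
    {lam : ℝ} (hl : 0 ≤ lam) :
    ConvexOn ℝ (Ioi 0) fun v : ℝ => eTF z (fun i => v ^ (1 / 3 : ℝ) • R i) lam := by
  rcases hl.eq_or_lt with h0 | h0
  · subst h0
    have hU : ∀ v : ℝ, 0 < v → eTF z (fun i => v ^ (1 / 3 : ℝ) • R i) 0 =
        Unuc z R * v ^ (-(1 / 3) : ℝ) := by
      intro v hv
      have hv3 : 0 < v ^ (1 / 3 : ℝ) := Real.rpow_pos_of_pos hv _
      obtain ⟨τ, hτ, hmτ⟩ := exists_mass (V := V) (le_refl (0 : ℝ))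
      have hval : Unuc z (fun i => v ^ (1 / 3 : ℝ) • R i) = Unuc z R * v ^ (-(1 / 3) : ℝ) := by
        rw [Unuc_smul R hv3, Real.rpow_neg hv.le]
        ring
      refine le_antisymm ?_ ?_
      · have h1 := eTF_le hz (fun i => v ^ (1 / 3 : ℝ) • R i) hτ
        rw [hmτ, Ept_zero_mass z _ hτ hmτ, hval] at h1
        exact h1
      · refine le_csInf (SS_nonempty hz _ le_rfl) ?_
        rintro t ⟨σ, hσ, hm, rfl⟩
        rw [Ept_zero_mass z _ hσ hm, hval]
    have hconv : ConvexOn ℝ (Ioi 0) fun v : ℝ => Unuc z R * v ^ (-(1 / 3) : ℝ) := by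
      have h1 : ConvexOn ℝ (Ioi 0) fun v : ℝ => v ^ (-(1 / 3) : ℝ) :=
        convexOn_rpow_neg (by norm_num)
      simpa only [smul_eq_mul] using h1.smul (Unuc_nonneg hz R)
    exact hconv.congr fun v hv => (hU v hv).symm
  · refine ⟨convex_Ioi 0, fun x hx y hy a b ha hb hab => ?_⟩
    simp only [smul_eq_mul]
    refine le_of_forall_pos_le_add fun η hη => ?_
    obtain ⟨φ₀, hφ, h1⟩ := exists_GTF_near hz (fun i => (a * x + b * y) ^ (1 / 3 : ℝ) • R i) h0 hη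
    have h2 := (h φ₀ hφ).2 hx hy ha hb hab
    simp only [smul_eq_mul] at h2
    have h3 := GTF_sub_le hφ hz (fun i => x ^ (1 / 3 : ℝ) • R i) hl
    have h4 := GTF_sub_le hφ hz (fun i => y ^ (1 / 3 : ℝ) • R i) hl
    have h5 := mul_le_mul_of_nonneg_left h3 ha
    have h6 := mul_le_mul_of_nonneg_left h4 hb
    have h7 : φ₀ * lam = a * (φ₀ * lam) + b * (φ₀ * lam) := by rw [← add_mul, hab, one_mul]
    linarith

end dim3

end Pool.Agent.TF

namespace Pool.Agent.Lib.MP_9cf0c9_mp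

open MeasureTheory Set Filter Topology Pool.Agent

/-- convexity of the energy as a function of the volume gives the sign of the reciprocal
compressibility -/
theorem compress_of_convex_volume {k : ℕ} (z : Fin k → ℝ) (R : Fin k → E3) (lam : ℝ)
    (hconv : ConvexOn ℝ (Ioi 0) fun v : ℝ => dilated z R lam (v ^ (1 / 3 : ℝ))) {l : ℝ}
    (hl : 0 < l) (hdiff : ∀ᶠ s in 𝓝 l, DifferentiableAt ℝ (dilated z R lam) s)
    (hp : DifferentiableAt ℝ (pressure z R lam) l) :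
    0 ≤ -(l / 3) * deriv (pressure z R lam) l := by
  obtain ⟨ε, hε, hball⟩ := Metric.eventually_nhds_iff_ball.mp hdiff
  set s : Set ℝ := Metric.ball l ε ∩ Ioi 0 with hs
  have hsn : s ∈ 𝓝 l := inter_mem (Metric.ball_mem_nhds l hε) (Ioi_mem_nhds hl)
  set g : ℝ → ℝ := fun v => dilated z R lam (v ^ (1 / 3 : ℝ)) with hg
  have hroot : ∀ x : ℝ, 0 < x → (x ^ 3) ^ (1 / 3 : ℝ) = x := by
    intro x hx
    rw [← Real.rpow_natCast, ← Real.rpow_mul hx.le]
    norm_num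
  have hder : ∀ x ∈ s, HasDerivAt g (-pressure z R lam x) (x ^ 3) := by
    intro x hx
    have hx0 : 0 < x := hx.2
    have h1 : HasDerivAt (fun v : ℝ => v ^ (1 / 3 : ℝ)) (1 / 3 * (x ^ 3) ^ ((1 / 3 : ℝ) - 1)) (x ^ 3) :=
      Real.hasDerivAt_rpow_const (Or.inl (by positivity))
    have h2 : (x ^ 3) ^ ((1 / 3 : ℝ) - 1) = (x ^ 2)⁻¹ := by
      rw [← Real.rpow_natCast, ← Real.rpow_mul hx0.le, ← Real.rpow_natCast, ← Real.rpow_neg hx0.le]
      norm_num
    rw [h2] at h1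
    have h3 : HasDerivAt (dilated z R lam) (deriv (dilated z R lam) x) ((x ^ 3) ^ (1 / 3 : ℝ)) := by
      rw [hroot x hx0]
      exact (hball x hx.1).hasDerivAt
    have h4 := HasDerivAt.comp (x ^ 3) h3 h1
    refine h4.congr_deriv ?_
    unfold pressure
    field_simp
  have hanti : AntitoneOn (pressure z R lam) s := by
    intro x hx y hy hxy
    rcases hxy.eq_or_lt with h | h
    · rw [h]
    have hx0 : 0 < x := hx.2
    have hy0 : 0 < y := hy.2
    have h3 : x ^ 3 < y ^ 3 := pow_lt_pow_left₀ h hx0.le (by norm_num)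
    have hx3 : x ^ 3 ∈ Ioi (0 : ℝ) := by simpa using pow_pos hx0 3
    have hy3 : y ^ 3 ∈ Ioi (0 : ℝ) := by simpa using pow_pos hy0 3
    have h1 := hconv.deriv_le_slope hx3 hy3 h3 (hder x hx).differentiableAt
    have h2 := hconv.slope_le_deriv hx3 hy3 h3 (hder y hy).differentiableAt
    have h4 : deriv g (x ^ 3) ≤ deriv g (y ^ 3) := h1.trans h2
    rw [(hder x hx).deriv, (hder y hy).deriv] at h4
    linarith
  have hneg : deriv (pressure z R lam) l ≤ 0 := nonpos_of_anti hsn hanti hp.hasDerivAt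
  nlinarith

/-- the target theorem, from convexity in the volume at every fixed chemical potential -/
theorem target_of_GTF {k : ℕ} (z : Fin k → ℝ) (hz : ∀ j, 0 ≤ z j) (R : Fin k → E3)
    (h : ∀ φ₀ : ℝ, 0 < φ₀ →
      ConvexOn ℝ (Ioi 0) fun v : ℝ => TF.GTF φ₀ z fun i => v ^ (1 / 3 : ℝ) • R i)
    (lam : ℝ) (hlam : 0 ≤ lam) :
    ConvexOn ℝ (Ioi 0) (fun v : ℝ => dilated z R lam (v ^ (1 / 3 : ℝ))) ∧
      ∀ l : ℝ, 0 < l → (∀ᶠ s in 𝓝 l, DifferentiableAt ℝ (dilated z R lam) s) →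
        DifferentiableAt ℝ (pressure z R lam) l → 0 ≤ -(l / 3) * deriv (pressure z R lam) l := by
  have h1 : ConvexOn ℝ (Ioi 0) (fun v : ℝ => dilated z R lam (v ^ (1 / 3 : ℝ))) := by
    have h2 := TF.eTF_convex_volume hz R h hlam
    exact h2.congr fun v _ => by unfold dilated; rw [energy_eq]
  exact ⟨h1, fun l hl hd hp => compress_of_convex_volume z R lam h1 hl hd hp⟩

end Pool.Agent.Lib.MP_9cf0c9_mp
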