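import Mathlib
/-! Functions `F (a x) (b x)`, where `F` is a continuous function of two real variables which is
`C¹` in pieces (finitely many relatively closed regions).  They are locally Lipschitz, and at
almost every point the chain rule holds with the partial derivatives of any active piece.
Special case: `a` is the distance to the nearest nucleus, or to one nucleus. -/

set_option autoImplicit false

set_option linter.unusedSectionVars false

set_option linter.unusedVariables false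

namespace Pool.Agent.TF

open MeasureTheory Set Metric Filter Topology

open scoped ENNReal NNReal RealInnerProductSpace Gradient

/-! ### two real variables -/

/-- `f` has the partial derivatives `f₁`, `f₂`, jointly continuous on `O` -/
structure C1On (O : Set (ℝ × ℝ)) (f f₁ f₂ : ℝ → ℝ → ℝ) : Prop where
  d₁ : ∀ r p, (r, p) ∈ O → HasDerivAt (fun r => f r p) (f₁ r p) r
  d₂ : ∀ r p, (r, p) ∈ O → HasDerivAt (fun p => f r p) (f₂ r p) p
  c₁ : ContinuousOn (fun q : ℝ × ℝ => f₁ q.1 q.2) O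
  c₂ : ContinuousOn (fun q : ℝ × ℝ => f₂ q.1 q.2) O

theorem C1On.strict {O : Set (ℝ × ℝ)} (hO : IsOpen O) {f f₁ f₂ : ℝ → ℝ → ℝ} (h : C1On O f f₁ f₂)
    {q : ℝ × ℝ} (hq : q ∈ O) :
    HasStrictFDerivAt (fun q : ℝ × ℝ => f q.1 q.2)
      (f₁ q.1 q.2 • ContinuousLinearMap.fst ℝ ℝ ℝ + f₂ q.1 q.2 • ContinuousLinearMap.snd ℝ ℝ ℝ)
      q := by
  have h1 := hasStrictFDerivAt_uncurry_coprod (𝕜 := ℝ) (u := q) (f := f)
    (f₁ := fun r p => ContinuousLinearMap.toSpanSingleton ℝ (f₁ r p))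
    (f₂ := fun r p => ContinuousLinearMap.toSpanSingleton ℝ (f₂ r p)) ?_ ?_ ?_ ?_
  · refine h1.congr_fderiv ?_
    ext <;> simp [Function.HasUncurry.uncurry]
  · filter_upwards [hO.mem_nhds hq] with v hv
    exact (h.d₁ v.1 v.2 hv).hasFDerivAt
  · filter_upwards [hO.mem_nhds hq] with v hv
    exact (h.d₂ v.1 v.2 hv).hasFDerivAt
  · have h2 : ContinuousAt (fun q : ℝ × ℝ => f₁ q.1 q.2) q := h.c₁.continuousAt (hO.mem_nhds hq)
    exact ((ContinuousLinearMap.toSpanSingletonCLE (𝕜 := ℝ) (E := ℝ)).continuous.continuousAt.comp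
      (f := fun q : ℝ × ℝ => f₁ q.1 q.2) (x := q) (by fun_prop) : _)
  · have h2 : ContinuousAt (fun q : ℝ × ℝ => f₂ q.1 q.2) q := h.c₂.continuousAt (hO.mem_nhds hq)
    exact ((ContinuousLinearMap.toSpanSingletonCLE (𝕜 := ℝ) (E := ℝ)).continuous.continuousAt.comp
      (f := fun q : ℝ × ℝ => f₂ q.1 q.2) (x := q) (by fun_prop) : _)

theorem C1On.continuousAt {O : Set (ℝ × ℝ)} (hO : IsOpen O) {f f₁ f₂ : ℝ → ℝ → ℝ}
    (h : C1On O f f₁ f₂) {q : ℝ × ℝ} (hq : q ∈ O) :
    ContinuousAt (fun q : ℝ × ℝ => f q.1 q.2) q :=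
  (h.strict hO hq).continuousAt

/-! ### composition with functions on the space -/

variable {V : Type*} [NormedAddCommGroup V] [InnerProductSpace ℝ V] [FiniteDimensional ℝ V]
  [MeasurableSpace V] [BorelSpace V]

variable {n : ℕ} {Ω : Set (ℝ × ℝ)} {F : ℝ → ℝ → ℝ} {A O : Fin n → Set (ℝ × ℝ)}
  {f f₁ f₂ : Fin n → ℝ → ℝ → ℝ}

/-! ### the distance to the nearest nucleus -/

end Pool.Agent.TF
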