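import Mathlib
import Pool.Agent.Lib.MP_9cf0c9_mp.Tr.BaseB
/-! The Thomas-Fermi minimiser for point nuclei at a positive value of `φ₀`. -/

set_option linter.unusedSectionVars false

set_option linter.unusedVariables false

set_option linter.style.haveILetI false

namespace Pool.Agent.TF

open MeasureTheory Set Metric Filter Topology

open scoped ENNReal NNReal RealInnerProductSpace

variable {ι : Type*} [Fintype ι]

/-! ### the potential of the nuclei -/

/-- potential of the point nuclei -/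
noncomputable def Vpt (z : ι → ℝ) (R : ι → X) (x : X) : ℝ := ∑ i, z i * ‖x - R i‖⁻¹

theorem Vpt_meas (z : ι → ℝ) (R : ι → X) : Measurable (Vpt z R) := by
  unfold Vpt
  refine Finset.measurable_sum _ fun i _ => ?_
  exact ((measurable_id.sub measurable_const).norm.inv).const_mul _

theorem Vpt_nonneg {z : ι → ℝ} (hz : ∀ i, 0 ≤ z i) (R : ι → X) (x : X) : 0 ≤ Vpt z R x :=
  Finset.sum_nonneg fun i _ => mul_nonneg (hz i) (by positivity)

theorem Vpt_far {z : ι → ℝ} (hz : ∀ i, 0 ≤ z i) (R : ι → X) {φ₀ : ℝ} (hφ : 0 < φ₀) :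
    ∃ r, 0 < r ∧ ∀ x, r ≤ ‖x‖ → Vpt z R x ≤ φ₀ := by
  have hZ : 0 ≤ ∑ i, z i := Finset.sum_nonneg fun i _ => hz i
  have hS : 0 ≤ ∑ i, ‖R i‖ := Finset.sum_nonneg fun i _ => norm_nonneg _
  have hd : 0 < (∑ i, z i) / φ₀ + 1 := by positivity
  refine ⟨(∑ i, ‖R i‖) + ((∑ i, z i) / φ₀ + 1), by positivity, fun x hx => ?_⟩
  have h1 : ∀ i, ‖x - R i‖⁻¹ ≤ ((∑ i, z i) / φ₀ + 1)⁻¹ := by
    intro i
    refine inv_anti₀ hd ?_
    have h2 := norm_sub_norm_le x (R i)
    have h3 : ‖R i‖ ≤ ∑ i, ‖R i‖ :=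
      Finset.single_le_sum (f := fun i => ‖R i‖) (fun i _ => norm_nonneg _) (Finset.mem_univ i)
    linarith
  have h2 : Vpt z R x ≤ ∑ i, z i * ((∑ i, z i) / φ₀ + 1)⁻¹ :=
    Finset.sum_le_sum fun i _ => mul_le_mul_of_nonneg_left (h1 i) (hz i)
  rw [← Finset.sum_mul] at h2
  refine h2.trans ?_
  rw [mul_inv_le_iff₀ hd]
  have h3 : φ₀ * ((∑ i, z i) / φ₀ + 1) = (∑ i, z i) + φ₀ := by field_simp
  rw [h3]
  linarith

theorem ae_off (R : ι → X) : ∀ᵐ x : X, ∀ i, x ≠ R i := by
  haveI := nontriv (V := X)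
  rw [ae_all_iff]
  intro i
  rw [ae_iff]
  simp

theorem pot_mpt (ε : ℝ) (z : ι → ℝ) (R : ι → X) (x : X) :
    pot (mpt ε z R) x = ∑ i, z i * pot (sm ε (R i)) x := by
  unfold mpt
  rw [pot_sum Finset.univ fun i _ => (sm_BC ε (R i)).const_mul _]
  refine Finset.sum_congr rfl fun i _ => ?_
  rw [pot_const_mul]

theorem pot_mpt_le {ε : ℝ} (hε : 0 < ε) {z : ι → ℝ} (hz : ∀ i, 0 ≤ z i) {R : ι → X} {x : X}
    (hx : ∀ i, x ≠ R i) : pot (mpt ε z R) x ≤ Vpt z R x := by
  rw [pot_mpt]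
  refine Finset.sum_le_sum fun i _ => mul_le_mul_of_nonneg_left ?_ (hz i)
  rw [pot_sm]
  exact kap_pot_le hε (sub_ne_zero.mpr (hx i))

theorem pot_mpt_eq {ε : ℝ} (hε : 0 < ε) {z : ι → ℝ} {R : ι → X} {x : X}
    (hx : ∀ i, ε ≤ ‖x - R i‖) : pot (mpt ε z R) x = Vpt z R x := by
  rw [pot_mpt]
  refine Finset.sum_congr rfl fun i _ => ?_
  rw [pot_sm, kap_pot_eq hε (hx i)]

/-! ### the dominating density -/

/-- the density of the bare nuclei -/
noncomputable def gdom (φ₀ : ℝ) (z : ι → ℝ) (R : ι → X) (x : X) : ℝ := tf (Vpt z R x - φ₀)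

theorem gdom_meas (φ₀ : ℝ) (z : ι → ℝ) (R : ι → X) : Measurable (gdom φ₀ z R) :=
  tf_continuous.measurable.comp ((Vpt_meas z R).sub measurable_const)

theorem tf_rpow {w v : ℝ} (hv : 0 ≤ v) (hw : w ≤ v) : tf w ^ (5 / 3 : ℝ) ≤ v ^ (5 / 2 : ℝ) := by
  have h1 : tf w ^ (5 / 3 : ℝ) ≤ tf v ^ (5 / 3 : ℝ) :=
    Real.rpow_le_rpow (tf_nonneg _) (tf_mono hw) (by norm_num)
  refine h1.trans (le_of_eq ?_)
  rw [tf_eq_rpow hv, ← Real.rpow_mul hv]
  norm_num

theorem inv_rpow_le_wt (v : X) : (‖v‖⁻¹) ^ (5 / 2 : ℝ) ≤ wt v + 1 := by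
  by_cases hv : v ∈ ball (0 : X) 1
  · have h1 : wt v = (‖v‖⁻¹) ^ (5 / 2 : ℝ) := indicator_of_mem hv _
    rw [h1]; linarith
  · have h1 : wt v = 0 := indicator_of_notMem hv _
    have h2 : 1 ≤ ‖v‖ := by simpa using hv
    have h3 : ‖v‖⁻¹ ≤ 1 := inv_le_one_of_one_le₀ h2
    rw [h1, zero_add]
    exact Real.rpow_le_one (by positivity) h3 (by norm_num)

theorem gdom_TC {z : ι → ℝ} (hz : ∀ i, 0 ≤ z i) (R : ι → X) {φ₀ : ℝ} (hφ : 0 < φ₀) :
    TC (gdom φ₀ z R) := by
  obtain ⟨r, hr, hfar⟩ := Vpt_far hz R hφ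
  set B : X → ℝ := (ball (0 : X) r).indicator fun _ => (1 : ℝ) with hB
  have hBint : Integrable B := (integrable_indicator_iff measurableSet_ball).mpr
    (integrableOn_const measure_ball_lt_top.ne)
  set C : ℝ := ((Finset.univ : Finset ι).card : ℝ) ^ ((5 / 2 : ℝ) - 1) with hC
  have hC0 : 0 ≤ C := by positivity
  set G : X → ℝ := fun x => C * ∑ i, z i ^ (5 / 2 : ℝ) * (wt (x - R i) + B x) with hG
  have hGint : Integrable G := by
    refine Integrable.const_mul ?_ C
    refine integrable_finsetSum _ fun i _ => ?_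
    exact ((wt_integrable.comp_sub_right (R i)).add hBint).const_mul _
  have hzero : ∀ x, r ≤ ‖x‖ → gdom φ₀ z R x = 0 := fun x hx =>
    tf_of_nonpos (by linarith [hfar x hx])
  have hG0 : ∀ x, 0 ≤ G x := fun x => mul_nonneg hC0 (Finset.sum_nonneg fun i _ =>
    mul_nonneg (Real.rpow_nonneg (hz i) _) (add_nonneg (wt_nonneg _)
      (indicator_nonneg (fun _ _ => zero_le_one) _)))
  have hle : ∀ x, gdom φ₀ z R x ^ (5 / 3 : ℝ) ≤ G x := by
    intro x
    by_cases hx : x ∈ ball (0 : X) r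
    · have hB1 : B x = 1 := indicator_of_mem hx _
      have h1 : gdom φ₀ z R x ^ (5 / 3 : ℝ) ≤ Vpt z R x ^ (5 / 2 : ℝ) :=
        tf_rpow (Vpt_nonneg hz R x) (by linarith)
      have h2 : Vpt z R x ^ (5 / 2 : ℝ) ≤ C * ∑ i, |z i * ‖x - R i‖⁻¹| ^ (5 / 2 : ℝ) := by
        have h3 := Real.rpow_sum_le_const_mul_sum_rpow (Finset.univ : Finset ι)
          (fun i => z i * ‖x - R i‖⁻¹) (p := (5 / 2 : ℝ)) (by norm_num)
        have h4 : Vpt z R x = ∑ i, |z i * ‖x - R i‖⁻¹| :=
          Finset.sum_congr rfl fun i _ => (abs_of_nonneg (mul_nonneg (hz i) (by positivity))).symm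
        rw [h4]
        exact h3
      refine h1.trans (h2.trans ?_)
      refine mul_le_mul_of_nonneg_left (Finset.sum_le_sum fun i _ => ?_) hC0
      rw [abs_of_nonneg (mul_nonneg (hz i) (by positivity)),
        Real.mul_rpow (hz i) (by positivity), hB1]
      exact mul_le_mul_of_nonneg_left (inv_rpow_le_wt _) (Real.rpow_nonneg (hz i) _)
    · rw [hzero x (by simpa using hx), Real.zero_rpow (by norm_num)]
      exact hG0 x
  have hint53 : Integrable (fun x => gdom φ₀ z R x ^ (5 / 3 : ℝ)) := by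
    refine hGint.mono' ((gdom_meas φ₀ z R).pow_const _).aestronglyMeasurable
      (Eventually.of_forall fun x => ?_)
    have hg0 : 0 ≤ gdom φ₀ z R x := tf_nonneg _
    rw [Real.norm_of_nonneg (Real.rpow_nonneg hg0 _)]
    exact hle x
  refine ⟨gdom_meas φ₀ z R, fun x => tf_nonneg _, ?_, hint53⟩
  refine (hBint.add hint53).mono' (gdom_meas φ₀ z R).aestronglyMeasurable
    (Eventually.of_forall fun x => ?_)
  have hg0 : 0 ≤ gdom φ₀ z R x := tf_nonneg _
  rw [Real.norm_of_nonneg hg0, Pi.add_apply]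
  by_cases hx : x ∈ ball (0 : X) r
  · have hB1 : B x = 1 := indicator_of_mem hx _
    rw [hB1]
    rcases le_total (gdom φ₀ z R x) 1 with h | h
    · have := Real.rpow_nonneg hg0 (5 / 3 : ℝ)
      linarith
    · have := Real.self_le_rpow_of_one_le h (by norm_num : (1 : ℝ) ≤ 5 / 3)
      linarith
  · rw [hzero x (by simpa using hx), Real.zero_rpow (by norm_num)]
    have : 0 ≤ B x := indicator_nonneg (fun _ _ => zero_le_one) _
    linarith

/-! ### domination and pairings -/

/-- a measurable function between `0` and an admissible density is admissible -/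
theorem TC.of_le {g f : X → ℝ} (hg : TC g) (hf : Measurable f) (h0 : ∀ x, 0 ≤ f x)
    (hle : ∀ᵐ x, f x ≤ g x) : TC f := by
  refine ⟨hf, h0, ?_, ?_⟩
  · refine hg.int.mono' hf.aestronglyMeasurable ?_
    filter_upwards [hle] with x hx
    rwa [Real.norm_of_nonneg (h0 x)]
  · refine hg.int53.mono' (hf.pow_const _).aestronglyMeasurable ?_
    filter_upwards [hle] with x hx
    rw [Real.norm_of_nonneg (Real.rpow_nonneg (h0 x) _)]
    exact Real.rpow_le_rpow (h0 x) hx (by norm_num)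

theorem gap_mono {ε : ℝ} (hε : 0 < ε) {σ τ : X → ℝ} (hσ : TC σ) (hτ : TC τ)
    (hle : ∀ᵐ x, σ x ≤ τ x) (c : X) :
    pot σ c - pairS ε σ c ≤ pot τ c - pairS ε τ c := by
  have hne : ∀ᵐ x : X, x ≠ c := by
    haveI := nontriv (V := X)
    rw [ae_iff]; simp
  unfold pot pairS
  rw [← integral_sub (hσ.pot_integrable c) (pairS_int hσ c),
    ← integral_sub (hτ.pot_integrable c) (pairS_int hτ c)]
  refine integral_mono_ae ((hσ.pot_integrable c).sub (pairS_int hσ c))
    ((hτ.pot_integrable c).sub (pairS_int hτ c)) ?_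
  filter_upwards [hne, hle] with x hx hx'
  have h1 : pot (sm ε c) x ≤ ‖c - x‖⁻¹ := by
    rw [pot_sm, norm_sub_rev]
    exact kap_pot_le hε (sub_ne_zero.mpr hx)
  have h2 : (‖c - x‖⁻¹ - pot (sm ε c) x) * σ x ≤ (‖c - x‖⁻¹ - pot (sm ε c) x) * τ x :=
    mul_le_mul_of_nonneg_left hx' (by linarith)
  nlinarith

/-- the Cauchy-Schwarz inequality with a parameter -/
theorem En_cs {f g : X → ℝ} (hf : BC f) (hg : BC g) {t : ℝ} (ht : 0 < t) :
    |En f g| ≤ (En f f / t + t * En g g) / 2 := by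
  have key : ∀ s : ℝ, 0 ≤ En f f - 2 * s * En f g + s ^ 2 * En g g := by
    intro s
    have h1 := En_nonneg (hf.sub (hg.const_mul s))
    have hgs := hg.const_mul s
    rw [En_sub_left hf hgs (hf.sub hgs), En_sub_right hf hf hgs, En_sub_right hgs hf hgs] at h1
    have e1 : ∀ h : X → ℝ, En h (fun x => s * g x) = s * En h g := by
      intro h
      unfold En
      rw [← integral_const_mul]
      refine integral_congr_ae (Eventually.of_forall fun x => ?_)
      simp only
      rw [pot_const_mul]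
      ring
    have e2 : ∀ h : X → ℝ, En (fun x => s * g x) h = s * En g h := by
      intro h
      unfold En
      rw [← integral_const_mul]
      refine integral_congr_ae (Eventually.of_forall fun x => ?_)
      simp only
      ring
    rw [e1, e2, e2, e1, En_symm hg hf] at h1
    nlinarith
  have h1 := key t
  have h2 := key (-t)
  rw [abs_le]
  have h3 : (En f f / t + t * En g g) / 2 = (En f f + t ^ 2 * En g g) / (2 * t) := by
    field_simp
  rw [h3]
  constructor
  · rw [neg_le, le_div_iff₀ (by positivity)]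
    nlinarith
  · rw [le_div_iff₀ (by positivity)]
    nlinarith

theorem tf_mul_nonneg (a b : ℝ) : 0 ≤ (tf a - tf b) * (a - b) := by
  rcases le_total a b with h | h
  · exact mul_nonneg_of_nonpos_of_nonpos (by linarith [tf_mono h]) (by linarith)
  · exact mul_nonneg (by linarith [tf_mono h]) (by linarith)

theorem En_mpt_right (ε : ℝ) (z : ι → ℝ) (R : ι → X) {σ : X → ℝ} (hσ : BC σ) :
    En σ (mpt ε z R) = ∑ i, z i * En σ (sm ε (R i)) := by
  unfold En
  simp_rw [pot_mpt, Finset.mul_sum]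
  have hI : ∀ i ∈ (Finset.univ : Finset ι), Integrable
      (fun x => σ x * (z i * pot (sm ε (R i)) x)) := by
    intro i _
    refine ((En_integrable hσ (sm_BC ε (R i))).const_mul (z i)).congr
      (Eventually.of_forall fun x => ?_)
    simp only
    ring
  rw [integral_finsetSum _ hI]
  refine Finset.sum_congr rfl fun i _ => ?_
  rw [← integral_const_mul]
  refine integral_congr_ae (Eventually.of_forall fun x => ?_)
  simp only
  ring

/-! ### the solution -/

/-- The Thomas-Fermi equation with point nuclei has a solution for `φ₀ > 0`. -/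
theorem exists_point_sol {z : ι → ℝ} (hz : ∀ i, 0 ≤ z i) (R : ι → X) {φ₀ : ℝ} (hφ : 0 < φ₀) :
    ∃ ρ : X → ℝ, TC ρ ∧ (∀ x, ρ x ≤ gdom φ₀ z R x) ∧
      ∀ x, ρ x = tf (Vpt z R x - pot ρ x - φ₀) := by
  set g : X → ℝ := gdom φ₀ z R with hg
  have hgT : TC g := gdom_TC hz R hφ
  set ε : ℕ → ℝ := fun n => 1 / ((n : ℝ) + 1) with hε
  have hε0 : ∀ n, 0 < ε n := fun n => by simp only [hε]; positivity
  have hεt : Tendsto ε atTop (𝓝 0) := tendsto_one_div_add_atTop_nhds_zero_nat
  have hεt' : Tendsto ε atTop (𝓝[>] 0) :=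
    tendsto_nhdsWithin_iff.mpr ⟨hεt, Eventually.of_forall hε0⟩
  choose ρ hρB hρ0 hρ using fun n => exists_tf (mpt_BC (ε n) z R) hφ
  have hρT : ∀ n, TC (ρ n) := fun n => (hρB n).toTC (hρ0 n)
  have hρ' : ∀ n x, ρ n x = tf (pot (mpt (ε n) z R) x - pot (ρ n) x - φ₀) := by
    intro n x
    rw [hρ n x, pot_sub (mpt_BC _ z R) (hρB n)]
  have hρg : ∀ n, ∀ᵐ x, ρ n x ≤ g x := by
    intro n
    filter_upwards [ae_off R] with x hx
    rw [hρ' n x]
    refine tf_mono ?_
    have h1 := pot_mpt_le (hε0 n) hz hx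
    have h2 := pot_nonneg (hρ0 n) x
    linarith
  -- the gaps
  set gap : ℝ → X → ℝ := fun r c => pot g c - pairS r g c with hgap
  have hgapn : ∀ n {r : ℝ}, 0 < r → ∀ c, pot (ρ n) c - pairS r (ρ n) c ≤ gap r c :=
    fun n r hr c => gap_mono hr (hρT n) hgT (hρg n) c
  have hgap0 : ∀ n {r : ℝ}, 0 < r → ∀ c, 0 ≤ pot (ρ n) c - pairS r (ρ n) c :=
    fun n r hr c => sub_nonneg.mpr (pairS_le hr (hρT n) c)
  have hgapt : ∀ c, Tendsto (fun r => gap r c) (𝓝[>] 0) (𝓝 0) := by
    intro c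
    have h1 := (tendsto_const_nhds (x := pot g c) (f := 𝓝[>] (0 : ℝ))).sub (pairS_tendsto hgT c)
    rw [sub_self] at h1
    exact h1
  set a : ℕ → ℝ := fun n => ∑ i, z i * gap (ε n) (R i) with ha
  have hat : Tendsto a atTop (𝓝 0) := by
    have h1 : Tendsto a atTop (𝓝 (∑ i, z i * 0)) :=
      tendsto_finsetSum _ fun i _ => ((hgapt (R i)).comp hεt').const_mul _
    simpa using h1
  have hEn : ∀ n m, En (fun x => ρ n x - ρ m x) (fun x => ρ n x - ρ m x) ≤ a n + a m := by
    intro n m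
    set δ : X → ℝ := fun x => ρ n x - ρ m x with hδ
    have hδB : BC δ := (hρB n).sub (hρB m)
    have hmn := mpt_BC (ε n) z R
    have hmm := mpt_BC (ε m) z R
    have h1 : ∀ x, δ x * pot δ x ≤
        δ x * pot (mpt (ε n) z R) x - δ x * pot (mpt (ε m) z R) x := by
      intro x
      have e1 : pot δ x = pot (ρ n) x - pot (ρ m) x := pot_sub (hρB n) (hρB m) x
      have h2 := tf_mul_nonneg (pot (mpt (ε n) z R) x - pot (ρ n) x - φ₀)
        (pot (mpt (ε m) z R) x - pot (ρ m) x - φ₀)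
      rw [← hρ' n x, ← hρ' m x] at h2
      rw [e1]
      simp only [hδ]
      nlinarith
    have h3 : En δ δ ≤ En δ (mpt (ε n) z R) - En δ (mpt (ε m) z R) := by
      unfold En
      rw [← integral_sub (En_integrable hδB hmn) (En_integrable hδB hmm)]
      exact integral_mono (En_integrable hδB hδB)
        ((En_integrable hδB hmn).sub (En_integrable hδB hmm)) h1
    refine h3.trans ?_
    rw [En_mpt_right _ _ _ hδB, En_mpt_right _ _ _ hδB, ← Finset.sum_sub_distrib, ha]
    simp only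
    rw [← Finset.sum_add_distrib]
    refine Finset.sum_le_sum fun i _ => ?_
    rw [← mul_sub, ← mul_add]
    refine mul_le_mul_of_nonneg_left ?_ (hz i)
    rw [hδ, En_sub_left (hρB n) (hρB m) (sm_BC _ _), En_sub_left (hρB n) (hρB m) (sm_BC _ _)]
    have e1 : ∀ k l, En (ρ k) (sm (ε l) (R i)) = pairS (ε l) (ρ k) (R i) := fun k l => rfl
    simp only [e1]
    have k1 := hgapn n (hε0 m) (R i)
    have k2 := hgapn m (hε0 n) (R i)
    have k3 := hgap0 n (hε0 n) (R i)
    have k4 := hgap0 m (hε0 m) (R i)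
    linarith
  -- pointwise convergence of the potentials
  have hC : ∀ c, CauchySeq fun n => pot (ρ n) c := by
    intro c
    rw [Metric.cauchySeq_iff']
    intro η hη
    obtain ⟨r, hr1, hr0⟩ := (((hgapt c).eventually (gt_mem_nhds (half_pos hη))).and
      self_mem_nhdsWithin).exists
    have hr : 0 < r := hr0
    have hS0 : 0 ≤ En (sm r c) (sm r c) := En_nonneg (sm_BC r c)
    set S : ℝ := En (sm r c) (sm r c) with hS
    set t : ℝ := η / (4 * (S + 1)) with ht'
    have ht : 0 < t := by positivity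
    have htS : t * S ≤ η / 4 := by
      rw [ht', div_mul_eq_mul_div, div_le_div_iff₀ (by positivity) (by norm_num)]
      nlinarith
    have hpos : 0 < η * t / 8 := by positivity
    obtain ⟨N, hN⟩ := eventually_atTop.mp (hat.eventually (gt_mem_nhds hpos))
    refine ⟨N, fun n hn => ?_⟩
    have h1 := En_cs ((hρB n).sub (hρB N)) (sm_BC r c) ht
    rw [En_sub_left (hρB n) (hρB N) (sm_BC _ _)] at h1
    have h2 := hEn n N
    have h3 := hN n hn
    have h4 := hN N le_rfl
    have h5 : En (fun x => ρ n x - ρ N x) (fun x => ρ n x - ρ N x) / t ≤ η / 4 := by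
      rw [div_le_iff₀ ht]
      nlinarith
    have e1 : ∀ k, En (ρ k) (sm r c) = pairS r (ρ k) c := fun k => rfl
    rw [e1, e1] at h1
    have h6 : |pairS r (ρ n) c - pairS r (ρ N) c| ≤ η / 4 := by
      refine h1.trans ?_
      rw [← hS]
      linarith
    rw [Real.dist_eq, abs_lt]
    rw [abs_le] at h6
    have k1 := hgapn n hr c
    have k2 := hgapn N hr c
    have k3 := hgap0 n hr c
    have k4 := hgap0 N hr c
    constructor <;> linarith
  choose u hu using fun c => cauchySeq_tendsto_of_complete (hC c)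
  have hu0 : ∀ c, 0 ≤ u c := fun c =>
    ge_of_tendsto' (hu c) fun n => pot_nonneg (hρ0 n) c
  have hum : Measurable u :=
    measurable_of_tendsto_metrizable (fun n => (pot_continuous (hρB n)).measurable)
      (tendsto_pi_nhds.mpr hu)
  set σ : X → ℝ := fun x => tf (Vpt z R x - u x - φ₀) with hσ
  have hσm : Measurable σ :=
    tf_continuous.measurable.comp (((Vpt_meas z R).sub hum).sub measurable_const)
  have hσg : ∀ x, σ x ≤ g x := fun x => tf_mono (by linarith [hu0 x])
  have hσT : TC σ := hgT.of_le hσm (fun x => tf_nonneg _) (Eventually.of_forall hσg)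
  have hlim : ∀ᵐ x, Tendsto (fun n => ρ n x) atTop (𝓝 (σ x)) := by
    filter_upwards [ae_off R] with x hx
    have h1 : ∀ᶠ n in atTop, ∀ i, ε n ≤ ‖x - R i‖ := by
      rw [eventually_all]
      intro i
      have h2 : 0 < ‖x - R i‖ := norm_pos_iff.mpr (sub_ne_zero.mpr (hx i))
      filter_upwards [hεt.eventually (gt_mem_nhds h2)] with n hn
      exact hn.le
    have h3 : Tendsto (fun n => tf (Vpt z R x - pot (ρ n) x - φ₀)) atTop (𝓝 (σ x)) :=
      (tf_continuous.tendsto _).comp ((tendsto_const_nhds.sub (hu x)).sub tendsto_const_nhds)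
    refine h3.congr' ?_
    filter_upwards [h1] with n hn
    rw [hρ' n x, pot_mpt_eq (hε0 n) hn]
  have hpot : ∀ c, pot σ c = u c := by
    intro c
    have h1 : Tendsto (fun n => pot (ρ n) c) atTop (𝓝 (pot σ c)) := by
      unfold pot
      refine tendsto_integral_of_dominated_convergence (fun y => ‖c - y‖⁻¹ * g y)
        (fun n => ((hρT n).pot_integrable c).aestronglyMeasurable) (hgT.pot_integrable c) ?_ ?_
      · intro n
        filter_upwards [hρg n] with y hy
        rw [Real.norm_of_nonneg (mul_nonneg (by positivity) (hρ0 n y))]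
        exact mul_le_mul_of_nonneg_left hy (by positivity)
      · filter_upwards [hlim] with y hy
        exact hy.const_mul _
    exact tendsto_nhds_unique h1 (hu c)
  refine ⟨σ, hσT, hσg, fun x => ?_⟩
  rw [hpot x]

/-- the equation determines the minimiser -/
theorem Ept_min {z : ι → ℝ} {R : ι → X} {φ₀ : ℝ} {ρ σ : X → ℝ} (hρ : TC ρ) (hσ : TC σ)
    (heq : ∀ᵐ x, ρ x = tf (Vpt z R x - pot ρ x - φ₀)) :
    Ept φ₀ z R ρ ≤ Ept φ₀ z R σ := by
  set w : X → ℝ := fun x => Vpt z R x - pot ρ x - φ₀ with hw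
  have hIV : ∀ {s : X → ℝ}, TC s → Integrable (fun x => Vpt z R x * s x) := by
    intro s hs
    have h1 : Integrable (fun x => ∑ i, z i * (‖R i - x‖⁻¹ * s x)) :=
      integrable_finsetSum _ fun i _ => (hs.pot_integrable (R i)).const_mul (z i)
    refine h1.congr (Eventually.of_forall fun x => ?_)
    simp only
    unfold Vpt
    rw [Finset.sum_mul]
    refine Finset.sum_congr rfl fun i _ => ?_
    rw [norm_sub_rev]
    ring
  have hV : ∀ {s : X → ℝ}, TC s → ∫ x, Vpt z R x * s x = ∑ i, z i * pot s (R i) := by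
    intro s hs
    have e1 : ∀ x, Vpt z R x * s x = ∑ i, z i * (‖R i - x‖⁻¹ * s x) := by
      intro x
      unfold Vpt
      rw [Finset.sum_mul]
      refine Finset.sum_congr rfl fun i _ => ?_
      rw [norm_sub_rev]
      ring
    simp_rw [e1]
    rw [integral_finsetSum _ fun i _ => (hs.pot_integrable (R i)).const_mul (z i)]
    refine Finset.sum_congr rfl fun i _ => ?_
    rw [integral_const_mul]
    rfl
  have hIw : ∀ {s : X → ℝ}, TC s → Integrable (fun x => w x * s x) := by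
    intro s hs
    refine (((hIV hs).sub (hs.En_integrable hρ)).sub (hs.int.const_mul φ₀)).congr
      (Eventually.of_forall fun x => ?_)
    simp only [Pi.sub_apply, hw]
    ring
  have hexp : ∀ {s : X → ℝ}, TC s → ∫ x, w x * s x =
      (∑ i, z i * pot s (R i)) - En s ρ - φ₀ * ∫ x, s x := by
    intro s hs
    have e1 : (fun x => w x * s x) = fun x => Vpt z R x * s x - s x * pot ρ x - φ₀ * s x := by
      funext x
      simp only [hw]
      ring
    rw [e1, integral_sub2 (hIV hs) (hs.En_integrable hρ) (hs.int.const_mul _),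
      integral_const_mul, hV hs]
    rfl
  have hkey : 3 / 5 * (∫ x, ρ x ^ (5 / 3 : ℝ)) - ∫ x, w x * ρ x ≤
      3 / 5 * (∫ x, σ x ^ (5 / 3 : ℝ)) - ∫ x, w x * σ x := by
    rw [← integral_const_mul, ← integral_const_mul, ← integral_sub (hρ.int53.const_mul _)
      (hIw hρ), ← integral_sub (hσ.int53.const_mul _) (hIw hσ)]
    refine integral_mono_ae ((hρ.int53.const_mul _).sub (hIw hρ))
      ((hσ.int53.const_mul _).sub (hIw hσ)) ?_
    filter_upwards [heq] with x hx
    have h1 := young_tf (w x) (hσ.nonneg x)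
    have h2 := young_tf_eq (w x)
    have h3 : ρ x = tf (w x) := hx
    rw [h3]
    linarith
  rw [hexp hρ, hexp hσ] at hkey
  have hpsd := hσ.psd hρ
  unfold Ept
  linarith

/-- The Thomas-Fermi minimiser for point nuclei: equation, domination, support, minimality. -/
theorem exists_point_min {z : ι → ℝ} (hz : ∀ i, 0 ≤ z i) (R : ι → X) {φ₀ : ℝ} (hφ : 0 < φ₀) :
    ∃ ρ : X → ℝ, TC ρ ∧ (∀ x, ρ x ≤ gdom φ₀ z R x) ∧
      (∀ x, ρ x = tf (Vpt z R x - pot ρ x - φ₀)) ∧
      (∃ r, 0 < r ∧ ∀ x, r ≤ ‖x‖ → ρ x = 0) ∧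
      ∀ σ : X → ℝ, TC σ → Ept φ₀ z R ρ ≤ Ept φ₀ z R σ := by
  obtain ⟨ρ, hρ, hle, heq⟩ := exists_point_sol hz R hφ
  obtain ⟨r, hr, hfar⟩ := Vpt_far hz R hφ
  refine ⟨ρ, hρ, hle, heq, ⟨r, hr, fun x hx => ?_⟩, fun σ hσ =>
    Ept_min hρ hσ (Eventually.of_forall heq)⟩
  have h1 : gdom φ₀ z R x = 0 := tf_of_nonpos (by linarith [hfar x hx])
  have h2 := hle x
  have h3 := hρ.nonneg x
  linarith

end Pool.Agent.TF
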