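import Mathlib
import Pool.Agent.Lib.MP_9cf0c9_mp.Tr.BaseA

section
/-! The representation formula of a Lipschitz function with compact support by its gradient
(weak form of the Poisson equation for a point charge), in dimension three. -/

set_option linter.unusedSectionVars false

set_option linter.unusedVariables false

set_option linter.style.haveILetI false

namespace Pool.Agent.TF

open MeasureTheory Set Metric Filter Topology

open scoped ENNReal NNReal RealInnerProductSpace Gradient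

variable {V : Type*} [NormedAddCommGroup V] [InnerProductSpace ℝ V] [FiniteDimensional ℝ V]
  [MeasurableSpace V] [BorelSpace V]

/-- a radius outside which a compactly supported function vanishes -/
theorem exists_radius {u : V → ℝ} (hc : HasCompactSupport u) :
    ∃ R : ℝ, 0 < R ∧ tsupport u ⊆ ball 0 R := by
  obtain ⟨R, hR⟩ := hc.isCompact.isBounded.subset_ball (0 : V)
  exact ⟨max R 1, by positivity, hR.trans (ball_subset_ball (le_max_left _ _))⟩

/-- integration by parts of a `C^1` function against a Lipschitz function -/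
theorem ibp {a : V → ℝ} (ha : ContDiff ℝ 1 a) {u : V → ℝ} {C : ℝ≥0} (hu : LipschitzWith C u)
    (hc : HasCompactSupport u) (e : V) :
    ∫ x, a x * lineDeriv ℝ u x e = -∫ x, fderiv ℝ a x e * u x := by
  obtain ⟨R, hR0, hR⟩ := exists_radius hc
  let χ : ContDiffBump (0 : V) := ⟨R, R + 1, hR0, by linarith⟩
  set b : V → ℝ := fun x => χ x * a x with hb
  have hbc : ContDiff ℝ 1 b := (χ.contDiff (n := 1)).mul ha
  have hbs : HasCompactSupport b := χ.hasCompactSupport.mul_right
  obtain ⟨D, hD⟩ := hbc.lipschitzWith_of_hasCompactSupport hbs (by simp)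
  have h1 := hD.integral_lineDeriv_mul_eq (μ := (volume : Measure V)) hu hc e
  have hnear : ∀ x ∈ tsupport u, b =ᶠ[𝓝 x] a := by
    intro x hx
    filter_upwards [isOpen_ball.mem_nhds (hR hx)] with y hy
    have : χ y = 1 := χ.one_of_mem_closedBall (ball_subset_closedBall hy)
    simp only [hb, this, one_mul]
  have h2 : ∫ x, fderiv ℝ a x e * u x = ∫ x, lineDeriv ℝ b x e * u x := by
    refine integral_congr_ae (Eventually.of_forall fun x => ?_)
    simp only
    by_cases hx : x ∈ tsupport u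
    · rw [(hbc.differentiable (by simp) x).lineDeriv_eq_fderiv, (hnear x hx).fderiv_eq]
    · rw [image_eq_zero_of_notMem_tsupport hx, mul_zero, mul_zero]
  have h3 : ∫ x, a x * lineDeriv ℝ u x e = -∫ x, lineDeriv ℝ u x (-e) * b x := by
    rw [← integral_neg]
    refine integral_congr_ae (Eventually.of_forall fun x => ?_)
    simp only
    by_cases hx : x ∈ tsupport u
    · rw [lineDeriv_neg, (hnear x hx).eq_of_nhds]; ring
    · have h0 : lineDeriv ℝ u x e = 0 := by
        have : u =ᶠ[𝓝 x] fun _ => 0 := by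
          filter_upwards [(isClosed_tsupport u).isOpen_compl.mem_nhds hx] with y hy
          exact image_eq_zero_of_notMem_tsupport hy
        rw [this.lineDeriv_eq]
        simp [lineDeriv]
      rw [lineDeriv_neg, h0]; ring
  rw [h3, h2, h1]

theorem inner_gradient (u : V → ℝ) (x e : V) : ⟪∇ u x, e⟫ = fderiv ℝ u x e := by
  rw [inner_gradient_left]

theorem measurable_gradient (u : V → ℝ) : Measurable (fun x => ∇ u x) := by
  have h : Measurable (fderiv ℝ u) := measurable_fderiv ℝ u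
  exact (InnerProductSpace.toDual ℝ V).symm.continuous.measurable.comp h

theorem norm_gradient (u : V → ℝ) (x : V) : ‖∇ u x‖ = ‖fderiv ℝ u x‖ := by
  unfold gradient
  rw [LinearIsometryEquiv.norm_map]

theorem gradient_bound {u : V → ℝ} {C : ℝ≥0} (hu : LipschitzWith C u) (x : V) : ‖∇ u x‖ ≤ C := by
  rw [norm_gradient]
  exact norm_fderiv_le_of_lipschitz ℝ hu

theorem gradient_zero_of_notMem {u : V → ℝ} {x : V} (hx : x ∉ tsupport u) : ∇ u x = 0 := by
  have h : u =ᶠ[𝓝 x] fun _ => 0 := by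
    filter_upwards [(isClosed_tsupport u).isOpen_compl.mem_nhds hx] with y hy
    exact image_eq_zero_of_notMem_tsupport hy
  rw [h.gradient_eq]
  simp [gradient]

theorem lineDeriv_ae {u : V → ℝ} {C : ℝ≥0} (hu : LipschitzWith C u) :
    ∀ᵐ x : V, ∀ e : V, lineDeriv ℝ u x e = ⟪∇ u x, e⟫ := by
  filter_upwards [hu.ae_differentiableAt] with x hx e
  rw [hx.lineDeriv_eq_fderiv, inner_gradient]

theorem hasDerivAt_phi {t : ℝ} (ht : 0 < t) :
    HasDerivAt (fun t : ℝ => (√t ^ 3)⁻¹) (-(3 / 2) * (√t ^ 5)⁻¹) t := by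
  have h1 : HasDerivAt (fun t : ℝ => √t) (1 / (2 * √t)) t := Real.hasDerivAt_sqrt ht.ne'
  have h2 := (h1.fun_pow 3).fun_inv (pow_ne_zero 3 (Real.sqrt_pos.mpr ht).ne')
  refine h2.congr_deriv ?_
  have : 0 < √t := Real.sqrt_pos.mpr ht
  field_simp
  norm_num
  ring

theorem hasFDerivAt_ke {ε : ℝ} (hε : 0 < ε) (x : V) :
    HasFDerivAt (fun x : V => (√(‖x‖ ^ 2 + ε ^ 2) ^ 3)⁻¹)
      ((-(3 / 2) * (√(‖x‖ ^ 2 + ε ^ 2) ^ 5)⁻¹) • ((2 : ℝ) • innerSL ℝ x)) x := by
  have hq : HasFDerivAt (fun x : V => ‖x‖ ^ 2 + ε ^ 2) ((2 : ℝ) • innerSL ℝ x) x := by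
    have := (hasStrictFDerivAt_norm_sq x).hasFDerivAt.add_const (ε ^ 2)
    refine this.congr_fderiv ?_
    ext y
    simp
  have h0 : 0 < ‖x‖ ^ 2 + ε ^ 2 := by positivity
  exact HasDerivAt.comp_hasFDerivAt (h₂ := fun t : ℝ => (√t ^ 3)⁻¹) x (hasDerivAt_phi h0) hq

theorem contDiff_ke {ε : ℝ} (hε : 0 < ε) :
    ContDiff ℝ 1 (fun x : V => (√(‖x‖ ^ 2 + ε ^ 2) ^ 3)⁻¹) := by
  have h1 : ContDiff ℝ 1 (fun x : V => ‖x‖ ^ 2 + ε ^ 2) := (contDiff_norm_sq ℝ).add contDiff_const
  have h2 : ContDiff ℝ 1 (fun x : V => √(‖x‖ ^ 2 + ε ^ 2)) :=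
    h1.sqrt fun x => by positivity
  refine (h2.pow 3).inv fun x => ?_
  have : 0 < √(‖x‖ ^ 2 + ε ^ 2) := Real.sqrt_pos.mpr (by positivity)
  positivity

theorem bdd_ibp_integrable {a : V → ℝ} (ha : Continuous a) {u : V → ℝ} {C : ℝ≥0}
    (hu : LipschitzWith C u) (hc : HasCompactSupport u) (e : V) :
    Integrable (fun x => a x * ⟪∇ u x, e⟫) := by
  obtain ⟨R, hR0, hR⟩ := exists_radius hc
  obtain ⟨M, hM⟩ := (isCompact_closedBall (0 : V) R).exists_bound_of_continuousOn ha.continuousOn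
  have hm : Measurable (fun x => a x * ⟪∇ u x, e⟫) :=
    ha.measurable.mul ((measurable_gradient u).inner measurable_const)
  have hM0 : 0 ≤ M := (norm_nonneg _).trans (hM 0 (by simp [hR0.le]))
  have hbc : BC (fun x => a x * ⟪∇ u x, e⟫) := by
    refine ⟨hm, ⟨M * (C * ‖e‖), fun x => ?_⟩, ⟨R, fun x hx => ?_⟩⟩
    · by_cases hx : x ∈ tsupport u
      · rw [abs_mul]
        refine mul_le_mul (hM x (ball_subset_closedBall (hR hx))) ?_ (abs_nonneg _) hM0
        exact (abs_real_inner_le_norm _ _).trans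
          (mul_le_mul_of_nonneg_right (gradient_bound hu x) (norm_nonneg _))
      · rw [gradient_zero_of_notMem hx, inner_zero_left, mul_zero, abs_zero]
        positivity
    · have hx' : x ∉ tsupport u := fun h => by
        have := hR h
        rw [mem_ball_zero_iff] at this
        linarith
      rw [gradient_zero_of_notMem hx', inner_zero_left, mul_zero]
  exact hbc.integrable

section dim3

variable [hd : Fact (Module.finrank ℝ V = 3)]

theorem div_rep {ε : ℝ} (hε : 0 < ε) {u : V → ℝ} {C : ℝ≥0} (hu : LipschitzWith C u)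
    (hc : HasCompactSupport u) :
    ∫ x, (√(‖x‖ ^ 2 + ε ^ 2) ^ 3)⁻¹ * ⟪x, ∇ u x⟫ =
      -∫ x, 3 * ε ^ 2 * (√(‖x‖ ^ 2 + ε ^ 2) ^ 5)⁻¹ * u x := by
  set b := stdOrthonormalBasis ℝ V with hb
  set k : V → ℝ := fun x => (√(‖x‖ ^ 2 + ε ^ 2) ^ 3)⁻¹ with hk
  set k5 : V → ℝ := fun x => (√(‖x‖ ^ 2 + ε ^ 2) ^ 5)⁻¹ with hk5
  have hkc : ContDiff ℝ 1 k := contDiff_ke hε
  have hk5c : Continuous k5 := by
    rw [hk5]
    have h2 : Continuous (fun x : V => √(‖x‖ ^ 2 + ε ^ 2) ^ 5) := by fun_prop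
    refine h2.inv₀ fun x => ?_
    have : 0 < √(‖x‖ ^ 2 + ε ^ 2) := Real.sqrt_pos.mpr (by positivity)
    positivity
  have ha : ∀ i, ContDiff ℝ 1 (fun x : V => k x * ⟪b i, x⟫) := fun i =>
    hkc.mul (contDiff_const.inner ℝ contDiff_id)
  have hda : ∀ i x, fderiv ℝ (fun x : V => k x * ⟪b i, x⟫) x (b i) =
      k x - 3 * k5 x * ⟪b i, x⟫ ^ 2 := by
    intro i x
    have h1 : HasFDerivAt (fun x : V => ⟪b i, x⟫) (innerSL ℝ (b i)) x := (innerSL ℝ (b i)).hasFDerivAt
    have h2 := (hasFDerivAt_ke hε x).mul h1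
    have h3 : HasFDerivAt (fun x : V => k x * ⟪b i, x⟫) _ x := h2
    rw [h3.fderiv]
    simp only [add_apply, smul_apply, smul_eq_mul,
      innerSL_apply_apply, real_inner_self_eq_norm_sq, b.norm_eq_one]
    rw [real_inner_comm (b i) x]
    simp only [hk, hk5]
    ring
  have hi : ∀ i, ∫ x, (k x * ⟪b i, x⟫) * ⟪∇ u x, b i⟫ =
      -∫ x, (k x - 3 * k5 x * ⟪b i, x⟫ ^ 2) * u x := by
    intro i
    have h := ibp (ha i) hu hc (b i)
    rw [integral_congr_ae (g := fun x => (k x * ⟪b i, x⟫) * ⟪∇ u x, b i⟫)] at h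
    · rw [h]
      congr 1
      refine integral_congr_ae (Eventually.of_forall fun x => ?_)
      simp only
      rw [hda]
    · filter_upwards [lineDeriv_ae hu] with x hx
      rw [hx]
  have hint1 : ∀ i ∈ (Finset.univ : Finset _), Integrable (fun x => (k x * ⟪b i, x⟫) * ⟪∇ u x, b i⟫) :=
    fun i _ => bdd_ibp_integrable (hkc.continuous.mul (by fun_prop)) hu hc (b i)
  have hint2 : ∀ i ∈ (Finset.univ : Finset _),
      Integrable (fun x => (k x - 3 * k5 x * ⟪b i, x⟫ ^ 2) * u x) := by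
    intro i _
    refine Continuous.integrable_of_hasCompactSupport ?_ hc.mul_left
    have h2 : Continuous fun x : V => ⟪b i, x⟫ := by fun_prop
    exact (hkc.continuous.sub ((continuous_const.mul hk5c).mul (h2.pow 2))).mul hu.continuous
  have hs1 : ∀ x : V, ∑ i, (k x * ⟪b i, x⟫) * ⟪∇ u x, b i⟫ = k x * ⟪x, ∇ u x⟫ := by
    intro x
    have h := b.sum_inner_mul_inner x (∇ u x)
    rw [← h, Finset.mul_sum]
    refine Finset.sum_congr rfl fun i _ => ?_
    rw [real_inner_comm (b i) x, real_inner_comm (∇ u x) (b i)]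
    ring
  have hs2 : ∀ x : V, ∑ i, (k x - 3 * k5 x * ⟪b i, x⟫ ^ 2) * u x = 3 * ε ^ 2 * k5 x * u x := by
    intro x
    rw [← Finset.sum_mul, Finset.sum_sub_distrib, ← Finset.mul_sum]
    have h1 : ∑ i, ⟪b i, x⟫ ^ 2 = ‖x‖ ^ 2 := by
      have h := b.sum_inner_mul_inner x x
      rw [real_inner_self_eq_norm_sq] at h
      rw [← h]
      refine Finset.sum_congr rfl fun i _ => ?_
      rw [real_inner_comm (b i) x]; ring
    rw [h1]
    have hcard : (Fintype.card (Fin (Module.finrank ℝ V)) : ℝ) = 3 := by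
      rw [Fintype.card_fin, hd.out]; norm_num
    simp only [Finset.sum_const, Finset.card_univ, nsmul_eq_mul, hcard]
    have hs : 0 < √(‖x‖ ^ 2 + ε ^ 2) := Real.sqrt_pos.mpr (by positivity)
    have hs2 : √(‖x‖ ^ 2 + ε ^ 2) ^ 2 = ‖x‖ ^ 2 + ε ^ 2 := Real.sq_sqrt (by positivity)
    have e1 : k x = k5 x * (‖x‖ ^ 2 + ε ^ 2) := by
      simp only [hk, hk5]
      nth_rewrite 3 [← hs2]
      generalize √(‖x‖ ^ 2 + ε ^ 2) = s at hs
      field_simp
    rw [e1]; ring
  calc ∫ x, k x * ⟪x, ∇ u x⟫ = ∫ x, ∑ i, (k x * ⟪b i, x⟫) * ⟪∇ u x, b i⟫ := by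
        refine integral_congr_ae (Eventually.of_forall fun x => ?_)
        simp only
        rw [hs1]
    _ = ∑ i, ∫ x, (k x * ⟪b i, x⟫) * ⟪∇ u x, b i⟫ := integral_finsetSum _ hint1
    _ = ∑ i, -∫ x, (k x - 3 * k5 x * ⟪b i, x⟫ ^ 2) * u x := Finset.sum_congr rfl fun i _ => hi i
    _ = -∫ x, ∑ i, (k x - 3 * k5 x * ⟪b i, x⟫ ^ 2) * u x := by
        rw [Finset.sum_neg_distrib, integral_finsetSum _ hint2]
    _ = _ := by
        congr 1
        refine integral_congr_ae (Eventually.of_forall fun x => ?_)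
        simp only
        rw [hs2]

variable (V) in
theorem vol_ball1 : volume.real (ball (0 : V) 1) = 4 / 3 * Real.pi := by
  haveI := nontriv (V := V)
  have h := InnerProductSpace.volume_ball_of_dim_odd (E := V) (k := 1) (by rw [hd.out]) 0 1
  rw [Measure.real, h, hd.out]
  rw [ENNReal.toReal_mul, ENNReal.toReal_pow, ENNReal.toReal_ofReal zero_le_one,
    ENNReal.toReal_ofReal (by positivity)]
  norm_num [Nat.doubleFactorial]
  ring

theorem k5_radial : IntegrableOn (fun r : ℝ => r ^ 2 * (3 * (√(r ^ 2 + 1) ^ 5)⁻¹)) (Ioi 0) ∧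
    ∫ r in Ioi (0 : ℝ), r ^ 2 * (3 * (√(r ^ 2 + 1) ^ 5)⁻¹) = 1 := by
  set F : ℝ → ℝ := fun r => (r * (√(r ^ 2 + 1))⁻¹) ^ 3 with hF
  have hpos : ∀ r : ℝ, 0 < √(r ^ 2 + 1) := fun r => Real.sqrt_pos.mpr (by positivity)
  have hsq : ∀ r : ℝ, √(r ^ 2 + 1) ^ 2 = r ^ 2 + 1 := fun r => Real.sq_sqrt (by positivity)
  have hder : ∀ r ∈ Ici (0 : ℝ), HasDerivAt F (r ^ 2 * (3 * (√(r ^ 2 + 1) ^ 5)⁻¹)) r := by
    intro r _
    have h1 : HasDerivAt (fun r : ℝ => r ^ 2 + 1) (2 * r) r := by
      have := (hasDerivAt_pow 2 r).add_const 1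
      simpa using this
    have h2 : HasDerivAt (fun r : ℝ => √(r ^ 2 + 1)) ((2 * r) / (2 * √(r ^ 2 + 1))) r :=
      h1.sqrt (by positivity)
    have h3 := ((hasDerivAt_id r).fun_mul (h2.fun_inv (hpos r).ne')).fun_pow 3
    refine h3.congr_deriv ?_
    have hp := hpos r
    have hs := hsq r
    have e1 : (1 : ℝ) * (√(r ^ 2 + 1))⁻¹ + id r * (-((2 * r) / (2 * √(r ^ 2 + 1))) / √(r ^ 2 + 1) ^ 2) =
        (√(r ^ 2 + 1) ^ 3)⁻¹ := by
      simp only [id]
      generalize √(r ^ 2 + 1) = s at hp hs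
      field_simp
      rw [hs]; ring
    rw [e1]
    simp only [id]
    generalize √(r ^ 2 + 1) = s at hp hs
    field_simp
    norm_num
    field_simp
  have hnn : ∀ r ∈ Ioi (0 : ℝ), 0 ≤ r ^ 2 * (3 * (√(r ^ 2 + 1) ^ 5)⁻¹) := fun r _ => by positivity
  have hlim : Tendsto F atTop (𝓝 1) := by
    have h1 : Tendsto (fun r : ℝ => r * (√(r ^ 2 + 1))⁻¹) atTop (𝓝 1) := by
      have h2 : ∀ᶠ r : ℝ in atTop, r * (√(r ^ 2 + 1))⁻¹ = (√(1 + (r ^ 2)⁻¹))⁻¹ := by
        filter_upwards [eventually_gt_atTop 0] with r hr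
        have e1 : r ^ 2 + 1 = r ^ 2 * (1 + (r ^ 2)⁻¹) := by field_simp
        rw [e1, Real.sqrt_mul (by positivity), Real.sqrt_sq hr.le, mul_inv, ← mul_assoc,
          mul_inv_cancel₀ hr.ne', one_mul]
      refine Tendsto.congr' (h2.mono fun r h => h.symm) ?_
      have h3 : Tendsto (fun r : ℝ => (r ^ 2)⁻¹) atTop (𝓝 0) :=
        (tendsto_pow_atTop two_ne_zero).inv_tendsto_atTop
      have h4 : Tendsto (fun r : ℝ => √(1 + (r ^ 2)⁻¹)) atTop (𝓝 √(1 + 0)) :=
        (Real.continuous_sqrt.tendsto _).comp (h3.const_add 1)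
      have h5 := h4.inv₀ (by norm_num)
      simpa using h5
    have := h1.pow 3
    simpa using this
  refine ⟨integrableOn_Ioi_deriv_of_nonneg' hder hnn hlim, ?_⟩
  rw [integral_Ioi_of_hasDerivAt_of_nonneg' hder hnn hlim]
  simp [hF]

variable (V) in
theorem k5_integrable : Integrable (fun w : V => 3 * (√(‖w‖ ^ 2 + 1) ^ 5)⁻¹) := by
  haveI := nontriv (V := V)
  rw [integrable_fun_norm_addHaar (volume : Measure V) (f := fun r : ℝ => 3 * (√(r ^ 2 + 1) ^ 5)⁻¹),
    hd.out]
  exact k5_radial.1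

variable (V) in
theorem k5_integral : ∫ w : V, 3 * (√(‖w‖ ^ 2 + 1) ^ 5)⁻¹ = 4 * Real.pi := by
  haveI := nontriv (V := V)
  rw [integral_fun_norm_addHaar (volume : Measure V) (fun r : ℝ => 3 * (√(r ^ 2 + 1) ^ 5)⁻¹),
    hd.out, vol_ball1]
  have := k5_radial.2
  simp only [smul_eq_mul, nsmul_eq_mul]
  have e : ∫ y in Ioi (0 : ℝ), y ^ (3 - 1) * (3 * (√(y ^ 2 + 1) ^ 5)⁻¹) = 1 := this
  rw [e]
  push_cast
  ring

theorem rhs_scale {ε : ℝ} (hε : 0 < ε) (u : V → ℝ) :
    ∫ x, 3 * ε ^ 2 * (√(‖x‖ ^ 2 + ε ^ 2) ^ 5)⁻¹ * u x =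
      ∫ w, 3 * (√(‖w‖ ^ 2 + 1) ^ 5)⁻¹ * u (ε • w) := by
  have h := Measure.integral_comp_smul (volume : Measure V)
    (fun x => 3 * ε ^ 2 * (√(‖x‖ ^ 2 + ε ^ 2) ^ 5)⁻¹ * u x) ε
  rw [hd.out, abs_of_pos (by positivity : (0 : ℝ) < (ε ^ 3)⁻¹)] at h
  have h2 : ∫ x, 3 * ε ^ 2 * (√(‖x‖ ^ 2 + ε ^ 2) ^ 5)⁻¹ * u x =
      ε ^ 3 * ∫ w, 3 * ε ^ 2 * (√(‖ε • w‖ ^ 2 + ε ^ 2) ^ 5)⁻¹ * u (ε • w) := by
    rw [h, smul_eq_mul, ← mul_assoc, mul_inv_cancel₀ (by positivity), one_mul]
  rw [h2, ← integral_const_mul]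
  refine integral_congr_ae (Eventually.of_forall fun w => ?_)
  simp only
  have e1 : √(‖ε • w‖ ^ 2 + ε ^ 2) = ε * √(‖w‖ ^ 2 + 1) := by
    rw [norm_smul, Real.norm_of_nonneg hε.le, mul_pow]
    rw [show ε ^ 2 * ‖w‖ ^ 2 + ε ^ 2 = ε ^ 2 * (‖w‖ ^ 2 + 1) by ring,
      Real.sqrt_mul (by positivity), Real.sqrt_sq hε.le]
  rw [e1]
  have hp : 0 < √(‖w‖ ^ 2 + 1) := Real.sqrt_pos.mpr (by positivity)
  generalize √(‖w‖ ^ 2 + 1) = s at hp
  field_simp

theorem kern_le {ε : ℝ} (x : V) (g : V) :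
    |(√(‖x‖ ^ 2 + ε ^ 2) ^ 3)⁻¹ * ⟪x, g⟫| ≤ (‖x‖ ^ 2)⁻¹ * ‖g‖ := by
  by_cases hx : x = 0
  · subst hx; simp
  have hn : 0 < ‖x‖ := norm_pos_iff.mpr hx
  have h1 : ‖x‖ ≤ √(‖x‖ ^ 2 + ε ^ 2) := by
    rw [← Real.sqrt_sq hn.le]
    refine Real.sqrt_le_sqrt ?_
    rw [Real.sqrt_sq hn.le]
    nlinarith [sq_nonneg ε]
  rw [abs_mul, abs_of_nonneg (by positivity)]
  calc (√(‖x‖ ^ 2 + ε ^ 2) ^ 3)⁻¹ * |⟪x, g⟫| ≤ (‖x‖ ^ 3)⁻¹ * (‖x‖ * ‖g‖) := by
        refine mul_le_mul ?_ (abs_real_inner_le_norm _ _) (abs_nonneg _) (by positivity)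
        exact inv_anti₀ (by positivity) (pow_le_pow_left₀ hn.le h1 3)
    _ = _ := by field_simp

theorem rep_dom_integrable {u : V → ℝ} {C : ℝ≥0} (hu : LipschitzWith C u)
    (hc : HasCompactSupport u) : Integrable (fun x => (‖x‖ ^ 2)⁻¹ * ‖∇ u x‖) := by
  obtain ⟨R, hR0, hR⟩ := exists_radius hc
  have h1 : Integrable ((ball (0 : V) R).indicator fun x => (‖x‖ ^ 2)⁻¹ * (C : ℝ)) := by
    rw [integrable_indicator_iff measurableSet_ball]
    exact (integrableOn_inv_sq R).mul_const _
  refine h1.mono' ?_ (Eventually.of_forall fun x => ?_)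
  · exact ((measurable_norm.pow_const 2).inv.mul (measurable_gradient u).norm).aestronglyMeasurable
  · rw [Real.norm_of_nonneg (by positivity)]
    by_cases hx : x ∈ tsupport u
    · rw [indicator_of_mem (hR hx)]
      exact mul_le_mul_of_nonneg_left (gradient_bound hu x) (by positivity)
    · rw [gradient_zero_of_notMem hx, norm_zero, mul_zero]
      exact indicator_nonneg (fun _ _ => by positivity) _

theorem inner_meas (u : V → ℝ) (ε : ℝ) :
    Measurable (fun x : V => (√(‖x‖ ^ 2 + ε ^ 2) ^ 3)⁻¹ * ⟪x, ∇ u x⟫) := by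
  have h1 : Measurable (fun x : V => (√(‖x‖ ^ 2 + ε ^ 2) ^ 3)⁻¹) := by
    have : Continuous (fun x : V => √(‖x‖ ^ 2 + ε ^ 2) ^ 3) := by fun_prop
    exact this.measurable.inv
  exact h1.mul (measurable_id.inner (measurable_gradient u))

theorem rep_zero {u : V → ℝ} {C : ℝ≥0} (hu : LipschitzWith C u)
    (hc : HasCompactSupport u) :
    ∫ x, (‖x‖ ^ 3)⁻¹ * ⟪x, ∇ u x⟫ = -(4 * Real.pi * u 0) := by
  haveI := nontriv (V := V)
  set e : ℕ → ℝ := fun n => 1 / ((n : ℝ) + 1) with he
  have he0 : ∀ n, 0 < e n := fun n => by positivity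
  have hel : Tendsto e atTop (𝓝 0) := tendsto_one_div_add_atTop_nhds_zero_nat
  have hL : Tendsto (fun n => ∫ x, (√(‖x‖ ^ 2 + e n ^ 2) ^ 3)⁻¹ * ⟪x, ∇ u x⟫) atTop
      (𝓝 (∫ x, (‖x‖ ^ 3)⁻¹ * ⟪x, ∇ u x⟫)) := by
    refine tendsto_integral_of_dominated_convergence (fun x => (‖x‖ ^ 2)⁻¹ * ‖∇ u x‖)
      (fun n => (inner_meas u (e n)).aestronglyMeasurable) (rep_dom_integrable hu hc)
      (fun n => Eventually.of_forall fun x => ?_) ?_
    · exact kern_le x _
    · have hne : ∀ᵐ x : V, x ≠ 0 := by rw [ae_iff]; simp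
      filter_upwards [hne] with x hx
      have hn : 0 < ‖x‖ := norm_pos_iff.mpr hx
      refine Tendsto.mul_const _ ?_
      have h1 : Tendsto (fun n => √(‖x‖ ^ 2 + e n ^ 2) ^ 3) atTop (𝓝 (√(‖x‖ ^ 2 + 0 ^ 2) ^ 3)) :=
        (((Real.continuous_sqrt.tendsto _).comp ((hel.pow 2).const_add _))).pow 3
      have e1 : √(‖x‖ ^ 2 + 0 ^ 2) = ‖x‖ := by
        rw [zero_pow two_ne_zero, add_zero, Real.sqrt_sq hn.le]
      rw [e1] at h1
      exact h1.inv₀ (by positivity)
  have hR : Tendsto (fun n => ∫ w : V, 3 * (√(‖w‖ ^ 2 + 1) ^ 5)⁻¹ * u (e n • w)) atTop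
      (𝓝 (∫ w : V, 3 * (√(‖w‖ ^ 2 + 1) ^ 5)⁻¹ * u 0)) := by
    obtain ⟨M, hM⟩ := hc.exists_bound_of_continuous hu.continuous
    refine tendsto_integral_of_dominated_convergence
      (fun w => 3 * (√(‖w‖ ^ 2 + 1) ^ 5)⁻¹ * M) (fun n => ?_)
      ((k5_integrable V).mul_const M) (fun n => Eventually.of_forall fun w => ?_)
      (Eventually.of_forall fun w => ?_)
    · have h1 : Measurable (fun w : V => 3 * (√(‖w‖ ^ 2 + 1) ^ 5)⁻¹) := by
        have : Continuous (fun x : V => √(‖x‖ ^ 2 + 1) ^ 5) := by fun_prop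
        exact measurable_const.mul this.measurable.inv
      exact (h1.mul (hu.continuous.comp (continuous_const_smul (e n))).measurable).aestronglyMeasurable
    · rw [norm_mul, Real.norm_of_nonneg (by positivity)]
      exact mul_le_mul_of_nonneg_left (hM _) (by positivity)
    · refine Tendsto.const_mul _ ?_
      have h1 : Tendsto (fun n => e n • w) atTop (𝓝 ((0 : ℝ) • w)) := hel.smul_const w
      rw [zero_smul] at h1
      exact (hu.continuous.tendsto 0).comp h1
  have hR2 := hR.neg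
  have heq : ∀ n, ∫ x, (√(‖x‖ ^ 2 + e n ^ 2) ^ 3)⁻¹ * ⟪x, ∇ u x⟫ =
      -∫ w : V, 3 * (√(‖w‖ ^ 2 + 1) ^ 5)⁻¹ * u (e n • w) := fun n => by
    rw [div_rep (he0 n) hu hc, rhs_scale (he0 n)]
  simp_rw [heq] at hL
  rw [tendsto_nhds_unique hL hR2, integral_mul_const, k5_integral]

/-- the representation formula -/
theorem rep {u : V → ℝ} {C : ℝ≥0} (hu : LipschitzWith C u) (hc : HasCompactSupport u) (y : V) :
    ∫ x, (‖x - y‖ ^ 3)⁻¹ * ⟪x - y, ∇ u x⟫ = -(4 * Real.pi * u y) := by
  set v : V → ℝ := fun x => u (x + y) with hv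
  have hvl : LipschitzWith C v := by
    have h2 : LipschitzWith 1 (fun x : V => x + y) := (isometry_add_right y).lipschitz
    have := hu.comp h2
    rwa [mul_one] at this
  have hvc : HasCompactSupport v := hc.comp_homeomorph (Homeomorph.addRight y)
  have h := rep_zero hvl hvc
  have hg : ∀ x, ∇ v x = ∇ u (x + y) := by
    intro x
    unfold gradient
    rw [hv, fderiv_comp_add_right]
  simp_rw [hg] at h
  rw [← integral_add_right_eq_self (fun x => (‖x - y‖ ^ 3)⁻¹ * ⟪x - y, ∇ u x⟫) y]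
  simp only [add_sub_cancel_right]
  rw [h, hv]
  simp

end dim3

end Pool.Agent.TF

end

section
/-! Soft truncation, level sets, and locally Lipschitz functions with compact support. -/

set_option linter.unusedSectionVars false

set_option linter.unusedVariables false

set_option linter.style.haveILetI false

namespace Pool.Agent.TF

open MeasureTheory Set Metric Filter Topology

open scoped ENNReal NNReal RealInnerProductSpace Gradient

variable {V : Type*} [NormedAddCommGroup V] [InnerProductSpace ℝ V] [FiniteDimensional ℝ V]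
  [MeasurableSpace V] [BorelSpace V]

/-! ### soft truncation -/

/-- the soft threshold function -/
noncomputable def soft (d s : ℝ) : ℝ := s - max (-d) (min s d)

theorem soft_lip {d : ℝ} (hd : 0 ≤ d) (s t : ℝ) : |soft d s - soft d t| ≤ |s - t| := by
  have key : ∀ s t : ℝ, s ≤ t → 0 ≤ soft d t - soft d s ∧ soft d t - soft d s ≤ t - s := by
    intro s t h
    unfold soft
    rcases le_total s d with h1 | h1 <;> rcases le_total t d with h2 | h2 <;>
      rcases le_total (-d) s with h3 | h3 <;> rcases le_total (-d) t with h4 | h4 <;>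
      simp only [min_eq_left h1, min_eq_right h1, min_eq_left h2, min_eq_right h2,
        max_eq_right h3, max_eq_left h3, max_eq_right h4, max_eq_left h4,
        max_eq_right (by linarith : -d ≤ d)] <;> constructor <;> linarith
  rcases le_total s t with h | h
  · obtain ⟨a, b⟩ := key s t h
    rw [abs_sub_comm, abs_sub_comm s, abs_of_nonneg a, abs_of_nonneg (by linarith)]
    exact b
  · obtain ⟨a, b⟩ := key t s h
    rw [abs_of_nonneg a, abs_of_nonneg (by linarith)]
    exact b

theorem soft_eq_zero {d s : ℝ} (h : |s| ≤ d) : soft d s = 0 := by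
  unfold soft
  have h1 := abs_le.mp h
  rw [min_eq_left h1.2, max_eq_right h1.1, sub_self]

theorem soft_abs_le {d : ℝ} (hd : 0 ≤ d) (s : ℝ) : |soft d s| ≤ |s| := by
  have h := soft_lip hd s 0
  rwa [soft_eq_zero (s := 0) (by rwa [abs_zero]), sub_zero, sub_zero] at h

theorem soft_sub_le {d : ℝ} (hd : 0 ≤ d) (s : ℝ) : |soft d s - s| ≤ d := by
  unfold soft
  rw [show s - max (-d) (min s d) - s = -max (-d) (min s d) by ring, abs_neg, abs_le]
  exact ⟨le_max_left _ _, max_le (by linarith) (min_le_right _ _)⟩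

theorem soft_lipschitz {d : ℝ} (hd : 0 ≤ d) : LipschitzWith 1 (soft d) :=
  LipschitzWith.of_dist_le_mul fun s t => by
    rw [NNReal.coe_one, one_mul, Real.dist_eq, Real.dist_eq]; exact soft_lip hd s t

/-- gradient of a one-Lipschitz function of a differentiable function -/
theorem gradient_comp_le {g : ℝ → ℝ} (hg : LipschitzWith 1 g) {k : V → ℝ} {x : V}
    (hk : DifferentiableAt ℝ k x) : ‖∇ (fun y => g (k y)) x‖ ≤ ‖∇ k x‖ := by
  by_cases hd : DifferentiableAt ℝ (fun y => g (k y)) x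
  · rw [norm_gradient, norm_gradient]
    refine ContinuousLinearMap.opNorm_le_bound _ (norm_nonneg _) fun v => ?_
    have h1 : Tendsto (fun t : ℝ => ‖t⁻¹ • (g (k (x + t • v)) - g (k x))‖) (𝓝[>] 0)
        (𝓝 ‖fderiv ℝ (fun y => g (k y)) x v‖) := by
      have h := hd.hasFDerivAt.hasLineDerivAt v
      exact (h.tendsto_slope_zero_right).norm
    have h2 : Tendsto (fun t : ℝ => ‖t⁻¹ • (k (x + t • v) - k x)‖) (𝓝[>] 0)
        (𝓝 ‖fderiv ℝ k x v‖) := by
      have h := hk.hasFDerivAt.hasLineDerivAt v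
      exact (h.tendsto_slope_zero_right).norm
    refine (le_of_tendsto_of_tendsto' h1 h2 fun t => ?_).trans (ContinuousLinearMap.le_opNorm _ _)
    rw [norm_smul, norm_smul]
    refine mul_le_mul_of_nonneg_left ?_ (norm_nonneg _)
    have h3 := hg.dist_le_mul (k (x + t • v)) (k x)
    rwa [NNReal.coe_one, one_mul, dist_eq_norm, dist_eq_norm] at h3
  · rw [norm_gradient, fderiv_zero_of_not_differentiableAt hd, norm_zero]
    exact norm_nonneg _

theorem gradient_soft_zero {d : ℝ} {k : V → ℝ} {x : V} (hk : ContinuousAt k x) (h : |k x| < d) :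
    ∇ (fun y => soft d (k y)) x = 0 := by
  have h1 : (fun y => soft d (k y)) =ᶠ[𝓝 x] fun _ => 0 := by
    have h2 : ∀ᶠ y in 𝓝 x, |k y| < d := hk.abs.eventually (gt_mem_nhds h)
    filter_upwards [h2] with y hy
    exact soft_eq_zero hy.le
  rw [h1.gradient_eq]
  simp [gradient]

theorem gradient_soft_eq {d : ℝ} (hd : 0 ≤ d) {k : V → ℝ} {x : V} (hk : ContinuousAt k x)
    (h : d < |k x|) : ∇ (fun y => soft d (k y)) x = ∇ k x := by
  rcases lt_abs.mp h with h0 | h0
  · have h2 : ∀ᶠ y in 𝓝 x, d < k y := hk.eventually (lt_mem_nhds h0)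
    have h1 : (fun y => soft d (k y)) =ᶠ[𝓝 x] fun y => k y - d := by
      filter_upwards [h2] with y hy
      unfold soft
      rw [min_eq_right hy.le, max_eq_right (by linarith)]
    rw [h1.gradient_eq]
    unfold gradient
    rw [fderiv_sub_const]
  · have h2 : ∀ᶠ y in 𝓝 x, k y < -d := hk.eventually (gt_mem_nhds (by linarith))
    have h1 : (fun y => soft d (k y)) =ᶠ[𝓝 x] fun y => k y + d := by
      filter_upwards [h2] with y hy
      unfold soft
      rw [min_eq_left (by linarith), max_eq_left (by linarith)]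
      ring
    rw [h1.gradient_eq]
    unfold gradient
    rw [fderiv_add_const]

/-! ### level sets -/

/-- the gradient vanishes almost everywhere on a level set -/
theorem ae_level {k : V → ℝ} (hk : Measurable k) (c : ℝ) :
    ∀ᵐ x : V, k x = c → DifferentiableAt ℝ k x → ∇ k x = 0 := by
  rcases subsingleton_or_nontrivial V with hV | hV
  · exact Eventually.of_forall fun x _ _ => Subsingleton.elim _ _
  obtain ⟨e, he⟩ := exists_norm_eq V (zero_le_one (α := ℝ))
  set s : Set V := {x | k x = c} ∩ {x | DifferentiableAt ℝ k x} with hs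
  have hsm : MeasurableSet s :=
    (hk (measurableSet_singleton c)).inter (measurableSet_of_differentiableAt ℝ k)
  have hA : ApproximatesLinearOn (fun x => k x • e) (0 : V →L[ℝ] V) s 0 := by
    intro x hx y hy
    have h1 : k x = c := hx.1
    have h2 : k y = c := hy.1
    simp [h1, h2]
  have h1 := hA.norm_fderiv_sub_le (volume : Measure V) hsm
    (fun x => (fderiv ℝ k x).smulRight e) (fun x hx => by
      have h2 : DifferentiableAt ℝ k x := hx.2
      exact (h2.hasFDerivAt.smul_const e).hasFDerivWithinAt)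
  rw [ae_restrict_iff' hsm] at h1
  filter_upwards [h1] with x hx h2 h3
  have h4 := hx ⟨h2, h3⟩
  rw [sub_zero] at h4
  have h5 : ‖(fderiv ℝ k x).smulRight e‖ = 0 := le_antisymm (by exact_mod_cast h4) (norm_nonneg _)
  rw [ContinuousLinearMap.norm_smulRight_apply, he, mul_one, ← norm_gradient] at h5
  exact norm_eq_zero.mp h5

/-! ### locally Lipschitz functions -/

/-- local Lipschitz property at a point -/
def LipAt (k : V → ℝ) (x : V) : Prop := ∃ C : ℝ≥0, ∃ t ∈ 𝓝 x, LipschitzOnWith C k t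

theorem LipAt.continuousAt {k : V → ℝ} {x : V} (h : LipAt k x) : ContinuousAt k x := by
  obtain ⟨C, t, ht, hC⟩ := h
  exact hC.continuousOn.continuousAt ht

theorem LipAt.congr {k l : V → ℝ} {x : V} (h : LipAt k x) (he : k =ᶠ[𝓝 x] l) : LipAt l x := by
  obtain ⟨C, t, ht, hC⟩ := h
  refine ⟨C, t ∩ {y | k y = l y}, inter_mem ht he, ?_⟩
  intro y hy z hz
  rw [← hy.2, ← hz.2]
  exact hC hy.1 hz.1

theorem LipAt.const (c : ℝ) (x : V) : LipAt (fun _ => c) x :=
  ⟨0, univ, univ_mem, (LipschitzWith.const c).lipschitzOnWith⟩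

theorem lipAt_of_lip {k : V → ℝ} {C : ℝ≥0} (h : LipschitzWith C k) (x : V) : LipAt k x :=
  ⟨C, univ, univ_mem, h.lipschitzOnWith⟩

/-- composition with a function of two real variables -/
theorem LipAt.comp2 {a b : V → ℝ} {x : V} (ha : LipAt a x) (hb : LipAt b x) {F : ℝ × ℝ → ℝ}
    (hF : ∃ C : ℝ≥0, ∃ t ∈ 𝓝 (a x, b x), LipschitzOnWith C F t) :
    LipAt (fun y => F (a y, b y)) x := by
  obtain ⟨C, t, ht, hC⟩ := ha
  obtain ⟨D, s, hs, hD⟩ := hb
  obtain ⟨K, w, hw, hK⟩ := hF
  have hab : ContinuousAt (fun y => (a y, b y)) x :=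
    (hC.continuousOn.continuousAt ht).prodMk (hD.continuousOn.continuousAt hs)
  refine ⟨K * max C D, (t ∩ s) ∩ (fun y => (a y, b y)) ⁻¹' w,
    inter_mem (inter_mem ht hs) (hab hw), ?_⟩
  have h1 : LipschitzOnWith (max C D) (fun y => (a y, b y)) ((t ∩ s) ∩ (fun y => (a y, b y)) ⁻¹' w) :=
    (hC.mono fun y hy => hy.1.1).prodMk (hD.mono fun y hy => hy.1.2)
  exact hK.comp h1 fun y hy => hy.2

theorem LipAt.comp_contDiff {a b : V → ℝ} {x : V} (ha : LipAt a x) (hb : LipAt b x)
    {F : ℝ × ℝ → ℝ} (hF : ContDiffAt ℝ 1 F (a x, b x)) : LipAt (fun y => F (a y, b y)) x := by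
  obtain ⟨K, t, ht, h⟩ := hF.exists_lipschitzOnWith
  exact ha.comp2 hb ⟨K, t, ht, h⟩

theorem LipAt.mul {a b : V → ℝ} {x : V} (ha : LipAt a x) (hb : LipAt b x) :
    LipAt (fun y => a y * b y) x :=
  ha.comp_contDiff hb (F := fun p => p.1 * p.2) (by fun_prop)

theorem LipAt.add {a b : V → ℝ} {x : V} (ha : LipAt a x) (hb : LipAt b x) :
    LipAt (fun y => a y + b y) x :=
  ha.comp_contDiff hb (F := fun p => p.1 + p.2) (by fun_prop)

theorem LipAt.sub {a b : V → ℝ} {x : V} (ha : LipAt a x) (hb : LipAt b x) :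
    LipAt (fun y => a y - b y) x :=
  ha.comp_contDiff hb (F := fun p => p.1 - p.2) (by fun_prop)

theorem LipAt.max {a b : V → ℝ} {x : V} (ha : LipAt a x) (hb : LipAt b x) :
    LipAt (fun y => Max.max (a y) (b y)) x := by
  refine ha.comp2 hb (F := fun p => Max.max p.1 p.2) ⟨Max.max 1 1, univ, univ_mem, ?_⟩
  exact (LipschitzWith.prod_fst.max LipschitzWith.prod_snd).lipschitzOnWith

theorem LipAt.comp_lip {a : V → ℝ} {x : V} (ha : LipAt a x) {g : ℝ → ℝ} {C : ℝ≥0}
    (hg : LipschitzWith C g) : LipAt (fun y => g (a y)) x := by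
  obtain ⟨K, t, ht, h⟩ := ha
  exact ⟨C * K, t, ht, hg.comp_lipschitzOnWith h⟩

/-- a function with continuous gradient near a point is locally Lipschitz there -/
theorem lipAt_of_gradient {k : V → ℝ} {k' : V → V} {x : V} {δ : ℝ} (hδ : 0 < δ)
    (h : ∀ y ∈ ball x δ, HasGradientAt k (k' y) y) (hc : ContinuousAt k' x) : LipAt k x := by
  have h1 : ∀ᶠ y in 𝓝 x, ‖k' y‖ < ‖k' x‖ + 1 := hc.norm.eventually (gt_mem_nhds (by linarith))
  obtain ⟨r, hr, hr'⟩ := Metric.eventually_nhds_iff_ball.mp h1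
  refine ⟨(‖k' x‖ + 1).toNNReal, ball x (Min.min r δ), ball_mem_nhds x (lt_min hr hδ), ?_⟩
  refine (convex_ball x _).lipschitzOnWith_of_nnnorm_hasFDerivWithin_le
    (f' := fun y => (InnerProductSpace.toDual ℝ V) (k' y)) (fun y hy => ?_) (fun y hy => ?_)
  · exact (h y (ball_subset_ball (min_le_right _ _) hy)).hasFDerivAt.hasFDerivWithinAt
  · have h2 := (hr' y (ball_subset_ball (min_le_left _ _) hy)).le
    rw [← NNReal.coe_le_coe, coe_nnnorm, LinearIsometryEquiv.norm_map,
      Real.coe_toNNReal _ (by positivity)]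
    exact h2

/-- locally Lipschitz with compact support implies Lipschitz -/
theorem lipschitz_of_compact {u : V → ℝ} (h : ∀ x, LipAt u x) {R : ℝ} (hR : 0 < R)
    (h0 : ∀ x, R ≤ ‖x‖ → u x = 0) : (∃ C, LipschitzWith C u) ∧ HasCompactSupport u := by
  have hcs : HasCompactSupport u := by
    refine HasCompactSupport.intro (isCompact_closedBall (0 : V) R) fun x hx => h0 x ?_
    rw [mem_closedBall_zero_iff, not_le] at hx
    exact hx.le
  refine ⟨?_, hcs⟩
  have hll : LocallyLipschitz u := fun x => h x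
  have h1 : LocallyLipschitzOn (closedBall (0 : V) (R + 1)) u := hll.locallyLipschitzOn
  obtain ⟨K, hK⟩ := h1.exists_lipschitzOnWith_of_compact (isCompact_closedBall _ _)
  obtain ⟨M, hM⟩ := hcs.exists_bound_of_continuous hll.continuous
  have hM0 : 0 ≤ M := (norm_nonneg _).trans (hM 0)
  refine ⟨Max.max K M.toNNReal, LipschitzWith.of_dist_le_mul fun x y => ?_⟩
  have hcoe : ((Max.max K M.toNNReal : ℝ≥0) : ℝ) = Max.max (K : ℝ) M := by
    rw [NNReal.coe_max, Real.coe_toNNReal _ hM0]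
  rw [hcoe]
  have key : ∀ x y : V, ‖x‖ ≤ R → R + 1 < ‖y‖ → dist (u x) (u y) ≤ Max.max (K : ℝ) M * dist x y := by
    intro x y hx hy
    rw [h0 y (by linarith), dist_zero_right]
    have h2 : 1 ≤ dist x y := by
      rw [dist_comm, dist_eq_norm]
      have := norm_sub_norm_le y x
      linarith
    calc ‖u x‖ ≤ M := hM x
      _ ≤ Max.max (K : ℝ) M * 1 := by rw [mul_one]; exact le_max_right _ _
      _ ≤ _ := mul_le_mul_of_nonneg_left h2 (hM0.trans (le_max_right _ _))
  by_cases hx : ‖x‖ ≤ R + 1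
  · by_cases hy : ‖y‖ ≤ R + 1
    · refine (hK.dist_le_mul x (by simpa using hx) y (by simpa using hy)).trans ?_
      exact mul_le_mul_of_nonneg_right (le_max_left _ _) dist_nonneg
    · push Not at hy
      by_cases hx2 : ‖x‖ ≤ R
      · exact key x y hx2 hy
      · push Not at hx2
        rw [h0 x hx2.le, h0 y (by linarith), dist_self]
        positivity
  · push Not at hx
    by_cases hy2 : ‖y‖ ≤ R
    · rw [dist_comm (u x), dist_comm x]
      exact key y x hy2 hx
    · push Not at hy2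
      rw [h0 x (by linarith), h0 y hy2.le, dist_self]
      positivity

end Pool.Agent.TF

end

section
/-! Gradient calculus for piecewise functions: algebra of `HasGradientAt`, chain rules,
continuous selections of Lipschitz functions, and the fact that two locally Lipschitz functions
have the same gradient at almost every point where they agree. -/

set_option autoImplicit false

set_option linter.unusedSectionVars false

set_option linter.unusedVariables false

namespace Pool.Agent.TF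

open MeasureTheory Set Metric Filter Topology

open scoped ENNReal NNReal RealInnerProductSpace Gradient

variable {V : Type*} [NormedAddCommGroup V] [InnerProductSpace ℝ V] [FiniteDimensional ℝ V]
  [MeasurableSpace V] [BorelSpace V]

/-! ### algebra of gradients -/

section algebra

variable {u v : V → ℝ} {a b x : V}

theorem hg_sub (hu : HasGradientAt u a x) (hv : HasGradientAt v b x) :
    HasGradientAt (fun y => u y - v y) (a - b) x := by
  rw [hasGradientAt_iff_hasFDerivAt] at *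
  rw [map_sub]
  exact hu.fun_sub hv

theorem hg_const_mul (c : ℝ) (hu : HasGradientAt u a x) :
    HasGradientAt (fun y => c * u y) (c • a) x := by
  rw [hasGradientAt_iff_hasFDerivAt] at *
  rw [map_smul]
  exact hu.const_mul c

/-- composition with a function of one variable -/
theorem hg_comp {f : ℝ → ℝ} {f' : ℝ} (hf : HasDerivAt f f' (u x)) (hu : HasGradientAt u a x) :
    HasGradientAt (fun y => f (u y)) (f' • a) x := by
  rw [hasGradientAt_iff_hasFDerivAt] at *
  rw [map_smul]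
  exact hf.comp_hasFDerivAt x hu

/-- the gradient of the distance to a point -/
theorem hg_dist (P : V) (hx : x ≠ P) :
    HasGradientAt (fun y => ‖y - P‖) (‖x - P‖⁻¹ • (x - P)) x := by
  have hx' : x - P ≠ 0 := sub_ne_zero.mpr hx
  have hn : 0 < ‖x - P‖ := norm_pos_iff.mpr hx'
  have h1 : HasFDerivAt (fun y : V => ‖y - P‖ ^ 2) ((2 : ℝ) • innerSL ℝ (x - P)) x := by
    have h := (hasStrictFDerivAt_norm_sq (x - P)).hasFDerivAt.comp x
      ((hasFDerivAt_id x).sub_const P)
    refine h.congr_fderiv ?_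
    ext y
    simp
  have h := h1.sqrt (by positivity)
  have e : (fun y : V => √(‖y - P‖ ^ 2)) = fun y => ‖y - P‖ := by
    funext z; exact Real.sqrt_sq (norm_nonneg _)
  rw [e] at h
  rw [hasGradientAt_iff_hasFDerivAt]
  refine h.congr_fderiv ?_
  ext v
  rw [map_smul]
  simp only [_root_.smul_apply, innerSL_apply_apply,
    InnerProductSpace.toDual_apply_apply, Real.sqrt_sq (norm_nonneg (x - P)), smul_eq_mul]
  field_simp

end algebra

/-! ### almost everywhere statements -/

/-- Rademacher for locally Lipschitz functions -/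
theorem ae_diff_of_lipAt {u : V → ℝ} {U : Set V} (h : ∀ x ∈ U, LipAt u x) :
    ∀ᵐ x : V, x ∈ U → DifferentiableAt ℝ u x := by
  have key : volume {x : V | x ∈ U ∧ ¬ DifferentiableAt ℝ u x} = 0 := by
    refine measure_null_of_locally_null _ fun x hx => ?_
    obtain ⟨C, t, ht, hC⟩ := h x hx.1
    obtain ⟨s, hst, hso, hxs⟩ := _root_.mem_nhds_iff.mp ht
    refine ⟨s ∩ {x : V | x ∈ U ∧ ¬ DifferentiableAt ℝ u x}, ?_, ?_⟩
    · exact inter_mem (mem_nhdsWithin_of_mem_nhds (hso.mem_nhds hxs)) self_mem_nhdsWithin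
    · have h1 := (hC.mono hst).ae_differentiableWithinAt_of_mem (μ := (volume : Measure V))
      rw [ae_iff] at h1
      refine measure_mono_null ?_ h1
      rintro y ⟨hy, hy2⟩ hh
      exact hy2.2 ((hh hy).differentiableAt (hso.mem_nhds hy))
  rw [ae_iff]
  refine measure_mono_null ?_ key
  intro x hx
  simpa using hx

/-! ### continuous selections -/

end Pool.Agent.TF

end

section
/-! The gradient of a Newtonian potential and the weak Poisson equation. -/

set_option linter.unusedSectionVars false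

set_option linter.unusedVariables false

set_option linter.style.haveILetI false

namespace Pool.Agent.TF

open MeasureTheory Set Metric Filter Topology

open scoped ENNReal NNReal RealInnerProductSpace Gradient

variable {V : Type*} [NormedAddCommGroup V] [InnerProductSpace ℝ V] [FiniteDimensional ℝ V]
  [MeasurableSpace V] [BorelSpace V]

/-- the gradient of the potential as a vector -/
noncomputable def gradV (f : V → ℝ) (x : V) : V := -∫ y, f y • ((‖x - y‖ ^ 3)⁻¹ • (x - y))

theorem norm_kv (v : V) : ‖(‖v‖ ^ 3)⁻¹ • v‖ = (‖v‖ ^ 2)⁻¹ := by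
  rw [norm_smul, norm_inv, norm_pow, norm_norm]
  by_cases hv : ‖v‖ = 0
  · simp [hv]
  · field_simp

theorem measurable_kv : Measurable (fun v : V => (‖v‖ ^ 3)⁻¹ • v) :=
  (measurable_norm.pow_const 3).inv.smul measurable_id

/-- the integrand of `gradV` is integrable at `x` -/
def GI (f : V → ℝ) (x : V) : Prop := Integrable (fun y => f y • ((‖x - y‖ ^ 3)⁻¹ • (x - y)))

theorem GI_iff {f : V → ℝ} (hf : Measurable f) (x : V) :
    GI f x ↔ Integrable (fun y => (‖x - y‖ ^ 2)⁻¹ * |f y|) := by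
  have hm : Measurable (fun y => f y • ((‖x - y‖ ^ 3)⁻¹ • (x - y))) :=
    hf.smul (measurable_kv.comp (measurable_const.sub measurable_id))
  unfold GI
  rw [← integrable_norm_iff hm.aestronglyMeasurable]
  refine integrable_congr (Eventually.of_forall fun y => ?_)
  simp only
  rw [norm_smul, norm_kv, Real.norm_eq_abs, mul_comm]

theorem inner_gradV {f : V → ℝ} {x : V} (h : GI f x) (e : V) : ⟪gradV f x, e⟫ = grad e f x := by
  unfold gradV grad
  rw [inner_neg_left, real_inner_comm, ← integral_inner h, ← integral_neg]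
  refine integral_congr_ae (Eventually.of_forall fun y => ?_)
  simp only
  rw [inner_smul_right, inner_smul_right, real_inner_comm]
  ring

theorem gradV_norm_le {f : V → ℝ} (x : V) : ‖gradV f x‖ ≤ ∫ y, (‖x - y‖ ^ 2)⁻¹ * |f y| := by
  unfold gradV
  rw [norm_neg]
  refine (norm_integral_le_integral_norm _).trans (le_of_eq ?_)
  refine integral_congr_ae (Eventually.of_forall fun y => ?_)
  simp only
  rw [norm_smul, norm_kv, Real.norm_eq_abs, mul_comm]

theorem gradV_add {f g : V → ℝ} {x : V} (hf : GI f x) (hg : GI g x) :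
    gradV (fun y => f y + g y) x = gradV f x + gradV g x := by
  unfold gradV
  rw [← neg_add, ← integral_add hf hg]
  congr 1
  refine integral_congr_ae (Eventually.of_forall fun y => ?_)
  simp only
  rw [add_smul]

theorem ker_sq : Ker (fun v : V => (‖v‖ ^ 2)⁻¹) where
  meas := (measurable_norm.pow_const 2).inv
  cont v hv := by
    have : ‖v‖ ^ 2 ≠ 0 := pow_ne_zero _ (norm_ne_zero_iff.mpr hv)
    fun_prop (disch := assumption)
  bd := by
    refine ⟨1, zero_le_one, fun v => ?_⟩
    rw [abs_of_nonneg (by positivity)]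
    linarith

/-- a function with continuous line derivatives near a point is differentiable there -/
theorem hasGradientAt_of_line {g : V → ℝ} {G : V → V} {x₀ : V} {δ : ℝ} (hδ : 0 < δ)
    (hl : ∀ x ∈ ball x₀ δ, ∀ e : V, HasDerivAt (fun t : ℝ => g (x + t • e)) ⟪G x, e⟫ 0)
    (hc : ContinuousAt G x₀) : HasGradientAt g (G x₀) x₀ := by
  rw [hasGradientAt_iff_isLittleO, Asymptotics.isLittleO_iff]
  intro ε hε
  have h1 : ∀ᶠ x in 𝓝 x₀, ‖G x - G x₀‖ < ε := by
    have := hc.eventually (ball_mem_nhds (G x₀) hε)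
    filter_upwards [this] with x hx
    rwa [dist_eq_norm] at hx
  obtain ⟨r, hr, hr'⟩ := Metric.eventually_nhds_iff_ball.mp h1
  filter_upwards [ball_mem_nhds x₀ (lt_min hr hδ)] with x hx
  have hxr : ‖x - x₀‖ < r := by
    rw [mem_ball, dist_eq_norm] at hx; exact hx.trans_le (min_le_left _ _)
  have hxδ : ‖x - x₀‖ < δ := by
    rw [mem_ball, dist_eq_norm] at hx; exact hx.trans_le (min_le_right _ _)
  set v := x - x₀ with hv
  set F : ℝ → ℝ := fun t => g (x₀ + t • v) - t * ⟪G x₀, v⟫ with hF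
  have hmem : ∀ t ∈ Icc (0 : ℝ) 1, ‖(x₀ + t • v) - x₀‖ ≤ ‖v‖ := by
    intro t ht
    rw [add_sub_cancel_left, norm_smul, Real.norm_of_nonneg ht.1]
    exact mul_le_of_le_one_left (norm_nonneg _) ht.2
  have hder : ∀ t ∈ Icc (0 : ℝ) 1, HasDerivWithinAt F (⟪G (x₀ + t • v), v⟫ - ⟪G x₀, v⟫)
      (Icc 0 1) t := by
    intro t ht
    have hb : x₀ + t • v ∈ ball x₀ δ := by
      rw [mem_ball, dist_eq_norm]
      exact (hmem t ht).trans_lt hxδ
    have h2 := hl _ hb v
    have h3 : HasDerivAt (fun s : ℝ => g (x₀ + s • v)) ⟪G (x₀ + t • v), v⟫ t := by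
      have h5 : HasDerivAt (fun s : ℝ => g (x₀ + t • v + s • v)) ⟪G (x₀ + t • v), v⟫ (t - t) := by
        rwa [sub_self]
      have h6 := HasDerivAt.comp_sub_const t t h5
      refine h6.congr_of_eventuallyEq (Eventually.of_forall fun s => ?_)
      simp only
      congr 1
      rw [add_assoc, ← add_smul]
      congr 2
      ring
    have h7 : HasDerivAt (fun s : ℝ => s * ⟪G x₀, v⟫) ⟪G x₀, v⟫ t := by
      simpa using (hasDerivAt_id t).mul_const ⟪G x₀, v⟫
    exact (h3.sub h7).hasDerivWithinAt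
  have hbd : ∀ t ∈ Ico (0 : ℝ) 1, ‖⟪G (x₀ + t • v), v⟫ - ⟪G x₀, v⟫‖ ≤ ε * ‖v‖ := by
    intro t ht
    rw [← inner_sub_left, Real.norm_eq_abs]
    refine (abs_real_inner_le_norm _ _).trans (mul_le_mul_of_nonneg_right ?_ (norm_nonneg _))
    refine (hr' _ ?_).le
    rw [mem_ball, dist_eq_norm]
    exact (hmem t ⟨ht.1, ht.2.le⟩).trans_lt hxr
  have h8 := norm_image_sub_le_of_norm_deriv_le_segment_01' hder hbd
  have h9 : F 1 - F 0 = g x - g x₀ - ⟪G x₀, v⟫ := by
    simp only [hF, one_smul, zero_smul, add_zero, one_mul, zero_mul, sub_zero, hv]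
    rw [add_sub_cancel]
    ring
  rwa [h9] at h8

section dim3

variable [hd : Fact (Module.finrank ℝ V = 3)]

theorem BC.abs {f : V → ℝ} (hf : BC f) : BC (fun x => |f x|) := by
  obtain ⟨M, R, hM0, -, hM, hR⟩ := hf.bounds
  exact ⟨hf.meas.abs, ⟨M, fun x => by rw [abs_abs]; exact hM x⟩,
    ⟨R, fun x hx => by rw [hR x hx, abs_zero]⟩⟩

theorem BC.GI {f : V → ℝ} (hf : BC f) (x : V) : GI f x := by
  rw [GI_iff hf.meas]
  exact ker_sq.integrable hf.abs x

theorem gradV_eq_sum {f : V → ℝ} {x : V} (h : GI f x) :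
    gradV f x = ∑ i, grad (stdOrthonormalBasis ℝ V i) f x • stdOrthonormalBasis ℝ V i := by
  have h1 := (stdOrthonormalBasis ℝ V).sum_repr' (gradV f x)
  rw [← h1]
  refine Finset.sum_congr rfl fun i _ => ?_
  rw [real_inner_comm, inner_gradV h]

theorem gradV_continuous {f : V → ℝ} (hf : BC f) : Continuous (gradV f) := by
  have h1 : gradV f = fun x => ∑ i, grad (stdOrthonormalBasis ℝ V i) f x •
      stdOrthonormalBasis ℝ V i := by
    funext x
    exact gradV_eq_sum (hf.GI x)
  rw [h1]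
  exact continuous_finsetSum _ fun i _ => (grad_continuous hf _).smul continuous_const

theorem gradV_bound {f : V → ℝ} (hf : BC f) : ∃ B, ∀ x, ‖gradV f x‖ ≤ B := by
  obtain ⟨M, R, hM0, hR0, hM, hR⟩ := hf.abs.bounds
  obtain ⟨B, hB⟩ := ker_sq.bound hf.abs
  refine ⟨B, fun x => (gradV_norm_le x).trans ?_⟩
  have h1 := hB x
  rwa [abs_of_nonneg (integral_nonneg fun y => mul_nonneg (by positivity) (abs_nonneg _))] at h1

theorem hasGradientAt_pot {f : V → ℝ} (hf : BC f) (x : V) : HasGradientAt (pot f) (gradV f x) x := by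
  refine hasGradientAt_of_line zero_lt_one (fun y _ e => ?_) (gradV_continuous hf).continuousAt
  have h := hasDerivAt_pot hf y e 0
  rwa [zero_smul, add_zero, ← inner_gradV (hf.GI y)] at h

/-- integrable densities vanishing near a point -/
theorem far_part {f : V → ℝ} (hm : Measurable f) (hf : Integrable f) {x₀ : V} {δ : ℝ} (hδ : 0 < δ)
    (h0 : ∀ y ∈ ball x₀ (2 * δ), f y = 0) :
    (∀ x ∈ ball x₀ δ, GI f x ∧ Integrable (fun y => ‖x - y‖⁻¹ * f y)) ∧
    HasGradientAt (pot f) (gradV f x₀) x₀ ∧ ContinuousAt (gradV f) x₀ := by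
  have hfar : ∀ x ∈ ball x₀ δ, ∀ y, f y ≠ 0 → δ ≤ ‖x - y‖ := by
    intro x hx y hy
    have hy' : y ∉ ball x₀ (2 * δ) := fun h => hy (h0 y h)
    rw [mem_ball, dist_eq_norm] at hx
    rw [mem_ball, dist_eq_norm, not_lt] at hy'
    have h1 : ‖y - x₀‖ ≤ ‖x - y‖ + ‖x - x₀‖ := by
      have : y - x₀ = (x - x₀) - (x - y) := by abel
      rw [this]
      refine (norm_sub_le _ _).trans (le_of_eq (add_comm _ _))
    linarith
  have hkb : ∀ x ∈ ball x₀ δ, ∀ y, ‖f y • ((‖x - y‖ ^ 3)⁻¹ • (x - y))‖ ≤ (δ ^ 2)⁻¹ * |f y| := by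
    intro x hx y
    rw [norm_smul, norm_kv, Real.norm_eq_abs, mul_comm]
    by_cases hy : f y = 0
    · simp [hy]
    · refine mul_le_mul_of_nonneg_right ?_ (abs_nonneg _)
      exact inv_anti₀ (by positivity) (pow_le_pow_left₀ hδ.le (hfar x hx y hy) 2)
  have hGm : ∀ x, Measurable (fun y => f y • ((‖x - y‖ ^ 3)⁻¹ • (x - y))) := fun x =>
    hm.smul (measurable_kv.comp (measurable_const.sub measurable_id))
  have hGI : ∀ x ∈ ball x₀ δ, GI f x := fun x hx =>
    (hf.abs.const_mul _).mono' (hGm x).aestronglyMeasurable (Eventually.of_forall (hkb x hx))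
  have hPm : ∀ x, Measurable (fun y => ‖x - y‖⁻¹ * f y) := fun x => by
    have : Measurable (fun y : V => ‖x - y‖⁻¹) := by fun_prop
    exact this.mul hm
  have hPI : ∀ x ∈ ball x₀ δ, Integrable (fun y => ‖x - y‖⁻¹ * f y) := by
    intro x hx
    refine (hf.abs.const_mul δ⁻¹).mono' (hPm x).aestronglyMeasurable
      (Eventually.of_forall fun y => ?_)
    rw [norm_mul, Real.norm_of_nonneg (by positivity), Real.norm_eq_abs]
    by_cases hy : f y = 0
    · simp [hy]
    · exact mul_le_mul_of_nonneg_right (inv_anti₀ hδ (hfar x hx y hy)) (abs_nonneg _)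
  have hx₀ : x₀ ∈ ball x₀ δ := mem_ball_self hδ
  refine ⟨fun x hx => ⟨hGI x hx, hPI x hx⟩, ?_, ?_⟩
  · have hcont : ContinuousAt (gradV f) x₀ := by
      unfold gradV
      refine ContinuousAt.neg ?_
      refine continuousAt_of_dominated (bound := fun y => (δ ^ 2)⁻¹ * |f y|)
        (Eventually.of_forall fun x => (hGm x).aestronglyMeasurable) ?_ (hf.abs.const_mul _) ?_
      · filter_upwards [ball_mem_nhds x₀ hδ] with x hx
        exact Eventually.of_forall (hkb x hx)
      · refine Eventually.of_forall fun y => ?_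
        by_cases hy : f y = 0
        · simp only [hy, zero_smul]; exact continuousAt_const
        · have hne : ‖x₀ - y‖ ^ 3 ≠ 0 := by
            have := hfar x₀ hx₀ y hy
            have : 0 < ‖x₀ - y‖ := by linarith
            positivity
          refine continuousAt_const.smul (ContinuousAt.smul ?_ (by fun_prop))
          exact ContinuousAt.inv₀ (by fun_prop) hne
    refine hasGradientAt_of_line hδ (fun x hx e => ?_) hcont
    rw [inner_gradV (hGI x hx)]
    -- differentiate under the integral sign along the line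
    obtain ⟨η, hη, hη'⟩ : ∃ η > 0, ∀ t : ℝ, |t| < η → x + t • e ∈ ball x₀ δ := by
      have hc : ContinuousAt (fun t : ℝ => x + t • e) 0 := by fun_prop
      have h2 : ∀ᶠ t : ℝ in 𝓝 0, x + t • e ∈ ball x₀ δ :=
        hc.eventually (isOpen_ball.mem_nhds (by simpa using hx))
      obtain ⟨η, hη, h3⟩ := Metric.eventually_nhds_iff.mp h2
      exact ⟨η, hη, fun t ht => h3 (by rw [Real.dist_eq, sub_zero]; exact ht)⟩
    have h5 := hasDerivAt_integral_of_dominated_loc_of_deriv_le (μ := (volume : Measure V))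
      (F := fun (t : ℝ) (y : V) => ‖x + t • e - y‖⁻¹ * f y)
      (F' := fun (t : ℝ) (y : V) => -(⟪x + t • e - y, e⟫ * (‖x + t • e - y‖ ^ 3)⁻¹) * f y)
      (bound := fun y => (δ ^ 2)⁻¹ * |f y| * ‖e‖) (x₀ := (0 : ℝ)) (s := ball 0 η)
      (ball_mem_nhds 0 hη)
      (Eventually.of_forall fun t => (hPm _).aestronglyMeasurable)
      (by simpa using hPI x hx)
      (by
        have hmm : Measurable (fun y : V => -(⟪x + (0 : ℝ) • e - y, e⟫ *
            (‖x + (0 : ℝ) • e - y‖ ^ 3)⁻¹)) :=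
          (ker_grad e).meas.comp (measurable_const.sub measurable_id)
        exact (hmm.mul hm).aestronglyMeasurable)
      (by
        refine Eventually.of_forall fun y t ht => ?_
        have htb : x + t • e ∈ ball x₀ δ := hη' t (by
          rw [mem_ball, Real.dist_eq, sub_zero] at ht; exact ht)
        have h6 := hkb _ htb y
        have h7 : -(⟪x + t • e - y, e⟫ * (‖x + t • e - y‖ ^ 3)⁻¹) * f y =
            -⟪f y • ((‖x + t • e - y‖ ^ 3)⁻¹ • (x + t • e - y)), e⟫ := by
          rw [real_inner_smul_left, real_inner_smul_left]; ring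
        rw [h7, norm_neg, Real.norm_eq_abs]
        exact (abs_real_inner_le_norm _ _).trans (mul_le_mul_of_nonneg_right h6 (norm_nonneg _)))
      ((hf.abs.const_mul _).mul_const _)
      (by
        refine Eventually.of_forall fun y t ht => ?_
        have htb : x + t • e ∈ ball x₀ δ := hη' t (by
          rw [mem_ball, Real.dist_eq, sub_zero] at ht; exact ht)
        by_cases hy : f y = 0
        · simp only [hy, mul_zero]; exact hasDerivAt_const _ _
        · refine HasDerivAt.mul_const ?_ _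
          have hne : x - y + t • e ≠ 0 := by
            have h8 := hfar _ htb y hy
            have e1 : x - y + t • e = x + t • e - y := by abel
            rw [e1]
            exact norm_pos_iff.mp (hδ.trans_le h8)
          have h9 := hasDerivAt_inv_norm_line (x - y) e t hne
          have e2 : ∀ s : ℝ, x - y + s • e = x + s • e - y := fun s => by abel
          simp only [e2] at h9
          exact h9)
    have h10 := h5.2
    simp only [zero_smul, add_zero] at h10
    exact h10
  · unfold gradV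
    refine ContinuousAt.neg ?_
    refine continuousAt_of_dominated (bound := fun y => (δ ^ 2)⁻¹ * |f y|)
      (Eventually.of_forall fun x => (hGm x).aestronglyMeasurable) ?_ (hf.abs.const_mul _) ?_
    · filter_upwards [ball_mem_nhds x₀ hδ] with x hx
      exact Eventually.of_forall (hkb x hx)
    · refine Eventually.of_forall fun y => ?_
      by_cases hy : f y = 0
      · simp only [hy, zero_smul]; exact continuousAt_const
      · have hne : ‖x₀ - y‖ ^ 3 ≠ 0 := by
          have := hfar x₀ hx₀ y hy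
          have : 0 < ‖x₀ - y‖ := by linarith
          positivity
        refine continuousAt_const.smul (ContinuousAt.smul ?_ (by fun_prop))
        exact ContinuousAt.inv₀ (by fun_prop) hne

/-- the potential of an integrable density is continuously differentiable where the density is
locally bounded -/
theorem loc_grad {f : V → ℝ} (hm : Measurable f) (hf : Integrable f) {x₀ : V} {δ M : ℝ}
    (hδ : 0 < δ) (hb : ∀ y ∈ ball x₀ δ, |f y| ≤ M) :
    (∀ x ∈ ball x₀ (δ / 2), GI f x ∧ Integrable (fun y => ‖x - y‖⁻¹ * f y)) ∧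
    HasGradientAt (pot f) (gradV f x₀) x₀ ∧ ContinuousAt (gradV f) x₀ := by
  set f1 : V → ℝ := (ball x₀ δ).indicator f with hf1
  set f2 : V → ℝ := (ball x₀ δ)ᶜ.indicator f with hf2
  have hsum : ∀ y, f y = f1 y + f2 y := fun y => by
    simp only [hf1, hf2]
    by_cases hy : y ∈ ball x₀ δ
    · rw [indicator_of_mem hy, indicator_of_notMem (by simpa using hy), add_zero]
    · rw [indicator_of_notMem hy, indicator_of_mem (by simpa using hy), zero_add]
  have hM : 0 ≤ M := (abs_nonneg _).trans (hb x₀ (mem_ball_self hδ))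
  have hbc : BC f1 := by
    refine ⟨hm.indicator measurableSet_ball, ⟨M, fun x => ?_⟩, ⟨‖x₀‖ + δ, fun x hx => ?_⟩⟩
    · simp only [hf1]
      by_cases hx : x ∈ ball x₀ δ
      · rw [indicator_of_mem hx]; exact hb x hx
      · rw [indicator_of_notMem hx, abs_zero]; exact hM
    · refine indicator_of_notMem (fun h => ?_) _
      rw [mem_ball, dist_eq_norm] at h
      have := norm_sub_norm_le x x₀
      linarith
  have h2m : Measurable f2 := hm.indicator measurableSet_ball.compl
  have h2i : Integrable f2 := hf.indicator measurableSet_ball.compl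
  have h20 : ∀ y ∈ ball x₀ (2 * (δ / 2)), f2 y = 0 := by
    intro y hy
    rw [mul_div_cancel₀ δ two_ne_zero] at hy
    exact indicator_of_notMem (by simpa using hy) _
  obtain ⟨p1, p2, p3⟩ := far_part h2m h2i (half_pos hδ) h20
  have hfun : f = fun y => f1 y + f2 y := funext hsum
  have hx₀ : x₀ ∈ ball x₀ (δ / 2) := mem_ball_self (half_pos hδ)
  have hG : ∀ x ∈ ball x₀ (δ / 2), gradV f x = gradV f1 x + gradV f2 x := fun x hx => by
    rw [hfun]; exact gradV_add (hbc.GI x) (p1 x hx).1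
  have hP : ∀ x ∈ ball x₀ (δ / 2), pot f x = pot f1 x + pot f2 x := fun x hx => by
    rw [hfun]
    unfold pot
    rw [← integral_add (pot_integrable hbc x) (p1 x hx).2]
    exact integral_congr_ae (Eventually.of_forall fun y => by ring)
  refine ⟨fun x hx => ⟨?_, ?_⟩, ?_, ?_⟩
  · have h := (hbc.GI x).add (p1 x hx).1
    unfold GI
    refine h.congr (Eventually.of_forall fun y => ?_)
    simp only [Pi.add_apply]
    rw [← add_smul, ← hsum]
  · have h := (pot_integrable hbc x).add (p1 x hx).2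
    refine h.congr (Eventually.of_forall fun y => ?_)
    simp only [Pi.add_apply]
    rw [← mul_add, ← hsum]
  · have h1 := (hasGradientAt_pot hbc x₀).hasFDerivAt.add p2.hasFDerivAt
    rw [← map_add, ← hG x₀ hx₀] at h1
    have h2 : HasGradientAt (fun x => pot f1 x + pot f2 x) (gradV f x₀) x₀ := h1
    refine HasGradientAt.congr_of_eventuallyEq h2 ?_
    filter_upwards [ball_mem_nhds x₀ (half_pos hδ)] with x hx
    exact hP x hx
  · have h1 : ContinuousAt (fun x => gradV f1 x + gradV f2 x) x₀ :=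
      (gradV_continuous hbc).continuousAt.add p3
    refine h1.congr ?_
    filter_upwards [ball_mem_nhds x₀ (half_pos hδ)] with x hx
    exact (hG x hx).symm

/-- product integrability -/
theorem prod_inv_sq {f g : V → ℝ} (hf : Integrable f) (hfm : Measurable f) (hg : BC g) :
    Integrable (fun p : V × V => |g p.1| * ((‖p.1 - p.2‖ ^ 2)⁻¹ * |f p.2|))
      (volume.prod volume) := by
  obtain ⟨M, R, hM0, hR0, hM, hR⟩ := hg.bounds
  have hm : Measurable (fun p : V × V => |g p.1| * ((‖p.1 - p.2‖ ^ 2)⁻¹ * |f p.2|)) := by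
    have h1 : Measurable (fun p : V × V => (‖p.1 - p.2‖ ^ 2)⁻¹) := by fun_prop
    exact (hg.meas.comp measurable_fst).abs.mul (h1.mul (hfm.comp measurable_snd).abs)
  rw [integrable_prod_iff' hm.aestronglyMeasurable]
  have hsl : ∀ y : V, Integrable (fun x => (‖x - y‖ ^ 2)⁻¹ * |g x|) := by
    intro y
    have h := ker_sq.integrable hg.abs y
    refine h.congr (Eventually.of_forall fun x => ?_)
    simp only
    rw [norm_sub_rev]
  have hbd : ∀ y : V, ∫ x, (‖x - y‖ ^ 2)⁻¹ * |g x| ≤ 1 * M * cdom V R := by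
    intro y
    have h := ker_int_abs_le (K := fun v : V => (‖v‖ ^ 2)⁻¹) (f := fun x => |g x|) (M := M)
      (R := R) ker_sq.meas zero_le_one
      (fun v => by
        rw [abs_of_nonneg (by positivity)]
        linarith) hg.abs.meas (fun x => by rw [abs_abs]; exact hM x)
      (fun x hx => by simp only [hR x hx, abs_zero]) y
    refine le_trans (le_of_eq ?_) h
    refine integral_congr_ae (Eventually.of_forall fun x => ?_)
    simp only
    rw [abs_of_nonneg (by positivity : (0 : ℝ) ≤ (‖y - x‖ ^ 2)⁻¹ * |g x|), norm_sub_rev]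
  refine ⟨Eventually.of_forall fun y => ?_, ?_⟩
  · refine ((hsl y).mul_const |f y|).congr (Eventually.of_forall fun x => ?_)
    simp only
    ring
  · refine (hf.abs.mul_const (1 * M * cdom V R)).mono' ?_ (Eventually.of_forall fun y => ?_)
    · exact (hm.norm.stronglyMeasurable.integral_prod_left'
        (μ := (volume : Measure V))).aestronglyMeasurable
    · rw [Real.norm_of_nonneg (integral_nonneg fun x => norm_nonneg _)]
      have h1 : ∫ x, ‖|g x| * ((‖x - y‖ ^ 2)⁻¹ * |f y|)‖ =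
          |f y| * ∫ x, (‖x - y‖ ^ 2)⁻¹ * |g x| := by
        rw [← integral_const_mul]
        refine integral_congr_ae (Eventually.of_forall fun x => ?_)
        simp only
        rw [Real.norm_of_nonneg (by positivity)]
        ring
      rw [h1]
      exact mul_le_mul_of_nonneg_left (hbd y) (abs_nonneg _)

theorem ae_GI {f : V → ℝ} (hf : Integrable f) (hfm : Measurable f) : ∀ᵐ x, GI f x := by
  have h1 : ∀ n : ℕ, ∀ᵐ x : V, x ∈ ball (0 : V) n → GI f x := by
    intro n
    have hB : BC ((ball (0 : V) n).indicator fun _ => (1 : ℝ)) := by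
      refine ⟨measurable_const.indicator measurableSet_ball, ⟨1, fun x => ?_⟩,
        ⟨n, fun x hx => indicator_of_notMem (by simpa using hx) _⟩⟩
      rw [abs_of_nonneg (indicator_nonneg (fun _ _ => zero_le_one) _)]
      exact indicator_le_self' (fun _ _ => zero_le_one) _
    have h2 := (prod_inv_sq hf hfm hB).prod_right_ae
    filter_upwards [h2] with x hx hxn
    rw [GI_iff hfm]
    rw [indicator_of_mem hxn] at hx
    refine hx.congr (Eventually.of_forall fun y => ?_)
    simp
  rw [← ae_all_iff] at h1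
  filter_upwards [h1] with x hx
  obtain ⟨n, hn⟩ := exists_nat_gt ‖x‖
  exact hx n (by simpa using hn)

theorem gradV_meas {f : V → ℝ} (hfm : Measurable f) : AEStronglyMeasurable (gradV f) volume := by
  unfold gradV
  refine AEStronglyMeasurable.neg ?_
  have hm : Measurable (fun p : V × V => f p.2 • ((‖p.1 - p.2‖ ^ 3)⁻¹ • (p.1 - p.2))) :=
    (hfm.comp measurable_snd).smul (measurable_kv.comp (measurable_fst.sub measurable_snd))
  exact (hm.stronglyMeasurable.integral_prod_right' (ν := (volume : Measure V))).aestronglyMeasurable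

/-- the weak Poisson equation for integrable densities and Lipschitz test functions -/
theorem weak_poisson {f : V → ℝ} (hf : Integrable f) (hfm : Measurable f) {u : V → ℝ} {C : ℝ≥0}
    (hu : LipschitzWith C u) (hc : HasCompactSupport u) :
    Integrable (fun x => ⟪gradV f x, ∇ u x⟫) ∧
      ∫ x, ⟪gradV f x, ∇ u x⟫ = 4 * Real.pi * ∫ x, f x * u x := by
  set g : V → ℝ := fun x => ‖∇ u x‖ with hg
  obtain ⟨R, hR0, hR⟩ := exists_radius hc
  have hgBC : BC g := by
    refine ⟨(measurable_gradient u).norm, ⟨C, fun x => ?_⟩, ⟨R, fun x hx => ?_⟩⟩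
    · rw [abs_of_nonneg (norm_nonneg _)]; exact gradient_bound hu x
    · have hx' : x ∉ tsupport u := fun h => by
        have := hR h
        rw [mem_ball_zero_iff] at this
        linarith
      simp only [hg]
      rw [gradient_zero_of_notMem hx', norm_zero]
  set F : V × V → ℝ := fun p => -(f p.2 * ((‖p.1 - p.2‖ ^ 3)⁻¹ * ⟪p.1 - p.2, ∇ u p.1⟫)) with hF
  have hFm : Measurable F := by
    have h1 : Measurable (fun p : V × V => (‖p.1 - p.2‖ ^ 3)⁻¹) := by fun_prop
    have h2 : Measurable (fun p : V × V => ⟪p.1 - p.2, ∇ u p.1⟫) :=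
      (measurable_fst.sub measurable_snd).inner ((measurable_gradient u).comp measurable_fst)
    exact ((hfm.comp measurable_snd).mul (h1.mul h2)).neg
  have hFi : Integrable F (volume.prod volume) := by
    refine (prod_inv_sq hf hfm hgBC).mono' hFm.aestronglyMeasurable
      (Eventually.of_forall fun p => ?_)
    simp only [hF, hg]
    rw [norm_neg, norm_mul, Real.norm_eq_abs, Real.norm_eq_abs, abs_of_nonneg (norm_nonneg _)]
    have h1 : |(‖p.1 - p.2‖ ^ 3)⁻¹ * ⟪p.1 - p.2, ∇ u p.1⟫| ≤ (‖p.1 - p.2‖ ^ 2)⁻¹ * ‖∇ u p.1‖ := by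
      rw [← real_inner_smul_left]
      refine (abs_real_inner_le_norm _ _).trans ?_
      rw [norm_kv]
    calc |f p.2| * |(‖p.1 - p.2‖ ^ 3)⁻¹ * ⟪p.1 - p.2, ∇ u p.1⟫|
        ≤ |f p.2| * ((‖p.1 - p.2‖ ^ 2)⁻¹ * ‖∇ u p.1‖) :=
          mul_le_mul_of_nonneg_left h1 (abs_nonneg _)
      _ = _ := by ring
  have hin : ∀ᵐ x : V, ∫ y, F (x, y) = ⟪gradV f x, ∇ u x⟫ := by
    filter_upwards [ae_GI hf hfm] with x hx
    rw [inner_gradV hx]
    unfold grad
    refine integral_congr_ae (Eventually.of_forall fun y => ?_)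
    simp only [hF]
    ring
  refine ⟨hFi.integral_prod_left.congr hin, ?_⟩
  rw [← integral_congr_ae hin]
  have hsw : ∫ x, ∫ y, F (x, y) = ∫ y, ∫ x, F (x, y) := integral_integral_swap
    (f := fun x y => F (x, y)) hFi
  rw [hsw, ← integral_const_mul]
  refine integral_congr_ae (Eventually.of_forall fun y => ?_)
  simp only [hF]
  rw [integral_neg, integral_const_mul, rep hu hc]
  ring

end dim3

end Pool.Agent.TF

end

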