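import Mathlib
import Pool.Agent.Lib.MP_9cf0c9_mp.Tr.BaseB
import Pool.Agent.Lib.MP_9cf0c9_mp.Tr.WeakA
/-! Pointwise bounds for the gradient of the potential of a density with compact support and
singularities of order `3/2` at finitely many points. -/

set_option linter.unusedSectionVars false

set_option linter.unusedVariables false

set_option linter.style.haveILetI false

namespace Pool.Agent.TF

open MeasureTheory Set Metric Filter Topology

open scoped ENNReal NNReal RealInnerProductSpace Gradient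

theorem rpow_mul_le {s t p q : ℝ} (hs : 0 ≤ s) (ht : 0 ≤ t) (hp : 0 ≤ p) (hq : 0 ≤ q)
    (hpq : p + q ≠ 0) : s ^ p * t ^ q ≤ s ^ (p + q) + t ^ (p + q) := by
  have h1 : 0 ≤ s ^ (p + q) := Real.rpow_nonneg hs _
  have h2 : 0 ≤ t ^ (p + q) := Real.rpow_nonneg ht _
  rcases le_total s t with h | h
  · have h3 : s ^ p ≤ t ^ p := Real.rpow_le_rpow hs h hp
    have h4 : s ^ p * t ^ q ≤ t ^ p * t ^ q := mul_le_mul_of_nonneg_right h3 (Real.rpow_nonneg ht _)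
    rw [← Real.rpow_add' ht hpq] at h4
    linarith
  · have h3 : t ^ q ≤ s ^ q := Real.rpow_le_rpow ht h hq
    have h4 : s ^ p * t ^ q ≤ s ^ p * s ^ q := mul_le_mul_of_nonneg_left h3 (Real.rpow_nonneg hs _)
    rw [← Real.rpow_add' hs hpq] at h4
    linarith

theorem young_ker {a b n : ℝ} (ha : 0 < a) (hb : 0 < b) (hn : 0 ≤ n) (hab : n ≤ a + b) :
    n ^ (3 / 4 : ℝ) * ((a⁻¹) ^ (3 / 2 : ℝ) * (b ^ 2)⁻¹) ≤
      2 * ((a⁻¹) ^ (11 / 4 : ℝ) + (b⁻¹) ^ (11 / 4 : ℝ)) := by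
  set s := a⁻¹ with hs
  set t := b⁻¹ with ht
  have hs0 : 0 < s := inv_pos.mpr ha
  have ht0 : 0 < t := inv_pos.mpr hb
  have e1 : (b ^ 2)⁻¹ = t ^ (2 : ℝ) := by
    rw [ht, ← inv_pow]
    norm_cast
  have h1 : n ^ (3 / 4 : ℝ) ≤ a ^ (3 / 4 : ℝ) + b ^ (3 / 4 : ℝ) :=
    (Real.rpow_le_rpow hn hab (by norm_num)).trans
      (Real.rpow_add_le_add_rpow ha.le hb.le (by norm_num) (by norm_num))
  have ea : a ^ (3 / 4 : ℝ) = s ^ (-(3 / 4) : ℝ) := by
    rw [hs, Real.inv_rpow ha.le, Real.rpow_neg ha.le, inv_inv]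
  have eb : b ^ (3 / 4 : ℝ) = t ^ (-(3 / 4) : ℝ) := by
    rw [ht, Real.inv_rpow hb.le, Real.rpow_neg hb.le, inv_inv]
  rw [e1]
  have h2 : 0 ≤ s ^ (3 / 2 : ℝ) * t ^ (2 : ℝ) := by positivity
  refine (mul_le_mul_of_nonneg_right h1 h2).trans ?_
  rw [ea, eb, add_mul]
  have e2 : s ^ (-(3 / 4) : ℝ) * (s ^ (3 / 2 : ℝ) * t ^ (2 : ℝ)) = s ^ (3 / 4 : ℝ) * t ^ (2 : ℝ) := by
    rw [← mul_assoc, ← Real.rpow_add hs0]
    norm_num
  have e3 : t ^ (-(3 / 4) : ℝ) * (s ^ (3 / 2 : ℝ) * t ^ (2 : ℝ)) =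
      s ^ (3 / 2 : ℝ) * t ^ (5 / 4 : ℝ) := by
    rw [mul_left_comm, ← Real.rpow_add ht0]
    norm_num
  rw [e2, e3]
  have h3 := rpow_mul_le (p := 3 / 4) (q := 2) hs0.le ht0.le (by norm_num) (by norm_num)
    (by norm_num)
  have h4 := rpow_mul_le (p := 3 / 2) (q := 5 / 4) hs0.le ht0.le (by norm_num) (by norm_num)
    (by norm_num)
  norm_num at h3 h4 ⊢
  linarith

variable {V : Type*} [NormedAddCommGroup V] [InnerProductSpace ℝ V] [FiniteDimensional ℝ V]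
  [MeasurableSpace V] [BorelSpace V]

section dim3

variable [hd : Fact (Module.finrank ℝ V = 3)]

theorem integrableOn_rpow114 : IntegrableOn (fun v : V => (‖v‖⁻¹) ^ (11 / 4 : ℝ)) (ball 0 1) := by
  refine integrableOn_ball_of_norm_le_rpow (α := 11 / 4) (C := 1) ?_ ?_ ?_ ?_
  · rw [hd.out]; norm_num
  · rw [hd.out]; norm_num
  · refine Eventually.of_forall fun x => ?_
    rw [Real.norm_of_nonneg (by positivity), one_mul, Real.rpow_neg (norm_nonneg _),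
      Real.inv_rpow (norm_nonneg _)]
  · exact (measurable_norm.inv.pow_const _).aestronglyMeasurable

/-- local part of `|v|^{-11/4}` -/
noncomputable def w114 (v : V) : ℝ := (ball (0 : V) 1).indicator (fun v => (‖v‖⁻¹) ^ (11 / 4 : ℝ)) v

theorem w114_nonneg (v : V) : 0 ≤ w114 v := indicator_nonneg (fun _ _ => by positivity) _

theorem w114_integrable : Integrable (w114 : V → ℝ) :=
  (integrable_indicator_iff measurableSet_ball).mpr integrableOn_rpow114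

theorem rpow114_le (v : V) : (‖v‖⁻¹) ^ (11 / 4 : ℝ) ≤ w114 v + 1 := by
  by_cases hv : v ∈ ball (0 : V) 1
  · have h1 : w114 v = (‖v‖⁻¹) ^ (11 / 4 : ℝ) := indicator_of_mem hv _
    rw [h1]; linarith
  · have h1 : w114 v = 0 := indicator_of_notMem hv _
    have h2 : 1 ≤ ‖v‖ := by simpa using hv
    have h3 : ‖v‖⁻¹ ≤ 1 := inv_le_one_of_one_le₀ h2
    rw [h1, zero_add]
    exact Real.rpow_le_one (by positivity) h3 (by norm_num)

/-- bound of the convolution of two singularities -/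
theorem conv_bound (r : ℝ) : ∃ C : ℝ, 0 ≤ C ∧ ∀ x c : V, x ≠ c →
    Integrable (fun y => (ball (0 : V) r).indicator (fun _ => (1 : ℝ)) y *
      ((‖y - c‖⁻¹) ^ (3 / 2 : ℝ) * (‖x - y‖ ^ 2)⁻¹)) ∧
    ∫ y, (ball (0 : V) r).indicator (fun _ => (1 : ℝ)) y *
      ((‖y - c‖⁻¹) ^ (3 / 2 : ℝ) * (‖x - y‖ ^ 2)⁻¹) ≤ C * (‖x - c‖⁻¹) ^ (3 / 4 : ℝ) := by
  haveI := nontriv (V := V)
  set B : V → ℝ := (ball (0 : V) r).indicator fun _ => (1 : ℝ) with hB
  have hB0 : ∀ y, 0 ≤ B y := fun y => indicator_nonneg (fun _ _ => zero_le_one) _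
  have hB1 : ∀ y, B y ≤ 1 := fun y => indicator_le_self' (fun _ _ => zero_le_one) _
  have hBi : Integrable B := (integrable_indicator_iff measurableSet_ball).mpr
    (integrableOn_const measure_ball_lt_top.ne)
  set W : ℝ := ∫ v, w114 (v : V) with hW
  set T : ℝ := ∫ y, B y with hT
  have hW0 : 0 ≤ W := integral_nonneg fun v => w114_nonneg v
  have hT0 : 0 ≤ T := integral_nonneg hB0
  refine ⟨4 * (W + T), by positivity, fun x c hxc => ?_⟩
  have hn : 0 < ‖x - c‖ := norm_pos_iff.mpr (sub_ne_zero.mpr hxc)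
  set m : ℝ := (‖x - c‖⁻¹) ^ (3 / 4 : ℝ) with hm
  have hm0 : 0 < m := by positivity
  have hmn : m * ‖x - c‖ ^ (3 / 4 : ℝ) = 1 := by
    rw [hm, ← Real.mul_rpow (by positivity) hn.le, inv_mul_cancel₀ hn.ne', Real.one_rpow]
  have hDi : Integrable (fun y => m * (2 * ((w114 (y - c) + B y) + (w114 (x - y) + B y)))) :=
    ((((w114_integrable.comp_sub_right c).add hBi).add
      ((w114_integrable.comp_sub_left x).add hBi)).const_mul 2).const_mul m
  have hmeas : Measurable (fun y => B y * ((‖y - c‖⁻¹) ^ (3 / 2 : ℝ) * (‖x - y‖ ^ 2)⁻¹)) := by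
    have h1 : Measurable (fun y : V => ‖y - c‖⁻¹) := by fun_prop
    have h2 : Measurable (fun y : V => (‖x - y‖ ^ 2)⁻¹) := by fun_prop
    exact (measurable_const.indicator measurableSet_ball).mul ((h1.pow_const _).mul h2)
  have hae : ∀ᵐ y : V, y ≠ c ∧ y ≠ x := by
    have h1 : ∀ᵐ y : V, y ≠ c := by rw [ae_iff]; simp
    have h2 : ∀ᵐ y : V, y ≠ x := by rw [ae_iff]; simp
    exact h1.and h2
  have hpt : ∀ᵐ y : V, B y * ((‖y - c‖⁻¹) ^ (3 / 2 : ℝ) * (‖x - y‖ ^ 2)⁻¹) ≤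
      m * (2 * ((w114 (y - c) + B y) + (w114 (x - y) + B y))) := by
    filter_upwards [hae] with y hy
    have w1 := w114_nonneg (y - c)
    have w2 := w114_nonneg (x - y)
    by_cases hyr : y ∈ ball (0 : V) r
    · have hBy : B y = 1 := indicator_of_mem hyr _
      rw [hBy, one_mul]
      have ha : 0 < ‖y - c‖ := norm_pos_iff.mpr (sub_ne_zero.mpr hy.1)
      have hb : 0 < ‖x - y‖ := norm_pos_iff.mpr (sub_ne_zero.mpr hy.2.symm)
      have hab : ‖x - c‖ ≤ ‖y - c‖ + ‖x - y‖ := by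
        have e : x - c = (y - c) + (x - y) := by abel
        rw [e]; exact norm_add_le _ _
      have h1 := young_ker ha hb hn.le hab
      have h2 := rpow114_le (y - c)
      have h3 := rpow114_le (x - y)
      have h4 : (‖y - c‖⁻¹) ^ (3 / 2 : ℝ) * (‖x - y‖ ^ 2)⁻¹ = m * (‖x - c‖ ^ (3 / 4 : ℝ) *
          ((‖y - c‖⁻¹) ^ (3 / 2 : ℝ) * (‖x - y‖ ^ 2)⁻¹)) := by
        rw [← mul_assoc, hmn, one_mul]
      rw [h4]
      refine mul_le_mul_of_nonneg_left (h1.trans ?_) hm0.le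
      linarith
    · have hBy : B y = 0 := indicator_of_notMem hyr _
      rw [hBy, zero_mul]
      positivity
  have hnn : ∀ y, 0 ≤ B y * ((‖y - c‖⁻¹) ^ (3 / 2 : ℝ) * (‖x - y‖ ^ 2)⁻¹) := fun y => by
    have := hB0 y
    positivity
  have hI : Integrable (fun y => B y * ((‖y - c‖⁻¹) ^ (3 / 2 : ℝ) * (‖x - y‖ ^ 2)⁻¹)) := by
    refine hDi.mono' hmeas.aestronglyMeasurable ?_
    filter_upwards [hpt] with y hy
    rwa [Real.norm_of_nonneg (hnn y)]
  refine ⟨hI, ?_⟩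
  refine (integral_mono_ae hI hDi hpt).trans (le_of_eq ?_)
  have i1 : Integrable (fun y => w114 (y - c) + B y) := (w114_integrable.comp_sub_right c).add hBi
  have i2 : Integrable (fun y => w114 (x - y) + B y) := (w114_integrable.comp_sub_left x).add hBi
  rw [integral_const_mul, integral_const_mul, integral_add i1 i2,
    integral_add (w114_integrable.comp_sub_right c) hBi,
    integral_add (w114_integrable.comp_sub_left x) hBi,
    integral_sub_right_eq_self (fun v : V => w114 v) c,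
    integral_sub_left_eq_self (fun v : V => w114 v) volume x]
  ring

variable {ι : Type*} [Fintype ι]

/-- gradient bound near the singularities -/
theorem gradV_bound_nuc {f : V → ℝ} (hfm : Measurable f) (R : ι → V) {C r : ℝ} (hC : 0 ≤ C)
    (hf : ∀ y, |f y| ≤ C * (1 + ∑ i, (‖y - R i‖⁻¹) ^ (3 / 2 : ℝ))) (h0 : ∀ y, r ≤ ‖y‖ → f y = 0) :
    ∃ D : ℝ, 0 ≤ D ∧ ∀ x, (∀ i, x ≠ R i) → GI f x ∧
      ‖gradV f x‖ ≤ D * (1 + ∑ i, (‖x - R i‖⁻¹) ^ (3 / 4 : ℝ)) := by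
  obtain ⟨C1, hC1, hconv⟩ := conv_bound (V := V) r
  set B : V → ℝ := (ball (0 : V) r).indicator fun _ => (1 : ℝ) with hB
  have hB0 : ∀ y, 0 ≤ B y := fun y => indicator_nonneg (fun _ _ => zero_le_one) _
  have hBbc : BC B := by
    refine ⟨measurable_const.indicator measurableSet_ball, ⟨1, fun x => ?_⟩,
      ⟨r, fun x hx => indicator_of_notMem (by simpa using hx) _⟩⟩
    rw [abs_of_nonneg (hB0 x)]
    exact indicator_le_self' (fun _ _ => zero_le_one) _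
  obtain ⟨C2, hC2⟩ := ker_sq.bound hBbc
  have hC20 : 0 ≤ C2 := (abs_nonneg _).trans (hC2 0)
  refine ⟨C * (C2 + C1), by positivity, fun x hx => ?_⟩
  set F : V → ℝ := fun y => C * ((‖x - y‖ ^ 2)⁻¹ * B y +
    ∑ i, B y * ((‖y - R i‖⁻¹) ^ (3 / 2 : ℝ) * (‖x - y‖ ^ 2)⁻¹)) with hF
  have i1 : Integrable (fun y => (‖x - y‖ ^ 2)⁻¹ * B y) := ker_sq.integrable hBbc x
  have i2 : Integrable (fun y => ∑ i, B y * ((‖y - R i‖⁻¹) ^ (3 / 2 : ℝ) * (‖x - y‖ ^ 2)⁻¹)) :=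
    integrable_finsetSum _ fun i _ => (hconv x (R i) (hx i)).1
  have hFi : Integrable F := (i1.add i2).const_mul C
  have hle : ∀ y, (‖x - y‖ ^ 2)⁻¹ * |f y| ≤ F y := by
    intro y
    by_cases hy : y ∈ ball (0 : V) r
    · have hBy : B y = 1 := indicator_of_mem hy _
      simp only [hF, hBy, mul_one, one_mul]
      refine (mul_le_mul_of_nonneg_left (hf y) (by positivity)).trans (le_of_eq ?_)
      rw [← Finset.sum_mul]
      ring
    · have : f y = 0 := h0 y (by simpa using hy)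
      rw [this, abs_zero, mul_zero]
      have hBy := hB0 y
      have : 0 ≤ ∑ i, B y * ((‖y - R i‖⁻¹) ^ (3 / 2 : ℝ) * (‖x - y‖ ^ 2)⁻¹) :=
        Finset.sum_nonneg fun i _ => by positivity
      simp only [hF]
      positivity
  have hGI : GI f x := by
    rw [GI_iff hfm]
    have hm : Measurable (fun y => (‖x - y‖ ^ 2)⁻¹ * |f y|) := by
      have : Measurable (fun y : V => (‖x - y‖ ^ 2)⁻¹) := by fun_prop
      exact this.mul hfm.abs
    refine hFi.mono' hm.aestronglyMeasurable (Eventually.of_forall fun y => ?_)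
    rw [Real.norm_of_nonneg (by positivity)]
    exact hle y
  refine ⟨hGI, (gradV_norm_le x).trans ?_⟩
  have h1 : ∫ y, (‖x - y‖ ^ 2)⁻¹ * |f y| ≤ ∫ y, F y :=
    integral_mono_of_nonneg (Eventually.of_forall fun y => by positivity) hFi
      (Eventually.of_forall hle)
  refine h1.trans ?_
  simp only [hF]
  rw [integral_const_mul, integral_add i1 i2,
    integral_finsetSum _ fun i _ => (hconv x (R i) (hx i)).1]
  have h2 : ∫ y, (‖x - y‖ ^ 2)⁻¹ * B y ≤ C2 := (le_abs_self _).trans (hC2 x)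
  have h3 : ∑ i, ∫ y, B y * ((‖y - R i‖⁻¹) ^ (3 / 2 : ℝ) * (‖x - y‖ ^ 2)⁻¹) ≤
      ∑ i, C1 * (‖x - R i‖⁻¹) ^ (3 / 4 : ℝ) :=
    Finset.sum_le_sum fun i _ => (hconv x (R i) (hx i)).2
  rw [← Finset.mul_sum] at h3
  set Q : ℝ := ∑ i, (‖x - R i‖⁻¹) ^ (3 / 4 : ℝ) with hQ
  have hQ0 : 0 ≤ Q := Finset.sum_nonneg fun i _ => by positivity
  have q1 := mul_nonneg hC hC20
  have q2 := mul_nonneg hC hC1
  have q3 := mul_nonneg q1 hQ0
  calc C * ((∫ y, (‖x - y‖ ^ 2)⁻¹ * B y) +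
        ∑ i, ∫ y, B y * ((‖y - R i‖⁻¹) ^ (3 / 2 : ℝ) * (‖x - y‖ ^ 2)⁻¹))
      ≤ C * (C2 + C1 * Q) := mul_le_mul_of_nonneg_left (add_le_add h2 h3) hC
    _ ≤ C * (C2 + C1) * (1 + Q) := by nlinarith

/-- decay of the gradient at infinity -/
theorem gradV_decay {f : V → ℝ} (hf : Integrable f) (hfm : Measurable f) {r : ℝ} (hr : 0 < r)
    (h0 : ∀ y, r ≤ ‖y‖ → f y = 0) {x : V} (hx : 2 * r ≤ ‖x‖) :
    ‖gradV f x‖ ≤ 4 * (∫ y, |f y|) * (‖x‖ ^ 2)⁻¹ := by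
  refine (gradV_norm_le x).trans ?_
  have hx0 : 0 < ‖x‖ := by linarith
  have h1 : ∫ y, (‖x - y‖ ^ 2)⁻¹ * |f y| ≤ ∫ y, (4 * (‖x‖ ^ 2)⁻¹) * |f y| := by
    refine integral_mono_of_nonneg (Eventually.of_forall fun y => by positivity)
      (hf.abs.const_mul _) (Eventually.of_forall fun y => ?_)
    simp only
    by_cases hy : r ≤ ‖y‖
    · rw [h0 y hy, abs_zero, mul_zero, mul_zero]
    · push Not at hy
      refine mul_le_mul_of_nonneg_right ?_ (abs_nonneg _)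
      have h2 : ‖x‖ / 2 ≤ ‖x - y‖ := by
        have := norm_sub_norm_le x y
        linarith
      have h3 : (‖x‖ / 2) ^ 2 ≤ ‖x - y‖ ^ 2 := pow_le_pow_left₀ (by positivity) h2 2
      calc (‖x - y‖ ^ 2)⁻¹ ≤ ((‖x‖ / 2) ^ 2)⁻¹ := inv_anti₀ (by positivity) h3
        _ = _ := by
          rw [div_pow, inv_div]
          ring
  rw [integral_const_mul] at h1
  refine h1.trans (le_of_eq ?_)
  ring

/-- the density of the bare nuclei is of order `3/2` at the nuclei -/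
theorem tf_Vn_le {z : ι → ℝ} (hz : ∀ i, 0 ≤ z i) (R : ι → V) : ∃ C : ℝ, 0 ≤ C ∧ ∀ (φ : ℝ),
    0 ≤ φ → ∀ x, tf ((∑ i, z i * ‖x - R i‖⁻¹) - φ) ≤
      C * (1 + ∑ i, (‖x - R i‖⁻¹) ^ (3 / 2 : ℝ)) := by
  set C0 : ℝ := ((Finset.univ : Finset ι).card : ℝ) ^ ((3 / 2 : ℝ) - 1) with hC0
  set Z : ℝ := ∑ i, z i ^ (3 / 2 : ℝ) with hZ
  have hZ0 : 0 ≤ Z := Finset.sum_nonneg fun i _ => Real.rpow_nonneg (hz i) _
  have hC00 : 0 ≤ C0 := by positivity
  refine ⟨C0 * Z, by positivity, fun φ hφ x => ?_⟩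
  have hv0 : 0 ≤ ∑ i, z i * ‖x - R i‖⁻¹ :=
    Finset.sum_nonneg fun i _ => mul_nonneg (hz i) (by positivity)
  have h1 : tf ((∑ i, z i * ‖x - R i‖⁻¹) - φ) ≤ (∑ i, z i * ‖x - R i‖⁻¹) ^ (3 / 2 : ℝ) := by
    rw [← tf_eq_rpow hv0]
    exact tf_mono (by linarith)
  have h2 := Real.rpow_sum_le_const_mul_sum_rpow (Finset.univ : Finset ι)
    (fun i => z i * ‖x - R i‖⁻¹) (p := (3 / 2 : ℝ)) (by norm_num)
  have h4 : ∑ i, |z i * ‖x - R i‖⁻¹| = ∑ i, z i * ‖x - R i‖⁻¹ :=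
    Finset.sum_congr rfl fun i _ => abs_of_nonneg (mul_nonneg (hz i) (by positivity))
  rw [h4] at h2
  refine h1.trans (h2.trans ?_)
  have h5 : ∀ i, |z i * ‖x - R i‖⁻¹| ^ (3 / 2 : ℝ) ≤ Z * (‖x - R i‖⁻¹) ^ (3 / 2 : ℝ) := by
    intro i
    rw [abs_of_nonneg (mul_nonneg (hz i) (by positivity)), Real.mul_rpow (hz i) (by positivity)]
    refine mul_le_mul_of_nonneg_right ?_ (by positivity)
    exact Finset.single_le_sum (f := fun i => z i ^ (3 / 2 : ℝ))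
      (fun i _ => Real.rpow_nonneg (hz i) _) (Finset.mem_univ i)
  have h6 : ∑ i, |z i * ‖x - R i‖⁻¹| ^ (3 / 2 : ℝ) ≤ Z * ∑ i, (‖x - R i‖⁻¹) ^ (3 / 2 : ℝ) := by
    rw [Finset.mul_sum]
    exact Finset.sum_le_sum fun i _ => h5 i
  calc C0 * ∑ i, |z i * ‖x - R i‖⁻¹| ^ (3 / 2 : ℝ) ≤
      C0 * (Z * ∑ i, (‖x - R i‖⁻¹) ^ (3 / 2 : ℝ)) := mul_le_mul_of_nonneg_left h6 hC00
    _ ≤ _ := by nlinarith [mul_nonneg hC00 hZ0]

end dim3

end Pool.Agent.TF
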