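import Mathlib
import Pool.Agent.Lib.MP_9cf0c9_mp.Tr.BaseC
import Pool.Agent.Lib.MP_9cf0c9_mp.Tr.WeakA

section
/-! Newton's theorem for radial densities. -/

set_option autoImplicit false

set_option linter.unusedSectionVars false

set_option linter.unusedVariables false

set_option linter.style.haveILetI false

namespace Pool.Agent.TF

open MeasureTheory Set Metric Filter Topology

open scoped ENNReal NNReal RealInnerProductSpace

/-! ### the potential of a uniform ball, inside -/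

theorem abs_int {D r : ℝ} (hD : 0 < D) (hDr : D ≤ r) :
    ∫ s in (-r)..r, (|D - s| - (D - s)) = (r - D) ^ 2 := by
  have hc : Continuous fun s : ℝ => |D - s| - (D - s) := by fun_prop
  rw [← intervalIntegral.integral_add_adjacent_intervals (b := D)
    (hc.intervalIntegrable _ _) (hc.intervalIntegrable _ _)]
  have h1 : ∫ s in (-r)..D, (|D - s| - (D - s)) = 0 := by
    rw [intervalIntegral.integral_congr (g := fun _ => (0 : ℝ))]
    · simp
    · intro s hs
      rw [uIcc_of_le (by linarith)] at hs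
      change |D - s| - (D - s) = 0
      rw [abs_of_nonneg (by linarith [hs.2])]
      ring
  have h2 : ∫ s in D..r, (|D - s| - (D - s)) = ∫ s in D..r, 2 * (s - D) := by
    refine intervalIntegral.integral_congr fun s hs => ?_
    rw [uIcc_of_le hDr] at hs
    rw [abs_of_nonpos (by linarith [hs.1])]
    ring
  rw [h1, h2]
  have h3 : ∀ s ∈ uIcc D r, HasDerivAt (fun s : ℝ => (s - D) ^ 2) (2 * (s - D)) s := by
    intro s _
    have h := (hasDerivAt_pow 2 (s - D)).comp s ((hasDerivAt_id s).sub_const D)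
    exact h.congr_deriv (by simp)
  rw [intervalIntegral.integral_eq_sub_of_hasDerivAt h3
    ((by fun_prop : Continuous fun s : ℝ => 2 * (s - D)).intervalIntegrable _ _)]
  ring

theorem newton_axis_in {D r : ℝ} (hD : 0 < D) (hDr : D ≤ r) :
    pot (chi r) (mk D 0) = 2 * Real.pi * r ^ 2 - 2 / 3 * Real.pi * D ^ 2 := by
  have hr : 0 < r := lt_of_lt_of_le hD hDr
  have hI := pot_integrable (chi_BC r) (mk D 0)
  have h1 : pot (chi r) (mk D 0) = ∫ s : ℝ, ∫ z : E2, ‖mk D 0 - mk s z‖⁻¹ * chi r (mk s z) := by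
    unfold pot
    rw [integral_X]
    have h := integrable_X hI
    rw [Measure.volume_eq_prod] at h ⊢
    rw [integral_prod _ h]
  have h2 : ∀ s : ℝ, s ∉ Ioo (-r) r → ∫ z : E2, ‖mk D 0 - mk s z‖⁻¹ * chi r (mk s z) = 0 := by
    intro s hs
    have : ∀ z : E2, chi r (mk s z) = 0 := by
      intro z
      refine indicator_of_notMem ?_ _
      rw [mem_ball_zero_iff]
      intro h
      have := lt_of_le_of_lt (abs_fst_le (mk s z)) h
      exact hs (abs_lt.mp this)
    simp [this]
  set F : ℝ → ℝ := fun s => 2 * Real.pi * (√((D - s) ^ 2 + (r ^ 2 - s ^ 2)) - |D - s|) with hF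
  have h3 : pot (chi r) (mk D 0) = ∫ s in (-r)..r, F s := by
    rw [h1, intervalIntegral.integral_of_le (by linarith), ← integral_indicator measurableSet_Ioc]
    refine integral_congr_ae ?_
    have hne : ∀ᵐ t : ℝ, t ≠ r := by rw [ae_iff]; simp
    filter_upwards [hne] with s hs
    by_cases h : s ∈ Ioo (-r) r
    · rw [indicator_of_mem (show s ∈ Ioc (-r) r from ⟨h.1, h.2.le⟩),
        slice D r s hr (abs_lt.mpr h)]
    · rw [h2 s h, indicator_of_notMem]
      intro h'
      exact h ⟨h'.1, lt_of_le_of_ne h'.2 hs⟩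
  have hval : ∫ s in (-r)..r, 2 * Real.pi * (√(D ^ 2 + r ^ 2 - 2 * s * D) - (D - s)) =
      2 * Real.pi * (((D + r) ^ 3 - |D - r| ^ 3) / (3 * D) - 2 * D * r) := by
    rw [intervalIntegral.integral_const_mul, outer D r hD hr]
  have habs : ∫ s in (-r)..r, 2 * Real.pi * (|D - s| - (D - s)) = 2 * Real.pi * (r - D) ^ 2 := by
    rw [intervalIntegral.integral_const_mul, abs_int hD hDr]
  have h4 : ∫ s in (-r)..r, F s =
      (∫ s in (-r)..r, 2 * Real.pi * (√(D ^ 2 + r ^ 2 - 2 * s * D) - (D - s))) -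
        ∫ s in (-r)..r, 2 * Real.pi * (|D - s| - (D - s)) := by
    rw [← intervalIntegral.integral_sub
      ((by fun_prop : Continuous fun s : ℝ => 2 * Real.pi * (√(D ^ 2 + r ^ 2 - 2 * s * D) -
        (D - s))).intervalIntegrable _ _)
      ((by fun_prop : Continuous fun s : ℝ => 2 * Real.pi * (|D - s| -
        (D - s))).intervalIntegrable _ _)]
    refine intervalIntegral.integral_congr fun s _ => ?_
    have e1 : (D - s) ^ 2 + (r ^ 2 - s ^ 2) = D ^ 2 + r ^ 2 - 2 * s * D := by ring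
    simp only [hF, e1]
    ring
  rw [h3, h4, hval, habs, abs_of_nonpos (by linarith)]
  field_simp
  ring

theorem newton_in {r : ℝ} {v : X} (hv : v ≠ 0) (hvr : ‖v‖ ≤ r) :
    pot (chi r) v = 2 * Real.pi * r ^ 2 - 2 / 3 * Real.pi * ‖v‖ ^ 2 := by
  have hn : 0 < ‖v‖ := norm_pos_iff.mpr hv
  have h1 : ‖v‖ = ‖mk ‖v‖ 0‖ := by
    have : ‖mk ‖v‖ 0‖ ^ 2 = ‖v‖ ^ 2 := by rw [norm_mk_sq]; simp
    exact ((sq_eq_sq₀ (norm_nonneg _) (norm_nonneg _)).mp this).symm
  obtain ⟨L, hL⟩ := exists_isom (v := v) (w := mk ‖v‖ 0) h1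
  have h2 : pot (chi r) v = pot (chi r) (mk ‖v‖ 0) := by
    rw [← hL, ← pot_comp_isom]
    simp only [chi_isom]
  rw [h2]
  exact newton_axis_in hn hvr

section dim3

variable {V : Type*} [NormedAddCommGroup V] [InnerProductSpace ℝ V] [FiniteDimensional ℝ V]
  [MeasurableSpace V] [BorelSpace V]

variable [hd : Fact (Module.finrank ℝ V = 3)]

/-- the potential of a ball, everywhere off the centre -/
theorem pot_ball {r : ℝ} (hr : 0 < r) {v : V} (hv : v ≠ 0) :
    pot ((ball (0 : V) r).indicator fun _ => (1 : ℝ)) v =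
      if r ≤ ‖v‖ then 4 / 3 * Real.pi * r ^ 3 * ‖v‖⁻¹
      else 2 * Real.pi * r ^ 2 - 2 / 3 * Real.pi * ‖v‖ ^ 2 := by
  have hn : 0 < ‖v‖ := norm_pos_iff.mpr hv
  obtain ⟨L, hL⟩ := exists_isom_X (u := ‖v‖⁻¹ • v) (by
    rw [norm_smul, norm_inv, norm_norm, inv_mul_cancel₀ hn.ne'])
  have h1 : pot ((ball (0 : V) r).indicator fun _ => (1 : ℝ)) v = pot (chi r) (L v) := by
    rw [← pot_push L]
    congr 1
    funext y
    unfold chi
    by_cases h : y ∈ ball (0 : X) r
    · have h' : L.symm y ∈ ball (0 : V) r := by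
        rw [mem_ball_zero_iff] at h ⊢; rwa [L.symm.norm_map]
      rw [indicator_of_mem h, indicator_of_mem h']
    · have h' : L.symm y ∉ ball (0 : V) r := by
        rw [mem_ball_zero_iff] at h ⊢; rwa [L.symm.norm_map]
      rw [indicator_of_notMem h, indicator_of_notMem h']
  have hLv : L v ≠ 0 := by
    intro h
    rw [← norm_eq_zero, L.norm_map, norm_eq_zero] at h
    exact hv h
  rw [h1]
  split_ifs with h
  · rw [(newton hr hLv).2 (by rw [L.norm_map]; exact h), L.norm_map]
  · rw [newton_in hLv (by rw [L.norm_map]; exact (not_le.mp h).le), L.norm_map]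

/-! ### Newton's theorem for radial densities -/

theorem integral_max {d r : ℝ} (hd0 : 0 < d) (hr : 0 ≤ r) :
    ∫ s in (0 : ℝ)..r, 4 * Real.pi * s ^ 2 / max s d =
      if r ≤ d then 4 / 3 * Real.pi * r ^ 3 * d⁻¹
      else 2 * Real.pi * r ^ 2 - 2 / 3 * Real.pi * d ^ 2 := by
  have hc : Continuous fun s : ℝ => 4 * Real.pi * s ^ 2 / max s d :=
    Continuous.div (by fun_prop) (by fun_prop) fun s => (lt_of_lt_of_le hd0 (le_max_right _ _)).ne'
  have key : ∀ t : ℝ, 0 ≤ t → t ≤ d → ∫ s in (0 : ℝ)..t, 4 * Real.pi * s ^ 2 / max s d =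
      4 / 3 * Real.pi * t ^ 3 * d⁻¹ := by
    intro t ht htd
    have h1 : ∫ s in (0 : ℝ)..t, 4 * Real.pi * s ^ 2 / max s d =
        ∫ s in (0 : ℝ)..t, 4 * Real.pi / d * s ^ 2 := by
      refine intervalIntegral.integral_congr fun s hs => ?_
      rw [uIcc_of_le ht] at hs
      rw [max_eq_right (hs.2.trans htd)]
      ring
    rw [h1, intervalIntegral.integral_const_mul, integral_pow]
    push_cast
    field_simp
    ring
  split_ifs with h
  · exact key r hr h
  · have hdr : d ≤ r := (not_le.mp h).le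
    rw [← intervalIntegral.integral_add_adjacent_intervals (b := d)
      (hc.intervalIntegrable _ _) (hc.intervalIntegrable _ _), key d hd0.le le_rfl]
    have h2 : ∫ s in d..r, 4 * Real.pi * s ^ 2 / max s d = ∫ s in d..r, 4 * Real.pi * s := by
      refine intervalIntegral.integral_congr fun s hs => ?_
      rw [uIcc_of_le hdr] at hs
      have hs0 : 0 < s := lt_of_lt_of_le hd0 hs.1
      rw [max_eq_left hs.1]
      field_simp
    rw [h2, intervalIntegral.integral_const_mul, integral_id]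
    field_simp
    ring

/-- the radial measure of Newton's theorem -/
noncomputable def nu (d : ℝ) : Measure ℝ :=
  (volume.restrict (Ioi (0 : ℝ))).withDensity fun s => ENNReal.ofReal (4 * Real.pi * s ^ 2 / max s d)

theorem nu_dens_meas (d : ℝ) :
    Measurable fun s : ℝ => ENNReal.ofReal (4 * Real.pi * s ^ 2 / max s d) := by
  refine Measurable.ennreal_ofReal ?_
  exact (by fun_prop : Measurable fun s : ℝ => 4 * Real.pi * s ^ 2).div (by fun_prop)

theorem nu_Iio {d : ℝ} (hd0 : 0 < d) {r : ℝ} (hr : 0 < r) :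
    nu d (Iio r) = ENNReal.ofReal (if r ≤ d then 4 / 3 * Real.pi * r ^ 3 * d⁻¹
      else 2 * Real.pi * r ^ 2 - 2 / 3 * Real.pi * d ^ 2) := by
  have hc : Continuous fun s : ℝ => 4 * Real.pi * s ^ 2 / max s d :=
    Continuous.div (by fun_prop) (by fun_prop) fun s => (lt_of_lt_of_le hd0 (le_max_right _ _)).ne'
  have h0 : ∀ s : ℝ, 0 ≤ 4 * Real.pi * s ^ 2 / max s d := fun s =>
    div_nonneg (by positivity) (hd0.le.trans (le_max_right _ _))
  unfold nu
  rw [withDensity_apply _ measurableSet_Iio, Measure.restrict_restrict measurableSet_Iio,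
    inter_comm, Ioi_inter_Iio, ← ofReal_integral_eq_lintegral_ofReal
      ((hc.integrableOn_Icc (a := 0) (b := r)).mono_set Ioo_subset_Icc_self)
      (Eventually.of_forall h0), ← integral_Ioc_eq_integral_Ioo,
    ← intervalIntegral.integral_of_le hr.le, integral_max hd0 hr.le]

/-- the image of the potential measure under the norm -/
theorem map_norm_eq {x : V} (hx : x ≠ 0) :
    (volume.withDensity fun y : V => ENNReal.ofReal ‖x - y‖⁻¹).map norm = nu ‖x‖ := by
  have hn : 0 < ‖x‖ := norm_pos_iff.mpr hx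
  have hmeas : Measurable fun y : V => ENNReal.ofReal ‖x - y‖⁻¹ := by fun_prop
  have hL : ∀ r : ℝ, 0 < r →
      (volume.withDensity fun y : V => ENNReal.ofReal ‖x - y‖⁻¹).map norm (Iio r) =
        ENNReal.ofReal (if r ≤ ‖x‖ then 4 / 3 * Real.pi * r ^ 3 * ‖x‖⁻¹
          else 2 * Real.pi * r ^ 2 - 2 / 3 * Real.pi * ‖x‖ ^ 2) := by
    intro r hr
    have hpre : norm ⁻¹' Iio r = ball (0 : V) r := by
      ext y; simp
    have hbc : BC ((ball (0 : V) r).indicator fun _ => (1 : ℝ)) := by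
      refine ⟨measurable_const.indicator measurableSet_ball, ⟨1, fun y => ?_⟩,
        ⟨r, fun y hy => indicator_of_notMem (by simpa using hy) _⟩⟩
      rw [abs_of_nonneg (indicator_nonneg (fun _ _ => zero_le_one) _)]
      exact indicator_le_self' (fun _ _ => zero_le_one) _
    have hI := pot_integrable hbc x
    have heq : (fun y : V => ‖x - y‖⁻¹ * (ball (0 : V) r).indicator (fun _ => (1 : ℝ)) y) =
        (ball (0 : V) r).indicator fun y => ‖x - y‖⁻¹ := by
      funext y
      by_cases hy : y ∈ ball (0 : V) r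
      · rw [indicator_of_mem hy, indicator_of_mem hy, mul_one]
      · rw [indicator_of_notMem hy, indicator_of_notMem hy, mul_zero]
    rw [heq, integrable_indicator_iff measurableSet_ball] at hI
    rw [Measure.map_apply measurable_norm measurableSet_Iio, hpre,
      withDensity_apply _ measurableSet_ball, ← ofReal_integral_eq_lintegral_ofReal hI
        (Eventually.of_forall fun y => by positivity)]
    congr 1
    rw [← integral_indicator measurableSet_ball, ← heq]
    exact pot_ball hr hx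
  refine Measure.ext_of_generateFrom_of_iUnion (range Iio) (fun n : ℕ => Iio (n : ℝ))
    (BorelSpace.measurable_eq.trans (borel_eq_generateFrom_Iio ℝ)) isPiSystem_Iio ?_
    (fun n => ⟨(n : ℝ), rfl⟩) ?_ ?_
  · rw [eq_univ_iff_forall]
    intro t
    obtain ⟨n, hn'⟩ := exists_nat_gt t
    exact mem_iUnion.mpr ⟨n, hn'⟩
  · intro n
    have h1 : (volume.withDensity fun y : V => ENNReal.ofReal ‖x - y‖⁻¹).map norm (Iio (n : ℝ)) ≤
        (volume.withDensity fun y : V => ENNReal.ofReal ‖x - y‖⁻¹).map norm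
          (Iio ((n : ℝ) + 1)) := measure_mono (Iio_subset_Iio (by linarith))
    refine ne_top_of_le_ne_top ?_ h1
    rw [hL _ (by positivity)]
    exact ENNReal.ofReal_ne_top
  · rintro _ ⟨r, rfl⟩
    rcases lt_or_ge 0 r with hr | hr
    · rw [hL r hr, nu_Iio hn hr]
    · have h1 : norm ⁻¹' Iio r = (∅ : Set V) := by
        ext y
        simp only [mem_preimage, mem_Iio, mem_empty_iff_false, iff_false, not_lt]
        exact hr.trans (norm_nonneg y)
      rw [Measure.map_apply measurable_norm measurableSet_Iio, h1, measure_empty]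
      unfold nu
      rw [withDensity_apply _ measurableSet_Iio, Measure.restrict_restrict measurableSet_Iio]
      have h2 : Iio r ∩ Ioi (0 : ℝ) = ∅ := by
        ext s
        simp only [mem_inter_iff, mem_Iio, mem_Ioi, mem_empty_iff_false, iff_false, not_and,
          not_lt]
        intro h
        linarith
      rw [h2]
      simp

theorem lintegral_radial {x : V} (hx : x ≠ 0) {Φ : ℝ → ℝ≥0∞} (hΦ : Measurable Φ) :
    ∫⁻ y : V, ENNReal.ofReal ‖x - y‖⁻¹ * Φ ‖y‖ =
      ∫⁻ s in Ioi (0 : ℝ), ENNReal.ofReal (4 * Real.pi * s ^ 2 / max s ‖x‖) * Φ s := by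
  have hmeas : Measurable fun y : V => ENNReal.ofReal ‖x - y‖⁻¹ := by fun_prop
  have h1 : ∫⁻ y : V, ENNReal.ofReal ‖x - y‖⁻¹ * Φ ‖y‖ =
      ∫⁻ y, Φ ‖y‖ ∂(volume.withDensity fun y : V => ENNReal.ofReal ‖x - y‖⁻¹) :=
    (lintegral_withDensity_eq_lintegral_mul _ hmeas (hΦ.comp measurable_norm)).symm
  have h2 : ∫⁻ s in Ioi (0 : ℝ), ENNReal.ofReal (4 * Real.pi * s ^ 2 / max s ‖x‖) * Φ s =
      ∫⁻ s, Φ s ∂(nu ‖x‖) :=
    (lintegral_withDensity_eq_lintegral_mul _ (nu_dens_meas ‖x‖) hΦ).symm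
  rw [h1, h2, ← map_norm_eq hx, lintegral_map hΦ measurable_norm]

/-- Newton's theorem: the potential of a radial density -/
theorem pot_radial {F : ℝ → ℝ} (hF : Measurable F) (hF0 : ∀ s, 0 ≤ F s) {x : V} (hx : x ≠ 0) :
    pot (fun y => F ‖y‖) x = ∫ s in Ioi (0 : ℝ), 4 * Real.pi * s ^ 2 / max s ‖x‖ * F s := by
  have hn : 0 < ‖x‖ := norm_pos_iff.mpr hx
  have hm1 : Measurable fun y : V => ‖x - y‖⁻¹ * F ‖y‖ :=
    (by fun_prop : Measurable fun y : V => ‖x - y‖⁻¹).mul (hF.comp measurable_norm)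
  have hm2 : Measurable fun s : ℝ => 4 * Real.pi * s ^ 2 / max s ‖x‖ * F s :=
    ((by fun_prop : Measurable fun s : ℝ => 4 * Real.pi * s ^ 2).div (by fun_prop)).mul hF
  unfold pot
  rw [integral_eq_lintegral_of_nonneg_ae (Eventually.of_forall fun y =>
      mul_nonneg (by positivity) (hF0 _)) hm1.aestronglyMeasurable,
    integral_eq_lintegral_of_nonneg_ae (Eventually.of_forall fun s =>
      mul_nonneg (div_nonneg (by positivity) (hn.le.trans (le_max_right _ _))) (hF0 _))
      hm2.aestronglyMeasurable]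
  congr 1
  have h := lintegral_radial hx (Φ := fun s => ENNReal.ofReal (F s)) hF.ennreal_ofReal
  have e1 : ∀ y : V, ENNReal.ofReal (‖x - y‖⁻¹ * F ‖y‖) =
      ENNReal.ofReal ‖x - y‖⁻¹ * ENNReal.ofReal (F ‖y‖) := fun y =>
    ENNReal.ofReal_mul (by positivity)
  have e2 : ∀ s : ℝ, ENNReal.ofReal (4 * Real.pi * s ^ 2 / max s ‖x‖ * F s) =
      ENNReal.ofReal (4 * Real.pi * s ^ 2 / max s ‖x‖) * ENNReal.ofReal (F s) := fun s =>
    ENNReal.ofReal_mul (div_nonneg (by positivity) (hn.le.trans (le_max_right _ _)))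
  simp_rw [e1, e2]
  exact h

theorem vol_ballV (r : ℝ) (hr : 0 ≤ r) :
    volume.real (ball (0 : V) r) = 4 / 3 * Real.pi * r ^ 3 := by
  haveI := nontriv (V := V)
  have h := InnerProductSpace.volume_ball_of_dim_odd (E := V) (k := 1) (by rw [hd.out]) 0 r
  rw [Measure.real, h, hd.out]
  rw [ENNReal.toReal_mul, ENNReal.toReal_pow, ENNReal.toReal_ofReal hr,
    ENNReal.toReal_ofReal (by positivity)]
  norm_num [Nat.doubleFactorial]
  ring

/-- polar coordinates for radial functions -/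
theorem integral_radial (F : ℝ → ℝ) :
    ∫ y : V, F ‖y‖ = ∫ s in Ioi (0 : ℝ), 4 * Real.pi * s ^ 2 * F s := by
  haveI := nontriv (V := V)
  rw [integral_fun_norm_addHaar, hd.out, vol_ballV 1 zero_le_one]
  simp only [smul_eq_mul, nsmul_eq_mul]
  rw [← integral_const_mul, ← integral_const_mul]
  refine integral_congr_ae (Eventually.of_forall fun s => ?_)
  simp only
  norm_num
  ring

theorem integrable_radial_iff (F : ℝ → ℝ) :
    Integrable (fun y : V => F ‖y‖) ↔ IntegrableOn (fun s => 4 * Real.pi * s ^ 2 * F s) (Ioi 0) := by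
  haveI := nontriv (V := V)
  rw [integrable_fun_norm_addHaar, hd.out]
  simp only [smul_eq_mul]
  have e : (fun s => 4 * Real.pi * s ^ 2 * F s) = fun s => 4 * Real.pi * (s ^ (3 - 1) * F s) := by
    funext s
    norm_num
    ring
  rw [e]
  constructor
  · intro h
    exact h.const_mul _
  · intro h
    have h2 := h.const_mul (4 * Real.pi)⁻¹
    refine h2.congr (Eventually.of_forall fun s => ?_)
    simp only
    field_simp

theorem integral_radial_ball (F : ℝ → ℝ) {r : ℝ} (hr : 0 ≤ r) :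
    ∫ y in ball (0 : V) r, F ‖y‖ = ∫ s in (0 : ℝ)..r, 4 * Real.pi * s ^ 2 * F s := by
  have h1 : ∫ y in ball (0 : V) r, F ‖y‖ = ∫ y : V, (Iio r).indicator F ‖y‖ := by
    rw [← integral_indicator measurableSet_ball]
    refine integral_congr_ae (Eventually.of_forall fun y => ?_)
    simp only
    by_cases hy : y ∈ ball (0 : V) r
    · rw [indicator_of_mem hy, indicator_of_mem (by simpa using hy : ‖y‖ ∈ Iio r)]
    · rw [indicator_of_notMem hy, indicator_of_notMem (by simpa using hy : ‖y‖ ∉ Iio r)]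
  rw [h1, integral_radial, intervalIntegral.integral_of_le hr, integral_Ioc_eq_integral_Ioo,
    ← integral_indicator measurableSet_Ioi, ← integral_indicator measurableSet_Ioo]
  refine integral_congr_ae (Eventually.of_forall fun s => ?_)
  simp only [indicator_apply, mem_Ioi, mem_Iio, mem_Ioo]
  by_cases h2 : 0 < s <;> by_cases h3 : s < r <;> simp [h2, h3]

end dim3

end Pool.Agent.TF

end

section
/-! Passage to the limit in a flux inequality: cut-offs at the nuclei and at infinity.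
A vector field `J` and an integrable function `F` with `0 ≤ ∫ ζ F + ∫ ⟪J, ∇ζ⟫` for every test
function `ζ ≥ 0` vanishing near the nuclei satisfy `0 ≤ ∫ F + ∑ c i`, where `c i` bounds the
flux of `J` out of the nucleus `i`, if the flux at infinity is not negative. -/

set_option autoImplicit false

set_option linter.unusedSectionVars false

set_option linter.unusedVariables false

set_option linter.style.haveILetI false

namespace Pool.Agent.TF.Flux

open MeasureTheory Set Metric Filter Topology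

open scoped ENNReal NNReal RealInnerProductSpace Gradient

variable {V : Type*} [NormedAddCommGroup V] [InnerProductSpace ℝ V] [FiniteDimensional ℝ V]
  [MeasurableSpace V] [BorelSpace V]

variable {ι : Type*} [Fintype ι]

/-- one for `t ≤ ε`, zero for `t ≥ 2 ε` -/
noncomputable def cut (ε t : ℝ) : ℝ := max 0 (min 1 (2 - t / ε))

theorem cut_nonneg (ε t : ℝ) : 0 ≤ cut ε t := le_max_left _ _

theorem cut_le_one (ε t : ℝ) : cut ε t ≤ 1 := max_le zero_le_one (min_le_left _ _)

theorem cut_one {ε t : ℝ} (hε : 0 < ε) (h : t ≤ ε) : cut ε t = 1 := by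
  have : t / ε ≤ 1 := (div_le_one hε).2 h
  unfold cut
  rw [min_eq_left (by linarith), max_eq_right zero_le_one]

theorem cut_zero {ε t : ℝ} (hε : 0 < ε) (h : 2 * ε ≤ t) : cut ε t = 0 := by
  have : 2 ≤ t / ε := (le_div_iff₀ hε).2 h
  unfold cut
  rw [max_eq_left]
  exact (min_le_right _ _).trans (by linarith)

theorem cut_mid {ε t : ℝ} (hε : 0 < ε) (h1 : ε ≤ t) (h2 : t ≤ 2 * ε) : cut ε t = 2 - t / ε := by
  have h3 : 1 ≤ t / ε := (le_div_iff₀ hε).2 (by linarith)
  have h4 : t / ε ≤ 2 := (div_le_iff₀ hε).2 (by linarith)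
  unfold cut
  rw [min_eq_right (by linarith), max_eq_right (by linarith)]

theorem cut_lip {ε : ℝ} (hε : 0 < ε) : LipschitzWith ⟨ε⁻¹, by positivity⟩ (cut ε) := by
  have h1 : LipschitzWith ⟨ε⁻¹, by positivity⟩ (fun t : ℝ => 2 - t / ε) := by
    refine LipschitzWith.of_dist_le_mul fun s t => ?_
    rw [Real.dist_eq, Real.dist_eq, show 2 - s / ε - (2 - t / ε) = -(ε⁻¹ * (s - t)) by
      field_simp; ring, abs_neg, abs_mul, abs_of_pos (inv_pos.2 hε)]
    rfl
  exact (h1.const_min 1).const_max 0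

/-- gradient of the cut-off, off two spheres -/
noncomputable def gcut (ε : ℝ) (y : V) : V :=
  (Ioo ε (2 * ε)).indicator (fun _ => -ε⁻¹) ‖y‖ • (‖y‖⁻¹ • y)

theorem hasGradient_norm {y : V} (hy : y ≠ 0) :
    HasGradientAt (fun y : V => ‖y‖) (‖y‖⁻¹ • y) y := by
  have h := (hasStrictFDerivAt_norm_sq y).hasFDerivAt.sqrt (by positivity)
  have e : (fun y : V => √(‖y‖ ^ 2)) = fun y => ‖y‖ := by
    funext z; exact Real.sqrt_sq (norm_nonneg z)
  rw [e] at h
  rw [hasGradientAt_iff_hasFDerivAt]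
  refine h.congr_fderiv ?_
  ext v
  simp only [_root_.smul_apply, innerSL_apply_apply, InnerProductSpace.toDual_apply_apply,
    inner_smul_left, Real.sqrt_sq (norm_nonneg y), smul_eq_mul]
  simp
  field_simp

theorem hasGradient_cut {ε : ℝ} (hε : 0 < ε) {y : V} (h1 : ‖y‖ ≠ ε) (h2 : ‖y‖ ≠ 2 * ε) :
    HasGradientAt (fun y : V => cut ε ‖y‖) (gcut ε y) y := by
  have hc : Continuous fun y : V => ‖y‖ := continuous_norm
  rcases lt_or_gt_of_ne h1 with h | h
  · have e : (fun y : V => cut ε ‖y‖) =ᶠ[𝓝 y] fun _ => 1 := by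
      filter_upwards [(isOpen_lt hc continuous_const).mem_nhds h] with z hz
      exact cut_one hε (le_of_lt hz)
    have e2 : gcut ε y = 0 := by
      unfold gcut
      rw [indicator_of_notMem (by intro hh; exact absurd hh.1 (not_lt.2 h.le)), zero_smul]
    rw [e2]
    exact (hasGradientAt_const y (1 : ℝ)).congr_of_eventuallyEq e
  · rcases lt_or_gt_of_ne h2 with h' | h'
    · have e : (fun y : V => cut ε ‖y‖) =ᶠ[𝓝 y] fun z => 2 - ‖z‖ / ε := by
        filter_upwards [(isOpen_lt hc continuous_const).mem_nhds h',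
          (isOpen_lt continuous_const hc).mem_nhds h] with z hz hz'
        exact cut_mid hε (le_of_lt hz') (le_of_lt hz)
      have e2 : gcut ε y = (-ε⁻¹) • (‖y‖⁻¹ • y) := by
        unfold gcut
        rw [indicator_of_mem (show ‖y‖ ∈ Ioo ε (2 * ε) from ⟨h, h'⟩)]
      have hy : y ≠ 0 := by
        intro h0
        rw [h0, norm_zero] at h
        exact absurd h (not_lt.2 hε.le)
      rw [e2]
      refine HasGradientAt.congr_of_eventuallyEq ?_ e
      have h3 := hasGradient_norm hy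
      rw [hasGradientAt_iff_hasFDerivAt] at h3 ⊢
      have h4 := (h3.const_mul ε⁻¹).const_sub 2
      have e3 : (fun z : V => 2 - ‖z‖ / ε) = fun z => 2 - ε⁻¹ * ‖z‖ := by
        funext z; rw [div_eq_inv_mul]
      rw [e3]
      refine h4.congr_fderiv ?_
      rw [neg_smul, map_neg, map_smul, map_smul, map_smul]
    · have e : (fun y : V => cut ε ‖y‖) =ᶠ[𝓝 y] fun _ => 0 := by
        filter_upwards [(isOpen_lt continuous_const hc).mem_nhds h'] with z hz
        exact cut_zero hε (le_of_lt hz)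
      have e2 : gcut ε y = 0 := by
        unfold gcut
        rw [indicator_of_notMem (by intro hh; exact absurd hh.2 (not_lt.2 h'.le)), zero_smul]
      rw [e2]
      exact (hasGradientAt_const y (0 : ℝ)).congr_of_eventuallyEq e

/-- test functions: Lipschitz, compact support, nonnegative, zero near the nuclei -/
structure TestFn (R : ι → V) (ζ : V → ℝ) : Prop where
  lip : ∃ C : ℝ≥0, LipschitzWith C ζ
  supp : HasCompactSupport ζ
  nonneg : ∀ x, 0 ≤ ζ x
  off : ∀ i, ∀ᶠ x in 𝓝 (R i), ζ x = 0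

/-- the standard cut-off -/
noncomputable def zet (R : ι → V) (ε N : ℝ) (x : V) : ℝ := cut N ‖x‖ - ∑ i, cut ε ‖x - R i‖

/-- its gradient -/
noncomputable def gzet (R : ι → V) (ε N : ℝ) (x : V) : V := gcut N x - ∑ i, gcut ε (x - R i)

/-- the cut-off parameters are small, respectively large, enough -/
structure Fine (R : ι → V) (ε N : ℝ) : Prop where
  pos : 0 < ε
  Npos : 0 < N
  sep : ∀ i j, i ≠ j → 4 * ε ≤ ‖R i - R j‖
  big : ∀ i, ‖R i‖ + 2 * ε ≤ N

theorem zet_eq {R : ι → V} {ε N : ℝ} (h : Fine R ε N) {x : V} {i : ι} (hi : ‖x - R i‖ ≤ 2 * ε) :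
    zet R ε N x = 1 - cut ε ‖x - R i‖ := by
  classical
  unfold zet
  rw [cut_one h.Npos, Finset.sum_eq_single i]
  · intro j _ hj
    refine cut_zero h.pos ?_
    have h1 := h.sep i j (Ne.symm hj)
    have h2 : ‖R i - R j‖ ≤ ‖x - R i‖ + ‖x - R j‖ := by
      rw [show R i - R j = (x - R j) - (x - R i) by abel]
      exact (norm_sub_le _ _).trans (by rw [add_comm])
    linarith
  · intro hh; exact absurd (Finset.mem_univ i) hh
  · have h2 : ‖x‖ ≤ ‖x - R i‖ + ‖R i‖ := by
      have := norm_add_le (x - R i) (R i)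
      rwa [sub_add_cancel] at this
    linarith [h.big i]

theorem zet_eq' {R : ι → V} {ε N : ℝ} (h : Fine R ε N) {x : V} (hi : ∀ i, 2 * ε ≤ ‖x - R i‖) :
    zet R ε N x = cut N ‖x‖ := by
  unfold zet
  rw [Finset.sum_eq_zero fun i _ => cut_zero h.pos (hi i), sub_zero]

theorem zet_nonneg {R : ι → V} {ε N : ℝ} (h : Fine R ε N) (x : V) : 0 ≤ zet R ε N x := by
  by_cases hx : ∃ i, ‖x - R i‖ ≤ 2 * ε
  · obtain ⟨i, hi⟩ := hx
    rw [zet_eq h hi]
    linarith [cut_le_one ε ‖x - R i‖]
  · push Not at hx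
    rw [zet_eq' h fun i => (hx i).le]
    exact cut_nonneg _ _

theorem zet_le_one {R : ι → V} {ε N : ℝ} (h : Fine R ε N) (x : V) : zet R ε N x ≤ 1 := by
  unfold zet
  have : 0 ≤ ∑ i, cut ε ‖x - R i‖ := Finset.sum_nonneg fun i _ => cut_nonneg _ _
  linarith [cut_le_one N ‖x‖]

theorem zet_lip {R : ι → V} {ε N : ℝ} (h : Fine R ε N) :
    ∃ C : ℝ≥0, LipschitzWith C (zet R ε N) := by
  classical
  have h1 : LipschitzWith _ (fun x : V => cut N ‖x‖) := (cut_lip h.Npos).comp lipschitzWith_one_norm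
  have h2 : ∀ i, LipschitzWith _ (fun x : V => cut ε ‖x - R i‖) := fun i =>
    (cut_lip h.pos).comp (lipschitzWith_one_norm.comp (LipschitzWith.id.sub (LipschitzWith.const (R i))))
  have h3 : ∀ s : Finset ι, ∃ C : ℝ≥0, LipschitzWith C (fun x : V => ∑ i ∈ s, cut ε ‖x - R i‖) := by
    intro s
    induction s using Finset.induction_on with
    | empty => exact ⟨0, by simp⟩
    | insert a s ha ih =>
      obtain ⟨C, hC⟩ := ih
      simp only [Finset.sum_insert ha]
      exact ⟨_, (h2 a).add hC⟩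
  obtain ⟨C, hC⟩ := h3 Finset.univ
  exact ⟨_, h1.sub hC⟩

theorem zet_test {R : ι → V} {ε N : ℝ} (h : Fine R ε N) : TestFn R (zet R ε N) := by
  refine ⟨zet_lip h, ?_, zet_nonneg h, ?_⟩
  · refine HasCompactSupport.intro (isCompact_closedBall (0 : V) (2 * N)) fun x hx => ?_
    rw [mem_closedBall_zero_iff, not_le] at hx
    have h1 : ∀ i, 2 * ε ≤ ‖x - R i‖ := by
      intro i
      have h2 : ‖x‖ ≤ ‖x - R i‖ + ‖R i‖ := by
        have := norm_add_le (x - R i) (R i)
        rwa [sub_add_cancel] at this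
      linarith [h.big i, h.Npos, h.pos]
    rw [zet_eq' h h1, cut_zero h.Npos hx.le]
  · intro i
    have hc : Continuous fun x : V => ‖x - R i‖ := by fun_prop
    have h0 : ‖R i - R i‖ < ε := by simpa using h.pos
    filter_upwards [(isOpen_lt hc continuous_const).mem_nhds h0] with x hx
    have hx' : ‖x - R i‖ < ε := hx
    rw [zet_eq h (i := i) (by linarith [h.pos]), cut_one h.pos hx'.le, sub_self]

theorem sphere_ae [Nontrivial V] (a : V) {r : ℝ} : ∀ᵐ x : V, ‖x - a‖ ≠ r := by
  have h : volume (sphere a r) = 0 := Measure.addHaar_sphere _ a r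
  rw [← compl_mem_ae_iff] at h
  filter_upwards [h] with x hx
  rw [mem_compl_iff, mem_sphere_iff_norm] at hx
  exact hx

theorem zet_grad [Nontrivial V] {R : ι → V} {ε N : ℝ} (h : Fine R ε N) :
    ∀ᵐ x : V, ∇ (zet R ε N) x = gzet R ε N x := by
  have h1 : ∀ᵐ x : V, ∀ i, ‖x - R i‖ ≠ ε ∧ ‖x - R i‖ ≠ 2 * ε := by
    rw [ae_all_iff]
    intro i
    filter_upwards [sphere_ae (R i) (r := ε), sphere_ae (R i) (r := 2 * ε)] with x a b
    exact ⟨a, b⟩
  filter_upwards [h1, sphere_ae (0 : V) (r := N), sphere_ae (0 : V) (r := 2 * N)] with x hx a b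
  rw [sub_zero] at a b
  refine HasGradientAt.gradient ?_
  unfold zet gzet
  have h2 : ∀ i, HasGradientAt (fun x : V => cut ε ‖x - R i‖) (gcut ε (x - R i)) x := by
    intro i
    have h3 := hasGradient_cut (y := x - R i) h.pos (hx i).1 (hx i).2
    rw [hasGradientAt_iff_hasFDerivAt] at h3 ⊢
    have h4 := h3.comp x ((hasFDerivAt_id x).sub_const (R i))
    exact h4
  have h5 := hasGradient_cut (y := x) h.Npos a b
  rw [hasGradientAt_iff_hasFDerivAt] at h5 ⊢
  have h6 : HasFDerivAt (fun x : V => ∑ i, cut ε ‖x - R i‖)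
      (∑ i, (InnerProductSpace.toDual ℝ V) (gcut ε (x - R i))) x :=
    HasFDerivAt.fun_sum fun i _ => (hasGradientAt_iff_hasFDerivAt.1 (h2 i))
  refine (h5.sub h6).congr_fderiv ?_
  rw [map_sub, map_sum]

theorem gcut_meas (ε : ℝ) : Measurable (gcut (V := V) ε) := by
  unfold gcut
  have h1 : Measurable fun y : V => (Ioo ε (2 * ε)).indicator (fun _ => -ε⁻¹) ‖y‖ :=
    (measurable_const.indicator measurableSet_Ioo).comp measurable_norm
  exact h1.smul (by fun_prop)

theorem norm_gcut_le {ε : ℝ} (hε : 0 < ε) (y : V) : ‖gcut ε y‖ ≤ ε⁻¹ := by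
  unfold gcut
  rw [norm_smul, norm_smul, norm_inv, norm_norm]
  have h1 : ‖(Ioo ε (2 * ε)).indicator (fun _ => -ε⁻¹) ‖y‖‖ ≤ ε⁻¹ := by
    refine (norm_indicator_le_norm_self _ _).trans (le_of_eq ?_)
    rw [norm_neg, norm_inv, Real.norm_of_nonneg hε.le]
  have h2 : ‖y‖⁻¹ * ‖y‖ ≤ 1 := inv_mul_le_one
  calc ‖(Ioo ε (2 * ε)).indicator (fun _ => -ε⁻¹) ‖y‖‖ * (‖y‖⁻¹ * ‖y‖)
      ≤ ε⁻¹ * 1 := mul_le_mul h1 h2 (by positivity) (by positivity)
    _ = ε⁻¹ := mul_one _

theorem inner_gcut_integrable {J : V → V} {a : V} {ε : ℝ} (hε : 0 < ε)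
    (hJ : IntegrableOn J (closedBall a (2 * ε) \ ball a ε)) :
    Integrable fun x => ⟪J x, gcut ε (x - a)⟫ := by
  set S : Set V := closedBall a (2 * ε) \ ball a ε with hS
  have hSm : MeasurableSet S := measurableSet_closedBall.diff measurableSet_ball
  have hg : Measurable fun x : V => gcut ε (x - a) := (gcut_meas ε).comp (by fun_prop)
  have h0 : (fun x => ⟪J x, gcut ε (x - a)⟫) = S.indicator fun x => ⟪J x, gcut ε (x - a)⟫ := by
    funext x
    by_cases hx : x ∈ S
    · rw [indicator_of_mem hx]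
    · rw [indicator_of_notMem hx]
      have : ‖x - a‖ ∉ Ioo ε (2 * ε) := by
        intro hh
        refine hx ⟨?_, ?_⟩
        · rw [mem_closedBall, dist_eq_norm]; exact hh.2.le
        · rw [mem_ball, dist_eq_norm, not_lt]; exact hh.1.le
      unfold gcut
      rw [indicator_of_notMem this, zero_smul, inner_zero_right]
  rw [h0, integrable_indicator_iff hSm]
  refine Integrable.mono' (hJ.norm.const_mul ε⁻¹) (hJ.1.inner hg.aestronglyMeasurable)
    (Eventually.of_forall fun x => ?_)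
  calc ‖⟪J x, gcut ε (x - a)⟫‖ ≤ ‖J x‖ * ‖gcut ε (x - a)‖ := norm_inner_le_norm _ _
    _ ≤ ‖J x‖ * ε⁻¹ := mul_le_mul_of_nonneg_left (norm_gcut_le hε _) (norm_nonneg _)
    _ = ε⁻¹ * ‖J x‖ := mul_comm _ _

variable [hd : Fact (Module.finrank ℝ V = 3)]

/-- the radial weight of a shell has integral one -/
theorem shell_weight (a : V) {ε : ℝ} (hε : 0 < ε) (c : ℝ) :
    Integrable (fun x : V => (Ioo ε (2 * ε)).indicator (fun s => ε⁻¹ * (c / (4 * Real.pi * s ^ 2)))
      ‖x - a‖) ∧
    ∫ x : V, (Ioo ε (2 * ε)).indicator (fun s => ε⁻¹ * (c / (4 * Real.pi * s ^ 2))) ‖x - a‖ = c := by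
  set F : ℝ → ℝ := (Ioo ε (2 * ε)).indicator (fun s => ε⁻¹ * (c / (4 * Real.pi * s ^ 2))) with hF
  have h1 : (fun s => 4 * Real.pi * s ^ 2 * F s) = (Ioo ε (2 * ε)).indicator fun _ => ε⁻¹ * c := by
    funext s
    by_cases hs : s ∈ Ioo ε (2 * ε)
    · have : s ≠ 0 := (hε.trans hs.1).ne'
      rw [hF, indicator_of_mem hs, indicator_of_mem hs]
      field_simp
    · rw [hF, indicator_of_notMem hs, indicator_of_notMem hs, mul_zero]
  have h3 : Integrable ((Ioo ε (2 * ε)).indicator fun _ : ℝ => ε⁻¹ * c) := by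
    rw [integrable_indicator_iff measurableSet_Ioo]
    exact integrableOn_const (by rw [Real.volume_Ioo]; exact ENNReal.ofReal_ne_top)
  have h2 : Integrable (fun y : V => F ‖y‖) := by
    rw [integrable_radial_iff, h1]
    exact h3.integrableOn
  refine ⟨h2.comp_sub_right a, ?_⟩
  rw [integral_sub_right_eq_self (fun y : V => F ‖y‖) a, integral_radial, h1,
    setIntegral_indicator measurableSet_Ioo]
  have h4 : Ioi (0 : ℝ) ∩ Ioo ε (2 * ε) = Ioo ε (2 * ε) := by
    rw [inter_eq_right]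
    intro s hs
    exact hε.trans hs.1
  rw [h4, setIntegral_const, Measure.real, Real.volume_Ioo, ENNReal.toReal_ofReal (by linarith),
    smul_eq_mul]
  field_simp
  ring

/-- the flux of a vector field through a shell -/
theorem shell_le {J : V → V} {a : V} {ε c : ℝ} (hε : 0 < ε)
    (hJ : IntegrableOn J (closedBall a (2 * ε) \ ball a ε))
    (h : ∀ᵐ x : V, ε < ‖x - a‖ → ‖x - a‖ < 2 * ε →
      4 * Real.pi * ‖x - a‖ ^ 2 * ⟪J x, ‖x - a‖⁻¹ • (x - a)⟫ ≤ c) :
    ∫ x, -⟪J x, gcut ε (x - a)⟫ ≤ c := by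
  obtain ⟨h1, h2⟩ := shell_weight (V := V) a hε c
  rw [← h2]
  refine integral_mono_ae (inner_gcut_integrable hε hJ).neg h1 ?_
  filter_upwards [h] with x hx
  unfold gcut
  by_cases hs : ‖x - a‖ ∈ Ioo ε (2 * ε)
  · rw [indicator_of_mem hs, indicator_of_mem hs, inner_smul_right]
    have h3 := hx hs.1 hs.2
    have h4 : 0 < ‖x - a‖ := hε.trans hs.1
    have h5 : ⟪J x, ‖x - a‖⁻¹ • (x - a)⟫ ≤ c / (4 * Real.pi * ‖x - a‖ ^ 2) := by
      rw [le_div_iff₀ (by positivity), mul_comm]
      exact h3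
    have h6 := mul_le_mul_of_nonneg_left h5 (inv_pos.2 hε).le
    linarith
  · rw [indicator_of_notMem hs, indicator_of_notMem hs, zero_smul, inner_zero_right, neg_zero]

/-- passage to the limit in a flux inequality -/
theorem flux_limit {R : ι → V} (hR : Function.Injective R) {J : V → V} {F : V → ℝ} {c : ι → ℝ}
    (hF : Integrable F)
    (hJ : ∀ K, IsCompact K → (∀ i, R i ∉ K) → IntegrableOn J K)
    (hflux : ∀ ζ, TestFn R ζ → 0 ≤ (∫ x, ζ x * F x) + ∫ x, ⟪J x, ∇ ζ x⟫)
    (hnuc : ∀ i, ∀ δ : ℝ, 0 < δ → ∃ η : ℝ, 0 < η ∧ ∀ᵐ x : V, ‖x - R i‖ < η →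
      4 * Real.pi * ‖x - R i‖ ^ 2 * ⟪J x, ‖x - R i‖⁻¹ • (x - R i)⟫ ≤ c i + δ)
    (hinf : ∀ δ : ℝ, 0 < δ → ∃ N : ℝ, ∀ᵐ x : V, N < ‖x‖ →
      -δ ≤ 4 * Real.pi * ‖x‖ ^ 2 * ⟪J x, ‖x‖⁻¹ • x⟫) :
    0 ≤ (∫ x, F x) + ∑ i, c i := by
  haveI := nontriv (V := V)
  -- it is enough to have the inequality up to `δ`
  have key : ∀ δ : ℝ, 0 < δ → 0 ≤ (∫ x, F x) + ∑ i, (c i + δ) + δ := by
    intro δ hδ
    choose η hη0 hη using fun i => hnuc i δ hδ
    obtain ⟨N₀, hN₀⟩ := hinf δ hδ
    set ε : ℕ → ℝ := fun n => ((n : ℝ) + 1)⁻¹ with hε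
    set N : ℕ → ℝ := fun n => (n : ℝ) + 1 with hN
    have hεt : Tendsto ε atTop (𝓝 0) := by
      have := tendsto_one_div_add_atTop_nhds_zero_nat (𝕜 := ℝ)
      simpa [hε, one_div] using this
    have hNt : Tendsto N atTop atTop :=
      tendsto_atTop_add_const_right _ _ tendsto_natCast_atTop_atTop
    have hε0 : ∀ n, 0 < ε n := fun n => by positivity
    have hN0 : ∀ n, 0 < N n := fun n => by positivity
    have e1 : ∀ᶠ n in atTop, ∀ i j, i ≠ j → 4 * ε n ≤ ‖R i - R j‖ := by
      rw [eventually_all]; intro i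
      rw [eventually_all]; intro j
      by_cases hij : i = j
      · exact Eventually.of_forall fun n h => absurd hij h
      · have hpos : 0 < ‖R i - R j‖ := norm_pos_iff.2 (sub_ne_zero.2 fun h => hij (hR h))
        filter_upwards [(hεt.const_mul 4).eventually (gt_mem_nhds
          (show 4 * (0 : ℝ) < ‖R i - R j‖ by simpa using hpos))] with n hn _
        exact le_of_lt hn
    have e2 : ∀ᶠ n in atTop, ∀ i, ‖R i‖ + 2 * ε n ≤ N n := by
      rw [eventually_all]; intro i
      filter_upwards [hNt.eventually_ge_atTop (‖R i‖ + 2), hεt.eventually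
        (gt_mem_nhds (show (0 : ℝ) < 1 by norm_num))] with n h1 h2
      linarith
    have e3 : ∀ᶠ n in atTop, ∀ i, 2 * ε n ≤ η i := by
      rw [eventually_all]; intro i
      filter_upwards [(hεt.const_mul 2).eventually (gt_mem_nhds
          (show 2 * (0 : ℝ) < η i by simpa using hη0 i))] with n hn
      exact le_of_lt hn
    have e4 : ∀ᶠ n in atTop, N₀ ≤ N n := hNt.eventually_ge_atTop _
    have hfine : ∀ᶠ n in atTop, Fine R (ε n) (N n) := by
      filter_upwards [e1, e2] with n h1 h2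
      exact ⟨hε0 n, hN0 n, h1, h2⟩
    -- the inequality at the level `n`
    have hn : ∀ᶠ n in atTop, 0 ≤ (∫ x, zet R (ε n) (N n) x * F x) + (∑ i, (c i + δ) + δ) := by
      filter_upwards [hfine, e3, e4] with n hf h3 h4
      have h5 := hflux _ (zet_test hf)
      have hJi : ∀ i, IntegrableOn J (closedBall (R i) (2 * ε n) \ ball (R i) (ε n)) := by
        intro i
        refine hJ _ ((isCompact_closedBall _ _).diff isOpen_ball) fun j hj => ?_
        rcases eq_or_ne j i with h | h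
        · rw [h] at hj
          exact hj.2 (mem_ball_self (hε0 n))
        · have := hf.sep j i h
          have h6 := hj.1
          rw [mem_closedBall, dist_eq_norm] at h6
          linarith [hε0 n]
      have hJN : IntegrableOn J (closedBall (0 : V) (2 * N n) \ ball 0 (N n)) := by
        refine hJ _ ((isCompact_closedBall _ _).diff isOpen_ball) fun j hj => ?_
        refine hj.2 ?_
        rw [mem_ball_zero_iff]
        linarith [hf.big j, hε0 n]
      have h6 : ∫ x, ⟪J x, ∇ (zet R (ε n) (N n)) x⟫ =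
          (∫ x, ⟪J x, gcut (N n) x⟫) - ∑ i, ∫ x, ⟪J x, gcut (ε n) (x - R i)⟫ := by
        have h7 : ∀ᵐ x : V, ⟪J x, ∇ (zet R (ε n) (N n)) x⟫ =
            ⟪J x, gcut (N n) (x - 0)⟫ - ∑ i, ⟪J x, gcut (ε n) (x - R i)⟫ := by
          filter_upwards [zet_grad hf] with x hx
          rw [hx, gzet, inner_sub_right, inner_sum, sub_zero]
        rw [integral_congr_ae h7, integral_sub (inner_gcut_integrable (hN0 n) hJN)
          (integrable_finsetSum _ fun i _ => inner_gcut_integrable (hε0 n) (hJi i)),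
          integral_finsetSum _ fun i _ => inner_gcut_integrable (hε0 n) (hJi i)]
        simp only [sub_zero]
      have h8 : ∀ i, -∫ x, ⟪J x, gcut (ε n) (x - R i)⟫ ≤ c i + δ := by
        intro i
        rw [← integral_neg]
        refine shell_le (hε0 n) (hJi i) ?_
        filter_upwards [hη i] with x hx _ hx2
        exact hx (lt_of_lt_of_le hx2 (h3 i))
      have h9 : ∫ x, ⟪J x, gcut (N n) x⟫ ≤ δ := by
        have h10 : ∫ x, -⟪-J x, gcut (N n) (x - 0)⟫ ≤ δ := by
          refine shell_le (J := fun x => -J x) (hN0 n) hJN.neg ?_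
          filter_upwards [hN₀] with x hx h1 _
          rw [sub_zero] at h1 ⊢
          have := hx (lt_of_le_of_lt h4 h1)
          rw [inner_neg_left]
          linarith
        simpa [inner_neg_left] using h10
      rw [h6] at h5
      have h11 : -∑ i, ∫ x, ⟪J x, gcut (ε n) (x - R i)⟫ ≤ ∑ i, (c i + δ) := by
        rw [← Finset.sum_neg_distrib]
        exact Finset.sum_le_sum fun i _ => h8 i
      linarith
    -- the limit
    have hlim : Tendsto (fun n => ∫ x, zet R (ε n) (N n) x * F x) atTop (𝓝 (∫ x, F x)) := by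
      refine tendsto_integral_filter_of_dominated_convergence (fun x => ‖F x‖) ?_ ?_ hF.norm ?_
      · filter_upwards [hfine] with n hf
        obtain ⟨C, hC⟩ := zet_lip hf
        exact hC.continuous.aestronglyMeasurable.mul hF.1
      · filter_upwards [hfine] with n hf
        refine Eventually.of_forall fun x => ?_
        rw [norm_mul, Real.norm_of_nonneg (zet_nonneg hf x)]
        exact mul_le_of_le_one_left (norm_nonneg _) (zet_le_one hf x)
      · have hne : ∀ᵐ x : V, ∀ i, x ≠ R i := by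
          rw [ae_all_iff]
          intro i
          rw [ae_iff]
          simp
        filter_upwards [hne] with x hx
        refine tendsto_const_nhds.congr' ?_
        have e5 : ∀ᶠ n in atTop, ∀ i, 2 * ε n ≤ ‖x - R i‖ := by
          rw [eventually_all]; intro i
          have hpos : 0 < ‖x - R i‖ := norm_pos_iff.2 (sub_ne_zero.2 (hx i))
          filter_upwards [(hεt.const_mul 2).eventually (gt_mem_nhds
            (show 2 * (0 : ℝ) < ‖x - R i‖ by simpa using hpos))] with n hn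
          exact le_of_lt hn
        filter_upwards [hfine, e5, hNt.eventually_ge_atTop ‖x‖] with n hf h5 h6
        rw [zet_eq' hf h5, cut_one (hN0 n) h6, one_mul]
    have := ge_of_tendsto (hlim.add_const (∑ i, (c i + δ) + δ)) hn
    linarith
  -- let `δ` tend to zero
  have hc : Tendsto (fun δ : ℝ => (∫ x, F x) + ∑ i, (c i + δ) + δ) (𝓝[>] 0)
      (𝓝 ((∫ x, F x) + ∑ i, (c i + 0) + 0)) := by
    refine Tendsto.mono_left (Continuous.tendsto ?_ 0) nhdsWithin_le_nhds
    fun_prop
  have h := ge_of_tendsto hc (by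
    filter_upwards [self_mem_nhdsWithin] with δ hδ
    exact key δ hδ)
  simpa using h

end Pool.Agent.TF.Flux

end

section
/-! From a pointwise calibration inequality to an integral inequality.
`ψ'` is the gradient of the potential (weak Poisson equation with density `ρ` off the nuclei),
`H` a multiplier, `A` a vector field whose divergence is at most `D` (in the weak sense), and
`F - ⟪H', ψ'⟫ - 4 π ρ H - D ≥ 0` almost everywhere.  Then `0 ≤ ∫ F + ∑ c i`, where `c i` bounds
the flux of `H ψ' + A` out of the nucleus `i`. -/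

set_option autoImplicit false

set_option linter.unusedSectionVars false

set_option linter.unusedVariables false

set_option linter.style.haveILetI false

namespace Pool.Agent.TF.Flux

open MeasureTheory Set Metric Filter Topology

open scoped ENNReal NNReal RealInnerProductSpace Gradient

variable {V : Type*} [NormedAddCommGroup V] [InnerProductSpace ℝ V] [FiniteDimensional ℝ V]
  [MeasurableSpace V] [BorelSpace V]

variable {ι : Type*} [Fintype ι]

/-- Lipschitz on compact sets without nuclei -/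
def LocLip (R : ι → V) (H : V → ℝ) : Prop :=
  ∀ K, IsCompact K → (∀ i, R i ∉ K) → ∃ C : ℝ≥0, LipschitzOnWith C H K

/-- integrable on compact sets without nuclei -/
def LocInt {E : Type*} [NormedAddCommGroup E] (R : ι → V) (f : V → E) : Prop :=
  ∀ K, IsCompact K → (∀ i, R i ∉ K) → IntegrableOn f K

theorem LocLip.bound {R : ι → V} {H : V → ℝ} (hH : LocLip R H) {K : Set V} (hK : IsCompact K)
    (hR : ∀ i, R i ∉ K) : ∃ B : ℝ, 0 ≤ B ∧ ∀ x ∈ K, ‖H x‖ ≤ B := by
  obtain ⟨C, hC⟩ := hH K hK hR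
  obtain ⟨B, hB⟩ := hK.exists_bound_of_continuousOn hC.continuousOn
  exact ⟨max B 0, le_max_right _ _, fun x hx => (hB x hx).trans (le_max_left _ _)⟩

theorem TestFn.notMem {R : ι → V} {ζ : V → ℝ} (h : TestFn R ζ) (i : ι) : R i ∉ tsupport ζ := by
  rw [notMem_tsupport_iff_eventuallyEq]
  exact h.off i

/-- `ζ H` is an admissible test function -/
theorem lip_mul {R : ι → V} {ζ H : V → ℝ} {C : ℝ≥0} (hζ : LipschitzWith C ζ)
    (hs : HasCompactSupport ζ) (hoff : ∀ i, R i ∉ tsupport ζ) (hH : LocLip R H) :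
    ∃ C' : ℝ≥0, LipschitzWith C' fun x => ζ x * H x := by
  obtain ⟨B, hB0, hB⟩ := hH.bound hs.isCompact hoff
  obtain ⟨L, hL⟩ := hH _ hs.isCompact hoff
  obtain ⟨M, hM⟩ := hs.isCompact.exists_bound_of_continuousOn hζ.continuous.continuousOn
  set M' : ℝ := max M 0 with hM'
  have hM1 : ∀ x ∈ tsupport ζ, |ζ x| ≤ M' := fun x hx => (hM x hx).trans (le_max_left _ _)
  have hM0 : 0 ≤ M' := le_max_right _ _
  have hsup : ∀ x, x ∉ tsupport ζ → ζ x = 0 := fun x hx => image_eq_zero_of_notMem_tsupport hx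
  have h1 : ∀ x y, x ∈ tsupport ζ → y ∉ tsupport ζ → |ζ x * H x - ζ y * H y| ≤
      (M' * L + B * C) * dist x y := by
    intro x y hx hy
    have h2 := hζ.dist_le_mul x y
    rw [Real.dist_eq] at h2
    have h3 := hB x hx
    rw [Real.norm_eq_abs] at h3
    have h4 : |ζ x * H x - ζ y * H y| = |ζ x - ζ y| * |H x| := by
      rw [hsup y hy, zero_mul, sub_zero, sub_zero, abs_mul]
    rw [h4]
    have hd : (0 : ℝ) ≤ dist x y := dist_nonneg
    calc |ζ x - ζ y| * |H x| ≤ (C * dist x y) * B :=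
          mul_le_mul h2 h3 (abs_nonneg _) (by positivity)
      _ ≤ (M' * L + B * C) * dist x y := by
          have : 0 ≤ M' * L * dist x y := by positivity
          nlinarith
  refine ⟨⟨M' * L + B * C, by positivity⟩, LipschitzWith.of_dist_le_mul fun x y => ?_⟩
  change dist (ζ x * H x) (ζ y * H y) ≤ (M' * L + B * C) * dist x y
  rw [Real.dist_eq]
  by_cases hx : x ∈ tsupport ζ
  · by_cases hy : y ∈ tsupport ζ
    · have h2 := hζ.dist_le_mul x y
      rw [Real.dist_eq] at h2
      have h3 := hB y hy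
      rw [Real.norm_eq_abs] at h3
      have h5 := hL.dist_le_mul x hx y hy
      rw [Real.dist_eq] at h5
      have e : ζ x * H x - ζ y * H y = ζ x * (H x - H y) + (ζ x - ζ y) * H y := by ring
      rw [e]
      have hd : (0 : ℝ) ≤ dist x y := dist_nonneg
      calc |ζ x * (H x - H y) + (ζ x - ζ y) * H y|
          ≤ |ζ x| * |H x - H y| + |ζ x - ζ y| * |H y| := by
            refine (abs_add_le _ _).trans (le_of_eq ?_)
            rw [abs_mul, abs_mul]
        _ ≤ M' * (L * dist x y) + (C * dist x y) * B := by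
            refine add_le_add (mul_le_mul (hM1 x hx) h5 (abs_nonneg _) hM0)
              (mul_le_mul h2 h3 (abs_nonneg _) (by positivity))
        _ = (M' * L + B * C) * dist x y := by ring
    · exact h1 x y hx hy
  · by_cases hy : y ∈ tsupport ζ
    · rw [abs_sub_comm, dist_comm]
      exact h1 y x hy hx
    · rw [hsup x hx, hsup y hy]
      simp only [zero_mul, sub_self, abs_zero]
      positivity

theorem gradient_mul_ae {ζ H : V → ℝ} {H' : V → V} {C : ℝ≥0} (hζ : LipschitzWith C ζ)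
    (hH' : ∀ᵐ x : V, HasGradientAt H (H' x) x) :
    ∀ᵐ x : V, ∇ (fun x => ζ x * H x) x = ζ x • H' x + H x • ∇ ζ x := by
  filter_upwards [hH', hζ.ae_differentiableAt (μ := (volume : Measure V))] with x h1 h2
  refine HasGradientAt.gradient ?_
  have h3 := h2.hasGradientAt
  rw [hasGradientAt_iff_hasFDerivAt] at h1 h3 ⊢
  refine (h3.mul h1).congr_fderiv ?_
  rw [map_add, map_smul, map_smul]

theorem LocInt.mul_left {E : Type*} [NormedAddCommGroup E] [NormedSpace ℝ E] {R : ι → V}
    {f : V → E} (hf : LocInt R f) {ζ : V → ℝ} (hζ : Continuous ζ) (hs : HasCompactSupport ζ)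
    (hoff : ∀ i, R i ∉ tsupport ζ) : Integrable fun x => ζ x • f x := by
  have h1 : (fun x => ζ x • f x) = (tsupport ζ).indicator fun x => ζ x • f x := by
    funext x
    by_cases hx : x ∈ tsupport ζ
    · rw [indicator_of_mem hx]
    · rw [indicator_of_notMem hx, image_eq_zero_of_notMem_tsupport hx, zero_smul]
  obtain ⟨M, hM⟩ := hs.isCompact.exists_bound_of_continuousOn hζ.continuousOn
  rw [h1, integrable_indicator_iff (isClosed_tsupport ζ).measurableSet]
  refine Integrable.bdd_smul (hf _ hs.isCompact hoff) M hζ.aestronglyMeasurable ?_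
  exact (ae_restrict_iff' (isClosed_tsupport ζ).measurableSet).2
    (Eventually.of_forall fun x hx => hM x hx)

theorem LocInt.inner_grad {R : ι → V} {f : V → V} (hf : LocInt R f) {ζ : V → ℝ} {C : ℝ≥0}
    (hζ : LipschitzWith C ζ) (hs : HasCompactSupport ζ) (hoff : ∀ i, R i ∉ tsupport ζ) :
    Integrable fun x => ⟪f x, ∇ ζ x⟫ := by
  have h1 : (fun x => ⟪f x, ∇ ζ x⟫) = (tsupport ζ).indicator fun x => ⟪f x, ∇ ζ x⟫ := by
    funext x
    by_cases hx : x ∈ tsupport ζ
    · rw [indicator_of_mem hx]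
    · rw [indicator_of_notMem hx, gradient_zero_of_notMem hx, inner_zero_right]
  rw [h1, integrable_indicator_iff (isClosed_tsupport ζ).measurableSet]
  have h2 := hf _ hs.isCompact hoff
  refine Integrable.mono' (h2.norm.const_mul (C : ℝ))
    (h2.1.inner (measurable_gradient ζ).aestronglyMeasurable) (Eventually.of_forall fun x => ?_)
  calc ‖⟪f x, ∇ ζ x⟫‖ ≤ ‖f x‖ * ‖∇ ζ x‖ := norm_inner_le_norm _ _
    _ ≤ ‖f x‖ * C := mul_le_mul_of_nonneg_left (gradient_bound hζ x) (norm_nonneg _)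
    _ = C * ‖f x‖ := mul_comm _ _

theorem LocLip.smul_locInt {R : ι → V} {H : V → ℝ} {f : V → V} (hH : LocLip R H)
    (hf : LocInt R f) : LocInt R fun x => H x • f x := by
  intro K hK hR
  obtain ⟨B, hB0, hB⟩ := hH.bound hK hR
  obtain ⟨C, hC⟩ := hH K hK hR
  refine Integrable.bdd_smul (hf K hK hR) B
    (hC.continuousOn.aestronglyMeasurable hK.measurableSet) ?_
  exact (ae_restrict_iff' hK.measurableSet).2 (Eventually.of_forall fun x hx => hB x hx)

theorem LocLip.mul_locInt {R : ι → V} {H f : V → ℝ} (hH : LocLip R H)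
    (hf : LocInt R f) : LocInt R fun x => f x * H x := by
  intro K hK hR
  obtain ⟨B, hB0, hB⟩ := hH.bound hK hR
  obtain ⟨C, hC⟩ := hH K hK hR
  refine ((hf K hK hR).bdd_mul (hC.continuousOn.aestronglyMeasurable hK.measurableSet)
    (c := B) ?_).congr (Eventually.of_forall fun x => mul_comm _ _)
  exact (ae_restrict_iff' hK.measurableSet).2 (Eventually.of_forall fun x hx => hB x hx)

/-- the gradient of a locally Lipschitz function is locally bounded, almost everywhere -/
theorem LocLip.grad_inner_locInt {R : ι → V} {H : V → ℝ} {H' f : V → V} (hH : LocLip R H)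
    (hH' : ∀ᵐ x : V, HasGradientAt H (H' x) x) (hf : LocInt R f) :
    LocInt R fun x => ⟪H' x, f x⟫ := by
  classical
  intro K hK hR
  -- a compact neighbourhood of `K` without nuclei
  have hop : IsOpen (range R)ᶜ := (finite_range R).isClosed.isOpen_compl
  have hsub : K ⊆ (range R)ᶜ := by
    rintro x hx ⟨i, rfl⟩
    exact hR i hx
  obtain ⟨L, hL, hKL, hLs⟩ := exists_compact_between hK hop hsub
  have hRL : ∀ i, R i ∉ L := fun i hi => hLs hi ⟨i, rfl⟩
  obtain ⟨C, hC⟩ := hH L hL hRL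
  have hb : ∀ᵐ x : V, x ∈ K → ‖H' x‖ ≤ C := by
    filter_upwards [hH'] with x hx hxK
    have h1 : x ∈ interior L := hKL hxK
    have h2 : ‖(InnerProductSpace.toDual ℝ V) (H' x)‖ ≤ C :=
      (hasGradientAt_iff_hasFDerivAt.1 hx).le_of_lipschitzOn
        (mem_interior_iff_mem_nhds.1 h1) hC
    rwa [LinearIsometryEquiv.norm_map] at h2
  have hm : AEStronglyMeasurable H' volume := by
    have h3 : (fun x => ∇ H x) =ᵐ[volume] H' := by
      filter_upwards [hH'] with x hx
      exact hx.gradient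
    exact (measurable_gradient H).aestronglyMeasurable.congr h3
  have h2 := hf K hK hR
  refine Integrable.mono' (h2.norm.const_mul (C : ℝ)) (hm.restrict.inner h2.1) ?_
  refine (ae_restrict_iff' hK.measurableSet).2 ?_
  filter_upwards [hb] with x hx hxK
  calc ‖⟪H' x, f x⟫‖ ≤ ‖H' x‖ * ‖f x‖ := norm_inner_le_norm _ _
    _ ≤ C * ‖f x‖ := mul_le_mul_of_nonneg_right (hx hxK) (norm_nonneg _)

/-- the integrated calibration inequality with a test function -/
theorem calib_test {R : ι → V} {ρ H D F : V → ℝ} {ψ' H' A : V → V}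
    (hρ : LocInt R ρ) (hψ : LocInt R ψ')
    (hweak : ∀ (u : V → ℝ) (C : ℝ≥0), LipschitzWith C u → HasCompactSupport u →
      (∀ i, ∀ᶠ x in 𝓝 (R i), u x = 0) →
      ∫ x, ⟪ψ' x, ∇ u x⟫ = -(4 * Real.pi) * ∫ x, ρ x * u x)
    (hH : LocLip R H) (hH' : ∀ᵐ x : V, HasGradientAt H (H' x) x)
    (hA : LocInt R A) (hD : LocInt R D) (hF : Integrable F)
    (hflux : ∀ ζ, TestFn R ζ → -∫ x, ⟪A x, ∇ ζ x⟫ ≤ ∫ x, ζ x * D x)
    (hpt : ∀ᵐ x : V, 0 ≤ F x - ⟪H' x, ψ' x⟫ - 4 * Real.pi * (ρ x * H x) - D x)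
    {ζ : V → ℝ} (hζ : TestFn R ζ) :
    0 ≤ (∫ x, ζ x * F x) + ∫ x, ⟪H x • ψ' x + A x, ∇ ζ x⟫ := by
  obtain ⟨C, hC⟩ := hζ.lip
  have hoff := hζ.notMem
  have hcont := hC.continuous
  obtain ⟨C', hC'⟩ := lip_mul hC hζ.supp hoff hH
  -- integrability of all the terms
  have i1 : Integrable fun x => ζ x * F x := by
    have h := LocInt.mul_left (R := R) (f := F) (fun K _ _ => hF.integrableOn) hcont hζ.supp hoff
    simpa only [smul_eq_mul] using h
  have i2 : Integrable fun x => ζ x * ⟪H' x, ψ' x⟫ := by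
    have h := (hH.grad_inner_locInt hH' hψ).mul_left hcont hζ.supp hoff
    simpa only [smul_eq_mul] using h
  have i3 : Integrable fun x => ζ x * (ρ x * H x) := by
    have h := (hH.mul_locInt hρ).mul_left hcont hζ.supp hoff
    simpa only [smul_eq_mul] using h
  have i4 : Integrable fun x => ζ x * D x := by
    have h := hD.mul_left hcont hζ.supp hoff
    simpa only [smul_eq_mul] using h
  have i5 : Integrable fun x => ⟪H x • ψ' x, ∇ ζ x⟫ :=
    (hH.smul_locInt hψ).inner_grad hC hζ.supp hoff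
  have i6 : Integrable fun x => ⟪A x, ∇ ζ x⟫ := hA.inner_grad hC hζ.supp hoff
  -- the weak equation with the test function `ζ H`
  have hsupp : HasCompactSupport fun x => ζ x * H x := hζ.supp.mul_right
  have hw := hweak _ C' hC' hsupp (fun i => by
    filter_upwards [hζ.off i] with x hx
    rw [hx, zero_mul])
  have e1 : ∫ x, ⟪ψ' x, ∇ (fun x => ζ x * H x) x⟫ =
      (∫ x, ζ x * ⟪H' x, ψ' x⟫) + ∫ x, ⟪H x • ψ' x, ∇ ζ x⟫ := by
    rw [← integral_add i2 i5]
    refine integral_congr_ae ?_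
    filter_upwards [gradient_mul_ae hC hH'] with x hx
    rw [hx, inner_add_right, inner_smul_right, inner_smul_right, inner_smul_left,
      real_inner_comm (H' x)]
    simp
  have e2 : ∫ x, ρ x * (ζ x * H x) = ∫ x, ζ x * (ρ x * H x) := by
    refine integral_congr_ae (Eventually.of_forall fun x => ?_)
    simp only
    ring
  rw [e1, e2] at hw
  -- the pointwise inequality
  have hp : 0 ≤ ∫ x, ζ x * (F x - ⟪H' x, ψ' x⟫ - 4 * Real.pi * (ρ x * H x) - D x) := by
    refine integral_nonneg_of_ae ?_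
    filter_upwards [hpt] with x hx
    exact mul_nonneg (hζ.nonneg x) hx
  have e3 : ∫ x, ζ x * (F x - ⟪H' x, ψ' x⟫ - 4 * Real.pi * (ρ x * H x) - D x) =
      (∫ x, ζ x * F x) - (∫ x, ζ x * ⟪H' x, ψ' x⟫) - 4 * Real.pi * (∫ x, ζ x * (ρ x * H x)) -
        ∫ x, ζ x * D x := by
    have j3 : Integrable fun x => 4 * Real.pi * (ζ x * (ρ x * H x)) := i3.const_mul _
    have j12 : Integrable fun x => ζ x * F x - ζ x * ⟪H' x, ψ' x⟫ := i1.sub i2
    have j123 : Integrable fun x => ζ x * F x - ζ x * ⟪H' x, ψ' x⟫ -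
        4 * Real.pi * (ζ x * (ρ x * H x)) := j12.sub j3
    rw [← integral_const_mul, ← integral_sub i1 i2, ← integral_sub j12 j3,
      ← integral_sub j123 i4]
    refine integral_congr_ae (Eventually.of_forall fun x => ?_)
    simp only
    ring
  have e4 : ∫ x, ⟪H x • ψ' x + A x, ∇ ζ x⟫ =
      (∫ x, ⟪H x • ψ' x, ∇ ζ x⟫) + ∫ x, ⟪A x, ∇ ζ x⟫ := by
    rw [← integral_add i5 i6]
    refine integral_congr_ae (Eventually.of_forall fun x => ?_)
    simp only
    rw [inner_add_left]
  have hfl := hflux ζ hζ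
  rw [e3] at hp
  rw [e4]
  linarith

/-- a pointwise calibration inequality gives an integral inequality -/
theorem calib_int [hd : Fact (Module.finrank ℝ V = 3)] {R : ι → V} (hR : Function.Injective R)
    {ρ H D F : V → ℝ} {ψ' H' A : V → V} {c : ι → ℝ}
    (hρ : LocInt R ρ) (hψ : LocInt R ψ')
    (hweak : ∀ (u : V → ℝ) (C : ℝ≥0), LipschitzWith C u → HasCompactSupport u →
      (∀ i, ∀ᶠ x in 𝓝 (R i), u x = 0) →
      ∫ x, ⟪ψ' x, ∇ u x⟫ = -(4 * Real.pi) * ∫ x, ρ x * u x)
    (hH : LocLip R H) (hH' : ∀ᵐ x : V, HasGradientAt H (H' x) x)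
    (hA : LocInt R A) (hD : LocInt R D) (hF : Integrable F)
    (hflux : ∀ ζ, TestFn R ζ → -∫ x, ⟪A x, ∇ ζ x⟫ ≤ ∫ x, ζ x * D x)
    (hpt : ∀ᵐ x : V, 0 ≤ F x - ⟪H' x, ψ' x⟫ - 4 * Real.pi * (ρ x * H x) - D x)
    (hnuc : ∀ i, ∀ δ : ℝ, 0 < δ → ∃ η : ℝ, 0 < η ∧ ∀ᵐ x : V, ‖x - R i‖ < η →
      4 * Real.pi * ‖x - R i‖ ^ 2 * ⟪H x • ψ' x + A x, ‖x - R i‖⁻¹ • (x - R i)⟫ ≤ c i + δ)
    (hinf : ∀ δ : ℝ, 0 < δ → ∃ N : ℝ, ∀ᵐ x : V, N < ‖x‖ →
      -δ ≤ 4 * Real.pi * ‖x‖ ^ 2 * ⟪H x • ψ' x + A x, ‖x‖⁻¹ • x⟫) :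
    0 ≤ (∫ x, F x) + ∑ i, c i :=
  flux_limit hR hF
    (fun K hK h => (hH.smul_locInt hψ K hK h).add (hA K hK h))
    (fun ζ hζ => calib_test hρ hψ hweak hH hH' hA hD hF hflux hpt hζ) hnuc hinf

end Pool.Agent.TF.Flux

end

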