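import Mathlib
import Pool.Agent.Lib.MP_9cf0c9_mp.Tr.BaseC
/-! Potentials of admissible densities are continuous and vanish at infinity; a minimum principle
in the whole space with mean value inequalities; comparison of Thomas-Fermi potentials of point
nuclei and uniqueness. -/

set_option autoImplicit false

set_option linter.unusedSectionVars false

set_option linter.unusedVariables false

set_option linter.style.haveILetI false

namespace Pool.Agent.TF

open MeasureTheory Set Metric Filter Topology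

open scoped ENNReal NNReal RealInnerProductSpace

section gen

variable {V : Type*} [NormedAddCommGroup V] [InnerProductSpace ℝ V] [FiniteDimensional ℝ V]
  [MeasurableSpace V] [BorelSpace V]

/-! ### truncation -/

/-- truncations of a density -/
noncomputable def trunc (f : V → ℝ) (n : ℕ) : V → ℝ :=
  (ball (0 : V) n).indicator fun y => min (f y) n

theorem trunc_nonneg {f : V → ℝ} (hf : ∀ x, 0 ≤ f x) (n : ℕ) (x : V) : 0 ≤ trunc f n x :=
  indicator_nonneg (fun y _ => le_min (hf y) (Nat.cast_nonneg n)) x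

theorem trunc_le {f : V → ℝ} (hf : ∀ x, 0 ≤ f x) (n : ℕ) (x : V) : trunc f n x ≤ f x := by
  unfold trunc
  by_cases hx : x ∈ ball (0 : V) n
  · rw [indicator_of_mem hx]; exact min_le_left _ _
  · rw [indicator_of_notMem hx]; exact hf x

theorem trunc_BC {f : V → ℝ} (hm : Measurable f) (hf : ∀ x, 0 ≤ f x) (n : ℕ) :
    BC (trunc f n) := by
  refine ⟨(hm.min measurable_const).indicator measurableSet_ball, ⟨n, fun x => ?_⟩,
    ⟨n, fun x hx => ?_⟩⟩
  · rw [abs_of_nonneg (trunc_nonneg hf n x)]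
    unfold trunc
    by_cases hx : x ∈ ball (0 : V) n
    · rw [indicator_of_mem hx]; exact min_le_right _ _
    · rw [indicator_of_notMem hx]; exact Nat.cast_nonneg n
  · unfold trunc
    rw [indicator_of_notMem]
    simpa using hx

theorem trunc_tendsto (f : V → ℝ) (x : V) :
    Tendsto (fun n => trunc f n x) atTop (𝓝 (f x)) := by
  refine tendsto_const_nhds.congr' ?_
  obtain ⟨n1, h1⟩ := exists_nat_gt ‖x‖
  obtain ⟨n2, h2⟩ := exists_nat_ge (f x)
  filter_upwards [eventually_ge_atTop n1, eventually_ge_atTop n2] with n hn1 hn2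
  have hx : x ∈ ball (0 : V) n := by
    rw [mem_ball_zero_iff]
    exact lt_of_lt_of_le h1 (by exact_mod_cast hn1)
  unfold trunc
  rw [indicator_of_mem hx, min_eq_left]
  exact h2.trans (by exact_mod_cast hn2)

theorem TC.sub_le {f g : V → ℝ} (hf : TC f) (hg : Measurable g) (h0 : ∀ x, 0 ≤ g x)
    (hle : ∀ x, g x ≤ f x) : TC (fun x => f x - g x) := by
  have h1 : ∀ x, 0 ≤ f x - g x := fun x => sub_nonneg.mpr (hle x)
  have h2 : ∀ x, f x - g x ≤ f x := fun x => by have := h0 x; linarith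
  refine ⟨hf.meas.sub hg, h1, ?_, ?_⟩
  · refine hf.int.mono' (hf.meas.sub hg).aestronglyMeasurable (Eventually.of_forall fun x => ?_)
    rw [Real.norm_of_nonneg (h1 x)]
    exact h2 x
  · refine hf.int53.mono' ((hf.meas.sub hg).pow_const _).aestronglyMeasurable
      (Eventually.of_forall fun x => ?_)
    rw [Real.norm_of_nonneg (Real.rpow_nonneg (h1 x) _)]
    exact Real.rpow_le_rpow (h1 x) (h2 x) (by norm_num)

section dim3

variable [hd : Fact (Module.finrank ℝ V = 3)]

/-- admissible densities are uniformly approximated, in potential, by bounded ones -/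
theorem TC.approx {f : V → ℝ} (hf : TC f) {ε : ℝ} (hε : 0 < ε) :
    ∃ g : V → ℝ, BC g ∧ (∀ x, 0 ≤ g x) ∧ (∀ x, g x ≤ f x) ∧
      ∀ x, 0 ≤ pot f x - pot g x ∧ pot f x - pot g x ≤ ε := by
  set W : ℝ := ∫ v, wt (v : V) with hW
  have hW0 : 0 ≤ W := integral_nonneg fun v => wt_nonneg v
  obtain ⟨a, ha0, ha⟩ : ∃ a : ℝ, 0 < a ∧ 2 / 5 * (a ^ (5 / 2 : ℝ))⁻¹ * W ≤ ε / 2 := by
    have hp : 0 < W / ε + 1 := by positivity
    refine ⟨(W / ε + 1) ^ (2 / 5 : ℝ), Real.rpow_pos_of_pos hp _, ?_⟩
    rw [← Real.rpow_mul hp.le]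
    norm_num
    have h1 : (W / ε + 1)⁻¹ * W ≤ ε := by
      rw [inv_mul_le_iff₀ hp]
      have : (W / ε + 1) * ε = W + ε := by field_simp
      rw [this]
      linarith
    have h2 : 2 / 5 * (W / ε + 1)⁻¹ * W = 2 / 5 * ((W / ε + 1)⁻¹ * W) := by ring
    rw [h2]
    linarith
  have t1 : Tendsto (fun n : ℕ => ∫ x, (f x - trunc f n x)) atTop (𝓝 0) := by
    have h := tendsto_integral_of_dominated_convergence (μ := volume)
      (F := fun (n : ℕ) x => f x - trunc f n x) (f := fun _ : V => (0 : ℝ)) f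
      (fun n => (hf.meas.sub (trunc_BC hf.meas hf.nonneg n).meas).aestronglyMeasurable) hf.int
      (fun n => Eventually.of_forall fun x => by
        rw [Real.norm_of_nonneg (sub_nonneg.mpr (trunc_le hf.nonneg n x))]
        have := trunc_nonneg hf.nonneg n x
        linarith)
      (Eventually.of_forall fun x => by
        have := (trunc_tendsto f x).const_sub (f x)
        simpa using this)
    simpa using h
  have t2 : Tendsto (fun n : ℕ => ∫ x, (f x - trunc f n x) ^ (5 / 3 : ℝ)) atTop (𝓝 0) := by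
    have h := tendsto_integral_of_dominated_convergence (μ := volume)
      (F := fun (n : ℕ) x => (f x - trunc f n x) ^ (5 / 3 : ℝ)) (f := fun _ : V => (0 : ℝ))
      (fun x => f x ^ (5 / 3 : ℝ))
      (fun n => ((hf.meas.sub
        (trunc_BC hf.meas hf.nonneg n).meas).pow_const _).aestronglyMeasurable) hf.int53
      (fun n => Eventually.of_forall fun x => by
        have h1 := sub_nonneg.mpr (trunc_le hf.nonneg n x)
        rw [Real.norm_of_nonneg (Real.rpow_nonneg h1 _)]
        refine Real.rpow_le_rpow h1 ?_ (by norm_num)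
        have := trunc_nonneg hf.nonneg n x
        linarith)
      (Eventually.of_forall fun x => by
        have h1 := (trunc_tendsto f x).const_sub (f x)
        rw [sub_self] at h1
        have h2 := h1.rpow_const (p := 5 / 3) (Or.inr (by norm_num))
        rwa [Real.zero_rpow (by norm_num)] at h2)
    simpa using h
  have t3 : Tendsto (fun n : ℕ => (∫ x, (f x - trunc f n x)) +
      3 / 5 * a ^ (5 / 3 : ℝ) * ∫ x, (f x - trunc f n x) ^ (5 / 3 : ℝ)) atTop (𝓝 0) := by
    have := t1.add (t2.const_mul (3 / 5 * a ^ (5 / 3 : ℝ)))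
    simpa using this
  obtain ⟨n, hn⟩ := (t3.eventually (gt_mem_nhds (half_pos hε))).exists
  have hB := trunc_BC hf.meas hf.nonneg n
  have hT : TC (fun x => f x - trunc f n x) :=
    hf.sub_le hB.meas (trunc_nonneg hf.nonneg n) (trunc_le hf.nonneg n)
  refine ⟨trunc f n, hB, trunc_nonneg hf.nonneg n, trunc_le hf.nonneg n, fun x => ?_⟩
  have hsub : pot f x - pot (trunc f n) x = pot (fun y => f y - trunc f n y) x := by
    unfold pot
    rw [← integral_sub (hf.pot_integrable x) (Pool.Agent.TF.pot_integrable hB x)]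
    refine integral_congr_ae (Eventually.of_forall fun y => ?_)
    simp only
    ring
  rw [hsub]
  refine ⟨pot_nonneg hT.nonneg x, ?_⟩
  have h1 := hT.pot_le' ha0 x
  linarith

theorem TC.pot_continuous {f : V → ℝ} (hf : TC f) : Continuous (pot f) := by
  refine continuous_of_uniform_approx_of_continuous fun u hu => ?_
  obtain ⟨ε, hε, hsub⟩ := Metric.mem_uniformity_dist.mp hu
  obtain ⟨g, hg, h0, hle, hap⟩ := hf.approx (half_pos hε)
  refine ⟨pot g, Pool.Agent.TF.pot_continuous hg, fun x => hsub ?_⟩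
  rw [Real.dist_eq, abs_of_nonneg (hap x).1]
  linarith [(hap x).2]

theorem TC.pot_decay {f : V → ℝ} (hf : TC f) {ε : ℝ} (hε : 0 < ε) :
    ∃ R', ∀ x, R' ≤ ‖x‖ → pot f x < ε := by
  obtain ⟨g, hg, h0, hle, hap⟩ := hf.approx (half_pos hε)
  obtain ⟨R', hR'⟩ := Pool.Agent.TF.pot_decay hg (half_pos hε)
  refine ⟨R', fun x hx => ?_⟩
  have h1 := (abs_lt.mp (hR' x hx)).2
  have h2 := (hap x).2
  linarith

end dim3

/-! ### nuclear potentials -/

variable {ι : Type*} [Fintype ι]

/-- the potential of the point nuclei -/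
noncomputable def Vn (z : ι → ℝ) (R : ι → V) (x : V) : ℝ := ∑ i, z i * ‖x - R i‖⁻¹

/-- solutions of the Thomas-Fermi equation with point nuclei -/
structure Sol (φ : ℝ) (z : ι → ℝ) (R : ι → V) (ρ : V → ℝ) : Prop where
  tc : TC ρ
  eq : ∀ x, (∀ i, x ≠ R i) → ρ x = tf (Vn z R x - pot ρ x - φ)

/-- the Thomas-Fermi potential (minus the chemical potential) -/
noncomputable def psi (φ : ℝ) (z : ι → ℝ) (R : ι → V) (ρ : V → ℝ) (x : V) : ℝ :=
  Vn z R x - pot ρ x - φ

end gen

/-! ### mean values -/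

theorem TC.mean {ρ : X → ℝ} (hρ : TC ρ) (x₀ : X) {r : ℝ} (hr : 0 < r) :
    ∫ x in ball x₀ r, pot ρ x = ∫ y, ρ y * pot (chi r) (y - x₀) := by
  have hc : TC (chiAt x₀ r) := (chiAt_BC x₀ r).toTC fun x => chi_nonneg r _
  have h1 : ∫ x in ball x₀ r, pot ρ x = En (chiAt x₀ r) ρ := by
    unfold En
    rw [← integral_indicator measurableSet_ball, chiAt_eq]
    refine integral_congr_ae (Eventually.of_forall fun x => ?_)
    by_cases hx : x ∈ ball x₀ r
    · simp [hx]
    · simp [hx]
  rw [h1, hc.En_symm hρ]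
  unfold En
  refine integral_congr_ae (Eventually.of_forall fun y => ?_)
  simp only
  rw [pot_chiAt]

theorem TC.mean_sub_le {f g : X → ℝ} (hf : TC f) (hg : TC g) {x₀ : X} {r : ℝ} (hr : 0 < r)
    (hle : ∀ᵐ x : X, x ∈ ball x₀ r → g x ≤ f x) :
    ∫ x in ball x₀ r, (pot f x - pot g x) ≤
      4 / 3 * Real.pi * r ^ 3 * (pot f x₀ - pot g x₀) := by
  haveI := nontriv (V := X)
  have hne : ∀ᵐ y : X, y ≠ x₀ := by rw [ae_iff]; simp
  have hc : TC (chiAt x₀ r) := (chiAt_BC x₀ r).toTC fun x => chi_nonneg r _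
  have hi : ∀ {h : X → ℝ}, TC h → IntegrableOn (pot h) (ball x₀ r) := fun {h} hh =>
    (hh.pot_continuous.continuousOn.integrableOn_compact (isCompact_closedBall x₀ r)).mono_set
      ball_subset_closedBall
  have hj : ∀ {h : X → ℝ}, TC h → Integrable (fun y => h y * pot (chi r) (y - x₀)) := by
    intro h hh
    refine (hh.En_integrable hc).congr (Eventually.of_forall fun y => ?_)
    simp only
    rw [pot_chiAt]
  rw [integral_sub (hi hf) (hi hg), hf.mean x₀ hr, hg.mean x₀ hr, ← integral_sub (hj hf) (hj hg)]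
  have h2 : 4 / 3 * Real.pi * r ^ 3 * (pot f x₀ - pot g x₀) =
      ∫ y, 4 / 3 * Real.pi * r ^ 3 * (‖x₀ - y‖⁻¹ * f y - ‖x₀ - y‖⁻¹ * g y) := by
    unfold pot
    rw [integral_const_mul, integral_sub (hf.pot_integrable x₀) (hg.pot_integrable x₀)]
  rw [h2]
  refine integral_mono_ae ((hj hf).sub (hj hg))
    (((hf.pot_integrable x₀).sub (hg.pot_integrable x₀)).const_mul _) ?_
  filter_upwards [hne, hle] with y hy hy2
  have hv : y - x₀ ≠ 0 := sub_ne_zero.mpr hy
  obtain ⟨n1, n2⟩ := newton hr hv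
  by_cases hb : y ∈ ball x₀ r
  · have := mul_le_mul_of_nonneg_left n1 (sub_nonneg.mpr (hy2 hb))
    rw [norm_sub_rev x₀ y]
    linarith
  · have hb' : r ≤ ‖y - x₀‖ := by
      rw [mem_ball, dist_eq_norm] at hb
      linarith
    rw [n2 hb', norm_sub_rev x₀ y]
    apply le_of_eq
    ring

/-- the mean value of the potential of a unit charge -/
theorem mean_inv {c x₀ : X} (hc : c ≠ x₀) {r : ℝ} (hr : 0 < r) :
    IntegrableOn (fun x => ‖x - c‖⁻¹) (ball x₀ r) ∧
    ∫ x in ball x₀ r, ‖x - c‖⁻¹ ≤ 4 / 3 * Real.pi * r ^ 3 * ‖x₀ - c‖⁻¹ ∧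
    (r ≤ ‖x₀ - c‖ → ∫ x in ball x₀ r, ‖x - c‖⁻¹ = 4 / 3 * Real.pi * r ^ 3 * ‖x₀ - c‖⁻¹) := by
  have h1 : ∀ x : X, (ball x₀ r).indicator (fun x => ‖x - c‖⁻¹) x =
      ‖c - x‖⁻¹ * chiAt x₀ r x := by
    intro x
    rw [chiAt_eq]
    by_cases hx : x ∈ ball x₀ r
    · rw [indicator_of_mem hx, indicator_of_mem hx, norm_sub_rev, mul_one]
    · rw [indicator_of_notMem hx, indicator_of_notMem hx, mul_zero]
  have h2 : ∫ x in ball x₀ r, ‖x - c‖⁻¹ = pot (chi r) (c - x₀) := by
    rw [← integral_indicator measurableSet_ball, ← pot_chiAt]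
    unfold pot
    exact integral_congr_ae (Eventually.of_forall h1)
  have hv : c - x₀ ≠ 0 := sub_ne_zero.mpr hc
  obtain ⟨n1, n2⟩ := newton hr hv
  refine ⟨?_, ?_, ?_⟩
  · rw [← integrable_indicator_iff measurableSet_ball]
    exact (pot_integrable (chiAt_BC x₀ r) c).congr (Eventually.of_forall fun x => (h1 x).symm)
  · rw [h2, norm_sub_rev]
    exact n1
  · intro h
    rw [norm_sub_rev] at h
    rw [h2, norm_sub_rev]
    exact n2 h

/-! ### minimum principle -/

theorem min_princ {w : X → ℝ} (hc : Continuous w)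
    (hinf : ∀ ε > 0, ∃ R', ∀ x, R' ≤ ‖x‖ → -ε < w x)
    (hmv : ∀ x, w x < 0 → ∃ δ > 0, ∀ r, 0 < r → r < δ →
      ∫ y in ball x r, w y ≤ 4 / 3 * Real.pi * r ^ 3 * w x) : ∀ x, 0 ≤ w x := by
  intro xs
  by_contra hcon
  push Not at hcon
  obtain ⟨R, hR⟩ := hinf (-w xs) (neg_pos.mpr hcon)
  set K : Set X := closedBall 0 (max R ‖xs‖) with hK
  have hKc : IsCompact K := isCompact_closedBall _ _
  have hxsK : xs ∈ K := by rw [hK, mem_closedBall_zero_iff]; exact le_max_right _ _
  obtain ⟨x1, hx1K, hx1⟩ := hKc.exists_isMinOn ⟨xs, hxsK⟩ hc.continuousOn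
  set c0 := w x1 with hc0
  have hc0s : c0 ≤ w xs := hx1 hxsK
  have hc0n : c0 < 0 := lt_of_le_of_lt hc0s hcon
  have hout : ∀ x : X, x ∉ K → c0 < w x := by
    intro x h
    rw [hK, mem_closedBall_zero_iff] at h
    push Not at h
    have h1 := hR x ((le_max_left _ _).trans h.le)
    linarith
  have hglob : ∀ x : X, c0 ≤ w x := by
    intro x
    by_cases h : x ∈ K
    · exact hx1 h
    · exact (hout x h).le
  set Z : Set X := K ∩ {x | w x = c0} with hZ
  have hZc : IsCompact Z := hKc.inter_right (isClosed_eq hc continuous_const)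
  obtain ⟨x0, hx0Z, hx0⟩ := hZc.exists_isMaxOn ⟨x1, hx1K, rfl⟩ continuous_norm.continuousOn
  have hx0w : w x0 = c0 := hx0Z.2
  obtain ⟨δ, hδ, hmean⟩ := hmv x0 (by rw [hx0w]; exact hc0n)
  set r := δ / 2 with hr
  have hr0 : 0 < r := half_pos hδ
  have hm := hmean r hr0 (half_lt_self hδ)
  rw [hx0w, ← vol_ball x0 hr0.le] at hm
  have hint : IntegrableOn w (ball x0 r) :=
    (hc.continuousOn.integrableOn_compact (isCompact_closedBall x0 r)).mono_set
      ball_subset_closedBall
  have hconst : IntegrableOn (fun _ : X => c0) (ball x0 r) := integrableOn_const (by finiteness)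
  have h3 : ∫ x in ball x0 r, (w x - c0) ≤ 0 := by
    rw [integral_sub hint hconst, setIntegral_const, smul_eq_mul]
    linarith
  have h4 : 0 ≤ᵐ[volume.restrict (ball x0 r)] fun x => w x - c0 := by
    refine Eventually.of_forall fun x => ?_
    have := hglob x
    simp only [Pi.zero_apply]
    linarith
  have h5 : ∫ x in ball x0 r, (w x - c0) = 0 := le_antisymm h3 (integral_nonneg_of_ae h4)
  rw [setIntegral_eq_zero_iff_of_nonneg_ae h4 (hint.sub hconst)] at h5
  -- a point further out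
  have hn1 : ‖e1‖ = 1 := by
    have h : ‖e1‖ ^ 2 = 1 := by
      unfold e1; rw [norm_mk_sq]; simp
    nlinarith [norm_nonneg e1]
  obtain ⟨e, hen, hei⟩ : ∃ e : X, ‖e‖ = 1 ∧ 0 ≤ ⟪x0, e⟫ := by
    rcases le_total 0 ⟪x0, e1⟫ with h | h
    · exact ⟨e1, hn1, h⟩
    · refine ⟨-e1, by rw [norm_neg, hn1], ?_⟩
      rw [inner_neg_right]
      linarith
  set x' : X := x0 + (r / 2) • e with hx'
  have hx'b : x' ∈ ball x0 r := by
    rw [mem_ball, dist_eq_norm, hx', add_sub_cancel_left, norm_smul, hen, mul_one,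
      Real.norm_of_nonneg (by positivity)]
    linarith
  have hx'n : ‖x0‖ < ‖x'‖ := by
    have h6 : ‖x'‖ ^ 2 = ‖x0‖ ^ 2 + 2 * ((r / 2) * ⟪x0, e⟫) + (r / 2) ^ 2 := by
      rw [hx', @norm_add_sq_real, inner_smul_right, norm_smul, hen, mul_one,
        Real.norm_of_nonneg (by positivity)]
    have h7 : 0 ≤ (r / 2) * ⟪x0, e⟫ := mul_nonneg (by positivity) hei
    have h8 : 0 < (r / 2) ^ 2 := by positivity
    exact lt_of_pow_lt_pow_left₀ 2 (norm_nonneg _) (by linarith)
  have hx'w : c0 < w x' := by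
    by_cases h : x' ∈ K
    · rcases (hglob x').lt_or_eq with h6 | h6
      · exact h6
      · exfalso
        have h7 : x' ∈ Z := ⟨h, h6.symm⟩
        have h8 : ‖x'‖ ≤ ‖x0‖ := hx0 h7
        linarith
    · exact hout x' h
  have hU : IsOpen (ball x0 r ∩ {x | c0 < w x}) := isOpen_ball.inter (isOpen_lt continuous_const hc)
  have hUpos : 0 < volume (ball x0 r ∩ {x | c0 < w x}) := hU.measure_pos _ ⟨x', hx'b, hx'w⟩
  rw [Filter.EventuallyEq, ae_restrict_iff' measurableSet_ball, ae_iff] at h5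
  have h6 : volume (ball x0 r ∩ {x | c0 < w x}) = 0 := by
    refine measure_mono_null ?_ h5
    intro x hx
    rw [Set.mem_ofPred_eq, Classical.not_imp]
    refine ⟨hx.1, ?_⟩
    simp only [Pi.zero_apply]
    have : c0 < w x := hx.2
    intro h
    linarith
  rw [h6] at hUpos
  exact lt_irrefl _ hUpos

/-- the minimum principle with finitely many positive poles -/
theorem min_princ_poles {u : X → ℝ} {S : Set X} (hS : S.Finite)
    (hc : ∀ x, x ∉ S → ContinuousAt u x)
    (hsing : ∀ p ∈ S, ∀ᶠ x in 𝓝[≠] p, 0 ≤ u x)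
    (hinf : ∀ ε > 0, ∃ R', ∀ x, R' ≤ ‖x‖ → -ε < u x)
    (hmv : ∀ x, x ∉ S → u x < 0 → (∃ δ > 0, ∀ y ∈ ball x δ, y ∉ S ∧ u y < 0) →
      ∃ δ > 0, ∀ r, 0 < r → r < δ →
      ∫ y in ball x r, u y ≤ 4 / 3 * Real.pi * r ^ 3 * u x) : ∀ x, x ∉ S → 0 ≤ u x := by
  classical
  set w : X → ℝ := fun x => if x ∈ S then 0 else min (u x) 0 with hw
  have hSc : IsOpen Sᶜ := hS.isClosed.isOpen_compl
  have hwc : Continuous w := by
    rw [continuous_iff_continuousAt]
    intro x
    by_cases hx : x ∈ S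
    · have h1 : ∀ᶠ y in 𝓝 x, w y = 0 := by
        have h2 : ∀ᶠ y in 𝓝[≠] x, w y = 0 := by
          filter_upwards [hsing x hx] with y hy
          simp only [hw]
          split_ifs
          · rfl
          · exact min_eq_right hy
        have h3 : w x = 0 := by simp only [hw]; rw [if_pos hx]
        rw [eventually_nhdsWithin_iff] at h2
        filter_upwards [h2] with y hy
        by_cases hyx : y = x
        · rw [hyx, h3]
        · exact hy hyx
      have h4 : w =ᶠ[𝓝 x] fun _ => (0 : ℝ) := h1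
      exact h4.continuousAt
    · have h1 : w =ᶠ[𝓝 x] fun y => min (u y) 0 := by
        filter_upwards [hSc.mem_nhds hx] with y hy
        simp only [hw]
        rw [if_neg hy]
      exact (ContinuousAt.congr ((hc x hx).min continuousAt_const) h1.symm)
  have hkey := min_princ hwc ?_ ?_
  · intro x hx
    have h1 := hkey x
    simp only [hw] at h1
    rw [if_neg hx] at h1
    exact (le_min_iff.mp h1).1
  · intro ε hε
    obtain ⟨R', hR'⟩ := hinf ε hε
    refine ⟨R', fun x hx => ?_⟩
    simp only [hw]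
    split_ifs
    · linarith
    · exact lt_min (hR' x hx) (by linarith)
  · intro x hx
    have hxS : x ∉ S := by
      intro h
      simp only [hw] at hx
      rw [if_pos h] at hx
      exact lt_irrefl _ hx
    have hux : w x = u x := by
      simp only [hw] at hx ⊢
      rw [if_neg hxS] at hx ⊢
      rcases min_lt_iff.mp hx with h | h
      · exact min_eq_left h.le
      · exact absurd h (lt_irrefl _)
    have hopen : IsOpen {y : X | w y < 0} := isOpen_lt hwc continuous_const
    obtain ⟨δ1, hδ1, hb1⟩ := Metric.isOpen_iff.mp hopen x hx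
    have hwu : ∀ y ∈ ball x δ1, y ∉ S ∧ u y < 0 ∧ w y = u y := by
      intro y hy
      have h1 : w y < 0 := hb1 hy
      have hyS : y ∉ S := by
        intro h
        simp only [hw] at h1
        rw [if_pos h] at h1
        exact lt_irrefl _ h1
      simp only [hw] at h1 ⊢
      rw [if_neg hyS] at h1 ⊢
      rcases min_lt_iff.mp h1 with h | h
      · exact ⟨hyS, h, min_eq_left h.le⟩
      · exact absurd h (lt_irrefl _)
    obtain ⟨δ, hδ, hm⟩ := hmv x hxS (by rw [← hux]; exact hx)
      ⟨δ1, hδ1, fun y hy => ⟨(hwu y hy).1, (hwu y hy).2.1⟩⟩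
    refine ⟨min δ δ1, lt_min hδ hδ1, fun r hr hrd => ?_⟩
    have h2 := hm r hr (lt_of_lt_of_le hrd (min_le_left _ _))
    rw [hux]
    refine le_trans (le_of_eq ?_) h2
    refine setIntegral_congr_fun measurableSet_ball fun y hy => ?_
    exact (hwu y (ball_subset_ball (hrd.le.trans (min_le_right _ _)) hy)).2.2

/-! ### comparison -/

variable {ι : Type*} [Fintype ι]

/-- larger charges and a smaller chemical potential give a larger potential -/
theorem compare {z z' : ι → ℝ} (hz : ∀ i, z i ≤ z' i) {R : ι → X} {φ φ' : ℝ} (hφ : φ' ≤ φ)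
    {ρ ρ' : X → ℝ} (h : Sol φ z R ρ) (h' : Sol φ' z' R ρ') (x : X) (hx : ∀ i, x ≠ R i) :
    psi φ z R ρ x ≤ psi φ' z' R ρ' x := by
  classical
  set S : Set X := {p | ∃ i, z i < z' i ∧ p = R i} with hSdef
  have hS : S.Finite := by
    refine (Set.finite_range R).subset ?_
    rintro p ⟨i, -, rfl⟩
    exact ⟨i, rfl⟩
  set u : X → ℝ := fun x => (∑ i, (z' i - z i) * ‖x - R i‖⁻¹) + (pot ρ x - pot ρ' x) + (φ - φ')
    with hu
  have hupsi : ∀ x, u x = psi φ' z' R ρ' x - psi φ z R ρ x := by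
    intro x
    simp only [hu]
    unfold psi Vn
    simp_rw [sub_mul, Finset.sum_sub_distrib]
    ring
  have hpc : Continuous (fun x => pot ρ x - pot ρ' x) := h.tc.pot_continuous.sub h'.tc.pot_continuous
  have hcont : ∀ x, x ∉ S → ContinuousAt u x := by
    intro x hx
    have h1 : ContinuousAt (fun x => ∑ i, (z' i - z i) * ‖x - R i‖⁻¹) x := by
      refine tendsto_finsetSum _ fun i _ => ?_
      rcases (hz i).lt_or_eq with h2 | h2
      · have h3 : x - R i ≠ 0 := by
          intro h4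
          exact hx ⟨i, h2, sub_eq_zero.mp h4⟩
        have h4 : ContinuousAt (fun x => (z' i - z i) * ‖x - R i‖⁻¹) x := by
          refine ContinuousAt.mul continuousAt_const (ContinuousAt.inv₀ (by fun_prop) ?_)
          exact norm_ne_zero_iff.mpr h3
        exact h4
      · rw [h2, sub_self]
        simp
    exact (h1.add hpc.continuousAt).add continuousAt_const
  have hpos : ∀ x : X, 0 ≤ ∑ i, (z' i - z i) * ‖x - R i‖⁻¹ := fun x =>
    Finset.sum_nonneg fun i _ => mul_nonneg (sub_nonneg.mpr (hz i)) (by positivity)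
  have hxS : x ∉ S := by
    rintro ⟨i, -, hi⟩
    exact hx i hi
  have key := min_princ_poles hS hcont ?_ ?_ ?_ x hxS
  · rw [hupsi] at key
    linarith
  · -- poles
    rintro p ⟨i, hi, rfl⟩
    have h1 : Tendsto (fun x : X => (z' i - z i) * ‖x - R i‖⁻¹) (𝓝[≠] (R i)) atTop := by
      refine Tendsto.const_mul_atTop (sub_pos.mpr hi) ?_
      refine tendsto_inv_nhdsGT_zero.comp ?_
      rw [tendsto_nhdsWithin_iff]
      constructor
      · have h2 : ContinuousAt (fun x : X => ‖x - R i‖) (R i) := by fun_prop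
        have h3 : Tendsto (fun x : X => ‖x - R i‖) (𝓝 (R i)) (𝓝 ‖R i - R i‖) := h2
        rw [sub_self, norm_zero] at h3
        exact h3.mono_left nhdsWithin_le_nhds
      · filter_upwards [self_mem_nhdsWithin] with x hx
        exact norm_pos_iff.mpr (sub_ne_zero.mpr hx)
    have h2 : Tendsto (fun x : X => pot ρ x - pot ρ' x + (φ - φ')) (𝓝[≠] (R i))
        (𝓝 (pot ρ (R i) - pot ρ' (R i) + (φ - φ'))) :=
      ((hpc.tendsto (R i)).add_const _).mono_left nhdsWithin_le_nhds
    have h3 := h1.atTop_add h2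
    filter_upwards [h3.eventually_ge_atTop 0] with x hx
    simp only [hu]
    have h4 : (z' i - z i) * ‖x - R i‖⁻¹ ≤ ∑ i, (z' i - z i) * ‖x - R i‖⁻¹ :=
      Finset.single_le_sum (f := fun i => (z' i - z i) * ‖x - R i‖⁻¹)
        (fun j _ => mul_nonneg (sub_nonneg.mpr (hz j)) (by positivity)) (Finset.mem_univ i)
    linarith
  · -- infinity
    intro ε hε
    obtain ⟨R', hR'⟩ := h'.tc.pot_decay hε
    refine ⟨R', fun x hx => ?_⟩
    have h1 := hR' x hx
    have h2 := hpos x
    have h3 : 0 ≤ pot ρ x := pot_nonneg h.tc.nonneg x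
    simp only [hu]
    linarith
  · -- mean values
    rintro x hxS hux ⟨δ, hδ, hb⟩
    refine ⟨δ, hδ, fun r hr hrd => ?_⟩
    haveI := nontriv (V := X)
    have hae : ∀ᵐ y : X, ∀ i, y ≠ R i := by
      rw [ae_all_iff]
      intro i
      rw [ae_iff]
      simp
    have hle : ∀ᵐ y : X, y ∈ ball x r → ρ' y ≤ ρ y := by
      filter_upwards [hae] with y hy hyb
      rw [h.eq y hy, h'.eq y hy]
      refine tf_mono ?_
      have h1 := (hb y (ball_subset_ball hrd.le hyb)).2
      rw [hupsi] at h1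
      unfold psi at h1
      linarith
    have h1 := h.tc.mean_sub_le h'.tc hr hle
    have hm : ∀ i, IntegrableOn (fun y => (z' i - z i) * ‖y - R i‖⁻¹) (ball x r) ∧
        ∫ y in ball x r, (z' i - z i) * ‖y - R i‖⁻¹ ≤
          4 / 3 * Real.pi * r ^ 3 * ((z' i - z i) * ‖x - R i‖⁻¹) := by
      intro i
      rcases (hz i).lt_or_eq with h2 | h2
      · have h3 : R i ≠ x := fun h4 => hxS ⟨i, h2, h4.symm⟩
        obtain ⟨m1, m2, -⟩ := mean_inv h3 hr
        refine ⟨m1.const_mul _, ?_⟩
        rw [integral_const_mul]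
        have := mul_le_mul_of_nonneg_left m2 (sub_nonneg.mpr (hz i))
        linarith
      · rw [h2, sub_self]
        simp
    have hsum : ∫ y in ball x r, ∑ i, (z' i - z i) * ‖y - R i‖⁻¹ ≤
        4 / 3 * Real.pi * r ^ 3 * ∑ i, (z' i - z i) * ‖x - R i‖⁻¹ := by
      rw [integral_finsetSum _ fun i _ => (hm i).1, Finset.mul_sum]
      exact Finset.sum_le_sum fun i _ => (hm i).2
    have i1 : IntegrableOn (fun y => ∑ i, (z' i - z i) * ‖y - R i‖⁻¹) (ball x r) :=
      integrable_finsetSum _ fun i _ => (hm i).1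
    have i2 : IntegrableOn (fun y => pot ρ y - pot ρ' y) (ball x r) :=
      (hpc.continuousOn.integrableOn_compact (isCompact_closedBall x r)).mono_set
        ball_subset_closedBall
    have i3 : IntegrableOn (fun _ : X => φ - φ') (ball x r) := integrableOn_const (by finiteness)
    have e1 : ∫ y in ball x r, u y = (∫ y in ball x r, ∑ i, (z' i - z i) * ‖y - R i‖⁻¹) +
        (∫ y in ball x r, (pot ρ y - pot ρ' y)) + ∫ y in ball x r, (φ - φ') := by
      have i12 : IntegrableOn (fun y => (∑ i, (z' i - z i) * ‖y - R i‖⁻¹) +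
        (pot ρ y - pot ρ' y)) (ball x r) := i1.add i2
      simp only [hu]
      rw [integral_add i12 i3, integral_add i1 i2]
    rw [e1, setIntegral_const, smul_eq_mul, vol_ball x hr.le]
    simp only [hu]
    nlinarith [h1, hsum]

/-- larger charges and a smaller chemical potential give a larger density -/
theorem compare_rho {z z' : ι → ℝ} (hz : ∀ i, z i ≤ z' i) {R : ι → X} {φ φ' : ℝ} (hφ : φ' ≤ φ)
    {ρ ρ' : X → ℝ} (h : Sol φ z R ρ) (h' : Sol φ' z' R ρ') (x : X) (hx : ∀ i, x ≠ R i) :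
    ρ x ≤ ρ' x := by
  rw [h.eq x hx, h'.eq x hx]
  exact tf_mono (compare hz hφ h h' x hx)

/-- the zero density solves the equation without nuclei -/
theorem sol_zero {φ : ℝ} (hφ : 0 ≤ φ) (R : ι → X) :
    Sol φ (fun _ => (0 : ℝ)) R (fun _ => 0) := by
  refine ⟨BC.zero.toTC fun _ => le_rfl, fun x hx => ?_⟩
  have h1 : Vn (fun _ => (0 : ℝ)) R x = 0 := by unfold Vn; simp
  have h2 : pot (fun _ : X => (0 : ℝ)) x = 0 := by unfold pot; simp
  rw [h1, h2, tf_of_nonpos]
  linarith

/-- the electrostatic potential is nonnegative -/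
theorem pot_le_Vn {z : ι → ℝ} (hz : ∀ i, 0 ≤ z i) {R : ι → X} {φ : ℝ} (hφ : 0 ≤ φ) {ρ : X → ℝ}
    (h : Sol φ z R ρ) (x : X) (hx : ∀ i, x ≠ R i) : pot ρ x ≤ Vn z R x := by
  have h1 := compare (z := fun _ => (0 : ℝ)) hz le_rfl (sol_zero hφ R) h x hx
  have h2 : Vn (fun _ => (0 : ℝ)) R x = 0 := by unfold Vn; simp
  have h3 : pot (fun _ : X => (0 : ℝ)) x = 0 := by unfold pot; simp
  unfold psi at h1
  rw [h2, h3] at h1
  linarith

/-- monotonicity of the potential of the electrons -/
theorem compare_pot {z z' : ι → ℝ} (hz : ∀ i, z i ≤ z' i) {R : ι → X} {φ φ' : ℝ} (hφ : φ' ≤ φ)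
    {ρ ρ' : X → ℝ} (h : Sol φ z R ρ) (h' : Sol φ' z' R ρ') (x : X) : pot ρ x ≤ pot ρ' x := by
  haveI := nontriv (V := X)
  have hae : ∀ᵐ y : X, ∀ i, y ≠ R i := by
    rw [ae_all_iff]
    intro i
    rw [ae_iff]
    simp
  unfold pot
  refine integral_mono_ae (h.tc.pot_integrable x) (h'.tc.pot_integrable x) ?_
  filter_upwards [hae] with y hy
  exact mul_le_mul_of_nonneg_left (compare_rho hz hφ h h' y hy) (by positivity)

end Pool.Agent.TF
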