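import Mathlib
import Pool.Agent.Lib.MP_9cf0c9_mp.Tr.Compare
import Pool.Agent.Lib.MP_9cf0c9_mp.Tr.WeakA

section
/-! Dirichlet energy of potentials, the weak Poisson equation for trial functions which are
bounded, vanish at infinity and are locally Lipschitz off a finite set. -/

set_option linter.unusedSectionVars false

set_option linter.unusedVariables false

set_option linter.style.haveILetI false

namespace Pool.Agent.TF

open MeasureTheory Set Metric Filter Topology

open scoped ENNReal NNReal RealInnerProductSpace Gradient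

/-- a version of Fatou's lemma -/
theorem fatou_int {α : Type*} [MeasurableSpace α] {μ : Measure α} {F : α → ℝ} {Fn : ℕ → α → ℝ}
    {M : ℝ} (hi : ∀ n, Integrable (Fn n) μ) (h0 : ∀ n, ∀ᵐ x ∂μ, 0 ≤ Fn n x)
    (ht : ∀ᵐ x ∂μ, Tendsto (fun n => Fn n x) atTop (𝓝 (F x))) (hM : ∀ n, ∫ x, Fn n x ∂μ ≤ M) :
    Integrable F μ ∧ ∫ x, F x ∂μ ≤ M := by
  have hm : AEStronglyMeasurable F μ :=
    aestronglyMeasurable_of_tendsto_ae atTop (fun n => (hi n).aestronglyMeasurable) ht
  have hF0 : ∀ᵐ x ∂μ, 0 ≤ F x := by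
    have h0' := ae_all_iff.mpr h0
    filter_upwards [ht, h0'] with x hx hx0
    exact ge_of_tendsto' hx hx0
  have hM0 : 0 ≤ M := (integral_nonneg_of_ae (h0 0)).trans (hM 0)
  have h1 : ∫⁻ x, ENNReal.ofReal (F x) ∂μ ≤ ENNReal.ofReal M := by
    have h2 : ∫⁻ x, ENNReal.ofReal (F x) ∂μ =
        ∫⁻ x, liminf (fun n => ENNReal.ofReal (Fn n x)) atTop ∂μ := by
      refine lintegral_congr_ae ?_
      filter_upwards [ht] with x hx
      exact ((ENNReal.continuous_ofReal.tendsto _).comp hx).liminf_eq.symm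
    rw [h2]
    refine (lintegral_liminf_le' fun n => (hi n).aestronglyMeasurable.aemeasurable.ennreal_ofReal).trans ?_
    refine liminf_le_of_frequently_le' (Eventually.of_forall fun n => ?_).frequently
    rw [← ofReal_integral_eq_lintegral_ofReal (hi n) (h0 n)]
    exact ENNReal.ofReal_le_ofReal (hM n)
  have hint : Integrable F μ := by
    refine ⟨hm, ?_⟩
    rw [hasFiniteIntegral_iff_ofReal hF0]
    exact h1.trans_lt ENNReal.ofReal_lt_top
  refine ⟨hint, ?_⟩
  rw [← ofReal_integral_eq_lintegral_ofReal hint hF0] at h1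
  exact (ENNReal.ofReal_le_ofReal_iff hM0).mp h1

variable {V : Type*} [NormedAddCommGroup V] [InnerProductSpace ℝ V] [FiniteDimensional ℝ V]
  [MeasurableSpace V] [BorelSpace V]

section dim3

variable [hd : Fact (Module.finrank ℝ V = 3)]

theorem gradient_pot {f : V → ℝ} (hf : BC f) (x : V) : ∇ (pot f) x = gradV f x :=
  (hasGradientAt_pot hf x).gradient

theorem pot_lipschitz {f : V → ℝ} (hf : BC f) : ∃ C, LipschitzWith C (pot f) := by
  obtain ⟨B, hB⟩ := gradV_bound hf
  have hB0 : 0 ≤ B := (norm_nonneg _).trans (hB 0)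
  refine ⟨B.toNNReal, lipschitzWith_of_nnnorm_fderiv_le
    (fun x => (hasGradientAt_pot hf x).differentiableAt) fun x => ?_⟩
  rw [← NNReal.coe_le_coe, coe_nnnorm, ← norm_gradient, gradient_pot hf,
    Real.coe_toNNReal _ hB0]
  exact hB x

/-- Dirichlet energy of the potential of a bounded density -/
theorem energy_BC {f : V → ℝ} (hf : BC f) :
    Integrable (fun x => ‖gradV f x‖ ^ 2) ∧ ∫ x, ‖gradV f x‖ ^ 2 = 4 * Real.pi * En f f := by
  set k := pot f with hk
  obtain ⟨C, hC⟩ := pot_lipschitz hf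
  have hkc : Continuous k := hC.continuous
  set d : ℕ → ℝ := fun n => 1 / ((n : ℝ) + 1) with hdn
  have hd0 : ∀ n, 0 < d n := fun n => by positivity
  have hdl : Tendsto d atTop (𝓝 0) := tendsto_one_div_add_atTop_nhds_zero_nat
  set u : ℕ → V → ℝ := fun n x => soft (d n) (k x) with hu
  have hul : ∀ n, LipschitzWith (1 * C) (u n) := fun n => (soft_lipschitz (hd0 n).le).comp hC
  have huc : ∀ n, HasCompactSupport (u n) := by
    intro n
    obtain ⟨R', hR'⟩ := pot_decay hf (hd0 n)
    refine HasCompactSupport.intro (isCompact_closedBall (0 : V) R') fun x hx => ?_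
    rw [mem_closedBall_zero_iff, not_le] at hx
    exact soft_eq_zero (hR' x hx.le).le
  have hw : ∀ n, Integrable (fun x => ⟪gradV f x, ∇ (u n) x⟫) ∧
      ∫ x, ⟪gradV f x, ∇ (u n) x⟫ = 4 * Real.pi * ∫ x, f x * u n x := fun n =>
    weak_poisson hf.integrable hf.meas (hul n) (huc n)
  have hdiff : ∀ x, DifferentiableAt ℝ k x := fun x => (hasGradientAt_pot hf x).differentiableAt
  have hlev : ∀ n : ℕ, ∀ᵐ x : V, |k x| = d n → ∇ k x = 0 := by
    intro n
    filter_upwards [ae_level hkc.measurable (d n), ae_level hkc.measurable (-d n)] with x h1 h2 h3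
    rcases (abs_eq (hd0 n).le).mp h3 with h | h
    · exact h1 h (hdiff x)
    · exact h2 h (hdiff x)
  have hlev0 : ∀ᵐ x : V, k x = 0 → ∇ k x = 0 := by
    filter_upwards [ae_level hkc.measurable 0] with x h1 h2
    exact h1 h2 (hdiff x)
  have hg : ∀ n, ∀ᵐ x : V, 0 ≤ ⟪gradV f x, ∇ (u n) x⟫ ∧
      ⟪gradV f x, ∇ (u n) x⟫ ≤ ‖gradV f x‖ ^ 2 := by
    intro n
    filter_upwards [hlev n] with x hx
    have hG : gradV f x = ∇ k x := (gradient_pot hf x).symm
    rcases lt_trichotomy (|k x|) (d n) with h | h | h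
    · rw [hu]
      simp only
      rw [gradient_soft_zero hkc.continuousAt h, inner_zero_right]
      exact ⟨le_rfl, by positivity⟩
    · rw [hG, hx h, inner_zero_left]
      exact ⟨le_rfl, by positivity⟩
    · rw [hu]
      simp only
      rw [gradient_soft_eq (hd0 n).le hkc.continuousAt h, ← hG, real_inner_self_eq_norm_sq]
      exact ⟨by positivity, le_rfl⟩
  have htend : ∀ᵐ x : V, Tendsto (fun n => ⟪gradV f x, ∇ (u n) x⟫) atTop (𝓝 (‖gradV f x‖ ^ 2)) := by
    filter_upwards [hlev0] with x hx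
    have hG : gradV f x = ∇ k x := (gradient_pot hf x).symm
    by_cases h0 : k x = 0
    · rw [hG, hx h0]
      simp only [inner_zero_left, norm_zero]
      rw [zero_pow two_ne_zero]
      exact tendsto_const_nhds
    · have h1 : ∀ᶠ n in atTop, d n < |k x| := hdl.eventually (gt_mem_nhds (abs_pos.mpr h0))
      refine tendsto_const_nhds.congr' ?_
      filter_upwards [h1] with n hn
      rw [hu]
      simp only
      rw [gradient_soft_eq (hd0 n).le hkc.continuousAt hn, ← hG, real_inner_self_eq_norm_sq]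
  have hfk : Integrable (fun x => f x * k x) := En_integrable hf hf
  have hb : ∀ n, ∫ x, ⟪gradV f x, ∇ (u n) x⟫ ≤ 4 * Real.pi * ∫ x, |f x * k x| := by
    intro n
    rw [(hw n).2]
    refine mul_le_mul_of_nonneg_left ?_ (by positivity)
    refine (le_abs_self _).trans ((abs_integral_le_integral_abs).trans ?_)
    refine integral_mono_of_nonneg (Eventually.of_forall fun x => abs_nonneg _) hfk.abs
      (Eventually.of_forall fun x => ?_)
    simp only
    rw [abs_mul, abs_mul]
    exact mul_le_mul_of_nonneg_left (soft_abs_le (hd0 n).le _) (abs_nonneg _)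
  have hF := fatou_int (fun n => (hw n).1) (fun n => (hg n).mono fun x h => h.1) htend hb
  refine ⟨hF.1, ?_⟩
  have hT1 : Tendsto (fun n => ∫ x, ⟪gradV f x, ∇ (u n) x⟫) atTop (𝓝 (∫ x, ‖gradV f x‖ ^ 2)) := by
    refine tendsto_integral_of_dominated_convergence (fun x => ‖gradV f x‖ ^ 2)
      (fun n => (hw n).1.aestronglyMeasurable) hF.1 (fun n => ?_) htend
    filter_upwards [hg n] with x hx
    rw [Real.norm_of_nonneg hx.1]
    exact hx.2
  have hT2 : Tendsto (fun n => ∫ x, f x * u n x) atTop (𝓝 (∫ x, f x * k x)) := by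
    refine tendsto_integral_of_dominated_convergence (fun x => |f x * k x|)
      (fun n => (hf.meas.mul (hul n).continuous.measurable).aestronglyMeasurable) hfk.abs
      (fun n => Eventually.of_forall fun x => ?_) (Eventually.of_forall fun x => ?_)
    · rw [Real.norm_eq_abs, abs_mul, abs_mul]
      exact mul_le_mul_of_nonneg_left (soft_abs_le (hd0 n).le _) (abs_nonneg _)
    · refine Tendsto.const_mul _ ?_
      rw [tendsto_iff_dist_tendsto_zero]
      refine squeeze_zero (fun n => dist_nonneg) (fun n => ?_) hdl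
      rw [Real.dist_eq]
      exact soft_sub_le (hd0 n).le _
  have h3 := hT2.const_mul (4 * Real.pi)
  have h4 : (fun n => ∫ x, ⟪gradV f x, ∇ (u n) x⟫) = fun n => 4 * Real.pi * ∫ x, f x * u n x :=
    funext fun n => (hw n).2
  rw [h4] at hT1
  exact tendsto_nhds_unique hT1 h3

/-- Dirichlet energy of the potential of an admissible density -/
theorem energy_TC_le {f : V → ℝ} (hf : TC f) :
    Integrable (fun x => ‖gradV f x‖ ^ 2) ∧ ∫ x, ‖gradV f x‖ ^ 2 ≤ 4 * Real.pi * En f f := by
  have hB : ∀ n, BC (trunc f n) := trunc_BC hf.meas hf.nonneg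
  have ht : ∀ᵐ x : V, Tendsto (fun n => ‖gradV (trunc f n) x‖ ^ 2) atTop
      (𝓝 (‖gradV f x‖ ^ 2)) := by
    filter_upwards [ae_GI hf.int hf.meas] with x hx
    have h1 : Tendsto (fun n => gradV (trunc f n) x) atTop (𝓝 (gradV f x)) := by
      unfold gradV
      refine Tendsto.neg ?_
      refine tendsto_integral_of_dominated_convergence
        (fun y => ‖f y • ((‖x - y‖ ^ 3)⁻¹ • (x - y))‖) (fun n => ?_) hx.norm
        (fun n => Eventually.of_forall fun y => ?_) (Eventually.of_forall fun y => ?_)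
      · exact ((hB n).meas.smul (measurable_kv.comp
          (measurable_const.sub measurable_id))).aestronglyMeasurable
      · rw [norm_smul, norm_smul (f y)]
        refine mul_le_mul_of_nonneg_right ?_ (norm_nonneg _)
        rw [Real.norm_of_nonneg (trunc_nonneg hf.nonneg n y), Real.norm_of_nonneg (hf.nonneg y)]
        exact trunc_le hf.nonneg n y
      · exact (trunc_tendsto f y).smul_const _
    exact h1.norm.pow 2
  refine fatou_int (fun n => (energy_BC (hB n)).1)
    (fun n => Eventually.of_forall fun x => by positivity) ht fun n => ?_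
  rw [(energy_BC (hB n)).2]
  refine mul_le_mul_of_nonneg_left ?_ (by positivity)
  have hT : TC (trunc f n) := (hB n).toTC (trunc_nonneg hf.nonneg n)
  unfold En
  refine integral_mono (hT.En_integrable hT) (hf.En_integrable hf) fun x => ?_
  simp only
  have h1 : pot (trunc f n) x ≤ pot f x := by
    unfold pot
    refine integral_mono (hT.pot_integrable x) (hf.pot_integrable x) fun y => ?_
    exact mul_le_mul_of_nonneg_left (trunc_le hf.nonneg n y) (by positivity)
  exact mul_le_mul (trunc_le hf.nonneg n x) h1 (pot_nonneg (trunc_nonneg hf.nonneg n) x)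
    (hf.nonneg x)

/-! ### trial functions -/

/-- bounded functions vanishing at infinity, locally Lipschitz off `S`, with square integrable
gradient `k'` -/
structure TrialK (S : Set V) (k : V → ℝ) (k' : V → V) : Prop where
  bdd : ∃ B, ∀ x, |k x| ≤ B
  decay : ∀ ε : ℝ, 0 < ε → ∃ r, ∀ x, r ≤ ‖x‖ → |k x| < ε
  cont : Continuous k
  lip : ∀ x, x ∉ S → LipAt k x
  grad : ∀ᵐ x : V, HasGradientAt k (k' x) x
  sq : Integrable (fun x => ‖k' x‖ ^ 2)

theorem TrialK.mono {S T : Set V} {k : V → ℝ} {k' : V → V} (h : TrialK S k k') (hST : S ⊆ T) :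
    TrialK T k k' :=
  ⟨h.bdd, h.decay, h.cont, fun x hx => h.lip x fun hx' => hx (hST hx'), h.grad, h.sq⟩

theorem TrialK.ae_eq {S : Set V} {k : V → ℝ} {k' : V → V} (h : TrialK S k k') :
    (fun x => ∇ k x) =ᵐ[volume] k' := by
  filter_upwards [h.grad] with x hx
  exact hx.gradient

theorem TrialK.meas {S : Set V} {k : V → ℝ} {k' : V → V} (h : TrialK S k k') :
    AEStronglyMeasurable k' volume :=
  (measurable_gradient k).aestronglyMeasurable.congr h.ae_eq

/-- cut-off near a set -/
noncomputable def cut (S : Set V) (ε : ℝ) (x : V) : ℝ := max 0 (min 1 (infDist x S / ε - 1))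

/-- the weight dominating the gradients of the cut-offs -/
noncomputable def cW (S : Set V) (x : V) : ℝ :=
  {x : V | infDist x S ≤ 2}.indicator (fun x => (infDist x S)⁻¹) x

theorem cut_lip (S : Set V) {ε : ℝ} (hε : 0 < ε) : LipschitzWith (ε⁻¹).toNNReal (cut S ε) := by
  refine LipschitzWith.of_dist_le_mul fun x y => ?_
  rw [Real.coe_toNNReal _ (by positivity), Real.dist_eq]
  unfold cut
  have h1 : |infDist x S - infDist y S| ≤ dist x y := by
    have := (lipschitz_infDist_pt S).dist_le_mul x y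
    rwa [NNReal.coe_one, one_mul, Real.dist_eq] at this
  have h2 : ∀ a b : ℝ, |max 0 (min 1 a) - max 0 (min 1 b)| ≤ |a - b| := by
    intro a b
    refine (abs_max_sub_max_le_max _ _ _ _).trans ?_
    rw [sub_self, abs_zero, max_eq_right (abs_nonneg _)]
    refine (abs_min_sub_min_le_max _ _ _ _).trans ?_
    rw [sub_self, abs_zero, max_eq_right (abs_nonneg _)]
  refine (h2 _ _).trans ?_
  have e1 : infDist x S / ε - 1 - (infDist y S / ε - 1) = ε⁻¹ * (infDist x S - infDist y S) := by
    field_simp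
    ring
  rw [e1, abs_mul, abs_of_pos (by positivity)]
  exact mul_le_mul_of_nonneg_left h1 (by positivity)

theorem cut_nonneg (S : Set V) (ε : ℝ) (x : V) : 0 ≤ cut S ε x := le_max_left _ _

theorem cut_le_one (S : Set V) (ε : ℝ) (x : V) : cut S ε x ≤ 1 :=
  max_le zero_le_one (min_le_left _ _)

theorem cut_eq_zero {S : Set V} {ε : ℝ} (hε : 0 < ε) {x : V} (h : infDist x S ≤ ε) :
    cut S ε x = 0 := by
  unfold cut
  refine max_eq_left ((min_le_right _ _).trans ?_)
  rw [sub_nonpos, div_le_one hε]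
  exact h

theorem cut_eq_one {S : Set V} {ε : ℝ} (hε : 0 < ε) {x : V} (h : 2 * ε ≤ infDist x S) :
    cut S ε x = 1 := by
  unfold cut
  have h1 : 1 ≤ infDist x S / ε - 1 := by
    rw [le_sub_iff_add_le, le_div_iff₀ hε]
    linarith
  rw [min_eq_left h1, max_eq_right zero_le_one]

theorem cut_gradient {S : Set V} {ε : ℝ} (hε : 0 < ε) (hε1 : ε ≤ 1) {x : V} :
    ‖∇ (cut S ε) x‖ ≤ 2 * cW S x := by
  have hc : Continuous fun y : V => infDist y S := continuous_infDist_pt S
  have hW0 : 0 ≤ cW S x := indicator_nonneg (fun _ _ => inv_nonneg.mpr infDist_nonneg) _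
  rcases lt_or_ge (infDist x S) ε with h | h
  · have h1 : cut S ε =ᶠ[𝓝 x] fun _ => 0 := by
      filter_upwards [hc.continuousAt.eventually (gt_mem_nhds h)] with y hy
      exact cut_eq_zero hε hy.le
    rw [h1.gradient_eq]
    simp only [gradient, fderiv_fun_const, Pi.zero_apply, map_zero, norm_zero]
    positivity
  rcases lt_or_ge (2 * ε) (infDist x S) with h2 | h2
  · have h1 : cut S ε =ᶠ[𝓝 x] fun _ => 1 := by
      filter_upwards [hc.continuousAt.eventually (lt_mem_nhds h2)] with y hy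
      exact cut_eq_one hε hy.le
    rw [h1.gradient_eq]
    simp only [gradient, fderiv_fun_const, Pi.zero_apply, map_zero, norm_zero]
    positivity
  · refine (gradient_bound (cut_lip S hε) x).trans ?_
    rw [Real.coe_toNNReal _ (by positivity)]
    have h3 : x ∈ {x : V | infDist x S ≤ 2} := by
      change infDist x S ≤ 2; linarith
    unfold cW
    rw [indicator_of_mem h3]
    have h4 : 0 < infDist x S := hε.trans_le h
    rw [← div_eq_mul_inv, inv_le_comm₀ hε (by positivity), inv_div]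
    linarith

/-- approximation of trial functions by Lipschitz functions with compact support vanishing
near `S` -/
noncomputable def apx (S : Set V) (k : V → ℝ) (n : ℕ) (x : V) : ℝ :=
  cut S (1 / ((n : ℝ) + 1)) x * soft (1 / ((n : ℝ) + 1)) (k x)

theorem apx_lip {S : Set V} (hS : IsClosed S) (hne : S.Nonempty) {k : V → ℝ} {k' : V → V}
    (hk : TrialK S k k') (n : ℕ) :
    (∃ C, LipschitzWith C (apx S k n)) ∧ HasCompactSupport (apx S k n) := by
  set d : ℝ := 1 / ((n : ℝ) + 1) with hd'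
  have hd0 : 0 < d := by positivity
  obtain ⟨r, hr⟩ := hk.decay d hd0
  refine lipschitz_of_compact (R := max r 1) (fun x => ?_) (by positivity) fun x hx => ?_
  · by_cases hx : x ∈ S
    · have h1 : infDist x S = 0 := infDist_zero_of_mem hx
      have h2 : apx S k n =ᶠ[𝓝 x] fun _ => 0 := by
        have hc : Continuous fun y : V => infDist y S := continuous_infDist_pt S
        have h3 : infDist x S < d := by rw [h1]; exact hd0
        filter_upwards [hc.continuousAt.eventually (gt_mem_nhds h3)] with y hy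
        unfold apx
        rw [cut_eq_zero hd0 hy.le, zero_mul]
      exact (LipAt.const 0 x).congr h2.symm
    · exact (lipAt_of_lip (cut_lip S hd0) x).mul ((hk.lip x hx).comp_lip (soft_lipschitz hd0.le))
  · unfold apx
    rw [soft_eq_zero (hr x ((le_max_left _ _).trans hx)).le, mul_zero]

theorem apx_abs_le {S : Set V} {k : V → ℝ} (n : ℕ) (x : V) : |apx S k n x| ≤ |k x| := by
  unfold apx
  rw [abs_mul, abs_of_nonneg (cut_nonneg _ _ _)]
  calc cut S (1 / ((n : ℝ) + 1)) x * |soft (1 / ((n : ℝ) + 1)) (k x)| ≤ 1 * |k x| :=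
        mul_le_mul (cut_le_one _ _ _) (soft_abs_le (by positivity) _) (abs_nonneg _) zero_le_one
    _ = _ := one_mul _

theorem apx_tendsto {S : Set V} (hS : IsClosed S) (hne : S.Nonempty) (k : V → ℝ) {x : V}
    (hx : x ∉ S) : Tendsto (fun n => apx S k n x) atTop (𝓝 (k x)) := by
  have hdl : Tendsto (fun n : ℕ => 1 / ((n : ℝ) + 1)) atTop (𝓝 0) :=
    tendsto_one_div_add_atTop_nhds_zero_nat
  have hpos : 0 < infDist x S := (hS.notMem_iff_infDist_pos hne).mp hx
  have h1 : ∀ᶠ n : ℕ in atTop, 1 / ((n : ℝ) + 1) < infDist x S / 2 :=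
    hdl.eventually (gt_mem_nhds (half_pos hpos))
  have h2 : Tendsto (fun n : ℕ => soft (1 / ((n : ℝ) + 1)) (k x)) atTop (𝓝 (k x)) := by
    rw [tendsto_iff_dist_tendsto_zero]
    refine squeeze_zero (fun n => dist_nonneg) (fun n => ?_) hdl
    rw [Real.dist_eq]
    exact soft_sub_le (by positivity) _
  refine h2.congr' ?_
  filter_upwards [h1] with n hn
  unfold apx
  rw [cut_eq_one (by positivity) (by linarith), one_mul]

theorem apx_gradient {S : Set V} {k : V → ℝ} {k' : V → V} (hk : TrialK S k k') {B : ℝ}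
    (hB : ∀ x, |k x| ≤ B) (n : ℕ) :
    ∀ᵐ x : V, ‖∇ (apx S k n) x‖ ≤ ‖k' x‖ + 2 * B * cW S x := by
  set d : ℝ := 1 / ((n : ℝ) + 1) with hd'
  have hd0 : 0 < d := by positivity
  have hd1 : d ≤ 1 := by
    rw [hd', div_le_one (by positivity)]
    linarith [Nat.cast_nonneg (α := ℝ) n]
  have hB0 : 0 ≤ B := (abs_nonneg _).trans (hB 0)
  filter_upwards [hk.grad, (cut_lip S hd0).ae_differentiableAt] with x hx hx2
  have hW0 : 0 ≤ cW S x := indicator_nonneg (fun _ _ => inv_nonneg.mpr infDist_nonneg) _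
  have hkd : DifferentiableAt ℝ k x := hx.differentiableAt
  have hk' : ∇ k x = k' x := hx.gradient
  by_cases hsd : DifferentiableAt ℝ (fun y => soft d (k y)) x
  · have h1 : HasFDerivAt (apx S k n) (cut S d x • fderiv ℝ (fun y => soft d (k y)) x +
        soft d (k x) • fderiv ℝ (cut S d) x) x := by
      exact hx2.hasFDerivAt.mul hsd.hasFDerivAt
    have h2 : ∇ (apx S k n) x = cut S d x • ∇ (fun y => soft d (k y)) x +
        soft d (k x) • ∇ (cut S d) x := by
      unfold gradient
      rw [h1.fderiv, map_add, map_smul, map_smul]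
    rw [h2]
    refine (norm_add_le _ _).trans ?_
    rw [norm_smul, norm_smul, Real.norm_of_nonneg (cut_nonneg _ _ _), Real.norm_eq_abs]
    have h3 : ‖∇ (fun y => soft d (k y)) x‖ ≤ ‖k' x‖ := by
      rw [← hk']; exact gradient_comp_le (soft_lipschitz hd0.le) hkd
    have h4 : |soft d (k x)| ≤ B := (soft_abs_le hd0.le _).trans (hB x)
    have h5 := cut_gradient (S := S) hd0 hd1 (x := x)
    calc cut S d x * ‖∇ (fun y => soft d (k y)) x‖ + |soft d (k x)| * ‖∇ (cut S d) x‖
        ≤ 1 * ‖k' x‖ + B * (2 * cW S x) := by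
          refine add_le_add (mul_le_mul (cut_le_one _ _ _) h3 (norm_nonneg _) zero_le_one)
            (mul_le_mul h4 h5 (norm_nonneg _) hB0)
      _ = _ := by ring
  · -- here `|k x| = d`
    have h6 : |k x| = d := by
      by_contra hne
      rcases lt_or_gt_of_ne hne with h | h
      · have h1 : (fun y => soft d (k y)) =ᶠ[𝓝 x] fun _ => 0 := by
          have h2 : ∀ᶠ y in 𝓝 x, |k y| < d := hkd.continuousAt.abs.eventually (gt_mem_nhds h)
          filter_upwards [h2] with y hy
          exact soft_eq_zero hy.le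
        exact hsd ((differentiableAt_const (0 : ℝ)).congr_of_eventuallyEq h1)
      · rcases lt_abs.mp h with h0 | h0
        · have h2 : ∀ᶠ y in 𝓝 x, d < k y := hkd.continuousAt.eventually (lt_mem_nhds h0)
          have h1 : (fun y => soft d (k y)) =ᶠ[𝓝 x] fun y => k y - d := by
            filter_upwards [h2] with y hy
            unfold soft
            rw [min_eq_right hy.le, max_eq_right (by linarith)]
          exact hsd ((hkd.sub_const d).congr_of_eventuallyEq h1)
        · have h2 : ∀ᶠ y in 𝓝 x, k y < -d := hkd.continuousAt.eventually (gt_mem_nhds (by linarith))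
          have h1 : (fun y => soft d (k y)) =ᶠ[𝓝 x] fun y => k y + d := by
            filter_upwards [h2] with y hy
            unfold soft
            rw [min_eq_left (by linarith), max_eq_left (by linarith)]
            ring
          exact hsd ((hkd.add_const d).congr_of_eventuallyEq h1)
    by_cases hc0 : DifferentiableAt ℝ (apx S k n) x
    · -- the value of the soft truncation is zero, so the product rule still bounds the gradient
      have hz : soft d (k x) = 0 := soft_eq_zero h6.le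
      rw [norm_gradient]
      refine (ContinuousLinearMap.opNorm_le_bound _ (norm_nonneg (k' x)) fun v => ?_).trans
        (le_add_of_nonneg_right (by positivity))
      have h1 : Tendsto (fun t : ℝ => ‖t⁻¹ • (apx S k n (x + t • v) - apx S k n x)‖) (𝓝[>] 0)
          (𝓝 ‖fderiv ℝ (apx S k n) x v‖) :=
        ((hc0.hasFDerivAt.hasLineDerivAt v).tendsto_slope_zero_right).norm
      have h2 : Tendsto (fun t : ℝ => ‖t⁻¹ • (k (x + t • v) - k x)‖) (𝓝[>] 0)
          (𝓝 ‖fderiv ℝ k x v‖) :=
        ((hkd.hasFDerivAt.hasLineDerivAt v).tendsto_slope_zero_right).norm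
      rw [← hk', norm_gradient]
      refine (le_of_tendsto_of_tendsto' h1 h2 fun t => ?_).trans
        (ContinuousLinearMap.le_opNorm _ _)
      rw [norm_smul, norm_smul]
      refine mul_le_mul_of_nonneg_left ?_ (norm_nonneg _)
      have h3 : apx S k n x = 0 := by
        unfold apx
        rw [hz, mul_zero]
      rw [h3, sub_zero]
      unfold apx
      rw [Real.norm_eq_abs, abs_mul, abs_of_nonneg (cut_nonneg _ _ _), Real.norm_eq_abs]
      have h4 := soft_lip hd0.le (k (x + t • v)) (k x)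
      rw [hz, sub_zero] at h4
      calc cut S (1 / ((n : ℝ) + 1)) (x + t • v) * |soft (1 / ((n : ℝ) + 1)) (k (x + t • v))|
          ≤ 1 * |k (x + t • v) - k x| :=
            mul_le_mul (cut_le_one _ _ _) h4 (abs_nonneg _) zero_le_one
        _ = _ := one_mul _
    · rw [norm_gradient, fderiv_zero_of_not_differentiableAt hc0, norm_zero]
      positivity

theorem apx_gradient_tendsto {S : Set V} (hS : IsClosed S) (hne : S.Nonempty)
    (hnull : volume S = 0) {k : V → ℝ} {k' : V → V} (hk : TrialK S k k') :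
    ∀ᵐ x : V, Tendsto (fun n => ∇ (apx S k n) x) atTop (𝓝 (k' x)) := by
  have hdl : Tendsto (fun n : ℕ => 1 / ((n : ℝ) + 1)) atTop (𝓝 0) :=
    tendsto_one_div_add_atTop_nhds_zero_nat
  have hSn : ∀ᵐ x : V, x ∉ S := by
    rw [ae_iff]
    simpa using hnull
  filter_upwards [hk.grad, hSn, ae_level hk.cont.measurable 0] with x hx hxS hlev
  have hkd : DifferentiableAt ℝ k x := hx.differentiableAt
  have hk' : ∇ k x = k' x := hx.gradient
  have hpos : 0 < infDist x S := (hS.notMem_iff_infDist_pos hne).mp hxS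
  have hcI : Continuous fun y : V => infDist y S := continuous_infDist_pt S
  have h1 : ∀ᶠ n : ℕ in atTop, 1 / ((n : ℝ) + 1) < infDist x S / 2 :=
    hdl.eventually (gt_mem_nhds (half_pos hpos))
  have hloc : ∀ n : ℕ, 1 / ((n : ℝ) + 1) < infDist x S / 2 →
      apx S k n =ᶠ[𝓝 x] fun y => soft (1 / ((n : ℝ) + 1)) (k y) := by
    intro n hn
    have h2 : 2 * (1 / ((n : ℝ) + 1)) < infDist x S := by linarith
    filter_upwards [hcI.continuousAt.eventually (lt_mem_nhds h2)] with y hy
    unfold apx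
    rw [cut_eq_one (by positivity) hy.le, one_mul]
  refine tendsto_const_nhds.congr' ?_
  by_cases h0 : k x = 0
  · filter_upwards [h1] with n hn
    rw [(hloc n hn).gradient_eq, gradient_soft_zero hkd.continuousAt (by
      rw [h0, abs_zero]; positivity), ← hk', hlev h0 hkd]
  · have h3 : ∀ᶠ n : ℕ in atTop, 1 / ((n : ℝ) + 1) < |k x| :=
      hdl.eventually (gt_mem_nhds (abs_pos.mpr h0))
    filter_upwards [h1, h3] with n hn hn3
    rw [(hloc n hn).gradient_eq, gradient_soft_eq (by positivity) hkd.continuousAt hn3, hk']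

/-- extension of a weak identity from Lipschitz functions with compact support to trial
functions -/
theorem weak_K {S : Set V} (hS : IsClosed S) (hne : S.Nonempty) (hnull : volume S = 0)
    {k : V → ℝ} {k' : V → V} (hk : TrialK S k k') {A : V → V} {g : V → ℝ}
    (hA : AEStronglyMeasurable A volume) (hg : Integrable g)
    (hw : ∀ (u : V → ℝ) (C : ℝ≥0), LipschitzWith C u → HasCompactSupport u →
      ∫ x, ⟪A x, ∇ u x⟫ = ∫ x, g x * u x)
    (h1 : Integrable fun x => ‖A x‖ * ‖k' x‖) (h2 : Integrable fun x => ‖A x‖ * cW S x) :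
    Integrable (fun x => ⟪A x, k' x⟫) ∧ ∫ x, ⟪A x, k' x⟫ = ∫ x, g x * k x := by
  obtain ⟨B, hB⟩ := hk.bdd
  have hL : Tendsto (fun n => ∫ x, ⟪A x, ∇ (apx S k n) x⟫) atTop (𝓝 (∫ x, ⟪A x, k' x⟫)) := by
    refine tendsto_integral_of_dominated_convergence
      (fun x => ‖A x‖ * ‖k' x‖ + 2 * B * (‖A x‖ * cW S x)) (fun n => ?_)
      (h1.add (h2.const_mul _)) (fun n => ?_) ?_
    · exact hA.inner (measurable_gradient _).aestronglyMeasurable
    · filter_upwards [apx_gradient hk hB n] with x hx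
      rw [Real.norm_eq_abs]
      refine (abs_real_inner_le_norm _ _).trans ?_
      refine (mul_le_mul_of_nonneg_left hx (norm_nonneg _)).trans (le_of_eq ?_)
      ring
    · filter_upwards [apx_gradient_tendsto hS hne hnull hk] with x hx
      exact tendsto_const_nhds.inner hx
  have hR : Tendsto (fun n => ∫ x, g x * apx S k n x) atTop (𝓝 (∫ x, g x * k x)) := by
    refine tendsto_integral_of_dominated_convergence (fun x => |g x| * B) (fun n => ?_)
      (hg.abs.mul_const _) (fun n => Eventually.of_forall fun x => ?_) ?_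
    · obtain ⟨⟨C, hC⟩, -⟩ := apx_lip hS hne hk n
      exact hg.aestronglyMeasurable.mul hC.continuous.measurable.aestronglyMeasurable
    · rw [norm_mul, Real.norm_eq_abs, Real.norm_eq_abs]
      exact mul_le_mul_of_nonneg_left ((apx_abs_le n x).trans (hB x)) (abs_nonneg _)
    · have hSn : ∀ᵐ x : V, x ∉ S := by
        rw [ae_iff]
        simpa using hnull
      filter_upwards [hSn] with x hx
      exact (apx_tendsto hS hne k hx).const_mul _
  have heq : ∀ n, ∫ x, ⟪A x, ∇ (apx S k n) x⟫ = ∫ x, g x * apx S k n x := by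
    intro n
    obtain ⟨⟨C, hC⟩, hc⟩ := apx_lip hS hne hk n
    exact hw _ C hC hc
  simp_rw [heq] at hL
  refine ⟨?_, tendsto_nhds_unique hL hR⟩
  refine h1.mono' (hA.inner hk.meas) (Eventually.of_forall fun x => ?_)
  rw [Real.norm_eq_abs]
  exact abs_real_inner_le_norm _ _

end dim3

end Pool.Agent.TF

end

section
/-! Weak Poisson equation for trial functions and Thomson's inequality. -/

set_option linter.unusedSectionVars false

set_option linter.unusedVariables false

set_option linter.style.haveILetI false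

namespace Pool.Agent.TF

open MeasureTheory Set Metric Filter Topology

open scoped ENNReal NNReal RealInnerProductSpace Gradient

variable {V : Type*} [NormedAddCommGroup V] [InnerProductSpace ℝ V] [FiniteDimensional ℝ V]
  [MeasurableSpace V] [BorelSpace V]

section dim3

variable [hd : Fact (Module.finrank ℝ V = 3)]

theorem cW_nonneg (S : Set V) (x : V) : 0 ≤ cW S x :=
  indicator_nonneg (fun _ _ => inv_nonneg.mpr infDist_nonneg) _

theorem cW_meas (S : Set V) : Measurable (cW S) := by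
  have hc : Continuous fun y : V => infDist y S := continuous_infDist_pt S
  exact hc.measurable.inv.indicator (measurableSet_le hc.measurable measurable_const)

theorem cW_le (S : Set V) (x : V) : cW S x ≤ 2 * cW S x ^ 2 := by
  unfold cW
  by_cases h : x ∈ {x : V | infDist x S ≤ 2}
  · rw [indicator_of_mem h]
    rcases (infDist_nonneg (x := x) (s := S)).eq_or_lt with h0 | h0
    · rw [← h0]; simp
    · have h2 : infDist x S ≤ 2 := h
      have : 1 ≤ 2 * (infDist x S)⁻¹ := by
        rw [← div_eq_mul_inv, le_div_iff₀ h0]; linarith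
      have h3 : 0 ≤ (infDist x S)⁻¹ := by positivity
      nlinarith
  · rw [indicator_of_notMem h]; simp

theorem cW_sq_integrable {S : Set V} (hS : S.Finite) (hne : S.Nonempty) :
    Integrable (fun x => cW S x ^ 2) := by
  classical
  have hI : Integrable (fun x : V => ∑ s ∈ hS.toFinset,
      (ball (0 : V) 3).indicator (fun v => (‖v‖ ^ 2)⁻¹) (x - s)) := by
    refine integrable_finsetSum _ fun s _ => ?_
    have h1 : Integrable ((ball (0 : V) 3).indicator fun v => (‖v‖ ^ 2)⁻¹) :=
      (integrable_indicator_iff measurableSet_ball).mpr (integrableOn_inv_sq 3)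
    exact h1.comp_sub_right s
  refine hI.mono' ((cW_meas S).pow_const 2).aestronglyMeasurable (Eventually.of_forall fun x => ?_)
  rw [Real.norm_of_nonneg (by positivity)]
  have hnn : ∀ s ∈ hS.toFinset, 0 ≤ (ball (0 : V) 3).indicator (fun v => (‖v‖ ^ 2)⁻¹) (x - s) :=
    fun s _ => indicator_nonneg (fun _ _ => by positivity) _
  by_cases h : x ∈ {x : V | infDist x S ≤ 2}
  · obtain ⟨y, hy, hy2⟩ := hS.isCompact.exists_infDist_eq_dist hne x
    have h2 : infDist x S ≤ 2 := h
    have h3 : x - y ∈ ball (0 : V) 3 := by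
      rw [mem_ball_zero_iff, ← dist_eq_norm, ← hy2]; linarith
    refine le_trans ?_ (Finset.single_le_sum hnn (hS.mem_toFinset.mpr hy))
    rw [indicator_of_mem h3]
    unfold cW
    rw [indicator_of_mem h, hy2, dist_eq_norm, inv_pow]
  · unfold cW
    rw [indicator_of_notMem h]
    simpa using Finset.sum_nonneg hnn

theorem mul_integrable_of_sq {a b : V → ℝ} (ha : AEStronglyMeasurable a volume)
    (hb : AEStronglyMeasurable b volume) (h1 : Integrable fun x => a x ^ 2)
    (h2 : Integrable fun x => b x ^ 2) : Integrable fun x => a x * b x := by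
  refine (h1.add h2).mono' (ha.mul hb) (Eventually.of_forall fun x => ?_)
  rw [Real.norm_eq_abs, abs_mul, Pi.add_apply, ← sq_abs (a x), ← sq_abs (b x)]
  nlinarith [sq_nonneg (|a x| - |b x|), abs_nonneg (a x), abs_nonneg (b x)]

theorem finite_null {S : Set V} (hS : S.Finite) : volume S = 0 := by
  haveI := nontriv (V := V)
  exact hS.measure_zero _

/-- weak Poisson equation for trial functions -/
theorem weak_L2 {S : Set V} (hS : S.Finite) {k : V → ℝ} {k' : V → V} (hk : TrialK S k k')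
    {f : V → ℝ} (hf : Integrable f) (hfm : Measurable f)
    (hsq : Integrable fun x => ‖gradV f x‖ ^ 2) :
    Integrable (fun x => ⟪gradV f x, k' x⟫) ∧
      ∫ x, ⟪gradV f x, k' x⟫ = 4 * Real.pi * ∫ x, f x * k x := by
  have hS' : (insert 0 S).Finite := hS.insert 0
  have hne : (insert (0 : V) S).Nonempty := insert_nonempty _ _
  have hk2 := hk.mono (subset_insert (0 : V) S)
  have hm := gradV_meas hfm (V := V)
  have h := weak_K hS'.isClosed hne (finite_null hS') hk2 (A := gradV f)
    (g := fun x => 4 * Real.pi * f x) hm (hf.const_mul _) (fun u C hu hc => by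
      rw [(weak_poisson hf hfm hu hc).2, ← integral_const_mul]
      refine integral_congr_ae (Eventually.of_forall fun x => ?_)
      simp only
      ring)
    (mul_integrable_of_sq hm.norm hk.meas.norm hsq hk.sq)
    (mul_integrable_of_sq hm.norm (cW_meas _).aestronglyMeasurable hsq (cW_sq_integrable hS' hne))
  refine ⟨h.1, h.2.trans ?_⟩
  rw [← integral_const_mul]
  refine integral_congr_ae (Eventually.of_forall fun x => ?_)
  simp only
  ring

theorem weak_TC {S : Set V} (hS : S.Finite) {k : V → ℝ} {k' : V → V} (hk : TrialK S k k')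
    {f : V → ℝ} (hf : TC f) :
    Integrable (fun x => ⟪gradV f x, k' x⟫) ∧
      ∫ x, ⟪gradV f x, k' x⟫ = 4 * Real.pi * ∫ x, f x * k x :=
  weak_L2 hS hk hf.int hf.meas (energy_TC_le hf).1

/-- the potential of a locally bounded density is a trial function -/
theorem trialK_pot {S : Set V} (hS : S.Finite) {f : V → ℝ} (hf : TC f)
    (hloc : ∀ x, x ∉ S → ∃ δ > 0, ∃ M, ∀ y ∈ ball x δ, |f y| ≤ M) :
    TrialK S (pot f) (gradV f) := by
  have hG : ∀ x, x ∉ S → ∃ δ > 0, (∀ y ∈ ball x δ, HasGradientAt (pot f) (gradV f y) y) ∧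
      ContinuousAt (gradV f) x := by
    intro x hx
    obtain ⟨δ, hδ, M, hM⟩ := hloc x hx
    refine ⟨δ / 2, half_pos hδ, fun y hy => ?_, (loc_grad hf.meas hf.int hδ hM).2.2⟩
    refine (loc_grad hf.meas hf.int (x₀ := y) (half_pos hδ) (M := M) fun w hw => hM w ?_).2.1
    rw [mem_ball] at hy hw ⊢
    have := dist_triangle w y x
    linarith
  refine ⟨⟨tcB f, fun x => ?_⟩, fun ε hε => ?_, hf.pot_continuous, fun x hx => ?_, ?_,
    (energy_TC_le hf).1⟩
  · rw [abs_of_nonneg (pot_nonneg hf.nonneg x)]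
    exact hf.pot_le x
  · obtain ⟨r, hr⟩ := hf.pot_decay hε
    refine ⟨r, fun x hx => ?_⟩
    rw [abs_of_nonneg (pot_nonneg hf.nonneg x)]
    exact hr x hx
  · obtain ⟨δ, hδ, h1, h2⟩ := hG x hx
    exact lipAt_of_gradient hδ h1 h2
  · have hSn : ∀ᵐ x : V, x ∉ S := by
      rw [ae_iff]
      simpa using finite_null hS
    filter_upwards [hSn] with x hx
    obtain ⟨δ, hδ, h1, h2⟩ := hG x hx
    exact h1 x (mem_ball_self hδ)

/-- Dirichlet energy of the potential of a locally bounded density -/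
theorem energy_TC {S : Set V} (hS : S.Finite) {f : V → ℝ} (hf : TC f)
    (hloc : ∀ x, x ∉ S → ∃ δ > 0, ∃ M, ∀ y ∈ ball x δ, |f y| ≤ M) :
    ∫ x, ‖gradV f x‖ ^ 2 = 4 * Real.pi * En f f := by
  have h := (weak_TC hS (trialK_pot hS hf hloc) hf).2
  have e : ∀ x, ⟪gradV f x, gradV f x⟫ = ‖gradV f x‖ ^ 2 := fun x => real_inner_self_eq_norm_sq _
  simp_rw [e] at h
  exact h

theorem locbdd_of_continuousAt {f g : V → ℝ} {x : V} (h : ∀ y, |f y| ≤ g y)
    (hg : ContinuousAt g x) : ∃ δ > 0, ∃ M, ∀ y ∈ ball x δ, |f y| ≤ M := by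
  have h1 : ∀ᶠ y in 𝓝 x, g y < g x + 1 := hg.eventually (gt_mem_nhds (by linarith))
  obtain ⟨δ, hδ, h2⟩ := Metric.eventually_nhds_iff_ball.mp h1
  exact ⟨δ, hδ, g x + 1, fun y hy => (h y).trans (h2 y hy).le⟩

/-! ### Thomson's inequality -/

theorem thomson_BC {S : Set V} (hS : S.Finite) {k : V → ℝ} {k' : V → V} (hk : TrialK S k k')
    {f : V → ℝ} (hf : BC f) :
    ∫ x, f x * k x ≤ (8 * Real.pi)⁻¹ * (∫ x, ‖k' x‖ ^ 2) + 1 / 2 * En f f := by
  obtain ⟨e1, e2⟩ := energy_BC hf
  obtain ⟨w1, w2⟩ := weak_L2 hS hk hf.integrable hf.meas e1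
  have h1 : ∫ x, ⟪gradV f x, k' x⟫ ≤ ∫ x, (1 / 2 * ‖gradV f x‖ ^ 2 + 1 / 2 * ‖k' x‖ ^ 2) := by
    refine integral_mono w1 ((e1.const_mul _).add (hk.sq.const_mul _)) fun x => ?_
    simp only
    have := real_inner_le_norm (gradV f x) (k' x)
    nlinarith [sq_nonneg (‖gradV f x‖ - ‖k' x‖)]
  rw [integral_add (e1.const_mul _) (hk.sq.const_mul _), integral_const_mul, integral_const_mul,
    e2, w2] at h1
  have hpi := Real.pi_pos
  have h2 : ∫ x, f x * k x = (4 * Real.pi)⁻¹ * (4 * Real.pi * ∫ x, f x * k x) := by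
    rw [← mul_assoc, inv_mul_cancel₀ (by positivity), one_mul]
  rw [h2]
  refine (mul_le_mul_of_nonneg_left h1 (by positivity)).trans (le_of_eq ?_)
  field_simp
  ring

theorem En_eq_prod {f g : V → ℝ} (hf : TC f) (hg : TC g) :
    En f g = ∫ p : V × V, f p.1 * (‖p.1 - p.2‖⁻¹ * g p.2) ∂(volume.prod volume) := by
  rw [integral_prod _ (hf.prod_integrable hg)]
  unfold En pot
  refine integral_congr_ae (Eventually.of_forall fun x => ?_)
  simp only
  rw [integral_const_mul]

theorem trunc_TC {f : V → ℝ} (hf : TC f) (n : ℕ) : TC (trunc f n) :=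
  (trunc_BC hf.meas hf.nonneg n).toTC (trunc_nonneg hf.nonneg n)

theorem En_trunc_tendsto {f g : V → ℝ} (hf : TC f) (hg : TC g) :
    Tendsto (fun n => En (trunc f n) (trunc g n)) atTop (𝓝 (En f g)) := by
  have h1 : ∀ n, En (trunc f n) (trunc g n) = ∫ p : V × V,
      trunc f n p.1 * (‖p.1 - p.2‖⁻¹ * trunc g n p.2) ∂(volume.prod volume) := fun n =>
    En_eq_prod (trunc_TC hf n) (trunc_TC hg n)
  simp_rw [h1]
  rw [En_eq_prod hf hg]
  refine tendsto_integral_of_dominated_convergence
    (fun p : V × V => f p.1 * (‖p.1 - p.2‖⁻¹ * g p.2))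
    (fun n => ((trunc_TC hf n).prod_integrable (trunc_TC hg n)).aestronglyMeasurable)
    (hf.prod_integrable hg) (fun n => Eventually.of_forall fun p => ?_)
    (Eventually.of_forall fun p => ?_)
  · have a1 := trunc_nonneg hf.nonneg n p.1
    have a2 := trunc_nonneg hg.nonneg n p.2
    rw [Real.norm_of_nonneg (by positivity)]
    refine mul_le_mul (trunc_le hf.nonneg n _) ?_ (by positivity) (hf.nonneg _)
    exact mul_le_mul_of_nonneg_left (trunc_le hg.nonneg n _) (by positivity)
  · exact (trunc_tendsto f p.1).mul ((trunc_tendsto g p.2).const_mul _)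

theorem trunc_mul_tendsto {f k : V → ℝ} (hf : TC f) (hk : Measurable k) {B : ℝ}
    (hB : ∀ x, |k x| ≤ B) :
    Tendsto (fun n => ∫ x, trunc f n x * k x) atTop (𝓝 (∫ x, f x * k x)) := by
  refine tendsto_integral_of_dominated_convergence (fun x => f x * B)
    (fun n => ((trunc_TC hf n).meas.mul hk).aestronglyMeasurable) (hf.int.mul_const _)
    (fun n => Eventually.of_forall fun x => ?_) (Eventually.of_forall fun x => ?_)
  · rw [norm_mul, Real.norm_of_nonneg (trunc_nonneg hf.nonneg n x), Real.norm_eq_abs]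
    exact mul_le_mul (trunc_le hf.nonneg n x) (hB x) (abs_nonneg _) (hf.nonneg x)
  · exact (trunc_tendsto f x).mul_const _

/-- Thomson's inequality for differences of admissible densities -/
theorem thomson {S : Set V} (hS : S.Finite) {k : V → ℝ} {k' : V → V} (hk : TrialK S k k')
    {σ τ : V → ℝ} (hσ : TC σ) (hτ : TC τ) :
    ∫ x, (σ x - τ x) * k x ≤ (8 * Real.pi)⁻¹ * (∫ x, ‖k' x‖ ^ 2) +
      1 / 2 * (En σ σ - 2 * En σ τ + En τ τ) := by
  obtain ⟨B, hB⟩ := hk.bdd
  have hkm := hk.cont.measurable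
  have hbσ : ∀ n, BC (trunc σ n) := fun n => trunc_BC hσ.meas hσ.nonneg n
  have hbτ : ∀ n, BC (trunc τ n) := fun n => trunc_BC hτ.meas hτ.nonneg n
  have hik : ∀ {f : V → ℝ}, TC f → Integrable (fun x => f x * k x) := fun {f} hf => by
    refine (hf.int.mul_const B).mono' (hf.meas.mul hkm).aestronglyMeasurable
      (Eventually.of_forall fun x => ?_)
    rw [norm_mul, Real.norm_of_nonneg (hf.nonneg x), Real.norm_eq_abs]
    exact mul_le_mul_of_nonneg_left (hB x) (hf.nonneg x)
  have hn : ∀ n, (∫ x, trunc σ n x * k x) - (∫ x, trunc τ n x * k x) ≤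
      (8 * Real.pi)⁻¹ * (∫ x, ‖k' x‖ ^ 2) + 1 / 2 * (En (trunc σ n) (trunc σ n) -
        2 * En (trunc σ n) (trunc τ n) + En (trunc τ n) (trunc τ n)) := by
    intro n
    have h := thomson_BC hS hk ((hbσ n).sub (hbτ n))
    rw [En_sub_left (hbσ n) (hbτ n) ((hbσ n).sub (hbτ n)), En_sub_right (hbσ n) (hbσ n) (hbτ n),
      En_sub_right (hbτ n) (hbσ n) (hbτ n), En_symm (hbτ n) (hbσ n)] at h
    have e : ∫ x, (trunc σ n x - trunc τ n x) * k x =
        (∫ x, trunc σ n x * k x) - ∫ x, trunc τ n x * k x := by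
      rw [← integral_sub (hik (trunc_TC hσ n)) (hik (trunc_TC hτ n))]
      refine integral_congr_ae (Eventually.of_forall fun x => ?_)
      simp only
      ring
    rw [e] at h
    refine h.trans (le_of_eq ?_)
    ring
  have e2 : ∫ x, (σ x - τ x) * k x = (∫ x, σ x * k x) - ∫ x, τ x * k x := by
    rw [← integral_sub (hik hσ) (hik hτ)]
    refine integral_congr_ae (Eventually.of_forall fun x => ?_)
    simp only
    ring
  rw [e2]
  refine le_of_tendsto_of_tendsto' ((trunc_mul_tendsto hσ hkm hB).sub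
    (trunc_mul_tendsto hτ hkm hB)) (Tendsto.const_add _ (Tendsto.const_mul _
    (((En_trunc_tendsto hσ hσ).sub ((En_trunc_tendsto hσ hτ).const_mul 2)).add
      (En_trunc_tendsto hτ hτ)))) hn

end dim3

end Pool.Agent.TF

end

section
/-! The weak Poisson equation for point charges and trial functions; pointwise bounds for the
gradient of potentials of densities with singularities of order `3/2` at the nuclei. -/

set_option linter.unusedSectionVars false

set_option linter.unusedVariables false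

set_option linter.style.haveILetI false

namespace Pool.Agent.TF

open MeasureTheory Set Metric Filter Topology

open scoped ENNReal NNReal RealInnerProductSpace Gradient

variable {V : Type*} [NormedAddCommGroup V] [InnerProductSpace ℝ V] [FiniteDimensional ℝ V]
  [MeasurableSpace V] [BorelSpace V]

section dim3

variable [hd : Fact (Module.finrank ℝ V = 3)]

/-- gradient of `|x - c|⁻¹` -/
noncomputable def gradP (c x : V) : V := -((‖x - c‖ ^ 3)⁻¹ • (x - c))

theorem gradP_norm (c x : V) : ‖gradP c x‖ = (‖x - c‖ ^ 2)⁻¹ := by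
  unfold gradP
  rw [norm_neg, norm_kv]

theorem gradP_meas (c : V) : Measurable (gradP c) :=
  (measurable_kv.comp (measurable_id.sub measurable_const)).neg

theorem hasGradientAt_inv_norm {c x : V} (hx : x ≠ c) :
    HasGradientAt (fun y => ‖y - c‖⁻¹) (gradP c x) x := by
  have h0 : 0 < ‖x - c‖ := norm_pos_iff.mpr (sub_ne_zero.mpr hx)
  have h1 : HasFDerivAt (fun y : V => ‖y - c‖ ^ 2) ((2 : ℝ) • innerSL ℝ (x - c)) x := by
    have h2 : HasFDerivAt (fun y : V => ‖y‖ ^ 2) ((2 : ℝ) • innerSL ℝ (x - c)) (x - c) := by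
      refine (hasStrictFDerivAt_norm_sq (x - c)).hasFDerivAt.congr_fderiv ?_
      ext y
      simp
    exact h2.comp x ((hasFDerivAt_id x).sub_const c)
  have h3 : HasDerivAt (fun t : ℝ => (√t)⁻¹) (-(1 / 2) * (√(‖x - c‖ ^ 2) ^ 3)⁻¹) (‖x - c‖ ^ 2) := by
    have h4 : HasDerivAt (fun t : ℝ => √t) (1 / (2 * √(‖x - c‖ ^ 2))) (‖x - c‖ ^ 2) :=
      Real.hasDerivAt_sqrt (by positivity)
    have h5 := h4.fun_inv (by positivity)
    refine h5.congr_deriv ?_
    rw [Real.sqrt_sq h0.le]
    field_simp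
  have h6 := HasDerivAt.comp_hasFDerivAt (h₂ := fun t : ℝ => (√t)⁻¹) x h3 h1
  have h7 : HasFDerivAt (fun y => ‖y - c‖⁻¹) ((-(1 / 2) * (√(‖x - c‖ ^ 2) ^ 3)⁻¹) •
      ((2 : ℝ) • innerSL ℝ (x - c))) x := by
    refine h6.congr_of_eventuallyEq (Eventually.of_forall fun y => ?_)
    simp only [Function.comp]
    rw [Real.sqrt_sq (norm_nonneg _)]
  rw [hasGradientAt_iff_hasFDerivAt]
  refine h7.congr_fderiv ?_
  ext y
  unfold gradP
  rw [Real.sqrt_sq h0.le]
  simp only [smul_apply, smul_eq_mul, innerSL_apply_apply, InnerProductSpace.toDual_apply_apply,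
    inner_neg_left, real_inner_smul_left]
  ring

/-- regularised point charge -/
theorem div_rep_at {ε : ℝ} (hε : 0 < ε) (c : V) {u : V → ℝ} {C : ℝ≥0} (hu : LipschitzWith C u)
    (hc : HasCompactSupport u) :
    ∫ x, ⟪(√(‖x - c‖ ^ 2 + ε ^ 2) ^ 3)⁻¹ • (x - c), ∇ u x⟫ =
      ∫ x, -(3 * ε ^ 2 * (√(‖x - c‖ ^ 2 + ε ^ 2) ^ 5)⁻¹) * u x := by
  set v : V → ℝ := fun x => u (x + c) with hv
  have hvl : LipschitzWith C v := by
    have h2 : LipschitzWith 1 (fun x : V => x + c) := (isometry_add_right c).lipschitz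
    have := hu.comp h2
    rwa [mul_one] at this
  have hvc : HasCompactSupport v := hc.comp_homeomorph (Homeomorph.addRight c)
  have h := div_rep hε hvl hvc
  have hg : ∀ x, ∇ v x = ∇ u (x + c) := by
    intro x
    unfold gradient
    rw [hv, fderiv_comp_add_right]
  rw [← integral_add_right_eq_self (fun x => ⟪(√(‖x - c‖ ^ 2 + ε ^ 2) ^ 3)⁻¹ • (x - c), ∇ u x⟫) c,
    ← integral_add_right_eq_self
      (fun x => -(3 * ε ^ 2 * (√(‖x - c‖ ^ 2 + ε ^ 2) ^ 5)⁻¹) * u x) c]
  simp only [add_sub_cancel_right, real_inner_smul_left]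
  simp_rw [hg] at h
  rw [h, ← integral_neg]
  refine integral_congr_ae (Eventually.of_forall fun x => ?_)
  simp only [hv]
  ring

theorem k5e_integrable {ε : ℝ} (hε : 0 < ε) (c : V) :
    Integrable (fun x : V => -(3 * ε ^ 2 * (√(‖x - c‖ ^ 2 + ε ^ 2) ^ 5)⁻¹)) := by
  have h1 := ((k5_integrable V).comp_smul (R := ε⁻¹) (by positivity)).const_mul (ε ^ 3)⁻¹
  have h2 : Integrable (fun x : V => 3 * ε ^ 2 * (√(‖x‖ ^ 2 + ε ^ 2) ^ 5)⁻¹) := by
    refine h1.congr (Eventually.of_forall fun x => ?_)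
    simp only
    have e1 : √(‖x‖ ^ 2 + ε ^ 2) = ε * √(‖ε⁻¹ • x‖ ^ 2 + 1) := by
      rw [norm_smul, Real.norm_of_nonneg (by positivity : (0 : ℝ) ≤ ε⁻¹), mul_pow]
      rw [show ‖x‖ ^ 2 + ε ^ 2 = ε ^ 2 * (ε⁻¹ ^ 2 * ‖x‖ ^ 2 + 1) by field_simp,
        Real.sqrt_mul (by positivity), Real.sqrt_sq hε.le]
    rw [e1]
    have hp : 0 < √(‖ε⁻¹ • x‖ ^ 2 + 1) := Real.sqrt_pos.mpr (by positivity)
    generalize √(‖ε⁻¹ • x‖ ^ 2 + 1) = s at hp
    field_simp
  exact (h2.comp_sub_right c).neg

theorem rhs_scale_at {ε : ℝ} (hε : 0 < ε) (c : V) (k : V → ℝ) :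
    ∫ x, -(3 * ε ^ 2 * (√(‖x - c‖ ^ 2 + ε ^ 2) ^ 5)⁻¹) * k x =
      -∫ w, 3 * (√(‖w‖ ^ 2 + 1) ^ 5)⁻¹ * k (ε • w + c) := by
  rw [← rhs_scale hε (fun x => k (x + c)), ← integral_neg,
    ← integral_add_right_eq_self
      (fun x => -(3 * ε ^ 2 * (√(‖x - c‖ ^ 2 + ε ^ 2) ^ 5)⁻¹) * k x) c]
  simp only [add_sub_cancel_right]
  refine integral_congr_ae (Eventually.of_forall fun x => ?_)
  simp only
  ring

/-- the weak Poisson equation of a point charge for trial functions -/
theorem weak_point {S : Set V} (hS : S.Finite) {k : V → ℝ} {k' : V → V} (hk : TrialK S k k')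
    (c : V) (hI : Integrable fun x => (‖x - c‖ ^ 2)⁻¹ * ‖k' x‖) :
    Integrable (fun x => ⟪gradP c x, k' x⟫) ∧ ∫ x, ⟪gradP c x, k' x⟫ = 4 * Real.pi * k c := by
  haveI := nontriv (V := V)
  have hS' : (insert 0 S).Finite := hS.insert 0
  have hne : (insert (0 : V) S).Nonempty := insert_nonempty _ _
  have hk2 := hk.mono (subset_insert (0 : V) S)
  obtain ⟨B, hB⟩ := hk.bdd
  have hB0 : 0 ≤ B := (abs_nonneg _).trans (hB 0)
  set A : ℝ → V → V := fun ε x => (√(‖x - c‖ ^ 2 + ε ^ 2) ^ 3)⁻¹ • (x - c) with hA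
  have hAm : ∀ ε, Measurable (A ε) := by
    intro ε
    have h1 : Measurable (fun x : V => (√(‖x - c‖ ^ 2 + ε ^ 2) ^ 3)⁻¹) := by
      have : Continuous (fun x : V => √(‖x - c‖ ^ 2 + ε ^ 2) ^ 3) := by fun_prop
      exact this.measurable.inv
    exact h1.smul (measurable_id.sub measurable_const)
  have hsq : ∀ ε : ℝ, ∀ x : V, ‖x - c‖ ≤ √(‖x - c‖ ^ 2 + ε ^ 2) := fun ε x => by
    refine Real.le_sqrt_of_sq_le ?_
    nlinarith [sq_nonneg ε]
  have hsqe : ∀ ε : ℝ, 0 < ε → ∀ x : V, ε ≤ √(‖x - c‖ ^ 2 + ε ^ 2) := fun ε hε x => by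
    refine Real.le_sqrt_of_sq_le ?_
    nlinarith [sq_nonneg ‖x - c‖]
  have hAn : ∀ ε : ℝ, 0 < ε → ∀ x, ‖A ε x‖ ≤ (‖x - c‖ ^ 2)⁻¹ := by
    intro ε hε x
    simp only [hA]
    rw [norm_smul, norm_inv, norm_pow, Real.norm_of_nonneg (Real.sqrt_nonneg _)]
    by_cases hx : ‖x - c‖ = 0
    · rw [hx]; simp
    have h0 : 0 < ‖x - c‖ := lt_of_le_of_ne (norm_nonneg _) (Ne.symm hx)
    calc (√(‖x - c‖ ^ 2 + ε ^ 2) ^ 3)⁻¹ * ‖x - c‖ ≤ (‖x - c‖ ^ 3)⁻¹ * ‖x - c‖ := by
          refine mul_le_mul_of_nonneg_right ?_ h0.le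
          exact inv_anti₀ (by positivity) (pow_le_pow_left₀ h0.le (hsq ε x) 3)
      _ = _ := by field_simp
  have hAb : ∀ ε : ℝ, 0 < ε → ∀ x, ‖A ε x‖ ≤ (ε ^ 2)⁻¹ := by
    intro ε hε x
    simp only [hA]
    rw [norm_smul, norm_inv, norm_pow, Real.norm_of_nonneg (Real.sqrt_nonneg _)]
    have h1 := hsq ε x
    have h2 := hsqe ε hε x
    have h3 : 0 < √(‖x - c‖ ^ 2 + ε ^ 2) := hε.trans_le h2
    calc (√(‖x - c‖ ^ 2 + ε ^ 2) ^ 3)⁻¹ * ‖x - c‖
        ≤ (√(‖x - c‖ ^ 2 + ε ^ 2) ^ 3)⁻¹ * √(‖x - c‖ ^ 2 + ε ^ 2) :=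
          mul_le_mul_of_nonneg_left h1 (by positivity)
      _ = (√(‖x - c‖ ^ 2 + ε ^ 2) ^ 2)⁻¹ := by field_simp
      _ ≤ _ := inv_anti₀ (by positivity) (pow_le_pow_left₀ hε.le h2 2)
  have hcWi : Integrable (fun x => cW (insert (0 : V) S) x) := by
    refine ((cW_sq_integrable hS' hne).const_mul 2).mono' (cW_meas _).aestronglyMeasurable
      (Eventually.of_forall fun x => ?_)
    rw [Real.norm_of_nonneg (cW_nonneg _ _)]
    exact cW_le _ _
  have hweak : ∀ ε : ℝ, 0 < ε → ∫ x, ⟪A ε x, k' x⟫ =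
      -∫ w, 3 * (√(‖w‖ ^ 2 + 1) ^ 5)⁻¹ * k (ε • w + c) := by
    intro ε hε
    rw [← rhs_scale_at hε c k]
    refine (weak_K hS'.isClosed hne (finite_null hS') hk2 (A := A ε)
      (g := fun x => -(3 * ε ^ 2 * (√(‖x - c‖ ^ 2 + ε ^ 2) ^ 5)⁻¹)) (hAm ε).aestronglyMeasurable
      (k5e_integrable hε c) (fun u C hu hc => div_rep_at hε c hu hc) ?_ ?_).2
    · refine hI.mono' ((hAm ε).aestronglyMeasurable.norm.mul hk.meas.norm)
        (Eventually.of_forall fun x => ?_)
      rw [Real.norm_of_nonneg (by positivity)]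
      exact mul_le_mul_of_nonneg_right (hAn ε hε x) (norm_nonneg _)
    · refine (hcWi.const_mul (ε ^ 2)⁻¹).mono'
        ((hAm ε).aestronglyMeasurable.norm.mul (cW_meas _).aestronglyMeasurable)
        (Eventually.of_forall fun x => ?_)
      have := cW_nonneg (insert (0 : V) S) x
      rw [Real.norm_of_nonneg (by positivity)]
      exact mul_le_mul_of_nonneg_right (hAb ε hε x) this
  set e : ℕ → ℝ := fun n => 1 / ((n : ℝ) + 1) with he
  have he0 : ∀ n, 0 < e n := fun n => by positivity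
  have hel : Tendsto e atTop (𝓝 0) := tendsto_one_div_add_atTop_nhds_zero_nat
  have hne' : ∀ᵐ x : V, x ≠ c := by rw [ae_iff]; simp
  have hL : Tendsto (fun n => ∫ x, ⟪A (e n) x, k' x⟫) atTop
      (𝓝 (∫ x, ⟪-gradP c x, k' x⟫)) := by
    refine tendsto_integral_of_dominated_convergence (fun x => (‖x - c‖ ^ 2)⁻¹ * ‖k' x‖)
      (fun n => (hAm _).aestronglyMeasurable.inner hk.meas) hI
      (fun n => Eventually.of_forall fun x => ?_) ?_
    · rw [Real.norm_eq_abs]
      exact (abs_real_inner_le_norm _ _).trans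
        (mul_le_mul_of_nonneg_right (hAn _ (he0 n) x) (norm_nonneg _))
    · filter_upwards [hne'] with x hx
      have hn : 0 < ‖x - c‖ := norm_pos_iff.mpr (sub_ne_zero.mpr hx)
      refine Tendsto.inner ?_ tendsto_const_nhds
      unfold gradP
      rw [neg_neg]
      refine Tendsto.smul ?_ tendsto_const_nhds
      have h1 : Tendsto (fun n => √(‖x - c‖ ^ 2 + e n ^ 2) ^ 3) atTop
          (𝓝 (√(‖x - c‖ ^ 2 + 0 ^ 2) ^ 3)) :=
        (((Real.continuous_sqrt.tendsto _).comp ((hel.pow 2).const_add _))).pow 3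
      have e1 : √(‖x - c‖ ^ 2 + 0 ^ 2) = ‖x - c‖ := by
        rw [zero_pow two_ne_zero, add_zero, Real.sqrt_sq hn.le]
      rw [e1] at h1
      exact h1.inv₀ (by positivity)
  have hR : Tendsto (fun n => -∫ w : V, 3 * (√(‖w‖ ^ 2 + 1) ^ 5)⁻¹ * k (e n • w + c)) atTop
      (𝓝 (-∫ w : V, 3 * (√(‖w‖ ^ 2 + 1) ^ 5)⁻¹ * k c)) := by
    refine Tendsto.neg ?_
    refine tendsto_integral_of_dominated_convergence
      (fun w => 3 * (√(‖w‖ ^ 2 + 1) ^ 5)⁻¹ * B) (fun n => ?_)
      ((k5_integrable V).mul_const B) (fun n => Eventually.of_forall fun w => ?_)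
      (Eventually.of_forall fun w => ?_)
    · have h1 : Measurable (fun w : V => 3 * (√(‖w‖ ^ 2 + 1) ^ 5)⁻¹) := by
        have : Continuous (fun x : V => √(‖x‖ ^ 2 + 1) ^ 5) := by fun_prop
        exact measurable_const.mul this.measurable.inv
      exact (h1.mul (hk.cont.comp (by fun_prop : Continuous fun w : V =>
        e n • w + c)).measurable).aestronglyMeasurable
    · rw [norm_mul, Real.norm_of_nonneg (by positivity)]
      exact mul_le_mul_of_nonneg_left (hB _) (by positivity)
    · refine Tendsto.const_mul _ ?_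
      have h1 : Tendsto (fun n => e n • w + c) atTop (𝓝 ((0 : ℝ) • w + c)) :=
        (hel.smul_const w).add_const c
      rw [zero_smul, zero_add] at h1
      exact (hk.cont.tendsto c).comp h1
  have heq : (fun n => ∫ x, ⟪A (e n) x, k' x⟫) =
      fun n => -∫ w : V, 3 * (√(‖w‖ ^ 2 + 1) ^ 5)⁻¹ * k (e n • w + c) :=
    funext fun n => hweak _ (he0 n)
  rw [heq] at hL
  have h9 := tendsto_nhds_unique hL hR
  rw [integral_mul_const, k5_integral] at h9
  refine ⟨?_, ?_⟩
  · refine hI.mono' ((gradP_meas c).aestronglyMeasurable.inner hk.meas)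
      (Eventually.of_forall fun x => ?_)
    rw [Real.norm_eq_abs, ← gradP_norm c x]
    exact abs_real_inner_le_norm _ _
  · have h10 : ∫ x, ⟪-gradP c x, k' x⟫ = -∫ x, ⟪gradP c x, k' x⟫ := by
      rw [← integral_neg]
      refine integral_congr_ae (Eventually.of_forall fun x => ?_)
      simp only
      rw [inner_neg_left]
    rw [h10] at h9
    linarith

end dim3

end Pool.Agent.TF

end

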