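import Mathlib
import Pool.Agent.Lib.MP_9cf0c9_mp.Tr.GradBound
import Pool.Agent.Lib.MP_9cf0c9_mp.Tr.RadA
import Pool.Agent.Lib.MP_9cf0c9_mp.Tr.WeakB
/-! Functions which are locally Lipschitz off the nuclei, with gradient bounded by
`C |x - R i|^(-3/4)` at the nuclei and by `C |x|⁻²` at infinity, are trial functions, and their
gradients can be paired with the fields of point charges. -/

set_option autoImplicit false

set_option linter.unusedSectionVars false

set_option linter.unusedVariables false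

namespace Pool.Agent.TF

open MeasureTheory Set Metric Filter Topology Module

open scoped ENNReal NNReal RealInnerProductSpace Gradient

variable {V : Type*} [NormedAddCommGroup V] [InnerProductSpace ℝ V] [FiniteDimensional ℝ V]
  [MeasurableSpace V] [BorelSpace V]

variable {ι : Type*} [Fintype ι]

/-! ### locally Lipschitz functions off the nuclei -/

/-- the gradient of a function which is Lipschitz near a point -/
theorem norm_gradient_le_of_lipOn {u : V → ℝ} {C : ℝ≥0} {t : Set V} {x : V} (ht : t ∈ 𝓝 x)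
    (h : LipschitzOnWith C u t) : ‖∇ u x‖ ≤ C := by
  rw [norm_gradient]
  exact norm_fderiv_le_of_lipschitzOn ℝ ht h

theorem grad_bound_compact {u : V → ℝ} {K : Set V} (hK : IsCompact K)
    (h : ∀ x ∈ K, LipAt u x) : ∃ B : ℝ, 0 ≤ B ∧ ∀ x ∈ K, ‖∇ u x‖ ≤ B := by
  have h1 : ∀ x ∈ K, ∃ t ∈ 𝓝[K] x, ∃ B : ℝ, 0 ≤ B ∧ ∀ y ∈ t, ‖∇ u y‖ ≤ B := by
    intro x hx
    obtain ⟨C, t, ht, hC⟩ := h x hx
    refine ⟨interior t, mem_nhdsWithin_of_mem_nhds (isOpen_interior.mem_nhds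
      (mem_interior_iff_mem_nhds.mpr ht)), C, C.coe_nonneg, fun y hy => ?_⟩
    exact norm_gradient_le_of_lipOn (mem_interior_iff_mem_nhds.mp hy) hC
  refine hK.induction_on (p := fun s => ∃ B : ℝ, 0 ≤ B ∧ ∀ x ∈ s, ‖∇ u x‖ ≤ B) ?_ ?_ ?_ h1
  · exact ⟨0, le_rfl, fun x hx => absurd hx (notMem_empty x)⟩
  · rintro s t hst ⟨B, hB0, hB⟩
    exact ⟨B, hB0, fun x hx => hB x (hst hx)⟩
  · rintro s t ⟨B, hB0, hB⟩ ⟨B', hB'0, hB'⟩
    refine ⟨max B B', le_max_of_le_left hB0, fun x hx => ?_⟩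
    rcases hx with hx | hx
    · exact (hB x hx).trans (le_max_left _ _)
    · exact (hB' x hx).trans (le_max_right _ _)

/-- locally Lipschitz at every point off the nuclei -/
theorem locLip_of_lipAt {R : ι → V} {u : V → ℝ} (h : ∀ x, (∀ i, x ≠ R i) → LipAt u x) :
    Flux.LocLip R u := by
  intro K hK hR
  have hll : LocallyLipschitzOn K u := by
    intro x hx
    obtain ⟨C, t, ht, hC⟩ := h x (fun i hi => hR i (hi ▸ hx))
    exact ⟨C, t, mem_nhdsWithin_of_mem_nhds ht, hC⟩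
  exact hll.exists_lipschitzOnWith_of_compact hK

theorem lipAt_range {R : ι → V} {u : V → ℝ} (h : ∀ x, (∀ i, x ≠ R i) → LipAt u x) :
    ∀ x, x ∉ range R → LipAt u x := fun x hx => h x fun i hi => hx ⟨i, hi.symm⟩

theorem ae_off_range (R : ι → V) [Nontrivial V] : ∀ᵐ x : V, ∀ i, x ≠ R i := by
  rw [ae_all_iff]
  intro i
  rw [ae_iff]
  simp

/-! ### the majorant -/

section dim3

variable [hd : Fact (Module.finrank ℝ V = 3)]

/-- the majorant of the gradients -/
noncomputable def Maj (R : ι → V) (x : V) : ℝ :=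
  (∑ i, (ball (R i) 1).indicator (fun y => (‖y - R i‖⁻¹) ^ (3 / 4 : ℝ)) x) + ((1 + ‖x‖) ^ 2)⁻¹

theorem Maj_nonneg (R : ι → V) (x : V) : 0 ≤ Maj R x :=
  add_nonneg (Finset.sum_nonneg fun i _ => indicator_nonneg (fun _ _ => by positivity) _)
    (by positivity)

theorem Maj_meas (R : ι → V) : Measurable (Maj R) := by
  unfold Maj
  refine Measurable.add (Finset.measurable_sum _ fun i _ => ?_) (by fun_prop)
  refine Measurable.indicator ?_ measurableSet_ball
  fun_prop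

theorem one_add_norm_integrable : Integrable fun x : V => ((1 + ‖x‖) ^ 4)⁻¹ := by
  have h := integrable_one_add_norm (E := V) (μ := volume) (r := 4) (by rw [hd.out]; norm_num)
  refine h.congr (Eventually.of_forall fun x => ?_)
  have h0 : 0 ≤ 1 + ‖x‖ := by positivity
  simp only
  rw [Real.rpow_neg h0]
  norm_cast

theorem ball_inv_sq_integrable (c : V) :
    Integrable ((ball c 1).indicator fun x : V => (‖x - c‖ ^ 2)⁻¹) := by
  have h1 : Integrable ((ball (0 : V) 1).indicator fun v => (‖v‖ ^ 2)⁻¹) :=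
    (integrable_indicator_iff measurableSet_ball).mpr (integrableOn_inv_sq 1)
  have h2 := h1.comp_sub_right c
  refine h2.congr (Eventually.of_forall fun x => ?_)
  simp only [indicator, mem_ball, dist_eq_norm, sub_zero]

theorem ball_114_integrable (c : V) :
    Integrable ((ball c 1).indicator fun x : V => (‖x - c‖⁻¹) ^ (11 / 4 : ℝ)) := by
  have h2 := (w114_integrable (V := V)).comp_sub_right c
  refine h2.congr (Eventually.of_forall fun x => ?_)
  simp only [w114, indicator, mem_ball, dist_eq_norm, sub_zero]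

theorem ball_one_integrable (c : V) : Integrable ((ball c 1).indicator fun _ : V => (1 : ℝ)) :=
  (integrable_indicator_iff measurableSet_ball).mpr
    (integrableOn_const measure_ball_lt_top.ne)

theorem Maj_sq_integrable (R : ι → V) : Integrable fun x => Maj R x ^ 2 := by
  classical
  have hI : Integrable (fun x : V => ((Fintype.card ι : ℝ) + 1) *
      ((∑ i, ((ball (R i) 1).indicator (fun x : V => (‖x - R i‖⁻¹) ^ (11 / 4 : ℝ)) x +
        (ball (R i) 1).indicator (fun _ : V => (1 : ℝ)) x)) + ((1 + ‖x‖) ^ 4)⁻¹)) := by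
    refine Integrable.const_mul (Integrable.add ?_ one_add_norm_integrable) _
    exact integrable_finsetSum _ fun i _ =>
      (ball_114_integrable (R i)).add (ball_one_integrable (R i))
  refine hI.mono' ((Maj_meas R).pow_const 2).aestronglyMeasurable
    (Eventually.of_forall fun x => ?_)
  rw [Real.norm_of_nonneg (by positivity)]
  -- Cauchy-Schwarz
  have hsq : Maj R x ^ 2 ≤ ((Fintype.card ι : ℝ) + 1) *
      ((∑ i, ((ball (R i) 1).indicator (fun y => (‖y - R i‖⁻¹) ^ (3 / 4 : ℝ)) x) ^ 2) +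
        (((1 + ‖x‖) ^ 2)⁻¹) ^ 2) := by
    have hs : (∑ i, (ball (R i) 1).indicator (fun y => (‖y - R i‖⁻¹) ^ (3 / 4 : ℝ)) x) ^ 2 ≤
        (Fintype.card ι : ℝ) *
          ∑ i, ((ball (R i) 1).indicator (fun y => (‖y - R i‖⁻¹) ^ (3 / 4 : ℝ)) x) ^ 2 := by
      have := sq_sum_le_card_mul_sum_sq (s := (Finset.univ : Finset ι))
        (f := fun i => (ball (R i) 1).indicator (fun y => (‖y - R i‖⁻¹) ^ (3 / 4 : ℝ)) x)
      simpa using this
    set A := ∑ i, (ball (R i) 1).indicator (fun y => (‖y - R i‖⁻¹) ^ (3 / 4 : ℝ)) x with hA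
    set Q := ∑ i, ((ball (R i) 1).indicator (fun y => (‖y - R i‖⁻¹) ^ (3 / 4 : ℝ)) x) ^ 2
      with hQ
    set b := ((1 + ‖x‖) ^ 2)⁻¹ with hb
    set n : ℝ := (Fintype.card ι : ℝ) with hn
    have hn0 : 0 ≤ n := Nat.cast_nonneg _
    have hQ0 : 0 ≤ Q := Finset.sum_nonneg fun i _ => sq_nonneg _
    show (A + b) ^ 2 ≤ (n + 1) * (Q + b ^ 2)
    rcases hn0.eq_or_lt with h0 | h0
    · have hA0 : A ^ 2 ≤ 0 := by rw [← h0, zero_mul] at hs; exact hs
      have hA1 : A = 0 := by nlinarith [sq_nonneg A]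
      rw [hA1, ← h0]
      nlinarith
    · have key : (A + b) ^ 2 ≤ (n + 1) * (A ^ 2 / n + b ^ 2) := by
        have h1 : 0 ≤ (A - n * b) ^ 2 / n := by positivity
        have h2 : (n + 1) * (A ^ 2 / n + b ^ 2) - (A + b) ^ 2 = (A - n * b) ^ 2 / n := by
          field_simp
          ring
        linarith
      have h3 : A ^ 2 / n ≤ Q := by rw [div_le_iff₀ h0]; linarith
      have h4 : (n + 1) * (A ^ 2 / n + b ^ 2) ≤ (n + 1) * (Q + b ^ 2) :=
        mul_le_mul_of_nonneg_left (by linarith) (by linarith)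
      linarith
  refine hsq.trans (mul_le_mul_of_nonneg_left (add_le_add (Finset.sum_le_sum fun i _ => ?_) ?_)
    (by positivity))
  · by_cases hx : x ∈ ball (R i) 1
    · rw [indicator_of_mem hx, indicator_of_mem hx, indicator_of_mem hx]
      set s := ‖x - R i‖⁻¹ with hs
      have hs0 : 0 ≤ s := by positivity
      rw [← Real.rpow_natCast, ← Real.rpow_mul hs0]
      norm_num
      rcases le_total s 1 with h1 | h1
      · have := Real.rpow_le_one hs0 h1 (show (0 : ℝ) ≤ 3 / 2 by norm_num)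
        have h3 : 0 ≤ s ^ (11 / 4 : ℝ) := Real.rpow_nonneg hs0 _
        linarith
      · have := Real.rpow_le_rpow_of_exponent_le h1 (show (3 / 2 : ℝ) ≤ 11 / 4 by norm_num)
        linarith
    · rw [indicator_of_notMem hx, indicator_of_notMem hx, indicator_of_notMem hx]
      norm_num
  · rw [inv_pow, ← pow_mul]

theorem Maj_point_integrable (R : ι → V) (c : V) :
    Integrable fun x => (‖x - c‖ ^ 2)⁻¹ * Maj R x := by
  classical
  have hI : Integrable (fun x : V =>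
      (∑ i, ((ball (R i) 1).indicator (fun x : V => (‖x - R i‖⁻¹) ^ (11 / 4 : ℝ)) x +
        ((ball c 1).indicator (fun x : V => (‖x - c‖⁻¹) ^ (11 / 4 : ℝ)) x +
        (ball (R i) 1).indicator (fun _ : V => (1 : ℝ)) x))) +
      ((ball c 1).indicator (fun x : V => (‖x - c‖ ^ 2)⁻¹) x +
        (2 + ‖c‖) ^ 2 * ((1 + ‖x‖) ^ 4)⁻¹)) := by
    refine Integrable.add (integrable_finsetSum _ fun i _ => ?_) ?_
    · exact (ball_114_integrable (R i)).add ((ball_114_integrable c).add (ball_one_integrable (R i)))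
    · exact (ball_inv_sq_integrable c).add (one_add_norm_integrable.const_mul _)
  have hm : Measurable fun x : V => (‖x - c‖ ^ 2)⁻¹ * Maj R x :=
    Measurable.mul (by fun_prop) (Maj_meas R)
  refine hI.mono' hm.aestronglyMeasurable (Eventually.of_forall fun x => ?_)
  rw [Real.norm_of_nonneg (mul_nonneg (by positivity) (Maj_nonneg R x))]
  unfold Maj
  rw [mul_add, Finset.mul_sum]
  refine add_le_add (Finset.sum_le_sum fun i _ => ?_) ?_
  · by_cases hx : x ∈ ball (R i) 1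
    · rw [indicator_of_mem hx, indicator_of_mem hx, indicator_of_mem hx]
      set s := ‖x - R i‖⁻¹ with hs
      set t := ‖x - c‖⁻¹ with ht
      have hs0 : 0 ≤ s := by positivity
      have ht0 : 0 ≤ t := by positivity
      have h1 : (‖x - c‖ ^ 2)⁻¹ = t ^ (2 : ℝ) := by
        rw [ht, Real.rpow_two, inv_pow]
      rw [h1]
      have h2 := rpow_mul_le (p := 2) (q := 3 / 4) ht0 hs0 (by norm_num) (by norm_num)
        (by norm_num)
      have h3 : (2 : ℝ) + 3 / 4 = 11 / 4 := by norm_num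
      rw [h3] at h2
      by_cases hc : x ∈ ball c 1
      · rw [indicator_of_mem hc]
        linarith
      · rw [indicator_of_notMem hc]
        have h4 : t ≤ 1 := by
          rw [mem_ball, dist_eq_norm, not_lt] at hc
          exact inv_le_one_of_one_le₀ hc
        have h5 : t ^ (11 / 4 : ℝ) ≤ 1 := Real.rpow_le_one ht0 h4 (by norm_num)
        linarith
    · rw [indicator_of_notMem hx, indicator_of_notMem hx, indicator_of_notMem hx, mul_zero]
      have : 0 ≤ (ball c 1).indicator (fun x : V => (‖x - c‖⁻¹) ^ (11 / 4 : ℝ)) x :=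
        indicator_nonneg (fun _ _ => by positivity) _
      linarith
  · have h0 : 1 ≤ (1 + ‖x‖) ^ 2 := one_le_pow₀ (by linarith [norm_nonneg x])
    by_cases hc : x ∈ ball c 1
    · rw [indicator_of_mem hc]
      have h1 : (‖x - c‖ ^ 2)⁻¹ * ((1 + ‖x‖) ^ 2)⁻¹ ≤ (‖x - c‖ ^ 2)⁻¹ * 1 :=
        mul_le_mul_of_nonneg_left (inv_le_one_of_one_le₀ h0) (by positivity)
      have h2 : 0 ≤ (2 + ‖c‖) ^ 2 * ((1 + ‖x‖) ^ 4)⁻¹ := by positivity
      linarith
    · rw [indicator_of_notMem hc, zero_add]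
      rw [mem_ball, dist_eq_norm, not_lt] at hc
      have h1 : 1 + ‖x‖ ≤ (2 + ‖c‖) * ‖x - c‖ := by
        have h2 : ‖x‖ ≤ ‖x - c‖ + ‖c‖ := by
          have := norm_add_le (x - c) c
          rwa [sub_add_cancel] at this
        nlinarith [norm_nonneg c]
      have h3 : 0 < ‖x - c‖ := by linarith
      have h4 : 0 < 1 + ‖x‖ := by positivity
      have h5 : (1 + ‖x‖) ^ 2 ≤ (2 + ‖c‖) ^ 2 * ‖x - c‖ ^ 2 := by
        rw [← mul_pow]
        exact pow_le_pow_left₀ h4.le h1 2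
      have h6 : (‖x - c‖ ^ 2)⁻¹ ≤ (2 + ‖c‖) ^ 2 * ((1 + ‖x‖) ^ 2)⁻¹ := by
        rw [inv_eq_one_div, div_le_iff₀ (by positivity), mul_assoc, mul_comm, mul_assoc,
          ← div_eq_inv_mul, le_div_iff₀ (by positivity), one_mul]
        linarith
      calc (‖x - c‖ ^ 2)⁻¹ * ((1 + ‖x‖) ^ 2)⁻¹
          ≤ ((2 + ‖c‖) ^ 2 * ((1 + ‖x‖) ^ 2)⁻¹) * ((1 + ‖x‖) ^ 2)⁻¹ :=
            mul_le_mul_of_nonneg_right h6 (by positivity)
        _ = (2 + ‖c‖) ^ 2 * ((1 + ‖x‖) ^ 4)⁻¹ := by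
            rw [mul_assoc, ← mul_inv, ← pow_add]

/-! ### trial functions -/

/-- local data imply the global bound of the gradient -/
theorem grad_le_Maj (R : ι → V) {u : V → ℝ} (hl : ∀ x, (∀ i, x ≠ R i) → LipAt u x)
    (hnuc : ∀ i, ∃ C δ : ℝ, 0 < δ ∧ ∀ᵐ x : V, ‖x - R i‖ < δ →
      ‖∇ u x‖ ≤ C * (‖x - R i‖⁻¹) ^ (3 / 4 : ℝ))
    (hinf : ∃ C N : ℝ, ∀ᵐ x : V, N ≤ ‖x‖ → ‖∇ u x‖ ≤ C * (‖x‖ ^ 2)⁻¹) :
    ∃ D : ℝ, 0 ≤ D ∧ ∀ᵐ x : V, ‖∇ u x‖ ≤ D * Maj R x := by
  classical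
  choose C δ hδ hC using hnuc
  obtain ⟨C', N, hN⟩ := hinf
  set N' : ℝ := max N 1 with hN'
  have hN'1 : 1 ≤ N' := le_max_right _ _
  -- a common radius
  set K : Set V := closedBall 0 N' \ ⋃ i, ball (R i) (min (δ i) 1) with hK
  have hKc : IsCompact K := (isCompact_closedBall 0 N').diff
    (isOpen_iUnion fun i => isOpen_ball)
  obtain ⟨B, hB0, hB⟩ := grad_bound_compact (u := u) hKc fun x hx => hl x fun i hi => by
    refine hx.2 (mem_iUnion.mpr ⟨i, ?_⟩)
    rw [hi]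
    exact mem_ball_self (lt_min (hδ i) one_pos)
  set D : ℝ := B * (1 + N') ^ 2 + 4 * |C'| + ∑ i, |C i| with hD
  have hS0 : 0 ≤ ∑ i, |C i| := Finset.sum_nonneg fun i _ => abs_nonneg _
  have hD0 : 0 ≤ D := by positivity
  refine ⟨D, hD0, ?_⟩
  filter_upwards [ae_all_iff.mpr hC, hN] with x h1 h2
  by_cases hx : ∃ i, x ∈ ball (R i) (min (δ i) 1)
  · obtain ⟨i, hi⟩ := hx
    rw [mem_ball, dist_eq_norm] at hi
    have h3 := h1 i (hi.trans_le (min_le_left _ _))
    have h4 : x ∈ ball (R i) 1 := by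
      rw [mem_ball, dist_eq_norm]; exact hi.trans_le (min_le_right _ _)
    have h5 : (‖x - R i‖⁻¹) ^ (3 / 4 : ℝ) ≤ Maj R x := by
      unfold Maj
      have h6 : (ball (R i) 1).indicator (fun y => (‖y - R i‖⁻¹) ^ (3 / 4 : ℝ)) x ≤
          ∑ i, (ball (R i) 1).indicator (fun y => (‖y - R i‖⁻¹) ^ (3 / 4 : ℝ)) x :=
        Finset.single_le_sum (f := fun i =>
          (ball (R i) 1).indicator (fun y => (‖y - R i‖⁻¹) ^ (3 / 4 : ℝ)) x)
          (fun j _ => indicator_nonneg (fun _ _ => by positivity) _) (Finset.mem_univ i)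
      rw [indicator_of_mem h4] at h6
      have : 0 ≤ ((1 + ‖x‖) ^ 2)⁻¹ := by positivity
      linarith
    calc ‖∇ u x‖ ≤ C i * (‖x - R i‖⁻¹) ^ (3 / 4 : ℝ) := h3
      _ ≤ |C i| * (‖x - R i‖⁻¹) ^ (3 / 4 : ℝ) :=
          mul_le_mul_of_nonneg_right (le_abs_self _) (by positivity)
      _ ≤ |C i| * Maj R x := mul_le_mul_of_nonneg_left h5 (abs_nonneg _)
      _ ≤ D * Maj R x := by
          refine mul_le_mul_of_nonneg_right ?_ (Maj_nonneg R x)
          have h7 : |C i| ≤ ∑ i, |C i| :=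
            Finset.single_le_sum (f := fun i => |C i|) (fun j _ => abs_nonneg _)
              (Finset.mem_univ i)
          have h8 : 0 ≤ B * (1 + N') ^ 2 := by positivity
          have h9 : 0 ≤ 4 * |C'| := by positivity
          rw [hD]; linarith
  · have hM : ((1 + ‖x‖) ^ 2)⁻¹ ≤ Maj R x := by
      unfold Maj
      have : 0 ≤ ∑ i, (ball (R i) 1).indicator (fun y => (‖y - R i‖⁻¹) ^ (3 / 4 : ℝ)) x :=
        Finset.sum_nonneg fun i _ => indicator_nonneg (fun _ _ => by positivity) _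
      linarith
    by_cases hx2 : ‖x‖ ≤ N'
    · have h3 : x ∈ K := by
        refine ⟨by simpa using hx2, ?_⟩
        rw [mem_iUnion]
        exact hx
      have h4 := hB x h3
      have h5 : 1 ≤ (1 + N') ^ 2 * ((1 + ‖x‖) ^ 2)⁻¹ := by
        rw [← div_eq_mul_inv, one_le_div (by positivity)]
        exact pow_le_pow_left₀ (by positivity) (by linarith) 2
      calc ‖∇ u x‖ ≤ B * 1 := by rw [mul_one]; exact h4
        _ ≤ B * ((1 + N') ^ 2 * ((1 + ‖x‖) ^ 2)⁻¹) := mul_le_mul_of_nonneg_left h5 hB0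
        _ = (B * (1 + N') ^ 2) * ((1 + ‖x‖) ^ 2)⁻¹ := by ring
        _ ≤ D * Maj R x := mul_le_mul (by rw [hD]; linarith [abs_nonneg C']) hM (by positivity) hD0
    · push Not at hx2
      have h3 := h2 ((le_max_left _ _).trans hx2.le)
      have hx1 : 1 < ‖x‖ := hN'1.trans_lt hx2
      have h4 : (‖x‖ ^ 2)⁻¹ ≤ 4 * ((1 + ‖x‖) ^ 2)⁻¹ := by
        rw [← div_eq_mul_inv, inv_eq_one_div, div_le_div_iff₀ (by positivity) (by positivity)]
        nlinarith
      calc ‖∇ u x‖ ≤ C' * (‖x‖ ^ 2)⁻¹ := h3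
        _ ≤ |C'| * (‖x‖ ^ 2)⁻¹ := mul_le_mul_of_nonneg_right (le_abs_self _) (by positivity)
        _ ≤ |C'| * (4 * ((1 + ‖x‖) ^ 2)⁻¹) := mul_le_mul_of_nonneg_left h4 (abs_nonneg _)
        _ = (4 * |C'|) * ((1 + ‖x‖) ^ 2)⁻¹ := by ring
        _ ≤ D * Maj R x := by
            refine mul_le_mul ?_ hM (by positivity) hD0
            have h8 : 0 ≤ B * (1 + N') ^ 2 := by positivity
            rw [hD]; linarith

/-- **trial functions from local data** -/
theorem trialK_of (R : ι → V) {u : V → ℝ} (hc : Continuous u)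
    (hdec : ∀ ε : ℝ, 0 < ε → ∃ r, ∀ x, r ≤ ‖x‖ → |u x| < ε)
    (hl : ∀ x, (∀ i, x ≠ R i) → LipAt u x)
    (hnuc : ∀ i, ∃ C δ : ℝ, 0 < δ ∧ ∀ᵐ x : V, ‖x - R i‖ < δ →
      ‖∇ u x‖ ≤ C * (‖x - R i‖⁻¹) ^ (3 / 4 : ℝ))
    (hinf : ∃ C N : ℝ, ∀ᵐ x : V, N ≤ ‖x‖ → ‖∇ u x‖ ≤ C * (‖x‖ ^ 2)⁻¹) :
    TrialK (range R) u (fun x => ∇ u x) ∧
      (∀ c, Integrable fun x => (‖x - c‖ ^ 2)⁻¹ * ‖∇ u x‖) ∧
      ∃ D : ℝ, 0 ≤ D ∧ ∀ᵐ x : V, ‖∇ u x‖ ≤ D * Maj R x := by
  have := nontriv (V := V)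
  obtain ⟨D, hD0, hD⟩ := grad_le_Maj R hl hnuc hinf
  have hgm : Measurable fun x => ∇ u x := measurable_gradient u
  refine ⟨⟨?_, hdec, hc, lipAt_range hl, ?_, ?_⟩, fun c => ?_, D, hD0, hD⟩
  · obtain ⟨r, hr⟩ := hdec 1 one_pos
    obtain ⟨B, hB⟩ := (isCompact_closedBall (0 : V) r).exists_bound_of_continuousOn hc.continuousOn
    refine ⟨max B 1, fun x => ?_⟩
    by_cases hx : r ≤ ‖x‖
    · exact (hr x hx).le.trans (le_max_right _ _)
    · push Not at hx
      exact (hB x (by simpa using hx.le)).trans (le_max_left _ _)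
  · have h1 := ae_diff_of_lipAt (u := u) (U := {x | ∀ i, x ≠ R i}) fun x hx => hl x hx
    filter_upwards [h1, ae_off_range R] with x hx hx2
    exact (hx hx2).hasGradientAt
  · refine ((Maj_sq_integrable R).const_mul (D ^ 2)).mono'
      (hgm.norm.pow_const 2).aestronglyMeasurable ?_
    filter_upwards [hD] with x hx
    rw [Real.norm_of_nonneg (by positivity), ← mul_pow]
    exact pow_le_pow_left₀ (norm_nonneg _) hx 2
  · have hm : Measurable fun x : V => (‖x - c‖ ^ 2)⁻¹ * ‖∇ u x‖ :=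
      Measurable.mul (by fun_prop) hgm.norm
    refine ((Maj_point_integrable R c).const_mul D).mono' hm.aestronglyMeasurable ?_
    filter_upwards [hD] with x hx
    rw [Real.norm_of_nonneg (by positivity)]
    calc (‖x - c‖ ^ 2)⁻¹ * ‖∇ u x‖ ≤ (‖x - c‖ ^ 2)⁻¹ * (D * Maj R x) :=
          mul_le_mul_of_nonneg_left hx (by positivity)
      _ = D * ((‖x - c‖ ^ 2)⁻¹ * Maj R x) := by ring

end dim3

end Pool.Agent.TF
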