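import Mathlib
import Pool.Agent.Lib.MP_9cf0c9_mp.Tr.ConvexCrit
import Pool.Agent.Lib.MP_9cf0c9_mp.Tr.EqDefs
import Pool.Agent.Lib.MP_9cf0c9_mp.Tr.PointSol
import Pool.Agent.Lib.MP_9cf0c9_mp.Tr.Trial

section
/-! The second variation of the Thomas-Fermi energy under dilations: a trial field `k` with
nonnegative second variation gives the support inequality for the energy as a function of the
volume. -/

set_option linter.unusedSectionVars false

set_option linter.unusedVariables false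

set_option linter.style.haveILetI false

namespace Pool.Agent.TF

open MeasureTheory Set Metric Filter Topology

open scoped ENNReal NNReal RealInnerProductSpace

/-! ### pointwise expansion -/

/-- the derivative of `tf` -/
noncomputable def gam (w : ℝ) : ℝ := 3 / 2 * √(max w 0)

theorem gam_nonneg (w : ℝ) : 0 ≤ gam w := by unfold gam; positivity

theorem gam_continuous : Continuous gam := by unfold gam; fun_prop

theorem gam_of_nonpos {w : ℝ} (hw : w ≤ 0) : gam w = 0 := by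
  unfold gam; rw [max_eq_right hw]; simp

theorem Phi_taylor (w η : ℝ) :
    Phi (w + η) ≤ Phi w + tf w * η + 1 / 2 * gam w * η ^ 2 + 3 * (η ^ 2 * √|η|) := by
  have hs0 : 0 ≤ √|η| := Real.sqrt_nonneg _
  rcases lt_or_ge w 0 with hw | hw
  · rw [Phi_of_nonpos hw.le, tf_of_nonpos hw.le, gam_of_nonpos hw.le]
    rcases le_total (w + η) 0 with h | h
    · rw [Phi_of_nonpos h]
      have : 0 ≤ η ^ 2 * √|η| := by positivity
      linarith
    · have hη : 0 ≤ η := by linarith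
      have h1 : Phi (w + η) ≤ Phi η := by
        unfold Phi
        have h2 : tf (w + η) ≤ tf η := tf_mono (by linarith)
        have h3 := tf_nonneg (w + η)
        have : (w + η) * tf (w + η) ≤ η * tf η := mul_le_mul (by linarith) h2 h3 hη
        linarith
      refine h1.trans ?_
      unfold Phi tf
      rw [max_eq_left hη, abs_of_nonneg hη]
      have : 0 ≤ η ^ 2 * √η := by positivity
      linarith
  · set A : ℝ := √w with hA
    have hA0 : 0 ≤ A := Real.sqrt_nonneg _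
    have hA2 : w = A ^ 2 := (Real.sq_sqrt hw).symm
    have e1 : Phi w = 2 / 5 * A ^ 5 := by
      unfold Phi tf; rw [max_eq_left hw, ← hA]; rw [hA2]; ring
    have e2 : tf w = A ^ 3 := by
      unfold tf; rw [max_eq_left hw, ← hA]; rw [hA2]; ring
    have e3 : gam w = 3 / 2 * A := by
      unfold gam; rw [max_eq_left hw, ← hA]
    rcases lt_or_ge (w + η) 0 with h | h
    · rw [Phi_of_nonpos h.le, e1, e2, e3]
      have hη : A ^ 2 < |η| := by
        rw [abs_of_neg (by linarith [sq_nonneg A])]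
        linarith
      have h2 : A ≤ √|η| := Real.le_sqrt_of_sq_le hη.le
      have hηn : η < 0 := by linarith [sq_nonneg A]
      have h3 : |η| = -η := abs_of_neg hηn
      have h4 : A ^ 2 * (A * (-η)) ≤ (-η) * (√|η| * (-η)) := by
        refine mul_le_mul (by rw [← h3]; exact hη.le) ?_ (mul_nonneg hA0 (by linarith)) (by linarith)
        exact mul_le_mul_of_nonneg_right h2 (by linarith)
      have h5 : 0 ≤ A ^ 5 := by positivity
      have h6 : 0 ≤ A * η ^ 2 := by positivity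
      have h7 : 0 ≤ η ^ 2 * √|η| := by positivity
      linarith
    · set B : ℝ := √(w + η) with hB
      have hB0 : 0 ≤ B := Real.sqrt_nonneg _
      have hB2 : w + η = B ^ 2 := (Real.sq_sqrt h).symm
      have e4 : Phi (w + η) = 2 / 5 * B ^ 5 := by
        unfold Phi tf; rw [max_eq_left h, ← hB]; rw [hB2]; ring
      have hη : η = B ^ 2 - A ^ 2 := by linarith
      rw [e4, e1, e2, e3]
      have key : 2 / 5 * A ^ 5 + A ^ 3 * η + 1 / 2 * (3 / 2 * A) * η ^ 2 =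
          2 / 5 * B ^ 5 - 1 / 20 * ((B - A) ^ 3 * (8 * B ^ 2 + 9 * A * B + 3 * A ^ 2)) := by
        rw [hη]; ring
      rw [key]
      rcases le_total B A with hBA | hBA
      · have h1 : (B - A) ^ 3 ≤ 0 := by
          have : 0 ≤ (A - B) ^ 3 := by
            have : 0 ≤ A - B := by linarith
            positivity
          linarith
        have h2 : 0 ≤ 8 * B ^ 2 + 9 * A * B + 3 * A ^ 2 := by positivity
        have h3 : (B - A) ^ 3 * (8 * B ^ 2 + 9 * A * B + 3 * A ^ 2) ≤ 0 :=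
          mul_nonpos_of_nonpos_of_nonneg h1 h2
        have h4 : 0 ≤ η ^ 2 * √|η| := by positivity
        linarith
      · have hd : 0 ≤ B - A := by linarith
        have hηp : 0 ≤ η := by rw [hη]; linarith [mul_nonneg hd (add_nonneg hB0 hA0)]
        have h1 : B - A ≤ √|η| := by
          refine Real.le_sqrt_of_sq_le ?_
          rw [abs_of_nonneg hηp, hη]
          linarith [mul_nonneg hd hA0]
        have h2 : η ^ 2 * (B - A) ≤ η ^ 2 * √|η| := mul_le_mul_of_nonneg_left h1 (by positivity)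
        have h3 : η ^ 2 * (B - A) = (B - A) ^ 3 * (A + B) ^ 2 := by rw [hη]; ring
        have h4 : (B - A) ^ 3 * (8 * B ^ 2 + 9 * A * B + 3 * A ^ 2) ≤
            (B - A) ^ 3 * (20 * (A + B) ^ 2) := by
          refine mul_le_mul_of_nonneg_left ?_ (by positivity)
          linarith [mul_nonneg hA0 hB0, sq_nonneg A, sq_nonneg B]
        have h6 : 0 ≤ η ^ 2 * √|η| := by positivity
        linarith

/-! ### dilations -/

section dil

variable {V : Type*} [NormedAddCommGroup V] [InnerProductSpace ℝ V] [FiniteDimensional ℝ V]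
  [MeasurableSpace V] [BorelSpace V] [hd : Fact (Module.finrank ℝ V = 3)]

variable {ι : Type*} [Fintype ι]

theorem TC.cmul {f : V → ℝ} (hf : TC f) {c : ℝ} (hc : 0 ≤ c) : TC (fun x => c * f x) := by
  refine ⟨hf.meas.const_mul c, fun x => mul_nonneg hc (hf.nonneg x), hf.int.const_mul c, ?_⟩
  refine (hf.int53.const_mul (c ^ (5 / 3 : ℝ))).congr (Eventually.of_forall fun x => ?_)
  simp only
  rw [Real.mul_rpow hc (hf.nonneg x)]

theorem En_cmul_left (c : ℝ) (f g : V → ℝ) : En (fun x => c * f x) g = c * En f g := by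
  unfold En
  rw [← integral_const_mul]
  exact integral_congr_ae (Eventually.of_forall fun x => by ring)

theorem En_cmul_right (c : ℝ) (f g : V → ℝ) : En f (fun x => c * g x) = c * En f g := by
  unfold En
  rw [← integral_const_mul]
  refine integral_congr_ae (Eventually.of_forall fun x => ?_)
  simp only
  rw [pot_const_mul]
  ring

theorem TC.dil {l : ℝ} (hl : 0 < l) {σ : V → ℝ} (hσ : TC σ) : TC (fun y => σ (l • y)) :=
  ⟨hσ.meas.comp (measurable_const_smul l), fun y => hσ.nonneg _,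
    (integrable_comp_smul_iff volume σ hl.ne').mpr hσ.int,
    (integrable_comp_smul_iff volume (fun x => σ x ^ (5 / 3 : ℝ)) hl.ne').mpr hσ.int53⟩

theorem pot_dil {l : ℝ} (hl : 0 < l) (σ : V → ℝ) (x : V) :
    pot σ (l • x) = l ^ 2 * pot (fun y => σ (l • y)) x := by
  have h := pot_scl hl σ x
  have h2 : pot (scl l σ) x = l ^ 3 * pot (fun y => σ (l • y)) x := by
    unfold scl
    exact pot_const_mul _ _ _
  rw [h2] at h
  refine mul_left_cancel₀ hl.ne' ?_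
  rw [← h]
  ring

theorem Ept_dil (φ₀ : ℝ) (z : ι → ℝ) (R : ι → V) {l : ℝ} (hl : 0 < l) {σ : V → ℝ} (hσ : TC σ) :
    Ept φ₀ z (fun i => l • R i) σ = l⁻¹ * Unuc z R +
      l ^ 3 * (3 / 5 * (∫ y, (σ (l • y)) ^ (5 / 3 : ℝ)) + φ₀ * (∫ y, σ (l • y)) -
        l⁻¹ * (∑ i, z i * pot (fun y => σ (l • y)) (R i)) +
        1 / 2 * l ^ 2 * En (fun y => σ (l • y)) (fun y => σ (l • y))) := by
  have h1 : ∫ y, (σ (l • y)) ^ (5 / 3 : ℝ) = (l ^ 3)⁻¹ * ∫ x, σ x ^ (5 / 3 : ℝ) :=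
    integral_smul3 hl (fun x => σ x ^ (5 / 3 : ℝ))
  have h2 : ∫ y, σ (l • y) = (l ^ 3)⁻¹ * ∫ x, σ x := integral_smul3 hl σ
  have h3 : En (fun y => σ (l • y)) (fun y => σ (l • y)) = (l ^ 5)⁻¹ * En σ σ := by
    unfold En
    have e1 : ∀ x, σ (l • x) * pot (fun y => σ (l • y)) x =
        (l ^ 2)⁻¹ * (fun x => σ x * pot σ x) (l • x) := by
      intro x
      simp only
      rw [pot_dil hl σ x]
      field_simp
    simp_rw [e1]
    rw [integral_const_mul, integral_smul3 hl (fun x => σ x * pot σ x)]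
    field_simp
  have h4 : ∑ i, z i * pot σ (l • R i) = l ^ 2 * ∑ i, z i * pot (fun y => σ (l • y)) (R i) := by
    rw [Finset.mul_sum]
    refine Finset.sum_congr rfl fun i _ => ?_
    rw [pot_dil hl σ]
    ring
  unfold Ept
  rw [Unuc_smul R hl, h4, h1, h2, h3]
  field_simp
  ring

end dil

/-! ### integrals with the nuclear potential -/

variable {ι : Type*} [Fintype ι]

theorem Vpt_mul_eq (z : ι → ℝ) (R : ι → X) (s : X → ℝ) (x : X) :
    Vpt z R x * s x = ∑ i, z i * (‖R i - x‖⁻¹ * s x) := by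
  unfold Vpt
  rw [Finset.sum_mul]
  refine Finset.sum_congr rfl fun i _ => ?_
  rw [norm_sub_rev]
  ring

theorem TC.Vpt_int {s : X → ℝ} (hs : TC s) (z : ι → ℝ) (R : ι → X) :
    Integrable (fun x => Vpt z R x * s x) := by
  have h1 : Integrable (fun x => ∑ i, z i * (‖R i - x‖⁻¹ * s x)) :=
    integrable_finsetSum _ fun i _ => (hs.pot_integrable (R i)).const_mul (z i)
  refine h1.congr (Eventually.of_forall fun x => ?_)
  simp only
  rw [Vpt_mul_eq]

theorem TC.Vpt_eq {s : X → ℝ} (hs : TC s) (z : ι → ℝ) (R : ι → X) :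
    ∫ x, Vpt z R x * s x = ∑ i, z i * pot s (R i) := by
  simp_rw [Vpt_mul_eq]
  rw [integral_finsetSum _ fun i _ => (hs.pot_integrable (R i)).const_mul (z i)]
  refine Finset.sum_congr rfl fun i _ => ?_
  rw [integral_const_mul]
  rfl

theorem Phi_eq_tf (w : ℝ) : Phi w = 2 / 5 * tf w ^ (5 / 3 : ℝ) := by
  have h := young_tf_eq w
  unfold Phi at h ⊢
  linarith

theorem rpow52_add {a b : ℝ} (ha : 0 ≤ a) (hb : 0 ≤ b) :
    (a + b) ^ (5 / 2 : ℝ) ≤ 2 ^ (5 / 2 : ℝ) * (a ^ (5 / 2 : ℝ) + b ^ (5 / 2 : ℝ)) := by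
  have ha' := Real.rpow_nonneg ha (5 / 2 : ℝ)
  have hb' := Real.rpow_nonneg hb (5 / 2 : ℝ)
  have h2 : (0 : ℝ) ≤ 2 ^ (5 / 2 : ℝ) := by positivity
  rcases le_total a b with h | h
  · have h1 : (a + b) ^ (5 / 2 : ℝ) ≤ (2 * b) ^ (5 / 2 : ℝ) :=
      Real.rpow_le_rpow (by positivity) (by linarith) (by norm_num)
    rw [Real.mul_rpow (by norm_num) hb] at h1
    refine h1.trans (mul_le_mul_of_nonneg_left (by linarith) h2)
  · have h1 : (a + b) ^ (5 / 2 : ℝ) ≤ (2 * a) ^ (5 / 2 : ℝ) :=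
      Real.rpow_le_rpow (by positivity) (by linarith) (by norm_num)
    rw [Real.mul_rpow (by norm_num) ha] at h1
    refine h1.trans (mul_le_mul_of_nonneg_left (by linarith) h2)

/-- integrable dominating function for the second variation -/
theorem dom52 {z : ι → ℝ} (hz : ∀ i, 0 ≤ z i) (R : ι → X) {B : ℝ} (hB : 0 ≤ B) (r : ℝ) :
    Integrable ((ball (0 : X) r).indicator
      fun x => (Vpt z R x + B) ^ 2 * √(Vpt z R x + B)) := by
  have hg := gdom_TC hz R (one_pos)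
  set Bl : X → ℝ := (ball (0 : X) r).indicator fun _ => (1 : ℝ) with hBl
  have hBint : Integrable Bl := (integrable_indicator_iff measurableSet_ball).mpr
    (integrableOn_const measure_ball_lt_top.ne)
  have hm : Measurable fun x => (Vpt z R x + B) ^ 2 * √(Vpt z R x + B) := by
    have h1 : Measurable fun x => Vpt z R x + B := (Vpt_meas z R).add_const _
    exact (h1.pow_const 2).mul h1.sqrt
  refine ((hg.int53.const_mul (2 ^ (5 / 2 : ℝ))).add
    (hBint.const_mul (2 ^ (5 / 2 : ℝ) * (1 + B) ^ (5 / 2 : ℝ)))).mono'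
    (hm.indicator measurableSet_ball).aestronglyMeasurable (Eventually.of_forall fun x => ?_)
  have hV := Vpt_nonneg hz R x
  have hg0 : 0 ≤ gdom 1 z R x ^ (5 / 3 : ℝ) := Real.rpow_nonneg (tf_nonneg _) _
  rw [Pi.add_apply]
  by_cases hx : x ∈ ball (0 : X) r
  · rw [indicator_of_mem hx]
    have hB1 : Bl x = 1 := indicator_of_mem hx _
    have e1 : (Vpt z R x + B) ^ 2 * √(Vpt z R x + B) = (Vpt z R x + B) ^ (5 / 2 : ℝ) := by
      have h0 : 0 ≤ Vpt z R x + B := by positivity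
      rw [Real.sqrt_eq_rpow, ← Real.rpow_natCast, ← Real.rpow_add_of_nonneg h0 (by norm_num)
        (by norm_num)]
      norm_num
    rw [e1, Real.norm_of_nonneg (by positivity), hB1, mul_one]
    have h1 : (Vpt z R x + B) ^ (5 / 2 : ℝ) ≤
        (max (Vpt z R x - 1) 0 + (1 + B)) ^ (5 / 2 : ℝ) := by
      refine Real.rpow_le_rpow (by positivity) ?_ (by norm_num)
      have := le_max_left (Vpt z R x - 1) 0
      linarith
    have h2 := rpow52_add (le_max_right (Vpt z R x - 1) 0) (by positivity : (0 : ℝ) ≤ 1 + B)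
    have h3 : max (Vpt z R x - 1) 0 ^ (5 / 2 : ℝ) = gdom 1 z R x ^ (5 / 3 : ℝ) := by
      unfold gdom
      rcases le_total (Vpt z R x - 1) 0 with h | h
      · rw [max_eq_right h, tf_of_nonpos h, Real.zero_rpow (by norm_num),
          Real.zero_rpow (by norm_num)]
      · rw [max_eq_left h, tf_eq_rpow h, ← Real.rpow_mul h]
        norm_num
    rw [h3] at h2
    refine h1.trans (h2.trans (le_of_eq ?_))
    ring
  · rw [indicator_of_notMem hx, norm_zero]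
    have : 0 ≤ Bl x := indicator_nonneg (fun _ _ => zero_le_one) _
    positivity

/-! ### the second variation -/

/-- the second variation of the energy in the volume for the trial potential `V + k` -/
noncomputable def Vtr (φ₀ : ℝ) (z : ι → ℝ) (R : ι → X) (ρ k : X → ℝ) (E : ℝ) : ℝ :=
  4 * Unuc z R + En ρ ρ + 2 * (∑ i, z i * pot ρ (R i)) + 4 * (∫ x, ρ x * k x) -
    (∫ x, gam (Vpt z R x - pot ρ x - φ₀) * (Vpt z R x + k x) ^ 2) - 2 * E

theorem q_algebra {s U A0 A1 A2 En QVV QVk Qkk E M D m : ℝ} (hs : 1 + s ≠ 0)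
    (hm : m = s + s ^ 2 + s ^ 3 / 3)
    (hD : D = (1 + s)⁻¹ * U - (1 + s) ^ 3 * (A0 + (((1 + s)⁻¹ - 1) * A1 - m * A2) +
      1 / 2 * (((1 + s)⁻¹ - 1) ^ 2 * QVV - 2 * ((1 + s)⁻¹ - 1) * m * QVk + m ^ 2 * Qkk) +
      s ^ 2 * M) - m * (1 + s) * A2 - (1 + s) * m ^ 2 * E - 1 / 2 * (1 + s) * En) :
    D = (U - A0 - 1 / 2 * En) + (-U - 3 * A0 + A1 - 1 / 2 * En) / 3 * (3 * m) +
      s ^ 2 * (U * ((1 + s)⁻¹ + 1 + s / 3) + A1 * (1 + 2 / 3 * s) + En / 2 * (1 + s / 3) +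
        A2 * (1 + s + s ^ 2 / 3) * (1 + s) * (2 + s) - 1 / 2 * (1 + s) * QVV -
        (1 + s) ^ 2 * (1 + s + s ^ 2 / 3) * QVk -
        1 / 2 * (1 + s) ^ 3 * (1 + s + s ^ 2 / 3) ^ 2 * Qkk -
        (1 + s) * (1 + s + s ^ 2 / 3) ^ 2 * E - (1 + s) ^ 3 * M) := by
  rw [hD, hm]
  field_simp
  ring

theorem eta_bound {s V B k : ℝ} (hs : |s| ≤ 1 / 4) (hV : 0 ≤ V) (hB : 0 ≤ B) (hk : |k| ≤ B) :
    |((1 + s)⁻¹ - 1) * V - (s + s ^ 2 + s ^ 3 / 3) * k| ≤ 2 * |s| * (V + B) := by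
  have hs' := abs_le.mp hs
  have h1 : 0 < 1 + s := by linarith
  have e1 : (1 + s)⁻¹ - 1 = -(s * (1 + s)⁻¹) := by field_simp; ring
  have h2 : |(1 + s)⁻¹ - 1| ≤ 2 * |s| := by
    rw [e1, abs_neg, abs_mul, abs_of_pos (inv_pos.mpr h1)]
    have : (1 + s)⁻¹ ≤ 2 := by
      rw [inv_le_comm₀ h1 (by norm_num)]
      linarith
    nlinarith [abs_nonneg s]
  have h3 : |s + s ^ 2 + s ^ 3 / 3| ≤ 2 * |s| := by
    have e2 : s + s ^ 2 + s ^ 3 / 3 = (1 + s + s ^ 2 / 3) * s := by ring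
    rw [e2, abs_mul]
    refine mul_le_mul_of_nonneg_right ?_ (abs_nonneg s)
    rw [abs_le]
    constructor <;> nlinarith
  have h4 : |((1 + s)⁻¹ - 1) * V| ≤ 2 * |s| * V := by
    rw [abs_mul, abs_of_nonneg hV]
    exact mul_le_mul_of_nonneg_right h2 hV
  have h5 : |(s + s ^ 2 + s ^ 3 / 3) * k| ≤ 2 * |s| * B := by
    rw [abs_mul]
    exact mul_le_mul h3 hk (abs_nonneg _) (by positivity)
  have h6 := abs_sub (((1 + s)⁻¹ - 1) * V) ((s + s ^ 2 + s ^ 3 / 3) * k)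
  linarith

theorem Ept_ge {z : ι → ℝ} (hz : ∀ i, 0 ≤ z i) (R : ι → X) {φ₀ : ℝ} (hφ : 0 < φ₀) {ρ : X → ℝ}
    (hρ : TC ρ) (heq : ∀ x, ρ x = tf (Vpt z R x - pot ρ x - φ₀)) {k : X → ℝ}
    (hk : Measurable k) {B : ℝ} (hB1 : 0 ≤ B) (hB : ∀ x, |k x| ≤ B) {E : ℝ}
    (hT : ∀ σ τ : X → ℝ, TC σ → TC τ → ∀ c : ℝ,
      c * (∫ x, (σ x - τ x) * k x) ≤ c ^ 2 * E + 1 / 2 * (En σ σ - 2 * En σ τ + En τ τ))
    {r : ℝ} (hr : ∀ x, r ≤ ‖x‖ → Vpt z R x ≤ φ₀ / 4)
    {s : ℝ} (hs : |s| ≤ 1 / 4) (hsB : 2 * |s| * B ≤ φ₀ / 4) {m : ℝ}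
    (hm : m = s + s ^ 2 + s ^ 3 / 3) {σ : X → ℝ} (hσ : TC σ) :
    (1 + s)⁻¹ * Unuc z R - (1 + s) ^ 3 * ((∫ x, Phi (Vpt z R x - pot ρ x - φ₀)) +
      (((1 + s)⁻¹ - 1) * (∑ i, z i * pot ρ (R i)) - m * ∫ x, ρ x * k x) +
      1 / 2 * (((1 + s)⁻¹ - 1) ^ 2 * (∫ x, gam (Vpt z R x - pot ρ x - φ₀) * Vpt z R x ^ 2) -
        2 * ((1 + s)⁻¹ - 1) * m * (∫ x, gam (Vpt z R x - pot ρ x - φ₀) * (Vpt z R x * k x)) +
        m ^ 2 * (∫ x, gam (Vpt z R x - pot ρ x - φ₀) * k x ^ 2)) +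
      s ^ 2 * (12 * √(2 * |s|) * ∫ x, (ball (0 : X) r).indicator
        (fun x => (Vpt z R x + B) ^ 2 * √(Vpt z R x + B)) x)) -
      m * (1 + s) * (∫ x, ρ x * k x) - (1 + s) * m ^ 2 * E - 1 / 2 * (1 + s) * En ρ ρ ≤
    Ept φ₀ z (fun i => (1 + s) • R i) σ := by
  have hs' := abs_le.mp hs
  have hl : 0 < 1 + s := by linarith
  set V : X → ℝ := Vpt z R with hVdef
  set w : X → ℝ := fun x => V x - pot ρ x - φ₀ with hw
  set dm : X → ℝ := (ball (0 : X) r).indicator (fun x => (V x + B) ^ 2 * √(V x + B)) with hdm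
  set a : ℝ := (1 + s)⁻¹ - 1 with ha
  set η : X → ℝ := fun x => a * V x - m * k x with hη
  set T : X → ℝ := fun y => σ ((1 + s) • y) with hTdef
  have hTT : TC T := hσ.dil hl
  have hV0 : ∀ x, 0 ≤ V x := Vpt_nonneg hz R
  have hVm : Measurable V := Vpt_meas z R
  have hpm : Measurable (pot ρ) := hρ.pot_continuous.measurable
  have hwm : Measurable w := (hVm.sub hpm).sub measurable_const
  have hηm : Measurable η := (hVm.const_mul a).sub (hk.const_mul m)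
  have hp0 : ∀ x, 0 ≤ pot ρ x := pot_nonneg hρ.nonneg
  have hdmi : Integrable dm := dom52 hz R hB1 r
  have hdm0 : ∀ x, 0 ≤ dm x := fun x => indicator_nonneg (fun y _ => by
    have := hV0 y
    positivity) x
  -- bounds outside the ball
  have hηb : ∀ x, |η x| ≤ 2 * |s| * (V x + B) := by
    intro x
    have := eta_bound hs (hV0 x) hB1 (hB x)
    simp only [hη, ha, hm]
    exact this
  have hout : ∀ x, x ∉ ball (0 : X) r → w x ≤ 0 ∧ w x + η x ≤ 0 := by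
    intro x hx
    have hx' : r ≤ ‖x‖ := by simpa using hx
    have h1 := hr x hx'
    have h2 := hp0 x
    have h3 := (abs_le.mp (hηb x)).2
    have h4 : 2 * |s| * (V x + B) ≤ 1 / 2 * V x + φ₀ / 4 := by
      have : 2 * |s| * V x ≤ 1 / 2 * V x := mul_le_mul_of_nonneg_right (by linarith) (hV0 x)
      linarith
    simp only [hw]
    constructor <;> linarith
  -- the pointwise expansion
  have hpt : ∀ x, Phi (w x + η x) ≤ Phi (w x) + (a * (V x * ρ x) - m * (ρ x * k x)) +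
      1 / 2 * (a ^ 2 * (gam (w x) * V x ^ 2) - 2 * a * m * (gam (w x) * (V x * k x)) +
        m ^ 2 * (gam (w x) * k x ^ 2)) + s ^ 2 * (12 * √(2 * |s|)) * dm x := by
    intro x
    have hρx : ρ x = tf (w x) := heq x
    by_cases hx : x ∈ ball (0 : X) r
    · have h1 := Phi_taylor (w x) (η x)
      have h2 : η x ^ 2 * √|η x| ≤ 4 * s ^ 2 * √(2 * |s|) * dm x := by
        have e1 : dm x = (V x + B) ^ 2 * √(V x + B) := indicator_of_mem hx _
        have h3 : η x ^ 2 ≤ 4 * s ^ 2 * (V x + B) ^ 2 := by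
          rw [← sq_abs (η x)]
          have h4 : |η x| ^ 2 ≤ (2 * |s| * (V x + B)) ^ 2 :=
            pow_le_pow_left₀ (abs_nonneg _) (hηb x) 2
          have h5 : (2 * |s| * (V x + B)) ^ 2 = 4 * s ^ 2 * (V x + B) ^ 2 := by
            rw [mul_pow, mul_pow, sq_abs]; ring
          rwa [h5] at h4
        have h4 : √|η x| ≤ √(2 * |s|) * √(V x + B) := by
          rw [← Real.sqrt_mul (by positivity)]
          exact Real.sqrt_le_sqrt (hηb x)
        rw [e1]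
        calc η x ^ 2 * √|η x| ≤ (4 * s ^ 2 * (V x + B) ^ 2) * (√(2 * |s|) * √(V x + B)) :=
              mul_le_mul h3 h4 (Real.sqrt_nonneg _) (by positivity)
          _ = 4 * s ^ 2 * √(2 * |s|) * ((V x + B) ^ 2 * √(V x + B)) := by ring
      have e2 : tf (w x) * η x = a * (V x * ρ x) - m * (ρ x * k x) := by
        rw [hρx]; simp only [hη]; ring
      have e3 : 1 / 2 * gam (w x) * η x ^ 2 = 1 / 2 * (a ^ 2 * (gam (w x) * V x ^ 2) -
          2 * a * m * (gam (w x) * (V x * k x)) + m ^ 2 * (gam (w x) * k x ^ 2)) := by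
        simp only [hη]; ring
      rw [e2, e3] at h1
      linarith
    · obtain ⟨h1, h2⟩ := hout x hx
      have h3 : 0 ≤ s ^ 2 * (12 * √(2 * |s|)) * dm x := by
        have := hdm0 x
        positivity
      rw [Phi_of_nonpos h2, Phi_of_nonpos h1, gam_of_nonpos h1, hρx, tf_of_nonpos h1]
      simp only [mul_zero, zero_mul, sub_zero, add_zero, zero_add]
      exact h3
  -- integrability
  have iP0 : Integrable (fun x => Phi (w x)) := by
    refine (hρ.int53.const_mul (2 / 5)).congr (Eventually.of_forall fun x => ?_)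
    simp only
    rw [Phi_eq_tf, ← heq x]
  have i1 : Integrable (fun x => V x * ρ x) := hρ.Vpt_int z R
  have i2 : Integrable (fun x => ρ x * k x) := by
    have : Integrable (fun x => k x * ρ x) :=
      hρ.int.bdd_mul hk.aestronglyMeasurable (Eventually.of_forall hB)
    exact this.congr (Eventually.of_forall fun x => by ring)
  have hgm : Measurable fun x => gam (w x) := gam_continuous.measurable.comp hwm
  have hgd : ∀ x, ∀ b : ℝ, |b| ≤ (V x + B) ^ 2 → |gam (w x) * b| ≤ 3 / 2 * dm x := by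
    intro x b hb
    by_cases hx : x ∈ ball (0 : X) r
    · have e1 : dm x = (V x + B) ^ 2 * √(V x + B) := indicator_of_mem hx _
      have h1 : gam (w x) ≤ 3 / 2 * √(V x + B) := by
        unfold gam
        refine mul_le_mul_of_nonneg_left (Real.sqrt_le_sqrt ?_) (by norm_num)
        have := hV0 x
        have := hp0 x
        simp only [hw]
        refine max_le (by linarith) (by linarith)
      rw [abs_mul, abs_of_nonneg (gam_nonneg _), e1]
      calc gam (w x) * |b| ≤ 3 / 2 * √(V x + B) * (V x + B) ^ 2 :=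
            mul_le_mul h1 hb (abs_nonneg _) (by positivity)
        _ = 3 / 2 * ((V x + B) ^ 2 * √(V x + B)) := by ring
    · rw [gam_of_nonpos (hout x hx).1, zero_mul, abs_zero]
      have := hdm0 x
      positivity
  have hgi : ∀ b : X → ℝ, Measurable b → (∀ x, |b x| ≤ (V x + B) ^ 2) →
      Integrable (fun x => gam (w x) * b x) := by
    intro b hbm hb
    exact (hdmi.const_mul (3 / 2)).mono' (hgm.mul hbm).aestronglyMeasurable
      (Eventually.of_forall fun x => hgd x (b x) (hb x))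
  have i3 : Integrable (fun x => gam (w x) * V x ^ 2) := by
    refine hgi (fun x => V x ^ 2) (hVm.pow_const 2) fun x => ?_
    rw [abs_of_nonneg (by positivity)]
    have := hV0 x
    exact pow_le_pow_left₀ this (by linarith) 2
  have i4 : Integrable (fun x => gam (w x) * (V x * k x)) := by
    refine hgi (fun x => V x * k x) (hVm.mul hk) fun x => ?_
    have h0 := hV0 x
    rw [abs_mul, abs_of_nonneg h0, pow_two]
    exact mul_le_mul (by linarith) ((hB x).trans (by linarith)) (abs_nonneg _) (by linarith)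
  have i5 : Integrable (fun x => gam (w x) * k x ^ 2) := by
    refine hgi (fun x => k x ^ 2) (hk.pow_const 2) fun x => ?_
    have h0 := hV0 x
    rw [abs_of_nonneg (by positivity), ← sq_abs (k x)]
    exact pow_le_pow_left₀ (abs_nonneg _) ((hB x).trans (by linarith)) 2
  have i12 : Integrable (fun x => a * (V x * ρ x) - m * (ρ x * k x)) :=
    (i1.const_mul a).sub (i2.const_mul m)
  have i34 : Integrable (fun x => a ^ 2 * (gam (w x) * V x ^ 2) -
      2 * a * m * (gam (w x) * (V x * k x))) := (i3.const_mul _).sub (i4.const_mul _)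
  have i345 : Integrable (fun x => a ^ 2 * (gam (w x) * V x ^ 2) -
      2 * a * m * (gam (w x) * (V x * k x)) + m ^ 2 * (gam (w x) * k x ^ 2)) :=
    i34.add (i5.const_mul _)
  have i6 : Integrable (fun x => s ^ 2 * (12 * √(2 * |s|)) * dm x) := hdmi.const_mul _
  have i012 : Integrable (fun x => Phi (w x) + (a * (V x * ρ x) - m * (ρ x * k x))) :=
    iP0.add i12
  have iall' : Integrable (fun x => Phi (w x) + (a * (V x * ρ x) - m * (ρ x * k x)) +
      1 / 2 * (a ^ 2 * (gam (w x) * V x ^ 2) - 2 * a * m * (gam (w x) * (V x * k x)) +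
        m ^ 2 * (gam (w x) * k x ^ 2))) := i012.add (i345.const_mul _)
  have iall : Integrable (fun x => Phi (w x) + (a * (V x * ρ x) - m * (ρ x * k x)) +
      1 / 2 * (a ^ 2 * (gam (w x) * V x ^ 2) - 2 * a * m * (gam (w x) * (V x * k x)) +
        m ^ 2 * (gam (w x) * k x ^ 2)) + s ^ 2 * (12 * √(2 * |s|)) * dm x) := iall'.add i6
  have iP' : Integrable (fun x => Phi (w x + η x)) := by
    refine iall.mono' (Phi_continuous.measurable.comp (hwm.add hηm)).aestronglyMeasurable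
      (Eventually.of_forall fun x => ?_)
    rw [Real.norm_of_nonneg (Phi_nonneg _)]
    exact hpt x
  have hP' : ∫ x, Phi (w x + η x) ≤ (∫ x, Phi (w x)) +
      (a * (∑ i, z i * pot ρ (R i)) - m * ∫ x, ρ x * k x) +
      1 / 2 * (a ^ 2 * (∫ x, gam (w x) * V x ^ 2) -
        2 * a * m * (∫ x, gam (w x) * (V x * k x)) + m ^ 2 * (∫ x, gam (w x) * k x ^ 2)) +
      s ^ 2 * (12 * √(2 * |s|) * ∫ x, dm x) := by
    have h1 := integral_mono iP' iall hpt
    refine h1.trans (le_of_eq ?_)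
    rw [integral_add iall' i6, integral_add i012 (i345.const_mul _), integral_add iP0 i12,
      integral_sub (i1.const_mul a) (i2.const_mul m), integral_const_mul, integral_const_mul,
      integral_const_mul, integral_add i34 (i5.const_mul _),
      integral_sub (i3.const_mul _) (i4.const_mul _), integral_const_mul, integral_const_mul,
      integral_const_mul, integral_const_mul, hρ.Vpt_eq z R]
    ring
  -- Young's inequality
  have j1 : Integrable (fun x => V x * T x) := hTT.Vpt_int z R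
  have j2 : Integrable (fun x => T x * pot ρ x) := hTT.En_integrable hρ
  have j3 : Integrable (fun x => T x * k x) := by
    have : Integrable (fun x => k x * T x) :=
      hTT.int.bdd_mul hk.aestronglyMeasurable (Eventually.of_forall hB)
    exact this.congr (Eventually.of_forall fun x => by ring)
  have hY : (1 + s)⁻¹ * (∑ i, z i * pot T (R i)) - En T ρ - m * (∫ x, T x * k x) -
      φ₀ * (∫ x, T x) - ∫ x, Phi (w x + η x) ≤ 3 / 5 * ∫ x, T x ^ (5 / 3 : ℝ) := by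
    have j12 : Integrable (fun x => (1 + s)⁻¹ * (V x * T x) - T x * pot ρ x) :=
      (j1.const_mul _).sub j2
    have j123 : Integrable (fun x => (1 + s)⁻¹ * (V x * T x) - T x * pot ρ x -
      m * (T x * k x)) := j12.sub (j3.const_mul _)
    have j1234 : Integrable (fun x => (1 + s)⁻¹ * (V x * T x) - T x * pot ρ x -
      m * (T x * k x) - φ₀ * T x) := j123.sub (hTT.int.const_mul _)
    have h1 : ∫ x, ((1 + s)⁻¹ * (V x * T x) - T x * pot ρ x - m * (T x * k x) - φ₀ * T x -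
        Phi (w x + η x)) ≤ ∫ x, 3 / 5 * T x ^ (5 / 3 : ℝ) := by
      refine integral_mono (j1234.sub iP') (hTT.int53.const_mul _) fun x => ?_
      have h2 := young_tf (w x + η x) (hTT.nonneg x)
      have e1 : (w x + η x) * T x = (1 + s)⁻¹ * (V x * T x) - T x * pot ρ x - m * (T x * k x) -
          φ₀ * T x := by
        simp only [hw, hη, ha]; ring
      rw [e1] at h2
      simp only
      linarith
    rw [integral_sub j1234 iP', integral_sub j123 (hTT.int.const_mul _),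
      integral_sub j12 (j3.const_mul _), integral_sub (j1.const_mul _) j2, integral_const_mul,
      integral_const_mul, integral_const_mul, integral_const_mul, hTT.Vpt_eq z R] at h1
    exact h1
  -- Thomson's inequality
  have hTh := hT (fun x => (1 + s) ^ 2 * T x) ρ (hTT.cmul (by positivity)) hρ m
  rw [En_cmul_left, En_cmul_right, En_cmul_left] at hTh
  have e5 : ∫ x, ((1 + s) ^ 2 * T x - ρ x) * k x = (1 + s) ^ 2 * (∫ x, T x * k x) -
      ∫ x, ρ x * k x := by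
    rw [← integral_const_mul, ← integral_sub (j3.const_mul _) i2]
    exact integral_congr_ae (Eventually.of_forall fun x => by ring)
  rw [e5] at hTh
  rw [Ept_dil φ₀ z R hl hσ]
  have hTh' : (1 + s) * (m * ((1 + s) ^ 2 * (∫ x, T x * k x) - ∫ x, ρ x * k x)) ≤
      (1 + s) * (m ^ 2 * E + 1 / 2 * ((1 + s) ^ 2 * ((1 + s) ^ 2 * En T T) -
        2 * ((1 + s) ^ 2 * En T ρ) + En ρ ρ)) := mul_le_mul_of_nonneg_left hTh hl.le
  have hY' : (1 + s) ^ 3 * ((1 + s)⁻¹ * (∑ i, z i * pot T (R i)) - En T ρ -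
      m * (∫ x, T x * k x) - φ₀ * (∫ x, T x) - ∫ x, Phi (w x + η x)) ≤
      (1 + s) ^ 3 * (3 / 5 * ∫ x, T x ^ (5 / 3 : ℝ)) :=
    mul_le_mul_of_nonneg_left hY (by positivity)
  have hP'' := mul_le_mul_of_nonneg_left hP' (by positivity : (0 : ℝ) ≤ (1 + s) ^ 3)
  linarith [hTh', hY', hP'']

theorem gam_integrable {z : ι → ℝ} (hz : ∀ i, 0 ≤ z i) (R : ι → X) {φ₀ : ℝ} (hφ : 0 < φ₀)
    {ρ : X → ℝ} (hρ : TC ρ) {B : ℝ} (hB : 0 ≤ B) {b : X → ℝ} (hb : Measurable b)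
    (hbB : ∀ x, |b x| ≤ (Vpt z R x + B) ^ 2) :
    Integrable (fun x => gam (Vpt z R x - pot ρ x - φ₀) * b x) := by
  obtain ⟨r, hr0, hr⟩ := Vpt_far hz R hφ
  have hdmi := dom52 hz R hB r
  have hV0 : ∀ x, 0 ≤ Vpt z R x := Vpt_nonneg hz R
  have hp0 : ∀ x, 0 ≤ pot ρ x := pot_nonneg hρ.nonneg
  have hwm : Measurable fun x => Vpt z R x - pot ρ x - φ₀ :=
    ((Vpt_meas z R).sub hρ.pot_continuous.measurable).sub measurable_const
  refine (hdmi.const_mul (3 / 2)).mono'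
    ((gam_continuous.measurable.comp hwm).mul hb).aestronglyMeasurable
    (Eventually.of_forall fun x => ?_)
  rw [Real.norm_eq_abs]
  by_cases hx : x ∈ ball (0 : X) r
  · rw [indicator_of_mem hx]
    have h1 : gam (Vpt z R x - pot ρ x - φ₀) ≤ 3 / 2 * √(Vpt z R x + B) := by
      unfold gam
      refine mul_le_mul_of_nonneg_left (Real.sqrt_le_sqrt ?_) (by norm_num)
      have := hV0 x
      have := hp0 x
      refine max_le (by linarith) (by linarith)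
    rw [abs_mul, abs_of_nonneg (gam_nonneg _)]
    calc gam (Vpt z R x - pot ρ x - φ₀) * |b x| ≤
          3 / 2 * √(Vpt z R x + B) * (Vpt z R x + B) ^ 2 :=
          mul_le_mul h1 (hbB x) (abs_nonneg _) (by positivity)
      _ = 3 / 2 * ((Vpt z R x + B) ^ 2 * √(Vpt z R x + B)) := by ring
  · have h1 := hr x (by simpa using hx)
    have h2 := hp0 x
    rw [gam_of_nonpos (by linarith), zero_mul, abs_zero, indicator_of_notMem hx, mul_zero]

theorem gam_expand {z : ι → ℝ} (hz : ∀ i, 0 ≤ z i) (R : ι → X) {φ₀ : ℝ} (hφ : 0 < φ₀)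
    {ρ : X → ℝ} (hρ : TC ρ) {k : X → ℝ} (hk : Measurable k) {B : ℝ} (hB1 : 0 ≤ B)
    (hB : ∀ x, |k x| ≤ B) :
    ∫ x, gam (Vpt z R x - pot ρ x - φ₀) * (Vpt z R x + k x) ^ 2 =
      (∫ x, gam (Vpt z R x - pot ρ x - φ₀) * Vpt z R x ^ 2) +
      2 * (∫ x, gam (Vpt z R x - pot ρ x - φ₀) * (Vpt z R x * k x)) +
      ∫ x, gam (Vpt z R x - pot ρ x - φ₀) * k x ^ 2 := by
  have hV0 : ∀ x, 0 ≤ Vpt z R x := Vpt_nonneg hz R
  have i3 := gam_integrable hz R hφ hρ hB1 ((Vpt_meas z R).pow_const 2) fun x => by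
    rw [abs_of_nonneg (by positivity)]
    have := hV0 x
    exact pow_le_pow_left₀ this (by linarith) 2
  have i4 := gam_integrable hz R hφ hρ hB1 ((Vpt_meas z R).mul hk) fun x => by
    have h0 := hV0 x
    rw [Pi.mul_apply, abs_mul, abs_of_nonneg h0, pow_two]
    exact mul_le_mul (by linarith) ((hB x).trans (by linarith)) (abs_nonneg _) (by linarith)
  have i5 := gam_integrable hz R hφ hρ hB1 (hk.pow_const 2) fun x => by
    have h0 := hV0 x
    rw [abs_of_nonneg (by positivity), ← sq_abs (k x)]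
    exact pow_le_pow_left₀ (abs_nonneg _) ((hB x).trans (by linarith)) 2
  have e1 : ∀ x, gam (Vpt z R x - pot ρ x - φ₀) * (Vpt z R x + k x) ^ 2 =
      gam (Vpt z R x - pot ρ x - φ₀) * Vpt z R x ^ 2 +
      2 * (gam (Vpt z R x - pot ρ x - φ₀) * (Vpt z R x * k x)) +
      gam (Vpt z R x - pot ρ x - φ₀) * k x ^ 2 := fun x => by ring
  simp_rw [e1]
  have i34 : Integrable (fun x => gam (Vpt z R x - pot ρ x - φ₀) * Vpt z R x ^ 2 +
      2 * (gam (Vpt z R x - pot ρ x - φ₀) * (Vpt z R x * k x))) := i3.add (i4.const_mul 2)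
  have i4' : Integrable (fun x => 2 * (gam (Vpt z R x - pot ρ x - φ₀) * (Vpt z R x * k x))) :=
    i4.const_mul 2
  rw [integral_add i34 i5, integral_add i3 i4', integral_const_mul]

/-- the energy of the minimiser through the dual functional -/
theorem Ept_sol {z : ι → ℝ} (R : ι → X) {φ₀ : ℝ} {ρ : X → ℝ} (hρ : TC ρ)
    (heq : ∀ x, ρ x = tf (Vpt z R x - pot ρ x - φ₀)) :
    Ept φ₀ z R ρ = Unuc z R - (∫ x, Phi (Vpt z R x - pot ρ x - φ₀)) - 1 / 2 * En ρ ρ := by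
  have j1 : Integrable (fun x => Vpt z R x * ρ x) := hρ.Vpt_int z R
  have j2 : Integrable (fun x => ρ x * pot ρ x) := hρ.En_integrable hρ
  have j12 : Integrable (fun x => Vpt z R x * ρ x - ρ x * pot ρ x) := j1.sub j2
  have j123 : Integrable (fun x => Vpt z R x * ρ x - ρ x * pot ρ x - φ₀ * ρ x) :=
    j12.sub (hρ.int.const_mul _)
  have j4 : Integrable (fun x => 3 / 5 * ρ x ^ (5 / 3 : ℝ)) := hρ.int53.const_mul _
  have h1 : ∫ x, (Vpt z R x * ρ x - ρ x * pot ρ x - φ₀ * ρ x - 3 / 5 * ρ x ^ (5 / 3 : ℝ)) =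
      ∫ x, Phi (Vpt z R x - pot ρ x - φ₀) := by
    refine integral_congr_ae (Eventually.of_forall fun x => ?_)
    simp only
    have h2 := young_tf_eq (Vpt z R x - pot ρ x - φ₀)
    rw [← heq x] at h2
    linarith
  rw [integral_sub j123 j4, integral_sub j12 (hρ.int.const_mul _), integral_sub j1 j2,
    integral_const_mul, integral_const_mul, hρ.Vpt_eq z R] at h1
  have hE : En ρ ρ = ∫ x, ρ x * pot ρ x := rfl
  unfold Ept
  rw [hE]
  linarith

theorem aux_s2 {s t : ℝ} (h1 : -(1 / 4) < s) (h2 : s < 1 / 4)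
    (ht : t = 3 * (s + s ^ 2 + s ^ 3 / 3)) : s ^ 2 ≤ t ^ 2 := by
  have e1 : t ^ 2 = s ^ 2 * (3 + 3 * s + s ^ 2) ^ 2 := by rw [ht]; ring
  have e2 : 1 ≤ 3 + 3 * s + s ^ 2 := by nlinarith
  have e3 : 1 ≤ (3 + 3 * s + s ^ 2) ^ 2 := one_le_pow₀ e2
  rw [e1]
  exact le_mul_of_one_le_right (sq_nonneg s) e3

theorem aux_q {s t ε q : ℝ} (hε : 0 < ε) (hq : -ε < q) (hst : s ^ 2 ≤ t ^ 2) :
    -(ε * t ^ 2) ≤ s ^ 2 * q := by
  have h1 : s ^ 2 * (-ε) ≤ s ^ 2 * q := mul_le_mul_of_nonneg_left hq.le (sq_nonneg s)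
  have h2 : ε * s ^ 2 ≤ ε * t ^ 2 := mul_le_mul_of_nonneg_left hst hε.le
  linarith

/-- A trial field with nonnegative second variation gives the support inequality. -/
theorem support_of_Vtr {z : ι → ℝ} (hz : ∀ i, 0 ≤ z i) (R : ι → X) {φ₀ : ℝ} (hφ : 0 < φ₀)
    {ρ : X → ℝ} (hρ : TC ρ) (heq : ∀ x, ρ x = tf (Vpt z R x - pot ρ x - φ₀)) {k : X → ℝ}
    (hk : Measurable k) {B : ℝ} (hB : ∀ x, |k x| ≤ B) {E : ℝ}
    (hT : ∀ σ τ : X → ℝ, TC σ → TC τ → ∀ c : ℝ,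
      c * (∫ x, (σ x - τ x) * k x) ≤ c ^ 2 * E + 1 / 2 * (En σ σ - 2 * En σ τ + En τ τ))
    (hV : 0 ≤ Vtr φ₀ z R ρ k E) :
    ∃ a : ℝ, ∀ ε : ℝ, 0 < ε → ∃ δ : ℝ, 0 < δ ∧ ∀ t : ℝ, |t| < δ →
      GTF φ₀ z R + a * t - ε * t ^ 2 ≤ GTF φ₀ z (fun i => (1 + t) ^ (1 / 3 : ℝ) • R i) := by
  have hB1 : 0 ≤ B := (abs_nonneg _).trans (hB 0)
  obtain ⟨r, hr0, hr⟩ := Vpt_far hz R (φ₀ := φ₀ / 4) (by positivity)
  have hG : GTF φ₀ z R = Ept φ₀ z R ρ :=
    GTF_eq hφ hz R hρ fun σ hσ => Ept_min hρ hσ (Eventually.of_forall heq)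
  rw [hG, Ept_sol R hρ heq]
  have hexp := gam_expand hz R hφ hρ hk hB1 hB
  unfold Vtr at hV
  rw [hexp] at hV
  set U := Unuc z R with hU
  set A0 := ∫ x, Phi (Vpt z R x - pot ρ x - φ₀) with hA0
  set A1 := ∑ i, z i * pot ρ (R i) with hA1
  set A2 := ∫ x, ρ x * k x with hA2
  set QVV := ∫ x, gam (Vpt z R x - pot ρ x - φ₀) * Vpt z R x ^ 2 with hQVV
  set QVk := ∫ x, gam (Vpt z R x - pot ρ x - φ₀) * (Vpt z R x * k x) with hQVk
  set Qkk := ∫ x, gam (Vpt z R x - pot ρ x - φ₀) * k x ^ 2 with hQkk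
  set M := ∫ x, (ball (0 : X) r).indicator
        (fun x => (Vpt z R x + B) ^ 2 * √(Vpt z R x + B)) x with hM
  set N := En ρ ρ with hN
  set q : ℝ → ℝ := fun s => U * ((1 + s)⁻¹ + 1 + s / 3) + A1 * (1 + 2 / 3 * s) +
    N / 2 * (1 + s / 3) + A2 * (1 + s + s ^ 2 / 3) * (1 + s) * (2 + s) -
    1 / 2 * (1 + s) * QVV - (1 + s) ^ 2 * (1 + s + s ^ 2 / 3) * QVk -
    1 / 2 * (1 + s) ^ 3 * (1 + s + s ^ 2 / 3) ^ 2 * Qkk -
    (1 + s) * (1 + s + s ^ 2 / 3) ^ 2 * E - (1 + s) ^ 3 * (12 * √(2 * |s|) * M) with hq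
  have hqc : ContinuousAt q 0 := by
    have h1 : ContinuousAt (fun s : ℝ => (1 + s)⁻¹) 0 :=
      ContinuousAt.inv₀ (by fun_prop) (by norm_num)
    have h2 : ContinuousAt (fun s : ℝ => U * ((1 + s)⁻¹ + 1 + s / 3)) 0 :=
      continuousAt_const.mul ((h1.add continuousAt_const).add (by fun_prop))
    have h3 : Continuous (fun s : ℝ => A1 * (1 + 2 / 3 * s) +
      N / 2 * (1 + s / 3) + A2 * (1 + s + s ^ 2 / 3) * (1 + s) * (2 + s) -
      1 / 2 * (1 + s) * QVV - (1 + s) ^ 2 * (1 + s + s ^ 2 / 3) * QVk -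
      1 / 2 * (1 + s) ^ 3 * (1 + s + s ^ 2 / 3) ^ 2 * Qkk -
      (1 + s) * (1 + s + s ^ 2 / 3) ^ 2 * E - (1 + s) ^ 3 * (12 * √(2 * |s|) * M)) := by
      fun_prop
    refine (h2.add h3.continuousAt).congr (Eventually.of_forall fun s => ?_)
    simp only [hq, Pi.add_apply]
    ring
  have hq0 : 0 ≤ q 0 := by
    have : q 0 = 1 / 2 * (4 * U + N + 2 * A1 + 4 * A2 - (QVV + 2 * QVk + Qkk) - 2 * E) := by
      simp only [hq, abs_zero, mul_zero, Real.sqrt_zero, add_zero]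
      ring
    rw [this]
    linarith
  refine ⟨(-U - 3 * A0 + A1 - 1 / 2 * N) / 3, fun ε hε => ?_⟩
  have c1 : ∀ᶠ s in 𝓝 (0 : ℝ), -ε < q s := hqc.eventually (lt_mem_nhds (by linarith))
  have c2 : ∀ᶠ s in 𝓝 (0 : ℝ), |s| < 1 / 4 := by
    have h1 : Tendsto (fun s : ℝ => |s|) (𝓝 0) (𝓝 |(0 : ℝ)|) := continuous_abs.tendsto 0
    rw [abs_zero] at h1
    exact h1.eventually (gt_mem_nhds (by norm_num))
  have c3 : ∀ᶠ s in 𝓝 (0 : ℝ), 2 * |s| * B < φ₀ / 4 := by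
    have h1 : Tendsto (fun s : ℝ => 2 * |s| * B) (𝓝 0) (𝓝 (2 * |(0 : ℝ)| * B)) :=
      (by fun_prop : Continuous fun s : ℝ => 2 * |s| * B).tendsto 0
    rw [abs_zero, mul_zero, zero_mul] at h1
    exact h1.eventually (gt_mem_nhds (by positivity))
  have hst : Tendsto (fun t : ℝ => (1 + t) ^ (1 / 3 : ℝ) - 1) (𝓝 0) (𝓝 0) := by
    have h1 : ContinuousAt (fun t : ℝ => (1 + t) ^ (1 / 3 : ℝ) - 1) 0 := by
      refine ContinuousAt.sub ?_ continuousAt_const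
      refine ContinuousAt.rpow_const (by fun_prop) (Or.inl (by norm_num))
    have h2 := h1.tendsto
    simpa using h2
  have c4 : ∀ᶠ t in 𝓝 (0 : ℝ), |t| < 1 := by
    have h1 : Tendsto (fun s : ℝ => |s|) (𝓝 0) (𝓝 |(0 : ℝ)|) := continuous_abs.tendsto 0
    rw [abs_zero] at h1
    exact h1.eventually (gt_mem_nhds (by norm_num))
  obtain ⟨δ, hδ, hball⟩ := Metric.eventually_nhds_iff.mp
    ((hst.eventually (c1.and (c2.and c3))).and c4)
  refine ⟨δ, hδ, fun t ht => ?_⟩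
  obtain ⟨⟨h1, h2, h3⟩, h4⟩ := hball (y := t) (by rwa [Real.dist_eq, sub_zero])
  set s : ℝ := (1 + t) ^ (1 / 3 : ℝ) - 1 with hs
  have h1t : 0 < 1 + t := by
    have := (abs_lt.mp h4).1
    linarith
  have hs1 : 1 + s = (1 + t) ^ (1 / 3 : ℝ) := by rw [hs]; ring
  have hs3 : (1 + s) ^ 3 = 1 + t := by
    rw [hs1, ← Real.rpow_natCast, ← Real.rpow_mul h1t.le]
    norm_num
  have ht3 : t = 3 * (s + s ^ 2 + s ^ 3 / 3) := by
    have : (1 + s) ^ 3 = 1 + 3 * s + 3 * s ^ 2 + s ^ 3 := by ring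
    linarith
  rw [← hs1]
  refine le_GTF _ fun σ hσ => ?_
  have hge := Ept_ge hz R hφ hρ heq hk hB1 hB hT hr h2.le h3.le rfl hσ
  have hs' := abs_lt.mp h2
  have halg := q_algebra (s := s) (U := U) (A0 := A0) (A1 := A1) (A2 := A2) (En := N)
    (QVV := QVV) (QVk := QVk) (Qkk := Qkk) (E := E) (M := 12 * √(2 * |s|) * M)
    (ne_of_gt (by linarith : (0 : ℝ) < 1 + s)) rfl rfl
  have hfin : U - A0 - 1 / 2 * N + (-U - 3 * A0 + A1 - 1 / 2 * N) / 3 * t - ε * t ^ 2 ≤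
      (U - A0 - 1 / 2 * N) +
        (-U - 3 * A0 + A1 - 1 / 2 * N) / 3 * (3 * (s + s ^ 2 + s ^ 3 / 3)) + s ^ 2 * q s := by
    rw [← ht3]
    have h5 := aux_q hε h1 (aux_s2 hs'.1 hs'.2 ht3)
    linarith
  exact (hfin.trans (le_of_eq halg.symm)).trans hge

/-- Convexity in the volume from trial fields at every scale. -/
theorem GTF_convex_of_Vtr {z : ι → ℝ} (hz : ∀ i, 0 ≤ z i) (R : ι → X) {φ₀ : ℝ} (hφ : 0 < φ₀)
    (h : ∀ c : ℝ, 0 < c → ∀ ρ : X → ℝ, TC ρ →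
      (∀ x, ρ x = tf (Vpt z (fun i => c • R i) x - pot ρ x - φ₀)) →
      ∃ (k : X → ℝ) (B E : ℝ), Measurable k ∧ (∀ x, |k x| ≤ B) ∧
        (∀ σ τ : X → ℝ, TC σ → TC τ → ∀ c : ℝ, c * (∫ x, (σ x - τ x) * k x) ≤
          c ^ 2 * E + 1 / 2 * (En σ σ - 2 * En σ τ + En τ τ)) ∧
        0 ≤ Vtr φ₀ z (fun i => c • R i) ρ k E) :
    ConvexOn ℝ (Ioi 0) fun v : ℝ => GTF φ₀ z fun i => v ^ (1 / 3 : ℝ) • R i := by
  refine GTF_convex_of_support hφ hz R fun c hc ε hε => ?_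
  obtain ⟨ρ, hρ, -, heq⟩ := exists_point_sol hz (fun i => c • R i) hφ
  obtain ⟨k, B, E, hk, hB, hT, hV⟩ := h c hc ρ hρ heq
  obtain ⟨a, ha⟩ := support_of_Vtr hz (fun i => c • R i) hφ hρ heq hk hB hT hV
  obtain ⟨δ, hδ, hsup⟩ := ha ε hε
  exact ⟨a, δ, hδ, hsup⟩

end Pool.Agent.TF

end

section
/-! The algebraic identity for the second variation: `Vtr = ∫ F + ∑ c i`, where
`F = 4 ρ Y - γ Y² + (|ψ'|² - |Y'|²) / (4 π)` and `c i = 2 z i lim (Y - z i / r i)` at the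
nucleus `i`. -/

set_option linter.unusedSectionVars false

set_option linter.unusedVariables false

set_option linter.style.haveILetI false

namespace Pool.Agent.TF

open MeasureTheory Set Metric Filter Topology

open scoped ENNReal NNReal RealInnerProductSpace Gradient

section gen

variable {V : Type*} [NormedAddCommGroup V] [InnerProductSpace ℝ V] [FiniteDimensional ℝ V]
  [MeasurableSpace V] [BorelSpace V] [hd : Fact (Module.finrank ℝ V = 3)]

variable {ι : Type*} [Fintype ι]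

theorem inv_four_integrable (c : V) : Integrable (fun x : V => (1 + ‖x - c‖) ^ (-(4 : ℝ))) := by
  have h : Integrable (fun x : V => (1 + ‖x‖) ^ (-(4 : ℝ))) :=
    integrable_one_add_norm (by rw [hd.out]; norm_num)
  exact h.comp_sub_right c

/-- `|x - c|⁻² g` is integrable for a square integrable `g` with moderate singularities -/
theorem inv_sq_mul_integrable {g : V → ℝ} (hgm : AEStronglyMeasurable g volume)
    (hg : Integrable fun x => g x ^ 2) (R : ι → V) {C : ℝ}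
    (hC : ∀ᵐ x : V, |g x| ≤ C * (1 + ∑ i, (‖x - R i‖⁻¹) ^ (3 / 4 : ℝ))) (c : V) :
    Integrable (fun x => (‖x - c‖ ^ 2)⁻¹ * g x) := by
  set n : ℝ := ((Fintype.card ι : ℕ) : ℝ) with hn
  have hn0 : 0 ≤ n := Nat.cast_nonneg _
  set K : ℝ := |C| with hK
  have hK0 : 0 ≤ K := abs_nonneg _
  have hw : ∀ a : V, Integrable (fun x : V => w114 (x - a)) := fun a =>
    w114_integrable.comp_sub_right a
  have hball : Integrable ((ball c 1).indicator fun _ : V => (1 : ℝ)) :=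
    (integrable_indicator_iff measurableSet_ball).mpr
      (integrableOn_const measure_ball_lt_top.ne)
  have hdom : Integrable (fun x : V => K * ((1 + n) * w114 (x - c) + ∑ i, w114 (x - R i)) +
      (K * (2 + 2 * n)) * (ball c 1).indicator (fun _ : V => (1 : ℝ)) x +
      16 * (1 + ‖x - c‖) ^ (-(4 : ℝ)) + g x ^ 2) := by
    refine ((Integrable.add ?_ (hball.const_mul _)).add
      ((inv_four_integrable c).const_mul 16)).add hg
    exact (((hw c).const_mul _).add (integrable_finsetSum _ fun i _ => hw (R i))).const_mul K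
  have hm : AEStronglyMeasurable (fun x : V => (‖x - c‖ ^ 2)⁻¹ * g x) volume :=
    (((measurable_id.sub measurable_const).norm.pow_const 2).inv.aestronglyMeasurable).mul hgm
  refine hdom.mono' hm ?_
  filter_upwards [hC] with x hx
  have hA0 : 0 ≤ (‖x - c‖ ^ 2)⁻¹ := by positivity
  have hs0 : 0 ≤ ∑ i, w114 (x - R i) := Finset.sum_nonneg fun i _ => w114_nonneg _
  have hwc : 0 ≤ w114 (x - c) := w114_nonneg _
  have h4 : 0 ≤ (1 + ‖x - c‖) ^ (-(4 : ℝ)) := by positivity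
  rw [norm_mul, Real.norm_of_nonneg hA0, Real.norm_eq_abs]
  by_cases hb : x ∈ ball c 1
  · rw [indicator_of_mem hb]
    set t : ℝ := ‖x - c‖⁻¹ with ht
    have ht0 : 0 ≤ t := by positivity
    have e2 : (‖x - c‖ ^ 2)⁻¹ = t ^ (2 : ℝ) := by
      rw [ht, ← inv_pow]; norm_cast
    have hgx : |g x| ≤ K * (1 + ∑ i, (‖x - R i‖⁻¹) ^ (3 / 4 : ℝ)) := by
      refine hx.trans (mul_le_mul_of_nonneg_right (le_abs_self C) ?_)
      have : 0 ≤ ∑ i, (‖x - R i‖⁻¹) ^ (3 / 4 : ℝ) :=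
        Finset.sum_nonneg fun i _ => by positivity
      linarith
    have b0 : t ^ (2 : ℝ) * 1 ≤ w114 (x - c) + 2 := by
      have h := rpow_mul_le ht0 zero_le_one (by norm_num : (0 : ℝ) ≤ 2)
        (by norm_num : (0 : ℝ) ≤ 3 / 4) (by norm_num)
      rw [Real.one_rpow, Real.one_rpow, show (2 : ℝ) + 3 / 4 = 11 / 4 by norm_num] at h
      have h' := rpow114_le (x - c)
      linarith
    have b1 : ∀ i, t ^ (2 : ℝ) * (‖x - R i‖⁻¹) ^ (3 / 4 : ℝ) ≤
        w114 (x - c) + w114 (x - R i) + 2 := by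
      intro i
      have h := rpow_mul_le ht0 (by positivity : 0 ≤ ‖x - R i‖⁻¹) (by norm_num : (0 : ℝ) ≤ 2)
        (by norm_num : (0 : ℝ) ≤ 3 / 4) (by norm_num)
      rw [show (2 : ℝ) + 3 / 4 = 11 / 4 by norm_num] at h
      have h1 := rpow114_le (x - c)
      have h2 := rpow114_le (x - R i)
      linarith
    have b2 : t ^ (2 : ℝ) * (1 + ∑ i, (‖x - R i‖⁻¹) ^ (3 / 4 : ℝ)) ≤
        (1 + n) * w114 (x - c) + (∑ i, w114 (x - R i)) + (2 + 2 * n) := by
      rw [mul_add, Finset.mul_sum]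
      have h3 : ∑ i, t ^ (2 : ℝ) * (‖x - R i‖⁻¹) ^ (3 / 4 : ℝ) ≤
          ∑ i, (w114 (x - c) + w114 (x - R i) + 2) := Finset.sum_le_sum fun i _ => b1 i
      have h4 : ∑ i, (w114 (x - c) + w114 (x - R i) + 2) =
          n * w114 (x - c) + (∑ i, w114 (x - R i)) + n * 2 := by
        rw [Finset.sum_add_distrib, Finset.sum_add_distrib, Finset.sum_const, Finset.sum_const,
          Finset.card_univ, nsmul_eq_mul, nsmul_eq_mul]
      linarith
    rw [e2]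
    calc t ^ (2 : ℝ) * |g x| ≤ t ^ (2 : ℝ) * (K * (1 + ∑ i, (‖x - R i‖⁻¹) ^ (3 / 4 : ℝ))) :=
          mul_le_mul_of_nonneg_left hgx (by positivity)
      _ = K * (t ^ (2 : ℝ) * (1 + ∑ i, (‖x - R i‖⁻¹) ^ (3 / 4 : ℝ))) := by ring
      _ ≤ K * ((1 + n) * w114 (x - c) + (∑ i, w114 (x - R i)) + (2 + 2 * n)) :=
          mul_le_mul_of_nonneg_left b2 hK0
      _ ≤ _ := by nlinarith [sq_nonneg (g x)]
  · rw [indicator_of_notMem hb]
    have h1 : 1 ≤ ‖x - c‖ := by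
      rw [mem_ball, dist_eq_norm, not_lt] at hb
      exact hb
    have h5 : ((‖x - c‖ ^ 2)⁻¹) ^ 2 ≤ 16 * (1 + ‖x - c‖) ^ (-(4 : ℝ)) := by
      have e1 : (1 + ‖x - c‖) ^ (-(4 : ℝ)) = ((1 + ‖x - c‖) ^ 4)⁻¹ := by
        rw [Real.rpow_neg (by positivity)]; norm_cast
      rw [e1, inv_pow, ← pow_mul, show 2 * 2 = 4 by norm_num]
      rw [inv_le_iff_one_le_mul₀ (by positivity)]
      have h6 : (1 + ‖x - c‖) ^ 4 ≤ (2 * ‖x - c‖) ^ 4 :=
        pow_le_pow_left₀ (by positivity) (by linarith) 4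
      have h7 : 16 * ((1 + ‖x - c‖) ^ 4)⁻¹ * ‖x - c‖ ^ 4 =
          (2 * ‖x - c‖) ^ 4 / (1 + ‖x - c‖) ^ 4 := by
        field_simp
        ring
      rw [h7, le_div_iff₀ (by positivity)]
      linarith
    have h8 : (‖x - c‖ ^ 2)⁻¹ * |g x| ≤ ((‖x - c‖ ^ 2)⁻¹) ^ 2 + g x ^ 2 := by
      have := sq_nonneg ((‖x - c‖ ^ 2)⁻¹ - |g x|)
      rw [← sq_abs (g x)]
      nlinarith [mul_nonneg hA0 (abs_nonneg (g x))]
    have h9 : 0 ≤ K * ((1 + n) * w114 (x - c) + ∑ i, w114 (x - R i)) := by positivity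
    linarith

end gen

section sol

variable {ι : Type*} [Fintype ι]

/-- gradient of the potential of the nuclei -/
noncomputable def gVpt (z : ι → ℝ) (R : ι → X) (x : X) : X := ∑ i, z i • gradP (R i) x

theorem hasGradientAt_Vpt (z : ι → ℝ) (R : ι → X) {x : X} (hx : ∀ i, x ≠ R i) :
    HasGradientAt (Vpt z R) (gVpt z R x) x := by
  have h1 : ∀ i ∈ (Finset.univ : Finset ι), HasFDerivAt (fun y : X => z i * ‖y - R i‖⁻¹)
      (z i • InnerProductSpace.toDual ℝ X (gradP (R i) x)) x := fun i _ => by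
    have h := (hasGradientAt_inv_norm (hx i)).hasFDerivAt.const_mul (z i)
    exact h
  have h2 := HasFDerivAt.fun_sum h1
  rw [hasGradientAt_iff_hasFDerivAt]
  refine h2.congr_fderiv ?_
  unfold gVpt
  rw [map_sum]
  refine Finset.sum_congr rfl fun i _ => ?_
  rw [map_smul]

theorem Vpt_continuousAt (z : ι → ℝ) (R : ι → X) {x : X} (hx : ∀ i, x ≠ R i) :
    ContinuousAt (Vpt z R) x := (hasGradientAt_Vpt z R hx).hasFDerivAt.continuousAt

/-- regularity of the potential of the solution -/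
theorem sol_facts {z : ι → ℝ} (hz : ∀ i, 0 ≤ z i) (R : ι → X) {φ₀ : ℝ} (hφ : 0 < φ₀)
    {ρ : X → ℝ} (hρ : TC ρ) (heq : ∀ x, ρ x = tf (Vpt z R x - pot ρ x - φ₀)) :
    TrialK (range R) (pot ρ) (gradV ρ) ∧
      (∃ C : ℝ, 0 ≤ C ∧ ∀ x, (∀ i, x ≠ R i) →
        ‖gradV ρ x‖ ≤ C * (1 + ∑ i, (‖x - R i‖⁻¹) ^ (3 / 4 : ℝ))) ∧
      ∫ x, ‖gradV ρ x‖ ^ 2 = 4 * Real.pi * En ρ ρ := by
  have hp0 : ∀ x, 0 ≤ pot ρ x := pot_nonneg hρ.nonneg
  have hle : ∀ x, |ρ x| ≤ gdom φ₀ z R x := fun x => by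
    rw [abs_of_nonneg (hρ.nonneg x), heq x]
    exact tf_mono (by have := hp0 x; linarith)
  have hloc : ∀ x, x ∉ range R → ∃ δ > 0, ∃ M, ∀ y ∈ ball x δ, |ρ y| ≤ M := by
    intro x hx
    have hx' : ∀ i, x ≠ R i := fun i h => hx ⟨i, h.symm⟩
    have hc : ContinuousAt (gdom φ₀ z R) x :=
      tf_continuous.continuousAt.comp ((Vpt_continuousAt z R hx').sub continuousAt_const)
    exact locbdd_of_continuousAt hle hc
  refine ⟨trialK_pot (finite_range R) hρ hloc, ?_, energy_TC (finite_range R) hρ hloc⟩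
  obtain ⟨C, hC, hC'⟩ := tf_Vn_le hz R
  obtain ⟨r, hr0, hr⟩ := Vpt_far hz R hφ
  have hs : ∀ y, r ≤ ‖y‖ → ρ y = 0 := fun y hy => by
    rw [heq y]
    exact tf_of_nonpos (by have := hr y hy; have := hp0 y; linarith)
  obtain ⟨D, hD, hD'⟩ := gradV_bound_nuc hρ.meas R hC
    (fun y => (hle y).trans (hC' φ₀ hφ.le y)) hs
  exact ⟨D, hD, fun x hx => (hD' x hx).2⟩

/-- the density of the calibrated integral -/
noncomputable def Fcal (φ₀ : ℝ) (z : ι → ℝ) (R : ι → X) (ρ k : X → ℝ) (k' : X → X) (x : X) : ℝ :=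
  4 * (ρ x * (Vpt z R x + k x)) -
    gam (Vpt z R x - pot ρ x - φ₀) * (Vpt z R x + k x) ^ 2 +
    (4 * Real.pi)⁻¹ * (‖gVpt z R x - gradV ρ x‖ ^ 2 - ‖gVpt z R x + k' x‖ ^ 2)

theorem inner_gVpt {z : ι → ℝ} {R : ι → X} {S : Set X} (hS : S.Finite) {k : X → ℝ} {k' : X → X}
    (hk : TrialK S k k') {C : ℝ}
    (hkb : ∀ᵐ x : X, ‖k' x‖ ≤ C * (1 + ∑ i, (‖x - R i‖⁻¹) ^ (3 / 4 : ℝ))) :
    Integrable (fun x => ⟪gVpt z R x, k' x⟫) ∧
      ∫ x, ⟪gVpt z R x, k' x⟫ = 4 * Real.pi * ∑ i, z i * k (R i) := by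
  have hI : ∀ i, Integrable (fun x => (‖x - R i‖ ^ 2)⁻¹ * ‖k' x‖) := fun i =>
    inv_sq_mul_integrable hk.meas.norm hk.sq R (C := C) (by
      filter_upwards [hkb] with x hx
      rwa [abs_of_nonneg (norm_nonneg _)]) (R i)
  have hP := fun i => weak_point hS hk (R i) (hI i)
  have e : ∀ x, ⟪gVpt z R x, k' x⟫ = ∑ i, z i * ⟪gradP (R i) x, k' x⟫ := fun x => by
    unfold gVpt
    rw [sum_inner]
    refine Finset.sum_congr rfl fun i _ => ?_
    rw [real_inner_smul_left]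
  have hi : Integrable (fun x => ∑ i, z i * ⟪gradP (R i) x, k' x⟫) :=
    integrable_finsetSum _ fun i _ => (hP i).1.const_mul (z i)
  constructor
  · exact hi.congr (Eventually.of_forall fun x => (e x).symm)
  · simp_rw [e]
    rw [integral_finsetSum _ fun i _ => (hP i).1.const_mul (z i), Finset.mul_sum]
    refine Finset.sum_congr rfl fun i _ => ?_
    rw [integral_const_mul, (hP i).2]
    ring

/-- **T7a**: the second variation as an integral of the calibration density -/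
theorem calib_alg {z : ι → ℝ} (hz : ∀ i, 0 ≤ z i) (R : ι → X) {φ₀ : ℝ} (hφ : 0 < φ₀)
    {ρ : X → ℝ} (hρ : TC ρ) (heq : ∀ x, ρ x = tf (Vpt z R x - pot ρ x - φ₀))
    {S : Set X} (hS : S.Finite) {k : X → ℝ} {k' : X → X} (hk : TrialK S k k') {C : ℝ}
    (hkb : ∀ᵐ x : X, ‖k' x‖ ≤ C * (1 + ∑ i, (‖x - R i‖⁻¹) ^ (3 / 4 : ℝ))) :
    Integrable (Fcal φ₀ z R ρ k k') ∧
      Vtr φ₀ z R ρ k ((8 * Real.pi)⁻¹ * ∫ x, ‖k' x‖ ^ 2) =
        (∫ x, Fcal φ₀ z R ρ k k' x) + ∑ i, 2 * z i * (Vpt z R (R i) + k (R i)) := by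
  have hpi : (0 : ℝ) < Real.pi := Real.pi_pos
  obtain ⟨hT, ⟨D, hD0, hD⟩, hE⟩ := sol_facts hz R hφ hρ heq
  obtain ⟨B, hB⟩ := hk.bdd
  have hB0 : 0 ≤ B := (abs_nonneg _).trans (hB 0)
  have hkm := hk.cont.measurable
  have hoff : ∀ᵐ x : X, ∀ i, x ≠ R i := by
    have h0 : volume (range R) = 0 := finite_null (finite_range R)
    have h1 : ∀ᵐ x : X, x ∉ range R := measure_eq_zero_iff_ae_notMem.mp h0
    filter_upwards [h1] with x hx i h
    exact hx ⟨i, h.symm⟩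
  have hDb : ∀ᵐ x : X, ‖gradV ρ x‖ ≤ D * (1 + ∑ i, (‖x - R i‖⁻¹) ^ (3 / 4 : ℝ)) := by
    filter_upwards [hoff] with x hx
    exact hD x hx
  obtain ⟨a1, a2⟩ := inner_gVpt (z := z) (finite_range R) hT hDb
  obtain ⟨b1, b2⟩ := inner_gVpt (z := z) (R := R) hS hk hkb
  have c1 : Integrable (fun x => Vpt z R x * ρ x) := hρ.Vpt_int z R
  have c2 : ∫ x, Vpt z R x * ρ x = ∑ i, z i * pot ρ (R i) := hρ.Vpt_eq z R
  have d1 : Integrable (fun x => ρ x * k x) := hρ.int.mul_bdd hkm.aestronglyMeasurable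
    (Eventually.of_forall fun x => by rw [Real.norm_eq_abs]; exact hB x)
  have g1 : Integrable (fun x => gam (Vpt z R x - pot ρ x - φ₀) * (Vpt z R x + k x) ^ 2) := by
    refine gam_integrable hz R hφ hρ hB0 (((Vpt_meas z R).add hkm).pow_const 2) fun x => ?_
    have hV := Vpt_nonneg hz R x
    have := abs_le.mp (hB x)
    rw [abs_of_nonneg (sq_nonneg _)]
    exact sq_le_sq' (by linarith) (by linarith)
  have eF : ∀ x, Fcal φ₀ z R ρ k k' x = 4 * (Vpt z R x * ρ x) + 4 * (ρ x * k x) -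
      gam (Vpt z R x - pot ρ x - φ₀) * (Vpt z R x + k x) ^ 2 +
      (4 * Real.pi)⁻¹ * (‖gradV ρ x‖ ^ 2 - 2 * ⟪gVpt z R x, gradV ρ x⟫ -
        2 * ⟪gVpt z R x, k' x⟫ - ‖k' x‖ ^ 2) := by
    intro x
    unfold Fcal
    rw [norm_sub_sq_real, norm_add_sq_real]
    ring
  have i1 : Integrable (fun x => 4 * (Vpt z R x * ρ x) + 4 * (ρ x * k x)) :=
    (c1.const_mul 4).add (d1.const_mul 4)
  have i2 : Integrable (fun x => 4 * (Vpt z R x * ρ x) + 4 * (ρ x * k x) -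
      gam (Vpt z R x - pot ρ x - φ₀) * (Vpt z R x + k x) ^ 2) := i1.sub g1
  have i3 : Integrable (fun x => ‖gradV ρ x‖ ^ 2 - 2 * ⟪gVpt z R x, gradV ρ x⟫) :=
    hT.sq.sub (a1.const_mul 2)
  have i4 : Integrable (fun x => ‖gradV ρ x‖ ^ 2 - 2 * ⟪gVpt z R x, gradV ρ x⟫ -
      2 * ⟪gVpt z R x, k' x⟫) := i3.sub (b1.const_mul 2)
  have i5 : Integrable (fun x => ‖gradV ρ x‖ ^ 2 - 2 * ⟪gVpt z R x, gradV ρ x⟫ -
      2 * ⟪gVpt z R x, k' x⟫ - ‖k' x‖ ^ 2) := i4.sub hk.sq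
  constructor
  · exact (i2.add (i5.const_mul _)).congr (Eventually.of_forall fun x => (eF x).symm)
  · have hF : ∫ x, Fcal φ₀ z R ρ k k' x = 4 * (∑ i, z i * pot ρ (R i)) + 4 * (∫ x, ρ x * k x) -
        (∫ x, gam (Vpt z R x - pot ρ x - φ₀) * (Vpt z R x + k x) ^ 2) +
        (4 * Real.pi)⁻¹ * (4 * Real.pi * En ρ ρ - 2 * (4 * Real.pi * ∑ i, z i * pot ρ (R i)) -
          2 * (4 * Real.pi * ∑ i, z i * k (R i)) - ∫ x, ‖k' x‖ ^ 2) := by
      simp_rw [eF]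
      rw [integral_add i2 (i5.const_mul _), integral_sub i1 g1,
        integral_add (c1.const_mul 4) (d1.const_mul 4), integral_const_mul, integral_const_mul,
        integral_const_mul, integral_sub i4 hk.sq, integral_sub i3 (b1.const_mul 2),
        integral_sub hT.sq (a1.const_mul 2), integral_const_mul, integral_const_mul, c2, a2, b2,
        hE]
    have hU : 4 * Unuc z R = ∑ i, 2 * z i * Vpt z R (R i) := by
      unfold Unuc Vpt
      rw [Finset.mul_sum, Finset.mul_sum]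
      refine Finset.sum_congr rfl fun i _ => ?_
      rw [Finset.mul_sum, Finset.mul_sum, Finset.mul_sum]
      refine Finset.sum_congr rfl fun j _ => ?_
      ring
    have hc : ∑ i, 2 * z i * (Vpt z R (R i) + k (R i)) =
        4 * Unuc z R + 2 * ∑ i, z i * k (R i) := by
      rw [hU, Finset.mul_sum, ← Finset.sum_add_distrib]
      refine Finset.sum_congr rfl fun i _ => ?_
      ring
    rw [hc, hF]
    unfold Vtr
    field_simp
    ring

/-- the constant at the nucleus `i` -/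
theorem calib_nuc {z : ι → ℝ} {R : ι → X} (hR : Function.Injective R) {k : X → ℝ}
    (hk : Continuous k) (i : ι) :
    Tendsto (fun x => Vpt z R x + k x - z i * ‖x - R i‖⁻¹) (𝓝 (R i))
      (𝓝 (Vpt z R (R i) + k (R i))) := by
  classical
  have e : ∀ x, Vpt z R x + k x - z i * ‖x - R i‖⁻¹ =
      (∑ j ∈ Finset.univ.erase i, z j * ‖x - R j‖⁻¹) + k x := by
    intro x
    unfold Vpt
    rw [← Finset.add_sum_erase _ _ (Finset.mem_univ i)]
    ring
  have e2 : Vpt z R (R i) + k (R i) =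
      (∑ j ∈ Finset.univ.erase i, z j * ‖R i - R j‖⁻¹) + k (R i) := by
    have := e (R i)
    rw [sub_self, norm_zero, inv_zero, mul_zero, sub_zero] at this
    exact this
  simp_rw [e]
  rw [e2]
  refine Tendsto.add (tendsto_finsetSum _ fun j hj => ?_) hk.continuousAt
  have hne : R i - R j ≠ 0 := sub_ne_zero.mpr (hR.ne (Finset.ne_of_mem_erase hj).symm)
  have hc : ContinuousAt (fun x : X => z j * ‖x - R j‖⁻¹) (R i) := by
    refine ContinuousAt.mul continuousAt_const (ContinuousAt.inv₀ ?_ (norm_ne_zero_iff.mpr hne))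
    fun_prop
  exact hc

end sol

end Pool.Agent.TF

end

section
/-! Interface for the gradient trial field `Y = s (ψ, G) G - c`, `G = √(|∇ψ|² + ε²)`:
second derivatives of the solution, and the pointwise quantities. -/

set_option linter.unusedSectionVars false

set_option linter.unusedVariables false

namespace Pool.Agent.TF.Grd

open MeasureTheory Set Metric Filter Topology

open scoped ENNReal NNReal RealInnerProductSpace Gradient

section rad

variable {q G₁ : ℝ} {s s₁ s₂ e : ℝ → ℝ → ℝ}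

theorem rad_deriv (h : RadFn q G₁ s s₁ s₂ e) (p g : ℝ) (hg : 0 < g) :
    HasFDerivAt (fun q : ℝ × ℝ => s q.1 q.2)
      (s₁ p g • ContinuousLinearMap.fst ℝ ℝ ℝ + s₂ p g • ContinuousLinearMap.snd ℝ ℝ ℝ) (p, g) :=
  (h.c1.strict isOpen_HP (q := (p, g)) hg).hasFDerivAt

theorem rad_cont (h : RadFn q G₁ s s₁ s₂ e) :
    ContinuousOn (fun q : ℝ × ℝ => s q.1 q.2) {q | 0 < q.2} :=
  fun p hp => (rad_deriv h p.1 p.2 hp).continuousAt.continuousWithinAt

theorem rad_cont₁ (h : RadFn q G₁ s s₁ s₂ e) :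
    ContinuousOn (fun q : ℝ × ℝ => s₁ q.1 q.2) {q | 0 < q.2} := h.c1.c₁

theorem rad_cont₂ (h : RadFn q G₁ s s₁ s₂ e) :
    ContinuousOn (fun q : ℝ × ℝ => s₂ q.1 q.2) {q | 0 < q.2} := h.c1.c₂

end rad

section sol

variable {ι : Type*} [Fintype ι]

/-- Hilbert-Schmidt norm squared -/
noncomputable def hs (H : X →L[ℝ] X) : ℝ := ∑ i, ‖H (stdOrthonormalBasis ℝ X i)‖ ^ 2

/-- trace -/
noncomputable def tr (H : X →L[ℝ] X) : ℝ :=
  ∑ i, ⟪H (stdOrthonormalBasis ℝ X i), stdOrthonormalBasis ℝ X i⟫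

/-- second derivative of `|x - c|⁻¹` -/
noncomputable def hP (c x : X) : X →L[ℝ] X :=
  (3 * (‖x - c‖ ^ 5)⁻¹) • (innerSL ℝ (x - c)).smulRight (x - c) -
    (‖x - c‖ ^ 3)⁻¹ • ContinuousLinearMap.id ℝ X

theorem hP_apply (c x a : X) : hP c x a =
    (3 * (‖x - c‖ ^ 5)⁻¹ * ⟪x - c, a⟫) • (x - c) - (‖x - c‖ ^ 3)⁻¹ • a := by
  simp only [hP, sub_apply, smul_apply, ContinuousLinearMap.smulRight_apply,
    innerSL_apply_apply, ContinuousLinearMap.id_apply, smul_smul]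

/-- second derivative of the potential of the nuclei -/
noncomputable def hVpt (z : ι → ℝ) (R : ι → X) (x : X) : X →L[ℝ] X := ∑ i, z i • hP (R i) x

/-- the potential minus the chemical potential, and its gradient -/
noncomputable def psi (φ₀ : ℝ) (z : ι → ℝ) (R : ι → X) (ρ : X → ℝ) (x : X) : ℝ :=
  Vpt z R x - pot ρ x - φ₀

noncomputable def psi' (z : ι → ℝ) (R : ι → X) (ρ : X → ℝ) (x : X) : X :=
  gVpt z R x - gradV ρ x

/-- second derivatives of the solution off the nuclei -/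
structure HessSol (z : ι → ℝ) (R : ι → X) (ρ : X → ℝ) (H : X → X →L[ℝ] X) : Prop where
  deriv : ∀ x, (∀ i, x ≠ R i) → HasFDerivAt (psi' z R ρ) (H x) x
  cont : ContinuousOn H (range R)ᶜ
  symm : ∀ x, (∀ i, x ≠ R i) → ∀ a b, ⟪H x a, b⟫ = ⟪a, H x b⟫
  trace : ∀ x, (∀ i, x ≠ R i) → tr (H x) = 4 * Real.pi * ρ x
  near : ∃ C, 0 ≤ C ∧ ∀ x, (∀ i, x ≠ R i) →
    ‖H x - hVpt z R x‖ ≤ C * (1 + ∑ i, (‖x - R i‖⁻¹) ^ (7 / 4 : ℝ))
  far : ∃ C N, 0 ≤ C ∧ 0 < N ∧ ∀ x, N ≤ ‖x‖ → ‖H x‖ ≤ C * (‖x‖ ^ 2)⁻¹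

/-- regularised modulus of the gradient -/
noncomputable def Gm (ε : ℝ) (v : X) : ℝ := √(‖v‖ ^ 2 + ε ^ 2)

theorem Gm_sq (ε : ℝ) (v : X) : Gm ε v ^ 2 = ‖v‖ ^ 2 + ε ^ 2 :=
  Real.sq_sqrt (by positivity)

theorem Gm_pos {ε : ℝ} (hε : 0 < ε) (v : X) : 0 < Gm ε v := Real.sqrt_pos.mpr (by positivity)

/-- gradient of the regularised modulus -/
noncomputable def gG (ε : ℝ) (v : X) (H : X →L[ℝ] X) : X := H ((Gm ε v)⁻¹ • v)

/-- gradient of `s (ψ, G)`, with `a = s₁`, `b = s₂` -/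
noncomputable def gs (ε a b : ℝ) (v : X) (H : X →L[ℝ] X) : X := a • v + b • gG ε v H

end sol

end Pool.Agent.TF.Grd

end

section
/-! First derivatives of the fields of the gradient trial: `ψ`, `G`, `s (ψ, G)`, `s G - c`. -/

set_option linter.unusedSectionVars false

set_option linter.unusedVariables false

namespace Pool.Agent.TF.Grd

open MeasureTheory Set Metric Filter Topology

open scoped ENNReal NNReal RealInnerProductSpace Gradient

variable {ι : Type*} [Fintype ι]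

theorem off_nhds (R : ι → X) {x : X} (hx : ∀ i, x ≠ R i) :
    ∃ δ : ℝ, 0 < δ ∧ ∀ y ∈ ball x δ, ∀ i, y ≠ R i := by
  have h : IsOpen (range R)ᶜ := (finite_range R).isClosed.isOpen_compl
  obtain ⟨δ, hδ, h1⟩ := Metric.isOpen_iff.mp h x (by rintro ⟨i, hi⟩; exact hx i hi.symm)
  exact ⟨δ, hδ, fun y hy i hi => h1 hy ⟨i, hi.symm⟩⟩

theorem off_eventually (R : ι → X) {x : X} (hx : ∀ i, x ≠ R i) :
    ∀ᶠ y in 𝓝 x, ∀ i, y ≠ R i := by
  obtain ⟨δ, hδ, h⟩ := off_nhds R hx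
  filter_upwards [ball_mem_nhds x hδ] with y hy using h y hy

theorem off_ae (R : ι → X) : ∀ᵐ x : X, ∀ i, x ≠ R i := by
  have := nontriv (V := X)
  exact ae_off_range R

/-- continuous gradient off the nuclei implies locally Lipschitz there -/
theorem lipAt_off {R : ι → X} {k : X → ℝ} {k' : X → X}
    (h : ∀ x, (∀ i, x ≠ R i) → HasGradientAt k (k' x) x)
    (hc : ∀ x, (∀ i, x ≠ R i) → ContinuousAt k' x) :
    ∀ x, (∀ i, x ≠ R i) → LipAt k x := by
  intro x hx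
  obtain ⟨δ, hδ, h1⟩ := off_nhds R hx
  exact lipAt_of_gradient hδ (fun y hy => h y (h1 y hy)) (hc x hx)

theorem locLip_off {R : ι → X} {k : X → ℝ} {k' : X → X}
    (h : ∀ x, (∀ i, x ≠ R i) → HasGradientAt k (k' x) x)
    (hc : ∀ x, (∀ i, x ≠ R i) → ContinuousAt k' x) : Flux.LocLip R k :=
  locLip_of_lipAt (lipAt_off h hc)

theorem locInt_off {E : Type*} [NormedAddCommGroup E] {R : ι → X} {f : X → E}
    (h : ∀ x, (∀ i, x ≠ R i) → ContinuousAt f x) : Flux.LocInt R f := by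
  intro K hK hR
  refine ContinuousOn.integrableOn_compact hK fun x hx => (h x fun i hi => ?_).continuousWithinAt
  exact hR i (hi ▸ hx)

section sol

variable {z : ι → ℝ} {R : ι → X} {φ₀ : ℝ} {ρ : X → ℝ}

theorem pot_grad (hz : ∀ i, 0 ≤ z i) (hφ : 0 < φ₀) (hρ : TC ρ)
    (heq : ∀ x, ρ x = tf (Vpt z R x - pot ρ x - φ₀)) {x : X} (hx : ∀ i, x ≠ R i) :
    HasGradientAt (pot ρ) (gradV ρ x) x ∧ ContinuousAt (gradV ρ) x := by
  have hp0 : ∀ x, 0 ≤ pot ρ x := pot_nonneg hρ.nonneg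
  have hle : ∀ x, |ρ x| ≤ gdom φ₀ z R x := fun x => by
    rw [abs_of_nonneg (hρ.nonneg x), heq x]
    exact tf_mono (by have := hp0 x; linarith)
  have hc : ContinuousAt (gdom φ₀ z R) x :=
    tf_continuous.continuousAt.comp ((Vpt_continuousAt z R hx).sub continuousAt_const)
  obtain ⟨δ, hδ, M, hM⟩ := locbdd_of_continuousAt hle hc
  exact (loc_grad hρ.meas hρ.int hδ hM).2

theorem psi_grad (hz : ∀ i, 0 ≤ z i) (hφ : 0 < φ₀) (hρ : TC ρ)
    (heq : ∀ x, ρ x = tf (Vpt z R x - pot ρ x - φ₀)) {x : X} (hx : ∀ i, x ≠ R i) :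
    HasGradientAt (psi φ₀ z R ρ) (psi' z R ρ x) x := by
  have h1 := (hasGradientAt_Vpt z R hx).hasFDerivAt.sub
    (pot_grad hz hφ hρ heq hx).1.hasFDerivAt
  rw [← map_sub] at h1
  exact h1.sub_const φ₀

theorem psi_cont (hz : ∀ i, 0 ≤ z i) (hφ : 0 < φ₀) (hρ : TC ρ)
    (heq : ∀ x, ρ x = tf (Vpt z R x - pot ρ x - φ₀)) {x : X} (hx : ∀ i, x ≠ R i) :
    ContinuousAt (psi φ₀ z R ρ) x :=
  (psi_grad hz hφ hρ heq hx).hasFDerivAt.continuousAt

variable {H : X → X →L[ℝ] X}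

theorem HessSol.contAt (h : HessSol z R ρ H) {x : X} (hx : ∀ i, x ≠ R i) : ContinuousAt H x := by
  refine h.cont.continuousAt ?_
  exact (finite_range R).isClosed.isOpen_compl.mem_nhds (by rintro ⟨i, hi⟩; exact hx i hi.symm)

theorem HessSol.cont' (h : HessSol z R ρ H) {x : X} (hx : ∀ i, x ≠ R i) :
    ContinuousAt (psi' z R ρ) x := (h.deriv x hx).continuousAt

variable {ε : ℝ}

theorem Gm_continuous (ε : ℝ) : Continuous (Gm ε) := by
  unfold Gm
  fun_prop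

theorem le_Gm (ε : ℝ) (v : X) : ‖v‖ ≤ Gm ε v := by
  rw [← Real.sqrt_sq (norm_nonneg v)]
  exact Real.sqrt_le_sqrt (by nlinarith [sq_nonneg ε])

theorem eps_le_Gm {ε : ℝ} (hε : 0 ≤ ε) (v : X) : ε ≤ Gm ε v := by
  conv_lhs => rw [← Real.sqrt_sq hε]
  exact Real.sqrt_le_sqrt (by nlinarith [sq_nonneg ‖v‖])

theorem G_grad (h : HessSol z R ρ H) (hε : 0 < ε) {x : X} (hx : ∀ i, x ≠ R i) :
    HasGradientAt (fun y => Gm ε (psi' z R ρ y)) (gG ε (psi' z R ρ x) (H x)) x := by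
  set v : X := psi' z R ρ x with hv
  have hG := Gm_pos hε v
  have h1 : HasFDerivAt (fun y => ‖psi' z R ρ y‖ ^ 2 + ε ^ 2)
      ((2 • (innerSL ℝ v)).comp (H x)) x :=
    ((hasStrictFDerivAt_norm_sq v).hasFDerivAt.comp x (h.deriv x hx)).add_const _
  have h2 := h1.sqrt (by
    have : 0 < ‖psi' z R ρ x‖ ^ 2 + ε ^ 2 := by positivity
    exact this.ne')
  rw [hasGradientAt_iff_hasFDerivAt]
  refine h2.congr_fderiv ?_
  ext a
  have e1 : ⟪v, (H x) a⟫ = ⟪(H x) v, a⟫ := (h.symm x hx v a).symm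
  simp only [smul_apply, ContinuousLinearMap.comp_apply, innerSL_apply_apply, smul_eq_mul,
    InnerProductSpace.toDual_apply_apply, gG, map_smul, e1, nsmul_eq_mul]
  have e2 : √(‖psi' z R ρ x‖ ^ 2 + ε ^ 2) = Gm ε v := rfl
  rw [e2]
  field_simp
  push_cast
  ring

theorem G_grad_cont (h : HessSol z R ρ H) (hε : 0 < ε) {x : X} (hx : ∀ i, x ≠ R i) :
    ContinuousAt (fun y => gG ε (psi' z R ρ y) (H y)) x := by
  have h1 := h.contAt hx
  have h2 := h.cont' hx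
  have h3 : ContinuousAt (fun y => Gm ε (psi' z R ρ y)) x :=
    (Gm_continuous ε).continuousAt.comp h2
  exact h1.clm_apply ((h3.inv₀ (Gm_pos hε _).ne').smul h2)

/-- `s (ψ, G)` -/
noncomputable def Sf (ε φ₀ : ℝ) (s : ℝ → ℝ → ℝ) (z : ι → ℝ) (R : ι → X) (ρ : X → ℝ) (x : X) : ℝ :=
  s (psi φ₀ z R ρ x) (Gm ε (psi' z R ρ x))

/-- the gradient of `s (ψ, G)` -/
noncomputable def Sf' (ε φ₀ : ℝ) (s₁ s₂ : ℝ → ℝ → ℝ) (z : ι → ℝ) (R : ι → X) (ρ : X → ℝ)
    (H : X → X →L[ℝ] X) (x : X) : X :=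
  gs ε (Sf ε φ₀ s₁ z R ρ x) (Sf ε φ₀ s₂ z R ρ x) (psi' z R ρ x) (H x)

/-- the multiplier `s G - c` -/
noncomputable def Yf (ε φ₀ : ℝ) (s : ℝ → ℝ → ℝ) (c : ℝ) (z : ι → ℝ) (R : ι → X) (ρ : X → ℝ)
    (x : X) : ℝ := Sf ε φ₀ s z R ρ x * Gm ε (psi' z R ρ x) - c

noncomputable def Yf' (ε φ₀ : ℝ) (s s₁ s₂ : ℝ → ℝ → ℝ) (z : ι → ℝ) (R : ι → X) (ρ : X → ℝ)
    (H : X → X →L[ℝ] X) (x : X) : X :=
  Gm ε (psi' z R ρ x) • Sf' ε φ₀ s₁ s₂ z R ρ H x +
    Sf ε φ₀ s z R ρ x • gG ε (psi' z R ρ x) (H x)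

variable {q G₁ c : ℝ} {s s₁ s₂ e : ℝ → ℝ → ℝ}

theorem Sf_grad (hz : ∀ i, 0 ≤ z i) (hφ : 0 < φ₀) (hρ : TC ρ)
    (heq : ∀ x, ρ x = tf (Vpt z R x - pot ρ x - φ₀)) (h : HessSol z R ρ H) (hε : 0 < ε)
    (hs : RadFn q G₁ s s₁ s₂ e) {x : X} (hx : ∀ i, x ≠ R i) :
    HasGradientAt (Sf ε φ₀ s z R ρ) (Sf' ε φ₀ s₁ s₂ z R ρ H x) x := by
  have h1 := psi_grad hz hφ hρ heq hx
  have h2 := G_grad h hε hx
  have h3 := rad_deriv hs (psi φ₀ z R ρ x) (Gm ε (psi' z R ρ x)) (Gm_pos hε _)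
  have h4 := h3.comp x (h1.hasFDerivAt.prodMk h2.hasFDerivAt)
  rw [hasGradientAt_iff_hasFDerivAt]
  refine h4.congr_fderiv ?_
  ext a
  simp only [ContinuousLinearMap.comp_apply, add_apply, smul_apply,
    ContinuousLinearMap.prod_apply, ContinuousLinearMap.coe_fst', ContinuousLinearMap.coe_snd',
    InnerProductSpace.toDual_apply_apply, Sf', gs, Sf, inner_add_left, real_inner_smul_left,
    smul_eq_mul]

theorem Sf_cont (hz : ∀ i, 0 ≤ z i) (hφ : 0 < φ₀) (hρ : TC ρ)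
    (heq : ∀ x, ρ x = tf (Vpt z R x - pot ρ x - φ₀)) (h : HessSol z R ρ H) (hε : 0 < ε)
    {t : ℝ → ℝ → ℝ} (ht : ContinuousOn (fun q : ℝ × ℝ => t q.1 q.2) {q | 0 < q.2})
    {x : X} (hx : ∀ i, x ≠ R i) : ContinuousAt (Sf ε φ₀ t z R ρ) x := by
  have h1 := psi_cont hz hφ hρ heq hx
  have h2 : ContinuousAt (fun y => Gm ε (psi' z R ρ y)) x :=
    (Gm_continuous ε).continuousAt.comp (h.cont' hx)
  have h3 : ContinuousAt (fun q : ℝ × ℝ => t q.1 q.2)
      (psi φ₀ z R ρ x, Gm ε (psi' z R ρ x)) :=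
    ht.continuousAt ((isOpen_lt continuous_const continuous_snd).mem_nhds (Gm_pos hε _))
  exact ContinuousAt.comp (f := fun y => (psi φ₀ z R ρ y, Gm ε (psi' z R ρ y))) h3
    (h1.prodMk h2)

theorem Sf'_cont (hz : ∀ i, 0 ≤ z i) (hφ : 0 < φ₀) (hρ : TC ρ)
    (heq : ∀ x, ρ x = tf (Vpt z R x - pot ρ x - φ₀)) (h : HessSol z R ρ H) (hε : 0 < ε)
    (hs : RadFn q G₁ s s₁ s₂ e) {x : X} (hx : ∀ i, x ≠ R i) :
    ContinuousAt (Sf' ε φ₀ s₁ s₂ z R ρ H) x := by
  have h1 := Sf_cont hz hφ hρ heq h hε (rad_cont₁ hs) hx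
  have h2 := Sf_cont hz hφ hρ heq h hε (rad_cont₂ hs) hx
  exact (h1.smul (h.cont' hx)).add (h2.smul (G_grad_cont h hε hx))

theorem Yf_grad (hz : ∀ i, 0 ≤ z i) (hφ : 0 < φ₀) (hρ : TC ρ)
    (heq : ∀ x, ρ x = tf (Vpt z R x - pot ρ x - φ₀)) (h : HessSol z R ρ H) (hε : 0 < ε)
    (hs : RadFn q G₁ s s₁ s₂ e) (c : ℝ) {x : X} (hx : ∀ i, x ≠ R i) :
    HasGradientAt (Yf ε φ₀ s c z R ρ) (Yf' ε φ₀ s s₁ s₂ z R ρ H x) x := by
  have h1 := (Sf_grad hz hφ hρ heq h hε hs hx).hasFDerivAt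
  have h2 := (G_grad h hε hx).hasFDerivAt
  rw [hasGradientAt_iff_hasFDerivAt]
  refine ((h1.mul h2).sub_const c).congr_fderiv ?_
  rw [Yf', map_add, map_smul, map_smul]
  exact add_comm _ _

theorem Yf'_cont (hz : ∀ i, 0 ≤ z i) (hφ : 0 < φ₀) (hρ : TC ρ)
    (heq : ∀ x, ρ x = tf (Vpt z R x - pot ρ x - φ₀)) (h : HessSol z R ρ H) (hε : 0 < ε)
    (hs : RadFn q G₁ s s₁ s₂ e) {x : X} (hx : ∀ i, x ≠ R i) :
    ContinuousAt (Yf' ε φ₀ s s₁ s₂ z R ρ H) x := by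
  have h1 := Sf'_cont hz hφ hρ heq h hε hs hx
  have h2 := Sf_cont hz hφ hρ heq h hε (rad_cont hs) hx
  have h3 : ContinuousAt (fun y => Gm ε (psi' z R ρ y)) x :=
    (Gm_continuous ε).continuousAt.comp (h.cont' hx)
  exact (h3.smul h1).add (h2.smul (G_grad_cont h hε hx))

theorem Yf_lip (hz : ∀ i, 0 ≤ z i) (hφ : 0 < φ₀) (hρ : TC ρ)
    (heq : ∀ x, ρ x = tf (Vpt z R x - pot ρ x - φ₀)) (h : HessSol z R ρ H) (hε : 0 < ε)
    (hs : RadFn q G₁ s s₁ s₂ e) (c : ℝ) :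
    Flux.LocLip R (Yf ε φ₀ s c z R ρ) ∧ ∀ x, (∀ i, x ≠ R i) → LipAt (Yf ε φ₀ s c z R ρ) x :=
  ⟨locLip_off (fun _ => Yf_grad hz hφ hρ heq h hε hs c)
    (fun _ => Yf'_cont hz hφ hρ heq h hε hs),
   lipAt_off (fun _ => Yf_grad hz hφ hρ heq h hε hs c)
    (fun _ => Yf'_cont hz hφ hρ heq h hε hs)⟩

/-- the square of `s (ψ, G)` -/
theorem Sq_grad (hz : ∀ i, 0 ≤ z i) (hφ : 0 < φ₀) (hρ : TC ρ)
    (heq : ∀ x, ρ x = tf (Vpt z R x - pot ρ x - φ₀)) (h : HessSol z R ρ H) (hε : 0 < ε)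
    (hs : RadFn q G₁ s s₁ s₂ e) {x : X} (hx : ∀ i, x ≠ R i) :
    HasGradientAt (fun y => Sf ε φ₀ s z R ρ y ^ 2)
      ((2 * Sf ε φ₀ s z R ρ x) • Sf' ε φ₀ s₁ s₂ z R ρ H x) x := by
  have h1 := (Sf_grad hz hφ hρ heq h hε hs hx).hasFDerivAt
  rw [hasGradientAt_iff_hasFDerivAt]
  refine (h1.pow 2).congr_fderiv ?_
  rw [map_smul]
  simp

theorem Sq_cont (hz : ∀ i, 0 ≤ z i) (hφ : 0 < φ₀) (hρ : TC ρ)
    (heq : ∀ x, ρ x = tf (Vpt z R x - pot ρ x - φ₀)) (h : HessSol z R ρ H) (hε : 0 < ε)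
    (hs : RadFn q G₁ s s₁ s₂ e) {x : X} (hx : ∀ i, x ≠ R i) :
    ContinuousAt (fun y => (2 * Sf ε φ₀ s z R ρ y) • Sf' ε φ₀ s₁ s₂ z R ρ H y) x := by
  have h2 := Sf_cont hz hφ hρ heq h hε (rad_cont hs) hx
  exact (continuousAt_const.mul h2).smul (Sf'_cont hz hφ hρ heq h hε hs hx)

theorem Sq_lip (hz : ∀ i, 0 ≤ z i) (hφ : 0 < φ₀) (hρ : TC ρ)
    (heq : ∀ x, ρ x = tf (Vpt z R x - pot ρ x - φ₀)) (h : HessSol z R ρ H) (hε : 0 < ε)
    (hs : RadFn q G₁ s s₁ s₂ e) : Flux.LocLip R (fun y => Sf ε φ₀ s z R ρ y ^ 2) :=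
  locLip_off (fun _ => Sq_grad hz hφ hρ heq h hε hs) (fun _ => Sq_cont hz hφ hρ heq h hε hs)

/-! ### bounds -/

theorem rad_q_nonneg (hs : RadFn q G₁ s s₁ s₂ e) : 0 ≤ q :=
  le_trans (by have := hs.pos 0 1 one_pos; positivity) (hs.mass 0 1 one_pos)

theorem rad_le_sqrt (hs : RadFn q G₁ s s₁ s₂ e) (p : ℝ) {g : ℝ} (hg : 0 < g) :
    s p g ≤ √(q / g) := by
  apply Real.le_sqrt_of_sq_le
  rw [le_div_iff₀ hg]
  exact hs.mass p g hg

theorem rad_sq_mul_sq (hs : RadFn q G₁ s s₁ s₂ e) (p : ℝ) {g : ℝ} (hε : 0 < ε) (hg : ε ≤ g) :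
    s p g ^ 2 * ε ^ 2 ≤ q * ε := by
  have h1 := hs.mass p g (hε.trans_le hg)
  have h2 : s p g ^ 2 * ε ≤ s p g ^ 2 * g := mul_le_mul_of_nonneg_left hg (sq_nonneg _)
  nlinarith

theorem rad_mul_le (hs : RadFn q G₁ s s₁ s₂ e) (p : ℝ) {g : ℝ} (hg : 0 < g) :
    s p g * g ≤ √(q * g) := by
  apply Real.le_sqrt_of_sq_le
  have h1 := hs.mass p g hg
  nlinarith

theorem Sf_pos (hε : 0 < ε) (hs : RadFn q G₁ s s₁ s₂ e) (x : X) : 0 < Sf ε φ₀ s z R ρ x :=
  hs.pos _ _ (Gm_pos hε _)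

theorem Sf_sq_eps (hε : 0 < ε) (hs : RadFn q G₁ s s₁ s₂ e) (x : X) :
    Sf ε φ₀ s z R ρ x ^ 2 * ε ^ 2 ≤ q * ε := rad_sq_mul_sq hs _ hε (eps_le_Gm hε.le _)

theorem Sf_sq_le (hε : 0 < ε) (hs : RadFn q G₁ s s₁ s₂ e) (x : X) :
    Sf ε φ₀ s z R ρ x ^ 2 ≤ q / ε := by
  rw [le_div_iff₀ hε]
  have := Sf_sq_eps (φ₀ := φ₀) (z := z) (R := R) (ρ := ρ) hε hs x
  have h2 : (Sf ε φ₀ s z R ρ x ^ 2 * ε) * ε ≤ q * ε := by rw [mul_assoc, ← sq]; exact this
  exact le_of_mul_le_mul_right h2 hε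

/-- the limit constant -/
theorem rad_const_bound (hs : RadFn q G₁ s s₁ s₂ e) (p : ℝ) (hε : 0 < ε) :
    0 < s p ε * ε ∧ s p ε * ε ≤ √(q * ε) := ⟨mul_pos (hs.pos p ε hε) hε, rad_mul_le hs p hε⟩

end sol

end Pool.Agent.TF.Grd

end

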