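import Mathlib
import Pool.Agent.Lib.MP_9cf0c9_mp.Tr.Calib

section
/-! The calibration criterion for the solution: a pointwise inequality gives `0 ≤ Vtr`. -/

set_option linter.unusedSectionVars false

set_option linter.unusedVariables false

set_option linter.style.haveILetI false

namespace Pool.Agent.TF

open MeasureTheory Set Metric Filter Topology

open scoped ENNReal NNReal RealInnerProductSpace Gradient

variable {ι : Type*} [Fintype ι]

theorem locInt_of_integrable {E : Type*} [NormedAddCommGroup E] (R : ι → X) {f : X → E}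
    (hf : Integrable f) : Flux.LocInt R f := fun _ _ _ => hf.integrableOn

theorem gVpt_meas (z : ι → ℝ) (R : ι → X) : Measurable (gVpt z R) := by
  unfold gVpt
  exact Finset.measurable_sum _ fun i _ => (gradP_meas (R i)).const_smul (z i)

/-- the weak equation for the gradient of `V - pot ρ` -/
theorem weak_sol (z : ι → ℝ) (R : ι → X) {ρ : X → ℝ} (hρ : TC ρ) {u : X → ℝ} {C : ℝ≥0}
    (hu : LipschitzWith C u) (hc : HasCompactSupport u) :
    Integrable (fun x => ⟪gVpt z R x - gradV ρ x, ∇ u x⟫) ∧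
      ∫ x, ⟪gVpt z R x - gradV ρ x, ∇ u x⟫ =
        4 * Real.pi * (∑ i, z i * u (R i)) - 4 * Real.pi * ∫ x, ρ x * u x := by
  obtain ⟨w1, w2⟩ := weak_poisson hρ.int hρ.meas hu hc
  obtain ⟨r, hr0, hr⟩ := exists_radius hc
  have hgm : Measurable fun x => ∇ u x := measurable_gradient u
  have hg0 : ∀ x, x ∉ ball (0 : X) r → ∇ u x = 0 := by
    intro x hx
    have hx' : x ∉ tsupport u := fun h => hx (hr h)
    have h1 : u =ᶠ[𝓝 x] fun _ => 0 := by
      have := notMem_tsupport_iff_eventuallyEq.mp hx'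
      exact this
    rw [h1.gradient_eq]
    exact gradient_const x 0
  have hsq : Integrable fun x => ‖∇ u x‖ ^ 2 := by
    have hb : Integrable ((ball (0 : X) r).indicator fun _ : X => ((C : ℝ)) ^ 2) :=
      (integrable_indicator_iff measurableSet_ball).mpr
        (integrableOn_const measure_ball_lt_top.ne)
    refine hb.mono' (hgm.norm.pow_const 2).aestronglyMeasurable (Eventually.of_forall fun x => ?_)
    rw [Real.norm_of_nonneg (by positivity)]
    by_cases hx : x ∈ ball (0 : X) r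
    · rw [indicator_of_mem hx]
      exact pow_le_pow_left₀ (norm_nonneg _) (gradient_bound hu x) 2
    · rw [indicator_of_notMem hx, hg0 x hx]
      simp
  have hK : TrialK (∅ : Set X) u (fun x => ∇ u x) := by
    refine ⟨?_, ?_, hu.continuous, fun x _ => lipAt_of_lip hu x, ?_, hsq⟩
    · obtain ⟨B, hB⟩ := hc.exists_bound_of_continuous hu.continuous
      exact ⟨B, fun x => by rw [← Real.norm_eq_abs]; exact hB x⟩
    · intro ε hε
      refine ⟨r, fun x hx => ?_⟩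
      have hx' : x ∉ tsupport u := fun h => by
        have := hr h
        rw [mem_ball_zero_iff] at this
        linarith
      rw [image_eq_zero_of_notMem_tsupport hx', abs_zero]
      exact hε
    · filter_upwards [hu.ae_differentiableAt] with x hx
      exact hx.hasGradientAt
  have hb : ∀ᵐ x : X, ‖∇ u x‖ ≤ (C : ℝ) * (1 + ∑ i, (‖x - R i‖⁻¹) ^ (3 / 4 : ℝ)) := by
    refine Eventually.of_forall fun x => (gradient_bound hu x).trans ?_
    have h1 : 0 ≤ ∑ i, (‖x - R i‖⁻¹) ^ (3 / 4 : ℝ) :=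
      Finset.sum_nonneg fun i _ => by positivity
    have h2 : (0 : ℝ) ≤ C := C.coe_nonneg
    nlinarith
  obtain ⟨p1, p2⟩ := inner_gVpt (z := z) (R := R) finite_empty hK hb
  have e : ∀ x, ⟪gVpt z R x - gradV ρ x, ∇ u x⟫ = ⟪gVpt z R x, ∇ u x⟫ - ⟪gradV ρ x, ∇ u x⟫ :=
    fun x => inner_sub_left _ _ _
  constructor
  · exact (p1.sub w1).congr (Eventually.of_forall fun x => (e x).symm)
  · simp_rw [e]
    rw [integral_sub p1 w1, p2, w2]

/-- the gradient of the potential of the nuclei is locally integrable off the nuclei -/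
theorem gVpt_locInt (z : ι → ℝ) (R : ι → X) : Flux.LocInt R (gVpt z R) := by
  intro K hK hR
  have hP : ∀ i, ContinuousOn (gradP (R i)) K := by
    intro i
    unfold gradP
    have hne : ∀ x ∈ K, ‖x - R i‖ ^ 3 ≠ 0 := fun x hx => by
      have : x - R i ≠ 0 := sub_ne_zero.mpr fun h => hR i (h ▸ hx)
      exact pow_ne_zero _ (norm_ne_zero_iff.mpr this)
    have h1 : ContinuousOn (fun x : X => ‖x - R i‖ ^ 3) K := by fun_prop
    have h2 : ContinuousOn (fun x : X => x - R i) K := by fun_prop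
    exact ((h1.inv₀ hne).smul h2).neg
  have hc : ContinuousOn (gVpt z R) K := by
    unfold gVpt
    exact continuousOn_finsetSum _ fun i _ => (hP i).const_smul (z i)
  exact hc.integrableOn_compact hK

/-- the gradient of the potential of the solution is locally integrable off the nuclei -/
theorem gradV_locInt {z : ι → ℝ} (hz : ∀ i, 0 ≤ z i) (R : ι → X) {φ₀ : ℝ} (hφ : 0 < φ₀)
    {ρ : X → ℝ} (hρ : TC ρ) (heq : ∀ x, ρ x = tf (Vpt z R x - pot ρ x - φ₀)) :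
    Flux.LocInt R (gradV ρ) := by
  obtain ⟨hT, -, -⟩ := sol_facts hz R hφ hρ heq
  intro K hK hR
  have h1 : IntegrableOn (fun x => ‖gradV ρ x‖ ^ 2 + 1) K :=
    hT.sq.integrableOn.add (integrableOn_const hK.measure_lt_top.ne)
  refine h1.mono' hT.meas.restrict (Eventually.of_forall fun x => ?_)
  nlinarith [sq_nonneg (‖gradV ρ x‖ - 1), norm_nonneg (gradV ρ x)]

end Pool.Agent.TF

end

section
/-! The flux conditions of the calibration at the nuclei and at infinity. -/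

set_option linter.unusedSectionVars false

set_option linter.unusedVariables false

set_option linter.style.haveILetI false

namespace Pool.Agent.TF

open MeasureTheory Set Metric Filter Topology

open scoped ENNReal NNReal RealInnerProductSpace Gradient

variable {ι : Type*} [Fintype ι]

/-- the solution vanishes outside a ball -/
theorem sol_supp {z : ι → ℝ} (hz : ∀ i, 0 ≤ z i) (R : ι → X) {φ₀ : ℝ} (hφ : 0 < φ₀)
    {ρ : X → ℝ} (hρ : TC ρ) (heq : ∀ x, ρ x = tf (Vpt z R x - pot ρ x - φ₀)) :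
    ∃ r : ℝ, 0 < r ∧ ∀ y, r ≤ ‖y‖ → ρ y = 0 := by
  obtain ⟨r, hr0, hr⟩ := Vpt_far hz R hφ
  refine ⟨r, hr0, fun y hy => ?_⟩
  rw [heq y]
  have hp0 : 0 ≤ pot ρ y := pot_nonneg hρ.nonneg y
  exact tf_of_nonpos (by have := hr y hy; linarith)

/-- gradient of `V - pot ρ` at infinity -/
theorem psi_grad_inf {z : ι → ℝ} (hz : ∀ i, 0 ≤ z i) (R : ι → X) {φ₀ : ℝ} (hφ : 0 < φ₀)
    {ρ : X → ℝ} (hρ : TC ρ) (heq : ∀ x, ρ x = tf (Vpt z R x - pot ρ x - φ₀)) :
    ∃ C N : ℝ, 0 ≤ C ∧ 0 < N ∧ ∀ x, N ≤ ‖x‖ →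
      ‖gVpt z R x - gradV ρ x‖ ≤ C * (‖x‖ ^ 2)⁻¹ := by
  obtain ⟨r, hr0, hr⟩ := sol_supp hz R hφ hρ heq
  set M : ℝ := ∑ i, ‖R i‖ with hM
  have hM0 : 0 ≤ M := Finset.sum_nonneg fun i _ => norm_nonneg _
  have hMi : ∀ i, ‖R i‖ ≤ M := fun i =>
    Finset.single_le_sum (f := fun i => ‖R i‖) (fun i _ => norm_nonneg _) (Finset.mem_univ i)
  set Z : ℝ := ∑ i, z i with hZ
  have hZ0 : 0 ≤ Z := Finset.sum_nonneg fun i _ => hz i
  set m : ℝ := ∫ y, |ρ y| with hm
  have hm0 : 0 ≤ m := integral_nonneg fun y => abs_nonneg _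
  refine ⟨4 * Z + 4 * m, 2 * r + 2 * M + 1, by positivity, by positivity, fun x hx => ?_⟩
  have hx0 : 0 < ‖x‖ := by linarith
  have h1 : ‖gVpt z R x‖ ≤ 4 * Z * (‖x‖ ^ 2)⁻¹ := by
    unfold gVpt
    refine (norm_sum_le _ _).trans ?_
    rw [hZ, Finset.mul_sum, Finset.sum_mul]
    refine Finset.sum_le_sum fun i _ => ?_
    rw [norm_smul, Real.norm_of_nonneg (hz i), gradP_norm]
    have h2 : ‖x‖ / 2 ≤ ‖x - R i‖ := by
      have := norm_sub_norm_le x (R i)
      have := hMi i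
      linarith
    have h3 : (‖x‖ / 2) ^ 2 ≤ ‖x - R i‖ ^ 2 := pow_le_pow_left₀ (by positivity) h2 2
    have h4 : (‖x - R i‖ ^ 2)⁻¹ ≤ 4 * (‖x‖ ^ 2)⁻¹ := by
      calc (‖x - R i‖ ^ 2)⁻¹ ≤ ((‖x‖ / 2) ^ 2)⁻¹ := inv_anti₀ (by positivity) h3
        _ = _ := by
          rw [div_pow, inv_div]
          ring
    calc z i * (‖x - R i‖ ^ 2)⁻¹ ≤ z i * (4 * (‖x‖ ^ 2)⁻¹) :=
          mul_le_mul_of_nonneg_left h4 (hz i)
      _ = _ := by ring
  have h2 := gradV_decay hρ.int hρ.meas hr0 hr (x := x) (by linarith)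
  calc ‖gVpt z R x - gradV ρ x‖ ≤ ‖gVpt z R x‖ + ‖gradV ρ x‖ := norm_sub_le _ _
    _ ≤ 4 * Z * (‖x‖ ^ 2)⁻¹ + 4 * m * (‖x‖ ^ 2)⁻¹ := add_le_add h1 h2
    _ = _ := by ring

/-- the condition at infinity -/
theorem hinf_of {z : ι → ℝ} (hz : ∀ i, 0 ≤ z i) (R : ι → X) {φ₀ : ℝ} (hφ : 0 < φ₀)
    {ρ : X → ℝ} (hρ : TC ρ) (heq : ∀ x, ρ x = tf (Vpt z R x - pot ρ x - φ₀))
    {H : X → ℝ} {A : X → X}
    (hH : ∀ ε : ℝ, 0 < ε → ∃ N : ℝ, ∀ᵐ x : X, N < ‖x‖ → |H x| ≤ ε)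
    (hA : ∃ N : ℝ, ∀ᵐ x : X, N < ‖x‖ → 0 ≤ ⟪A x, x⟫) :
    ∀ δ : ℝ, 0 < δ → ∃ N : ℝ, ∀ᵐ x : X, N < ‖x‖ →
      -δ ≤ 4 * Real.pi * ‖x‖ ^ 2 * ⟪H x • (gVpt z R x - gradV ρ x) + A x, ‖x‖⁻¹ • x⟫ := by
  intro δ hδ
  have hpi := Real.pi_pos
  obtain ⟨C, N0, hC, hN0, hG⟩ := psi_grad_inf hz R hφ hρ heq
  obtain ⟨N1, hN1⟩ := hH (δ / (4 * Real.pi * (C + 1))) (by positivity)
  obtain ⟨N2, hN2⟩ := hA
  refine ⟨max N0 (max N1 N2), ?_⟩
  filter_upwards [hN1, hN2] with x h1 h2 hx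
  have hx0 : N0 < ‖x‖ := (le_max_left _ _).trans_lt hx
  have hx1 : N1 < ‖x‖ := ((le_max_left _ _).trans (le_max_right _ _)).trans_lt hx
  have hx2 : N2 < ‖x‖ := ((le_max_right _ _).trans (le_max_right _ _)).trans_lt hx
  have hn : 0 < ‖x‖ := hN0.trans hx0
  have g1 := hG x hx0.le
  have g2 := h1 hx1
  have g3 := h2 hx2
  rw [inner_add_left, real_inner_smul_left]
  have e1 : ⟪A x, ‖x‖⁻¹ • x⟫ = ‖x‖⁻¹ * ⟪A x, x⟫ := real_inner_smul_right _ _ _
  have p1 : 0 ≤ ⟪A x, ‖x‖⁻¹ • x⟫ := by rw [e1]; positivity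
  have hu : ‖‖x‖⁻¹ • x‖ = 1 := by
    rw [norm_smul, norm_inv, norm_norm, inv_mul_cancel₀ hn.ne']
  have p2 : |⟪gVpt z R x - gradV ρ x, ‖x‖⁻¹ • x⟫| ≤ C * (‖x‖ ^ 2)⁻¹ := by
    refine (abs_real_inner_le_norm _ _).trans ?_
    rw [hu, mul_one]
    exact g1
  have p3 : |H x * ⟪gVpt z R x - gradV ρ x, ‖x‖⁻¹ • x⟫| ≤
      δ / (4 * Real.pi * (C + 1)) * (C * (‖x‖ ^ 2)⁻¹) := by
    rw [abs_mul]
    exact mul_le_mul g2 p2 (abs_nonneg _) (by positivity)
  have p4 : 4 * Real.pi * ‖x‖ ^ 2 * (δ / (4 * Real.pi * (C + 1)) * (C * (‖x‖ ^ 2)⁻¹)) ≤ δ := by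
    have e : 4 * Real.pi * ‖x‖ ^ 2 * (δ / (4 * Real.pi * (C + 1)) * (C * (‖x‖ ^ 2)⁻¹)) =
        δ * (C / (C + 1)) := by
      field_simp
    rw [e]
    refine mul_le_of_le_one_right hδ.le ?_
    rw [div_le_one (by positivity)]
    linarith
  have p5 := neg_abs_le (H x * ⟪gVpt z R x - gradV ρ x, ‖x‖⁻¹ • x⟫)
  have hf : 0 ≤ 4 * Real.pi * ‖x‖ ^ 2 := by positivity
  have p6 := mul_le_mul_of_nonneg_left p3 hf
  have p7 := mul_le_mul_of_nonneg_left p5 hf
  have p8 := mul_nonneg hf p1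
  nlinarith

/-- radial derivative of `V - pot ρ` near the nucleus `i` -/
theorem psi_grad_nuc {z : ι → ℝ} (hz : ∀ i, 0 ≤ z i) {R : ι → X} (hR : Function.Injective R)
    {φ₀ : ℝ} (hφ : 0 < φ₀)
    {ρ : X → ℝ} (hρ : TC ρ) (heq : ∀ x, ρ x = tf (Vpt z R x - pot ρ x - φ₀)) (i : ι) :
    ∃ C η : ℝ, 0 ≤ C ∧ 0 < η ∧ η ≤ 1 ∧ ∀ x, 0 < ‖x - R i‖ → ‖x - R i‖ < η →
      |⟪gVpt z R x - gradV ρ x, ‖x - R i‖⁻¹ • (x - R i)⟫ + z i * (‖x - R i‖ ^ 2)⁻¹| ≤
        C * (‖x - R i‖⁻¹) ^ (3 / 4 : ℝ) := by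
  classical
  obtain ⟨-, ⟨D, hD0, hD⟩, -⟩ := sol_facts hz R hφ hρ heq
  -- distance to the other nuclei
  obtain ⟨d, hd0, hd1, hd⟩ : ∃ d : ℝ, 0 < d ∧ d ≤ 1 ∧ ∀ j, j ≠ i → 2 * d ≤ ‖R i - R j‖ := by
    have hfin : ∀ s : Finset ι, ∃ d : ℝ, 0 < d ∧ d ≤ 1 ∧ ∀ j ∈ s, j ≠ i → 2 * d ≤ ‖R i - R j‖ := by
      intro s
      induction s using Finset.induction_on with
      | empty => exact ⟨1, one_pos, le_rfl, fun j hj => absurd hj (Finset.notMem_empty j)⟩
      | insert a s ha ih =>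
        obtain ⟨d, h0, h1, h2⟩ := ih
        by_cases hai : a = i
        · refine ⟨d, h0, h1, fun j hj hji => ?_⟩
          rcases Finset.mem_insert.mp hj with rfl | hj
          · exact absurd hai hji
          · exact h2 j hj hji
        · have hn : 0 < ‖R i - R a‖ := norm_pos_iff.mpr (sub_ne_zero.mpr (hR.ne (Ne.symm hai)))
          refine ⟨min d (‖R i - R a‖ / 2), lt_min h0 (by positivity),
            (min_le_left _ _).trans h1, fun j hj hji => ?_⟩
          rcases Finset.mem_insert.mp hj with rfl | hj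
          · have := min_le_right d (‖R i - R j‖ / 2)
            linarith
          · have := h2 j hj hji
            have := min_le_left d (‖R i - R a‖ / 2)
            linarith
    obtain ⟨d, h0, h1, h2⟩ := hfin Finset.univ
    exact ⟨d, h0, h1, fun j hj => h2 j (Finset.mem_univ j) hj⟩
  set Z : ℝ := ∑ j, z j with hZ
  have hZ0 : 0 ≤ Z := Finset.sum_nonneg fun j _ => hz j
  set n : ℝ := ((Fintype.card ι : ℕ) : ℝ) with hn
  have hn0 : 0 ≤ n := Nat.cast_nonneg _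
  set b : ℝ := (d⁻¹) ^ (3 / 4 : ℝ) with hb
  have hb0 : 0 ≤ b := by positivity
  refine ⟨Z * (d ^ 2)⁻¹ + D * (2 + n * b), d, by positivity, hd0, hd1, fun x hx0 hxd => ?_⟩
  set t : ℝ := (‖x - R i‖⁻¹) ^ (3 / 4 : ℝ) with ht
  have ht1 : 1 ≤ t := by
    refine Real.one_le_rpow ?_ (by norm_num)
    rw [one_le_inv₀ hx0]
    linarith
  have hoff : ∀ j, j ≠ i → d ≤ ‖x - R j‖ := by
    intro j hj
    have h1 := hd j hj
    have h2 : ‖R i - R j‖ ≤ ‖x - R j‖ + ‖x - R i‖ := by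
      have := norm_sub_le (x - R j) (x - R i)
      rw [show x - R j - (x - R i) = R i - R j by abel] at this
      exact this
    linarith
  have hne : ∀ j, x ≠ R j := by
    intro j h
    by_cases hji : j = i
    · rw [h, hji, sub_self, norm_zero] at hx0
      exact lt_irrefl _ hx0
    · have := hoff j hji
      rw [h, sub_self, norm_zero] at this
      linarith
  -- the part of the other nuclei
  have h1 : gVpt z R x = z i • gradP (R i) x + ∑ j ∈ Finset.univ.erase i, z j • gradP (R j) x := by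
    unfold gVpt
    rw [← Finset.add_sum_erase _ _ (Finset.mem_univ i)]
  have h2 : ‖∑ j ∈ Finset.univ.erase i, z j • gradP (R j) x‖ ≤ Z * (d ^ 2)⁻¹ := by
    refine (norm_sum_le _ _).trans ?_
    have h3 : ∀ j ∈ Finset.univ.erase i, ‖z j • gradP (R j) x‖ ≤ z j * (d ^ 2)⁻¹ := by
      intro j hj
      rw [norm_smul, Real.norm_of_nonneg (hz j), gradP_norm]
      refine mul_le_mul_of_nonneg_left ?_ (hz j)
      exact inv_anti₀ (by positivity)
        (pow_le_pow_left₀ hd0.le (hoff j (Finset.ne_of_mem_erase hj)) 2)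
    refine (Finset.sum_le_sum h3).trans ?_
    rw [← Finset.sum_mul]
    refine mul_le_mul_of_nonneg_right ?_ (by positivity)
    exact Finset.sum_le_sum_of_subset_of_nonneg (Finset.erase_subset _ _) fun j _ _ => hz j
  have h4 : ‖gradV ρ x‖ ≤ D * (1 + (t + n * b)) := by
    refine (hD x hne).trans (mul_le_mul_of_nonneg_left ?_ hD0)
    have h5 : ∑ j, (‖x - R j‖⁻¹) ^ (3 / 4 : ℝ) ≤ t + n * b := by
      rw [← Finset.add_sum_erase _ _ (Finset.mem_univ i)]
      refine add_le_add le_rfl ?_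
      have h6 : ∀ j ∈ Finset.univ.erase i, (‖x - R j‖⁻¹) ^ (3 / 4 : ℝ) ≤ b := by
        intro j hj
        refine Real.rpow_le_rpow (by positivity) ?_ (by norm_num)
        exact inv_anti₀ hd0 (hoff j (Finset.ne_of_mem_erase hj))
      refine (Finset.sum_le_sum h6).trans ?_
      rw [Finset.sum_const, nsmul_eq_mul]
      refine mul_le_mul_of_nonneg_right ?_ hb0
      rw [hn]
      exact_mod_cast (Finset.card_erase_le).trans (by rw [Finset.card_univ])
    linarith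
  have hu : ‖‖x - R i‖⁻¹ • (x - R i)‖ = 1 := by
    rw [norm_smul, norm_inv, norm_norm, inv_mul_cancel₀ hx0.ne']
  have e1 : ⟪z i • gradP (R i) x, ‖x - R i‖⁻¹ • (x - R i)⟫ = -(z i * (‖x - R i‖ ^ 2)⁻¹) := by
    unfold gradP
    rw [real_inner_smul_left, inner_neg_left, real_inner_smul_left, real_inner_smul_right,
      real_inner_self_eq_norm_sq]
    field_simp
  have e2 : ⟪gVpt z R x - gradV ρ x, ‖x - R i‖⁻¹ • (x - R i)⟫ + z i * (‖x - R i‖ ^ 2)⁻¹ =
      ⟪(∑ j ∈ Finset.univ.erase i, z j • gradP (R j) x) - gradV ρ x,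
        ‖x - R i‖⁻¹ • (x - R i)⟫ := by
    rw [h1, add_sub_assoc, inner_add_left, e1]
    ring
  rw [e2]
  refine (abs_real_inner_le_norm _ _).trans ?_
  rw [hu, mul_one]
  refine (norm_sub_le _ _).trans ((add_le_add h2 h4).trans ?_)
  have q1 : 0 ≤ Z * (d ^ 2)⁻¹ := by positivity
  have q2 : 0 ≤ n * b := by positivity
  have q3 : Z * (d ^ 2)⁻¹ ≤ Z * (d ^ 2)⁻¹ * t := le_mul_of_one_le_right q1 ht1
  have q4 : 1 + (t + n * b) ≤ (2 + n * b) * t := by nlinarith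
  have q5 := mul_le_mul_of_nonneg_left q4 hD0
  linarith

end Pool.Agent.TF

end

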