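import Mathlib
import Pool.Agent.Lib.MP_9cf0c9_mp.Tr.ConvexCrit

section
/-! From the second order support inequality in the model space `X` to the target statement. -/

set_option autoImplicit false

set_option linter.unusedSectionVars false

set_option linter.unusedVariables false

namespace Pool.Agent
end Pool.Agent

namespace Pool.Agent.TF

open MeasureTheory Set Metric Filter Topology

section push

variable {V : Type*} [NormedAddCommGroup V] [InnerProductSpace ℝ V] [FiniteDimensional ℝ V]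
  [MeasurableSpace V] [BorelSpace V]

variable {W : Type*} [NormedAddCommGroup W] [InnerProductSpace ℝ W] [FiniteDimensional ℝ W]
  [MeasurableSpace W] [BorelSpace W]

variable {ι : Type*} [Fintype ι]

theorem GTF_push (L : V ≃ₗᵢ[ℝ] W) (φ₀ : ℝ) (z : ι → ℝ) (R : ι → V) :
    GTF φ₀ z (fun i => L (R i)) = GTF φ₀ z R := by
  unfold GTF
  congr 1
  ext t
  constructor
  · rintro ⟨σ, hσ, rfl⟩
    refine ⟨fun y => σ (L y), ?_, ?_⟩
    · have := hσ.push L.symm
      simpa using this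
    · have h := Ept_push L.symm φ₀ z (fun i => L (R i)) σ
      simpa using h
  · rintro ⟨σ, hσ, rfl⟩
    exact ⟨fun y => σ (L.symm y), hσ.push L, Ept_push L φ₀ z R σ⟩

end push

/-! ### units: the chemical potential can be scaled to one -/

section dim3

variable {V : Type*} [NormedAddCommGroup V] [InnerProductSpace ℝ V] [FiniteDimensional ℝ V]
  [MeasurableSpace V] [BorelSpace V]

variable {ι : Type*} [Fintype ι]

variable [hd : Fact (Module.finrank ℝ V = 3)]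

theorem TC.const_mul {h : V → ℝ} (hh : TC h) {c : ℝ} (hc : 0 ≤ c) : TC fun x => c * h x := by
  refine ⟨hh.meas.const_mul c, fun x => mul_nonneg hc (hh.nonneg x), hh.int.const_mul c, ?_⟩
  refine (hh.int53.const_mul (c ^ (5 / 3 : ℝ))).congr (Eventually.of_forall fun x => ?_)
  simp only
  rw [Real.mul_rpow hc (hh.nonneg x)]

end dim3

end Pool.Agent.TF

namespace Pool.Agent.Lib.MP_9cf0c9_mp

open MeasureTheory Set Filter Topology Pool.Agent

end Pool.Agent.Lib.MP_9cf0c9_mp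

end

section
/-! The energy as a function of the dilation parameter: `l * e(l)` is concave in `1 / l` and convex
in `l ^ (3/2)`; differentiability; the two sided bound of the reciprocal compressibility. -/

set_option autoImplicit false

set_option linter.unusedSectionVars false

set_option linter.unusedVariables false

namespace Pool.Agent.TF

open MeasureTheory Set Metric Filter Topology

section dim3

variable {V : Type*} [NormedAddCommGroup V] [InnerProductSpace ℝ V] [FiniteDimensional ℝ V]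
  [MeasurableSpace V] [BorelSpace V]

variable {ι : Type*} [Fintype ι]

variable [hd : Fact (Module.finrank ℝ V = 3)]

/-- kinetic energy -/
noncomputable def Kin (σ : V → ℝ) : ℝ := 3 / 5 * ∫ x, σ x ^ (5 / 3 : ℝ)

/-- Coulomb energy -/
noncomputable def Cou (z : ι → ℝ) (R : ι → V) (σ : V → ℝ) : ℝ :=
  -(∑ i, z i * pot σ (R i)) + 1 / 2 * En σ σ + Unuc z R

/-- `t⁻¹ * e(t⁻¹)` -/
noncomputable def gT (z : ι → ℝ) (R : ι → V) (lam t : ℝ) : ℝ :=
  t⁻¹ * eTF z (fun i => t⁻¹ • R i) lam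

theorem gT_le {z : ι → ℝ} (hz : ∀ i, 0 ≤ z i) (R : ι → V) {t : ℝ} (ht : 0 < t) {σ : V → ℝ}
    (hσ : TC σ) : gT z R (∫ x, σ x) t ≤ t * Kin σ + Cou z R σ := by
  have h1 := eTF_le hz (fun i => t⁻¹ • R i) (hσ.scl ht)
  rw [scl_mass ht, Ept_scl_dilate 0 z R ht hσ] at h1
  unfold gT Kin Cou
  have h2 := mul_le_mul_of_nonneg_left h1 (inv_pos.mpr ht).le
  refine h2.trans (le_of_eq ?_)
  field_simp
  ring

theorem exists_gT_near {z : ι → ℝ} (hz : ∀ i, 0 ≤ z i) (R : ι → V) {lam : ℝ} (hl : 0 ≤ lam)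
    {t : ℝ} (ht : 0 < t) {η : ℝ} (hη : 0 < η) :
    ∃ σ : V → ℝ, TC σ ∧ ∫ x, σ x = lam ∧ t * Kin σ + Cou z R σ < gT z R lam t + η := by
  obtain ⟨τ, hτ, hm, h1⟩ := exists_near hz (fun i => t⁻¹ • R i) hl (mul_pos ht hη)
  refine ⟨scl t⁻¹ τ, hτ.scl (inv_pos.mpr ht), (scl_mass (inv_pos.mpr ht) τ).trans hm, ?_⟩
  have h2 := Ept_scl_dilate 0 z R ht (hτ.scl (inv_pos.mpr ht))
  rw [scl_scl_inv ht] at h2
  rw [h2] at h1
  unfold gT Kin Cou
  have h3 := mul_lt_mul_of_pos_left h1 (inv_pos.mpr ht)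
  have e1 : t⁻¹ * (eTF z (fun i => t⁻¹ • R i) lam + t * η) =
      t⁻¹ * eTF z (fun i => t⁻¹ • R i) lam + η := by field_simp
  rw [e1] at h3
  refine lt_of_eq_of_lt ?_ h3
  field_simp
  ring

/-- `l * e(l)` is concave in `1 / l` -/
theorem gT_concave {z : ι → ℝ} (hz : ∀ i, 0 ≤ z i) (R : ι → V) {lam : ℝ} (hl : 0 ≤ lam) :
    ConcaveOn ℝ (Ioi 0) (gT z R lam) := by
  refine ⟨convex_Ioi 0, fun x hx y hy a b ha hb hab => ?_⟩
  have hx0 : 0 < x := hx
  have hy0 : 0 < y := hy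
  have hxy : 0 < a • x + b • y := (convex_Ioi (0 : ℝ)) hx hy ha hb hab
  simp only [smul_eq_mul] at hxy ⊢
  refine le_of_forall_pos_le_add fun η hη => ?_
  obtain ⟨σ, hσ, hm, h1⟩ := exists_gT_near hz R hl hxy hη
  have h2 := gT_le hz R hx0 hσ
  have h3 := gT_le hz R hy0 hσ
  rw [hm] at h2 h3
  have h4 := mul_le_mul_of_nonneg_left h2 ha
  have h5 := mul_le_mul_of_nonneg_left h3 hb
  have e : a * (x * Kin σ + Cou z R σ) + b * (y * Kin σ + Cou z R σ) =
      (a * x + b * y) * Kin σ + (a + b) * Cou z R σ := by ring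
  rw [hab, one_mul] at e
  linarith

/-- joint convexity of the kinetic energy in `(l ^ (3/2), ρ)` -/
theorem Kin_persp {σ τ : V → ℝ} (hσ : TC σ) (hτ : TC τ) {a b x y : ℝ} (ha : 0 ≤ a) (hb : 0 ≤ b)
    (hx : 0 < x) (hy : 0 < y) (hs : 0 < a * x + b * y) :
    (a * x + b * y) ^ (-(2 / 3) : ℝ) * Kin (fun v => a * σ v + b * τ v) ≤
      a * (x ^ (-(2 / 3) : ℝ) * Kin σ) + b * (y ^ (-(2 / 3) : ℝ) * Kin τ) := by
  set s : ℝ := a * x + b * y with hsdef
  have hσ' := hσ.const_mul (inv_pos.mpr hx).le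
  have hτ' := hτ.const_mul (inv_pos.mpr hy).le
  have hab : a * x / s + b * y / s = 1 := by
    rw [← add_div, ← hsdef, div_self hs.ne']
  have h1 := (hσ'.comb hτ' (a := a * x / s) (b := b * y / s) (by positivity) (by positivity) hab).2
  have e1 : ∀ v, (a * x / s * (x⁻¹ * σ v) + b * y / s * (y⁻¹ * τ v)) ^ (5 / 3 : ℝ) =
      s⁻¹ ^ (5 / 3 : ℝ) * (a * σ v + b * τ v) ^ (5 / 3 : ℝ) := by
    intro v
    have h0 : 0 ≤ a * σ v + b * τ v :=
      add_nonneg (mul_nonneg ha (hσ.nonneg v)) (mul_nonneg hb (hτ.nonneg v))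
    rw [← Real.mul_rpow (inv_pos.mpr hs).le h0]
    congr 1
    field_simp
  have e2 : ∀ v, (x⁻¹ * σ v) ^ (5 / 3 : ℝ) = x⁻¹ ^ (5 / 3 : ℝ) * σ v ^ (5 / 3 : ℝ) := fun v =>
    Real.mul_rpow (inv_pos.mpr hx).le (hσ.nonneg v)
  have e3 : ∀ v, (y⁻¹ * τ v) ^ (5 / 3 : ℝ) = y⁻¹ ^ (5 / 3 : ℝ) * τ v ^ (5 / 3 : ℝ) := fun v =>
    Real.mul_rpow (inv_pos.mpr hy).le (hτ.nonneg v)
  simp_rw [e1, e2, e3] at h1
  rw [integral_const_mul, integral_const_mul, integral_const_mul] at h1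
  have hp : ∀ w : ℝ, 0 < w → w ^ (-(2 / 3) : ℝ) = w * w⁻¹ ^ (5 / 3 : ℝ) := by
    intro w hw
    rw [Real.inv_rpow hw.le, ← Real.rpow_neg hw.le]
    nth_rw 2 [← Real.rpow_one w]
    rw [← Real.rpow_add hw]
    norm_num
  rw [hp s hs, hp x hx, hp y hy]
  unfold Kin
  have h2 := mul_le_mul_of_nonneg_left h1 (by positivity : 0 ≤ s * (3 / 5))
  calc s * s⁻¹ ^ (5 / 3 : ℝ) * (3 / 5 * ∫ v, (a * σ v + b * τ v) ^ (5 / 3 : ℝ))
      = s * (3 / 5) * (s⁻¹ ^ (5 / 3 : ℝ) * ∫ v, (a * σ v + b * τ v) ^ (5 / 3 : ℝ)) := by ring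
    _ ≤ s * (3 / 5) * (a * x / s * (x⁻¹ ^ (5 / 3 : ℝ) * ∫ v, σ v ^ (5 / 3 : ℝ)) +
        b * y / s * (y⁻¹ ^ (5 / 3 : ℝ) * ∫ v, τ v ^ (5 / 3 : ℝ))) := h2
    _ = _ := by field_simp

theorem Cou_comb (z : ι → ℝ) (R : ι → V) {σ τ : V → ℝ} (hσ : TC σ) (hτ : TC τ) {a b : ℝ}
    (ha : 0 ≤ a) (hb : 0 ≤ b) (hab : a + b = 1) :
    Cou z R (fun x => a * σ x + b * τ x) ≤ a * Cou z R σ + b * Cou z R τ := by
  have h2 := hσ.En_comb hτ ha hb hab
  have h3 : ∑ i, z i * pot (fun x => a * σ x + b * τ x) (R i) =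
      a * (∑ i, z i * pot σ (R i)) + b * (∑ i, z i * pot τ (R i)) := by
    rw [Finset.mul_sum, Finset.mul_sum, ← Finset.sum_add_distrib]
    refine Finset.sum_congr rfl fun i _ => ?_
    rw [hσ.pot_comb hτ]
    ring
  have hU : Unuc z R = a * Unuc z R + b * Unuc z R := by rw [← add_mul, hab, one_mul]
  unfold Cou
  rw [h3]
  linarith

/-- `l * e(l)` as a function of `s = l ^ (3/2)` -/
noncomputable def fS (z : ι → ℝ) (R : ι → V) (lam s : ℝ) : ℝ := gT z R lam (s ^ (-(2 / 3) : ℝ))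

/-- `l * e(l)` is convex in `l ^ (3/2)` -/
theorem fS_convex {z : ι → ℝ} (hz : ∀ i, 0 ≤ z i) (R : ι → V) {lam : ℝ} (hl : 0 ≤ lam) :
    ConvexOn ℝ (Ioi 0) (fS z R lam) := by
  refine ⟨convex_Ioi 0, fun x hx y hy a b ha hb hab => ?_⟩
  have hx0 : 0 < x := hx
  have hy0 : 0 < y := hy
  have hxy : 0 < a • x + b • y := (convex_Ioi (0 : ℝ)) hx hy ha hb hab
  simp only [smul_eq_mul] at hxy ⊢
  refine le_of_forall_pos_le_add fun η hη => ?_
  obtain ⟨σ, hσ, hm, h1⟩ := exists_gT_near hz R hl (Real.rpow_pos_of_pos hx0 (-(2 / 3))) hη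
  obtain ⟨τ, hτ, hm', h2⟩ := exists_gT_near hz R hl (Real.rpow_pos_of_pos hy0 (-(2 / 3))) hη
  have h3 := gT_le hz R (Real.rpow_pos_of_pos hxy (-(2 / 3))) (hσ.comb hτ ha hb hab).1
  have h4 : ∫ v, (a * σ v + b * τ v) = lam := by
    rw [integral_add (hσ.int.const_mul a) (hτ.int.const_mul b), integral_const_mul,
      integral_const_mul, hm, hm', ← add_mul, hab, one_mul]
  rw [h4] at h3
  have h5 := Kin_persp hσ hτ ha hb hx0 hy0 hxy
  have h6 := Cou_comb z R hσ hτ ha hb hab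
  have h7 := mul_le_mul_of_nonneg_left h1.le ha
  have h8 := mul_le_mul_of_nonneg_left h2.le hb
  unfold fS
  have e : η = a * η + b * η := by rw [← add_mul, hab, one_mul]
  linarith

end dim3

/-! ### one variable calculus -/

/-- a function between two differentiable functions which touch is differentiable -/
theorem hasDerivAt_squeeze {f u w : ℝ → ℝ} {x du dw : ℝ} (hu : HasDerivAt u du x)
    (hw : HasDerivAt w dw x) (hux : u x = f x) (hwx : w x = f x)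
    (h1 : ∀ᶠ y in 𝓝 x, u y ≤ f y) (h2 : ∀ᶠ y in 𝓝 x, f y ≤ w y) :
    du = dw ∧ HasDerivAt f du x := by
  have hd : du = dw := by
    have h3 : HasDerivAt (fun y => w y - u y) (dw - du) x := hw.sub hu
    have h4 : IsLocalMin (fun y => w y - u y) x := by
      filter_upwards [h1, h2] with y h5 h6
      rw [hux, hwx, sub_self]
      linarith
    have := h4.hasDerivAt_eq_zero h3
    linarith
  refine ⟨hd, ?_⟩
  subst hd
  rw [hasDerivAt_iff_isLittleO] at hu hw ⊢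
  refine Asymptotics.isLittleO_iff.mpr fun c hc => ?_
  have h5 := Asymptotics.isLittleO_iff.mp hu hc
  have h6 := Asymptotics.isLittleO_iff.mp hw hc
  filter_upwards [h1, h2, h5, h6] with y a1 a2 a3 a4
  rw [Real.norm_eq_abs] at a3 a4 ⊢
  rw [hux] at a3
  rw [hwx] at a4
  rw [abs_le] at a3 a4 ⊢
  constructor
  · linarith [a3.1]
  · linarith [a4.2]

/-- supporting line of a convex function on `(0, ∞)` -/
theorem exists_support {f : ℝ → ℝ} (hf : ConvexOn ℝ (Ioi 0) f) {x : ℝ} (hx : 0 < x) :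
    ∃ p : ℝ, ∀ y, 0 < y → f x + p * (y - x) ≤ f y := by
  refine ⟨derivWithin f (Ioi x) x, fun y hy => ?_⟩
  have hxi : x ∈ interior (Ioi (0 : ℝ)) := by simpa using hx
  rcases lt_trichotomy x y with h | h | h
  · have h1 := hf.rightDeriv_le_slope_of_mem_interior hxi (mem_Ioi.mpr hy) h
    rw [slope_def_field, le_div_iff₀ (by linarith)] at h1
    linarith
  · subst h; simp
  · have h1 := hf.slope_le_leftDeriv_of_mem_interior (mem_Ioi.mpr hy) hxi h
    have h2 := hf.leftDeriv_le_rightDeriv_of_mem_interior hxi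
    have h3 := h1.trans h2
    rw [slope_def_field, div_le_iff₀ (by linarith)] at h3
    linarith

/-! ### the two sided estimate, abstractly -/

section abs

variable {e : ℝ → ℝ}

/-- `e` is differentiable, with upper and lower bounds -/
theorem diff_of_two (hG : ConcaveOn ℝ (Ioi 0) fun t => t⁻¹ * e t⁻¹)
    (hF : ConvexOn ℝ (Ioi 0) fun s => s ^ (2 / 3 : ℝ) * e (s ^ (2 / 3 : ℝ))) {l : ℝ}
    (hl : 0 < l) : ∃ K : ℝ, HasDerivAt e (-(K + e l) / l) l ∧
      (∀ x, 0 < x → l * e l - 2 / 3 * K * l ^ (-(1 / 2) : ℝ) *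
        (x ^ (3 / 2 : ℝ) - l ^ (3 / 2 : ℝ)) ≤ x * e x) ∧
      (∀ x, 0 < x → x * e x ≤ l * e l + l ^ 2 * K * (x⁻¹ - l⁻¹)) := by
  have hs0 : 0 < l ^ (3 / 2 : ℝ) := Real.rpow_pos_of_pos hl _
  obtain ⟨p, hp⟩ := exists_support hF hs0
  obtain ⟨q, hq⟩ := exists_support hG.neg (inv_pos.mpr hl)
  have hpow : ∀ x : ℝ, 0 < x → (x ^ (3 / 2 : ℝ)) ^ (2 / 3 : ℝ) = x := by
    intro x hx
    rw [← Real.rpow_mul hx.le]
    norm_num
  have hlow : ∀ x, 0 < x → l * e l + p * (x ^ (3 / 2 : ℝ) - l ^ (3 / 2 : ℝ)) ≤ x * e x := by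
    intro x hx
    have h1 := hp (x ^ (3 / 2 : ℝ)) (Real.rpow_pos_of_pos hx _)
    beta_reduce at h1
    rw [hpow x hx, hpow l hl] at h1
    exact h1
  have hupp : ∀ x, 0 < x → x * e x ≤ l * e l - q * (x⁻¹ - l⁻¹) := by
    intro x hx
    have h1 := hq x⁻¹ (inv_pos.mpr hx)
    simp only [Pi.neg_apply, inv_inv] at h1
    linarith
  -- squeeze
  have hdu : HasDerivAt (fun x : ℝ => l * e l + p * (x ^ (3 / 2 : ℝ) - l ^ (3 / 2 : ℝ)))
      (p * (3 / 2 * l ^ ((3 / 2 : ℝ) - 1))) l := by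
    have h1 : HasDerivAt (fun x : ℝ => x ^ (3 / 2 : ℝ)) (3 / 2 * l ^ ((3 / 2 : ℝ) - 1)) l :=
      Real.hasDerivAt_rpow_const (Or.inl hl.ne')
    exact ((h1.sub_const (l ^ (3 / 2 : ℝ))).const_mul p).const_add (l * e l)
  have hdw : HasDerivAt (fun x : ℝ => l * e l - q * (x⁻¹ - l⁻¹)) (q * (l ^ 2)⁻¹) l := by
    have h1 : HasDerivAt (fun x : ℝ => x⁻¹) (-(l ^ 2)⁻¹) l := hasDerivAt_inv hl.ne'
    have h2 := ((h1.sub_const l⁻¹).const_mul q).const_sub (l * e l)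
    refine h2.congr_deriv ?_
    ring
  have hsq := hasDerivAt_squeeze (f := fun x => x * e x) hdu hdw (by ring) (by ring)
    (by filter_upwards [Ioi_mem_nhds hl] with x hx using hlow x hx)
    (by filter_upwards [Ioi_mem_nhds hl] with x hx using hupp x hx)
  have hq2 : q = l ^ 2 * (p * (3 / 2 * l ^ ((3 / 2 : ℝ) - 1))) := by
    rw [hsq.1]; field_simp
  set d : ℝ := p * (3 / 2 * l ^ ((3 / 2 : ℝ) - 1)) with hd
  have hlh : l ^ ((3 / 2 : ℝ) - 1) * l ^ (-(1 / 2) : ℝ) = 1 := by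
    rw [← Real.rpow_add hl]; norm_num
  have hpd : p = 2 / 3 * d * l ^ (-(1 / 2) : ℝ) := by
    rw [hd]
    calc p = p * (l ^ ((3 / 2 : ℝ) - 1) * l ^ (-(1 / 2) : ℝ)) := by rw [hlh, mul_one]
      _ = _ := by ring
  refine ⟨-d, ?_, fun x hx => ?_, fun x hx => ?_⟩
  · have h1 : HasDerivAt (fun x : ℝ => x⁻¹) (-(l ^ 2)⁻¹) l := hasDerivAt_inv hl.ne'
    have h2 := h1.mul hsq.2
    have h3 : (fun x : ℝ => x⁻¹) * (fun x => x * e x) =ᶠ[𝓝 l] e := by
      filter_upwards [Ioi_mem_nhds hl] with x hx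
      have hx0 : (0 : ℝ) < x := hx
      simp only [Pi.mul_apply]
      field_simp
    refine (h2.congr_of_eventuallyEq h3.symm).congr_deriv ?_
    field_simp
    ring
  · have h1 := hlow x hx
    rw [hpd] at h1
    linarith
  · have h1 := hupp x hx
    rw [hq2] at h1
    linarith

end abs

section abs2

variable {e : ℝ → ℝ} (hG : ConcaveOn ℝ (Ioi 0) fun t => t⁻¹ * e t⁻¹)
  (hF : ConvexOn ℝ (Ioi 0) fun s => s ^ (2 / 3 : ℝ) * e (s ^ (2 / 3 : ℝ)))

include hG hF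

theorem two_diff {l : ℝ} (hl : 0 < l) : DifferentiableAt ℝ e l := by
  obtain ⟨K, hK, -, -⟩ := diff_of_two hG hF hl
  exact hK.differentiableAt

end abs2

end Pool.Agent.TF

end

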