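import Mathlib
import Pool.Agent.Lib.MP_9cf0c9_mp.Tr.CalibS
import Pool.Agent.Lib.MP_9cf0c9_mp.Tr.GlueA

section
/-! Thomson's inequality for multiples of a trial function, and convexity from trial functions. -/

set_option linter.unusedSectionVars false

set_option linter.unusedVariables false

set_option linter.style.haveILetI false

namespace Pool.Agent.TF

open MeasureTheory Set Metric Filter Topology

open scoped ENNReal NNReal RealInnerProductSpace Gradient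

section gen

variable {V : Type*} [NormedAddCommGroup V] [InnerProductSpace ℝ V] [FiniteDimensional ℝ V]
  [MeasurableSpace V] [BorelSpace V]

theorem TrialK.cmul {S : Set V} {k : V → ℝ} {k' : V → V} (h : TrialK S k k') (c : ℝ) :
    TrialK S (fun x => c * k x) (fun x => c • k' x) := by
  obtain ⟨B, hB⟩ := h.bdd
  refine ⟨⟨|c| * B, fun x => ?_⟩, fun ε hε => ?_, continuous_const.mul h.cont,
    fun x hx => (LipAt.const c x).mul (h.lip x hx), ?_, ?_⟩
  · rw [abs_mul]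
    exact mul_le_mul_of_nonneg_left (hB x) (abs_nonneg _)
  · obtain ⟨r, hr⟩ := h.decay (ε / (|c| + 1)) (by positivity)
    refine ⟨r, fun x hx => ?_⟩
    have h1 := hr x hx
    rw [lt_div_iff₀ (by positivity)] at h1
    rw [abs_mul]
    nlinarith [abs_nonneg (k x), abs_nonneg c]
  · filter_upwards [h.grad] with x hx
    rw [hasGradientAt_iff_hasFDerivAt] at hx ⊢
    have h2 := hx.const_mul c
    simpa only [map_smul] using h2
  · refine (h.sq.const_mul (c ^ 2)).congr (Eventually.of_forall fun x => ?_)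
    simp only [norm_smul, Real.norm_eq_abs, mul_pow, sq_abs]

variable [hd : Fact (Module.finrank ℝ V = 3)]

theorem thomson_mul {S : Set V} (hS : S.Finite) {k : V → ℝ} {k' : V → V} (hk : TrialK S k k')
    {σ τ : V → ℝ} (hσ : TC σ) (hτ : TC τ) (c : ℝ) :
    c * (∫ x, (σ x - τ x) * k x) ≤ c ^ 2 * ((8 * Real.pi)⁻¹ * ∫ x, ‖k' x‖ ^ 2) +
      1 / 2 * (En σ σ - 2 * En σ τ + En τ τ) := by
  have h := thomson hS (hk.cmul c) hσ hτ
  have e1 : ∫ x, (σ x - τ x) * (c * k x) = c * ∫ x, (σ x - τ x) * k x := by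
    rw [← integral_const_mul]
    refine integral_congr_ae (Eventually.of_forall fun x => ?_)
    simp only
    ring
  have e2 : ∫ x, ‖c • k' x‖ ^ 2 = c ^ 2 * ∫ x, ‖k' x‖ ^ 2 := by
    rw [← integral_const_mul]
    refine integral_congr_ae (Eventually.of_forall fun x => ?_)
    simp only [norm_smul, Real.norm_eq_abs, mul_pow, sq_abs]
  rw [e1, e2] at h
  linarith

end gen

variable {ι : Type*} [Fintype ι]

end Pool.Agent.TF

end

section
/-! Convexity in the volume from trial functions with an arbitrarily small negative second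
variation. -/

set_option linter.unusedSectionVars false

set_option linter.unusedVariables false

set_option linter.style.haveILetI false

namespace Pool.Agent.TF

open MeasureTheory Set Metric Filter Topology

open scoped ENNReal NNReal RealInnerProductSpace Gradient

variable {ι : Type*} [Fintype ι]

/-- A trial field with almost nonnegative second variation gives the support inequality. -/
theorem support_of_Vtr_err {z : ι → ℝ} (hz : ∀ i, 0 ≤ z i) (R : ι → X) {φ₀ : ℝ} (hφ : 0 < φ₀)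
    {ρ : X → ℝ} (hρ : TC ρ) (heq : ∀ x, ρ x = tf (Vpt z R x - pot ρ x - φ₀)) {k : X → ℝ}
    (hk : Measurable k) {B : ℝ} (hB : ∀ x, |k x| ≤ B) {E : ℝ}
    (hT : ∀ σ τ : X → ℝ, TC σ → TC τ → ∀ c : ℝ,
      c * (∫ x, (σ x - τ x) * k x) ≤ c ^ 2 * E + 1 / 2 * (En σ σ - 2 * En σ τ + En τ τ))
    {η : ℝ} (hη : 0 ≤ η) (hV : -η ≤ Vtr φ₀ z R ρ k E) :
    ∃ a : ℝ, ∀ ε : ℝ, η < ε → ∃ δ : ℝ, 0 < δ ∧ ∀ t : ℝ, |t| < δ →
      GTF φ₀ z R + a * t - ε * t ^ 2 ≤ GTF φ₀ z (fun i => (1 + t) ^ (1 / 3 : ℝ) • R i) := by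
  have hB1 : 0 ≤ B := (abs_nonneg _).trans (hB 0)
  obtain ⟨r, hr0, hr⟩ := Vpt_far hz R (φ₀ := φ₀ / 4) (by positivity)
  have hG : GTF φ₀ z R = Ept φ₀ z R ρ :=
    GTF_eq hφ hz R hρ fun σ hσ => Ept_min hρ hσ (Eventually.of_forall heq)
  rw [hG, Ept_sol R hρ heq]
  have hexp := gam_expand hz R hφ hρ hk hB1 hB
  unfold Vtr at hV
  rw [hexp] at hV
  set U := Unuc z R with hU
  set A0 := ∫ x, Phi (Vpt z R x - pot ρ x - φ₀) with hA0
  set A1 := ∑ i, z i * pot ρ (R i) with hA1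
  set A2 := ∫ x, ρ x * k x with hA2
  set QVV := ∫ x, gam (Vpt z R x - pot ρ x - φ₀) * Vpt z R x ^ 2 with hQVV
  set QVk := ∫ x, gam (Vpt z R x - pot ρ x - φ₀) * (Vpt z R x * k x) with hQVk
  set Qkk := ∫ x, gam (Vpt z R x - pot ρ x - φ₀) * k x ^ 2 with hQkk
  set M := ∫ x, (ball (0 : X) r).indicator
        (fun x => (Vpt z R x + B) ^ 2 * √(Vpt z R x + B)) x with hM
  set N := En ρ ρ with hN
  set q : ℝ → ℝ := fun s => U * ((1 + s)⁻¹ + 1 + s / 3) + A1 * (1 + 2 / 3 * s) +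
    N / 2 * (1 + s / 3) + A2 * (1 + s + s ^ 2 / 3) * (1 + s) * (2 + s) -
    1 / 2 * (1 + s) * QVV - (1 + s) ^ 2 * (1 + s + s ^ 2 / 3) * QVk -
    1 / 2 * (1 + s) ^ 3 * (1 + s + s ^ 2 / 3) ^ 2 * Qkk -
    (1 + s) * (1 + s + s ^ 2 / 3) ^ 2 * E - (1 + s) ^ 3 * (12 * √(2 * |s|) * M) with hq
  have hqc : ContinuousAt q 0 := by
    have h1 : ContinuousAt (fun s : ℝ => (1 + s)⁻¹) 0 :=
      ContinuousAt.inv₀ (by fun_prop) (by norm_num)
    have h2 : ContinuousAt (fun s : ℝ => U * ((1 + s)⁻¹ + 1 + s / 3)) 0 :=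
      continuousAt_const.mul ((h1.add continuousAt_const).add (by fun_prop))
    have h3 : Continuous (fun s : ℝ => A1 * (1 + 2 / 3 * s) +
      N / 2 * (1 + s / 3) + A2 * (1 + s + s ^ 2 / 3) * (1 + s) * (2 + s) -
      1 / 2 * (1 + s) * QVV - (1 + s) ^ 2 * (1 + s + s ^ 2 / 3) * QVk -
      1 / 2 * (1 + s) ^ 3 * (1 + s + s ^ 2 / 3) ^ 2 * Qkk -
      (1 + s) * (1 + s + s ^ 2 / 3) ^ 2 * E - (1 + s) ^ 3 * (12 * √(2 * |s|) * M)) := by
      fun_prop
    refine (h2.add h3.continuousAt).congr (Eventually.of_forall fun s => ?_)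
    simp only [hq, Pi.add_apply]
    ring
  have hq0 : -η ≤ q 0 := by
    have : q 0 = 1 / 2 * (4 * U + N + 2 * A1 + 4 * A2 - (QVV + 2 * QVk + Qkk) - 2 * E) := by
      simp only [hq, abs_zero, mul_zero, Real.sqrt_zero, add_zero]
      ring
    rw [this]
    linarith
  refine ⟨(-U - 3 * A0 + A1 - 1 / 2 * N) / 3, fun ε hηε => ?_⟩
  have hε : 0 < ε := hη.trans_lt hηε
  have c1 : ∀ᶠ s in 𝓝 (0 : ℝ), -ε < q s := hqc.eventually (lt_mem_nhds (by linarith))
  have c2 : ∀ᶠ s in 𝓝 (0 : ℝ), |s| < 1 / 4 := by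
    have h1 : Tendsto (fun s : ℝ => |s|) (𝓝 0) (𝓝 |(0 : ℝ)|) := continuous_abs.tendsto 0
    rw [abs_zero] at h1
    exact h1.eventually (gt_mem_nhds (by norm_num))
  have c3 : ∀ᶠ s in 𝓝 (0 : ℝ), 2 * |s| * B < φ₀ / 4 := by
    have h1 : Tendsto (fun s : ℝ => 2 * |s| * B) (𝓝 0) (𝓝 (2 * |(0 : ℝ)| * B)) :=
      (by fun_prop : Continuous fun s : ℝ => 2 * |s| * B).tendsto 0
    rw [abs_zero, mul_zero, zero_mul] at h1
    exact h1.eventually (gt_mem_nhds (by positivity))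
  have hst : Tendsto (fun t : ℝ => (1 + t) ^ (1 / 3 : ℝ) - 1) (𝓝 0) (𝓝 0) := by
    have h1 : ContinuousAt (fun t : ℝ => (1 + t) ^ (1 / 3 : ℝ) - 1) 0 := by
      refine ContinuousAt.sub ?_ continuousAt_const
      refine ContinuousAt.rpow_const (by fun_prop) (Or.inl (by norm_num))
    have h2 := h1.tendsto
    simpa using h2
  have c4 : ∀ᶠ t in 𝓝 (0 : ℝ), |t| < 1 := by
    have h1 : Tendsto (fun s : ℝ => |s|) (𝓝 0) (𝓝 |(0 : ℝ)|) := continuous_abs.tendsto 0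
    rw [abs_zero] at h1
    exact h1.eventually (gt_mem_nhds (by norm_num))
  obtain ⟨δ, hδ, hball⟩ := Metric.eventually_nhds_iff.mp
    ((hst.eventually (c1.and (c2.and c3))).and c4)
  refine ⟨δ, hδ, fun t ht => ?_⟩
  obtain ⟨⟨h1, h2, h3⟩, h4⟩ := hball (y := t) (by rwa [Real.dist_eq, sub_zero])
  set s : ℝ := (1 + t) ^ (1 / 3 : ℝ) - 1 with hs
  have h1t : 0 < 1 + t := by
    have := (abs_lt.mp h4).1
    linarith
  have hs1 : 1 + s = (1 + t) ^ (1 / 3 : ℝ) := by rw [hs]; ring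
  have hs3 : (1 + s) ^ 3 = 1 + t := by
    rw [hs1, ← Real.rpow_natCast, ← Real.rpow_mul h1t.le]
    norm_num
  have ht3 : t = 3 * (s + s ^ 2 + s ^ 3 / 3) := by
    have : (1 + s) ^ 3 = 1 + 3 * s + 3 * s ^ 2 + s ^ 3 := by ring
    linarith
  rw [← hs1]
  refine le_GTF _ fun σ hσ => ?_
  have hge := Ept_ge hz R hφ hρ heq hk hB1 hB hT hr h2.le h3.le rfl hσ
  have hs' := abs_lt.mp h2
  have halg := q_algebra (s := s) (U := U) (A0 := A0) (A1 := A1) (A2 := A2) (En := N)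
    (QVV := QVV) (QVk := QVk) (Qkk := Qkk) (E := E) (M := 12 * √(2 * |s|) * M)
    (ne_of_gt (by linarith : (0 : ℝ) < 1 + s)) rfl rfl
  have hfin : U - A0 - 1 / 2 * N + (-U - 3 * A0 + A1 - 1 / 2 * N) / 3 * t - ε * t ^ 2 ≤
      (U - A0 - 1 / 2 * N) +
        (-U - 3 * A0 + A1 - 1 / 2 * N) / 3 * (3 * (s + s ^ 2 + s ^ 3 / 3)) + s ^ 2 * q s := by
    rw [← ht3]
    have h5 := aux_q hε h1 (aux_s2 hs'.1 hs'.2 ht3)
    linarith
  exact (hfin.trans (le_of_eq halg.symm)).trans hge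

/-- Convexity in the volume from trial functions, at every scale, whose second variation is at
least `-η` for every `η > 0`. -/
theorem GTF_convex_of_trial_err {z : ι → ℝ} (hz : ∀ i, 0 ≤ z i) (R : ι → X) {φ₀ : ℝ} (hφ : 0 < φ₀)
    (h : ∀ c : ℝ, 0 < c → ∀ ρ : X → ℝ, TC ρ →
      (∀ x, ρ x = tf (Vpt z (fun i => c • R i) x - pot ρ x - φ₀)) → ∀ η : ℝ, 0 < η →
      ∃ (S : Set X) (k : X → ℝ) (k' : X → X), S.Finite ∧ TrialK S k k' ∧
        -η ≤ Vtr φ₀ z (fun i => c • R i) ρ k ((8 * Real.pi)⁻¹ * ∫ x, ‖k' x‖ ^ 2)) :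
    ConvexOn ℝ (Ioi 0) fun v : ℝ => GTF φ₀ z fun i => v ^ (1 / 3 : ℝ) • R i := by
  refine GTF_convex_of_support hφ hz R fun c hc ε hε => ?_
  obtain ⟨ρ, hρ, -, heq⟩ := exists_point_sol hz (fun i => c • R i) hφ
  obtain ⟨S, k, k', hS, hk, hV⟩ := h c hc ρ hρ heq (ε / 2) (by positivity)
  obtain ⟨B, hB⟩ := hk.bdd
  obtain ⟨a, ha⟩ := support_of_Vtr_err hz (fun i => c • R i) hφ hρ heq hk.cont.measurable hB
    (fun σ τ hσ hτ c => thomson_mul hS hk hσ hτ c) (by positivity) hV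
  obtain ⟨δ, hδ, hsup⟩ := ha ε (by linarith)
  exact ⟨a, δ, hδ, hsup⟩

end Pool.Agent.TF

end

section
/-! The calibration criterion with an integrable error. -/

set_option linter.unusedSectionVars false

set_option linter.unusedVariables false

set_option linter.style.haveILetI false

namespace Pool.Agent.TF

open MeasureTheory Set Metric Filter Topology

open scoped ENNReal NNReal RealInnerProductSpace Gradient

variable {ι : Type*} [Fintype ι]

/-- **the calibration criterion with errors**: `e` in the pointwise inequality, `d i` in the flux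
condition at the nucleus `i` -/
theorem Vtr_ge_of_calib {z : ι → ℝ} (hz : ∀ i, 0 ≤ z i) {R : ι → X}
    (hR : Function.Injective R) {φ₀ : ℝ} (hφ : 0 < φ₀)
    {ρ : X → ℝ} (hρ : TC ρ) (heq : ∀ x, ρ x = tf (Vpt z R x - pot ρ x - φ₀))
    {S : Set X} (hS : S.Finite) {k : X → ℝ} {k' : X → X} (hk : TrialK S k k') {C : ℝ}
    (hkb : ∀ᵐ x : X, ‖k' x‖ ≤ C * (1 + ∑ i, (‖x - R i‖⁻¹) ^ (3 / 4 : ℝ)))
    {H D e : X → ℝ} {H' A : X → X} (he : Integrable e) {d : ι → ℝ}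
    (hH : Flux.LocLip R H) (hH' : ∀ᵐ x : X, HasGradientAt H (H' x) x)
    (hA : Flux.LocInt R A) (hD : Flux.LocInt R D)
    (hflux : ∀ ζ, Flux.TestFn R ζ → -∫ x, ⟪A x, ∇ ζ x⟫ ≤ ∫ x, ζ x * D x)
    (hpt : ∀ᵐ x : X, -e x ≤ Fcal φ₀ z R ρ k k' x - ⟪H' x, gVpt z R x - gradV ρ x⟫ -
      4 * Real.pi * (ρ x * H x) - D x)
    (hnuc : ∀ i, ∀ δ : ℝ, 0 < δ → ∃ η : ℝ, 0 < η ∧ ∀ᵐ x : X, ‖x - R i‖ < η →
      4 * Real.pi * ‖x - R i‖ ^ 2 * ⟪H x • (gVpt z R x - gradV ρ x) + A x,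
        ‖x - R i‖⁻¹ • (x - R i)⟫ ≤ 2 * z i * (Vpt z R (R i) + k (R i)) + d i + δ)
    (hinf : ∀ δ : ℝ, 0 < δ → ∃ N : ℝ, ∀ᵐ x : X, N < ‖x‖ →
      -δ ≤ 4 * Real.pi * ‖x‖ ^ 2 * ⟪H x • (gVpt z R x - gradV ρ x) + A x, ‖x‖⁻¹ • x⟫) :
    -(∫ x, e x) - ∑ i, d i ≤ Vtr φ₀ z R ρ k ((8 * Real.pi)⁻¹ * ∫ x, ‖k' x‖ ^ 2) := by
  obtain ⟨hF, hV⟩ := calib_alg hz R hφ hρ heq hS hk hkb
  have hFe : Integrable fun x => Fcal φ₀ z R ρ k k' x + e x := hF.add he
  have h := Flux.calib_int hR (ρ := ρ) (H := H) (D := D) (F := fun x => Fcal φ₀ z R ρ k k' x + e x)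
    (ψ' := fun x => gVpt z R x - gradV ρ x) (H' := H') (A := A)
    (c := fun i => 2 * z i * (Vpt z R (R i) + k (R i)) + d i)
    (locInt_of_integrable R hρ.int)
    (fun K hK h => (gVpt_locInt z R K hK h).sub (gradV_locInt hz R hφ hρ heq K hK h))
    (by
      intro u C' hu hc hoff
      rw [(weak_sol z R hρ hu hc).2]
      have h0 : ∀ i, u (R i) = 0 := fun i => (hoff i).self_of_nhds
      simp only [h0, mul_zero, Finset.sum_const_zero, zero_sub]
      ring) hH hH' hA hD hFe hflux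
    (by
      filter_upwards [hpt] with x hx
      linarith) hnuc hinf
  rw [integral_add hF he, Finset.sum_add_distrib] at h
  rw [hV]
  linarith

/-- convexity of the energy at fixed chemical potential from calibrations with small errors -/
theorem GTF_convex_of_calib_err {z : ι → ℝ} (hz : ∀ i, 0 ≤ z i) (R : ι → X)
    (hR : Function.Injective R) {φ₀ : ℝ} (hφ : 0 < φ₀)
    (h : ∀ R' : ι → X, Function.Injective R' → ∀ ρ : X → ℝ, TC ρ →
      (∀ x, ρ x = tf (Vpt z R' x - pot ρ x - φ₀)) → ∀ η : ℝ, 0 < η →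
      ∃ (S : Set X) (k : X → ℝ) (k' : X → X), S.Finite ∧ TrialK S k k' ∧
        -η ≤ Vtr φ₀ z R' ρ k ((8 * Real.pi)⁻¹ * ∫ x, ‖k' x‖ ^ 2)) :
    ConvexOn ℝ (Ioi 0) fun v : ℝ => GTF φ₀ z fun i => v ^ (1 / 3 : ℝ) • R i := by
  refine GTF_convex_of_trial_err hz R hφ fun c hc ρ hρ heq η hη => ?_
  exact h (fun i => c • R i) (fun i j hij => hR (smul_right_injective X hc.ne' hij)) ρ hρ heq η hη

end Pool.Agent.TF

end

section
/-! The target statement from trial functions with small errors in the model space `X`. -/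

set_option linter.unusedSectionVars false

set_option linter.unusedVariables false

set_option linter.style.haveILetI false

namespace Pool.Agent
end Pool.Agent

namespace Pool.Agent.Lib.MP_9cf0c9_mp

open MeasureTheory Set Filter Topology Pool.Agent

/-- convexity of the energy in the volume at fixed mass from trial functions with small errors -/
theorem convex_of_trial_err {k : ℕ} (z : Fin k → ℝ) (hz : ∀ j, 0 ≤ z j) (R : Fin k → E3)
    (hR : Function.Injective R)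
    (h : ∀ φ₀ : ℝ, 0 < φ₀ → ∀ R' : Fin k → TF.X, Function.Injective R' →
      ∀ ρ : TF.X → ℝ, TF.TC ρ → (∀ x, ρ x = TF.tf (TF.Vpt z R' x - TF.pot ρ x - φ₀)) →
      ∀ η : ℝ, 0 < η →
      ∃ (S : Set TF.X) (k : TF.X → ℝ) (k' : TF.X → TF.X), S.Finite ∧ TF.TrialK S k k' ∧
        -η ≤ TF.Vtr φ₀ z R' ρ k ((8 * Real.pi)⁻¹ * ∫ x, ‖k' x‖ ^ 2))
    (lam : ℝ) (hlam : 0 ≤ lam) :
    ConvexOn ℝ (Ioi 0) (fun v : ℝ => dilated z R lam (v ^ (1 / 3 : ℝ))) ∧
      ∀ l : ℝ, 0 < l → (∀ᶠ s in 𝓝 l, DifferentiableAt ℝ (dilated z R lam) s) →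
        DifferentiableAt ℝ (pressure z R lam) l → 0 ≤ -(l / 3) * deriv (pressure z R lam) l := by
  obtain ⟨e, he⟩ : ∃ e : E3, ‖e‖ = 1 := exists_norm_eq E3 zero_le_one
  obtain ⟨L, -⟩ := TF.exists_isom_X (V := E3) he
  refine target_of_GTF z hz R (fun φ₀ hφ => ?_) lam hlam
  have h1 := TF.GTF_convex_of_calib_err hz (fun i => L (R i)) (fun i j hij => hR (L.injective hij))
    hφ (h φ₀ hφ)
  refine h1.congr fun v _ => ?_
  have h2 : (fun i => v ^ (1 / 3 : ℝ) • L (R i)) = fun i => L (v ^ (1 / 3 : ℝ) • R i) := by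
    funext i
    rw [map_smul]
  beta_reduce
  rw [h2, TF.GTF_push L φ₀ z (fun i => v ^ (1 / 3 : ℝ) • R i)]

/-- the energy is differentiable in `l` -/
theorem dilated_differentiable {k : ℕ} {z : Fin k → ℝ} (hz : ∀ j, 0 ≤ z j) (R : Fin k → E3)
    {lam : ℝ} (hlam : 0 ≤ lam) {l : ℝ} (hl : 0 < l) : DifferentiableAt ℝ (dilated z R lam) l := by
  have he : ∀ l : ℝ, dilated z R lam l = TF.eTF z (fun j => l • R j) lam := by
    intro l
    unfold dilated
    rw [energy_eq]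
  have hG : ConcaveOn ℝ (Ioi 0) fun t : ℝ => t⁻¹ * dilated z R lam t⁻¹ := by
    refine (TF.gT_concave hz R hlam).congr fun t _ => ?_
    unfold TF.gT
    rw [he]
  have hF : ConvexOn ℝ (Ioi 0) fun s : ℝ =>
      s ^ (2 / 3 : ℝ) * dilated z R lam (s ^ (2 / 3 : ℝ)) := by
    refine (TF.fS_convex hz R hlam).congr fun s hs => ?_
    have hs0 : 0 < s := hs
    have h1 : (s ^ (-(2 / 3) : ℝ))⁻¹ = s ^ (2 / 3 : ℝ) := by
      rw [Real.rpow_neg hs0.le, inv_inv]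
    unfold TF.fS TF.gT
    rw [he, h1]
  exact TF.two_diff hG hF hl

/-- convexity in the volume gives a nonincreasing pressure -/
theorem pressure_anti {k : ℕ} {z : Fin k → ℝ} (hz : ∀ j, 0 ≤ z j) (R : Fin k → E3)
    {lam : ℝ} (hlam : 0 ≤ lam)
    (hconv : ConvexOn ℝ (Ioi 0) fun v : ℝ => dilated z R lam (v ^ (1 / 3 : ℝ))) :
    AntitoneOn (pressure z R lam) (Ioi 0) := by
  have hroot : ∀ x : ℝ, 0 < x → (x ^ 3) ^ (1 / 3 : ℝ) = x := by
    intro x hx
    rw [← Real.rpow_natCast, ← Real.rpow_mul hx.le]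
    norm_num
  have hder : ∀ x : ℝ, 0 < x → HasDerivAt (fun v : ℝ => dilated z R lam (v ^ (1 / 3 : ℝ)))
      (-pressure z R lam x) (x ^ 3) := by
    intro x hx0
    have h1 : HasDerivAt (fun v : ℝ => v ^ (1 / 3 : ℝ)) (1 / 3 * (x ^ 3) ^ ((1 / 3 : ℝ) - 1)) (x ^ 3) :=
      Real.hasDerivAt_rpow_const (Or.inl (by positivity))
    have h2 : (x ^ 3) ^ ((1 / 3 : ℝ) - 1) = (x ^ 2)⁻¹ := by
      rw [← Real.rpow_natCast, ← Real.rpow_mul hx0.le, ← Real.rpow_natCast, ← Real.rpow_neg hx0.le]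
      norm_num
    rw [h2] at h1
    have h3 : HasDerivAt (dilated z R lam) (deriv (dilated z R lam) x) ((x ^ 3) ^ (1 / 3 : ℝ)) := by
      rw [hroot x hx0]
      exact (dilated_differentiable hz R hlam hx0).hasDerivAt
    have h4 := HasDerivAt.comp (x ^ 3) h3 h1
    refine h4.congr_deriv ?_
    unfold pressure
    field_simp
  intro x hx y hy hxy
  rcases hxy.eq_or_lt with h | h
  · rw [h]
  have hx0 : 0 < x := hx
  have hy0 : 0 < y := hy
  have h3 : x ^ 3 < y ^ 3 := pow_lt_pow_left₀ h hx0.le (by norm_num)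
  have hx3 : x ^ 3 ∈ Ioi (0 : ℝ) := by simpa using pow_pos hx0 3
  have hy3 : y ^ 3 ∈ Ioi (0 : ℝ) := by simpa using pow_pos hy0 3
  have h1 := hconv.deriv_le_slope hx3 hy3 h3 (hder x hx0).differentiableAt
  have h2 := hconv.slope_le_deriv hx3 hy3 h3 (hder y hy0).differentiableAt
  have h4 := h1.trans h2
  rw [(hder x hx0).deriv, (hder y hy0).deriv] at h4
  linarith

/-- **the target**: differentiable energy, nonincreasing pressure, nonnegative compressibility -/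
theorem target_of_trial_err {k : ℕ} (z : Fin k → ℝ) (hz : ∀ j, 0 ≤ z j) (R : Fin k → E3)
    (hR : Function.Injective R)
    (h : ∀ φ₀ : ℝ, 0 < φ₀ → ∀ R' : Fin k → TF.X, Function.Injective R' →
      ∀ ρ : TF.X → ℝ, TF.TC ρ → (∀ x, ρ x = TF.tf (TF.Vpt z R' x - TF.pot ρ x - φ₀)) →
      ∀ η : ℝ, 0 < η →
      ∃ (S : Set TF.X) (k : TF.X → ℝ) (k' : TF.X → TF.X), S.Finite ∧ TF.TrialK S k k' ∧
        -η ≤ TF.Vtr φ₀ z R' ρ k ((8 * Real.pi)⁻¹ * ∫ x, ‖k' x‖ ^ 2))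
    (lam : ℝ) (hlam : 0 ≤ lam) :
    (∀ l : ℝ, 0 < l → DifferentiableAt ℝ (dilated z R lam) l) ∧
      AntitoneOn (pressure z R lam) (Ioi 0) ∧
      ∀ l : ℝ, 0 < l → DifferentiableAt ℝ (pressure z R lam) l →
        0 ≤ -(l / 3) * deriv (pressure z R lam) l := by
  obtain ⟨h1, h2⟩ := convex_of_trial_err z hz R hR h lam hlam
  refine ⟨fun l hl => dilated_differentiable hz R hlam hl, pressure_anti hz R hlam h1,
    fun l hl hp => h2 l hl ?_ hp⟩
  filter_upwards [Ioi_mem_nhds hl] with s hs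
  exact dilated_differentiable hz R hlam hs

end Pool.Agent.Lib.MP_9cf0c9_mp

end

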