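import Mathlib
import Pool.Agent.Lib.MP_9cf0c9_mp.Tr.ErrA
/-! Equal charges: the statement from trial functions for positive charges. -/

set_option linter.unusedSectionVars false

set_option linter.unusedVariables false

set_option linter.style.haveILetI false

namespace Pool.Agent
end Pool.Agent

namespace Pool.Agent.TF

open MeasureTheory Set Filter Topology

theorem TrialK.zero (S : Set X) : TrialK S (fun _ => (0 : ℝ)) (fun _ => (0 : X)) where
  bdd := ⟨0, fun x => by simp⟩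
  decay := fun ε hε => ⟨0, fun x _ => by simpa using hε⟩
  cont := continuous_const
  lip := fun x _ => ⟨1, univ, univ_mem, fun a _ b _ => by simp⟩
  grad := Eventually.of_forall fun x => by
    rw [hasGradientAt_iff_hasFDerivAt, map_zero]
    exact hasFDerivAt_const _ _
  sq := by simp

/-- without nuclei the second variation of the zero field is nonnegative -/
theorem Vtr_zero {ι : Type*} [Fintype ι] {z : ι → ℝ} (hz : ∀ i, z i = 0) (R : ι → X) (φ₀ : ℝ)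
    {ρ : X → ℝ} (hρ : TC ρ) :
    0 ≤ Vtr φ₀ z R ρ (fun _ => 0) ((8 * Real.pi)⁻¹ * ∫ _x : X, ‖(0 : X)‖ ^ 2) := by
  have h1 : Unuc z R = 0 := by
    unfold Unuc
    simp [hz]
  have h2 : ∀ x, Vpt z R x = 0 := by
    intro x
    unfold Vpt
    simp [hz]
  have h3 : ∑ i, z i * pot ρ (R i) = 0 := by simp [hz]
  unfold Vtr
  rw [h1, h3]
  simp only [h2]
  have h4 := hρ.En_nonneg hρ
  simp only [mul_zero, add_zero, integral_zero, ne_eq, OfNat.ofNat_ne_zero, not_false_eq_true,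
    zero_pow, norm_zero, sub_zero]
  linarith

end Pool.Agent.TF

namespace Pool.Agent.Lib.MP_9cf0c9_mp

open MeasureTheory Set Filter Topology Pool.Agent

/-- the trial functions for positive equal charges give the target for all equal charges -/
theorem allEqual_of
    (H : ∀ {k : ℕ} (z : Fin k → ℝ) (q : ℝ), 0 < q → (∀ i, z i = q) →
      ∀ φ₀ : ℝ, 0 < φ₀ → ∀ R' : Fin k → TF.X, Function.Injective R' →
      ∀ ρ : TF.X → ℝ, TF.TC ρ → (∀ x, ρ x = TF.tf (TF.Vpt z R' x - TF.pot ρ x - φ₀)) →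
      ∀ η : ℝ, 0 < η →
      ∃ (S : Set TF.X) (k : TF.X → ℝ) (k' : TF.X → TF.X), S.Finite ∧ TF.TrialK S k k' ∧
        -η ≤ TF.Vtr φ₀ z R' ρ k ((8 * Real.pi)⁻¹ * ∫ x, ‖k' x‖ ^ 2))
    {k : ℕ} (z : Fin k → ℝ) (hz : ∀ j, 0 ≤ z j) (heq : ∀ i j, z i = z j)
    (R : Fin k → E3) (hR : Function.Injective R) (lam : ℝ) (hlam : 0 ≤ lam) :
    (∀ l : ℝ, 0 < l → DifferentiableAt ℝ (dilated z R lam) l) ∧
      AntitoneOn (pressure z R lam) (Ioi 0) ∧
      ConvexOn ℝ (Ioi 0) (fun v : ℝ => dilated z R lam (v ^ (1 / 3 : ℝ))) ∧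
      ∀ l : ℝ, 0 < l → DifferentiableAt ℝ (pressure z R lam) l →
        0 ≤ -(l / 3) * deriv (pressure z R lam) l := by
  have key : ∀ φ₀ : ℝ, 0 < φ₀ → ∀ R' : Fin k → TF.X, Function.Injective R' →
      ∀ ρ : TF.X → ℝ, TF.TC ρ → (∀ x, ρ x = TF.tf (TF.Vpt z R' x - TF.pot ρ x - φ₀)) →
      ∀ η : ℝ, 0 < η →
      ∃ (S : Set TF.X) (k : TF.X → ℝ) (k' : TF.X → TF.X), S.Finite ∧ TF.TrialK S k k' ∧
        -η ≤ TF.Vtr φ₀ z R' ρ k ((8 * Real.pi)⁻¹ * ∫ x, ‖k' x‖ ^ 2) := by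
    intro φ₀ hφ R' hR' ρ hρ he η hη
    by_cases h0 : ∀ i, z i = 0
    · refine ⟨∅, fun _ => 0, fun _ => 0, Set.finite_empty, TF.TrialK.zero ∅, ?_⟩
      have := TF.Vtr_zero h0 R' φ₀ hρ
      linarith
    · push Not at h0
      obtain ⟨i₀, hi₀⟩ := h0
      have hq : 0 < z i₀ := lt_of_le_of_ne (hz i₀) hi₀.symm
      exact H z (z i₀) hq (fun i => heq i i₀) φ₀ hφ R' hR' ρ hρ he η hη
  obtain ⟨h1, h2, h3⟩ := target_of_trial_err z hz R hR key lam hlam
  exact ⟨h1, h2, (convex_of_trial_err z hz R hR key lam hlam).1, h3⟩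

end Pool.Agent.Lib.MP_9cf0c9_mp
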