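import Mathlib
import Pool.Agent.Lib.MP_9cf0c9_mp.Tr.Compare
import Pool.Agent.Lib.MP_9cf0c9_mp.Tr.PointSol
/-! Reflections in planes: comparison of a Thomas-Fermi potential with its mirror image, and of
the difference of two Thomas-Fermi potentials with its mirror image. -/

set_option autoImplicit false

set_option linter.unusedSectionVars false

set_option linter.unusedVariables false

set_option linter.style.haveILetI false

namespace Pool.Agent.TF

open MeasureTheory Set Metric Filter Topology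

open scoped ENNReal NNReal RealInnerProductSpace

/-! ### the reflection -/

/-- the height of `x` over the plane through `o` with normal `e` -/
noncomputable def hgt (o e x : X) : ℝ := ⟪x - o, e⟫

/-- the mirror image of `x` in the plane through `o` with unit normal `e` -/
noncomputable def mir (o e x : X) : X := x - (2 * hgt o e x) • e

theorem hgt_continuous (o e : X) : Continuous (hgt o e) := by unfold hgt; fun_prop

theorem mir_continuous (o e : X) : Continuous (mir o e) := by
  unfold mir hgt; fun_prop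

theorem hgt_mir {o e : X} (he : ‖e‖ = 1) (x : X) : hgt o e (mir o e x) = -hgt o e x := by
  have h1 : ⟪e, e⟫ = 1 := by rw [real_inner_self_eq_norm_sq, he]; norm_num
  unfold mir
  have h2 : hgt o e (x - (2 * hgt o e x) • e) = hgt o e x - 2 * hgt o e x * ⟪e, e⟫ := by
    unfold hgt
    rw [sub_right_comm, inner_sub_left, real_inner_smul_left]
  rw [h2, h1]
  ring

theorem mir_mir {o e : X} (he : ‖e‖ = 1) (x : X) : mir o e (mir o e x) = x := by
  have h0 : mir o e (mir o e x) = mir o e x - (2 * hgt o e (mir o e x)) • e := rfl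
  have h1 : mir o e x = x - (2 * hgt o e x) • e := rfl
  have h2 : 2 * hgt o e x + 2 * -hgt o e x = 0 := by ring
  rw [h0, hgt_mir he, h1, sub_sub, ← add_smul, h2, zero_smul, sub_zero]

theorem mir_fix {o e x : X} (h : hgt o e x = 0) : mir o e x = x := by
  unfold mir
  rw [h, mul_zero, zero_smul, sub_zero]

theorem norm_mir_sq {o e : X} (he : ‖e‖ = 1) (x y : X) :
    ‖mir o e x - y‖ ^ 2 = ‖x - y‖ ^ 2 + 4 * (hgt o e x * hgt o e y) := by
  have h1 : mir o e x - y = (x - y) - (2 * hgt o e x) • e := by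
    unfold mir
    abel
  have h2 : ⟪x - y, e⟫ = hgt o e x - hgt o e y := by
    unfold hgt
    rw [← inner_sub_left]
    congr 1
    abel
  rw [h1, @norm_sub_sq_real, real_inner_smul_right, h2, norm_smul, he, mul_one, Real.norm_eq_abs,
    sq_abs]
  ring

theorem norm_mir_mir {o e : X} (he : ‖e‖ = 1) (x y : X) :
    ‖mir o e x - mir o e y‖ = ‖x - y‖ := by
  have h1 := norm_mir_sq he (o := o) x (mir o e y)
  have h2 := norm_mir_sq he (o := o) y x
  rw [hgt_mir he] at h1
  rw [norm_sub_rev (mir o e y) x, norm_sub_rev y x] at h2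
  have h3 : ‖mir o e x - mir o e y‖ ^ 2 = ‖x - y‖ ^ 2 := by
    rw [h1, h2]
    ring
  exact (sq_eq_sq₀ (norm_nonneg _) (norm_nonneg _)).mp h3

theorem norm_mir_left {o e : X} (he : ‖e‖ = 1) (x y : X) : ‖mir o e x - y‖ = ‖x - mir o e y‖ := by
  have h := norm_mir_mir (o := o) he x (mir o e y)
  rw [mir_mir he] at h
  exact h

theorem norm_le_mir {o e : X} (he : ‖e‖ = 1) {x y : X} (h : 0 ≤ hgt o e x * hgt o e y) :
    ‖x - y‖ ≤ ‖x - mir o e y‖ := by
  rw [← norm_mir_left he]
  have h1 := norm_mir_sq he (o := o) x y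
  exact (sq_le_sq₀ (norm_nonneg _) (norm_nonneg _)).mp (by linarith)

/-- the linear part of the reflection -/
noncomputable def mirL (e : X) : X ≃ₗᵢ[ℝ] X := (ℝ ∙ e)ᗮ.reflection

theorem mirL_apply {e : X} (he : ‖e‖ = 1) (v : X) : mirL e v = v - (2 * ⟪v, e⟫) • e := by
  unfold mirL
  rw [Submodule.reflection_orthogonal_apply, Submodule.reflection_apply,
    Submodule.starProjection_unit_singleton ℝ he, real_inner_comm, two_smul ℕ, neg_sub, mul_smul,
    two_smul ℝ]

theorem mir_eq_mirL {o e : X} (he : ‖e‖ = 1) (x : X) : mir o e x = mirL e (x + -o) + o := by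
  rw [mirL_apply he, ← sub_eq_add_neg]
  unfold mir hgt
  abel

theorem TC.mir {ρ : X → ℝ} (hρ : TC ρ) {o e : X} (he : ‖e‖ = 1) :
    TC (fun x => ρ (mir o e x)) := by
  have h1 : TC (fun y => ρ (y - (-o))) := hρ.translate (-o)
  have h2 : TC (fun y => ρ (mirL e y - (-o))) := by
    have := h1.push (mirL e).symm
    exact this
  have h3 := h2.translate o
  refine (iff_of_eq ?_).mp h3
  congr 1
  funext y
  rw [mir_eq_mirL he, sub_neg_eq_add, ← sub_eq_add_neg]

theorem pot_mir {o e : X} (he : ‖e‖ = 1) (ρ : X → ℝ) (x : X) :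
    pot (fun y => ρ (mir o e y)) x = pot ρ (mir o e x) := by
  have h1 : (fun y => ρ (mir o e y)) = fun y => (fun w => (fun v => ρ (v + o)) (mirL e w)) (y + -o) := by
    funext y
    simp only
    rw [mir_eq_mirL he]
  rw [h1, pot_translate (fun w => (fun v => ρ (v + o)) (mirL e w)) (-o) x,
    pot_comp_isom (mirL e) (fun v => ρ (v + o)), pot_translate, ← mir_eq_mirL he]

/-! ### the minimum principle with boundary values and poles -/

theorem min_princ_bd {u : X → ℝ} {D S : Set X} (hD : IsOpen D) (hS : S.Finite)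
    (hc : ∀ x ∈ D, x ∉ S → ContinuousAt u x)
    (hb : ∀ x ∈ frontier D, x ∉ S → ∀ ε > 0, ∀ᶠ y in 𝓝 x, y ∈ D → -ε < u y)
    (hsing : ∀ p ∈ S, ∀ᶠ x in 𝓝[≠] p, x ∈ D → 0 ≤ u x)
    (hinf : ∀ ε > 0, ∃ R', ∀ x ∈ D, R' ≤ ‖x‖ → -ε < u x)
    (hmv : ∀ x ∈ D, x ∉ S → u x < 0 → (∃ δ > 0, ∀ y ∈ ball x δ, y ∈ D ∧ y ∉ S ∧ u y < 0) →
      ∃ δ > 0, ∀ r, 0 < r → r < δ →
      ∫ y in ball x r, u y ≤ 4 / 3 * Real.pi * r ^ 3 * u x) : ∀ x ∈ D, x ∉ S → 0 ≤ u x := by
  classical
  set w : X → ℝ := fun x => if x ∈ D then min (u x) 0 else 0 with hw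
  have hSc : IsOpen Sᶜ := hS.isClosed.isOpen_compl
  have hw0 : ∀ x, w x ≤ 0 := by
    intro x
    simp only [hw]
    split_ifs
    · exact min_le_right _ _
    · exact le_rfl
  have hwD : ∀ x, w x < 0 → x ∈ D ∧ u x < 0 ∧ w x = u x := by
    intro x hx
    simp only [hw] at hx ⊢
    split_ifs at hx ⊢ with h
    · rcases min_lt_iff.mp hx with h1 | h1
      · exact ⟨h, h1, min_eq_left h1.le⟩
      · exact absurd h1 (lt_irrefl _)
    · exact absurd hx (lt_irrefl _)
  have key := min_princ_poles (u := w) hS ?_ ?_ ?_ ?_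
  · intro x hx hxS
    have h1 := key x hxS
    simp only [hw] at h1
    rw [if_pos hx] at h1
    exact (le_min_iff.mp h1).1
  · intro x hxS
    by_cases hx : x ∈ D
    · have h1 : w =ᶠ[𝓝 x] fun y => min (u y) 0 := by
        filter_upwards [hD.mem_nhds hx] with y hy
        simp only [hw]
        rw [if_pos hy]
      exact ContinuousAt.congr ((hc x hx hxS).min continuousAt_const) h1.symm
    · have hwx : w x = 0 := by simp only [hw]; rw [if_neg hx]
      by_cases hf : x ∈ frontier D
      · rw [ContinuousAt, hwx, Metric.tendsto_nhds]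
        intro ε hε
        filter_upwards [hb x hf hxS ε hε] with y hy
        rw [Real.dist_eq, sub_zero, abs_of_nonpos (hw0 y)]
        simp only [hw]
        split_ifs with h
        · rcases min_cases (u y) 0 with ⟨h1, -⟩ | ⟨h1, -⟩
          · rw [h1]
            have := hy h
            linarith
          · rw [h1]
            linarith
        · linarith
      · have h1 : w =ᶠ[𝓝 x] fun _ => (0 : ℝ) := by
          have h2 : x ∉ closure D := by
            intro h
            refine hf ⟨h, ?_⟩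
            rw [hD.interior_eq]
            exact hx
          filter_upwards [isClosed_closure.isOpen_compl.mem_nhds h2] with y hy
          simp only [hw]
          rw [if_neg fun h => hy (subset_closure h)]
        exact h1.continuousAt
  · intro p hp
    filter_upwards [hsing p hp] with x hx
    simp only [hw]
    split_ifs with h
    · exact le_min (hx h) le_rfl
    · exact le_rfl
  · intro ε hε
    obtain ⟨R', hR'⟩ := hinf ε hε
    refine ⟨R', fun x hx => ?_⟩
    simp only [hw]
    split_ifs with h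
    · exact lt_min (hR' x h hx) (by linarith)
    · linarith
  · rintro x hxS hx ⟨δ1, hδ1, hb1⟩
    obtain ⟨hxD, hux, hwx⟩ := hwD x hx
    have hwu : ∀ y ∈ ball x δ1, y ∈ D ∧ y ∉ S ∧ u y < 0 ∧ w y = u y := by
      intro y hy
      obtain ⟨h1, h2⟩ := hb1 y hy
      obtain ⟨h3, h4, h5⟩ := hwD y h2
      exact ⟨h3, h1, h4, h5⟩
    obtain ⟨δ, hδ, hm⟩ := hmv x hxD hxS hux
      ⟨δ1, hδ1, fun y hy => ⟨(hwu y hy).1, (hwu y hy).2.1, (hwu y hy).2.2.1⟩⟩
    refine ⟨min δ δ1, lt_min hδ hδ1, fun r hr hrd => ?_⟩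
    have h4 := hm r hr (hrd.trans_le (min_le_left _ _))
    rw [hwx]
    refine le_trans (le_of_eq ?_) h4
    refine setIntegral_congr_fun measurableSet_ball fun y hy => ?_
    exact (hwu y (ball_subset_ball (hrd.le.trans (min_le_right _ _)) hy)).2.2.2

/-! ### the minimum principle in a half space, for odd functions -/

/-- the potential of a charge at `P` and of the opposite charge at the mirror image -/
noncomputable def dip (o e P x : X) : ℝ := ‖x - P‖⁻¹ - ‖x - mir o e P‖⁻¹

theorem dip_nonneg {o e P x : X} (he : ‖e‖ = 1) (hx : 0 < hgt o e x) (hP : 0 ≤ hgt o e P)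
    (hxP : x ≠ P) : 0 ≤ dip o e P x := by
  unfold dip
  have h1 := norm_le_mir he (mul_nonneg hx.le hP)
  have h2 : 0 < ‖x - P‖ := norm_pos_iff.mpr (sub_ne_zero.mpr hxP)
  have := inv_anti₀ h2 h1
  linarith

theorem dip_plane {o e P x : X} (hP : hgt o e P = 0) : dip o e P x = 0 := by
  unfold dip
  rw [mir_fix hP, sub_self]

theorem dip_on {o e P x : X} (he : ‖e‖ = 1) (hx : hgt o e x = 0) : dip o e P x = 0 := by
  unfold dip
  rw [← norm_mir_left he, mir_fix hx, sub_self]

theorem dip_mir {o e : X} (he : ‖e‖ = 1) (P x : X) :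
    ‖x - P‖⁻¹ - ‖mir o e x - P‖⁻¹ = dip o e P x := by
  unfold dip
  rw [norm_mir_left he]

section half

variable {κ : Type*} [Fintype κ]

theorem half_min {o e : X} (he : ‖e‖ = 1) {c : κ → ℝ} (hc : ∀ j, 0 ≤ c j) {P : κ → X}
    (hP : ∀ j, 0 < c j → 0 ≤ hgt o e (P j)) {f g : X → ℝ} (hf : TC f) (hg : TC g)
    (hfg : ∀ x, hgt o e x = 0 → pot g x ≤ pot f x)
    (hmono : ∀ᵐ y : X, 0 < hgt o e y →
      ∑ j, c j * dip o e (P j) y + (pot f y - pot g y) < 0 → g y ≤ f y)
    {x : X} (hx : 0 < hgt o e x) (hxP : ∀ j, 0 < c j → x ≠ P j) :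
    0 ≤ ∑ j, c j * dip o e (P j) x + (pot f x - pot g x) := by
  classical
  set D : Set X := {x | 0 < hgt o e x} with hDdef
  set S : Set X := {p | ∃ j, 0 < c j ∧ 0 < hgt o e (P j) ∧ p = P j} with hSdef
  have hD : IsOpen D := isOpen_lt continuous_const (hgt_continuous o e)
  have hS : S.Finite := by
    refine (Set.finite_range P).subset ?_
    rintro p ⟨j, -, -, rfl⟩
    exact ⟨j, rfl⟩
  set u : X → ℝ := fun x => ∑ j, c j * dip o e (P j) x + (pot f x - pot g x) with hu
  have hpc : Continuous (fun x => pot f x - pot g x) := hf.pot_continuous.sub hg.pot_continuous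
  -- terms
  have hterm : ∀ j, c j = 0 ∨ hgt o e (P j) = 0 ∨ (0 < c j ∧ 0 < hgt o e (P j)) := by
    intro j
    rcases (hc j).eq_or_lt with h | h
    · exact Or.inl h.symm
    · rcases (hP j h).eq_or_lt with h2 | h2
      · exact Or.inr (Or.inl h2.symm)
      · exact Or.inr (Or.inr ⟨h, h2⟩)
  have hmirne : ∀ {j} {x : X}, 0 ≤ hgt o e x → 0 < hgt o e (P j) → x ≠ mir o e (P j) := by
    intro j x hx hj h
    rw [h, hgt_mir he] at hx
    linarith
  have hdc : ∀ j (x : X), 0 ≤ hgt o e x → x ∉ S → ContinuousAt (fun x => c j * dip o e (P j) x) x := by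
    intro j x hx hxS
    rcases hterm j with h | h | ⟨h1, h2⟩
    · simp only [h, zero_mul]
      exact continuousAt_const
    · simp only [dip_plane h, mul_zero]
      exact continuousAt_const
    · have h3 : x - P j ≠ 0 := by
        intro h4
        exact hxS ⟨j, h1, h2, sub_eq_zero.mp h4⟩
      have h4 : x - mir o e (P j) ≠ 0 := sub_ne_zero.mpr (hmirne hx h2)
      refine ContinuousAt.mul continuousAt_const ?_
      unfold dip
      refine ContinuousAt.sub (ContinuousAt.inv₀ (by fun_prop) ?_) (ContinuousAt.inv₀ (by fun_prop) ?_)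
      · exact norm_ne_zero_iff.mpr h3
      · exact norm_ne_zero_iff.mpr h4
  have hcont : ∀ x, 0 ≤ hgt o e x → x ∉ S → ContinuousAt u x := by
    intro x hx hxS
    have h1 : ContinuousAt (fun x => ∑ j, c j * dip o e (P j) x) x :=
      tendsto_finsetSum _ fun j _ => hdc j x hx hxS
    exact h1.add hpc.continuousAt
  have hpos1 : ∀ j (x : X), 0 < hgt o e x → x ∉ S → 0 ≤ c j * dip o e (P j) x := by
    intro j x hx hxS
    rcases hterm j with h | h | ⟨h1, h2⟩
    · rw [h, zero_mul]
    · rw [dip_plane h, mul_zero]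
    · exact mul_nonneg h1.le (dip_nonneg he hx h2.le fun h => hxS ⟨j, h1, h2, h⟩)
  have hpos : ∀ x : X, 0 < hgt o e x → x ∉ S → 0 ≤ ∑ j, c j * dip o e (P j) x := fun x hx hxS =>
    Finset.sum_nonneg fun j _ => hpos1 j x hx hxS
  have hxS : x ∉ S := by
    rintro ⟨j, h1, -, h2⟩
    exact hxP j h1 h2
  refine min_princ_bd hD hS (fun x hx hxS => hcont x (le_of_lt hx) hxS) ?_ ?_ ?_ ?_ x hx hxS
  · -- the plane
    intro x hx hxS ε hε
    have hx0 : hgt o e x = 0 := by
      have h1 := frontier_lt_subset_eq (f := fun _ : X => (0 : ℝ)) continuous_const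
        (hgt_continuous o e) hx
      exact (h1 : (0 : ℝ) = hgt o e x).symm
    have hux : 0 ≤ u x := by
      simp only [hu]
      rw [Finset.sum_eq_zero fun j _ => by rw [dip_on he hx0, mul_zero], zero_add]
      exact sub_nonneg.mpr (hfg x hx0)
    have h2 := (hcont x hx0.ge hxS).eventually (lt_mem_nhds (show -ε < u x by linarith))
    filter_upwards [h2] with y hy _
    exact hy
  · -- poles
    rintro p ⟨i, hi, hi2, rfl⟩
    have h1 : Tendsto (fun x : X => c i * ‖x - P i‖⁻¹) (𝓝[≠] (P i)) atTop := by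
      refine Tendsto.const_mul_atTop hi ?_
      refine tendsto_inv_nhdsGT_zero.comp ?_
      rw [tendsto_nhdsWithin_iff]
      constructor
      · have h2 : ContinuousAt (fun x : X => ‖x - P i‖) (P i) := by fun_prop
        have h3 : Tendsto (fun x : X => ‖x - P i‖) (𝓝 (P i)) (𝓝 ‖P i - P i‖) := h2
        rw [sub_self, norm_zero] at h3
        exact h3.mono_left nhdsWithin_le_nhds
      · filter_upwards [self_mem_nhdsWithin] with x hx
        exact norm_pos_iff.mpr (sub_ne_zero.mpr hx)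
    have h4 : P i - mir o e (P i) ≠ 0 := sub_ne_zero.mpr (hmirne hi2.le hi2)
    have h5 : ContinuousAt (fun x : X => pot f x - pot g x - c i * ‖x - mir o e (P i)‖⁻¹) (P i) := by
      refine hpc.continuousAt.sub (ContinuousAt.mul continuousAt_const ?_)
      exact ContinuousAt.inv₀ (by fun_prop) (norm_ne_zero_iff.mpr h4)
    have h3 := h1.atTop_add (h5.tendsto.mono_left nhdsWithin_le_nhds)
    have hSc : ∀ᶠ x in 𝓝[≠] (P i), x ∉ S := by
      have h6 : (S \ {P i})ᶜ ∈ 𝓝 (P i) :=
        (hS.subset sdiff_subset).isClosed.isOpen_compl.mem_nhds fun h => h.2 rfl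
      filter_upwards [mem_nhdsWithin_of_mem_nhds h6, self_mem_nhdsWithin] with x hx hx2 hxS
      exact hx ⟨hxS, hx2⟩
    filter_upwards [h3.eventually_ge_atTop 0, hSc] with x hx hxS hxD
    have hx' : 0 ≤ c i * ‖x - P i‖⁻¹ + (pot f x - pot g x - c i * ‖x - mir o e (P i)‖⁻¹) := hx
    show 0 ≤ ∑ j, c j * dip o e (P j) x + (pot f x - pot g x)
    have h6 : c i * dip o e (P i) x ≤ ∑ j, c j * dip o e (P j) x :=
      Finset.single_le_sum (f := fun j => c j * dip o e (P j) x)
        (fun j _ => hpos1 j x hxD hxS) (Finset.mem_univ i)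
    have h7 : c i * dip o e (P i) x = c i * ‖x - P i‖⁻¹ - c i * ‖x - mir o e (P i)‖⁻¹ := by
      unfold dip
      ring
    rw [h7] at h6
    linarith
  · -- infinity
    intro ε hε
    obtain ⟨R1, hR1⟩ := hg.pot_decay hε
    obtain ⟨R2, hR2⟩ := hS.isBounded.subset_closedBall (0 : X)
    refine ⟨max R1 (R2 + 1), fun x hx hxR => ?_⟩
    have h1 := hR1 x ((le_max_left _ _).trans hxR)
    have hxS : x ∉ S := by
      intro h
      have h2 := hR2 h
      rw [mem_closedBall_zero_iff] at h2
      have := (le_max_right R1 (R2 + 1)).trans hxR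
      linarith
    have h2 := hpos x hx hxS
    have h3 : 0 ≤ pot f x := pot_nonneg hf.nonneg x
    simp only [hu]
    linarith
  · -- mean values
    rintro x hxD hxS hux ⟨δ, hδ, hb⟩
    refine ⟨min δ (hgt o e x), lt_min hδ hxD, fun r hr hrd => ?_⟩
    have hrδ : r ≤ δ := hrd.le.trans (min_le_left _ _)
    have hrh : r ≤ hgt o e x := hrd.le.trans (min_le_right _ _)
    have hle : ∀ᵐ y : X, y ∈ ball x r → g y ≤ f y := by
      filter_upwards [hmono] with y hy hyb
      obtain ⟨h1, -, h3⟩ := hb y (ball_subset_ball hrδ hyb)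
      exact hy h1 h3
    have h1 := hf.mean_sub_le hg hr hle
    have hm : ∀ j, IntegrableOn (fun y => c j * dip o e (P j) y) (ball x r) ∧
        ∫ y in ball x r, c j * dip o e (P j) y ≤
          4 / 3 * Real.pi * r ^ 3 * (c j * dip o e (P j) x) := by
      intro j
      rcases hterm j with h | h | ⟨h2, h3⟩
      · simp [h]
      · simp [dip_plane h]
      · have h4 : P j ≠ x := fun h4 => hxS ⟨j, h2, h3, h4.symm⟩
        have h5 : mir o e (P j) ≠ x := fun h5 => hmirne hxD.le h3 h5.symm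
        obtain ⟨m1, m2, -⟩ := mean_inv h4 hr
        obtain ⟨m3, -, m4⟩ := mean_inv h5 hr
        have h6 : r ≤ ‖x - mir o e (P j)‖ := by
          have h7 : hgt o e x - hgt o e (mir o e (P j)) ≤ ‖x - mir o e (P j)‖ := by
            have h8 : hgt o e x - hgt o e (mir o e (P j)) = ⟪x - mir o e (P j), e⟫ := by
              unfold hgt
              rw [← inner_sub_left]
              congr 1
              abel
            rw [h8]
            have := real_inner_le_norm (x - mir o e (P j)) e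
            rwa [he, mul_one] at this
          rw [hgt_mir he] at h7
          linarith
        have h7 := m4 h6
        have m5 : IntegrableOn (fun y => dip o e (P j) y) (ball x r) := m1.sub m3
        refine ⟨m5.const_mul _, ?_⟩
        have h8 : ∫ y in ball x r, dip o e (P j) y ≤ 4 / 3 * Real.pi * r ^ 3 * dip o e (P j) x := by
          unfold dip
          rw [integral_sub m1 m3, h7]
          linarith
        rw [integral_const_mul]
        have := mul_le_mul_of_nonneg_left h8 h2.le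
        linarith
    have hsum : ∫ y in ball x r, ∑ j, c j * dip o e (P j) y ≤
        4 / 3 * Real.pi * r ^ 3 * ∑ j, c j * dip o e (P j) x := by
      rw [integral_finsetSum _ fun j _ => (hm j).1, Finset.mul_sum]
      exact Finset.sum_le_sum fun j _ => (hm j).2
    have i1 : IntegrableOn (fun y => ∑ j, c j * dip o e (P j) y) (ball x r) :=
      integrable_finsetSum _ fun j _ => (hm j).1
    have i2 : IntegrableOn (fun y => pot f y - pot g y) (ball x r) :=
      (hpc.continuousOn.integrableOn_compact (isCompact_closedBall x r)).mono_set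
        ball_subset_closedBall
    have e1 : ∫ y in ball x r, u y = (∫ y in ball x r, ∑ j, c j * dip o e (P j) y) +
        (∫ y in ball x r, (pot f y - pot g y)) := by
      simp only [hu]
      rw [integral_add i1 i2]
    rw [e1]
    simp only [hu]
    nlinarith [h1, hsum]

end half

/-! ### increments of the nonlinearity -/

/-! ### one potential and its mirror image -/

variable {ι : Type*} [Fintype ι]

theorem Vn_sub_mir {o e : X} (he : ‖e‖ = 1) (z : ι → ℝ) (R : ι → X) (x : X) :
    Vn z R x - Vn z R (mir o e x) = ∑ i, z i * dip o e (R i) x := by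
  unfold Vn
  rw [← Finset.sum_sub_distrib]
  refine Finset.sum_congr rfl fun i _ => ?_
  rw [← dip_mir he]
  ring

theorem ae_off_mir {o e : X} (he : ‖e‖ = 1) (R : ι → X) : ∀ᵐ y : X, ∀ i, mir o e y ≠ R i := by
  filter_upwards [ae_off fun i => mir o e (R i)] with y hy i h
  exact hy i (by rw [← h, mir_mir he])

/-- the potential is larger than its mirror image on the side of the larger charges; the
hypothesis says that the nuclear charge minus its mirror image is nonnegative on that side -/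
theorem psi_mir_le {κ : Type*} [Fintype κ] {o e : X} (he : ‖e‖ = 1) {z : ι → ℝ} {R : ι → X}
    {φ : ℝ} {ρ : X → ℝ} (h : Sol φ z R ρ) {c : κ → ℝ} (hc : ∀ j, 0 ≤ c j) {P : κ → X}
    (hP : ∀ j, 0 < c j → 0 ≤ hgt o e (P j))
    (hN : ∀ x, (∀ i, x ≠ R i) → (∀ i, mir o e x ≠ R i) →
      ∑ i, z i * dip o e (R i) x = ∑ j, c j * dip o e (P j) x)
    {x : X} (hx : 0 < hgt o e x) (hxR : ∀ i, x ≠ R i) (hxR' : ∀ i, mir o e x ≠ R i)
    (hxP : ∀ j, 0 < c j → x ≠ P j) :
    psi φ z R ρ (mir o e x) ≤ psi φ z R ρ x := by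
  have hkey := half_min he hc hP (f := fun y => ρ (mir o e y)) (g := ρ) (h.tc.mir he) h.tc
    (fun x hx => by rw [pot_mir he, mir_fix hx]) ?_ hx hxP
  · rw [pot_mir he] at hkey
    have h1 := Vn_sub_mir he z R x (o := o)
    rw [hN x hxR hxR'] at h1
    unfold psi
    linarith
  · filter_upwards [ae_off R, ae_off_mir he (o := o) R] with y hy hy' hy0 hlt
    rw [h.eq y hy, h.eq _ hy']
    refine tf_mono ?_
    have h1 := Vn_sub_mir he z R y (o := o)
    rw [hN y hy hy'] at h1
    rw [pot_mir he] at hlt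
    linarith

/-- all nuclei on one side -/
theorem psi_mir_le_side {o e : X} (he : ‖e‖ = 1) {z : ι → ℝ} (hz : ∀ i, 0 ≤ z i) {R : ι → X}
    {φ : ℝ} {ρ : X → ℝ} (h : Sol φ z R ρ) (hR : ∀ i, 0 < z i → 0 ≤ hgt o e (R i))
    {x : X} (hx : 0 < hgt o e x) (hxR : ∀ i, x ≠ R i) (hxR' : ∀ i, mir o e x ≠ R i) :
    psi φ z R ρ (mir o e x) ≤ psi φ z R ρ x :=
  psi_mir_le he h hz hR (fun x _ _ => rfl) hx hxR hxR' fun i _ => hxR i

/-- nuclei in mirror pairs `i, τ i`, the larger charge on the positive side -/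
theorem psi_mir_le_pair {o e : X} (he : ‖e‖ = 1) {z : ι → ℝ} {R : ι → X}
    {φ : ℝ} {ρ : X → ℝ} (h : Sol φ z R ρ) (τ : ι ≃ ι) (hτ : ∀ i, R (τ i) = mir o e (R i))
    (hz : ∀ i, 0 < hgt o e (R i) → z (τ i) ≤ z i)
    {x : X} (hx : 0 < hgt o e x) (hxR : ∀ i, x ≠ R i) (hxR' : ∀ i, mir o e x ≠ R i) :
    psi φ z R ρ (mir o e x) ≤ psi φ z R ρ x := by
  classical
  refine psi_mir_le he h (c := fun i => if 0 < hgt o e (R i) then z i - z (τ i) else 0)
    (P := R) (fun i => ?_) (fun i hi => ?_) (fun y _ _ => ?_) hx hxR hxR' fun i _ => hxR i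
  · show 0 ≤ (if 0 < hgt o e (R i) then z i - z (τ i) else 0)
    split_ifs with h1
    · exact sub_nonneg.mpr (hz i h1)
    · exact le_rfl
  · have hi' : 0 < (if 0 < hgt o e (R i) then z i - z (τ i) else 0) := hi
    split_ifs at hi' with h1
    · exact h1.le
    · exact absurd hi' (lt_irrefl _)
  · have hd : ∀ i, dip o e (R (τ i)) y = -dip o e (R i) y := by
      intro i
      unfold dip
      rw [hτ, mir_mir he]
      ring
    have hh : ∀ i, hgt o e (R (τ i)) = -hgt o e (R i) := by
      intro i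
      rw [hτ, hgt_mir he]
    have e1 : ∑ i, z i * dip o e (R i) y =
        (∑ i, if 0 < hgt o e (R i) then z i * dip o e (R i) y else 0) +
          ∑ i, if hgt o e (R i) < 0 then z i * dip o e (R i) y else 0 := by
      rw [← Finset.sum_add_distrib]
      refine Finset.sum_congr rfl fun i _ => ?_
      rcases lt_trichotomy (hgt o e (R i)) 0 with h1 | h1 | h1
      · rw [if_neg h1.not_gt, if_pos h1, zero_add]
      · rw [dip_plane h1]
        simp
      · rw [if_pos h1, if_neg h1.not_gt, add_zero]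
    have e2 : (∑ i, if hgt o e (R i) < 0 then z i * dip o e (R i) y else 0) =
        ∑ i, if 0 < hgt o e (R i) then -(z (τ i) * dip o e (R i) y) else 0 := by
      rw [← Equiv.sum_comp τ]
      refine Finset.sum_congr rfl fun i _ => ?_
      rw [hh, hd]
      by_cases h1 : 0 < hgt o e (R i)
      · rw [if_pos h1, if_pos (by linarith)]
        ring
      · rw [if_neg h1, if_neg (by linarith)]
    rw [e1, e2, ← Finset.sum_add_distrib]
    refine Finset.sum_congr rfl fun i _ => ?_
    split_ifs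
    · ring
    · simp

/-! ### the difference of two potentials and its mirror image -/

/-! ### the isolated ion as the smaller potential -/

/-! ### two nuclei: the plane in the middle -/

theorem mir_mid {a b : X} (hab : a ≠ b) :
    ‖(‖a - b‖⁻¹ • (a - b))‖ = 1 ∧
    mir ((1 / 2 : ℝ) • (a + b)) (‖a - b‖⁻¹ • (a - b)) a = b ∧
    mir ((1 / 2 : ℝ) • (a + b)) (‖a - b‖⁻¹ • (a - b)) b = a ∧
    ∀ x, hgt ((1 / 2 : ℝ) • (a + b)) (‖a - b‖⁻¹ • (a - b)) x =
      (2 * ‖a - b‖)⁻¹ * (‖x - b‖ ^ 2 - ‖x - a‖ ^ 2) := by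
  have hn : 0 < ‖a - b‖ := norm_pos_iff.mpr (sub_ne_zero.mpr hab)
  have he : ‖(‖a - b‖⁻¹ • (a - b))‖ = 1 := by
    rw [norm_smul, norm_inv, norm_norm, inv_mul_cancel₀ hn.ne']
  have hh : ∀ x, hgt ((1 / 2 : ℝ) • (a + b)) (‖a - b‖⁻¹ • (a - b)) x =
      (2 * ‖a - b‖)⁻¹ * (‖x - b‖ ^ 2 - ‖x - a‖ ^ 2) := by
    intro x
    have e1 : ‖x - b‖ ^ 2 - ‖x - a‖ ^ 2 = 2 * ⟪x - (1 / 2 : ℝ) • (a + b), a - b⟫ := by
      rw [@norm_sub_sq_real, @norm_sub_sq_real, inner_sub_left, real_inner_smul_left,
        inner_sub_right, inner_sub_right, inner_add_left, inner_add_left, real_inner_self_eq_norm_sq,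
        real_inner_self_eq_norm_sq, real_inner_comm a b]
      ring
    unfold hgt
    rw [e1, real_inner_smul_right, mul_inv]
    ring
  refine ⟨he, ?_, ?_, hh⟩
  · unfold mir
    rw [hh a, sub_self, norm_zero, smul_smul]
    have : 2 * ((2 * ‖a - b‖)⁻¹ * (‖a - b‖ ^ 2 - 0 ^ 2)) * ‖a - b‖⁻¹ = 1 := by
      field_simp
      ring
    rw [this, one_smul]
    abel
  · unfold mir
    rw [hh b, sub_self, norm_zero, smul_smul, norm_sub_rev b a]
    have : 2 * ((2 * ‖a - b‖)⁻¹ * (0 ^ 2 - ‖a - b‖ ^ 2)) * ‖a - b‖⁻¹ = -1 := by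
      field_simp
      ring
    rw [this, neg_smul, one_smul]
    abel

/-- two nuclei: the potential is larger on the side of the larger charge -/
theorem psi_mid_le {z : Fin 2 → ℝ} {R : Fin 2 → X} (hR : R 0 ≠ R 1) (hz : z 1 ≤ z 0) {φ : ℝ}
    {ρ : X → ℝ} (h : Sol φ z R ρ) {x : X} (hx : ‖x - R 0‖ < ‖x - R 1‖) (hx0 : x ≠ R 0) :
    psi φ z R ρ (mir ((1 / 2 : ℝ) • (R 0 + R 1)) (‖R 0 - R 1‖⁻¹ • (R 0 - R 1)) x) ≤
      psi φ z R ρ x := by
  obtain ⟨he, hm0, hm1, hh⟩ := mir_mid hR
  have hn : 0 < ‖R 0 - R 1‖ := norm_pos_iff.mpr (sub_ne_zero.mpr hR)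
  have hx1 : x ≠ R 1 := by
    rintro rfl
    rw [sub_self, norm_zero] at hx
    exact absurd hx (not_lt.mpr (norm_nonneg _))
  have hmx : ∀ p : X, mir ((1 / 2 : ℝ) • (R 0 + R 1)) (‖R 0 - R 1‖⁻¹ • (R 0 - R 1)) x = p →
      x = mir ((1 / 2 : ℝ) • (R 0 + R 1)) (‖R 0 - R 1‖⁻¹ • (R 0 - R 1)) p := by
    rintro p rfl
    rw [mir_mir he]
  refine psi_mir_le_pair he h (Equiv.swap 0 1) (fun i => ?_) (fun i hi => ?_) ?_ (fun i => ?_)
    fun i => ?_
  · fin_cases i
    · show R (Equiv.swap 0 1 0) = _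
      rw [Equiv.swap_apply_left]
      exact hm0.symm
    · show R (Equiv.swap 0 1 1) = _
      rw [Equiv.swap_apply_right]
      exact hm1.symm
  · fin_cases i
    · simpa using hz
    · exfalso
      simp only [Fin.mk_one] at hi
      rw [hh, sub_self, norm_zero, norm_sub_rev (R 1) (R 0)] at hi
      have : (2 * ‖R 0 - R 1‖)⁻¹ * (0 ^ 2 - ‖R 0 - R 1‖ ^ 2) ≤ 0 := by
        refine mul_nonpos_of_nonneg_of_nonpos (by positivity) ?_
        nlinarith
      linarith
  · rw [hh]
    have h1 : ‖x - R 0‖ ^ 2 < ‖x - R 1‖ ^ 2 := by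
      have := norm_nonneg (x - R 0)
      nlinarith
    have : 0 < ‖x - R 1‖ ^ 2 - ‖x - R 0‖ ^ 2 := by linarith
    positivity
  · fin_cases i
    · exact hx0
    · exact hx1
  · intro hc
    have h2 := hmx _ hc
    fin_cases i
    · simp only [Fin.zero_eta] at h2
      rw [hm0] at h2
      exact hx1 h2
    · simp only [Fin.mk_one] at h2
      rw [hm1] at h2
      exact hx0 h2

/-! ### derivatives in the direction of the normal -/

theorem inner_grad_nonneg_of_mir {o e : X} (he : ‖e‖ = 1) {u : X → ℝ} {x g : X}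
    (hx : hgt o e x = 0) (hu : HasGradientAt u g x)
    (h : ∀ᶠ y in 𝓝 x, 0 < hgt o e y → u (mir o e y) ≤ u y) : 0 ≤ ⟪g, e⟫ := by
  have h1 : HasDerivAt (fun t : ℝ => x + t • e) e 0 := by
    simpa using ((hasDerivAt_id (0 : ℝ)).smul_const e).const_add x
  have hF : HasFDerivAt u (InnerProductSpace.toDual ℝ X g) (x + (0 : ℝ) • e) := by
    rw [zero_smul, add_zero]
    exact hu
  have h2 : HasDerivAt (fun t : ℝ => u (x + t • e)) ⟪g, e⟫ 0 := by
    have h3 := hF.comp_hasDerivAt (0 : ℝ) h1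
    rw [InnerProductSpace.toDual_apply_apply] at h3
    exact h3
  have h3 : HasDerivAt (fun t : ℝ => u (x + (-t) • e)) (-⟪g, e⟫) 0 := by
    have h4 : HasDerivAt (fun t : ℝ => u (x + t • e)) ⟪g, e⟫ (-0) := by
      rw [neg_zero]
      exact h2
    have h5 : HasDerivAt (fun t : ℝ => u (x + (-t) • e)) (⟪g, e⟫ * -1) 0 :=
      h4.comp (0 : ℝ) (hasDerivAt_neg (0 : ℝ))
    rwa [mul_neg_one] at h5
  have h5 : HasDerivAt (fun t : ℝ => u (x + t • e) - u (x + (-t) • e)) (⟪g, e⟫ - -⟪g, e⟫) 0 :=
    h2.sub h3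
  have h6 : 0 ≤ ⟪g, e⟫ - -⟪g, e⟫ := by
    have hlim : Tendsto (slope (fun t : ℝ => u (x + t • e) - u (x + (-t) • e)) 0) (𝓝[>] 0)
        (𝓝 (⟪g, e⟫ - -⟪g, e⟫)) :=
      (hasDerivAt_iff_tendsto_slope.mp h5).mono_left (nhdsWithin_mono _ fun t ht => ne_of_gt ht)
    refine ge_of_tendsto hlim ?_
    have hcont : Tendsto (fun t : ℝ => x + t • e) (𝓝[>] 0) (𝓝 x) := by
      have : ContinuousAt (fun t : ℝ => x + t • e) 0 := h1.continuousAt
      have h7 : Tendsto (fun t : ℝ => x + t • e) (𝓝 0) (𝓝 (x + (0 : ℝ) • e)) := this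
      rw [zero_smul, add_zero] at h7
      exact h7.mono_left nhdsWithin_le_nhds
    filter_upwards [hcont.eventually h, self_mem_nhdsWithin] with t ht ht0
    have ht0' : (0 : ℝ) < t := ht0
    have hee : ⟪e, e⟫ = 1 := by rw [real_inner_self_eq_norm_sq, he]; norm_num
    have hht : hgt o e (x + t • e) = t := by
      unfold hgt at hx ⊢
      rw [add_sub_right_comm, inner_add_left, hx, real_inner_smul_left, hee]
      ring
    have hm : mir o e (x + t • e) = x + (-t) • e := by
      unfold mir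
      rw [hht, mul_smul, two_smul ℝ (t • e), neg_smul]
      abel
    have h8 := ht (by rw [hht]; exact ht0')
    rw [hm] at h8
    rw [slope_def_field]
    simp only [zero_smul, neg_zero, add_zero, sub_self, sub_zero]
    exact div_nonneg (by linarith) ht0'.le
  linarith

end Pool.Agent.TF
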