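import Mathlib
import Pool.Agent.Lib.MP_9cf0c9_mp.Tr.Mirror39

section
/-! Reflections in planes and the linear operator `-Δ + 4π g`. -/

set_option autoImplicit false

set_option linter.unusedSectionVars false

set_option linter.unusedVariables false

set_option linter.style.haveILetI false

namespace Pool.Agent.TF

open MeasureTheory Set Metric Filter Topology

open scoped ENNReal NNReal RealInnerProductSpace

theorem mir_mp {o e : X} (he : ‖e‖ = 1) : MeasurePreserving (mir o e) volume volume := by
  have h1 : MeasurePreserving (fun x : X => x + -o) volume volume :=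
    measurePreserving_add_right volume (-o)
  have h2 : MeasurePreserving (fun x : X => x + o) volume volume :=
    measurePreserving_add_right volume o
  have h3 := h2.comp ((mirL e).measurePreserving.comp h1)
  have h4 : mir o e = (fun x : X => x + o) ∘ (mirL e) ∘ fun x : X => x + -o := by
    funext x
    exact mir_eq_mirL he x
  rw [h4]
  exact h3

theorem ae_mir {o e : X} (he : ‖e‖ = 1) {Q : X → Prop} (h : ∀ᵐ y : X, Q y) :
    ∀ᵐ y : X, Q (mir o e y) :=
  (mir_mp he).quasiMeasurePreserving.ae h

end Pool.Agent.TF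

end

section
/-! The gradient of a mirror image. -/

set_option autoImplicit false

namespace Pool.Agent.TF.Col

open MeasureTheory Set Metric Filter Topology

open scoped ENNReal NNReal RealInnerProductSpace Gradient

theorem mirL_symm_inner (e : X) (v w : X) : ⟪mirL e v, w⟫ = ⟪v, mirL e w⟫ := by
  have h : mirL e (mirL e w) = w := by
    unfold mirL
    exact Submodule.reflection_reflection _ _
  conv_lhs => rw [← h]
  exact (mirL e).inner_map_map v (mirL e w)

theorem hasFDerivAt_mir {o e : X} (he : ‖e‖ = 1) (x : X) :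
    HasFDerivAt (mir o e) ((mirL e).toContinuousLinearEquiv : X →L[ℝ] X) x := by
  have h0 : mir o e = fun x => (mirL e).toContinuousLinearEquiv (x + -o) + o := by
    funext y
    rw [mir_eq_mirL he]
    rfl
  rw [h0]
  have h1 : HasFDerivAt (fun x : X => x + -o) (ContinuousLinearMap.id ℝ X) x :=
    (hasFDerivAt_id x).add_const _
  exact (((mirL e).toContinuousLinearEquiv.hasFDerivAt).comp x h1).add_const o

theorem grad_mir {o e : X} (he : ‖e‖ = 1) {u : X → ℝ} {g x : X}
    (h : HasGradientAt u g (mir o e x)) : HasGradientAt (fun y => u (mir o e y)) (mirL e g) x := by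
  rw [hasGradientAt_iff_hasFDerivAt] at h ⊢
  refine (h.comp x (hasFDerivAt_mir he x)).congr_fderiv ?_
  ext v
  simp only [ContinuousLinearMap.comp_apply, InnerProductSpace.toDual_apply_apply]
  rw [mirL_symm_inner]
  rfl

end Pool.Agent.TF.Col

end

section
/-! The direction of the gradient of a Thomas-Fermi potential: half space conditions by moving
planes, and the box for two nuclei. -/

set_option autoImplicit false

set_option linter.unusedSectionVars false

set_option linter.unusedVariables false

set_option linter.style.haveILetI false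

namespace Pool.Agent.TF

open MeasureTheory Set Metric Filter Topology

open scoped ENNReal NNReal RealInnerProductSpace Gradient

variable {ι : Type*} [Fintype ι]

theorem ev_off {R : ι → X} {x e : X} (hx : ∀ i, x ≠ R i) :
    ∀ᶠ y in 𝓝 x, (∀ i, y ≠ R i) ∧ ∀ i, mir x e y ≠ R i := by
  have h0 : ∀ᶠ y in 𝓝 x, ∀ i, y ≠ R i := by
    rw [Filter.eventually_all]
    exact fun i => isOpen_ne.mem_nhds (hx i)
  have h1 : Tendsto (mir x e) (𝓝 x) (𝓝 x) := by
    have h2 : mir x e x = x := mir_fix (by unfold hgt; rw [sub_self, inner_zero_left])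
    have h3 := (mir_continuous x e).tendsto x
    rwa [h2] at h3
  exact h0.and (h1.eventually h0)

theorem hgt_self (x e : X) : hgt x e x = 0 := by
  unfold hgt
  rw [sub_self, inner_zero_left]

/-- reduction to unit vectors -/
theorem unit_red {x e g : X} {Q : X → Prop} (hQ : ∀ c : ℝ, 0 < c → Q e → Q (c • e))
    (h : ∀ e : X, ‖e‖ = 1 → Q e → 0 ≤ ⟪g, e⟫) (he : Q e) : 0 ≤ ⟪g, e⟫ := by
  rcases eq_or_ne e 0 with h0 | h0
  · rw [h0, inner_zero_right]
  · have hn : 0 < ‖e‖ := norm_pos_iff.mpr h0
    have h1 := h (‖e‖⁻¹ • e) (by rw [norm_smul, norm_inv, norm_norm, inv_mul_cancel₀ hn.ne'])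
      (hQ _ (inv_pos.mpr hn) he)
    rw [real_inner_smul_right] at h1
    exact nonneg_of_mul_nonneg_right h1 (inv_pos.mpr hn)

/-- the gradient points to the side where all nuclei are -/
theorem grad_side {z : ι → ℝ} (hz : ∀ i, 0 ≤ z i) {R : ι → X} {φ : ℝ} {ρ : X → ℝ}
    (h : Sol φ z R ρ) {x : X} (hx : ∀ i, x ≠ R i) {g : X}
    (hg : HasGradientAt (psi φ z R ρ) g x) {e : X}
    (he : ∀ i, 0 < z i → 0 ≤ ⟪R i - x, e⟫) : 0 ≤ ⟪g, e⟫ := by
  refine unit_red (x := x) (Q := fun e => ∀ i, 0 < z i → 0 ≤ ⟪R i - x, e⟫) ?_ ?_ he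
  · intro c hc h1 i hi
    rw [real_inner_smul_right]
    exact mul_nonneg hc.le (h1 i hi)
  · intro e he1 he
    refine inner_grad_nonneg_of_mir (o := x) he1 (hgt_self x e) hg ?_
    filter_upwards [ev_off (e := e) hx] with y hy hy0
    exact psi_mir_le_side he1 hz h he hy0 hy.1 hy.2

/-! ### the box for two nuclei -/

end Pool.Agent.TF

end

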