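import Mathlib
import Pool.Agent.Lib.MP_9cf0c9_mp.Tr.CtwoA
import Pool.Agent.Lib.MP_9cf0c9_mp.Tr.MirA
/-! The cone lemma in the letters of the calibration files. -/

set_option autoImplicit false

set_option linter.unusedSectionVars false

set_option linter.unusedVariables false

namespace Pool.Agent.TF.Grd

open MeasureTheory Set Metric Filter Topology

open scoped ENNReal NNReal RealInnerProductSpace Gradient

variable {ι : Type*} [Fintype ι] {z : ι → ℝ} (hz : ∀ i, 0 ≤ z i) (R : ι → X) {φ₀ : ℝ}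
  (hφ : 0 < φ₀) {ρ : X → ℝ} (hρ : TC ρ) (heq : ∀ x, ρ x = tf (Vpt z R x - pot ρ x - φ₀))

include hz hφ hρ heq

theorem psi'_side {x : X} (hx : ∀ i, x ≠ R i) {e : X}
    (he : ∀ i, 0 < z i → 0 ≤ ⟪R i - x, e⟫) : 0 ≤ ⟪psi' z R ρ x, e⟫ :=
  grad_side hz ⟨hρ, fun x _ => heq x⟩ hx (hasGradientAt_psi hz R hφ hρ heq hx) he

end Pool.Agent.TF.Grd

namespace Pool.Agent.TF.Grd

open MeasureTheory Set Metric Filter Topology

open scoped ENNReal NNReal RealInnerProductSpace Gradient

end Pool.Agent.TF.Grd
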