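import Mathlib
import Pool.Agent.Lib.MP_9cf0c9_mp.Tr.ColW
import Pool.Agent.Lib.MP_9cf0c9_mp.Tr.ConeSol39
import Pool.Agent.Lib.MP_9cf0c9_mp.Tr.Super
/-! Collinear nuclei: the form of the field off the axis.  The transverse field is strictly
positive off the axis (comparison with a Yukawa dipole), and the foot of the field line is
between the nuclei. -/

set_option autoImplicit false

set_option linter.unusedSectionVars false

set_option linter.unusedVariables false

namespace Pool.Agent.TF.Grd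
end Pool.Agent.TF.Grd

namespace Pool.Agent.TF

open MeasureTheory Set Metric Filter Topology

open scoped ENNReal NNReal RealInnerProductSpace Gradient

/-! ### the Yukawa potential -/

/-- the Yukawa potential as a function of the distance -/
noncomputable def yuk (l r : ℝ) : ℝ := Real.exp (-(l * r)) * r⁻¹

theorem yuk_nonneg (l : ℝ) {r : ℝ} (hr : 0 ≤ r) : 0 ≤ yuk l r := by unfold yuk; positivity

theorem yuk_le_inv {l : ℝ} (hl : 0 ≤ l) {r : ℝ} (hr : 0 ≤ r) : yuk l r ≤ r⁻¹ := by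
  unfold yuk
  have h1 : Real.exp (-(l * r)) ≤ 1 := by
    rw [Real.exp_le_one_iff]
    have := mul_nonneg hl hr
    linarith
  have h2 : 0 ≤ r⁻¹ := inv_nonneg.mpr hr
  nlinarith

/-- the derivative of the Yukawa potential -/
noncomputable def yukD (l r : ℝ) : ℝ := -(Real.exp (-(l * r)) * (l * r + 1) * r⁻¹ ^ 2)

theorem yukD_neg {l r : ℝ} (hl : 0 ≤ l) (hr : 0 < r) : yukD l r < 0 := by
  unfold yukD
  have : 0 < Real.exp (-(l * r)) * (l * r + 1) * r⁻¹ ^ 2 := by positivity
  linarith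

theorem hasDerivAt_yuk (l : ℝ) {r : ℝ} (hr : r ≠ 0) : HasDerivAt (yuk l) (yukD l r) r := by
  have h1 : HasDerivAt (fun r : ℝ => -(l * r)) (-(l * 1)) r :=
    ((hasDerivAt_id r).const_mul l).neg
  have h2 := h1.exp.mul (hasDerivAt_inv hr)
  refine HasDerivAt.congr_deriv (f := yuk l) h2 ?_
  unfold yukD
  field_simp
  ring

/-- the derivative of `q s = yuk l (√s)` -/
noncomputable def yukQ (l s : ℝ) : ℝ := yukD l √s * (1 / (2 * √s))

theorem hasDerivAt_yuk_sqrt (l : ℝ) {s : ℝ} (hs : 0 < s) :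
    HasDerivAt (fun s => yuk l √s) (yukQ l s) s := by
  have h1 := Real.hasDerivAt_sqrt hs.ne'
  have h2 := hasDerivAt_yuk l (Real.sqrt_pos.mpr hs).ne'
  exact HasDerivAt.comp s h2 h1

theorem hasDerivAt_yukQ (l : ℝ) {s : ℝ} (hs : 0 < s) :
    HasDerivAt (yukQ l) (Real.exp (-(l * √s)) * (l ^ 2 * √s ^ 2 + 3 * (l * √s) + 3) / (4 * √s ^ 5))
      s := by
  have hr : √s ≠ 0 := (Real.sqrt_pos.mpr hs).ne'
  have key : ∀ r : ℝ, r ≠ 0 → HasDerivAt (fun r => yukD l r * (1 / (2 * r)))
      (Real.exp (-(l * r)) * (l ^ 2 * r ^ 2 + 3 * (l * r) + 3) / (2 * r ^ 4)) r := by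
    intro r hr
    have h1 : HasDerivAt (fun r : ℝ => -(l * r)) (-(l * 1)) r :=
      ((hasDerivAt_id r).const_mul l).neg
    have h3 : HasDerivAt (fun r : ℝ => l * r + 1) (l * 1) r :=
      ((hasDerivAt_id r).const_mul l).add_const 1
    have h4 : HasDerivAt (fun r : ℝ => r⁻¹ ^ 3 / 2) (((3 : ℕ) : ℝ) * r⁻¹ ^ (3 - 1) * -(r ^ 2)⁻¹ / 2) r :=
      (((hasDerivAt_inv hr).pow 3)).div_const 2
    have h5 := ((h1.exp.mul h3).mul h4).neg
    have h6 : (fun r => yukD l r * (1 / (2 * r))) =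
        fun r : ℝ => -(Real.exp (-(l * r)) * (l * r + 1) * (r⁻¹ ^ 3 / 2)) := by
      funext r
      unfold yukD
      by_cases h : r = 0
      · subst h; simp
      · field_simp
    rw [h6]
    refine h5.congr_deriv ?_
    simp only [Pi.mul_apply]
    push_cast
    field_simp
    ring
  have h1 := Real.hasDerivAt_sqrt hs.ne'
  have h2 := HasDerivAt.comp s (key √s hr) h1
  refine HasDerivAt.congr_deriv (f := yukQ l) h2 ?_
  field_simp
  ring

theorem ML_yuk (l : ℝ) {c x₀ : X} (h : x₀ ≠ c) :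
    MLle (fun x => yuk l ‖x - c‖) x₀ (l ^ 2 * yuk l ‖x₀ - c‖) ∧
      MLge (fun x => yuk l ‖x - c‖) x₀ (l ^ 2 * yuk l ‖x₀ - c‖) := by
  have hn : 0 < ‖x₀ - c‖ := norm_pos_iff.mpr (sub_ne_zero.mpr h)
  have hs : 0 < ‖x₀ - c‖ ^ 2 := by positivity
  have hsq : √(‖x₀ - c‖ ^ 2) = ‖x₀ - c‖ := Real.sqrt_sq hn.le
  have e1 : (fun x : X => yuk l ‖x - c‖) = fun x => (fun s => yuk l √s) (‖x - c‖ ^ 2) := by
    funext x
    simp only
    rw [Real.sqrt_sq (norm_nonneg _)]
  have e2 : 6 * yukQ l (‖x₀ - c‖ ^ 2) + 4 * ‖x₀ - c‖ ^ 2 *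
      (Real.exp (-(l * √(‖x₀ - c‖ ^ 2))) * (l ^ 2 * √(‖x₀ - c‖ ^ 2) ^ 2 +
        3 * (l * √(‖x₀ - c‖ ^ 2)) + 3) / (4 * √(‖x₀ - c‖ ^ 2) ^ 5)) =
      l ^ 2 * yuk l ‖x₀ - c‖ := by
    unfold yukQ yukD yuk
    rw [hsq]
    field_simp
    ring
  have hq : ∀ᶠ s in 𝓝 (‖x₀ - c‖ ^ 2), HasDerivAt (fun s => yuk l √s) (yukQ l s) s := by
    filter_upwards [lt_mem_nhds hs] with s hs
    exact hasDerivAt_yuk_sqrt l hs
  have hq' := hasDerivAt_yukQ l hs
  rw [← e2, e1]
  exact ⟨ML_radial_le hq hq', ML_radial_ge hq hq'⟩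

theorem yuk_grad (l : ℝ) {P x : X} (hx : x ≠ P) :
    HasGradientAt (fun y => yuk l ‖y - P‖) (yukD l ‖x - P‖ • (‖x - P‖⁻¹ • (x - P))) x :=
  hg_comp (u := fun y => ‖y - P‖)
    (hasDerivAt_yuk l (norm_pos_iff.mpr (sub_ne_zero.mpr hx)).ne') (hg_dist P hx)

theorem yuk_continuousAt (l : ℝ) {P x : X} (hx : x ≠ P) :
    ContinuousAt (fun y => yuk l ‖y - P‖) x :=
  (yuk_grad l hx).hasFDerivAt.continuousAt

/-! ### strict positivity on one side of all nuclei -/

section pos

variable {ι : Type*} [Fintype ι]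

/-- the mirror image of a solution -/
theorem sol_mirror {o e : X} (he : ‖e‖ = 1) {z : ι → ℝ} {R : ι → X} {φ : ℝ} {ρ : X → ℝ}
    (h : Sol φ z R ρ) :
    Sol φ z (fun i => mir o e (R i)) (fun x => ρ (mir o e x)) ∧
      ∀ x, psi φ z (fun i => mir o e (R i)) (fun x => ρ (mir o e x)) x =
        psi φ z R ρ (mir o e x) := by
  have hV : ∀ x, Vn z (fun i => mir o e (R i)) x = Vn z R (mir o e x) := by
    intro x
    unfold Vn
    refine Finset.sum_congr rfl fun i _ => ?_
    rw [norm_mir_left he]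
  refine ⟨⟨h.tc.mir he, fun x hx => ?_⟩, fun x => ?_⟩
  · have hx' : ∀ i, mir o e x ≠ R i := fun i h1 => hx i (by rw [← h1, mir_mir he])
    rw [h.eq _ hx', hV, pot_mir he]
  · unfold psi
    rw [hV, pot_mir he]

/-- all nuclei are strictly on the positive side of a plane: the field on the plane points
strictly to the other side -/
theorem grad_pos [Nonempty ι] {z : ι → ℝ} (hz : ∀ i, 0 < z i) {R : ι → X} {φ : ℝ} {ρ : X → ℝ}
    (h : Sol φ z R ρ) {x g : X} (hg : HasGradientAt (psi φ z R ρ) g x) {e : X} (he : ‖e‖ = 1)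
    (hR : ∀ i, 0 < ⟪R i - x, e⟫) : 0 < ⟪g, e⟫ := by
  classical
  have j : ι := Classical.arbitrary ι
  have hh : ∀ i, 0 < hgt x e (R i) := hR
  have hhm : ∀ i, hgt x e (mir x e (R i)) < 0 := fun i => by
    rw [hgt_mir he]
    linarith [hh i]
  have hB : ∀ y, pot ρ y ≤ tcB ρ := fun y => h.tc.pot_le y
  have hB0 : 0 ≤ tcB ρ := (pot_nonneg h.tc.nonneg 0).trans (hB 0)
  have hB1 : 0 < 1 + tcB ρ := by linarith
  -- the radius of the cores
  have hε1 : ∀ᶠ ε in 𝓝[>] (0 : ℝ), ∀ i, ε < z i / (1 + tcB ρ + z i / hgt x e (R i)) := by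
    rw [eventually_all]
    intro i
    refine mem_nhdsWithin_of_mem_nhds (gt_mem_nhds ?_)
    have h1 := hz i
    have h2 := hh i
    positivity
  obtain ⟨ε2, hε2, hε2p⟩ := (hε1.and self_mem_nhdsWithin).exists
  obtain ⟨ε, hε⟩ : ∃ ε : ℝ, ε = ε2 / 2 := ⟨_, rfl⟩
  have hεp : 0 < ε := by
    rw [hε]
    have : (0 : ℝ) < ε2 := hε2p
    linarith
  -- the difference is large near the nuclei
  have hbig : ∀ y, 0 < hgt x e y → (∀ i, y ≠ R i) → (∃ i, ‖y - R i‖ ≤ 2 * ε) →
      1 ≤ psi φ z R ρ y - psi φ z R ρ (mir x e y) := by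
    rintro y hy hyR ⟨i, hi⟩
    have hni : 0 < ‖y - R i‖ := norm_pos_iff.mpr (sub_ne_zero.mpr (hyR i))
    have hV := Vn_sub_mir he z R y (o := x)
    have h1 : z i * dip x e (R i) y ≤ ∑ k, z k * dip x e (R k) y :=
      Finset.single_le_sum (f := fun k => z k * dip x e (R k) y)
        (fun k _ => mul_nonneg (hz k).le (dip_nonneg he hy (hh k).le (hyR k))) (Finset.mem_univ i)
    have h2 : hgt x e (R i) ≤ ‖y - mir x e (R i)‖ := by
      have h3 : hgt x e y - hgt x e (mir x e (R i)) = ⟪y - mir x e (R i), e⟫ := by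
        unfold hgt
        rw [← inner_sub_left]
        congr 1
        abel
      have h4 : ⟪y - mir x e (R i), e⟫ ≤ ‖y - mir x e (R i)‖ * ‖e‖ := real_inner_le_norm _ _
      rw [he, mul_one, ← h3, hgt_mir he] at h4
      linarith
    have h5 : ‖y - mir x e (R i)‖⁻¹ ≤ (hgt x e (R i))⁻¹ := inv_anti₀ (hh i) h2
    have h6 : (2 * ε)⁻¹ ≤ ‖y - R i‖⁻¹ := inv_anti₀ hni hi
    have h7 : 1 + tcB ρ + z i / hgt x e (R i) ≤ z i * (2 * ε)⁻¹ := by
      have h8 := hε2 i
      have h9 : (2 : ℝ) * ε = ε2 := by rw [hε]; ring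
      rw [h9, ← div_eq_mul_inv, le_div_iff₀ hε2p]
      have h10 : 0 < 1 + tcB ρ + z i / hgt x e (R i) := by
        have h1 := hz i
        have h2 := hh i
        positivity
      rw [lt_div_iff₀ h10] at h8
      linarith
    have h11 : z i * ((2 * ε)⁻¹ - (hgt x e (R i))⁻¹) ≤ z i * dip x e (R i) y := by
      refine mul_le_mul_of_nonneg_left ?_ (hz i).le
      unfold dip
      linarith
    have h12 : z i / hgt x e (R i) = z i * (hgt x e (R i))⁻¹ := div_eq_mul_inv _ _
    have h13 := hB y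
    have h14 := pot_nonneg h.tc.nonneg (mir x e y)
    unfold psi
    rw [mul_sub] at h11
    linarith
  -- the constant of the linear equation
  obtain ⟨M, hM⟩ : ∃ M : ℝ, M = ∑ i, z i * ε⁻¹ := ⟨_, rfl⟩
  have hM0 : 0 ≤ M := by
    rw [hM]
    exact Finset.sum_nonneg fun i _ => mul_nonneg (hz i).le (inv_nonneg.mpr hεp.le)
  obtain ⟨l, hl⟩ : ∃ l : ℝ, l = √(4 * Real.pi * (2 * √(M + |φ|)) + 1) := ⟨_, rfl⟩
  have hπ := Real.pi_pos
  have hl0 : 0 < 4 * Real.pi * (2 * √(M + |φ|)) + 1 := by positivity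
  have hlp : 0 < l := by
    rw [hl]
    exact Real.sqrt_pos.mpr hl0
  have hl2 : l ^ 2 = 4 * Real.pi * (2 * √(M + |φ|)) + 1 := by
    rw [hl]
    exact Real.sq_sqrt hl0.le
  obtain ⟨Pm, hPm⟩ : ∃ Pm : X, Pm = mir x e (R j) := ⟨_, rfl⟩
  obtain ⟨hS, hSψ⟩ := sol_mirror (o := x) he h
  -- the domain
  obtain ⟨D, hDdef⟩ : ∃ D : Set X, D = {y | 0 < hgt x e y ∧ ∀ i, ε < ‖y - R i‖} := ⟨_, rfl⟩
  have hmem : ∀ y, y ∈ D ↔ 0 < hgt x e y ∧ ∀ i, ε < ‖y - R i‖ := fun y => by
    rw [hDdef]
    exact Iff.rfl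
  have hD : IsOpen D := by
    have e1 : D = {y | 0 < hgt x e y} ∩ ⋂ i, {y | ε < ‖y - R i‖} := by
      rw [hDdef]
      ext y
      simp
    rw [e1]
    refine (isOpen_lt continuous_const (hgt_continuous x e)).inter (isOpen_iInter_of_finite fun i => ?_)
    exact isOpen_lt continuous_const (by fun_prop)
  have hDR : ∀ y ∈ D, ∀ i, y ≠ R i := by
    intro y hy i h1
    have := ((hmem y).mp hy).2 i
    rw [h1, sub_self, norm_zero] at this
    linarith
  have hupR : ∀ y, 0 ≤ hgt x e y → ∀ i, mir x e y ≠ R i := by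
    intro y hy i h1
    have h2 := hh i
    rw [← h1, hgt_mir he] at h2
    linarith
  have hupP : ∀ y, 0 ≤ hgt x e y → y ≠ Pm := by
    intro y hy h1
    have h2 := hhm j
    rw [← hPm, ← h1] at h2
    linarith
  -- the function
  obtain ⟨w, hw⟩ : ∃ w : X → ℝ, w = fun y => (psi φ z R ρ y +
      -psi φ z (fun i => mir x e (R i)) (fun x_1 => ρ (mir x e x_1)) y) +
      ε * (-yuk l ‖y - R j‖ + yuk l ‖y - Pm‖) := ⟨_, rfl⟩
  have hwval : ∀ y, w y = (psi φ z R ρ y - psi φ z R ρ (mir x e y)) -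
      ε * (yuk l ‖y - R j‖ - yuk l ‖y - Pm‖) := by
    intro y
    rw [hw]
    simp only
    rw [hSψ]
    ring
  have hwc : ∀ y, 0 ≤ hgt x e y → (∀ i, y ≠ R i) → ContinuousAt w y := by
    intro y hy hyR
    have h1 := psi_continuousAt (φ := φ) (z := z) h.tc hyR
    have h2 : ∀ i, y ≠ mir x e (R i) := fun i h3 => by
      have h4 := hhm i
      rw [← h3] at h4
      linarith
    have h3 := psi_continuousAt (φ := φ) (z := z) hS.tc h2
    have h4 := yuk_continuousAt l (hyR j)
    have h5 := yuk_continuousAt l (hupP y hy)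
    rw [hw]
    exact (h1.add h3.neg).add (continuousAt_const.mul (h4.neg.add h5))
  have hY1 : ∀ y ∈ D, ε * (yuk l ‖y - R j‖ - yuk l ‖y - Pm‖) ≤ ε * ‖y - R j‖⁻¹ := by
    intro y hy
    refine mul_le_mul_of_nonneg_left ?_ hεp.le
    have h1 := yuk_le_inv hlp.le (norm_nonneg (y - R j))
    have h2 := yuk_nonneg l (norm_nonneg (y - Pm))
    linarith
  have hu0 : ∀ y ∈ D, 0 ≤ psi φ z R ρ y - psi φ z R ρ (mir x e y) := by
    intro y hy
    have h1 := psi_mir_le_side he (fun i => (hz i).le) h (fun i _ => (hh i).le)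
      ((hmem y).mp hy).1 (hDR y hy) (hupR y ((hmem y).mp hy).1.le)
    linarith
  have key := min_princ_bd (u := w) (D := D) (S := ∅) hD Set.finite_empty
    (fun y hy _ => hwc y ((hmem y).mp hy).1.le (hDR y hy)) ?_ (by simp) ?_ ?_
  · -- conclusion
    have hxR : ∀ i, x ≠ R i := by
      intro i h1
      have := hR i
      rw [← h1, sub_self, inner_zero_left] at this
      exact absurd this (lt_irrefl _)
    have hxfar : ∀ i, ε < ‖x - R i‖ := by
      intro i
      have h1 : ⟪R i - x, e⟫ ≤ ‖R i - x‖ * ‖e‖ := real_inner_le_norm _ _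
      rw [he, mul_one, norm_sub_rev] at h1
      have h2 : hgt x e (R i) ≤ ‖x - R i‖ := h1
      have h3 := hε2 i
      have h4 : z i / (1 + tcB ρ + z i / hgt x e (R i)) ≤ hgt x e (R i) := by
        have h5 := hz i
        have h6 := hh i
        rw [div_le_iff₀ (by positivity), mul_add, mul_div_cancel₀ _ h6.ne']
        have : 0 ≤ hgt x e (R i) * (1 + tcB ρ) := by positivity
        linarith
      have h7 : ε < ε2 := by
        rw [hε]
        have : (0 : ℝ) < ε2 := hε2p
        linarith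
      linarith
    have hgY := hg_const_mul ε (yuk_grad l (hxR j))
    have h1 := inner_grad_nonneg_of_mir (o := x) he (hgt_self x e) (hg_sub hg hgY) ?_
    · rw [inner_sub_left, real_inner_smul_left, real_inner_smul_left, real_inner_smul_left] at h1
      have h2 : ⟪x - R j, e⟫ = -⟪R j - x, e⟫ := by
        rw [← inner_neg_left]
        congr 1
        abel
      rw [h2] at h1
      have h3 : 0 < ‖x - R j‖ := norm_pos_iff.mpr (sub_ne_zero.mpr (hxR j))
      have h4 := yukD_neg hlp.le h3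
      have h5 : 0 < ε * (-yukD l ‖x - R j‖ * (‖x - R j‖⁻¹ * ⟪R j - x, e⟫)) := by
        have h6 := hR j
        have h7 : 0 < -yukD l ‖x - R j‖ := by linarith
        positivity
      linarith
    · have h2 : ∀ᶠ y in 𝓝 x, ∀ i, ε < ‖y - R i‖ := by
        rw [eventually_all]
        intro i
        have h3 : ContinuousAt (fun y : X => ‖y - R i‖) x := by fun_prop
        exact h3.eventually (lt_mem_nhds (hxfar i))
      filter_upwards [h2] with y hy hy0
      have h3 := key y ((hmem y).mpr ⟨hy0, hy⟩) (Set.notMem_empty y)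
      rw [hwval, hPm, ← norm_mir_left he] at h3
      linarith
  · -- the boundary
    intro p hp _ η hη
    have hpc : p ∈ closure D := frontier_subset_closure hp
    have hpD : p ∉ D := by
      have := hp.2
      rwa [hD.interior_eq] at this
    have hp0 : 0 ≤ hgt x e p := by
      have h1 : closure D ⊆ {y | 0 ≤ hgt x e y} := by
        refine closure_minimal (fun y hy => ((hmem y).mp hy).1.le) ?_
        exact isClosed_le continuous_const (hgt_continuous x e)
      exact h1 hpc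
    by_cases hpn : ∀ i, ε < ‖p - R i‖
    · have hp1 : hgt x e p = 0 := by
        refine le_antisymm ?_ hp0
        by_contra hcon
        push Not at hcon
        exact hpD ((hmem p).mpr ⟨hcon, hpn⟩)
      have hpR : ∀ i, p ≠ R i := by
        intro i h1
        have := hpn i
        rw [h1, sub_self, norm_zero] at this
        linarith
      have h1 : w p = 0 := by
        rw [hwval, hPm, ← norm_mir_left he, mir_fix hp1]
        ring
      have h2 := (hwc p hp0 hpR).eventually (lt_mem_nhds (show -η < w p by rw [h1]; linarith))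
      filter_upwards [h2] with y hy _
      exact hy
    · push Not at hpn
      obtain ⟨i, hi⟩ := hpn
      have h3 : ContinuousAt (fun y : X => ‖y - R i‖) p := by fun_prop
      have h4 := h3.eventually (gt_mem_nhds (show ‖p - R i‖ < 2 * ε by linarith))
      filter_upwards [h4] with y hy hyD
      have h5 := hbig y ((hmem y).mp hyD).1 (hDR y hyD) ⟨i, hy.le⟩
      have h6 := hY1 y hyD
      have h7 : ε * ‖y - R j‖⁻¹ ≤ 1 := by
        have h8 := ((hmem y).mp hyD).2 j
        rw [← div_eq_mul_inv, div_le_one (by linarith)]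
        exact h8.le
      rw [hwval]
      linarith
  · -- infinity
    intro η hη
    refine ⟨‖R j‖ + ε / η + 1, fun y hy hyR => ?_⟩
    have h1 : ε / η + 1 ≤ ‖y - R j‖ := by
      have := norm_sub_norm_le y (R j)
      linarith
    have h2 : 0 ≤ ε / η := by positivity
    have h3 : 0 < ‖y - R j‖ := by linarith
    have h4 : ε * ‖y - R j‖⁻¹ < η := by
      rw [← div_eq_mul_inv, div_lt_iff₀ h3]
      have h5 : ε / η < ‖y - R j‖ := by linarith
      rw [div_lt_iff₀ hη] at h5
      linarith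
    have h5 := hY1 y hy
    have h6 := hu0 y hy
    rw [hwval]
    linarith
  · -- the mean value property
    intro y hy _ hneg _
    have hy0 := ((hmem y).mp hy).1
    have hyR := hDR y hy
    have h2 : ∀ i, y ≠ mir x e (R i) := fun i h3 => by
      have h4 := hhm i
      rw [← h3] at h4
      linarith
    have m1 := (ML_psi h hyR).1
    have m2 := (ML_psi hS h2).2.neg
    have m3 := (ML_yuk l (hyR j)).2.neg
    have m4 := (ML_yuk l (hupP y hy0.le)).1
    have m5 := (m1.add m2).add (MLle.const_mul hεp.le (m3.add m4))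
    have m6 : MLle w y (4 * Real.pi * ρ y + -(4 * Real.pi * ρ (mir x e y)) +
        ε * (-(l ^ 2 * yuk l ‖y - R j‖) + l ^ 2 * yuk l ‖y - Pm‖)) := by
      rw [hw]
      exact m5
    refine m6.super ?_
    rw [hwval] at hneg
    have hu := hu0 y hy
    rw [h.eq y hyR, h.eq _ (hupR y hy0.le)]
    have hup : psi φ z R ρ y ≤ M + |φ| := by
      have h3 : Vn z R y ≤ M := by
        rw [hM]
        unfold Vn
        refine Finset.sum_le_sum fun i _ => mul_le_mul_of_nonneg_left ?_ (hz i).le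
        exact inv_anti₀ hεp (((hmem y).mp hy).2 i).le
      have h4 := pot_nonneg h.tc.nonneg y
      have h5 := neg_abs_le φ
      unfold psi
      linarith
    have h6 := tf_lip (M := M + |φ|) (by positivity) (sub_nonneg.mp hu) hup
    unfold psi at h6 hneg hu
    have h7 : 4 * Real.pi * (tf (Vn z R y - pot ρ y - φ) -
        tf (Vn z R (mir x e y) - pot ρ (mir x e y) - φ)) ≤
        4 * Real.pi * (2 * √(M + |φ|)) * (Vn z R y - pot ρ y - φ -
          (Vn z R (mir x e y) - pot ρ (mir x e y) - φ)) := by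
      have := mul_le_mul_of_nonneg_left h6 (show 0 ≤ 4 * Real.pi by positivity)
      linarith
    have h8 : l ^ 2 * (Vn z R y - pot ρ y - φ -
          (Vn z R (mir x e y) - pot ρ (mir x e y) - φ)) <
        l ^ 2 * (ε * (yuk l ‖y - R j‖ - yuk l ‖y - Pm‖)) := by
      refine mul_lt_mul_of_pos_left ?_ (by positivity)
      linarith
    rw [hl2] at h8 ⊢
    nlinarith

end pos

end Pool.Agent.TF

namespace Pool.Agent.TF.Col

open MeasureTheory Set Metric Filter Topology

open scoped ENNReal NNReal RealInnerProductSpace Gradient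

open Pool.Agent.TF.Grd

variable {ι : Type*} [Fintype ι] {z : ι → ℝ} {R : ι → X} {φ₀ : ℝ} {ρ : X → ℝ}

/-- the axial and the transverse part of the vector from `x` to a nucleus -/
theorem nuc_sub (hax : ∀ i, R i ∈ ax) (i : ι) (x v : X) :
    ⟪R i - x, v⟫ = ((R i).fst - x.fst) * ⟪e1, v⟫ - ⟪perp x, v⟫ := by
  have h1 : R i - x = ((R i).fst - x.fst) • e1 - perp x := by
    have h2 : R i = (R i).fst • e1 := by
      have h3 := perp_eq (R i)
      have h4 : perp (R i) = 0 := by
        unfold perp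
        rw [mem_ax.mp (hax i)]
        unfold mk
        rfl
      rw [h4] at h3
      exact (sub_eq_zero.mp h3.symm)
    rw [perp_eq x]
    conv_lhs => rw [h2]
    module
  rw [h1, inner_sub_left, real_inner_smul_left]

/-- the transverse field is strictly positive off the axis -/
theorem pf_pos [Nonempty ι] (hz : ∀ i, 0 < z i) (hax : ∀ i, R i ∈ ax) (hφ : 0 < φ₀)
    (hρ : TC ρ) (heq : ∀ x, ρ x = tf (Vpt z R x - pot ρ x - φ₀)) {x : X} (hx : x ∉ ax) :
    0 < pf z R ρ x := by
  have hR := ax_nontrivial_off hax hx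
  have hht := ht_pos hx
  have h1 := grad_pos hz (h := (⟨hρ, fun x _ => heq x⟩ : Sol φ₀ z R ρ))
    (hasGradientAt_psi (fun i => (hz i).le) R hφ hρ heq hR)
    (e := -es x) (by rw [norm_neg, norm_es hx]) (fun i => by
      rw [nuc_sub hax, inner_neg_right, inner_neg_right, real_inner_comm, inner_es_e1]
      unfold es
      rw [real_inner_smul_right, real_inner_self_eq_norm_sq, norm_perp]
      have : (ht x)⁻¹ * ht x ^ 2 = ht x := by field_simp
      rw [this]
      linarith)
  unfold es at h1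
  rw [inner_neg_right, real_inner_smul_right] at h1
  unfold pf
  have h2 : 0 < -⟪psi' z R ρ x, perp x⟫ := by
    have h3 : 0 < (ht x)⁻¹ * -⟪psi' z R ρ x, perp x⟫ := by linarith
    exact (pos_iff_pos_of_mul_pos h3).mp (inv_pos.mpr hht)
  rw [← neg_div]
  positivity

/-- the form of the field -/
theorem psi'_form (hz : ∀ i, 0 ≤ z i) (hax : ∀ i, R i ∈ ax) (hφ : 0 < φ₀)
    (hρ : TC ρ) (heq : ∀ x, ρ x = tf (Vpt z R x - pot ρ x - φ₀)) {x : X} (hx : x ∉ ax)
    (hp : pf z R ρ x ≠ 0) :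
    psi' z R ρ x = -(pf z R ρ x • (x - cf z R ρ x • e1)) := by
  have hR := ax_nontrivial_off hax hx
  have hht := ht_pos hx
  obtain ⟨g, hg⟩ : ∃ g, g = psi' z R ρ x := ⟨_, rfl⟩
  obtain ⟨p, hpd⟩ : ∃ p, p = pf z R ρ x := ⟨_, rfl⟩
  obtain ⟨c, hc⟩ : ∃ c, c = cf z R ρ x := ⟨_, rfl⟩
  obtain ⟨w, hw⟩ : ∃ w : X, w = g + p • (x - c • e1) := ⟨_, rfl⟩
  have hp' : p ≠ 0 := by rw [hpd]; exact hp
  have hx1 : x = x.fst • e1 + perp x := by rw [perp_eq]; abel
  have h1 : ⟪e1, e1⟫ = (1 : ℝ) := by rw [real_inner_self_eq_norm_sq, norm_e1]; norm_num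
  have hwe : ⟪e1, w⟫ = 0 := by
    rw [hw, inner_add_right, real_inner_smul_right, inner_sub_right, real_inner_smul_right, h1,
      real_inner_comm, real_inner_comm x, inner_e1 x, hc]
    unfold cf
    rw [← hpd, ← hg]
    field_simp
    ring
  have hwp : ⟪perp x, w⟫ = 0 := by
    rw [hw, inner_add_right, real_inner_smul_right, inner_sub_right, real_inner_smul_right,
      inner_perp_e1, real_inner_comm, real_inner_comm x, inner_self_perp, hpd]
    unfold pf
    rw [← hg]
    field_simp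
    ring
  have hxw : ⟪x - c • e1, w⟫ = 0 := by
    rw [inner_sub_left, real_inner_smul_left, hwe]
    conv_lhs => rw [hx1]
    rw [inner_add_left, real_inner_smul_left, hwe, hwp]
    ring
  have hnuc : ∀ i, ⟪R i - x, w⟫ = 0 := fun i => by
    rw [nuc_sub hax, hwe, hwp]
    ring
  have ha := psi'_side hz R hφ hρ heq hR (e := w) (fun i _ => (hnuc i).ge)
  have hb := psi'_side hz R hφ hρ heq hR (e := -w) (fun i _ => by
    rw [inner_neg_right, hnuc i, neg_zero])
  rw [inner_neg_right] at hb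
  have hgw : ⟪g, w⟫ = 0 := by
    rw [hg]
    linarith
  have hww : ⟪w, w⟫ = 0 := by
    have h2 : ⟪w, w⟫ = ⟪g + p • (x - c • e1), w⟫ := by rw [← hw]
    rw [h2, inner_add_left, real_inner_smul_left, hgw, hxw]
    ring
  have hw0 : w = 0 := inner_self_eq_zero.mp hww
  rw [← hg, ← hpd, ← hc]
  rw [hw] at hw0
  exact eq_neg_of_add_eq_zero_left hw0

/-- the structure of the field off the axis -/
theorem axial [Nonempty ι] (hz : ∀ i, 0 < z i) (hax : ∀ i, R i ∈ ax) (hφ : 0 < φ₀)
    (hρ : TC ρ) (heq : ∀ x, ρ x = tf (Vpt z R x - pot ρ x - φ₀)) {lo hi : ℝ}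
    (hlo : ∀ i, lo ≤ (R i).fst) (hhi : ∀ i, (R i).fst ≤ hi) : Axial z R ρ lo hi := by
  have hpos := fun x (hx : x ∉ ax) => pf_pos hz hax hφ hρ heq hx
  have hz' : ∀ i, 0 ≤ z i := fun i => (hz i).le
  have hform := fun x (hx : x ∉ ax) => psi'_form hz' hax hφ hρ heq hx (hpos x hx).ne'
  -- the hull
  have hin : ∀ x, x ∉ ax → ∀ a : ℝ, ⟪psi' z R ρ x, ht x ^ 2 • e1 + (a - x.fst) • perp x⟫ =
      -(pf z R ρ x * ht x ^ 2 * (a - cf z R ρ x)) := by
    intro x hx a
    rw [hform x hx, inner_neg_left, real_inner_smul_left, inner_add_right, real_inner_smul_right,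
      real_inner_smul_right, inner_sub_left, inner_sub_left, real_inner_smul_left,
      real_inner_smul_left, inner_e1, inner_e1_perp, inner_self_perp,
      real_inner_self_eq_norm_sq, norm_e1]
    ring
  have hnu : ∀ x, x ∉ ax → ∀ a : ℝ, ∀ i,
      ⟪R i - x, ht x ^ 2 • e1 + (a - x.fst) • perp x⟫ = ht x ^ 2 * ((R i).fst - a) := by
    intro x hx a i
    rw [nuc_sub hax, inner_add_right, real_inner_smul_right, real_inner_smul_right,
      inner_add_right, real_inner_smul_right, real_inner_smul_right, inner_e1_perp,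
      inner_perp_e1, real_inner_self_eq_norm_sq, real_inner_self_eq_norm_sq, norm_e1, norm_perp]
    ring
  refine ⟨hax, hform, hpos, fun x hx => ?_, fun x hx => ?_⟩
  · have hht := ht_pos hx
    have hp := hpos x hx
    have h1 := psi'_side hz' R hφ hρ heq (ax_nontrivial_off hax hx)
      (e := ht x ^ 2 • e1 + (lo - x.fst) • perp x) (fun i _ => by
        rw [hnu x hx]
        have := hlo i
        have h2 : 0 ≤ (R i).fst - lo := by linarith
        positivity)
    rw [hin x hx] at h1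
    by_contra hcon
    push Not at hcon
    have h2 : 0 < pf z R ρ x * ht x ^ 2 * (lo - cf z R ρ x) := by
      have h3 : 0 < lo - cf z R ρ x := by linarith
      positivity
    linarith
  · have hht := ht_pos hx
    have hp := hpos x hx
    have h1 := psi'_side hz' R hφ hρ heq (ax_nontrivial_off hax hx)
      (e := -(ht x ^ 2 • e1 + (hi - x.fst) • perp x)) (fun i _ => by
        rw [inner_neg_right, hnu x hx]
        have := hhi i
        have h2 : 0 ≤ hi - (R i).fst := by linarith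
        have h3 : 0 ≤ ht x ^ 2 * (hi - (R i).fst) := by positivity
        linarith)
    rw [inner_neg_right, hin x hx] at h1
    by_contra hcon
    push Not at hcon
    have h2 : 0 < pf z R ρ x * ht x ^ 2 * (cf z R ρ x - hi) := by
      have h3 : 0 < cf z R ρ x - hi := by linarith
      positivity
    have h4 : pf z R ρ x * ht x ^ 2 * (hi - cf z R ρ x) =
      -(pf z R ρ x * ht x ^ 2 * (cf z R ρ x - hi)) := by ring
    rw [h4] at h1
    linarith

end Pool.Agent.TF.Col
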