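import Mathlib

section
/-! The pointwise inequality of the radius function calibration.  `T` is the second derivative of
the potential `ψ` at a point (symmetric, trace `R`), `p` its gradient, `s` the radius, and `κ` the
logarithmic derivative of the radius in `g = ‖p‖`. -/

set_option autoImplicit false

namespace Pool.Agent.TF.Ptw

open scoped RealInnerProductSpace

variable {V : Type*} [NormedAddCommGroup V] [InnerProductSpace ℝ V]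

theorem sum_inner_sq {κ : Type*} [Fintype κ] (b : OrthonormalBasis κ ℝ V) (u v : V) :
    ∑ j, ⟪u, b j⟫ * ⟪v, b j⟫ = ⟪u, v⟫ := by
  have h := b.sum_inner_mul_inner u v
  rw [← h]
  exact Finset.sum_congr rfl fun j _ => by rw [real_inner_comm v (b j)]

theorem sum_inner_map {κ : Type*} [Fintype κ] (b : OrthonormalBasis κ ℝ V) (T : V →L[ℝ] V)
    (hT : ∀ u v, ⟪T u, v⟫ = ⟪u, T v⟫) (u v : V) :
    ∑ j, ⟪u, b j⟫ * ⟪T (b j), v⟫ = ⟪T u, v⟫ := by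
  have h : ∀ j, ⟪u, b j⟫ * ⟪T (b j), v⟫ = ⟪u, b j⟫ * ⟪T v, b j⟫ := by
    intro j
    rw [hT, real_inner_comm (T v) (b j)]
  simp_rw [h]
  rw [sum_inner_sq, hT]

/-- Cauchy-Schwarz: the Hilbert-Schmidt norm controls one row and the rest of the trace -/
theorem hs_ge (b : OrthonormalBasis (Fin 3) ℝ V) (T : V →L[ℝ] V)
    (hT : ∀ u v, ⟪T u, v⟫ = ⟪u, T v⟫) {R : ℝ} (hR : ∑ j, ⟪T (b j), b j⟫ = R) {n : V}
    (hn : ‖n‖ = 1) :
    2 * ‖T n‖ ^ 2 - ⟪T n, n⟫ ^ 2 + (R - ⟪T n, n⟫) ^ 2 / 2 ≤ ∑ j, ‖T (b j)‖ ^ 2 := by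
  set p : V := T n with hp
  set h : ℝ := ⟪p, n⟫ with hh
  set c : ℝ := (R - h) / 2 with hc
  have key : ∀ j, ‖T (b j) - (⟪n, b j⟫ • p + (⟪p, b j⟫ - h * ⟪n, b j⟫) • n) -
      c • (b j - ⟪n, b j⟫ • n)‖ ^ 2 =
      ‖T (b j)‖ ^ 2 - 2 * (⟪n, b j⟫ * ⟪T (b j), p⟫) -
        2 * (⟪p, b j⟫ * ⟪p, b j⟫ - h * (⟪n, b j⟫ * ⟪p, b j⟫)) -
        2 * c * (⟪T (b j), b j⟫ - ⟪n, b j⟫ * ⟪p, b j⟫) +
        (⟪n, b j⟫ * ⟪n, b j⟫) * ‖p‖ ^ 2 +
        2 * h * (⟪n, b j⟫ * ⟪p, b j⟫ - h * (⟪n, b j⟫ * ⟪n, b j⟫)) +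
        (⟪p, b j⟫ * ⟪p, b j⟫ - 2 * h * (⟪n, b j⟫ * ⟪p, b j⟫) +
          h ^ 2 * (⟪n, b j⟫ * ⟪n, b j⟫)) +
        2 * c * (⟪n, b j⟫ * ⟪p, b j⟫ - h * (⟪n, b j⟫ * ⟪n, b j⟫)) +
        c ^ 2 * (1 - ⟪n, b j⟫ * ⟪n, b j⟫) := by
    intro j
    have e1 : ⟪T (b j), n⟫ = ⟪p, b j⟫ := by rw [hT, real_inner_comm]
    have e2 : ⟪b j, n⟫ = ⟪n, b j⟫ := real_inner_comm _ _
    have e3 : ⟪b j, p⟫ = ⟪p, b j⟫ := real_inner_comm _ _
    have e4 : ⟪n, p⟫ = h := real_inner_comm _ _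
    have e5 : ⟪b j, T (b j)⟫ = ⟪T (b j), b j⟫ := real_inner_comm _ _
    have e6 : ⟪n, T (b j)⟫ = ⟪p, b j⟫ := by rw [real_inner_comm, e1]
    have e7 : ⟪p, T (b j)⟫ = ⟪T (b j), p⟫ := real_inner_comm _ _
    have e8 : ⟪b j, b j⟫ = 1 := by rw [real_inner_self_eq_norm_sq, b.norm_eq_one, one_pow]
    have e9 : ⟪n, n⟫ = 1 := by rw [real_inner_self_eq_norm_sq, hn, one_pow]
    have e10 : ⟪p, p⟫ = ‖p‖ ^ 2 := real_inner_self_eq_norm_sq p
    have e11 : ⟪T (b j), T (b j)⟫ = ‖T (b j)‖ ^ 2 := real_inner_self_eq_norm_sq _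
    rw [← real_inner_self_eq_norm_sq]
    simp only [inner_sub_left, inner_sub_right, inner_add_left, inner_add_right,
      real_inner_smul_left, real_inner_smul_right, e1, e2, e3, e4, e5, e6, e7, e8, e9, e10, e11,
      ← hh]
    ring
  have hsum : 0 ≤ ∑ j, ‖T (b j) - (⟪n, b j⟫ • p + (⟪p, b j⟫ - h * ⟪n, b j⟫) • n) -
      c • (b j - ⟪n, b j⟫ • n)‖ ^ 2 := Finset.sum_nonneg fun j _ => sq_nonneg _
  have s1 : ∑ j, ⟪n, b j⟫ * ⟪n, b j⟫ = 1 := by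
    rw [sum_inner_sq, real_inner_self_eq_norm_sq, hn, one_pow]
  have s2 : ∑ j, ⟪p, b j⟫ * ⟪p, b j⟫ = ‖p‖ ^ 2 := by
    rw [sum_inner_sq, real_inner_self_eq_norm_sq]
  have s3 : ∑ j, ⟪n, b j⟫ * ⟪p, b j⟫ = h := by
    rw [sum_inner_sq, real_inner_comm]
  have s4 : ∑ j, ⟪n, b j⟫ * ⟪T (b j), p⟫ = ‖p‖ ^ 2 := by
    rw [sum_inner_map b T hT, ← hp, real_inner_self_eq_norm_sq]
  have s5 : ∑ _j : Fin 3, (1 : ℝ) = 3 := by simp
  simp_rw [key] at hsum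
  simp only [Finset.sum_add_distrib, Finset.sum_sub_distrib, ← Finset.mul_sum,
    ← Finset.sum_mul, s1, s2, s3, s4, hR, s5] at hsum
  have e : c = (R - h) / 2 := rfl
  rw [e] at hsum
  nlinarith [hsum]

end Pool.Agent.TF.Ptw

end

section
/-! The pointwise inequality with a residual in the equation of the radius function and with the
regularised modulus `G ≥ ‖v‖` of the gradient `v`. -/

set_option autoImplicit false

namespace Pool.Agent.TF.Ptw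

open scoped RealInnerProductSpace

variable {V : Type*} [NormedAddCommGroup V] [InnerProductSpace ℝ V]

/-- the case of a unit direction: `G • n` plays the role of the gradient -/
theorem ptw_del (b : OrthonormalBasis (Fin 3) ℝ V) (T : V →L[ℝ] V)
    (hT : ∀ u v, ⟪T u, v⟫ = ⟪u, T v⟫) {R : ℝ} (hR : ∑ j, ⟪T (b j), b j⟫ = R) {n : V}
    (hn : ‖n‖ = 1) {G s κ sp sG δ : ℝ} (hG : 0 < G) (hs : 0 < s) (hκ : |κ| ≤ 1 / 2)
    (h1 : G * sG = κ * s) (h2 : δ = 1 + G * sp + (2 * G / s + R) * sG) :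
    -2 * δ ^ 2 * G ^ 2 ≤
      G ^ 2 + 2 * R * (s * G) + s ^ 2 * (∑ j, ‖T (b j)‖ ^ 2) -
        (s ^ 2 * ‖T n‖ ^ 2 + 2 * (s * G) * (sp * G * ⟪T n, n⟫ + sG * ‖T n‖ ^ 2) +
          G ^ 2 * ((sp * G) ^ 2 + 2 * (sp * G) * sG * ⟪T n, n⟫ + sG ^ 2 * ‖T n‖ ^ 2)) -
        2 * (G * (s * ⟪T n, n⟫ + G * (sp * G + sG * ⟪T n, n⟫))) +
        2 * (s * G) * (sp * G * ⟪T n, n⟫ + sG * ‖T n‖ ^ 2) := by
  have hhs := hs_ge b T hT hR hn
  set h : ℝ := ⟪T n, n⟫ with hh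
  set q : ℝ := ‖T n‖ ^ 2 with hq
  have hqh : h ^ 2 ≤ q := by
    have h0 : |h| ≤ ‖T n‖ * ‖n‖ := abs_real_inner_le_norm _ _
    rw [hn, mul_one] at h0
    rw [hq, ← sq_abs h]
    exact pow_le_pow_left₀ (abs_nonneg _) h0 2
  have hA : sG = κ * s / G := by field_simp; linarith
  have hC : G * (sp * G) = δ * G - G - κ * (2 * G + R * s) := by
    have e : G * sp = δ - 1 - (2 * G / s + R) * (κ * s / G) := by rw [h2, hA]; ring
    have e2 : G * (sp * G) = (G * sp) * G := by ring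
    rw [e2, e]
    field_simp
  have hm : s ^ 2 * (2 * q - h ^ 2 + (R - h) ^ 2 / 2) ≤ s ^ 2 * ∑ j, ‖T (b j)‖ ^ 2 :=
    mul_le_mul_of_nonneg_left hhs (sq_nonneg s)
  have hk2 : κ ^ 2 ≤ 1 / 4 := by
    have := pow_le_pow_left₀ (abs_nonneg κ) hκ 2
    rw [sq_abs] at this
    linarith
  have hm2 : 0 ≤ (1 - κ ^ 2) * (s ^ 2 * (q - h ^ 2)) :=
    mul_nonneg (by linarith) (mul_nonneg (sq_nonneg s) (by linarith))
  have e1 : G ^ 2 * ((sp * G) ^ 2 + 2 * (sp * G) * sG * h + sG ^ 2 * q) =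
      (G * (sp * G)) ^ 2 + 2 * (G * (sp * G)) * (G * sG) * h + (G * sG) ^ 2 * q := by ring
  have e2 : 2 * (G * (s * h + G * (sp * G + sG * h))) =
      2 * G * s * h + 2 * G * (G * (sp * G)) + 2 * G * (G * sG) * h := by ring
  rw [e1, e2, hC, h1]
  set X : ℝ := s * (R - h) + 2 * G with hX
  have hsq : -2 * δ ^ 2 * G ^ 2 ≤ X ^ 2 / 2 - (κ * X - δ * G) ^ 2 := by
    have hb : κ ≤ 1 / 2 := (le_abs_self κ).trans hκ
    have hb' : -(1 / 2) ≤ κ := by linarith [neg_abs_le κ]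
    have h3 : X ^ 2 / 2 - (κ * X - δ * G) ^ 2 + 2 * δ ^ 2 * G ^ 2 =
        (1 / 4 - κ ^ 2) * X ^ 2 + (1 / 4 - κ ^ 2) * (4 * (δ * G) ^ 2) +
          (X / 2 + 2 * κ * (δ * G)) ^ 2 := by ring
    have h4 : 0 ≤ (1 / 4 - κ ^ 2) * X ^ 2 := mul_nonneg (by linarith) (sq_nonneg _)
    have h5 : 0 ≤ (1 / 4 - κ ^ 2) * (4 * (δ * G) ^ 2) :=
      mul_nonneg (by linarith) (by positivity)
    have h6 := sq_nonneg (X / 2 + 2 * κ * (δ * G))
    linarith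
  have e3 : X ^ 2 / 2 - (κ * X - δ * G) ^ 2 + (1 - κ ^ 2) * (s ^ 2 * (q - h ^ 2)) =
      G ^ 2 + 2 * R * (s * G) + s ^ 2 * (2 * q - h ^ 2 + (R - h) ^ 2 / 2) -
        (s ^ 2 * q + 2 * (s * G) * (sp * G * h + sG * q) +
          ((δ * G - G - κ * (2 * G + R * s)) ^ 2 +
            2 * (δ * G - G - κ * (2 * G + R * s)) * (κ * s) * h + (κ * s) ^ 2 * q)) -
        (2 * G * s * h + 2 * G * (δ * G - G - κ * (2 * G + R * s)) + 2 * G * (κ * s) * h) +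
        2 * (s * G) * (sp * G * h + sG * q) := by
    rw [hX]; ring
  linarith

/-- **the pointwise inequality** with residual `δ` and `‖v‖ ≤ G` -/
theorem ptw_eps (b : OrthonormalBasis (Fin 3) ℝ V) (T : V →L[ℝ] V)
    (hT : ∀ u v, ⟪T u, v⟫ = ⟪u, T v⟫) {R : ℝ} (hR : ∑ j, ⟪T (b j), b j⟫ = R) (hR0 : 0 ≤ R)
    {v gs gY : V} {G s κ sp sG δ : ℝ} (hG : 0 < G) (hvG : ‖v‖ ≤ G) (hs : 0 < s)
    (hκ : |κ| ≤ 1 / 2) (h1 : G * sG = κ * s) (h2 : δ = 1 + G * sp + (2 * G / s + R) * sG)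
    (hgs : gs = sp • v + (sG / G) • T v) (hgY : gY = (s / G) • T v + G • gs) :
    -2 * δ ^ 2 * ‖v‖ ^ 2 ≤
      ‖v‖ ^ 2 - ‖gY‖ ^ 2 + 2 * R * (s * G) - 2 * ⟪gY, v⟫ + 2 * s * ⟪gs, T v⟫ +
        s ^ 2 * (∑ j, ‖T (b j)‖ ^ 2) := by
  have hF : 0 ≤ ∑ j, ‖T (b j)‖ ^ 2 := Finset.sum_nonneg fun _ _ => sq_nonneg _
  rcases eq_or_ne v 0 with rfl | hv
  · have e1 : gs = 0 := by rw [hgs]; simp
    have e2 : gY = 0 := by rw [hgY, e1]; simp
    rw [e2]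
    simp only [norm_zero, map_zero, inner_zero_right]
    have h3 : 0 ≤ 2 * R * (s * G) := by positivity
    have h4 : 0 ≤ s ^ 2 * ∑ j, ‖T (b j)‖ ^ 2 := by positivity
    nlinarith
  · have hv0 : 0 < ‖v‖ := norm_pos_iff.mpr hv
    set l : ℝ := ‖v‖ / G with hl
    have hl0 : 0 < l := by positivity
    have hl1 : l ≤ 1 := (div_le_one hG).mpr hvG
    have hlG : l * G = ‖v‖ := by rw [hl]; field_simp
    obtain ⟨n, hn1, hvn⟩ : ∃ n : V, ‖n‖ = 1 ∧ v = (l * G) • n := by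
      refine ⟨‖v‖⁻¹ • v, ?_, ?_⟩
      · rw [norm_smul, norm_inv, norm_norm, inv_mul_cancel₀ hv0.ne']
      · rw [hlG, smul_smul, mul_inv_cancel₀ hv0.ne', one_smul]
    have key := ptw_del b T hT hR hn1 hG hs hκ h1 h2
    set h : ℝ := ⟪T n, n⟫ with hh
    set q : ℝ := ‖T n‖ ^ 2 with hq
    have e9 : ⟪n, n⟫ = 1 := by rw [real_inner_self_eq_norm_sq, hn1, one_pow]
    have e4 : ⟪n, T n⟫ = h := real_inner_comm _ _
    have e10 : ⟪T n, T n⟫ = q := real_inner_self_eq_norm_sq _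
    have eT : T v = (l * G) • T n := by rw [hvn, map_smul]
    have egs : gs = (l * (sp * G)) • n + (l * sG) • T n := by
      rw [hgs, eT, hvn, smul_smul, smul_smul]
      congr 2
      · ring
      · field_simp
    have egY : gY = (l * (G * (sp * G))) • n + (l * (s + G * sG)) • T n := by
      rw [hgY, eT, egs, smul_add, smul_smul, smul_smul, smul_smul]
      have : (s / G * (l * G)) • T n = (l * s) • T n := by
        congr 1; field_simp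
      rw [this, add_comm, add_assoc, ← add_smul]
      congr 2
      · ring
      · ring
    have i1 : ‖gY‖ ^ 2 = l ^ 2 * (s ^ 2 * q + 2 * (s * G) * (sp * G * h + sG * q) +
        G ^ 2 * ((sp * G) ^ 2 + 2 * (sp * G) * sG * h + sG ^ 2 * q)) := by
      rw [← real_inner_self_eq_norm_sq, egY]
      simp only [inner_add_left, inner_add_right, real_inner_smul_left, real_inner_smul_right,
        e9, e4, e10, ← hh]
      ring
    have i2 : ⟪gY, v⟫ = l ^ 2 * (G * (s * h + G * (sp * G + sG * h))) := by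
      rw [egY, hvn]
      simp only [inner_add_left, real_inner_smul_left, real_inner_smul_right, e9, ← hh]
      ring
    have i3 : s * ⟪gs, T v⟫ = l ^ 2 * ((s * G) * (sp * G * h + sG * q)) := by
      rw [egs, eT]
      simp only [inner_add_left, real_inner_smul_left, real_inner_smul_right, e4, e10]
      ring
    have i4 : ‖v‖ ^ 2 = l ^ 2 * G ^ 2 := by rw [← hlG]; ring
    have i5 : 2 * s * ⟪gs, T v⟫ = 2 * (s * ⟪gs, T v⟫) := by ring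
    rw [i5, i1, i2, i3, i4]
    have hl2 : 0 ≤ l ^ 2 := sq_nonneg l
    have hl3 : l ^ 2 ≤ 1 := pow_le_one₀ hl0.le hl1
    have h3 : 0 ≤ (1 - l ^ 2) * (2 * R * (s * G) + s ^ 2 * ∑ j, ‖T (b j)‖ ^ 2) :=
      mul_nonneg (by linarith) (by positivity)
    have h4 := mul_le_mul_of_nonneg_left key hl2
    linarith

end Pool.Agent.TF.Ptw

end

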