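import Mathlib
import Pool.Agent.Lib.MP_9cf0c9_mp.Tr.PtA
import Pool.Agent.Lib.MP_9cf0c9_mp.Tr.RadA
/-! Bochner identity in weak form.  `P` is the gradient of the potential, `T x` its derivative
(symmetric, continuous off the nuclei), `Gam` the derivative of the nonlinearity, and the weak
equation of the components of `P` is assumed for Lipschitz test functions with compact support
off the nuclei.  The conclusion is the weak divergence of `β T P`. -/

set_option autoImplicit false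

set_option linter.unusedSectionVars false

set_option linter.unusedVariables false

namespace Pool.Agent.TF.Flux

open MeasureTheory Set Metric Filter Topology

open scoped ENNReal NNReal RealInnerProductSpace Gradient

variable {V : Type*} [NormedAddCommGroup V] [InnerProductSpace ℝ V] [FiniteDimensional ℝ V]
  [MeasurableSpace V] [BorelSpace V]

variable {ι : Type*} [Fintype ι]

/-- a field which is continuous off the nuclei is locally integrable off the nuclei -/
theorem locInt_of_continuousAt {E : Type*} [NormedAddCommGroup E] {R : ι → V} {f : V → E}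
    (hf : ∀ x, (∀ i, x ≠ R i) → ContinuousAt f x) : LocInt R f := by
  intro K hK hR
  have hc : ContinuousOn f K := fun x hx =>
    (hf x fun i h => hR i (h ▸ hx)).continuousWithinAt
  exact hc.integrableOn_compact hK

/-- a function which is locally Lipschitz at every point off the nuclei is Lipschitz on compact
sets without nuclei -/
theorem LocLip.mul {R : ι → V} {f g : V → ℝ} (hf : LocLip R f) (hg : LocLip R g) :
    LocLip R fun x => f x * g x := by
  intro K hK hR
  obtain ⟨A, hA0, hA⟩ := hf.bound hK hR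
  obtain ⟨B, hB0, hB⟩ := hg.bound hK hR
  obtain ⟨C, hC⟩ := hf K hK hR
  obtain ⟨D, hD⟩ := hg K hK hR
  refine ⟨⟨A * D + B * C, by positivity⟩, LipschitzOnWith.of_dist_le_mul fun x hx y hy => ?_⟩
  change dist (f x * g x) (f y * g y) ≤ (A * D + B * C) * dist x y
  have h1 := hC.dist_le_mul x hx y hy
  have h2 := hD.dist_le_mul x hx y hy
  have h3 := hA x hx
  have h4 := hB y hy
  rw [Real.norm_eq_abs] at h3 h4
  rw [Real.dist_eq] at h1 h2 ⊢
  have e : f x * g x - f y * g y = f x * (g x - g y) + (f x - f y) * g y := by ring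
  rw [e]
  have hd : (0 : ℝ) ≤ dist x y := dist_nonneg
  calc |f x * (g x - g y) + (f x - f y) * g y| ≤ |f x| * |g x - g y| + |f x - f y| * |g y| := by
        refine (abs_add_le _ _).trans (le_of_eq ?_)
        rw [abs_mul, abs_mul]
    _ ≤ A * (D * dist x y) + (C * dist x y) * B := by
        refine add_le_add (mul_le_mul h3 h2 (abs_nonneg _) hA0)
          (mul_le_mul h1 h4 (abs_nonneg _) (by positivity))
    _ = (A * D + B * C) * dist x y := by ring

/-- a function with a continuous derivative off the nuclei is `LocLip` -/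
theorem locLip_of_hasFDerivAt {R : ι → V} {f : V → ℝ} {f' : V → V →L[ℝ] ℝ}
    (hf : ∀ x, (∀ i, x ≠ R i) → HasFDerivAt f (f' x) x)
    (hc : ∀ x, (∀ i, x ≠ R i) → ContinuousAt f' x) : LocLip R f := by
  classical
  intro K hK hR
  have hU : IsOpen (range R)ᶜ := (finite_range R).isClosed.isOpen_compl
  have hK' : K ⊆ (range R)ᶜ := by
    rintro x hx ⟨i, rfl⟩
    exact hR i hx
  have hmem : ∀ x, x ∈ (range R)ᶜ ↔ ∀ i, x ≠ R i := by
    intro x
    simp only [mem_compl_iff, mem_range, not_exists]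
    exact ⟨fun h i hi => h i hi.symm, fun h i hi => h i hi.symm⟩
  have hloc : LocallyLipschitzOn K f := by
    intro x hx
    have hx' := (hmem x).1 (hK' hx)
    have h1 : ∀ᶠ y in 𝓝 x, ‖f' y‖₊ ≤ ‖f' x‖₊ + 1 := by
      have h2 : ContinuousAt (fun y => ‖f' y‖₊) x := (hc x hx').nnnorm
      have h3 : ‖f' x‖₊ < ‖f' x‖₊ + 1 := lt_add_of_pos_right _ one_pos
      exact (h2.eventually (gt_mem_nhds h3)).mono fun y hy => le_of_lt hy
    have h2 : ∀ᶠ y in 𝓝 x, y ∈ (range R)ᶜ := hU.mem_nhds (hK' hx)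
    obtain ⟨r, hr, hb⟩ := Metric.eventually_nhds_iff_ball.1 (h1.and h2)
    refine ⟨‖f' x‖₊ + 1, ball x r, mem_nhdsWithin_of_mem_nhds (ball_mem_nhds x hr), ?_⟩
    exact (convex_ball x r).lipschitzOnWith_of_nnnorm_hasFDerivWithin_le
      (fun y hy => (hf y ((hmem y).1 (hb y hy).2)).hasFDerivWithinAt) fun y hy => (hb y hy).1
  exact hloc.exists_lipschitzOnWith_of_compact hK

variable [hd : Fact (Module.finrank ℝ V = 3)]

/-- **the Bochner identity in weak form** -/
theorem boch {κ : Type*} [Fintype κ] {R : ι → V} {P : V → V} {T : V → V →L[ℝ] V}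
    {Gam β : V → ℝ} {β' : V → V} (b : OrthonormalBasis κ ℝ V)
    (hP : ∀ x, (∀ i, x ≠ R i) → HasFDerivAt P (T x) x)
    (hTc : ∀ x, (∀ i, x ≠ R i) → ContinuousAt T x)
    (hsym : ∀ x, (∀ i, x ≠ R i) → ∀ u v, ⟪T x u, v⟫ = ⟪u, T x v⟫)
    (hGam : ∀ x, (∀ i, x ≠ R i) → ContinuousAt Gam x)
    (hw : ∀ (j : κ) (η : V → ℝ) (C : ℝ≥0), LipschitzWith C η → HasCompactSupport η →
      (∀ i, R i ∉ tsupport η) →
      ∫ x, ⟪T x (b j), ∇ η x⟫ = -∫ x, Gam x * ⟪P x, b j⟫ * η x)
    (hβ : LocLip R β) (hβ' : ∀ᵐ x : V, HasGradientAt β (β' x) x)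
    {ζ : V → ℝ} {C : ℝ≥0} (hζ : LipschitzWith C ζ) (hs : HasCompactSupport ζ)
    (hoff : ∀ i, R i ∉ tsupport ζ) :
    ∫ x, ⟪β x • T x (P x), ∇ ζ x⟫ =
      -∫ x, ζ x * (⟪β' x, T x (P x)⟫ + β x * ((∑ j, ‖T x (b j)‖ ^ 2) + Gam x * ‖P x‖ ^ 2)) := by
  classical
  -- continuity
  have hPc : ∀ x, (∀ i, x ≠ R i) → ContinuousAt P x := fun x hx => (hP x hx).continuousAt
  have hTb : ∀ (j : κ) x, (∀ i, x ≠ R i) → ContinuousAt (fun y => T y (b j)) x :=
    fun j x hx => (hTc x hx).clm_apply continuousAt_const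
  have hnt : Nontrivial V := Module.nontrivial_of_finrank_pos (R := ℝ) (by rw [hd.out]; norm_num)
  have hne : ∀ᵐ x : V, ∀ i, x ≠ R i := by
    rw [ae_all_iff]
    intro i
    rw [ae_iff]
    simp
  -- the multipliers
  have hm : ∀ j : κ, LocLip R fun x => ⟪P x, b j⟫ := fun j => by
    refine locLip_of_hasFDerivAt (f' := fun x => (innerSL ℝ (b j)).comp (T x)) (fun x hx => ?_)
      fun x hx => ?_
    · have h1 := (innerSL ℝ (b j)).hasFDerivAt.comp x (hP x hx)
      refine h1.congr_of_eventuallyEq (Eventually.of_forall fun y => ?_)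
      simp only [Function.comp, innerSL_apply_apply]
      exact real_inner_comm _ _
    · exact continuousAt_const.clm_comp (hTc x hx)
  have hmg : ∀ (j : κ) x, (∀ i, x ≠ R i) →
      HasGradientAt (fun x => ⟪P x, b j⟫) (T x (b j)) x := fun j x hx => by
    rw [hasGradientAt_iff_hasFDerivAt]
    have h1 := (innerSL ℝ (b j)).hasFDerivAt.comp x (hP x hx)
    have h2 : HasFDerivAt (fun x => ⟪P x, b j⟫) ((innerSL ℝ (b j)).comp (T x)) x := by
      refine h1.congr_of_eventuallyEq (Eventually.of_forall fun y => ?_)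
      simp only [Function.comp, innerSL_apply_apply]
      exact real_inner_comm _ _
    refine h2.congr_fderiv ?_
    ext v
    simp only [ContinuousLinearMap.comp_apply, innerSL_apply_apply,
      InnerProductSpace.toDual_apply_apply]
    rw [← hsym x hx]
  have hB : ∀ j : κ, LocLip R fun x => β x * ⟪P x, b j⟫ := fun j => hβ.mul (hm j)
  have hB' : ∀ j : κ, ∀ᵐ x : V, HasGradientAt (fun x => β x * ⟪P x, b j⟫)
      (β x • T x (b j) + ⟪P x, b j⟫ • β' x) x := fun j => by
    filter_upwards [hβ', hne] with x h1 h2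
    have h3 := hmg j x h2
    rw [hasGradientAt_iff_hasFDerivAt] at h1 h3 ⊢
    refine (h1.mul h3).congr_fderiv ?_
    rw [map_add, map_smul, map_smul]
  -- the weak equations
  have hcont := hζ.continuous
  have key : ∀ j : κ,
      (∫ x, ⟪(β x * ⟪P x, b j⟫) • T x (b j), ∇ ζ x⟫) +
        (∫ x, ζ x * ⟪β x • T x (b j) + ⟪P x, b j⟫ • β' x, T x (b j)⟫) =
      -∫ x, ζ x * (Gam x * ⟪P x, b j⟫ * (β x * ⟪P x, b j⟫)) := by
    intro j
    obtain ⟨C', hC'⟩ := lip_mul hζ hs hoff (hB j)
    have hsupp : HasCompactSupport fun x => ζ x * (β x * ⟪P x, b j⟫) := hs.mul_right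
    have hoff' : ∀ i, R i ∉ tsupport fun x => ζ x * (β x * ⟪P x, b j⟫) := fun i hi =>
      hoff i (tsupport_mul_subset_left hi)
    have h1 := hw j _ C' hC' hsupp hoff'
    have i1 : Integrable fun x => ⟪(β x * ⟪P x, b j⟫) • T x (b j), ∇ ζ x⟫ :=
      ((hB j).smul_locInt (locInt_of_continuousAt (hTb j))).inner_grad hζ hs hoff
    have i2 : Integrable fun x => ζ x * ⟪β x • T x (b j) + ⟪P x, b j⟫ • β' x, T x (b j)⟫ := by
      have h := ((hB j).grad_inner_locInt (hB' j)
        (locInt_of_continuousAt (hTb j))).mul_left hcont hs hoff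
      simpa only [smul_eq_mul] using h
    have e1 : ∫ x, ⟪T x (b j), ∇ (fun x => ζ x * (β x * ⟪P x, b j⟫)) x⟫ =
        (∫ x, ⟪(β x * ⟪P x, b j⟫) • T x (b j), ∇ ζ x⟫) +
          ∫ x, ζ x * ⟪β x • T x (b j) + ⟪P x, b j⟫ • β' x, T x (b j)⟫ := by
      rw [← integral_add i1 i2]
      refine integral_congr_ae ?_
      filter_upwards [gradient_mul_ae hζ (hB' j)] with x hx
      rw [hx, inner_add_right, real_inner_smul_right, real_inner_smul_right,
        real_inner_smul_left, real_inner_comm (T x (b j))]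
      ring
    rw [← e1, h1]
    congr 1
    refine integral_congr_ae (Eventually.of_forall fun x => ?_)
    simp only
    ring
  -- integrability for the sums
  have i1 : ∀ j : κ, Integrable fun x => ⟪(β x * ⟪P x, b j⟫) • T x (b j), ∇ ζ x⟫ :=
    fun j => ((hB j).smul_locInt (locInt_of_continuousAt (hTb j))).inner_grad hζ hs hoff
  have i2 : ∀ j : κ, Integrable fun x =>
      ζ x * ⟪β x • T x (b j) + ⟪P x, b j⟫ • β' x, T x (b j)⟫ := fun j => by
    have h := ((hB j).grad_inner_locInt (hB' j)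
      (locInt_of_continuousAt (hTb j))).mul_left hcont hs hoff
    simpa only [smul_eq_mul] using h
  have i3 : ∀ j : κ, Integrable fun x =>
      ζ x * (Gam x * ⟪P x, b j⟫ * (β x * ⟪P x, b j⟫)) := fun j => by
    have h0 : LocInt R fun x => Gam x * ⟪P x, b j⟫ := locInt_of_continuousAt fun x hx =>
      (hGam x hx).mul ((hPc x hx).inner continuousAt_const)
    have h := ((hB j).mul_locInt h0).mul_left hcont hs hoff
    simpa only [smul_eq_mul] using h
  have hsum : (∑ j, ∫ x, ⟪(β x * ⟪P x, b j⟫) • T x (b j), ∇ ζ x⟫) +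
      (∑ j, ∫ x, ζ x * ⟪β x • T x (b j) + ⟪P x, b j⟫ • β' x, T x (b j)⟫) =
      -∑ j, ∫ x, ζ x * (Gam x * ⟪P x, b j⟫ * (β x * ⟪P x, b j⟫)) := by
    rw [← Finset.sum_add_distrib, ← Finset.sum_neg_distrib]
    exact Finset.sum_congr rfl fun j _ => key j
  rw [← integral_finsetSum _ fun j _ => i1 j, ← integral_finsetSum _ fun j _ => i2 j,
    ← integral_finsetSum _ fun j _ => i3 j] at hsum
  have f1 : ∫ x, ∑ j, ⟪(β x * ⟪P x, b j⟫) • T x (b j), ∇ ζ x⟫ =
      ∫ x, ⟪β x • T x (P x), ∇ ζ x⟫ := by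
    refine integral_congr_ae ?_
    filter_upwards [hne] with x hx
    have h1 : ∀ j, ⟪(β x * ⟪P x, b j⟫) • T x (b j), ∇ ζ x⟫ =
        β x * (⟪P x, b j⟫ * ⟪T x (b j), ∇ ζ x⟫) := fun j => by
      rw [real_inner_smul_left]; ring
    simp_rw [h1]
    rw [← Finset.mul_sum, Ptw.sum_inner_map b (T x) (hsym x hx), real_inner_smul_left]
  have f2 : (∫ x, ∑ j, ζ x * ⟪β x • T x (b j) + ⟪P x, b j⟫ • β' x, T x (b j)⟫) +
      (∫ x, ∑ j, ζ x * (Gam x * ⟪P x, b j⟫ * (β x * ⟪P x, b j⟫))) =
      ∫ x, ζ x * (⟪β' x, T x (P x)⟫ + β x * ((∑ j, ‖T x (b j)‖ ^ 2) + Gam x * ‖P x‖ ^ 2)) := by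
    rw [← integral_add (integrable_finsetSum _ fun j _ => i2 j)
      (integrable_finsetSum _ fun j _ => i3 j)]
    refine integral_congr_ae ?_
    filter_upwards [hne] with x hx
    have h1 : ∀ j, ζ x * ⟪β x • T x (b j) + ⟪P x, b j⟫ • β' x, T x (b j)⟫ =
        ζ x * (β x * ‖T x (b j)‖ ^ 2 + ⟪P x, b j⟫ * ⟪T x (b j), β' x⟫) := fun j => by
      rw [inner_add_left, real_inner_smul_left, real_inner_smul_left,
        real_inner_self_eq_norm_sq, real_inner_comm (T x (b j)) (β' x)]
    have h2 : ∀ j, ζ x * (Gam x * ⟪P x, b j⟫ * (β x * ⟪P x, b j⟫)) =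
        ζ x * (Gam x * β x * (⟪P x, b j⟫ * ⟪P x, b j⟫)) := fun j => by ring
    simp_rw [h1, h2]
    rw [← Finset.mul_sum, ← Finset.mul_sum, Finset.sum_add_distrib, ← Finset.mul_sum,
      ← Finset.mul_sum, Ptw.sum_inner_map b (T x) (hsym x hx), Ptw.sum_inner_sq,
      real_inner_self_eq_norm_sq, real_inner_comm (β' x)]
    ring
  rw [f1] at hsum
  rw [← f2]
  linarith

end Pool.Agent.TF.Flux
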