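import Mathlib
import Pool.Agent.Lib.MP_9cf0c9_mp.Tr.Boch23
import Pool.Agent.Lib.MP_9cf0c9_mp.Tr.Calib
/-! The weak Bochner identity for the radius field: `BochOK` from the weak equation of the second
derivatives. -/

set_option linter.unusedSectionVars false

set_option linter.unusedVariables false

namespace Pool.Agent.TF.Grd

open MeasureTheory Set Metric Filter Topology

open scoped ENNReal NNReal RealInnerProductSpace Gradient

variable {ι : Type*} [Fintype ι]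

theorem boch_ok {z : ι → ℝ} {R : ι → X} {φ₀ q G₁ ε : ℝ} {ρ : X → ℝ} {H : X → X →L[ℝ] X}
    {s s₁ s₂ e : ℝ → ℝ → ℝ} (hz : ∀ i, 0 ≤ z i) (hφ : 0 < φ₀) (hρ : TC ρ)
    (heq : ∀ x, ρ x = tf (Vpt z R x - pot ρ x - φ₀)) (h : HessSol z R ρ H) (hε : 0 < ε)
    (hr : RadFn q G₁ s s₁ s₂ e)
    (hw : ∀ (a : X) (η : X → ℝ) (C : ℝ≥0), LipschitzWith C η → HasCompactSupport η →
      (∀ i, R i ∉ tsupport η) →
      ∫ x, ⟪H x a, ∇ η x⟫ =
        -∫ x, 4 * Real.pi * gam (psi φ₀ z R ρ x) * ⟪psi' z R ρ x, a⟫ * η x) :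
    ∀ ζ, Flux.TestFn R ζ →
      ∫ x, ⟪(Sf ε φ₀ s z R ρ x ^ 2) • H x (psi' z R ρ x), ∇ ζ x⟫ =
        -∫ x, ζ x * (Sf ε φ₀ s z R ρ x ^ 2 * hs (H x) +
          ⟪(2 * Sf ε φ₀ s z R ρ x) • Sf' ε φ₀ s₁ s₂ z R ρ H x, H x (psi' z R ρ x)⟫ +
          4 * Real.pi * gam (psi φ₀ z R ρ x) * Sf ε φ₀ s z R ρ x ^ 2 *
            ‖psi' z R ρ x‖ ^ 2) := by
  intro ζ hζ
  obtain ⟨C, hC⟩ := hζ.lip
  have h1 := Flux.boch (R := R) (P := psi' z R ρ) (T := H)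
    (Gam := fun x => 4 * Real.pi * gam (psi φ₀ z R ρ x))
    (β := fun y => Sf ε φ₀ s z R ρ y ^ 2)
    (β' := fun x => (2 * Sf ε φ₀ s z R ρ x) • Sf' ε φ₀ s₁ s₂ z R ρ H x)
    (stdOrthonormalBasis ℝ X) h.deriv (fun x hx => h.contAt hx) h.symm
    (fun x hx => continuousAt_const.mul
      (gam_continuous.continuousAt.comp (psi_cont hz hφ hρ heq hx)))
    (fun j η C' h1 h2 h3 => hw _ η C' h1 h2 h3)
    (Sq_lip hz hφ hρ heq h hε hr)
    (by
      filter_upwards [off_ae R] with x hx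
      exact Sq_grad hz hφ hρ heq h hε hr hx) hC hζ.supp hζ.notMem
  rw [h1]
  congr 1
  refine integral_congr_ae (Eventually.of_forall fun x => ?_)
  simp only [Grd.hs]
  ring

end Pool.Agent.TF.Grd
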