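import Mathlib
import Pool.Agent.Lib.MP_9cf0c9_mp.Tr.Calib
/-! Two nuclei: the weak divergence of the current of the transverse form. -/

set_option autoImplicit false

set_option linter.unusedSectionVars false

set_option linter.unusedVariables false

set_option linter.unusedSimpArgs false

namespace Pool.Agent.TF.Grd
end Pool.Agent.TF.Grd

namespace Pool.Agent.TF.Col

open MeasureTheory Set Metric Filter Topology

open scoped ENNReal NNReal RealInnerProductSpace Gradient

open Pool.Agent.TF.Grd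

variable {ι : Type*} [Fintype ι]

variable {φ₀ : ℝ} {z : ι → ℝ} {R : ι → X} {ρ : X → ℝ} {H : X → X →L[ℝ] X} {lo hi : ℝ}

/-- the calibrated density (times `4π`) of a trial `Y` -/
noncomputable def Fd (φ₀ : ℝ) (z : ι → ℝ) (R : ι → X) (ρ : X → ℝ) (Y : X → ℝ) (Y' : X → X)
    (x : X) : ℝ :=
  4 * (4 * Real.pi * ρ x) * Y x - 4 * Real.pi * gam (psi φ₀ z R ρ x) * Y x ^ 2 +
    ‖psi' z R ρ x‖ ^ 2 - ‖Y' x‖ ^ 2

end Pool.Agent.TF.Col
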