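import Mathlib
import Pool.Agent.Lib.MP_9cf0c9_mp.Tr.ColW
/-! The calibration criterion for weak trial functions, collinear nuclei: fields which are
continuous off the axis with a continuous weak divergence there, and `O(ht^(-1/2))` near the
axis. -/

set_option autoImplicit false

set_option linter.unusedSectionVars false

set_option linter.unusedVariables false

set_option linter.style.haveILetI false

namespace Pool.Agent.TF.Grd
end Pool.Agent.TF.Grd

namespace Pool.Agent.TF.Col

open MeasureTheory Set Metric Filter Topology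

open scoped ENNReal NNReal RealInnerProductSpace Gradient

open Pool.Agent.TF.Grd

/-! ### the axis is a null set, the inverse of the distance is locally integrable -/

theorem ax_null : volume ax = 0 := by
  have h1 : volume ((fun p : ℝ × E2 => mk p.1 p.2) ⁻¹' ax) = volume ax :=
    mk_measurePreserving.measure_preimage isClosed_ax.measurableSet.nullMeasurableSet
  rw [← h1]
  have h2 : (fun p : ℝ × E2 => mk p.1 p.2) ⁻¹' ax = univ ×ˢ {(0 : E2)} := by
    ext p
    simp [ax]
  rw [h2, Measure.volume_eq_prod, Measure.prod_prod]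
  simp

theorem ae_off_ax : ∀ᵐ x : X, x ∉ ax := measure_eq_zero_iff_ae_notMem.mp ax_null

theorem inv_ht_integrableOn (r : ℝ) : IntegrableOn (fun x : X => (ht x)⁻¹) (ball 0 r) := by
  have h2 : Integrable ((ball (0 : E2) r).indicator fun y : E2 => ‖y‖⁻¹) := by
    have h3 : (ball (0 : E2) r).indicator (fun y : E2 => ‖y‖⁻¹) =
        fun y : E2 => (Iio r).indicator (fun s : ℝ => s⁻¹) ‖y‖ := by
      funext y
      by_cases hy : ‖y‖ < r
      · rw [indicator_of_mem (by simpa using hy), indicator_of_mem (by simpa using hy)]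
      · rw [indicator_of_notMem (by simpa using hy), indicator_of_notMem (by simpa using hy)]
    rw [h3, integrable_fun_norm_addHaar (μ := (volume : Measure E2))
      (f := fun s : ℝ => (Iio r).indicator (fun s : ℝ => s⁻¹) s)]
    have h4 : Module.finrank ℝ E2 = 2 := by simp
    rw [h4]
    have h5 : IntegrableOn (fun _ : ℝ => (1 : ℝ)) (Ioi 0 ∩ Iio r) := by
      rw [Ioi_inter_Iio]
      exact integrableOn_const (by rw [Real.volume_Ioo]; exact ENNReal.ofReal_ne_top)
    have h6 : IntegrableOn ((Iio r).indicator fun _ : ℝ => (1 : ℝ)) (Ioi 0) := by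
      rw [IntegrableOn, integrable_indicator_iff measurableSet_Iio, IntegrableOn,
        Measure.restrict_restrict measurableSet_Iio, inter_comm]
      exact h5
    refine h6.congr_fun (fun s hs => ?_) measurableSet_Ioi
    have hs0 : s ≠ 0 := (ne_of_gt hs)
    simp only [Nat.add_one_sub_one, pow_one, smul_eq_mul]
    by_cases h : s < r
    · rw [indicator_of_mem (show s ∈ Iio r from h), indicator_of_mem (show s ∈ Iio r from h)]
      field_simp
    · rw [indicator_of_notMem (show s ∉ Iio r from h), indicator_of_notMem (show s ∉ Iio r from h),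
        mul_zero]
  have h1 : Integrable ((ball (0 : ℝ) r).indicator fun _ : ℝ => (1 : ℝ)) :=
    (integrable_indicator_iff measurableSet_ball).mpr (integrableOn_const measure_ball_lt_top.ne)
  have h3 := h1.mul_prod h2
  rw [← Measure.volume_eq_prod] at h3
  have h4 : Integrable fun x : X => (ball (0 : ℝ) r).indicator (fun _ : ℝ => (1 : ℝ)) x.fst *
      (ball (0 : E2) r).indicator (fun y : E2 => ‖y‖⁻¹) x.snd := by
    rw [← mk_measurePreserving.integrable_comp_emb mk_embedding]
    exact h3
  refine (h4.integrableOn (s := ball (0 : X) r)).mono' ?_ ?_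
  · exact ht_continuous.measurable.inv.aestronglyMeasurable
  · refine (ae_restrict_iff' measurableSet_ball).2 (Eventually.of_forall fun x hx => ?_)
    rw [mem_ball_zero_iff] at hx
    have h5 : ‖x‖ ^ 2 = x.fst ^ 2 + ‖x.snd‖ ^ 2 := by
      rw [← mk_eta x, norm_mk_sq]
      simp
    have h6 : |x.fst| ≤ ‖x‖ := abs_le_of_sq_le_sq (by nlinarith [sq_nonneg ‖x.snd‖]) (norm_nonneg _)
    have h7 : ‖x.snd‖ ≤ ‖x‖ := by
      have := abs_le_of_sq_le_sq (a := ‖x.snd‖) (b := ‖x‖) (by nlinarith [sq_nonneg x.fst])
        (norm_nonneg _)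
      rwa [abs_of_nonneg (norm_nonneg _)] at this
    rw [indicator_of_mem (show x.fst ∈ ball (0 : ℝ) r by
        rw [mem_ball_zero_iff, Real.norm_eq_abs]; exact h6.trans_lt hx),
      indicator_of_mem (show x.snd ∈ ball (0 : E2) r by
        rw [mem_ball_zero_iff]; exact h7.trans_lt hx), one_mul]
    unfold ht
    rw [Real.norm_of_nonneg (by positivity)]

theorem off_ax_meas {E : Type*} [NormedAddCommGroup E] [SecondCountableTopology E]
    [MeasurableSpace E] [BorelSpace E] {A : X → E} (h : ContinuousOn A axᶜ) :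
    AEStronglyMeasurable A volume := by
  have h1 : AEStronglyMeasurable A (volume.restrict axᶜ) :=
    h.aestronglyMeasurable isOpen_off_ax.measurableSet
  have h2 : (volume : Measure X).restrict axᶜ = volume :=
    Measure.restrict_eq_self_of_ae_mem ae_off_ax
  rwa [h2] at h1

/-- fields with a moderate singularity at the axis are locally square integrable -/
theorem locInt_sq {ι : Type*} [Fintype ι] {R : ι → X} {A : X → X} (h : ContinuousOn A axᶜ)
    (hax : ∀ x₀ ∈ ax, (∀ i, x₀ ≠ R i) → ∃ C δ : ℝ, 0 < δ ∧ ∀ x ∈ ball x₀ δ, x ∉ ax →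
      ‖A x‖ ^ 2 ≤ C * (ht x)⁻¹) : Flux.LocInt R fun x => ‖A x‖ ^ 2 := by
  intro K hK hR
  have hm : AEStronglyMeasurable (fun x => ‖A x‖ ^ 2) volume := (off_ax_meas h).norm.pow 2
  refine hK.induction_on (p := fun s => IntegrableOn (fun x => ‖A x‖ ^ 2) s) integrableOn_empty
    (fun s t hst ht => ht.mono_set hst) (fun s t hs ht => hs.union ht) fun x₀ hx₀ => ?_
  by_cases hx : x₀ ∈ ax
  · obtain ⟨C, δ, hδ, hb⟩ := hax x₀ hx fun i hi => hR i (hi ▸ hx₀)
    refine ⟨ball x₀ δ, mem_nhdsWithin_of_mem_nhds (ball_mem_nhds _ hδ), ?_⟩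
    have h1 : IntegrableOn (fun x : X => C * (ht x)⁻¹) (ball x₀ δ) := by
      refine ((inv_ht_integrableOn (‖x₀‖ + δ)).mono_set fun x hx => ?_).const_mul C
      rw [mem_ball_zero_iff]
      rw [mem_ball, dist_eq_norm] at hx
      have := norm_add_le (x - x₀) x₀
      rw [sub_add_cancel] at this
      linarith
    refine h1.mono' hm.restrict ((ae_restrict_iff' measurableSet_ball).2 ?_)
    filter_upwards [ae_off_ax] with x hxa hxb
    rw [Real.norm_of_nonneg (by positivity)]
    exact hb x hxb hxa
  · obtain ⟨δ, hδ, hb⟩ := Metric.isOpen_iff.mp isOpen_off_ax x₀ hx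
    have hsub : closedBall x₀ (δ / 2) ⊆ axᶜ := fun y hy => hb (by
      rw [mem_ball]; rw [mem_closedBall] at hy; linarith)
    refine ⟨closedBall x₀ (δ / 2), mem_nhdsWithin_of_mem_nhds (closedBall_mem_nhds _ (by
      positivity)), ?_⟩
    have hc : ContinuousOn (fun x => ‖A x‖ ^ 2) (closedBall x₀ (δ / 2)) :=
      ((h.mono hsub).norm).pow 2
    exact hc.integrableOn_compact (isCompact_closedBall _ _)

end Pool.Agent.TF.Col
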