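import Mathlib
import Pool.Agent.Lib.MP_9cf0c9_mp.Tr.WeakB
/-! Thin closed sets (tubes of radius `t` have volume `O(t ^ 2)` on bounded sets, such as lines in
dimension three), cut-offs with small Dirichlet integral, and the approximation of functions
which are locally Lipschitz off a thin set and have a square integrable gradient. -/

set_option linter.unusedSectionVars false

set_option linter.unusedVariables false

set_option linter.style.haveILetI false

namespace Pool.Agent.TF

open MeasureTheory Set Metric Filter Topology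

open scoped ENNReal NNReal RealInnerProductSpace Gradient

variable {V : Type*} [NormedAddCommGroup V] [InnerProductSpace ℝ V] [FiniteDimensional ℝ V]
  [MeasurableSpace V] [BorelSpace V]

/-- closed sets whose tubes of radius `t` have volume `O(t ^ 2)` on bounded sets -/
structure Thin (S : Set V) : Prop where
  closed : IsClosed S
  ne : S.Nonempty
  vol : ∀ r : ℝ, ∃ C : ℝ, 0 ≤ C ∧ ∀ t : ℝ, 0 < t → t ≤ 1 →
    volume.real ({x : V | infDist x S ≤ t} ∩ ball 0 r) ≤ C * t ^ 2

theorem Thin.null {S : Set V} (h : Thin S) : volume S = 0 := by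
  have h1 : ∀ n : ℕ, volume (S ∩ ball (0 : V) n) = 0 := by
    intro n
    obtain ⟨C, hC0, hC⟩ := h.vol n
    have hfin : volume (S ∩ ball (0 : V) n) ≠ ∞ :=
      ((measure_mono inter_subset_right).trans_lt measure_ball_lt_top).ne
    rw [← measureReal_eq_zero_iff hfin]
    refine le_antisymm ?_ measureReal_nonneg
    have h2 : ∀ m : ℕ, volume.real (S ∩ ball (0 : V) n) ≤ C * (1 / ((m : ℝ) + 1)) ^ 2 := by
      intro m
      have h3 : 1 / ((m : ℝ) + 1) ≤ 1 := by
        rw [div_le_one (by positivity)]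
        linarith [Nat.cast_nonneg (α := ℝ) m]
      refine le_trans ?_ (hC _ (by positivity) h3)
      refine measureReal_mono (inter_subset_inter_left _ fun x hx => ?_)
        ((measure_mono inter_subset_right).trans_lt measure_ball_lt_top).ne
      change infDist x S ≤ _
      rw [infDist_zero_of_mem hx]
      positivity
    have h4 : Tendsto (fun m : ℕ => C * (1 / ((m : ℝ) + 1)) ^ 2) atTop (𝓝 (C * 0 ^ 2)) :=
      (tendsto_one_div_add_atTop_nhds_zero_nat.pow 2).const_mul C
    rw [zero_pow two_ne_zero, mul_zero] at h4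
    exact ge_of_tendsto' h4 h2
  refine measure_mono_null (fun x hx => ?_) (measure_iUnion_null h1)
  obtain ⟨n, hn⟩ := exists_nat_gt ‖x‖
  exact mem_iUnion.mpr ⟨n, hx, by rwa [mem_ball_zero_iff]⟩

theorem Thin.ae_notMem {S : Set V} (h : Thin S) : ∀ᵐ x : V, x ∉ S := by
  rw [ae_iff]
  simpa using h.null

/-! ### cut-offs -/

section dim3

variable [hd : Fact (Module.finrank ℝ V = 3)]

/-- averages of linear cut-offs at the scales `4 ^ (-j)`, `m + 1 ≤ j ≤ 2 * m + 1` -/
noncomputable def lcut (S : Set V) (m : ℕ) (x : V) : ℝ :=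
  ((m : ℝ) + 1)⁻¹ * ∑ j ∈ Finset.range (m + 1), cut S ((4 : ℝ)⁻¹ ^ (m + 1 + j)) x

theorem lcut_nonneg (S : Set V) (m : ℕ) (x : V) : 0 ≤ lcut S m x :=
  mul_nonneg (by positivity) (Finset.sum_nonneg fun j _ => cut_nonneg _ _ _)

theorem lcut_le_one (S : Set V) (m : ℕ) (x : V) : lcut S m x ≤ 1 := by
  unfold lcut
  have h1 : ∑ j ∈ Finset.range (m + 1), cut S ((4 : ℝ)⁻¹ ^ (m + 1 + j)) x ≤
      ∑ j ∈ Finset.range (m + 1), (1 : ℝ) := Finset.sum_le_sum fun j _ => cut_le_one _ _ _
  rw [Finset.sum_const, Finset.card_range, nsmul_eq_mul, mul_one] at h1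
  push_cast at h1
  rw [inv_mul_le_iff₀ (by positivity), mul_one]
  exact h1

theorem lcut_eq_zero {S : Set V} {m : ℕ} {x : V} (h : infDist x S ≤ (4 : ℝ)⁻¹ ^ (2 * m + 1)) :
    lcut S m x = 0 := by
  unfold lcut
  rw [Finset.sum_eq_zero, mul_zero]
  intro j hj
  refine cut_eq_zero (by positivity) (h.trans ?_)
  refine pow_le_pow_of_le_one (by norm_num) (by norm_num) ?_
  have := Finset.mem_range.mp hj
  omega

theorem lcut_eq_one {S : Set V} {m : ℕ} {x : V} (h : 2 * (4 : ℝ)⁻¹ ^ (m + 1) ≤ infDist x S) :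
    lcut S m x = 1 := by
  unfold lcut
  have h1 : ∀ j ∈ Finset.range (m + 1), cut S ((4 : ℝ)⁻¹ ^ (m + 1 + j)) x = 1 := by
    intro j hj
    refine cut_eq_one (by positivity) (le_trans ?_ h)
    have : (4 : ℝ)⁻¹ ^ (m + 1 + j) ≤ (4 : ℝ)⁻¹ ^ (m + 1) :=
      pow_le_pow_of_le_one (by norm_num) (by norm_num) (by omega)
    linarith
  rw [Finset.sum_congr rfl h1, Finset.sum_const, Finset.card_range, nsmul_eq_mul, mul_one]
  push_cast
  field_simp

theorem lcut_lip (S : Set V) (m : ℕ) : ∃ C : ℝ≥0, LipschitzWith C (lcut S m) := by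
  have h1 : ∀ s : Finset ℕ, ∃ C : ℝ≥0,
      LipschitzWith C fun x : V => ∑ j ∈ s, cut S ((4 : ℝ)⁻¹ ^ (m + 1 + j)) x := by
    intro s
    induction s using Finset.induction_on with
    | empty => exact ⟨0, by simp⟩
    | insert a s ha ih =>
      obtain ⟨C, hC⟩ := ih
      have h2 := (cut_lip S (by positivity : 0 < (4 : ℝ)⁻¹ ^ (m + 1 + a))).add hC
      simp only [Finset.sum_insert ha]
      exact ⟨_, h2⟩
  obtain ⟨C, hC⟩ := h1 (Finset.range (m + 1))
  refine ⟨‖((m : ℝ) + 1)⁻¹‖₊ * C, LipschitzWith.of_dist_le_mul fun x y => ?_⟩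
  have h2 := hC.dist_le_mul x y
  unfold lcut
  rw [dist_eq_norm, ← mul_sub, norm_mul, NNReal.coe_mul, coe_nnnorm, mul_assoc]
  refine mul_le_mul_of_nonneg_left ?_ (norm_nonneg _)
  rwa [← dist_eq_norm]

theorem lcut_cont (S : Set V) (m : ℕ) : Continuous (lcut S m) := by
  obtain ⟨C, hC⟩ := lcut_lip S m
  exact hC.continuous

theorem cut_gradient_zero {S : Set V} {ε : ℝ} (hε : 0 < ε) {x : V}
    (h : infDist x S < ε ∨ 2 * ε < infDist x S) : ∇ (cut S ε) x = 0 := by
  have hc : Continuous fun y : V => infDist y S := continuous_infDist_pt S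
  rcases h with h | h
  · have h1 : cut S ε =ᶠ[𝓝 x] fun _ => 0 := by
      filter_upwards [hc.continuousAt.eventually (gt_mem_nhds h)] with y hy
      exact cut_eq_zero hε hy.le
    rw [h1.gradient_eq]
    simp [gradient]
  · have h1 : cut S ε =ᶠ[𝓝 x] fun _ => 1 := by
      filter_upwards [hc.continuousAt.eventually (lt_mem_nhds h)] with y hy
      exact cut_eq_one hε hy.le
    rw [h1.gradient_eq]
    simp [gradient]

theorem norm_sum_sq_of_disj {κ : Type*} [DecidableEq κ] (s : Finset κ) (g : κ → V)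
    (h : ∀ i ∈ s, ∀ j ∈ s, i ≠ j → g i = 0 ∨ g j = 0) :
    ‖∑ i ∈ s, g i‖ ^ 2 = ∑ i ∈ s, ‖g i‖ ^ 2 := by
  rw [← real_inner_self_eq_norm_sq, sum_inner]
  refine Finset.sum_congr rfl fun i hi => ?_
  rw [inner_sum, Finset.sum_eq_single i, real_inner_self_eq_norm_sq]
  · intro j hj hji
    rcases h i hi j hj hji.symm with h1 | h1
    · rw [h1, inner_zero_left]
    · rw [h1, inner_zero_right]
  · intro h1
    exact absurd hi h1

theorem lcut_gradient (S : Set V) (m : ℕ) : ∀ᵐ x : V, ‖∇ (lcut S m) x‖ ^ 2 =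
    ((m : ℝ) + 1)⁻¹ ^ 2 *
      ∑ j ∈ Finset.range (m + 1), ‖∇ (cut S ((4 : ℝ)⁻¹ ^ (m + 1 + j))) x‖ ^ 2 := by
  have h1 : ∀ᵐ x : V, ∀ j : ℕ, DifferentiableAt ℝ (cut S ((4 : ℝ)⁻¹ ^ (m + 1 + j))) x := by
    rw [ae_all_iff]
    intro j
    exact (cut_lip S (by positivity)).ae_differentiableAt
  filter_upwards [h1] with x hx
  have h2 : HasGradientAt (lcut S m) (((m : ℝ) + 1)⁻¹ •
      ∑ j ∈ Finset.range (m + 1), ∇ (cut S ((4 : ℝ)⁻¹ ^ (m + 1 + j))) x) x := by
    rw [hasGradientAt_iff_hasFDerivAt]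
    have h3 : HasFDerivAt (fun y : V => ((m : ℝ) + 1)⁻¹ *
        ∑ j ∈ Finset.range (m + 1), cut S ((4 : ℝ)⁻¹ ^ (m + 1 + j)) y)
        (((m : ℝ) + 1)⁻¹ • ∑ j ∈ Finset.range (m + 1),
          fderiv ℝ (cut S ((4 : ℝ)⁻¹ ^ (m + 1 + j))) x) x :=
      (HasFDerivAt.fun_sum fun j _ => (hx j).hasFDerivAt).const_mul _
    refine h3.congr_fderiv ?_
    rw [map_smul, map_sum]
    congr 1
    refine Finset.sum_congr rfl fun j _ => ?_
    unfold gradient
    rw [LinearIsometryEquiv.apply_symm_apply]
  rw [h2.gradient, norm_smul, mul_pow, Real.norm_of_nonneg (by positivity)]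
  congr 1
  refine norm_sum_sq_of_disj _ _ fun i hi j hj hij => ?_
  -- the shells are disjoint
  have key : ∀ i j : ℕ, i < j → ∇ (cut S ((4 : ℝ)⁻¹ ^ (m + 1 + i))) x = 0 ∨
      ∇ (cut S ((4 : ℝ)⁻¹ ^ (m + 1 + j))) x = 0 := by
    intro i j hij
    have h4 : 2 * (4 : ℝ)⁻¹ ^ (m + 1 + j) < (4 : ℝ)⁻¹ ^ (m + 1 + i) := by
      have h5 : (4 : ℝ)⁻¹ ^ (m + 1 + j) ≤ (4 : ℝ)⁻¹ ^ (m + 1 + i + 1) :=
        pow_le_pow_of_le_one (by norm_num) (by norm_num) (by omega)
      have h6 : (0 : ℝ) < (4 : ℝ)⁻¹ ^ (m + 1 + i) := by positivity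
      rw [pow_succ] at h5
      linarith
    rcases lt_or_ge (infDist x S) ((4 : ℝ)⁻¹ ^ (m + 1 + i)) with h7 | h7
    · exact Or.inl (cut_gradient_zero (by positivity) (Or.inl h7))
    · exact Or.inr (cut_gradient_zero (by positivity) (Or.inr (h4.trans_le h7)))
  rcases lt_or_gt_of_ne hij with h | h
  · exact key i j h
  · exact (key j i h).symm

/-- the Dirichlet integral of the cut-offs on bounded sets tends to zero -/
theorem Thin.lcut_energy {S : Set V} (hS : Thin S) (r : ℝ) : ∃ C : ℝ, 0 ≤ C ∧ ∀ m : ℕ,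
    ∫ x in ball (0 : V) r, ‖∇ (lcut S m) x‖ ^ 2 ≤ C / ((m : ℝ) + 1) := by
  obtain ⟨C, hC0, hC⟩ := hS.vol r
  refine ⟨4 * C, by positivity, fun m => ?_⟩
  have hfin : ∀ A : Set V, volume (A ∩ ball (0 : V) r) ≠ ∞ := fun A =>
    ((measure_mono inter_subset_right).trans_lt measure_ball_lt_top).ne
  have hcI : Continuous fun y : V => infDist y S := continuous_infDist_pt S
  have h1 : ∀ j ∈ Finset.range (m + 1),
      IntegrableOn (fun x => ‖∇ (cut S ((4 : ℝ)⁻¹ ^ (m + 1 + j))) x‖ ^ 2) (ball (0 : V) r) ∧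
      ∫ x in ball (0 : V) r, ‖∇ (cut S ((4 : ℝ)⁻¹ ^ (m + 1 + j))) x‖ ^ 2 ≤ 4 * C := by
    intro j _
    set ε : ℝ := (4 : ℝ)⁻¹ ^ (m + 1 + j) with hε
    have hε0 : 0 < ε := by positivity
    have hε1 : 2 * ε ≤ 1 := by
      have h2 : ε ≤ (4 : ℝ)⁻¹ ^ 1 := pow_le_pow_of_le_one (by norm_num) (by norm_num) (by omega)
      rw [pow_one] at h2
      linarith
    have hT : MeasurableSet {x : V | infDist x S ≤ 2 * ε} :=
      measurableSet_le hcI.measurable measurable_const
    have hb : ∀ x : V, ‖∇ (cut S ε) x‖ ^ 2 ≤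
        {x : V | infDist x S ≤ 2 * ε}.indicator (fun _ => (ε⁻¹) ^ 2) x := by
      intro x
      by_cases hx : x ∈ {x : V | infDist x S ≤ 2 * ε}
      · rw [indicator_of_mem hx]
        have := gradient_bound (cut_lip S hε0) x
        rw [Real.coe_toNNReal _ (by positivity)] at this
        exact pow_le_pow_left₀ (norm_nonneg _) this 2
      · rw [indicator_of_notMem hx, cut_gradient_zero hε0 (Or.inr (not_le.mp hx))]
        simp
    have hi : IntegrableOn ({x : V | infDist x S ≤ 2 * ε}.indicator (fun _ => (ε⁻¹) ^ 2))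
        (ball (0 : V) r) := by
      rw [IntegrableOn, integrable_indicator_iff hT]
      exact integrableOn_const (by rw [Measure.restrict_apply hT]; exact hfin _)
    refine ⟨hi.mono' ((measurable_gradient _).norm.pow_const 2).aestronglyMeasurable
      (Eventually.of_forall fun x => ?_), ?_⟩
    · rw [Real.norm_of_nonneg (by positivity)]
      exact hb x
    · refine (integral_mono_of_nonneg (Eventually.of_forall fun x => by positivity) hi
        (Eventually.of_forall hb)).trans ?_
      rw [integral_indicator hT, Measure.restrict_restrict hT, setIntegral_const, smul_eq_mul]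
      have h2 := hC (2 * ε) (by positivity) hε1
      calc volume.real ({x : V | infDist x S ≤ 2 * ε} ∩ ball 0 r) * (ε⁻¹) ^ 2
          ≤ (C * (2 * ε) ^ 2) * (ε⁻¹) ^ 2 := mul_le_mul_of_nonneg_right h2 (by positivity)
        _ = 4 * C := by field_simp; norm_num
  have h2 : ∫ x in ball (0 : V) r, ‖∇ (lcut S m) x‖ ^ 2 =
      ∫ x in ball (0 : V) r, ((m : ℝ) + 1)⁻¹ ^ 2 *
      ∑ j ∈ Finset.range (m + 1), ‖∇ (cut S ((4 : ℝ)⁻¹ ^ (m + 1 + j))) x‖ ^ 2 :=
    integral_congr_ae (ae_restrict_of_ae (lcut_gradient S m))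
  rw [h2, integral_const_mul, integral_finsetSum _ fun j hj => (h1 j hj).1]
  have h3 := Finset.sum_le_sum fun j hj => (h1 j hj).2
  rw [Finset.sum_const, Finset.card_range, nsmul_eq_mul] at h3
  push_cast at h3
  refine (mul_le_mul_of_nonneg_left h3 (by positivity)).trans (le_of_eq ?_)
  field_simp

theorem Thin.lcut_tendsto {S : Set V} (hS : Thin S) {x : V} (hx : x ∉ S) :
    ∀ᶠ m in atTop, lcut S m x = 1 := by
  have hpos : 0 < infDist x S := (hS.closed.notMem_iff_infDist_pos hS.ne).mp hx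
  have h1 : Tendsto (fun m : ℕ => 2 * (4 : ℝ)⁻¹ ^ (m + 1)) atTop (𝓝 (2 * 0)) :=
    ((tendsto_pow_atTop_nhds_zero_of_lt_one (by norm_num) (by norm_num)).comp
      (tendsto_add_atTop_nat 1)).const_mul 2
  rw [mul_zero] at h1
  filter_upwards [h1.eventually (gt_mem_nhds hpos)] with m hm
  exact lcut_eq_one hm.le

/-! ### soft truncation with gradients -/

theorem soft_grad {d : ℝ} (hd : 0 ≤ d) {k : V → ℝ} {g x : V} (hk : HasGradientAt k g x)
    (h0 : |k x| = d → g = 0) :
    HasGradientAt (fun y => soft d (k y)) (if d < |k x| then g else 0) x := by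
  have hc : ContinuousAt k x := hk.differentiableAt.continuousAt
  rcases lt_trichotomy (|k x|) d with h | h | h
  · rw [if_neg (not_lt.mpr h.le)]
    refine (hasGradientAt_const x (0 : ℝ)).congr_of_eventuallyEq ?_
    filter_upwards [hc.abs.eventually (gt_mem_nhds h)] with y hy
    exact soft_eq_zero hy.le
  · rw [if_neg (not_lt.mpr h.le)]
    rw [h0 h, hasGradientAt_iff_hasFDerivAt, map_zero] at hk
    rw [hasGradientAt_iff_hasFDerivAt, map_zero]
    rw [hasFDerivAt_iff_isLittleO] at hk ⊢
    refine Asymptotics.IsBigO.trans_isLittleO (Asymptotics.IsBigO.of_bound 1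
      (Eventually.of_forall fun y => ?_)) hk
    simp only [zero_apply, sub_zero, one_mul, Real.norm_eq_abs]
    exact soft_lip hd _ _
  · rw [if_pos h]
    rcases lt_abs.mp h with h0 | h0
    · have h1 : (fun y => soft d (k y)) =ᶠ[𝓝 x] fun y => k y - d := by
        filter_upwards [hc.eventually (lt_mem_nhds h0)] with y hy
        unfold soft
        rw [min_eq_right hy.le, max_eq_right (by linarith)]
      refine HasGradientAt.congr_of_eventuallyEq ?_ h1
      rw [hasGradientAt_iff_hasFDerivAt] at hk ⊢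
      exact hk.sub_const d
    · have h1 : (fun y => soft d (k y)) =ᶠ[𝓝 x] fun y => k y + d := by
        have h2 : ∀ᶠ y in 𝓝 x, k y < -d := hc.eventually (gt_mem_nhds (by linarith))
        filter_upwards [h2] with y hy
        unfold soft
        rw [min_eq_left (by linarith), max_eq_left (by linarith)]
        ring
      refine HasGradientAt.congr_of_eventuallyEq ?_ h1
      rw [hasGradientAt_iff_hasFDerivAt] at hk ⊢
      exact hk.add_const d

/-- **approximation**: a continuous function vanishing at infinity, locally Lipschitz off a thin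
set, with square integrable gradient is the limit, with its gradient in `L²`, of Lipschitz
functions of compact support which vanish near the thin set -/
theorem Thin.exists_approx {S : Set V} (hS : Thin S) {k : V → ℝ} {k' : V → V}
    (hk : TrialK S k k') : ∃ u : ℕ → V → ℝ,
      (∀ n, (∃ C, LipschitzWith C (u n)) ∧ HasCompactSupport (u n)) ∧
      (∀ n, ∃ δ : ℝ, 0 < δ ∧ ∀ x, infDist x S ≤ δ → u n x = 0) ∧
      (∀ n x, |u n x| ≤ |k x|) ∧
      (∀ x, x ∉ S → Tendsto (fun n => u n x) atTop (𝓝 (k x))) ∧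
      (∀ n, Integrable fun x => ‖∇ (u n) x - k' x‖ ^ 2) ∧
      Tendsto (fun n => ∫ x, ‖∇ (u n) x - k' x‖ ^ 2) atTop (𝓝 0) := by
  obtain ⟨B, hB⟩ := hk.bdd
  have hB0 : 0 ≤ B := (abs_nonneg _).trans (hB 0)
  set d : ℕ → ℝ := fun n => 1 / ((n : ℝ) + 1) with hd'
  have hd0 : ∀ n, 0 < d n := fun n => by positivity
  have hdl : Tendsto d atTop (𝓝 0) := tendsto_one_div_add_atTop_nhds_zero_nat
  choose r hr using fun n => hk.decay (d n) (hd0 n)
  choose C hC0 hC using fun n => hS.lcut_energy (r n)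
  have hm : ∀ n : ℕ, ∃ m : ℕ, n ≤ m ∧ C n / ((m : ℝ) + 1) ≤ d n := by
    intro n
    obtain ⟨m, hm⟩ := exists_nat_ge (C n / d n)
    refine ⟨max n m, le_max_left _ _, ?_⟩
    rw [div_le_iff₀ (by positivity), ← div_le_iff₀' (hd0 n)]
    have : (m : ℝ) ≤ ((max n m : ℕ) : ℝ) := by exact_mod_cast le_max_right n m
    linarith
  choose m hnm hm using hm
  set u : ℕ → V → ℝ := fun n x => lcut S (m n) x * soft (d n) (k x) with hu
  have hcI : Continuous fun y : V => infDist y S := continuous_infDist_pt S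
  have hmt : Tendsto m atTop atTop := tendsto_atTop_mono hnm tendsto_id
  have hsup : ∀ n x, max (r n) 1 ≤ ‖x‖ → u n x = 0 := by
    intro n x hx
    simp only [hu]
    rw [soft_eq_zero (hr n x ((le_max_left _ _).trans hx)).le, mul_zero]
  have hlip : ∀ n, (∃ C, LipschitzWith C (u n)) ∧ HasCompactSupport (u n) := by
    intro n
    refine lipschitz_of_compact (R := max (r n) 1) (fun x => ?_) (by positivity) (hsup n)
    by_cases hx : x ∈ S
    · have h1 : infDist x S = 0 := infDist_zero_of_mem hx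
      have h2 : u n =ᶠ[𝓝 x] fun _ => 0 := by
        have h3 : infDist x S < (4 : ℝ)⁻¹ ^ (2 * m n + 1) := by rw [h1]; positivity
        filter_upwards [hcI.continuousAt.eventually (gt_mem_nhds h3)] with y hy
        simp only [hu]
        rw [lcut_eq_zero hy.le, zero_mul]
      exact (LipAt.const 0 x).congr h2.symm
    · obtain ⟨D, hD⟩ := lcut_lip S (m n)
      exact (lipAt_of_lip hD x).mul ((hk.lip x hx).comp_lip (soft_lipschitz (hd0 n).le))
  have hule : ∀ n x, |u n x| ≤ |k x| := by
    intro n x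
    simp only [hu]
    rw [abs_mul, abs_of_nonneg (lcut_nonneg _ _ _)]
    calc lcut S (m n) x * |soft (d n) (k x)| ≤ 1 * |k x| :=
          mul_le_mul (lcut_le_one _ _ _) (soft_abs_le (hd0 n).le _) (abs_nonneg _) zero_le_one
      _ = _ := one_mul _
  have hst : ∀ x, Tendsto (fun n => soft (d n) (k x)) atTop (𝓝 (k x)) := by
    intro x
    rw [tendsto_iff_dist_tendsto_zero]
    refine squeeze_zero (fun n => dist_nonneg) (fun n => ?_) hdl
    rw [Real.dist_eq]
    exact soft_sub_le (hd0 n).le _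
  -- the gradients
  set g : ℕ → V → V := fun n x => if d n < |k x| then k' x else 0 with hg
  have hlev : ∀ᵐ x : V, (∀ n, |k x| = d n → k' x = 0) ∧ (k x = 0 → k' x = 0) := by
    have h1 : ∀ᵐ x : V, ∀ n, k x = d n → DifferentiableAt ℝ k x → ∇ k x = 0 :=
      ae_all_iff.mpr fun n => ae_level hk.cont.measurable (d n)
    have h2 : ∀ᵐ x : V, ∀ n, k x = -d n → DifferentiableAt ℝ k x → ∇ k x = 0 :=
      ae_all_iff.mpr fun n => ae_level hk.cont.measurable (-d n)
    filter_upwards [h1, h2, ae_level hk.cont.measurable 0, hk.grad] with x a1 a2 a3 a4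
    constructor
    · intro n hn
      rw [← a4.gradient]
      rcases (abs_eq (hd0 n).le).mp hn with h | h
      · exact a1 n h a4.differentiableAt
      · exact a2 n h a4.differentiableAt
    · intro h
      rw [← a4.gradient]
      exact a3 h a4.differentiableAt
  have hdc : ∀ᵐ x : V, ∀ n, DifferentiableAt ℝ (lcut S (m n)) x := by
    refine ae_all_iff.mpr fun n => ?_
    obtain ⟨D, hD⟩ := lcut_lip S (m n)
    exact hD.ae_differentiableAt
  have hgr : ∀ᵐ x : V, ∀ n, ∇ (u n) x =
      lcut S (m n) x • g n x + soft (d n) (k x) • ∇ (lcut S (m n)) x := by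
    filter_upwards [hk.grad, hlev, hdc] with x h1 h2 h3
    intro n
    have h4 := (soft_grad (hd0 n).le h1 (h2.1 n)).hasFDerivAt
    have h5 := (h3 n).hasFDerivAt.mul h4
    have h6 : HasGradientAt (u n)
        (lcut S (m n) x • g n x + soft (d n) (k x) • ∇ (lcut S (m n)) x) x := by
      rw [hasGradientAt_iff_hasFDerivAt, map_add, map_smul, map_smul]
      refine h5.congr_fderiv ?_
      unfold gradient
      rw [LinearIsometryEquiv.apply_symm_apply]
    exact h6.gradient
  have hgm : ∀ n, AEStronglyMeasurable (g n) volume := by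
    intro n
    have h1 : MeasurableSet {x : V | d n < |k x|} :=
      measurableSet_lt measurable_const hk.cont.abs.measurable
    have h2 : g n = {x : V | d n < |k x|}.indicator k' := by
      funext x
      simp only [hg]
      by_cases hx : d n < |k x|
      · rw [if_pos hx, indicator_of_mem (show x ∈ {x : V | d n < |k x|} from hx)]
      · rw [if_neg hx, indicator_of_notMem (show x ∉ {x : V | d n < |k x|} from hx)]
    rw [h2]
    exact hk.meas.indicator h1
  -- the first part
  have hF1 : Tendsto (fun n => ∫ x, ‖lcut S (m n) x • g n x - k' x‖ ^ 2) atTop (𝓝 0) := by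
    have h0 : ∫ x : V, (0 : ℝ) = 0 := integral_zero _ _
    rw [← h0]
    refine tendsto_integral_of_dominated_convergence (fun x => 4 * ‖k' x‖ ^ 2) (fun n => ?_)
      (hk.sq.const_mul 4) (fun n => Eventually.of_forall fun x => ?_) ?_
    · exact ((((lcut_cont S (m n)).aestronglyMeasurable.smul (hgm n)).sub hk.meas).norm.pow 2)
    · rw [Real.norm_of_nonneg (by positivity)]
      have h1 : ‖lcut S (m n) x • g n x‖ ≤ ‖k' x‖ := by
        rw [norm_smul, Real.norm_of_nonneg (lcut_nonneg _ _ _)]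
        have h2 : ‖g n x‖ ≤ ‖k' x‖ := by
          simp only [hg]
          split_ifs
          · exact le_rfl
          · rw [norm_zero]; exact norm_nonneg _
        calc lcut S (m n) x * ‖g n x‖ ≤ 1 * ‖k' x‖ :=
              mul_le_mul (lcut_le_one _ _ _) h2 (norm_nonneg _) zero_le_one
          _ = _ := one_mul _
      have h3 := (norm_sub_le (lcut S (m n) x • g n x) (k' x)).trans (add_le_add_left h1 _)
      calc ‖lcut S (m n) x • g n x - k' x‖ ^ 2 ≤ (‖k' x‖ + ‖k' x‖) ^ 2 :=
            pow_le_pow_left₀ (norm_nonneg _) h3 2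
        _ = _ := by ring
    · filter_upwards [hS.ae_notMem, hlev] with x hx hl
      refine tendsto_const_nhds.congr' ?_
      have h1 : ∀ᶠ n in atTop, lcut S (m n) x = 1 := hmt.eventually (hS.lcut_tendsto hx)
      by_cases h0 : k x = 0
      · have h2 := hl.2 h0
        filter_upwards [h1] with n hn
        simp only [hg, h2]
        simp
      · have h3 : ∀ᶠ n in atTop, d n < |k x| :=
          hdl.eventually (gt_mem_nhds (abs_pos.mpr h0))
        filter_upwards [h1, h3] with n hn hn3
        simp only [hg]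
        rw [if_pos hn3, hn, one_smul, sub_self, norm_zero]
        norm_num
  -- the second part
  have hF2 : ∀ n, Integrable (fun x => soft (d n) (k x) ^ 2 * ‖∇ (lcut S (m n)) x‖ ^ 2) ∧
      ∫ x, soft (d n) (k x) ^ 2 * ‖∇ (lcut S (m n)) x‖ ^ 2 ≤ B ^ 2 * d n := by
    intro n
    obtain ⟨D, hD⟩ := lcut_lip S (m n)
    have hle : ∀ x, soft (d n) (k x) ^ 2 * ‖∇ (lcut S (m n)) x‖ ^ 2 ≤
        (ball (0 : V) (r n)).indicator (fun x => B ^ 2 * ‖∇ (lcut S (m n)) x‖ ^ 2) x := by
      intro x
      by_cases hx : x ∈ ball (0 : V) (r n)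
      · rw [indicator_of_mem hx]
        refine mul_le_mul_of_nonneg_right ?_ (by positivity)
        rw [← sq_abs]
        exact pow_le_pow_left₀ (abs_nonneg _) ((soft_abs_le (hd0 n).le _).trans (hB x)) 2
      · rw [indicator_of_notMem hx]
        have hx' : r n ≤ ‖x‖ := by simpa using hx
        rw [soft_eq_zero (hr n x hx').le]
        simp
    have hI : IntegrableOn (fun x => B ^ 2 * ‖∇ (lcut S (m n)) x‖ ^ 2) (ball (0 : V) (r n)) := by
      refine Integrable.mono' (integrableOn_const (C := B ^ 2 * (D : ℝ) ^ 2)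
        measure_ball_lt_top.ne) (((measurable_gradient _).norm.pow_const 2).const_mul
        _).aestronglyMeasurable (Eventually.of_forall fun x => ?_)
      rw [Real.norm_of_nonneg (by positivity)]
      exact mul_le_mul_of_nonneg_left (pow_le_pow_left₀ (norm_nonneg _) (gradient_bound hD x) 2)
        (by positivity)
    have hI' : Integrable ((ball (0 : V) (r n)).indicator
        (fun x => B ^ 2 * ‖∇ (lcut S (m n)) x‖ ^ 2)) :=
      (integrable_indicator_iff measurableSet_ball).mpr hI
    have hsm : Measurable fun x => soft (d n) (k x) :=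
      ((soft_lipschitz (hd0 n).le).continuous.comp hk.cont).measurable
    refine ⟨hI'.mono' ((hsm.pow_const 2).mul
      ((measurable_gradient _).norm.pow_const 2)).aestronglyMeasurable
      (Eventually.of_forall fun x => ?_), ?_⟩
    · rw [Real.norm_of_nonneg (by positivity)]
      exact hle x
    · refine (integral_mono_of_nonneg (Eventually.of_forall fun x => by positivity) hI'
        (Eventually.of_forall hle)).trans ?_
      rw [integral_indicator measurableSet_ball, integral_const_mul]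
      exact mul_le_mul_of_nonneg_left ((hC n (m n)).trans (hm n)) (by positivity)
  have hF1i : ∀ n, Integrable fun x => ‖lcut S (m n) x • g n x - k' x‖ ^ 2 := by
    intro n
    refine (hk.sq.const_mul 4).mono' ((((lcut_cont S (m n)).aestronglyMeasurable.smul
      (hgm n)).sub hk.meas).norm.pow 2) (Eventually.of_forall fun x => ?_)
    rw [Real.norm_of_nonneg (by positivity)]
    have h1 : ‖lcut S (m n) x • g n x‖ ≤ ‖k' x‖ := by
      rw [norm_smul, Real.norm_of_nonneg (lcut_nonneg _ _ _)]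
      have h2 : ‖g n x‖ ≤ ‖k' x‖ := by
        simp only [hg]
        split_ifs
        · exact le_rfl
        · rw [norm_zero]; exact norm_nonneg _
      calc lcut S (m n) x * ‖g n x‖ ≤ 1 * ‖k' x‖ :=
            mul_le_mul (lcut_le_one _ _ _) h2 (norm_nonneg _) zero_le_one
        _ = _ := one_mul _
    have h3 := (norm_sub_le (lcut S (m n) x • g n x) (k' x)).trans (add_le_add_left h1 _)
    calc ‖lcut S (m n) x • g n x - k' x‖ ^ 2 ≤ (‖k' x‖ + ‖k' x‖) ^ 2 :=
          pow_le_pow_left₀ (norm_nonneg _) h3 2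
      _ = _ := by ring
  have hle : ∀ n, ∀ᵐ x : V, ‖∇ (u n) x - k' x‖ ^ 2 ≤ 2 * ‖lcut S (m n) x • g n x - k' x‖ ^ 2 +
      2 * (soft (d n) (k x) ^ 2 * ‖∇ (lcut S (m n)) x‖ ^ 2) := by
    intro n
    filter_upwards [hgr] with x hx
    rw [hx n]
    set p := lcut S (m n) x • g n x - k' x with hp
    set q := soft (d n) (k x) • ∇ (lcut S (m n)) x with hq
    have e1 : lcut S (m n) x • g n x + q - k' x = p + q := by rw [hp]; abel
    have e2 : ‖q‖ ^ 2 = soft (d n) (k x) ^ 2 * ‖∇ (lcut S (m n)) x‖ ^ 2 := by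
      rw [hq, norm_smul, mul_pow, Real.norm_eq_abs, sq_abs]
    rw [e1, ← e2]
    have h1 := norm_add_le p q
    have h2 : ‖p + q‖ ^ 2 ≤ (‖p‖ + ‖q‖) ^ 2 := pow_le_pow_left₀ (norm_nonneg _) h1 2
    nlinarith [sq_nonneg (‖p‖ - ‖q‖)]
  have hgi : ∀ n, Integrable fun x => ‖∇ (u n) x - k' x‖ ^ 2 := by
    intro n
    refine (((hF1i n).const_mul 2).add ((hF2 n).1.const_mul 2)).mono'
      (((measurable_gradient _).aestronglyMeasurable.sub hk.meas).norm.pow 2) ?_
    filter_upwards [hle n] with x hx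
    rw [Real.norm_of_nonneg (by positivity)]
    exact hx
  refine ⟨u, hlip, fun n => ⟨(4 : ℝ)⁻¹ ^ (2 * m n + 1), by positivity, fun x hx => ?_⟩, hule,
    fun x hx => ?_, hgi, ?_⟩
  · simp only [hu]
    rw [lcut_eq_zero hx, zero_mul]
  · have h1 : ∀ᶠ n in atTop, lcut S (m n) x = 1 := hmt.eventually (hS.lcut_tendsto hx)
    refine (hst x).congr' ?_
    filter_upwards [h1] with n hn
    simp only [hu]
    rw [hn, one_mul]
  · have h1 : Tendsto (fun n => 2 * (∫ x, ‖lcut S (m n) x • g n x - k' x‖ ^ 2) +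
        2 * (B ^ 2 * d n)) atTop (𝓝 (2 * 0 + 2 * (B ^ 2 * 0))) :=
      (hF1.const_mul 2).add ((hdl.const_mul _).const_mul 2)
    rw [mul_zero, mul_zero, mul_zero, add_zero] at h1
    refine squeeze_zero (fun n => integral_nonneg fun x => by positivity) (fun n => ?_) h1
    refine (integral_mono_ae (hgi n) (((hF1i n).const_mul 2).add ((hF2 n).1.const_mul 2))
      (hle n)).trans ?_
    simp only [Pi.add_apply]
    rw [integral_add ((hF1i n).const_mul 2) ((hF2 n).1.const_mul 2), integral_const_mul,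
      integral_const_mul]
    have := (hF2 n).2
    linarith

/-! ### lines -/

/-- lines in dimension three are thin -/
theorem thin_line (P : V) {e : V} (he : ‖e‖ = 1) : Thin (range fun s : ℝ => P + s • e) := by
  haveI : Nontrivial V := nontriv
  have hcl : IsClosed (range fun s : ℝ => P + s • e) := by
    have h1 : Isometry fun s : ℝ => P + s • e := by
      refine Isometry.of_dist_eq fun a b => ?_
      rw [dist_add_left, dist_eq_norm, ← sub_smul, norm_smul, he, mul_one, Real.dist_eq,
        Real.norm_eq_abs]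
    exact h1.isClosedEmbedding.isClosed_range
  have hne : (range fun s : ℝ => P + s • e).Nonempty := range_nonempty _
  refine ⟨hcl, hne, fun r => ?_⟩
  set ω : ℝ := volume.real (ball (0 : V) 1) with hω
  have hω0 : 0 ≤ ω := measureReal_nonneg
  set M : ℝ := |r| + 2 + ‖P‖ with hM
  have hM0 : 0 ≤ M := by positivity
  refine ⟨27 * (2 * M + 5) * ω, by positivity, fun t ht ht1 => ?_⟩
  set N : ℕ := ⌈M / t⌉₊ + 1 with hN
  have hNle : (N : ℝ) ≤ M / t + 2 := by
    rw [hN]
    push_cast
    have := (Nat.ceil_lt_add_one (by positivity : 0 ≤ M / t)).le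
    linarith
  have hNge : M / t + 1 ≤ N := by
    rw [hN]
    push_cast
    have := Nat.le_ceil (M / t)
    linarith
  have hsub : {x : V | infDist x (range fun s : ℝ => P + s • e) ≤ t} ∩ ball 0 r ⊆
      ⋃ i ∈ Finset.range (2 * N + 1), ball (P + (((i : ℝ) - N) * t) • e) (3 * t) := by
    rintro x ⟨hx, hxr⟩
    obtain ⟨y, ⟨s, rfl⟩, hy⟩ := hcl.exists_infDist_eq_dist hne x
    have hx' : dist x (P + s • e) ≤ t := by
      have h1 : infDist x (range fun s : ℝ => P + s • e) ≤ t := hx
      rw [hy] at h1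
      exact h1
    have hxn : ‖x‖ < r := by rwa [mem_ball_zero_iff] at hxr
    have hs : |s| ≤ M := by
      have h1 : ‖s • e‖ ≤ ‖x‖ + dist x (P + s • e) + ‖P‖ := by
        rw [dist_eq_norm]
        have e1 : s • e = x - (x - (P + s • e)) - P := by abel
        calc ‖s • e‖ = ‖x - (x - (P + s • e)) - P‖ := by rw [← e1]
          _ ≤ ‖x - (x - (P + s • e))‖ + ‖P‖ := norm_sub_le _ _
          _ ≤ _ := by
            have := norm_sub_le x (x - (P + s • e))
            linarith
      rw [norm_smul, he, mul_one, Real.norm_eq_abs] at h1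
      have := le_abs_self r
      rw [hM]
      linarith
    set j : ℤ := round (s / t) with hj
    have hj1 : |s / t - j| ≤ 1 / 2 := abs_sub_round _
    have hj2 : |(j : ℝ)| ≤ M / t + 1 := by
      have h1 : |s / t| ≤ M / t := by
        rw [abs_div, abs_of_pos ht]
        exact div_le_div_of_nonneg_right hs ht.le
      have h2 : |(j : ℝ)| ≤ |s / t| + |s / t - j| := by
        have e1 : (j : ℝ) = s / t - (s / t - j) := by ring
        calc |(j : ℝ)| = |s / t - (s / t - j)| := by rw [← e1]
          _ ≤ _ := abs_sub _ _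
      linarith
    have hj3 : |(j : ℝ)| ≤ N := hj2.trans hNge
    have hj4 : 0 ≤ j + N := by
      have := (abs_le.mp hj3).1
      have h5 : (0 : ℝ) ≤ (j : ℝ) + N := by linarith
      exact_mod_cast h5
    have hj5 : j + N ≤ 2 * N := by
      have := (abs_le.mp hj3).2
      have h5 : (j : ℝ) + N ≤ 2 * N := by linarith
      exact_mod_cast h5
    obtain ⟨i, hi⟩ := Int.eq_ofNat_of_zero_le hj4
    have hi2 : ((i : ℝ) - N) = j := by
      have h6 : ((j + N : ℤ) : ℝ) = ((i : ℤ) : ℝ) := by rw [hi]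
      push_cast at h6
      linarith
    refine mem_biUnion (x := i) ?_ ?_
    · have h7 : (i : ℤ) ≤ 2 * N := by rw [← hi]; exact hj5
      simp only [Finset.coe_range, mem_Iio]
      omega
    · rw [mem_ball, hi2]
      have h8 : dist (P + s • e) (P + ((j : ℝ) * t) • e) ≤ t := by
        rw [dist_add_left, dist_eq_norm, ← sub_smul, norm_smul, he, mul_one, Real.norm_eq_abs]
        have e2 : s - j * t = (s / t - j) * t := by field_simp
        rw [e2, abs_mul, abs_of_pos ht]
        nlinarith [abs_nonneg (s / t - j)]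
      have h9 := dist_triangle x (P + s • e) (P + ((j : ℝ) * t) • e)
      linarith
  have hball : ∀ c : V, volume.real (ball c (3 * t)) = (3 * t) ^ 3 * ω := by
    intro c
    rw [measureReal_def, Measure.addHaar_ball _ _ (by positivity), ENNReal.toReal_mul,
      ENNReal.toReal_ofReal (by positivity), hd.out]
    rfl
  calc volume.real ({x : V | infDist x (range fun s : ℝ => P + s • e) ≤ t} ∩ ball 0 r)
      ≤ volume.real (⋃ i ∈ Finset.range (2 * N + 1),
          ball (P + (((i : ℝ) - N) * t) • e) (3 * t)) := by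
        refine measureReal_mono hsub ?_
        refine ((measure_biUnion_finset_le _ _).trans_lt ?_).ne
        exact ENNReal.sum_lt_top.mpr fun i _ => measure_ball_lt_top
    _ ≤ ∑ i ∈ Finset.range (2 * N + 1),
          volume.real (ball (P + (((i : ℝ) - N) * t) • e) (3 * t)) :=
        measureReal_biUnion_finset_le _ _
    _ = (2 * N + 1) * ((3 * t) ^ 3 * ω) := by
        rw [Finset.sum_congr rfl fun i _ => hball _, Finset.sum_const, Finset.card_range,
          nsmul_eq_mul]
        push_cast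
        ring
    _ ≤ (2 * (M / t + 2) + 1) * ((3 * t) ^ 3 * ω) :=
        mul_le_mul_of_nonneg_right (by linarith) (by positivity)
    _ = 27 * (2 * M + 5 * t) * ω * t ^ 2 := by
        field_simp
        ring
    _ ≤ 27 * (2 * M + 5) * ω * t ^ 2 := by
        have : 2 * M + 5 * t ≤ 2 * M + 5 := by linarith
        gcongr

end dim3

end Pool.Agent.TF
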