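import Mathlib
import Pool.Agent.Lib.MP_9cf0c9_mp.Tr.Calib
/-! Weak trial functions (limits of trial functions, almost everywhere and in the Dirichlet norm):
the second variation is continuous, and the calibration identity holds for them. -/

set_option autoImplicit false

set_option linter.unusedSectionVars false

set_option linter.unusedVariables false

set_option linter.style.haveILetI false

namespace Pool.Agent.TF

open MeasureTheory Set Metric Filter Topology

open scoped ENNReal NNReal RealInnerProductSpace Gradient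

section gen

variable {V : Type*} [NormedAddCommGroup V] [InnerProductSpace ℝ V] [FiniteDimensional ℝ V]
  [MeasurableSpace V] [BorelSpace V]

/-- weak trial functions: bounded limits of trial functions, almost everywhere and in the
Dirichlet norm -/
structure WTrial (k : V → ℝ) (k' : V → V) : Prop where
  bdd : ∃ B, ∀ x, |k x| ≤ B
  cont : Continuous k
  meas' : AEStronglyMeasurable k' volume
  sq : Integrable (fun x => ‖k' x‖ ^ 2)
  appr : ∃ (u : ℕ → V → ℝ) (u' : ℕ → V → V) (B : ℝ), (∀ n, TrialK ∅ (u n) (u' n)) ∧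
    (∀ n x, |u n x| ≤ B) ∧ (∀ᵐ x : V, Tendsto (fun n => u n x) atTop (𝓝 (k x))) ∧
    Tendsto (fun n => ∫ x, ‖u' n x - k' x‖ ^ 2) atTop (𝓝 0)

theorem inner_int_of_sq {A B : V → V} (hA : AEStronglyMeasurable A volume)
    (hB : AEStronglyMeasurable B volume) (h1 : Integrable fun x => ‖A x‖ ^ 2)
    (h2 : Integrable fun x => ‖B x‖ ^ 2) : Integrable fun x => ⟪A x, B x⟫ := by
  refine ((h1.add h2)).mono' (hA.inner hB) (Eventually.of_forall fun x => ?_)
  rw [Real.norm_eq_abs, Pi.add_apply]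
  refine (abs_real_inner_le_norm _ _).trans ?_
  nlinarith [sq_nonneg (‖A x‖ - ‖B x‖), norm_nonneg (A x), norm_nonneg (B x)]

theorem sub_sq_int {A B : V → V} (hA : AEStronglyMeasurable A volume)
    (hB : AEStronglyMeasurable B volume) (h1 : Integrable fun x => ‖A x‖ ^ 2)
    (h2 : Integrable fun x => ‖B x‖ ^ 2) : Integrable fun x => ‖A x - B x‖ ^ 2 := by
  refine ((h1.const_mul 2).add (h2.const_mul 2)).mono' ((hA.sub hB).norm.pow 2)
    (Eventually.of_forall fun x => ?_)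
  rw [Real.norm_of_nonneg (by positivity), Pi.add_apply]
  have h3 := norm_sub_le (A x) (B x)
  have h4 : ‖A x - B x‖ ^ 2 ≤ (‖A x‖ + ‖B x‖) ^ 2 := pow_le_pow_left₀ (norm_nonneg _) h3 2
  nlinarith [sq_nonneg (‖A x‖ - ‖B x‖)]

/-- Cauchy-Schwarz with square integrable fields -/
theorem abs_integral_inner_le {A B : V → V} (hA : AEStronglyMeasurable A volume)
    (hB : AEStronglyMeasurable B volume) (h1 : Integrable fun x => ‖A x‖ ^ 2)
    (h2 : Integrable fun x => ‖B x‖ ^ 2) :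
    |∫ x, ⟪A x, B x⟫| ≤ √(∫ x, ‖A x‖ ^ 2) * √(∫ x, ‖B x‖ ^ 2) := by
  set a := ∫ x, ‖A x‖ ^ 2 with ha
  set b := ∫ x, ‖B x‖ ^ 2 with hb
  have ha0 : 0 ≤ a := integral_nonneg fun x => by positivity
  have hb0 : 0 ≤ b := integral_nonneg fun x => by positivity
  have hi := inner_int_of_sq hA hB h1 h2
  set c := ∫ x, ⟪A x, B x⟫ with hc
  have key : ∀ t : ℝ, 0 ≤ a + 2 * t * c + t ^ 2 * b := by
    intro t
    have h3 : 0 ≤ ∫ x, (‖A x‖ ^ 2 + 2 * t * ⟪A x, B x⟫ + t ^ 2 * ‖B x‖ ^ 2) := by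
      refine integral_nonneg fun x => ?_
      have h4 := norm_add_sq_real (A x) (t • B x)
      rw [inner_smul_right, norm_smul, mul_pow, Real.norm_eq_abs, sq_abs] at h4
      have h5 : 0 ≤ ‖A x + t • B x‖ ^ 2 := by positivity
      simp only [Pi.zero_apply]
      linarith
    have i1 : Integrable fun x => ‖A x‖ ^ 2 + 2 * t * ⟪A x, B x⟫ := h1.add (hi.const_mul _)
    rw [integral_add i1 (h2.const_mul _), integral_add h1 (hi.const_mul _),
      integral_const_mul, integral_const_mul] at h3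
    exact h3
  have h6 : c ^ 2 ≤ a * b := by
    rcases hb0.eq_or_lt with h | h
    · have h7 : c = 0 := by
        by_contra hne
        have h8 := key (-(a + 1) / (2 * c))
        rw [← h] at h8
        have h9 : 2 * (-(a + 1) / (2 * c)) * c = -(a + 1) := by field_simp
        rw [h9] at h8
        linarith
      rw [h7, ← h]; simp
    · have h8 := key (-c / b)
      have h9 : a + 2 * (-c / b) * c + (-c / b) ^ 2 * b = a - c ^ 2 / b := by field_simp; ring
      rw [h9] at h8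
      have : c ^ 2 / b ≤ a := by linarith
      rwa [div_le_iff₀ h] at this
  rw [← Real.sqrt_mul ha0]
  exact Real.abs_le_sqrt h6

/-- the limit of the pairings with a square integrable field -/
theorem tendsto_inner_of_sq {k' : V → V} {u' : ℕ → V → V} {A : V → V}
    (hA : AEStronglyMeasurable A volume) (h1 : Integrable fun x => ‖A x‖ ^ 2)
    (hk : AEStronglyMeasurable k' volume) (hk2 : Integrable fun x => ‖k' x‖ ^ 2)
    (hu : ∀ n, AEStronglyMeasurable (u' n) volume) (hu2 : ∀ n, Integrable fun x => ‖u' n x‖ ^ 2)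
    (hl : Tendsto (fun n => ∫ x, ‖u' n x - k' x‖ ^ 2) atTop (𝓝 0)) :
    Tendsto (fun n => ∫ x, ⟪A x, u' n x⟫) atTop (𝓝 (∫ x, ⟪A x, k' x⟫)) := by
  rw [tendsto_iff_dist_tendsto_zero]
  have h2 : Tendsto (fun n => √(∫ x, ‖A x‖ ^ 2) * √(∫ x, ‖u' n x - k' x‖ ^ 2)) atTop (𝓝 0) := by
    have := ((Real.continuous_sqrt.tendsto _).comp hl).const_mul √(∫ x, ‖A x‖ ^ 2)
    simpa using this
  refine squeeze_zero (fun n => dist_nonneg) (fun n => ?_) h2
  rw [Real.dist_eq, ← integral_sub (inner_int_of_sq hA (hu n) h1 (hu2 n))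
    (inner_int_of_sq hA hk h1 hk2)]
  have e : ∀ x, ⟪A x, u' n x⟫ - ⟪A x, k' x⟫ = ⟪A x, u' n x - k' x⟫ := fun x => by
    rw [inner_sub_right]
  simp_rw [e]
  exact abs_integral_inner_le hA ((hu n).sub hk) h1 (sub_sq_int (hu n) hk (hu2 n) hk2)

theorem WTrial.bound {k : V → ℝ} {k' : V → V} (h : WTrial k k') :
    ∃ B, 0 ≤ B ∧ ∀ x, |k x| ≤ B := by
  obtain ⟨B, hB⟩ := h.bdd
  exact ⟨B, (abs_nonneg _).trans (hB 0), hB⟩

variable [hd : Fact (Module.finrank ℝ V = 3)]

/-- the weak equation for weak trial functions, square integrable fields -/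
theorem WTrial.weak {k : V → ℝ} {k' : V → V} (hk : WTrial k k') {A : V → V} {g : V → ℝ}
    (hA : AEStronglyMeasurable A volume) (hA2 : Integrable fun x => ‖A x‖ ^ 2)
    (hg : Integrable g)
    (hw : ∀ (u : V → ℝ) (C : ℝ≥0), LipschitzWith C u → HasCompactSupport u →
      ∫ x, ⟪A x, ∇ u x⟫ = ∫ x, g x * u x) :
    Integrable (fun x => ⟪A x, k' x⟫) ∧ ∫ x, ⟪A x, k' x⟫ = ∫ x, g x * k x := by
  haveI := nontriv (V := V)
  refine ⟨inner_int_of_sq hA hk.meas' hA2 hk.sq, ?_⟩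
  obtain ⟨u, u', B, hu, hB, hl, hl'⟩ := hk.appr
  have hfin : ({0} : Set V).Finite := finite_singleton 0
  have hne : ({0} : Set V).Nonempty := singleton_nonempty 0
  have h1 : ∀ n, ∫ x, ⟪A x, u' n x⟫ = ∫ x, g x * u n x := fun n =>
    (weak_K hfin.isClosed hne (finite_null hfin) ((hu n).mono (empty_subset _)) hA hg hw
      (mul_integrable_of_sq hA.norm (hu n).meas.norm hA2 (hu n).sq)
      (mul_integrable_of_sq hA.norm (cW_meas _).aestronglyMeasurable hA2
        (cW_sq_integrable hfin hne))).2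
  have h2 := tendsto_inner_of_sq hA hA2 hk.meas' hk.sq (fun n => (hu n).meas)
    (fun n => (hu n).sq) hl'
  have h3 : Tendsto (fun n => ∫ x, g x * u n x) atTop (𝓝 (∫ x, g x * k x)) := by
    refine tendsto_integral_of_dominated_convergence (fun x => |g x| * B) (fun n => ?_)
      (hg.abs.mul_const _) (fun n => Eventually.of_forall fun x => ?_) ?_
    · exact hg.1.mul (hu n).cont.aestronglyMeasurable
    · rw [norm_mul, Real.norm_eq_abs, Real.norm_eq_abs]
      exact mul_le_mul_of_nonneg_left (hB n x) (abs_nonneg _)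
    · filter_upwards [hl] with x hx
      exact hx.const_mul _
  simp_rw [h1] at h2
  exact tendsto_nhds_unique h2 h3

/-- the weak Poisson equation of a point charge for weak trial functions -/
theorem WTrial.weak_point {k : V → ℝ} {k' : V → V} (hk : WTrial k k')
    (c : V) (hI : Integrable fun x => (‖x - c‖ ^ 2)⁻¹ * ‖k' x‖) :
    Integrable (fun x => ⟪gradP c x, k' x⟫) ∧ ∫ x, ⟪gradP c x, k' x⟫ = 4 * Real.pi * k c := by
  haveI := nontriv (V := V)
  obtain ⟨B, hB0, hB⟩ := hk.bound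
  set A : ℝ → V → V := fun ε x => (√(‖x - c‖ ^ 2 + ε ^ 2) ^ 3)⁻¹ • (x - c) with hA
  have hAm : ∀ ε, Measurable (A ε) := by
    intro ε
    have h1 : Measurable (fun x : V => (√(‖x - c‖ ^ 2 + ε ^ 2) ^ 3)⁻¹) := by
      have : Continuous (fun x : V => √(‖x - c‖ ^ 2 + ε ^ 2) ^ 3) := by fun_prop
      exact this.measurable.inv
    exact h1.smul (measurable_id.sub measurable_const)
  have hsq : ∀ ε : ℝ, ∀ x : V, ‖x - c‖ ≤ √(‖x - c‖ ^ 2 + ε ^ 2) := fun ε x => by
    refine Real.le_sqrt_of_sq_le ?_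
    nlinarith [sq_nonneg ε]
  have hsqe : ∀ ε : ℝ, 0 < ε → ∀ x : V, ε ≤ √(‖x - c‖ ^ 2 + ε ^ 2) := fun ε hε x => by
    refine Real.le_sqrt_of_sq_le ?_
    nlinarith [sq_nonneg ‖x - c‖]
  have hAn : ∀ ε : ℝ, 0 < ε → ∀ x, ‖A ε x‖ ≤ (‖x - c‖ ^ 2)⁻¹ := by
    intro ε hε x
    simp only [hA]
    rw [norm_smul, norm_inv, norm_pow, Real.norm_of_nonneg (Real.sqrt_nonneg _)]
    by_cases hx : ‖x - c‖ = 0
    · rw [hx]; simp
    have h0 : 0 < ‖x - c‖ := lt_of_le_of_ne (norm_nonneg _) (Ne.symm hx)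
    calc (√(‖x - c‖ ^ 2 + ε ^ 2) ^ 3)⁻¹ * ‖x - c‖ ≤ (‖x - c‖ ^ 3)⁻¹ * ‖x - c‖ := by
          refine mul_le_mul_of_nonneg_right ?_ h0.le
          exact inv_anti₀ (by positivity) (pow_le_pow_left₀ h0.le (hsq ε x) 3)
      _ = _ := by field_simp
  have hAb : ∀ ε : ℝ, 0 < ε → ∀ x, ‖A ε x‖ ≤ (ε ^ 2)⁻¹ := by
    intro ε hε x
    simp only [hA]
    rw [norm_smul, norm_inv, norm_pow, Real.norm_of_nonneg (Real.sqrt_nonneg _)]
    have h1 := hsq ε x
    have h2 := hsqe ε hε x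
    have h3 : 0 < √(‖x - c‖ ^ 2 + ε ^ 2) := hε.trans_le h2
    calc (√(‖x - c‖ ^ 2 + ε ^ 2) ^ 3)⁻¹ * ‖x - c‖
        ≤ (√(‖x - c‖ ^ 2 + ε ^ 2) ^ 3)⁻¹ * √(‖x - c‖ ^ 2 + ε ^ 2) :=
          mul_le_mul_of_nonneg_left h1 (by positivity)
      _ = (√(‖x - c‖ ^ 2 + ε ^ 2) ^ 2)⁻¹ := by field_simp
      _ ≤ _ := inv_anti₀ (by positivity) (pow_le_pow_left₀ hε.le h2 2)
  -- the regularised fields are square integrable
  have hA2 : ∀ ε : ℝ, 0 < ε → Integrable fun x => ‖A ε x‖ ^ 2 := by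
    intro ε hε
    have h4 : Integrable (fun x : V => (1 + ‖x - c‖) ^ (-(4 : ℝ))) := inv_four_integrable c
    have hball : Integrable ((ball c 1).indicator fun _ : V => ((ε ^ 2)⁻¹) ^ 2) :=
      (integrable_indicator_iff measurableSet_ball).mpr
        (integrableOn_const measure_ball_lt_top.ne)
    refine (hball.add (h4.const_mul 16)).mono' ((hAm ε).norm.pow_const 2).aestronglyMeasurable
      (Eventually.of_forall fun x => ?_)
    rw [Real.norm_of_nonneg (by positivity), Pi.add_apply]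
    have h4' : 0 ≤ (1 + ‖x - c‖) ^ (-(4 : ℝ)) := by positivity
    by_cases hb : x ∈ ball c 1
    · rw [indicator_of_mem hb]
      have := pow_le_pow_left₀ (norm_nonneg _) (hAb ε hε x) 2
      linarith
    · rw [indicator_of_notMem hb]
      have h1 : 1 ≤ ‖x - c‖ := by
        rw [mem_ball, dist_eq_norm, not_lt] at hb
        exact hb
      have h5 : ((‖x - c‖ ^ 2)⁻¹) ^ 2 ≤ 16 * (1 + ‖x - c‖) ^ (-(4 : ℝ)) := by
        have e1 : (1 + ‖x - c‖) ^ (-(4 : ℝ)) = ((1 + ‖x - c‖) ^ 4)⁻¹ := by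
          rw [Real.rpow_neg (by positivity)]; norm_cast
        rw [e1, inv_pow, ← pow_mul, show 2 * 2 = 4 by norm_num]
        rw [inv_le_iff_one_le_mul₀ (by positivity)]
        have h6 : (1 + ‖x - c‖) ^ 4 ≤ (2 * ‖x - c‖) ^ 4 :=
          pow_le_pow_left₀ (by positivity) (by linarith) 4
        have h7 : 16 * ((1 + ‖x - c‖) ^ 4)⁻¹ * ‖x - c‖ ^ 4 =
            (2 * ‖x - c‖) ^ 4 / (1 + ‖x - c‖) ^ 4 := by
          field_simp
          ring
        rw [h7, le_div_iff₀ (by positivity)]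
        linarith
      have := pow_le_pow_left₀ (norm_nonneg _) (hAn ε hε x) 2
      linarith
  have hweak : ∀ ε : ℝ, 0 < ε → ∫ x, ⟪A ε x, k' x⟫ =
      -∫ w, 3 * (√(‖w‖ ^ 2 + 1) ^ 5)⁻¹ * k (ε • w + c) := by
    intro ε hε
    rw [← rhs_scale_at hε c k]
    exact (hk.weak (A := A ε)
      (g := fun x => -(3 * ε ^ 2 * (√(‖x - c‖ ^ 2 + ε ^ 2) ^ 5)⁻¹)) (hAm ε).aestronglyMeasurable
      (hA2 ε hε) (k5e_integrable hε c) (fun u C hu hc => div_rep_at hε c hu hc)).2
  set e : ℕ → ℝ := fun n => 1 / ((n : ℝ) + 1) with he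
  have he0 : ∀ n, 0 < e n := fun n => by positivity
  have hel : Tendsto e atTop (𝓝 0) := tendsto_one_div_add_atTop_nhds_zero_nat
  have hne' : ∀ᵐ x : V, x ≠ c := by rw [ae_iff]; simp
  have hL : Tendsto (fun n => ∫ x, ⟪A (e n) x, k' x⟫) atTop
      (𝓝 (∫ x, ⟪-gradP c x, k' x⟫)) := by
    refine tendsto_integral_of_dominated_convergence (fun x => (‖x - c‖ ^ 2)⁻¹ * ‖k' x‖)
      (fun n => (hAm _).aestronglyMeasurable.inner hk.meas') hI
      (fun n => Eventually.of_forall fun x => ?_) ?_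
    · rw [Real.norm_eq_abs]
      exact (abs_real_inner_le_norm _ _).trans
        (mul_le_mul_of_nonneg_right (hAn _ (he0 n) x) (norm_nonneg _))
    · filter_upwards [hne'] with x hx
      have hn : 0 < ‖x - c‖ := norm_pos_iff.mpr (sub_ne_zero.mpr hx)
      refine Tendsto.inner ?_ tendsto_const_nhds
      unfold gradP
      rw [neg_neg]
      refine Tendsto.smul ?_ tendsto_const_nhds
      have h1 : Tendsto (fun n => √(‖x - c‖ ^ 2 + e n ^ 2) ^ 3) atTop
          (𝓝 (√(‖x - c‖ ^ 2 + 0 ^ 2) ^ 3)) :=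
        (((Real.continuous_sqrt.tendsto _).comp ((hel.pow 2).const_add _))).pow 3
      have e1 : √(‖x - c‖ ^ 2 + 0 ^ 2) = ‖x - c‖ := by
        rw [zero_pow two_ne_zero, add_zero, Real.sqrt_sq hn.le]
      rw [e1] at h1
      exact h1.inv₀ (by positivity)
  have hR : Tendsto (fun n => -∫ w : V, 3 * (√(‖w‖ ^ 2 + 1) ^ 5)⁻¹ * k (e n • w + c)) atTop
      (𝓝 (-∫ w : V, 3 * (√(‖w‖ ^ 2 + 1) ^ 5)⁻¹ * k c)) := by
    refine Tendsto.neg ?_
    refine tendsto_integral_of_dominated_convergence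
      (fun w => 3 * (√(‖w‖ ^ 2 + 1) ^ 5)⁻¹ * B) (fun n => ?_)
      ((k5_integrable V).mul_const B) (fun n => Eventually.of_forall fun w => ?_)
      (Eventually.of_forall fun w => ?_)
    · have h1 : Measurable (fun w : V => 3 * (√(‖w‖ ^ 2 + 1) ^ 5)⁻¹) := by
        have : Continuous (fun x : V => √(‖x‖ ^ 2 + 1) ^ 5) := by fun_prop
        exact measurable_const.mul this.measurable.inv
      exact (h1.mul (hk.cont.comp (by fun_prop : Continuous fun w : V =>
        e n • w + c)).measurable).aestronglyMeasurable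
    · rw [norm_mul, Real.norm_of_nonneg (by positivity)]
      exact mul_le_mul_of_nonneg_left (hB _) (by positivity)
    · refine Tendsto.const_mul _ ?_
      have h1 : Tendsto (fun n => e n • w + c) atTop (𝓝 ((0 : ℝ) • w + c)) :=
        (hel.smul_const w).add_const c
      rw [zero_smul, zero_add] at h1
      exact (hk.cont.tendsto c).comp h1
  have heq : (fun n => ∫ x, ⟪A (e n) x, k' x⟫) =
      fun n => -∫ w : V, 3 * (√(‖w‖ ^ 2 + 1) ^ 5)⁻¹ * k (e n • w + c) :=
    funext fun n => hweak _ (he0 n)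
  rw [heq] at hL
  have h9 := tendsto_nhds_unique hL hR
  rw [integral_mul_const, k5_integral] at h9
  refine ⟨?_, ?_⟩
  · refine hI.mono' ((gradP_meas c).aestronglyMeasurable.inner hk.meas')
      (Eventually.of_forall fun x => ?_)
    rw [Real.norm_eq_abs, ← gradP_norm c x]
    exact abs_real_inner_le_norm _ _
  · have h10 : ∫ x, ⟪-gradP c x, k' x⟫ = -∫ x, ⟪gradP c x, k' x⟫ := by
      rw [← integral_neg]
      refine integral_congr_ae (Eventually.of_forall fun x => ?_)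
      simp only
      rw [inner_neg_left]
    rw [h10] at h9
    linarith

end gen

/-! ### the second variation -/

variable {ι : Type*} [Fintype ι]

theorem WTrial.inner_gVpt {z : ι → ℝ} {R : ι → X} {k : X → ℝ} {k' : X → X} (hk : WTrial k k')
    (hI : ∀ i, Integrable (fun x => (‖x - R i‖ ^ 2)⁻¹ * ‖k' x‖)) :
    Integrable (fun x => ⟪gVpt z R x, k' x⟫) ∧
      ∫ x, ⟪gVpt z R x, k' x⟫ = 4 * Real.pi * ∑ i, z i * k (R i) := by
  have hP := fun i => hk.weak_point (R i) (hI i)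
  have e : ∀ x, ⟪gVpt z R x, k' x⟫ = ∑ i, z i * ⟪gradP (R i) x, k' x⟫ := fun x => by
    unfold gVpt
    rw [sum_inner]
    refine Finset.sum_congr rfl fun i _ => ?_
    rw [real_inner_smul_left]
  have hi : Integrable (fun x => ∑ i, z i * ⟪gradP (R i) x, k' x⟫) :=
    integrable_finsetSum _ fun i _ => (hP i).1.const_mul (z i)
  constructor
  · exact hi.congr (Eventually.of_forall fun x => (e x).symm)
  · simp_rw [e]
    rw [integral_finsetSum _ fun i _ => (hP i).1.const_mul (z i), Finset.mul_sum]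
    refine Finset.sum_congr rfl fun i _ => ?_
    rw [integral_const_mul, (hP i).2]
    ring

/-- the second variation of a weak trial function as an integral of the calibration density -/
theorem WTrial.calib_alg {z : ι → ℝ} (hz : ∀ i, 0 ≤ z i) (R : ι → X) {φ₀ : ℝ} (hφ : 0 < φ₀)
    {ρ : X → ℝ} (hρ : TC ρ) (heq : ∀ x, ρ x = tf (Vpt z R x - pot ρ x - φ₀))
    {k : X → ℝ} {k' : X → X} (hk : WTrial k k')
    (hI : ∀ i, Integrable (fun x => (‖x - R i‖ ^ 2)⁻¹ * ‖k' x‖)) :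
    Integrable (Fcal φ₀ z R ρ k k') ∧
      Vtr φ₀ z R ρ k ((8 * Real.pi)⁻¹ * ∫ x, ‖k' x‖ ^ 2) =
        (∫ x, Fcal φ₀ z R ρ k k' x) + ∑ i, 2 * z i * (Vpt z R (R i) + k (R i)) := by
  have hpi : (0 : ℝ) < Real.pi := Real.pi_pos
  obtain ⟨hT, ⟨D, hD0, hD⟩, hE⟩ := sol_facts hz R hφ hρ heq
  obtain ⟨B, hB0, hB⟩ := hk.bound
  have hkm := hk.cont.measurable
  have hoff : ∀ᵐ x : X, ∀ i, x ≠ R i := by
    have h0 : volume (range R) = 0 := finite_null (finite_range R)
    have h1 : ∀ᵐ x : X, x ∉ range R := measure_eq_zero_iff_ae_notMem.mp h0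
    filter_upwards [h1] with x hx i h
    exact hx ⟨i, h.symm⟩
  have hDb : ∀ᵐ x : X, ‖gradV ρ x‖ ≤ D * (1 + ∑ i, (‖x - R i‖⁻¹) ^ (3 / 4 : ℝ)) := by
    filter_upwards [hoff] with x hx
    exact hD x hx
  obtain ⟨a1, a2⟩ := TF.inner_gVpt (z := z) (finite_range R) hT hDb
  obtain ⟨b1, b2⟩ := hk.inner_gVpt (z := z) (R := R) hI
  have c1 : Integrable (fun x => Vpt z R x * ρ x) := hρ.Vpt_int z R
  have c2 : ∫ x, Vpt z R x * ρ x = ∑ i, z i * pot ρ (R i) := hρ.Vpt_eq z R
  have d1 : Integrable (fun x => ρ x * k x) := hρ.int.mul_bdd hkm.aestronglyMeasurable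
    (Eventually.of_forall fun x => by rw [Real.norm_eq_abs]; exact hB x)
  have g1 : Integrable (fun x => gam (Vpt z R x - pot ρ x - φ₀) * (Vpt z R x + k x) ^ 2) := by
    refine gam_integrable hz R hφ hρ hB0 (((Vpt_meas z R).add hkm).pow_const 2) fun x => ?_
    have hV := Vpt_nonneg hz R x
    have := abs_le.mp (hB x)
    rw [abs_of_nonneg (sq_nonneg _)]
    exact sq_le_sq' (by linarith) (by linarith)
  have eF : ∀ x, Fcal φ₀ z R ρ k k' x = 4 * (Vpt z R x * ρ x) + 4 * (ρ x * k x) -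
      gam (Vpt z R x - pot ρ x - φ₀) * (Vpt z R x + k x) ^ 2 +
      (4 * Real.pi)⁻¹ * (‖gradV ρ x‖ ^ 2 - 2 * ⟪gVpt z R x, gradV ρ x⟫ -
        2 * ⟪gVpt z R x, k' x⟫ - ‖k' x‖ ^ 2) := by
    intro x
    unfold Fcal
    rw [norm_sub_sq_real, norm_add_sq_real]
    ring
  have i1 : Integrable (fun x => 4 * (Vpt z R x * ρ x) + 4 * (ρ x * k x)) :=
    (c1.const_mul 4).add (d1.const_mul 4)
  have i2 : Integrable (fun x => 4 * (Vpt z R x * ρ x) + 4 * (ρ x * k x) -
      gam (Vpt z R x - pot ρ x - φ₀) * (Vpt z R x + k x) ^ 2) := i1.sub g1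
  have i3 : Integrable (fun x => ‖gradV ρ x‖ ^ 2 - 2 * ⟪gVpt z R x, gradV ρ x⟫) :=
    hT.sq.sub (a1.const_mul 2)
  have i4 : Integrable (fun x => ‖gradV ρ x‖ ^ 2 - 2 * ⟪gVpt z R x, gradV ρ x⟫ -
      2 * ⟪gVpt z R x, k' x⟫) := i3.sub (b1.const_mul 2)
  have i5 : Integrable (fun x => ‖gradV ρ x‖ ^ 2 - 2 * ⟪gVpt z R x, gradV ρ x⟫ -
      2 * ⟪gVpt z R x, k' x⟫ - ‖k' x‖ ^ 2) := i4.sub hk.sq
  constructor
  · exact (i2.add (i5.const_mul _)).congr (Eventually.of_forall fun x => (eF x).symm)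
  · have hF : ∫ x, Fcal φ₀ z R ρ k k' x = 4 * (∑ i, z i * pot ρ (R i)) + 4 * (∫ x, ρ x * k x) -
        (∫ x, gam (Vpt z R x - pot ρ x - φ₀) * (Vpt z R x + k x) ^ 2) +
        (4 * Real.pi)⁻¹ * (4 * Real.pi * En ρ ρ - 2 * (4 * Real.pi * ∑ i, z i * pot ρ (R i)) -
          2 * (4 * Real.pi * ∑ i, z i * k (R i)) - ∫ x, ‖k' x‖ ^ 2) := by
      simp_rw [eF]
      rw [integral_add i2 (i5.const_mul _), integral_sub i1 g1,
        integral_add (c1.const_mul 4) (d1.const_mul 4), integral_const_mul, integral_const_mul,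
        integral_const_mul, integral_sub i4 hk.sq, integral_sub i3 (b1.const_mul 2),
        integral_sub hT.sq (a1.const_mul 2), integral_const_mul, integral_const_mul, c2, a2, b2,
        hE]
    have hU : 4 * Unuc z R = ∑ i, 2 * z i * Vpt z R (R i) := by
      unfold Unuc Vpt
      rw [Finset.mul_sum, Finset.mul_sum]
      refine Finset.sum_congr rfl fun i _ => ?_
      rw [Finset.mul_sum, Finset.mul_sum, Finset.mul_sum]
      refine Finset.sum_congr rfl fun j _ => ?_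
      ring
    have hc : ∑ i, 2 * z i * (Vpt z R (R i) + k (R i)) =
        4 * Unuc z R + 2 * ∑ i, z i * k (R i) := by
      rw [hU, Finset.mul_sum, ← Finset.sum_add_distrib]
      refine Finset.sum_congr rfl fun i _ => ?_
      ring
    rw [hc, hF]
    unfold Vtr
    field_simp
    ring

end Pool.Agent.TF
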