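import Mathlib
import Pool.Agent.Lib.MP_9cf0c9_mp.Tr.WeakCal83
/-! Flux inequalities with square integrable fields: removal of a closed set of capacity zero,
integrated flux conditions at the nuclei and at infinity, and the calibration criterion for weak
trial functions. -/

set_option autoImplicit false

set_option linter.unusedSectionVars false

set_option linter.unusedVariables false

set_option linter.style.haveILetI false

namespace Pool.Agent
end Pool.Agent

namespace Pool.Agent.TF.Flux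

open MeasureTheory Set Metric Filter Topology

open scoped ENNReal NNReal RealInnerProductSpace Gradient

variable {V : Type*} [NormedAddCommGroup V] [InnerProductSpace ℝ V] [FiniteDimensional ℝ V]
  [MeasurableSpace V] [BorelSpace V]

variable {ι : Type*} [Fintype ι]

/-- sets of capacity zero: cut-offs vanishing near the set, tending to one almost everywhere,
whose gradients tend to zero in `L²` on compact sets -/
def ZeroCap (N : Set V) : Prop :=
  ∀ K : Set V, IsCompact K → ∃ χ : ℕ → V → ℝ, (∀ n, ∃ C : ℝ≥0, LipschitzWith C (χ n)) ∧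
    (∀ n x, 0 ≤ χ n x) ∧ (∀ n x, χ n x ≤ 1) ∧ (∀ n, ∀ x ∈ N, ∀ᶠ y in 𝓝 x, χ n y = 0) ∧
    (∀ᵐ x : V, Tendsto (fun n => χ n x) atTop (𝓝 1)) ∧
    Tendsto (fun n => ∫ x in K, ‖∇ (χ n) x‖ ^ 2) atTop (𝓝 0)

/-- test functions vanishing near the nuclei and near `N` -/
structure TestN (R : ι → V) (N : Set V) (ζ : V → ℝ) : Prop where
  test : TestFn R ζ
  offN : ∀ x ∈ N, ∀ᶠ y in 𝓝 x, ζ y = 0

theorem lip_grad_sq_loc {χ : V → ℝ} {C : ℝ≥0} (hχ : LipschitzWith C χ) {K : Set V}
    (hK : IsCompact K) : IntegrableOn (fun x => ‖∇ χ x‖ ^ 2) K := by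
  have h1 : IntegrableOn (fun _ : V => ((C : ℝ)) ^ 2) K := integrableOn_const hK.measure_lt_top.ne
  refine h1.mono' ((measurable_gradient χ).norm.pow_const 2).aestronglyMeasurable
    (Eventually.of_forall fun x => ?_)
  rw [Real.norm_of_nonneg (by positivity)]
  exact pow_le_pow_left₀ (norm_nonneg _) (gradient_bound hχ x) 2

/-- removal of a set of capacity zero -/
theorem flux_of_zeroCap {R : ι → V} {N : Set V} (hN : ZeroCap N) {A : V → V} {F : V → ℝ}
    (hA : AEStronglyMeasurable A volume) (hA2 : LocInt R fun x => ‖A x‖ ^ 2) (hF : Integrable F)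
    (h : ∀ ζ, TestN R N ζ → 0 ≤ (∫ x, ζ x * F x) + ∫ x, ⟪A x, ∇ ζ x⟫)
    {ζ : V → ℝ} (hζ : TestFn R ζ) : 0 ≤ (∫ x, ζ x * F x) + ∫ x, ⟪A x, ∇ ζ x⟫ := by
  obtain ⟨C, hC⟩ := hζ.lip
  have hoff := hζ.notMem
  have hcont := hC.continuous
  set K : Set V := tsupport ζ with hKdef
  have hK : IsCompact K := hζ.supp.isCompact
  obtain ⟨M₀, hM₀⟩ := hK.exists_bound_of_continuousOn hcont.continuousOn
  set M : ℝ := max M₀ 0 with hM
  have hM0 : 0 ≤ M := le_max_right _ _
  have hMb : ∀ x, |ζ x| ≤ M := by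
    intro x
    by_cases hx : x ∈ K
    · exact (hM₀ x hx).trans (le_max_left _ _)
    · rw [image_eq_zero_of_notMem_tsupport hx, abs_zero]; exact hM0
  obtain ⟨χ, hχl, hχ0, hχ1, hχN, hχt, hχg⟩ := hN K hK
  choose D hD using hχl
  have hA2K : IntegrableOn (fun x => ‖A x‖ ^ 2) K := hA2 K hK hoff
  -- the fields cut to `K`
  have hKm : MeasurableSet K := (isClosed_tsupport ζ).measurableSet
  set AK : V → V := K.indicator A with hAK
  have hAKm : AEStronglyMeasurable AK volume := hA.indicator hKm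
  have hAK2 : Integrable fun x => ‖AK x‖ ^ 2 := by
    have e : (fun x => ‖AK x‖ ^ 2) = K.indicator fun x => ‖A x‖ ^ 2 := by
      funext x
      by_cases hx : x ∈ K
      · simp only [hAK, indicator_of_mem hx]
      · simp only [hAK, indicator_of_notMem hx, norm_zero]; norm_num
    rw [e, integrable_indicator_iff hKm]
    exact hA2K
  -- the test functions
  have htest : ∀ n, TestN R N fun x => ζ x * χ n x := by
    intro n
    have hl : ∃ C' : ℝ≥0, LipschitzWith C' fun x => ζ x * χ n x := by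
      have hLL : LocLip R (χ n) := fun K' _ _ => ⟨D n, (hD n).lipschitzOnWith⟩
      exact lip_mul hC hζ.supp hoff hLL
    refine ⟨⟨hl, hζ.supp.mul_right, fun x => mul_nonneg (hζ.nonneg x) (hχ0 n x), fun i => ?_⟩,
      fun x hx => ?_⟩
    · filter_upwards [hζ.off i] with x hx
      rw [hx, zero_mul]
    · filter_upwards [hχN n x hx] with y hy
      rw [hy, mul_zero]
  -- gradients
  have hgr : ∀ n, ∀ᵐ x : V, ∇ (fun x => ζ x * χ n x) x = χ n x • ∇ ζ x + ζ x • ∇ (χ n) x := by
    intro n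
    filter_upwards [hC.ae_differentiableAt (μ := (volume : Measure V)),
      (hD n).ae_differentiableAt (μ := (volume : Measure V))] with x h1 h2
    refine HasGradientAt.gradient ?_
    have h3 := h1.hasGradientAt
    have h4 := h2.hasGradientAt
    rw [hasGradientAt_iff_hasFDerivAt] at h3 h4 ⊢
    refine (h3.mul h4).congr_fderiv ?_
    rw [map_add, map_smul, map_smul, add_comm]
  have hζ0 : ∀ x, x ∉ K → ∇ ζ x = 0 := fun x hx => gradient_zero_of_notMem hx
  have hζz : ∀ x, x ∉ K → ζ x = 0 := fun x hx => image_eq_zero_of_notMem_tsupport hx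
  -- first part
  have i1 : Integrable fun x => ⟪A x, ∇ ζ x⟫ := by
    have h1 : (fun x => ⟪A x, ∇ ζ x⟫) = fun x => ⟪AK x, ∇ ζ x⟫ := by
      funext x
      by_cases hx : x ∈ K
      · simp only [hAK, indicator_of_mem hx]
      · rw [hζ0 x hx, inner_zero_right, inner_zero_right]
    rw [h1]
    have hg2 : Integrable fun x => ‖∇ ζ x‖ ^ 2 := by
      have h2 : (fun x => ‖∇ ζ x‖ ^ 2) = K.indicator fun x => ‖∇ ζ x‖ ^ 2 := by
        funext x
        by_cases hx : x ∈ K
        · rw [indicator_of_mem hx]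
        · rw [indicator_of_notMem hx, hζ0 x hx, norm_zero]; norm_num
      rw [h2, integrable_indicator_iff hKm]
      exact lip_grad_sq_loc hC hK
    exact inner_int_of_sq hAKm (measurable_gradient ζ).aestronglyMeasurable hAK2 hg2
  have L1 : Tendsto (fun n => ∫ x, χ n x * ⟪A x, ∇ ζ x⟫) atTop (𝓝 (∫ x, ⟪A x, ∇ ζ x⟫)) := by
    refine tendsto_integral_of_dominated_convergence (fun x => ‖⟪A x, ∇ ζ x⟫‖) (fun n => ?_)
      i1.norm (fun n => Eventually.of_forall fun x => ?_) ?_
    · exact (hD n).continuous.aestronglyMeasurable.mul i1.1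
    · rw [norm_mul, Real.norm_of_nonneg (hχ0 n x)]
      exact mul_le_of_le_one_left (norm_nonneg _) (hχ1 n x)
    · filter_upwards [hχt] with x hx
      have := hx.mul_const ⟪A x, ∇ ζ x⟫
      rwa [one_mul] at this
  -- second part
  have hGm : ∀ n, AEStronglyMeasurable (K.indicator fun x => ζ x • ∇ (χ n) x) volume := fun n =>
    (hcont.aestronglyMeasurable.smul (measurable_gradient (χ n)).aestronglyMeasurable).indicator hKm
  have hG2 : ∀ n, Integrable (fun x => ‖K.indicator (fun x => ζ x • ∇ (χ n) x) x‖ ^ 2) ∧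
      ∫ x, ‖K.indicator (fun x => ζ x • ∇ (χ n) x) x‖ ^ 2 ≤
        M ^ 2 * ∫ x in K, ‖∇ (χ n) x‖ ^ 2 := by
    intro n
    have h1 := lip_grad_sq_loc (hD n) hK
    have e : (fun x => ‖K.indicator (fun x => ζ x • ∇ (χ n) x) x‖ ^ 2) =
        K.indicator fun x => ‖ζ x • ∇ (χ n) x‖ ^ 2 := by
      funext x
      by_cases hx : x ∈ K
      · simp only [indicator_of_mem hx]
      · simp only [indicator_of_notMem hx, norm_zero]; norm_num
    have h2 : IntegrableOn (fun x => ‖ζ x • ∇ (χ n) x‖ ^ 2) K := by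
      refine (h1.const_mul (M ^ 2)).mono'
        ((hcont.measurable.smul (measurable_gradient (χ n))).norm.pow_const 2).aestronglyMeasurable
        (Eventually.of_forall fun x => ?_)
      rw [Real.norm_of_nonneg (by positivity), norm_smul, mul_pow, Real.norm_eq_abs]
      exact mul_le_mul_of_nonneg_right (pow_le_pow_left₀ (abs_nonneg _) (hMb x) 2) (by positivity)
    rw [e]
    refine ⟨(integrable_indicator_iff hKm).mpr h2, ?_⟩
    rw [integral_indicator hKm, ← integral_const_mul]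
    refine integral_mono h2 (h1.const_mul _) fun x => ?_
    simp only
    rw [norm_smul, mul_pow, Real.norm_eq_abs]
    exact mul_le_mul_of_nonneg_right (pow_le_pow_left₀ (abs_nonneg _) (hMb x) 2) (by positivity)
  have e2 : ∀ n, (fun x => ζ x * ⟪A x, ∇ (χ n) x⟫) =
      fun x => ⟪AK x, K.indicator (fun x => ζ x • ∇ (χ n) x) x⟫ := by
    intro n
    funext x
    by_cases hx : x ∈ K
    · simp only [hAK, indicator_of_mem hx, inner_smul_right]
    · simp only [hAK, indicator_of_notMem hx, hζz x hx, zero_mul, inner_zero_right]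
  have L2 : Tendsto (fun n => ∫ x, ζ x * ⟪A x, ∇ (χ n) x⟫) atTop (𝓝 0) := by
    rw [tendsto_zero_iff_norm_tendsto_zero]
    have h1 : Tendsto (fun n => √(∫ x, ‖AK x‖ ^ 2) * √(M ^ 2 * ∫ x in K, ‖∇ (χ n) x‖ ^ 2))
        atTop (𝓝 0) := by
      have h2 := (((Real.continuous_sqrt.tendsto _).comp (hχg.const_mul (M ^ 2)))).const_mul
        √(∫ x, ‖AK x‖ ^ 2)
      rw [mul_zero, Real.sqrt_zero, mul_zero] at h2
      exact h2
    refine squeeze_zero (fun n => norm_nonneg _) (fun n => ?_) h1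
    rw [e2 n, Real.norm_eq_abs]
    refine (abs_integral_inner_le hAKm (hGm n) hAK2 (hG2 n).1).trans ?_
    exact mul_le_mul_of_nonneg_left (Real.sqrt_le_sqrt (hG2 n).2) (Real.sqrt_nonneg _)
  -- the right side
  have L3 : Tendsto (fun n => ∫ x, ζ x * χ n x * F x) atTop (𝓝 (∫ x, ζ x * F x)) := by
    refine tendsto_integral_of_dominated_convergence (fun x => M * ‖F x‖) (fun n => ?_)
      (hF.norm.const_mul _) (fun n => Eventually.of_forall fun x => ?_) ?_
    · exact (hcont.aestronglyMeasurable.mul (hD n).continuous.aestronglyMeasurable).mul hF.1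
    · rw [norm_mul, norm_mul, Real.norm_eq_abs, Real.norm_of_nonneg (hχ0 n x)]
      refine mul_le_mul_of_nonneg_right ?_ (norm_nonneg _)
      calc |ζ x| * χ n x ≤ M * 1 := mul_le_mul (hMb x) (hχ1 n x) (hχ0 n x) hM0
        _ = M := mul_one _
    · filter_upwards [hχt] with x hx
      have := (hx.const_mul (ζ x)).mul_const (F x)
      rwa [mul_one] at this
  have hn : ∀ n, 0 ≤ (∫ x, ζ x * χ n x * F x) + ((∫ x, χ n x * ⟪A x, ∇ ζ x⟫) +
      ∫ x, ζ x * ⟪A x, ∇ (χ n) x⟫) := by
    intro n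
    have h1 := h _ (htest n)
    have i2 : Integrable fun x => χ n x * ⟪A x, ∇ ζ x⟫ := by
      refine i1.norm.mono' ((hD n).continuous.aestronglyMeasurable.mul i1.1)
        (Eventually.of_forall fun x => ?_)
      rw [norm_mul, Real.norm_of_nonneg (hχ0 n x)]
      exact mul_le_of_le_one_left (norm_nonneg _) (hχ1 n x)
    have i3 : Integrable fun x => ζ x * ⟪A x, ∇ (χ n) x⟫ := by
      rw [e2 n]
      exact inner_int_of_sq hAKm (hGm n) hAK2 (hG2 n).1
    have h2 : ∫ x, ⟪A x, ∇ (fun x => ζ x * χ n x) x⟫ =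
        (∫ x, χ n x * ⟪A x, ∇ ζ x⟫) + ∫ x, ζ x * ⟪A x, ∇ (χ n) x⟫ := by
      rw [← integral_add i2 i3]
      refine integral_congr_ae ?_
      filter_upwards [hgr n] with x hx
      rw [hx, inner_add_right, inner_smul_right, inner_smul_right]
    rw [h2] at h1
    exact h1
  have hlim := L3.add (L1.add L2)
  rw [add_zero] at hlim
  exact ge_of_tendsto' hlim hn

variable [hd : Fact (Module.finrank ℝ V = 3)]

/-- passage to the limit in a flux inequality, integrated flux conditions -/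
theorem flux_limit_int {R : ι → V} (hR : Function.Injective R) {J : V → V} {F : V → ℝ} {c : ι → ℝ}
    (hF : Integrable F)
    (hJ : ∀ K, IsCompact K → (∀ i, R i ∉ K) → IntegrableOn J K)
    (hflux : ∀ ζ, TestFn R ζ → 0 ≤ (∫ x, ζ x * F x) + ∫ x, ⟪J x, ∇ ζ x⟫)
    (hnuc : ∀ i, ∀ δ : ℝ, 0 < δ → ∀ᶠ ε in 𝓝[>] (0 : ℝ), -∫ x, ⟪J x, gcut ε (x - R i)⟫ ≤ c i + δ)
    (hinf : ∀ δ : ℝ, 0 < δ → ∀ᶠ N in atTop, ∫ x, ⟪J x, gcut N x⟫ ≤ δ) :
    0 ≤ (∫ x, F x) + ∑ i, c i := by
  haveI := nontriv (V := V)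
  -- it is enough to have the inequality up to `δ`
  have key : ∀ δ : ℝ, 0 < δ → 0 ≤ (∫ x, F x) + ∑ i, (c i + δ) + δ := by
    intro δ hδ
    set ε : ℕ → ℝ := fun n => ((n : ℝ) + 1)⁻¹ with hε
    set N : ℕ → ℝ := fun n => (n : ℝ) + 1 with hN
    have hεt : Tendsto ε atTop (𝓝 0) := by
      have := tendsto_one_div_add_atTop_nhds_zero_nat (𝕜 := ℝ)
      simpa [hε, one_div] using this
    have hNt : Tendsto N atTop atTop :=
      tendsto_atTop_add_const_right _ _ tendsto_natCast_atTop_atTop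
    have hε0 : ∀ n, 0 < ε n := fun n => by positivity
    have hN0 : ∀ n, 0 < N n := fun n => by positivity
    have hεt' : Tendsto ε atTop (𝓝[>] 0) :=
      tendsto_nhdsWithin_iff.mpr ⟨hεt, Eventually.of_forall hε0⟩
    have e1 : ∀ᶠ n in atTop, ∀ i j, i ≠ j → 4 * ε n ≤ ‖R i - R j‖ := by
      rw [eventually_all]; intro i
      rw [eventually_all]; intro j
      rcases eq_or_ne i j with h | h
      · exact Eventually.of_forall fun n hh => absurd h hh
      · have hpos : 0 < ‖R i - R j‖ := norm_pos_iff.2 (sub_ne_zero.2 (hR.ne h))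
        filter_upwards [(hεt.const_mul 4).eventually (gt_mem_nhds
          (show 4 * (0 : ℝ) < ‖R i - R j‖ by simpa using hpos))] with n hn _
        exact le_of_lt hn
    have e2 : ∀ᶠ n in atTop, ∀ i, ‖R i‖ + 2 * ε n ≤ N n := by
      rw [eventually_all]; intro i
      filter_upwards [hNt.eventually_ge_atTop (‖R i‖ + 2), hεt.eventually (gt_mem_nhds one_pos)]
        with n h1 h2
      linarith
    have hfine : ∀ᶠ n in atTop, Fine R (ε n) (N n) := by
      filter_upwards [e1, e2] with n h1 h2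
      exact ⟨hε0 n, hN0 n, h1, h2⟩
    have e3 : ∀ᶠ n in atTop, ∀ i, -∫ x, ⟪J x, gcut (ε n) (x - R i)⟫ ≤ c i + δ := by
      rw [eventually_all]; intro i
      exact hεt'.eventually (hnuc i δ hδ)
    have e4 : ∀ᶠ n in atTop, ∫ x, ⟪J x, gcut (N n) x⟫ ≤ δ := hNt.eventually (hinf δ hδ)
    -- the inequality at the level `n`
    have hn : ∀ᶠ n in atTop, 0 ≤ (∫ x, zet R (ε n) (N n) x * F x) + (∑ i, (c i + δ) + δ) := by
      filter_upwards [hfine, e3, e4] with n hf h3 h4
      have h5 := hflux _ (zet_test hf)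
      have hJi : ∀ i, IntegrableOn J (closedBall (R i) (2 * ε n) \ ball (R i) (ε n)) := by
        intro i
        refine hJ _ ((isCompact_closedBall _ _).diff isOpen_ball) fun j hj => ?_
        rcases eq_or_ne j i with h | h
        · rw [h] at hj
          exact hj.2 (mem_ball_self (hε0 n))
        · have := hf.sep j i h
          have h6 := hj.1
          rw [mem_closedBall, dist_eq_norm] at h6
          linarith [hε0 n]
      have hJN : IntegrableOn J (closedBall (0 : V) (2 * N n) \ ball 0 (N n)) := by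
        refine hJ _ ((isCompact_closedBall _ _).diff isOpen_ball) fun j hj => ?_
        refine hj.2 ?_
        rw [mem_ball_zero_iff]
        linarith [hf.big j, hε0 n]
      have h6 : ∫ x, ⟪J x, ∇ (zet R (ε n) (N n)) x⟫ =
          (∫ x, ⟪J x, gcut (N n) x⟫) - ∑ i, ∫ x, ⟪J x, gcut (ε n) (x - R i)⟫ := by
        have h7 : ∀ᵐ x : V, ⟪J x, ∇ (zet R (ε n) (N n)) x⟫ =
            ⟪J x, gcut (N n) (x - 0)⟫ - ∑ i, ⟪J x, gcut (ε n) (x - R i)⟫ := by
          filter_upwards [zet_grad hf] with x hx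
          rw [hx, gzet, inner_sub_right, inner_sum, sub_zero]
        rw [integral_congr_ae h7, integral_sub (inner_gcut_integrable (hN0 n) hJN)
          (integrable_finsetSum _ fun i _ => inner_gcut_integrable (hε0 n) (hJi i)),
          integral_finsetSum _ fun i _ => inner_gcut_integrable (hε0 n) (hJi i)]
        simp only [sub_zero]
      rw [h6] at h5
      have h11 : -∑ i, ∫ x, ⟪J x, gcut (ε n) (x - R i)⟫ ≤ ∑ i, (c i + δ) := by
        rw [← Finset.sum_neg_distrib]
        exact Finset.sum_le_sum fun i _ => h3 i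
      linarith
    -- the limit
    have hlim : Tendsto (fun n => ∫ x, zet R (ε n) (N n) x * F x) atTop (𝓝 (∫ x, F x)) := by
      refine tendsto_integral_filter_of_dominated_convergence (fun x => ‖F x‖) ?_ ?_ hF.norm ?_
      · filter_upwards [hfine] with n hf
        obtain ⟨C, hC⟩ := zet_lip hf
        exact hC.continuous.aestronglyMeasurable.mul hF.1
      · filter_upwards [hfine] with n hf
        refine Eventually.of_forall fun x => ?_
        rw [norm_mul, Real.norm_of_nonneg (zet_nonneg hf x)]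
        exact mul_le_of_le_one_left (norm_nonneg _) (zet_le_one hf x)
      · have hne : ∀ᵐ x : V, ∀ i, x ≠ R i := by
          rw [ae_all_iff]
          intro i
          rw [ae_iff]
          simp
        filter_upwards [hne] with x hx
        refine tendsto_const_nhds.congr' ?_
        have e5 : ∀ᶠ n in atTop, ∀ i, 2 * ε n ≤ ‖x - R i‖ := by
          rw [eventually_all]; intro i
          have hpos : 0 < ‖x - R i‖ := norm_pos_iff.2 (sub_ne_zero.2 (hx i))
          filter_upwards [(hεt.const_mul 2).eventually (gt_mem_nhds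
            (show 2 * (0 : ℝ) < ‖x - R i‖ by simpa using hpos))] with n hn
          exact le_of_lt hn
        filter_upwards [hfine, e5, hNt.eventually_ge_atTop ‖x‖] with n hf h5 h6
        rw [zet_eq' hf h5, cut_one (hN0 n) h6, one_mul]
    have := ge_of_tendsto (hlim.add_const (∑ i, (c i + δ) + δ)) hn
    linarith
  -- let `δ` tend to zero
  have hc : Tendsto (fun δ : ℝ => (∫ x, F x) + ∑ i, (c i + δ) + δ) (𝓝[>] 0)
      (𝓝 ((∫ x, F x) + ∑ i, (c i + 0) + 0)) := by
    refine Tendsto.mono_left (Continuous.tendsto ?_ 0) nhdsWithin_le_nhds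
    fun_prop
  have h := ge_of_tendsto hc (by
    filter_upwards [self_mem_nhdsWithin] with δ hδ
    exact key δ hδ)
  simpa using h

theorem locInt_of_sq {R : ι → V} {A : V → V} (hA : AEStronglyMeasurable A volume)
    (hA2 : LocInt R fun x => ‖A x‖ ^ 2) : LocInt R A := by
  intro K hK hR
  have h1 : IntegrableOn (fun x => ‖A x‖ ^ 2 + 1) K :=
    (hA2 K hK hR).add (integrableOn_const hK.measure_lt_top.ne)
  refine h1.mono' hA.restrict (Eventually.of_forall fun x => ?_)
  nlinarith [sq_nonneg (‖A x‖ - 1), norm_nonneg (A x)]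

end Pool.Agent.TF.Flux

namespace Pool.Agent.TF

open MeasureTheory Set Metric Filter Topology

open scoped ENNReal NNReal RealInnerProductSpace Gradient

variable {ι : Type*} [Fintype ι]

/-- **the calibration criterion for weak trial functions**: `A` a square integrable field off the
nuclei, `N` a set of capacity zero, `e` an integrable error, `d i` errors in the flux
conditions -/
theorem WTrial.Vtr_ge {z : ι → ℝ} (hz : ∀ i, 0 ≤ z i) {R : ι → X}
    (hR : Function.Injective R) {φ₀ : ℝ} (hφ : 0 < φ₀)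
    {ρ : X → ℝ} (hρ : TC ρ) (heq : ∀ x, ρ x = tf (Vpt z R x - pot ρ x - φ₀))
    {k : X → ℝ} {k' : X → X} (hk : WTrial k k')
    (hI : ∀ i, Integrable (fun x => (‖x - R i‖ ^ 2)⁻¹ * ‖k' x‖))
    {N : Set X} (hN : Flux.ZeroCap N) {A : X → X} {e : X → ℝ} (he : Integrable e) {d : ι → ℝ}
    (hA : AEStronglyMeasurable A volume) (hA2 : Flux.LocInt R fun x => ‖A x‖ ^ 2)
    (hflux : ∀ ζ, Flux.TestN R N ζ →
      -∫ x, ⟪A x, ∇ ζ x⟫ ≤ ∫ x, ζ x * (Fcal φ₀ z R ρ k k' x + e x))
    (hnuc : ∀ i, ∀ δ : ℝ, 0 < δ → ∀ᶠ ε in 𝓝[>] (0 : ℝ),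
      -∫ x, ⟪A x, Flux.gcut ε (x - R i)⟫ ≤ 2 * z i * (Vpt z R (R i) + k (R i)) + d i + δ)
    (hinf : ∀ δ : ℝ, 0 < δ → ∀ᶠ N in atTop, ∫ x, ⟪A x, Flux.gcut N x⟫ ≤ δ) :
    -(∫ x, e x) - ∑ i, d i ≤ Vtr φ₀ z R ρ k ((8 * Real.pi)⁻¹ * ∫ x, ‖k' x‖ ^ 2) := by
  obtain ⟨hF, hV⟩ := hk.calib_alg hz R hφ hρ heq hI
  have hFe : Integrable fun x => Fcal φ₀ z R ρ k k' x + e x := hF.add he
  have h := Flux.flux_limit_int hR (J := A) (F := fun x => Fcal φ₀ z R ρ k k' x + e x)
    (c := fun i => 2 * z i * (Vpt z R (R i) + k (R i)) + d i) hFe (Flux.locInt_of_sq hA hA2)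
    (fun ζ hζ => Flux.flux_of_zeroCap hN hA hA2 hFe (fun ξ hξ => by
      have := hflux ξ hξ
      linarith) hζ)
    (fun i δ hδ => by
      filter_upwards [hnuc i δ hδ] with ε hε
      exact hε) hinf
  rw [integral_add hF he, Finset.sum_add_distrib] at h
  rw [hV]
  linarith

end Pool.Agent.TF

namespace Pool.Agent.Lib.MP_9cf0c9_mp

open MeasureTheory Set Filter Topology Pool.Agent

end Pool.Agent.Lib.MP_9cf0c9_mp
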