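import Mathlib
import Pool.Agent.Lib.MP_9cf0c9_mp.Tr.Col83
import Pool.Agent.Lib.MP_9cf0c9_mp.Tr.ColJ
/-! The Pohozaev identity (stress tensor) off the axis, for weak solutions: if `∇u = u'` and
`div u' = l` weakly, then `div (⟨u', e⟩ u' - (1/2) |u'|² e) = ⟨u', e⟩ l` weakly. -/

set_option autoImplicit false

set_option linter.unusedSectionVars false

set_option linter.unusedVariables false

set_option linter.style.haveILetI false

namespace Pool.Agent.TF.Grd
end Pool.Agent.TF.Grd

namespace Pool.Agent.TF.Col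

open MeasureTheory Set Metric Filter Topology

open scoped ENNReal NNReal RealInnerProductSpace Gradient

open Pool.Agent.TF.Grd

/-! ### preliminaries -/

theorem Tst.mul_lip' {η f : X → ℝ} (h : Tst η) (hf : ∀ x ∈ tsupport η, LipAt f x) :
    Tst fun x => f x * η x := by
  obtain ⟨C, hC⟩ := h.lip
  have hsub : tsupport (fun x => f x * η x) ⊆ tsupport η := tsupport_mul_subset_right
  obtain ⟨r, hr0, hr⟩ := exists_radius h.cs
  have h1 := lipschitz_of_compact (u := fun x => f x * η x) (R := r) (fun x => ?_) hr0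
    fun x hx => ?_
  · exact ⟨h1.1, h1.2, h.off.mono_left hsub⟩
  · by_cases hx : x ∈ tsupport η
    · exact (hf x hx).mul (lipAt_of_lip hC x)
    · have h2 : (fun y => f y * η y) =ᶠ[𝓝 x] fun _ => 0 := by
        filter_upwards [(isClosed_tsupport η).isOpen_compl.mem_nhds hx] with y hy
        rw [image_eq_zero_of_notMem_tsupport hy, mul_zero]
      exact (LipAt.const 0 x).congr h2.symm
  · have : x ∉ tsupport η := fun h' => by
      have := hr h'
      rw [mem_ball_zero_iff] at this
      linarith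
    rw [image_eq_zero_of_notMem_tsupport this, mul_zero]

theorem Tst.collar {η : X → ℝ} (h : Tst η) : ∃ δ, 0 < δ ∧ cthickening δ (tsupport η) ⊆ axᶜ :=
  IsCompact.exists_cthickening_subset_open h.cs isOpen_off_ax
    (fun x hx => h.notMem hx)

theorem mem_collar {K : Set X} {δ : ℝ} {x y : X} (hx : x ∈ K) (h : ‖y - x‖ ≤ δ) :
    y ∈ cthickening δ K :=
  mem_cthickening_of_dist_le y x δ K hx (by rw [dist_eq_norm]; exact h)

theorem HasGradientAt.shift {u : X → ℝ} {g x v : X} (h : HasGradientAt u g (x + v)) :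
    HasGradientAt (fun y => u (y + v)) g x := by
  rw [hasGradientAt_iff_hasFDerivAt] at h ⊢
  have h1 := HasFDerivAt.comp x h ((hasFDerivAt_id (𝕜 := ℝ) x).add_const v)
  exact h1.congr_fderiv (ContinuousLinearMap.comp_id _)

/-- derivative along a line -/
theorem HasGradientAt.line {u : X → ℝ} {g x e : X} {s : ℝ} (h : HasGradientAt u g (x + s • e)) :
    HasDerivAt (fun s : ℝ => u (x + s • e)) ⟪g, e⟫ s := by
  have h1 : HasDerivAt (fun t : ℝ => x + t • e) e s := by
    simpa using ((hasDerivAt_id s).smul_const e).const_add x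
  have h3 := (HasGradientAt.hasFDerivAt h).comp_hasDerivAt s h1
  rw [InnerProductSpace.toDual_apply_apply] at h3
  exact h3

/-- one sided difference quotients -/
theorem HasGradientAt.quot {u : X → ℝ} {g x : X} (e : X) (h : HasGradientAt u g x) :
    Tendsto (fun t : ℝ => (u (x + t • e) - u x) / t) (𝓝[>] 0) (𝓝 ⟪g, e⟫) := by
  have h1 : HasDerivAt (fun s : ℝ => u (x + s • e)) ⟪g, e⟫ 0 :=
    HasGradientAt.line (s := 0) (by rwa [zero_smul, add_zero])
  have h2 := (hasDerivAt_iff_tendsto_slope_zero.mp h1).mono_left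
    (nhdsWithin_mono (0 : ℝ) fun t (ht : 0 < t) => ne_of_gt ht)
  refine h2.congr fun t => ?_
  rw [zero_add, zero_smul, add_zero, smul_eq_mul, div_eq_mul_inv, mul_comm]

/-- symmetric difference quotient -/
noncomputable def sdq (u : X → ℝ) (e : X) (t : ℝ) (x : X) : ℝ :=
  (u (x + t • e) - u (x + t • -e)) / (2 * t)

theorem sdq_tendsto {u : X → ℝ} {g x : X} (e : X) (h : HasGradientAt u g x) :
    Tendsto (fun t : ℝ => sdq u e t x) (𝓝[>] 0) (𝓝 ⟪g, e⟫) := by
  have h1 := HasGradientAt.quot e h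
  have h2 := HasGradientAt.quot (-e) h
  have h3 := (h1.sub h2).const_mul (1 / 2)
  rw [inner_neg_right] at h3
  have h4 : 1 / 2 * (⟪g, e⟫ - -⟪g, e⟫) = ⟪g, e⟫ := by ring
  rw [h4] at h3
  refine h3.congr' ?_
  filter_upwards [self_mem_nhdsWithin] with t ht
  have ht' : (t : ℝ) ≠ 0 := ne_of_gt ht
  unfold sdq
  field_simp
  ring

theorem shift_meas {E : Type*} [NormedAddCommGroup E] [SecondCountableTopology E]
    [MeasurableSpace E] [BorelSpace E] {A : X → E} (h : ContinuousOn A axᶜ) (v : X) :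
    AEStronglyMeasurable (fun x => A (x + v)) volume :=
  (off_ax_meas h).comp_measurePreserving (measurePreserving_add_right volume v)

section main

variable {u : X → ℝ} {u' : X → X} {l : X → ℝ}

/-- the difference quotient is bounded by the supremum of the gradient -/
theorem sdq_le (hu : C1O u u') {e x : X} {δ M t : ℝ} (ht : 0 < t) (hte : t * ‖e‖ ≤ δ)
    (hb : ∀ y, ‖y - x‖ ≤ δ → y ∉ ax ∧ ‖u' y‖ ≤ M) : |sdq u e t x| ≤ M * ‖e‖ := by
  have hd : ∀ s ∈ Icc (-t) t, HasDerivWithinAt (fun s : ℝ => u (x + s • e))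
      ⟪u' (x + s • e), e⟫ (Icc (-t) t) s := by
    intro s hs
    have h1 : ‖(x + s • e) - x‖ ≤ δ := by
      rw [add_sub_cancel_left, norm_smul, Real.norm_eq_abs]
      exact (mul_le_mul_of_nonneg_right (abs_le.mpr hs) (norm_nonneg e)).trans hte
    exact (HasGradientAt.line (hu.grad _ (hb _ h1).1)).hasDerivWithinAt
  have hbd : ∀ s ∈ Icc (-t) t, ‖⟪u' (x + s • e), e⟫‖ ≤ M * ‖e‖ := by
    intro s hs
    have h1 : ‖(x + s • e) - x‖ ≤ δ := by
      rw [add_sub_cancel_left, norm_smul, Real.norm_eq_abs]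
      exact (mul_le_mul_of_nonneg_right (abs_le.mpr hs) (norm_nonneg e)).trans hte
    exact (norm_inner_le_norm _ _).trans
      (mul_le_mul_of_nonneg_right (hb _ h1).2 (norm_nonneg e))
  have h := (convex_Icc (-t) t).norm_image_sub_le_of_norm_hasDerivWithin_le hd hbd
    (left_mem_Icc.mpr (by linarith)) (right_mem_Icc.mpr (by linarith))
  have h2 : ‖t - -t‖ = 2 * t := by
    rw [Real.norm_eq_abs, abs_of_pos (by linarith)]
    ring
  rw [h2, Real.norm_eq_abs] at h
  unfold sdq
  rw [abs_div, abs_of_pos (by linarith : 0 < 2 * t), div_le_iff₀ (by linarith)]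
  have e1 : x + t • -e = x + -t • e := by rw [smul_neg, neg_smul]
  rw [e1]
  exact h

/-- the identity for the difference quotients -/
theorem stress_t (hu : C1O u u') (hl : WD u' l) (e : X) {η : X → ℝ} (hη : Tst η) {δ M t : ℝ}
    (hδ : cthickening δ (tsupport η) ⊆ axᶜ) (hM : ∀ x ∈ cthickening δ (tsupport η), ‖u' x‖ ≤ M)
    (ht : 0 < t) (hte : t * ‖e‖ ≤ δ) :
    (∫ x, ⟪u' x, ∇ η x⟫ * sdq u e t x) -
      1 / 2 * (∫ x, (η (x + t • e) - η x) / t * ⟪u' x, u' (x + t • e)⟫) =
      -∫ x, l x * (sdq u e t x * η x) := by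
  obtain ⟨C, hC⟩ := hη.lip
  have hte2 : ‖t • e‖ ≤ δ := by rw [norm_smul, Real.norm_of_nonneg ht.le]; exact hte
  have hte3 : ‖t • -e‖ ≤ δ := by rw [smul_neg, norm_neg]; exact hte2
  have hδ0 : 0 ≤ δ := (norm_nonneg _).trans hte2
  have hoff : ∀ x ∈ tsupport η, ∀ v : X, ‖v‖ ≤ δ → x + v ∉ ax := fun x hx v hv =>
    hδ (mem_collar hx (by rwa [add_sub_cancel_left]))
  have hbd : ∀ x ∈ tsupport η, ∀ v : X, ‖v‖ ≤ δ → ‖u' (x + v)‖ ≤ M := fun x hx v hv =>
    hM _ (mem_collar hx (by rwa [add_sub_cancel_left]))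
  have hbd0 : ∀ x ∈ tsupport η, ‖u' x‖ ≤ M := fun x hx => by
    have := hbd x hx 0 (by rwa [norm_zero])
    rwa [add_zero] at this
  -- the gradient of the quotient
  have hgrad : ∀ x, x + t • e ∉ ax → x + t • -e ∉ ax → HasGradientAt (sdq u e t)
      ((2 * t)⁻¹ • (u' (x + t • e) - u' (x + t • -e))) x := by
    intro x h1 h2
    have h3 := HasGradientAt.shift (hu.grad _ h1)
    have h4 := HasGradientAt.shift (hu.grad _ h2)
    rw [hasGradientAt_iff_hasFDerivAt] at h3 h4 ⊢
    have h5 := (h3.sub h4).const_mul ((2 * t)⁻¹)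
    refine (h5.congr_of_eventuallyEq (Eventually.of_forall fun y => ?_)).congr_fderiv ?_
    · simp only [sdq, Pi.sub_apply]
      rw [div_eq_inv_mul]
    · rw [map_smul, map_sub]
  have hlip : ∀ x ∈ tsupport η, LipAt (sdq u e t) x := by
    intro x hx
    have h1 : x + t • e ∉ ax := hoff x hx _ hte2
    have h2 : x + t • -e ∉ ax := hoff x hx _ hte3
    have c1 : ContinuousAt (fun y : X => y + t • e) x := by fun_prop
    have c2 : ContinuousAt (fun y : X => y + t • -e) x := by fun_prop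
    have h3 : ∀ᶠ y in 𝓝 x, y + t • e ∉ ax ∧ y + t • -e ∉ ax :=
      (c1.eventually (nhds_off h1)).and (c2.eventually (nhds_off h2))
    obtain ⟨r, hr, hb⟩ := Metric.eventually_nhds_iff_ball.mp h3
    refine lipAt_of_gradient hr (fun y hy => hgrad y (hb y hy).1 (hb y hy).2) ?_
    have h4 : ContinuousAt (fun y => u' (y + t • e)) x :=
      ContinuousAt.comp (f := fun y : X => y + t • e) (g := u') (hu.contAt h1) c1
    have h5 : ContinuousAt (fun y => u' (y + t • -e)) x :=
      ContinuousAt.comp (f := fun y : X => y + t • -e) (g := u') (hu.contAt h2) c2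
    have h6 : ContinuousAt (fun y => u' (y + t • e) - u' (y + t • -e)) x := h4.sub h5
    exact ContinuousAt.smul (f := fun _ : X => (2 * t)⁻¹) continuousAt_const h6
  have hT : Tst fun x => sdq u e t x * η x := hη.mul_lip' hlip
  have key := hl.tst hT
  -- the gradient of the test function
  have hg : ∀ᵐ x : X, ⟪u' x, ∇ (fun x => sdq u e t x * η x) x⟫ =
      ⟪u' x, ∇ η x⟫ * sdq u e t x + (2 * t)⁻¹ * (η x * ⟪u' x, u' (x + t • e)⟫ -
        η x * ⟪u' x, u' (x + t • -e)⟫) := by
    filter_upwards [hC.ae_differentiableAt (μ := (volume : Measure X))] with x hx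
    by_cases hxs : x ∈ tsupport η
    · have h2 := hgrad x (hoff x hxs _ hte2) (hoff x hxs _ hte3)
      have h3 := hx.hasGradientAt
      have h4 : HasGradientAt (fun x => sdq u e t x * η x) (sdq u e t x • ∇ η x + η x •
          ((2 * t)⁻¹ • (u' (x + t • e) - u' (x + t • -e)))) x := by
        rw [hasGradientAt_iff_hasFDerivAt] at h2 h3 ⊢
        refine (h2.mul h3).congr_fderiv ?_
        simp only [map_add, map_smul]
      rw [h4.gradient, inner_add_right, real_inner_smul_right, real_inner_smul_right,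
        real_inner_smul_right, inner_sub_right]
      ring
    · have h2 : (fun y => sdq u e t y * η y) =ᶠ[𝓝 x] fun _ => 0 := by
        filter_upwards [(isClosed_tsupport η).isOpen_compl.mem_nhds hxs] with y hy
        rw [image_eq_zero_of_notMem_tsupport hy, mul_zero]
      rw [h2.gradient_eq, gradient_zero_of_notMem hxs, image_eq_zero_of_notMem_tsupport hxs]
      simp [gradient]
  -- measurability
  have mu' : AEStronglyMeasurable u' volume := off_ax_meas hu.cont
  have mη : AEStronglyMeasurable η volume := hC.continuous.aestronglyMeasurable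
  have iη : Integrable η := hC.continuous.integrable_of_hasCompactSupport hη.cs
  have mshift : ∀ v : X, AEStronglyMeasurable (fun x => u' (x + v)) volume :=
    fun v => shift_meas hu.cont v
  have msdq : AEStronglyMeasurable (sdq u e t) volume := by
    have h1 : AEStronglyMeasurable (fun x => (2 * t)⁻¹ * (u (x + t • e) - u (x + t • -e))) volume :=
      ((shift_meas hu.cont0 (t • e)).sub (shift_meas hu.cont0 (t • -e))).const_mul _
    refine h1.congr (Eventually.of_forall fun x => ?_)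
    simp only [sdq]
    rw [div_eq_inv_mul]
  -- integrability
  have hP : ∀ v : X, ‖v‖ ≤ δ → Integrable fun x => η x * ⟪u' x, u' (x + v)⟫ := by
    intro v hv
    refine Integrable.mono' (iη.norm.mul_const (M * M)) (mη.mul (mu'.inner (mshift v)))
      (Eventually.of_forall fun x => ?_)
    by_cases hx : x ∈ tsupport η
    · rw [norm_mul]
      refine mul_le_mul_of_nonneg_left ?_ (norm_nonneg _)
      refine (norm_inner_le_norm _ _).trans ?_
      exact mul_le_mul (hbd0 x hx) (hbd x hx v hv) (norm_nonneg _)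
        ((norm_nonneg _).trans (hbd0 x hx))
    · rw [image_eq_zero_of_notMem_tsupport hx]
      simp
  have hF : Integrable fun x => ⟪u' x, ∇ η x⟫ * sdq u e t x := by
    refine Integrable.mono' ((hη.int_inner hu.cont).norm.mul_const (M * ‖e‖))
      ((hη.int_inner hu.cont).1.mul msdq) (Eventually.of_forall fun x => ?_)
    by_cases hx : x ∈ tsupport η
    · rw [norm_mul]
      refine mul_le_mul_of_nonneg_left ?_ (norm_nonneg _)
      rw [Real.norm_eq_abs]
      exact sdq_le hu ht hte fun y hy => ⟨hδ (mem_collar hx hy), hM _ (mem_collar hx hy)⟩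
    · rw [gradient_zero_of_notMem hx, inner_zero_right]
      simp
  have hP1 := hP _ hte2
  have hP2 := hP _ hte3
  have hPm : Integrable fun x => (2 * t)⁻¹ * (η x * ⟪u' x, u' (x + t • e)⟫ -
        η x * ⟪u' x, u' (x + t • -e)⟫) := (hP1.sub hP2).const_mul _
  rw [integral_congr_ae hg, integral_add hF hPm, integral_const_mul,
    integral_sub hP1 hP2] at key
  -- the shift
  have hs1 : Integrable fun x => η (x + t • e) * ⟪u' x, u' (x + t • e)⟫ := by
    have h1 := hP2.comp_add_right (t • e)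
    refine h1.congr (Eventually.of_forall fun x => ?_)
    simp only
    rw [add_assoc, smul_neg, add_neg_cancel, add_zero, real_inner_comm]
  have hs2 : ∫ x, η x * ⟪u' x, u' (x + t • -e)⟫ =
      ∫ x, η (x + t • e) * ⟪u' x, u' (x + t • e)⟫ := by
    rw [← integral_add_right_eq_self (fun x => η x * ⟪u' x, u' (x + t • -e)⟫) (t • e)]
    refine integral_congr_ae (Eventually.of_forall fun x => ?_)
    simp only
    rw [add_assoc, smul_neg, add_neg_cancel, add_zero, real_inner_comm]
  have hs3 : ∫ x, (η (x + t • e) - η x) / t * ⟪u' x, u' (x + t • e)⟫ =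
      t⁻¹ * ((∫ x, η (x + t • e) * ⟪u' x, u' (x + t • e)⟫) -
        ∫ x, η x * ⟪u' x, u' (x + t • e)⟫) := by
    rw [← integral_sub hs1 hP1, ← integral_const_mul]
    refine integral_congr_ae (Eventually.of_forall fun x => ?_)
    simp only
    rw [div_eq_inv_mul]
    ring
  rw [hs2] at key
  rw [hs3, ← key, mul_inv]
  ring

/-- the Pohozaev identity, tested -/
theorem stress_tst (hu : C1O u u') (hl : WD u' l) (e : X) {η : X → ℝ} (hη : Tst η) :
    (∫ x, ⟪u' x, ∇ η x⟫ * ⟪u' x, e⟫) - 1 / 2 * (∫ x, ⟪∇ η x, e⟫ * ‖u' x‖ ^ 2) =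
      -∫ x, l x * (⟪u' x, e⟫ * η x) := by
  obtain ⟨C, hC⟩ := hη.lip
  obtain ⟨δ, hδp, hδ⟩ := hη.collar
  have hK : IsCompact (cthickening δ (tsupport η)) := IsCompact.cthickening hη.cs
  obtain ⟨M, hM⟩ := hK.exists_bound_of_continuousOn (hu.cont.mono hδ)
  have hte : ∀ᶠ t in 𝓝[>] (0 : ℝ), 0 < t ∧ t * ‖e‖ ≤ δ := by
    have h1 : ∀ᶠ t in 𝓝 (0 : ℝ), t * ‖e‖ < δ := by
      have h2 : ContinuousAt (fun t : ℝ => t * ‖e‖) 0 := by fun_prop
      exact h2.eventually (gt_mem_nhds (by show (0 : ℝ) * ‖e‖ < δ; rw [zero_mul]; exact hδp))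
    filter_upwards [mem_nhdsWithin_of_mem_nhds h1, self_mem_nhdsWithin] with t h3 h4
    exact ⟨h4, h3.le⟩
  have hcol : ∀ x ∈ tsupport η, ∀ y, ‖y - x‖ ≤ δ → y ∉ ax ∧ ‖u' y‖ ≤ M := fun x hx y hy =>
    ⟨hδ (mem_collar hx hy), hM _ (mem_collar hx hy)⟩
  have mu' : AEStronglyMeasurable u' volume := off_ax_meas hu.cont
  have msdq : ∀ t : ℝ, AEStronglyMeasurable (sdq u e t) volume := by
    intro t
    have h1 : AEStronglyMeasurable (fun x => (2 * t)⁻¹ * (u (x + t • e) - u (x + t • -e))) volume :=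
      ((shift_meas hu.cont0 (t • e)).sub (shift_meas hu.cont0 (t • -e))).const_mul _
    refine h1.congr (Eventually.of_forall fun x => ?_)
    simp only [sdq]
    rw [div_eq_inv_mul]
  have iη : Integrable η := hC.continuous.integrable_of_hasCompactSupport hη.cs
  -- first limit
  have L1 : Tendsto (fun t => ∫ x, ⟪u' x, ∇ η x⟫ * sdq u e t x) (𝓝[>] 0)
      (𝓝 (∫ x, ⟪u' x, ∇ η x⟫ * ⟪u' x, e⟫)) := by
    refine tendsto_integral_filter_of_dominated_convergence
      (fun x => ‖⟪u' x, ∇ η x⟫‖ * (M * ‖e‖)) ?_ ?_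
      ((hη.int_inner hu.cont).norm.mul_const _) ?_
    · exact Eventually.of_forall fun t => (hη.int_inner hu.cont).1.mul (msdq t)
    · filter_upwards [hte] with t ht
      refine Eventually.of_forall fun x => ?_
      by_cases hx : x ∈ tsupport η
      · rw [norm_mul]
        refine mul_le_mul_of_nonneg_left ?_ (norm_nonneg _)
        rw [Real.norm_eq_abs]
        exact sdq_le hu ht.1 ht.2 (hcol x hx)
      · rw [gradient_zero_of_notMem hx, inner_zero_right]
        simp
    · filter_upwards [ae_off_ax] with x hx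
      exact (sdq_tendsto e (hu.grad x hx)).const_mul _
  -- second limit
  have L2 : Tendsto (fun t : ℝ => ∫ x, (η (x + t • e) - η x) / t * ⟪u' x, u' (x + t • e)⟫)
      (𝓝[>] 0) (𝓝 (∫ x, ⟪∇ η x, e⟫ * ‖u' x‖ ^ 2)) := by
    refine tendsto_integral_filter_of_dominated_convergence
      ((cthickening δ (tsupport η)).indicator fun _ => C * ‖e‖ * (M * M)) ?_ ?_ ?_ ?_
    · refine Eventually.of_forall fun t => ?_
      refine AEStronglyMeasurable.mul ?_ (mu'.inner (shift_meas hu.cont (t • e)))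
      have : Continuous fun x => (η (x + t • e) - η x) / t :=
        ((hC.continuous.comp (continuous_id.add continuous_const)).sub hC.continuous).div_const t
      exact this.aestronglyMeasurable
    · filter_upwards [hte] with t ht
      refine Eventually.of_forall fun x => ?_
      have hte2 : ‖t • e‖ ≤ δ := by rw [norm_smul, Real.norm_of_nonneg ht.1.le]; exact ht.2
      have hδ0 : 0 ≤ δ := hδp.le
      have hmain : ∀ y ∈ tsupport η, ‖x - y‖ ≤ δ → ‖(x + t • e) - y‖ ≤ δ →
          ‖(η (x + t • e) - η x) / t * ⟪u' x, u' (x + t • e)⟫‖ ≤ C * ‖e‖ * (M * M) := by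
        intro y hy h1 h2
        rw [norm_mul]
        have h3 : ‖(η (x + t • e) - η x) / t‖ ≤ C * ‖e‖ := by
          rw [norm_div, Real.norm_of_nonneg ht.1.le, div_le_iff₀ ht.1]
          have h4 := hC.norm_sub_le (x + t • e) x
          rw [add_sub_cancel_left, norm_smul, Real.norm_of_nonneg ht.1.le] at h4
          linarith
        refine mul_le_mul h3 ?_ (norm_nonneg _) (by positivity)
        refine (norm_inner_le_norm _ _).trans ?_
        exact mul_le_mul (hcol y hy x h1).2 (hcol y hy _ h2).2 (norm_nonneg _)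
          ((norm_nonneg _).trans (hcol y hy x h1).2)
      by_cases h1 : x ∈ tsupport η
      · rw [indicator_of_mem (self_subset_cthickening _ h1)]
        exact hmain x h1 (by rwa [sub_self, norm_zero]) (by rwa [add_sub_cancel_left])
      · by_cases h2 : x + t • e ∈ tsupport η
        · have h3 : ‖x - (x + t • e)‖ ≤ δ := by
            rw [sub_add_cancel_left, norm_neg]
            exact hte2
          rw [indicator_of_mem (mem_collar h2 h3)]
          exact hmain _ h2 h3 (by rwa [sub_self, norm_zero])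
        · rw [image_eq_zero_of_notMem_tsupport h1, image_eq_zero_of_notMem_tsupport h2, sub_zero,
            zero_div, zero_mul, norm_zero]
          by_cases h3 : x ∈ cthickening δ (tsupport η)
          · rw [indicator_of_mem h3]
            have := hM x h3
            have h4 : 0 ≤ M := (norm_nonneg _).trans this
            positivity
          · rw [indicator_of_notMem h3]
    · rw [integrable_indicator_iff hK.measurableSet]
      exact integrableOn_const hK.measure_lt_top.ne
    · filter_upwards [ae_off_ax, hC.ae_differentiableAt (μ := (volume : Measure X))] with x hx hd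
      have h1 := HasGradientAt.quot e hd.hasGradientAt
      have h2 : Tendsto (fun t : ℝ => u' (x + t • e)) (𝓝[>] 0) (𝓝 (u' x)) := by
        have h3 : ContinuousAt (fun t : ℝ => x + t • e) 0 := by fun_prop
        have h4 : Tendsto (fun t : ℝ => x + t • e) (𝓝 0) (𝓝 x) := by
          have := h3.tendsto
          rwa [zero_smul, add_zero] at this
        exact ((hu.contAt hx).tendsto.comp h4).mono_left nhdsWithin_le_nhds
      have h3 : Tendsto (fun t : ℝ => ⟪u' x, u' (x + t • e)⟫) (𝓝[>] 0) (𝓝 (‖u' x‖ ^ 2)) := by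
        rw [← real_inner_self_eq_norm_sq]
        exact tendsto_const_nhds.inner h2
      exact h1.mul h3
  -- third limit
  have L3 : Tendsto (fun t => ∫ x, l x * (sdq u e t x * η x)) (𝓝[>] 0)
      (𝓝 (∫ x, l x * (⟪u' x, e⟫ * η x))) := by
    refine tendsto_integral_filter_of_dominated_convergence
      (fun x => ‖l x * η x‖ * (M * ‖e‖)) ?_ ?_
      ((hη.int_mul hl.contd).norm.mul_const _) ?_
    · exact Eventually.of_forall fun t =>
        (off_ax_meas hl.contd).mul ((msdq t).mul hC.continuous.aestronglyMeasurable)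
    · filter_upwards [hte] with t ht
      refine Eventually.of_forall fun x => ?_
      by_cases hx : x ∈ tsupport η
      · have h1 := sdq_le hu ht.1 ht.2 (hcol x hx)
        rw [norm_mul, norm_mul, norm_mul, Real.norm_eq_abs (sdq u e t x)]
        have h2 : 0 ≤ ‖l x‖ * ‖η x‖ := by positivity
        calc ‖l x‖ * (|sdq u e t x| * ‖η x‖) = ‖l x‖ * ‖η x‖ * |sdq u e t x| := by ring
          _ ≤ ‖l x‖ * ‖η x‖ * (M * ‖e‖) := mul_le_mul_of_nonneg_left h1 h2
      · rw [image_eq_zero_of_notMem_tsupport hx]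
        simp
    · filter_upwards [ae_off_ax] with x hx
      exact ((sdq_tendsto e (hu.grad x hx)).mul_const _).const_mul _
  have L := (L1.sub (L2.const_mul (1 / 2))).add L3
  have h0 : ∀ᶠ t in 𝓝[>] (0 : ℝ), ((∫ x, ⟪u' x, ∇ η x⟫ * sdq u e t x) -
      1 / 2 * (∫ x, (η (x + t • e) - η x) / t * ⟪u' x, u' (x + t • e)⟫)) +
      (∫ x, l x * (sdq u e t x * η x)) = 0 := by
    filter_upwards [hte] with t ht
    rw [stress_t hu hl e hη hδ hM ht.1 ht.2]
    ring
  have h1 := tendsto_nhds_unique (tendsto_const_nhds.congr' (h0.mono fun t ht => ht.symm)) L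
  linarith

/-- **the stress tensor off the axis** -/
theorem WD.stress (hu : C1O u u') (hl : WD u' l) (e : X) :
    WD (fun x => ⟪u' x, e⟫ • u' x - (1 / 2 * ‖u' x‖ ^ 2) • e) fun x => ⟪u' x, e⟫ * l x := by
  have c1 : ContinuousOn (fun x => ⟪u' x, e⟫) axᶜ := hu.cont.inner continuousOn_const
  have c2 : ContinuousOn (fun x => ⟪u' x, e⟫ • u' x) axᶜ := c1.smul hu.cont
  have c3 : ContinuousOn (fun x => (1 / 2 * ‖u' x‖ ^ 2) • e) axᶜ :=
    (continuousOn_const.mul (hu.cont.norm.pow 2)).smul continuousOn_const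
  refine WD.of_tst (c2.sub c3) (c1.mul hl.contd) fun η hη => ?_
  have h := stress_tst hu hl e hη
  simp_rw [inner_sub_left]
  rw [integral_sub (hη.int_inner c2) (hη.int_inner c3)]
  have e1 : ∫ x, ⟪⟪u' x, e⟫ • u' x, ∇ η x⟫ = ∫ x, ⟪u' x, ∇ η x⟫ * ⟪u' x, e⟫ := by
    refine integral_congr_ae (Eventually.of_forall fun x => ?_)
    simp only
    rw [real_inner_smul_left, mul_comm]
  have e2 : ∫ x, ⟪(1 / 2 * ‖u' x‖ ^ 2) • e, ∇ η x⟫ =
      1 / 2 * ∫ x, ⟪∇ η x, e⟫ * ‖u' x‖ ^ 2 := by
    rw [← integral_const_mul]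
    refine integral_congr_ae (Eventually.of_forall fun x => ?_)
    simp only
    rw [real_inner_smul_left, real_inner_comm]
    ring
  have e3 : ∫ x, ⟪u' x, e⟫ * l x * η x = ∫ x, l x * (⟪u' x, e⟫ * η x) := by
    refine integral_congr_ae (Eventually.of_forall fun x => ?_)
    simp only
    ring
  rw [e1, e2, e3]
  exact h

end main

section corollaries

variable {u v : X → ℝ} {u' v' : X → X} {l m : X → ℝ}

/-- the polarised stress tensor -/
theorem WD.stress2 (hu : C1O u u') (hl : WD u' l) (hv : C1O v v') (hm : WD v' m) (e : X) :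
    WD (fun x => ⟪u' x, e⟫ • v' x + ⟪v' x, e⟫ • u' x - ⟪u' x, v' x⟫ • e)
      fun x => ⟪u' x, e⟫ * m x + ⟪v' x, e⟫ * l x := by
  have h1 := WD.stress (hu.add hv) (hl.add hm) e
  have h2 := (h1.sub (WD.stress hu hl e)).sub (WD.stress hv hm e)
  refine h2.congr (fun x _ => ?_) fun x _ => ?_
  · have h3 : ‖u' x + v' x‖ ^ 2 = ‖u' x‖ ^ 2 + 2 * ⟪u' x, v' x⟫ + ‖v' x‖ ^ 2 :=
      norm_add_sq_real _ _
    rw [h3, inner_add_left]
    module
  · rw [inner_add_left]
    ring

/-- the transverse part in the frame `eb` -/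
theorem perp_sum (x : X) : perp x = ∑ j, ⟪x, eb j⟫ • eb j := by
  refine ext_inner_left ℝ fun y => ?_
  rw [inner_sum, ← sum_inner_eb]
  refine Finset.sum_congr rfl fun j _ => ?_
  rw [real_inner_smul_right, mul_comm]

/-- the polarised stress tensor, tested with an axially symmetric field `α e₁ + β x_⊥` -/
theorem WD.stressF2 (hu : C1O u u') (hl : WD u' l) (hv : C1O v v') (hm : WD v' m)
    {α β : X → ℝ} {α' β' : X → X} (ha : C1O α α') (hb : C1O β β') :
    WD (fun x => ⟪u' x, α x • e1 + β x • perp x⟫ • v' x +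
        ⟪v' x, α x • e1 + β x • perp x⟫ • u' x - ⟪u' x, v' x⟫ • (α x • e1 + β x • perp x))
      fun x => ⟪u' x, α x • e1 + β x • perp x⟫ * m x + ⟪v' x, α x • e1 + β x • perp x⟫ * l x +
        (⟪u' x, e1⟫ * ⟪α' x, v' x⟫ + ⟪v' x, e1⟫ * ⟪α' x, u' x⟫) +
        (⟪u' x, perp x⟫ * ⟪β' x, v' x⟫ + ⟪v' x, perp x⟫ * ⟪β' x, u' x⟫) +
        2 * β x * ⟪u' x, perp (v' x)⟫ -
        (⟪α' x, e1⟫ + ⟪β' x, perp x⟫ + 2 * β x) * ⟪u' x, v' x⟫ := by
  have h1 := (WD.stress2 hu hl hv hm e1).mul ha
  have h2 := WD.sum Finset.univ fun (j : Fin 2) _ =>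
    (WD.stress2 hu hl hv hm (eb j)).mul (hb.mul (C1O.inner_const' (eb j)))
  refine (h1.add h2).congr (fun x _ => ?_) fun x _ => ?_
  · have e1' : ∀ w : X, ⟪w, perp x⟫ = ∑ j, ⟪x, eb j⟫ * ⟪w, eb j⟫ := fun w => by
      rw [perp_sum, inner_sum]
      exact Finset.sum_congr rfl fun j _ => real_inner_smul_right _ _ _
    simp only [inner_add_right, real_inner_smul_right, e1']
    rw [perp_sum]
    simp only [Fin.sum_univ_two]
    module
  · have e2 : ∀ w : X, ⟪w, perp x⟫ = ⟪x, eb 0⟫ * ⟪w, eb 0⟫ + ⟪x, eb 1⟫ * ⟪w, eb 1⟫ := fun w => by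
      rw [perp_sum, inner_sum, Fin.sum_univ_two, real_inner_smul_right, real_inner_smul_right]
    have e3 : ⟪u' x, perp (v' x)⟫ = ⟪u' x, eb 0⟫ * ⟪v' x, eb 0⟫ + ⟪u' x, eb 1⟫ * ⟪v' x, eb 1⟫ := by
      rw [← sum_inner_eb, Fin.sum_univ_two]
    simp only [Fin.sum_univ_two, inner_add_left, inner_add_right, inner_sub_right,
      real_inner_smul_left, real_inner_smul_right, inner_eb_self, e2, e3]
    rw [real_inner_comm (u' x) (eb 0), real_inner_comm (u' x) (eb 1),
      real_inner_comm (v' x) (eb 0), real_inner_comm (v' x) (eb 1)]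
    ring

/-- the stress tensor, tested with an axially symmetric field `α e₁ + β x_⊥` -/
theorem WD.stressF (hu : C1O u u') (hl : WD u' l)
    {α β : X → ℝ} {α' β' : X → X} (ha : C1O α α') (hb : C1O β β') :
    WD (fun x => ⟪u' x, α x • e1 + β x • perp x⟫ • u' x -
        (1 / 2 * ‖u' x‖ ^ 2) • (α x • e1 + β x • perp x))
      fun x => ⟪u' x, α x • e1 + β x • perp x⟫ * l x +
        ⟪u' x, e1⟫ * ⟪α' x, u' x⟫ + ⟪u' x, perp x⟫ * ⟪β' x, u' x⟫ +
        β x * ‖perp (u' x)‖ ^ 2 -
        1 / 2 * (⟪α' x, e1⟫ + ⟪β' x, perp x⟫ + 2 * β x) * ‖u' x‖ ^ 2 := by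
  have h := (WD.stressF2 hu hl hu hl ha hb).const_smul (1 / 2)
  refine h.congr (fun x _ => ?_) fun x _ => ?_
  · rw [real_inner_self_eq_norm_sq]
    module
  · have h1 : ‖perp (u' x)‖ ^ 2 = ⟪u' x, perp (u' x)⟫ := by
      rw [norm_perp, inner_self_perp]
    rw [real_inner_self_eq_norm_sq, h1]
    ring

end corollaries

end Pool.Agent.TF.Col
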