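import Mathlib
import Pool.Agent.Lib.MP_9cf0c9_mp.Tr.ColJ
/-! Two nuclei: the trial `Y = p (r² + (c - a)(b - c))` and its equation; the identity with the
transverse weight `s²` (algebraic part). -/

set_option autoImplicit false

set_option linter.unusedSectionVars false

set_option linter.unusedVariables false

set_option linter.unusedSimpArgs false

namespace Pool.Agent.TF.Grd
end Pool.Agent.TF.Grd

namespace Pool.Agent.TF.Col

open MeasureTheory Set Metric Filter Topology

open scoped ENNReal NNReal RealInnerProductSpace Gradient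

open Pool.Agent.TF.Grd

variable {ι : Type*} [Fintype ι]

variable {φ₀ : ℝ} {z : ι → ℝ} {R : ι → X} {ρ : X → ℝ} {H : X → X →L[ℝ] X} {lo hi : ℝ}

/-- the transverse weak divergence -/
theorem WD.perp : WD Col.perp fun _ => 2 := by
  refine (WD.of_c1 (A := Col.perp)
    (T := fun _ => ContinuousLinearMap.id ℝ X - (innerSL ℝ e1).smulRight e1)
    (fun x _ => hasFDerivAt_perp x) continuousOn_const).congr_div fun x _ => ?_
  unfold tr
  have hj : ∀ j, ⟪(ContinuousLinearMap.id ℝ X - (innerSL ℝ e1).smulRight e1)
      (stdOrthonormalBasis ℝ X j), stdOrthonormalBasis ℝ X j⟫ =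
      1 - ⟪e1, stdOrthonormalBasis ℝ X j⟫ * ⟪e1, stdOrthonormalBasis ℝ X j⟫ := fun j => by
    rw [sub_apply, inner_sub_left, ContinuousLinearMap.id_apply, real_inner_self_eq_norm_sq,
      (stdOrthonormalBasis ℝ X).norm_eq_one, ContinuousLinearMap.smulRight_apply,
      innerSL_apply_apply, real_inner_smul_left]
    ring
  simp_rw [hj]
  rw [Finset.sum_sub_distrib, sum_inner_mul', inner_e1_self]
  simp only [Finset.sum_const, Finset.card_univ, Fintype.card_fin, nsmul_eq_mul, mul_one]
  have : Module.finrank ℝ X = 3 := Fact.out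
  rw [this]; norm_num

end Pool.Agent.TF.Col
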