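import Mathlib
import Pool.Agent.Lib.MP_9cf0c9_mp.Tr.ColJ
/-! Collinear nuclei: the identity for the trial `Y = p (r² + τ)`. -/

set_option autoImplicit false

set_option linter.unusedSectionVars false

set_option linter.unusedVariables false

namespace Pool.Agent.TF.Grd
end Pool.Agent.TF.Grd

namespace Pool.Agent.TF.Col

open MeasureTheory Set Metric Filter Topology

open scoped ENNReal NNReal RealInnerProductSpace Gradient

open Pool.Agent.TF.Grd

variable {ι : Type*} [Fintype ι]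

variable {φ₀ : ℝ} {z : ι → ℝ} {R : ι → X} {ρ : X → ℝ} {H : X → X →L[ℝ] X} {lo hi : ℝ}

/-- the square of the distance to the foot -/
noncomputable def r2 (z : ι → ℝ) (R : ι → X) (ρ : X → ℝ) (x : X) : ℝ :=
  zt z R ρ x ^ 2 + ht x ^ 2

/-- the trial `Y = p (r² + τ)` -/
noncomputable def Yt (z : ι → ℝ) (R : ι → X) (ρ : X → ℝ) (τ : X → ℝ) (x : X) : ℝ :=
  pf z R ρ x * (r2 z R ρ x + τ x)

/-- its gradient -/
noncomputable def Yt' (z : ι → ℝ) (R : ι → X) (ρ : X → ℝ) (H : X → X →L[ℝ] X) (τ : X → ℝ)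
    (τ' : X → X) (x : X) : X :=
  pf z R ρ x • ((2 : ℝ) • Vf z R ρ x - (2 * zt z R ρ x) • cf' z R ρ H x + τ' x) +
    (r2 z R ρ x + τ x) • pf' z R ρ H x

end Pool.Agent.TF.Col
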