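import Mathlib
import Pool.Agent.Lib.MP_9cf0c9_mp.Tr.ColJ
import Pool.Agent.Lib.MP_9cf0c9_mp.Tr.HolHess86
/-! Collinear nuclei: the currents `Jt` and `NH` near the axis. -/

set_option autoImplicit false

set_option linter.unusedSectionVars false

set_option linter.unusedVariables false

namespace Pool.Agent.TF.Grd
end Pool.Agent.TF.Grd

namespace Pool.Agent.TF.Col

open MeasureTheory Set Metric Filter Topology

open scoped ENNReal NNReal RealInnerProductSpace Gradient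

open Pool.Agent.TF.Grd

variable {ι : Type*} [Fintype ι]

variable {φ₀ : ℝ} {z : ι → ℝ} {R : ι → X} {ρ : X → ℝ} {H : X → X →L[ℝ] X} {lo hi : ℝ}

theorem bdd_nhds {E : Type*} [NormedAddCommGroup E] {f : X → E} {x₀ : X}
    (hf : ContinuousAt f x₀) :
    ∃ B δ : ℝ, 0 < δ ∧ 0 ≤ B ∧ ∀ x ∈ ball x₀ δ, ‖f x‖ ≤ B := by
  have h1 : ∀ᶠ x in 𝓝 x₀, ‖f x‖ < ‖f x₀‖ + 1 :=
    hf.norm.eventually (gt_mem_nhds (by linarith))
  obtain ⟨δ, hδ, h⟩ := Metric.eventually_nhds_iff_ball.mp h1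
  exact ⟨‖f x₀‖ + 1, δ, hδ, by positivity, fun x hx => (h x hx).le⟩

theorem Dat.holder (D : Dat φ₀ z R ρ H lo hi) {x₀ : X} (h0R : ∀ i, x₀ ≠ R i) :
    ∃ δ > 0, ∃ C : ℝ, 0 ≤ C ∧ ∀ x ∈ ball x₀ δ, ∀ y ∈ ball x₀ δ,
      ‖H x - H y‖ ≤ C * √‖x - y‖ :=
  hess_holder_sqrt D.hz R D.hφ D.hρ D.heq D.hs h0R

/-! ### two nuclei -/

end Pool.Agent.TF.Col
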