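import Mathlib
import Pool.Agent.Lib.MP_9cf0c9_mp.Tr.ColJ
/-! Collinear nuclei: behaviour of `p`, `c` and the trial near a point of the axis which is not a
nucleus, from the Hölder-1/2 bound of the second derivatives. -/

set_option autoImplicit false

set_option linter.unusedSectionVars false

set_option linter.unusedVariables false

namespace Pool.Agent.TF.Grd
end Pool.Agent.TF.Grd

namespace Pool.Agent.TF.Col

open MeasureTheory Set Metric Filter Topology

open scoped ENNReal NNReal RealInnerProductSpace Gradient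

open Pool.Agent.TF.Grd

/-! ### linear algebra -/

theorem exists_unit_orth (u w : X) : ∃ b : X, ‖b‖ = 1 ∧ ⟪u, b⟫ = 0 ∧ ⟪w, b⟫ = 0 := by
  classical
  set K : Submodule ℝ X := Submodule.span ℝ (({u, w} : Finset X) : Set X) with hK
  have h1 : Module.finrank ℝ K ≤ 2 :=
    (finrank_span_finset_le_card ({u, w} : Finset X)).trans Finset.card_le_two
  have h2 := Submodule.finrank_add_finrank_orthogonal K
  have h3 : Module.finrank ℝ X = 3 := Fact.out
  have h4 : Kᗮ ≠ ⊥ := by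
    intro h
    rw [h, finrank_bot, h3] at h2
    omega
  obtain ⟨v, hv, hv0⟩ := Submodule.exists_mem_ne_zero_of_ne_bot h4
  have hn : 0 < ‖v‖ := norm_pos_iff.mpr hv0
  have hu : u ∈ K := Submodule.subset_span (by simp)
  have hw : w ∈ K := Submodule.subset_span (by simp)
  refine ⟨‖v‖⁻¹ • v, ?_, ?_, ?_⟩
  · rw [norm_smul, norm_inv, norm_norm, inv_mul_cancel₀ hn.ne']
  · rw [real_inner_smul_right, (Submodule.mem_orthogonal K v).mp hv u hu, mul_zero]
  · rw [real_inner_smul_right, (Submodule.mem_orthogonal K v).mp hv w hw, mul_zero]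

theorem inner_eb01 : ⟪eb 0, eb 1⟫ = 0 := by
  rw [inner_X]
  simp [eb, EuclideanSpace.inner_single_right]

theorem norm_eb (j : Fin 2) : ‖eb j‖ = 1 := by
  have h := inner_eb_self j
  rw [real_inner_self_eq_norm_sq] at h
  nlinarith [norm_nonneg (eb j)]

/-- a vector orthogonal to the axis in terms of the transverse basis -/
theorem orth_eq {b : X} (hb : ⟪e1, b⟫ = 0) : b = ⟪b, eb 0⟫ • eb 0 + ⟪b, eb 1⟫ • eb 1 := by
  refine ext_inner_right ℝ fun u => ?_
  have h := sum_inner_eb b u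
  rw [Fin.sum_univ_two] at h
  rw [inner_add_left, real_inner_smul_left, real_inner_smul_left, real_inner_comm u (eb 0),
    real_inner_comm u (eb 1), h, perp_eq, inner_sub_right, real_inner_smul_right,
    real_inner_comm e1 b, hb]
  ring

theorem fst_smul_of_ax {y : X} (hy : y ∈ ax) : y.fst • e1 = y := by
  have h : ‖perp y‖ = 0 := by
    rw [norm_perp]
    unfold ht
    rw [mem_ax.mp hy, norm_zero]
  rw [norm_eq_zero, perp_eq, sub_eq_zero] at h
  exact h.symm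

theorem es_unit_orth {w : X} (hw : ‖w‖ = 1) (h1 : ⟪e1, w⟫ = 0) {y : X} (hy : y ∈ ax) {t : ℝ}
    (ht' : 0 < t) : y + t • w ∉ ax ∧ es (y + t • w) = w ∧ ht (y + t • w) = t := by
  have hw0 : w.fst = 0 := by rw [← inner_e1, real_inner_comm]; exact h1
  have hpy : perp (y + t • w) = t • w := by
    have h3 : (y + t • w).fst = y.fst + t * w.fst := by simp
    rw [perp_eq, h3, hw0, mul_zero, add_zero, fst_smul_of_ax hy, add_sub_cancel_left]
  have h2 : ht (y + t • w) = t := by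
    rw [← norm_perp, hpy, norm_smul, hw, mul_one, Real.norm_of_nonneg ht'.le]
  refine ⟨fun h => ?_, ?_, h2⟩
  · have : ht (y + t • w) = 0 := by
      unfold ht
      rw [mem_ax.mp h, norm_zero]
    rw [this] at h2
    exact ht'.ne h2
  · unfold es
    rw [h2, hpy, smul_smul, inv_mul_cancel₀ ht'.ne', one_smul]

variable {ι : Type*} [Fintype ι]

variable {φ₀ : ℝ} {z : ι → ℝ} {R : ι → X} {ρ : X → ℝ} {H : X → X →L[ℝ] X} {lo hi : ℝ}

/-! ### azimuthal and meridional second derivatives off the axis -/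

theorem Dat.H_phi (D : Dat φ₀ z R ρ H lo hi) {x : X} (hx : x ∉ Col.ax) {b : X}
    (h1 : ⟪e1, b⟫ = 0) (h2 : ⟪es x, b⟫ = 0) : H x b = -(pf z R ρ x • b) := by
  rw [D.H_eq hx, D.c'_eq hx, D.p'_eq hx]
  simp only [inner_add_left, real_inner_smul_left, h1, h2, mul_zero, add_zero, zero_smul,
    sub_zero]

theorem Dat.H_es_es (D : Dat φ₀ z R ρ H lo hi) {x : X} (hx : x ∉ Col.ax) :
    ⟪H x (es x), es x⟫ = -(pf z R ρ x + ht x * ps z R ρ H x) := by
  rw [D.H_eq hx]
  simp only [inner_neg_left, inner_add_left, real_inner_smul_left, inner_sub_left, inner_e1_es,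
    D.inner_V_es hx, inner_es_self hx]
  unfold ps
  ring

theorem Dat.H_e1_es (D : Dat φ₀ z R ρ H lo hi) {x : X} (hx : x ∉ Col.ax) :
    ⟪H x e1, es x⟫ = -(ht x * px z R ρ H x) := by
  rw [D.H_eq hx]
  simp only [inner_neg_left, inner_add_left, real_inner_smul_left, inner_sub_left, inner_e1_es,
    D.inner_V_es hx]
  unfold px
  ring

/-- `p ∇c = ζ ∇p + p e₁ + H e₁` -/
theorem Dat.pc' (D : Dat φ₀ z R ρ H lo hi) {x : X} (hx : x ∉ Col.ax) :
    pf z R ρ x • cf' z R ρ H x = zt z R ρ x • pf' z R ρ H x + pf z R ρ x • e1 + H x e1 := by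
  rw [D.H_eq' hx, D.inner_V_e1 hx, inner_e1_self]
  module

/-! ### on the axis -/

/-- on the axis every transverse vector is an eigenvector of the second derivatives -/
theorem Dat.axis_eig1 (D : Dat φ₀ z R ρ H lo hi) {y : X} (hy : y ∈ Col.ax) (hyR : ∀ i, y ≠ R i)
    {b : X} (hb : ‖b‖ = 1) (h1 : ⟪e1, b⟫ = 0) :
    H y b = ⟪H y b, b⟫ • b ∧ ⟪H y b, b⟫ ≤ 0 := by
  obtain ⟨w, hw, hw1, hw2⟩ := exists_unit_orth e1 b
  have hc : Tendsto (fun t : ℝ => y + t • w) (𝓝[>] 0) (𝓝 y) := by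
    have : Tendsto (fun t : ℝ => y + t • w) (𝓝 0) (𝓝 (y + (0 : ℝ) • w)) :=
      (by fun_prop : Continuous fun t : ℝ => y + t • w).tendsto 0
    rw [zero_smul, add_zero] at this
    exact this.mono_left nhdsWithin_le_nhds
  have hH : Tendsto (fun t : ℝ => H (y + t • w) b) (𝓝[>] 0) (𝓝 (H y b)) :=
    ((D.hs.contAt hyR).clm_apply continuousAt_const).tendsto.comp hc
  have hev : ∀ᶠ t : ℝ in 𝓝[>] 0, H (y + t • w) b = -(pf z R ρ (y + t • w) • b) ∧
      0 < pf z R ρ (y + t • w) := by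
    filter_upwards [self_mem_nhdsWithin] with t ht'
    obtain ⟨g1, g2, g3⟩ := es_unit_orth hw hw1 hy ht'
    exact ⟨D.H_phi g1 h1 (by rw [g2, real_inner_comm]; exact hw2), D.ax.pos _ g1⟩
  have hi : Tendsto (fun t : ℝ => ⟪H (y + t • w) b, b⟫) (𝓝[>] 0) (𝓝 ⟪H y b, b⟫) :=
    hH.inner tendsto_const_nhds
  have hbb : ⟪b, b⟫ = 1 := by rw [real_inner_self_eq_norm_sq, hb, one_pow]
  constructor
  · have h2 : Tendsto (fun t : ℝ => ⟪H (y + t • w) b, b⟫ • b) (𝓝[>] 0) (𝓝 (⟪H y b, b⟫ • b)) :=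
      hi.smul_const b
    refine tendsto_nhds_unique hH (h2.congr' ?_)
    filter_upwards [hev] with t ht'
    rw [ht'.1, inner_neg_left, real_inner_smul_left, hbb, mul_one, neg_smul]
  · refine le_of_tendsto hi ?_
    filter_upwards [hev] with t ht'
    rw [ht'.1, inner_neg_left, real_inner_smul_left, hbb, mul_one]
    linarith [ht'.2]

/-- the transverse eigenvalue on the axis -/
noncomputable def p0 (H : X → X →L[ℝ] X) (y : X) : ℝ := -⟪H y (eb 0), eb 0⟫

theorem Dat.axis_eig (D : Dat φ₀ z R ρ H lo hi) {y : X} (hy : y ∈ Col.ax)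
    (hyR : ∀ i, y ≠ R i) {b : X} (h1 : ⟪e1, b⟫ = 0) : H y b = -(p0 H y • b) := by
  have a0 := (D.axis_eig1 hy hyR (norm_eb 0) (inner_e1_eb 0)).1
  have a1 := (D.axis_eig1 hy hyR (norm_eb 1) (inner_e1_eb 1)).1
  set m0 := ⟪H y (eb 0), eb 0⟫ with hm0
  set m1 := ⟪H y (eb 1), eb 1⟫ with hm1
  -- the sum is also an eigenvector
  have h2 : 0 < ‖eb 0 + eb 1‖ := by
    rw [norm_pos_iff]
    intro h
    have : ⟪eb 0 + eb 1, eb 0⟫ = 1 := by
      rw [inner_add_left, inner_eb_self, real_inner_comm, inner_eb01, add_zero]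
    rw [h, inner_zero_left] at this
    exact zero_ne_one this
  have a2 := (D.axis_eig1 hy hyR (b := ‖eb 0 + eb 1‖⁻¹ • (eb 0 + eb 1))
    (by rw [norm_smul, norm_inv, norm_norm, inv_mul_cancel₀ h2.ne'])
    (by rw [real_inner_smul_right, inner_add_right, inner_e1_eb, inner_e1_eb]; ring)).1
  set m := ⟪H y (‖eb 0 + eb 1‖⁻¹ • (eb 0 + eb 1)), ‖eb 0 + eb 1‖⁻¹ • (eb 0 + eb 1)⟫ with hm
  have a3 : H y (eb 0) + H y (eb 1) = m • (eb 0 + eb 1) := by
    rw [map_smul, smul_comm m, map_add] at a2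
    have h3 := congrArg (fun v => ‖eb 0 + eb 1‖ • v) a2
    simp only [smul_smul] at h3
    rw [mul_inv_cancel₀ h2.ne', one_smul, ← mul_assoc, mul_inv_cancel₀ h2.ne', one_mul] at h3
    exact h3
  have e0 : m0 = m := by
    have := congrArg (fun v => ⟪v, eb 0⟫) a3
    simp only [inner_add_left, real_inner_smul_left, inner_eb_self] at this
    rw [a1, real_inner_smul_left, real_inner_comm (eb 0) (eb 1), inner_eb01] at this
    rw [hm0]
    linarith
  have e1' : m1 = m := by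
    have := congrArg (fun v => ⟪v, eb 1⟫) a3
    simp only [inner_add_left, real_inner_smul_left, inner_eb_self] at this
    rw [a0, real_inner_smul_left, inner_eb01] at this
    rw [hm1]
    linarith
  have hp : p0 H y = -m0 := rfl
  conv_lhs => rw [orth_eq h1]
  conv_rhs => rw [orth_eq h1]
  rw [map_add, map_smul, map_smul, a0, a1, hp, e0, e1']
  module

theorem Dat.axis_e1 (D : Dat φ₀ z R ρ H lo hi) {y : X} (hy : y ∈ Col.ax)
    (hyR : ∀ i, y ≠ R i) {b : X} (h1 : ⟪e1, b⟫ = 0) : ⟪H y e1, b⟫ = 0 := by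
  rw [D.hs.symm y hyR, D.axis_eig hy hyR h1, inner_neg_right, real_inner_smul_right, h1, mul_zero,
    neg_zero]

/-! ### near the axis -/

/-- the foot of `x` on the axis -/
noncomputable def foot (x : X) : X := x.fst • e1

theorem foot_mem (x : X) : foot x ∈ ax := by
  rw [mem_ax]
  unfold foot e1
  simp [mk]

theorem sub_foot (x : X) : x - foot x = perp x := (perp_eq x).symm

theorem norm_sub_foot (x : X) : ‖x - foot x‖ = ht x := by rw [sub_foot, norm_perp]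

theorem foot_of_ax {x : X} (hx : x ∈ ax) : foot x = x := by
  have h : ‖x - foot x‖ = 0 := by
    rw [norm_sub_foot]
    unfold ht
    rw [mem_ax.mp hx, norm_zero]
  rw [norm_eq_zero, sub_eq_zero] at h
  exact h.symm

theorem norm_foot_sub (x : X) {y : X} (hy : y ∈ ax) : ‖foot x - y‖ ≤ ‖x - y‖ := by
  have e : foot x - y = (x - y).fst • e1 := by
    conv_lhs => rw [← foot_of_ax hy]
    unfold foot
    rw [← sub_smul]
    simp
  rw [e, norm_smul, norm_e1, mul_one, ← inner_e1]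
  refine (abs_real_inner_le_norm _ _).trans ?_
  rw [norm_e1, mul_one]

/-- the distance to the axis is at most the distance to a point of the axis -/
theorem ht_le_dist (x : X) {y : X} (hy : y ∈ ax) : ht x ≤ ‖x - y‖ := by
  have e : perp x = perp (x - y) := by
    rw [perp_eq, perp_eq]
    have h2 : y.fst • e1 = y := foot_of_ax hy
    have h3 : (x - y).fst = x.fst - y.fst := by simp
    rw [h3, sub_smul, h2]
    abel
  have h : ht x = ht (x - y) := by rw [← norm_perp, e, norm_perp]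
  rw [h]
  have h1 : ht (x - y) ^ 2 ≤ ‖x - y‖ ^ 2 := by
    rw [← inner_self_perp, ← real_inner_self_eq_norm_sq]
    nth_rewrite 2 [inner_X]
    rw [inner_perp]
    nlinarith [mul_self_nonneg (x - y).fst]
  exact abs_le_of_sq_le_sq' h1 (norm_nonneg _) |>.2

/-- **bounds near a point of the axis** -/
theorem Dat.axis_bounds (D : Dat φ₀ z R ρ H lo hi) {x₀ : X} (h0 : x₀ ∈ Col.ax)
    (h0R : ∀ i, x₀ ≠ R i) {δ₀ C₀ : ℝ} (hδ₀ : 0 < δ₀)
    (hH : ∀ x ∈ ball x₀ δ₀, ∀ y ∈ ball x₀ δ₀, ‖H x - H y‖ ≤ C₀ * √‖x - y‖) :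
    ∃ δ C : ℝ, 0 < δ ∧ δ ≤ δ₀ ∧ 0 ≤ C ∧ ∀ x ∈ ball x₀ δ, x ∉ Col.ax →
      ht x ≤ δ ∧ pf z R ρ x ≤ C ∧ |zt z R ρ x| ≤ C ∧
      √(ht x) * ‖pf' z R ρ H x‖ ≤ C ∧ √(ht x) * ‖pf z R ρ x • cf' z R ρ H x‖ ≤ C ∧
      |pf z R ρ x - p0 H x₀| ≤ C * √‖x - x₀‖ := by
  -- a radius avoiding the nuclei
  have hev : ∀ᶠ x in 𝓝 x₀, ∀ i, x ≠ R i :=
    eventually_all.mpr fun i => (isOpen_ne.mem_nhds (h0R i))
  obtain ⟨r, hr, hrR⟩ := Metric.eventually_nhds_iff_ball.mp hev
  set δ := min δ₀ (min r 1) with hδ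
  have hδ0 : 0 < δ := by positivity
  have hδ1 : δ ≤ 1 := (min_le_right _ _).trans (min_le_right _ _)
  have hsub0 : ball x₀ δ ⊆ ball x₀ δ₀ := ball_subset_ball (min_le_left _ _)
  have hsubr : ball x₀ δ ⊆ ball x₀ r :=
    ball_subset_ball ((min_le_right _ _).trans (min_le_left _ _))
  have hC0 : 0 ≤ C₀ ∨ C₀ < 0 := le_or_gt 0 C₀
  set C₁ := max C₀ 0 with hC1
  have hC1' : 0 ≤ C₁ := le_max_right _ _
  have hH1 : ∀ x ∈ ball x₀ δ, ∀ y ∈ ball x₀ δ, ‖H x - H y‖ ≤ C₁ * √‖x - y‖ := fun x hx y hy =>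
    (hH x (hsub0 hx) y (hsub0 hy)).trans
      (mul_le_mul_of_nonneg_right (le_max_left _ _) (Real.sqrt_nonneg _))
  set M := ‖H x₀‖ + C₁ with hM
  have hM0 : 0 ≤ M := by positivity
  set Z := ‖x₀‖ + 1 + max |lo| |hi| with hZ
  have hZ0 : 0 ≤ Z := by positivity
  refine ⟨δ, 4 * C₁ * (1 + Z) + 2 * M + Z, hδ0, min_le_left _ _, by positivity, ?_⟩
  intro x hx hxa
  have hxn : ‖x - x₀‖ < δ := mem_ball_iff_norm.mp hx
  have hs := ht_pos hxa
  have hs1 : ht x ≤ δ := (ht_le_dist x h0).trans hxn.le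
  have hs2 : √(ht x) ≤ 1 := by
    rw [← Real.sqrt_one]
    exact Real.sqrt_le_sqrt (hs1.trans hδ1)
  have hs3 : 0 < √(ht x) := Real.sqrt_pos.mpr hs
  have hss : √(ht x) * √(ht x) = ht x := Real.mul_self_sqrt hs.le
  have hx0b : x₀ ∈ ball x₀ δ := mem_ball_self hδ0
  -- the foot
  set y := foot x with hy
  have hya : y ∈ Col.ax := foot_mem x
  have hyb : y ∈ ball x₀ δ := by
    rw [mem_ball_iff_norm]
    exact (norm_foot_sub x h0).trans_lt hxn
  have hyR : ∀ i, y ≠ R i := hrR y (hsubr hyb)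
  have hxy : ‖H x - H y‖ ≤ C₁ * √(ht x) := by
    have := hH1 x hx y hyb
    rwa [norm_sub_foot] at this
  -- the azimuthal direction
  obtain ⟨b, hb, hb1, hb2⟩ := exists_unit_orth e1 (es x)
  have hbb : ⟪b, b⟫ = 1 := by rw [real_inner_self_eq_norm_sq, hb, one_pow]
  have hphi := D.H_phi hxa hb1 hb2
  have hpb : ⟪H x b, b⟫ = -pf z R ρ x := by
    rw [hphi, inner_neg_left, real_inner_smul_left, hbb, mul_one]
  have hin : ∀ (A : X →L[ℝ] X) (u v : X), ‖u‖ = 1 → ‖v‖ = 1 → |⟪A u, v⟫| ≤ ‖A‖ := by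
    intro A u v hu hv
    refine (abs_real_inner_le_norm _ _).trans ?_
    rw [hv, mul_one]
    exact (A.le_opNorm u).trans (by rw [hu, mul_one])
  have hHx : ‖H x‖ ≤ M := by
    have h1 := hH1 x hx x₀ hx0b
    have h2 : √‖x - x₀‖ ≤ 1 := by
      rw [← Real.sqrt_one]
      exact Real.sqrt_le_sqrt (hxn.le.trans hδ1)
    have h3 : ‖H x‖ ≤ ‖H x₀‖ + ‖H x - H x₀‖ := by
      have := norm_add_le (H x₀) (H x - H x₀)
      rwa [add_sub_cancel] at this
    have h4 := mul_le_mul_of_nonneg_left h2 hC1'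
    rw [mul_one] at h4
    exact h3.trans (add_le_add le_rfl (h1.trans h4))
  have hp : 0 < pf z R ρ x := D.ax.pos x hxa
  have hpM : pf z R ρ x ≤ M := by
    have := hin (H x) b b hb hb
    rw [hpb, abs_neg, abs_of_pos hp] at this
    exact this.trans hHx
  have hz : |zt z R ρ x| ≤ Z := by
    unfold zt
    have h1 := D.ax.lo_le x hxa
    have h2 := D.ax.le_hi x hxa
    have h3 : |cf z R ρ x| ≤ max |lo| |hi| := abs_le_max_abs_abs h1 h2
    have h4 : |x.fst| ≤ ‖x₀‖ + 1 := by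
      rw [← inner_e1]
      refine (abs_real_inner_le_norm _ _).trans ?_
      rw [norm_e1, mul_one]
      have := norm_add_le x₀ (x - x₀)
      rw [add_sub_cancel] at this
      linarith
    have h5 : |x.fst - cf z R ρ x| ≤ |x.fst| + |cf z R ρ x| := abs_sub _ _
    rw [hZ]
    linarith
  -- derivatives of `p`
  have hes : ‖es x‖ = 1 := norm_es hxa
  have hps : |ht x * ps z R ρ H x| ≤ 2 * (C₁ * √(ht x)) := by
    have e : ht x * ps z R ρ H x = ⟪(H x - H y) b, b⟫ - ⟪(H x - H y) (es x), es x⟫ := by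
      have a1 : ⟪H y b, b⟫ = -p0 H y := by
        rw [D.axis_eig hya hyR hb1, inner_neg_left, real_inner_smul_left, hbb, mul_one]
      have a2 : ⟪H y (es x), es x⟫ = -p0 H y := by
        rw [D.axis_eig hya hyR (inner_e1_es x), inner_neg_left, real_inner_smul_left,
          inner_es_self hxa, mul_one]
      rw [sub_apply, sub_apply, inner_sub_left,
        inner_sub_left, hpb, D.H_es_es hxa, a1, a2]
      ring
    rw [e]
    have h1 := hin (H x - H y) b b hb hb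
    have h2 := hin (H x - H y) (es x) (es x) hes hes
    have h3 := abs_sub ⟪(H x - H y) b, b⟫ ⟪(H x - H y) (es x), es x⟫
    linarith
  have hpx : |ht x * px z R ρ H x| ≤ C₁ * √(ht x) := by
    have e : ht x * px z R ρ H x = -⟪(H x - H y) e1, es x⟫ := by
      rw [sub_apply, inner_sub_left, D.H_e1_es hxa,
        D.axis_e1 hya hyR (inner_e1_es x)]
      ring
    rw [e, abs_neg]
    exact (hin (H x - H y) e1 (es x) norm_e1 hes).trans hxy
  have hp' : √(ht x) * ‖pf' z R ρ H x‖ ≤ 3 * C₁ := by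
    have h1 : ‖pf' z R ρ H x‖ ≤ |px z R ρ H x| + |ps z R ρ H x| := by
      rw [D.p'_eq hxa]
      refine (norm_add_le _ _).trans ?_
      rw [norm_smul, norm_smul, norm_e1, hes, mul_one, mul_one, Real.norm_eq_abs,
        Real.norm_eq_abs]
    rw [abs_mul, abs_of_pos hs] at hps hpx
    have h2 : √(ht x) * (√(ht x) * ‖pf' z R ρ H x‖) ≤ √(ht x) * (3 * C₁) := by
      rw [← mul_assoc, hss]
      have h3 := mul_le_mul_of_nonneg_left h1 hs.le
      rw [mul_add] at h3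
      refine h3.trans ((add_le_add hpx hps).trans (le_of_eq ?_))
      ring
    exact le_of_mul_le_mul_left h2 hs3
  have hpc : √(ht x) * ‖pf z R ρ x • cf' z R ρ H x‖ ≤ Z * (3 * C₁) + 2 * M := by
    have h1 : ‖pf z R ρ x • cf' z R ρ H x‖ ≤ Z * ‖pf' z R ρ H x‖ + M + M := by
      rw [D.pc' hxa]
      refine (norm_add₃_le).trans ?_
      have g1 : ‖zt z R ρ x • pf' z R ρ H x‖ ≤ Z * ‖pf' z R ρ H x‖ := by
        rw [norm_smul, Real.norm_eq_abs]
        exact mul_le_mul_of_nonneg_right hz (norm_nonneg _)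
      have g2 : ‖pf z R ρ x • e1‖ ≤ M := by
        rw [norm_smul, norm_e1, mul_one, Real.norm_of_nonneg hp.le]
        exact hpM
      have g3 : ‖H x e1‖ ≤ M := ((H x).le_opNorm e1).trans (by rw [norm_e1, mul_one]; exact hHx)
      linarith
    calc √(ht x) * ‖pf z R ρ x • cf' z R ρ H x‖
        ≤ √(ht x) * (Z * ‖pf' z R ρ H x‖ + M + M) := mul_le_mul_of_nonneg_left h1 hs3.le
      _ = Z * (√(ht x) * ‖pf' z R ρ H x‖) + √(ht x) * (2 * M) := by ring
      _ ≤ Z * (3 * C₁) + 1 * (2 * M) := by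
          refine add_le_add (mul_le_mul_of_nonneg_left hp' hZ0)
            (mul_le_mul_of_nonneg_right hs2 (by positivity))
      _ = Z * (3 * C₁) + 2 * M := by ring
  have hlim : |pf z R ρ x - p0 H x₀| ≤ C₁ * √‖x - x₀‖ := by
    have e : pf z R ρ x - p0 H x₀ = -⟪(H x - H x₀) b, b⟫ := by
      have a1 : ⟪H x₀ b, b⟫ = -p0 H x₀ := by
        rw [D.axis_eig h0 h0R hb1, inner_neg_left, real_inner_smul_left, hbb, mul_one]
      rw [sub_apply, inner_sub_left, hpb, a1]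
      ring
    rw [e, abs_neg]
    exact (hin (H x - H x₀) b b hb hb).trans (hH1 x hx x₀ hx0b)
  have hZC : 0 ≤ Z * C₁ := by positivity
  have hcc : 4 * C₁ * (1 + Z) + 2 * M + Z = 4 * C₁ + 4 * (Z * C₁) + 2 * M + Z := by ring
  rw [hcc]
  clear_value M Z C₁
  clear hH hH1 hrR hev hsub0 hsubr hin
  refine ⟨hs1, ?_, ?_, ?_, ?_, ?_⟩
  · linarith only [hpM, hM0, hZC, hC1', hZ0]
  · linarith only [hz, hM0, hZC, hC1', hZ0]
  · linarith only [hp', hM0, hZC, hC1', hZ0]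
  · linarith only [hpc, hM0, hZC, hC1', hZ0]
  · refine hlim.trans (mul_le_mul_of_nonneg_right ?_ (Real.sqrt_nonneg _))
    linarith only [hM0, hZC, hC1', hZ0]

/-! ### limits at the axis -/

/-- `p` has the limit `p0 H x₀` at `x₀` -/
theorem Dat.pf_tendsto (D : Dat φ₀ z R ρ H lo hi) {x₀ : X} (h0 : x₀ ∈ Col.ax)
    (h0R : ∀ i, x₀ ≠ R i) {δ₀ C₀ : ℝ} (hδ₀ : 0 < δ₀)
    (hH : ∀ x ∈ ball x₀ δ₀, ∀ y ∈ ball x₀ δ₀, ‖H x - H y‖ ≤ C₀ * √‖x - y‖) :
    Tendsto (pf z R ρ) (𝓝[Col.axᶜ] x₀) (𝓝 (p0 H x₀)) := by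
  obtain ⟨δ, C, hδ, -, hC, hb⟩ := D.axis_bounds h0 h0R hδ₀ hH
  rw [tendsto_iff_norm_sub_tendsto_zero]
  have h1 : Tendsto (fun x : X => C * √‖x - x₀‖) (𝓝[Col.axᶜ] x₀) (𝓝 0) := by
    have : Tendsto (fun x : X => C * √‖x - x₀‖) (𝓝 x₀) (𝓝 (C * √‖x₀ - x₀‖)) :=
      (by fun_prop : Continuous fun x : X => C * √‖x - x₀‖).tendsto x₀
    rw [sub_self, norm_zero, Real.sqrt_zero, mul_zero] at this
    exact this.mono_left nhdsWithin_le_nhds
  refine squeeze_zero' (Eventually.of_forall fun x => norm_nonneg _) ?_ h1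
  filter_upwards [self_mem_nhdsWithin, mem_nhdsWithin_of_mem_nhds (ball_mem_nhds x₀ hδ)]
    with x hx hxb
  exact (hb x hxb hx).2.2.2.2.2

/-- the axial component of the field -/
theorem Dat.pz_tendsto (D : Dat φ₀ z R ρ H lo hi) {x₀ : X} (h0R : ∀ i, x₀ ≠ R i) :
    Tendsto (fun x => pf z R ρ x * zt z R ρ x) (𝓝[Col.axᶜ] x₀) (𝓝 (-⟪psi' z R ρ x₀, e1⟫)) := by
  have h1 : Tendsto (fun x => -⟪psi' z R ρ x, e1⟫) (𝓝 x₀) (𝓝 (-⟪psi' z R ρ x₀, e1⟫)) :=
    ((D.hs.deriv x₀ h0R).continuousAt.tendsto.inner tendsto_const_nhds).neg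
  refine (h1.mono_left nhdsWithin_le_nhds).congr' ?_
  filter_upwards [self_mem_nhdsWithin] with x hx
  rw [D.inner_psi' hx, D.inner_V_e1 hx, neg_neg]

/-! ### derivative bounds -/

end Pool.Agent.TF.Col
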