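import Mathlib
import Pool.Agent.Lib.MP_9cf0c9_mp.Tr.BaseA
/-! Two nuclei: the end theorem for the trials with constant `κ`, with the certificate as its only
hypothesis. -/

set_option autoImplicit false

set_option linter.unusedSectionVars false

set_option linter.unusedVariables false

namespace Pool.Agent.TF.Grd
end Pool.Agent.TF.Grd

namespace Pool.Agent
end Pool.Agent

namespace Pool.Agent.TF.Col

open MeasureTheory Set Metric Filter Topology

open scoped ENNReal NNReal RealInnerProductSpace Gradient

open Pool.Agent.TF.Grd

variable {ι : Type*} [Fintype ι]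

variable {φ₀ : ℝ} {z : ι → ℝ} {R : ι → X} {ρ : X → ℝ} {H : X → X →L[ℝ] X} {lo hi : ℝ}

end Pool.Agent.TF.Col

namespace Pool.Agent.Lib.MP_9cf0c9_mp

open MeasureTheory Set Filter Topology Pool.Agent

theorem injective_of_lt {R : Fin 2 → TF.X} (hlt : (R 0).fst < (R 1).fst) :
    Function.Injective R := by
  intro i j hij
  fin_cases i <;> fin_cases j
  · rfl
  · have := congrArg (fun v : TF.X => v.fst) hij
    exact absurd this hlt.ne
  · have := congrArg (fun v : TF.X => v.fst) hij
    exact absurd this hlt.ne'
  · rfl

end Pool.Agent.Lib.MP_9cf0c9_mp
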