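import Mathlib
import Pool.Agent.Lib.MP_9cf0c9_mp.Tr.BaseC
/-! Convexity of the energy of a homonuclear diatomic molecule. -/

set_option linter.unusedSectionVars false

set_option linter.unusedVariables false

set_option linter.style.haveILetI false

namespace Pool.Agent.TF

open MeasureTheory Set Metric Filter Topology

open scoped ENNReal NNReal RealInnerProductSpace

/-! ### invariance of the energy -/

section inv

variable {V : Type*} [NormedAddCommGroup V] [InnerProductSpace ℝ V] [FiniteDimensional ℝ V]
  [MeasurableSpace V] [BorelSpace V]

variable {W : Type*} [NormedAddCommGroup W] [InnerProductSpace ℝ W] [FiniteDimensional ℝ W]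
  [MeasurableSpace W] [BorelSpace W]

variable {ι : Type*} [Fintype ι]

theorem eTF_translate (z : ι → ℝ) (R : ι → V) (v : V) (lam : ℝ) :
    eTF z (fun i => R i + v) lam = eTF z R lam := by
  unfold eTF
  congr 1
  ext t
  constructor
  · rintro ⟨σ, hσ, hm, ht⟩
    refine ⟨fun x => σ (x + v), ?_, ?_, ?_⟩
    · have := hσ.translate (-v)
      simpa using this
    · rw [integral_add_right_eq_self, hm]
    · have h2 := Ept_translate 0 z R (fun x => σ (x + v)) v
      simp only [sub_add_cancel] at h2
      rw [← h2, ht]
  · rintro ⟨σ, hσ, hm, ht⟩
    refine ⟨fun y => σ (y - v), hσ.translate v, ?_, ?_⟩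
    · rw [integral_sub_right_eq_self, hm]
    · rw [Ept_translate, ht]

end inv

/-! ### two equal nuclei -/

/-! ### from midpoints to convexity -/

end Pool.Agent.TF
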