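import Mathlib
import Pool.Agent.Lib.MP_9cf0c9_mp.Tr.Diatomic
import Pool.Agent.Lib.MP_9cf0c9_mp.Tr.ThinWeak36

section
/-! The target statement for collinear nuclei from trial functions which are locally Lipschitz off
the axis. -/

set_option linter.unusedSectionVars false

set_option linter.unusedVariables false

set_option linter.style.haveILetI false

namespace Pool.Agent
end Pool.Agent

namespace Pool.Agent.TF

open MeasureTheory Set Metric Filter Topology

open scoped ENNReal NNReal RealInnerProductSpace Gradient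

variable {ι : Type*} [Fintype ι]

/-- Convexity in the volume from trial functions which are locally Lipschitz off thin sets. -/
theorem GTF_convex_of_thin {z : ι → ℝ} (hz : ∀ i, 0 ≤ z i) (R : ι → X) {φ₀ : ℝ} (hφ : 0 < φ₀)
    (h : ∀ c : ℝ, 0 < c → ∀ ρ : X → ℝ, TC ρ →
      (∀ x, ρ x = tf (Vpt z (fun i => c • R i) x - pot ρ x - φ₀)) → ∀ η : ℝ, 0 < η →
      ∃ (S : Set X) (k : X → ℝ) (k' : X → X), Thin S ∧ TrialK S k k' ∧
        -η ≤ Vtr φ₀ z (fun i => c • R i) ρ k ((8 * Real.pi)⁻¹ * ∫ x, ‖k' x‖ ^ 2)) :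
    ConvexOn ℝ (Ioi 0) fun v : ℝ => GTF φ₀ z fun i => v ^ (1 / 3 : ℝ) • R i := by
  refine GTF_convex_of_support hφ hz R fun c hc ε hε => ?_
  obtain ⟨ρ, hρ, -, heq⟩ := exists_point_sol hz (fun i => c • R i) hφ
  obtain ⟨S, k, k', hS, hk, hV⟩ := h c hc ρ hρ heq (ε / 2) (by positivity)
  obtain ⟨B, hB⟩ := hk.bdd
  obtain ⟨a, ha⟩ := support_of_Vtr_err hz (fun i => c • R i) hφ hρ heq hk.cont.measurable hB
    (fun σ τ hσ hτ c => hS.thomson_mul hk hσ hτ c) (by positivity) hV
  obtain ⟨δ, hδ, hsup⟩ := ha ε (by linarith)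
  exact ⟨a, δ, hδ, hsup⟩

end Pool.Agent.TF

namespace Pool.Agent.Lib.MP_9cf0c9_mp

open MeasureTheory Set Filter Topology Pool.Agent

/-- the dilated energy does not see a translation of the nuclei -/
theorem dilated_translate {k : ℕ} (z : Fin k → ℝ) (R : Fin k → E3) (a : E3) (lam : ℝ) :
    dilated z (fun j => a + R j) lam = dilated z R lam := by
  funext l
  unfold dilated
  rw [energy_eq, energy_eq]
  have h := TF.eTF_translate z (fun j => l • R j) (l • a) lam
  rw [← h]
  congr 1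
  funext j
  rw [smul_add, add_comm]

theorem pressure_translate {k : ℕ} (z : Fin k → ℝ) (R : Fin k → E3) (a : E3) (lam : ℝ) :
    pressure z (fun j => a + R j) lam = pressure z R lam := by
  funext l
  unfold pressure
  rw [dilated_translate]

/-- the target statement for one configuration -/
def Target {k : ℕ} (z : Fin k → ℝ) (R : Fin k → E3) (lam : ℝ) : Prop :=
  ConvexOn ℝ (Ioi 0) (fun v : ℝ => dilated z R lam (v ^ (1 / 3 : ℝ))) ∧
    (∀ l : ℝ, 0 < l → DifferentiableAt ℝ (dilated z R lam) l) ∧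
      AntitoneOn (pressure z R lam) (Ioi 0) ∧
      ∀ l : ℝ, 0 < l → DifferentiableAt ℝ (pressure z R lam) l →
        0 ≤ -(l / 3) * deriv (pressure z R lam) l

theorem Target.translate {k : ℕ} {z : Fin k → ℝ} {R : Fin k → E3} {lam : ℝ}
    (h : Target z R lam) (a : E3) : Target z (fun j => a + R j) lam := by
  unfold Target
  rw [dilated_translate, pressure_translate]
  exact h

end Pool.Agent.Lib.MP_9cf0c9_mp

end

section
/-! Two nuclei: it is enough to treat the heavier nucleus on the left. -/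

set_option autoImplicit false

set_option linter.unusedSectionVars false

set_option linter.unusedVariables false

set_option linter.style.haveILetI false

namespace Pool.Agent
end Pool.Agent

namespace Pool.Agent.Lib.MP_9cf0c9_mp

open MeasureTheory Set Filter Topology Pool.Agent

/-- **the target for collinear nuclei**, with the orientation of the axis under control -/
theorem target_of_unit {k : ℕ} (z : Fin k → ℝ) (hz : ∀ j, 0 ≤ z j) (R : Fin k → E3)
    (hR : Function.Injective R) {a w : E3} {s : Fin k → ℝ} (hw : ‖w‖ = 1)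
    (hs : ∀ j, R j = a + s j • w)
    (h : ∀ φ₀ : ℝ, 0 < φ₀ → ∀ c : ℝ, 0 < c → ∀ R' : Fin k → TF.X,
      (∀ i, R' i = (c * s i) • TF.e1) → Function.Injective R' →
      (∀ i, R' i ∈ TF.Col.ax) →
      ∀ ρ : TF.X → ℝ, TF.TC ρ → (∀ x, ρ x = TF.tf (TF.Vpt z R' x - TF.pot ρ x - φ₀)) →
      ∀ η : ℝ, 0 < η →
      ∃ (k : TF.X → ℝ) (k' : TF.X → TF.X), TF.TrialK TF.Col.ax k k' ∧
        -η ≤ TF.Vtr φ₀ z R' ρ k ((8 * Real.pi)⁻¹ * ∫ x, ‖k' x‖ ^ 2))
    (lam : ℝ) (hlam : 0 ≤ lam) : Target z R lam := by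
  have hRe : R = fun j => a + (fun j => s j • w) j := funext hs
  have hinj : Function.Injective s := by
    intro i j hij
    apply hR
    rw [hs i, hs j, hij]
  rw [hRe]
  refine Target.translate ?_ a
  obtain ⟨L, hL⟩ := TF.exists_isom_X (V := E3) hw
  have hRX : ∀ c : ℝ, 0 < c → Function.Injective (fun i : Fin k => c • (s i • TF.e1)) := by
    intro c hc i j hij
    apply hinj
    have h1 : (c * s i - c * s j) • TF.e1 = 0 := by
      rw [sub_smul, ← smul_smul, ← smul_smul, sub_eq_zero]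
      exact hij
    have h2 : TF.e1 ≠ 0 := by
      rw [← norm_ne_zero_iff, TF.Col.norm_e1]
      norm_num
    have h3 := (smul_eq_zero.mp h1).resolve_right h2
    have h4 : c * (s i - s j) = 0 := by linarith
    have h5 := (mul_eq_zero.mp h4).resolve_left hc.ne'
    linarith
  have hG : ∀ φ₀ : ℝ, 0 < φ₀ →
      ConvexOn ℝ (Ioi 0) fun v : ℝ => TF.GTF φ₀ z fun i => v ^ (1 / 3 : ℝ) • s i • w := by
    intro φ₀ hφ
    have h1 := TF.GTF_convex_of_thin hz (fun i => s i • TF.e1) hφ fun c hc ρ hρ heq η hη => by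
      obtain ⟨k, k', hk, hV⟩ := h φ₀ hφ c hc (fun i => c • (s i • TF.e1))
        (fun i => smul_smul c (s i) TF.e1) (hRX c hc)
        (fun i => by rw [TF.Col.mem_ax]; simp [TF.e1, TF.mk]) ρ hρ heq η hη
      exact ⟨TF.Col.ax, k, k', TF.thin_ax, hk, hV⟩
    refine h1.congr fun v _ => ?_
    have h2 : (fun i => v ^ (1 / 3 : ℝ) • s i • TF.e1) =
        fun i => L (v ^ (1 / 3 : ℝ) • s i • w) := by
      funext i
      rw [map_smul, map_smul, hL]
    beta_reduce
    rw [h2, TF.GTF_push L φ₀ z (fun i => v ^ (1 / 3 : ℝ) • s i • w)]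
  obtain ⟨h1, h2⟩ := target_of_GTF z hz (fun i => s i • w) hG lam hlam
  refine ⟨h1, fun l hl => dilated_differentiable hz _ hlam hl, pressure_anti hz _ hlam h1,
    fun l hl hp => h2 l hl ?_ hp⟩
  filter_upwards [Ioi_mem_nhds hl] with s hs
  exact dilated_differentiable hz _ hlam hs

theorem fst_smul_e1 (c : ℝ) : (c • TF.e1).fst = c := by simp [TF.e1, TF.mk]

end Pool.Agent.Lib.MP_9cf0c9_mp

end

section
/-! Two nuclei: the end theorem, with a certificate as hypothesis. -/

set_option autoImplicit false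

set_option linter.unusedSectionVars false

set_option linter.unusedVariables false

set_option linter.style.haveILetI false

namespace Pool.Agent.TF.Grd
end Pool.Agent.TF.Grd

namespace Pool.Agent
end Pool.Agent

namespace Pool.Agent.TF.Col

open MeasureTheory Set Metric Filter Topology

open scoped ENNReal NNReal RealInnerProductSpace Gradient

open Pool.Agent.TF.Grd

variable {ι : Type*} [Fintype ι]

variable {φ₀ : ℝ} {z : ι → ℝ} {R : ι → X} {ρ : X → ℝ}

/-- moderate singularity at the axis off the nuclei -/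
def AxB (R : ι → X) (J : X → X) : Prop :=
  ∀ x₀ ∈ ax, (∀ i, x₀ ≠ R i) → ∃ C δ : ℝ, 0 < δ ∧ ∀ x ∈ ball x₀ δ, x ∉ ax →
    ‖J x‖ ^ 2 ≤ C * (ht x)⁻¹

theorem AxB.add {J K : X → X} (hJ : AxB R J) (hK : AxB R K) : AxB R fun x => J x + K x := by
  intro x₀ h0 hR
  obtain ⟨C, δ, hδ, h1⟩ := hJ x₀ h0 hR
  obtain ⟨C', δ', hδ', h2⟩ := hK x₀ h0 hR
  refine ⟨2 * (C + C'), min δ δ', lt_min hδ hδ', fun x hx hxa => ?_⟩
  have a1 := h1 x (ball_subset_ball (min_le_left _ _) hx) hxa
  have a2 := h2 x (ball_subset_ball (min_le_right _ _) hx) hxa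
  have a3 : ‖J x + K x‖ ^ 2 ≤ 2 * ‖J x‖ ^ 2 + 2 * ‖K x‖ ^ 2 := by
    have := norm_add_le (J x) (K x)
    have h0 := norm_nonneg (J x + K x)
    nlinarith [sq_nonneg (‖J x‖ - ‖K x‖), norm_nonneg (J x), norm_nonneg (K x)]
  calc ‖J x + K x‖ ^ 2 ≤ 2 * ‖J x‖ ^ 2 + 2 * ‖K x‖ ^ 2 := a3
    _ ≤ 2 * (C * (ht x)⁻¹) + 2 * (C' * (ht x)⁻¹) := by linarith
    _ = 2 * (C + C') * (ht x)⁻¹ := by ring

theorem AxB.smul {J : X → X} (hJ : AxB R J) (c : ℝ) : AxB R fun x => c • J x := by
  intro x₀ h0 hR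
  obtain ⟨C, δ, hδ, h1⟩ := hJ x₀ h0 hR
  refine ⟨c ^ 2 * C, δ, hδ, fun x hx hxa => ?_⟩
  rw [norm_smul, mul_pow, Real.norm_eq_abs, sq_abs, mul_assoc]
  exact mul_le_mul_of_nonneg_left (h1 x hx hxa) (sq_nonneg c)

/-- the trial function `K = Y - V` -/
structure TrY (z : ι → ℝ) (R : ι → X) (Y : X → ℝ) (Y' : X → X) (L : ι → ℝ) (K : X → ℝ)
    (K' : X → X) : Prop where
  tr : TrialK ax K K'
  hI : ∀ i, Integrable fun x => (‖x - R i‖ ^ 2)⁻¹ * ‖K' x‖
  val : ∀ x, x ∉ ax → Vpt z R x + K x = Y x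
  grad : ∀ x, x ∉ ax → gVpt z R x + K' x = Y' x
  pole : ∀ i, Vpt z R (R i) + K (R i) = L i

end Pool.Agent.TF.Col

namespace Pool.Agent.Lib.MP_9cf0c9_mp

open MeasureTheory Set Filter Topology Pool.Agent

/-! ### nuclei without charge -/

/-- the energy does not see the position of a nucleus without charge -/
theorem energy_congr {k : ℕ} {z : Fin k → ℝ} {R R' : Fin k → E3}
    (h : ∀ j, z j = 0 ∨ R j = R' j) (lam : ℝ) : energy z R lam = energy z R' lam := by
  have h1 : ∀ x, V z R x = V z R' x := fun x => by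
    unfold V
    refine Finset.sum_congr rfl fun j _ => ?_
    rcases h j with h | h
    · rw [h, zero_div, zero_div]
    · rw [h]
  have h2 : U z R = U z R' := by
    unfold U
    refine Finset.sum_congr rfl fun i _ => Finset.sum_congr rfl fun j _ => ?_
    split_ifs
    · rcases h i with hi | hi
      · rw [hi, zero_mul, zero_div, zero_div]
      · rcases h j with hj | hj
        · rw [hj, mul_zero, zero_div, zero_div]
        · rw [hi, hj]
    · rfl
  unfold energy xi
  simp_rw [h1, h2]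

/-- if only one nucleus carries a charge the energy does not depend on the scale -/
theorem dilated_one {k : ℕ} {z : Fin k → ℝ} {R : Fin k → E3} {i : Fin k}
    (h : ∀ j, j ≠ i → z j = 0) (lam l : ℝ) : dilated z R lam l = energy z R lam := by
  unfold dilated
  have h1 : energy z (fun j => l • R j) lam = energy z (fun j => R j + (l - 1) • R i) lam := by
    refine energy_congr (fun j => ?_) lam
    by_cases hj : j = i
    · right
      rw [hj]
      module
    · exact Or.inl (h j hj)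
  rw [h1, energy_eq, energy_eq, TF.eTF_translate]

theorem Target.of_one {k : ℕ} {z : Fin k → ℝ} {R : Fin k → E3} {i : Fin k}
    (h : ∀ j, j ≠ i → z j = 0) (lam : ℝ) : Target z R lam := by
  have h1 : dilated z R lam = fun _ => energy z R lam := funext fun l => dilated_one h lam l
  have h2 : pressure z R lam = fun _ => 0 := by
    funext l
    unfold pressure
    rw [h1]
    simp
  unfold Target
  rw [h1, h2]
  refine ⟨convexOn_const _ (convex_Ioi _), fun l _ => differentiableAt_const _,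
    fun x _ y _ _ => le_rfl, fun l _ _ => ?_⟩
  simp

/-! ### the end theorem -/

theorem Vtr_swap (z : Fin 2 → ℝ) (R : Fin 2 → TF.X) (φ₀ : ℝ) (ρ k : TF.X → ℝ) (E : ℝ) :
    TF.Vtr φ₀ (fun i => z (Equiv.swap 0 1 i)) (fun i => R (Equiv.swap 0 1 i)) ρ k E =
      TF.Vtr φ₀ z R ρ k E := by
  have h1 : TF.Vpt (fun i => z (Equiv.swap 0 1 i)) (fun i => R (Equiv.swap 0 1 i)) =
      TF.Vpt z R := by
    funext x
    exact Equiv.sum_comp (Equiv.swap (0 : Fin 2) 1) fun i => z i * ‖x - R i‖⁻¹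
  have h2 : TF.Unuc (fun i => z (Equiv.swap 0 1 i)) (fun i => R (Equiv.swap 0 1 i)) =
      TF.Unuc z R := by
    unfold TF.Unuc
    congr 1
    rw [← Equiv.sum_comp (Equiv.swap (0 : Fin 2) 1) fun i => ∑ j, z i * z j * ‖R i - R j‖⁻¹]
    refine Finset.sum_congr rfl fun i _ => ?_
    exact Equiv.sum_comp (Equiv.swap (0 : Fin 2) 1) fun j =>
      z (Equiv.swap 0 1 i) * z j * ‖R (Equiv.swap 0 1 i) - R j‖⁻¹
  have h3 : ∑ i, z (Equiv.swap 0 1 i) * TF.pot ρ (R (Equiv.swap 0 1 i)) =
      ∑ i, z i * TF.pot ρ (R i) :=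
    Equiv.sum_comp (Equiv.swap (0 : Fin 2) 1) fun i => z i * TF.pot ρ (R i)
  unfold TF.Vtr
  rw [h1, h2, h3]

end Pool.Agent.Lib.MP_9cf0c9_mp

end

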