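import Mathlib
import Pool.Agent.Lib.MP_9cf0c9_mp.Tr.Col58E
import Pool.Agent.Lib.MP_9cf0c9_mp.Tr.ColAxb36
import Pool.Agent.Lib.MP_9cf0c9_mp.Tr.ColAxis36
import Pool.Agent.Lib.MP_9cf0c9_mp.Tr.ColF
/-! Two nuclei: certificates whose current has only a locally integrable divergence, and the
current `JE` near the axis. -/

set_option autoImplicit false

set_option linter.unusedSectionVars false

set_option linter.unusedVariables false

set_option linter.style.haveILetI false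

namespace Pool.Agent.TF.Grd
end Pool.Agent.TF.Grd

namespace Pool.Agent
end Pool.Agent

namespace Pool.Agent.TF.Col

open MeasureTheory Set Metric Filter Topology

open scoped ENNReal NNReal RealInnerProductSpace Gradient

open Pool.Agent.TF.Grd

variable {ι : Type*} [Fintype ι]

variable {φ₀ : ℝ} {z : ι → ℝ} {R : ι → X} {ρ : X → ℝ} {H : X → X →L[ℝ] X} {lo hi : ℝ}

/-- the trial function `K = Y - V`, almost everywhere -/
structure TrYL (z : ι → ℝ) (R : ι → X) (Y : X → ℝ) (Y' : X → X) (L : ι → ℝ) (K : X → ℝ)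
    (K' : X → X) : Prop where
  tr : TrialK ax K K'
  hI : ∀ i, Integrable fun x => (‖x - R i‖ ^ 2)⁻¹ * ‖K' x‖
  val : ∀ᵐ x : X, Vpt z R x + K x = Y x
  grad : ∀ᵐ x : X, gVpt z R x + K' x = Y' x
  pole : ∀ i, Vpt z R (R i) + K (R i) = L i

theorem TrY.toL {Y : X → ℝ} {Y' : X → X} {L : ι → ℝ} {K : X → ℝ} {K' : X → X}
    (h : TrY z R Y Y' L K K') : TrYL z R Y Y' L K K' :=
  ⟨h.tr, h.hI, by
    filter_upwards [ae_off_ax] with x hx
    exact h.val x hx, by
    filter_upwards [ae_off_ax] with x hx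
    exact h.grad x hx, h.pole⟩

/-! ### fields bounded near the axis off the nuclei -/

/-- bounded near the points of the axis off the nuclei -/
def BdN {E : Type*} [NormedAddCommGroup E] (R : ι → X) (f : X → E) : Prop :=
  ∀ x₀ ∈ ax, (∀ i, x₀ ≠ R i) → ∃ C δ : ℝ, 0 < δ ∧ ∀ x ∈ ball x₀ δ, x ∉ ax → ‖f x‖ ≤ C

theorem BdN.of_cont {E : Type*} [NormedAddCommGroup E] {f : X → E}
    (hf : ∀ x₀ : X, (∀ i, x₀ ≠ R i) → ContinuousAt f x₀) : BdN R f := by
  intro x₀ h0 hR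
  obtain ⟨B, δ, hδ, hB, h⟩ := bdd_nhds (hf x₀ hR)
  exact ⟨B, δ, hδ, fun x hx _ => h x hx⟩

theorem BdN.smul {E : Type*} [NormedAddCommGroup E] [NormedSpace ℝ E] {c : X → ℝ} {f : X → E}
    (hc : BdN R c) (hf : BdN R f) : BdN R fun x => c x • f x := by
  intro x₀ h0 hR
  obtain ⟨C, δ, hδ, h⟩ := hc x₀ h0 hR
  obtain ⟨C', δ', hδ', h'⟩ := hf x₀ h0 hR
  refine ⟨C * C', min δ δ', lt_min hδ hδ', fun x hx hxa => ?_⟩
  have h1 := h x (ball_subset_ball (min_le_left _ _) hx) hxa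
  have h2 := h' x (ball_subset_ball (min_le_right _ _) hx) hxa
  rw [norm_smul]
  exact mul_le_mul h1 h2 (norm_nonneg _) ((norm_nonneg _).trans h1)

theorem BdN.const {E : Type*} [NormedAddCommGroup E] (v : E) : BdN R fun _ : X => v :=
  fun x₀ _ _ => ⟨‖v‖, 1, one_pos, fun _ _ _ => le_rfl⟩

/-- bounded fields have a moderate singularity -/
theorem BdN.axb {J : X → X} (hJ : BdN R J) : AxB R J := by
  intro x₀ h0 hR
  obtain ⟨C, δ, hδ, h⟩ := hJ x₀ h0 hR
  refine ⟨C ^ 2, min δ 1, lt_min hδ one_pos, fun x hx hxa => ?_⟩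
  have h1 := h x (ball_subset_ball (min_le_left _ _) hx) hxa
  have h2 : ht x ≤ 1 := by
    have h3 := ht_le_dist x h0
    have h4 := ball_subset_ball (min_le_right δ 1) hx
    rw [mem_ball, dist_eq_norm] at h4
    linarith
  have h5 : 1 ≤ (ht x)⁻¹ := (one_le_inv₀ (ht_pos hxa)).mpr h2
  calc ‖J x‖ ^ 2 ≤ C ^ 2 := pow_le_pow_left₀ (norm_nonneg _) h1 2
    _ = C ^ 2 * 1 := (mul_one _).symm
    _ ≤ C ^ 2 * (ht x)⁻¹ := mul_le_mul_of_nonneg_left h5 (sq_nonneg C)

theorem AxB.bsmul {c : X → ℝ} {J : X → X} (hc : BdN R c) (hJ : AxB R J) :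
    AxB R fun x => c x • J x := by
  intro x₀ h0 hR
  obtain ⟨C, δ, hδ, h⟩ := hc x₀ h0 hR
  obtain ⟨C', δ', hδ', h'⟩ := hJ x₀ h0 hR
  refine ⟨C ^ 2 * C', min δ δ', lt_min hδ hδ', fun x hx hxa => ?_⟩
  have h1 := h x (ball_subset_ball (min_le_left _ _) hx) hxa
  have h2 := h' x (ball_subset_ball (min_le_right _ _) hx) hxa
  have h3 : ‖c x‖ ^ 2 ≤ C ^ 2 := pow_le_pow_left₀ (norm_nonneg _) h1 2
  rw [norm_smul, mul_pow]
  calc ‖c x‖ ^ 2 * ‖J x‖ ^ 2 ≤ C ^ 2 * (C' * (ht x)⁻¹) :=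
        mul_le_mul h3 h2 (sq_nonneg _) (sq_nonneg _)
    _ = C ^ 2 * C' * (ht x)⁻¹ := by ring

theorem AxB.neg {J : X → X} (hJ : AxB R J) : AxB R fun x => -J x := by
  intro x₀ h0 hR
  obtain ⟨C, δ, hδ, h⟩ := hJ x₀ h0 hR
  exact ⟨C, δ, hδ, fun x hx hxa => by
    simp only [norm_neg]
    exact h x hx hxa⟩

theorem AxB.sub {J K : X → X} (hJ : AxB R J) (hK : AxB R K) : AxB R fun x => J x - K x := by
  have h := hJ.add hK.neg
  simp only [← sub_eq_add_neg] at h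
  exact h

theorem Dat.cont_psi'_off (D : Dat φ₀ z R ρ H lo hi) {x₀ : X} (h0R : ∀ i, x₀ ≠ R i) :
    ContinuousAt (psi' z R ρ) x₀ := (D.hs.deriv x₀ h0R).continuousAt

theorem Dat.bdN_Xa (D : Dat φ₀ z R ρ H lo hi) (a : X) : BdN R (Xa z R ρ a) :=
  BdN.of_cont fun x₀ h => by
    have h1 := D.cont_psi'_off h
    have h2 : ContinuousAt (fun x : X => x - a) x₀ := continuousAt_id.sub continuousAt_const
    have h3 : ContinuousAt (fun x : X => ⟪psi' z R ρ x, x - a⟫) x₀ := ContinuousAt.inner h1 h2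
    exact h3.neg

theorem Dat.bdN_Xa' (D : Dat φ₀ z R ρ H lo hi) (a : X) : BdN R (Xa' z R ρ H a) :=
  BdN.of_cont fun x₀ h => ((D.cont_psi'_off h).add ((D.hs.contAt h).clm_apply
    (continuousAt_id.sub continuousAt_const))).neg

theorem Dat.bdN_sta (D : Dat φ₀ z R ρ H lo hi) (a : X) : BdN R (sta z R ρ a) :=
  BdN.of_cont fun x₀ h => by
    have h1 := D.cont_psi'_off h
    have h2 : ContinuousAt (fun x : X => x - a) x₀ := continuousAt_id.sub continuousAt_const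
    have h3 : ContinuousAt (fun x : X => ⟪psi' z R ρ x, x - a⟫) x₀ := ContinuousAt.inner h1 h2
    exact (h3.smul h1).sub ((continuousAt_const.mul (h1.norm.pow 2)).smul h2)

/-- the current of the trial `X - D e` near the axis -/
theorem Dat.axb_JE (D : Dat φ₀ z R ρ H lo hi) (a : X) (d : ℝ) {e : X → ℝ} {e' : X → X}
    (he : BdN R e) (he' : AxB R e') : AxB R (JE z R ρ H a d e e') := by
  have h1 : AxB R fun x => (2 * d) • (e x • Xa' z R ρ H a x) :=
    (BdN.smul (BdN.const (2 * d)) (he.smul (D.bdN_Xa' a))).axb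
  have h2 : AxB R fun x => Xa z R ρ a x • Xa' z R ρ H a x :=
    ((D.bdN_Xa a).smul (D.bdN_Xa' a)).axb
  have h3 : AxB R fun x => (2 : ℝ) • sta z R ρ a x :=
    (BdN.smul (BdN.const (2 : ℝ)) (D.bdN_sta a)).axb
  have h4 : AxB R fun x => d ^ 2 • (e x • e' x) := (he'.bsmul he).smul (d ^ 2)
  exact ((h1.sub h2).sub h3).sub h4

/-! ### currents which are only locally integrable near nothing: the fluxes exist -/

end Pool.Agent.TF.Col

namespace Pool.Agent.Lib.MP_9cf0c9_mp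

open MeasureTheory Set Filter Topology Pool.Agent

end Pool.Agent.Lib.MP_9cf0c9_mp
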