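import Mathlib
import Pool.Agent.Lib.MP_9cf0c9_mp.Tr.ColW
import Pool.Agent.Lib.MP_9cf0c9_mp.Tr.MirA
/-! Functions which are continuously differentiable on a set; the reflection in a plane
orthogonal to the axis; radial cutoff functions. -/

set_option autoImplicit false

set_option linter.unusedSectionVars false

set_option linter.unusedVariables false

namespace Pool.Agent.TF.Grd
end Pool.Agent.TF.Grd

namespace Pool.Agent.TF.Col

open MeasureTheory Set Metric Filter Topology

open scoped ENNReal NNReal RealInnerProductSpace Gradient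

open Pool.Agent.TF.Grd

/-! ### continuously differentiable functions -/

/-- `f` has the gradient `f'` at the points of `s`, and `f'` is continuous there -/
structure C1A (s : Set X) (f : X → ℝ) (f' : X → X) : Prop where
  grad : ∀ x ∈ s, HasGradientAt f (f' x) x
  cont : ∀ x ∈ s, ContinuousAt f' x

section c1a

variable {s t : Set X} {f g : X → ℝ} {f' g' : X → X}

theorem C1A.cont0 (h : C1A s f f') {x : X} (hx : x ∈ s) : ContinuousAt f x :=
  (h.grad x hx).hasFDerivAt.continuousAt

theorem C1A.c1o (h : C1A s f f') (hs : axᶜ ⊆ s) : C1O f f' :=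
  ⟨fun x hx => h.grad x (hs hx), fun x hx => (h.cont x (hs hx)).continuousWithinAt⟩

end c1a

/-! ### the reflection in the plane `x₁ = t` -/

theorem mirL_symm (e x y : X) : ⟪mirL e x, y⟫ = ⟪x, mirL e y⟫ := by
  have h1 : mirL e (mirL e y) = y := by
    unfold mirL
    exact Submodule.reflection_reflection _ _
  calc ⟪mirL e x, y⟫ = ⟪mirL e x, mirL e (mirL e y)⟫ := by rw [h1]
    _ = ⟪x, mirL e y⟫ := (mirL e).inner_map_map _ _

theorem C1A.mir {s : Set X} {f : X → ℝ} {f' : X → X} (h : C1A s f f') {o e : X} (he : ‖e‖ = 1) :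
    C1A (TF.mir o e ⁻¹' s) (fun x => f (TF.mir o e x)) fun x => mirL e (f' (TF.mir o e x)) :=
  ⟨fun x hx => grad_mir he (h.grad _ hx), fun x hx =>
    (mirL e).continuous.continuousAt.comp ((h.cont _ hx).comp (mir_continuous o e).continuousAt)⟩

/-- the reflection in the plane `x₁ = t` -/
noncomputable abbrev rf (t : ℝ) : X → X := TF.mir (t • e1) e1

theorem fst_smul_e1 (t : ℝ) : (t • e1 : X).fst = t := by simp [e1, mk]

theorem snd_smul_e1 (t : ℝ) : (t • e1 : X).snd = 0 := by simp [e1, mk]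

theorem hgt_e1 (t : ℝ) (x : X) : hgt (t • e1) e1 x = x.fst - t := by
  unfold hgt
  rw [inner_e1, WithLp.sub_fst, fst_smul_e1]

theorem rf_eq (t : ℝ) (x : X) : rf t x = x + (2 * (t - x.fst)) • e1 := by
  unfold rf TF.mir
  rw [hgt_e1]
  module

theorem rf_fst (t : ℝ) (x : X) : (rf t x).fst = 2 * t - x.fst := by
  rw [rf_eq, WithLp.add_fst, fst_smul_e1]
  ring

theorem rf_snd (t : ℝ) (x : X) : (rf t x).snd = x.snd := by
  rw [rf_eq, WithLp.add_snd, snd_smul_e1, add_zero]

theorem rf_ax {t : ℝ} {x : X} : rf t x ∈ ax ↔ x ∈ ax := by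
  rw [mem_ax, mem_ax, rf_snd]

theorem rf_rf (t : ℝ) (x : X) : rf t (rf t x) = x := mir_mir norm_e1 x

theorem rf_continuous (t : ℝ) : Continuous (rf t) := mir_continuous _ _

theorem rf_dist (t : ℝ) (x y : X) : ‖rf t x - rf t y‖ = ‖x - y‖ := norm_mir_mir norm_e1 x y

theorem rf_dist' (t : ℝ) (x y : X) : ‖rf t x - y‖ = ‖x - rf t y‖ := norm_mir_left norm_e1 x y

theorem rf_fix {t : ℝ} {x : X} (h : x.fst = t) : rf t x = x :=
  mir_fix (by rw [hgt_e1, h, sub_self])

/-- the reflection as a homeomorphism -/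
noncomputable def rfH (t : ℝ) : X ≃ₜ X where
  toFun := rf t
  invFun := rf t
  left_inv := rf_rf t
  right_inv := rf_rf t
  continuous_toFun := rf_continuous t
  continuous_invFun := rf_continuous t

theorem rf_norm_le (t : ℝ) (x : X) : ‖rf t x‖ ≤ ‖x‖ + 2 * |t| := by
  have h1 : rf t (0 : X) = (2 * t) • e1 := by
    rw [rf_eq]
    simp
  have h2 := norm_sub_norm_le (rf t x) (rf t 0)
  rw [rf_dist, sub_zero, h1, norm_smul, norm_e1, Real.norm_eq_abs, abs_mul,
    abs_of_pos (by norm_num : (0 : ℝ) < 2)] at h2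
  linarith

theorem rf_integral (t : ℝ) (f : X → ℝ) : ∫ x, f (rf t x) = ∫ x, f x :=
  (mir_mp (o := t • e1) norm_e1).integral_comp (rfH t).measurableEmbedding f

theorem Tst.rf {η : X → ℝ} (h : Tst η) (t : ℝ) : Tst fun x => η (rf t x) := by
  have hts : tsupport (fun x => η (Col.rf t x)) = Col.rf t ⁻¹' tsupport η :=
    tsupport_comp_eq_preimage η (rfH t)
  obtain ⟨C, hC⟩ := h.lip
  refine ⟨⟨C, ?_⟩, ?_, ?_⟩
  · refine LipschitzWith.of_dist_le_mul fun x y => ?_
    have h1 := hC.dist_le_mul (Col.rf t x) (Col.rf t y)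
    rw [dist_eq_norm (Col.rf t x), rf_dist, ← dist_eq_norm] at h1
    exact h1
  · exact h.cs.comp_homeomorph (rfH t)
  · rw [hts, Set.disjoint_left]
    intro x hx hxa
    exact h.notMem hx (rf_ax.mpr hxa)

/-- reflection of a field with a weak divergence -/
theorem WD.rf {A : X → X} {d : X → ℝ} (h : WD A d) (t : ℝ) :
    WD (fun x => mirL e1 (A (rf t x))) fun x => d (rf t x) := by
  have hm : MapsTo (Col.rf t) axᶜ axᶜ := fun x hx hx' => hx (rf_ax.mp hx')
  refine WD.of_tst ((mirL e1).continuous.comp_continuousOn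
    (h.contA.comp (rf_continuous t).continuousOn hm))
    (h.contd.comp (rf_continuous t).continuousOn hm) fun η hη => ?_
  have h1 := h.tst (hη.rf t)
  obtain ⟨C, hC⟩ := hη.lip
  have e1' : ∫ x, ⟪mirL e1 (A (Col.rf t x)), ∇ η x⟫ =
      ∫ x, ⟪A x, ∇ (fun y => η (Col.rf t y)) x⟫ := by
    have h2 : ∫ x, ⟪mirL e1 (A (Col.rf t x)), ∇ η x⟫ =
        ∫ x, ⟪mirL e1 (A x), ∇ η (Col.rf t x)⟫ := by
      rw [← rf_integral t fun x => ⟪mirL e1 (A x), ∇ η (Col.rf t x)⟫]
      simp only [rf_rf]
    rw [h2]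
    refine integral_congr_ae ?_
    filter_upwards [ae_mir (o := t • e1) norm_e1
      (hC.ae_differentiableAt (μ := (volume : Measure X)))] with x hx
    have h3 : HasGradientAt η (∇ η (Col.rf t x)) (Col.rf t x) := hx.hasGradientAt
    have h4 := (grad_mir norm_e1 h3).gradient
    rw [h4, mirL_symm]
  have e2 : ∫ x, d (Col.rf t x) * η x = ∫ x, d x * η (Col.rf t x) := by
    have h5 := rf_integral t fun x => d x * η (Col.rf t x)
    simp only [rf_rf] at h5
    exact h5
  rw [e1', h1, e2]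

/-! ### a radial cutoff -/

end Pool.Agent.TF.Col
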