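import Mathlib
import Pool.Agent.Lib.MP_9cf0c9_mp.Tr.ColJ
import Pool.Agent.Lib.MP_9cf0c9_mp.Tr.HalfA48
/-! Existence of the solution `e` of `Δe = Γ e` with the singularity of `E₁ = -∂₁ψ` at the
nucleus `R i`, odd with respect to the plane `x₁ = t` in front of all other nuclei (`Γ` of the half
space `t ≤ x₁`, extended as an even function); `g = E₁ - e` is continuously differentiable on the
half space, at the nucleus too. -/

set_option autoImplicit false

set_option linter.unusedSectionVars false

set_option linter.unusedVariables false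

namespace Pool.Agent.TF.Grd
end Pool.Agent.TF.Grd

namespace Pool.Agent.TF.Col

open MeasureTheory Set Metric Filter Topology BoundedContinuousFunction

open scoped ENNReal NNReal RealInnerProductSpace Gradient

open Pool.Agent.TF.Grd

section sol

variable {ι : Type*} [Fintype ι]

/-- the axial component of the field -/
noncomputable def E1 (z : ι → ℝ) (R : ι → X) (ρ : X → ℝ) (x : X) : ℝ := -⟪psi' z R ρ x, e1⟫

variable {φ₀ : ℝ} {z : ι → ℝ} {R : ι → X} {ρ : X → ℝ} {H : X → X →L[ℝ] X} {lo hi : ℝ} {t : ℝ}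

theorem Dat.c1_E1 (D : Dat φ₀ z R ρ H lo hi) :
    C1A {x | ∀ j, x ≠ R j} (E1 z R ρ) fun x => -(H x e1) := by
  refine ⟨fun x hx => ?_, fun x hx => ((D.hs.contAt hx).clm_apply continuousAt_const).neg⟩
  have h1 := ((innerSL ℝ e1).hasFDerivAt.comp x (D.hs.deriv x hx)).neg
  rw [hasGradientAt_iff_hasFDerivAt]
  refine (h1.congr_of_eventuallyEq (Eventually.of_forall fun y => ?_)).congr_fderiv ?_
  · unfold E1
    simp only [Pi.neg_apply, Function.comp, innerSL_apply_apply]
    rw [real_inner_comm]
  · ext v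
    simp only [_root_.neg_apply, ContinuousLinearMap.comp_apply, innerSL_apply_apply,
      InnerProductSpace.toDual_apply_apply, inner_neg_left]
    rw [← D.hs.symm x hx]

/-- geometry: the nucleus `i` on one side of the plane, the other nuclei on the other side -/
structure Geo (R : ι → X) (t : ℝ) (i : ι) (δ : ℝ) : Prop where
  hδ : 0 < δ
  hi : (R i).fst = t + 4 * δ
  hj : ∀ j, j ≠ i → (R j).fst ≤ t

theorem Geo.of_le {i : ι} (hi : t < (R i).fst) (hj : ∀ j, j ≠ i → (R j).fst ≤ t) :
    Geo R t i (((R i).fst - t) / 4) := ⟨by linarith, by ring, hj⟩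

theorem Geo.of_lt {i : ι} (hi : t < (R i).fst) (hj : ∀ j, j ≠ i → (R j).fst < t) :
    Geo R t i (((R i).fst - t) / 4) := Geo.of_le hi fun j h => (hj j h).le

theorem abs_fst_le (x : X) : |x.fst| ≤ ‖x‖ := by
  rw [← inner_e1]
  have := abs_real_inner_le_norm x e1
  rwa [norm_e1, mul_one] at this

variable {i : ι} {δ : ℝ}

theorem Geo.far_j (G : Geo R t i δ) {j : ι} (hj : j ≠ i) {x : X} (hx : ‖x - R i‖ ≤ 3 * δ) :
    δ ≤ ‖x - R j‖ := by
  have h1 := (abs_fst_le (x - R i)).trans hx
  have h2 := abs_fst_le (x - R j)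
  have h3 := G.hj j hj
  rw [WithLp.sub_fst, G.hi, abs_le] at h1
  rw [WithLp.sub_fst] at h2
  have h4 := le_abs_self (x.fst - (R j).fst)
  linarith [h1.1]

theorem Geo.off (G : Geo R t i δ) {x : X} (hx : ‖x - R i‖ ≤ 3 * δ) (hxi : x ≠ R i) :
    ∀ j, x ≠ R j := by
  intro j hj
  by_cases hji : j = i
  · exact hxi (hji ▸ hj)
  · have := G.far_j hji hx
    rw [hj, sub_self, norm_zero] at this
    linarith [G.hδ]

/-! ### the singular part -/

/-! ### the solution -/

end sol

end Pool.Agent.TF.Col
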