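import Mathlib
import Pool.Agent.Lib.MP_9cf0c9_mp.Tr.HalfDip48
/-! Two nuclei: the trial `X - D e`, `e` the dipole function of a half space which contains the
right nucleus and not the left one (the left one may lie on the plane); the certificate exists as
soon as the slope of `g = E₁ - e` at the right nucleus is at most twice the weight `q` there. -/

set_option autoImplicit false

set_option linter.unusedSectionVars false

set_option linter.unusedVariables false

set_option linter.style.haveILetI false

namespace Pool.Agent.TF.Grd
end Pool.Agent.TF.Grd

namespace Pool.Agent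
end Pool.Agent

namespace Pool.Agent.TF.Col

open MeasureTheory Set Metric Filter Topology

open scoped ENNReal NNReal RealInnerProductSpace Gradient

open Pool.Agent.TF.Grd

variable {φ₀ : ℝ} {z : Fin 2 → ℝ} {R : Fin 2 → X} {ρ : X → ℝ} {H : X → X →L[ℝ] X} {lo hi : ℝ}

variable {t : ℝ} {e : X → ℝ} {e' : X → X}

theorem HDip.ne_left (hlt : (R 0).fst < (R 1).fst) : R 0 ≠ R 1 := fun h => by
  rw [h] at hlt
  exact lt_irrefl _ hlt

end Pool.Agent.TF.Col

namespace Pool.Agent.Lib.MP_9cf0c9_mp

open MeasureTheory Set Filter Topology Pool.Agent

open scoped RealInnerProductSpace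

end Pool.Agent.Lib.MP_9cf0c9_mp
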