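import Mathlib
import Pool.Agent.Lib.MP_9cf0c9_mp.Tr.Col83
import Pool.Agent.Lib.MP_9cf0c9_mp.Tr.ColJ
/-! Collinear nuclei: the trial and the currents far from the nuclei; their fluxes at infinity
vanish (module G2). -/

set_option autoImplicit false

set_option linter.unusedSectionVars false

set_option linter.unusedVariables false

set_option linter.style.haveILetI false

namespace Pool.Agent.TF.Grd
end Pool.Agent.TF.Grd

namespace Pool.Agent.TF.Col

open MeasureTheory Set Metric Filter Topology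

open scoped ENNReal NNReal RealInnerProductSpace Gradient

open Pool.Agent.TF.Grd

/-! ### general facts -/

/-- a field of size `r⁻³` has no flux at infinity -/
theorem flux_inf {J : X → X} {C N₀ : ℝ} (hC : 0 ≤ C)
    (hJ : ∀ x, x ∉ Col.ax → N₀ ≤ ‖x‖ → ‖J x‖ ≤ C * (‖x‖ ^ 3)⁻¹) :
    Tendsto (fun N : ℝ => ∫ x, ⟪J x, Flux.gcut N x⟫) atTop (𝓝 0) := by
  set m : ℝ := (volume (ball (0 : X) 1)).toReal with hm
  have hm0 : 0 ≤ m := ENNReal.toReal_nonneg
  have key : ∀ᶠ N : ℝ in atTop, ‖∫ x, ⟪J x, Flux.gcut N x⟫‖ ≤ 8 * C * m * N⁻¹ := by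
    filter_upwards [eventually_ge_atTop N₀, eventually_gt_atTop 0] with N h1 h0
    have hvol : volume.real (closedBall (0 : X) (2 * N)) = (2 * N) ^ 3 * m := by
      have hf : Module.finrank ℝ X = 3 := Fact.out
      rw [Measure.real, Measure.addHaar_closedBall _ _ (by positivity), hf, ENNReal.toReal_mul,
        ENNReal.toReal_ofReal (by positivity)]
    have h2 : ‖∫ x, ⟪J x, Flux.gcut N x⟫‖ ≤
        ∫ x, (closedBall (0 : X) (2 * N)).indicator (fun _ => C * (N ^ 3)⁻¹ * N⁻¹) x := by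
      refine norm_integral_le_of_norm_le ((integrable_indicator_iff measurableSet_closedBall).2
        (integrableOn_const measure_closedBall_lt_top.ne)) ?_
      filter_upwards [ae_off_ax] with x hx
      by_cases hxN : ‖x‖ ∈ Ioo N (2 * N)
      · have hxb : x ∈ closedBall (0 : X) (2 * N) := by
          rw [mem_closedBall_zero_iff]; exact hxN.2.le
        rw [indicator_of_mem hxb]
        refine (norm_inner_le_norm _ _).trans (mul_le_mul ?_ (Flux.norm_gcut_le h0 x)
          (norm_nonneg _) (by positivity))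
        refine (hJ x hx (h1.trans hxN.1.le)).trans (mul_le_mul_of_nonneg_left ?_ hC)
        exact inv_anti₀ (by positivity) (pow_le_pow_left₀ h0.le hxN.1.le 3)
      · have e : Flux.gcut N x = 0 := by
          unfold Flux.gcut
          rw [indicator_of_notMem hxN, zero_smul]
        rw [e, inner_zero_right, norm_zero]
        exact indicator_nonneg (fun _ _ => by positivity) x
    rw [integral_indicator measurableSet_closedBall, setIntegral_const, smul_eq_mul, hvol] at h2
    refine h2.trans (le_of_eq ?_)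
    field_simp
    ring
  refine squeeze_zero_norm' key ?_
  have h3 := (tendsto_inv_atTop_zero (𝕜 := ℝ)).const_mul (8 * C * m)
  rwa [mul_zero] at h3

/-- the form of the condition at infinity in `Vtr_ge_col` -/
theorem flux_inf_le {J : X → X}
    (h : Tendsto (fun N : ℝ => ∫ x, ⟪J x, Flux.gcut N x⟫) atTop (𝓝 0)) :
    ∀ δ : ℝ, 0 < δ → ∀ᶠ N in atTop, ∫ x, ⟪J x, Flux.gcut N x⟫ ≤ δ := fun δ hδ => by
  filter_upwards [h.eventually (Iio_mem_nhds hδ)] with N hN
  exact le_of_lt hN

/-! ### the geometry far away -/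

variable {ι : Type*} [Fintype ι]

variable {φ₀ : ℝ} {z : ι → ℝ} {R : ι → X} {ρ : X → ℝ} {H : X → X →L[ℝ] X} {lo hi : ℝ}

variable {C N : ℝ}

theorem ht_le_norm (x : X) : ht x ≤ ‖x‖ := by
  have h1 : ‖x‖ ^ 2 = x.fst ^ 2 + ht x ^ 2 := by
    unfold ht
    rw [← mk_eta x, norm_mk_sq]
    simp
  nlinarith [sq_nonneg x.fst, norm_nonneg x, ht_nonneg x]

theorem abs_fst_le_norm (x : X) : |x.fst| ≤ ‖x‖ := by
  have h1 : ‖x‖ ^ 2 = x.fst ^ 2 + ht x ^ 2 := by
    unfold ht
    rw [← mk_eta x, norm_mk_sq]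
    simp
  exact abs_le_of_sq_le_sq (by nlinarith [sq_nonneg (ht x)]) (norm_nonneg x)

/-- a bound for the foot -/
theorem Dat.abs_c (D : Dat φ₀ z R ρ H lo hi) {x : X} (hx : x ∉ Col.ax) :
    |cf z R ρ x| ≤ |lo| + |hi| := by
  have h1 := D.ax.lo_le x hx
  have h2 := D.ax.le_hi x hx
  rw [abs_le]
  constructor
  · linarith [neg_abs_le lo, abs_nonneg hi]
  · linarith [le_abs_self hi, abs_nonneg lo]

theorem Dat.abs_zt (D : Dat φ₀ z R ρ H lo hi) {x : X} (hx : x ∉ Col.ax) (h1 : 1 ≤ ‖x‖) :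
    |zt z R ρ x| ≤ (1 + |lo| + |hi|) * ‖x‖ := by
  have h2 := D.abs_c hx
  have h3 := abs_fst_le_norm x
  have h4 := abs_sub x.fst (cf z R ρ x)
  have h5 : 0 ≤ |lo| + |hi| := by positivity
  unfold zt
  nlinarith

/-! ### the current of the identity -/

/-! ### the trial -/

/-! ### two nuclei -/

end Pool.Agent.TF.Col
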