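import Mathlib
import Pool.Agent.Lib.MP_9cf0c9_mp.Tr.CtwoA
import Pool.Agent.Lib.MP_9cf0c9_mp.Tr.HolPot61
import Pool.Agent.Lib.MP_9cf0c9_mp.Tr.Mirror39
/-! The rotation derivative of the potential of the electrons near a nucleus: it is the potential
of the rotation derivative of the density (the part of the density in a ball about the nucleus). -/

set_option autoImplicit false

set_option linter.unusedSectionVars false

set_option linter.unusedVariables false

set_option linter.style.haveILetI false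

namespace Pool.Agent.TF.Grd
end Pool.Agent.TF.Grd

namespace Pool.Agent.TF.Rot33

open MeasureTheory Set Metric Filter Topology

open scoped ENNReal NNReal RealInnerProductSpace Gradient

open Pool.Agent.TF.Grd

/-! ### rotations in the plane of two orthonormal vectors -/

/-- the infinitesimal rotation in the plane of `a`, `b` -/
noncomputable def J (a b v : X) : X := ⟪v, a⟫ • b - ⟪v, b⟫ • a

theorem inner_J (a b v w : X) : ⟪w, J a b v⟫ = ⟪v, a⟫ * ⟪w, b⟫ - ⟪v, b⟫ * ⟪w, a⟫ := by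
  unfold J
  rw [inner_sub_right, real_inner_smul_right, real_inner_smul_right]

theorem J_norm {a b : X} (ha : ‖a‖ = 1) (hb : ‖b‖ = 1) (v : X) : ‖J a b v‖ ≤ 2 * ‖v‖ := by
  unfold J
  refine (norm_sub_le _ _).trans ?_
  rw [norm_smul, norm_smul, ha, hb, mul_one, mul_one, Real.norm_eq_abs, Real.norm_eq_abs]
  have h1 := abs_real_inner_le_norm v a
  have h2 := abs_real_inner_le_norm v b
  rw [ha, mul_one] at h1
  rw [hb, mul_one] at h2
  linarith

/-- the second mirror normal -/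
noncomputable def nb (a b : X) (t : ℝ) : X := Real.cos (t / 2) • a + Real.sin (t / 2) • b

theorem nb_norm {a b : X} (ha : ‖a‖ = 1) (hb : ‖b‖ = 1) (hab : ⟪a, b⟫ = 0) (t : ℝ) :
    ‖nb a b t‖ = 1 := by
  have h1 : ‖nb a b t‖ ^ 2 = 1 := by
    unfold nb
    rw [@norm_add_sq_real, norm_smul, norm_smul, real_inner_smul_left, real_inner_smul_right, hab,
      ha, hb, Real.norm_eq_abs, Real.norm_eq_abs, mul_one, mul_one, sq_abs, sq_abs]
    have := Real.cos_sq_add_sin_sq (t / 2)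
    linarith
  have h2 : 0 ≤ ‖nb a b t‖ := norm_nonneg _
  nlinarith

/-- the rotation by the angle `t` -/
noncomputable def rotL (a b : X) (t : ℝ) : X ≃ₗᵢ[ℝ] X := (mirL a).trans (mirL (nb a b t))

theorem rotL_apply {a b : X} (ha : ‖a‖ = 1) (hb : ‖b‖ = 1) (hab : ⟪a, b⟫ = 0) (t : ℝ) (v : X) :
    rotL a b t v = v + (Real.cos t - 1) • (⟪v, a⟫ • a + ⟪v, b⟫ • b) + Real.sin t • J a b v := by
  have haa : ⟪a, a⟫ = 1 := by rw [real_inner_self_eq_norm_sq, ha]; norm_num
  have h1 : rotL a b t v = mirL (nb a b t) (mirL a v) := rfl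
  rw [h1, mirL_apply (nb_norm ha hb hab t), mirL_apply ha]
  have h2 : ⟪v - (2 * ⟪v, a⟫) • a, nb a b t⟫ =
      -(Real.cos (t / 2) * ⟪v, a⟫) + Real.sin (t / 2) * ⟪v, b⟫ := by
    unfold nb
    rw [inner_add_right, real_inner_smul_right, real_inner_smul_right, inner_sub_left,
      inner_sub_left, real_inner_smul_left, real_inner_smul_left, haa, hab]
    ring
  rw [h2]
  have ht : t = 2 * (t / 2) := by ring
  have h3 : Real.cos t = 2 * Real.cos (t / 2) ^ 2 - 1 := by
    conv_lhs => rw [ht]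
    rw [Real.cos_two_mul]
  have h4 : Real.sin t = 2 * Real.sin (t / 2) * Real.cos (t / 2) := by
    conv_lhs => rw [ht]
    rw [Real.sin_two_mul]
  have h5 := Real.cos_sq_add_sin_sq (t / 2)
  rw [h3, h4]
  unfold nb J
  match_scalars
  · ring
  · ring
  · linear_combination (-2 * ⟪v, b⟫) * h5

theorem rotL_deriv {a b : X} (ha : ‖a‖ = 1) (hb : ‖b‖ = 1) (hab : ⟪a, b⟫ = 0) (t : ℝ) (v : X) :
    HasDerivAt (fun t => rotL a b t v) (J a b (rotL a b t v)) t := by
  have haa : ⟪a, a⟫ = 1 := by rw [real_inner_self_eq_norm_sq, ha]; norm_num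
  have hbb : ⟪b, b⟫ = 1 := by rw [real_inner_self_eq_norm_sq, hb]; norm_num
  have hba : ⟪b, a⟫ = 0 := by rw [real_inner_comm]; exact hab
  have h1 : (fun t => rotL a b t v) = fun t => v + (Real.cos t - 1) • (⟪v, a⟫ • a + ⟪v, b⟫ • b) +
      Real.sin t • J a b v := funext fun t => rotL_apply ha hb hab t v
  rw [h1]
  have h2 : HasDerivAt (fun t => v + (Real.cos t - 1) • (⟪v, a⟫ • a + ⟪v, b⟫ • b) +
      Real.sin t • J a b v) ((-Real.sin t) • (⟪v, a⟫ • a + ⟪v, b⟫ • b) +
      Real.cos t • J a b v) t :=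
    ((((Real.hasDerivAt_cos t).sub_const 1).smul_const (⟪v, a⟫ • a + ⟪v, b⟫ • b)).const_add v).add
      ((Real.hasDerivAt_sin t).smul_const (J a b v))
  convert h2 using 1
  have hA : ⟪rotL a b t v, a⟫ = Real.cos t * ⟪v, a⟫ - Real.sin t * ⟪v, b⟫ := by
    rw [rotL_apply ha hb hab]
    unfold J
    simp only [inner_add_left, inner_sub_left, real_inner_smul_left, haa, hba]
    ring
  have hB : ⟪rotL a b t v, b⟫ = Real.sin t * ⟪v, a⟫ + Real.cos t * ⟪v, b⟫ := by
    rw [rotL_apply ha hb hab]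
    unfold J
    simp only [inner_add_left, inner_sub_left, real_inner_smul_left, hbb, hab]
    ring
  unfold J
  rw [hA, hB]
  module

/-- the rotation about `c` -/
noncomputable def T (c a b : X) (t : ℝ) (x : X) : X := rotL a b t (x + -c) + c

theorem T_sub (c a b : X) (t : ℝ) (x : X) : T c a b t x - c = rotL a b t (x - c) := by
  unfold T
  rw [add_sub_cancel_right, ← sub_eq_add_neg]

theorem T_norm (c a b : X) (t : ℝ) (x : X) : ‖T c a b t x - c‖ = ‖x - c‖ := by
  rw [T_sub, LinearIsometryEquiv.norm_map]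

theorem T_zero {a b : X} (ha : ‖a‖ = 1) (hb : ‖b‖ = 1) (hab : ⟪a, b⟫ = 0) (c x : X) :
    T c a b 0 x = x := by
  unfold T
  rw [rotL_apply ha hb hab, Real.cos_zero, Real.sin_zero, sub_self, zero_smul, zero_smul,
    add_zero, add_zero]
  abel

theorem T_continuous (c a b : X) (t : ℝ) : Continuous (T c a b t) := by
  unfold T
  exact ((rotL a b t).continuous.comp (continuous_id.add continuous_const)).add continuous_const

theorem T_deriv {a b : X} (ha : ‖a‖ = 1) (hb : ‖b‖ = 1) (hab : ⟪a, b⟫ = 0) (c : X) (t : ℝ)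
    (x : X) : HasDerivAt (fun t => T c a b t x) (J a b (T c a b t x - c)) t := by
  have h1 := (rotL_deriv ha hb hab t (x + -c)).add_const c
  have h2 : T c a b t x - c = rotL a b t (x + -c) := by rw [T_sub, sub_eq_add_neg]
  rw [h2]
  exact h1

theorem pot_T (c a b : X) (t : ℝ) (f : X → ℝ) (x : X) :
    pot (fun y => f (T c a b t y)) x = pot f (T c a b t x) := by
  have h1 : (fun y => f (T c a b t y)) =
      fun y => (fun w => (fun v => f (v + c)) (rotL a b t w)) (y + -c) := rfl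
  rw [h1, pot_translate (fun w => (fun v => f (v + c)) (rotL a b t w)) (-c) x,
    pot_comp_isom (rotL a b t) (fun v => f (v + c)), pot_translate]
  rfl

theorem T_mem_ball (c a b : X) (t : ℝ) (x : X) {d : ℝ} : T c a b t x ∈ ball c d ↔ x ∈ ball c d := by
  rw [mem_ball, mem_ball, dist_eq_norm, dist_eq_norm, T_norm]

/-! ### the identity -/

section sol

variable {ι : Type*} [Fintype ι]

variable {z : ι → ℝ} (hz : ∀ i, 0 ≤ z i) (R : ι → X) {φ₀ : ℝ} (hφ : 0 < φ₀)
    {ρ : X → ℝ} (hρ : TC ρ) (heq : ∀ x, ρ x = tf (Vpt z R x - pot ρ x - φ₀))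

theorem aR_near {R : ι → X} {i : ι} {d : ℝ} (hd : 0 < d)
    (hsep : ∀ j, R j ≠ R i → 2 * d ≤ ‖R j - R i‖) {y : X} (hy : y ∈ ball (R i) d)
    (hyi : y ≠ R i) : aR R y ≤ (d + Fintype.card ι) * ‖y - R i‖⁻¹ := by
  have h0 : 0 < ‖y - R i‖ := norm_pos_iff.mpr (sub_ne_zero.mpr hyi)
  rw [mem_ball, dist_eq_norm] at hy
  have h1 : ∀ j ∈ (Finset.univ : Finset ι), ‖y - R j‖⁻¹ ≤ ‖y - R i‖⁻¹ := by
    intro j _
    by_cases hj : R j = R i
    · rw [hj]
    · refine inv_anti₀ h0 ?_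
      have h2 := hsep j hj
      have h3 : ‖R j - R i‖ ≤ ‖y - R i‖ + ‖y - R j‖ := by
        have e : R j - R i = (y - R i) - (y - R j) := by abel
        rw [e]
        exact norm_sub_le _ _
      linarith
  have h2 := Finset.sum_le_sum h1
  rw [Finset.sum_const, Finset.card_univ, nsmul_eq_mul] at h2
  have h3 : 1 ≤ d * ‖y - R i‖⁻¹ := by
    rw [← div_eq_mul_inv, le_div_iff₀ h0]
    linarith
  unfold aR
  rw [add_mul]
  linarith

theorem off_near {R : ι → X} {i : ι} {d : ℝ} (hd : 0 < d)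
    (hsep : ∀ j, R j ≠ R i → 2 * d ≤ ‖R j - R i‖) {y : X} (hy : y ∈ ball (R i) d)
    (hyi : y ≠ R i) (j : ι) : y ≠ R j := by
  intro h
  by_cases hj : R j = R i
  · exact hyi (h.trans hj)
  · have h2 := hsep j hj
    rw [mem_ball, dist_eq_norm, h] at hy
    linarith

/-- the rotation derivative -/
noncomputable def wr (z : ι → ℝ) (R : ι → X) (ρ : X → ℝ) (c a b y : X) : ℝ :=
  ⟪y - c, a⟫ * ⟪psi' z R ρ y, b⟫ - ⟪y - c, b⟫ * ⟪psi' z R ρ y, a⟫

theorem wr_eq (z : ι → ℝ) (R : ι → X) (ρ : X → ℝ) (c a b y : X) :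
    wr z R ρ c a b y = ⟪psi' z R ρ y, J a b (y - c)⟫ := by
  rw [inner_J]; rfl

include hz hφ hρ heq

/-- bounds near the nucleus -/
theorem near_bounds (i : ι) {d : ℝ} (hd : 0 < d)
    (hsep : ∀ j, R j ≠ R i → 2 * d ≤ ‖R j - R i‖) {a b : X} (ha : ‖a‖ = 1) (hb : ‖b‖ = 1) :
    ∃ C : ℝ, 0 ≤ C ∧ ∀ y ∈ ball (R i) d, y ≠ R i →
      |ρ y| ≤ C * (‖y - R i‖⁻¹) ^ (3 / 2 : ℝ) ∧
      |gam (psi φ₀ z R ρ y) * wr z R ρ (R i) a b y| ≤ C * (‖y - R i‖⁻¹) ^ (3 / 2 : ℝ) := by
  obtain ⟨K, hK, hb1⟩ := sol_bounds hz R hφ hρ heq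
  set A : ℝ := d + Fintype.card ι with hA
  have hA0 : 0 < A := by positivity
  refine ⟨K * A ^ (3 / 2 : ℝ) + 2 * (K * A ^ (5 / 2 : ℝ)), by positivity, fun y hy hyi => ?_⟩
  have hoff := off_near hd hsep hy hyi
  have h0 : 0 < ‖y - R i‖ := norm_pos_iff.mpr (sub_ne_zero.mpr hyi)
  have ha1 := one_le_aR R y
  have hball : y ∈ ball y (2 * aR R y)⁻¹ := mem_ball_self (by positivity)
  obtain ⟨h1, h2⟩ := (hb1 y hoff).1 y hball
  have h3 : aR R y ≤ A * ‖y - R i‖⁻¹ := aR_near hd hsep hy hyi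
  have h4 : ∀ p : ℝ, 0 ≤ p → aR R y ^ p ≤ A ^ p * (‖y - R i‖⁻¹) ^ p := by
    intro p hp
    rw [← Real.mul_rpow hA0.le (by positivity)]
    exact Real.rpow_le_rpow (by linarith) h3 hp
  have h5 := h4 (3 / 2) (by norm_num)
  have h6 := h4 (5 / 2) (by norm_num)
  have hn : (‖y - R i‖⁻¹) ^ (5 / 2 : ℝ) * ‖y - R i‖ = (‖y - R i‖⁻¹) ^ (3 / 2 : ℝ) := by
    have e : (5 / 2 : ℝ) = 3 / 2 + 1 := by norm_num
    rw [e, Real.rpow_add (by positivity), Real.rpow_one, mul_assoc, inv_mul_cancel₀ h0.ne',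
      mul_one]
  constructor
  · calc |ρ y| ≤ K * aR R y ^ (3 / 2 : ℝ) := h1
      _ ≤ K * (A ^ (3 / 2 : ℝ) * (‖y - R i‖⁻¹) ^ (3 / 2 : ℝ)) := mul_le_mul_of_nonneg_left h5 hK
      _ = K * A ^ (3 / 2 : ℝ) * (‖y - R i‖⁻¹) ^ (3 / 2 : ℝ) := by ring
      _ ≤ _ := mul_le_mul_of_nonneg_right (by
        have : 0 ≤ 2 * (K * A ^ (5 / 2 : ℝ)) := by positivity
        linarith) (by positivity)
  · have e1 : gam (psi φ₀ z R ρ y) * wr z R ρ (R i) a b y =
        ⟪gam (psi φ₀ z R ρ y) • psi' z R ρ y, J a b (y - R i)⟫ := by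
      rw [wr_eq, real_inner_smul_left]
    rw [e1]
    calc |⟪gam (psi φ₀ z R ρ y) • psi' z R ρ y, J a b (y - R i)⟫|
        ≤ ‖gam (psi φ₀ z R ρ y) • psi' z R ρ y‖ * ‖J a b (y - R i)‖ := abs_real_inner_le_norm _ _
      _ ≤ (K * (A ^ (5 / 2 : ℝ) * (‖y - R i‖⁻¹) ^ (5 / 2 : ℝ))) * (2 * ‖y - R i‖) := by
          refine mul_le_mul (h2.trans (mul_le_mul_of_nonneg_left h6 hK)) (J_norm ha hb _)
            (norm_nonneg _) (by positivity)
      _ = 2 * (K * A ^ (5 / 2 : ℝ)) * ((‖y - R i‖⁻¹) ^ (5 / 2 : ℝ) * ‖y - R i‖) := by ring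
      _ = 2 * (K * A ^ (5 / 2 : ℝ)) * (‖y - R i‖⁻¹) ^ (3 / 2 : ℝ) := by rw [hn]
      _ ≤ _ := mul_le_mul_of_nonneg_right (by
        have : 0 ≤ K * A ^ (3 / 2 : ℝ) := by positivity
        linarith) (by positivity)

omit hz hφ hρ heq in
theorem mul_le_52 {p q : ℝ} (hp : 0 ≤ p) (hq : 0 ≤ q) :
    p * q ^ (3 / 2 : ℝ) ≤ p ^ (5 / 2 : ℝ) + q ^ (5 / 2 : ℝ) := by
  have e : (5 / 2 : ℝ) = 1 + 3 / 2 := by norm_num
  have key : ∀ m : ℝ, 0 ≤ m → m * m ^ (3 / 2 : ℝ) = m ^ (5 / 2 : ℝ) := by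
    intro m hm
    rcases hm.eq_or_lt with h | h
    · rw [← h, Real.zero_rpow (by norm_num), Real.zero_rpow (by norm_num), mul_zero]
    · rw [e, Real.rpow_add h, Real.rpow_one]
  rcases le_total p q with h | h
  · calc p * q ^ (3 / 2 : ℝ) ≤ q * q ^ (3 / 2 : ℝ) :=
          mul_le_mul_of_nonneg_right h (Real.rpow_nonneg hq _)
      _ = q ^ (5 / 2 : ℝ) := key q hq
      _ ≤ _ := le_add_of_nonneg_left (Real.rpow_nonneg hp _)
  · calc p * q ^ (3 / 2 : ℝ) ≤ p * p ^ (3 / 2 : ℝ) :=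
          mul_le_mul_of_nonneg_left (Real.rpow_le_rpow hq h (by norm_num)) hp
      _ = p ^ (5 / 2 : ℝ) := key p hp
      _ ≤ _ := le_add_of_nonneg_right (Real.rpow_nonneg hq _)

omit hz hφ hρ heq in
/-- integrability of the dominating function -/
theorem dom_integrable (c x : X) (d C : ℝ) :
    Integrable (fun y => ‖x - y‖⁻¹ * (ball c d).indicator
      (fun y => C * (‖y - c‖⁻¹) ^ (3 / 2 : ℝ)) y) := by
  set B : X → ℝ := (ball c d).indicator fun _ => (1 : ℝ) with hB
  have hB0 : ∀ y, 0 ≤ B y := fun y => indicator_nonneg (fun _ _ => zero_le_one) _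
  have hBbc : BC B := by
    refine ⟨measurable_const.indicator measurableSet_ball, ⟨1, fun x => ?_⟩,
      ⟨‖c‖ + d, fun x hx => indicator_of_notMem (fun h => ?_) _⟩⟩
    · rw [abs_of_nonneg (hB0 x)]
      exact indicator_le_self' (fun _ _ => zero_le_one) _
    · rw [mem_ball, dist_eq_norm] at h
      have := norm_sub_norm_le x c
      linarith
  obtain ⟨B52, hB52, h52⟩ := hBbc.conv52
  have h1 := (h52 x).1
  have h2 := (h52 c).1
  have hdom : Integrable (fun y => |C| * (|B y| * (‖x - y‖⁻¹) ^ (5 / 2 : ℝ) +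
      |B y| * (‖c - y‖⁻¹) ^ (5 / 2 : ℝ))) := (h1.add h2).const_mul _
  refine hdom.mono' ?_ (Eventually.of_forall fun y => ?_)
  · refine Measurable.aestronglyMeasurable ?_
    refine Measurable.mul (by fun_prop) (Measurable.indicator ?_ measurableSet_ball)
    exact measurable_const.mul (Measurable.pow_const (by fun_prop) _)
  · by_cases hy : y ∈ ball c d
    · rw [indicator_of_mem hy, hB]
      simp only [indicator_of_mem hy, abs_one, one_mul]
      rw [norm_mul, norm_mul, Real.norm_of_nonneg (by positivity : (0:ℝ) ≤ ‖x - y‖⁻¹),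
        Real.norm_of_nonneg (by positivity : (0:ℝ) ≤ (‖y - c‖⁻¹) ^ (3 / 2 : ℝ)), Real.norm_eq_abs,
        norm_sub_rev c y]
      have h3 := mul_le_52 (p := ‖x - y‖⁻¹) (q := ‖y - c‖⁻¹) (by positivity) (by positivity)
      calc ‖x - y‖⁻¹ * (|C| * (‖y - c‖⁻¹) ^ (3 / 2 : ℝ))
          = |C| * (‖x - y‖⁻¹ * (‖y - c‖⁻¹) ^ (3 / 2 : ℝ)) := by ring
        _ ≤ _ := mul_le_mul_of_nonneg_left h3 (abs_nonneg _)
    · rw [indicator_of_notMem hy, mul_zero, norm_zero]
      positivity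

/-- **the rotation identity at a nucleus** -/
theorem rot_identity (i : ι) {d : ℝ} (hd : 0 < d)
    (hsep : ∀ j, R j ≠ R i → 2 * d ≤ ‖R j - R i‖) {a b : X} (ha : ‖a‖ = 1) (hb : ‖b‖ = 1)
    (hab : ⟪a, b⟫ = 0) {x : X} (hx : x ∈ ball (R i) d) (hxi : x ≠ R i) :
    ⟪x - R i, a⟫ * ⟪gradV ((ball (R i) d).indicator ρ) x, b⟫ -
      ⟪x - R i, b⟫ * ⟪gradV ((ball (R i) d).indicator ρ) x, a⟫ =
    pot ((ball (R i) d).indicator fun y => gam (psi φ₀ z R ρ y) *
      (⟪y - R i, a⟫ * ⟪psi' z R ρ y, b⟫ - ⟪y - R i, b⟫ * ⟪psi' z R ρ y, a⟫)) x := by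
  set c := R i with hc
  set B := ball c d with hB
  set w := wr z R ρ c a b with hw
  obtain ⟨C, hC, hbd⟩ := near_bounds hz R hφ hρ heq i hd hsep ha hb
  have hoffx := off_near hd hsep hx hxi
  -- the left side as a derivative
  have hf_meas : Measurable (B.indicator ρ) := hρ.meas.indicator measurableSet_ball
  have hf_int : Integrable (B.indicator ρ) := hρ.int.indicator measurableSet_ball
  obtain ⟨δ, hδ, M, hM⟩ := rho_locbdd hz R hφ hρ heq hoffx
  have hM' : ∀ y ∈ ball x δ, |B.indicator ρ y| ≤ M := by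
    intro y hy
    by_cases h : y ∈ B
    · rw [indicator_of_mem h]; exact hM y hy
    · rw [indicator_of_notMem h, abs_zero]; exact (abs_nonneg _).trans (hM y hy)
  have hg := (loc_grad hf_meas hf_int hδ hM').2.1
  have hT0 : T c a b 0 x = x := T_zero ha hb hab c x
  have hL : HasDerivAt (fun t => pot (B.indicator ρ) (T c a b t x))
      ⟪gradV (B.indicator ρ) x, J a b (x - c)⟫ 0 := by
    have h1 := T_deriv ha hb hab c 0 x
    rw [hT0] at h1
    have h2 : HasFDerivAt (pot (B.indicator ρ))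
        (InnerProductSpace.toDual ℝ X (gradV (B.indicator ρ) x)) (T c a b 0 x) := by
      rw [hT0]; exact hg.hasFDerivAt
    have h3 := h2.comp_hasDerivAt (0 : ℝ) h1
    rw [InnerProductSpace.toDual_apply_apply] at h3
    exact h3
  -- the right side
  set F : ℝ → X → ℝ := fun t y => ‖x - y‖⁻¹ * B.indicator ρ (T c a b t y) with hF
  set F' : ℝ → X → ℝ := fun t y => ‖x - y‖⁻¹ *
    B.indicator (fun y => gam (psi φ₀ z R ρ y) * w y) (T c a b t y) with hF'
  have hFm : ∀ t, AEStronglyMeasurable (F t) volume := by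
    intro t
    refine Measurable.aestronglyMeasurable ?_
    exact Measurable.mul (by fun_prop) (hf_meas.comp (T_continuous c a b t).measurable)
  have hbound : ∀ g : X → ℝ, (∀ y ∈ B, y ≠ c → |g y| ≤ C * (‖y - c‖⁻¹) ^ (3 / 2 : ℝ)) →
      ∀ᵐ y : X, ∀ t, ‖‖x - y‖⁻¹ * B.indicator g (T c a b t y)‖ ≤
      ‖x - y‖⁻¹ * B.indicator (fun y => C * (‖y - c‖⁻¹) ^ (3 / 2 : ℝ)) y := by
    intro g hg
    filter_upwards [ae_off R] with y hy t
    rw [norm_mul, Real.norm_of_nonneg (by positivity : (0:ℝ) ≤ ‖x - y‖⁻¹)]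
    refine mul_le_mul_of_nonneg_left ?_ (by positivity)
    by_cases h : y ∈ B
    · have h2 : T c a b t y ∈ B := (T_mem_ball c a b t y).mpr h
      rw [indicator_of_mem h, indicator_of_mem h2, Real.norm_eq_abs]
      have h3 := hg _ h2 (fun h4 => hy i (by
        have h5 := T_norm c a b t y
        rw [h4, sub_self, norm_zero] at h5
        exact sub_eq_zero.mp (norm_eq_zero.mp h5.symm)))
      rw [T_norm] at h3
      exact h3
    · have h2 : T c a b t y ∉ B := fun h3 => h ((T_mem_ball c a b t y).mp h3)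
      rw [indicator_of_notMem h, indicator_of_notMem h2, norm_zero]
  have hFi : Integrable (F 0) := by
    refine (dom_integrable c x d C).mono' (hFm 0) ?_
    filter_upwards [hbound ρ (fun y hy hyc => (hbd y hy hyc).1)] with y hy using hy 0
  have hF'm : AEStronglyMeasurable (F' 0) volume := by
    have h1 : AEStronglyMeasurable (fun y : X => gam (psi φ₀ z R ρ y) * w y) volume := by
      refine aesm_off (R := R) fun y hy' => ?_
      have hy := off_mem.mpr hy'
      have hc1 := (hasGradientAt_psi hz R hφ hρ heq hy).hasFDerivAt.continuousAt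
      have hc2 := psi'_continuousAt hz R hφ hρ heq hy
      refine ContinuousAt.continuousWithinAt (ContinuousAt.mul
        (ContinuousAt.comp (g := gam) gam_continuous'.continuousAt hc1) ?_)
      have e : w = fun y => ⟪y - c, a⟫ * ⟪psi' z R ρ y, b⟫ - ⟪y - c, b⟫ * ⟪psi' z R ρ y, a⟫ := rfl
      rw [e]
      have hid : ContinuousAt (fun y : X => y - c) y := by fun_prop
      exact ((hid.inner continuousAt_const).mul (hc2.inner continuousAt_const)).sub
        ((hid.inner continuousAt_const).mul (hc2.inner continuousAt_const))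
    have h2 : F' 0 = fun y => ‖x - y‖⁻¹ * B.indicator (fun y => gam (psi φ₀ z R ρ y) * w y) y := by
      funext y
      simp only [hF', T_zero ha hb hab c y]
    rw [h2]
    have h3 : Measurable fun y : X => ‖x - y‖⁻¹ := by fun_prop
    exact h3.aestronglyMeasurable.mul (h1.indicator measurableSet_ball)
  have hdiff : ∀ᵐ y : X, ∀ t ∈ (univ : Set ℝ), HasDerivAt (F · y) (F' t y) t := by
    filter_upwards [ae_off R] with y hy t _
    by_cases h : y ∈ B
    · have h2 : ∀ t, T c a b t y ∈ B := fun t => (T_mem_ball c a b t y).mpr h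
      have hne : T c a b t y ≠ c := fun h4 => hy i (by
        have h5 := T_norm c a b t y
        rw [h4, sub_self, norm_zero] at h5
        exact sub_eq_zero.mp (norm_eq_zero.mp h5.symm))
      have h3 := hasGradientAt_rho hz R hφ hρ heq (off_near hd hsep (h2 t) hne)
      have h4 := h3.hasFDerivAt.comp_hasDerivAt t (T_deriv ha hb hab c t y)
      rw [InnerProductSpace.toDual_apply_apply, real_inner_smul_left, ← wr_eq] at h4
      have e1 : (fun t => F t y) = fun t => ‖x - y‖⁻¹ * (ρ ∘ fun t => T c a b t y) t := by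
        funext s
        simp only [hF, indicator_of_mem (h2 s), Function.comp]
      have e2 : F' t y = ‖x - y‖⁻¹ * (gam (psi φ₀ z R ρ (T c a b t y)) *
          wr z R ρ c a b (T c a b t y)) := by
        simp only [hF', indicator_of_mem (h2 t), hw]
      rw [e2]
      show HasDerivAt (fun t => F t y) _ t
      rw [e1]
      exact h4.const_mul _
    · have h2 : ∀ t, T c a b t y ∉ B := fun t h3 => h ((T_mem_ball c a b t y).mp h3)
      have e1 : (fun t => F t y) = fun _ => 0 := by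
        funext s
        simp only [hF, indicator_of_notMem (h2 s), mul_zero]
      have e2 : F' t y = 0 := by simp only [hF', indicator_of_notMem (h2 t), mul_zero]
      rw [e2]
      show HasDerivAt (fun t => F t y) _ t
      rw [e1]
      exact hasDerivAt_const _ _
  have hR := (hasDerivAt_integral_of_dominated_loc_of_deriv_le (F := F) (F' := F') (x₀ := (0:ℝ))
    (s := univ) (bound := fun y => ‖x - y‖⁻¹ * B.indicator
      (fun y => C * (‖y - c‖⁻¹) ^ (3 / 2 : ℝ)) y) univ_mem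
    (Eventually.of_forall hFm) hFi hF'm
    (by
      filter_upwards [hbound _ (fun y hy hyc => (hbd y hy hyc).2)] with y hy t _ using hy t)
    (dom_integrable c x d C) hdiff).2
  have e1 : (fun t => ∫ y, F t y) = fun t => pot (B.indicator ρ) (T c a b t x) := by
    funext t
    rw [← pot_T]
    rfl
  rw [e1] at hR
  have h2 := hL.unique hR
  rw [inner_J] at h2
  rw [h2]
  unfold pot
  refine integral_congr_ae (Eventually.of_forall fun y => ?_)
  simp only [hF', T_zero ha hb hab c y]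
  rfl

end sol

end Pool.Agent.TF.Rot33
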