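import Mathlib
import Pool.Agent.Lib.MP_9cf0c9_mp.Tr.CtwoA
import Pool.Agent.Lib.MP_9cf0c9_mp.Tr.FarLip23
import Pool.Agent.Lib.MP_9cf0c9_mp.Tr.HolPot61
import Pool.Agent.Lib.MP_9cf0c9_mp.Tr.RotBoot23
/-! The rotation field of the solution about a nucleus has a Hölder continuous gradient. -/

set_option linter.unusedSectionVars false

set_option linter.unusedVariables false

set_option linter.style.haveILetI false

namespace Pool.Agent.TF.Grd
end Pool.Agent.TF.Grd

namespace Pool.Agent.TF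

open MeasureTheory Set Metric Filter Topology

open scoped ENNReal NNReal RealInnerProductSpace Gradient

namespace Rot23

section gen

variable {V : Type*} [NormedAddCommGroup V] [InnerProductSpace ℝ V] [FiniteDimensional ℝ V]
  [MeasurableSpace V] [BorelSpace V] [hd : Fact (Module.finrank ℝ V = 3)]

/-- the rotation field of `v` about `c` in the plane of `a`, `b` -/
noncomputable def rotf (c a b : V) (v : V → V) (x : V) : ℝ :=
  ⟪x - c, a⟫ * ⟪v x, b⟫ - ⟪x - c, b⟫ * ⟪v x, a⟫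

/-- its gradient -/
noncomputable def rotg (c a b : V) (v : V → V) (A : V → V →L[ℝ] V) (x : V) : V :=
  ⟪v x, b⟫ • a + ⟪x - c, a⟫ • (ContinuousLinearMap.adjoint (A x)) b -
    (⟪v x, a⟫ • b + ⟪x - c, b⟫ • (ContinuousLinearMap.adjoint (A x)) a)

theorem rotf_grad {c a b : V} {v : V → V} {A : V → V →L[ℝ] V} {x : V}
    (h : HasFDerivAt v (A x) x) : HasGradientAt (rotf c a b v) (rotg c a b v A x) x := by
  have h1 : ∀ u : V, HasFDerivAt (fun y : V => ⟪y - c, u⟫) (innerSL ℝ u) x := by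
    intro u
    have h2 := ((innerSL ℝ u).hasFDerivAt (x := x - c)).comp x ((hasFDerivAt_id x).sub_const c)
    refine (h2.congr_of_eventuallyEq (Eventually.of_forall fun y => ?_)).congr_fderiv ?_
    · simp [real_inner_comm]
    · ext e; simp
  have h2 : ∀ u : V, HasFDerivAt (fun y : V => ⟪v y, u⟫) ((innerSL ℝ u).comp (A x)) x := by
    intro u
    have h3 := ((innerSL ℝ u).hasFDerivAt (x := v x)).comp x h
    refine h3.congr_of_eventuallyEq (Eventually.of_forall fun y => ?_)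
    simp [real_inner_comm]
  rw [hasGradientAt_iff_hasFDerivAt]
  refine (((h1 a).mul (h2 b)).sub ((h1 b).mul (h2 a))).congr_fderiv ?_
  ext e
  have e1 : ∀ u, ⟪(ContinuousLinearMap.adjoint (A x)) u, e⟫ = ⟪u, A x e⟫ := fun u => by
    rw [ContinuousLinearMap.adjoint_inner_left]
  simp only [sub_apply, add_apply, smul_apply, innerSL_apply_apply,
    ContinuousLinearMap.comp_apply, smul_eq_mul, InnerProductSpace.toDual_apply_apply, rotg,
    inner_sub_left, inner_add_left, real_inner_smul_left, e1]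
  ring

theorem rotf_add (c a b : V) (v w : V → V) (x : V) :
    rotf c a b (fun x => v x + w x) x = rotf c a b v x + rotf c a b w x := by
  simp only [rotf, inner_add_left]; ring

theorem rotf_sub (c a b : V) (v w : V → V) (x : V) :
    rotf c a b (fun x => v x - w x) x = rotf c a b v x - rotf c a b w x := by
  simp only [rotf, inner_sub_left]; ring

theorem rotf_congr {c a b : V} {v w : V → V} {x : V} (h : v x = w x) :
    rotf c a b v x = rotf c a b w x := by
  simp only [rotf, h]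

/-- radial fields -/
theorem rotf_radial {c a b : V} {v : V → V} {x : V} {t : ℝ} (h : v x = t • (x - c)) :
    rotf c a b v x = 0 := by
  simp only [rotf, h, real_inner_smul_left]; ring

theorem rotf_abs {c a b : V} {v : V → V} {x : V} :
    |rotf c a b v x| ≤ 2 * (‖a‖ * ‖b‖) * (‖x - c‖ * ‖v x‖) := by
  unfold rotf
  have h1 := abs_real_inner_le_norm (x - c) a
  have h2 := abs_real_inner_le_norm (x - c) b
  have h3 := abs_real_inner_le_norm (v x) a
  have h4 := abs_real_inner_le_norm (v x) b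
  have e1 : |⟪x - c, a⟫ * ⟪v x, b⟫| ≤ (‖x - c‖ * ‖a‖) * (‖v x‖ * ‖b‖) := by
    rw [abs_mul]; exact mul_le_mul h1 h4 (abs_nonneg _) (by positivity)
  have e2 : |⟪x - c, b⟫ * ⟪v x, a⟫| ≤ (‖x - c‖ * ‖b‖) * (‖v x‖ * ‖a‖) := by
    rw [abs_mul]; exact mul_le_mul h2 h3 (abs_nonneg _) (by positivity)
  refine (abs_sub _ _).trans ((add_le_add e1 e2).trans (le_of_eq ?_))
  ring

/-- bounds of the gradient of the rotation field -/
theorem rotg_bounds {c : V} {δ K : ℝ} (hδ : 0 < δ) (hδ1 : δ ≤ 1) {v : V → V}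
    {A : V → V →L[ℝ] V} (h : C11 c δ K v A) (a b : V) :
    (∀ x ∈ ball c δ, ‖rotg c a b v A x‖ ≤ 6 * (‖a‖ * ‖b‖) * K) ∧
    ∀ x ∈ ball c δ, ∀ y ∈ ball c δ,
      ‖rotg c a b v A x - rotg c a b v A y‖ ≤ 6 * (‖a‖ * ‖b‖) * K * ‖x - y‖ := by
  have hK := h.nonneg hδ
  have hvlip : ∀ x ∈ ball c δ, ∀ y ∈ ball c δ, ‖v x - v y‖ ≤ K * ‖x - y‖ := fun x hx y hy =>
    (convex_ball c δ).norm_image_sub_le_of_norm_hasFDerivWithin_le (𝕜 := ℝ)
      (fun x hx => (h.deriv x hx).hasFDerivWithinAt) (fun x hx => h.bd1 x hx) hy hx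
  have hadj : ∀ T : V →L[ℝ] V, ∀ u, ‖(ContinuousLinearMap.adjoint T) u‖ ≤ ‖T‖ * ‖u‖ := by
    intro T u
    refine ((ContinuousLinearMap.adjoint T).le_opNorm u).trans (le_of_eq ?_)
    rw [LinearIsometryEquiv.norm_map]
  have hn : ∀ x ∈ ball c δ, ‖x - c‖ ≤ 1 := fun x hx => by
    rw [mem_ball, dist_eq_norm] at hx; linarith
  -- one pair of terms
  have p1 : ∀ s u : V, ∀ x ∈ ball c δ, ‖⟪v x, u⟫ • s + ⟪x - c, s⟫ •
      (ContinuousLinearMap.adjoint (A x)) u‖ ≤ 2 * (‖s‖ * ‖u‖) * K := by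
    intro s u x hx
    have h1 : ‖⟪v x, u⟫ • s‖ ≤ (K * ‖u‖) * ‖s‖ := by
      rw [norm_smul, Real.norm_eq_abs]
      refine mul_le_mul_of_nonneg_right ((abs_real_inner_le_norm _ _).trans ?_) (norm_nonneg _)
      exact mul_le_mul_of_nonneg_right (h.bd0 x hx) (norm_nonneg _)
    have h2 : ‖⟪x - c, s⟫ • (ContinuousLinearMap.adjoint (A x)) u‖ ≤ (1 * ‖s‖) * (K * ‖u‖) := by
      rw [norm_smul, Real.norm_eq_abs]
      refine mul_le_mul ((abs_real_inner_le_norm _ _).trans ?_) ((hadj _ _).trans ?_)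
        (norm_nonneg _) (by positivity)
      · exact mul_le_mul_of_nonneg_right (hn x hx) (norm_nonneg _)
      · exact mul_le_mul_of_nonneg_right (h.bd1 x hx) (norm_nonneg _)
    refine (norm_add_le _ _).trans ((add_le_add h1 h2).trans (le_of_eq ?_))
    ring
  have p2 : ∀ s u : V, ∀ x ∈ ball c δ, ∀ y ∈ ball c δ,
      ‖(⟪v x, u⟫ • s + ⟪x - c, s⟫ • (ContinuousLinearMap.adjoint (A x)) u) -
        (⟪v y, u⟫ • s + ⟪y - c, s⟫ • (ContinuousLinearMap.adjoint (A y)) u)‖ ≤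
      3 * (‖s‖ * ‖u‖) * K * ‖x - y‖ := by
    intro s u x hx y hy
    have e1 : (⟪v x, u⟫ • s + ⟪x - c, s⟫ • (ContinuousLinearMap.adjoint (A x)) u) -
        (⟪v y, u⟫ • s + ⟪y - c, s⟫ • (ContinuousLinearMap.adjoint (A y)) u) =
        ⟪v x - v y, u⟫ • s + ⟪x - y, s⟫ • (ContinuousLinearMap.adjoint (A x)) u +
          ⟪y - c, s⟫ • (ContinuousLinearMap.adjoint (A x - A y)) u := by
      have e2 : x - y = (x - c) - (y - c) := by abel
      rw [map_sub, sub_apply, inner_sub_left (v x) (v y), e2, inner_sub_left (x - c) (y - c)]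
      module
    rw [e1]
    have h1 : ‖⟪v x - v y, u⟫ • s‖ ≤ (K * ‖x - y‖ * ‖u‖) * ‖s‖ := by
      rw [norm_smul, Real.norm_eq_abs]
      refine mul_le_mul_of_nonneg_right ((abs_real_inner_le_norm _ _).trans ?_) (norm_nonneg _)
      exact mul_le_mul_of_nonneg_right (hvlip x hx y hy) (norm_nonneg _)
    have h2 : ‖⟪x - y, s⟫ • (ContinuousLinearMap.adjoint (A x)) u‖ ≤
        (‖x - y‖ * ‖s‖) * (K * ‖u‖) := by
      rw [norm_smul, Real.norm_eq_abs]
      refine mul_le_mul (abs_real_inner_le_norm _ _) ((hadj _ _).trans ?_)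
        (norm_nonneg _) (by positivity)
      exact mul_le_mul_of_nonneg_right (h.bd1 x hx) (norm_nonneg _)
    have h3 : ‖⟪y - c, s⟫ • (ContinuousLinearMap.adjoint (A x - A y)) u‖ ≤
        (1 * ‖s‖) * (K * ‖x - y‖ * ‖u‖) := by
      rw [norm_smul, Real.norm_eq_abs]
      refine mul_le_mul ((abs_real_inner_le_norm _ _).trans ?_) ((hadj _ _).trans ?_)
        (norm_nonneg _) (by positivity)
      · exact mul_le_mul_of_nonneg_right (hn y hy) (norm_nonneg _)
      · exact mul_le_mul_of_nonneg_right (h.lip x hx y hy) (norm_nonneg _)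
    refine (norm_add_le _ _).trans (((add_le_add ((norm_add_le _ _).trans (add_le_add h1 h2))
      h3)).trans (le_of_eq ?_))
    ring
  constructor
  · intro x hx
    unfold rotg
    have h1 := p1 a b x hx
    have h2 := p1 b a x hx
    have h3 : 0 ≤ ‖a‖ * ‖b‖ * K := by positivity
    refine (norm_sub_le _ _).trans ((add_le_add h1 h2).trans ?_)
    calc 2 * (‖a‖ * ‖b‖) * K + 2 * (‖b‖ * ‖a‖) * K = 4 * (‖a‖ * ‖b‖ * K) := by ring
      _ ≤ 6 * (‖a‖ * ‖b‖ * K) := by linarith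
      _ = _ := by ring
  · intro x hx y hy
    unfold rotg
    have h1 := p2 a b x hx y hy
    have h2 := p2 b a x hx y hy
    have e : ∀ p q p' q' : V, p - q - (p' - q') = (p - p') - (q - q') := fun p q p' q' => by abel
    rw [e]
    refine (norm_sub_le _ _).trans ((add_le_add h1 h2).trans (le_of_eq ?_))
    ring

end gen

open Pool.Agent.TF.Grd

section sol

variable {ι : Type*} [Fintype ι] {z : ι → ℝ} {R : ι → X} {φ₀ : ℝ} {ρ : X → ℝ}

/-- a separating radius -/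
theorem exists_rad (R : ι → X) (c : X) : ∃ d : ℝ, 0 < d ∧ d ≤ 1 ∧ ∀ j, R j ≠ c → 2 * d ≤ ‖R j - c‖ := by
  have h1 : (range R \ {c})ᶜ ∈ 𝓝 c := by
    refine ((finite_range R).subset sdiff_subset).isClosed.isOpen_compl.mem_nhds ?_
    simp
  obtain ⟨e, he, h2⟩ := Metric.mem_nhds_iff.mp h1
  refine ⟨min 1 (e / 2), by positivity, min_le_left _ _, fun j hj => ?_⟩
  have h3 : R j ∉ ball c e := fun h => (h2 h) ⟨mem_range_self j, hj⟩
  rw [mem_ball, dist_eq_norm, not_lt] at h3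
  have := min_le_right 1 (e / 2)
  linarith

theorem rotf_sum (c a b : X) (s : Finset ι) (z : ι → ℝ) (v : ι → X → X) (x : X) :
    rotf c a b (fun x => ∑ j ∈ s, z j • v j x) x = ∑ j ∈ s, z j * rotf c a b (v j) x := by
  simp only [rotf, sum_inner, real_inner_smul_left]
  rw [Finset.mul_sum, Finset.mul_sum, ← Finset.sum_sub_distrib]
  refine Finset.sum_congr rfl fun j _ => ?_
  ring

/-- the far nuclei -/
noncomputable def farV (z : ι → ℝ) (R : ι → X) (c x : X) : X := by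
  classical
  exact ∑ j ∈ Finset.univ.filter (fun j => R j ≠ c), z j • gradP (R j) x

noncomputable def farA (z : ι → ℝ) (R : ι → X) (c x : X) : X →L[ℝ] X := by
  classical
  exact ∑ j ∈ Finset.univ.filter (fun j => R j ≠ c), z j • d2 (R j) x

theorem rotf_gVpt (z : ι → ℝ) (R : ι → X) (c a b x : X) :
    rotf c a b (gVpt z R) x = rotf c a b (farV z R c) x := by
  classical
  have h1 : rotf c a b (gVpt z R) x = ∑ j, z j * rotf c a b (gradP (R j)) x :=
    rotf_sum c a b Finset.univ z (fun j => gradP (R j)) x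
  have h2 : rotf c a b (farV z R c) x =
      ∑ j ∈ Finset.univ.filter (fun j => R j ≠ c), z j * rotf c a b (gradP (R j)) x := by
    rw [← rotf_sum c a b _ z (fun j => gradP (R j)) x]
    unfold farV
    rfl
  rw [h1, h2]
  refine (Finset.sum_subset (Finset.filter_subset _ _) fun j _ hj => ?_).symm
  have hj' : R j = c := by
    by_contra h
    exact hj (Finset.mem_filter.mpr ⟨Finset.mem_univ j, h⟩)
  rw [rotf_radial (t := -(‖x - c‖ ^ 3)⁻¹), mul_zero]
  rw [hj']
  unfold gradP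
  rw [neg_smul]

theorem farV_norm (hz : ∀ i, 0 ≤ z i) {c : X} {d : ℝ} (hd : 0 < d)
    (hfar : ∀ j, R j ≠ c → 2 * d ≤ ‖R j - c‖) {x : X} (hx : x ∈ ball c d) :
    ‖farV z R c x‖ ≤ (∑ j, z j) * (d ^ 2)⁻¹ := by
  classical
  have h0 : ∀ j ∈ Finset.univ.filter (fun j => R j ≠ c), ‖z j • gradP (R j) x‖ ≤
      z j * (d ^ 2)⁻¹ := by
    intro j hj
    rw [norm_smul, Real.norm_of_nonneg (hz j), gradP_norm]
    refine mul_le_mul_of_nonneg_left (inv_anti₀ (by positivity)
      (pow_le_pow_left₀ hd.le ?_ 2)) (hz j)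
    have h1 := hfar j (Finset.mem_filter.mp hj).2
    rw [mem_ball, dist_eq_norm] at hx
    have e : R j - c = (x - c) - (x - R j) := by abel
    have h2 : ‖R j - c‖ ≤ ‖x - c‖ + ‖x - R j‖ := by rw [e]; exact norm_sub_le _ _
    linarith
  unfold farV
  refine (norm_sum_le _ _).trans ((Finset.sum_le_sum h0).trans ?_)
  rw [← Finset.sum_mul]
  refine mul_le_mul_of_nonneg_right ?_ (by positivity)
  exact Finset.sum_le_sum_of_subset_of_nonneg (Finset.filter_subset _ _) fun j _ _ => hz j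

theorem farV_c11 (z : ι → ℝ) {c : X} {d : ℝ} (hd : 0 < d)
    (hfar : ∀ j, R j ≠ c → 2 * d ≤ ‖R j - c‖) :
    ∃ K, C11 c (d / 4) K (farV z R c) (farA z R c) := by
  classical
  unfold farV farA
  refine C11.sum _ fun j hj => ?_
  obtain ⟨K, hK⟩ := c11_gradP hd (hfar j (Finset.mem_filter.mp hj).2)
  exact ⟨_, hK.smul (z j)⟩

theorem near_off {c : X} {d : ℝ} (hfar : ∀ j, R j ≠ c → 2 * d ≤ ‖R j - c‖) {x : X}
    (hx : x ∈ ball c d) (hxc : x ≠ c) (j : ι) : x ≠ R j := by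
  intro h
  rw [mem_ball, dist_eq_norm] at hx
  have h1 := hfar j (by rw [← h]; exact hxc)
  rw [← h] at h1
  have := norm_nonneg (x - c)
  linarith

theorem near_inv {c : X} {d : ℝ} (hd : 0 < d) (hd1 : d ≤ 1)
    (hfar : ∀ j, R j ≠ c → 2 * d ≤ ‖R j - c‖) {x : X} (hx : x ∈ ball c d) (hxc : x ≠ c) :
    1 ≤ ‖x - c‖⁻¹ ∧ ∀ j, ‖x - R j‖⁻¹ ≤ d⁻¹ * ‖x - c‖⁻¹ := by
  have hn : 0 < ‖x - c‖ := norm_pos_iff.mpr (sub_ne_zero.mpr hxc)
  have hx' := hx
  rw [mem_ball, dist_eq_norm] at hx'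
  have h1 : 1 ≤ ‖x - c‖⁻¹ := (one_le_inv₀ hn).mpr (by linarith)
  have h2 : 1 ≤ d⁻¹ := (one_le_inv₀ hd).mpr hd1
  refine ⟨h1, fun j => ?_⟩
  by_cases hj : R j = c
  · rw [hj]
    exact le_mul_of_one_le_left (by positivity) h2
  · have h3 := hfar j hj
    have e : R j - c = (x - c) - (x - R j) := by abel
    have h4 : ‖R j - c‖ ≤ ‖x - c‖ + ‖x - R j‖ := by rw [e]; exact norm_sub_le _ _
    have h5 : ‖x - R j‖⁻¹ ≤ d⁻¹ := inv_anti₀ hd (by linarith)
    exact h5.trans (le_mul_of_one_le_right (by positivity) h1)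

section main

variable (hz : ∀ i, 0 ≤ z i) (hφ : 0 < φ₀) (hρ : TC ρ)
    (heq : ∀ x, ρ x = tf (Vpt z R x - pot ρ x - φ₀))

include hz hφ hρ heq

theorem near_bounds {c : X} {d : ℝ} (hd : 0 < d) (hd1 : d ≤ 1)
    (hfar : ∀ j, R j ≠ c → 2 * d ≤ ‖R j - c‖) :
    ∃ K : ℝ, 0 ≤ K ∧ ∀ x ∈ ball c d, x ≠ c →
      gam (Grd.psi φ₀ z R ρ x) ≤ K * (‖x - c‖⁻¹) ^ (1 / 2 : ℝ) ∧
      ‖gradV ρ x‖ ≤ K * (‖x - c‖⁻¹) ^ (3 / 4 : ℝ) := by
  obtain ⟨-, ⟨D, hD, hD'⟩, -⟩ := sol_facts hz R hφ hρ heq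
  have hp0 : ∀ x, 0 ≤ pot ρ x := pot_nonneg hρ.nonneg
  set Z : ℝ := ∑ j, z j with hZ
  have hZ0 : 0 ≤ Z := Finset.sum_nonneg fun j _ => hz j
  set n : ℝ := (Fintype.card ι : ℝ) with hn
  have hn0 : 0 ≤ n := by positivity
  set q : ℝ := d⁻¹ with hq
  have hq0 : 0 < q := by positivity
  have hq1 : 1 ≤ q := (one_le_inv₀ hd).mpr hd1
  set K1 : ℝ := 3 / 2 * √(Z * q) with hK1
  set K2 : ℝ := D * (1 + n * q) with hK2
  have hK10 : 0 ≤ K1 := by positivity
  have hK20 : 0 ≤ K2 := by positivity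
  refine ⟨K1 + K2, by positivity, fun x hx hxc => ?_⟩
  obtain ⟨ht1, ht⟩ := near_inv (R := R) hd hd1 hfar hx hxc
  have hoff := near_off (R := R) hfar hx hxc
  set t : ℝ := ‖x - c‖⁻¹ with htdef
  have ht0 : 0 < t := by linarith
  constructor
  · have h1 : Grd.psi φ₀ z R ρ x ≤ Z * q * t := by
      have h2 : Vpt z R x ≤ Z * q * t := by
        unfold Vpt
        rw [hZ, Finset.sum_mul, Finset.sum_mul]
        refine Finset.sum_le_sum fun j _ => ?_
        have h3 := mul_le_mul_of_nonneg_left (ht j) (hz j)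
        calc z j * ‖x - R j‖⁻¹ ≤ z j * (q * t) := h3
          _ = _ := by ring
      unfold Grd.psi
      have := hp0 x
      linarith
    have h2 : gam (Grd.psi φ₀ z R ρ x) ≤ K1 * t ^ (1 / 2 : ℝ) := by
      unfold gam
      rw [hK1, ← Real.sqrt_eq_rpow, mul_assoc, ← Real.sqrt_mul (by positivity)]
      refine mul_le_mul_of_nonneg_left (Real.sqrt_le_sqrt (max_le h1 (by positivity))) (by norm_num)
    exact h2.trans (mul_le_mul_of_nonneg_right (by linarith) (by positivity))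
  · have h1 : ∑ i, (‖x - R i‖⁻¹) ^ (3 / 4 : ℝ) ≤ n * (q * t ^ (3 / 4 : ℝ)) := by
      have h2 : ∀ i ∈ (Finset.univ : Finset ι), (‖x - R i‖⁻¹) ^ (3 / 4 : ℝ) ≤
          q * t ^ (3 / 4 : ℝ) := by
        intro i _
        calc (‖x - R i‖⁻¹) ^ (3 / 4 : ℝ) ≤ (q * t) ^ (3 / 4 : ℝ) :=
              Real.rpow_le_rpow (by positivity) (ht i) (by norm_num)
          _ = q ^ (3 / 4 : ℝ) * t ^ (3 / 4 : ℝ) := Real.mul_rpow hq0.le ht0.le
          _ ≤ q ^ (1 : ℝ) * t ^ (3 / 4 : ℝ) := by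
              refine mul_le_mul_of_nonneg_right ?_ (by positivity)
              exact Real.rpow_le_rpow_of_exponent_le hq1 (by norm_num)
          _ = _ := by rw [Real.rpow_one]
      have h3 := Finset.sum_le_sum h2
      rw [Finset.sum_const, Finset.card_univ, nsmul_eq_mul] at h3
      exact h3
    have h4 : 1 ≤ t ^ (3 / 4 : ℝ) := Real.one_le_rpow ht1 (by norm_num)
    have h5 : ‖gradV ρ x‖ ≤ K2 * t ^ (3 / 4 : ℝ) := by
      refine (hD' x hoff).trans ?_
      rw [hK2, mul_assoc]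
      refine mul_le_mul_of_nonneg_left ?_ hD
      calc 1 + ∑ i, (‖x - R i‖⁻¹) ^ (3 / 4 : ℝ) ≤ t ^ (3 / 4 : ℝ) + n * (q * t ^ (3 / 4 : ℝ)) :=
            add_le_add h4 h1
        _ = _ := by ring
    exact h5.trans (mul_le_mul_of_nonneg_right (by linarith) (by positivity))

/-- bound of the rotation field -/
theorem rot_bound {c : X} {d : ℝ} (hd : 0 < d) (hd1 : d ≤ 1)
    (hfar : ∀ j, R j ≠ c → 2 * d ≤ ‖R j - c‖) (a b : X) :
    ∃ K : ℝ, 0 ≤ K ∧ ∀ x ∈ ball c d,
      |rotf c a b (psi' z R ρ) x| ≤ K * ‖x - c‖ ^ (1 / 4 : ℝ) := by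
  obtain ⟨K, hK, hK'⟩ := near_bounds hz hφ hρ heq hd hd1 hfar
  set Z : ℝ := ∑ j, z j with hZ
  have hZ0 : 0 ≤ Z := Finset.sum_nonneg fun j _ => hz j
  refine ⟨2 * (‖a‖ * ‖b‖) * (Z * (d ^ 2)⁻¹ + K), by positivity, fun x hx => ?_⟩
  by_cases hxc : x = c
  · rw [hxc]
    have h1 : rotf c a b (psi' z R ρ) c = 0 := by
      simp only [rotf, sub_self, inner_zero_left, zero_mul]
    rw [h1, abs_zero]
    positivity
  obtain ⟨ht1, -⟩ := near_inv (R := R) hd hd1 hfar hx hxc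
  have hn : 0 < ‖x - c‖ := norm_pos_iff.mpr (sub_ne_zero.mpr hxc)
  have e1 : rotf c a b (psi' z R ρ) x = rotf c a b (fun x => farV z R c x - gradV ρ x) x := by
    rw [rotf_sub, ← rotf_gVpt]
    unfold psi'
    rw [rotf_sub]
  rw [e1]
  refine rotf_abs.trans ?_
  have h1 := farV_norm hz hd hfar hx
  have h2 := (hK' x hx hxc).2
  rw [← hZ] at h1
  have h3 : 1 ≤ (‖x - c‖⁻¹) ^ (3 / 4 : ℝ) := Real.one_le_rpow ht1 (by norm_num)
  have h4 : ‖farV z R c x - gradV ρ x‖ ≤ (Z * (d ^ 2)⁻¹ + K) * (‖x - c‖⁻¹) ^ (3 / 4 : ℝ) := by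
    refine (norm_sub_le _ _).trans ?_
    rw [add_mul]
    refine add_le_add (h1.trans ?_) h2
    exact le_mul_of_one_le_right (by positivity) h3
  have h5 : ‖x - c‖ * (‖x - c‖⁻¹) ^ (3 / 4 : ℝ) = ‖x - c‖ ^ (1 / 4 : ℝ) := by
    rw [Real.inv_rpow hn.le, ← Real.rpow_neg hn.le]
    nth_rewrite 1 [← Real.rpow_one ‖x - c‖]
    rw [← Real.rpow_add hn]
    norm_num
  rw [mul_assoc (2 * (‖a‖ * ‖b‖))]
  refine mul_le_mul_of_nonneg_left ?_ (by positivity)
  calc ‖x - c‖ * ‖farV z R c x - gradV ρ x‖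
      ≤ ‖x - c‖ * ((Z * (d ^ 2)⁻¹ + K) * (‖x - c‖⁻¹) ^ (3 / 4 : ℝ)) :=
        mul_le_mul_of_nonneg_left h4 hn.le
    _ = (Z * (d ^ 2)⁻¹ + K) * (‖x - c‖ * (‖x - c‖⁻¹) ^ (3 / 4 : ℝ)) := by ring
    _ = _ := by rw [h5]

/-- **the rotation field at a nucleus**, from the rotation identity -/
theorem rot_nuc_of (c a b : X)
    (hrot : ∀ d : ℝ, 0 < d → (∀ j, R j ≠ c → 2 * d ≤ ‖R j - c‖) → ∀ x ∈ ball c d, x ≠ c →
      rotf c a b (gradV ((ball c d).indicator ρ)) x =
        pot ((ball c d).indicator fun y => gam (Grd.psi φ₀ z R ρ y) * rotf c a b (psi' z R ρ) y) x) :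
    ∃ δ : ℝ, 0 < δ ∧ ∃ C : ℝ, ∃ w' : X → X,
      (∀ x ∈ ball c δ, x ≠ c → HasGradientAt (rotf c a b (psi' z R ρ)) (w' x) x) ∧
      ∀ x ∈ ball c δ, ∀ y ∈ ball c δ, ‖w' x - w' y‖ ≤ C * ‖x - y‖ ^ (1 / 2 : ℝ) := by
  obtain ⟨d, hd, hd1, hfar⟩ := exists_rad R c
  obtain ⟨K1, hK1, hb1⟩ := near_bounds hz hφ hρ heq hd hd1 hfar
  obtain ⟨K2, hK2, hb2⟩ := rot_bound hz hφ hρ heq hd hd1 hfar a b
  set B : Set X := ball c d with hB
  have hBm : MeasurableSet B := measurableSet_ball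
  set h : X → ℝ := Bᶜ.indicator ρ with hh
  have hhm : Measurable h := hρ.meas.indicator hBm.compl
  have hhi : Integrable h := hρ.int.indicator hBm.compl
  have hh0 : ∀ y ∈ ball c (2 * (d / 2)), h y = 0 := by
    intro y hy
    rw [mul_div_cancel₀ d (by norm_num : (2 : ℝ) ≠ 0)] at hy
    exact indicator_of_notMem (fun h : y ∈ Bᶜ => h hy) _
  have hd2 : 0 < d / 2 := by positivity
  obtain ⟨L1, hL1⟩ := c11_gradV hhm hhi hd2 hh0
  obtain ⟨L2, hL2⟩ := farV_c11 (R := R) z hd2 (fun j hj => by have := hfar j hj; linarith)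
  have hL := hL2.add (hL1.smul (-1))
  set L : ℝ := L2 + |(-1 : ℝ)| * L1 with hLdef
  set v : X → X := fun x => farV z R c x + (-1 : ℝ) • gradV h x with hv
  set A : X → X →L[ℝ] X := fun x => farA z R c x + (-1 : ℝ) • hF h x with hA
  set δ : ℝ := d / 2 / 4 with hδ
  have hδ0 : 0 < δ := by positivity
  have hδd : δ ≤ d := by rw [hδ]; linarith
  obtain ⟨g1, g2⟩ := rotg_bounds hδ0 (hδd.trans hd1) hL a b
  have hL0 : 0 ≤ L := hL.nonneg hδ0
  have hGI : ∀ x ∈ ball c d, x ≠ c → GI ρ x := by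
    intro x hx hxc
    obtain ⟨e, he, M, hM⟩ := rho_locbdd hz R hφ hρ heq (near_off (R := R) hfar hx hxc)
    exact ((loc_grad hρ.meas hρ.int he hM).1 x (mem_ball_self (by positivity))).1
  have hind : ∀ (s : Set X) (x : X), (fun y => s.indicator ρ y • ((‖x - y‖ ^ 3)⁻¹ • (x - y))) =
      s.indicator (fun y => ρ y • ((‖x - y‖ ^ 3)⁻¹ • (x - y))) := by
    intro s x
    funext y
    by_cases hy : y ∈ s
    · rw [indicator_of_mem hy, indicator_of_mem hy]
    · rw [indicator_of_notMem hy, indicator_of_notMem hy, zero_smul]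
  have hGIs : ∀ s : Set X, MeasurableSet s → ∀ x, GI ρ x → GI (s.indicator ρ) x := by
    intro s hs x hx
    unfold GI
    rw [hind s x]
    exact Integrable.indicator hx hs
  have hsplit : ∀ x ∈ ball c d, x ≠ c → gradV ρ x = gradV (B.indicator ρ) x + gradV h x := by
    intro x hx hxc
    have hg := hGI x hx hxc
    rw [← gradV_add (hGIs B hBm x hg) (hGIs Bᶜ hBm.compl x hg)]
    congr 1
    funext y
    by_cases hy : y ∈ B
    · rw [indicator_of_mem hy, indicator_of_notMem (fun h : y ∈ Bᶜ => h hy), add_zero]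
    · rw [indicator_of_notMem hy, indicator_of_mem hy, zero_add]
  set w : X → ℝ := rotf c a b (psi' z R ρ) with hw
  set f : X → ℝ := B.indicator fun y => gam (Grd.psi φ₀ z R ρ y) * w y with hf
  have hwc : w c = 0 := by
    rw [hw]; simp only [rotf, sub_self, inner_zero_left, zero_mul]
  -- measurability
  have hfm : Measurable f := by
    classical
    have e1 : f = (B \ {c}).piecewise (fun y => gam (Grd.psi φ₀ z R ρ y) * w y) (fun _ => 0) := by
      funext y
      by_cases hy : y ∈ B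
      · by_cases hyc : y = c
        · rw [hf, indicator_of_mem hy, piecewise_eq_of_notMem _ _ _ (by rw [hyc]; simp), hyc, hwc,
            mul_zero]
        · rw [hf, indicator_of_mem hy, piecewise_eq_of_mem _ _ _ (show y ∈ B \ {c} from ⟨hy, hyc⟩)]
      · rw [hf, indicator_of_notMem hy, piecewise_eq_of_notMem _ _ _ (fun h : y ∈ B \ {c} => hy h.1)]
    rw [e1]
    refine ContinuousOn.measurable_piecewise ?_ continuousOn_const
      (hBm.diff (measurableSet_singleton c))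
    intro y hy
    have hoff := near_off (R := R) hfar hy.1 hy.2
    have k1 := (hasGradientAt_psi hz R hφ hρ heq hoff).hasFDerivAt.continuousAt
    have k2 := psi'_continuousAt hz R hφ hρ heq hoff
    refine ContinuousAt.continuousWithinAt ?_
    refine (gam_continuous'.continuousAt.comp k1).mul ?_
    rw [hw]
    unfold rotf
    have k3 : ContinuousAt (fun x : X => x - c) y := by fun_prop
    exact ((k3.inner continuousAt_const).mul (k2.inner continuousAt_const)).sub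
      ((k3.inner continuousAt_const).mul (k2.inner continuousAt_const))
  set K : ℝ := K1 + K2 + 6 * (‖a‖ * ‖b‖) * L with hK
  have hab : 0 ≤ 6 * (‖a‖ * ‖b‖) * L := by positivity
  have hK0 : 0 ≤ K := by positivity
  have key := boot (c := c) (d := d) (δ := δ) (w := w) (S := rotf c a b v) (f := f)
    (S' := rotg c a b v A) (K := K)
    (fun f hf => by
      obtain ⟨C, -, hC⟩ := gradV_holder hf
      exact ⟨C, hC⟩)
    hδ0 hδd hd1 hK0 hfm ?_ (fun y hy => indicator_of_notMem hy _) ?_ ?_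
    (fun x hx => rotf_grad (hL.deriv x hx))
    (fun x hx => (g1 x hx).trans (by rw [hK]; linarith))
    (fun x hx y hy => (g2 x hx y hy).trans
      (mul_le_mul_of_nonneg_right (by rw [hK]; linarith) (norm_nonneg _)))
  · obtain ⟨C, w', h1, h2⟩ := key
    exact ⟨δ, hδ0, C, w', h1, h2⟩
  · -- the identity
    intro x hx hxc
    have hxB : x ∈ ball c d := ball_subset_ball hδd hx
    have e1 : w x = rotf c a b (farV z R c) x - rotf c a b (gradV ρ) x := by
      rw [hw, ← rotf_gVpt]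
      unfold psi'
      rw [rotf_sub]
    have e2 : rotf c a b (gradV ρ) x =
        rotf c a b (gradV (B.indicator ρ)) x + rotf c a b (gradV h) x := by
      rw [← rotf_add]
      exact rotf_congr (hsplit x hxB hxc)
    have e3 : rotf c a b v x = rotf c a b (farV z R c) x - rotf c a b (gradV h) x := by
      rw [← rotf_sub]
      refine rotf_congr ?_
      simp only [hv]
      module
    rw [e1, e2, e3, hrot d hd hfar x hxB hxc]
    ring
  · -- bound of `f`
    intro y hy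
    rw [hf, indicator_of_mem hy, abs_mul, abs_of_nonneg (gam_nonneg' _)]
    by_cases hyc : y = c
    · rw [hyc, hwc, abs_zero, mul_zero, mul_zero]
    · refine mul_le_mul_of_nonneg_right (((hb1 y hy hyc).1).trans ?_) (abs_nonneg _)
      exact mul_le_mul_of_nonneg_right (by rw [hK]; linarith) (by positivity)
  · intro y hy
    refine (hb2 y hy).trans ?_
    exact mul_le_mul_of_nonneg_right (by rw [hK]; linarith) (by positivity)

end main

end sol

end Rot23

end Pool.Agent.TF
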