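import Mathlib
import Pool.Agent.Lib.MP_9cf0c9_mp.Tr.RotNuc33
import Pool.Agent.Lib.MP_9cf0c9_mp.Tr.RotNucB23
/-! The rotation field of the solution about a nucleus has a Hölder continuous gradient: final
form, without hypothesis. -/

set_option autoImplicit false

set_option linter.unusedSectionVars false

set_option linter.unusedVariables false

namespace Pool.Agent.TF.Grd
end Pool.Agent.TF.Grd

namespace Pool.Agent.TF.Rot23
end Pool.Agent.TF.Rot23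

namespace Pool.Agent.TF.Rot33

open MeasureTheory Set Metric Filter Topology

open scoped ENNReal NNReal RealInnerProductSpace Gradient

open Pool.Agent.TF.Grd Pool.Agent.TF.Rot23

variable {ι : Type*} [Fintype ι] {z : ι → ℝ} {R : ι → X} {φ₀ : ℝ} {ρ : X → ℝ}

/-- the rotation field about the nucleus `i` -/
theorem rot_nuc (hz : ∀ i, 0 ≤ z i) (hφ : 0 < φ₀) (hρ : TC ρ)
    (heq : ∀ x, ρ x = tf (Vpt z R x - pot ρ x - φ₀)) (i : ι) {a b : X} (ha : ‖a‖ = 1)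
    (hb : ‖b‖ = 1) (hab : ⟪a, b⟫ = 0) :
    ∃ δ : ℝ, 0 < δ ∧ ∃ C : ℝ, ∃ w' : X → X,
      (∀ x ∈ ball (R i) δ, x ≠ R i → HasGradientAt (fun x => ⟪x - R i, a⟫ * ⟪psi' z R ρ x, b⟫ -
        ⟪x - R i, b⟫ * ⟪psi' z R ρ x, a⟫) (w' x) x) ∧
      ∀ x ∈ ball (R i) δ, ∀ y ∈ ball (R i) δ, ‖w' x - w' y‖ ≤ C * ‖x - y‖ ^ (1 / 2 : ℝ) :=
  rot_nuc_of hz hφ hρ heq (R i) a b fun d hd hsep x hx hxi =>
    rot_identity hz R hφ hρ heq i hd hsep ha hb hab hx hxi

end Pool.Agent.TF.Rot33
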