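import Mathlib
import Pool.Agent.Lib.MP_9cf0c9_mp.Tr.CalibS
/-! Lower bound of the field, and integrability of the error terms of the gradient trial. -/

set_option linter.unusedSectionVars false

set_option linter.unusedVariables false

namespace Pool.Agent.TF.Grd

open MeasureTheory Set Metric Filter Topology

open scoped ENNReal NNReal RealInnerProductSpace Gradient

variable {ι : Type*} [Fintype ι]

variable {z : ι → ℝ} {R : ι → X} {φ₀ : ℝ} {ρ : X → ℝ} {ε q : ℝ}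

/-- near a nucleus the field is at least a multiple of the square of the potential -/
theorem lower_nuc (hz : ∀ i, z i = q) (hq : 0 < q) (hR : Function.Injective R) (hφ : 0 < φ₀)
    (hρ : TC ρ) (heq : ∀ x, ρ x = tf (Vpt z R x - pot ρ x - φ₀)) (i : ι) :
    ∃ K η : ℝ, 0 ≤ K ∧ 0 < η ∧ η ≤ 1 ∧ ∀ x, x ≠ R i → ‖x - R i‖ < η →
      (Vpt z R x + 1) ^ 2 ≤ K * ‖psi' z R ρ x‖ ∧
      q / 2 * (‖x - R i‖ ^ 2)⁻¹ ≤ ‖psi' z R ρ x‖ := by
  have hz0 : ∀ i, 0 ≤ z i := fun i => (hz i).symm ▸ hq.le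
  obtain ⟨C, η0, hC, hη0, hη01, hG⟩ := psi_grad_nuc hz0 hR hφ hρ heq i
  have h1 := calib_nuc (z := z) (R := R) hR (k := fun _ => (0 : ℝ)) continuous_const i
  have h2 := (Metric.tendsto_nhds.mp h1) 1 one_pos
  obtain ⟨η1, hη1, h3⟩ := Metric.eventually_nhds_iff.mp h2
  set M : ℝ := |Vpt z R (R i)| + 2 with hM
  have hM0 : 0 < M := by positivity
  set η : ℝ := min (min η0 η1) (q / (2 * (C + 1))) with hη
  have hη' : 0 < η := lt_min (lt_min hη0 hη1) (by positivity)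
  refine ⟨(q + M) ^ 2 * (2 / q), η, by positivity, hη', ?_, fun x hx hxη => ?_⟩
  · exact ((min_le_left _ _).trans (min_le_left _ _)).trans hη01
  have hr0 : 0 < ‖x - R i‖ := norm_pos_iff.mpr (sub_ne_zero.mpr hx)
  have k0 : ‖x - R i‖ < η0 := hxη.trans_le ((min_le_left _ _).trans (min_le_left _ _))
  have k1 : ‖x - R i‖ < η1 := hxη.trans_le ((min_le_left _ _).trans (min_le_right _ _))
  have k2 : ‖x - R i‖ < q / (2 * (C + 1)) := hxη.trans_le (min_le_right _ _)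
  have k3 : ‖x - R i‖ ≤ 1 := (k0.le).trans hη01
  set r : ℝ := ‖x - R i‖ with hr
  have g1 := hG x hr0 k0
  have g2 : |Vpt z R x + 0 - z i * r⁻¹ - (Vpt z R (R i) + 0)| < 1 := by
    have := h3 (show dist x (R i) < η1 by rw [dist_eq_norm]; exact k1)
    rw [Real.dist_eq] at this
    exact this
  rw [hz i] at g1 g2
  -- lower bound of the field
  have g3 : (r⁻¹) ^ (3 / 4 : ℝ) ≤ r⁻¹ := by
    have h5 : (1 : ℝ) ≤ r⁻¹ := (one_le_inv₀ hr0).mpr k3
    calc (r⁻¹) ^ (3 / 4 : ℝ) ≤ (r⁻¹) ^ (1 : ℝ) := Real.rpow_le_rpow_of_exponent_le h5 (by norm_num)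
      _ = r⁻¹ := Real.rpow_one _
  have g4 : C * (r⁻¹) ^ (3 / 4 : ℝ) ≤ q / 2 * (r ^ 2)⁻¹ := by
    have h5 : C * r ≤ q / 2 := by
      rw [lt_div_iff₀ (by positivity)] at k2
      nlinarith
    have h6 : C * r⁻¹ ≤ q / 2 * (r ^ 2)⁻¹ := by
      have e : C * r⁻¹ = C * r * (r ^ 2)⁻¹ := by field_simp
      rw [e]
      exact mul_le_mul_of_nonneg_right h5 (by positivity)
    exact (mul_le_mul_of_nonneg_left g3 hC).trans h6
  have hu : ‖r⁻¹ • (x - R i)‖ = 1 := by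
    rw [norm_smul, norm_inv, Real.norm_of_nonneg hr0.le, inv_mul_cancel₀ hr0.ne']
  have g5 : |⟪psi' z R ρ x, r⁻¹ • (x - R i)⟫| ≤ ‖psi' z R ρ x‖ := by
    have := abs_real_inner_le_norm (psi' z R ρ x) (r⁻¹ • (x - R i))
    rwa [hu, mul_one] at this
  have g6 : q / 2 * (r ^ 2)⁻¹ ≤ ‖psi' z R ρ x‖ := by
    have h5 := (abs_le.mp g1).2
    have h6 := neg_abs_le ⟪psi' z R ρ x, r⁻¹ • (x - R i)⟫
    have e : ⟪gVpt z R x - gradV ρ x, r⁻¹ • (x - R i)⟫ = ⟪psi' z R ρ x, r⁻¹ • (x - R i)⟫ := rfl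
    rw [e] at h5
    linarith
  refine ⟨?_, g6⟩
  have g7 : Vpt z R x + 1 ≤ (q + M) * r⁻¹ := by
    have h5 := (abs_lt.mp g2).2
    have h6 := le_abs_self (Vpt z R (R i))
    have h7 : M ≤ M * r⁻¹ := le_mul_of_one_le_right hM0.le ((one_le_inv₀ hr0).mpr k3)
    rw [add_mul]
    linarith
  have g8 : (Vpt z R x + 1) ^ 2 ≤ ((q + M) * r⁻¹) ^ 2 :=
    pow_le_pow_left₀ (by have := Vpt_nonneg hz0 R x; linarith) g7 2
  refine g8.trans ?_
  have e : ((q + M) * r⁻¹) ^ 2 = (q + M) ^ 2 * (2 / q) * (q / 2 * (r ^ 2)⁻¹) := by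
    field_simp
  rw [e]
  exact mul_le_mul_of_nonneg_left g6 (by positivity)

/-- the regularised field is at least a multiple of the square of the potential -/
theorem lower_G (hz : ∀ i, z i = q) (hq : 0 < q) (hR : Function.Injective R) (hφ : 0 < φ₀)
    (hρ : TC ρ) (heq : ∀ x, ρ x = tf (Vpt z R x - pot ρ x - φ₀)) (hε : 0 < ε) :
    ∃ K : ℝ, 0 < K ∧ ∀ x, (∀ i, x ≠ R i) → (Vpt z R x + 1) ^ 2 ≤ K * Gm ε (psi' z R ρ x) := by
  have hz0 : ∀ i, 0 ≤ z i := fun i => (hz i).symm ▸ hq.le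
  choose K η hK hη hη1 h using fun i => lower_nuc hz hq hR hφ hρ heq i
  set M : ℝ := ∑ i, q * (η i)⁻¹ with hM
  have hM0 : 0 ≤ M := Finset.sum_nonneg fun i _ => by have := hη i; positivity
  set K' : ℝ := (∑ i, K i) + (M + 1) ^ 2 / ε with hK'
  have hs : 0 ≤ ∑ i, K i := Finset.sum_nonneg fun i _ => hK i
  have hK0 : 0 < K' := by positivity
  refine ⟨K', hK0, fun x hx => ?_⟩
  by_cases hc : ∃ i, ‖x - R i‖ < η i
  · obtain ⟨i, hi⟩ := hc
    have h1 := (h i x (hx i) hi).1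
    have h2 := le_Gm ε (psi' z R ρ x)
    have h3 : K i ≤ K' := by
      have h4 : K i ≤ ∑ i, K i := Finset.single_le_sum (fun i _ => hK i) (Finset.mem_univ i)
      have h5 : 0 ≤ (M + 1) ^ 2 / ε := by positivity
      linarith
    exact h1.trans (mul_le_mul h3 h2 (norm_nonneg _) hK0.le)
  · push Not at hc
    have h1 : Vpt z R x ≤ M := by
      unfold Vpt
      refine Finset.sum_le_sum fun i _ => ?_
      rw [hz i]
      exact mul_le_mul_of_nonneg_left (inv_anti₀ (hη i) (hc i)) hq.le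
    have h2 : (Vpt z R x + 1) ^ 2 ≤ (M + 1) ^ 2 :=
      pow_le_pow_left₀ (by have := Vpt_nonneg hz0 R x; linarith) (by linarith) 2
    have h3 : (M + 1) ^ 2 / ε * ε ≤ K' * Gm ε (psi' z R ρ x) := by
      refine mul_le_mul ?_ (eps_le_Gm hε.le _) hε.le hK0.le
      linarith
    rw [div_mul_cancel₀ _ hε.ne'] at h3
    exact h2.trans h3

theorem tf_sq_le {p : ℝ} {a : ℝ} (ha : 0 ≤ a) (h : p ≤ a) : tf p ^ 2 ≤ a ^ 3 := by
  have h1 : tf p ≤ tf a := tf_mono h
  have h2 : tf a ^ 2 = a ^ 3 := by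
    unfold tf
    rw [max_eq_left ha, mul_pow, Real.sq_sqrt ha]
    ring
  rw [← h2]
  exact pow_le_pow_left₀ (tf_nonneg p) h1 2

/-- the bound of `√(q / G) ψ` -/
theorem exists_A (hz : ∀ i, z i = q) (hq : 0 < q) (hR : Function.Injective R) (hφ : 0 < φ₀)
    (hρ : TC ρ) (heq : ∀ x, ρ x = tf (Vpt z R x - pot ρ x - φ₀)) (hε : 0 < ε) :
    ∃ A : ℝ, q ≤ A ∧ ∀ x, (∀ i, x ≠ R i) →
      √(q / Gm ε (psi' z R ρ x)) * psi φ₀ z R ρ x ≤ A := by
  have hz0 : ∀ i, 0 ≤ z i := fun i => (hz i).symm ▸ hq.le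
  obtain ⟨K, hK, h⟩ := lower_G hz hq hR hφ hρ heq hε
  refine ⟨max q √(q * K), le_max_left _ _, fun x hx => ?_⟩
  refine le_trans ?_ (le_max_right _ _)
  have hG := Gm_pos hε (psi' z R ρ x)
  have hV := Vpt_nonneg hz0 R x
  have hp : psi φ₀ z R ρ x ≤ Vpt z R x + 1 := by
    have := pot_nonneg hρ.nonneg x
    unfold psi
    linarith
  have h1 : √(q / Gm ε (psi' z R ρ x)) * psi φ₀ z R ρ x ≤
      √(q / Gm ε (psi' z R ρ x)) * (Vpt z R x + 1) :=
    mul_le_mul_of_nonneg_left hp (Real.sqrt_nonneg _)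
  refine h1.trans ?_
  apply Real.le_sqrt_of_sq_le
  rw [mul_pow, Real.sq_sqrt (by positivity), div_mul_eq_mul_div, div_le_iff₀ hG, mul_assoc]
  exact mul_le_mul_of_nonneg_left (h x hx) hq.le

/-- integrability of the error of the start radius -/
theorem err_int (hz : ∀ i, z i = q) (hq : 0 < q) (hR : Function.Injective R) (hφ : 0 < φ₀)
    (hρ : TC ρ) (heq : ∀ x, ρ x = tf (Vpt z R x - pot ρ x - φ₀)) (hε : 0 < ε) :
    Integrable (fun x => √(q / Gm ε (psi' z R ρ x)) * ρ x ^ 2) := by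
  have hz0 : ∀ i, 0 ≤ z i := fun i => (hz i).symm ▸ hq.le
  obtain ⟨K, hK, h⟩ := lower_G hz hq hR hφ hρ heq hε
  obtain ⟨r, hr0, hr⟩ := sol_supp hz0 R hφ hρ heq
  have hd := (dom52 hz0 R (B := 1) zero_le_one r).const_mul √(q * K)
  have hm : AEStronglyMeasurable (fun x => √(q / Gm ε (psi' z R ρ x)) * ρ x ^ 2) volume := by
    have h1 : AEStronglyMeasurable (psi' z R ρ) volume := by
      obtain ⟨hT, -, -⟩ := sol_facts hz0 R hφ hρ heq
      exact (gVpt_meas z R).aestronglyMeasurable.sub hT.meas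
    have h2 : AEStronglyMeasurable (fun x => Gm ε (psi' z R ρ x)) volume :=
      (Gm_continuous ε).comp_aestronglyMeasurable h1
    have h3 : AEStronglyMeasurable (fun x => √(q / Gm ε (psi' z R ρ x))) volume :=
      ((aemeasurable_const.div h2.aemeasurable).sqrt).aestronglyMeasurable
    exact h3.mul (hρ.meas.aestronglyMeasurable.pow 2)
  refine hd.mono' hm ?_
  filter_upwards [off_ae R] with x hx
  rw [Real.norm_of_nonneg (by positivity)]
  by_cases hxr : r ≤ ‖x‖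
  · rw [hr x hxr]
    simp only [ne_eq, OfNat.ofNat_ne_zero, not_false_eq_true, zero_pow, mul_zero]
    refine mul_nonneg (Real.sqrt_nonneg _) (indicator_nonneg (fun y _ => ?_) x)
    have := Vpt_nonneg hz0 R y
    positivity
  · push Not at hxr
    rw [indicator_of_mem (by rwa [mem_ball_zero_iff])]
    have hV := Vpt_nonneg hz0 R x
    have hG := Gm_pos hε (psi' z R ρ x)
    set a : ℝ := Vpt z R x + 1 with ha
    have ha1 : 1 ≤ a := by linarith
    have ha0 : 0 < a := by linarith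
    have h1 : ρ x ^ 2 ≤ a ^ 3 := by
      rw [heq x]
      refine tf_sq_le ha0.le ?_
      have := pot_nonneg hρ.nonneg x
      linarith
    have h2 : √(q / Gm ε (psi' z R ρ x)) ≤ √(q * K) * a⁻¹ := by
      apply Real.sqrt_le_iff.mpr
      refine ⟨by positivity, ?_⟩
      rw [mul_pow, Real.sq_sqrt (by positivity), div_le_iff₀ hG, mul_assoc, mul_assoc]
      refine le_mul_of_one_le_right hq.le ?_
      have h3 := h x hx
      have e : K * (a⁻¹ ^ 2 * Gm ε (psi' z R ρ x)) = (K * Gm ε (psi' z R ρ x)) / a ^ 2 := by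
        field_simp
      rw [e, one_le_div (by positivity)]
      exact h3
    have h3 : 1 ≤ √a := Real.one_le_sqrt.mpr ha1
    calc √(q / Gm ε (psi' z R ρ x)) * ρ x ^ 2 ≤ √(q * K) * a⁻¹ * a ^ 3 :=
          mul_le_mul h2 h1 (sq_nonneg _) (by positivity)
      _ = √(q * K) * (a ^ 2) := by field_simp
      _ ≤ √(q * K) * (a ^ 2 * √a) := by
          refine mul_le_mul_of_nonneg_left ?_ (Real.sqrt_nonneg _)
          exact le_mul_of_one_le_right (by positivity) h3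

end Pool.Agent.TF.Grd
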