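import Mathlib
import Pool.Agent.Lib.MP_9cf0c9_mp.Tr.CtwoA
import Pool.Agent.Lib.MP_9cf0c9_mp.Tr.GradCalib
import Pool.Agent.Lib.MP_9cf0c9_mp.Tr.TrialNucLoc

section
/-! The gradient trial near the nuclei. -/

set_option linter.unusedSectionVars false

set_option linter.unusedVariables false

set_option linter.style.haveILetI false

namespace Pool.Agent.TF.Grd

open MeasureTheory Set Metric Filter Topology

open scoped ENNReal NNReal RealInnerProductSpace Gradient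

variable {ι : Type*} [Fintype ι]

variable {z : ι → ℝ} {R : ι → X} {φ₀ : ℝ} {ρ : X → ℝ} {H : X → X →L[ℝ] X}

variable {ε q c G₁ : ℝ} {s s₁ s₂ e : ℝ → ℝ → ℝ}

/-- the nuclei are separated -/
theorem exists_sep (hR : Function.Injective R) (i : ι) :
    ∃ d : ℝ, 0 < d ∧ d ≤ 1 ∧ ∀ x, ‖x - R i‖ < d → ∀ j, j ≠ i → d ≤ ‖x - R j‖ := by
  classical
  obtain ⟨d, hd0, hd1, hd⟩ : ∃ d : ℝ, 0 < d ∧ d ≤ 1 ∧ ∀ j, j ≠ i → 2 * d ≤ ‖R i - R j‖ := by
    have hfin : ∀ s : Finset ι, ∃ d : ℝ, 0 < d ∧ d ≤ 1 ∧ ∀ j ∈ s, j ≠ i → 2 * d ≤ ‖R i - R j‖ := by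
      intro s
      induction s using Finset.induction_on with
      | empty => exact ⟨1, one_pos, le_rfl, fun j hj => absurd hj (Finset.notMem_empty j)⟩
      | insert a s ha ih =>
        obtain ⟨d, h0, h1, h2⟩ := ih
        by_cases hai : a = i
        · refine ⟨d, h0, h1, fun j hj hji => ?_⟩
          rcases Finset.mem_insert.mp hj with rfl | hj
          · exact absurd hai hji
          · exact h2 j hj hji
        · have hn : 0 < ‖R i - R a‖ := norm_pos_iff.mpr (sub_ne_zero.mpr (hR.ne (Ne.symm hai)))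
          refine ⟨min d (‖R i - R a‖ / 2), lt_min h0 (by positivity),
            (min_le_left _ _).trans h1, fun j hj hji => ?_⟩
          rcases Finset.mem_insert.mp hj with rfl | hj
          · have := min_le_right d (‖R i - R j‖ / 2)
            linarith
          · have := h2 j hj hji
            have := min_le_left d (‖R i - R a‖ / 2)
            linarith
    obtain ⟨d, h0, h1, h2⟩ := hfin Finset.univ
    exact ⟨d, h0, h1, fun j hj => h2 j (Finset.mem_univ j) hj⟩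
  refine ⟨d, hd0, hd1, fun x hx j hj => ?_⟩
  have h1 := hd j hj
  have h2 : ‖R i - R j‖ ≤ ‖x - R j‖ + ‖x - R i‖ := by
    have := norm_sub_le (x - R j) (x - R i)
    rw [show x - R j - (x - R i) = R i - R j by abel] at this
    exact this
  linarith

theorem hP_shift (c x : X) : hP 0 (x - c) = hP c x := by
  ext a
  rw [hP_apply, hP_apply, sub_zero]

theorem quarter_pow {r : ℝ} (hr : 0 < r) :
    (r ^ (1 / 4 : ℝ)) ^ 4 = r ∧ ((r ^ (1 / 4 : ℝ)) ^ 3)⁻¹ = (r⁻¹) ^ (3 / 4 : ℝ) ∧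
      ((r ^ (1 / 4 : ℝ)) ^ 7)⁻¹ = (r⁻¹) ^ (7 / 4 : ℝ) := by
  refine ⟨?_, ?_, ?_⟩
  · rw [← Real.rpow_natCast, ← Real.rpow_mul hr.le]
    norm_num
  · rw [← Real.rpow_natCast, ← Real.rpow_mul hr.le, Real.inv_rpow hr.le]
    norm_num
  · rw [← Real.rpow_natCast, ← Real.rpow_mul hr.le, Real.inv_rpow hr.le]
    norm_num

/-- sum over the nuclei of a power of the inverse distances near the nucleus `i` -/
theorem sum_rpow_near {i : ι} {d : ℝ} (hd : 0 < d) {x : X} (hx : ∀ j, j ≠ i → d ≤ ‖x - R j‖)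
    {a : ℝ} (ha : 0 ≤ a) : ∑ j, (‖x - R j‖⁻¹) ^ a ≤
      (‖x - R i‖⁻¹) ^ a + (Fintype.card ι : ℕ) * (d⁻¹) ^ a := by
  classical
  rw [← Finset.add_sum_erase _ _ (Finset.mem_univ i)]
  refine add_le_add le_rfl ?_
  have h6 : ∀ j ∈ Finset.univ.erase i, (‖x - R j‖⁻¹) ^ a ≤ (d⁻¹) ^ a := by
    intro j hj
    refine Real.rpow_le_rpow (by positivity) ?_ ha
    exact inv_anti₀ hd (hx j (Finset.ne_of_mem_erase hj))
  refine (Finset.sum_le_sum h6).trans ?_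
  rw [Finset.sum_const, nsmul_eq_mul]
  refine mul_le_mul_of_nonneg_right ?_ (by positivity)
  exact_mod_cast (Finset.card_erase_le).trans (by rw [Finset.card_univ])

/-- **data near a nucleus** -/
theorem near_data (hz : ∀ i, z i = q) (hq : 0 < q) (hR : Function.Injective R) (hφ : 0 < φ₀)
    (hρ : TC ρ) (heq : ∀ x, ρ x = tf (Vpt z R x - pot ρ x - φ₀)) (h : HessSol z R ρ H) (i : ι) :
    ∃ B η : ℝ, 0 ≤ B ∧ 0 < η ∧ η ≤ 1 ∧ ∀ x, 0 < ‖x - R i‖ → ‖x - R i‖ < η →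
      (∀ j, x ≠ R j) ∧
      NearD q B (‖x - R i‖ ^ (1 / 4 : ℝ)) (x - R i) (psi' z R ρ x) (H x) ∧
      ‖gVpt z R x + (q * (‖x - R i‖ ^ 3)⁻¹) • (x - R i)‖ ≤ B := by
  classical
  have hz0 : ∀ i, 0 ≤ z i := fun i => (hz i).symm ▸ hq.le
  obtain ⟨-, ⟨D, hD0, hD⟩, -⟩ := sol_facts hz0 R hφ hρ heq
  obtain ⟨C, hC0, hC⟩ := h.near
  obtain ⟨d, hd0, hd1, hd⟩ := exists_sep hR i
  set n : ℝ := ((Fintype.card ι : ℕ) : ℝ) with hn
  have hn0 : 0 ≤ n := Nat.cast_nonneg _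
  set b3 : ℝ := (d⁻¹) ^ (3 / 4 : ℝ) with hb3
  set b7 : ℝ := (d⁻¹) ^ (7 / 4 : ℝ) with hb7
  have hb30 : 0 ≤ b3 := by positivity
  have hb70 : 0 ≤ b7 := by positivity
  set K1 : ℝ := n * (q * (d ^ 2)⁻¹) with hK1
  set K2 : ℝ := n * (q * (4 * (d ^ 3)⁻¹)) with hK2
  have hK10 : 0 ≤ K1 := by positivity
  have hK20 : 0 ≤ K2 := by positivity
  refine ⟨K1 + D * (2 + n * b3) + (C * (2 + n * b7) + K2), d, by positivity, hd0, hd1,
    fun x hx0 hxd => ?_⟩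
  set r : ℝ := ‖x - R i‖ with hr
  have hoff := hd x hxd
  have hr1 : r ≤ 1 := hxd.le.trans hd1
  have hne : ∀ j, x ≠ R j := by
    intro j hj
    by_cases hji : j = i
    · rw [hr, hj, hji, sub_self, norm_zero] at hx0
      exact lt_irrefl _ hx0
    · have := hoff j hji
      rw [hj, sub_self, norm_zero] at this
      linarith
  obtain ⟨q4, q3, q7⟩ := quarter_pow hx0
  have hone : ∀ a : ℝ, 0 ≤ a → 1 ≤ (r⁻¹) ^ a := fun a ha =>
    Real.one_le_rpow ((one_le_inv₀ hx0).mpr hr1) ha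
  -- the potential part
  have h1 : gVpt z R x + (q * (r ^ 3)⁻¹) • (x - R i) =
      ∑ j ∈ Finset.univ.erase i, z j • gradP (R j) x := by
    have e1 : gVpt z R x = z i • gradP (R i) x +
        ∑ j ∈ Finset.univ.erase i, z j • gradP (R j) x := by
      unfold gVpt
      rw [← Finset.add_sum_erase _ _ (Finset.mem_univ i)]
    have e2 : z i • gradP (R i) x = -((q * (r ^ 3)⁻¹) • (x - R i)) := by
      rw [hz i]
      unfold gradP
      rw [smul_neg, smul_smul]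
    rw [e1, e2]
    abel
  have h2 : ‖∑ j ∈ Finset.univ.erase i, z j • gradP (R j) x‖ ≤ K1 := by
    refine (norm_sum_le _ _).trans ?_
    have h3 : ∀ j ∈ Finset.univ.erase i, ‖z j • gradP (R j) x‖ ≤ q * (d ^ 2)⁻¹ := by
      intro j hj
      rw [norm_smul, hz j, Real.norm_of_nonneg hq.le, gradP_norm]
      refine mul_le_mul_of_nonneg_left ?_ hq.le
      exact inv_anti₀ (by positivity)
        (pow_le_pow_left₀ hd0.le (hoff j (Finset.ne_of_mem_erase hj)) 2)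
    refine (Finset.sum_le_sum h3).trans ?_
    rw [Finset.sum_const, nsmul_eq_mul]
    refine mul_le_mul_of_nonneg_right ?_ (by positivity)
    rw [hn]
    exact_mod_cast (Finset.card_erase_le).trans (by rw [Finset.card_univ])
  have h4 : ‖gradV ρ x‖ ≤ D * ((2 + n * b3) * (r⁻¹) ^ (3 / 4 : ℝ)) := by
    refine (hD x hne).trans (mul_le_mul_of_nonneg_left ?_ hD0)
    have h5 := sum_rpow_near (R := R) hd0 hoff (a := 3 / 4) (by norm_num)
    have h6 := hone (3 / 4) (by norm_num)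
    have h7 : n * b3 ≤ n * b3 * (r⁻¹) ^ (3 / 4 : ℝ) := le_mul_of_one_le_right (by positivity) h6
    rw [add_mul]
    rw [← hn, ← hb3] at h5
    linarith
  -- the Hessian part
  have h8 : H x - q • hP 0 (x - R i) = (H x - hVpt z R x) +
      ∑ j ∈ Finset.univ.erase i, z j • hP (R j) x := by
    have e1 : hVpt z R x = z i • hP (R i) x + ∑ j ∈ Finset.univ.erase i, z j • hP (R j) x := by
      unfold hVpt
      rw [← Finset.add_sum_erase _ _ (Finset.mem_univ i)]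
    rw [hP_shift, e1, hz i]
    abel
  have h9 : ‖∑ j ∈ Finset.univ.erase i, z j • hP (R j) x‖ ≤ K2 := by
    refine (norm_sum_le _ _).trans ?_
    have h3 : ∀ j ∈ Finset.univ.erase i, ‖z j • hP (R j) x‖ ≤ q * (4 * (d ^ 3)⁻¹) := by
      intro j hj
      rw [norm_smul, hz j, Real.norm_of_nonneg hq.le]
      refine mul_le_mul_of_nonneg_left ((hP_norm _ _).trans ?_) hq.le
      refine mul_le_mul_of_nonneg_left ?_ (by norm_num)
      exact inv_anti₀ (by positivity)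
        (pow_le_pow_left₀ hd0.le (hoff j (Finset.ne_of_mem_erase hj)) 3)
    refine (Finset.sum_le_sum h3).trans ?_
    rw [Finset.sum_const, nsmul_eq_mul]
    refine mul_le_mul_of_nonneg_right ?_ (by positivity)
    rw [hn]
    exact_mod_cast (Finset.card_erase_le).trans (by rw [Finset.card_univ])
  have h10 : ‖H x - hVpt z R x‖ ≤ C * ((2 + n * b7) * (r⁻¹) ^ (7 / 4 : ℝ)) := by
    refine (hC x hne).trans (mul_le_mul_of_nonneg_left ?_ hC0)
    have h5 := sum_rpow_near (R := R) hd0 hoff (a := 7 / 4) (by norm_num)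
    have h6 := hone (7 / 4) (by norm_num)
    have h7 : n * b7 ≤ n * b7 * (r⁻¹) ^ (7 / 4 : ℝ) := le_mul_of_one_le_right (by positivity) h6
    rw [add_mul]
    rw [← hn, ← hb7] at h5
    linarith
  have hP1 : 0 ≤ D * (2 + n * b3) := by positivity
  have hP2 : 0 ≤ C * (2 + n * b7) := by positivity
  refine ⟨hne, ⟨by positivity, Real.rpow_le_one hx0.le hr1 (by norm_num), q4.symm, ?_, ?_⟩, ?_⟩
  · rw [q3, ← hr]
    have e1 : psi' z R ρ x + (q * (r ^ 3)⁻¹) • (x - R i) =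
        (gVpt z R x + (q * (r ^ 3)⁻¹) • (x - R i)) - gradV ρ x := by
      unfold psi'
      abel
    rw [e1, h1]
    refine (norm_sub_le _ _).trans ((add_le_add h2 h4).trans ?_)
    have h6 := hone (3 / 4) (by norm_num)
    have h7 : K1 ≤ K1 * (r⁻¹) ^ (3 / 4 : ℝ) := le_mul_of_one_le_right hK10 h6
    have h11 : 0 ≤ (C * (2 + n * b7) + K2) * (r⁻¹) ^ (3 / 4 : ℝ) := by positivity
    linarith
  · intro u
    rw [q7]
    have e1 : H x u - q • hP 0 (x - R i) u = (H x - q • hP 0 (x - R i)) u := by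
      rw [sub_apply, smul_apply]
    rw [e1]
    refine (ContinuousLinearMap.le_opNorm _ _).trans (mul_le_mul_of_nonneg_right ?_ (norm_nonneg _))
    rw [h8]
    refine (norm_add_le _ _).trans ((add_le_add h10 h9).trans ?_)
    have h6 := hone (7 / 4) (by norm_num)
    have h7 : K2 ≤ K2 * (r⁻¹) ^ (7 / 4 : ℝ) := le_mul_of_one_le_right hK20 h6
    have h11 : 0 ≤ (K1 + D * (2 + n * b3)) * (r⁻¹) ^ (7 / 4 : ℝ) := by positivity
    linarith
  · rw [h1]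
    refine h2.trans ?_
    have : 0 ≤ C * (2 + n * b7) + K2 := by positivity
    linarith

/-- the trial near a nucleus: value, gradient, flux -/
theorem trial_nuc (hz : ∀ i, z i = q) (hq : 0 < q) (hR : Function.Injective R) (hφ : 0 < φ₀)
    (hρ : TC ρ) (heq : ∀ x, ρ x = tf (Vpt z R x - pot ρ x - φ₀)) (h : HessSol z R ρ H)
    (hε : 0 < ε) (hs : RadFn q G₁ s s₁ s₂ e) (c : ℝ) (i : ι) :
    ∃ C η : ℝ, 0 ≤ C ∧ 0 < η ∧ η ≤ 1 ∧ ∀ x, 0 < ‖x - R i‖ → ‖x - R i‖ < η →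
      (∀ j, x ≠ R j) ∧
      |Yf ε φ₀ s c z R ρ x + c - q * ‖x - R i‖⁻¹| ≤ C * ‖x - R i‖ ^ (1 / 4 : ℝ) ∧
      ‖Yf' ε φ₀ s s₁ s₂ z R ρ H x - gVpt z R x‖ ≤ C * (‖x - R i‖⁻¹) ^ (3 / 4 : ℝ) ∧
      |4 * Real.pi * ‖x - R i‖ ^ 2 * ⟪((2 * Real.pi)⁻¹ * Yf ε φ₀ s c z R ρ x) • psi' z R ρ x +
        Af ε φ₀ s z R ρ H x, ‖x - R i‖⁻¹ • (x - R i)⟫ - 2 * c * q| ≤
        C * ‖x - R i‖ ^ (1 / 4 : ℝ) := by
  have hpi := Real.pi_pos
  obtain ⟨B, η0, hB, hη0, hη1, hnd⟩ := near_data hz hq hR hφ hρ heq h i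
  set C1 : ℝ := 4 * (B + ε) with hC1
  set C2 : ℝ := 14 * (B + ε) + 2 * (5 * q * B + B ^ 2) / q with hC2
  set C3 : ℝ := 2 * |c| * B + 56 * q * (B + ε) + 4 * q * B + 4 * (5 * q * B + B ^ 2) with hC3
  have hC10 : 0 ≤ C1 := by positivity
  have hC20 : 0 ≤ C2 := by positivity
  have hC30 : 0 ≤ C3 := by positivity
  -- the radius
  set η1 : ℝ := (q / (2 * (B + ε))) ^ 4 with hη1'
  set η2 : ℝ := √(q / (2 * (|G₁| + 1))) with hη2'
  have hη1p : 0 < η1 := by positivity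
  have hη2p : 0 < η2 := Real.sqrt_pos.mpr (by positivity)
  refine ⟨C1 + C2 + C3 + B, min η0 (min η1 η2), by positivity, lt_min hη0 (lt_min hη1p hη2p),
    (min_le_left _ _).trans hη1, fun x hx0 hxη => ?_⟩
  have k0 : ‖x - R i‖ < η0 := hxη.trans_le (min_le_left _ _)
  have k1 : ‖x - R i‖ < η1 := hxη.trans_le ((min_le_right _ _).trans (min_le_left _ _))
  have k2 : ‖x - R i‖ < η2 := hxη.trans_le ((min_le_right _ _).trans (min_le_right _ _))
  obtain ⟨hne, hN, hgV⟩ := hnd x hx0 k0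
  set r : ℝ := ‖x - R i‖ with hr
  have hr1 : r ≤ 1 := k0.le.trans hη1
  set b : ℝ := r ^ (1 / 4 : ℝ) with hb
  obtain ⟨q4, q3, q7⟩ := quarter_pow hx0
  rw [← hb] at q4 q3 q7
  have hb0 : 0 < b := hN.b0
  have hb1 : b ≤ 1 := hN.b1
  -- smallness of `b`
  have hbs : b ≤ q / (2 * (B + ε)) := by
    have h1 : b ≤ η1 ^ (1 / 4 : ℝ) := Real.rpow_le_rpow hx0.le k1.le (by norm_num)
    have h2 : η1 ^ (1 / 4 : ℝ) = q / (2 * (B + ε)) := by
      rw [hη1', ← Real.rpow_natCast, ← Real.rpow_mul (by positivity)]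
      norm_num
    rwa [h2] at h1
  have hbb : (B + ε) * b ^ 5 ≤ q / 2 := by
    have h1 : b ^ 5 ≤ b := by
      calc b ^ 5 = b * b ^ 4 := by ring
        _ ≤ b * 1 := mul_le_mul_of_nonneg_left (pow_le_one₀ hb0.le hb1) hb0.le
        _ = b := mul_one b
    have h2 : 0 < B + ε := by positivity
    calc (B + ε) * b ^ 5 ≤ (B + ε) * b := mul_le_mul_of_nonneg_left h1 h2.le
      _ ≤ (B + ε) * (q / (2 * (B + ε))) := mul_le_mul_of_nonneg_left hbs h2.le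
      _ = q / 2 := by field_simp
  obtain ⟨m1, m2, m3, m4⟩ := hN.main hq hB hε c hbb
  set v : X := psi' z R ρ x with hv
  set G : ℝ := Gm ε v with hG
  have hG0 : 0 < G := Gm_pos hε v
  -- the near form applies
  have hGG : G₁ ≤ G := by
    have h1 : r ^ 2 ≤ q / (2 * (|G₁| + 1)) := by
      have h2 : r ^ 2 ≤ η2 ^ 2 := pow_le_pow_left₀ hx0.le k2.le 2
      rwa [hη2', Real.sq_sqrt (by positivity)] at h2
    have h3 : (b ^ 8)⁻¹ = (r ^ 2)⁻¹ := by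
      rw [← q4]; ring_nf
    rw [h3] at m1
    have h4 : |G₁| + 1 ≤ q / 2 * (r ^ 2)⁻¹ := by
      rw [le_div_iff₀ (by positivity)] at h1
      rw [← div_eq_mul_inv, le_div_iff₀ (by positivity)]
      linarith
    have := le_abs_self G₁
    linarith
  have f1 : Sf ε φ₀ s z R ρ x = √(q / G) := hs.near _ _ hG0 hGG
  have f2 : Sf ε φ₀ s₁ z R ρ x = 0 := hs.near_p _ _ hG0 hGG
  have f3 : G * Sf ε φ₀ s₂ z R ρ x = -(1 / 2) * √(q / G) := by
    rw [← f1]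
    exact hs.near_G _ _ hG0 hGG
  have fY : Yf ε φ₀ s c z R ρ x = √(q / G) * G - c := by
    unfold Yf
    rw [f1]
  have fY' : Yf' ε φ₀ s s₁ s₂ z R ρ H x = (√(q / G) / (2 * G)) • H x v := by
    unfold Yf' Sf' gs gG
    rw [f1, f2, zero_smul, zero_add, ← hv, ← hG, smul_smul, f3, map_smul, smul_smul, smul_smul,
      ← add_smul]
    congr 1
    field_simp
    ring
  refine ⟨hne, ?_, ?_, ?_⟩
  · rw [fY]
    have e1 : √(q / G) * G - c + c - q * r⁻¹ = √(q / G) * G - q * r⁻¹ := by ring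
    rw [e1]
    refine m2.trans (mul_le_mul_of_nonneg_right ?_ hb0.le)
    linarith
  · rw [fY']
    have e1 : (√(q / G) / (2 * G)) • H x v - gVpt z R x =
        ((√(q / G) / (2 * G)) • H x v + (q * (r ^ 3)⁻¹) • (x - R i)) -
          (gVpt z R x + (q * (r ^ 3)⁻¹) • (x - R i)) := by abel
    rw [e1]
    refine (norm_sub_le _ _).trans ((add_le_add m3 hgV).trans ?_)
    rw [q3]
    have h6 : 1 ≤ (r⁻¹) ^ (3 / 4 : ℝ) :=
      Real.one_le_rpow ((one_le_inv₀ hx0).mpr hr1) (by norm_num)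
    have h7 : B ≤ B * (r⁻¹) ^ (3 / 4 : ℝ) := le_mul_of_one_le_right hB h6
    have h8 : 0 ≤ (C1 + C3) * (r⁻¹) ^ (3 / 4 : ℝ) := by positivity
    linarith
  · have e1 : 4 * Real.pi * r ^ 2 * ⟪((2 * Real.pi)⁻¹ * Yf ε φ₀ s c z R ρ x) • v +
        Af ε φ₀ s z R ρ H x, r⁻¹ • (x - R i)⟫ - 2 * c * q =
        2 * r ^ 2 * (√(q / G) * G - c) * ⟪v, r⁻¹ • (x - R i)⟫ -
          r ^ 2 * √(q / G) ^ 2 * ⟪H x v, r⁻¹ • (x - R i)⟫ - 2 * c * q := by
      unfold Af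
      rw [fY, f1, ← hv, inner_add_left, real_inner_smul_left, real_inner_smul_left]
      field_simp
      ring
    rw [e1]
    refine m4.trans (mul_le_mul_of_nonneg_right ?_ hb0.le)
    linarith

/-- field `flux` of `TrialOK` -/
theorem trial_flux (hz : ∀ i, z i = q) (hq : 0 < q) (hR : Function.Injective R) (hφ : 0 < φ₀)
    (hρ : TC ρ) (heq : ∀ x, ρ x = tf (Vpt z R x - pot ρ x - φ₀)) (h : HessSol z R ρ H)
    (hε : 0 < ε) (hs : RadFn q G₁ s s₁ s₂ e) (c : ℝ) :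
    ∀ i, ∀ δ : ℝ, 0 < δ → ∃ η : ℝ, 0 < η ∧ ∀ᵐ x : X, ‖x - R i‖ < η →
      4 * Real.pi * ‖x - R i‖ ^ 2 * ⟪((2 * Real.pi)⁻¹ * Yf ε φ₀ s c z R ρ x) • psi' z R ρ x +
        Af ε φ₀ s z R ρ H x, ‖x - R i‖⁻¹ • (x - R i)⟫ ≤ 2 * c * q + δ := by
  intro i δ hδ
  obtain ⟨C, η, hC, hη, hη1, hx⟩ := trial_nuc hz hq hR hφ hρ heq h hε hs c i
  refine ⟨min η ((δ / (C + 1)) ^ 4), lt_min hη (by positivity), ?_⟩
  filter_upwards [off_ae R] with x hxo hxη
  have hx0 : 0 < ‖x - R i‖ := norm_pos_iff.mpr (sub_ne_zero.mpr (hxo i))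
  obtain ⟨-, -, -, h4⟩ := hx x hx0 (hxη.trans_le (min_le_left _ _))
  have h5 : ‖x - R i‖ ^ (1 / 4 : ℝ) ≤ δ / (C + 1) := by
    have h6 : ‖x - R i‖ ^ (1 / 4 : ℝ) ≤ ((δ / (C + 1)) ^ 4) ^ (1 / 4 : ℝ) :=
      Real.rpow_le_rpow hx0.le (hxη.le.trans (min_le_right _ _)) (by norm_num)
    have h7 : ((δ / (C + 1)) ^ 4) ^ (1 / 4 : ℝ) = δ / (C + 1) := by
      rw [← Real.rpow_natCast, ← Real.rpow_mul (by positivity)]
      norm_num
    rwa [h7] at h6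
  have h8 : C * ‖x - R i‖ ^ (1 / 4 : ℝ) ≤ δ := by
    calc C * ‖x - R i‖ ^ (1 / 4 : ℝ) ≤ (C + 1) * (δ / (C + 1)) := by
          refine mul_le_mul (by linarith) h5 (by positivity) (by positivity)
      _ = δ := by field_simp
  have h9 := (abs_le.mp h4).2
  linarith

/-- the gradient of the trial away from the nuclei -/
theorem Yf'_norm (hε : 0 < ε) (hs : RadFn q G₁ s s₁ s₂ e) (x : X) :
    ‖Yf' ε φ₀ s s₁ s₂ z R ρ H x‖ ≤ ‖psi' z R ρ x‖ + 3 / 2 * √(q / ε) * ‖H x‖ := by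
  set v : X := psi' z R ρ x with hv
  set G : ℝ := Gm ε v with hG
  have hG0 : 0 < G := Gm_pos hε v
  have hvG : ‖v‖ ≤ G := le_Gm ε v
  have hq := rad_q_nonneg hs
  have g1 : ‖gG ε v (H x)‖ ≤ ‖H x‖ := by
    unfold gG
    refine (ContinuousLinearMap.le_opNorm _ _).trans ?_
    refine mul_le_of_le_one_right (norm_nonneg _) ?_
    rw [norm_smul, norm_inv, Real.norm_of_nonneg hG0.le, inv_mul_le_iff₀ hG0, mul_one]
    exact hvG
  have hS0 := Sf_pos (φ₀ := φ₀) (z := z) (R := R) (ρ := ρ) hε hs x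
  have hS1 : Sf ε φ₀ s z R ρ x ≤ √(q / ε) := by
    refine (rad_le_sqrt hs _ hG0).trans (Real.sqrt_le_sqrt ?_)
    exact div_le_div_of_nonneg_left hq hε (eps_le_Gm hε.le v)
  have a1 : |G * Sf ε φ₀ s₁ z R ρ x| ≤ 1 := by
    have h1 := hs.sp_ge (psi φ₀ z R ρ x) G hG0
    have h2 := hs.sp_le (psi φ₀ z R ρ x) G hG0
    have h3 : G * Sf ε φ₀ s₁ z R ρ x ≤ 0 := mul_nonpos_of_nonneg_of_nonpos hG0.le h2
    rw [abs_le]
    exact ⟨h1, by linarith⟩
  have a2 : |G * Sf ε φ₀ s₂ z R ρ x| ≤ 1 / 2 * Sf ε φ₀ s z R ρ x := by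
    have h1 := hs.sG_ge (psi φ₀ z R ρ x) G hG0
    have h2 := hs.sG_le (psi φ₀ z R ρ x) G hG0
    have h3 : G * Sf ε φ₀ s₂ z R ρ x ≤ 0 := mul_nonpos_of_nonneg_of_nonpos hG0.le h2
    rw [abs_le]
    refine ⟨?_, by linarith⟩
    have h4 : -(1 / 2) * Sf ε φ₀ s z R ρ x ≤ G * Sf ε φ₀ s₂ z R ρ x := h1
    linarith
  unfold Yf' Sf' gs
  rw [← hv, ← hG, smul_add, smul_smul, smul_smul]
  refine (norm_add₃_le).trans ?_
  rw [norm_smul, norm_smul, norm_smul, Real.norm_eq_abs, Real.norm_eq_abs, Real.norm_eq_abs,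
    abs_of_pos hS0]
  have b1 : |G * Sf ε φ₀ s₁ z R ρ x| * ‖v‖ ≤ 1 * ‖v‖ :=
    mul_le_mul_of_nonneg_right a1 (norm_nonneg _)
  have b2 : |G * Sf ε φ₀ s₂ z R ρ x| * ‖gG ε v (H x)‖ ≤ 1 / 2 * √(q / ε) * ‖H x‖ :=
    mul_le_mul (a2.trans (by linarith)) g1 (norm_nonneg _) (by positivity)
  have b3 : Sf ε φ₀ s z R ρ x * ‖gG ε v (H x)‖ ≤ √(q / ε) * ‖H x‖ :=
    mul_le_mul hS1 g1 (norm_nonneg _) (by positivity)
  linarith

/-- field `bound` of `TrialOK`, and the decay at infinity -/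
theorem trial_bound (hz : ∀ i, z i = q) (hq : 0 < q) (hR : Function.Injective R) (hφ : 0 < φ₀)
    (hρ : TC ρ) (heq : ∀ x, ρ x = tf (Vpt z R x - pot ρ x - φ₀)) (h : HessSol z R ρ H)
    (hε : 0 < ε) (hs : RadFn q G₁ s s₁ s₂ e) :
    (∃ C N : ℝ, 0 ≤ C ∧ 0 < N ∧ ∀ x, N ≤ ‖x‖ →
      ‖Yf' ε φ₀ s s₁ s₂ z R ρ H x - gVpt z R x‖ ≤ C * (‖x‖ ^ 2)⁻¹) ∧
    ∃ C : ℝ, 0 ≤ C ∧ ∀ x, (∀ i, x ≠ R i) → ‖Yf' ε φ₀ s s₁ s₂ z R ρ H x - gVpt z R x‖ ≤
      C * (1 + ∑ i, (‖x - R i‖⁻¹) ^ (3 / 4 : ℝ)) := by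
  have hz0 : ∀ i, 0 ≤ z i := fun i => (hz i).symm ▸ hq.le
  obtain ⟨C1, N1, hC1, hN1, h1⟩ := psi_grad_inf hz0 R hφ hρ heq
  obtain ⟨C2, N2, hC2, hN2, h2⟩ := h.far
  -- the potential of the nuclei at infinity
  set n : ℝ := ((Fintype.card ι : ℕ) : ℝ) with hn
  have hn0 : 0 ≤ n := Nat.cast_nonneg _
  set ρ₀ : ℝ := ∑ i, ‖R i‖ with hρ₀
  have hρ₀0 : 0 ≤ ρ₀ := Finset.sum_nonneg fun i _ => norm_nonneg _
  have h3 : ∀ x : X, 2 * ρ₀ + 1 ≤ ‖x‖ → ‖gVpt z R x‖ ≤ n * q * 4 * (‖x‖ ^ 2)⁻¹ := by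
    intro x hx
    have hx0 : 0 < ‖x‖ := by linarith
    unfold gVpt
    refine (norm_sum_le _ _).trans ?_
    have h4 : ∀ i ∈ (Finset.univ : Finset ι), ‖z i • gradP (R i) x‖ ≤ q * (4 * (‖x‖ ^ 2)⁻¹) := by
      intro i _
      rw [norm_smul, hz i, Real.norm_of_nonneg hq.le, gradP_norm]
      refine mul_le_mul_of_nonneg_left ?_ hq.le
      have h5 : ‖R i‖ ≤ ρ₀ := Finset.single_le_sum (f := fun i => ‖R i‖)
        (fun i _ => norm_nonneg _) (Finset.mem_univ i)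
      have h6 : ‖x‖ / 2 ≤ ‖x - R i‖ := by
        have := norm_sub_norm_le x (R i)
        linarith
      calc (‖x - R i‖ ^ 2)⁻¹ ≤ ((‖x‖ / 2) ^ 2)⁻¹ :=
            inv_anti₀ (by positivity) (pow_le_pow_left₀ (by positivity) h6 2)
        _ = 4 * (‖x‖ ^ 2)⁻¹ := by field_simp; norm_num
    refine (Finset.sum_le_sum h4).trans ?_
    rw [Finset.sum_const, nsmul_eq_mul, Finset.card_univ, ← hn]
    exact le_of_eq (by ring)
  set K : ℝ := C1 + 3 / 2 * √(q / ε) * C2 + n * q * 4 with hK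
  have hK0 : 0 ≤ K := by positivity
  set N : ℝ := max (max N1 N2) (2 * ρ₀ + 1) with hN
  have hN0 : 0 < N := by
    have : N1 ≤ N := (le_max_left _ _).trans (le_max_left _ _)
    linarith
  have hfar : ∀ x, N ≤ ‖x‖ →
      ‖Yf' ε φ₀ s s₁ s₂ z R ρ H x - gVpt z R x‖ ≤ K * (‖x‖ ^ 2)⁻¹ := by
    intro x hx
    have k1 : N1 ≤ ‖x‖ := ((le_max_left _ _).trans (le_max_left _ _)).trans hx
    have k2 : N2 ≤ ‖x‖ := ((le_max_right _ _).trans (le_max_left _ _)).trans hx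
    have k3 : 2 * ρ₀ + 1 ≤ ‖x‖ := (le_max_right _ _).trans hx
    refine (norm_sub_le _ _).trans ((add_le_add (Yf'_norm hε hs x) (h3 x k3)).trans ?_)
    have e1 : ‖psi' z R ρ x‖ ≤ C1 * (‖x‖ ^ 2)⁻¹ := h1 x k1
    have e2 : 3 / 2 * √(q / ε) * ‖H x‖ ≤ 3 / 2 * √(q / ε) * (C2 * (‖x‖ ^ 2)⁻¹) :=
      mul_le_mul_of_nonneg_left (h2 x k2) (by positivity)
    rw [hK, add_mul, add_mul]
    linarith
  refine ⟨⟨K, N, hK0, hN0, hfar⟩, ?_⟩
  -- near the nuclei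
  choose C η hC hη hη1 hnuc using fun i => trial_nuc hz hq hR hφ hρ heq h hε hs 0 i
  -- the remaining compact set
  set T : Set X := closedBall 0 N ∩ ⋂ i, {x | η i ≤ ‖x - R i‖} with hT
  have hTc : IsCompact T := by
    refine (isCompact_closedBall 0 N).inter_right (isClosed_iInter fun i => ?_)
    exact isClosed_le continuous_const (continuous_id.sub continuous_const).norm
  have hToff : ∀ x ∈ T, ∀ i, x ≠ R i := by
    intro x hx i hi
    have h4 := mem_iInter.mp hx.2 i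
    have h5 : η i ≤ ‖x - R i‖ := h4
    rw [hi, sub_self, norm_zero] at h5
    have := hη i
    linarith
  have hcont : ContinuousOn (fun x => Yf' ε φ₀ s s₁ s₂ z R ρ H x - gVpt z R x) T := by
    intro x hx
    have h4 := Yf'_cont hz0 hφ hρ heq h hε hs (hToff x hx)
    exact (h4.sub (gVpt_continuousAt z (hToff x hx))).continuousWithinAt
  obtain ⟨M, hM⟩ := hTc.exists_bound_of_continuousOn hcont
  set L : ℝ := K * (N ^ 2)⁻¹ + |M| + ∑ i, C i with hL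
  have hs0 : 0 ≤ ∑ i, C i := Finset.sum_nonneg fun i _ => hC i
  have hL0 : 0 ≤ L := by positivity
  refine ⟨L, hL0, fun x hx => ?_⟩
  have hsum : 0 ≤ ∑ i, (‖x - R i‖⁻¹) ^ (3 / 4 : ℝ) := Finset.sum_nonneg fun i _ => by positivity
  by_cases hc : ∃ i, ‖x - R i‖ < η i
  · obtain ⟨i, hi⟩ := hc
    have hx0 : 0 < ‖x - R i‖ := norm_pos_iff.mpr (sub_ne_zero.mpr (hx i))
    obtain ⟨-, -, h5, -⟩ := hnuc i x hx0 hi
    refine h5.trans ?_
    have h6 : C i ≤ L := by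
      have h7 : C i ≤ ∑ i, C i := Finset.single_le_sum (fun i _ => hC i) (Finset.mem_univ i)
      have h8 : 0 ≤ K * (N ^ 2)⁻¹ := by positivity
      have h9 := abs_nonneg M
      linarith
    have h7 : (‖x - R i‖⁻¹) ^ (3 / 4 : ℝ) ≤ ∑ i, (‖x - R i‖⁻¹) ^ (3 / 4 : ℝ) :=
      Finset.single_le_sum (f := fun i => (‖x - R i‖⁻¹) ^ (3 / 4 : ℝ))
        (fun i _ => by positivity) (Finset.mem_univ i)
    exact mul_le_mul h6 (by linarith) (by positivity) hL0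
  · push Not at hc
    have h4 : ‖Yf' ε φ₀ s s₁ s₂ z R ρ H x - gVpt z R x‖ ≤ L := by
      rcases le_total N ‖x‖ with h5 | h5
      · have h6 : K * (‖x‖ ^ 2)⁻¹ ≤ K * (N ^ 2)⁻¹ := mul_le_mul_of_nonneg_left
          (inv_anti₀ (by positivity) (pow_le_pow_left₀ hN0.le h5 2)) hK0
        have h7 := hfar x h5
        have h9 := abs_nonneg M
        linarith
      · have h6 : x ∈ T := ⟨by rwa [mem_closedBall_zero_iff], mem_iInter.mpr hc⟩
        have h7 := hM x h6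
        have h8 := le_abs_self M
        have h9 : 0 ≤ K * (N ^ 2)⁻¹ := by positivity
        linarith
    refine h4.trans ?_
    exact le_mul_of_one_le_right hL0 (by linarith)

end Pool.Agent.TF.Grd

end

section
/-! The solution near the nuclei, arbitrary charges. -/

set_option linter.unusedSectionVars false

set_option linter.unusedVariables false

set_option linter.style.haveILetI false

namespace Pool.Agent.TF.Grd
end Pool.Agent.TF.Grd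

namespace Pool.Agent.TF.Dis

open MeasureTheory Set Metric Filter Topology Pool.Agent.TF.Grd

open scoped ENNReal NNReal RealInnerProductSpace Gradient

variable {ι : Type*} [Fintype ι]

variable {z : ι → ℝ} {R : ι → X} {φ₀ : ℝ} {ρ : X → ℝ} {H : X → X →L[ℝ] X}

/-- **data near a nucleus** -/
theorem near_data (hz : ∀ i, 0 < z i) (hR : Function.Injective R) (hφ : 0 < φ₀)
    (hρ : TC ρ) (heq : ∀ x, ρ x = tf (Vpt z R x - pot ρ x - φ₀)) (h : HessSol z R ρ H) (i : ι) :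
    ∃ B η : ℝ, 0 ≤ B ∧ 0 < η ∧ η ≤ 1 ∧ ∀ x, 0 < ‖x - R i‖ → ‖x - R i‖ < η →
      (∀ j, x ≠ R j) ∧
      NearD (z i) B (‖x - R i‖ ^ (1 / 4 : ℝ)) (x - R i) (psi' z R ρ x) (H x) ∧
      ‖gVpt z R x + (z i * (‖x - R i‖ ^ 3)⁻¹) • (x - R i)‖ ≤ B := by
  classical
  have hz0 : ∀ i, 0 ≤ z i := fun i => (hz i).le
  obtain ⟨-, ⟨D, hD0, hD⟩, -⟩ := sol_facts hz0 R hφ hρ heq
  obtain ⟨C, hC0, hC⟩ := h.near
  obtain ⟨d, hd0, hd1, hd⟩ := exists_sep hR i
  set Z : ℝ := ∑ j, z j with hZ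
  have hZj : ∀ j, z j ≤ Z := fun j =>
    Finset.single_le_sum (f := z) (fun j _ => hz0 j) (Finset.mem_univ j)
  have hZ0 : 0 ≤ Z := (hz0 i).trans (hZj i)
  set n : ℝ := ((Fintype.card ι : ℕ) : ℝ) with hn
  have hn0 : 0 ≤ n := Nat.cast_nonneg _
  set b3 : ℝ := (d⁻¹) ^ (3 / 4 : ℝ) with hb3
  set b7 : ℝ := (d⁻¹) ^ (7 / 4 : ℝ) with hb7
  have hb30 : 0 ≤ b3 := by positivity
  have hb70 : 0 ≤ b7 := by positivity
  set K1 : ℝ := n * (Z * (d ^ 2)⁻¹) with hK1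
  set K2 : ℝ := n * (Z * (4 * (d ^ 3)⁻¹)) with hK2
  have hK10 : 0 ≤ K1 := by positivity
  have hK20 : 0 ≤ K2 := by positivity
  refine ⟨K1 + D * (2 + n * b3) + (C * (2 + n * b7) + K2), d, by positivity, hd0, hd1,
    fun x hx0 hxd => ?_⟩
  set r : ℝ := ‖x - R i‖ with hr
  have hoff := hd x hxd
  have hr1 : r ≤ 1 := hxd.le.trans hd1
  have hne : ∀ j, x ≠ R j := by
    intro j hj
    by_cases hji : j = i
    · rw [hr, hj, hji, sub_self, norm_zero] at hx0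
      exact lt_irrefl _ hx0
    · have := hoff j hji
      rw [hj, sub_self, norm_zero] at this
      linarith
  obtain ⟨q4, q3, q7⟩ := quarter_pow hx0
  have hone : ∀ a : ℝ, 0 ≤ a → 1 ≤ (r⁻¹) ^ a := fun a ha =>
    Real.one_le_rpow ((one_le_inv₀ hx0).mpr hr1) ha
  -- the potential part
  have h1 : gVpt z R x + (z i * (r ^ 3)⁻¹) • (x - R i) =
      ∑ j ∈ Finset.univ.erase i, z j • gradP (R j) x := by
    have e1 : gVpt z R x = z i • gradP (R i) x +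
        ∑ j ∈ Finset.univ.erase i, z j • gradP (R j) x := by
      unfold gVpt
      rw [← Finset.add_sum_erase _ _ (Finset.mem_univ i)]
    have e2 : z i • gradP (R i) x = -((z i * (r ^ 3)⁻¹) • (x - R i)) := by
      unfold gradP
      rw [smul_neg, smul_smul]
    rw [e1, e2]
    abel
  have h2 : ‖∑ j ∈ Finset.univ.erase i, z j • gradP (R j) x‖ ≤ K1 := by
    refine (norm_sum_le _ _).trans ?_
    have h3 : ∀ j ∈ Finset.univ.erase i, ‖z j • gradP (R j) x‖ ≤ Z * (d ^ 2)⁻¹ := by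
      intro j hj
      rw [norm_smul, Real.norm_of_nonneg (hz0 j), gradP_norm]
      refine mul_le_mul (hZj j) ?_ (by positivity) hZ0
      exact inv_anti₀ (by positivity)
        (pow_le_pow_left₀ hd0.le (hoff j (Finset.ne_of_mem_erase hj)) 2)
    refine (Finset.sum_le_sum h3).trans ?_
    rw [Finset.sum_const, nsmul_eq_mul]
    refine mul_le_mul_of_nonneg_right ?_ (by positivity)
    rw [hn]
    exact_mod_cast (Finset.card_erase_le).trans (by rw [Finset.card_univ])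
  have h4 : ‖gradV ρ x‖ ≤ D * ((2 + n * b3) * (r⁻¹) ^ (3 / 4 : ℝ)) := by
    refine (hD x hne).trans (mul_le_mul_of_nonneg_left ?_ hD0)
    have h5 := sum_rpow_near (R := R) hd0 hoff (a := 3 / 4) (by norm_num)
    have h6 := hone (3 / 4) (by norm_num)
    have h7 : n * b3 ≤ n * b3 * (r⁻¹) ^ (3 / 4 : ℝ) := le_mul_of_one_le_right (by positivity) h6
    rw [add_mul]
    rw [← hn, ← hb3] at h5
    linarith
  -- the Hessian part
  have h8 : H x - z i • hP 0 (x - R i) = (H x - hVpt z R x) +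
      ∑ j ∈ Finset.univ.erase i, z j • hP (R j) x := by
    have e1 : hVpt z R x = z i • hP (R i) x + ∑ j ∈ Finset.univ.erase i, z j • hP (R j) x := by
      unfold hVpt
      rw [← Finset.add_sum_erase _ _ (Finset.mem_univ i)]
    rw [hP_shift, e1]
    abel
  have h9 : ‖∑ j ∈ Finset.univ.erase i, z j • hP (R j) x‖ ≤ K2 := by
    refine (norm_sum_le _ _).trans ?_
    have h3 : ∀ j ∈ Finset.univ.erase i, ‖z j • hP (R j) x‖ ≤ Z * (4 * (d ^ 3)⁻¹) := by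
      intro j hj
      rw [norm_smul, Real.norm_of_nonneg (hz0 j)]
      refine mul_le_mul (hZj j) ((hP_norm _ _).trans ?_) (norm_nonneg _) hZ0
      refine mul_le_mul_of_nonneg_left ?_ (by norm_num)
      exact inv_anti₀ (by positivity)
        (pow_le_pow_left₀ hd0.le (hoff j (Finset.ne_of_mem_erase hj)) 3)
    refine (Finset.sum_le_sum h3).trans ?_
    rw [Finset.sum_const, nsmul_eq_mul]
    refine mul_le_mul_of_nonneg_right ?_ (by positivity)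
    rw [hn]
    exact_mod_cast (Finset.card_erase_le).trans (by rw [Finset.card_univ])
  have h10 : ‖H x - hVpt z R x‖ ≤ C * ((2 + n * b7) * (r⁻¹) ^ (7 / 4 : ℝ)) := by
    refine (hC x hne).trans (mul_le_mul_of_nonneg_left ?_ hC0)
    have h5 := sum_rpow_near (R := R) hd0 hoff (a := 7 / 4) (by norm_num)
    have h6 := hone (7 / 4) (by norm_num)
    have h7 : n * b7 ≤ n * b7 * (r⁻¹) ^ (7 / 4 : ℝ) := le_mul_of_one_le_right (by positivity) h6
    rw [add_mul]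
    rw [← hn, ← hb7] at h5
    linarith
  have hP1 : 0 ≤ D * (2 + n * b3) := by positivity
  have hP2 : 0 ≤ C * (2 + n * b7) := by positivity
  refine ⟨hne, ⟨by positivity, Real.rpow_le_one hx0.le hr1 (by norm_num), q4.symm, ?_, ?_⟩, ?_⟩
  · rw [q3, ← hr]
    have e1 : psi' z R ρ x + (z i * (r ^ 3)⁻¹) • (x - R i) =
        (gVpt z R x + (z i * (r ^ 3)⁻¹) • (x - R i)) - gradV ρ x := by
      unfold psi'
      abel
    rw [e1, h1]
    refine (norm_sub_le _ _).trans ((add_le_add h2 h4).trans ?_)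
    have h6 := hone (3 / 4) (by norm_num)
    have h7 : K1 ≤ K1 * (r⁻¹) ^ (3 / 4 : ℝ) := le_mul_of_one_le_right hK10 h6
    have h11 : 0 ≤ (C * (2 + n * b7) + K2) * (r⁻¹) ^ (3 / 4 : ℝ) := by positivity
    nlinarith
  · intro u
    rw [q7]
    have e1 : H x u - z i • hP 0 (x - R i) u = (H x - z i • hP 0 (x - R i)) u := by
      rw [sub_apply, smul_apply]
    rw [e1]
    refine (ContinuousLinearMap.le_opNorm _ _).trans (mul_le_mul_of_nonneg_right ?_ (norm_nonneg _))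
    rw [h8]
    refine (norm_add_le _ _).trans ((add_le_add h10 h9).trans ?_)
    have h6 := hone (7 / 4) (by norm_num)
    have h7 : K2 ≤ K2 * (r⁻¹) ^ (7 / 4 : ℝ) := le_mul_of_one_le_right hK20 h6
    have h11 : 0 ≤ (K1 + D * (2 + n * b3)) * (r⁻¹) ^ (7 / 4 : ℝ) := by positivity
    nlinarith
  · rw [h1]
    refine h2.trans ?_
    have : 0 ≤ C * (2 + n * b7) + K2 := by positivity
    linarith

/-- the own frame near its nucleus: value, gradient, flux -/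
theorem own_near {q B b : ℝ} {n v g : X} {T : X →L[ℝ] X} (h : NearD q B b n v T) (hq : 0 < q)
    (hB : 0 ≤ B) (hg : ‖g + (q * (‖n‖ ^ 3)⁻¹) • n‖ ≤ B) :
    |⟪n, v⟫ + q * ‖n‖⁻¹| ≤ B * b ∧ ‖g + v + T n‖ ≤ 3 * B * (b ^ 3)⁻¹ ∧
      |-(2 * ‖n‖ * ⟪n, v⟫ ^ 2) - ‖n‖ ^ 3 * ⟪T v, n⟫| ≤ (9 * q * B + 3 * B ^ 2) * b := by
  obtain ⟨m, hm1, hnm, hW, hS⟩ := h.scaled hq hB
  obtain ⟨b0, b1, hn, hv, hT⟩ := h
  have hn0 : 0 < ‖n‖ := by rw [hn]; positivity
  refine ⟨?_, ?_, ?_⟩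
  · have e1 : ⟪n, v⟫ + q * ‖n‖⁻¹ = ⟪n, v + (q * (‖n‖ ^ 3)⁻¹) • n⟫ := by
      rw [inner_add_right, real_inner_smul_right, real_inner_self_eq_norm_sq]
      field_simp
    rw [e1]
    calc |⟪n, v + (q * (‖n‖ ^ 3)⁻¹) • n⟫| ≤ ‖n‖ * ‖v + (q * (‖n‖ ^ 3)⁻¹) • n‖ :=
          abs_real_inner_le_norm _ _
      _ ≤ b ^ 4 * (B * (b ^ 3)⁻¹) := by
          rw [← hn]
          exact mul_le_mul_of_nonneg_left hv hn0.le
      _ = B * b := by field_simp
  · have e1 : hP 0 n n = (2 * (‖n‖ ^ 3)⁻¹) • n := by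
      rw [hP_apply, sub_zero, real_inner_self_eq_norm_sq, ← sub_smul]
      congr 1
      field_simp
      norm_num
    have e2 : g + v + T n = (g + (q * (‖n‖ ^ 3)⁻¹) • n) + (v + (q * (‖n‖ ^ 3)⁻¹) • n) +
        (T n - q • hP 0 n n) := by
      rw [e1]
      module
    rw [e2]
    have h1 : ‖T n - q • hP 0 n n‖ ≤ B * (b ^ 3)⁻¹ := by
      refine (hT n).trans (le_of_eq ?_)
      rw [hn]
      field_simp
    have h2 : B ≤ B * (b ^ 3)⁻¹ := by
      refine le_mul_of_one_le_right hB ?_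
      exact (one_le_inv₀ (by positivity)).mpr (pow_le_one₀ b0.le b1)
    refine (norm_add₃_le).trans ?_
    linarith
  · obtain ⟨W, hWd⟩ : ∃ W : X, W = b ^ 8 • v + q • m := ⟨_, rfl⟩
    obtain ⟨S, hSd⟩ : ∃ S : X, S = b ^ 20 • T v + (2 * q ^ 2) • m := ⟨_, rfl⟩
    rw [← hWd] at hW
    rw [← hSd] at hS
    have a1 : b ^ 8 * ⟪m, v⟫ = -q + ⟪m, W⟫ := by
      rw [hWd, inner_add_right, real_inner_smul_right, real_inner_smul_right,
        real_inner_self_eq_norm_sq, hm1]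
      ring
    have a2 : b ^ 20 * ⟪T v, m⟫ = -(2 * q ^ 2) + ⟪S, m⟫ := by
      rw [hSd, inner_add_left, real_inner_smul_left, real_inner_smul_left,
        real_inner_self_eq_norm_sq, hm1]
      ring
    have a3 : ⟪n, v⟫ = b ^ 4 * ⟪m, v⟫ := by rw [hnm, real_inner_smul_left]
    have a4 : ⟪T v, n⟫ = b ^ 4 * ⟪T v, m⟫ := by rw [hnm, real_inner_smul_right]
    have hI : |⟪m, W⟫| ≤ B * b ^ 5 := by
      refine (abs_real_inner_le_norm _ _).trans ?_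
      rw [hm1, one_mul]
      exact hW
    have hJ : |⟪S, m⟫| ≤ (5 * q * B + B ^ 2) * b ^ 5 := by
      refine (abs_real_inner_le_norm _ _).trans ?_
      rw [hm1, mul_one]
      exact hS
    have e3 : b ^ 4 * (-(2 * ‖n‖ * ⟪n, v⟫ ^ 2) - ‖n‖ ^ 3 * ⟪T v, n⟫) =
        4 * q * ⟪m, W⟫ - 2 * ⟪m, W⟫ ^ 2 - ⟪S, m⟫ := by
      have e4 : b ^ 4 * (-(2 * ‖n‖ * ⟪n, v⟫ ^ 2) - ‖n‖ ^ 3 * ⟪T v, n⟫) =
          -(2 * (b ^ 8 * ⟪m, v⟫) ^ 2) - b ^ 20 * ⟪T v, m⟫ := by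
        rw [a3, a4, hn]
        ring
      rw [e4, a1, a2]
      ring
    have hb5 : b ^ 5 ≤ 1 := pow_le_one₀ b0.le b1
    have h3 : ⟪m, W⟫ ^ 2 ≤ B ^ 2 * b ^ 5 := by
      calc ⟪m, W⟫ ^ 2 = |⟪m, W⟫| ^ 2 := (sq_abs _).symm
        _ ≤ (B * b ^ 5) ^ 2 := pow_le_pow_left₀ (abs_nonneg _) hI 2
        _ = B ^ 2 * b ^ 5 * b ^ 5 := by ring
        _ ≤ B ^ 2 * b ^ 5 * 1 := mul_le_mul_of_nonneg_left hb5 (by positivity)
        _ = B ^ 2 * b ^ 5 := mul_one _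
    have h4 : |4 * q * ⟪m, W⟫ - 2 * ⟪m, W⟫ ^ 2 - ⟪S, m⟫| ≤
        4 * q * (B * b ^ 5) + 2 * (B ^ 2 * b ^ 5) + (5 * q * B + B ^ 2) * b ^ 5 := by
      have g1 := abs_le.mp hI
      have g2 := abs_le.mp hJ
      have g3 : 0 ≤ ⟪m, W⟫ ^ 2 := sq_nonneg _
      have g4 : 0 ≤ B ^ 2 * b ^ 5 := by positivity
      rw [abs_le]
      constructor <;> nlinarith
    rw [← e3, abs_mul, abs_of_pos (by positivity : 0 < b ^ 4)] at h4
    have h5 : b ^ 4 * |-(2 * ‖n‖ * ⟪n, v⟫ ^ 2) - ‖n‖ ^ 3 * ⟪T v, n⟫| ≤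
        b ^ 4 * ((9 * q * B + 3 * B ^ 2) * b) := by
      refine h4.trans (le_of_eq ?_)
      ring
    exact le_of_mul_le_mul_left h5 (by positivity)

/-- the own frame near its nucleus, with powers of the distance -/
theorem own_facts (hz : ∀ i, 0 < z i) (hR : Function.Injective R) (hφ : 0 < φ₀)
    (hρ : TC ρ) (heq : ∀ x, ρ x = tf (Vpt z R x - pot ρ x - φ₀)) (h : HessSol z R ρ H) (i : ι) :
    ∃ C η : ℝ, 0 ≤ C ∧ 0 < η ∧ η ≤ 1 ∧ ∀ x, 0 < ‖x - R i‖ → ‖x - R i‖ < η →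
      (∀ j, x ≠ R j) ∧
      |⟪x - R i, psi' z R ρ x⟫ + z i * ‖x - R i‖⁻¹| ≤ C * ‖x - R i‖ ^ (1 / 4 : ℝ) ∧
      ‖gVpt z R x + psi' z R ρ x + H x (x - R i)‖ ≤ C * (‖x - R i‖⁻¹) ^ (3 / 4 : ℝ) ∧
      |-(2 * ‖x - R i‖ * ⟪x - R i, psi' z R ρ x⟫ ^ 2) -
        ‖x - R i‖ ^ 3 * ⟪H x (psi' z R ρ x), x - R i⟫| ≤ C * ‖x - R i‖ ^ (1 / 4 : ℝ) := by
  obtain ⟨B, η, hB, hη, hη1, hnd⟩ := near_data hz hR hφ hρ heq h i
  have hzi := hz i
  refine ⟨3 * B + (9 * z i * B + 3 * B ^ 2), η, by positivity, hη, hη1, fun x hx0 hxη => ?_⟩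
  obtain ⟨hne, hN, hgV⟩ := hnd x hx0 hxη
  obtain ⟨h1, h2, h3⟩ := own_near hN hzi hB hgV
  obtain ⟨q4, q3, q7⟩ := quarter_pow hx0
  have hp : 0 ≤ ‖x - R i‖ ^ (1 / 4 : ℝ) := by positivity
  have hp3 : 0 ≤ (‖x - R i‖⁻¹) ^ (3 / 4 : ℝ) := by positivity
  have hzB : 0 ≤ 9 * z i * B + 3 * B ^ 2 := by positivity
  refine ⟨hne, h1.trans ?_, ?_, h3.trans ?_⟩
  · refine mul_le_mul_of_nonneg_right ?_ hp
    linarith
  · rw [q3] at h2
    refine h2.trans (mul_le_mul_of_nonneg_right ?_ hp3)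
    linarith
  · refine mul_le_mul_of_nonneg_right ?_ hp
    linarith

end Pool.Agent.TF.Dis

end

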