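import Mathlib
import Pool.Agent.Lib.MP_9cf0c9_mp.Tr.Col58Id
import Pool.Agent.Lib.MP_9cf0c9_mp.Tr.ColAxis36
import Pool.Agent.Lib.MP_9cf0c9_mp.Tr.RotFin33
import Pool.Agent.Lib.MP_9cf0c9_mp.Tr.TrialN

section
/-! Collinear nuclei: behaviour of `p`, `c` and the trial near a nucleus.  With `t` the position
of the nucleus on the axis and `q = p (c - t)` the field is `E = p (x - t e₁) - q e₁`; `q` is
Hölder continuous up to the nucleus, with `∇q = O(s^(-1/2))`, `s` the distance to the axis. -/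

set_option autoImplicit false

set_option linter.unusedSectionVars false

set_option linter.unusedVariables false

namespace Pool.Agent.TF.Grd
end Pool.Agent.TF.Grd

namespace Pool.Agent.TF.Col

open MeasureTheory Set Metric Filter Topology

open scoped ENNReal NNReal RealInnerProductSpace Gradient

open Pool.Agent.TF.Grd

variable {ι : Type*} [Fintype ι]

variable {φ₀ : ℝ} {z : ι → ℝ} {R : ι → X} {ρ : X → ℝ} {H : X → X →L[ℝ] X} {lo hi : ℝ}

/-! ### the frame of a point of the axis -/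

/-- the moment about the point `t` of the axis -/
noncomputable def qf (z : ι → ℝ) (R : ι → X) (ρ : X → ℝ) (t : ℝ) (x : X) : ℝ :=
  pf z R ρ x * (cf z R ρ x - t)

/-- its gradient -/
noncomputable def qf' (z : ι → ℝ) (R : ι → X) (ρ : X → ℝ) (H : X → X →L[ℝ] X) (t : ℝ)
    (x : X) : X :=
  pf z R ρ x • cf' z R ρ H x + (cf z R ρ x - t) • pf' z R ρ H x

theorem Dat.c1_q (D : Dat φ₀ z R ρ H lo hi) (t : ℝ) :
    C1O (qf z R ρ t) (qf' z R ρ H t) := by
  refine (D.c1_p.mul (D.c1_c.sub (C1O.const t))).congr (fun x hx => rfl) fun x hx => ?_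
  unfold qf'
  rw [sub_zero]

theorem norm_sub_e1_sq (t : ℝ) (x : X) : ‖x - t • e1‖ ^ 2 = (x.fst - t) ^ 2 + ht x ^ 2 := by
  have hX : x - t • e1 = (x.fst - t) • e1 + perp x := by
    rw [perp_eq]
    module
  rw [← real_inner_self_eq_norm_sq, hX]
  simp only [inner_add_left, inner_add_right, real_inner_smul_left, real_inner_smul_right,
    inner_e1_self, inner_perp_e1, inner_e1_perp]
  rw [real_inner_self_eq_norm_sq, norm_perp]
  ring

/-- the field in the frame of `t` -/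
theorem Dat.psi'_q (D : Dat φ₀ z R ρ H lo hi) (t : ℝ) {x : X} (hx : x ∉ Col.ax) :
    psi' z R ρ x = qf z R ρ t x • e1 - pf z R ρ x • (x - t • e1) := by
  rw [D.ax.form x hx]
  unfold qf
  module

/-- `p² ∇c = p ∇q - q ∇p` -/
theorem p2c' (z : ι → ℝ) (R : ι → X) (ρ : X → ℝ) (H : X → X →L[ℝ] X) (t : ℝ) (x : X) :
    pf z R ρ x ^ 2 • cf' z R ρ H x =
      pf z R ρ x • qf' z R ρ H t x - qf z R ρ t x • pf' z R ρ H x := by
  unfold qf' qf
  module

/-- `∇p` through `∇q` -/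
theorem Dat.r2p' (D : Dat φ₀ z R ρ H lo hi) (t : ℝ) {x : X} (hx : x ∉ Col.ax) :
    ‖x - t • e1‖ ^ 2 • pf' z R ρ H x + (3 * pf z R ρ x) • (x - t • e1) =
      (x.fst - t) • qf' z R ρ H t x +
      (⟪qf' z R ρ H t x, e1⟫ - 4 * Real.pi * ρ x) • (x - t • e1) -
      ⟪qf' z R ρ H t x, x - t • e1⟫ • e1 := by
  have hs := ht_pos hx
  have hX : x - t • e1 = (x.fst - t) • e1 + ht x • es x := by
    rw [← perp_es hx, perp_eq]
    module
  have r1 := D.curl hx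
  have r3 := D.divr hx
  rw [norm_sub_e1_sq]
  have hq : qf' z R ρ H t x = (pf z R ρ x * cx z R ρ H x + (cf z R ρ x - t) * px z R ρ H x) • e1 +
      (pf z R ρ x * cs z R ρ H x + (cf z R ρ x - t) * ps z R ρ H x) • es x := by
    unfold qf'
    rw [D.p'_eq hx, D.c'_eq hx]
    module
  rw [hX, hq, D.p'_eq hx]
  unfold zt at r1 r3
  simp only [inner_add_left, inner_add_right, real_inner_smul_left, real_inner_smul_right,
      inner_e1_self, inner_es_self hx, inner_es_e1, inner_e1_es]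
  have c1 : ((x.fst - t) ^ 2 + ht x ^ 2) * px z R ρ H x + 3 * pf z R ρ x * (x.fst - t) =
      (x.fst - t) * (pf z R ρ x * cx z R ρ H x + (cf z R ρ x - t) * px z R ρ H x) +
      ((pf z R ρ x * cx z R ρ H x + (cf z R ρ x - t) * px z R ρ H x) - 4 * Real.pi * ρ x) *
        (x.fst - t) -
      ((x.fst - t) * (pf z R ρ x * cx z R ρ H x + (cf z R ρ x - t) * px z R ρ H x) +
        ht x * (pf z R ρ x * cs z R ρ H x + (cf z R ρ x - t) * ps z R ρ H x)) := by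
    linear_combination (x.fst - t) * r3 - ht x * r1
  have c2 : ((x.fst - t) ^ 2 + ht x ^ 2) * ps z R ρ H x + 3 * pf z R ρ x * ht x =
      (x.fst - t) * (pf z R ρ x * cs z R ρ H x + (cf z R ρ x - t) * ps z R ρ H x) +
      ((pf z R ρ x * cx z R ρ H x + (cf z R ρ x - t) * px z R ρ H x) - 4 * Real.pi * ρ x) *
        ht x := by
    linear_combination (x.fst - t) * r1 + ht x * r3
  have e : ∀ A1 B1 A2 B2 : ℝ, A1 = A2 → B1 = B2 → A1 • e1 + B1 • es x = A2 • e1 + B2 • es x :=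
    fun A1 B1 A2 B2 h1 h2 => by rw [h1, h2]
  have h := e _ _ _ _ c1 c2
  refine Eq.trans ?_ (h.trans ?_)
  · module
  · module

theorem iso_alg {u0 u1 : X} (h : ∀ b : X, ‖b‖ = 1 → ⟪e1, b⟫ = 0 →
    ∃ m : ℝ, ⟪b, eb 0⟫ • u0 + ⟪b, eb 1⟫ • u1 = m • b) :
    ∃ m : ℝ, u0 = m • eb 0 ∧ u1 = m • eb 1 := by
  have h10 : ⟪eb 1, eb 0⟫ = 0 := by rw [real_inner_comm]; exact inner_eb01
  obtain ⟨m0, h0⟩ := h (eb 0) (norm_eb 0) (inner_e1_eb 0)
  obtain ⟨m1, h1⟩ := h (eb 1) (norm_eb 1) (inner_e1_eb 1)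
  rw [inner_eb_self, inner_eb01, one_smul, zero_smul, add_zero] at h0
  rw [inner_eb_self, h10, one_smul, zero_smul, zero_add] at h1
  have h2 : 0 < ‖eb 0 + eb 1‖ := by
    rw [norm_pos_iff]
    intro h
    have : ⟪eb 0 + eb 1, eb 0⟫ = 1 := by
      rw [inner_add_left, inner_eb_self, h10, add_zero]
    rw [h, inner_zero_left] at this
    exact zero_ne_one this
  obtain ⟨m, hm⟩ := h (‖eb 0 + eb 1‖⁻¹ • (eb 0 + eb 1))
    (by rw [norm_smul, norm_inv, norm_norm, inv_mul_cancel₀ h2.ne'])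
    (by rw [real_inner_smul_right, inner_add_right, inner_e1_eb, inner_e1_eb]; ring)
  simp only [real_inner_smul_left, inner_add_left, inner_eb_self, inner_eb01, h10, add_zero,
    zero_add, mul_one] at hm
  have h3 : m0 • eb 0 + m1 • eb 1 = m • (eb 0 + eb 1) := by
    have h4 := congrArg (fun v => ‖eb 0 + eb 1‖ • v) hm
    simp only [smul_add, smul_smul, mul_inv_cancel₀ h2.ne', one_smul] at h4
    rw [h0, h1] at h4
    rw [h4, smul_add]
    congr 2 <;> field_simp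
  have e0 : m0 = m := by
    have := congrArg (fun v => ⟪v, eb 0⟫) h3
    simpa only [inner_add_left, real_inner_smul_left, inner_eb_self, h10, mul_zero, add_zero,
      mul_one] using this
  have e1' : m1 = m := by
    have := congrArg (fun v => ⟪v, eb 1⟫) h3
    simpa only [inner_add_left, real_inner_smul_left, inner_eb_self, inner_eb01, mul_zero,
      zero_add, mul_one] using this
  exact ⟨m, by rw [h0, e0], by rw [h1, e1']⟩

/-- a transverse unit vector has coordinates of modulus at most one -/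
theorem abs_inner_eb_le {b : X} (hb : ‖b‖ = 1) (j : Fin 2) : |⟪b, eb j⟫| ≤ 1 := by
  refine (abs_real_inner_le_norm _ _).trans ?_
  rw [hb, norm_eb, mul_one]

theorem inner_ax_orth {y b : X} (hy : y ∈ ax) (hb : ⟪e1, b⟫ = 0) : ⟪y, b⟫ = 0 := by
  rw [← fst_smul_of_ax hy, real_inner_smul_left, hb, mul_zero]

theorem inner_self_es {x : X} (hx : x ∉ ax) : ⟪x, es x⟫ = ht x := by
  have := ht_pos hx
  unfold es
  rw [real_inner_smul_right, inner_self_perp]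
  field_simp

/-! ### the rotation field -/

/-- the derivatives of the two rotation fields about the nucleus `i` -/
theorem Dat.rot_data (D : Dat φ₀ z R ρ H lo hi) (i : ι) :
    ∃ (δ C : ℝ) (w : Fin 2 → X → X), 0 < δ ∧ 0 ≤ C ∧
      (∀ x ∈ ball (R i) δ, x ∉ Col.ax → ∀ j, w j x =
        -(qf z R ρ (R i).fst x • eb j + ⟪x, eb j⟫ • qf' z R ρ H (R i).fst x)) ∧
      ∀ x ∈ ball (R i) δ, ∀ y ∈ ball (R i) δ, ∀ j, ‖w j x - w j y‖ ≤ C * √‖x - y‖ := by
  have h := fun j => Rot33.rot_nuc D.hz D.hφ D.hρ D.heq i norm_e1 (norm_eb j) (inner_e1_eb j)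
  obtain ⟨δ0, hδ0, C0, w0, g0, b0⟩ := h 0
  obtain ⟨δ1, hδ1, C1, w1, g1, b1⟩ := h 1
  have hi0 := D.ax.on_axis i
  refine ⟨min δ0 δ1, max (max C0 C1) 0, ![w0, w1], lt_min hδ0 hδ1, le_max_right _ _, ?_, ?_⟩
  · intro x hx hxa
    have key : ∀ (j : Fin 2) (w' : X), HasGradientAt (fun x => ⟪x - R i, e1⟫ *
        ⟪psi' z R ρ x, eb j⟫ - ⟪x - R i, eb j⟫ * ⟪psi' z R ρ x, e1⟫) w' x →
        w' = -(qf z R ρ (R i).fst x • eb j + ⟪x, eb j⟫ • qf' z R ρ H (R i).fst x) := by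
      intro j w' hw
      have h1 := ((D.c1_q (R i).fst).mul (C1O.inner_const' (eb j))).neg.grad x hxa
      have h2 : HasGradientAt (fun x => ⟪x - R i, e1⟫ *
        ⟪psi' z R ρ x, eb j⟫ - ⟪x - R i, eb j⟫ * ⟪psi' z R ρ x, e1⟫)
          (-(qf z R ρ (R i).fst x • eb j + ⟪x, eb j⟫ • qf' z R ρ H (R i).fst x)) x := by
        refine h1.congr_of_eventuallyEq ?_
        filter_upwards [nhds_off hxa] with y hy
        rw [D.psi'_q (R i).fst hy, fst_smul_of_ax hi0]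
        simp only [inner_sub_left, real_inner_smul_left, inner_e1_self, inner_e1_eb,
          inner_ax_orth hi0 (inner_e1_eb j)]
        ring
      rw [← hw.gradient, ← h2.gradient]
    have hx0 : x ∈ ball (R i) δ0 := ball_subset_ball (min_le_left _ _) hx
    have hx1 : x ∈ ball (R i) δ1 := ball_subset_ball (min_le_right _ _) hx
    have hne : x ≠ R i := D.off hxa i
    intro j
    fin_cases j
    · exact key 0 _ (g0 x hx0 hne)
    · exact key 1 _ (g1 x hx1 hne)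
  · intro x hx y hy j
    have hx0 : x ∈ ball (R i) δ0 := ball_subset_ball (min_le_left _ _) hx
    have hx1 : x ∈ ball (R i) δ1 := ball_subset_ball (min_le_right _ _) hx
    have hy0 : y ∈ ball (R i) δ0 := ball_subset_ball (min_le_left _ _) hy
    have hy1 : y ∈ ball (R i) δ1 := ball_subset_ball (min_le_right _ _) hy
    fin_cases j
    · refine (b0 x hx0 y hy0).trans ?_
      rw [← Real.sqrt_eq_rpow]
      exact mul_le_mul_of_nonneg_right ((le_max_left _ _).trans (le_max_left _ _))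
        (Real.sqrt_nonneg _)
    · refine (b1 x hx1 y hy1).trans ?_
      rw [← Real.sqrt_eq_rpow]
      exact mul_le_mul_of_nonneg_right ((le_max_right _ _).trans (le_max_left _ _))
        (Real.sqrt_nonneg _)

/-- **Hölder continuity of `q` and the bound for its gradient at the nucleus `i`** -/
theorem Dat.nuc_hol (D : Dat φ₀ z R ρ H lo hi) (i : ι) :
    ∃ δ C Q : ℝ, 0 < δ ∧ 0 ≤ C ∧ ∀ x ∈ ball (R i) δ, x ∉ Col.ax →
      |qf z R ρ (R i).fst x - Q| ≤ C * √‖x - R i‖ ∧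
      ‖qf' z R ρ H (R i).fst x‖ ≤ C * (√(ht x))⁻¹ := by
  obtain ⟨δ, C, w, hδ, hC, hw, hb⟩ := D.rot_data i
  have hi0 := D.ax.on_axis i
  set t := (R i).fst with ht0
  -- continuity
  have hcont : ∀ y ∈ ball (R i) δ, ∀ j, ContinuousAt (w j) y := by
    intro y hy j
    rw [ContinuousAt, tendsto_iff_norm_sub_tendsto_zero]
    have h1 : Tendsto (fun x : X => C * √‖x - y‖) (𝓝 y) (𝓝 0) := by
      have h2 : Continuous fun x : X => C * √‖x - y‖ := by fun_prop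
      have h3 := h2.tendsto y
      simpa using h3
    refine squeeze_zero' (Eventually.of_forall fun x => norm_nonneg _) ?_ h1
    filter_upwards [isOpen_ball.mem_nhds hy] with x hx
    exact hb x hx y hy j
  -- transverse combination off the axis
  have hcomb : ∀ x ∈ ball (R i) δ, x ∉ Col.ax → ∀ b : X, ⟪e1, b⟫ = 0 →
      ⟪b, eb 0⟫ • w 0 x + ⟪b, eb 1⟫ • w 1 x =
        -(qf z R ρ t x • b + ⟪x, b⟫ • qf' z R ρ H t x) := by
    intro x hx hxa b hb1
    rw [hw x hx hxa 0, hw x hx hxa 1]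
    have h1 := orth_eq hb1
    have h2 : ⟪x, b⟫ = ⟪b, eb 0⟫ * ⟪x, eb 0⟫ + ⟪b, eb 1⟫ * ⟪x, eb 1⟫ := by
      conv_lhs => rw [h1]
      rw [inner_add_right, real_inner_smul_right, real_inner_smul_right]
    have h4 : -(qf z R ρ t x • b + ⟪x, b⟫ • qf' z R ρ H t x) =
        -(qf z R ρ t x • (⟪b, eb 0⟫ • eb 0 + ⟪b, eb 1⟫ • eb 1) +
          ⟪x, b⟫ • qf' z R ρ H t x) := by rw [← h1]
    rw [h4, h2]
    module
  -- isotropy
  have hiso : ∀ y ∈ ball (R i) δ, y ∈ Col.ax → ∃ m : ℝ, ∀ b : X, ⟪e1, b⟫ = 0 →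
      ⟪b, eb 0⟫ • w 0 y + ⟪b, eb 1⟫ • w 1 y = m • b := by
    intro y hy hya
    have h1 : ∀ b : X, ‖b‖ = 1 → ⟪e1, b⟫ = 0 →
        ∃ m : ℝ, ⟪b, eb 0⟫ • w 0 y + ⟪b, eb 1⟫ • w 1 y = m • b := by
      intro b hbn hb1
      obtain ⟨u, hu, hu1, hu2⟩ := exists_unit_orth e1 b
      have hc : Tendsto (fun s : ℝ => y + s • u) (𝓝[>] 0) (𝓝 y) := by
        have : Tendsto (fun s : ℝ => y + s • u) (𝓝 0) (𝓝 (y + (0 : ℝ) • u)) :=
          (by fun_prop : Continuous fun s : ℝ => y + s • u).tendsto 0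
        rw [zero_smul, add_zero] at this
        exact this.mono_left nhdsWithin_le_nhds
      have hW : Tendsto (fun s : ℝ => ⟪b, eb 0⟫ • w 0 (y + s • u) + ⟪b, eb 1⟫ • w 1 (y + s • u))
          (𝓝[>] 0) (𝓝 (⟪b, eb 0⟫ • w 0 y + ⟪b, eb 1⟫ • w 1 y)) :=
        (((hcont y hy 0).tendsto.comp hc).const_smul _).add
          (((hcont y hy 1).tendsto.comp hc).const_smul _)
      have hbb : ⟪b, b⟫ = 1 := by rw [real_inner_self_eq_norm_sq, hbn, one_pow]
      have hev : ∀ᶠ s : ℝ in 𝓝[>] 0, ⟪b, eb 0⟫ • w 0 (y + s • u) +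
          ⟪b, eb 1⟫ • w 1 (y + s • u) = -(qf z R ρ t (y + s • u) • b) := by
        filter_upwards [self_mem_nhdsWithin, hc.eventually (isOpen_ball.mem_nhds hy)] with s hs hsb
        obtain ⟨g1, g2, g3⟩ := es_unit_orth hu hu1 hya hs
        rw [hcomb _ hsb g1 b hb1, inner_add_left, inner_ax_orth hya hb1, real_inner_smul_left,
          real_inner_comm b u, hu2, mul_zero, add_zero, zero_smul, add_zero]
      refine ⟨⟪⟪b, eb 0⟫ • w 0 y + ⟪b, eb 1⟫ • w 1 y, b⟫, ?_⟩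
      have h2 : Tendsto (fun s : ℝ => ⟪⟪b, eb 0⟫ • w 0 (y + s • u) +
          ⟪b, eb 1⟫ • w 1 (y + s • u), b⟫ • b) (𝓝[>] 0)
          (𝓝 (⟪⟪b, eb 0⟫ • w 0 y + ⟪b, eb 1⟫ • w 1 y, b⟫ • b)) :=
        (hW.inner tendsto_const_nhds).smul_const b
      refine tendsto_nhds_unique hW (h2.congr' ?_)
      filter_upwards [hev] with s hs
      rw [hs, inner_neg_left, real_inner_smul_left, hbb, mul_one, neg_smul]
    obtain ⟨m, h0, h1'⟩ := iso_alg h1
    refine ⟨m, fun b hb1 => ?_⟩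
    rw [h0, h1']
    conv_rhs => rw [orth_eq hb1]
    module
  -- estimate of combinations
  have hest : ∀ x ∈ ball (R i) δ, ∀ y ∈ ball (R i) δ, ∀ b : X, ‖b‖ = 1 →
      ‖(⟪b, eb 0⟫ • w 0 x + ⟪b, eb 1⟫ • w 1 x) - (⟪b, eb 0⟫ • w 0 y + ⟪b, eb 1⟫ • w 1 y)‖ ≤
        2 * C * √‖x - y‖ := by
    intro x hx y hy b hbn
    have e : (⟪b, eb 0⟫ • w 0 x + ⟪b, eb 1⟫ • w 1 x) - (⟪b, eb 0⟫ • w 0 y + ⟪b, eb 1⟫ • w 1 y) =
        ⟪b, eb 0⟫ • (w 0 x - w 0 y) + ⟪b, eb 1⟫ • (w 1 x - w 1 y) := by module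
    rw [e]
    refine (norm_add_le _ _).trans ?_
    have h1 : ∀ j, ‖⟪b, eb j⟫ • (w j x - w j y)‖ ≤ C * √‖x - y‖ := by
      intro j
      rw [norm_smul, Real.norm_eq_abs]
      have g1 := abs_inner_eb_le hbn j
      have g2 := hb x hx y hy j
      calc |⟪b, eb j⟫| * ‖w j x - w j y‖ ≤ 1 * (C * √‖x - y‖) :=
            mul_le_mul g1 g2 (norm_nonneg _) zero_le_one
        _ = C * √‖x - y‖ := one_mul _
    have g0 := h1 0
    have g1 := h1 1
    linarith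
  obtain ⟨m, hm⟩ := hiso (R i) (mem_ball_self hδ) hi0
  -- `q` at off-axis points compared with axis points
  have hq : ∀ x ∈ ball (R i) δ, x ∉ Col.ax → ∀ y ∈ ball (R i) δ, ∀ m : ℝ,
      (∀ b : X, ⟪e1, b⟫ = 0 → ⟪b, eb 0⟫ • w 0 y + ⟪b, eb 1⟫ • w 1 y = m • b) →
      |qf z R ρ t x + m| ≤ 2 * C * √‖x - y‖ := by
    intro x hx hxa y hy m hm
    obtain ⟨b, hbn, hb1, hb2⟩ := exists_unit_orth e1 (es x)
    have h1 := hest x hx y hy b hbn
    have hxb : ⟪x, b⟫ = 0 := by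
      have h2 : x = x.fst • e1 + ht x • es x := by
        rw [← perp_es hxa, perp_eq]
        abel
      rw [h2, inner_add_left, real_inner_smul_left, real_inner_smul_left, hb1, hb2]
      ring
    rw [hcomb x hx hxa b hb1, hm b hb1, hxb, zero_smul, add_zero] at h1
    have e : -(qf z R ρ t x • b) - m • b = -((qf z R ρ t x + m) • b) := by module
    rw [e, norm_neg, norm_smul, hbn, mul_one, Real.norm_eq_abs] at h1
    exact h1
  refine ⟨δ, 4 * C, -m, hδ, by positivity, fun x hx hxa => ⟨?_, ?_⟩⟩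
  · have h1 := hq x hx hxa (R i) (mem_ball_self hδ) m hm
    rw [sub_neg_eq_add]
    refine h1.trans (mul_le_mul_of_nonneg_right (by linarith) (Real.sqrt_nonneg _))
  · have hs := ht_pos hxa
    have hss : 0 < √(ht x) := Real.sqrt_pos.mpr hs
    have hyb : foot x ∈ ball (R i) δ := by
      rw [mem_ball_iff_norm] at hx ⊢
      exact (norm_foot_sub x hi0).trans_lt hx
    obtain ⟨m', hm'⟩ := hiso (foot x) hyb (foot_mem x)
    have h1 := hq x hx hxa (foot x) hyb m' hm'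
    have h2 := hest x hx (foot x) hyb (es x) (norm_es hxa)
    rw [norm_sub_foot] at h1 h2
    have he : ⟪e1, es x⟫ = 0 := inner_e1_es x
    rw [hcomb x hx hxa (es x) he, hm' (es x) he, inner_self_es hxa] at h2
    have e : ht x • qf' z R ρ H t x = -(-(qf z R ρ t x • es x + ht x • qf' z R ρ H t x) -
        m' • es x) - (qf z R ρ t x + m') • es x := by module
    have h3 : ht x * ‖qf' z R ρ H t x‖ ≤ 4 * C * √(ht x) := by
      calc ht x * ‖qf' z R ρ H t x‖ = ‖ht x • qf' z R ρ H t x‖ := by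
            rw [norm_smul, Real.norm_of_nonneg hs.le]
        _ ≤ 2 * C * √(ht x) + 2 * C * √(ht x) := by
            rw [e]
            refine (norm_sub_le _ _).trans (add_le_add ?_ ?_)
            · rw [norm_neg]
              exact h2
            · rw [norm_smul, norm_es hxa, mul_one, Real.norm_eq_abs]
              exact h1
        _ = 4 * C * √(ht x) := by ring
    have h4 : √(ht x) * √(ht x) = ht x := Real.mul_self_sqrt hs.le
    rw [← div_eq_mul_inv, le_div_iff₀ hss]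
    have h5 : √(ht x) * (‖qf' z R ρ H t x‖ * √(ht x)) ≤ √(ht x) * (4 * C) := by
      calc √(ht x) * (‖qf' z R ρ H t x‖ * √(ht x)) = ht x * ‖qf' z R ρ H t x‖ := by
            nth_rewrite 3 [← h4]
            ring
        _ ≤ 4 * C * √(ht x) := h3
        _ = √(ht x) * (4 * C) := by ring
    exact le_of_mul_le_mul_left h5 hss

/-- bounds at the point `x` near the nucleus `i` -/
structure NucB (φ₀ : ℝ) (z : ι → ℝ) (R : ι → X) (ρ : X → ℝ) (H : X → X →L[ℝ] X) (i : ι)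
    (C Q : ℝ) (x : X) : Prop where
  /-- distances -/
  r_pos : 0 < ‖x - R i‖
  ht_le : ht x ≤ ‖x - R i‖
  /-- `p` -/
  p : |pf z R ρ x - z i * (‖x - R i‖ ^ 3)⁻¹| ≤ C * (‖x - R i‖⁻¹) ^ (7 / 4 : ℝ)
  /-- `q` -/
  q : |qf z R ρ (R i).fst x - Q| ≤ C * √‖x - R i‖
  q_le : |qf z R ρ (R i).fst x| ≤ C
  q' : ‖qf' z R ρ H (R i).fst x‖ ≤ C * (√(ht x))⁻¹
  /-- density -/
  rho : 4 * Real.pi * ρ x ≤ C * (‖x - R i‖ * √‖x - R i‖)⁻¹
  /-- the gradient -/
  p' : ‖pf' z R ρ H x + (3 * pf z R ρ x * (‖x - R i‖ ^ 2)⁻¹) • (x - R i)‖ ≤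
    (4 * Real.pi * ρ x + 3 * ‖qf' z R ρ H (R i).fst x‖) * ‖x - R i‖⁻¹


/-- elementary bounds for the density and the response near a nucleus -/
theorem Dat.rho_near (D : Dat φ₀ z R ρ H lo hi) (hR : Function.Injective R) (i : ι) :
    ∃ δ C : ℝ, 0 < δ ∧ δ ≤ 1 ∧ 0 ≤ C ∧ ∀ x ∈ ball (R i) δ, x ≠ R i →
      4 * Real.pi * ρ x ≤ C * (‖x - R i‖ * √‖x - R i‖)⁻¹ ∧
      4 * Real.pi * gam (psi φ₀ z R ρ x) ≤ C * (√‖x - R i‖)⁻¹ := by
  classical
  obtain ⟨d, hd0, hd1, hd⟩ := exists_sep hR i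
  set Z : ℝ := ∑ j, z j with hZ
  have hZ0 : 0 ≤ Z := Finset.sum_nonneg fun j _ => D.hz j
  set A : ℝ := Z * d⁻¹ with hA
  have hA0 : 0 ≤ A := by positivity
  have hpi := Real.pi_pos
  refine ⟨d, 4 * Real.pi * (A * √A) + 4 * Real.pi * (3 / 2 * √A), hd0, hd1, by positivity,
    fun x hx hxi => ?_⟩
  have hr0 : 0 < ‖x - R i‖ := norm_pos_iff.mpr (sub_ne_zero.mpr hxi)
  rw [mem_ball_iff_norm] at hx
  set r : ℝ := ‖x - R i‖ with hr
  have hsr : 0 < √r := Real.sqrt_pos.mpr hr0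
  have hpsi : psi φ₀ z R ρ x ≤ A * r⁻¹ := by
    have h1 : psi φ₀ z R ρ x ≤ Vpt z R x := by
      have := pot_nonneg D.hρ.nonneg x
      have h2 := D.hφ
      change Vpt z R x - pot ρ x - φ₀ ≤ Vpt z R x
      linarith
    refine h1.trans ?_
    have h2 : ∀ j ∈ Finset.univ, z j * ‖x - R j‖⁻¹ ≤ z j * (d⁻¹ * r⁻¹) := by
      intro j _
      refine mul_le_mul_of_nonneg_left ?_ (D.hz j)
      by_cases hji : j = i
      · rw [hji, ← hr]
        exact le_mul_of_one_le_left (by positivity) ((one_le_inv₀ hd0).mpr hd1)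
      · have h3 := hd x hx j hji
        have h4 : ‖x - R j‖⁻¹ ≤ d⁻¹ := inv_anti₀ hd0 h3
        exact h4.trans (le_mul_of_one_le_right (by positivity)
          ((one_le_inv₀ hr0).mpr (hx.le.trans hd1)))
    have h3 := Finset.sum_le_sum h2
    rw [← Finset.sum_mul] at h3
    have h4 : Vpt z R x = ∑ j, z j * ‖x - R j‖⁻¹ := by
      unfold Vpt
      rfl
    rw [h4]
    refine h3.trans (le_of_eq ?_)
    rw [hA]
    ring
  have hm : max (psi φ₀ z R ρ x) 0 ≤ A * r⁻¹ := max_le hpsi (by positivity)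
  have hsm : √(max (psi φ₀ z R ρ x) 0) ≤ √A * (√r)⁻¹ := by
    rw [← Real.sqrt_inv, ← Real.sqrt_mul hA0]
    exact Real.sqrt_le_sqrt hm
  constructor
  · have h1 : ρ x ≤ (A * √A) * (r * √r)⁻¹ := by
      rw [D.heq x]
      have h2 : tf (Vpt z R x - pot ρ x - φ₀) =
          max (psi φ₀ z R ρ x) 0 * √(max (psi φ₀ z R ρ x) 0) := rfl
      rw [h2]
      calc max (psi φ₀ z R ρ x) 0 * √(max (psi φ₀ z R ρ x) 0) ≤ (A * r⁻¹) * (√A * (√r)⁻¹) :=
            mul_le_mul hm hsm (Real.sqrt_nonneg _) (by positivity)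
        _ = (A * √A) * (r * √r)⁻¹ := by
            rw [mul_inv]
            ring
    have h3 : 0 ≤ 4 * Real.pi * (3 / 2 * √A) * (r * √r)⁻¹ := by positivity
    calc 4 * Real.pi * ρ x ≤ 4 * Real.pi * ((A * √A) * (r * √r)⁻¹) :=
          mul_le_mul_of_nonneg_left h1 (by positivity)
      _ ≤ (4 * Real.pi * (A * √A) + 4 * Real.pi * (3 / 2 * √A)) * (r * √r)⁻¹ := by
          linarith
  · have h1 : gam (psi φ₀ z R ρ x) ≤ 3 / 2 * (√A * (√r)⁻¹) := by
      unfold gam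
      linarith
    have h3 : 0 ≤ 4 * Real.pi * (A * √A) * (√r)⁻¹ := by positivity
    calc 4 * Real.pi * gam (psi φ₀ z R ρ x) ≤ 4 * Real.pi * (3 / 2 * (√A * (√r)⁻¹)) :=
          mul_le_mul_of_nonneg_left h1 (by positivity)
      _ ≤ (4 * Real.pi * (A * √A) + 4 * Real.pi * (3 / 2 * √A)) * (√r)⁻¹ := by
          linarith

/-- `p` near a nucleus -/
theorem Dat.p_near (D : Dat φ₀ z R ρ H lo hi) (hz : ∀ i, 0 < z i) (hR : Function.Injective R)
    (i : ι) : ∃ δ C : ℝ, 0 < δ ∧ δ ≤ 1 ∧ 0 ≤ C ∧ ∀ x ∈ ball (R i) δ, x ∉ Col.ax →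
      |pf z R ρ x - z i * (‖x - R i‖ ^ 3)⁻¹| ≤ C * (‖x - R i‖⁻¹) ^ (7 / 4 : ℝ) ∧
      z i / 2 * (‖x - R i‖ ^ 3)⁻¹ ≤ pf z R ρ x ∧
      pf z R ρ x ≤ 2 * z i * (‖x - R i‖ ^ 3)⁻¹ ∧
      ‖psi' z R ρ x + (z i * (‖x - R i‖ ^ 3)⁻¹) • (x - R i)‖ ≤ C * (‖x - R i‖⁻¹) ^ (3 / 4 : ℝ) ∧
      ‖gVpt z R x + (z i * (‖x - R i‖ ^ 3)⁻¹) • (x - R i)‖ ≤ C := by
  obtain ⟨B, η, hB, hη, hη1, hn⟩ := Dis.near_data hz hR D.hφ D.hρ D.heq D.hs i
  have hi0 := D.ax.on_axis i
  have hzi := hz i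
  -- a radius such that `B r^(5/4) ≤ z i / 2`
  obtain ⟨δ1, hδ1, hδ1'⟩ : ∃ δ1 : ℝ, 0 < δ1 ∧ B * δ1 ≤ z i / 2 := by
    refine ⟨z i / (2 * (B + 1)), by positivity, ?_⟩
    rw [← mul_div_assoc, div_le_div_iff₀ (by positivity) (by norm_num)]
    nlinarith
  refine ⟨min η δ1, B, lt_min hη hδ1, (min_le_left _ _).trans hη1, hB, fun x hx hxa => ?_⟩
  have hxi : x ≠ R i := D.off hxa i
  have hr0 : 0 < ‖x - R i‖ := norm_pos_iff.mpr (sub_ne_zero.mpr hxi)
  rw [mem_ball_iff_norm] at hx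
  have hxη : ‖x - R i‖ < η := hx.trans_le (min_le_left _ _)
  have hxδ : ‖x - R i‖ < δ1 := hx.trans_le (min_le_right _ _)
  have hr1 : ‖x - R i‖ ≤ 1 := hxη.le.trans hη1
  obtain ⟨hoff, hN, hg⟩ := hn x hr0 hxη
  obtain ⟨q4, q3, q7⟩ := quarter_pow hr0
  obtain ⟨b, hbn, hb1, hb2⟩ := exists_unit_orth e1 (es x)
  have hxb : ⟪x - R i, b⟫ = 0 := by
    have h2 : x = x.fst • e1 + ht x • es x := by
      rw [← perp_es hxa, perp_eq]
      abel
    rw [inner_sub_left, inner_ax_orth hi0 hb1, h2, inner_add_left, real_inner_smul_left,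
      real_inner_smul_left, hb1, hb2]
    ring
  have h1 := hN.hT b
  rw [D.H_phi hxa hb1 hb2, hP_apply, sub_zero, hxb, mul_zero, zero_smul, zero_sub, hbn, mul_one,
    q7] at h1
  have e : -(pf z R ρ x • b) - z i • -((‖x - R i‖ ^ 3)⁻¹ • b) =
      -((pf z R ρ x - z i * (‖x - R i‖ ^ 3)⁻¹) • b) := by module
  rw [e, norm_neg, norm_smul, hbn, mul_one, Real.norm_eq_abs] at h1
  have h2 : B * (‖x - R i‖⁻¹) ^ (7 / 4 : ℝ) ≤ z i / 2 * (‖x - R i‖ ^ 3)⁻¹ := by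
    have h3 : (‖x - R i‖⁻¹) ^ (7 / 4 : ℝ) ≤ (‖x - R i‖⁻¹) ^ (2 : ℝ) :=
      Real.rpow_le_rpow_of_exponent_le ((one_le_inv₀ hr0).mpr hr1) (by norm_num)
    rw [Real.rpow_two] at h3
    calc B * (‖x - R i‖⁻¹) ^ (7 / 4 : ℝ) ≤ B * (‖x - R i‖⁻¹) ^ 2 :=
          mul_le_mul_of_nonneg_left h3 hB
      _ = (B * ‖x - R i‖) * (‖x - R i‖ ^ 3)⁻¹ := by field_simp
      _ ≤ z i / 2 * (‖x - R i‖ ^ 3)⁻¹ := by
          refine mul_le_mul_of_nonneg_right ?_ (by positivity)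
          exact (mul_le_mul_of_nonneg_left hxδ.le hB).trans hδ1'
  have h3 := abs_le.mp (h1.trans h2)
  have h4 : 0 ≤ z i / 2 * (‖x - R i‖ ^ 3)⁻¹ := by positivity
  refine ⟨h1, ?_, ?_, ?_, hg⟩
  · linarith
  · linarith
  · have := hN.hv
    rwa [q3] at this

/-- the bound for `∇p` in the frame of the nucleus -/
theorem Dat.p'_frame (D : Dat φ₀ z R ρ H lo hi) (i : ι) {x : X} (hx : x ∉ Col.ax) :
    ‖pf' z R ρ H x + (3 * pf z R ρ x * (‖x - R i‖ ^ 2)⁻¹) • (x - R i)‖ ≤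
      (4 * Real.pi * ρ x + 3 * ‖qf' z R ρ H (R i).fst x‖) * ‖x - R i‖⁻¹ ∧
    ‖(x.fst - (R i).fst) • qf' z R ρ H (R i).fst x‖ ≤
      ‖x - R i‖ * ‖qf' z R ρ H (R i).fst x‖ ∧
    ‖(⟪qf' z R ρ H (R i).fst x, e1⟫ - 4 * Real.pi * ρ x) • (x - R i)‖ ≤
      ‖x - R i‖ * ‖qf' z R ρ H (R i).fst x‖ + 4 * Real.pi * ρ x * ‖x - R i‖ ∧
    ‖⟪qf' z R ρ H (R i).fst x, x - R i⟫ • e1‖ ≤
      ‖x - R i‖ * ‖qf' z R ρ H (R i).fst x‖ := by
  have hi0 := D.ax.on_axis i
  have hRi : (R i).fst • e1 = R i := fst_smul_of_ax hi0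
  have hpi := Real.pi_pos
  have hρ0 : 0 ≤ ρ x := D.hρ.nonneg x
  have hr0 : 0 < ‖x - R i‖ := norm_pos_iff.mpr (sub_ne_zero.mpr (D.off hx i))
  have h := D.r2p' (R i).fst hx
  rw [hRi] at h
  set w := qf' z R ρ H (R i).fst x with hw
  set n := x - R i with hn
  have g1 : ‖(x.fst - (R i).fst) • w‖ ≤ ‖n‖ * ‖w‖ := by
    rw [norm_smul]
    refine mul_le_mul_of_nonneg_right ?_ (norm_nonneg _)
    have e : x.fst - (R i).fst = n.fst := by rw [hn]; simp
    rw [e, Real.norm_eq_abs, ← inner_e1]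
    refine (abs_real_inner_le_norm _ _).trans ?_
    rw [norm_e1, mul_one]
  have g2 : ‖(⟪w, e1⟫ - 4 * Real.pi * ρ x) • n‖ ≤ ‖n‖ * ‖w‖ + 4 * Real.pi * ρ x * ‖n‖ := by
    rw [norm_smul, Real.norm_eq_abs]
    have h1 : |⟪w, e1⟫| ≤ ‖w‖ := by
      refine (abs_real_inner_le_norm _ _).trans ?_
      rw [norm_e1, mul_one]
    have h2 : |⟪w, e1⟫ - 4 * Real.pi * ρ x| ≤ ‖w‖ + 4 * Real.pi * ρ x := by
      refine (abs_sub _ _).trans ?_
      rw [abs_of_nonneg (show (0 : ℝ) ≤ 4 * Real.pi * ρ x by positivity)]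
      linarith
    calc |⟪w, e1⟫ - 4 * Real.pi * ρ x| * ‖n‖ ≤ (‖w‖ + 4 * Real.pi * ρ x) * ‖n‖ :=
          mul_le_mul_of_nonneg_right h2 (norm_nonneg _)
      _ = ‖n‖ * ‖w‖ + 4 * Real.pi * ρ x * ‖n‖ := by ring
  have g3 : ‖⟪w, n⟫ • e1‖ ≤ ‖n‖ * ‖w‖ := by
    rw [norm_smul, norm_e1, mul_one, Real.norm_eq_abs]
    refine (abs_real_inner_le_norm _ _).trans ?_
    rw [mul_comm]
  refine ⟨?_, g1, g2, g3⟩
  have e : pf' z R ρ H x + (3 * pf z R ρ x * (‖n‖ ^ 2)⁻¹) • n =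
      (‖n‖ ^ 2)⁻¹ • ((x.fst - (R i).fst) • w + (⟪w, e1⟫ - 4 * Real.pi * ρ x) • n -
        ⟪w, n⟫ • e1) := by
    rw [← h, smul_add, smul_smul, smul_smul, inv_mul_cancel₀ (by positivity), one_smul]
    congr 2
    ring
  rw [e, norm_smul, norm_inv, Real.norm_of_nonneg (by positivity : (0 : ℝ) ≤ ‖n‖ ^ 2)]
  have h1 : ‖(x.fst - (R i).fst) • w + (⟪w, e1⟫ - 4 * Real.pi * ρ x) • n - ⟪w, n⟫ • e1‖ ≤
      (4 * Real.pi * ρ x + 3 * ‖w‖) * ‖n‖ := by
    refine (norm_sub_le _ _).trans ((add_le_add (norm_add_le _ _) le_rfl).trans ?_)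
    linarith
  calc (‖n‖ ^ 2)⁻¹ * ‖(x.fst - (R i).fst) • w + (⟪w, e1⟫ - 4 * Real.pi * ρ x) • n -
        ⟪w, n⟫ • e1‖ ≤ (‖n‖ ^ 2)⁻¹ * ((4 * Real.pi * ρ x + 3 * ‖w‖) * ‖n‖) :=
        mul_le_mul_of_nonneg_left h1 (by positivity)
    _ = (4 * Real.pi * ρ x + 3 * ‖w‖) * ‖n‖⁻¹ := by field_simp

/-- **bounds near a nucleus** -/
theorem Dat.nuc_bounds (D : Dat φ₀ z R ρ H lo hi) (hz : ∀ i, 0 < z i)
    (hR : Function.Injective R) (i : ι) :
    ∃ δ C Q : ℝ, 0 < δ ∧ δ ≤ 1 ∧ 0 ≤ C ∧ ∀ x ∈ ball (R i) δ, x ∉ Col.ax →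
      NucB φ₀ z R ρ H i C Q x := by
  obtain ⟨δ1, C1, Q, hδ1, hC1, h1⟩ := D.nuc_hol i
  obtain ⟨δ2, C2, hδ2, hδ21, hC2, h2⟩ := D.rho_near hR i
  obtain ⟨δ3, C3, hδ3, hδ31, hC3, h3⟩ := D.p_near hz hR i
  have hQ0 : 0 ≤ |Q| := abs_nonneg Q
  refine ⟨min δ1 (min δ2 δ3), |Q| + C1 + C2 + C3, Q, lt_min hδ1 (lt_min hδ2 hδ3),
    (min_le_right _ _).trans ((min_le_left _ _).trans hδ21), by linarith, fun x hx hxa => ?_⟩
  have hx1 : x ∈ ball (R i) δ1 := ball_subset_ball (min_le_left _ _) hx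
  have hx2 : x ∈ ball (R i) δ2 :=
    ball_subset_ball ((min_le_right _ _).trans (min_le_left _ _)) hx
  have hx3 : x ∈ ball (R i) δ3 :=
    ball_subset_ball ((min_le_right _ _).trans (min_le_right _ _)) hx
  have hxi : x ≠ R i := D.off hxa i
  have hrl : ‖x - R i‖ ≤ 1 := (mem_ball_iff_norm.mp hx2).le.trans hδ21
  have hr0 : 0 < ‖x - R i‖ := norm_pos_iff.mpr (sub_ne_zero.mpr hxi)
  have hs0 := ht_pos hxa
  have hu0 : 0 ≤ √‖x - R i‖ := Real.sqrt_nonneg _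
  have hu1 : √‖x - R i‖ ≤ 1 := Real.sqrt_le_one.mpr hrl
  have a1 := (h1 x hx1 hxa).1
  have a2 := (h1 x hx1 hxa).2
  have a3 := (h2 x hx2 hxi).1
  have a5 := (h3 x hx3 hxa).1
  refine ⟨hr0, ht_le_dist x (D.ax.on_axis i),
    a5.trans (mul_le_mul_of_nonneg_right (by linarith) (by positivity)),
    a1.trans (mul_le_mul_of_nonneg_right (by linarith) hu0), ?_,
    a2.trans (mul_le_mul_of_nonneg_right (by linarith) (by positivity)),
    a3.trans (mul_le_mul_of_nonneg_right (by linarith) (by positivity)),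
    (D.p'_frame i hxa).1⟩
  have g1 : |qf z R ρ (R i).fst x| ≤ |qf z R ρ (R i).fst x - Q| + |Q| := by
    have := abs_add_le (qf z R ρ (R i).fst x - Q) Q
    rwa [sub_add_cancel] at this
  have g2 : C1 * √‖x - R i‖ ≤ C1 := mul_le_of_le_one_right hC1 hu1
  linarith

/-- `q` has a limit at the nucleus -/
theorem qf_tendsto {i : ι} {δ C Q : ℝ} (hδ : 0 < δ)
    (h : ∀ x ∈ ball (R i) δ, x ∉ Col.ax → NucB φ₀ z R ρ H i C Q x) :
    Tendsto (qf z R ρ (R i).fst) (𝓝[Col.axᶜ] R i) (𝓝 Q) := by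
  rw [tendsto_iff_norm_sub_tendsto_zero]
  have h1 : Tendsto (fun x : X => C * √‖x - R i‖) (𝓝[Col.axᶜ] R i) (𝓝 0) := by
    have h2 : Continuous fun x : X => C * √‖x - R i‖ := by fun_prop
    have h3 := (h2.tendsto (R i)).mono_left (nhdsWithin_le_nhds (s := Col.axᶜ))
    simpa using h3
  refine squeeze_zero' (Eventually.of_forall fun x => norm_nonneg _) ?_ h1
  filter_upwards [mem_nhdsWithin_of_mem_nhds (ball_mem_nhds (R i) hδ), self_mem_nhdsWithin]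
    with x hx hxa
  rw [Real.norm_eq_abs]
  exact (h x hx hxa).q

end Pool.Agent.TF.Col

end

section
/-! Two nuclei `a e₁`, `b e₁`: the weights.  Off the axis `-ψ' = P_a (x - a e₁) + P_b (x - b e₁)`
with `P_a = p (b - c)/(b - a)`, `P_b = p (c - a)/(b - a)`; both solve the five dimensional
linearised equation, both are nonnegative and at most the weight of the isolated ion. -/

set_option autoImplicit false

set_option linter.unusedSectionVars false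

set_option linter.unusedVariables false

namespace Pool.Agent.TF.Grd
end Pool.Agent.TF.Grd

namespace Pool.Agent.TF.Col

open MeasureTheory Set Metric Filter Topology

open scoped ENNReal NNReal RealInnerProductSpace Gradient

open Pool.Agent.TF.Grd

variable {ι : Type*} [Fintype ι]

variable {φ₀ : ℝ} {z : ι → ℝ} {R : ι → X} {ρ : X → ℝ} {H : X → X →L[ℝ] X} {lo hi : ℝ}

/-- the weight of the nucleus at `a`, the other nucleus being at `b` -/
noncomputable def wt (z : ι → ℝ) (R : ι → X) (ρ : X → ℝ) (a b : ℝ) (x : X) : ℝ :=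
  (b - a)⁻¹ * (pf z R ρ x * (b - cf z R ρ x))

/-- its gradient -/
noncomputable def wt' (z : ι → ℝ) (R : ι → X) (ρ : X → ℝ) (H : X → X →L[ℝ] X) (a b : ℝ)
    (x : X) : X :=
  (b - a)⁻¹ • ((b - cf z R ρ x) • pf' z R ρ H x - pf z R ρ x • cf' z R ρ H x)

theorem wt_q (z : ι → ℝ) (R : ι → X) (ρ : X → ℝ) (a b : ℝ) (x : X) :
    wt z R ρ a b x = -((b - a)⁻¹ * qf z R ρ b x) := by
  unfold wt qf
  ring

theorem wt'_q (z : ι → ℝ) (R : ι → X) (ρ : X → ℝ) (H : X → X →L[ℝ] X) (a b : ℝ) (x : X) :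
    wt' z R ρ H a b x = -((b - a)⁻¹ • qf' z R ρ H b x) := by
  unfold wt' qf'
  module

/-- the two weights add up to `p` -/
theorem wt_add {a b : ℝ} (hab : a ≠ b) (z : ι → ℝ) (R : ι → X) (ρ : X → ℝ) (x : X) :
    wt z R ρ a b x + wt z R ρ b a x = pf z R ρ x := by
  have h1 : b - a ≠ 0 := sub_ne_zero.mpr hab.symm
  have h2 : a - b ≠ 0 := sub_ne_zero.mpr hab
  unfold wt
  field_simp
  ring

/-- the first moment of the weights -/
theorem wt_mom {a b : ℝ} (hab : a ≠ b) (z : ι → ℝ) (R : ι → X) (ρ : X → ℝ) (x : X) :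
    a * wt z R ρ a b x + b * wt z R ρ b a x = pf z R ρ x * cf z R ρ x := by
  have h1 : b - a ≠ 0 := sub_ne_zero.mpr hab.symm
  have h2 : a - b ≠ 0 := sub_ne_zero.mpr hab
  unfold wt
  field_simp
  ring

theorem wt'_add {a b : ℝ} (hab : a ≠ b) (z : ι → ℝ) (R : ι → X) (ρ : X → ℝ)
    (H : X → X →L[ℝ] X) (x : X) :
    wt' z R ρ H a b x + wt' z R ρ H b a x = pf' z R ρ H x := by
  have h1 : b - a ≠ 0 := sub_ne_zero.mpr hab.symm
  have h2 : a - b ≠ 0 := sub_ne_zero.mpr hab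
  have h3 : (a - b)⁻¹ = -(b - a)⁻¹ := by
    rw [← inv_neg, neg_sub]
  unfold wt'
  rw [h3]
  have h4 : (b - a)⁻¹ • ((b - cf z R ρ x) • pf' z R ρ H x - pf z R ρ x • cf' z R ρ H x) +
      -(b - a)⁻¹ • ((a - cf z R ρ x) • pf' z R ρ H x - pf z R ρ x • cf' z R ρ H x) =
      ((b - a)⁻¹ * (b - a)) • pf' z R ρ H x := by module
  rw [h4, inv_mul_cancel₀ h1, one_smul]

/-- the field in terms of the weights -/
theorem Dat.psi'_wt (D : Dat φ₀ z R ρ H lo hi) {a b : ℝ} (hab : a ≠ b) {x : X}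
    (hx : x ∉ Col.ax) :
    psi' z R ρ x = -(wt z R ρ a b x • (x - a • e1) + wt z R ρ b a x • (x - b • e1)) := by
  rw [D.ax.form x hx]
  have h1 := wt_add hab z R ρ x
  have h2 := wt_mom hab z R ρ x
  have h3 : wt z R ρ a b x • (x - a • e1) + wt z R ρ b a x • (x - b • e1) =
      (wt z R ρ a b x + wt z R ρ b a x) • x -
        (a * wt z R ρ a b x + b * wt z R ρ b a x) • e1 := by module
  rw [h3, h1, h2]
  module

/-- the axial field -/
theorem Dat.E1_wt (D : Dat φ₀ z R ρ H lo hi) {a b : ℝ} (hab : a ≠ b) {x : X}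
    (hx : x ∉ Col.ax) :
    -⟪psi' z R ρ x, e1⟫ = wt z R ρ a b x * (x.fst - a) + wt z R ρ b a x * (x.fst - b) := by
  rw [D.psi'_wt hab hx, inner_neg_left, neg_neg, inner_add_left, real_inner_smul_left,
    real_inner_smul_left, inner_sub_left, inner_sub_left, real_inner_smul_left,
    real_inner_smul_left, inner_e1_self, inner_e1, mul_one, mul_one]

theorem Dat.c1_wt (D : Dat φ₀ z R ρ H lo hi) (a b : ℝ) :
    C1O (wt z R ρ a b) (wt' z R ρ H a b) := by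
  refine ((D.c1_q b).const_mul (-(b - a)⁻¹)).congr (fun x hx => ?_) fun x hx => ?_
  · rw [wt_q]; ring
  · rw [wt'_q, neg_smul]

theorem Dat.wt_nonneg (D : Dat φ₀ z R ρ H lo hi) {a b : ℝ} (hab : a < b) (hhi : hi ≤ b) {x : X}
    (hx : x ∉ Col.ax) : 0 ≤ wt z R ρ a b x := by
  have h1 := D.ax.le_hi x hx
  have h2 := D.ax.pos x hx
  have h3 : 0 < b - a := by linarith
  unfold wt
  have h4 : 0 ≤ b - cf z R ρ x := by linarith
  positivity

theorem Dat.wt_nonneg' (D : Dat φ₀ z R ρ H lo hi) {a b : ℝ} (hab : a < b) (hlo : a ≤ lo) {x : X}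
    (hx : x ∉ Col.ax) : 0 ≤ wt z R ρ b a x := by
  have h1 := D.ax.lo_le x hx
  have h2 := D.ax.pos x hx
  have h3 : 0 < b - a := by linarith
  have h5 : wt z R ρ b a x = (b - a)⁻¹ * (pf z R ρ x * (cf z R ρ x - a)) := by
    unfold wt
    have h6 : (a - b)⁻¹ = -(b - a)⁻¹ := by rw [← inv_neg, neg_sub]
    rw [h6]
    ring
  rw [h5]
  have h4 : 0 ≤ cf z R ρ x - a := by linarith
  positivity

/-- the gradient lies in the meridian plane -/
theorem Dat.wt'_eq (D : Dat φ₀ z R ρ H lo hi) (a b : ℝ) {x : X} (hx : x ∉ Col.ax) :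
    wt' z R ρ H a b x = ⟪wt' z R ρ H a b x, e1⟫ • e1 + ⟪wt' z R ρ H a b x, es x⟫ • es x := by
  have h1 : wt' z R ρ H a b x = ((b - a)⁻¹ * ((b - cf z R ρ x) * px z R ρ H x -
      pf z R ρ x * cx z R ρ H x)) • e1 + ((b - a)⁻¹ * ((b - cf z R ρ x) * ps z R ρ H x -
      pf z R ρ x * cs z R ρ H x)) • es x := by
    unfold wt'
    rw [D.p'_eq hx, D.c'_eq hx]
    module
  rw [h1]
  simp only [inner_add_left, real_inner_smul_left, inner_e1_self, inner_es_self hx, inner_es_e1,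
    inner_e1_es, mul_one, mul_zero, add_zero, zero_add]

/-! ### the equations -/

/-- the equation of the moment `q = p (c - t)` -/
theorem Dat.wd_q (D : Dat φ₀ z R ρ H lo hi) (t : ℝ) :
    WD (qf' z R ρ H t) fun x => 4 * Real.pi * gam (psi φ₀ z R ρ x) * qf z R ρ t x -
      2 / ht x * ⟪qf' z R ρ H t x, es x⟫ := by
  have hm : C1O (fun x => cf z R ρ x - t) (cf' z R ρ H) :=
    (D.c1_c.sub (C1O.const t)).congr' fun x _ => by rw [sub_zero]
  have h1 := D.wd_c.mul D.c1_p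
  have h2 := D.wd_p.mul hm
  refine (h1.add h2).congr (fun x hx => rfl) fun x hx => ?_
  have hs := ht_pos hx
  have hp := D.ax.pos x hx
  unfold qf' qf
  rw [D.p'_eq hx, D.c'_eq hx]
  simp only [inner_add_left, inner_add_right, real_inner_smul_left,
    real_inner_smul_right, inner_e1_self, inner_es_self hx, inner_es_e1, inner_e1_es]
  field_simp
  ring

/-- **the equation of the weight** (five dimensional) -/
theorem Dat.wd_wt (D : Dat φ₀ z R ρ H lo hi) (a b : ℝ) :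
    WD (wt' z R ρ H a b) fun x => 4 * Real.pi * gam (psi φ₀ z R ρ x) * wt z R ρ a b x -
      2 / ht x * ⟪wt' z R ρ H a b x, es x⟫ := by
  refine ((D.wd_q b).const_smul (-(b - a)⁻¹)).congr (fun x hx => ?_) fun x hx => ?_
  · rw [wt'_q, neg_smul]
  · rw [wt'_q, wt_q, inner_neg_left, real_inner_smul_left]
    ring

/-- the rotation derivative `x_t ∂_s - s ∂₁` about the point `t` of the axis -/
noncomputable def rot (t : ℝ) (v : X) (x : X) : ℝ := (x.fst - t) * ⟪v, es x⟫ - ht x * ⟪v, e1⟫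

theorem C1O.fst_sub (t : ℝ) : C1O (fun x : X => x.fst - t) fun _ => e1 :=
  (C1O.fst.sub (C1O.const t)).congr' fun x _ => by rw [sub_zero]

theorem Dat.c1_xwt (D : Dat φ₀ z R ρ H lo hi) (t a b : ℝ) :
    C1O (fun x => (x.fst - t) * wt z R ρ a b x)
      fun x => (x.fst - t) • wt' z R ρ H a b x + wt z R ρ a b x • e1 :=
  (C1O.fst_sub t).mul (D.c1_wt a b)

/-- **the parts of the axial field**: `Δ(x_t P) = Γ x_t P - (2/s) rot_t P` -/
theorem Dat.wd_xwt (D : Dat φ₀ z R ρ H lo hi) (t a b : ℝ) :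
    WD (fun x => (x.fst - t) • wt' z R ρ H a b x + wt z R ρ a b x • e1) fun x =>
      4 * Real.pi * gam (psi φ₀ z R ρ x) * ((x.fst - t) * wt z R ρ a b x) -
        2 / ht x * rot t (wt' z R ρ H a b x) x := by
  have h1 := (D.wd_wt a b).mul (C1O.fst_sub t)
  have h2 := (WD.const e1).mul (D.c1_wt a b)
  refine (h1.add h2).congr (fun x hx => rfl) fun x hx => ?_
  have hs := ht_pos hx
  unfold rot
  rw [real_inner_comm e1 (wt' z R ρ H a b x)]
  field_simp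
  ring

/-- the curl relation for the weights -/
theorem Dat.rot_wt (D : Dat φ₀ z R ρ H lo hi) {a b : ℝ} (hab : a ≠ b) {x : X}
    (hx : x ∉ Col.ax) :
    rot a (wt' z R ρ H a b x) x + rot b (wt' z R ρ H b a x) x = 0 := by
  have h1 : b - a ≠ 0 := sub_ne_zero.mpr hab.symm
  have hc := D.curl hx
  have h6 : (a - b)⁻¹ = -(b - a)⁻¹ := by rw [← inv_neg, neg_sub]
  have e0 : (b - a)⁻¹ * (b - a) = 1 := inv_mul_cancel₀ h1
  unfold rot wt'
  rw [D.p'_eq hx, D.c'_eq hx, h6]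
  simp only [inner_sub_left, inner_add_left, real_inner_smul_left, inner_e1_self,
    inner_es_self hx, inner_es_e1, inner_e1_es]
  unfold zt at hc
  linear_combination ((b - a)⁻¹ * (b - a)) * hc

/-! ### near the axis -/

theorem Dat.bdN_c (D : Dat φ₀ z R ρ H lo hi) : ∀ x, x ∉ Col.ax → |cf z R ρ x| ≤ |lo| + |hi| := by
  intro x hx
  have h1 := D.ax.lo_le x hx
  have h2 := D.ax.le_hi x hx
  rw [abs_le]
  constructor
  · have := neg_abs_le lo
    have := abs_nonneg hi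
    linarith
  · have := le_abs_self hi
    have := abs_nonneg lo
    linarith

end Pool.Agent.TF.Col

end

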