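import Mathlib
import Pool.Agent.Lib.MP_9cf0c9_mp.Tr.TrialN
/-! The trial potential of the gradient trial. -/

set_option linter.unusedSectionVars false

set_option linter.unusedVariables false

set_option linter.style.haveILetI false

namespace Pool.Agent.TF.Grd

open MeasureTheory Set Metric Filter Topology

open scoped ENNReal NNReal RealInnerProductSpace Gradient

variable {ι : Type*} [Fintype ι]

variable {z : ι → ℝ} {R : ι → X} {φ₀ : ℝ} {ρ : X → ℝ} {H : X → X →L[ℝ] X}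

variable {ε q c G₁ : ℝ} {s s₁ s₂ e : ℝ → ℝ → ℝ}

theorem Vpt_inf (z : ι → ℝ) (R : ι → X) : Tendsto (Vpt z R) (cocompact X) (𝓝 0) := by
  have h3 : ∀ i, Tendsto (fun x : X => z i * ‖x - R i‖⁻¹) (cocompact X) (𝓝 (z i * 0)) := by
    intro i
    refine tendsto_const_nhds.mul ?_
    have h4 : Tendsto (fun x : X => ‖x - R i‖) (cocompact X) atTop := by
      refine tendsto_norm_cocompact_atTop.comp ?_
      exact (Homeomorph.subRight (R i)).isClosedEmbedding.tendsto_cocompact
    exact tendsto_inv_atTop_zero.comp h4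
  have h5 := tendsto_finsetSum (s := (Finset.univ : Finset ι)) (fun i _ => h3 i)
  simp only [mul_zero, Finset.sum_const_zero] at h5
  exact h5

open Classical in
/-- the trial potential -/
noncomputable def kTr (ε φ₀ : ℝ) (s : ℝ → ℝ → ℝ) (c : ℝ) (z : ι → ℝ) (R : ι → X) (ρ : X → ℝ)
    (x : X) : ℝ := (if ∀ i, x ≠ R i then Yf ε φ₀ s c z R ρ x else -c) - Vpt z R x

theorem kTr_off {x : X} (hx : ∀ i, x ≠ R i) :
    kTr ε φ₀ s c z R ρ x = Yf ε φ₀ s c z R ρ x - Vpt z R x := by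
  unfold kTr
  rw [if_pos hx]

theorem kTr_nuc (i : ι) : kTr ε φ₀ s c z R ρ (R i) = -c - Vpt z R (R i) := by
  unfold kTr
  rw [if_neg]
  push Not
  exact ⟨i, rfl⟩

/-- **the trial potential is admissible** -/
theorem trialOK (hz : ∀ i, z i = q) (hq : 0 < q) (hR : Function.Injective R) (hφ : 0 < φ₀)
    (hρ : TC ρ) (heq : ∀ x, ρ x = tf (Vpt z R x - pot ρ x - φ₀)) (h : HessSol z R ρ H)
    (hε : 0 < ε) (hs : RadFn q G₁ s s₁ s₂ e) (hc : c = s (-φ₀) ε * ε) :
    TrialOK ε φ₀ q c s s₁ s₂ z R ρ H (kTr ε φ₀ s c z R ρ) := by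
  have hz0 : ∀ i, 0 ≤ z i := fun i => (hz i).symm ▸ hq.le
  obtain ⟨⟨C1, N1, hC1, hN1, hfar⟩, C2, hC2, hbd⟩ := trial_bound hz hq hR hφ hρ heq h hε hs
  set k : X → ℝ := kTr ε φ₀ s c z R ρ with hk
  have hgrad : ∀ x, (∀ i, x ≠ R i) →
      HasGradientAt k (Yf' ε φ₀ s s₁ s₂ z R ρ H x - gVpt z R x) x := by
    intro x hx
    have h1 := (Yf_grad hz0 hφ hρ heq h hε hs c hx).hasFDerivAt.sub
      (hasGradientAt_Vpt z R hx).hasFDerivAt
    rw [← map_sub] at h1
    refine HasFDerivAt.congr_of_eventuallyEq h1 ?_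
    filter_upwards [off_eventually R hx] with y hy
    exact kTr_off hy
  have hgc : ∀ x, (∀ i, x ≠ R i) →
      ContinuousAt (fun x => Yf' ε φ₀ s s₁ s₂ z R ρ H x - gVpt z R x) x := fun x hx =>
    (Yf'_cont hz0 hφ hρ heq h hε hs hx).sub (gVpt_continuousAt z hx)
  have hlip := lipAt_off hgrad hgc
  -- continuity
  have hcont : Continuous k := by
    rw [continuous_iff_continuousAt]
    intro x
    by_cases hx : ∀ i, x ≠ R i
    · exact (hgrad x hx).hasFDerivAt.continuousAt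
    · push Not at hx
      obtain ⟨i, rfl⟩ := hx
      obtain ⟨C, η, hC, hη, hη1, hnuc⟩ := trial_nuc hz hq hR hφ hρ heq h hε hs c i
      rw [continuousAt_iff_punctured_nhds]
      have hV := (calib_nuc (z := z) (R := R) hR (k := fun _ => (0 : ℝ)) continuous_const i).mono_left
        (nhdsWithin_le_nhds (s := {R i}ᶜ))
      have h1 : Tendsto (fun x : X => ‖x - R i‖) (𝓝[≠] (R i)) (𝓝 0) := by
        have h2 : Continuous fun x : X => ‖x - R i‖ := by fun_prop
        have h3 := h2.tendsto (R i)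
        rw [sub_self, norm_zero] at h3
        exact h3.mono_left nhdsWithin_le_nhds
      have hball : ∀ᶠ x in 𝓝[≠] (R i), 0 < ‖x - R i‖ ∧ ‖x - R i‖ < η := by
        have h2 : ∀ᶠ x in 𝓝[≠] (R i), ‖x - R i‖ < η := h1.eventually (gt_mem_nhds hη)
        filter_upwards [h2, self_mem_nhdsWithin] with x hx hx2
        exact ⟨norm_pos_iff.mpr (sub_ne_zero.mpr hx2), hx⟩
      have hE : Tendsto (fun x => Yf ε φ₀ s c z R ρ x + c - q * ‖x - R i‖⁻¹) (𝓝[≠] (R i))
          (𝓝 0) := by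
        have h2 : Tendsto (fun x : X => C * ‖x - R i‖ ^ (1 / 4 : ℝ)) (𝓝[≠] (R i)) (𝓝 (C * 0)) := by
          refine Tendsto.const_mul _ ?_
          have h3 := (Real.continuousAt_rpow_const 0 (1 / 4 : ℝ) (Or.inr (by norm_num))).tendsto
          rw [Real.zero_rpow (by norm_num)] at h3
          exact h3.comp h1
        rw [mul_zero] at h2
        refine squeeze_zero_norm' ?_ h2
        filter_upwards [hball] with x hx
        rw [Real.norm_eq_abs]
        exact (hnuc x hx.1 hx.2).2.1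
      have hfin := (hE.sub_const c).sub hV
      rw [hk, kTr_nuc]
      have e1 : (0 : ℝ) - c - (Vpt z R (R i) + 0) = -c - Vpt z R (R i) := by ring
      rw [e1] at hfin
      refine hfin.congr' ?_
      filter_upwards [hball] with x hx
      rw [kTr_off (hnuc x hx.1 hx.2).1, hz i]
      ring
  -- decay
  have hdec : ∀ δ : ℝ, 0 < δ → ∃ r, ∀ x, r ≤ ‖x‖ → |k x| < δ := by
    intro δ hδ
    have h1 := (Yf_inf hz0 hφ hρ heq hε hs).sub (Vpt_inf z R)
    rw [← hc, sub_zero] at h1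
    have h2 := (Metric.tendsto_nhds.mp h1) δ hδ
    rw [Filter.eventually_iff, Metric.mem_cocompact_iff_closedBall_compl_subset (0 : X)] at h2
    obtain ⟨r, hr⟩ := h2
    set ρ₀ : ℝ := ∑ i, ‖R i‖ with hρ₀
    refine ⟨max (r + 1) (ρ₀ + 1), fun x hx => ?_⟩
    have h3 : r < ‖x‖ := by
      have := (le_max_left (r + 1) (ρ₀ + 1)).trans hx
      linarith
    have h4 : ∀ i, x ≠ R i := by
      intro i hi
      have h5 : ‖R i‖ ≤ ρ₀ := Finset.single_le_sum (f := fun i => ‖R i‖)
        (fun i _ => norm_nonneg _) (Finset.mem_univ i)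
      have h6 := (le_max_right (r + 1) (ρ₀ + 1)).trans hx
      rw [hi] at h6
      linarith
    have h5 : x ∈ (closedBall (0 : X) r)ᶜ := by
      rw [mem_compl_iff, mem_closedBall_zero_iff, not_le]
      exact h3
    have h6 : dist (Yf ε φ₀ s c z R ρ x - Vpt z R x) 0 < δ := hr h5
    rw [Real.dist_eq, sub_zero, ← kTr_off h4] at h6
    exact h6
  have hg : ∀ x, (∀ i, x ≠ R i) → ∇ k x = Yf' ε φ₀ s s₁ s₂ z R ρ H x - gVpt z R x :=
    fun x hx => (hgrad x hx).gradient
  have hT := trialK_of R hcont hdec hlip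
    (fun i => by
      obtain ⟨C, η, hC, hη, hη1, hnuc⟩ := trial_nuc hz hq hR hφ hρ heq h hε hs c i
      refine ⟨C, η, hη, ?_⟩
      filter_upwards [off_ae R] with x hx hxη
      rw [hg x hx]
      exact (hnuc x (norm_pos_iff.mpr (sub_ne_zero.mpr (hx i))) hxη).2.2.1)
    (by
      refine ⟨C1, N1, ?_⟩
      filter_upwards [off_ae R] with x hx hxN
      rw [hg x hx]
      exact hfar x hxN)
  have hae : (fun x => ∇ k x) =ᵐ[volume]
      fun x => Yf' ε φ₀ s s₁ s₂ z R ρ H x - gVpt z R x := by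
    filter_upwards [off_ae R] with x hx
    exact hg x hx
  refine ⟨⟨hT.1.bdd, hT.1.decay, hT.1.cont, hT.1.lip, ?_, ?_⟩, fun x hx => kTr_off hx, ?_,
    ⟨C2, ?_⟩, trial_flux hz hq hR hφ hρ heq h hε hs c⟩
  · filter_upwards [off_ae R] with x hx
    exact hgrad x hx
  · refine hT.1.sq.congr ?_
    filter_upwards [hae] with x hx
    rw [hx]
  · intro i
    rw [hk, kTr_nuc]
    ring
  · filter_upwards [off_ae R] with x hx
    exact hbd x hx

end Pool.Agent.TF.Grd
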