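import Mathlib
import Pool.Agent.Lib.MP_9cf0c9_mp.Tr.ColF
import Pool.Agent.Lib.MP_9cf0c9_mp.Tr.FluxInf74
import Pool.Agent.Lib.MP_9cf0c9_mp.Tr.NucD
import Pool.Agent.Lib.MP_9cf0c9_mp.Tr.TrialOK61
/-! Trial functions for collinear nuclei: a function which is locally Lipschitz off the axis with
moderate singularities at the axis, at the nuclei and a decay at infinity is an admissible
trial. -/

set_option autoImplicit false

set_option linter.unusedSectionVars false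

set_option linter.unusedVariables false

set_option linter.style.haveILetI false

namespace Pool.Agent.TF.Grd
end Pool.Agent.TF.Grd

namespace Pool.Agent.TF.Col

open MeasureTheory Set Metric Filter Topology

open scoped ENNReal NNReal RealInnerProductSpace Gradient

open Pool.Agent.TF.Grd

/-! ### integrability of powers of the distance to the axis -/

theorem ht_rpow_integrableOn {a : ℝ} (ha : a < 2) (r : ℝ) :
    IntegrableOn (fun x : X => (ht x) ^ (-a)) (ball 0 r) := by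
  rcases le_or_gt r 0 with hr | hr
  · rw [ball_eq_empty.mpr hr]
    exact integrableOn_empty
  have h2 : Integrable ((ball (0 : E2) r).indicator fun y : E2 => ‖y‖ ^ (-a)) := by
    have h3 : (ball (0 : E2) r).indicator (fun y : E2 => ‖y‖ ^ (-a)) =
        fun y : E2 => (Iio r).indicator (fun s : ℝ => s ^ (-a)) ‖y‖ := by
      funext y
      by_cases hy : ‖y‖ < r
      · rw [indicator_of_mem (by simpa using hy), indicator_of_mem (by simpa using hy)]
      · rw [indicator_of_notMem (by simpa using hy), indicator_of_notMem (by simpa using hy)]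
    rw [h3, integrable_fun_norm_addHaar (μ := (volume : Measure E2))
      (f := fun s : ℝ => (Iio r).indicator (fun s : ℝ => s ^ (-a)) s)]
    have h4 : Module.finrank ℝ E2 = 2 := by simp
    rw [h4]
    have h5 : IntegrableOn (fun s : ℝ => s ^ (1 - a)) (Ioi 0 ∩ Iio r) := by
      rw [Ioi_inter_Iio]
      exact (intervalIntegral.integrableOn_Ioo_rpow_iff hr).mpr (by linarith)
    have h6 : IntegrableOn ((Iio r).indicator fun s : ℝ => s ^ (1 - a)) (Ioi 0) := by
      rw [IntegrableOn, integrable_indicator_iff measurableSet_Iio, IntegrableOn,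
        Measure.restrict_restrict measurableSet_Iio, inter_comm]
      exact h5
    refine h6.congr_fun (fun s hs => ?_) measurableSet_Ioi
    have hs0 : 0 < s := hs
    simp only [Nat.add_one_sub_one, pow_one, smul_eq_mul]
    by_cases h : s < r
    · rw [indicator_of_mem (show s ∈ Iio r from h), indicator_of_mem (show s ∈ Iio r from h)]
      rw [sub_eq_add_neg, Real.rpow_add hs0, Real.rpow_one]
    · rw [indicator_of_notMem (show s ∉ Iio r from h), indicator_of_notMem (show s ∉ Iio r from h),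
        mul_zero]
  have h1 : Integrable ((ball (0 : ℝ) r).indicator fun _ : ℝ => (1 : ℝ)) :=
    (integrable_indicator_iff measurableSet_ball).mpr (integrableOn_const measure_ball_lt_top.ne)
  have h3 := h1.mul_prod h2
  rw [← Measure.volume_eq_prod] at h3
  have h4 : Integrable fun x : X => (ball (0 : ℝ) r).indicator (fun _ : ℝ => (1 : ℝ)) x.fst *
      (ball (0 : E2) r).indicator (fun y : E2 => ‖y‖ ^ (-a)) x.snd := by
    rw [← mk_measurePreserving.integrable_comp_emb mk_embedding]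
    exact h3
  refine (h4.integrableOn (s := ball (0 : X) r)).mono' ?_ ?_
  · exact (ht_continuous.measurable.pow_const (-a)).aestronglyMeasurable
  · refine (ae_restrict_iff' measurableSet_ball).2 (Eventually.of_forall fun x hx => ?_)
    rw [mem_ball_zero_iff] at hx
    rw [indicator_of_mem (show x.fst ∈ ball (0 : ℝ) r by
        rw [mem_ball_zero_iff, Real.norm_eq_abs]; exact (abs_fst_le_norm x).trans_lt hx),
      indicator_of_mem (show x.snd ∈ ball (0 : E2) r by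
        rw [mem_ball_zero_iff]; exact (ht_le_norm x).trans_lt hx), one_mul]
    unfold ht
    rw [Real.norm_of_nonneg (by positivity)]

theorem young_ht {r s : ℝ} (hr : 0 < r) (hs : 0 < s) :
    (r ^ 2)⁻¹ * (√s)⁻¹ ≤ (r⁻¹) ^ (11 / 4 : ℝ) + s ^ (-(11 / 6) : ℝ) := by
  have h := Real.geom_mean_le_arith_mean2_weighted (w₁ := 8 / 11) (w₂ := 3 / 11)
    (p₁ := (r⁻¹) ^ (11 / 4 : ℝ)) (p₂ := s ^ (-(11 / 6) : ℝ)) (by norm_num) (by norm_num)
    (by positivity) (by positivity) (by norm_num)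
  have e1 : ((r⁻¹) ^ (11 / 4 : ℝ)) ^ (8 / 11 : ℝ) = (r ^ 2)⁻¹ := by
    rw [← Real.rpow_mul (by positivity)]
    norm_num
  have e2 : (s ^ (-(11 / 6) : ℝ)) ^ (3 / 11 : ℝ) = (√s)⁻¹ := by
    rw [← Real.rpow_mul hs.le, Real.sqrt_eq_rpow, ← Real.rpow_neg hs.le]
    norm_num
  rw [e1, e2] at h
  have h1 : 0 ≤ (r⁻¹) ^ (11 / 4 : ℝ) := by positivity
  have h2 : 0 ≤ s ^ (-(11 / 6) : ℝ) := by positivity
  linarith

theorem rpow_le_114 {t a : ℝ} (ht : 0 ≤ t) (ha0 : 0 ≤ a) (ha : a ≤ 11 / 4) :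
    t ^ a ≤ t ^ (11 / 4 : ℝ) + 1 := by
  rcases le_or_gt 1 t with h | h
  · have := Real.rpow_le_rpow_of_exponent_le h ha
    linarith
  · have h1 := Real.rpow_le_one ht h.le ha0
    have h2 : 0 ≤ t ^ (11 / 4 : ℝ) := by positivity
    linarith

/-! ### local data of a trial -/

section gen

variable {ι : Type*} [Fintype ι] {z : ι → ℝ} {R : ι → X} {Y : X → ℝ} {Y' : X → X} {L : ι → ℝ}

/-- local data which make `Y` an admissible trial with the regular values `L` at the nuclei -/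
structure TrLoc (z : ι → ℝ) (R : ι → X) (Y : X → ℝ) (Y' : X → X) (L : ι → ℝ) : Prop where
  on_axis : ∀ i, R i ∈ ax
  lip : ∀ x, x ∉ ax → LipAt Y x
  grad : ∀ᵐ x : X, HasGradientAt Y (Y' x) x
  lim : ∀ x₀ ∈ ax, (∀ i, x₀ ≠ R i) → ∃ l, Tendsto Y (𝓝[axᶜ] x₀) (𝓝 l)
  bd : ∀ x₀ ∈ ax, (∀ i, x₀ ≠ R i) → ∃ C δ : ℝ, 0 < δ ∧ ∀ x ∈ ball x₀ δ, x ∉ ax →
    ‖Y' x‖ ≤ C * (1 + (√(ht x))⁻¹)
  nuc : ∀ i, Tendsto (fun x => Y x - z i * ‖x - R i‖⁻¹) (𝓝[axᶜ] R i) (𝓝 (L i))
  nuc' : ∀ i, ∃ C δ : ℝ, 0 < δ ∧ ∀ x ∈ ball (R i) δ, x ∉ ax →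
    ‖Y' x - gVpt z R x‖ ≤ C * (1 + (√(ht x))⁻¹ + (‖x - R i‖⁻¹) ^ (3 / 4 : ℝ))
  inf : ∀ ε : ℝ, 0 < ε → ∃ N : ℝ, ∀ x, x ∉ ax → N ≤ ‖x‖ → |Y x| ≤ ε
  inf' : ∃ C N : ℝ, 1 ≤ N ∧ ∀ x, x ∉ ax → N ≤ ‖x‖ → ‖Y' x‖ ≤ C * (‖x‖ ^ 2)⁻¹

theorem dense_off_ax : Dense (axᶜ : Set X) := by
  have h : interior (ax : Set X) = ∅ := by
    by_contra hne
    obtain ⟨x, hx⟩ := nonempty_iff_ne_empty.mpr hne
    have h1 : 0 < volume (interior (ax : Set X)) := isOpen_interior.measure_pos volume ⟨x, hx⟩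
    have h2 : volume (interior (ax : Set X)) ≤ 0 := (measure_mono interior_subset).trans
      ax_null.le
    exact absurd h1 (not_lt.mpr h2)
  rwa [interior_eq_empty_iff_dense_compl] at h

/-- the weight of the singularities -/
noncomputable def Bw (R : ι → X) (x : X) : ℝ :=
  1 + (√(ht x))⁻¹ + ∑ i, (‖x - R i‖⁻¹) ^ (3 / 4 : ℝ)

theorem Bw_ge_one (R : ι → X) (x : X) : 1 ≤ Bw R x := by
  have h1 : 0 ≤ (√(ht x))⁻¹ := by positivity
  have h2 : 0 ≤ ∑ i, (‖x - R i‖⁻¹) ^ (3 / 4 : ℝ) := Finset.sum_nonneg fun i _ => by positivity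
  unfold Bw
  linarith

/-- the gradient of the point potentials away from the nuclei and far away -/
theorem gVpt_bd (z : ι → ℝ) {x₀ : X} (hx : ∀ i, x₀ ≠ R i) :
    ∃ C δ : ℝ, 0 < δ ∧ ∀ x ∈ ball x₀ δ, ‖gVpt z R x‖ ≤ C := by
  have h1 := (gVpt_continuousAt z hx).norm
  have h2 := h1.eventually (Iio_mem_nhds (lt_add_one _))
  obtain ⟨δ, hδ, h⟩ := Metric.eventually_nhds_iff_ball.mp h2
  exact ⟨_, δ, hδ, fun x hx => le_of_lt (h x hx)⟩

theorem gVpt_far (z : ι → ℝ) (R : ι → X) :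
    ∃ C N : ℝ, 0 ≤ C ∧ 1 ≤ N ∧ ∀ x : X, N ≤ ‖x‖ → ‖gVpt z R x‖ ≤ C * (‖x‖ ^ 2)⁻¹ := by
  refine ⟨∑ i, |z i| * 4, 1 + ∑ i, 2 * ‖R i‖, by positivity,
    by have : 0 ≤ ∑ i, 2 * ‖R i‖ := by positivity
       linarith, fun x hx => ?_⟩
  unfold gVpt
  rw [Finset.sum_mul]
  refine (norm_sum_le _ _).trans (Finset.sum_le_sum fun i _ => ?_)
  have hRi : 2 * ‖R i‖ ≤ ‖x‖ := by
    have h1 : 2 * ‖R i‖ ≤ ∑ i, 2 * ‖R i‖ :=
      Finset.single_le_sum (f := fun i => 2 * ‖R i‖) (fun j _ => by positivity)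
        (Finset.mem_univ i)
    linarith
  have hx1 : 0 < ‖x‖ := by
    have : 0 ≤ ∑ i, 2 * ‖R i‖ := by positivity
    linarith
  have h2 : ‖x‖ / 2 ≤ ‖x - R i‖ := by
    have := norm_sub_norm_le x (R i)
    linarith
  have h3 : ‖gradP (R i) x‖ ≤ (‖x - R i‖ ^ 2)⁻¹ := by
    have hpos : 0 < ‖x - R i‖ := lt_of_lt_of_le (by positivity) h2
    unfold gradP
    rw [norm_neg, norm_smul, norm_inv, Real.norm_of_nonneg (by positivity)]
    apply le_of_eq
    field_simp
  rw [norm_smul, Real.norm_eq_abs, mul_assoc]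
  refine mul_le_mul_of_nonneg_left (h3.trans ?_) (abs_nonneg _)
  have h4 : (‖x‖ / 2) ^ 2 ≤ ‖x - R i‖ ^ 2 := pow_le_pow_left₀ (by positivity) h2 2
  calc (‖x - R i‖ ^ 2)⁻¹ ≤ ((‖x‖ / 2) ^ 2)⁻¹ := inv_anti₀ (by positivity) h4
    _ = 4 * (‖x‖ ^ 2)⁻¹ := by field_simp; norm_num

/-- local bound of the gradient of the trial -/
theorem TrLoc.loc_bd (h : TrLoc z R Y Y' L) (x₀ : X) :
    ∃ C δ : ℝ, 0 < δ ∧ ∀ᵐ x : X, x ∈ ball x₀ δ → ‖Y' x - gVpt z R x‖ ≤ C * Bw R x := by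
  by_cases h0 : x₀ ∈ ax
  · by_cases hR : ∃ i, x₀ = R i
    · obtain ⟨i, rfl⟩ := hR
      obtain ⟨C, δ, hδ, hb⟩ := h.nuc' i
      refine ⟨|C|, δ, hδ, ?_⟩
      filter_upwards [ae_off_ax] with x hx hxb
      have h1 := hb x hxb hx
      have h2 : 1 + (√(ht x))⁻¹ + (‖x - R i‖⁻¹) ^ (3 / 4 : ℝ) ≤ Bw R x := by
        have h3 : (‖x - R i‖⁻¹) ^ (3 / 4 : ℝ) ≤ ∑ i, (‖x - R i‖⁻¹) ^ (3 / 4 : ℝ) :=
          Finset.single_le_sum (f := fun i => (‖x - R i‖⁻¹) ^ (3 / 4 : ℝ))
            (fun j _ => by positivity) (Finset.mem_univ i)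
        unfold Bw
        linarith
      refine h1.trans ?_
      have h4 : 0 ≤ 1 + (√(ht x))⁻¹ + (‖x - R i‖⁻¹) ^ (3 / 4 : ℝ) := by positivity
      exact (mul_le_mul_of_nonneg_right (le_abs_self C) h4).trans
        (mul_le_mul_of_nonneg_left h2 (abs_nonneg C))
    · push Not at hR
      obtain ⟨C, δ, hδ, hb⟩ := h.bd x₀ h0 hR
      obtain ⟨C', δ', hδ', hb'⟩ := gVpt_bd z hR
      refine ⟨|C| + |C'|, min δ δ', by positivity, ?_⟩
      filter_upwards [ae_off_ax] with x hx hxb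
      have h1 := hb x (ball_subset_ball (min_le_left _ _) hxb) hx
      have h2 := hb' x (ball_subset_ball (min_le_right _ _) hxb)
      have h3 : 1 + (√(ht x))⁻¹ ≤ Bw R x := by
        have : 0 ≤ ∑ i, (‖x - R i‖⁻¹) ^ (3 / 4 : ℝ) := Finset.sum_nonneg fun i _ => by positivity
        unfold Bw
        linarith
      have h4 := Bw_ge_one R x
      have h5 : 0 ≤ 1 + (√(ht x))⁻¹ := by positivity
      calc ‖Y' x - gVpt z R x‖ ≤ ‖Y' x‖ + ‖gVpt z R x‖ := norm_sub_le _ _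
        _ ≤ C * (1 + (√(ht x))⁻¹) + C' := add_le_add h1 h2
        _ ≤ |C| * (1 + (√(ht x))⁻¹) + |C'| * 1 := by
            rw [mul_one]
            exact add_le_add (mul_le_mul_of_nonneg_right (le_abs_self C) h5) (le_abs_self C')
        _ ≤ |C| * Bw R x + |C'| * Bw R x := add_le_add
            (mul_le_mul_of_nonneg_left h3 (abs_nonneg _))
            (mul_le_mul_of_nonneg_left h4 (abs_nonneg _))
        _ = (|C| + |C'|) * Bw R x := by ring
  · have hR : ∀ i, x₀ ≠ R i := fun i hi => h0 (hi ▸ h.on_axis i)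
    obtain ⟨C, t, ht, hC⟩ := h.lip x₀ h0
    obtain ⟨C', δ', hδ', hb'⟩ := gVpt_bd z hR
    obtain ⟨δ, hδ, hb⟩ := Metric.mem_nhds_iff.mp ht
    refine ⟨C + |C'|, min δ δ', by positivity, ?_⟩
    filter_upwards [h.grad] with x hx hxb
    have h1 : ‖Y' x‖ ≤ C := by
      have h3 : t ∈ 𝓝 x := mem_of_superset
        (isOpen_ball.mem_nhds (ball_subset_ball (min_le_left _ _) hxb)) hb
      have h4 := hx.hasFDerivAt.le_of_lipschitzOn h3 hC
      rwa [LinearIsometryEquiv.norm_map] at h4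
    have h2 := hb' x (ball_subset_ball (min_le_right _ _) hxb)
    have h4 := Bw_ge_one R x
    calc ‖Y' x - gVpt z R x‖ ≤ ‖Y' x‖ + ‖gVpt z R x‖ := norm_sub_le _ _
      _ ≤ (C + |C'|) * 1 := by
          rw [mul_one]
          exact add_le_add h1 (h2.trans (le_abs_self C'))
      _ ≤ (C + |C'|) * Bw R x := mul_le_mul_of_nonneg_left h4 (by positivity)

theorem TrLoc.bd_compact (h : TrLoc z R Y Y' L) {K : Set X} (hK : IsCompact K) :
    ∃ C : ℝ, ∀ᵐ x : X, x ∈ K → ‖Y' x - gVpt z R x‖ ≤ C * Bw R x := by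
  refine hK.induction_on (p := fun s => ∃ C : ℝ, ∀ᵐ x : X, x ∈ s →
    ‖Y' x - gVpt z R x‖ ≤ C * Bw R x) ⟨0, by simp⟩ ?_ ?_ ?_
  · rintro s t hst ⟨C, hC⟩
    exact ⟨C, by filter_upwards [hC] with x hx hxs using hx (hst hxs)⟩
  · rintro s t ⟨C, hC⟩ ⟨C', hC'⟩
    refine ⟨max C C', ?_⟩
    filter_upwards [hC, hC'] with x h1 h2 hx
    have h3 := Bw_ge_one R x
    rcases hx with hx | hx
    · exact (h1 hx).trans (mul_le_mul_of_nonneg_right (le_max_left _ _) (by linarith))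
    · exact (h2 hx).trans (mul_le_mul_of_nonneg_right (le_max_right _ _) (by linarith))
  · intro x _
    obtain ⟨C, δ, hδ, hb⟩ := h.loc_bd x
    exact ⟨ball x δ, mem_nhdsWithin_of_mem_nhds (ball_mem_nhds _ hδ), C, hb⟩

/-- `(‖x - c‖⁻¹) ^ a` is integrable on balls -/
theorem rpow_ball_int (c : X) (r : ℝ) :
    IntegrableOn (fun x : X => (‖x - c‖⁻¹) ^ (11 / 4 : ℝ)) (ball 0 r) := by
  have h1 : IntegrableOn (fun x : X => w114 (x - c) + 1) (ball 0 r) :=
    (w114_integrable.comp_sub_right c).integrableOn.add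
      (integrableOn_const measure_ball_lt_top.ne)
  refine h1.mono' ?_ (Eventually.of_forall fun x => ?_)
  · exact ((measurable_norm.comp (measurable_id.sub_const c)).inv.pow_const _).aestronglyMeasurable
  · rw [Real.norm_of_nonneg (by positivity)]
    exact rpow114_le _

theorem Bw_sq_int (R : ι → X) (r : ℝ) : IntegrableOn (fun x => Bw R x ^ 2) (ball 0 r) := by
  obtain ⟨n, hn⟩ : ∃ n : ℝ, n = (Fintype.card ι : ℝ) := ⟨_, rfl⟩
  have hn0 : 0 ≤ n := hn ▸ Nat.cast_nonneg _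
  have h1 : IntegrableOn (fun x : X => 3 * (1 + (ht x)⁻¹ +
      n * ∑ i, ((‖x - R i‖⁻¹) ^ (11 / 4 : ℝ) + 1))) (ball 0 r) := by
    refine Integrable.const_mul (((integrableOn_const measure_ball_lt_top.ne).add
      (inv_ht_integrableOn r)).add (Integrable.const_mul ?_ n)) 3
    exact integrable_finsetSum _ fun i _ => (rpow_ball_int (R i) r).add
      (integrableOn_const measure_ball_lt_top.ne)
  refine h1.mono' ?_ ?_
  · have hm : Measurable fun x : X => Bw R x ^ 2 := by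
      unfold Bw
      refine Measurable.pow_const (Measurable.add (measurable_const.add
        (Real.continuous_sqrt.measurable.comp ht_continuous.measurable).inv)
        (Finset.measurable_sum _ fun i _ => ?_)) 2
      exact (measurable_norm.comp (measurable_id.sub_const (R i))).inv.pow_const _
    exact hm.aestronglyMeasurable
  · refine Eventually.of_forall fun x => ?_
    rw [Real.norm_of_nonneg (by positivity)]
    have h2 : (∑ i, (‖x - R i‖⁻¹) ^ (3 / 4 : ℝ)) ^ 2 ≤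
        n * ∑ i, ((‖x - R i‖⁻¹) ^ (11 / 4 : ℝ) + 1) := by
      have h3 := sq_sum_le_card_mul_sum_sq (s := (Finset.univ : Finset ι))
        (f := fun i => (‖x - R i‖⁻¹) ^ (3 / 4 : ℝ))
      rw [Finset.card_univ, ← hn] at h3
      refine h3.trans (mul_le_mul_of_nonneg_left (Finset.sum_le_sum fun i _ => ?_) hn0)
      have h4 : ((‖x - R i‖⁻¹) ^ (3 / 4 : ℝ)) ^ 2 = (‖x - R i‖⁻¹) ^ (3 / 2 : ℝ) := by
        rw [← Real.rpow_natCast, ← Real.rpow_mul (by positivity)]
        norm_num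
      rw [h4]
      exact rpow_le_114 (by positivity) (by norm_num) (by norm_num)
    have h5 : ((√(ht x))⁻¹) ^ 2 = (ht x)⁻¹ := by
      rw [inv_pow, Real.sq_sqrt (ht_nonneg x)]
    unfold Bw
    set u : ℝ := (√(ht x))⁻¹
    set w : ℝ := ∑ i, (‖x - R i‖⁻¹) ^ (3 / 4 : ℝ)
    rw [← h5]
    have h6 : (1 + u + w) ^ 2 ≤ 3 * (1 + u ^ 2 + w ^ 2) := by
      nlinarith [sq_nonneg (1 - u), sq_nonneg (1 - w), sq_nonneg (u - w)]
    linarith

theorem Bw_inv_int (R : ι → X) (i : ι) (r : ℝ) :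
    IntegrableOn (fun x => (‖x - R i‖ ^ 2)⁻¹ * Bw R x) (ball 0 r) := by
  have h1 : IntegrableOn (fun x : X => ((‖x - R i‖⁻¹) ^ (11 / 4 : ℝ) + 1) +
      ((‖x - R i‖⁻¹) ^ (11 / 4 : ℝ) + (ht x) ^ (-(11 / 6) : ℝ)) +
      ∑ j, ((‖x - R i‖⁻¹) ^ (11 / 4 : ℝ) + (‖x - R j‖⁻¹) ^ (11 / 4 : ℝ))) (ball 0 r) := by
    refine Integrable.add (Integrable.add ((rpow_ball_int (R i) r).add
      (integrableOn_const measure_ball_lt_top.ne)) ((rpow_ball_int (R i) r).add
      (ht_rpow_integrableOn (by norm_num) r))) ?_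
    exact integrable_finsetSum _ fun j _ => (rpow_ball_int (R i) r).add (rpow_ball_int (R j) r)
  refine h1.mono' ?_ ?_
  · have hm : Measurable fun x : X => (‖x - R i‖ ^ 2)⁻¹ * Bw R x := by
      unfold Bw
      refine Measurable.mul
        ((measurable_norm.comp (measurable_id.sub_const (R i))).pow_const 2).inv
        (Measurable.add (measurable_const.add
        (Real.continuous_sqrt.measurable.comp ht_continuous.measurable).inv)
        (Finset.measurable_sum _ fun i _ => ?_))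
      exact (measurable_norm.comp (measurable_id.sub_const (R i))).inv.pow_const _
    exact hm.aestronglyMeasurable
  · refine ae_restrict_of_ae ?_
    filter_upwards [ae_off_ax, off_ae R] with x hx hxR
    have hs := ht_pos hx
    have hr : 0 < ‖x - R i‖ := norm_pos_iff.mpr (sub_ne_zero.mpr (hxR i))
    have hB := Bw_ge_one R x
    rw [Real.norm_of_nonneg (by positivity)]
    have e2 : (‖x - R i‖ ^ 2)⁻¹ = (‖x - R i‖⁻¹) ^ (2 : ℝ) := by
      rw [Real.rpow_two, inv_pow]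
    have h2 : (‖x - R i‖ ^ 2)⁻¹ ≤ (‖x - R i‖⁻¹) ^ (11 / 4 : ℝ) + 1 := by
      rw [e2]
      exact rpow_le_114 (by positivity) (by norm_num) (by norm_num)
    have h3 := young_ht hr hs
    have h4 : ∀ j, (‖x - R i‖ ^ 2)⁻¹ * (‖x - R j‖⁻¹) ^ (3 / 4 : ℝ) ≤
        (‖x - R i‖⁻¹) ^ (11 / 4 : ℝ) + (‖x - R j‖⁻¹) ^ (11 / 4 : ℝ) := by
      intro j
      have hi0 : 0 < ‖x - R i‖⁻¹ := inv_pos.mpr hr
      have hj0 : 0 < ‖x - R j‖⁻¹ := inv_pos.mpr (norm_pos_iff.mpr (sub_ne_zero.mpr (hxR j)))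
      rw [e2]
      have hp1 : 0 ≤ (‖x - R i‖⁻¹) ^ (11 / 4 : ℝ) := by positivity
      have hp2 : 0 ≤ (‖x - R j‖⁻¹) ^ (11 / 4 : ℝ) := by positivity
      rcases le_total (‖x - R i‖⁻¹) (‖x - R j‖⁻¹) with hle | hle
      · calc (‖x - R i‖⁻¹) ^ (2 : ℝ) * (‖x - R j‖⁻¹) ^ (3 / 4 : ℝ)
            ≤ (‖x - R j‖⁻¹) ^ (2 : ℝ) * (‖x - R j‖⁻¹) ^ (3 / 4 : ℝ) :=
              mul_le_mul_of_nonneg_right (Real.rpow_le_rpow hi0.le hle (by norm_num))
                (by positivity)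
          _ = (‖x - R j‖⁻¹) ^ (11 / 4 : ℝ) := by
              rw [← Real.rpow_add hj0]; norm_num
          _ ≤ _ := by linarith
      · calc (‖x - R i‖⁻¹) ^ (2 : ℝ) * (‖x - R j‖⁻¹) ^ (3 / 4 : ℝ)
            ≤ (‖x - R i‖⁻¹) ^ (2 : ℝ) * (‖x - R i‖⁻¹) ^ (3 / 4 : ℝ) :=
              mul_le_mul_of_nonneg_left (Real.rpow_le_rpow hj0.le hle (by norm_num))
                (by positivity)
          _ = (‖x - R i‖⁻¹) ^ (11 / 4 : ℝ) := by
              rw [← Real.rpow_add hi0]; norm_num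
          _ ≤ _ := by linarith
    unfold Bw
    rw [mul_add, mul_add, mul_one, Finset.mul_sum]
    exact add_le_add (add_le_add h2 h3) (Finset.sum_le_sum fun j _ => h4 j)

/-- integrability on the outside of a ball -/
theorem far_int {f : X → ℝ} {C N : ℝ} (hN : 1 ≤ N) (hf : AEStronglyMeasurable f volume)
    (h : ∀ x, x ∉ ax → N ≤ ‖x‖ → |f x| ≤ C * (‖x‖ ^ 4)⁻¹) :
    IntegrableOn f {x : X | N ≤ ‖x‖} := by
  have hS : MeasurableSet {x : X | N ≤ ‖x‖} := (isClosed_le continuous_const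
    continuous_norm).measurableSet
  have h1 : Integrable (fun x : X => |C| * 16 * (1 + ‖x‖) ^ (-(4 : ℝ))) := by
    refine (integrable_one_add_norm ?_).const_mul _
    have : Module.finrank ℝ X = 3 := Fact.out
    rw [this]; norm_num
  refine h1.integrableOn.mono' hf.restrict ((ae_restrict_iff' hS).2 ?_)
  filter_upwards [ae_off_ax] with x hx hxN
  have hxN' : N ≤ ‖x‖ := hxN
  have hx1 : 1 ≤ ‖x‖ := hN.trans hxN'
  rw [Real.norm_eq_abs]
  refine (h x hx hxN').trans ?_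
  have h3 : (‖x‖ ^ 4)⁻¹ ≤ 16 * (1 + ‖x‖) ^ (-(4 : ℝ)) := by
    have e1 : (1 + ‖x‖) ^ (-(4 : ℝ)) = ((1 + ‖x‖) ^ 4)⁻¹ := by
      rw [Real.rpow_neg (by positivity)]; norm_cast
    rw [e1, inv_le_iff_one_le_mul₀ (by positivity)]
    have h6 : (1 + ‖x‖) ^ 4 ≤ (2 * ‖x‖) ^ 4 :=
      pow_le_pow_left₀ (by positivity) (by linarith) 4
    have h7 : 16 * ((1 + ‖x‖) ^ 4)⁻¹ * ‖x‖ ^ 4 = (2 * ‖x‖) ^ 4 / (1 + ‖x‖) ^ 4 := by
      field_simp
      ring
    rw [h7, le_div_iff₀ (by positivity)]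
    linarith
  calc C * (‖x‖ ^ 4)⁻¹ ≤ |C| * (‖x‖ ^ 4)⁻¹ :=
        mul_le_mul_of_nonneg_right (le_abs_self C) (by positivity)
    _ ≤ |C| * (16 * (1 + ‖x‖) ^ (-(4 : ℝ))) := mul_le_mul_of_nonneg_left h3 (abs_nonneg C)
    _ = |C| * 16 * (1 + ‖x‖) ^ (-(4 : ℝ)) := by ring

/-- **local data give an admissible trial** -/
theorem TrLoc.trY (h : TrLoc z R Y Y' L) (hR : Function.Injective R) :
    TrY z R Y Y' L (extendFrom axᶜ fun x => Y x - Vpt z R x) fun x => Y' x - gVpt z R x := by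
  set f : X → ℝ := fun x => Y x - Vpt z R x with hf
  set K : X → ℝ := extendFrom axᶜ f with hK
  have hoff : ∀ {x : X}, x ∉ ax → ∀ i, x ≠ R i := fun hx => ax_nontrivial_off h.on_axis hx
  -- values off the axis
  have hfc : ∀ x, x ∉ ax → ContinuousAt f x := fun x hx =>
    (h.lip x hx).continuousAt.sub (Vpt_continuousAt z R (hoff hx))
  have hval : ∀ x, x ∉ ax → K x = f x := fun x hx =>
    extendFrom_eq (subset_closure hx) ((hfc x hx).tendsto.mono_left nhdsWithin_le_nhds)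
  -- limits at the nuclei
  classical
  have hnl : ∀ i, Tendsto f (𝓝[axᶜ] R i) (𝓝 (L i - Vpt z R (R i))) := by
    intro i
    have h1 : ∀ x, Vpt z R x = z i * ‖x - R i‖⁻¹ +
        ∑ j ∈ Finset.univ.erase i, z j * ‖x - R j‖⁻¹ := fun x => by
      unfold Vpt
      exact (Finset.add_sum_erase _ _ (Finset.mem_univ i)).symm
    have h2 : Tendsto (fun x => ∑ j ∈ Finset.univ.erase i, z j * ‖x - R j‖⁻¹) (𝓝[axᶜ] R i)
        (𝓝 (∑ j ∈ Finset.univ.erase i, z j * ‖R i - R j‖⁻¹)) := by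
      refine tendsto_finsetSum _ fun j hj => ?_
      have hne : R i ≠ R j := fun he => (Finset.ne_of_mem_erase hj) (hR he).symm
      have h3 : ContinuousAt (fun x => z j * ‖x - R j‖⁻¹) (R i) :=
        continuousAt_const.mul ((by fun_prop : Continuous fun x : X => ‖x - R j‖).continuousAt.inv₀
          (norm_pos_iff.mpr (sub_ne_zero.mpr hne)).ne')
      exact h3.tendsto.mono_left nhdsWithin_le_nhds
    have h3 := (h.nuc i).sub h2
    have e : L i - ∑ j ∈ Finset.univ.erase i, z j * ‖R i - R j‖⁻¹ = L i - Vpt z R (R i) := by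
      rw [h1 (R i), sub_self, norm_zero, inv_zero, mul_zero, zero_add]
    rw [e] at h3
    refine h3.congr fun x => ?_
    simp only [hf]
    rw [h1 x]
    ring
  have hlim : ∀ x, ∃ y, Tendsto f (𝓝[axᶜ] x) (𝓝 y) := by
    intro x
    by_cases hx : x ∈ ax
    · by_cases hxR : ∃ i, x = R i
      · obtain ⟨i, rfl⟩ := hxR
        exact ⟨_, hnl i⟩
      · push Not at hxR
        obtain ⟨l, hl⟩ := h.lim x hx hxR
        exact ⟨_, hl.sub ((Vpt_continuousAt z R hxR).tendsto.mono_left nhdsWithin_le_nhds)⟩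
    · exact ⟨_, (hfc x hx).tendsto.mono_left nhdsWithin_le_nhds⟩
  have hcont : Continuous K := continuous_extendFrom dense_off_ax hlim
  have hpole : ∀ i, Vpt z R (R i) + K (R i) = L i := by
    intro i
    have h1 : K (R i) = L i - Vpt z R (R i) :=
      extendFrom_eq (dense_off_ax (R i)) (hnl i)
    rw [h1]
    ring
  -- decay
  have hdec : ∀ ε : ℝ, 0 < ε → ∃ r, ∀ x, r ≤ ‖x‖ → |K x| < ε := by
    intro ε hε
    obtain ⟨N, hN⟩ := h.inf (ε / 4) (by positivity)
    have h1 := Vpt_inf z R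
    have h2 := h1.eventually (Metric.ball_mem_nhds (0 : ℝ) (show 0 < ε / 4 by positivity))
    rw [← Metric.cobounded_eq_cocompact, ← comap_norm_atTop, eventually_comap,
      eventually_atTop] at h2
    obtain ⟨M, hM⟩ := h2
    have hkey : ∀ x, x ∉ ax → max N M ≤ ‖x‖ → |K x| ≤ ε / 2 := by
      intro x hx hxr
      rw [hval x hx]
      have h3 := hN x hx ((le_max_left _ _).trans hxr)
      have h4 := hM ‖x‖ ((le_max_right _ _).trans hxr) x rfl
      rw [Real.dist_eq, sub_zero] at h4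
      calc |f x| ≤ |Y x| + |Vpt z R x| := abs_sub _ _
        _ ≤ ε / 2 := by linarith
    refine ⟨max N M + 1, fun x hx => ?_⟩
    by_contra hcon
    push Not at hcon
    -- an open set meeting the complement of the axis
    have hopen : IsOpen {y : X | max N M < ‖y‖ ∧ ε / 2 < |K y|} :=
      (isOpen_lt continuous_const continuous_norm).inter
        (isOpen_lt continuous_const hcont.abs)
    obtain ⟨y, hy, hya⟩ := dense_off_ax.inter_open_nonempty _ hopen
      ⟨x, by linarith, by linarith⟩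
    have := hkey y hya hy.1.le
    linarith [hy.2]
  have hbdd : ∃ B, ∀ x, |K x| ≤ B := by
    obtain ⟨r, hr⟩ := hdec 1 one_pos
    obtain ⟨B, hB⟩ := (isCompact_closedBall (0 : X) r).exists_bound_of_continuousOn
      hcont.continuousOn
    refine ⟨max B 1, fun x => ?_⟩
    rcases le_or_gt r ‖x‖ with hx | hx
    · exact (hr x hx).le.trans (le_max_right _ _)
    · exact (hB x (mem_closedBall_zero_iff.mpr hx.le)).trans (le_max_left _ _)
  -- gradient
  have hev : ∀ x, x ∉ ax → K =ᶠ[𝓝 x] f := fun x hx => by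
    filter_upwards [nhds_off hx] with y hy using hval y hy
  have hVlip : ∀ x, x ∉ ax → LipAt (Vpt z R) x := fun x hx =>
    lipAt_off (R := R) (fun y hy => hasGradientAt_Vpt z R hy)
      (fun y hy => gVpt_continuousAt z hy) x (hoff hx)
  have hlip : ∀ x, x ∉ ax → LipAt K x := fun x hx =>
    ((h.lip x hx).sub (hVlip x hx)).congr (hev x hx).symm
  have hgrad : ∀ᵐ x : X, HasGradientAt K (Y' x - gVpt z R x) x := by
    filter_upwards [h.grad, ae_off_ax] with x hx hxa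
    have h1 := hx.hasFDerivAt.sub (hasGradientAt_Vpt z R (hoff hxa)).hasFDerivAt
    rw [← map_sub] at h1
    exact HasFDerivAt.congr_of_eventuallyEq h1 (hev x hxa)
  have hmeas : AEStronglyMeasurable (fun x => Y' x - gVpt z R x) volume := by
    refine (measurable_gradient K).aestronglyMeasurable.congr ?_
    filter_upwards [hgrad] with x hx
    exact hx.gradient
  -- integrability
  obtain ⟨C₁, N₁, hN₁, h1⟩ := h.inf'
  obtain ⟨C₂, N₂, hC₂, hN₂, h2⟩ := gVpt_far z R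
  set N : ℝ := max N₁ N₂ with hN
  have hN1 : 1 ≤ N := hN₁.trans (le_max_left _ _)
  set C : ℝ := |C₁| + C₂ with hC
  have hC0 : 0 ≤ C := by positivity
  have hfar : ∀ x, x ∉ ax → N ≤ ‖x‖ → ‖Y' x - gVpt z R x‖ ≤ C * (‖x‖ ^ 2)⁻¹ := by
    intro x hx hxN
    have h3 := h1 x hx ((le_max_left _ _).trans hxN)
    have h4 := h2 x ((le_max_right _ _).trans hxN)
    calc ‖Y' x - gVpt z R x‖ ≤ ‖Y' x‖ + ‖gVpt z R x‖ := norm_sub_le _ _
      _ ≤ |C₁| * (‖x‖ ^ 2)⁻¹ + C₂ * (‖x‖ ^ 2)⁻¹ := add_le_add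
          (h3.trans (mul_le_mul_of_nonneg_right (le_abs_self _) (by positivity))) h4
      _ = C * (‖x‖ ^ 2)⁻¹ := by rw [hC]; ring
  obtain ⟨B, hB⟩ := h.bd_compact (isCompact_closedBall (0 : X) (N + 1))
  have hB' : ∀ᵐ x : X, x ∈ ball (0 : X) (N + 1) → ‖Y' x - gVpt z R x‖ ≤ |B| * Bw R x := by
    filter_upwards [hB] with x hx hxb
    refine (hx (ball_subset_closedBall hxb)).trans ?_
    exact mul_le_mul_of_nonneg_right (le_abs_self B) (zero_le_one.trans (Bw_ge_one R x))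
  have hsplit : ∀ g : X → ℝ, IntegrableOn g (ball 0 (N + 1)) →
      IntegrableOn g {x : X | N ≤ ‖x‖} → Integrable g := by
    intro g hg1 hg2
    rw [← integrableOn_univ]
    refine (hg1.union hg2).mono_set fun x _ => ?_
    rcases lt_or_ge ‖x‖ (N + 1) with hx | hx
    · exact Or.inl (mem_ball_zero_iff.mpr hx)
    · exact Or.inr (show N ≤ ‖x‖ by linarith)
  have hsq : Integrable fun x => ‖Y' x - gVpt z R x‖ ^ 2 := by
    refine hsplit _ ?_ ?_
    · refine ((Bw_sq_int R (N + 1)).const_mul (|B| ^ 2)).mono' (hmeas.norm.pow 2).restrict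
        ((ae_restrict_iff' measurableSet_ball).2 ?_)
      filter_upwards [hB'] with x hx hxb
      rw [Real.norm_of_nonneg (by positivity), ← mul_pow]
      exact pow_le_pow_left₀ (norm_nonneg _) (hx hxb) 2
    · refine far_int (C := C ^ 2) hN1 (hmeas.norm.pow 2) fun x hx hxN => ?_
      rw [abs_of_nonneg (by positivity)]
      have h3 := pow_le_pow_left₀ (norm_nonneg _) (hfar x hx hxN) 2
      refine h3.trans (le_of_eq ?_)
      rw [mul_pow, inv_pow, ← pow_mul]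
  refine ⟨⟨hbdd, hdec, hcont, hlip, hgrad, hsq⟩, fun i => ?_, fun x hx => ?_, fun x hx => ?_,
    hpole⟩
  · have hm : AEStronglyMeasurable (fun x => (‖x - R i‖ ^ 2)⁻¹ * ‖Y' x - gVpt z R x‖) volume :=
      ((measurable_norm.comp (measurable_id.sub_const (R i))).pow_const
        2).inv.aestronglyMeasurable.mul hmeas.norm
    refine hsplit _ ?_ ?_
    · refine ((Bw_inv_int R i (N + 1)).const_mul |B|).mono' hm.restrict
        ((ae_restrict_iff' measurableSet_ball).2 ?_)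
      filter_upwards [hB'] with x hx hxb
      rw [Real.norm_of_nonneg (by positivity)]
      calc (‖x - R i‖ ^ 2)⁻¹ * ‖Y' x - gVpt z R x‖
          ≤ (‖x - R i‖ ^ 2)⁻¹ * (|B| * Bw R x) :=
            mul_le_mul_of_nonneg_left (hx hxb) (by positivity)
        _ = |B| * ((‖x - R i‖ ^ 2)⁻¹ * Bw R x) := by ring
    · -- far away
      set N' : ℝ := max N (2 * ‖R i‖ + 1) with hN'
      have hN'1 : 1 ≤ N' := hN1.trans (le_max_left _ _)
      have hg1 : IntegrableOn (fun x => (‖x - R i‖ ^ 2)⁻¹ * ‖Y' x - gVpt z R x‖)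
          {x : X | N' ≤ ‖x‖} := by
        refine far_int (C := 4 * C) hN'1 hm fun x hx hxN => ?_
        rw [abs_of_nonneg (by positivity)]
        have hx1 : 0 < ‖x‖ := by linarith
        have h3 := hfar x hx ((le_max_left _ _).trans hxN)
        have h4 : 2 * ‖R i‖ + 1 ≤ ‖x‖ := (le_max_right _ _).trans hxN
        have h5 : ‖x‖ / 2 ≤ ‖x - R i‖ := by
          have := norm_sub_norm_le x (R i)
          linarith
        have h6 : (‖x - R i‖ ^ 2)⁻¹ ≤ 4 * (‖x‖ ^ 2)⁻¹ := by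
          calc (‖x - R i‖ ^ 2)⁻¹ ≤ ((‖x‖ / 2) ^ 2)⁻¹ :=
                inv_anti₀ (by positivity) (pow_le_pow_left₀ (by positivity) h5 2)
            _ = 4 * (‖x‖ ^ 2)⁻¹ := by field_simp; norm_num
        calc (‖x - R i‖ ^ 2)⁻¹ * ‖Y' x - gVpt z R x‖
            ≤ (4 * (‖x‖ ^ 2)⁻¹) * (C * (‖x‖ ^ 2)⁻¹) :=
              mul_le_mul h6 h3 (norm_nonneg _) (by positivity)
          _ = 4 * C * (‖x‖ ^ 4)⁻¹ := by
              have : (‖x‖ ^ 4)⁻¹ = (‖x‖ ^ 2)⁻¹ * (‖x‖ ^ 2)⁻¹ := by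
                rw [← mul_inv, ← pow_add]
              rw [this]; ring
      -- the shell in between
      obtain ⟨B₂, hB₂⟩ := h.bd_compact (isCompact_closedBall (0 : X) (N' + 1))
      have hg2 : IntegrableOn (fun x => (‖x - R i‖ ^ 2)⁻¹ * ‖Y' x - gVpt z R x‖)
          (ball 0 (N' + 1)) := by
        refine ((Bw_inv_int R i (N' + 1)).const_mul |B₂|).mono' hm.restrict
          ((ae_restrict_iff' measurableSet_ball).2 ?_)
        filter_upwards [hB₂] with x hx hxb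
        rw [Real.norm_of_nonneg (by positivity)]
        calc (‖x - R i‖ ^ 2)⁻¹ * ‖Y' x - gVpt z R x‖
            ≤ (‖x - R i‖ ^ 2)⁻¹ * (|B₂| * Bw R x) := by
              refine mul_le_mul_of_nonneg_left ((hx (ball_subset_closedBall hxb)).trans
                (mul_le_mul_of_nonneg_right (le_abs_self B₂)
                  (zero_le_one.trans (Bw_ge_one R x)))) (by positivity)
          _ = |B₂| * ((‖x - R i‖ ^ 2)⁻¹ * Bw R x) := by ring
      refine (hg2.union hg1).mono_set fun x _ => ?_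
      rcases lt_or_ge ‖x‖ (N' + 1) with hx | hx
      · exact Or.inl (mem_ball_zero_iff.mpr hx)
      · exact Or.inr (show N' ≤ ‖x‖ by linarith)
  · rw [hval x hx]
    simp only [hf]
    ring
  · exact add_sub_cancel _ _

end gen

/-! ### the trial `p (r² + τ)` of a solution -/

end Pool.Agent.TF.Col
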