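import Mathlib
import Pool.Agent.Lib.MP_9cf0c9_mp.Tr.ColAxis36
import Pool.Agent.Lib.MP_9cf0c9_mp.Tr.ColInf74
import Pool.Agent.Lib.MP_9cf0c9_mp.Tr.FarB74
import Pool.Agent.Lib.MP_9cf0c9_mp.Tr.FluxInf74
/-! Collinear nuclei: pointwise bounds of `p`, `∇p`, `p ∇c` far from the nuclei (module C). -/

set_option autoImplicit false

set_option linter.unusedSectionVars false

set_option linter.unusedVariables false

set_option linter.style.haveILetI false

namespace Pool.Agent.TF.Grd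
end Pool.Agent.TF.Grd

namespace Pool.Agent.TF.Col

open MeasureTheory Set Metric Filter Topology

open scoped ENNReal NNReal RealInnerProductSpace Gradient

open Pool.Agent.TF.Grd

variable {ι : Type*} [Fintype ι]

variable {φ₀ : ℝ} {z : ι → ℝ} {R : ι → X} {ρ : X → ℝ} {H : X → X →L[ℝ] X} {lo hi : ℝ}

theorem abs_inner_clm_le (A : X →L[ℝ] X) {u v : X} (hu : ‖u‖ = 1) (hv : ‖v‖ = 1) :
    |⟪A u, v⟫| ≤ ‖A‖ := by
  refine (abs_real_inner_le_norm _ _).trans ?_
  rw [hv, mul_one]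
  exact (A.le_opNorm u).trans (by rw [hu, mul_one])

/-- pointwise bounds of the derivatives of `p` from bounds of `H`; `y` is the foot of `x` -/
theorem Dat.ht_p'_le (D : Dat φ₀ z R ρ H lo hi) {x : X} (hx : x ∉ Col.ax) :
    pf z R ρ x ≤ ‖H x‖ ∧ ht x * ‖pf' z R ρ H x‖ ≤ 3 * ‖H x‖ ∧
      ((∀ i, foot x ≠ R i) → ht x * ‖pf' z R ρ H x‖ ≤ 3 * ‖H x - H (foot x)‖) := by
  have hs := ht_pos hx
  have hes : ‖es x‖ = 1 := norm_es hx
  have hp : 0 < pf z R ρ x := D.ax.pos x hx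
  obtain ⟨b, hb, hb1, hb2⟩ := exists_unit_orth e1 (es x)
  have hbb : ⟪b, b⟫ = 1 := by rw [real_inner_self_eq_norm_sq, hb, one_pow]
  have hphi := D.H_phi hx hb1 hb2
  have hpb : ⟪H x b, b⟫ = -pf z R ρ x := by
    rw [hphi, inner_neg_left, real_inner_smul_left, hbb, mul_one]
  have h1 : ht x * ‖pf' z R ρ H x‖ ≤ |ht x * px z R ρ H x| + |ht x * ps z R ρ H x| := by
    rw [D.p'_eq hx, abs_mul, abs_mul, abs_of_pos hs, ← mul_add]
    refine mul_le_mul_of_nonneg_left ?_ hs.le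
    refine (norm_add_le _ _).trans ?_
    rw [norm_smul, norm_smul, norm_e1, hes, mul_one, mul_one, Real.norm_eq_abs,
      Real.norm_eq_abs]
  refine ⟨?_, ?_, fun hyR => ?_⟩
  · have := abs_inner_clm_le (H x) hb hb
    rw [hpb, abs_neg, abs_of_pos hp] at this
    exact this
  · have hps : |ht x * ps z R ρ H x| ≤ 2 * ‖H x‖ := by
      have e : ht x * ps z R ρ H x = ⟪H x b, b⟫ - ⟪H x (es x), es x⟫ := by
        rw [hpb, D.H_es_es hx]
        ring
      rw [e]
      have g1 := abs_inner_clm_le (H x) hb hb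
      have g2 := abs_inner_clm_le (H x) hes hes
      have g3 := abs_sub ⟪H x b, b⟫ ⟪H x (es x), es x⟫
      linarith
    have hpx : |ht x * px z R ρ H x| ≤ ‖H x‖ := by
      have e : ht x * px z R ρ H x = -⟪H x e1, es x⟫ := by
        rw [D.H_e1_es hx]
        ring
      rw [e, abs_neg]
      exact abs_inner_clm_le (H x) norm_e1 hes
    linarith
  · have hya : foot x ∈ Col.ax := foot_mem x
    have hps : |ht x * ps z R ρ H x| ≤ 2 * ‖H x - H (foot x)‖ := by
      have e : ht x * ps z R ρ H x = ⟪(H x - H (foot x)) b, b⟫ -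
          ⟪(H x - H (foot x)) (es x), es x⟫ := by
        have a1 : ⟪H (foot x) b, b⟫ = -p0 H (foot x) := by
          rw [D.axis_eig hya hyR hb1, inner_neg_left, real_inner_smul_left, hbb, mul_one]
        have a2 : ⟪H (foot x) (es x), es x⟫ = -p0 H (foot x) := by
          rw [D.axis_eig hya hyR (inner_e1_es x), inner_neg_left, real_inner_smul_left,
            inner_es_self hx, mul_one]
        rw [sub_apply, sub_apply, inner_sub_left,
          inner_sub_left, hpb, D.H_es_es hx, a1, a2]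
        ring
      rw [e]
      have g1 := abs_inner_clm_le (H x - H (foot x)) hb hb
      have g2 := abs_inner_clm_le (H x - H (foot x)) hes hes
      have g3 := abs_sub ⟪(H x - H (foot x)) b, b⟫ ⟪(H x - H (foot x)) (es x), es x⟫
      linarith
    have hpx : |ht x * px z R ρ H x| ≤ ‖H x - H (foot x)‖ := by
      have e : ht x * px z R ρ H x = -⟪(H x - H (foot x)) e1, es x⟫ := by
        rw [sub_apply, inner_sub_left, D.H_e1_es hx,
          D.axis_e1 hya hyR (inner_e1_es x)]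
        ring
      rw [e, abs_neg]
      exact abs_inner_clm_le (H x - H (foot x)) norm_e1 hes
    linarith

/-- **(C)** the bounds far from the nuclei -/
theorem Dat.farB (D : Dat φ₀ z R ρ H lo hi) : ∃ C N : ℝ, FarB φ₀ z R ρ H C N := by
  obtain ⟨C, N, hC, hN, hbig, hrho, hfar⟩ := col_inf D.hz R D.hφ D.hρ D.heq D.hs
  set A : ℝ := 1 + |lo| + |hi| with hA
  have hA1 : 1 ≤ A := by
    have h1 := abs_nonneg lo
    have h2 := abs_nonneg hi
    linarith
  have hCA : C ≤ (6 * A + 2) * C := le_mul_of_one_le_left hC (by linarith)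
  have h6C : 6 * C ≤ (6 * A + 2) * C := mul_le_mul_of_nonneg_right (by linarith) hC
  have key : ∀ x, x ∉ Col.ax → max N 1 ≤ ‖x‖ → pf z R ρ x ≤ C * (‖x‖ ^ 3)⁻¹ ∧
      ‖pf' z R ρ H x‖ ≤ 6 * C * (‖x‖ ^ 4)⁻¹ := by
    intro x hx hxN
    have hx1 : 1 ≤ ‖x‖ := (le_max_right _ _).trans hxN
    have h0 : 0 < ‖x‖ := by linarith
    obtain ⟨-, hH, hy⟩ := hfar x ((le_max_left _ _).trans hxN)
    obtain ⟨k1, k2, k3⟩ := D.ht_p'_le hx
    have hs := ht_pos hx
    refine ⟨k1.trans hH, ?_⟩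
    have h7 : ht x * ‖pf' z R ρ H x‖ ≤ ht x * (6 * C * (‖x‖ ^ 4)⁻¹) := by
      by_cases hc : ht x ≤ ‖x‖ / 2
      · obtain ⟨hyR, -, -, hL⟩ := hy (foot x) (by rw [norm_sub_rev, norm_sub_foot]; exact hc)
        rw [norm_sub_foot] at hL
        refine (k3 hyR).trans ?_
        have p4 : 0 ≤ C * ht x * (‖x‖ ^ 4)⁻¹ := by positivity
        nlinarith
      · have hc' : ‖x‖ ≤ 2 * ht x := by linarith [not_le.mp hc]
        refine k2.trans ?_
        have e3 : (‖x‖ ^ 3)⁻¹ = ‖x‖ * (‖x‖ ^ 4)⁻¹ := by field_simp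
        calc 3 * ‖H x‖ ≤ 3 * (C * (‖x‖ ^ 3)⁻¹) := by linarith
          _ = 3 * C * (‖x‖ ^ 4)⁻¹ * ‖x‖ := by rw [e3]; ring
          _ ≤ 3 * C * (‖x‖ ^ 4)⁻¹ * (2 * ht x) := mul_le_mul_of_nonneg_left hc' (by positivity)
          _ = _ := by ring
    exact le_of_mul_le_mul_left h7 hs
  refine ⟨(6 * A + 2) * C, max N 1, ?_⟩
  refine ⟨by positivity, le_max_right _ _, fun i => (hbig i).trans_le (le_max_left _ _),
    fun x hx => hrho x ((le_max_left _ _).trans hx), fun x hx => ?_, fun x hx => ?_,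
    fun x hx hxN => ?_, fun x hx hxN => ?_, fun x hx hxN => ?_⟩
  · exact (hfar x ((le_max_left _ _).trans hx)).1.trans
      (mul_le_mul_of_nonneg_right hCA (by positivity))
  · exact (hfar x ((le_max_left _ _).trans hx)).2.1.trans
      (mul_le_mul_of_nonneg_right hCA (by positivity))
  · exact (key x hx hxN).1.trans (mul_le_mul_of_nonneg_right hCA (by positivity))
  · exact (key x hx hxN).2.trans (mul_le_mul_of_nonneg_right h6C (by positivity))
  · have hx1 : 1 ≤ ‖x‖ := (le_max_right _ _).trans hxN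
    have h0 : 0 < ‖x‖ := by linarith
    obtain ⟨k1, k2⟩ := key x hx hxN
    have hH := (hfar x ((le_max_left _ _).trans hxN)).2.1
    have hp0 := (D.ax.pos x hx).le
    have hz := D.abs_zt hx hx1
    rw [← hA] at hz
    have e : pf z R ρ x * ‖cf' z R ρ H x‖ = ‖pf z R ρ x • cf' z R ρ H x‖ := by
      rw [norm_smul, Real.norm_of_nonneg hp0]
    rw [e, D.pc' hx]
    refine norm_add₃_le.trans ?_
    have g1 : ‖zt z R ρ x • pf' z R ρ H x‖ ≤ 6 * A * C * (‖x‖ ^ 3)⁻¹ := by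
      rw [norm_smul, Real.norm_eq_abs]
      calc |zt z R ρ x| * ‖pf' z R ρ H x‖ ≤ (A * ‖x‖) * (6 * C * (‖x‖ ^ 4)⁻¹) := by gcongr
        _ = _ := by field_simp
    have g2 : ‖pf z R ρ x • e1‖ ≤ C * (‖x‖ ^ 3)⁻¹ := by
      rw [norm_smul, norm_e1, mul_one, Real.norm_of_nonneg hp0]
      exact k1
    have g3 : ‖H x e1‖ ≤ C * (‖x‖ ^ 3)⁻¹ :=
      ((H x).le_opNorm e1).trans (by rw [norm_e1, mul_one]; exact hH)
    calc _ ≤ 6 * A * C * (‖x‖ ^ 3)⁻¹ + C * (‖x‖ ^ 3)⁻¹ + C * (‖x‖ ^ 3)⁻¹ :=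
          add_le_add (add_le_add g1 g2) g3
      _ = _ := by ring

end Pool.Agent.TF.Col
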