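import Mathlib
import Pool.Agent.Lib.MP_9cf0c9_mp.Tr.Col58E
import Pool.Agent.Lib.MP_9cf0c9_mp.Tr.Far74
import Pool.Agent.Lib.MP_9cf0c9_mp.Tr.HalfDip48
import Pool.Agent.Lib.MP_9cf0c9_mp.Tr.TrialN
/-! Two nuclei: the trial `X - D e`, `X` the dilation about the nucleus `R 0`, `e` the function
of the half space of the nucleus `R 1`, is an admissible trial. -/

set_option autoImplicit false

set_option linter.unusedSectionVars false

set_option linter.unusedVariables false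

namespace Pool.Agent.TF.Grd
end Pool.Agent.TF.Grd

namespace Pool.Agent.TF.Col

open MeasureTheory Set Metric Filter Topology

open scoped ENNReal NNReal RealInnerProductSpace Gradient

open Pool.Agent.TF.Grd

section sol

variable {ι : Type*} [Fintype ι]

variable {φ₀ : ℝ} {z : ι → ℝ} {R : ι → X} {ρ : X → ℝ} {H : X → X →L[ℝ] X} {lo hi : ℝ}

/-! ### the dilation derivative -/

/-- the dilation derivative about its own nucleus -/
theorem Dat.near_Xa (D : Dat φ₀ z R ρ H lo hi) (hz : ∀ i, 0 < z i) (hR : Function.Injective R)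
    (i : ι) : ∃ B δ : ℝ, 0 ≤ B ∧ 0 < δ ∧ ∀ x ∈ ball (R i) δ, x ≠ R i →
      |Xa z R ρ (R i) x - z i * ‖x - R i‖⁻¹| ≤ B * ‖x - R i‖ ^ (1 / 4 : ℝ) ∧
      ‖Xa' z R ρ H (R i) x - gVpt z R x‖ ≤ 2 * B * (1 + (‖x - R i‖⁻¹) ^ (3 / 4 : ℝ)) := by
  obtain ⟨B, η, hB, hη, hη1, hn⟩ := Dis.near_data hz hR D.hφ D.hρ D.heq D.hs i
  refine ⟨B, η, hB, hη, fun x hx hxi => ?_⟩
  have hr0 : 0 < ‖x - R i‖ := norm_pos_iff.mpr (sub_ne_zero.mpr hxi)
  rw [mem_ball_iff_norm] at hx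
  obtain ⟨-, hN, hg⟩ := hn x hr0 hx
  obtain ⟨q4, q3, q7⟩ := quarter_pow hr0
  obtain ⟨n, hndef⟩ : ∃ n : X, n = x - R i := ⟨_, rfl⟩
  rw [← hndef] at hN hg q4 q3 q7 hr0 ⊢
  obtain ⟨b, hb⟩ : ∃ b : ℝ, b = ‖n‖ ^ (1 / 4 : ℝ) := ⟨_, rfl⟩
  rw [← hb] at hN q4 q3 q7 ⊢
  obtain ⟨b0, b1, hn4, hv, hT⟩ := hN
  obtain ⟨v, hvdef⟩ : ∃ v : X, v = psi' z R ρ x := ⟨_, rfl⟩
  rw [← hvdef] at hv
  have e1' : Xa z R ρ (R i) x = -⟪v, n⟫ := by rw [hvdef, hndef]; rfl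
  have e2' : Xa' z R ρ H (R i) x = -(v + H x n) := by rw [hvdef, hndef]; rfl
  obtain ⟨E, hE⟩ : ∃ E : X, E = v + (z i * (‖n‖ ^ 3)⁻¹) • n := ⟨_, rfl⟩
  obtain ⟨F, hF⟩ : ∃ F : X, F = H x n - z i • hP 0 n n := ⟨_, rfl⟩
  obtain ⟨G, hG⟩ : ∃ G : X, G = gVpt z R x + (z i * (‖n‖ ^ 3)⁻¹) • n := ⟨_, rfl⟩
  rw [← hE] at hv
  rw [← hG] at hg
  have hF1 := hT n
  rw [← hF, hn4] at hF1
  have hF2 : ‖F‖ ≤ B * (b ^ 3)⁻¹ := by
    refine hF1.trans (le_of_eq ?_)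
    field_simp
  have hPn : hP 0 n n = (2 * (‖n‖ ^ 3)⁻¹) • n := by
    rw [hP_apply, sub_zero, real_inner_self_eq_norm_sq]
    have h1 : 3 * (‖n‖ ^ 5)⁻¹ * ‖n‖ ^ 2 = 3 * (‖n‖ ^ 3)⁻¹ := by field_simp
    rw [h1]
    module
  constructor
  · have h1 : -⟪v, n⟫ - z i * ‖n‖⁻¹ = -⟪E, n⟫ := by
      rw [hE, inner_add_left, real_inner_smul_left, real_inner_self_eq_norm_sq]
      field_simp
      ring
    rw [e1', h1, abs_neg]
    calc |⟪E, n⟫| ≤ ‖E‖ * ‖n‖ := abs_real_inner_le_norm _ _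
      _ ≤ (B * (b ^ 3)⁻¹) * b ^ 4 := by
          rw [hn4]
          exact mul_le_mul_of_nonneg_right hv (by positivity)
      _ = B * b := by field_simp
  · have h1 : -(v + H x n) - gVpt z R x = -(E + F + G) := by
      have h2 : H x n = F + z i • hP 0 n n := by rw [hF]; abel
      rw [h2, hPn, hE, hG]
      module
    rw [e2', h1, norm_neg, ← q3]
    calc ‖E + F + G‖ ≤ ‖E‖ + ‖F‖ + ‖G‖ := (norm_add_le _ _).trans
          (add_le_add (norm_add_le _ _) le_rfl)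
      _ ≤ B * (b ^ 3)⁻¹ + B * (b ^ 3)⁻¹ + B := add_le_add (add_le_add hv hF2) hg
      _ ≤ 2 * B * (1 + (b ^ 3)⁻¹) := by
          nlinarith

/-- the field and its derivative are continuous off the nuclei, the axis included -/
theorem Dat.cont_psi' (D : Dat φ₀ z R ρ H lo hi) {x : X} (hx : ∀ j, x ≠ R j) :
    ContinuousAt (psi' z R ρ) x := (D.hs.deriv x hx).continuousAt

theorem Dat.cont_Xa (D : Dat φ₀ z R ρ H lo hi) (a : X) {x : X} (hx : ∀ j, x ≠ R j) :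
    ContinuousAt (Xa z R ρ a) x :=
  ((D.cont_psi' hx).inner (continuousAt_id.sub continuousAt_const)).neg

theorem Dat.cont_Xa' (D : Dat φ₀ z R ρ H lo hi) (a : X) {x : X} (hx : ∀ j, x ≠ R j) :
    ContinuousAt (Xa' z R ρ H a) x :=
  ((D.cont_psi' hx).add ((D.hs.contAt hx).clm_apply
    (continuousAt_id.sub continuousAt_const))).neg

theorem Dat.lim_Xa (D : Dat φ₀ z R ρ H lo hi) (hz : ∀ i, 0 < z i) (hR : Function.Injective R)
    (i : ι) : Tendsto (fun x => Xa z R ρ (R i) x - z i * ‖x - R i‖⁻¹) (𝓝[Col.axᶜ] R i)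
      (𝓝 0) := by
  obtain ⟨B, δ, hB, hδ, hb⟩ := D.near_Xa hz hR i
  rw [tendsto_zero_iff_abs_tendsto_zero]
  have h2 : Tendsto (fun x : X => B * ‖x - R i‖ ^ (1 / 4 : ℝ)) (𝓝[Col.axᶜ] R i) (𝓝 0) := by
    have h3 : Continuous fun x : X => B * ‖x - R i‖ ^ (1 / 4 : ℝ) :=
      continuous_const.mul ((by fun_prop : Continuous fun x : X => ‖x - R i‖).rpow_const
        fun x => Or.inr (by norm_num))
    have h4 := (h3.tendsto (R i)).mono_left (nhdsWithin_le_nhds (s := Col.axᶜ))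
    rwa [sub_self, norm_zero, Real.zero_rpow (by norm_num), mul_zero] at h4
  refine squeeze_zero' (Eventually.of_forall fun x => abs_nonneg _) ?_ h2
  filter_upwards [self_mem_nhdsWithin, mem_nhdsWithin_of_mem_nhds (ball_mem_nhds (R i) hδ)]
    with x hx hxb
  exact (hb x hxb (D.off hx i)).1

/-- change of the centre -/
theorem Xa_shift (z : ι → ℝ) (R : ι → X) (ρ : X → ℝ) {a b : X} {d : ℝ} (h : b = a + d • e1)
    (x : X) : Xa z R ρ a x = Xa z R ρ b x + d * E1 z R ρ x := by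
  have h1 : x - a = (x - b) + d • e1 := by rw [h]; abel
  unfold Xa E1
  rw [h1, inner_add_right, real_inner_smul_right]
  ring

theorem Xa'_shift (z : ι → ℝ) (R : ι → X) (ρ : X → ℝ) (H : X → X →L[ℝ] X) {a b : X} {d : ℝ}
    (h : b = a + d • e1) (x : X) :
    Xa' z R ρ H a x = Xa' z R ρ H b x + d • -(H x e1) := by
  have h1 : x - a = (x - b) + d • e1 := by rw [h]; abel
  unfold Xa'
  rw [h1, map_add, map_smul]
  module

/-- the dilation derivative far away -/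
theorem Dat.far_Xa (D : Dat φ₀ z R ρ H lo hi) (a : X) : ∃ C N : ℝ, 0 ≤ C ∧ 1 ≤ N ∧
    ∀ x, N ≤ ‖x‖ → |Xa z R ρ a x| ≤ C * ‖x‖⁻¹ ∧ ‖Xa' z R ρ H a x‖ ≤ C * (‖x‖ ^ 2)⁻¹ := by
  obtain ⟨C, N, F⟩ := D.farB
  have hC := F.C0
  refine ⟨C * (2 + ‖a‖), N, by positivity, F.N0, fun x hx => ?_⟩
  have hx1 : 1 ≤ ‖x‖ := F.N0.trans hx
  have hx0 : 0 < ‖x‖ := by linarith
  have h1 : ‖x - a‖ ≤ (1 + ‖a‖) * ‖x‖ := by
    have := norm_sub_le x a
    have := norm_nonneg a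
    nlinarith
  have hE := F.E x hx
  have hH := F.Hb x hx
  constructor
  · unfold Xa
    rw [abs_neg]
    calc |⟪psi' z R ρ x, x - a⟫| ≤ ‖psi' z R ρ x‖ * ‖x - a‖ := abs_real_inner_le_norm _ _
      _ ≤ (C * (‖x‖ ^ 2)⁻¹) * ((1 + ‖a‖) * ‖x‖) :=
          mul_le_mul hE h1 (norm_nonneg _) (by positivity)
      _ = C * (1 + ‖a‖) * ‖x‖⁻¹ := by field_simp
      _ ≤ C * (2 + ‖a‖) * ‖x‖⁻¹ := by
          have : 0 ≤ ‖x‖⁻¹ := by positivity
          gcongr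
          norm_num
  · unfold Xa'
    rw [norm_neg]
    calc ‖psi' z R ρ x + H x (x - a)‖ ≤ ‖psi' z R ρ x‖ + ‖H x‖ * ‖x - a‖ :=
          (norm_add_le _ _).trans (add_le_add le_rfl ((H x).le_opNorm _))
      _ ≤ C * (‖x‖ ^ 2)⁻¹ + (C * (‖x‖ ^ 3)⁻¹) * ((1 + ‖a‖) * ‖x‖) :=
          add_le_add hE (mul_le_mul hH h1 (norm_nonneg _) (by positivity))
      _ = C * (2 + ‖a‖) * (‖x‖ ^ 2)⁻¹ := by
          field_simp
          ring

end sol

/-! ### two nuclei -/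

end Pool.Agent.TF.Col
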