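import Mathlib
import Pool.Agent.Lib.MP_9cf0c9_mp.Tr.ColFinalL36
import Pool.Agent.Lib.MP_9cf0c9_mp.Tr.HalfDip48
/-! Two nuclei: the trial `X - D e` for a general function `e` with the singularity of
`E₁ = -∂₁ψ` at the right nucleus: exact criterion
`∫ e (Γe - Δe) + 4π z ∂₁(E₁ - e)(b) ≤ 8π z q(b)`, with no regularity on the axis. -/

set_option autoImplicit false

set_option linter.unusedSectionVars false

set_option linter.unusedVariables false

set_option linter.style.haveILetI false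

namespace Pool.Agent.TF.Grd
end Pool.Agent.TF.Grd

namespace Pool.Agent
end Pool.Agent

namespace Pool.Agent.TF.Col

open MeasureTheory Set Metric Filter Topology

open scoped ENNReal NNReal RealInnerProductSpace Gradient

open Pool.Agent.TF.Grd

/-! ### certificates with errors at the nuclei -/

section cert

variable {ι : Type*} [Fintype ι]

variable {φ₀ : ℝ} {z : ι → ℝ} {R : ι → X} {ρ : X → ℝ} {H : X → X →L[ℝ] X} {lo hi : ℝ}

/-- a certificate with the errors `c` at the nuclei (of any sign) and the error density `e`;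
only the total error counts -/
structure CertN (φ₀ : ℝ) (z : ι → ℝ) (R : ι → X) (ρ : X → ℝ) (Y : X → ℝ) (Y' : X → X)
    (L : ι → ℝ) (η : ℝ) (c : ι → ℝ) (J : X → X) (d e : X → ℝ) : Prop where
  wdl : WDL J d
  int : Integrable e
  tot : (∫ x, e x) + ∑ i, c i ≤ η
  axb : AxB R J
  dens : ∀ᵐ x : X, d x ≤ Fd φ₀ z R ρ Y Y' x + e x
  nuc : ∀ i, ∀ δ : ℝ, 0 < δ → ∀ᶠ ε in 𝓝[>] (0 : ℝ),
    -∫ x, ⟪J x, Flux.gcut ε (x - R i)⟫ ≤ 8 * Real.pi * (z i * L i) + c i + δ
  inf : ∀ δ : ℝ, 0 < δ → ∀ᶠ N in atTop, ∫ x, ⟪J x, Flux.gcut N x⟫ ≤ δ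

/-- **a certificate gives a lower bound of the second variation** -/
theorem Vtr_ge_certN (hz : ∀ i, 0 ≤ z i) (hR : Function.Injective R) (hφ : 0 < φ₀)
    (hρ : TC ρ) (heq : ∀ x, ρ x = tf (Vpt z R x - pot ρ x - φ₀))
    {Y : X → ℝ} {Y' : X → X} {L : ι → ℝ} {K : X → ℝ} {K' : X → X} (hK : TrYL z R Y Y' L K K')
    {η : ℝ} {c : ι → ℝ} {J : X → X} {d e : X → ℝ}
    (hJ : CertN φ₀ z R ρ Y Y' L η c J d e) :
    -((4 * Real.pi)⁻¹ * η) ≤
      Vtr φ₀ z R ρ K ((8 * Real.pi)⁻¹ * ∫ x, ‖K' x‖ ^ 2) := by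
  have hpi := Real.pi_pos
  set m : ℝ := (4 * Real.pi)⁻¹ with hm
  have hm0 : 0 < m := by positivity
  have hmm : m * (4 * Real.pi) = 1 := by rw [hm]; field_simp
  have hflux : ∀ (G : X → X), ∫ x, ⟪m • J x, G x⟫ = m * ∫ x, ⟪J x, G x⟫ := by
    intro G
    rw [← integral_const_mul]
    simp_rw [real_inner_smul_left]
  have h := Vtr_ge_WDL (J := fun x => m • J x) (d := fun x => m * d x) (e := fun x => m * e x)
    (c := fun i => m * c i) hz hR hφ hρ heq hK.tr hK.hI (hJ.wdl.const_smul m)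
    (hJ.int.const_mul m) (hJ.axb.smul m) ?_ ?_ ?_
  · refine le_trans ?_ h
    rw [integral_const_mul, ← Finset.mul_sum]
    have h1 := mul_le_mul_of_nonneg_left hJ.tot hm0.le
    linarith
  · filter_upwards [hJ.dens, hK.val, hK.grad] with x hx hv hg
    have h1 := mul_le_mul_of_nonneg_left hx hm0.le
    refine h1.trans (le_of_eq ?_)
    unfold Fd Fcal psi'
    rw [hv, hg]
    have e1 : psi φ₀ z R ρ x = Vpt z R x - pot ρ x - φ₀ := rfl
    rw [e1, ← hm]
    linear_combination (4 * ρ x * Y x - gam (Vpt z R x - pot ρ x - φ₀) * Y x ^ 2) * hmm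
  · intro i δ hδ
    filter_upwards [hJ.nuc i (4 * Real.pi * δ) (by positivity)] with ε hε
    rw [hflux]
    have h1 := mul_le_mul_of_nonneg_left hε hm0.le
    rw [hK.pole i]
    have e2 : m * (8 * Real.pi * (z i * L i)) = 2 * z i * L i := by
      linear_combination (2 * z i * L i) * hmm
    have e3 : m * (4 * Real.pi * δ) = δ := by linear_combination δ * hmm
    rw [mul_add, mul_add, e2, e3] at h1
    linarith
  · intro δ hδ
    have h1 := hJ.inf (4 * Real.pi * δ) (by positivity)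
    filter_upwards [h1] with N hN
    rw [hflux]
    have h2 := mul_le_mul_of_nonneg_left hN hm0.le
    refine h2.trans (le_of_eq ?_)
    linear_combination δ * hmm

theorem sqrt_bd_sq {C u : ℝ} (hC : 0 ≤ C) (hu0 : 0 ≤ u) (hu : 1 ≤ u) :
    (C * (1 + u)) ^ 2 ≤ 4 * C ^ 2 * u ^ 2 := by
  have h1 : C * (1 + u) ≤ 2 * C * u := by nlinarith
  have h2 : 0 ≤ C * (1 + u) := by positivity
  nlinarith [pow_le_pow_left₀ h2 h1 2]

end cert

/-! ### two nuclei -/

end Pool.Agent.TF.Col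

namespace Pool.Agent.Lib.MP_9cf0c9_mp

open MeasureTheory Set Filter Topology Pool.Agent

open scoped RealInnerProductSpace

end Pool.Agent.Lib.MP_9cf0c9_mp
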