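import Mathlib
import Pool.Agent.Lib.MP_9cf0c9_mp.Tr.NucD
/-! Collinear nuclei: the flux of the current `JE` of the trial `X - D e` (dilation about the
point `t e₁`) out of a nucleus `R i` with `(R i).fst = t + d`, when `g = E₁ - e` is differentiable
there. -/

set_option autoImplicit false

set_option linter.unusedSectionVars false

set_option linter.unusedVariables false

namespace Pool.Agent.TF.Grd
end Pool.Agent.TF.Grd

namespace Pool.Agent.TF.Col

open MeasureTheory Set Metric Filter Topology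

open scoped ENNReal NNReal RealInnerProductSpace Gradient

open Pool.Agent.TF.Grd

/-! ### weights -/

variable {ι : Type*} [Fintype ι]

variable {φ₀ : ℝ} {z : ι → ℝ} {R : ι → X} {ρ : X → ℝ} {H : X → X →L[ℝ] X} {lo hi : ℝ}

/-! ### the Hessian in the frame of a point of the axis -/

theorem Dat.H_frame (D : Dat φ₀ z R ρ H lo hi) (t : ℝ) {x : X} (hx : x ∉ Col.ax) (v : X) :
    H x v = ⟪qf' z R ρ H t x, v⟫ • e1 - ⟪pf' z R ρ H x, v⟫ • (x - t • e1) -
      pf z R ρ x • v := by
  have h1 := D.derivP hx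
  have h2 : psi' z R ρ =ᶠ[𝓝 x] fun y => qf z R ρ t y • e1 - pf z R ρ y • (y - t • e1) := by
    filter_upwards [isOpen_off_ax.mem_nhds hx] with y hy
    exact D.psi'_q t hy
  have h3 := ((D.c1_q t).grad x hx).hasFDerivAt
  have h4 := (D.c1_p.grad x hx).hasFDerivAt
  have h5 := (h3.smul_const e1).sub (h4.smul ((hasFDerivAt_id x).sub_const (t • e1)))
  have h6 := (h5.congr_of_eventuallyEq h2).unique h1
  rw [← h6]
  simp only [sub_apply, ContinuousLinearMap.smulRight_apply, add_apply,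
    smul_apply, InnerProductSpace.toDual_apply_apply,
    ContinuousLinearMap.id_apply, id]
  abel

theorem Dat.H_e1 (D : Dat φ₀ z R ρ H lo hi) (t : ℝ) {x : X} (hx : x ∉ Col.ax) :
    H x e1 = qf' z R ρ H t x - (x.fst - t) • pf' z R ρ H x - pf z R ρ x • e1 := by
  refine ext_inner_right ℝ fun v => ?_
  rw [D.hs.symm x (D.off hx) e1 v, D.H_frame t hx v]
  have h1 : ⟪e1, x - t • e1⟫ = x.fst - t := by
    rw [inner_sub_right, real_inner_smul_right, inner_e1_self, real_inner_comm, inner_e1]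
    ring
  simp only [inner_sub_left, inner_sub_right (𝕜 := ℝ) e1, real_inner_smul_left,
    real_inner_smul_right, inner_e1_self] at h1 ⊢
  rw [h1]
  ring

theorem Dat.H_y (D : Dat φ₀ z R ρ H lo hi) (t : ℝ) {x : X} (hx : x ∉ Col.ax) :
    H x (x - t • e1) = (x.fst - t) • qf' z R ρ H t x -
      ((x.fst - t) ^ 2 + ht x ^ 2) • pf' z R ρ H x - pf z R ρ x • (x - t • e1) := by
  refine ext_inner_right ℝ fun v => ?_
  rw [D.hs.symm x (D.off hx) (x - t • e1) v, D.H_frame t hx v]
  have h1 : ⟪x - t • e1, e1⟫ = x.fst - t := by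
    rw [inner_sub_left, real_inner_smul_left, inner_e1_self, inner_e1]
    ring
  have h2 : ⟪x - t • e1, x - t • e1⟫ = (x.fst - t) ^ 2 + ht x ^ 2 := by
    rw [real_inner_self_eq_norm_sq, norm_sub_e1_sq]
  generalize x - t • e1 = y at h1 h2 ⊢
  rw [inner_sub_right, inner_sub_right, real_inner_smul_right, real_inner_smul_right,
    real_inner_smul_right, inner_sub_left, inner_sub_left, real_inner_smul_left,
    real_inner_smul_left, real_inner_smul_left, h1, h2]
  ring

/-- the part of the current which is divergence free: in the frame of the nucleus it is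
`s² (p ∇q - q ∇p)` -/
theorem Dat.force_current (D : Dat φ₀ z R ρ H lo hi) (t : ℝ) {x : X} (hx : x ∉ Col.ax) :
    (-⟪psi' z R ρ x, e1⟫) • (-(psi' z R ρ x + H x (x - t • e1))) -
      (-⟪psi' z R ρ x, x - t • e1⟫) • (-(H x e1)) -
      (2 : ℝ) • (⟪psi' z R ρ x, e1⟫ • psi' z R ρ x - (1 / 2 * ‖psi' z R ρ x‖ ^ 2) • e1) =
    (ht x ^ 2 * pf z R ρ x ^ 2) • cf' z R ρ H x := by
  rw [D.H_y t hx, D.H_e1 t hx, mul_smul (ht x ^ 2), p2c' z R ρ H t x]
  have h1 : ⟪x - t • e1, e1⟫ = x.fst - t := by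
    rw [inner_sub_left, real_inner_smul_left, inner_e1_self, inner_e1]
    ring
  have h2 : ⟪x - t • e1, x - t • e1⟫ = (x.fst - t) ^ 2 + ht x ^ 2 := by
    rw [real_inner_self_eq_norm_sq, norm_sub_e1_sq]
  have hψ := D.psi'_q t hx
  generalize x - t • e1 = y at h1 h2 hψ ⊢
  generalize qf z R ρ t x = q at hψ ⊢
  generalize pf z R ρ x = p at hψ ⊢
  have h3 : ⟪e1, y⟫ = x.fst - t := by rw [real_inner_comm, h1]
  have g1 : ⟪psi' z R ρ x, e1⟫ = q - p * (x.fst - t) := by
    rw [hψ, inner_sub_left, real_inner_smul_left, real_inner_smul_left, inner_e1_self, h1]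
    ring
  have g2 : ⟪psi' z R ρ x, y⟫ = q * (x.fst - t) - p * ((x.fst - t) ^ 2 + ht x ^ 2) := by
    rw [hψ, inner_sub_left, real_inner_smul_left, real_inner_smul_left, h2, h3]
  have g3 : ‖psi' z R ρ x‖ ^ 2 = q ^ 2 - 2 * p * q * (x.fst - t) +
      p ^ 2 * ((x.fst - t) ^ 2 + ht x ^ 2) := by
    rw [← real_inner_self_eq_norm_sq, hψ]
    rw [inner_sub_left, inner_sub_right, inner_sub_right]
    simp only [real_inner_smul_left, real_inner_smul_right, inner_e1_self]
    rw [h1, h2, h3]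
    ring
  rw [g1, g2, g3, hψ]
  module

/-! ### the flux -/

end Pool.Agent.TF.Col
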