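import Mathlib
import Pool.Agent.Lib.MP_9cf0c9_mp.Tr.ColW
/-! Collinear nuclei: the fluxes of the currents `Jt` and `NH` out of a nucleus. -/

set_option autoImplicit false

set_option linter.unusedSectionVars false

set_option linter.unusedVariables false

namespace Pool.Agent.TF.Grd
end Pool.Agent.TF.Grd

namespace Pool.Agent.TF.Col

open MeasureTheory Set Metric Filter Topology

open scoped ENNReal NNReal RealInnerProductSpace Gradient

open Pool.Agent.TF.Grd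

variable {ι : Type*} [Fintype ι]

variable {φ₀ : ℝ} {z : ι → ℝ} {R : ι → X} {ρ : X → ℝ} {H : X → X →L[ℝ] X} {lo hi : ℝ}

/-! ### elementary estimates -/

/-! ### the current `NH` -/

/-- from the punctured filter to a ball -/
theorem ball_of_off {a : X} {P : X → Prop} (h : ∀ᶠ x in 𝓝[axᶜ] a, P x) :
    ∃ δ : ℝ, 0 < δ ∧ ∀ x ∈ ball a δ, x ∉ ax → P x := by
  rw [eventually_nhdsWithin_iff, Metric.eventually_nhds_iff_ball] at h
  obtain ⟨δ, hδ, h⟩ := h
  exact ⟨δ, hδ, fun x hx hxa => h x hx hxa⟩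

/-- `r² ⟪J, y / r⟫` for a field close to a radial one -/
theorem radial_split {a x : X} (h0 : 0 < ‖x - a‖) (J : X) (k : ℝ) :
    |‖x - a‖ ^ 2 * ⟪J, ‖x - a‖⁻¹ • (x - a)⟫ - k * ‖x - a‖ ^ 3| ≤
      ‖x - a‖ ^ 2 * ‖J - k • (x - a)‖ := by
  have e1 : ‖x - a‖ ^ 2 * ⟪J, ‖x - a‖⁻¹ • (x - a)⟫ - k * ‖x - a‖ ^ 3 =
      ‖x - a‖ ^ 2 * ⟪J - k • (x - a), ‖x - a‖⁻¹ • (x - a)⟫ := by
    rw [inner_sub_left, real_inner_smul_left, real_inner_smul_right (x - a),
      real_inner_self_eq_norm_sq]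
    field_simp
  rw [e1, abs_mul, abs_of_nonneg (by positivity : 0 ≤ ‖x - a‖ ^ 2)]
  refine mul_le_mul_of_nonneg_left ((abs_real_inner_le_norm _ _).trans ?_) (by positivity)
  rw [norm_smul, norm_inv, norm_norm, inv_mul_cancel₀ h0.ne', mul_one]

/-! ### the current `Jt` -/

/-! ### final forms -/

end Pool.Agent.TF.Col
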