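import Mathlib
import Pool.Agent.Lib.MP_9cf0c9_mp.Tr.Col83
/-! Fluxes through small shells about a point of the axis: the radial weight, its second moments,
and the comparison lemma for fields which are singular at the axis. -/

set_option autoImplicit false

set_option linter.unusedSectionVars false

set_option linter.unusedVariables false

set_option linter.style.haveILetI false

namespace Pool.Agent.TF.Grd
end Pool.Agent.TF.Grd

namespace Pool.Agent.TF.Col

open MeasureTheory Set Metric Filter Topology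

open scoped ENNReal NNReal RealInnerProductSpace Gradient

open Pool.Agent.TF.Grd

/-- the weight of the shell -/
noncomputable def shW (ε : ℝ) (y : X) : ℝ :=
  (Ioo ε (2 * ε)).indicator (fun t => ε⁻¹ * (t ^ 2)⁻¹) ‖y‖

theorem shW_nonneg {ε : ℝ} (hε : 0 < ε) (y : X) : 0 ≤ shW ε y :=
  indicator_nonneg (fun t _ => by positivity) _

theorem shW_out {ε : ℝ} {y : X} (h : ‖y‖ ∉ Ioo ε (2 * ε)) : shW ε y = 0 :=
  indicator_of_notMem h _

theorem shW_in {ε : ℝ} {y : X} (h : ‖y‖ ∈ Ioo ε (2 * ε)) : shW ε y = ε⁻¹ * (‖y‖ ^ 2)⁻¹ :=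
  indicator_of_mem h _

theorem shW_int (a : X) {ε : ℝ} (hε : 0 < ε) :
    Integrable (fun x : X => shW ε (x - a)) ∧ ∫ x : X, shW ε (x - a) = 4 * Real.pi := by
  have h := Flux.shell_weight (V := X) a hε (4 * Real.pi)
  have e : (fun x : X => (Ioo ε (2 * ε)).indicator
      (fun s => ε⁻¹ * (4 * Real.pi / (4 * Real.pi * s ^ 2))) ‖x - a‖) =
      fun x => shW ε (x - a) := by
    funext x
    unfold shW
    congr 1
    funext s
    have := Real.pi_pos
    by_cases hs : s = 0
    · rw [hs]; simp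
    · field_simp
  rw [e] at h
  exact h

/-- the flux integrand in terms of the weight -/
theorem inner_gcut_eq (J : X → X) {ε : ℝ} (hε : 0 < ε) (x a : X) :
    -⟪J x, Flux.gcut ε (x - a)⟫ =
      shW ε (x - a) * (‖x - a‖ ^ 2 * ⟪J x, ‖x - a‖⁻¹ • (x - a)⟫) := by
  unfold Flux.gcut
  by_cases h : ‖x - a‖ ∈ Ioo ε (2 * ε)
  · have h0 : 0 < ‖x - a‖ := hε.trans h.1
    rw [indicator_of_mem h, shW_in h, real_inner_smul_right]
    field_simp
  · rw [indicator_of_notMem h, shW_out h, zero_smul, inner_zero_right, neg_zero, zero_mul]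

/-! ### second moments of the weight -/

theorem snd_sub_ax {a : X} (ha : a ∈ ax) (x : X) : (x - a).snd = x.snd := by
  rw [WithLp.sub_snd, mem_ax.mp ha, sub_zero]

theorem ht_sub_ax {a : X} (ha : a ∈ ax) (x : X) : ht (x - a) = ht x := by
  unfold ht
  rw [snd_sub_ax ha]

theorem norm_sq_ht (y : X) : ‖y‖ ^ 2 = ⟪y, e1⟫ ^ 2 + ht y ^ 2 := by
  have h1 := norm_mk_sq y.fst y.snd
  rw [mk_eta] at h1
  rw [h1, inner_e1]
  rfl

/-! ### the inverse of the distance to the axis -/

/-- the integral of the inverse distance to the axis over the unit ball -/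
noncomputable def htI : ℝ := ∫ x in ball (0 : X) 1, (ht x)⁻¹

theorem ht_smul (c : ℝ) (x : X) : ht (c • x) = |c| * ht x := by
  unfold ht
  rw [WithLp.smul_snd, norm_smul, Real.norm_eq_abs]

theorem inv_ht_ball {a : X} (ha : a ∈ ax) {r : ℝ} (hr : 0 < r) :
    IntegrableOn (fun x : X => (ht x)⁻¹) (ball a r) ∧
    ∫ x in ball a r, (ht x)⁻¹ = r ^ 2 * htI := by
  have h0 : IntegrableOn (fun x : X => (ht x)⁻¹) (ball a r) := by
    refine (inv_ht_integrableOn (‖a‖ + r)).mono_set fun x hx => ?_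
    rw [mem_ball_zero_iff]
    rw [mem_ball, dist_eq_norm] at hx
    have := norm_add_le (x - a) a
    rw [sub_add_cancel] at this
    linarith
  refine ⟨h0, ?_⟩
  -- shift
  have h1 : ∫ x in ball a r, (ht x)⁻¹ = ∫ x, (ball (0 : X) r).indicator (fun x => (ht x)⁻¹) x := by
    rw [← integral_indicator measurableSet_ball,
      ← integral_sub_right_eq_self (fun y : X => (ball (0 : X) r).indicator
        (fun x => (ht x)⁻¹) y) a]
    refine integral_congr_ae (Eventually.of_forall fun x => ?_)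
    simp only
    by_cases hx : x ∈ ball a r
    · rw [indicator_of_mem hx, indicator_of_mem (by
        rw [mem_ball_zero_iff, ← dist_eq_norm]; exact hx), ht_sub_ax ha]
    · rw [indicator_of_notMem hx, indicator_of_notMem (by
        rw [mem_ball_zero_iff, ← dist_eq_norm]; exact hx)]
  have h2 := Measure.integral_comp_smul (volume : Measure X)
    (fun x => (ball (0 : X) r).indicator (fun x => (ht x)⁻¹) x) r
  have h3 : (fun x : X => (ball (0 : X) r).indicator (fun x => (ht x)⁻¹) (r • x)) =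
      fun x => r⁻¹ * (ball (0 : X) 1).indicator (fun x => (ht x)⁻¹) x := by
    funext x
    by_cases hx : ‖x‖ < 1
    · rw [indicator_of_mem (by
        rw [mem_ball_zero_iff, norm_smul, Real.norm_of_nonneg hr.le]
        nlinarith), indicator_of_mem (by rw [mem_ball_zero_iff]; exact hx), ht_smul,
        abs_of_pos hr, mul_inv]
    · rw [indicator_of_notMem (by
        rw [mem_ball_zero_iff, norm_smul, Real.norm_of_nonneg hr.le]
        nlinarith), indicator_of_notMem (by rw [mem_ball_zero_iff]; exact hx), mul_zero]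
  have h4 : Module.finrank ℝ X = 3 := Fact.out
  simp only [h3, h4] at h2
  rw [integral_const_mul, integral_indicator measurableSet_ball] at h2
  change r⁻¹ * htI = _ at h2
  rw [abs_of_pos (by positivity), smul_eq_mul, ← h1] at h2
  generalize (∫ x in ball a r, (ht x)⁻¹) = I at h2 ⊢
  field_simp at h2
  linarith

/-- the weight against `r² / √ht` -/
theorem shW_sqrt {a : X} (ha : a ∈ ax) {ε : ℝ} (hε : 0 < ε) :
    Integrable (fun x : X => shW ε (x - a) * (‖x - a‖ ^ 2 * (√(ht x))⁻¹)) ∧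
    ∫ x : X, shW ε (x - a) * (‖x - a‖ ^ 2 * (√(ht x))⁻¹) ≤
      4 * htI * (ε * √(2 * ε)) := by
  obtain ⟨hb, hv⟩ := inv_ht_ball ha (r := 2 * ε) (by positivity)
  set G : X → ℝ := fun x => (ball a (2 * ε)).indicator
    (fun x => (ε⁻¹ * √(2 * ε)) * (ht x)⁻¹) x with hG
  have hGi : Integrable G := by
    rw [hG, integrable_indicator_iff measurableSet_ball]
    exact hb.const_mul _
  have hm : AEStronglyMeasurable
      (fun x : X => shW ε (x - a) * (‖x - a‖ ^ 2 * (√(ht x))⁻¹)) volume := by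
    refine (shW_int a hε).1.aestronglyMeasurable.mul ?_
    have h1 : Measurable fun x : X => (√(ht x))⁻¹ :=
      (ht_continuous.measurable.sqrt).inv
    have h2 : Measurable fun x : X => ‖x - a‖ ^ 2 := by fun_prop
    exact (h2.mul h1).aestronglyMeasurable
  have hle : ∀ x : X, shW ε (x - a) * (‖x - a‖ ^ 2 * (√(ht x))⁻¹) ≤ G x := by
    intro x
    by_cases h : ‖x - a‖ ∈ Ioo ε (2 * ε)
    · have h0 : 0 < ‖x - a‖ := hε.trans h.1
      simp only [hG]
      rw [indicator_of_mem (by rw [mem_ball, dist_eq_norm]; exact h.2), shW_in h]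
      have h1 : ε⁻¹ * (‖x - a‖ ^ 2)⁻¹ * (‖x - a‖ ^ 2 * (√(ht x))⁻¹) = ε⁻¹ * (√(ht x))⁻¹ := by
        field_simp
      rw [h1, mul_assoc]
      refine mul_le_mul_of_nonneg_left ?_ (by positivity)
      by_cases hx : ht x = 0
      · rw [hx]; simp
      · have h2 : 0 < ht x := lt_of_le_of_ne (ht_nonneg x) (Ne.symm hx)
        have h3 : ht x ≤ 2 * ε := by
          have h4 := norm_sq_ht (x - a)
          rw [ht_sub_ax ha] at h4
          have h5 : ht x ≤ ‖x - a‖ := by
            refine le_of_sq_le_sq ?_ h0.le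
            nlinarith [sq_nonneg ⟪x - a, e1⟫]
          linarith [h.2]
        have h4 : √(ht x) ≤ √(2 * ε) := Real.sqrt_le_sqrt h3
        have h5 : 0 < √(ht x) := Real.sqrt_pos.mpr h2
        have h6 : (ht x)⁻¹ = (√(ht x))⁻¹ * (√(ht x))⁻¹ := by
          rw [← mul_inv, Real.mul_self_sqrt h2.le]
        rw [h6, ← mul_assoc]
        refine le_mul_of_one_le_left (by positivity) ?_
        rw [← div_eq_mul_inv, le_div_iff₀ h5, one_mul]
        exact h4
    · rw [shW_out h, zero_mul]
      exact indicator_nonneg (fun y _ => mul_nonneg (by positivity)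
        (inv_nonneg.mpr (ht_nonneg y))) _
  have hi : Integrable (fun x : X => shW ε (x - a) * (‖x - a‖ ^ 2 * (√(ht x))⁻¹)) := by
    refine hGi.mono' hm (Eventually.of_forall fun x => ?_)
    rw [Real.norm_of_nonneg (mul_nonneg (shW_nonneg hε _) (by positivity))]
    exact hle x
  refine ⟨hi, (integral_mono hi hGi hle).trans (le_of_eq ?_)⟩
  simp only [hG]
  rw [integral_indicator measurableSet_ball, integral_const_mul, hv]
  field_simp
  ring

/-! ### the comparison lemma -/

/-- the flux of a field whose radial component is known up to a small error and up to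
`r² / √ht` -/
theorem near_flux {a : X} (ha : a ∈ ax) {J : X → X} (hJ : ContinuousOn J axᶜ) {m : X → ℝ}
    {I : ℝ} (hm : ∀ ε : ℝ, 0 < ε → Integrable (fun x : X => shW ε (x - a) * m x) ∧
      ∫ x : X, shW ε (x - a) * m x = I) {K : ℝ}
    (h : ∀ η : ℝ, 0 < η → ∃ δ : ℝ, 0 < δ ∧ ∀ x ∈ ball a δ, x ∉ ax →
      |‖x - a‖ ^ 2 * ⟪J x, ‖x - a‖⁻¹ • (x - a)⟫ - m x| ≤
        η + K * (‖x - a‖ ^ 2 * (√(ht x))⁻¹)) :
    ∀ η : ℝ, 0 < η → ∀ᶠ ε in 𝓝[>] (0 : ℝ),
      |-(∫ x, ⟪J x, Flux.gcut ε (x - a)⟫) - I| ≤ η := by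
  intro η hη
  have hpi := Real.pi_pos
  obtain ⟨δ, hδ, hδ'⟩ := h (η / (8 * Real.pi)) (by positivity)
  have hlim : Tendsto (fun ε : ℝ => |K| * (4 * htI * (ε * √(2 * ε)))) (𝓝[>] 0) (𝓝 0) := by
    have h1 : ContinuousAt (fun ε : ℝ => |K| * (4 * htI * (ε * √(2 * ε)))) 0 := by fun_prop
    have h2 := h1.tendsto
    simp only [mul_zero, Real.sqrt_zero] at h2
    exact h2.mono_left nhdsWithin_le_nhds
  filter_upwards [self_mem_nhdsWithin, hlim.eventually (gt_mem_nhds
    (show (0 : ℝ) < η / 2 by positivity)), nhdsWithin_le_nhds (gt_mem_nhds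
    (show (0 : ℝ) < δ / 2 by positivity))] with ε hε hK hεδ
  have hε0 : 0 < ε := hε
  obtain ⟨hmi, hmv⟩ := hm ε hε0
  obtain ⟨hwi, hwv⟩ := shW_int a hε0
  obtain ⟨hsi, hsv⟩ := shW_sqrt ha hε0
  -- pointwise
  have hpt : ∀ᵐ x : X, |-⟪J x, Flux.gcut ε (x - a)⟫ - shW ε (x - a) * m x| ≤
      η / (8 * Real.pi) * shW ε (x - a) +
        |K| * (shW ε (x - a) * (‖x - a‖ ^ 2 * (√(ht x))⁻¹)) := by
    filter_upwards [ae_off_ax] with x hx
    rw [inner_gcut_eq J hε0]
    by_cases hr : ‖x - a‖ ∈ Ioo ε (2 * ε)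
    · have h1 := hδ' x (by rw [mem_ball, dist_eq_norm]; linarith [hr.2]) hx
      have h0 := shW_nonneg hε0 (x - a)
      rw [← mul_sub, abs_mul, abs_of_nonneg h0]
      have h2 : K * (‖x - a‖ ^ 2 * (√(ht x))⁻¹) ≤ |K| * (‖x - a‖ ^ 2 * (√(ht x))⁻¹) :=
        mul_le_mul_of_nonneg_right (le_abs_self K) (by positivity)
      calc shW ε (x - a) * |‖x - a‖ ^ 2 * ⟪J x, ‖x - a‖⁻¹ • (x - a)⟫ - m x| ≤
          shW ε (x - a) * (η / (8 * Real.pi) + |K| * (‖x - a‖ ^ 2 * (√(ht x))⁻¹)) :=
            mul_le_mul_of_nonneg_left (h1.trans (by linarith)) h0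
        _ = _ := by ring
    · rw [shW_out hr]
      simp
  have hB : Integrable fun x => η / (8 * Real.pi) * shW ε (x - a) +
        |K| * (shW ε (x - a) * (‖x - a‖ ^ 2 * (√(ht x))⁻¹)) :=
    (hwi.const_mul _).add (hsi.const_mul _)
  have hJm : AEStronglyMeasurable (fun x => -⟪J x, Flux.gcut ε (x - a)⟫) volume :=
    ((off_ax_meas hJ).inner (((Flux.gcut_meas ε).comp (by fun_prop : Measurable fun x : X =>
      x - a)).aestronglyMeasurable)).neg
  have hdi : Integrable fun x => -⟪J x, Flux.gcut ε (x - a)⟫ - shW ε (x - a) * m x :=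
    hB.mono' (hJm.sub hmi.aestronglyMeasurable) (by
      filter_upwards [hpt] with x hx
      rw [Real.norm_eq_abs]
      exact hx)
  have hJi : Integrable fun x => -⟪J x, Flux.gcut ε (x - a)⟫ := by
    refine (hdi.add hmi).congr (Eventually.of_forall fun x => ?_)
    simp only [Pi.add_apply]
    ring
  rw [← integral_neg, ← hmv, ← integral_sub hJi hmi]
  refine (abs_integral_le_integral_abs).trans ((integral_mono_ae hdi.abs hB hpt).trans ?_)
  rw [integral_add (hwi.const_mul _) (hsi.const_mul _), integral_const_mul, integral_const_mul,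
    hwv]
  have h5 := mul_le_mul_of_nonneg_left hsv (abs_nonneg K)
  have h6 : η / (8 * Real.pi) * (4 * Real.pi) = η / 2 := by field_simp; ring
  rw [h6]
  linarith

end Pool.Agent.TF.Col
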