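import Mathlib
import Pool.Agent.Lib.MP_9cf0c9_mp.Tr.Col58E
import Pool.Agent.Lib.MP_9cf0c9_mp.Tr.ColAxis36
import Pool.Agent.Lib.MP_9cf0c9_mp.Tr.FluxNuc33
import Pool.Agent.Lib.MP_9cf0c9_mp.Tr.ShellNuc33
import Pool.Agent.Lib.MP_9cf0c9_mp.Tr.TrialN
/-! Collinear nuclei: the flux of the current `JE` of the trial `X - D e` out of the nucleus about
which the dilation is taken (`e` has a limit there). -/

set_option autoImplicit false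

set_option linter.unusedSectionVars false

set_option linter.unusedVariables false

namespace Pool.Agent.TF.Grd
end Pool.Agent.TF.Grd

namespace Pool.Agent.TF.Col

open MeasureTheory Set Metric Filter Topology

open scoped ENNReal NNReal RealInnerProductSpace Gradient

open Pool.Agent.TF.Grd

/-- the current without `e`, near the nucleus -/
theorem jet_self {q B b : ℝ} {n v : X} {T : X →L[ℝ] X} (h : NearD q B b n v T)
    (hq : 0 ≤ q) (hB : 0 ≤ B) :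
    b ^ 8 * ‖-(-⟪v, n⟫ • -(v + T n)) - (2 : ℝ) • (⟪v, n⟫ • v - (1 / 2 * ‖v‖ ^ 2) • n)‖ ≤
      5 * B * (q + B) * b ∧
    b ^ 8 * ‖-(v + T n) - (-(q * (‖n‖ ^ 3)⁻¹)) • n‖ ≤ 2 * B * b := by
  obtain ⟨b0, b1, hn, hv, hT⟩ := h
  have hn0 : 0 < ‖n‖ := by rw [hn]; positivity
  set E : X := v + (q * (‖n‖ ^ 3)⁻¹) • n with hE
  set F : X := T n - q • hP 0 n n with hF
  have hEn : ‖E‖ ≤ B * (b ^ 3)⁻¹ := hv
  have hFn : ‖F‖ ≤ B * (b ^ 3)⁻¹ := by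
    refine (hT n).trans (le_of_eq ?_)
    rw [hn]
    field_simp
  have hP0 : hP 0 n n = (2 * (‖n‖ ^ 3)⁻¹) • n := by
    rw [hP_apply, sub_zero, real_inner_self_eq_norm_sq, ← sub_smul]
    congr 1
    field_simp
    ring
  have hTn : T n = (2 * q * (‖n‖ ^ 3)⁻¹) • n + F := by
    rw [hF, hP0, smul_smul]
    module
  have hvn : v = E - (q * (‖n‖ ^ 3)⁻¹) • n := by rw [hE]; abel
  have hin : ⟪v, n⟫ = ⟪E, n⟫ - q * ‖n‖⁻¹ := by
    rw [hvn, inner_sub_left, real_inner_smul_left, real_inner_self_eq_norm_sq]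
    congr 1
    field_simp
  have hsq : ‖v‖ ^ 2 = ‖E‖ ^ 2 - 2 * (q * (‖n‖ ^ 3)⁻¹) * ⟪E, n⟫ + q ^ 2 * (‖n‖ ^ 4)⁻¹ := by
    rw [hvn, norm_sub_sq_real, real_inner_smul_right, norm_smul, Real.norm_of_nonneg
      (by positivity)]
    field_simp
  have hEi : |⟪E, n⟫| ≤ B * b := by
    refine (abs_real_inner_le_norm _ _).trans ?_
    calc ‖E‖ * ‖n‖ ≤ B * (b ^ 3)⁻¹ * b ^ 4 := by
          rw [hn]; exact mul_le_mul_of_nonneg_right hEn (by positivity)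
      _ = B * b := by field_simp
  have key1 : -(-⟪v, n⟫ • -(v + T n)) - (2 : ℝ) • (⟪v, n⟫ • v - (1 / 2 * ‖v‖ ^ 2) • n) =
      (q * ‖n‖⁻¹) • ((3 : ℝ) • E + F) - (q * (‖n‖ ^ 3)⁻¹ * ⟪E, n⟫) • n -
        ⟪E, n⟫ • ((3 : ℝ) • E + F) + (‖E‖ ^ 2) • n := by
    rw [hsq, hin, hTn]
    rw [hvn]
    have e1 : (‖n‖ ^ 4)⁻¹ = (‖n‖ ^ 3)⁻¹ * ‖n‖⁻¹ := by field_simp
    rw [e1]
    module
  have key2 : -(v + T n) - (-(q * (‖n‖ ^ 3)⁻¹)) • n = -(E + F) := by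
    rw [hTn]
    rw [hvn]
    module
  have h3 : ‖(3 : ℝ) • E + F‖ ≤ 4 * B * (b ^ 3)⁻¹ := by
    refine (norm_add_le _ _).trans ?_
    rw [norm_smul, Real.norm_of_nonneg (by norm_num : (0 : ℝ) ≤ 3)]
    linarith
  refine ⟨?_, ?_⟩
  · rw [key1]
    have t1 : ‖(q * ‖n‖⁻¹) • ((3 : ℝ) • E + F)‖ ≤ 4 * q * B * (b ^ 7)⁻¹ := by
      rw [norm_smul, Real.norm_of_nonneg (by positivity), hn]
      calc q * (b ^ 4)⁻¹ * ‖(3 : ℝ) • E + F‖ ≤ q * (b ^ 4)⁻¹ * (4 * B * (b ^ 3)⁻¹) :=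
            mul_le_mul_of_nonneg_left h3 (by positivity)
        _ = 4 * q * B * (b ^ 7)⁻¹ := by field_simp
    have t2 : ‖(q * (‖n‖ ^ 3)⁻¹ * ⟪E, n⟫) • n‖ ≤ q * B * (b ^ 7)⁻¹ := by
      rw [norm_smul, Real.norm_eq_abs, abs_mul, abs_of_nonneg
        (by positivity : 0 ≤ q * (‖n‖ ^ 3)⁻¹), hn]
      calc q * ((b ^ 4) ^ 3)⁻¹ * |⟪E, n⟫| * b ^ 4 ≤ q * ((b ^ 4) ^ 3)⁻¹ * (B * b) * b ^ 4 := by
            gcongr
        _ = q * B * (b ^ 7)⁻¹ := by field_simp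
    have t3 : ‖⟪E, n⟫ • ((3 : ℝ) • E + F)‖ ≤ 4 * B ^ 2 * (b ^ 2)⁻¹ := by
      rw [norm_smul, Real.norm_eq_abs]
      calc |⟪E, n⟫| * ‖(3 : ℝ) • E + F‖ ≤ B * b * (4 * B * (b ^ 3)⁻¹) := by gcongr
        _ = 4 * B ^ 2 * (b ^ 2)⁻¹ := by field_simp
    have t4 : ‖(‖E‖ ^ 2) • n‖ ≤ B ^ 2 * (b ^ 2)⁻¹ := by
      rw [norm_smul, Real.norm_of_nonneg (by positivity), hn]
      calc ‖E‖ ^ 2 * b ^ 4 ≤ (B * (b ^ 3)⁻¹) ^ 2 * b ^ 4 := by gcongr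
        _ = B ^ 2 * (b ^ 2)⁻¹ := by field_simp
    have t5 : ‖(q * ‖n‖⁻¹) • ((3 : ℝ) • E + F) - (q * (‖n‖ ^ 3)⁻¹ * ⟪E, n⟫) • n -
        ⟪E, n⟫ • ((3 : ℝ) • E + F) + (‖E‖ ^ 2) • n‖ ≤
        4 * q * B * (b ^ 7)⁻¹ + q * B * (b ^ 7)⁻¹ + 4 * B ^ 2 * (b ^ 2)⁻¹ +
          B ^ 2 * (b ^ 2)⁻¹ := by
      refine (norm_add_le _ _).trans (add_le_add ((norm_sub_le _ _).trans
        (add_le_add ((norm_sub_le _ _).trans (add_le_add t1 t2)) t3)) t4)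
    have b6 : b ^ 6 ≤ b := by
      calc b ^ 6 = b * b ^ 5 := by ring
        _ ≤ b * 1 := mul_le_mul_of_nonneg_left (pow_le_one₀ b0.le b1) b0.le
        _ = b := mul_one b
    calc b ^ 8 * _ ≤ b ^ 8 * (4 * q * B * (b ^ 7)⁻¹ + q * B * (b ^ 7)⁻¹ +
          4 * B ^ 2 * (b ^ 2)⁻¹ + B ^ 2 * (b ^ 2)⁻¹) :=
          mul_le_mul_of_nonneg_left t5 (by positivity)
      _ = 5 * q * B * b + 5 * B ^ 2 * b ^ 6 := by field_simp; ring
      _ ≤ 5 * q * B * b + 5 * B ^ 2 * b := by gcongr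
      _ = 5 * B * (q + B) * b := by ring
  · rw [key2, norm_neg]
    have b5 : b ^ 5 ≤ b := by
      calc b ^ 5 = b * b ^ 4 := by ring
        _ ≤ b * 1 := mul_le_mul_of_nonneg_left (pow_le_one₀ b0.le b1) b0.le
        _ = b := mul_one b
    calc b ^ 8 * ‖E + F‖ ≤ b ^ 8 * (B * (b ^ 3)⁻¹ + B * (b ^ 3)⁻¹) :=
          mul_le_mul_of_nonneg_left ((norm_add_le _ _).trans (add_le_add hEn hFn))
            (by positivity)
      _ = 2 * B * b ^ 5 := by field_simp; ring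
      _ ≤ 2 * B * b := by gcongr

variable {ι : Type*} [Fintype ι]

variable {φ₀ : ℝ} {z : ι → ℝ} {R : ι → X} {ρ : X → ℝ} {H : X → X →L[ℝ] X} {lo hi : ℝ}

/-- **the flux of `JE` out of the nucleus about which the dilation is taken** -/
theorem Dat.JE_flux_self (D : Dat φ₀ z R ρ H lo hi) (hz : ∀ i, 0 < z i)
    (hR : Function.Injective R) (i : ι) {d : ℝ} {e : X → ℝ} {e' : X → X}
    (hJ : ContinuousOn (JE z R ρ H (R i) d e e') Col.axᶜ) {e0 C : ℝ}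
    (he : Tendsto e (𝓝[Col.axᶜ] (R i)) (𝓝 e0))
    (he' : ∀ᶠ x in 𝓝[Col.axᶜ] (R i), ‖e' x‖ ≤ C * (‖x - R i‖⁻¹ + (√(ht x))⁻¹)) :
    ∀ η : ℝ, 0 < η → ∀ᶠ ε in 𝓝[>] (0 : ℝ),
      |-(∫ x, ⟪JE z R ρ H (R i) d e e' x, Flux.gcut ε (x - R i)⟫) -
        -(8 * Real.pi * d * z i * e0)| ≤ η := by
  have hRi : R i ∈ Col.ax := D.ax.on_axis i
  obtain ⟨B, δ, hB, hδ, hδ1, hN⟩ := Dis.near_data hz hR D.hφ D.hρ D.heq D.hs i
  have hm : ∀ ε : ℝ, 0 < ε → Integrable (fun x : X => shW ε (x - R i) * (-(2 * d * z i * e0))) ∧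
      ∫ x : X, shW ε (x - R i) * (-(2 * d * z i * e0)) = -(8 * Real.pi * d * z i * e0) := by
    intro ε hε
    obtain ⟨h1, h2⟩ := shW_int (R i) hε
    refine ⟨h1.mul_const _, ?_⟩
    rw [integral_mul_const, h2]
    ring
  set M : ℝ := |e0| + 1 with hM
  have hM0 : 0 < M := by positivity
  set K : ℝ := d ^ 2 * M * |C| with hK
  have hK0 : 0 ≤ K := by positivity
  set L : ℝ := 5 * B * (z i + B) + 2 * |d| * M * (2 * B) + K + 1 with hL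
  have hzi := hz i
  have hL0 : 0 < L := by positivity
  refine near_flux hRi hJ hm (K := K) fun η hη => ball_of_off ?_
  have h1 : ∀ᶠ x in 𝓝[Col.axᶜ] (R i), |e x - e0| ≤ min 1 (η / (2 * (2 * |d| * z i + 1))) := by
    have h2 := (tendsto_iff_norm_sub_tendsto_zero.mp he).eventually (gt_mem_nhds
      (show (0 : ℝ) < min 1 (η / (2 * (2 * |d| * z i + 1))) by positivity))
    filter_upwards [h2] with x hx
    exact hx.le
  have h2 : ∀ᶠ x in 𝓝[Col.axᶜ] (R i), ‖x - R i‖ < min δ ((η / (2 * L)) ^ 4) := by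
    have h3 : ball (R i) (min δ ((η / (2 * L)) ^ 4)) ∈ 𝓝[Col.axᶜ] (R i) :=
      mem_nhdsWithin_of_mem_nhds (ball_mem_nhds _ (by positivity))
    filter_upwards [h3] with x hx
    rwa [mem_ball, dist_eq_norm] at hx
  filter_upwards [h1, h2, he', self_mem_nhdsWithin] with x hex hrx he'x hx
  have hr0 : 0 < ‖x - R i‖ := norm_pos_iff.mpr (sub_ne_zero.mpr (D.off hx i))
  obtain ⟨-, hn, -⟩ := hN x hr0 (hrx.trans_le (min_le_left _ _))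
  obtain ⟨j1, j2⟩ := jet_self hn hzi.le hB
  obtain ⟨b, hb⟩ : ∃ b : ℝ, b = ‖x - R i‖ ^ (1 / 4 : ℝ) := ⟨_, rfl⟩
  have hrb : ‖x - R i‖ = b ^ 4 := by rw [hb]; exact hn.hn
  rw [← hb] at j1 j2
  have hb0 : 0 < b := by rw [hb]; exact hn.b0
  have hb1 : b ≤ 1 := by rw [hb]; exact hn.b1
  have hbs : b ≤ η / (2 * L) := by
    have h3 : b ^ 4 < (η / (2 * L)) ^ 4 := by
      rw [← hrb]
      exact hrx.trans_le (min_le_right _ _)
    exact (lt_of_pow_lt_pow_left₀ 4 (by positivity) h3).le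
  have hr2 : ‖x - R i‖ ^ 2 = b ^ 8 := by rw [hrb]; ring
  have heM : |e x| ≤ M := by
    have h3 := abs_sub_abs_le_abs_sub (e x) e0
    have h4 := hex.trans (min_le_left _ _)
    linarith
  have hs0 := ht_pos hx
  -- split
  have h3 := radial_split hr0 (JE z R ρ H (R i) d e e' x) (-(2 * d * z i * e x * (‖x - R i‖ ^ 3)⁻¹))
  have h4 : JE z R ρ H (R i) d e e' x - (-(2 * d * z i * e x * (‖x - R i‖ ^ 3)⁻¹)) • (x - R i) =
      (-(-⟪psi' z R ρ x, x - R i⟫ • -(psi' z R ρ x + H x (x - R i))) -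
        (2 : ℝ) • (⟪psi' z R ρ x, x - R i⟫ • psi' z R ρ x -
          (1 / 2 * ‖psi' z R ρ x‖ ^ 2) • (x - R i))) +
      (2 * d * e x) • (-(psi' z R ρ x + H x (x - R i)) -
        (-(z i * (‖x - R i‖ ^ 3)⁻¹)) • (x - R i)) - (d ^ 2 * e x) • e' x := by
    unfold JE Xa Xa' sta
    module
  have h5 : ‖x - R i‖ ^ 2 * ‖JE z R ρ H (R i) d e e' x -
      (-(2 * d * z i * e x * (‖x - R i‖ ^ 3)⁻¹)) • (x - R i)‖ ≤
      L * b + K * (‖x - R i‖ ^ 2 * (√(ht x))⁻¹) := by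
    rw [h4]
    have h6 : ∀ P Q S : X, b ^ 8 * ‖P + Q - S‖ ≤ b ^ 8 * ‖P‖ + b ^ 8 * ‖Q‖ + b ^ 8 * ‖S‖ := by
      intro P Q S
      have h7 : ‖P + Q - S‖ ≤ ‖P‖ + ‖Q‖ + ‖S‖ :=
        (norm_sub_le _ _).trans (add_le_add (norm_add_le _ _) le_rfl)
      have h8 := mul_le_mul_of_nonneg_left h7 (by positivity : 0 ≤ b ^ 8)
      linarith
    rw [hr2]
    refine (h6 _ _ _).trans ?_
    have h7 : b ^ 8 * ‖(2 * d * e x) • (-(psi' z R ρ x + H x (x - R i)) -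
        (-(z i * (‖x - R i‖ ^ 3)⁻¹)) • (x - R i))‖ ≤ 2 * |d| * M * (2 * B) * b := by
      rw [norm_smul, Real.norm_eq_abs, abs_mul, abs_mul, abs_of_pos (by norm_num : (0 : ℝ) < 2)]
      calc b ^ 8 * (2 * |d| * |e x| * ‖-(psi' z R ρ x + H x (x - R i)) -
            (-(z i * (‖x - R i‖ ^ 3)⁻¹)) • (x - R i)‖) = 2 * |d| * |e x| *
            (b ^ 8 * ‖-(psi' z R ρ x + H x (x - R i)) -
            (-(z i * (‖x - R i‖ ^ 3)⁻¹)) • (x - R i)‖) := by ring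
        _ ≤ 2 * |d| * M * (2 * B * b) := by gcongr
        _ = 2 * |d| * M * (2 * B) * b := by ring
    have h8 : b ^ 8 * ‖(d ^ 2 * e x) • e' x‖ ≤ K * b + K * (b ^ 8 * (√(ht x))⁻¹) := by
      rw [norm_smul, Real.norm_eq_abs, abs_mul, abs_of_nonneg (sq_nonneg d)]
      have h9 : ‖e' x‖ ≤ |C| * ((b ^ 4)⁻¹ + (√(ht x))⁻¹) := by
        rw [← hrb]
        exact he'x.trans (mul_le_mul_of_nonneg_right (le_abs_self C) (by positivity))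
      have b4 : b ^ 4 ≤ b := by
        calc b ^ 4 = b * b ^ 3 := by ring
          _ ≤ b * 1 := mul_le_mul_of_nonneg_left (pow_le_one₀ hb0.le hb1) hb0.le
          _ = b := mul_one b
      calc b ^ 8 * (d ^ 2 * |e x| * ‖e' x‖) ≤
            b ^ 8 * (d ^ 2 * M * (|C| * ((b ^ 4)⁻¹ + (√(ht x))⁻¹))) := by gcongr
        _ = K * b ^ 4 + K * (b ^ 8 * (√(ht x))⁻¹) := by
            rw [hK]
            have e8 : b ^ 8 * (b ^ 4)⁻¹ = b ^ 4 := by field_simp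
            linear_combination (d ^ 2 * M * |C|) * e8
        _ ≤ K * b + K * (b ^ 8 * (√(ht x))⁻¹) := by gcongr
    rw [hL]
    have h10 : 0 ≤ b := hb0.le
    linarith
  have h6 : |(-(2 * d * z i * e x * (‖x - R i‖ ^ 3)⁻¹)) * ‖x - R i‖ ^ 3 -
      (-(2 * d * z i * e0))| ≤ η / 2 := by
    have e1 : (-(2 * d * z i * e x * (‖x - R i‖ ^ 3)⁻¹)) * ‖x - R i‖ ^ 3 -
        (-(2 * d * z i * e0)) = -((2 * d * z i) * (e x - e0)) := by
      field_simp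
      ring
    rw [e1, abs_neg, abs_mul, abs_mul, abs_mul, abs_of_pos (by norm_num : (0 : ℝ) < 2),
      abs_of_pos hzi]
    have h7 := hex.trans (min_le_right _ _)
    have h9 : 0 ≤ 2 * |d| * z i := by positivity
    calc 2 * |d| * z i * |e x - e0| ≤ (2 * |d| * z i + 1) * (η / (2 * (2 * |d| * z i + 1))) := by
          gcongr
          linarith
      _ = η / 2 := by field_simp
  have h7 : |‖x - R i‖ ^ 2 * ⟪JE z R ρ H (R i) d e e' x, ‖x - R i‖⁻¹ • (x - R i)⟫ -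
      (-(2 * d * z i * e0))| ≤ (L * b + K * (‖x - R i‖ ^ 2 * (√(ht x))⁻¹)) + η / 2 :=
    (abs_sub_le _ ((-(2 * d * z i * e x * (‖x - R i‖ ^ 3)⁻¹)) * ‖x - R i‖ ^ 3) _).trans
      (add_le_add (h3.trans h5) h6)
  refine h7.trans ?_
  have h8 : L * b ≤ η / 2 := by
    calc L * b ≤ L * (η / (2 * L)) := mul_le_mul_of_nonneg_left hbs hL0.le
      _ = η / 2 := by field_simp
  linarith

/-- the same in the form used with `Dat.wdl_JE` -/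
theorem Dat.JE_flux_self' (D : Dat φ₀ z R ρ H lo hi) (hz : ∀ i, 0 < z i)
    (hR : Function.Injective R) (i : ι) {d : ℝ} {e : X → ℝ} {e' : X → X}
    (hJ : ContinuousOn (JE z R ρ H ((R i).fst • e1) d e e') Col.axᶜ) {e0 C : ℝ}
    (he : Tendsto e (𝓝[Col.axᶜ] (R i)) (𝓝 e0))
    (he' : ∀ᶠ x in 𝓝[Col.axᶜ] (R i), ‖e' x‖ ≤ C * (‖x - R i‖⁻¹ + (√(ht x))⁻¹)) :
    ∀ η : ℝ, 0 < η → ∀ᶠ ε in 𝓝[>] (0 : ℝ),
      |-(∫ x, ⟪JE z R ρ H ((R i).fst • e1) d e e' x, Flux.gcut ε (x - R i)⟫) -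
        -(8 * Real.pi * d * z i * e0)| ≤ η := by
  have h : (R i).fst • e1 = R i := fst_smul_of_ax (D.ax.on_axis i)
  rw [h] at hJ ⊢
  exact D.JE_flux_self hz hR i hJ he he'

end Pool.Agent.TF.Col
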