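import Mathlib
import Pool.Agent.Lib.MP_9cf0c9_mp.Tr.Col58E
import Pool.Agent.Lib.MP_9cf0c9_mp.Tr.FarB74
/-! The current `JE` of the trial `X - D e` has no flux at infinity (module E4). -/

set_option autoImplicit false

set_option linter.unusedSectionVars false

set_option linter.unusedVariables false

set_option linter.style.haveILetI false

namespace Pool.Agent.TF.Grd
end Pool.Agent.TF.Grd

namespace Pool.Agent.TF.Col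

open MeasureTheory Set Metric Filter Topology

open scoped ENNReal NNReal RealInnerProductSpace Gradient

open Pool.Agent.TF.Grd

variable {ι : Type*} [Fintype ι]

variable {φ₀ : ℝ} {z : ι → ℝ} {R : ι → X} {ρ : X → ℝ} {H : X → X →L[ℝ] X} {lo hi : ℝ}

variable {C N : ℝ}

theorem norm_sub_le_mul (a : X) {x : X} (h1 : 1 ≤ ‖x‖) : ‖x - a‖ ≤ (1 + ‖a‖) * ‖x‖ := by
  have h2 := norm_sub_le x a
  nlinarith [norm_nonneg a]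

theorem FarB.Xa_le (F : FarB φ₀ z R ρ H C N) (a : X) {x : X} (hxN : N ≤ ‖x‖) :
    |Xa z R ρ a x| ≤ C * (1 + ‖a‖) * ‖x‖⁻¹ := by
  have h1 : 1 ≤ ‖x‖ := F.N0.trans hxN
  have h0 : 0 < ‖x‖ := by linarith
  have hC := F.C0
  unfold Xa
  rw [abs_neg]
  calc |⟪psi' z R ρ x, x - a⟫| ≤ ‖psi' z R ρ x‖ * ‖x - a‖ := abs_real_inner_le_norm _ _
    _ ≤ (C * (‖x‖ ^ 2)⁻¹) * ((1 + ‖a‖) * ‖x‖) :=
        mul_le_mul (F.E x hxN) (norm_sub_le_mul a h1) (norm_nonneg _) (by positivity)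
    _ = _ := by field_simp

theorem FarB.Xa'_le (F : FarB φ₀ z R ρ H C N) (a : X) {x : X} (hxN : N ≤ ‖x‖) :
    ‖Xa' z R ρ H a x‖ ≤ C * (2 + ‖a‖) * (‖x‖ ^ 2)⁻¹ := by
  have h1 : 1 ≤ ‖x‖ := F.N0.trans hxN
  have h0 : 0 < ‖x‖ := by linarith
  have hC := F.C0
  unfold Xa'
  rw [norm_neg]
  have h2 : ‖H x (x - a)‖ ≤ (C * (‖x‖ ^ 3)⁻¹) * ((1 + ‖a‖) * ‖x‖) :=
    ((H x).le_opNorm _).trans
      (mul_le_mul (F.Hb x hxN) (norm_sub_le_mul a h1) (norm_nonneg _) (by positivity))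
  calc ‖psi' z R ρ x + H x (x - a)‖ ≤ ‖psi' z R ρ x‖ + ‖H x (x - a)‖ := norm_add_le _ _
    _ ≤ C * (‖x‖ ^ 2)⁻¹ + (C * (‖x‖ ^ 3)⁻¹) * ((1 + ‖a‖) * ‖x‖) := add_le_add (F.E x hxN) h2
    _ = _ := by field_simp; ring

theorem FarB.sta_le (F : FarB φ₀ z R ρ H C N) (a : X) {x : X} (hxN : N ≤ ‖x‖) :
    ‖sta z R ρ a x‖ ≤ 3 / 2 * C ^ 2 * (1 + ‖a‖) * (‖x‖ ^ 3)⁻¹ := by
  have h1 : 1 ≤ ‖x‖ := F.N0.trans hxN
  have h0 : 0 < ‖x‖ := by linarith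
  have hC := F.C0
  unfold sta
  have h2 := norm_sub_le_mul a h1
  have h3 := F.E x hxN
  have h4 : ‖⟪psi' z R ρ x, x - a⟫ • psi' z R ρ x‖ ≤ ‖psi' z R ρ x‖ ^ 2 * ‖x - a‖ := by
    rw [norm_smul, Real.norm_eq_abs]
    have h5 := mul_le_mul_of_nonneg_right (abs_real_inner_le_norm (psi' z R ρ x) (x - a))
      (norm_nonneg (psi' z R ρ x))
    calc _ ≤ _ := h5
      _ = _ := by ring
  have h6 : ‖(1 / 2 * ‖psi' z R ρ x‖ ^ 2) • (x - a)‖ = 1 / 2 * ‖psi' z R ρ x‖ ^ 2 * ‖x - a‖ := by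
    rw [norm_smul, Real.norm_of_nonneg (by positivity)]
  calc _ ≤ ‖⟪psi' z R ρ x, x - a⟫ • psi' z R ρ x‖ + ‖(1 / 2 * ‖psi' z R ρ x‖ ^ 2) • (x - a)‖ :=
        norm_sub_le _ _
    _ ≤ 3 / 2 * (‖psi' z R ρ x‖ ^ 2 * ‖x - a‖) := by rw [h6]; linarith
    _ ≤ 3 / 2 * ((C * (‖x‖ ^ 2)⁻¹) ^ 2 * ((1 + ‖a‖) * ‖x‖)) := by gcongr
    _ = _ := by field_simp

end Pool.Agent.TF.Col
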