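import Mathlib
import Pool.Agent.Lib.MP_9cf0c9_mp.Tr.FluxE74
import Pool.Agent.Lib.MP_9cf0c9_mp.Tr.HalfDip48
/-! Two nuclei: the trial `X - D e` for a general function `e` with the singularity of
`E₁ = -∂₁ψ` at the right nucleus and `e (Δe - Γe) ≥ 0`: half space dipole functions, the dipole
function of the whole space, explicit one-sided functions. -/

set_option autoImplicit false

set_option linter.unusedSectionVars false

set_option linter.unusedVariables false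

set_option linter.style.haveILetI false

namespace Pool.Agent.TF.Grd
end Pool.Agent.TF.Grd

namespace Pool.Agent
end Pool.Agent

namespace Pool.Agent.TF.Col

open MeasureTheory Set Metric Filter Topology

open scoped ENNReal NNReal RealInnerProductSpace Gradient

open Pool.Agent.TF.Grd

/-! ### the flux at infinity for functions `e` which decay only like `1 / r` -/

section far

variable {ι : Type*} [Fintype ι]

variable {φ₀ : ℝ} {z : ι → ℝ} {R : ι → X} {ρ : X → ℝ} {H : X → X →L[ℝ] X} {lo hi : ℝ}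

variable {C N : ℝ}

/-- far away the current is of size `r⁻³` -/
theorem FarB.JE_le1 (F : FarB φ₀ z R ρ H C N) (a : X) (d : ℝ) {e : X → ℝ} {e' : X → X}
    {Ce : ℝ} (hCe : 0 ≤ Ce) (he : ∀ x, x ∉ Col.ax → N ≤ ‖x‖ → |e x| ≤ Ce * ‖x‖⁻¹)
    (he' : ∀ x, x ∉ Col.ax → N ≤ ‖x‖ → ‖e' x‖ ≤ Ce * (‖x‖ ^ 2)⁻¹) :
    ∃ C' : ℝ, 0 ≤ C' ∧ ∀ x, x ∉ Col.ax → N ≤ ‖x‖ →
      ‖JE z R ρ H a d e e' x‖ ≤ C' * (‖x‖ ^ 3)⁻¹ := by
  have hC := F.C0
  refine ⟨2 * |d| * (Ce * (C * (2 + ‖a‖))) + C * (1 + ‖a‖) * (C * (2 + ‖a‖)) +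
    2 * (3 / 2 * C ^ 2 * (1 + ‖a‖)) + d ^ 2 * (Ce * Ce), by positivity, fun x hx hxN => ?_⟩
  have h1 : 1 ≤ ‖x‖ := F.N0.trans hxN
  have h0 : 0 < ‖x‖ := by linarith
  have g1 := F.Xa_le a hxN
  have g2 := F.Xa'_le a hxN
  have g3 := F.sta_le a hxN
  have g4 := he x hx hxN
  have g5 := he' x hx hxN
  have t1 : ‖(2 * d) • (e x • Xa' z R ρ H a x)‖ ≤
      2 * |d| * (Ce * (C * (2 + ‖a‖))) * (‖x‖ ^ 3)⁻¹ := by
    rw [norm_smul, norm_smul, Real.norm_eq_abs, Real.norm_eq_abs, abs_mul,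
      abs_of_pos (by norm_num : (0 : ℝ) < 2)]
    calc 2 * |d| * (|e x| * ‖Xa' z R ρ H a x‖)
        ≤ 2 * |d| * ((Ce * ‖x‖⁻¹) * (C * (2 + ‖a‖) * (‖x‖ ^ 2)⁻¹)) := by gcongr
      _ = _ := by field_simp
  have t2 : ‖Xa z R ρ a x • Xa' z R ρ H a x‖ ≤
      C * (1 + ‖a‖) * (C * (2 + ‖a‖)) * (‖x‖ ^ 3)⁻¹ := by
    rw [norm_smul, Real.norm_eq_abs]
    calc |Xa z R ρ a x| * ‖Xa' z R ρ H a x‖
        ≤ (C * (1 + ‖a‖) * ‖x‖⁻¹) * (C * (2 + ‖a‖) * (‖x‖ ^ 2)⁻¹) := by gcongr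
      _ = _ := by field_simp
  have t3 : ‖(2 : ℝ) • sta z R ρ a x‖ ≤ 2 * (3 / 2 * C ^ 2 * (1 + ‖a‖)) * (‖x‖ ^ 3)⁻¹ := by
    rw [norm_smul, Real.norm_eq_abs, abs_of_pos (by norm_num : (0 : ℝ) < 2)]
    linarith
  have t4 : ‖d ^ 2 • (e x • e' x)‖ ≤ d ^ 2 * (Ce * Ce) * (‖x‖ ^ 3)⁻¹ := by
    rw [norm_smul, norm_smul, Real.norm_of_nonneg (by positivity), Real.norm_eq_abs]
    calc d ^ 2 * (|e x| * ‖e' x‖)
        ≤ d ^ 2 * ((Ce * ‖x‖⁻¹) * (Ce * (‖x‖ ^ 2)⁻¹)) := by gcongr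
      _ = _ := by field_simp
  unfold JE
  have n1 := norm_sub_le ((2 * d) • (e x • Xa' z R ρ H a x) - Xa z R ρ a x • Xa' z R ρ H a x -
    (2 : ℝ) • sta z R ρ a x) (d ^ 2 • (e x • e' x))
  have n2 := norm_sub_le ((2 * d) • (e x • Xa' z R ρ H a x) - Xa z R ρ a x • Xa' z R ρ H a x)
    ((2 : ℝ) • sta z R ρ a x)
  have n3 := norm_sub_le ((2 * d) • (e x • Xa' z R ρ H a x)) (Xa z R ρ a x • Xa' z R ρ H a x)
  linarith

end far

/-! ### two nuclei -/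

end Pool.Agent.TF.Col

namespace Pool.Agent.Lib.MP_9cf0c9_mp

open MeasureTheory Set Filter Topology Pool.Agent

open scoped RealInnerProductSpace

end Pool.Agent.Lib.MP_9cf0c9_mp
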