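import Mathlib
import Pool.Agent.Lib.MP_9cf0c9_mp.Tr.ColFinalL36
import Pool.Agent.Lib.MP_9cf0c9_mp.Tr.Far74
import Pool.Agent.Lib.MP_9cf0c9_mp.Tr.NucD
/-! Two nuclei: bounds of the weights near the axis, near the nuclei and at infinity, and
comparison with the isolated ions. -/

set_option autoImplicit false

set_option linter.unusedSectionVars false

set_option linter.unusedVariables false

namespace Pool.Agent.TF.Grd
end Pool.Agent.TF.Grd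

namespace Pool.Agent.TF.Col

open MeasureTheory Set Metric Filter Topology

open scoped ENNReal NNReal RealInnerProductSpace Gradient

open Pool.Agent.TF.Grd

section gen

variable {ι : Type*} [Fintype ι]

variable {φ₀ : ℝ} {z : ι → ℝ} {R : ι → X} {ρ : X → ℝ} {H : X → X →L[ℝ] X} {lo hi : ℝ}

/-! ### near the axis -/

theorem Dat.abs_b_c (D : Dat φ₀ z R ρ H lo hi) (b : ℝ) {x : X} (hx : x ∉ Col.ax) :
    |b - cf z R ρ x| ≤ |b| + (|lo| + |hi|) :=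
  (abs_sub _ _).trans (add_le_add le_rfl (D.bdN_c x hx))

/-- pointwise bound of a weight -/
theorem Dat.abs_wt_le (D : Dat φ₀ z R ρ H lo hi) (a b : ℝ) {x : X} (hx : x ∉ Col.ax) :
    |wt z R ρ a b x| ≤ |(b - a)⁻¹| * (|b| + (|lo| + |hi|)) * pf z R ρ x := by
  have hp := D.ax.pos x hx
  unfold wt
  rw [abs_mul, abs_mul, abs_of_pos hp]
  calc |(b - a)⁻¹| * (pf z R ρ x * |b - cf z R ρ x|)
      ≤ |(b - a)⁻¹| * (pf z R ρ x * (|b| + (|lo| + |hi|))) := by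
        refine mul_le_mul_of_nonneg_left (mul_le_mul_of_nonneg_left (D.abs_b_c b hx) hp.le)
          (abs_nonneg _)
    _ = _ := by ring

/-- pointwise bound of the gradient of a weight -/
theorem Dat.norm_wt'_le (D : Dat φ₀ z R ρ H lo hi) (a b : ℝ) {x : X} (hx : x ∉ Col.ax) :
    ‖wt' z R ρ H a b x‖ ≤ |(b - a)⁻¹| * ((|b| + (|lo| + |hi|)) * ‖pf' z R ρ H x‖ +
      pf z R ρ x * ‖cf' z R ρ H x‖) := by
  have hp := D.ax.pos x hx
  unfold wt'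
  rw [norm_smul, Real.norm_eq_abs]
  refine mul_le_mul_of_nonneg_left ((norm_sub_le _ _).trans (add_le_add ?_ ?_)) (abs_nonneg _)
  · rw [norm_smul, Real.norm_eq_abs]
    exact mul_le_mul_of_nonneg_right (D.abs_b_c b hx) (norm_nonneg _)
  · rw [norm_smul, Real.norm_of_nonneg hp.le]

theorem Dat.bdN_pf (D : Dat φ₀ z R ρ H lo hi) : BdN R (pf z R ρ) := by
  intro x₀ h0 h0R
  obtain ⟨δ, hδ, C, hC, hH⟩ := D.holder h0R
  obtain ⟨δ', C', hδ', -, hC', hb⟩ := D.axis_bounds h0 h0R hδ hH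
  refine ⟨C', δ', hδ', fun x hx hxa => ?_⟩
  rw [Real.norm_of_nonneg (D.ax.pos x hxa).le]
  exact (hb x hx hxa).2.1

theorem Dat.bdN_wt (D : Dat φ₀ z R ρ H lo hi) (a b : ℝ) : BdN R (wt z R ρ a b) := by
  intro x₀ h0 h0R
  obtain ⟨C, δ, hδ, h⟩ := D.bdN_pf x₀ h0 h0R
  refine ⟨|(b - a)⁻¹| * (|b| + (|lo| + |hi|)) * C, δ, hδ, fun x hx hxa => ?_⟩
  have h1 := h x hx hxa
  rw [Real.norm_of_nonneg (D.ax.pos x hxa).le] at h1
  rw [Real.norm_eq_abs]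
  exact (D.abs_wt_le a b hxa).trans (mul_le_mul_of_nonneg_left h1 (by positivity))

/-- the bound of the gradient near the axis -/
theorem Dat.axis_wt' (D : Dat φ₀ z R ρ H lo hi) (a b : ℝ) {x₀ : X} (h0 : x₀ ∈ Col.ax)
    (h0R : ∀ i, x₀ ≠ R i) : ∃ C δ : ℝ, 0 < δ ∧ 0 ≤ C ∧ ∀ x ∈ ball x₀ δ, x ∉ Col.ax →
      √(ht x) * ‖wt' z R ρ H a b x‖ ≤ C := by
  obtain ⟨δ, hδ, C, hC, hH⟩ := D.holder h0R
  obtain ⟨δ', C', hδ', -, hC', hb⟩ := D.axis_bounds h0 h0R hδ hH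
  refine ⟨|(b - a)⁻¹| * ((|b| + (|lo| + |hi|)) * C' + C'), δ', hδ', by positivity,
    fun x hx hxa => ?_⟩
  obtain ⟨-, -, -, b4, b5, -⟩ := hb x hx hxa
  have hp := D.ax.pos x hxa
  have hs3 : 0 ≤ √(ht x) := Real.sqrt_nonneg _
  rw [norm_smul, Real.norm_of_nonneg hp.le] at b5
  have h1 := mul_le_mul_of_nonneg_left (D.norm_wt'_le a b hxa) hs3
  refine h1.trans ?_
  calc √(ht x) * (|(b - a)⁻¹| * ((|b| + (|lo| + |hi|)) * ‖pf' z R ρ H x‖ +
        pf z R ρ x * ‖cf' z R ρ H x‖))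
      = |(b - a)⁻¹| * ((|b| + (|lo| + |hi|)) * (√(ht x) * ‖pf' z R ρ H x‖) +
        √(ht x) * (pf z R ρ x * ‖cf' z R ρ H x‖)) := by ring
    _ ≤ |(b - a)⁻¹| * ((|b| + (|lo| + |hi|)) * C' + C') := by
        refine mul_le_mul_of_nonneg_left (add_le_add ?_ b5) (abs_nonneg _)
        exact mul_le_mul_of_nonneg_left b4 (by positivity)

/-! ### near the nuclei -/

/-- bounds of the weights near the nucleus `i` at the position `t`, the other position being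
`s` -/
structure NucW (φ₀ : ℝ) (z : ι → ℝ) (R : ι → X) (ρ : X → ℝ) (H : X → X →L[ℝ] X) (i : ι)
    (t s C W : ℝ) (x : X) : Prop where
  r_pos : 0 < ‖x - R i‖
  ht_le : ht x ≤ ‖x - R i‖
  /-- the regular weight (of the other nucleus) -/
  reg : |wt z R ρ s t x - W| ≤ C * √‖x - R i‖
  reg' : ‖wt' z R ρ H s t x‖ ≤ C * (√(ht x))⁻¹
  /-- the singular weight (of the nucleus) -/
  sing : |wt z R ρ t s x - z i * (‖x - R i‖ ^ 3)⁻¹| ≤ C * (‖x - R i‖⁻¹) ^ (7 / 4 : ℝ)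
  sing' : ‖wt' z R ρ H t s x + (3 * pf z R ρ x * (‖x - R i‖ ^ 2)⁻¹) • (x - R i)‖ ≤
    C * (‖x - R i‖⁻¹ * (‖x - R i‖ * √‖x - R i‖)⁻¹ + ‖x - R i‖⁻¹ * (√(ht x))⁻¹)

/-- **bounds of the weights near a nucleus**; `W` is the value of the weight of the other
nucleus, `L = (s - t)² W` is the limit of `f` -/
theorem Dat.nuc_wt (D : Dat φ₀ z R ρ H lo hi) (hz : ∀ i, 0 < z i)
    (hR : Function.Injective R) (i : ι) {s : ℝ} (hs : (R i).fst ≠ s) :
    ∃ δ C W : ℝ, 0 < δ ∧ δ ≤ 1 ∧ 0 ≤ C ∧ (∀ x ∈ ball (R i) δ, x ∉ Col.ax →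
      NucW φ₀ z R ρ H i (R i).fst s C W x) ∧
      (Tendsto (qf z R ρ (R i).fst) (𝓝[Col.axᶜ] (R i)) (𝓝 ((s - (R i).fst) * W))) := by
  obtain ⟨δ, C, Q, hδ, hδ1, hC, h⟩ := D.nuc_bounds hz hR i
  obtain ⟨t, ht0⟩ : ∃ t : ℝ, t = (R i).fst := ⟨_, rfl⟩
  rw [← ht0] at hs ⊢
  have hts : t - s ≠ 0 := sub_ne_zero.mpr hs
  obtain ⟨k, hk⟩ : ∃ k : ℝ, k = |(t - s)⁻¹| := ⟨_, rfl⟩
  have hk0 : 0 ≤ k := hk ▸ abs_nonneg _
  refine ⟨δ, C + k * C + 3 * C + k * C + k * (|Q| + C) + C + 3 * (C * (1 : ℝ)),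
    -((t - s)⁻¹ * Q), hδ, hδ1, by positivity, fun x hx hxa => ?_, ?_⟩
  · have hb := h x hx hxa
    have hq := hb.q
    have hq' := hb.q'
    have hp := hb.p
    have hp' := hb.p'
    have hrho := hb.rho
    have hr0 := hb.r_pos
    have hs0 := ht_pos hxa
    have hrl : ‖x - R i‖ ≤ 1 := (mem_ball_iff_norm.mp hx).le.trans hδ1
    rw [← ht0] at hq hq' hp'
    -- the regular weight
    have e1 : wt z R ρ s t x - -((t - s)⁻¹ * Q) = -((t - s)⁻¹ * (qf z R ρ t x - Q)) := by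
      rw [wt_q]; ring
    have r1 : |wt z R ρ s t x - -((t - s)⁻¹ * Q)| ≤ k * C * √‖x - R i‖ := by
      rw [e1, abs_neg, abs_mul, ← hk, mul_assoc]
      exact mul_le_mul_of_nonneg_left hq hk0
    have r2 : ‖wt' z R ρ H s t x‖ ≤ k * C * (√(ht x))⁻¹ := by
      rw [wt'_q, norm_neg, norm_smul, Real.norm_eq_abs, ← hk, mul_assoc]
      exact mul_le_mul_of_nonneg_left hq' hk0
    have r0 : |wt z R ρ s t x| ≤ k * |Q| + k * C := by
      have h1 : |wt z R ρ s t x| ≤ |wt z R ρ s t x - -((t - s)⁻¹ * Q)| + |(t - s)⁻¹ * Q| := by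
        have := abs_sub_abs_le_abs_sub (wt z R ρ s t x) (-((t - s)⁻¹ * Q))
        rw [abs_neg] at this
        linarith
      have h2 : k * C * √‖x - R i‖ ≤ k * C := by
        have : √‖x - R i‖ ≤ 1 := by
          rw [← Real.sqrt_one]
          exact Real.sqrt_le_sqrt hrl
        exact mul_le_of_le_one_right (by positivity) this
      rw [abs_mul, ← hk] at h1
      linarith
    -- the singular weight
    have e2 : wt z R ρ t s x = pf z R ρ x - wt z R ρ s t x := by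
      rw [← wt_add hs z R ρ x]
      ring
    have e3 : wt' z R ρ H t s x = pf' z R ρ H x - wt' z R ρ H s t x := by
      rw [← wt'_add hs z R ρ H x]
      abel
    have i1 : 1 ≤ (‖x - R i‖⁻¹) ^ (7 / 4 : ℝ) :=
      Real.one_le_rpow ((one_le_inv₀ hr0).mpr hrl) (by norm_num)
    have i2 : 1 ≤ ‖x - R i‖⁻¹ := (one_le_inv₀ hr0).mpr hrl
    refine ⟨hr0, hb.ht_le, r1.trans ?_, r2.trans ?_, ?_, ?_⟩
    · refine mul_le_mul_of_nonneg_right ?_ (Real.sqrt_nonneg _)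
      have : 0 ≤ C + 3 * C + k * C + k * (|Q| + C) + C + 3 * (C * (1 : ℝ)) := by positivity
      linarith
    · refine mul_le_mul_of_nonneg_right ?_ (by positivity)
      have : 0 ≤ C + 3 * C + k * C + k * (|Q| + C) + C + 3 * (C * (1 : ℝ)) := by positivity
      linarith
    · rw [e2]
      have h1 : |pf z R ρ x - wt z R ρ s t x - z i * (‖x - R i‖ ^ 3)⁻¹| ≤
          |pf z R ρ x - z i * (‖x - R i‖ ^ 3)⁻¹| + |wt z R ρ s t x| := by
        have e : pf z R ρ x - wt z R ρ s t x - z i * (‖x - R i‖ ^ 3)⁻¹ =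
          (pf z R ρ x - z i * (‖x - R i‖ ^ 3)⁻¹) - wt z R ρ s t x := by ring
        rw [e]
        exact abs_sub _ _
      refine h1.trans ((add_le_add hp r0).trans ?_)
      have h2 : k * |Q| + k * C ≤ (k * |Q| + k * C) * (‖x - R i‖⁻¹) ^ (7 / 4 : ℝ) :=
        le_mul_of_one_le_right (by positivity) i1
      have h3 : 0 ≤ (k * C + 3 * C + k * C + C + 3 * (C * (1 : ℝ))) *
        (‖x - R i‖⁻¹) ^ (7 / 4 : ℝ) := by positivity
      nlinarith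
    · rw [e3]
      have h1 : ‖pf' z R ρ H x - wt' z R ρ H s t x + (3 * pf z R ρ x *
          (‖x - R i‖ ^ 2)⁻¹) • (x - R i)‖ ≤ ‖pf' z R ρ H x + (3 * pf z R ρ x *
          (‖x - R i‖ ^ 2)⁻¹) • (x - R i)‖ + ‖wt' z R ρ H s t x‖ := by
        have e : pf' z R ρ H x - wt' z R ρ H s t x + (3 * pf z R ρ x *
            (‖x - R i‖ ^ 2)⁻¹) • (x - R i) = (pf' z R ρ H x + (3 * pf z R ρ x *
            (‖x - R i‖ ^ 2)⁻¹) • (x - R i)) - wt' z R ρ H s t x := by abel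
        rw [e]
        exact norm_sub_le _ _
      refine h1.trans ((add_le_add hp' r2).trans ?_)
      obtain ⟨u, hu⟩ : ∃ u : ℝ, u = (‖x - R i‖ * √‖x - R i‖)⁻¹ := ⟨_, rfl⟩
      obtain ⟨v, hv⟩ : ∃ v : ℝ, v = (√(ht x))⁻¹ := ⟨_, rfl⟩
      obtain ⟨w, hw⟩ : ∃ w : ℝ, w = ‖x - R i‖⁻¹ := ⟨_, rfl⟩
      rw [← hu] at hrho
      rw [← hv] at hq'
      rw [← hu, ← hv, ← hw]
      rw [← hw] at i2
      have hu0 : 0 ≤ u := hu ▸ by positivity
      have hv0 : 0 ≤ v := hv ▸ by positivity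
      have hw0 : 0 ≤ w := hw ▸ by positivity
      have a1 : (4 * Real.pi * ρ x + 3 * ‖qf' z R ρ H t x‖) * w ≤ (C * u + 3 * (C * v)) * w :=
        mul_le_mul_of_nonneg_right (by linarith) hw0
      have a2 : k * C * v ≤ k * C * (w * v) := by
        refine mul_le_mul_of_nonneg_left ?_ (by positivity)
        exact le_mul_of_one_le_left hv0 i2
      have a3 : 0 ≤ (3 * C + k * C + k * C + k * (|Q| + C) + C + 3 * (C * (1 : ℝ))) * (w * u) := by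
        positivity
      have a4 : 0 ≤ (C + 3 * C - 3 * C + k * C + k * (|Q| + C) + C + 3 * (C * (1 : ℝ))) *
          (w * v) := by
        have : 0 ≤ C + 3 * C - 3 * C := by linarith
        positivity
      nlinarith
  · have h1 := qf_tendsto hδ h
    rw [← ht0] at h1
    have e : (s - t) * -((t - s)⁻¹ * Q) = Q := by
      have : (t - s) * (t - s)⁻¹ = 1 := mul_inv_cancel₀ hts
      linear_combination Q * this
    rw [e]
    exact h1

/-! ### at infinity -/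

theorem Dat.far_wt (D : Dat φ₀ z R ρ H lo hi) (a b : ℝ) : ∃ C N : ℝ, 0 ≤ C ∧ 1 ≤ N ∧
    ∀ x, x ∉ Col.ax → N ≤ ‖x‖ → |wt z R ρ a b x| ≤ C * (‖x‖ ^ 3)⁻¹ ∧
      ‖wt' z R ρ H a b x‖ ≤ C * (‖x‖ ^ 3)⁻¹ := by
  obtain ⟨C, N, hF⟩ := D.farB
  obtain ⟨k, hk⟩ : ∃ k : ℝ, k = |(b - a)⁻¹| := ⟨_, rfl⟩
  obtain ⟨m, hm⟩ : ∃ m : ℝ, m = |b| + (|lo| + |hi|) := ⟨_, rfl⟩
  have hk0 : 0 ≤ k := hk ▸ abs_nonneg _
  have hm0 : 0 ≤ m := by rw [hm]; positivity
  have hC := hF.C0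
  refine ⟨k * m * C + k * C, N, by positivity, hF.N0, fun x hx hN => ?_⟩
  have h1 := D.abs_wt_le a b hx
  have h2 := D.norm_wt'_le a b hx
  rw [← hk, ← hm] at h1 h2
  have hp := hF.p x hx hN
  have hp' := hF.p' x hx hN
  have hc' := hF.pc' x hx hN
  have hx1 : 1 ≤ ‖x‖ := hF.N0.trans hN
  have h4 : (‖x‖ ^ 4)⁻¹ ≤ (‖x‖ ^ 3)⁻¹ := by
    refine inv_anti₀ (by positivity) ?_
    exact pow_le_pow_right₀ hx1 (by norm_num)
  have h5 : ‖pf' z R ρ H x‖ ≤ C * (‖x‖ ^ 3)⁻¹ := hp'.trans (mul_le_mul_of_nonneg_left h4 hC)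
  constructor
  · refine h1.trans ((mul_le_mul_of_nonneg_left hp (by positivity)).trans ?_)
    have : 0 ≤ k * C * (‖x‖ ^ 3)⁻¹ := by positivity
    nlinarith
  · refine h2.trans ?_
    calc k * (m * ‖pf' z R ρ H x‖ + pf z R ρ x * ‖cf' z R ρ H x‖)
        ≤ k * (m * (C * (‖x‖ ^ 3)⁻¹) + C * (‖x‖ ^ 3)⁻¹) := by
          refine mul_le_mul_of_nonneg_left (add_le_add ?_ hc') hk0
          exact mul_le_mul_of_nonneg_left h5 hm0
      _ = _ := by ring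

end gen

/-! ### comparison with the isolated ions -/

end Pool.Agent.TF.Col
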