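import Mathlib
import Pool.Agent.Lib.MP_9cf0c9_mp.Tr.ColW
/-! Two nuclei at `a e₁`, `b e₁`: the ramp in the first coordinate, the rotation density, the
current of the two weights through planes. -/

set_option autoImplicit false

set_option linter.unusedSectionVars false

set_option linter.unusedVariables false

namespace Pool.Agent.TF.Grd
end Pool.Agent.TF.Grd

namespace Pool.Agent.TF.Col

open MeasureTheory Set Metric Filter Topology

open scoped ENNReal NNReal RealInnerProductSpace Gradient

open Pool.Agent.TF.Grd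

/-- the ramp of width `2 w` about `m` -/
noncomputable def ramp (m w t : ℝ) : ℝ := max 0 (min 1 ((t - (m - w)) / (2 * w)))

/-- its derivative -/
noncomputable def ramp' (m w t : ℝ) : ℝ := if |t - m| < w then (2 * w)⁻¹ else 0

theorem ramp_nonneg (m w t : ℝ) : 0 ≤ ramp m w t := le_max_left _ _

theorem ramp_le_one (m w t : ℝ) : ramp m w t ≤ 1 := max_le zero_le_one (min_le_left _ _)

theorem ramp'_nonneg {m w t : ℝ} (hw : 0 < w) : 0 ≤ ramp' m w t := by
  unfold ramp'
  split_ifs
  · positivity
  · exact le_rfl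

theorem ramp_zero {m w t : ℝ} (hw : 0 < w) (h : t ≤ m - w) : ramp m w t = 0 := by
  unfold ramp
  have h1 : (t - (m - w)) / (2 * w) ≤ 0 :=
    div_nonpos_of_nonpos_of_nonneg (by linarith) (by linarith)
  rw [max_eq_left]
  exact (min_le_right _ _).trans h1

theorem ramp_one {m w t : ℝ} (hw : 0 < w) (h : m + w ≤ t) : ramp m w t = 1 := by
  unfold ramp
  have h1 : 1 ≤ (t - (m - w)) / (2 * w) := by
    rw [le_div_iff₀ (by linarith)]
    linarith
  rw [min_eq_left h1, max_eq_right zero_le_one]

theorem ramp_mid {m w t : ℝ} (hw : 0 < w) (h1 : m - w ≤ t) (h2 : t ≤ m + w) :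
    ramp m w t = (t - (m - w)) / (2 * w) := by
  unfold ramp
  rw [min_eq_right, max_eq_right]
  · exact div_nonneg (by linarith) (by linarith)
  · rw [div_le_one (by linarith)]
    linarith

theorem ramp_lip {m w : ℝ} (hw : 0 < w) : LipschitzWith (Real.toNNReal (2 * w)⁻¹) (ramp m w) := by
  have h1 : LipschitzWith (Real.toNNReal (2 * w)⁻¹) fun t : ℝ => (t - (m - w)) / (2 * w) := by
    refine LipschitzWith.of_dist_le_mul fun x y => ?_
    rw [Real.dist_eq, Real.dist_eq, Real.coe_toNNReal _ (by positivity)]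
    have e : (x - (m - w)) / (2 * w) - (y - (m - w)) / (2 * w) = (2 * w)⁻¹ * (x - y) := by
      field_simp
      ring
    rw [e, abs_mul, abs_of_pos (by positivity : 0 < (2 * w)⁻¹)]
  exact ((h1.const_min 1).const_max 0)

/-- the derivative of the ramp -/
theorem ramp_deriv {m w t : ℝ} (hw : 0 < w) (h1 : t ≠ m - w) (h2 : t ≠ m + w) :
    HasDerivAt (ramp m w) (ramp' m w t) t := by
  unfold ramp'
  rcases lt_or_gt_of_ne h1 with h | h
  · have h3 : ¬ |t - m| < w := by
      rw [abs_lt]
      intro h4
      linarith [h4.1]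
    rw [if_neg h3]
    refine (hasDerivAt_const t (0 : ℝ)).congr_of_eventuallyEq ?_
    filter_upwards [gt_mem_nhds h] with y hy
    exact ramp_zero hw hy.le
  rcases lt_or_gt_of_ne h2 with h' | h'
  · have h3 : |t - m| < w := by
      rw [abs_lt]
      constructor <;> linarith
    rw [if_pos h3]
    have h4 : HasDerivAt (fun t : ℝ => (t - (m - w)) / (2 * w)) ((2 * w)⁻¹) t := by
      have := ((hasDerivAt_id t).sub_const (m - w)).div_const (2 * w)
      simpa using this
    refine h4.congr_of_eventuallyEq ?_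
    filter_upwards [lt_mem_nhds h, gt_mem_nhds h'] with y hy hy'
    exact ramp_mid hw hy.le hy'.le
  · have h3 : ¬ |t - m| < w := by
      rw [abs_lt]
      intro h4
      linarith [h4.2]
    rw [if_neg h3]
    refine (hasDerivAt_const t (1 : ℝ)).congr_of_eventuallyEq ?_
    filter_upwards [lt_mem_nhds h'] with y hy
    exact ramp_one hw hy.le

/-- the ramp as a function on the space -/
theorem ramp_grad {m w : ℝ} (hw : 0 < w) {x : X} (h1 : x.fst ≠ m - w) (h2 : x.fst ≠ m + w) :
    HasGradientAt (fun y : X => ramp m w y.fst) (ramp' m w x.fst • e1) x := by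
  have h3 := ramp_deriv hw h1 h2
  have h4 : HasFDerivAt (fun y : X => y.fst) (innerSL ℝ e1) x := by
    have h5 := (innerSL ℝ e1).hasFDerivAt (x := x)
    refine h5.congr_of_eventuallyEq (Eventually.of_forall fun y => ?_)
    simp only [innerSL_apply_apply]
    rw [real_inner_comm, inner_e1]
  have h6 := h3.comp_hasFDerivAt x h4
  rw [hasGradientAt_iff_hasFDerivAt]
  refine h6.congr_fderiv ?_
  ext v
  simp only [InnerProductSpace.toDual_apply_apply, real_inner_smul_left]
  rfl

theorem ramp_lipX {m w : ℝ} (hw : 0 < w) :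
    LipschitzWith (Real.toNNReal (2 * w)⁻¹) fun y : X => ramp m w y.fst := by
  have h1 : LipschitzWith 1 fun y : X => y.fst := by
    refine LipschitzWith.of_dist_le_mul fun x y => ?_
    rw [NNReal.coe_one, one_mul, Real.dist_eq, dist_eq_norm]
    have h2 : x.fst - y.fst = ⟪x - y, e1⟫ := by rw [inner_e1, WithLp.sub_fst]
    rw [h2]
    have h3 := abs_real_inner_le_norm (x - y) e1
    rwa [norm_e1, mul_one] at h3
  have h2 := (ramp_lip (m := m) hw).comp h1
  rwa [mul_one] at h2

end Pool.Agent.TF.Col
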