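import Mathlib
import Pool.Agent.Lib.MP_9cf0c9_mp.Tr.Col83
import Pool.Agent.Lib.MP_9cf0c9_mp.Tr.Mid13
/-! Integrals over thin slabs: if the integral of `F` over the plane `x₁ = m` is nonnegative (in
polar coordinates), then the averages of `F` over thin slabs about the plane are at least `-η`. -/

set_option autoImplicit false

set_option linter.unusedSectionVars false

set_option linter.unusedVariables false

namespace Pool.Agent.TF.Grd
end Pool.Agent.TF.Grd

namespace Pool.Agent.TF.Col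

open MeasureTheory Set Metric Filter Topology

open scoped ENNReal NNReal RealInnerProductSpace Gradient

open Pool.Agent.TF.Grd

/-- the integral over the plane is nonnegative if all the integrals over rays are -/
theorem plane_integral_nonneg {f : E2 → ℝ} (hf : Integrable f)
    (h : ∀ v : E2, ‖v‖ = 1 → 0 ≤ ∫ s in Ioi (0 : ℝ), s * f (s • v)) : 0 ≤ ∫ y, f y := by
  have hfin : Module.finrank ℝ E2 = 2 := by simp
  have hmp := (volume : Measure E2).measurePreserving_homeomorphUnitSphereProd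
  rw [hfin] at hmp
  obtain ⟨g, hg⟩ : ∃ g : sphere (0 : E2) 1 × Ioi (0 : ℝ) → ℝ, g = fun p => f ((p.2 : ℝ) • (p.1 : E2)) :=
    ⟨_, rfl⟩
  have e1 : ∀ x : ({(0 : E2)}ᶜ : Set E2), g (homeomorphUnitSphereProd E2 x) = f x := by
    intro x
    have h1 := (homeomorphUnitSphereProd E2).symm_apply_apply x
    have h2 : ((homeomorphUnitSphereProd E2).symm (homeomorphUnitSphereProd E2 x) : E2) = x := by
      rw [h1]
    rw [homeomorphUnitSphereProd_symm_apply_coe] at h2
    rw [hg]
    simp only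
    rw [h2]
  have e2 : ∫ y, f y = ∫ p, g p ∂((volume : Measure E2).toSphere.prod (Measure.volumeIoiPow 1)) := by
    rw [← hmp.integral_comp (Homeomorph.measurableEmbedding _) g]
    simp_rw [e1]
    rw [integral_subtype_comap (measurableSet_singleton _).compl f, restrict_compl_singleton]
  have e3 : Integrable g ((volume : Measure E2).toSphere.prod (Measure.volumeIoiPow 1)) := by
    rw [← hmp.integrable_comp_emb (Homeomorph.measurableEmbedding _)]
    have h3 : (g ∘ homeomorphUnitSphereProd E2) = fun x : ({(0 : E2)}ᶜ : Set E2) => f x := by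
      funext x
      exact e1 x
    rw [h3]
    have h4 : IntegrableOn f ({(0 : E2)}ᶜ : Set E2) := hf.integrableOn
    rw [integrableOn_iff_comap_subtypeVal (measurableSet_singleton _).compl] at h4
    exact h4
  rw [e2, integral_prod _ e3]
  refine integral_nonneg fun v => ?_
  have e4 : ∫ r, g (v, r) ∂(Measure.volumeIoiPow 1) = ∫ s in Ioi (0 : ℝ), s * f (s • (v : E2)) := by
    simp only [Measure.volumeIoiPow, ENNReal.ofReal]
    rw [integral_withDensity_eq_integral_smul, hg,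
      integral_subtype_comap measurableSet_Ioi
        fun a : ℝ => Real.toNNReal (a ^ 1) • f (a • (v : E2))]
    · refine setIntegral_congr_fun measurableSet_Ioi fun s hs => ?_
      have hs0 : (0 : ℝ) < s := hs
      simp only [pow_one]
      rw [NNReal.smul_def, Real.coe_toNNReal _ hs0.le, smul_eq_mul]
    · exact (measurable_subtype_coe.pow_const _).real_toNNReal
  rw [e4]
  exact h v (by simp)

/-- bounds of `F` near the plane `x₁ = m` by a function on the plane -/
structure SlabB (F : X → ℝ) (m δ : ℝ) (g : ℝ → ℝ) : Prop where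
  pos : 0 < δ
  cont : ContinuousOn F axᶜ
  bd : ∀ τ, |τ - m| ≤ δ → ∀ y : E2, y ≠ 0 → |F (TF.mk τ y)| ≤ g ‖y‖
  int : Integrable fun y : E2 => g ‖y‖

section slab

variable {F : X → ℝ} {m δ : ℝ} {g : ℝ → ℝ}

theorem mk_notMem_ax {τ : ℝ} {y : E2} (hy : y ≠ 0) : TF.mk τ y ∉ ax := fun h => hy h

theorem ae_ne_zero : ∀ᵐ y : E2, y ≠ 0 := by
  rw [ae_iff]
  simp

theorem SlabB.cont_plane (h : SlabB F m δ g) (τ : ℝ) :
    ContinuousOn (fun y : E2 => F (TF.mk τ y)) {(0 : E2)}ᶜ := by
  have h1 : Continuous fun y : E2 => TF.mk τ y := mk_continuous.comp (Continuous.prodMk_right τ)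
  exact h.cont.comp h1.continuousOn fun y hy => mk_notMem_ax hy

theorem aesm_of_off {f : E2 → ℝ} (h : ContinuousOn f {(0 : E2)}ᶜ) : AEStronglyMeasurable f := by
  have h1 := h.aestronglyMeasurable (μ := (volume : Measure E2)) (measurableSet_singleton _).compl
  rwa [restrict_compl_singleton] at h1

theorem SlabB.aesm_plane (h : SlabB F m δ g) (τ : ℝ) :
    AEStronglyMeasurable fun y : E2 => F (TF.mk τ y) := aesm_of_off (h.cont_plane τ)

theorem SlabB.int_plane (h : SlabB F m δ g) {τ : ℝ} (hτ : |τ - m| ≤ δ) :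
    Integrable fun y : E2 => F (TF.mk τ y) := by
  refine h.int.mono' (h.aesm_plane τ) ?_
  filter_upwards [ae_ne_zero] with y hy
  rw [Real.norm_eq_abs]
  exact h.bd τ hτ y hy

/-- the plane integrals are continuous at `m` -/
theorem SlabB.cont_int (h : SlabB F m δ g) :
    ContinuousAt (fun τ => ∫ y : E2, F (TF.mk τ y)) m := by
  have h0 : ∀ᶠ τ in 𝓝 m, |τ - m| ≤ δ := by
    filter_upwards [Metric.ball_mem_nhds m h.pos] with τ hτ
    rw [mem_ball, Real.dist_eq] at hτ
    exact hτ.le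
  refine continuousAt_of_dominated (bound := fun y : E2 => g ‖y‖)
    (Eventually.of_forall fun τ => h.aesm_plane τ) ?_ h.int ?_
  · filter_upwards [h0] with τ hτ
    filter_upwards [ae_ne_zero] with y hy
    rw [Real.norm_eq_abs]
    exact h.bd τ hτ y hy
  · filter_upwards [ae_ne_zero] with y hy
    have h1 : ContinuousAt F (TF.mk m y) := h.cont.continuousAt (nhds_off (mk_notMem_ax hy))
    have h2 : ContinuousAt (fun τ : ℝ => TF.mk τ y) m :=
      (mk_continuous.comp (Continuous.prodMk_left y)).continuousAt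
    exact ContinuousAt.comp (g := F) h1 h2

theorem ramp'_integrable {w : ℝ} (hw : 0 < w) : Integrable (ramp' m w) := by
  have h1 : ramp' m w = (ball m w).indicator fun _ => (2 * w)⁻¹ := by
    funext t
    unfold ramp'
    by_cases h : |t - m| < w
    · rw [if_pos h, indicator_of_mem]
      rwa [mem_ball, Real.dist_eq]
    · rw [if_neg h, indicator_of_notMem]
      rwa [mem_ball, Real.dist_eq]
  rw [h1, integrable_indicator_iff measurableSet_ball]
  refine integrableOn_const ?_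
  rw [Real.volume_ball]
  exact ENNReal.ofReal_ne_top

theorem ramp'_integral {w : ℝ} (hw : 0 < w) : ∫ t, ramp' m w t = 1 := by
  have h1 : ramp' m w = (ball m w).indicator fun _ => (2 * w)⁻¹ := by
    funext t
    unfold ramp'
    by_cases h : |t - m| < w
    · rw [if_pos h, indicator_of_mem]
      rwa [mem_ball, Real.dist_eq]
    · rw [if_neg h, indicator_of_notMem]
      rwa [mem_ball, Real.dist_eq]
  rw [h1, integral_indicator measurableSet_ball, setIntegral_const, Measure.real,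
    Real.volume_ball, ENNReal.toReal_ofReal (by positivity), smul_eq_mul]
  exact mul_inv_cancel₀ (by positivity)

theorem SlabB.integrable (h : SlabB F m δ g) {w : ℝ} (hw : 0 < w) (hwδ : w ≤ δ) :
    Integrable fun x : X => ramp' m w x.fst * F x := by
  rw [← mk_measurePreserving.integrable_comp_emb mk_embedding]
  have h1 : Integrable fun p : ℝ × E2 => ramp' m w p.1 * g ‖p.2‖ := by
    rw [Measure.volume_eq_prod]
    exact (ramp'_integrable hw).mul_prod h.int
  refine h1.mono ?_ ?_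
  · have h2 : AEStronglyMeasurable (fun x : X => ramp' m w x.fst * F x) := by
      have h3 : AEStronglyMeasurable F := by
        have h4 := h.cont.aestronglyMeasurable (μ := (volume : Measure X))
          isClosed_ax.measurableSet.compl
        have h5 : (volume : Measure X).restrict axᶜ = volume := by
          rw [Measure.restrict_eq_self_of_ae_mem]
          filter_upwards [ae_off_ax] with x hx
          exact hx
        rwa [h5] at h4
      have h6 : Measurable fun x : X => ramp' m w x.fst := by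
        unfold ramp'
        refine Measurable.ite ?_ measurable_const measurable_const
        exact measurableSet_lt ((fst_continuous.sub continuous_const).abs).measurable
          measurable_const
      exact h6.aestronglyMeasurable.mul h3
    exact h2.comp_measurePreserving mk_measurePreserving
  · have h7 : ∀ᵐ p : ℝ × E2, p.2 ≠ 0 := by
      rw [Measure.volume_eq_prod]
      exact Measure.quasiMeasurePreserving_snd.ae ae_ne_zero
    filter_upwards [h7] with p hp
    simp only [Function.comp]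
    rw [norm_mul, norm_mul, mk_fst]
    unfold ramp'
    by_cases h8 : |p.1 - m| < w
    · refine mul_le_mul_of_nonneg_left ?_ (norm_nonneg _)
      rw [Real.norm_eq_abs, Real.norm_eq_abs]
      exact (h.bd p.1 (h8.le.trans hwδ) p.2 hp).trans (le_abs_self _)
    · rw [if_neg h8, norm_zero, zero_mul, zero_mul]

end slab

/-! ### the bounds -/

/-- the bounds which are needed near the plane `x₁ = m` -/
structure SlabOK (F : X → ℝ) (m : ℝ) : Prop where
  cont : ContinuousOn F axᶜ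
  near : ∃ C δ : ℝ, 0 ≤ C ∧ 0 < δ ∧ ∀ x ∈ ball (TF.mk m 0) δ, x ∉ ax →
    |F x| ≤ C * (1 + (√(ht x))⁻¹)
  far : ∃ C N : ℝ, 0 ≤ C ∧ 1 ≤ N ∧ ∀ x, x ∉ ax → N ≤ ‖x‖ → |F x| ≤ C * (‖x‖ ^ 4)⁻¹

section ok

variable {F G : X → ℝ} {m : ℝ}

theorem ht_mk (τ : ℝ) (y : E2) : ht (TF.mk τ y) = ‖y‖ := rfl

theorem norm_snd_le_mk (τ : ℝ) (y : E2) : ‖y‖ ≤ ‖TF.mk τ y‖ := by
  refine le_of_sq_le_sq ?_ (norm_nonneg _)
  rw [norm_mk_sq]
  nlinarith [sq_nonneg τ]

theorem norm_mk_sub (τ m : ℝ) (y : E2) : ‖TF.mk τ y - TF.mk m 0‖ ^ 2 = (τ - m) ^ 2 + ‖y‖ ^ 2 := by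
  rw [norm_sq_eq]
  have h1 : (TF.mk τ y - TF.mk m 0).fst = τ - m := rfl
  have h2 : (TF.mk τ y - TF.mk m 0).snd = y - 0 := rfl
  rw [h1, h2, sub_zero]

/-- the bound as a function of the distance to the axis -/
noncomputable def slg (B N s : ℝ) : ℝ := if s < N then B * (1 + (√s)⁻¹) else B * (s ^ 4)⁻¹

theorem slg_int {B N : ℝ} (hB : 0 ≤ B) (hN : 1 ≤ N) : Integrable fun y : E2 => slg B N ‖y‖ := by
  have hfin : Module.finrank ℝ E2 = 2 := by simp
  rw [integrable_fun_norm_addHaar (volume : Measure E2) (f := slg B N), hfin]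
  have hmeas : Measurable fun s : ℝ => s ^ (2 - 1) • slg B N s := by
    have h1 : Measurable fun s : ℝ => slg B N s := by
      unfold slg
      exact Measurable.ite measurableSet_Iio (by fun_prop) (by fun_prop)
    exact (measurable_id.pow_const _).smul h1
  have hsplit : Ioi (0 : ℝ) = Ioo 0 N ∪ Ici N := by
    ext s
    simp only [mem_Ioi, mem_union, mem_Ioo, mem_Ici]
    constructor
    · intro h
      rcases lt_or_ge s N with h1 | h1
      · exact Or.inl ⟨h, h1⟩
      · exact Or.inr h1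
    · rintro (h | h)
      · exact h.1
      · linarith
  rw [hsplit]
  refine IntegrableOn.union ?_ ?_
  · refine Measure.integrableOn_of_bounded (M := B * (N + √N)) (by simp) hmeas.aestronglyMeasurable ?_
    filter_upwards [ae_restrict_mem measurableSet_Ioo] with s hs
    have hs0 : 0 < √s := Real.sqrt_pos.mpr hs.1
    unfold slg
    rw [if_pos hs.2, smul_eq_mul, Real.norm_of_nonneg (by have := hs.1; positivity)]
    have h1 : s ^ (2 - 1) * (B * (1 + (√s)⁻¹)) = B * (s + √s) := by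
      have h2 : s * (√s)⁻¹ = √s := by
        rw [← div_eq_mul_inv, Real.div_sqrt]
      have h3 : s ^ (2 - 1) = s := by norm_num
      rw [h3]
      linear_combination B * h2
    rw [h1]
    exact mul_le_mul_of_nonneg_left (add_le_add hs.2.le (Real.sqrt_le_sqrt hs.2.le)) hB
  · rw [integrableOn_Ici_iff_integrableOn_Ioi]
    have h1 : IntegrableOn (fun s : ℝ => B * s ^ (-3 : ℝ)) (Ioi N) :=
      (integrableOn_Ioi_rpow_of_lt (by norm_num) (by linarith)).const_mul B
    refine h1.congr_fun (fun s hs => ?_) measurableSet_Ioi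
    have hs1 : N < s := hs
    have hs0 : 0 < s := by linarith
    simp only
    unfold slg
    rw [if_neg (by linarith), smul_eq_mul, Real.rpow_neg hs0.le]
    have h3 : s ^ (3 : ℝ) = s ^ 3 := by
      rw [← Real.rpow_natCast]
      norm_num
    rw [h3]
    have h4 : s ^ (2 - 1) = s := by norm_num
    rw [h4]
    field_simp

theorem SlabOK.slabB (h : SlabOK F m) : ∃ (δ : ℝ) (g : ℝ → ℝ), SlabB F m δ g := by
  obtain ⟨C₁, δ, hC₁, hδ, h1⟩ := h.near
  obtain ⟨C₂, N, hC₂, hN, h2⟩ := h.far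
  -- the compact set in the middle
  have hK : IsCompact ((fun p : ℝ × E2 => TF.mk p.1 p.2) '' (Icc (m - δ / 2) (m + δ / 2) ×ˢ
      (closedBall (0 : E2) N \ ball (0 : E2) (δ / 2)))) := by
    refine IsCompact.image ?_ mk_continuous
    exact isCompact_Icc.prod ((isCompact_closedBall _ _).diff isOpen_ball)
  have hKa : ((fun p : ℝ × E2 => TF.mk p.1 p.2) '' (Icc (m - δ / 2) (m + δ / 2) ×ˢ
      (closedBall (0 : E2) N \ ball (0 : E2) (δ / 2)))) ⊆ axᶜ := by
    rintro _ ⟨p, hp, rfl⟩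
    refine mk_notMem_ax fun h0 => hp.2.2 ?_
    rw [h0]
    exact mem_ball_self (by linarith)
  obtain ⟨M, hM⟩ := hK.exists_bound_of_continuousOn (h.cont.mono hKa)
  obtain ⟨B, hBd⟩ : ∃ B : ℝ, B = C₁ + C₂ + |M| := ⟨_, rfl⟩
  have hB0 : 0 ≤ B := by rw [hBd]; positivity
  refine ⟨δ / 2, slg B N, by linarith, h.cont, fun τ hτ y hy => ?_, slg_int hB0 hN⟩
  have hs : 0 < ‖y‖ := norm_pos_iff.mpr hy
  have hsq : 0 ≤ (√‖y‖)⁻¹ := by positivity
  unfold slg
  split_ifs with hc
  · by_cases hy2 : ‖y‖ < δ / 2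
    · have h3 : TF.mk τ y ∈ ball (TF.mk m 0) δ := by
        rw [mem_ball_iff_norm]
        refine lt_of_pow_lt_pow_left₀ 2 hδ.le ?_
        rw [norm_mk_sub]
        have h4 : (τ - m) ^ 2 ≤ (δ / 2) ^ 2 := by
          rw [← sq_abs (τ - m)]
          exact pow_le_pow_left₀ (abs_nonneg _) hτ 2
        have h5 : ‖y‖ ^ 2 ≤ (δ / 2) ^ 2 := pow_le_pow_left₀ hs.le hy2.le 2
        nlinarith
      refine (h1 _ h3 (mk_notMem_ax hy)).trans ?_
      rw [ht_mk]
      refine mul_le_mul_of_nonneg_right ?_ (by positivity)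
      rw [hBd]
      have := abs_nonneg M
      linarith
    · have h3 : TF.mk τ y ∈ ((fun p : ℝ × E2 => TF.mk p.1 p.2) '' (Icc (m - δ / 2) (m + δ / 2) ×ˢ
          (closedBall (0 : E2) N \ ball (0 : E2) (δ / 2)))) := by
        refine ⟨(τ, y), ⟨?_, ?_, ?_⟩, rfl⟩
        · rw [abs_le] at hτ
          exact ⟨by linarith [hτ.1], by linarith [hτ.2]⟩
        · rw [mem_closedBall_zero_iff]
          exact hc.le
        · rwa [mem_ball_zero_iff]
      have h4 := hM _ h3
      rw [Real.norm_eq_abs] at h4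
      refine h4.trans ?_
      have h5 : M ≤ B := by
        rw [hBd]
        linarith [le_abs_self M]
      nlinarith [mul_nonneg hB0 hsq]
  · push Not at hc
    have h3 := norm_snd_le_mk τ y
    have h4 := h2 _ (mk_notMem_ax (τ := τ) hy) (hc.trans h3)
    refine h4.trans ?_
    have h5 : (‖TF.mk τ y‖ ^ 4)⁻¹ ≤ (‖y‖ ^ 4)⁻¹ :=
      inv_anti₀ (by positivity) (pow_le_pow_left₀ hs.le h3 4)
    refine mul_le_mul ?_ h5 (by positivity) hB0
    rw [hBd]
    have := abs_nonneg M
    linarith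

theorem SlabOK.add (h : SlabOK F m) (h' : SlabOK G m) : SlabOK (fun x => F x + G x) m := by
  obtain ⟨C₁, δ, hC₁, hδ, h1⟩ := h.near
  obtain ⟨C₂, N, hC₂, hN, h2⟩ := h.far
  obtain ⟨C₁', δ', hC₁', hδ', h1'⟩ := h'.near
  obtain ⟨C₂', N', hC₂', hN', h2'⟩ := h'.far
  refine ⟨h.cont.add h'.cont, ⟨C₁ + C₁', min δ δ', by positivity, lt_min hδ hδ', fun x hx hxa => ?_⟩,
    ⟨C₂ + C₂', max N N', by positivity, hN.trans (le_max_left _ _), fun x hx hxN => ?_⟩⟩
  · refine (abs_add_le _ _).trans ?_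
    rw [add_mul]
    exact add_le_add (h1 x (ball_subset_ball (min_le_left _ _) hx) hxa)
      (h1' x (ball_subset_ball (min_le_right _ _) hx) hxa)
  · refine (abs_add_le _ _).trans ?_
    rw [add_mul]
    exact add_le_add (h2 x hx ((le_max_left _ _).trans hxN))
      (h2' x hx ((le_max_right _ _).trans hxN))

theorem SlabOK.neg (h : SlabOK F m) : SlabOK (fun x => -F x) m :=
  ⟨h.cont.neg, by simpa only [abs_neg] using h.near, by simpa only [abs_neg] using h.far⟩

theorem SlabOK.sub (h : SlabOK F m) (h' : SlabOK G m) : SlabOK (fun x => F x - G x) m := by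
  simpa only [sub_eq_add_neg] using h.add h'.neg

/-- products -/
theorem SlabOK.of_mul {c u v : X → ℝ} (hc : Continuous c)
    (hcf : ∃ K : ℝ, 0 ≤ K ∧ ∀ x : X, 1 ≤ ‖x‖ → |c x| ≤ K * ‖x‖ ^ 2)
    (hu : ContinuousOn u axᶜ) (hv : ContinuousOn v axᶜ)
    (hun : ∃ C δ : ℝ, 0 ≤ C ∧ 0 < δ ∧ ∀ x ∈ ball (TF.mk m 0) δ, x ∉ ax → |u x| ≤ C)
    (hvn : ∃ C δ : ℝ, 0 ≤ C ∧ 0 < δ ∧ ∀ x ∈ ball (TF.mk m 0) δ, x ∉ ax →
      |v x| ≤ C * (1 + (√(ht x))⁻¹))
    (huf : ∃ C N : ℝ, 0 ≤ C ∧ 1 ≤ N ∧ ∀ x, x ∉ ax → N ≤ ‖x‖ → |u x| ≤ C * (‖x‖ ^ 3)⁻¹)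
    (hvf : ∃ C N : ℝ, 0 ≤ C ∧ 1 ≤ N ∧ ∀ x, x ∉ ax → N ≤ ‖x‖ → |v x| ≤ C * (‖x‖ ^ 3)⁻¹) :
    SlabOK (fun x => c x * (u x * v x)) m := by
  obtain ⟨K, hK, hcf⟩ := hcf
  obtain ⟨C₁, δ₁, hC₁, hδ₁, h1⟩ := hun
  obtain ⟨C₂, δ₂, hC₂, hδ₂, h2⟩ := hvn
  obtain ⟨C₃, N₃, hC₃, hN₃, h3⟩ := huf
  obtain ⟨C₄, N₄, hC₄, hN₄, h4⟩ := hvf
  refine ⟨hc.continuousOn.mul (hu.mul hv), ?_, ?_⟩
  · have h5 : ∀ᶠ x in 𝓝 (TF.mk m 0), |c x| < |c (TF.mk m 0)| + 1 :=
      (hc.abs.tendsto _).eventually (gt_mem_nhds (lt_add_one _))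
    obtain ⟨δ₅, hδ₅, h5⟩ := Metric.eventually_nhds_iff_ball.mp h5
    refine ⟨(|c (TF.mk m 0)| + 1) * (C₁ * C₂), min δ₅ (min δ₁ δ₂), by positivity,
      lt_min hδ₅ (lt_min hδ₁ hδ₂), fun x hx hxa => ?_⟩
    have g1 := h1 x (ball_subset_ball ((min_le_right _ _).trans (min_le_left _ _)) hx) hxa
    have g2 := h2 x (ball_subset_ball ((min_le_right _ _).trans (min_le_right _ _)) hx) hxa
    have g5 := h5 x (ball_subset_ball (min_le_left _ _) hx)
    rw [abs_mul, abs_mul]
    calc |c x| * (|u x| * |v x|) ≤ (|c (TF.mk m 0)| + 1) * (C₁ * (C₂ * (1 + (√(ht x))⁻¹))) := by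
          gcongr
      _ = _ := by ring
  · refine ⟨K * (C₃ * C₄), max N₃ N₄, by positivity, hN₃.trans (le_max_left _ _),
      fun x hx hxN => ?_⟩
    have g3 := h3 x hx ((le_max_left _ _).trans hxN)
    have g4 := h4 x hx ((le_max_right _ _).trans hxN)
    have hx1 : 1 ≤ ‖x‖ := hN₃.trans ((le_max_left _ _).trans hxN)
    have gc := hcf x hx1
    have hx0 : 0 < ‖x‖ := by linarith
    rw [abs_mul, abs_mul]
    calc |c x| * (|u x| * |v x|)
        ≤ (K * ‖x‖ ^ 2) * ((C₃ * (‖x‖ ^ 3)⁻¹) * (C₄ * (‖x‖ ^ 3)⁻¹)) := by gcongr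
      _ = _ := by field_simp

end ok

end Pool.Agent.TF.Col
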