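import Mathlib
import Pool.Agent.Lib.MP_9cf0c9_mp.Tr.DdB36
import Pool.Agent.Lib.MP_9cf0c9_mp.Tr.Slab13
/-! Two nuclei: the current of the weights through the planes of a thin slab. -/

set_option autoImplicit false

set_option linter.unusedSectionVars false

set_option linter.unusedVariables false

namespace Pool.Agent.TF.Grd
end Pool.Agent.TF.Grd

namespace Pool.Agent.TF.Col

open MeasureTheory Set Metric Filter Topology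

open scoped ENNReal NNReal RealInnerProductSpace Gradient

open Pool.Agent.TF.Grd

section gen

variable {ι : Type*} [Fintype ι]

variable {φ₀ : ℝ} {z : ι → ℝ} {R : ι → X} {ρ : X → ℝ} {H : X → X →L[ℝ] X} {lo hi : ℝ}

theorem mk_mem_ax (m : ℝ) : TF.mk m 0 ∈ ax := rfl

/-- the bounds of the weights -/
theorem Dat.slab_wt_near (D : Dat φ₀ z R ρ H lo hi) (a b : ℝ) {m : ℝ}
    (hm : ∀ i, TF.mk m 0 ≠ R i) : ∃ C δ : ℝ, 0 ≤ C ∧ 0 < δ ∧ ∀ x ∈ ball (TF.mk m 0) δ,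
      x ∉ Col.ax → |wt z R ρ a b x| ≤ C := by
  obtain ⟨C, δ, hδ, h⟩ := D.bdN_wt a b _ (mk_mem_ax m) hm
  refine ⟨|C|, δ, abs_nonneg _, hδ, fun x hx hxa => ?_⟩
  rw [← Real.norm_eq_abs (wt z R ρ a b x)]
  exact (h x hx hxa).trans (le_abs_self _)

theorem Dat.slab_wt_far (D : Dat φ₀ z R ρ H lo hi) (a b : ℝ) : ∃ C N : ℝ, 0 ≤ C ∧ 1 ≤ N ∧
    ∀ x, x ∉ Col.ax → N ≤ ‖x‖ → |wt z R ρ a b x| ≤ C * (‖x‖ ^ 3)⁻¹ := by
  obtain ⟨C, N, hC, hN, h⟩ := D.far_wt a b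
  exact ⟨C, N, hC, hN, fun x hx hxN => (h x hx hxN).1⟩

theorem abs_inner_e1_le (v : X) : |⟪v, e1⟫| ≤ ‖v‖ := by
  have h := abs_real_inner_le_norm v e1
  rwa [norm_e1, mul_one] at h

theorem Dat.slab_wt'_near (D : Dat φ₀ z R ρ H lo hi) (a b : ℝ) {m : ℝ}
    (hm : ∀ i, TF.mk m 0 ≠ R i) : ∃ C δ : ℝ, 0 ≤ C ∧ 0 < δ ∧ ∀ x ∈ ball (TF.mk m 0) δ,
      x ∉ Col.ax → |⟪wt' z R ρ H a b x, e1⟫| ≤ C * (1 + (√(ht x))⁻¹) := by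
  obtain ⟨C, δ, hδ, hC, h⟩ := D.axis_wt' a b (mk_mem_ax m) hm
  refine ⟨C, δ, hC, hδ, fun x hx hxa => ?_⟩
  refine (abs_inner_e1_le _).trans ?_
  have h1 := h x hx hxa
  have h2 : 0 < √(ht x) := Real.sqrt_pos.mpr (ht_pos hxa)
  have h3 : ‖wt' z R ρ H a b x‖ ≤ C * (√(ht x))⁻¹ := by
    rw [← div_eq_mul_inv, le_div_iff₀ h2, mul_comm]
    exact h1
  refine h3.trans ?_
  nlinarith

theorem Dat.slab_wt'_far (D : Dat φ₀ z R ρ H lo hi) (a b : ℝ) : ∃ C N : ℝ, 0 ≤ C ∧ 1 ≤ N ∧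
    ∀ x, x ∉ Col.ax → N ≤ ‖x‖ → |⟪wt' z R ρ H a b x, e1⟫| ≤ C * (‖x‖ ^ 3)⁻¹ := by
  obtain ⟨C, N, hC, hN, h⟩ := D.far_wt a b
  exact ⟨C, N, hC, hN, fun x hx hxN => (abs_inner_e1_le _).trans (h x hx hxN).2⟩

theorem Dat.cont_wt'e (D : Dat φ₀ z R ρ H lo hi) (a b : ℝ) :
    ContinuousOn (fun x => ⟪wt' z R ρ H a b x, e1⟫) Col.axᶜ :=
  (D.c1_wt a b).cont.inner continuousOn_const

/-- products of a polynomial of degree two, a weight and a derivative of a weight -/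
theorem Dat.slab_wwp (D : Dat φ₀ z R ρ H lo hi) {m : ℝ} (hm : ∀ i, TF.mk m 0 ≠ R i)
    {c : X → ℝ} (hc : Continuous c)
    (hcf : ∃ K : ℝ, 0 ≤ K ∧ ∀ x : X, 1 ≤ ‖x‖ → |c x| ≤ K * ‖x‖ ^ 2) (a b a' b' : ℝ) :
    SlabOK (fun x => c x * (wt z R ρ a b x * ⟪wt' z R ρ H a' b' x, e1⟫)) m :=
  SlabOK.of_mul hc hcf (D.c1_wt a b).cont0 (D.cont_wt'e a' b') (D.slab_wt_near a b hm)
    (D.slab_wt'_near a' b' hm) (D.slab_wt_far a b) (D.slab_wt'_far a' b')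

theorem Dat.slab_ww (D : Dat φ₀ z R ρ H lo hi) {m : ℝ} (hm : ∀ i, TF.mk m 0 ≠ R i)
    {c : X → ℝ} (hc : Continuous c)
    (hcf : ∃ K : ℝ, 0 ≤ K ∧ ∀ x : X, 1 ≤ ‖x‖ → |c x| ≤ K * ‖x‖ ^ 2) (a b a' b' : ℝ) :
    SlabOK (fun x => c x * (wt z R ρ a b x * wt z R ρ a' b' x)) m := by
  refine SlabOK.of_mul hc hcf (D.c1_wt a b).cont0 (D.c1_wt a' b').cont0 (D.slab_wt_near a b hm)
    ?_ (D.slab_wt_far a b) (D.slab_wt_far a' b')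
  obtain ⟨C, δ, hC, hδ, h⟩ := D.slab_wt_near a' b' hm
  refine ⟨C, δ, hC, hδ, fun x hx hxa => (h x hx hxa).trans ?_⟩
  have h1 : 0 ≤ C * (√(ht x))⁻¹ := by positivity
  linarith

theorem poly_bd (a b : ℝ) : ∃ K : ℝ, 0 ≤ K ∧ ∀ x : X, 1 ≤ ‖x‖ →
    |ht x ^ 2 - (x.fst - a) * (x.fst - b)| ≤ K * ‖x‖ ^ 2 := by
  refine ⟨1 + (1 + |a|) * (1 + |b|), by positivity, fun x hx => ?_⟩
  have h1 : ht x ≤ ‖x‖ := by
    refine le_of_sq_le_sq ?_ (norm_nonneg _)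
    rw [norm_sq_eq]
    unfold ht
    nlinarith [sq_nonneg x.fst]
  have h2 := TF.abs_fst_le x
  have h0 := ht_nonneg x
  have h3 : ht x ^ 2 ≤ ‖x‖ ^ 2 := pow_le_pow_left₀ h0 h1 2
  have h4 : ∀ c : ℝ, |x.fst - c| ≤ (1 + |c|) * ‖x‖ := fun c => by
    refine (abs_sub _ _).trans ?_
    nlinarith [mul_nonneg (abs_nonneg c) (sub_nonneg.mpr hx)]
  calc |ht x ^ 2 - (x.fst - a) * (x.fst - b)|
      ≤ |ht x ^ 2| + |(x.fst - a) * (x.fst - b)| := abs_sub _ _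
    _ ≤ ‖x‖ ^ 2 + ((1 + |a|) * ‖x‖) * ((1 + |b|) * ‖x‖) := by
        rw [abs_mul, abs_of_nonneg (by positivity : 0 ≤ ht x ^ 2)]
        exact add_le_add h3 (mul_le_mul (h4 a) (h4 b) (abs_nonneg _) (by positivity))
    _ = _ := by ring

end gen

end Pool.Agent.TF.Col
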