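import Mathlib
import Pool.Agent.Lib.MP_9cf0c9_mp.Tr.Axis39
import Pool.Agent.Lib.MP_9cf0c9_mp.Tr.ColSlope36
import Pool.Agent.Lib.MP_9cf0c9_mp.Tr.ColTrial83
import Pool.Agent.Lib.MP_9cf0c9_mp.Tr.ColTrialE83
import Pool.Agent.Lib.MP_9cf0c9_mp.Tr.DipGen36
import Pool.Agent.Lib.MP_9cf0c9_mp.Tr.FluxB33
import Pool.Agent.Lib.MP_9cf0c9_mp.Tr.FluxOth61
import Pool.Agent.Lib.MP_9cf0c9_mp.Tr.FullDip36
import Pool.Agent.Lib.MP_9cf0c9_mp.Tr.SlabW13

section
/-! Two nuclei `a < b`: the trial `Y = X_a - D e = X_b + D f`, `e + f = E₁`, `e` regular at `a`,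
`f` regular at `b`.  The certificate is the current `(1 - θ) J_a + θ J_b` with a cut off function
`θ` which is `0` near `a` and `1` near `b`: no gradient at a nucleus is needed. -/

set_option autoImplicit false

set_option linter.unusedSectionVars false

set_option linter.unusedVariables false

set_option linter.style.haveILetI false

namespace Pool.Agent.TF.Grd
end Pool.Agent.TF.Grd

namespace Pool.Agent.TF.Col

open MeasureTheory Set Metric Filter Topology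

open scoped ENNReal NNReal RealInnerProductSpace Gradient

open Pool.Agent.TF.Grd

section gen

variable {ι : Type*} [Fintype ι]

variable {φ₀ : ℝ} {z : ι → ℝ} {R : ι → X} {ρ : X → ℝ} {H : X → X →L[ℝ] X} {lo hi : ℝ}

/-- a part of the axial field which is regular at the nucleus `i` -/
structure RegE (φ₀ : ℝ) (z : ι → ℝ) (R : ι → X) (ρ : X → ℝ) (i : ι)
    (e : X → ℝ) (e' : X → X) (l : X → ℝ) : Prop where
  lip : ∀ x, x ∉ ax → LipAt e x
  grad : ∀ᵐ x : X, HasGradientAt e (e' x) x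
  wdl : WDL (fun x => e x • e' x) fun x => ‖e' x‖ ^ 2 + e x * l x
  lim : ∀ x₀ ∈ ax, (∀ j, x₀ ≠ R j) → ∃ a, Tendsto e (𝓝[axᶜ] x₀) (𝓝 a)
  bd : ∀ x₀ ∈ ax, (∀ j, x₀ ≠ R j) → ∃ C δ : ℝ, 0 < δ ∧ ∀ x ∈ ball x₀ δ, x ∉ ax →
    ‖e' x‖ ≤ C * (1 + (√(ht x))⁻¹)
  nuc : ∃ e0, Tendsto e (𝓝[axᶜ] (R i)) (𝓝 e0)
  nuc' : ∃ C δ : ℝ, 0 < δ ∧ ∀ x ∈ ball (R i) δ, x ∉ ax → ‖e' x‖ ≤ C * (1 + (√(ht x))⁻¹)
  far : ∃ C N, 0 ≤ C ∧ 0 < N ∧ ∀ x, x ∉ ax → N ≤ ‖x‖ → |e x| ≤ C * ‖x‖⁻¹ ∧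
    ‖e' x‖ ≤ C * (‖x‖ ^ 2)⁻¹

variable {i : ι} {e : X → ℝ} {e' : X → X} {l : X → ℝ}

theorem RegE.bdN (h : RegE φ₀ z R ρ i e e' l) : BdN R e := by
  intro x₀ h0 hR
  obtain ⟨a, ha⟩ := h.lim x₀ h0 hR
  have h1 : ∀ᶠ x in 𝓝[axᶜ] x₀, ‖e x‖ < ‖a‖ + 1 := ha.norm.eventually (Iio_mem_nhds (lt_add_one _))
  rw [eventually_nhdsWithin_iff] at h1
  obtain ⟨δ, hδ, hb⟩ := Metric.eventually_nhds_iff_ball.mp h1
  exact ⟨‖a‖ + 1, δ, hδ, fun x hx hxa => (hb x hx hxa).le⟩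

theorem axb_of_bd {J : X → X} (h : ∀ x₀ ∈ ax, (∀ j, x₀ ≠ R j) → ∃ C δ : ℝ, 0 < δ ∧
    ∀ x ∈ ball x₀ δ, x ∉ ax → ‖J x‖ ≤ C * (1 + (√(ht x))⁻¹)) : AxB R J := by
  intro x₀ h0 hR
  obtain ⟨C, δ, hδ, hb⟩ := h x₀ h0 hR
  refine ⟨4 * |C| ^ 2, min δ 1, lt_min hδ one_pos, fun x hx hxa => ?_⟩
  have h1 := hb x (ball_subset_ball (min_le_left _ _) hx) hxa
  have hs := ht_pos hxa
  have h2 : ht x ≤ 1 := by
    have h3 := ht_le_dist x h0
    have h4 := ball_subset_ball (min_le_right δ 1) hx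
    rw [mem_ball, dist_eq_norm] at h4
    linarith
  have hu0 : 0 < √(ht x) := Real.sqrt_pos.mpr hs
  have hu : 1 ≤ (√(ht x))⁻¹ := (one_le_inv₀ hu0).mpr (Real.sqrt_le_one.mpr h2)
  have h3 : ‖J x‖ ≤ |C| * (1 + (√(ht x))⁻¹) :=
    h1.trans (mul_le_mul_of_nonneg_right (le_abs_self C) (by positivity))
  have h4 : ((√(ht x))⁻¹) ^ 2 = (ht x)⁻¹ := by rw [inv_pow, Real.sq_sqrt hs.le]
  calc ‖J x‖ ^ 2 ≤ (|C| * (1 + (√(ht x))⁻¹)) ^ 2 :=
        pow_le_pow_left₀ (norm_nonneg _) h3 2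
    _ ≤ 4 * |C| ^ 2 * ((√(ht x))⁻¹) ^ 2 := sqrt_bd_sq (abs_nonneg C) (by positivity) hu
    _ = 4 * |C| ^ 2 * (ht x)⁻¹ := by rw [h4]

theorem RegE.axb (h : RegE φ₀ z R ρ i e e' l) : AxB R e' := axb_of_bd h.bd

/-- the gradient near the nucleus at which the part is regular -/
theorem RegE.near (D : Dat φ₀ z R ρ H lo hi) (h : RegE φ₀ z R ρ i e e' l) :
    ∃ C : ℝ, ∀ᶠ x in 𝓝[Col.axᶜ] (R i), ‖e' x‖ ≤ C * (‖x - R i‖⁻¹ + (√(ht x))⁻¹) := by
  obtain ⟨C, δ, hδ, hb⟩ := h.nuc'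
  refine ⟨|C|, ?_⟩
  filter_upwards [mem_nhdsWithin_of_mem_nhds (ball_mem_nhds (R i) (lt_min hδ one_pos)),
    self_mem_nhdsWithin] with x hx hxa
  have h2 := hb x (ball_subset_ball (min_le_left _ _) hx) hxa
  have h3 : ‖x - R i‖ < 1 := by
    have := ball_subset_ball (min_le_right δ 1) hx
    rwa [mem_ball, dist_eq_norm] at this
  have h4 : 0 < ‖x - R i‖ := norm_pos_iff.mpr (sub_ne_zero.mpr (D.off hxa i))
  have h5 : 1 ≤ ‖x - R i‖⁻¹ := (one_le_inv₀ h4).mpr h3.le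
  have h6 : 0 ≤ (√(ht x))⁻¹ := by positivity
  calc ‖e' x‖ ≤ |C| * (1 + (√(ht x))⁻¹) :=
        h2.trans (mul_le_mul_of_nonneg_right (le_abs_self C) (by positivity))
    _ ≤ |C| * (‖x - R i‖⁻¹ + (√(ht x))⁻¹) :=
      mul_le_mul_of_nonneg_left (by linarith) (abs_nonneg C)

/-- `Y = X_a - d e` near a point of the axis -/
theorem RegE.bd_Y (D : Dat φ₀ z R ρ H lo hi) (h : RegE φ₀ z R ρ i e e' l) (a : X) (d : ℝ)
    {x₀ : X} (h0 : x₀ ∈ Col.ax) (h0R : ∀ j, x₀ ≠ R j) : ∃ C δ : ℝ, 0 < δ ∧ ∀ x ∈ ball x₀ δ,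
      x ∉ Col.ax → ‖Xa' z R ρ H a x - d • e' x‖ ≤ C * (1 + (√(ht x))⁻¹) := by
  obtain ⟨C, δ, hδ, hb'⟩ := h.bd x₀ h0 h0R
  have h2 := (D.cont_Xa' a h0R).norm.eventually (Iio_mem_nhds (lt_add_one _))
  obtain ⟨δ', hδ', hb''⟩ := Metric.eventually_nhds_iff_ball.mp h2
  obtain ⟨K, hK⟩ : ∃ K : ℝ, K = ‖Xa' z R ρ H a x₀‖ + 1 := ⟨_, rfl⟩
  have hK0 : 0 ≤ K := by rw [hK]; positivity
  refine ⟨K + |d| * |C|, min δ δ', lt_min hδ hδ', fun x hx hxa => ?_⟩
  have h3 := hb' x (ball_subset_ball (min_le_left _ _) hx) hxa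
  have h4 : ‖Xa' z R ρ H a x‖ < K := by
    rw [hK]
    exact hb'' x (ball_subset_ball (min_le_right _ _) hx)
  have h5 : 0 ≤ (√(ht x))⁻¹ := by positivity
  have h6 : ‖e' x‖ ≤ |C| * (1 + (√(ht x))⁻¹) :=
    h3.trans (mul_le_mul_of_nonneg_right (le_abs_self C) (by positivity))
  calc ‖Xa' z R ρ H a x - d • e' x‖ ≤
      ‖Xa' z R ρ H a x‖ + ‖d • e' x‖ := norm_sub_le _ _
    _ ≤ K + |d| * (|C| * (1 + (√(ht x))⁻¹)) := by
        rw [norm_smul, Real.norm_eq_abs]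
        exact add_le_add h4.le (mul_le_mul_of_nonneg_left h6 (abs_nonneg d))
    _ ≤ (K + |d| * |C|) * (1 + (√(ht x))⁻¹) := by
        nlinarith [mul_nonneg hK0 h5]

/-- `Y = X_i - d e` near the nucleus `i` -/
theorem RegE.nuc_Y (D : Dat φ₀ z R ρ H lo hi) (hz : ∀ i, 0 < z i) (hR : Function.Injective R)
    (h : RegE φ₀ z R ρ i e e' l) (d : ℝ) {e0 : ℝ}
    (he0 : Tendsto e (𝓝[Col.axᶜ] R i) (𝓝 e0)) :
    Tendsto (fun x => (Xa z R ρ (R i) x - d * e x) - z i * ‖x - R i‖⁻¹) (𝓝[Col.axᶜ] R i)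
      (𝓝 (-(d * e0))) ∧
    ∃ C δ : ℝ, 0 < δ ∧ ∀ x ∈ ball (R i) δ, x ∉ Col.ax →
      ‖(Xa' z R ρ H (R i) x - d • e' x) - gVpt z R x‖ ≤
        C * (1 + (√(ht x))⁻¹ + (‖x - R i‖⁻¹) ^ (3 / 4 : ℝ)) := by
  constructor
  · have h1 := D.lim_Xa hz hR i
    have h3 := h1.sub (he0.const_mul d)
    rw [zero_sub] at h3
    refine h3.congr fun x => ?_
    ring
  · obtain ⟨B, δ, hB, hδ, hb'⟩ := D.near_Xa hz hR i
    obtain ⟨C, δ', hδ', hb''⟩ := h.nuc'
    refine ⟨2 * B + |d| * |C|, min δ δ', lt_min hδ hδ', fun x hx hxa => ?_⟩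
    have h1 := (hb' x (ball_subset_ball (min_le_left _ _) hx) (D.off hxa i)).2
    have h2 := hb'' x (ball_subset_ball (min_le_right _ _) hx) hxa
    have e1' : Xa' z R ρ H (R i) x - d • e' x - gVpt z R x =
        (Xa' z R ρ H (R i) x - gVpt z R x) - d • e' x := by abel
    set w : ℝ := (‖x - R i‖⁻¹) ^ (3 / 4 : ℝ)
    set u : ℝ := (√(ht x))⁻¹
    have hw : 0 ≤ w := by positivity
    have hu : 0 ≤ u := by positivity
    have h3 : ‖e' x‖ ≤ |C| * (1 + u) :=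
      h2.trans (mul_le_mul_of_nonneg_right (le_abs_self C) (by positivity))
    rw [e1']
    calc ‖(Xa' z R ρ H (R i) x - gVpt z R x) - d • e' x‖ ≤
        ‖Xa' z R ρ H (R i) x - gVpt z R x‖ + ‖d • e' x‖ := norm_sub_le _ _
      _ ≤ 2 * B * (1 + w) + |d| * (|C| * (1 + u)) := by
          rw [norm_smul, Real.norm_eq_abs]
          exact add_le_add h1 (mul_le_mul_of_nonneg_left h3 (abs_nonneg d))
      _ ≤ (2 * B + |d| * |C|) * (1 + u + w) := by
          have h3 : 0 ≤ |d| * |C| := by positivity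
          nlinarith [mul_nonneg h3 hw, mul_nonneg h3 hu, mul_nonneg hB hu]

/-- far away -/
theorem RegE.far_Y (D : Dat φ₀ z R ρ H lo hi) (h : RegE φ₀ z R ρ i e e' l) (a : X) (d : ℝ) :
    ∃ C N : ℝ, 0 ≤ C ∧ 1 ≤ N ∧ ∀ x, x ∉ Col.ax → N ≤ ‖x‖ →
      |Xa z R ρ a x - d * e x| ≤ C * ‖x‖⁻¹ ∧
      ‖Xa' z R ρ H a x - d • e' x‖ ≤ C * (‖x‖ ^ 2)⁻¹ ∧
      ‖JE z R ρ H a d e e' x‖ ≤ C * (‖x‖ ^ 3)⁻¹ := by
  obtain ⟨C, N, hC, hN, hf⟩ := D.far_Xa a
  obtain ⟨C', N', hC', hN', hf'⟩ := h.far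
  obtain ⟨C₁, N₁, F⟩ := D.farB
  have F' : FarB φ₀ z R ρ H C₁ (max N₁ N') :=
    ⟨F.C0, F.N0.trans (le_max_left _ _), fun i => (F.big i).trans_le (le_max_left _ _),
      fun x hx => F.rho x ((le_max_left _ _).trans hx),
      fun x hx => F.E x ((le_max_left _ _).trans hx),
      fun x hx => F.Hb x ((le_max_left _ _).trans hx),
      fun x h hx => F.p x h ((le_max_left _ _).trans hx),
      fun x h hx => F.p' x h ((le_max_left _ _).trans hx),
      fun x h hx => F.pc' x h ((le_max_left _ _).trans hx)⟩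
  obtain ⟨C₂, h1, h2⟩ := F'.JE_le1 a d hC' (e := e) (e' := e')
    (fun x hx hxN => (hf' x hx ((le_max_right _ _).trans hxN)).1)
    (fun x hx hxN => (hf' x hx ((le_max_right _ _).trans hxN)).2)
  refine ⟨(C + |d| * C') + C₂, max N (max N₁ N'), by positivity, hN.trans (le_max_left _ _),
    fun x hx hxN => ?_⟩
  have g1 : N ≤ ‖x‖ := (le_max_left _ _).trans hxN
  have g2 : N' ≤ ‖x‖ := (le_max_right _ _).trans ((le_max_right _ _).trans hxN)
  have g3 : max N₁ N' ≤ ‖x‖ := (le_max_right _ _).trans hxN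
  have hx1 : 1 ≤ ‖x‖ := hN.trans g1
  have i1 : 0 ≤ ‖x‖⁻¹ := by positivity
  have i2 : 0 ≤ (‖x‖ ^ 2)⁻¹ := by positivity
  have i3 : 0 ≤ (‖x‖ ^ 3)⁻¹ := by positivity
  refine ⟨?_, ?_, ?_⟩
  · calc |Xa z R ρ a x - d * e x| ≤ |Xa z R ρ a x| + |d * e x| := abs_sub _ _
      _ ≤ C * ‖x‖⁻¹ + |d| * (C' * ‖x‖⁻¹) := by
          rw [abs_mul]
          exact add_le_add (hf x g1).1 (mul_le_mul_of_nonneg_left (hf' x hx g2).1 (abs_nonneg d))
      _ ≤ _ := by nlinarith [mul_nonneg h1 i1]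
  · calc ‖Xa' z R ρ H a x - d • e' x‖ ≤
        ‖Xa' z R ρ H a x‖ + ‖d • e' x‖ := norm_sub_le _ _
      _ ≤ C * (‖x‖ ^ 2)⁻¹ + |d| * (C' * (‖x‖ ^ 2)⁻¹) := by
          rw [norm_smul, Real.norm_eq_abs]
          exact add_le_add (hf x g1).2 (mul_le_mul_of_nonneg_left (hf' x hx g2).2 (abs_nonneg d))
      _ ≤ _ := by nlinarith [mul_nonneg h1 i2]
  · refine (h2 x hx g3).trans ?_
    have h3 : 0 ≤ |d| * C' := by positivity
    nlinarith [mul_nonneg hC i3, mul_nonneg h3 i3]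

end gen

/-! ### two nuclei -/

section two

variable {φ₀ : ℝ} {z : Fin 2 → ℝ} {R : Fin 2 → X} {ρ : X → ℝ} {H : X → X →L[ℝ] X} {lo hi : ℝ}

variable {e f : X → ℝ} {e' f' : X → X} {l m : X → ℝ} {θ : X → ℝ} {θ' : X → X}

/-- the two parts of the axial field -/
structure PairE (φ₀ : ℝ) (z : Fin 2 → ℝ) (R : Fin 2 → X) (ρ : X → ℝ) (H : X → X →L[ℝ] X)
    (e f : X → ℝ) (e' f' : X → X) (l m : X → ℝ) : Prop where
  regl : RegE φ₀ z R ρ 0 e e' l
  regr : RegE φ₀ z R ρ 1 f f' m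
  sum : ∀ x, x ∉ ax → e x + f x = E1 z R ρ x
  sum' : ∀ x, x ∉ ax → e' x + f' x = -(H x e1)

theorem right_eq (D : Dat φ₀ z R ρ H lo hi) {d : ℝ} (hd : d = (R 1).fst - (R 0).fst) :
    R 1 = R 0 + d • e1 := by
  have hR0 : (R 0).fst • e1 = R 0 := fst_smul_of_ax (D.ax.on_axis 0)
  have hR1 : (R 1).fst • e1 = R 1 := fst_smul_of_ax (D.ax.on_axis 1)
  have h1 : (R 1).fst • e1 = (R 0).fst • e1 + d • e1 := by
    rw [hd]
    module
  rwa [hR0, hR1] at h1

theorem PairE.Y_eq (D : Dat φ₀ z R ρ H lo hi) (h : PairE φ₀ z R ρ H e f e' f' l m) {d : ℝ}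
    (hd : d = (R 1).fst - (R 0).fst) {x : X} (hx : x ∉ Col.ax) :
    Xa z R ρ (R 0) x - d * e x = Xa z R ρ (R 1) x - -d * f x := by
  rw [Xa_shift z R ρ (right_eq D hd) x, ← h.sum x hx]
  ring

theorem PairE.Y'_eq (D : Dat φ₀ z R ρ H lo hi) (h : PairE φ₀ z R ρ H e f e' f' l m) {d : ℝ}
    (hd : d = (R 1).fst - (R 0).fst) {x : X} (hx : x ∉ Col.ax) :
    Xa' z R ρ H (R 0) x - d • e' x = Xa' z R ρ H (R 1) x - -d • f' x := by
  rw [Xa'_shift z R ρ H (right_eq D hd) x, ← h.sum' x hx]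
  module

/-- **the difference of the two currents** -/
theorem PairE.JE_sub (D : Dat φ₀ z R ρ H lo hi) (h : PairE φ₀ z R ρ H e f e' f' l m) {d : ℝ}
    (hd : d = (R 1).fst - (R 0).fst) {x : X} (hx : x ∉ Col.ax) :
    JE z R ρ H (R 0) d e e' x - JE z R ρ H (R 1) (-d) f f' x =
      d ^ 2 • (e x • f' x - f x • e' x) + d • ((ht x ^ 2 * pf z R ρ x ^ 2) • cf' z R ρ H x) := by
  have hR1 : (R 1).fst • e1 = R 1 := fst_smul_of_ax (D.ax.on_axis 1)
  have h0 := D.force_current (R 1).fst hx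
  rw [hR1] at h0
  rw [← h0]
  have h1 : x - R 0 = (x - R 1) + d • e1 := by
    rw [right_eq D hd]
    abel
  have he : e x = -⟪psi' z R ρ x, e1⟫ - f x := by
    have := h.sum x hx
    unfold E1 at this
    linarith
  have he' : e' x = -(H x e1) - f' x := by
    rw [← h.sum' x hx]
    abel
  unfold JE Xa Xa' sta
  rw [h1, he, he', map_add, map_smul, inner_add_right, real_inner_smul_right]
  generalize x - R 1 = y
  module

/-- **the trial is admissible** -/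
theorem PairE.trLoc (D : Dat φ₀ z R ρ H lo hi) (hz : ∀ i, 0 < z i) (hR : Function.Injective R)
    (h : PairE φ₀ z R ρ H e f e' f' l m) {d e0 f0 : ℝ} (hd : d = (R 1).fst - (R 0).fst)
    (he0 : Tendsto e (𝓝[Col.axᶜ] R 0) (𝓝 e0)) (hf0 : Tendsto f (𝓝[Col.axᶜ] R 1) (𝓝 f0)) :
    TrLoc z R (fun x => Xa z R ρ (R 0) x - d * e x)
      (fun x => Xa' z R ρ H (R 0) x - d • e' x) ![-(d * e0), -(-d * f0)] := by
  refine ⟨D.ax.on_axis, fun x hx => ?_, ?_, fun x₀ hx₀ hx₀R => ?_, fun x₀ hx₀ hx₀R => ?_,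
    fun i => ?_, fun i => ?_, fun ε hε => ?_, ?_⟩
  · exact ((D.c1_Xa (R 0)).lip hx).sub ((LipAt.const d x).mul (h.regl.lip x hx))
  · filter_upwards [ae_off_ax, h.regl.grad] with x hx hg
    have h1 := ((D.c1_Xa (R 0)).grad x hx).hasFDerivAt
    have h2 := hg.hasFDerivAt.const_mul d
    rw [hasGradientAt_iff_hasFDerivAt]
    refine (h1.sub h2).congr_fderiv ?_
    rw [map_sub, map_smul]
  · obtain ⟨a, ha⟩ := h.regl.lim x₀ hx₀ hx₀R
    have h1 := (D.cont_Xa (R 0) hx₀R).tendsto.mono_left (nhdsWithin_le_nhds (s := Col.axᶜ))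
    exact ⟨_, h1.sub (ha.const_mul d)⟩
  · exact h.regl.bd_Y D (R 0) d hx₀ hx₀R
  · revert i
    refine Fin.forall_fin_two.mpr ⟨(h.regl.nuc_Y D hz hR d he0).1, ?_⟩
    refine (h.regr.nuc_Y D hz hR (-d) hf0).1.congr' ?_
    filter_upwards [self_mem_nhdsWithin] with x hx
    rw [← h.Y_eq D hd hx]
  · revert i
    refine Fin.forall_fin_two.mpr ⟨(h.regl.nuc_Y D hz hR d he0).2, ?_⟩
    obtain ⟨C, δ, hδ, hb⟩ := (h.regr.nuc_Y D hz hR (-d) hf0).2
    refine ⟨C, δ, hδ, fun x hx hxa => ?_⟩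
    rw [h.Y'_eq D hd hxa]
    exact hb x hx hxa
  · obtain ⟨C, N, hC, hN, hf⟩ := h.regl.far_Y D (R 0) d
    refine ⟨max N (C / ε), fun x hx hxN => ?_⟩
    have h1 : N ≤ ‖x‖ := (le_max_left _ _).trans hxN
    have h3 : C / ε ≤ ‖x‖ := (le_max_right _ _).trans hxN
    have hx0 : 0 < ‖x‖ := by linarith
    refine (hf x hx h1).1.trans ?_
    rw [← div_eq_mul_inv, div_le_iff₀ hx0]
    rw [div_le_iff₀ hε] at h3
    linarith
  · obtain ⟨C, N, hC, hN, hf⟩ := h.regl.far_Y D (R 0) d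
    exact ⟨C, N, hN, fun x hx hxN => (hf x hx hxN).2.1⟩

/-- the cut off function between the nuclei -/
structure CutF (R : Fin 2 → X) (θ : X → ℝ) (θ' : X → X) : Prop where
  lip : ∀ x, x ∉ ax → LipAt θ x
  grad : ∀ᵐ x : X, HasGradientAt θ (θ' x) x
  nonneg : ∀ x, 0 ≤ θ x
  le_one : ∀ x, θ x ≤ 1
  left : ∀ᶠ x in 𝓝 (R 0), θ x = 0
  right : ∀ᶠ x in 𝓝 (R 1), θ x = 1

/-- the error density of the cut trial (in units of `D²`) -/
noncomputable def cutErr (φ₀ : ℝ) (z : Fin 2 → ℝ) (R : Fin 2 → X) (ρ : X → ℝ)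
    (H : X → X →L[ℝ] X) (e f : X → ℝ) (e' f' : X → X) (l m : X → ℝ) (θ : X → ℝ) (θ' : X → X)
    (x : X) : ℝ :=
  (1 - θ x) * (e x * (4 * Real.pi * gam (psi φ₀ z R ρ x) * e x - l x)) +
    θ x * (f x * (4 * Real.pi * gam (psi φ₀ z R ρ x) * f x - m x)) -
    ⟪θ' x, (e x • f' x - f x • e' x) +
      ((R 1).fst - (R 0).fst)⁻¹ • ((ht x ^ 2 * pf z R ρ x ^ 2) • cf' z R ρ H x)⟫

/-- the current -/
noncomputable def cutJ (z : Fin 2 → ℝ) (R : Fin 2 → X) (ρ : X → ℝ)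
    (H : X → X →L[ℝ] X) (e f : X → ℝ) (e' f' : X → X) (θ : X → ℝ) (x : X) : X :=
  JE z R ρ H ((R 0).fst • e1) ((R 1).fst - (R 0).fst) e e' x +
    θ x • (JE z R ρ H ((R 1).fst • e1) (-((R 1).fst - (R 0).fst)) f f' x -
      JE z R ρ H ((R 0).fst • e1) ((R 1).fst - (R 0).fst) e e' x)

theorem gcut_zero {ε : ℝ} {y : X} (h : ¬ ‖y‖ < 2 * ε) : Flux.gcut ε y = 0 := by
  unfold Flux.gcut
  rw [indicator_of_notMem, zero_smul]
  intro h1
  exact h h1.2

/-- the flux near a nucleus depends only on the germ of the current -/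
theorem flux_congr {J K : X → X} {P : X} (h : ∀ᶠ x in 𝓝 P, J x = K x) :
    ∀ᶠ ε in 𝓝[>] (0 : ℝ), ∫ x, ⟪J x, Flux.gcut ε (x - P)⟫ =
      ∫ x, ⟪K x, Flux.gcut ε (x - P)⟫ := by
  obtain ⟨δ, hδ, hb⟩ := Metric.eventually_nhds_iff_ball.mp h
  filter_upwards [Ioo_mem_nhdsGT (show (0 : ℝ) < δ / 2 by positivity)] with ε hε
  refine integral_congr_ae (Eventually.of_forall fun x => ?_)
  beta_reduce
  by_cases h1 : ‖x - P‖ < 2 * ε
  · rw [hb x]
    rw [mem_ball, dist_eq_norm]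
    linarith [hε.2]
  · rw [gcut_zero h1, inner_zero_right, inner_zero_right]

/-- **the certificate of the cut trial** -/
theorem PairE.certN (D : Dat φ₀ z R ρ H lo hi) (hz : ∀ i, 0 < z i)
    (hlt : (R 0).fst < (R 1).fst) (h : PairE φ₀ z R ρ H e f e' f' l m)
    (hθ : CutF R θ θ') (hI : Integrable (cutErr φ₀ z R ρ H e f e' f' l m θ θ'))
    {d e0 f0 : ℝ} (hd : d = (R 1).fst - (R 0).fst)
    (he0 : Tendsto e (𝓝[Col.axᶜ] R 0) (𝓝 e0)) (hf0 : Tendsto f (𝓝[Col.axᶜ] R 1) (𝓝 f0)) :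
    ∃ dd : X → ℝ, CertN φ₀ z R ρ (fun x => Xa z R ρ (R 0) x - d * e x)
      (fun x => Xa' z R ρ H (R 0) x - d • e' x) ![-(d * e0), -(-d * f0)]
      (d ^ 2 * ∫ x, cutErr φ₀ z R ρ H e f e' f' l m θ θ' x) (fun _ => 0)
      (cutJ z R ρ H e f e' f' θ) dd
      (fun x => d ^ 2 * cutErr φ₀ z R ρ H e f e' f' l m θ θ' x) := by
  have h01 : R 0 ≠ R 1 := HDip.ne_left hlt
  have hR : Function.Injective R := by
    intro i j hij
    fin_cases i <;> fin_cases j
    · rfl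
    · exact absurd hij h01
    · exact absurd hij h01.symm
    · rfl
  have hR0 : (R 0).fst • e1 = R 0 := fst_smul_of_ax (D.ax.on_axis 0)
  have hR1 : (R 1).fst • e1 = R 1 := fst_smul_of_ax (D.ax.on_axis 1)
  have hd0 : 0 < d := by rw [hd]; linarith
  have wa := D.wdl_JE (R 0).fst d h.regl.lip h.regl.grad h.regl.wdl
  have wb := D.wdl_JE (R 1).fst (-d) h.regr.lip h.regr.grad h.regr.wdl
  have hw := wa.add ((wb.sub wa).mul_lip hθ.lip hθ.grad)
  have hJeq : cutJ z R ρ H e f e' f' θ = fun x => JE z R ρ H ((R 0).fst • e1) d e e' x +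
      θ x • (JE z R ρ H ((R 1).fst • e1) (-d) f f' x -
        JE z R ρ H ((R 0).fst • e1) d e e' x) := by
    unfold cutJ
    rw [← hd]
  refine ⟨_, by rw [hJeq]; exact hw, hI.const_mul _, ?_, ?_, ?_, ?_, ?_⟩
  · rw [integral_const_mul]
    simp
  · have ha := D.axb_JE ((R 0).fst • e1) d h.regl.bdN h.regl.axb
    have hb := D.axb_JE ((R 1).fst • e1) (-d) h.regr.bdN h.regr.axb
    have ht' : BdN R θ := fun x₀ _ _ => ⟨1, 1, one_pos, fun x _ _ => by
      rw [Real.norm_of_nonneg (hθ.nonneg x)]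
      exact hθ.le_one x⟩
    rw [hJeq]
    exact ha.add (AxB.bsmul ht' (hb.sub ha))
  · filter_upwards [ae_off_ax] with x hx
    apply le_of_eq
    have k1 := h.JE_sub D hd hx
    rw [hR0, hR1]
    have k2 : JE z R ρ H (R 1) (-d) f f' x - JE z R ρ H (R 0) d e e' x =
        -(d ^ 2 • ((e x • f' x - f x • e' x) +
          d⁻¹ • ((ht x ^ 2 * pf z R ρ x ^ 2) • cf' z R ρ H x))) := by
      rw [← neg_sub, k1]
      congr 1
      rw [smul_add, smul_smul (d ^ 2)]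
      congr 2
      field_simp
    rw [k2]
    unfold cutErr Fd
    rw [← hd]
    beta_reduce
    rw [h.Y_eq D hd hx, h.Y'_eq D hd hx, inner_neg_right, real_inner_smul_right]
    ring
  · intro i
    have key : ∀ (j : Fin 2) (d' : ℝ) (g : X → ℝ) (g' : X → X) (k : X → ℝ) (g0 : ℝ),
        RegE φ₀ z R ρ j g g' k → Tendsto g (𝓝[Col.axᶜ] R j) (𝓝 g0) →
        ContinuousOn (JE z R ρ H ((R j).fst • e1) d' g g') Col.axᶜ →
        (∀ᶠ x in 𝓝 (R j), cutJ z R ρ H e f e' f' θ x = JE z R ρ H ((R j).fst • e1) d' g g' x) →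
        ∀ η : ℝ, 0 < η → ∀ᶠ ε in 𝓝[>] (0 : ℝ),
          -∫ x, ⟪cutJ z R ρ H e f e' f' θ x, Flux.gcut ε (x - R j)⟫ ≤
            8 * Real.pi * (z j * (-(d' * g0))) + 0 + η := by
      intro j d' g g' k g0 hg hg0 hc hev η hη
      obtain ⟨C, hC⟩ := hg.near D
      have h2 := D.JE_flux_self' hz hR j hc hg0 hC η hη
      filter_upwards [h2, flux_congr hev] with ε h3 h4
      rw [h4]
      have h5 := (abs_le.mp h3).2
      linarith
    intro η hη
    revert i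
    refine Fin.forall_fin_two.mpr ⟨?_, ?_⟩
    · refine key 0 d e e' l e0 h.regl he0 wa.contA ?_ η hη
      filter_upwards [hθ.left] with x hx
      rw [hJeq]
      beta_reduce
      rw [hx, zero_smul, add_zero]
    · refine key 1 (-d) f f' m f0 h.regr hf0 wb.contA ?_ η hη
      filter_upwards [hθ.right] with x hx
      rw [hJeq]
      beta_reduce
      rw [hx, one_smul, add_sub_cancel]
  · obtain ⟨C, N, hC, hN, hf⟩ := h.regl.far_Y D (R 0) d
    obtain ⟨C', N', hC', hN', hf'⟩ := h.regr.far_Y D (R 1) (-d)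
    refine flux_inf_le (flux_inf (C := 2 * C + C') (N₀ := max N N') (by positivity)
      fun x hx hxN => ?_)
    have g1 := (hf x hx ((le_max_left _ _).trans hxN)).2.2
    have g2 := (hf' x hx ((le_max_right _ _).trans hxN)).2.2
    rw [hJeq, hR0, hR1]
    beta_reduce
    have t0 := hθ.nonneg x
    have t1 := hθ.le_one x
    have i3 : 0 ≤ (‖x‖ ^ 3)⁻¹ := by positivity
    calc ‖JE z R ρ H (R 0) d e e' x + θ x • (JE z R ρ H (R 1) (-d) f f' x -
          JE z R ρ H (R 0) d e e' x)‖ ≤ ‖JE z R ρ H (R 0) d e e' x‖ +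
          ‖θ x • (JE z R ρ H (R 1) (-d) f f' x - JE z R ρ H (R 0) d e e' x)‖ := norm_add_le _ _
      _ ≤ ‖JE z R ρ H (R 0) d e e' x‖ + 1 * (‖JE z R ρ H (R 1) (-d) f f' x‖ +
          ‖JE z R ρ H (R 0) d e e' x‖) := by
          rw [norm_smul, Real.norm_of_nonneg t0]
          refine add_le_add le_rfl (mul_le_mul t1 (norm_sub_le _ _) (norm_nonneg _) zero_le_one)
      _ ≤ (2 * C + C') * (‖x‖ ^ 3)⁻¹ := by linarith

end two

end Pool.Agent.TF.Col

end

section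
/-! Two nuclei: the trial `Y = X_a - D x_b P_b = X_b + D x_a P_a` with the certificate cut by a
ramp between the nuclei; the criterion is one integral inequality. -/

set_option autoImplicit false

set_option linter.unusedSectionVars false

set_option linter.unusedVariables false

set_option linter.style.haveILetI false

namespace Pool.Agent.TF.Grd
end Pool.Agent.TF.Grd

namespace Pool.Agent
end Pool.Agent

namespace Pool.Agent.TF.Col

open MeasureTheory Set Metric Filter Topology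

open scoped ENNReal NNReal RealInnerProductSpace Gradient

open Pool.Agent.TF.Grd

section gen

variable {ι : Type*} [Fintype ι]

theorem cutF_ramp {R : Fin 2 → X} {m w : ℝ} (hw : 0 < w) (h0 : (R 0).fst < m - w)
    (h1 : m + w < (R 1).fst) :
    CutF R (fun x => ramp m w x.fst) fun x => ramp' m w x.fst • e1 := by
  have hc : Continuous fun x : X => x.fst := by fun_prop
  refine ⟨fun x _ => lipAt_of_lip (ramp_lipX hw) x, ?_, fun x => ramp_nonneg _ _ _,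
    fun x => ramp_le_one _ _ _, ?_, ?_⟩
  · filter_upwards [plane_null (m - w), plane_null (m + w)] with x hx1 hx2
    exact ramp_grad hw hx1 hx2
  · filter_upwards [hc.continuousAt.eventually (Iio_mem_nhds h0)] with y hy
    exact ramp_zero hw (le_of_lt hy)
  · filter_upwards [hc.continuousAt.eventually (Ioi_mem_nhds h1)] with y hy
    exact ramp_one hw (le_of_lt hy)

end gen

end Pool.Agent.TF.Col

namespace Pool.Agent.Lib.MP_9cf0c9_mp

open MeasureTheory Set Filter Topology Pool.Agent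

open scoped RealInnerProductSpace

/-- **the end theorem** with certificates with errors at the nuclei, the heavier nucleus on the
left, for the charges with a property `P` -/
theorem two_of_trialNP (P : (Fin 2 → ℝ) → Prop)
    (hP : ∀ z : Fin 2 → ℝ, P z → P fun i => z (Equiv.swap 0 1 i))
    (H : ∀ φ₀ : ℝ, 0 < φ₀ → ∀ z : Fin 2 → ℝ, (∀ i, 0 < z i) → z 1 ≤ z 0 → P z →
      ∀ R : Fin 2 → TF.X, (∀ i, R i ∈ TF.Col.ax) → (R 0).fst < (R 1).fst →
      ∀ ρ : TF.X → ℝ, ∀ Hs : TF.X → TF.X →L[ℝ] TF.X,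
      TF.Col.Dat φ₀ z R ρ Hs (R 0).fst (R 1).fst → ∀ η : ℝ, 0 < η →
      ∃ (Y : TF.X → ℝ) (Y' : TF.X → TF.X) (L : Fin 2 → ℝ) (K : TF.X → ℝ) (K' : TF.X → TF.X)
        (c : Fin 2 → ℝ) (J : TF.X → TF.X) (d e : TF.X → ℝ) (η' : ℝ), η' ≤ η ∧
        TF.Col.TrYL z R Y Y' L K K' ∧ TF.Col.CertN φ₀ z R ρ Y Y' L η' c J d e)
    (z : Fin 2 → ℝ) (hz : ∀ j, 0 ≤ z j) (hPz : (∀ i, 0 < z i) → P z) (R : Fin 2 → E3)
    (hR : Function.Injective R) (lam : ℝ) (hlam : 0 ≤ lam) : Target z R lam := by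
  by_cases h0 : z 0 = 0
  · refine Target.of_one (i := 1) (fun j hj => ?_) lam
    fin_cases j
    · exact h0
    · exact absurd rfl hj
  by_cases h1 : z 1 = 0
  · refine Target.of_one (i := 0) (fun j hj => ?_) lam
    fin_cases j
    · exact absurd rfl hj
    · exact h1
  have hzp : ∀ i, 0 < z i := by
    intro i
    fin_cases i
    · exact lt_of_le_of_ne (hz 0) (Ne.symm h0)
    · exact lt_of_le_of_ne (hz 1) (Ne.symm h1)
  -- ordered nuclei
  have key : ∀ φ₀ : ℝ, 0 < φ₀ → ∀ z : Fin 2 → ℝ, (∀ i, 0 < z i) → z 1 ≤ z 0 → P z →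
      ∀ R' : Fin 2 → TF.X, Function.Injective R' →
      (∀ i, R' i ∈ TF.Col.ax) → (R' 0).fst < (R' 1).fst →
      ∀ ρ : TF.X → ℝ, TF.TC ρ →
      (∀ x, ρ x = TF.tf (TF.Vpt z R' x - TF.pot ρ x - φ₀)) → ∀ η : ℝ, 0 < η →
      ∃ (k : TF.X → ℝ) (k' : TF.X → TF.X), TF.TrialK TF.Col.ax k k' ∧
        -η ≤ TF.Vtr φ₀ z R' ρ k ((8 * Real.pi)⁻¹ * ∫ x, ‖k' x‖ ^ 2) := by
    intro φ₀ hφ z hzp hzz hPz R' hR' hax hlt ρ hρ heq η hη
    obtain ⟨Hs, hHs⟩ := TF.Grd.exists_hessSol (fun i => (hzp i).le) R' hφ hρ heq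
    have hAx : TF.Col.Axial z R' ρ (R' 0).fst (R' 1).fst := by
      refine TF.Col.axial hzp hax hφ hρ heq (fun i => ?_) fun i => ?_
      · fin_cases i
        · exact le_rfl
        · exact hlt.le
      · fin_cases i
        · exact hlt.le
        · exact le_rfl
    have D : TF.Col.Dat φ₀ z R' ρ Hs (R' 0).fst (R' 1).fst :=
      ⟨fun i => (hzp i).le, hφ, hρ, heq, hHs, hAx⟩
    obtain ⟨Y, Y', L, K, K', c, J, d, e, η', hη', hK, hJ⟩ :=
      H φ₀ hφ z hzp hzz hPz R' hax hlt ρ Hs D η hη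
    refine ⟨K, K', hK.tr, ?_⟩
    refine le_trans ?_ (TF.Col.Vtr_ge_certN (fun i => (hzp i).le) hR' hφ hρ heq hK hJ)
    rw [neg_le_neg_iff]
    have h3 : (4 * Real.pi)⁻¹ ≤ 1 := by
      have := Real.pi_gt_three
      rw [inv_le_one₀ (by positivity)]
      linarith
    have h4 : 0 < (4 * Real.pi)⁻¹ := by positivity
    calc (4 * Real.pi)⁻¹ * η' ≤ (4 * Real.pi)⁻¹ * η := mul_le_mul_of_nonneg_left hη' h4.le
      _ ≤ 1 * η := mul_le_mul_of_nonneg_right h3 hη.le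
      _ = η := one_mul η
  have hne : R 0 ≠ R 1 := fun h => absurd (hR h) (by decide)
  rcases le_total (z 1) (z 0) with hzz | hzz
  · -- the axis points from the first to the second nucleus
    have hn : 0 < ‖R 1 - R 0‖ := norm_pos_iff.mpr (sub_ne_zero.mpr hne.symm)
    refine target_of_unit z hz R hR (a := R 0) (w := ‖R 1 - R 0‖⁻¹ • (R 1 - R 0))
      (s := ![0, ‖R 1 - R 0‖]) ?_ (fun j => ?_) (fun φ₀ hφ c hc R' hR'e hR' hax ρ hρ heq η hη =>
        key φ₀ hφ z hzp hzz (hPz hzp) R' hR' hax ?_ ρ hρ heq η hη) lam hlam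
    · rw [norm_smul, norm_inv, norm_norm, inv_mul_cancel₀ hn.ne']
    · fin_cases j
      · simp
      · simp only [Fin.mk_one, Matrix.cons_val_one, Matrix.cons_val_fin_one]
        rw [smul_smul, mul_inv_cancel₀ hn.ne', one_smul, add_sub_cancel]
    · rw [hR'e 0, hR'e 1, fst_smul_e1, fst_smul_e1]
      simp only [Matrix.cons_val_zero, Matrix.cons_val_one, Matrix.cons_val_fin_one, mul_zero]
      exact mul_pos hc hn
  · -- the axis points from the second to the first nucleus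
    have hn : 0 < ‖R 0 - R 1‖ := norm_pos_iff.mpr (sub_ne_zero.mpr hne)
    refine target_of_unit z hz R hR (a := R 1) (w := ‖R 0 - R 1‖⁻¹ • (R 0 - R 1))
      (s := ![‖R 0 - R 1‖, 0]) ?_ (fun j => ?_) (fun φ₀ hφ c hc R' hR'e hR' hax ρ hρ heq η hη =>
        ?_) lam hlam
    · rw [norm_smul, norm_inv, norm_norm, inv_mul_cancel₀ hn.ne']
    · fin_cases j
      · simp only [Fin.zero_eta, Matrix.cons_val_zero]
        rw [smul_smul, mul_inv_cancel₀ hn.ne', one_smul, add_sub_cancel]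
      · simp
    · have hVp : TF.Vpt (fun i => z (Equiv.swap 0 1 i)) (fun i => R' (Equiv.swap 0 1 i)) =
          TF.Vpt z R' := by
        funext x
        exact Equiv.sum_comp (Equiv.swap (0 : Fin 2) 1) fun i => z i * ‖x - R' i‖⁻¹
      have hlt : (R' 1).fst < (R' 0).fst := by
        rw [hR'e 0, hR'e 1, fst_smul_e1, fst_smul_e1]
        simp only [Matrix.cons_val_zero, Matrix.cons_val_one, Matrix.cons_val_fin_one, mul_zero]
        exact mul_pos hc hn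
      obtain ⟨k, k', hk, hV⟩ := key φ₀ hφ (fun i => z (Equiv.swap 0 1 i)) (fun i => hzp _)
        (by simpa using hzz) (hP z (hPz hzp)) (fun i => R' (Equiv.swap 0 1 i))
        (hR'.comp (Equiv.swap 0 1).injective) (fun i => hax _) (by simpa using hlt) ρ hρ
        (by rw [hVp]; exact heq) η hη
      rw [Vtr_swap] at hV
      exact ⟨k, k', hk, hV⟩

end Pool.Agent.Lib.MP_9cf0c9_mp

end

section
/-! Two nuclei: the part `x_s P` of the axial field (`P` the weight of the other nucleus) is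
regular at the nucleus. -/

set_option autoImplicit false

set_option linter.unusedSectionVars false

set_option linter.unusedVariables false

set_option linter.style.haveILetI false

namespace Pool.Agent.TF.Grd
end Pool.Agent.TF.Grd

namespace Pool.Agent.TF.Col

open MeasureTheory Set Metric Filter Topology

open scoped ENNReal NNReal RealInnerProductSpace Gradient

open Pool.Agent.TF.Grd

section gen

variable {ι : Type*} [Fintype ι]

variable {φ₀ : ℝ} {z : ι → ℝ} {R : ι → X} {ρ : X → ℝ} {H : X → X →L[ℝ] X} {lo hi : ℝ}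

/-- the limit of a weight at a point of the axis -/
theorem Dat.wt_tendsto (D : Dat φ₀ z R ρ H lo hi) (a b : ℝ) {x₀ : X} (h0 : x₀ ∈ Col.ax)
    (h0R : ∀ i, x₀ ≠ R i) : ∃ w, Tendsto (wt z R ρ a b) (𝓝[Col.axᶜ] x₀) (𝓝 w) := by
  obtain ⟨δ, hδ, C, hC, hH⟩ := D.holder h0R
  have h1 := D.pf_tendsto h0 h0R hδ hH
  have h2 := D.pz_tendsto h0R
  have h3 : Tendsto (fun x : X => b - x.fst) (𝓝[Col.axᶜ] x₀) (𝓝 (b - x₀.fst)) :=
    ((by fun_prop : Continuous fun x : X => b - x.fst).tendsto x₀).mono_left nhdsWithin_le_nhds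
  refine ⟨_, (((h1.mul h3).add h2).const_mul (b - a)⁻¹).congr fun x => ?_⟩
  unfold wt zt
  ring

theorem lim_mul_fst {e : X → ℝ} {x₀ : X} {w : ℝ} (s : ℝ)
    (h : Tendsto e (𝓝[Col.axᶜ] x₀) (𝓝 w)) :
    Tendsto (fun x => (x.fst - s) * e x) (𝓝[Col.axᶜ] x₀) (𝓝 ((x₀.fst - s) * w)) := by
  have h3 : Tendsto (fun x : X => x.fst - s) (𝓝[Col.axᶜ] x₀) (𝓝 (x₀.fst - s)) :=
    ((by fun_prop : Continuous fun x : X => x.fst - s).tendsto x₀).mono_left nhdsWithin_le_nhds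
  exact h3.mul h

theorem abs_fst_sub_le {x x₀ : X} {δ s : ℝ} (hx : x ∈ ball x₀ δ) (hδ : δ ≤ 1) :
    |x.fst - s| ≤ ‖x₀‖ + 1 + |s| := by
  have h1 : |x.fst| ≤ ‖x‖ := by
    rw [← inner_e1]
    refine (abs_real_inner_le_norm _ _).trans ?_
    rw [norm_e1, mul_one]
  have h2 : ‖x‖ ≤ ‖x₀‖ + ‖x - x₀‖ := by
    have : x = x₀ + (x - x₀) := by abel
    conv_lhs => rw [this]
    exact norm_add_le _ _
  have h3 : ‖x - x₀‖ < δ := mem_ball_iff_norm.mp hx
  have h4 : |x.fst - s| ≤ |x.fst| + |s| := abs_sub _ _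
  linarith

/-- **the part `x_s P` of the axial field is regular at the nucleus `i`** (`t` the position of
the nucleus `i`, `P = wt s t` the weight of the nucleus at `s`) -/
theorem Dat.regE (D : Dat φ₀ z R ρ H lo hi) (hz : ∀ i, 0 < z i) (hR : Function.Injective R)
    (i : ι) {s : ℝ} (hs : (R i).fst ≠ s) :
    RegE φ₀ z R ρ i (fun x => (x.fst - s) * wt z R ρ s (R i).fst x)
      (fun x => (x.fst - s) • wt' z R ρ H s (R i).fst x + wt z R ρ s (R i).fst x • e1)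
      (fun x => 4 * Real.pi * gam (psi φ₀ z R ρ x) * ((x.fst - s) * wt z R ρ s (R i).fst x) -
        2 / ht x * rot s (wt' z R ρ H s (R i).fst x) x) := by
  obtain ⟨t, ht0⟩ : ∃ t : ℝ, t = (R i).fst := ⟨_, rfl⟩
  obtain ⟨δn, Cn, W, hδn, hδn1, hCn, hn, -⟩ := D.nuc_wt hz hR i hs
  rw [← ht0] at hs hn ⊢
  have hc := D.c1_xwt s s t
  have hnorm : ∀ x : X, ‖(x.fst - s) • wt' z R ρ H s t x + wt z R ρ s t x • e1‖ ≤
      |x.fst - s| * ‖wt' z R ρ H s t x‖ + |wt z R ρ s t x| := by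
    intro x
    refine (norm_add_le _ _).trans ?_
    rw [norm_smul, norm_smul, norm_e1, mul_one, Real.norm_eq_abs, Real.norm_eq_abs]
  refine ⟨fun x hx => hc.lip hx, ?_, ?_, fun x₀ hx₀ hx₀R => ?_, fun x₀ hx₀ hx₀R => ?_, ?_, ?_, ?_⟩
  · filter_upwards [ae_off_ax] with x hx
    exact hc.grad x hx
  · refine ((D.wd_xwt s s t).mul hc).toL.congr (fun x hx => rfl) ?_
    filter_upwards with x
    rw [real_inner_self_eq_norm_sq]
  · obtain ⟨w, hw⟩ := D.wt_tendsto s t hx₀ hx₀R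
    exact ⟨_, lim_mul_fst s hw⟩
  · obtain ⟨C, δ, hδ, hC, h1⟩ := D.axis_wt' s t hx₀ hx₀R
    obtain ⟨B, δ', hδ', h2⟩ := D.bdN_wt s t x₀ hx₀ hx₀R
    refine ⟨(‖x₀‖ + 1 + |s|) * C + |B|, min (min δ δ') 1, by positivity, fun x hx hxa => ?_⟩
    have hs0 := ht_pos hxa
    have hu : 0 < √(ht x) := Real.sqrt_pos.mpr hs0
    have g1 := h1 x (ball_subset_ball ((min_le_left _ _).trans (min_le_left _ _)) hx) hxa
    have g2 := h2 x (ball_subset_ball ((min_le_left _ _).trans (min_le_right _ _)) hx) hxa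
    have g3 : |x.fst - s| ≤ ‖x₀‖ + 1 + |s| := abs_fst_sub_le hx (min_le_right _ _)
    have g4 : ‖wt' z R ρ H s t x‖ ≤ C * (√(ht x))⁻¹ := by
      rw [← div_eq_mul_inv, le_div_iff₀ hu]
      linarith
    rw [Real.norm_eq_abs] at g2
    have i1 : 0 ≤ (√(ht x))⁻¹ := by positivity
    have i2 : 0 ≤ (‖x₀‖ + 1 + |s|) * C := by positivity
    calc ‖(x.fst - s) • wt' z R ρ H s t x + wt z R ρ s t x • e1‖ ≤
        |x.fst - s| * ‖wt' z R ρ H s t x‖ + |wt z R ρ s t x| := hnorm x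
      _ ≤ (‖x₀‖ + 1 + |s|) * (C * (√(ht x))⁻¹) + |B| :=
        add_le_add (mul_le_mul g3 g4 (norm_nonneg _) (by positivity)) (g2.trans (le_abs_self B))
      _ ≤ ((‖x₀‖ + 1 + |s|) * C + |B|) * (1 + (√(ht x))⁻¹) := by
        nlinarith [mul_nonneg (abs_nonneg B) i1]
  · -- the limit at the nucleus
    have h1 : Tendsto (wt z R ρ s t) (𝓝[Col.axᶜ] R i) (𝓝 W) := by
      rw [tendsto_iff_norm_sub_tendsto_zero]
      have h1 : Tendsto (fun x : X => Cn * √‖x - R i‖) (𝓝[Col.axᶜ] R i) (𝓝 0) := by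
        have : Tendsto (fun x : X => Cn * √‖x - R i‖) (𝓝 (R i)) (𝓝 (Cn * √‖R i - R i‖)) :=
          (by fun_prop : Continuous fun x : X => Cn * √‖x - R i‖).tendsto (R i)
        rw [sub_self, norm_zero, Real.sqrt_zero, mul_zero] at this
        exact this.mono_left nhdsWithin_le_nhds
      refine squeeze_zero' (Eventually.of_forall fun x => norm_nonneg _) ?_ h1
      filter_upwards [self_mem_nhdsWithin, mem_nhdsWithin_of_mem_nhds (ball_mem_nhds (R i) hδn)]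
        with x hx hxb
      exact (hn x hxb hx).reg
    exact ⟨_, lim_mul_fst s h1⟩
  · refine ⟨(‖R i‖ + 1 + |s|) * Cn + (|W| + Cn), δn, hδn, fun x hx hxa => ?_⟩
    have hb := hn x hx hxa
    have g3 : |x.fst - s| ≤ ‖R i‖ + 1 + |s| := abs_fst_sub_le hx hδn1
    have g4 := hb.reg'
    have g5 : |wt z R ρ s t x| ≤ |W| + Cn := by
      have h1 := abs_sub_abs_le_abs_sub (wt z R ρ s t x) W
      have h2 : Cn * √‖x - R i‖ ≤ Cn := by
        have : √‖x - R i‖ ≤ 1 := by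
          rw [← Real.sqrt_one]
          exact Real.sqrt_le_sqrt ((mem_ball_iff_norm.mp hx).le.trans hδn1)
        exact mul_le_of_le_one_right hCn this
      linarith [hb.reg]
    have i1 : 0 ≤ (√(ht x))⁻¹ := by positivity
    have i2 : 0 ≤ (‖R i‖ + 1 + |s|) * Cn := by positivity
    have i3 : 0 ≤ |W| + Cn := by positivity
    calc ‖(x.fst - s) • wt' z R ρ H s t x + wt z R ρ s t x • e1‖ ≤
        |x.fst - s| * ‖wt' z R ρ H s t x‖ + |wt z R ρ s t x| := hnorm x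
      _ ≤ (‖R i‖ + 1 + |s|) * (Cn * (√(ht x))⁻¹) + (|W| + Cn) :=
        add_le_add (mul_le_mul g3 g4 (norm_nonneg _) (by positivity)) g5
      _ ≤ ((‖R i‖ + 1 + |s|) * Cn + (|W| + Cn)) * (1 + (√(ht x))⁻¹) := by
        nlinarith [mul_nonneg i3 i1]
  · obtain ⟨C, N, hC, hN, h⟩ := D.far_wt s t
    refine ⟨(1 + |s|) * C + C, N, by positivity, by linarith, fun x hx hxN => ?_⟩
    obtain ⟨g1, g2⟩ := h x hx hxN
    have hx1 : 1 ≤ ‖x‖ := hN.trans hxN
    have hx0 : 0 < ‖x‖ := by linarith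
    have g3 : |x.fst - s| ≤ (1 + |s|) * ‖x‖ := by
      have h1 : |x.fst| ≤ ‖x‖ := by
        rw [← inner_e1]
        refine (abs_real_inner_le_norm _ _).trans ?_
        rw [norm_e1, mul_one]
      have h4 : |x.fst - s| ≤ |x.fst| + |s| := abs_sub _ _
      nlinarith [abs_nonneg s]
    have i3 : ‖x‖ * (‖x‖ ^ 3)⁻¹ = (‖x‖ ^ 2)⁻¹ := by
      field_simp
    have i2 : (‖x‖ ^ 2)⁻¹ ≤ ‖x‖⁻¹ := by
      refine inv_anti₀ hx0 ?_
      nlinarith
    have i4 : (‖x‖ ^ 3)⁻¹ ≤ (‖x‖ ^ 2)⁻¹ :=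
      inv_anti₀ (by positivity) (pow_le_pow_right₀ hx1 (by norm_num))
    have j1 : 0 ≤ ‖x‖⁻¹ := by positivity
    constructor
    · rw [abs_mul]
      calc |x.fst - s| * |wt z R ρ s t x| ≤ ((1 + |s|) * ‖x‖) * (C * (‖x‖ ^ 3)⁻¹) :=
            mul_le_mul g3 g1 (abs_nonneg _) (by positivity)
        _ = ((1 + |s|) * C) * (‖x‖ ^ 2)⁻¹ := by rw [← i3]; ring
        _ ≤ ((1 + |s|) * C) * ‖x‖⁻¹ := mul_le_mul_of_nonneg_left i2 (by positivity)
        _ ≤ ((1 + |s|) * C + C) * ‖x‖⁻¹ := by nlinarith [mul_nonneg hC j1]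
    · calc ‖(x.fst - s) • wt' z R ρ H s t x + wt z R ρ s t x • e1‖ ≤
          |x.fst - s| * ‖wt' z R ρ H s t x‖ + |wt z R ρ s t x| := hnorm x
        _ ≤ ((1 + |s|) * ‖x‖) * (C * (‖x‖ ^ 3)⁻¹) + C * (‖x‖ ^ 3)⁻¹ :=
          add_le_add (mul_le_mul g3 g2 (norm_nonneg _) (by positivity)) g1
        _ = ((1 + |s|) * C) * (‖x‖ ^ 2)⁻¹ + C * (‖x‖ ^ 3)⁻¹ := by rw [← i3]; ring
        _ ≤ ((1 + |s|) * C) * (‖x‖ ^ 2)⁻¹ + C * (‖x‖ ^ 2)⁻¹ :=
          add_le_add le_rfl (mul_le_mul_of_nonneg_left i4 hC)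
        _ = _ := by ring

end gen

/-! ### the two parts of the axial field of two nuclei -/

section two

variable {φ₀ : ℝ} {z : Fin 2 → ℝ} {R : Fin 2 → X} {ρ : X → ℝ} {H : X → X →L[ℝ] X} {lo hi : ℝ}

/-- `E₁ = x_b P_b + x_a P_a` -/
theorem Dat.pairW (D : Dat φ₀ z R ρ H lo hi) (hz : ∀ i, 0 < z i) (hR : Function.Injective R)
    (hlt : (R 0).fst < (R 1).fst) :
    PairE φ₀ z R ρ H
      (fun x => (x.fst - (R 1).fst) * wt z R ρ (R 1).fst (R 0).fst x)
      (fun x => (x.fst - (R 0).fst) * wt z R ρ (R 0).fst (R 1).fst x)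
      (fun x => (x.fst - (R 1).fst) • wt' z R ρ H (R 1).fst (R 0).fst x +
        wt z R ρ (R 1).fst (R 0).fst x • e1)
      (fun x => (x.fst - (R 0).fst) • wt' z R ρ H (R 0).fst (R 1).fst x +
        wt z R ρ (R 0).fst (R 1).fst x • e1)
      (fun x => 4 * Real.pi * gam (psi φ₀ z R ρ x) * ((x.fst - (R 1).fst) *
        wt z R ρ (R 1).fst (R 0).fst x) -
        2 / ht x * rot (R 1).fst (wt' z R ρ H (R 1).fst (R 0).fst x) x)
      (fun x => 4 * Real.pi * gam (psi φ₀ z R ρ x) * ((x.fst - (R 0).fst) *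
        wt z R ρ (R 0).fst (R 1).fst x) -
        2 / ht x * rot (R 0).fst (wt' z R ρ H (R 0).fst (R 1).fst x) x) := by
  refine ⟨D.regE hz hR 0 hlt.ne, D.regE hz hR 1 hlt.ne', fun x hx => ?_, fun x hx => ?_⟩
  · have := D.E1_wt hlt.ne hx
    unfold E1
    linarith
  · -- the gradient of the axial field
    have h1 : HasGradientAt (fun x : X => (x.fst - (R 1).fst) * wt z R ρ (R 1).fst (R 0).fst x +
        (x.fst - (R 0).fst) * wt z R ρ (R 0).fst (R 1).fst x)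
        (((x.fst - (R 1).fst) • wt' z R ρ H (R 1).fst (R 0).fst x +
        wt z R ρ (R 1).fst (R 0).fst x • e1) +
        ((x.fst - (R 0).fst) • wt' z R ρ H (R 0).fst (R 1).fst x +
        wt z R ρ (R 0).fst (R 1).fst x • e1)) x :=
      ((D.c1_xwt _ _ _).add (D.c1_xwt _ _ _)).grad x hx
    have h2 := D.c1_E1.grad x (D.off hx)
    have h3 : (fun x : X => (x.fst - (R 1).fst) * wt z R ρ (R 1).fst (R 0).fst x +
        (x.fst - (R 0).fst) * wt z R ρ (R 0).fst (R 1).fst x) =ᶠ[𝓝 x] E1 z R ρ := by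
      filter_upwards [isOpen_off_ax.mem_nhds hx] with y hy
      have := D.E1_wt hlt.ne hy
      unfold E1
      linarith
    exact (h1.congr_of_eventuallyEq h3.symm).unique h2

end two

end Pool.Agent.TF.Col

end

section
/-! Two nuclei: combinations `α(x₁) P_a + β(x₁) P_b` of the weights with `C^{1,1}` coefficients. -/

set_option autoImplicit false

set_option linter.unusedSectionVars false

set_option linter.unusedVariables false

set_option linter.style.haveILetI false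

namespace Pool.Agent.TF.Grd
end Pool.Agent.TF.Grd

namespace Pool.Agent.TF.Col

open MeasureTheory Set Metric Filter Topology

open scoped ENNReal NNReal RealInnerProductSpace Gradient

open Pool.Agent.TF.Grd

/-! ### the primitive of the ramp -/

/-- the primitive of the ramp -/
noncomputable def rph (m w t : ℝ) : ℝ := ∫ s in (m - w)..t, ramp m w s

section rph

variable {m w t : ℝ}

theorem ramp_cont (hw : 0 < w) : Continuous (ramp m w) := (ramp_lip hw).continuous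

theorem rph_deriv (hw : 0 < w) (t : ℝ) : HasDerivAt (rph m w) (ramp m w t) t :=
  ((ramp_cont hw).integral_hasStrictDerivAt (m - w) t).hasDerivAt

theorem rph_left (hw : 0 < w) (h : t ≤ m - w) : rph m w t = 0 := by
  unfold rph
  have h1 : ∫ s in (m - w)..t, ramp m w s = ∫ s in (m - w)..t, (0 : ℝ) := by
    refine intervalIntegral.integral_congr fun s hs => ?_
    rw [uIcc_of_ge h] at hs
    exact ramp_zero hw hs.2
  rw [h1, intervalIntegral.integral_zero]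

theorem rph_right (hw : 0 < w) (h : m + w ≤ t) : rph m w t = t - m := by
  unfold rph
  have hi : ∀ a b : ℝ, IntervalIntegrable (ramp m w) volume a b :=
    fun a b => (ramp_cont hw).intervalIntegrable a b
  rw [← intervalIntegral.integral_add_adjacent_intervals (hi (m - w) (m + w)) (hi (m + w) t)]
  have h1 : ∫ s in (m - w)..(m + w), ramp m w s = w := by
    have h2 : ∫ s in (m - w)..(m + w), ramp m w s =
        ∫ s in (m - w)..(m + w), (s - (m - w)) / (2 * w) := by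
      refine intervalIntegral.integral_congr fun s hs => ?_
      rw [uIcc_of_le (by linarith)] at hs
      exact ramp_mid hw hs.1 hs.2
    rw [h2, intervalIntegral.integral_div, intervalIntegral.integral_sub
      intervalIntegral.intervalIntegrable_id intervalIntegrable_const, integral_id,
      intervalIntegral.integral_const, smul_eq_mul]
    field_simp
    ring
  have h3 : ∫ s in (m + w)..t, ramp m w s = t - (m + w) := by
    have h2 : ∫ s in (m + w)..t, ramp m w s = ∫ s in (m + w)..t, (1 : ℝ) := by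
      refine intervalIntegral.integral_congr fun s hs => ?_
      rw [uIcc_of_le h] at hs
      exact ramp_one hw hs.1
    rw [h2, intervalIntegral.integral_const, smul_eq_mul, mul_one]
  rw [h1, h3]
  ring

theorem abs_ramp_le (m w t : ℝ) : |ramp m w t| ≤ 1 := by
  rw [abs_of_nonneg (ramp_nonneg m w t)]
  exact ramp_le_one m w t

theorem abs_rph_le (m w t : ℝ) : |rph m w t| ≤ |t - (m - w)| := by
  have h := intervalIntegral.norm_integral_le_of_norm_le_const (a := m - w) (b := t)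
    (f := ramp m w) (C := 1) fun s _ => by
      rw [Real.norm_eq_abs]
      exact abs_ramp_le m w s
  rwa [one_mul, Real.norm_eq_abs] at h

end rph

/-! ### coefficients -/

/-- a coefficient function with its two derivatives -/
structure Cfn (α α₁ α₂ : ℝ → ℝ) : Prop where
  der : ∀ t, HasDerivAt α (α₁ t) t
  cont : Continuous α₁
  lipX : ∀ x : X, LipAt (fun y : X => α₁ y.fst) x
  gradX : ∀ᵐ x : X, HasGradientAt (fun y : X => α₁ y.fst) (α₂ x.fst • e1) x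
  bd : ∃ C : ℝ, 0 ≤ C ∧ ∀ t, |α t| ≤ C * (1 + |t|) ∧ |α₁ t| ≤ C

theorem cfn_al {m w : ℝ} (hw : 0 < w) (u v c : ℝ) :
    Cfn (fun t => u + v * t + c * rph m w t) (fun t => v + c * ramp m w t)
      fun t => c * ramp' m w t := by
  refine ⟨fun t => ?_, ?_, fun x => ?_, ?_, ?_⟩
  · have h1 := (((hasDerivAt_id t).const_mul v).const_add u).add
      ((rph_deriv (m := m) hw t).const_mul c)
    rw [mul_one] at h1
    exact h1
  · exact continuous_const.add (continuous_const.mul (ramp_cont hw))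
  · exact (LipAt.const v x).add ((LipAt.const c x).mul (lipAt_of_lip (ramp_lipX hw) x))
  · filter_upwards [plane_null (m - w), plane_null (m + w)] with x h1 h2
    have h3 := ramp_grad hw h1 h2
    rw [hasGradientAt_iff_hasFDerivAt] at h3 ⊢
    refine ((h3.const_mul c).const_add v).congr_fderiv ?_
    rw [map_smul, map_smul, smul_smul]
  · refine ⟨|u| + |v| + |c| * (1 + |m - w|), by positivity, fun t => ⟨?_, ?_⟩⟩
    · have h1 : |rph m w t| ≤ |t| + |m - w| := (abs_rph_le m w t).trans (abs_sub _ _)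
      have h2 : |u + v * t + c * rph m w t| ≤ |u| + |v| * |t| + |c| * (|t| + |m - w|) := by
        refine (abs_add_le _ _).trans (add_le_add ((abs_add_le _ _).trans ?_) ?_)
        · rw [abs_mul]
        · rw [abs_mul]
          exact mul_le_mul_of_nonneg_left h1 (abs_nonneg c)
      refine h2.trans ?_
      have a1 := abs_nonneg u
      have a2 := abs_nonneg v
      have a3 := abs_nonneg c
      have a4 := abs_nonneg t
      have a5 := abs_nonneg (m - w)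
      nlinarith [mul_nonneg a1 a4, mul_nonneg a3 a4, mul_nonneg (mul_nonneg a3 a5) a4]
    · refine (abs_add_le _ _).trans ?_
      rw [abs_mul]
      have h1 := mul_le_mul_of_nonneg_left (abs_ramp_le m w t) (abs_nonneg c)
      have a1 := abs_nonneg u
      have a3 := mul_nonneg (abs_nonneg c) (abs_nonneg (m - w))
      linarith

theorem Cfn.c1 {α α₁ α₂ : ℝ → ℝ} (h : Cfn α α₁ α₂) :
    C1O (fun x : X => α x.fst) fun x => α₁ x.fst • e1 :=
  C1O.fst.comp (F := α) (F' := α₁) (T := univ) (fun _ _ => mem_univ _) (fun t _ => h.der t)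
    h.cont.continuousOn

theorem Cfn.contX {α α₁ α₂ : ℝ → ℝ} (h : Cfn α α₁ α₂) : Continuous fun x : X => α x.fst := by
  have h1 : Continuous α := continuous_iff_continuousAt.mpr fun t => (h.der t).continuousAt
  exact h1.comp (by fun_prop)

/-! ### regular combinations -/

section gen

variable {ι : Type*} [Fintype ι]

variable {φ₀ : ℝ} {z : ι → ℝ} {R : ι → X} {ρ : X → ℝ} {H : X → X →L[ℝ] X} {lo hi : ℝ}

/-- a continuously differentiable part of the axial field which is regular at the nucleus `i` -/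
structure RegC (φ₀ : ℝ) (z : ι → ℝ) (R : ι → X) (ρ : X → ℝ) (i : ι)
    (e : X → ℝ) (e' : X → X) (l : X → ℝ) : Prop where
  c1 : C1O e e'
  wd : WDL e' l
  lim : ∀ x₀ ∈ ax, (∀ j, x₀ ≠ R j) → ∃ a, Tendsto e (𝓝[axᶜ] x₀) (𝓝 a)
  bd : ∀ x₀ ∈ ax, (∀ j, x₀ ≠ R j) → ∃ C δ : ℝ, 0 ≤ C ∧ 0 < δ ∧ ∀ x ∈ ball x₀ δ, x ∉ ax →
    ‖e' x‖ ≤ C * (1 + (√(ht x))⁻¹)
  nuc : ∃ e0, Tendsto e (𝓝[axᶜ] (R i)) (𝓝 e0)
  nuc' : ∃ C δ : ℝ, 0 ≤ C ∧ 0 < δ ∧ ∀ x ∈ ball (R i) δ, x ∉ ax →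
    ‖e' x‖ ≤ C * (1 + (√(ht x))⁻¹)
  far : ∃ C N, 0 ≤ C ∧ 1 ≤ N ∧ ∀ x, x ∉ ax → N ≤ ‖x‖ → |e x| ≤ C * ‖x‖⁻¹ ∧
    ‖e' x‖ ≤ C * (‖x‖ ^ 2)⁻¹

variable {i : ι} {e f : X → ℝ} {e' f' : X → X} {l k : X → ℝ}

theorem RegC.toE (h : RegC φ₀ z R ρ i e e' l) : RegE φ₀ z R ρ i e e' l := by
  refine ⟨fun x hx => h.c1.lip hx, ?_, ?_, h.lim, fun x₀ h0 hR => ?_, h.nuc, ?_, ?_⟩
  · filter_upwards [ae_off_ax] with x hx
    exact h.c1.grad x hx
  · refine (h.wd.mul h.c1).congr_div (Eventually.of_forall fun x => ?_)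
    rw [real_inner_self_eq_norm_sq]
  · obtain ⟨C, δ, -, hδ, hb⟩ := h.bd x₀ h0 hR
    exact ⟨C, δ, hδ, hb⟩
  · obtain ⟨C, δ, -, hδ, hb⟩ := h.nuc'
    exact ⟨C, δ, hδ, hb⟩
  · obtain ⟨C, N, hC, hN, hb⟩ := h.far
    exact ⟨C, N, hC, by linarith, hb⟩

theorem RegC.add (h : RegC φ₀ z R ρ i e e' l) (g : RegC φ₀ z R ρ i f f' k) :
    RegC φ₀ z R ρ i (fun x => e x + f x) (fun x => e' x + f' x) fun x => l x + k x := by
  refine ⟨h.c1.add g.c1, h.wd.add g.wd, fun x₀ h0 hR => ?_, fun x₀ h0 hR => ?_, ?_, ?_, ?_⟩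
  · obtain ⟨a, ha⟩ := h.lim x₀ h0 hR
    obtain ⟨b, hb⟩ := g.lim x₀ h0 hR
    exact ⟨_, ha.add hb⟩
  · obtain ⟨C, δ, hC, hδ, hb⟩ := h.bd x₀ h0 hR
    obtain ⟨C', δ', hC', hδ', hb'⟩ := g.bd x₀ h0 hR
    refine ⟨C + C', min δ δ', by positivity, lt_min hδ hδ', fun x hx hxa => ?_⟩
    refine (norm_add_le _ _).trans ?_
    rw [add_mul]
    exact add_le_add (hb x (ball_subset_ball (min_le_left _ _) hx) hxa)
      (hb' x (ball_subset_ball (min_le_right _ _) hx) hxa)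
  · obtain ⟨a, ha⟩ := h.nuc
    obtain ⟨b, hb⟩ := g.nuc
    exact ⟨_, ha.add hb⟩
  · obtain ⟨C, δ, hC, hδ, hb⟩ := h.nuc'
    obtain ⟨C', δ', hC', hδ', hb'⟩ := g.nuc'
    refine ⟨C + C', min δ δ', by positivity, lt_min hδ hδ', fun x hx hxa => ?_⟩
    refine (norm_add_le _ _).trans ?_
    rw [add_mul]
    exact add_le_add (hb x (ball_subset_ball (min_le_left _ _) hx) hxa)
      (hb' x (ball_subset_ball (min_le_right _ _) hx) hxa)
  · obtain ⟨C, N, hC, hN, hb⟩ := h.far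
    obtain ⟨C', N', hC', hN', hb'⟩ := g.far
    refine ⟨C + C', max N N', by positivity, hN.trans (le_max_left _ _), fun x hx hxN => ?_⟩
    have g1 := hb x hx ((le_max_left _ _).trans hxN)
    have g2 := hb' x hx ((le_max_right _ _).trans hxN)
    constructor
    · refine (abs_add_le _ _).trans ?_
      rw [add_mul]
      exact add_le_add g1.1 g2.1
    · refine (norm_add_le _ _).trans ?_
      rw [add_mul]
      exact add_le_add g1.2 g2.2

variable {α α₁ α₂ : ℝ → ℝ}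

/-- the gradient of `α(x₁) P` -/
noncomputable def aw' (z : ι → ℝ) (R : ι → X) (ρ : X → ℝ) (H : X → X →L[ℝ] X) (a b : ℝ)
    (α α₁ : ℝ → ℝ) (x : X) : X :=
  α x.fst • wt' z R ρ H a b x + (α₁ x.fst * wt z R ρ a b x) • e1

/-- its divergence -/
noncomputable def al (φ₀ : ℝ) (z : ι → ℝ) (R : ι → X) (ρ : X → ℝ) (H : X → X →L[ℝ] X) (a b : ℝ)
    (α α₁ α₂ : ℝ → ℝ) (x : X) : ℝ :=
  4 * Real.pi * gam (psi φ₀ z R ρ x) * (α x.fst * wt z R ρ a b x) -
    2 / ht x * (α x.fst * ⟪wt' z R ρ H a b x, es x⟫) +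
    2 * (α₁ x.fst * ⟪wt' z R ρ H a b x, e1⟫) + α₂ x.fst * wt z R ρ a b x

theorem Dat.c1_aw (D : Dat φ₀ z R ρ H lo hi) (hα : Cfn α α₁ α₂) (a b : ℝ) :
    C1O (fun x => α x.fst * wt z R ρ a b x) (aw' z R ρ H a b α α₁) := by
  refine (hα.c1.mul (D.c1_wt a b)).congr' fun x _ => ?_
  unfold aw'
  rw [smul_smul, mul_comm (wt z R ρ a b x)]

theorem Dat.wd_aw (D : Dat φ₀ z R ρ H lo hi) (hα : Cfn α α₁ α₂) (a b : ℝ) :
    WDL (aw' z R ρ H a b α α₁) (al φ₀ z R ρ H a b α α₁ α₂) := by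
  have h1 := ((D.wd_wt a b).mul hα.c1).toL
  have h2 := ((WD.const e1).mul (D.c1_wt a b)).toL.mul_lip (fun x _ => hα.lipX x) hα.gradX
  refine (h1.add h2).congr (fun x hx => ?_) (Eventually.of_forall fun x => ?_)
  · unfold aw'
    rw [smul_smul]
  · unfold al
    simp only [real_inner_smul_left, real_inner_smul_right, inner_e1_self, mul_zero, add_zero,
      real_inner_comm (wt' z R ρ H a b x) e1]
    ring

theorem norm_aw'_le (z : ι → ℝ) (R : ι → X) (ρ : X → ℝ) (H : X → X →L[ℝ] X) (a b : ℝ)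
    (α α₁ : ℝ → ℝ) (x : X) : ‖aw' z R ρ H a b α α₁ x‖ ≤
      |α x.fst| * ‖wt' z R ρ H a b x‖ + |α₁ x.fst| * |wt z R ρ a b x| := by
  unfold aw'
  refine (norm_add_le _ _).trans ?_
  rw [norm_smul, norm_smul, norm_e1, mul_one, Real.norm_eq_abs, Real.norm_eq_abs, abs_mul]

theorem abs_fst_le_of_ball {x x₀ : X} {δ : ℝ} (hx : x ∈ ball x₀ δ) (hδ : δ ≤ 1) :
    |x.fst| ≤ ‖x₀‖ + 1 := by
  have h := abs_fst_sub_le (s := 0) hx hδ
  rwa [sub_zero, abs_zero, add_zero] at h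

/-- local bound of the gradient -/
theorem aw'_near {C B K : ℝ} {a b : ℝ} {x₀ : X} {δ : ℝ} (hK : 0 ≤ K) (hC : 0 ≤ C) (hB : 0 ≤ B)
    (hα : ∀ t, |α t| ≤ K * (1 + |t|) ∧ |α₁ t| ≤ K) (hδ : δ ≤ 1) {x : X} (hx : x ∈ ball x₀ δ)
    (h1 : ‖wt' z R ρ H a b x‖ ≤ C * (√(ht x))⁻¹) (h2 : |wt z R ρ a b x| ≤ B) :
    ‖aw' z R ρ H a b α α₁ x‖ ≤ (K * (2 + ‖x₀‖) * C + K * B) * (1 + (√(ht x))⁻¹) := by
  have g0 := norm_aw'_le z R ρ H a b α α₁ x
  have g1 := (hα x.fst).1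
  have g2 := (hα x.fst).2
  have g3 := abs_fst_le_of_ball hx hδ
  have i1 : 0 ≤ (√(ht x))⁻¹ := by positivity
  have g4 : |α x.fst| ≤ K * (2 + ‖x₀‖) := by
    refine g1.trans (mul_le_mul_of_nonneg_left ?_ hK)
    linarith
  have n0 := norm_nonneg x₀
  have i2 : 0 ≤ K * (2 + ‖x₀‖) * C := by positivity
  have i3 : 0 ≤ K * B := by positivity
  calc ‖aw' z R ρ H a b α α₁ x‖ ≤
      |α x.fst| * ‖wt' z R ρ H a b x‖ + |α₁ x.fst| * |wt z R ρ a b x| := g0
    _ ≤ (K * (2 + ‖x₀‖)) * (C * (√(ht x))⁻¹) + K * B :=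
      add_le_add (mul_le_mul g4 h1 (norm_nonneg _) (by positivity))
        (mul_le_mul g2 h2 (abs_nonneg _) hK)
    _ ≤ _ := by nlinarith [mul_nonneg i3 i1]

theorem Dat.aw_bd (D : Dat φ₀ z R ρ H lo hi) (hα : Cfn α α₁ α₂) (a b : ℝ) {x₀ : X}
    (h0 : x₀ ∈ Col.ax) (hR : ∀ j, x₀ ≠ R j) : ∃ C δ : ℝ, 0 ≤ C ∧ 0 < δ ∧ ∀ x ∈ ball x₀ δ,
      x ∉ Col.ax →
      ‖aw' z R ρ H a b α α₁ x‖ ≤ C * (1 + (√(ht x))⁻¹) := by
  obtain ⟨K, hK, hb⟩ := hα.bd
  obtain ⟨C, δ, hδ, hC, h1⟩ := D.axis_wt' a b h0 hR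
  obtain ⟨B, δ', hδ', h2⟩ := D.bdN_wt a b x₀ h0 hR
  refine ⟨K * (2 + ‖x₀‖) * C + K * |B|, min (min δ δ') 1, by positivity, by positivity,
    fun x hx hxa => ?_⟩
  have hs0 := ht_pos hxa
  have hu : 0 < √(ht x) := Real.sqrt_pos.mpr hs0
  have g1 := h1 x (ball_subset_ball ((min_le_left _ _).trans (min_le_left _ _)) hx) hxa
  have g2 := h2 x (ball_subset_ball ((min_le_left _ _).trans (min_le_right _ _)) hx) hxa
  refine aw'_near hK hC (abs_nonneg B) hb (min_le_right _ _) hx ?_ ?_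
  · rw [← div_eq_mul_inv, le_div_iff₀ hu]
    linarith
  · rw [← Real.norm_eq_abs]
    exact g2.trans (le_abs_self B)

theorem Dat.aw_far (D : Dat φ₀ z R ρ H lo hi) (hα : Cfn α α₁ α₂) (a b : ℝ) :
    ∃ C N, 0 ≤ C ∧ 1 ≤ N ∧ ∀ x, x ∉ Col.ax → N ≤ ‖x‖ →
      |α x.fst * wt z R ρ a b x| ≤ C * ‖x‖⁻¹ ∧
      ‖aw' z R ρ H a b α α₁ x‖ ≤ C * (‖x‖ ^ 2)⁻¹ := by
  obtain ⟨K, hK, hb⟩ := hα.bd
  obtain ⟨C, N, hC, hN, h⟩ := D.far_wt a b
  refine ⟨3 * K * C, N, by positivity, hN, fun x hx hxN => ?_⟩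
  obtain ⟨g1, g2⟩ := h x hx hxN
  have hx1 : 1 ≤ ‖x‖ := hN.trans hxN
  have hx0 : 0 < ‖x‖ := by linarith
  have h1 : |x.fst| ≤ ‖x‖ := by
    rw [← inner_e1]
    refine (abs_real_inner_le_norm _ _).trans ?_
    rw [norm_e1, mul_one]
  have g3 : |α x.fst| ≤ 2 * K * ‖x‖ := by
    refine (hb x.fst).1.trans ?_
    have : K * (1 + |x.fst|) ≤ K * (‖x‖ + ‖x‖) :=
      mul_le_mul_of_nonneg_left (add_le_add hx1 h1) hK
    linarith
  have g4 := (hb x.fst).2
  have i3 : ‖x‖ * (‖x‖ ^ 3)⁻¹ = (‖x‖ ^ 2)⁻¹ := by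
    field_simp
  have i2 : (‖x‖ ^ 2)⁻¹ ≤ ‖x‖⁻¹ := by
    refine inv_anti₀ hx0 ?_
    nlinarith
  have i4 : (‖x‖ ^ 3)⁻¹ ≤ (‖x‖ ^ 2)⁻¹ :=
    inv_anti₀ (by positivity) (pow_le_pow_right₀ hx1 (by norm_num))
  have j1 : 0 ≤ ‖x‖⁻¹ := by positivity
  have hKC : 0 ≤ K * C := by positivity
  constructor
  · rw [abs_mul]
    calc |α x.fst| * |wt z R ρ a b x| ≤ (2 * K * ‖x‖) * (C * (‖x‖ ^ 3)⁻¹) :=
          mul_le_mul g3 g1 (abs_nonneg _) (by positivity)
      _ = (2 * K * C) * (‖x‖ ^ 2)⁻¹ := by rw [← i3]; ring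
      _ ≤ (2 * K * C) * ‖x‖⁻¹ := mul_le_mul_of_nonneg_left i2 (by positivity)
      _ ≤ 3 * K * C * ‖x‖⁻¹ := by nlinarith [mul_nonneg hKC j1]
  · calc ‖aw' z R ρ H a b α α₁ x‖ ≤
        |α x.fst| * ‖wt' z R ρ H a b x‖ + |α₁ x.fst| * |wt z R ρ a b x| := norm_aw'_le ..
      _ ≤ (2 * K * ‖x‖) * (C * (‖x‖ ^ 3)⁻¹) + K * (C * (‖x‖ ^ 3)⁻¹) :=
        add_le_add (mul_le_mul g3 g2 (norm_nonneg _) (by positivity))
          (mul_le_mul g4 g1 (abs_nonneg _) hK)
      _ = (2 * K * C) * (‖x‖ ^ 2)⁻¹ + (K * C) * (‖x‖ ^ 3)⁻¹ := by rw [← i3]; ring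
      _ ≤ (2 * K * C) * (‖x‖ ^ 2)⁻¹ + (K * C) * (‖x‖ ^ 2)⁻¹ :=
        add_le_add le_rfl (mul_le_mul_of_nonneg_left i4 hKC)
      _ = _ := by ring

theorem Cfn.lim_mul (hα : Cfn α α₁ α₂) {g : X → ℝ} {x₀ : X} {v : ℝ}
    (h : Tendsto g (𝓝[Col.axᶜ] x₀) (𝓝 v)) :
    Tendsto (fun x => α x.fst * g x) (𝓝[Col.axᶜ] x₀) (𝓝 (α x₀.fst * v)) :=
  ((hα.contX.tendsto x₀).mono_left nhdsWithin_le_nhds).mul h

/-- **the regular weight** (of the nucleus at `s`), times any coefficient, is regular at the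
nucleus `i` -/
theorem Dat.regC_reg (D : Dat φ₀ z R ρ H lo hi) (hz : ∀ i, 0 < z i)
    (hR : Function.Injective R) (i : ι) {s : ℝ} (hs : (R i).fst ≠ s) (hα : Cfn α α₁ α₂) :
    RegC φ₀ z R ρ i (fun x => α x.fst * wt z R ρ s (R i).fst x)
      (aw' z R ρ H s (R i).fst α α₁) (al φ₀ z R ρ H s (R i).fst α α₁ α₂) := by
  obtain ⟨t, ht0⟩ : ∃ t : ℝ, t = (R i).fst := ⟨_, rfl⟩
  obtain ⟨δn, Cn, W, hδn, hδn1, hCn, hn, -⟩ := D.nuc_wt hz hR i hs
  obtain ⟨K, hK, hb⟩ := hα.bd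
  rw [← ht0] at hs hn ⊢
  refine ⟨D.c1_aw hα s t, D.wd_aw hα s t, fun x₀ hx₀ hx₀R => ?_,
    fun x₀ hx₀ hx₀R => D.aw_bd hα s t hx₀ hx₀R, ?_, ?_, D.aw_far hα s t⟩
  · obtain ⟨v, hv⟩ := D.wt_tendsto s t hx₀ hx₀R
    exact ⟨_, hα.lim_mul hv⟩
  · have h1 : Tendsto (wt z R ρ s t) (𝓝[Col.axᶜ] R i) (𝓝 W) := by
      rw [tendsto_iff_norm_sub_tendsto_zero]
      have h1 : Tendsto (fun x : X => Cn * √‖x - R i‖) (𝓝[Col.axᶜ] R i) (𝓝 0) := by
        have : Tendsto (fun x : X => Cn * √‖x - R i‖) (𝓝 (R i)) (𝓝 (Cn * √‖R i - R i‖)) :=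
          (by fun_prop : Continuous fun x : X => Cn * √‖x - R i‖).tendsto (R i)
        rw [sub_self, norm_zero, Real.sqrt_zero, mul_zero] at this
        exact this.mono_left nhdsWithin_le_nhds
      refine squeeze_zero' (Eventually.of_forall fun x => norm_nonneg _) ?_ h1
      filter_upwards [self_mem_nhdsWithin, mem_nhdsWithin_of_mem_nhds (ball_mem_nhds (R i) hδn)]
        with x hx hxb
      exact (hn x hxb hx).reg
    exact ⟨_, hα.lim_mul h1⟩
  · refine ⟨K * (2 + ‖R i‖) * Cn + K * (|W| + Cn), δn, by positivity, hδn, fun x hx hxa => ?_⟩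
    have hbx := hn x hx hxa
    refine aw'_near hK hCn (by positivity) hb hδn1 hx hbx.reg' ?_
    have h1 := abs_sub_abs_le_abs_sub (wt z R ρ s t x) W
    have h2 : Cn * √‖x - R i‖ ≤ Cn := by
      have : √‖x - R i‖ ≤ 1 := by
        rw [← Real.sqrt_one]
        exact Real.sqrt_le_sqrt ((mem_ball_iff_norm.mp hx).le.trans hδn1)
      exact mul_le_of_le_one_right hCn this
    linarith [hbx.reg]

/-- **the singular weight**, times a coefficient which vanishes near the nucleus -/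
theorem Dat.regC_sing (D : Dat φ₀ z R ρ H lo hi) (i : ι) (a b : ℝ) (hα : Cfn α α₁ α₂) {δ : ℝ}
    (hδ : 0 < δ) (h0 : ∀ t, |t - (R i).fst| < δ → α t = 0 ∧ α₁ t = 0) :
    RegC φ₀ z R ρ i (fun x => α x.fst * wt z R ρ a b x)
      (aw' z R ρ H a b α α₁) (al φ₀ z R ρ H a b α α₁ α₂) := by
  have hnear : ∀ x ∈ ball (R i) δ, |x.fst - (R i).fst| < δ := by
    intro x hx
    have h1 : x.fst - (R i).fst = ⟪x - R i, e1⟫ := by rw [inner_e1, WithLp.sub_fst]
    rw [h1]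
    refine lt_of_le_of_lt (abs_real_inner_le_norm _ _) ?_
    rw [norm_e1, mul_one]
    exact mem_ball_iff_norm.mp hx
  refine ⟨D.c1_aw hα a b, D.wd_aw hα a b, fun x₀ hx₀ hx₀R => ?_,
    fun x₀ hx₀ hx₀R => D.aw_bd hα a b hx₀ hx₀R, ⟨0, ?_⟩, ⟨0, δ, le_rfl, hδ, fun x hx hxa => ?_⟩,
    D.aw_far hα a b⟩
  · obtain ⟨v, hv⟩ := D.wt_tendsto a b hx₀ hx₀R
    exact ⟨_, hα.lim_mul hv⟩
  · refine tendsto_const_nhds.congr' ?_
    filter_upwards [mem_nhdsWithin_of_mem_nhds (ball_mem_nhds (R i) hδ)] with x hx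
    rw [(h0 _ (hnear x hx)).1, zero_mul]
  · have h1 := h0 _ (hnear x hx)
    unfold aw'
    rw [h1.1, h1.2, zero_smul, zero_mul, zero_smul, add_zero, norm_zero, zero_mul]

end gen

end Pool.Agent.TF.Col

end

section
/-! Two nuclei: the trial `e = φ(x₁) (P_a + P_b) - (b - m) P_b`, `φ' = ramp`: it is
`-(b - m) P_b` on the left of the slab about the plane `x₁ = m` and `E₁ - (m - a) P_a` on the
right; the exact error density. -/

set_option autoImplicit false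

set_option linter.unusedSectionVars false

set_option linter.unusedVariables false

set_option linter.style.haveILetI false

namespace Pool.Agent.TF.Grd
end Pool.Agent.TF.Grd

namespace Pool.Agent.TF.Col

open MeasureTheory Set Metric Filter Topology

open scoped ENNReal NNReal RealInnerProductSpace Gradient

open Pool.Agent.TF.Grd

/-! ### algebra -/

/-- the error density as a function of the weights and their derivatives -/
noncomputable def zEr (a b m q p qx qs px ps s t φ θ r : ℝ) : ℝ :=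
  (1 - θ) * ((φ * q + (φ - (b - m)) * p) * (2 / s * (φ * qs + (φ - (b - m)) * ps) -
      2 * (θ * (qx + px)) - r * (q + p))) +
    θ * (((t - a - φ) * q + (t - m - φ) * p) * (2 / s * ((t - a - φ) * qs + (t - m - φ) * ps) -
      2 * ((1 - θ) * (qx + px)) + r * (q + p))) -
    r * ((φ * q + (φ - (b - m)) * p) * ((t - a - φ) * qx + (t - m - φ) * px +
        (1 - θ) * (q + p)) -
      ((t - a - φ) * q + (t - m - φ) * p) * (φ * qx + (φ - (b - m)) * px + θ * (q + p)) +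
      s ^ 2 * (q * px - p * qx))

/-- the first factor in the slab -/
noncomputable def zX (a b m q p t φ θ : ℝ) : ℝ :=
  -((1 - θ) * ((b - m) * p) + θ * ((m - a) * q)) + (φ - θ * (t - m)) * (q + p)

/-- the second factor in the slab -/
noncomputable def zL (b m qx qs px ps s φ θ : ℝ) : ℝ :=
  2 / s * (φ * qs + (φ - (b - m)) * ps) - 2 * (θ * (qx + px))

/-- the part of order `w` -/
noncomputable def zW (a b m q p qx px t φ θ : ℝ) : ℝ :=
  ((b - m) * (t - m) - (b - a) * φ) * (q * px - p * qx) +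
    2 * ((φ - θ * (t - m)) * (q + p) ^ 2)

/-- the leading part -/
noncomputable def zM (a b m q p qx px s θ : ℝ) : ℝ :=
  (s ^ 2 + (m - a) * (b - m)) * (q * px - p * qx) -
    2 * ((1 - θ) * ((b - m) * p * (q + p)) + θ * ((m - a) * q * (q + p)))

theorem zEr_eq {a b m q p qx qs px ps s t φ θ r : ℝ} (hs : s ≠ 0)
    (hrot : (t - a) * qs - s * qx + ((t - b) * ps - s * px) = 0) :
    zEr a b m q p qx qs px ps s t φ θ r =
      zX a b m q p t φ θ * zL b m qx qs px ps s φ θ -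
        r * (zM a b m q p qx px s θ + zW a b m q p qx px t φ θ) := by
  unfold zEr zX zL zM zW
  field_simp
  linear_combination (2 * θ * ((t - a - φ) * q + (t - m - φ) * p)) * hrot

/-- outside the slab -/
theorem zX_left {a b m q p qx qs px ps s t : ℝ} :
    zX a b m q p t 0 0 * zL b m qx qs px ps s 0 0 = 2 * (b - m) ^ 2 * (s⁻¹ * (p * ps)) := by
  unfold zX zL
  ring

theorem zX_right {a b m q p qx qs px ps s t : ℝ} (hs : s ≠ 0)
    (hrot : (t - a) * qs - s * qx + ((t - b) * ps - s * px) = 0) :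
    zX a b m q p t (t - m) 1 * zL b m qx qs px ps s (t - m) 1 =
      2 * (m - a) ^ 2 * (s⁻¹ * (q * qs)) := by
  unfold zX zL
  field_simp
  linear_combination (-(m - a) * q) * hrot

section two

variable {φ₀ : ℝ} {z : Fin 2 → ℝ} {R : Fin 2 → X} {ρ : X → ℝ} {H : X → X →L[ℝ] X} {lo hi : ℝ}

/-- the left part of the trial -/
noncomputable def eK (z : Fin 2 → ℝ) (R : Fin 2 → X) (ρ : X → ℝ) (a b m w : ℝ) (x : X) : ℝ :=
  (0 + 0 * x.fst + 1 * rph m w x.fst) * wt z R ρ a b x +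
    (-(b - m) + 0 * x.fst + 1 * rph m w x.fst) * wt z R ρ b a x

noncomputable def eK' (z : Fin 2 → ℝ) (R : Fin 2 → X) (ρ : X → ℝ) (H : X → X →L[ℝ] X)
    (a b m w : ℝ) (x : X) : X :=
  aw' z R ρ H a b (fun t => 0 + 0 * t + 1 * rph m w t) (fun t => 0 + 1 * ramp m w t) x +
    aw' z R ρ H b a (fun t => -(b - m) + 0 * t + 1 * rph m w t) (fun t => 0 + 1 * ramp m w t) x

noncomputable def eKl (φ₀ : ℝ) (z : Fin 2 → ℝ) (R : Fin 2 → X) (ρ : X → ℝ) (H : X → X →L[ℝ] X)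
    (a b m w : ℝ) (x : X) : ℝ :=
  al φ₀ z R ρ H a b (fun t => 0 + 0 * t + 1 * rph m w t) (fun t => 0 + 1 * ramp m w t)
      (fun t => 1 * ramp' m w t) x +
    al φ₀ z R ρ H b a (fun t => -(b - m) + 0 * t + 1 * rph m w t) (fun t => 0 + 1 * ramp m w t)
      (fun t => 1 * ramp' m w t) x

/-- the right part of the trial -/
noncomputable def fK (z : Fin 2 → ℝ) (R : Fin 2 → X) (ρ : X → ℝ) (a b m w : ℝ) (x : X) : ℝ :=
  (-m + 1 * x.fst + -1 * rph m w x.fst) * wt z R ρ b a x +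
    (-a + 1 * x.fst + -1 * rph m w x.fst) * wt z R ρ a b x

noncomputable def fK' (z : Fin 2 → ℝ) (R : Fin 2 → X) (ρ : X → ℝ) (H : X → X →L[ℝ] X)
    (a b m w : ℝ) (x : X) : X :=
  aw' z R ρ H b a (fun t => -m + 1 * t + -1 * rph m w t) (fun t => 1 + -1 * ramp m w t) x +
    aw' z R ρ H a b (fun t => -a + 1 * t + -1 * rph m w t) (fun t => 1 + -1 * ramp m w t) x

noncomputable def fKl (φ₀ : ℝ) (z : Fin 2 → ℝ) (R : Fin 2 → X) (ρ : X → ℝ) (H : X → X →L[ℝ] X)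
    (a b m w : ℝ) (x : X) : ℝ :=
  al φ₀ z R ρ H b a (fun t => -m + 1 * t + -1 * rph m w t) (fun t => 1 + -1 * ramp m w t)
      (fun t => -1 * ramp' m w t) x +
    al φ₀ z R ρ H a b (fun t => -a + 1 * t + -1 * rph m w t) (fun t => 1 + -1 * ramp m w t)
      (fun t => -1 * ramp' m w t) x

/-- **the two parts of the trial** -/
theorem Dat.pairK (D : Dat φ₀ z R ρ H lo hi) (hz : ∀ i, 0 < z i) (hR : Function.Injective R)
    (hlt : (R 0).fst < (R 1).fst) {m w : ℝ} (hw : 0 < w) (h0 : (R 0).fst < m - w)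
    (h1 : m + w < (R 1).fst) :
    PairE φ₀ z R ρ H (eK z R ρ (R 0).fst (R 1).fst m w) (fK z R ρ (R 0).fst (R 1).fst m w)
      (eK' z R ρ H (R 0).fst (R 1).fst m w) (fK' z R ρ H (R 0).fst (R 1).fst m w)
      (eKl φ₀ z R ρ H (R 0).fst (R 1).fst m w) (fKl φ₀ z R ρ H (R 0).fst (R 1).fst m w) := by
  have hW := D.pairW hz hR hlt
  refine ⟨RegC.toE ?_, RegC.toE ?_, fun x hx => ?_, fun x hx => ?_⟩
  · refine RegC.add (D.regC_sing 0 _ _ (cfn_al hw 0 0 1) (δ := m - w - (R 0).fst) (by linarith)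
      fun t ht => ?_) (D.regC_reg hz hR 0 hlt.ne (cfn_al hw _ 0 1))
    rw [abs_lt] at ht
    have ht' : t ≤ m - w := by linarith [ht.2]
    rw [rph_left hw ht', ramp_zero hw ht']
    constructor <;> ring
  · refine RegC.add (D.regC_sing 1 _ _ (cfn_al hw (-m) 1 (-1)) (δ := (R 1).fst - (m + w))
      (by linarith) fun t ht => ?_) (D.regC_reg hz hR 1 hlt.ne' (cfn_al hw _ 1 (-1)))
    rw [abs_lt] at ht
    have ht' : m + w ≤ t := by linarith [ht.1]
    rw [rph_right hw ht', ramp_one hw ht']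
    constructor <;> ring
  · rw [← hW.sum x hx]
    unfold eK fK
    ring
  · rw [← hW.sum' x hx]
    unfold eK' fK' aw'
    module

theorem Dat.cf'_wt (D : Dat φ₀ z R ρ H lo hi) {a b : ℝ} (hab : a ≠ b) (x : X) :
    (b - a)⁻¹ • ((ht x ^ 2 * pf z R ρ x ^ 2) • cf' z R ρ H x) =
      ht x ^ 2 • (wt z R ρ a b x • wt' z R ρ H b a x - wt z R ρ b a x • wt' z R ρ H a b x) := by
  have h1 : b - a ≠ 0 := sub_ne_zero.mpr hab.symm
  have h6 : (a - b)⁻¹ = -(b - a)⁻¹ := by rw [← inv_neg, neg_sub]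
  have e0 : (b - a)⁻¹ * (b - a) = 1 := inv_mul_cancel₀ h1
  have h2 : (b - a)⁻¹ • ((pf z R ρ x ^ 2) • cf' z R ρ H x) =
      wt z R ρ a b x • wt' z R ρ H b a x - wt z R ρ b a x • wt' z R ρ H a b x := by
    unfold wt wt'
    rw [h6]
    have e2 : ((b - a)⁻¹ * (pf z R ρ x * (b - cf z R ρ x))) •
        (-(b - a)⁻¹ • ((a - cf z R ρ x) • pf' z R ρ H x - pf z R ρ x • cf' z R ρ H x)) -
        (-(b - a)⁻¹ * (pf z R ρ x * (a - cf z R ρ x))) •
        ((b - a)⁻¹ • ((b - cf z R ρ x) • pf' z R ρ H x - pf z R ρ x • cf' z R ρ H x)) =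
        (((b - a)⁻¹ * (b - a)) * ((b - a)⁻¹ * pf z R ρ x ^ 2)) • cf' z R ρ H x := by
      module
    rw [e2, e0, one_mul, smul_smul]
  rw [← h2]
  module

theorem inner_aw' (z : Fin 2 → ℝ) (R : Fin 2 → X) (ρ : X → ℝ) (H : X → X →L[ℝ] X) (a b : ℝ)
    (α α₁ : ℝ → ℝ) (x : X) : ⟪e1, aw' z R ρ H a b α α₁ x⟫ =
      α x.fst * ⟪wt' z R ρ H a b x, e1⟫ + α₁ x.fst * wt z R ρ a b x := by
  unfold aw'
  rw [inner_add_right, real_inner_smul_right, real_inner_smul_right, inner_e1_self, mul_one,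
    real_inner_comm (wt' z R ρ H a b x) e1]

/-- **the error density** -/
theorem Dat.cutErr_K (D : Dat φ₀ z R ρ H lo hi) {a b : ℝ} (ha : a = (R 0).fst)
    (hb : b = (R 1).fst) (hab : a ≠ b) (m w : ℝ) (x : X) :
    cutErr φ₀ z R ρ H (eK z R ρ a b m w) (fK z R ρ a b m w)
      (eK' z R ρ H a b m w) (fK' z R ρ H a b m w)
      (eKl φ₀ z R ρ H a b m w) (fKl φ₀ z R ρ H a b m w)
      (fun x => ramp m w x.fst) (fun x => ramp' m w x.fst • e1) x =
    zEr a b m (wt z R ρ a b x) (wt z R ρ b a x) ⟪wt' z R ρ H a b x, e1⟫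
      ⟪wt' z R ρ H a b x, es x⟫ ⟪wt' z R ρ H b a x, e1⟫ ⟪wt' z R ρ H b a x, es x⟫ (ht x) x.fst
      (rph m w x.fst) (ramp m w x.fst) (ramp' m w x.fst) := by
  have h1 : ⟪e1, (eK z R ρ a b m w x • fK' z R ρ H a b m w x -
      fK z R ρ a b m w x • eK' z R ρ H a b m w x) +
      ((R 1).fst - (R 0).fst)⁻¹ • ((ht x ^ 2 * pf z R ρ x ^ 2) • cf' z R ρ H x)⟫ =
      eK z R ρ a b m w x * ⟪e1, fK' z R ρ H a b m w x⟫ -
      fK z R ρ a b m w x * ⟪e1, eK' z R ρ H a b m w x⟫ +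
      ht x ^ 2 * (wt z R ρ a b x * ⟪wt' z R ρ H b a x, e1⟫ -
        wt z R ρ b a x * ⟪wt' z R ρ H a b x, e1⟫) := by
    rw [← ha, ← hb, D.cf'_wt hab x]
    simp only [inner_add_right, inner_sub_right, real_inner_smul_right,
      real_inner_comm (wt' z R ρ H a b x) e1, real_inner_comm (wt' z R ρ H b a x) e1]
  unfold cutErr
  beta_reduce
  rw [real_inner_smul_left, h1]
  unfold eK' fK' eK fK eKl fKl al zEr
  rw [inner_add_right, inner_add_right, inner_aw', inner_aw', inner_aw', inner_aw']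
  ring

end two

end Pool.Agent.TF.Col

end

section
/-! Integrals over thin slabs with general weights; densities with the singularity `s^(-3/2)` at
the axis. -/

set_option autoImplicit false

set_option linter.unusedSectionVars false

set_option linter.unusedVariables false

set_option linter.style.haveILetI false

namespace Pool.Agent.TF.Grd
end Pool.Agent.TF.Grd

namespace Pool.Agent.TF.Col

open MeasureTheory Set Metric Filter Topology

open scoped ENNReal NNReal RealInnerProductSpace Gradient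

open Pool.Agent.TF.Grd

section slab

variable {F : X → ℝ} {m δ : ℝ} {g : ℝ → ℝ}

theorem ramp'_meas (m w : ℝ) : Measurable (ramp' m w) := by
  unfold ramp'
  exact Measurable.ite (measurableSet_lt (by fun_prop) measurable_const) measurable_const
    measurable_const

theorem aesm_of_cont {F : X → ℝ} (hF : ContinuousOn F axᶜ) : AEStronglyMeasurable F := by
  have h4 := hF.aestronglyMeasurable (μ := (volume : Measure X)) isClosed_ax.measurableSet.compl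
  have h5 : (volume : Measure X).restrict axᶜ = volume := by
    rw [Measure.restrict_eq_self_of_ae_mem]
    filter_upwards [ae_off_ax] with x hx
    exact hx
  rwa [h5] at h4

theorem meas_fst {k : ℝ → ℝ} (hk : Measurable k) : Measurable fun x : X => k x.fst :=
  hk.comp fst_continuous.measurable

theorem SlabB.integrable_k (h : SlabB F m δ g) {w : ℝ} (hw : 0 < w) (hwδ : w ≤ δ) {k : ℝ → ℝ}
    (hk : Measurable k) {C : ℝ} (hkb : ∀ t, |k t| ≤ C * ramp' m w t) :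
    Integrable fun x : X => k x.fst * F x := by
  refine ((h.integrable hw hwδ).norm.const_mul C).mono'
    ((meas_fst hk).aestronglyMeasurable.mul (aesm_of_cont h.cont))
    (Eventually.of_forall fun x => ?_)
  rw [norm_mul, norm_mul, Real.norm_eq_abs, Real.norm_of_nonneg (ramp'_nonneg hw), ← mul_assoc]
  exact mul_le_mul_of_nonneg_right (hkb _) (norm_nonneg _)

/-- Fubini -/
theorem SlabB.integral_k {k : ℝ → ℝ} (hI : Integrable fun x : X => k x.fst * F x) :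
    (Integrable fun τ => k τ * ∫ y : E2, F (TF.mk τ y)) ∧
    ∫ x : X, k x.fst * F x = ∫ τ, k τ * ∫ y : E2, F (TF.mk τ y) := by
  have h3 := integrable_X hI
  rw [Measure.volume_eq_prod] at h3
  constructor
  · have h7 := h3.integral_prod_left
    refine h7.congr (Eventually.of_forall fun τ => ?_)
    simp only [mk_fst]
    rw [integral_const_mul]
  · rw [integral_X, Measure.volume_eq_prod, integral_prod _ h3]
    refine integral_congr_ae (Eventually.of_forall fun τ => ?_)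
    simp only [mk_fst]
    rw [integral_const_mul]

/-- **limits of averages over thin slabs** -/
theorem SlabB.lim_k (h : SlabB F m δ g) {η : ℝ} (hη : 0 < η) :
    ∃ w₀ : ℝ, 0 < w₀ ∧ w₀ ≤ δ ∧ ∀ w, 0 < w → w ≤ w₀ → ∀ k : ℝ → ℝ, Measurable k →
      (∀ t, |k t| ≤ ramp' m w t) →
      |(∫ x : X, k x.fst * F x) - (∫ t, k t) * ∫ y : E2, F (TF.mk m y)| ≤ η := by
  obtain ⟨I, hI⟩ : ∃ I : ℝ → ℝ, I = fun τ => ∫ y : E2, F (TF.mk τ y) := ⟨_, rfl⟩
  have h1 : ContinuousAt I m := hI ▸ h.cont_int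
  have h2 : ∀ᶠ τ in 𝓝 m, |I τ - I m| < η := by
    have h3 : Tendsto (fun τ => |I τ - I m|) (𝓝 m) (𝓝 |I m - I m|) :=
      (h1.tendsto.sub_const _).abs
    rw [sub_self, abs_zero] at h3
    exact h3.eventually (gt_mem_nhds hη)
  obtain ⟨r, hr, hb⟩ := Metric.eventually_nhds_iff_ball.mp h2
  refine ⟨min r δ, lt_min hr h.pos, min_le_right _ _, fun w hw hwr k hk hkb => ?_⟩
  have hw1 : w ≤ r := hwr.trans (min_le_left _ _)
  have hw2 : w ≤ δ := hwr.trans (min_le_right _ _)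
  have h3 := h.integrable_k hw hw2 hk (C := 1) (fun t => by rw [one_mul]; exact hkb t)
  obtain ⟨h4, h5⟩ := SlabB.integral_k h3
  have h6 : Integrable k := (ramp'_integrable (m := m) hw).mono' hk.aestronglyMeasurable
    (Eventually.of_forall fun t => by rw [Real.norm_eq_abs]; exact hkb t)
  have e1 : (∫ x : X, k x.fst * F x) - (∫ t, k t) * ∫ y : E2, F (TF.mk m y) =
      ∫ τ, k τ * (I τ - I m) := by
    rw [h5, ← integral_mul_const, ← integral_sub h4 (h6.mul_const _)]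
    refine integral_congr_ae (Eventually.of_forall fun τ => ?_)
    simp only [hI]
    ring
  rw [e1]
  have h7 : ∫ t, ramp' m w t * η = η := by rw [integral_mul_const, ramp'_integral hw, one_mul]
  rw [← h7]
  refine (abs_integral_le_integral_abs).trans ?_
  refine integral_mono_of_nonneg (Eventually.of_forall fun t => abs_nonneg _)
    ((ramp'_integrable hw).mul_const _) (Eventually.of_forall fun τ => ?_)
  simp only
  rw [abs_mul]
  by_cases h8 : |τ - m| < w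
  · refine mul_le_mul (hkb τ) (hb τ ?_).le (abs_nonneg _) (ramp'_nonneg hw)
    rw [mem_ball, Real.dist_eq]
    linarith
  · have h9 : ramp' m w τ = 0 := by
      unfold ramp'
      rw [if_neg h8]
    have h10 := hkb τ
    rw [h9] at h10
    rw [h9, le_antisymm h10 (abs_nonneg _), zero_mul, zero_mul]

/-- the mean value of the ramp -/
theorem ramp'_ramp_integral {w : ℝ} (hw : 0 < w) : ∫ t, ramp' m w t * ramp m w t = 1 / 2 := by
  have h1 : (fun t => ramp' m w t * ramp m w t) =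
      (Ioo (m - w) (m + w)).indicator fun t => (2 * w)⁻¹ * ramp m w t := by
    funext t
    unfold ramp'
    by_cases h : |t - m| < w
    · rw [if_pos h, indicator_of_mem]
      rw [abs_lt] at h
      exact ⟨by linarith [h.1], by linarith [h.2]⟩
    · rw [if_neg h, indicator_of_notMem, zero_mul]
      intro h2
      apply h
      rw [abs_lt]
      exact ⟨by linarith [h2.1], by linarith [h2.2]⟩
  have h2 : ∫ t in (m - w)..(m + w), ramp m w t = w := by
    have := rph_right (m := m) hw (le_refl (m + w))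
    unfold rph at this
    rw [this]
    ring
  rw [h1, integral_indicator measurableSet_Ioo, ← integral_Ioc_eq_integral_Ioo,
    ← intervalIntegral.integral_of_le (by linarith), intervalIntegral.integral_const_mul, h2]
  field_simp

theorem ramp'_ramp_integral' {w : ℝ} (hw : 0 < w) :
    ∫ t, ramp' m w t * (1 - ramp m w t) = 1 / 2 := by
  have h1 : Integrable fun t => ramp' m w t * ramp m w t :=
    (ramp'_integrable (m := m) hw).mono'
      ((ramp'_meas m w).mul (ramp_cont hw).measurable).aestronglyMeasurable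
      (Eventually.of_forall fun t => by
        rw [norm_mul, Real.norm_eq_abs, Real.norm_eq_abs, abs_of_nonneg (ramp'_nonneg hw)]
        exact mul_le_of_le_one_right (ramp'_nonneg hw) (abs_ramp_le m w t))
  have h2 : (fun t => ramp' m w t * (1 - ramp m w t)) =
      fun t => ramp' m w t - ramp' m w t * ramp m w t := by
    funext t
    ring
  rw [h2, integral_sub (ramp'_integrable hw) h1, ramp'_integral hw, ramp'_ramp_integral hw]
  norm_num

/-! ### densities with the singularity `s^(-3/2)` -/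

/-- bounds near the plane `x₁ = m` -/
structure SlabC (F : X → ℝ) (m : ℝ) : Prop where
  cont : ContinuousOn F axᶜ
  near : ∃ C δ : ℝ, 0 ≤ C ∧ 0 < δ ∧ ∀ x ∈ ball (TF.mk m 0) δ, x ∉ ax →
    |F x| ≤ C * (1 + (√(ht x))⁻¹ * (1 + (ht x)⁻¹))
  far : ∃ C N : ℝ, 0 ≤ C ∧ 1 ≤ N ∧ ∀ x, x ∉ ax → N ≤ ht x → |F x| ≤ C * (ht x ^ 4)⁻¹

/-- the bound as a function of the distance to the axis -/
noncomputable def slh (B N s : ℝ) : ℝ :=
  if s < N then B * (1 + (√s)⁻¹ * (1 + s⁻¹)) else B * (s ^ 4)⁻¹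

theorem slh_int {B N : ℝ} (hB : 0 ≤ B) (hN : 1 ≤ N) : Integrable fun y : E2 => slh B N ‖y‖ := by
  have hfin : Module.finrank ℝ E2 = 2 := by simp
  rw [integrable_fun_norm_addHaar (volume : Measure E2) (f := slh B N), hfin]
  have hsplit : Ioi (0 : ℝ) = Ioo 0 N ∪ Ici N := by
    ext s
    simp only [mem_Ioi, mem_union, mem_Ioo, mem_Ici]
    constructor
    · intro h
      rcases lt_or_ge s N with h1 | h1
      · exact Or.inl ⟨h, h1⟩
      · exact Or.inr h1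
    · rintro (h | h)
      · exact h.1
      · linarith
  rw [hsplit]
  refine IntegrableOn.union ?_ ?_
  · have h1 : ∀ r : ℝ, -1 < r → IntegrableOn (fun s : ℝ => s ^ r) (Ioo 0 N) := fun r hr =>
      (intervalIntegrable_iff_integrableOn_Ioo_of_le (by linarith)).mp
        (intervalIntegral.intervalIntegrable_rpow' hr)
    have h2 : IntegrableOn (fun s : ℝ => B * (s ^ (1 : ℝ) + s ^ (1 / 2 : ℝ) + s ^ (-(1 / 2) : ℝ)))
        (Ioo 0 N) := (((h1 1 (by norm_num)).add (h1 (1 / 2) (by norm_num))).add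
          (h1 (-(1 / 2)) (by norm_num))).const_mul B
    refine h2.congr_fun (fun s hs => ?_) measurableSet_Ioo
    have hs0 : 0 < s := hs.1
    have hq : √s * √s = s := Real.mul_self_sqrt hs0.le
    have hq0 : 0 < √s := Real.sqrt_pos.mpr hs0
    simp only
    unfold slh
    rw [if_pos hs.2, smul_eq_mul, Real.rpow_one, ← Real.sqrt_eq_rpow, Real.rpow_neg hs0.le,
      ← Real.sqrt_eq_rpow]
    have h4 : s ^ (2 - 1) = s := by norm_num
    rw [h4]
    have e1 : s * (√s)⁻¹ = √s := by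
      rw [← div_eq_mul_inv, Real.div_sqrt]
    have e2 : s * s⁻¹ = 1 := mul_inv_cancel₀ hs0.ne'
    linear_combination (-B) * e1 - B * (√s)⁻¹ * e2
  · rw [integrableOn_Ici_iff_integrableOn_Ioi]
    have h1 : IntegrableOn (fun s : ℝ => B * s ^ (-3 : ℝ)) (Ioi N) :=
      (integrableOn_Ioi_rpow_of_lt (by norm_num) (by linarith)).const_mul B
    refine h1.congr_fun (fun s hs => ?_) measurableSet_Ioi
    have hs1 : N < s := hs
    have hs0 : 0 < s := by linarith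
    simp only
    unfold slh
    rw [if_neg (by linarith), smul_eq_mul, Real.rpow_neg hs0.le]
    have h3 : s ^ (3 : ℝ) = s ^ 3 := by
      rw [← Real.rpow_natCast]
      norm_num
    rw [h3]
    have h4 : s ^ (2 - 1) = s := by norm_num
    rw [h4]
    field_simp

theorem SlabC.slabB (h : SlabC F m) : ∃ (δ : ℝ) (g : ℝ → ℝ), SlabB F m δ g := by
  obtain ⟨C₁, δ, hC₁, hδ, h1⟩ := h.near
  obtain ⟨C₂, N, hC₂, hN, h2⟩ := h.far
  -- the compact set in the middle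
  have hK : IsCompact ((fun p : ℝ × E2 => TF.mk p.1 p.2) '' (Icc (m - δ / 2) (m + δ / 2) ×ˢ
      (closedBall (0 : E2) N \ ball (0 : E2) (δ / 2)))) := by
    refine IsCompact.image ?_ mk_continuous
    exact isCompact_Icc.prod ((isCompact_closedBall _ _).diff isOpen_ball)
  have hKa : ((fun p : ℝ × E2 => TF.mk p.1 p.2) '' (Icc (m - δ / 2) (m + δ / 2) ×ˢ
      (closedBall (0 : E2) N \ ball (0 : E2) (δ / 2)))) ⊆ axᶜ := by
    rintro _ ⟨p, hp, rfl⟩
    refine mk_notMem_ax fun h0 => hp.2.2 ?_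
    rw [h0]
    exact mem_ball_self (by linarith)
  obtain ⟨M, hM⟩ := hK.exists_bound_of_continuousOn (h.cont.mono hKa)
  obtain ⟨B, hBd⟩ : ∃ B : ℝ, B = C₁ + C₂ + |M| := ⟨_, rfl⟩
  have hB0 : 0 ≤ B := by rw [hBd]; positivity
  refine ⟨δ / 2, slh B N, by linarith, h.cont, fun τ hτ y hy => ?_, slh_int hB0 hN⟩
  have hs : 0 < ‖y‖ := norm_pos_iff.mpr hy
  have hsq : 0 ≤ (√‖y‖)⁻¹ * (1 + ‖y‖⁻¹) := by positivity
  unfold slh
  split_ifs with hc
  · by_cases hy2 : ‖y‖ < δ / 2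
    · have h3 : TF.mk τ y ∈ ball (TF.mk m 0) δ := by
        rw [mem_ball_iff_norm]
        refine lt_of_pow_lt_pow_left₀ 2 hδ.le ?_
        rw [norm_mk_sub]
        have h4 : (τ - m) ^ 2 ≤ (δ / 2) ^ 2 := by
          rw [← sq_abs (τ - m)]
          exact pow_le_pow_left₀ (abs_nonneg _) hτ 2
        have h5 : ‖y‖ ^ 2 ≤ (δ / 2) ^ 2 := pow_le_pow_left₀ hs.le hy2.le 2
        nlinarith
      refine (h1 _ h3 (mk_notMem_ax hy)).trans ?_
      rw [ht_mk]
      refine mul_le_mul_of_nonneg_right ?_ (by positivity)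
      rw [hBd]
      have := abs_nonneg M
      linarith
    · have h3 : TF.mk τ y ∈ ((fun p : ℝ × E2 => TF.mk p.1 p.2) '' (Icc (m - δ / 2) (m + δ / 2) ×ˢ
          (closedBall (0 : E2) N \ ball (0 : E2) (δ / 2)))) := by
        refine ⟨(τ, y), ⟨?_, ?_, ?_⟩, rfl⟩
        · rw [abs_le] at hτ
          exact ⟨by linarith [hτ.1], by linarith [hτ.2]⟩
        · rw [mem_closedBall_zero_iff]
          exact hc.le
        · rwa [mem_ball_zero_iff]
      have h4 := hM _ h3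
      rw [Real.norm_eq_abs] at h4
      refine h4.trans ?_
      have h5 : M ≤ B := by
        rw [hBd]
        linarith [le_abs_self M]
      nlinarith [mul_nonneg hB0 hsq]
  · push Not at hc
    have h4 := h2 _ (mk_notMem_ax (τ := τ) hy) (by rwa [ht_mk])
    refine h4.trans ?_
    rw [ht_mk]
    refine mul_le_mul_of_nonneg_right ?_ (by positivity)
    rw [hBd]
    have := abs_nonneg M
    linarith

end slab

/-! ### the bound of the remainder -/

section two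

variable {φ₀ : ℝ} {z : Fin 2 → ℝ} {R : Fin 2 → X} {ρ : X → ℝ} {H : X → X →L[ℝ] X} {lo hi : ℝ}

/-- the density which bounds the remainder -/
noncomputable def gK (z : Fin 2 → ℝ) (R : Fin 2 → X) (ρ : X → ℝ) (H : X → X →L[ℝ] X) (a b : ℝ)
    (x : X) : ℝ :=
  (|wt z R ρ a b x| + |wt z R ρ b a x|) * (‖wt' z R ρ H a b x‖ + ‖wt' z R ρ H b a x‖) *
    (1 + (ht x)⁻¹) + (|wt z R ρ a b x| + |wt z R ρ b a x|) ^ 2

theorem gK_nonneg (z : Fin 2 → ℝ) (R : Fin 2 → X) (ρ : X → ℝ) (H : X → X →L[ℝ] X) (a b : ℝ)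
    (x : X) : 0 ≤ gK z R ρ H a b x := by
  unfold gK
  have := ht_nonneg x
  positivity

theorem Dat.slab_gK (D : Dat φ₀ z R ρ H lo hi) {m : ℝ} (hm : ∀ i, TF.mk m 0 ≠ R i) (a b : ℝ) :
    SlabC (gK z R ρ H a b) m := by
  refine ⟨?_, ?_, ?_⟩
  · have c1 := (D.c1_wt a b).cont0.abs
    have c2 := (D.c1_wt b a).cont0.abs
    have c3 := (D.c1_wt a b).cont.norm
    have c4 := (D.c1_wt b a).cont.norm
    have c5 := C1O.ht_inv.cont0
    exact (((c1.add c2).mul (c3.add c4)).mul (continuousOn_const.add c5)).add ((c1.add c2).pow 2)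
  · obtain ⟨C₁, δ₁, hC₁, hδ₁, h1⟩ := D.slab_wt_near a b hm
    obtain ⟨C₂, δ₂, hC₂, hδ₂, h2⟩ := D.slab_wt_near b a hm
    obtain ⟨C₃, δ₃, hδ₃, hC₃, h3⟩ := D.axis_wt' a b (mk_mem_ax m) hm
    obtain ⟨C₄, δ₄, hδ₄, hC₄, h4⟩ := D.axis_wt' b a (mk_mem_ax m) hm
    refine ⟨(C₁ + C₂) * (C₃ + C₄) + (C₁ + C₂) ^ 2, min (min δ₁ δ₂) (min δ₃ δ₄), by positivity,
      lt_min (lt_min hδ₁ hδ₂) (lt_min hδ₃ hδ₄), fun x hx hxa => ?_⟩
    have hs := ht_pos hxa
    have hu : 0 < √(ht x) := Real.sqrt_pos.mpr hs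
    have g1 := h1 x (ball_subset_ball ((min_le_left _ _).trans (min_le_left _ _)) hx) hxa
    have g2 := h2 x (ball_subset_ball ((min_le_left _ _).trans (min_le_right _ _)) hx) hxa
    have g3 := h3 x (ball_subset_ball ((min_le_right _ _).trans (min_le_left _ _)) hx) hxa
    have g4 := h4 x (ball_subset_ball ((min_le_right _ _).trans (min_le_right _ _)) hx) hxa
    have k3 : ‖wt' z R ρ H a b x‖ ≤ C₃ * (√(ht x))⁻¹ := by
      rw [← div_eq_mul_inv, le_div_iff₀ hu]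
      linarith
    have k4 : ‖wt' z R ρ H b a x‖ ≤ C₄ * (√(ht x))⁻¹ := by
      rw [← div_eq_mul_inv, le_div_iff₀ hu]
      linarith
    rw [abs_of_nonneg (gK_nonneg z R ρ H a b x)]
    unfold gK
    have i1 : 0 ≤ (√(ht x))⁻¹ * (1 + (ht x)⁻¹) := by positivity
    have i2 : 0 ≤ (C₁ + C₂) ^ 2 * ((√(ht x))⁻¹ * (1 + (ht x)⁻¹)) := by positivity
    have i3 : 0 ≤ (C₁ + C₂) * (C₃ + C₄) := by positivity
    calc (|wt z R ρ a b x| + |wt z R ρ b a x|) * (‖wt' z R ρ H a b x‖ + ‖wt' z R ρ H b a x‖) *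
          (1 + (ht x)⁻¹) + (|wt z R ρ a b x| + |wt z R ρ b a x|) ^ 2
        ≤ (C₁ + C₂) * (C₃ * (√(ht x))⁻¹ + C₄ * (√(ht x))⁻¹) * (1 + (ht x)⁻¹) +
          (C₁ + C₂) ^ 2 := by gcongr
      _ ≤ _ := by nlinarith
  · obtain ⟨C₁, N₁, hC₁, hN₁, h1⟩ := D.far_wt a b
    obtain ⟨C₂, N₂, hC₂, hN₂, h2⟩ := D.far_wt b a
    refine ⟨3 * (C₁ + C₂) ^ 2, max N₁ N₂, by positivity, hN₁.trans (le_max_left _ _),
      fun x hx hxN => ?_⟩
    have hsx : ht x ≤ ‖x‖ := by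
      refine le_of_sq_le_sq ?_ (norm_nonneg _)
      rw [norm_sq_eq]
      unfold ht
      nlinarith [sq_nonneg x.fst]
    have g1 := h1 x hx (((le_max_left _ _).trans hxN).trans hsx)
    have g2 := h2 x hx (((le_max_right _ _).trans hxN).trans hsx)
    have hs1 : 1 ≤ ht x := (hN₁.trans (le_max_left _ _)).trans hxN
    have hs0 : 0 < ht x := by linarith
    have hx1 : 1 ≤ ‖x‖ := hs1.trans hsx
    have k1 : (‖x‖ ^ 3)⁻¹ ≤ (ht x ^ 3)⁻¹ :=
      inv_anti₀ (by positivity) (pow_le_pow_left₀ hs0.le hsx 3)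
    have k2 : (ht x)⁻¹ ≤ 1 := inv_le_one_of_one_le₀ hs1
    rw [abs_of_nonneg (gK_nonneg z R ρ H a b x)]
    unfold gK
    have k3 : (ht x ^ 6)⁻¹ ≤ (ht x ^ 4)⁻¹ :=
      inv_anti₀ (by positivity) (pow_le_pow_right₀ hs1 (by norm_num))
    have k4 : (ht x ^ 3)⁻¹ * (ht x ^ 3)⁻¹ = (ht x ^ 6)⁻¹ := by
      rw [← mul_inv]
      congr 1
      ring
    calc (|wt z R ρ a b x| + |wt z R ρ b a x|) * (‖wt' z R ρ H a b x‖ + ‖wt' z R ρ H b a x‖) *
          (1 + (ht x)⁻¹) + (|wt z R ρ a b x| + |wt z R ρ b a x|) ^ 2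
        ≤ (C₁ * (ht x ^ 3)⁻¹ + C₂ * (ht x ^ 3)⁻¹) * (C₁ * (ht x ^ 3)⁻¹ + C₂ * (ht x ^ 3)⁻¹) *
          (1 + 1) + (C₁ * (ht x ^ 3)⁻¹ + C₂ * (ht x ^ 3)⁻¹) ^ 2 := by
          have a1 : |wt z R ρ a b x| ≤ C₁ * (ht x ^ 3)⁻¹ :=
            g1.1.trans (mul_le_mul_of_nonneg_left k1 hC₁)
          have a2 : |wt z R ρ b a x| ≤ C₂ * (ht x ^ 3)⁻¹ :=
            g2.1.trans (mul_le_mul_of_nonneg_left k1 hC₂)
          have a3 : ‖wt' z R ρ H a b x‖ ≤ C₁ * (ht x ^ 3)⁻¹ :=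
            g1.2.trans (mul_le_mul_of_nonneg_left k1 hC₁)
          have a4 : ‖wt' z R ρ H b a x‖ ≤ C₂ * (ht x ^ 3)⁻¹ :=
            g2.2.trans (mul_le_mul_of_nonneg_left k1 hC₂)
          gcongr
      _ = 3 * (C₁ + C₂) ^ 2 * (ht x ^ 6)⁻¹ := by
          rw [← k4]
          ring
      _ ≤ 3 * (C₁ + C₂) ^ 2 * (ht x ^ 4)⁻¹ := mul_le_mul_of_nonneg_left k3 (by positivity)

/-- the remainder in the slab -/
noncomputable def zR (a b m w q p qx qs px ps s t φ θ : ℝ) : ℝ :=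
  2 * w * (zX a b m q p t φ θ * zL b m qx qs px ps s φ θ -
    (2 * (b - m) ^ 2 * ((1 - θ) * (s⁻¹ * (p * ps))) +
      2 * (m - a) ^ 2 * (θ * (s⁻¹ * (q * qs))))) -
    zW a b m q p qx px t φ θ

theorem zR_le {a b m w q p qx qs px ps s t φ θ Q P : ℝ} (hs : 0 < s) (ha : a ≤ m) (hb : m ≤ b)
    (hw : 0 < w) (hwD : w ≤ b - a) (hθ0 : 0 ≤ θ) (hθ1 : θ ≤ 1) (hφ : |φ| ≤ 2 * w)
    (ht : |t - m| ≤ w) (hQ : |q| + |p| = Q) (hqx : |qx| ≤ P) (hqs : |qs| ≤ P)
    (hpx : |px| ≤ P) (hps : |ps| ≤ P) :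
    |zR a b m w q p qx qs px ps s t φ θ| ≤
      (100 * (b - a + 1) ^ 2) * w * (Q * P * (1 + s⁻¹) + Q ^ 2) := by
  obtain ⟨D, hD⟩ : ∃ D : ℝ, D = b - a := ⟨_, rfl⟩
  obtain ⟨k, hk⟩ : ∃ k : ℝ, k = s⁻¹ := ⟨_, rfl⟩
  have hk0 : 0 ≤ k := by rw [hk]; positivity
  have hD0 : 0 < D := by rw [hD]; linarith
  have ha' : 0 ≤ m - a := by linarith
  have hb' : 0 ≤ b - m := by linarith
  have haD : m - a ≤ D := by linarith
  have hbD : b - m ≤ D := by linarith
  have q0 := abs_nonneg q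
  have p0 := abs_nonneg p
  have hQ0 : 0 ≤ Q := by rw [← hQ]; positivity
  have hP0 : 0 ≤ P := (abs_nonneg _).trans hqx
  have hθ' : 0 ≤ 1 - θ := by linarith
  have hqQ : |q| ≤ Q := by linarith
  have hpQ : |p| ≤ Q := by linarith
  have hqp : |q + p| ≤ Q := (abs_add_le _ _).trans hQ.le
  have hwD' : w ≤ D := by rw [hD]; exact hwD
  have hft : |φ - θ * (t - m)| ≤ 3 * w := by
    refine (abs_sub _ _).trans ?_
    rw [abs_mul, abs_of_nonneg hθ0]
    have : θ * |t - m| ≤ 1 * w := mul_le_mul hθ1 ht (abs_nonneg _) zero_le_one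
    linarith
  have hX : |zX a b m q p t φ θ| ≤ 4 * D * Q := by
    unfold zX
    refine (abs_add_le _ _).trans ?_
    rw [abs_neg, abs_mul (φ - θ * (t - m))]
    have e1 : |(1 - θ) * ((b - m) * p) + θ * ((m - a) * q)| ≤ D * Q := by
      calc |(1 - θ) * ((b - m) * p) + θ * ((m - a) * q)|
          ≤ |(1 - θ) * ((b - m) * p)| + |θ * ((m - a) * q)| := abs_add_le _ _
        _ = (1 - θ) * ((b - m) * |p|) + θ * ((m - a) * |q|) := by
            rw [abs_mul, abs_mul, abs_mul, abs_mul, abs_of_nonneg hθ', abs_of_nonneg hb',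
              abs_of_nonneg hθ0, abs_of_nonneg ha']
        _ ≤ 1 * (D * |p|) + 1 * (D * |q|) := by
            refine add_le_add (mul_le_mul (by linarith) ?_ (by positivity) zero_le_one)
              (mul_le_mul hθ1 ?_ (by positivity) zero_le_one)
            · exact mul_le_mul_of_nonneg_right hbD p0
            · exact mul_le_mul_of_nonneg_right haD q0
        _ = D * Q := by rw [← hQ]; ring
    have e2 : |φ - θ * (t - m)| * |q + p| ≤ 3 * w * Q :=
      mul_le_mul hft hqp (abs_nonneg _) (by positivity)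
    have e3 : 3 * w * Q ≤ 3 * D * Q := by
      refine mul_le_mul_of_nonneg_right ?_ hQ0
      linarith
    linarith
  have hL : |zL b m qx qs px ps s φ θ| ≤ (10 * D + 4) * P * (1 + k) := by
    unfold zL
    refine (abs_sub _ _).trans ?_
    have e1 : |2 / s * (φ * qs + (φ - (b - m)) * ps)| ≤ 2 * k * (5 * D * P) := by
      rw [abs_mul, div_eq_mul_inv, ← hk, abs_of_nonneg (by positivity : 0 ≤ 2 * k)]
      refine mul_le_mul_of_nonneg_left ?_ (by positivity)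
      calc |φ * qs + (φ - (b - m)) * ps| ≤ |φ| * |qs| + |φ - (b - m)| * |ps| := by
            refine (abs_add_le _ _).trans ?_
            rw [abs_mul, abs_mul]
        _ ≤ (2 * D) * P + (3 * D) * P := by
            refine add_le_add (mul_le_mul (by linarith) hqs (abs_nonneg _) (by positivity))
              (mul_le_mul ?_ hps (abs_nonneg _) (by positivity))
            refine (abs_sub _ _).trans ?_
            rw [abs_of_nonneg hb']
            linarith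
        _ = _ := by ring
    have e2 : |2 * (θ * (qx + px))| ≤ 4 * P := by
      rw [abs_mul, abs_mul, abs_of_nonneg hθ0, abs_of_nonneg (by norm_num : (0 : ℝ) ≤ 2)]
      have h1 : |qx + px| ≤ 2 * P := (abs_add_le _ _).trans (by linarith)
      have h2 : θ * |qx + px| ≤ 1 * (2 * P) := mul_le_mul hθ1 h1 (abs_nonneg _) zero_le_one
      linarith
    have h3 : 0 ≤ k * P := by positivity
    have h4 : 0 ≤ D * P := by positivity
    nlinarith
  have hA : |2 * (b - m) ^ 2 * ((1 - θ) * (s⁻¹ * (p * ps))) +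
      2 * (m - a) ^ 2 * (θ * (s⁻¹ * (q * qs)))| ≤ 2 * D ^ 2 * (Q * P * (1 + k)) := by
    have hb2 : (b - m) ^ 2 ≤ D ^ 2 := pow_le_pow_left₀ hb' hbD 2
    have ha2 : (m - a) ^ 2 ≤ D ^ 2 := pow_le_pow_left₀ ha' haD 2
    have k1 : |p| * |ps| ≤ |p| * P := mul_le_mul_of_nonneg_left hps p0
    have k2 : |q| * |qs| ≤ |q| * P := mul_le_mul_of_nonneg_left hqs q0
    calc |2 * (b - m) ^ 2 * ((1 - θ) * (s⁻¹ * (p * ps))) +
        2 * (m - a) ^ 2 * (θ * (s⁻¹ * (q * qs)))|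
        ≤ |2 * (b - m) ^ 2 * ((1 - θ) * (s⁻¹ * (p * ps)))| +
          |2 * (m - a) ^ 2 * (θ * (s⁻¹ * (q * qs)))| := abs_add_le _ _
      _ = 2 * (b - m) ^ 2 * ((1 - θ) * (k * (|p| * |ps|))) +
          2 * (m - a) ^ 2 * (θ * (k * (|q| * |qs|))) := by
          rw [← hk]
          simp only [abs_mul, abs_of_nonneg hk0, abs_of_nonneg hθ0, abs_of_nonneg hθ',
            abs_of_nonneg (sq_nonneg (b - m)), abs_of_nonneg (sq_nonneg (m - a)), abs_two]
      _ ≤ 2 * D ^ 2 * (1 * (k * (|p| * P))) + 2 * D ^ 2 * (1 * (k * (|q| * P))) := by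
          gcongr
          linarith
      _ = 2 * D ^ 2 * (Q * P * k) := by rw [← hQ]; ring
      _ ≤ 2 * D ^ 2 * (Q * P * (1 + k)) := by
          refine mul_le_mul_of_nonneg_left ?_ (by positivity)
          exact mul_le_mul_of_nonneg_left (by linarith) (by positivity)
  have hW : |zW a b m q p qx px t φ θ| ≤ w * (3 * D * (Q * P) + 6 * Q ^ 2) := by
    unfold zW
    refine (abs_add_le _ _).trans ?_
    have e1 : |((b - m) * (t - m) - (b - a) * φ) * (q * px - p * qx)| ≤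
        (3 * D * w) * (Q * P) := by
      rw [abs_mul]
      refine mul_le_mul ?_ ?_ (abs_nonneg _) (by positivity)
      · refine (abs_sub _ _).trans ?_
        rw [abs_mul, abs_mul, abs_of_nonneg hb', ← hD, abs_of_nonneg hD0.le]
        have h1 : (b - m) * |t - m| ≤ D * w := mul_le_mul hbD ht (abs_nonneg _) hD0.le
        have h2 : D * |φ| ≤ D * (2 * w) := mul_le_mul_of_nonneg_left hφ hD0.le
        linarith
      · refine (abs_sub _ _).trans ?_
        rw [abs_mul, abs_mul]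
        have h1 : |q| * |px| ≤ |q| * P := mul_le_mul_of_nonneg_left hpx q0
        have h2 : |p| * |qx| ≤ |p| * P := mul_le_mul_of_nonneg_left hqx p0
        calc |q| * |px| + |p| * |qx| ≤ |q| * P + |p| * P := add_le_add h1 h2
          _ = Q * P := by rw [← hQ]; ring
    have e2 : |2 * ((φ - θ * (t - m)) * (q + p) ^ 2)| ≤ 2 * (3 * w * Q ^ 2) := by
      rw [abs_mul, abs_mul, abs_two, abs_pow]
      refine mul_le_mul_of_nonneg_left ?_ zero_le_two
      exact mul_le_mul hft (pow_le_pow_left₀ (abs_nonneg _) hqp 2) (by positivity) (by positivity)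
    linarith
  have hfin : |zR a b m w q p qx qs px ps s t φ θ| ≤
      2 * w * ((4 * D * Q) * ((10 * D + 4) * P * (1 + k)) + 2 * D ^ 2 * (Q * P * (1 + k))) +
        w * (3 * D * (Q * P) + 6 * Q ^ 2) := by
    unfold zR
    refine (abs_sub _ _).trans (add_le_add ?_ hW)
    rw [abs_mul, abs_of_nonneg (by positivity : 0 ≤ 2 * w)]
    refine mul_le_mul_of_nonneg_left ((abs_sub _ _).trans (add_le_add ?_ hA)) (by positivity)
    rw [abs_mul]
    exact mul_le_mul hX hL (abs_nonneg _) (by positivity)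
  refine hfin.trans ?_
  rw [← hD, ← hk]
  have i0 : 0 ≤ Q * P := by positivity
  have i1 : 0 ≤ Q * P * (1 + k) := by positivity
  have i2 : Q * P ≤ Q * P * (1 + k) := by nlinarith [mul_nonneg i0 hk0]
  have i3 : 0 ≤ D * (Q * P * (1 + k)) := by positivity
  have i4 : 0 ≤ D ^ 2 * (Q * P * (1 + k)) := by positivity
  have i5 : 0 ≤ Q ^ 2 := by positivity
  have i6 : 0 ≤ D * Q ^ 2 := by positivity
  have i7 : 0 ≤ D ^ 2 * Q ^ 2 := by positivity
  have i8 : D * (Q * P) ≤ D * (Q * P * (1 + k)) := mul_le_mul_of_nonneg_left i2 hD0.le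
  have e : (100 * (D + 1) ^ 2) * w * (Q * P * (1 + k) + Q ^ 2) -
      (2 * w * ((4 * D * Q) * ((10 * D + 4) * P * (1 + k)) + 2 * D ^ 2 * (Q * P * (1 + k))) +
        w * (3 * D * (Q * P) + 6 * Q ^ 2)) =
      w * (16 * (D ^ 2 * (Q * P * (1 + k))) + 168 * (D * (Q * P * (1 + k))) +
        100 * (Q * P * (1 + k)) - 3 * (D * (Q * P)) + 100 * (D ^ 2 * Q ^ 2) +
        200 * (D * Q ^ 2) + 94 * Q ^ 2) := by ring
  have h : 0 ≤ w * (16 * (D ^ 2 * (Q * P * (1 + k))) + 168 * (D * (Q * P * (1 + k))) +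
        100 * (Q * P * (1 + k)) - 3 * (D * (Q * P)) + 100 * (D ^ 2 * Q ^ 2) +
        200 * (D * Q ^ 2) + 94 * Q ^ 2) := by
    refine mul_nonneg hw.le ?_
    linarith
  linarith

end two

end Pool.Agent.TF.Col

end

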