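import Mathlib
import Pool.Agent.Lib.MP_9cf0c9_mp.Tr.PtA
/-! Two pointwise inequalities: the own dilation field, and its interpolation with the potential
in a shell where the potential is nearly a Coulomb potential plus a constant. -/

set_option autoImplicit false

namespace Pool.Agent.TF.Dis

open scoped RealInnerProductSpace

variable {V : Type*} [NormedAddCommGroup V] [InnerProductSpace ℝ V]

/-- the own dilation field -/
theorem own_sos (b : OrthonormalBasis (Fin 3) ℝ V) (T : V →L[ℝ] V)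
    (hT : ∀ u v, ⟪T u, v⟫ = ⟪u, T v⟫) {Rr G : ℝ} (hR : ∑ j, ⟪T (b j), b j⟫ = Rr)
    (hG : 0 ≤ G) (v y : V) :
    0 ≤ 2 * ‖v‖ ^ 2 + 2 * ⟪y, T v⟫ - ‖T y‖ ^ 2 + ‖y‖ ^ 2 * (∑ j, ‖T (b j)‖ ^ 2) -
      2 * Rr * ⟪y, v⟫ + G * (‖y‖ ^ 2 * ‖v‖ ^ 2 - ⟪y, v⟫ ^ 2) := by
  have hcs : 0 ≤ G * (‖y‖ ^ 2 * ‖v‖ ^ 2 - ⟪y, v⟫ ^ 2) := by
    refine mul_nonneg hG ?_
    have h1 := abs_real_inner_le_norm y v
    have h2 := pow_le_pow_left₀ (abs_nonneg _) h1 2
    rw [sq_abs, mul_pow] at h2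
    linarith
  rcases eq_or_ne y 0 with rfl | hy
  · simp only [inner_zero_left, map_zero, norm_zero] at hcs ⊢
    have := sq_nonneg ‖v‖
    nlinarith
  · have hr0 : 0 < ‖y‖ := norm_pos_iff.mpr hy
    obtain ⟨r, hr⟩ : ∃ r, r = ‖y‖ := ⟨_, rfl⟩
    obtain ⟨n, hn⟩ : ∃ n : V, n = ‖y‖⁻¹ • y := ⟨_, rfl⟩
    have hn1 : ‖n‖ = 1 := by
      rw [hn, norm_smul, norm_inv, norm_norm, inv_mul_cancel₀ hr0.ne']
    have hyn : y = r • n := by
      rw [hn, hr, smul_smul, mul_inv_cancel₀ hr0.ne', one_smul]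
    have hhs := Ptw.hs_ge b T hT hR hn1
    set h : ℝ := ⟪T n, n⟫ with hh
    set q : ℝ := ‖T n‖ ^ 2 with hq
    set vn : ℝ := ⟪n, v⟫ with hvn
    have e1 : ⟪y, T v⟫ = r * ⟪T n, v⟫ := by
      rw [hyn, real_inner_smul_left, hT]
    have e2 : ‖T y‖ ^ 2 = r ^ 2 * q := by
      rw [hyn, map_smul, norm_smul, mul_pow, Real.norm_eq_abs, sq_abs]
    have e3 : ⟪y, v⟫ = r * vn := by rw [hyn, real_inner_smul_left]
    have e9 : ⟪n, n⟫ = 1 := by rw [real_inner_self_eq_norm_sq, hn1, one_pow]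
    have e4 : 0 ≤ ‖v - vn • n‖ ^ 2 := sq_nonneg _
    have e5 : 0 ≤ ‖v - vn • n + r • (T n - h • n)‖ ^ 2 := sq_nonneg _
    have i4 : ⟪n, T n⟫ = h := real_inner_comm _ _
    have i5 : ⟪v, n⟫ = vn := real_inner_comm _ _
    have i6 : ⟪v, T n⟫ = ⟪T n, v⟫ := real_inner_comm _ _
    have i7 : ⟪T n, T n⟫ = q := real_inner_self_eq_norm_sq _
    have i8 : ⟪v, v⟫ = ‖v‖ ^ 2 := real_inner_self_eq_norm_sq _
    rw [← real_inner_self_eq_norm_sq] at e4 e5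
    simp only [inner_add_left, inner_add_right, inner_sub_left, inner_sub_right,
      real_inner_smul_left, real_inner_smul_right, e9, i4, i5, i6, i7, i8, ← hh, ← hvn] at e4 e5
    have h6 : r ^ 2 * (2 * q - h ^ 2 + (Rr - h) ^ 2 / 2) ≤ r ^ 2 * ∑ j, ‖T (b j)‖ ^ 2 :=
      mul_le_mul_of_nonneg_left hhs (sq_nonneg r)
    have h7 := sq_nonneg (2 * vn - r * (Rr - h))
    rw [e1, e2, e3]
    rw [e3] at hcs
    rw [← hr] at hcs ⊢
    nlinarith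

/-- the scalar inequality of the shell -/
theorem shell_scalar {s qq w a t c ch : ℝ} (hs1 : 1 ≤ s) (hs2 : s ≤ 2) (hq : 100 ≤ qq)
    (hw : |w - 1| ≤ 3 / 100) (ha : |a| ≤ 1 / 100) (ht : |t| ≤ 1 / 100) (hc : |c| ≤ 1 / 10000)
    (h0 : 0 ≤ ch) (h1 : ch ≤ 1) :
    0 ≤ 2 * w * qq / s ^ 2 + 2 * qq * a / s + qq * t - 2 * w * a + 2 * w * ch * (2 * a + s * t) -
      2 * s * a ^ 2 - s ^ 2 * c - w ^ 2 := by
  obtain ⟨hw1, hw2⟩ := abs_le.mp hw
  obtain ⟨ha1, ha2⟩ := abs_le.mp ha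
  obtain ⟨ht1, ht2⟩ := abs_le.mp ht
  obtain ⟨hc1, hc2⟩ := abs_le.mp hc
  have hs0 : 0 < s := by linarith
  have hw0 : 0 < w := by linarith
  have hqq0 : 0 < qq := by linarith
  have b1 : 97 / 200 * qq ≤ 2 * w * qq / s ^ 2 := by
    rw [le_div_iff₀ (by positivity)]
    have h2 : s ^ 2 ≤ 4 := by nlinarith
    have h3 : 97 / 200 * qq * s ^ 2 ≤ 97 / 200 * qq * 4 :=
      mul_le_mul_of_nonneg_left h2 (by positivity)
    nlinarith
  have b2 : -(1 / 50 * qq) ≤ 2 * qq * a / s := by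
    rw [le_div_iff₀ hs0]
    nlinarith
  have b3 : -(1 / 100 * qq) ≤ qq * t := by nlinarith
  have b4 : -(1 / 10) ≤ -(2 * w * a) := by nlinarith
  have b5 : -(1 / 10) ≤ 2 * w * ch * (2 * a + s * t) := by
    have h2 : |2 * a + s * t| ≤ 4 / 100 := by
      rw [abs_le]
      constructor <;> nlinarith
    have h3 : |2 * w * ch * (2 * a + s * t)| ≤ 1 / 10 := by
      rw [abs_mul, abs_of_nonneg (by positivity : 0 ≤ 2 * w * ch)]
      calc 2 * w * ch * |2 * a + s * t| ≤ 2 * (103 / 100) * 1 * (4 / 100) := by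
            refine mul_le_mul ?_ h2 (abs_nonneg _) (by norm_num)
            exact mul_le_mul (by linarith) h1 h0 (by norm_num)
        _ ≤ 1 / 10 := by norm_num
    exact (abs_le.mp h3).1
  have b6 : 2 * s * a ^ 2 ≤ 1 / 10 := by
    have h2 : a ^ 2 ≤ 1 / 10000 := by
      rw [← sq_abs]
      have := pow_le_pow_left₀ (abs_nonneg a) ha 2
      norm_num at this ⊢
      linarith
    nlinarith [sq_nonneg a]
  have b7 : s ^ 2 * c ≤ 1 / 10 := by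
    have h2 : s ^ 2 ≤ 4 := by nlinarith
    nlinarith [sq_nonneg s]
  have b8 : w ^ 2 ≤ 2 := by nlinarith
  linarith

/-- the interpolated field in the shell -/
theorem shell_sos (b : OrthonormalBasis (Fin 3) ℝ V) (T : V →L[ℝ] V)
    (hT : ∀ u v, ⟪T u, v⟫ = ⟪u, T v⟫) (hR : ∑ j, ⟪T (b j), b j⟫ = 0) {n v v1 t1 : V}
    (hn : ‖n‖ = 1) {q E bb r phi ch : ℝ} (hb : 0 < bb) (hr1 : bb ≤ r) (hr2 : r ≤ 2 * bb)
    (hc0 : 0 ≤ ch) (hc1 : ch ≤ 1) (hE : 0 < E) (hq : 100 * bb * E ≤ q)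
    (hv : v = -(q / r ^ 2) • n + v1) (ht : T n = (2 * q / r ^ 3) • n + t1)
    (hv1 : ‖v1‖ ≤ E / (100 * bb)) (ht1 : ‖t1‖ ≤ E / (100 * bb ^ 2))
    (hphi : |phi - q / r - E| ≤ E / 100) {y gw gc : V} {w : ℝ} (hy : y = r • n)
    (hw : w = phi + ⟪y, v⟫) (hgw : gw = (2 : ℝ) • v + T y) (hgc : gc = (-bb⁻¹) • n) :
    0 ≤ ‖v‖ ^ 2 - ‖v - (w • gc + ch • gw)‖ ^ 2 -
      2 * ⟪ch • (-v - T y) + (-⟪y, v⟫) • gc, v⟫ + ⟪(r ^ 2) • gc + (2 * ch) • y, T v⟫ +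
      ch * r ^ 2 * (∑ j, ‖T (b j)‖ ^ 2) := by
  have hr0 : 0 < r := lt_of_lt_of_le hb hr1
  have hown := own_sos b T hT hR le_rfl v y (G := 0)
  have hyn : ‖y‖ = r := by
    rw [hy, norm_smul, hn, mul_one, Real.norm_of_nonneg hr0.le]
  rw [hyn] at hown
  -- the identity
  have hid : ‖v‖ ^ 2 - ‖v - (w • gc + ch • gw)‖ ^ 2 -
      2 * ⟪ch • (-v - T y) + (-⟪y, v⟫) • gc, v⟫ + ⟪(r ^ 2) • gc + (2 * ch) • y, T v⟫ +
      ch * r ^ 2 * (∑ j, ‖T (b j)‖ ^ 2) =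
      ch * (2 * ‖v‖ ^ 2 + 2 * ⟪y, T v⟫ - ‖T y‖ ^ 2 + r ^ 2 * (∑ j, ‖T (b j)‖ ^ 2)) +
        ch * (1 - ch) * ‖gw‖ ^ 2 + (2 * w * ⟪v, gc⟫ - w ^ 2 * ‖gc‖ ^ 2 -
          2 * w * ch * ⟪gc, gw⟫ + 2 * ⟪y, v⟫ * ⟪v, gc⟫ + r ^ 2 * ⟪gc, T v⟫) := by
    have e1 : ‖gw‖ ^ 2 = 4 * ‖v‖ ^ 2 + 4 * ⟪T y, v⟫ + ‖T y‖ ^ 2 := by
      rw [hgw, norm_add_sq_real, norm_smul, real_inner_smul_left, real_inner_comm v (T y)]
      norm_num
      ring
    have e2 : ⟪v, gw⟫ = 2 * ‖v‖ ^ 2 + ⟪T y, v⟫ := by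
      rw [hgw, inner_add_right, real_inner_smul_right, real_inner_self_eq_norm_sq,
        real_inner_comm v (T y)]
    have e3 : ‖w • gc + ch • gw‖ ^ 2 = w ^ 2 * ‖gc‖ ^ 2 + 2 * (w * ch * ⟪gc, gw⟫) +
        ch ^ 2 * ‖gw‖ ^ 2 := by
      rw [norm_add_sq_real, norm_smul, norm_smul, real_inner_smul_left, real_inner_smul_right,
        mul_pow, mul_pow, Real.norm_eq_abs, Real.norm_eq_abs, sq_abs, sq_abs]
      ring
    have e4 : ⟪gc, v⟫ = ⟪v, gc⟫ := real_inner_comm _ _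
    have e5 : ⟪y, T v⟫ = ⟪T y, v⟫ := (hT y v).symm
    rw [norm_sub_sq_real, e3, inner_add_right, real_inner_smul_right, real_inner_smul_right, e2,
      inner_add_left, inner_add_left, real_inner_smul_left, real_inner_smul_left,
      real_inner_smul_left, real_inner_smul_left, inner_sub_left, inner_neg_left,
      real_inner_self_eq_norm_sq, e1, e4, e5]
    ring
  rw [hid]
  have hA : 0 ≤ ch * (2 * ‖v‖ ^ 2 + 2 * ⟪y, T v⟫ - ‖T y‖ ^ 2 + r ^ 2 * (∑ j, ‖T (b j)‖ ^ 2)) := by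
    refine mul_nonneg hc0 ?_
    linarith
  have hB : 0 ≤ ch * (1 - ch) * ‖gw‖ ^ 2 :=
    mul_nonneg (mul_nonneg hc0 (by linarith)) (sq_nonneg _)
  suffices hC : 0 ≤ 2 * w * ⟪v, gc⟫ - w ^ 2 * ‖gc‖ ^ 2 - 2 * w * ch * ⟪gc, gw⟫ +
      2 * ⟪y, v⟫ * ⟪v, gc⟫ + r ^ 2 * ⟪gc, T v⟫ by linarith
  -- scalars
  obtain ⟨al, hal⟩ : ∃ al, al = ⟪n, v1⟫ := ⟨_, rfl⟩
  obtain ⟨ta, hta⟩ : ∃ ta, ta = ⟪n, t1⟫ := ⟨_, rfl⟩
  obtain ⟨si, hsi⟩ : ∃ si, si = ⟪t1, v1⟫ := ⟨_, rfl⟩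
  have e9 : ⟪n, n⟫ = 1 := by rw [real_inner_self_eq_norm_sq, hn, one_pow]
  have hN : ⟪n, v⟫ = -(q / r ^ 2) + al := by
    rw [hv, inner_add_right, real_inner_smul_right, e9, hal]
    ring
  have hN' : ⟪v, n⟫ = -(q / r ^ 2) + al := by rw [real_inner_comm]; exact hN
  have hTn : ⟪n, T n⟫ = 2 * q / r ^ 3 + ta := by
    rw [ht, inner_add_right, real_inner_smul_right, e9, hta]
    ring
  have ht1v : ⟪t1, v⟫ = -(q / r ^ 2) * ta + si := by
    rw [hv, inner_add_right, real_inner_smul_right, hsi, hta, real_inner_comm n t1]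
  have hTv : ⟪n, T v⟫ = 2 * q / r ^ 3 * (-(q / r ^ 2) + al) + (-(q / r ^ 2) * ta + si) := by
    rw [← hT n v, ht, inner_add_left, real_inner_smul_left, hN, ht1v]
  have hyv : ⟪y, v⟫ = r * (-(q / r ^ 2) + al) := by rw [hy, real_inner_smul_left, hN]
  have hngw : ⟪n, gw⟫ = 2 * al + r * ta := by
    rw [hgw, hy, map_smul, inner_add_right, real_inner_smul_right, real_inner_smul_right, hN, hTn]
    field_simp
    ring
  have hgcn : ‖gc‖ ^ 2 = (bb⁻¹) ^ 2 := by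
    rw [hgc, norm_smul, hn, mul_one, norm_neg, Real.norm_eq_abs, sq_abs]
  have hvgc : ⟪v, gc⟫ = -bb⁻¹ * (-(q / r ^ 2) + al) := by
    rw [hgc, real_inner_smul_right, hN']
  have hgcgw : ⟪gc, gw⟫ = -bb⁻¹ * (2 * al + r * ta) := by
    rw [hgc, real_inner_smul_left, hngw]
  have hgcTv : ⟪gc, T v⟫ = -bb⁻¹ * (2 * q / r ^ 3 * (-(q / r ^ 2) + al) +
      (-(q / r ^ 2) * ta + si)) := by
    rw [hgc, real_inner_smul_left, hTv]
  rw [hgcn, hvgc, hgcgw, hgcTv, hyv]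
  have hwv : w = phi - q / r + r * al := by
    rw [hw, hyv]
    field_simp
    ring
  -- bounds
  have hal' : |al| ≤ E / (100 * bb) := by
    rw [hal]
    refine (abs_real_inner_le_norm _ _).trans ?_
    rw [hn, one_mul]
    exact hv1
  have hta' : |ta| ≤ E / (100 * bb ^ 2) := by
    rw [hta]
    refine (abs_real_inner_le_norm _ _).trans ?_
    rw [hn, one_mul]
    exact ht1
  have hsi' : |si| ≤ E / (100 * bb ^ 2) * (E / (100 * bb)) := by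
    rw [hsi]
    exact (abs_real_inner_le_norm _ _).trans (mul_le_mul ht1 hv1 (norm_nonneg _) (by positivity))
  -- scaled variables
  have key := shell_scalar (s := r / bb) (qq := q / (bb * E)) (w := w / E) (a := al * bb / E)
    (t := ta * bb ^ 2 / E) (c := si * bb ^ 3 / E ^ 2) (ch := ch)
    (by rw [le_div_iff₀ hb]; linarith) (by rw [div_le_iff₀ hb]; linarith)
    (by rw [le_div_iff₀ (by positivity)]; linarith)
    (by
      have e1 : w / E - 1 = (w - E) / E := by field_simp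
      rw [e1, abs_div, abs_of_pos hE, div_le_iff₀ hE]
      have e2 : w - E = (phi - q / r - E) + r * al := by rw [hwv]; ring
      rw [e2]
      refine (abs_add_le _ _).trans ?_
      have h1 : |r * al| ≤ 2 * bb * (E / (100 * bb)) := by
        rw [abs_mul, abs_of_pos hr0]
        exact mul_le_mul hr2 hal' (abs_nonneg _) (by positivity)
      have h2 : 2 * bb * (E / (100 * bb)) = 2 * E / 100 := by field_simp
      rw [h2] at h1
      linarith)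
    (by
      rw [abs_div, abs_mul, abs_of_pos hE, abs_of_pos hb, div_le_iff₀ hE]
      calc |al| * bb ≤ E / (100 * bb) * bb := mul_le_mul_of_nonneg_right hal' hb.le
        _ = 1 / 100 * E := by field_simp)
    (by
      rw [abs_div, abs_mul, abs_of_pos hE, abs_of_pos (by positivity : 0 < bb ^ 2),
        div_le_iff₀ hE]
      calc |ta| * bb ^ 2 ≤ E / (100 * bb ^ 2) * bb ^ 2 :=
            mul_le_mul_of_nonneg_right hta' (by positivity)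
        _ = 1 / 100 * E := by field_simp)
    (by
      rw [abs_div, abs_mul, abs_of_pos (by positivity : 0 < E ^ 2),
        abs_of_pos (by positivity : 0 < bb ^ 3), div_le_iff₀ (by positivity)]
      calc |si| * bb ^ 3 ≤ E / (100 * bb ^ 2) * (E / (100 * bb)) * bb ^ 3 :=
            mul_le_mul_of_nonneg_right hsi' (by positivity)
        _ = 1 / 10000 * E ^ 2 := by field_simp; norm_num)
    hc0 hc1
  have e10 : 2 * w * (-bb⁻¹ * (-(q / r ^ 2) + al)) - w ^ 2 * bb⁻¹ ^ 2 -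
      2 * w * ch * (-bb⁻¹ * (2 * al + r * ta)) +
      2 * (r * (-(q / r ^ 2) + al)) * (-bb⁻¹ * (-(q / r ^ 2) + al)) +
      r ^ 2 * (-bb⁻¹ * (2 * q / r ^ 3 * (-(q / r ^ 2) + al) + (-(q / r ^ 2) * ta + si))) =
      (E / bb) ^ 2 * (2 * (w / E) * (q / (bb * E)) / (r / bb) ^ 2 +
        2 * (q / (bb * E)) * (al * bb / E) / (r / bb) + q / (bb * E) * (ta * bb ^ 2 / E) -
        2 * (w / E) * (al * bb / E) +
        2 * (w / E) * ch * (2 * (al * bb / E) + r / bb * (ta * bb ^ 2 / E)) -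
        2 * (r / bb) * (al * bb / E) ^ 2 - (r / bb) ^ 2 * (si * bb ^ 3 / E ^ 2) - (w / E) ^ 2) := by
    field_simp
    ring
  rw [e10]
  exact mul_nonneg (sq_nonneg _) key

end Pool.Agent.TF.Dis
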