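import Mathlib
import Pool.Agent.Lib.MP_9cf0c9_mp.Tr.Boch23
import Pool.Agent.Lib.MP_9cf0c9_mp.Tr.DisPtw
import Pool.Agent.Lib.MP_9cf0c9_mp.Tr.ErrA
import Pool.Agent.Lib.MP_9cf0c9_mp.Tr.TrialN

section
/-! Nearly isolated ions: the trial potential, equal to the own dilation field
`-⟪x - R i, ∇φ⟫` in the ball of radius `b` at the nucleus `i`, to the potential `φ` of the
solution outside the balls of radius `2 b`, and interpolated between. -/

set_option linter.unusedSectionVars false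

set_option linter.unusedVariables false

set_option linter.style.haveILetI false

namespace Pool.Agent.TF.Grd
end Pool.Agent.TF.Grd

namespace Pool.Agent.TF.Dis

open MeasureTheory Set Metric Filter Topology Pool.Agent.TF.Grd

open scoped ENNReal NNReal RealInnerProductSpace Gradient

variable {ι : Type*} [Fintype ι]

variable {z : ι → ℝ} {R : ι → X} {φ₀ : ℝ} {ρ : X → ℝ} {H : X → X →L[ℝ] X} {b : ℝ}

/-- `⟪x - c, ∇φ⟫` -/
noncomputable def rv (z : ι → ℝ) (R : ι → X) (ρ : X → ℝ) (c x : X) : ℝ := ⟪x - c, psi' z R ρ x⟫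

noncomputable def rv' (z : ι → ℝ) (R : ι → X) (ρ : X → ℝ) (H : X → X →L[ℝ] X) (c x : X) : X :=
  psi' z R ρ x + H x (x - c)

/-- `φ + ⟪x - c, ∇φ⟫` -/
noncomputable def wf (z : ι → ℝ) (R : ι → X) (ρ : X → ℝ) (c x : X) : ℝ :=
  Vpt z R x - pot ρ x + rv z R ρ c x

noncomputable def wf' (z : ι → ℝ) (R : ι → X) (ρ : X → ℝ) (H : X → X →L[ℝ] X) (c x : X) : X :=
  psi' z R ρ x + rv' z R ρ H c x

/-- the cut-off at the nucleus `i` -/
noncomputable def ch (b : ℝ) (R : ι → X) (i : ι) (x : X) : ℝ := Flux.cut b ‖x - R i‖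

/-- the trial potential minus the potential of the nuclei -/
noncomputable def kD (b : ℝ) (z : ι → ℝ) (R : ι → X) (ρ : X → ℝ) (x : X) : ℝ :=
  -pot ρ x - ∑ i, ch b R i x * wf z R ρ (R i) x

noncomputable def kD' (b : ℝ) (z : ι → ℝ) (R : ι → X) (ρ : X → ℝ) (H : X → X →L[ℝ] X) (x : X) : X :=
  -gradV ρ x - ∑ i, (ch b R i x • wf' z R ρ H (R i) x + wf z R ρ (R i) x • Flux.gcut b (x - R i))

/-! ### smoothness off the nuclei -/

theorem LipAt_sum {s : Finset ι} {f : ι → X → ℝ} {x : X} (h : ∀ i ∈ s, LipAt (f i) x) :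
    LipAt (fun y => ∑ i ∈ s, f i y) x := by
  classical
  induction s using Finset.induction_on with
  | empty => simpa using LipAt.const (V := X) 0 x
  | insert a s ha ih =>
    simp only [Finset.sum_insert ha]
    exact (h a (Finset.mem_insert_self a s)).add
      (ih fun i hi => h i (Finset.mem_insert_of_mem hi))

theorem ch_lip (hb : 0 < b) (R : ι → X) (i : ι) (x : X) : LipAt (ch b R i) x := by
  have h : LipschitzWith _ (fun x : X => Flux.cut b ‖x - R i‖) := (Flux.cut_lip hb).comp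
    (lipschitzWith_one_norm.comp (LipschitzWith.id.sub (LipschitzWith.const (R i))))
  exact lipAt_of_lip h x

theorem ch_grad (hb : 0 < b) (R : ι → X) (i : ι) {x : X} (h1 : ‖x - R i‖ ≠ b)
    (h2 : ‖x - R i‖ ≠ 2 * b) : HasGradientAt (ch b R i) (Flux.gcut b (x - R i)) x := by
  have h3 := Flux.hasGradient_cut (y := x - R i) hb h1 h2
  rw [hasGradientAt_iff_hasFDerivAt] at h3 ⊢
  exact h3.comp x ((hasFDerivAt_id x).sub_const (R i))

theorem ae_good (R : ι → X) (b : ℝ) : ∀ᵐ x : X, (∀ i, x ≠ R i) ∧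
    ∀ i, ‖x - R i‖ ≠ b ∧ ‖x - R i‖ ≠ 2 * b := by
  have := nontriv (V := X)
  have h1 : ∀ᵐ x : X, ∀ i, ‖x - R i‖ ≠ b ∧ ‖x - R i‖ ≠ 2 * b := by
    rw [ae_all_iff]
    intro i
    filter_upwards [Flux.sphere_ae (R i) (r := b), Flux.sphere_ae (R i) (r := 2 * b)] with x h k
    exact ⟨h, k⟩
  filter_upwards [off_ae R, h1] with x h2 h3
  exact ⟨h2, h3⟩

section sol

variable (hz : ∀ i, 0 ≤ z i) (hφ : 0 < φ₀) (hρ : TC ρ)
    (heq : ∀ x, ρ x = tf (Vpt z R x - pot ρ x - φ₀)) (h : HessSol z R ρ H)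

include hz hφ hρ heq h

theorem rv_grad (c : X) {x : X} (hx : ∀ i, x ≠ R i) :
    HasGradientAt (rv z R ρ c) (rv' z R ρ H c x) x := by
  have h1 : HasFDerivAt (fun y : X => y - c) (ContinuousLinearMap.id ℝ X) x :=
    (hasFDerivAt_id x).sub_const c
  have h2 := h1.inner ℝ (h.deriv x hx)
  rw [hasGradientAt_iff_hasFDerivAt]
  refine h2.congr_fderiv ?_
  ext a
  simp only [ContinuousLinearMap.comp_apply, ContinuousLinearMap.prod_apply,
    fderivInnerCLM_apply, ContinuousLinearMap.id_apply, InnerProductSpace.toDual_apply_apply,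
    rv', inner_add_left]
  rw [h.symm x hx (x - c) a, real_inner_comm a]
  ring

theorem rv'_cont (c : X) {x : X} (hx : ∀ i, x ≠ R i) : ContinuousAt (rv' z R ρ H c) x := by
  unfold rv'
  exact (h.cont' hx).add ((h.contAt hx).clm_apply (continuousAt_id.sub continuousAt_const))

theorem phi_grad {x : X} (hx : ∀ i, x ≠ R i) :
    HasGradientAt (fun y => Vpt z R y - pot ρ y) (psi' z R ρ x) x := by
  have h1 := (hasGradientAt_Vpt z R hx).hasFDerivAt.sub
    (pot_grad hz hφ hρ heq hx).1.hasFDerivAt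
  rw [← map_sub] at h1
  exact h1

theorem wf_grad (c : X) {x : X} (hx : ∀ i, x ≠ R i) :
    HasGradientAt (wf z R ρ c) (wf' z R ρ H c x) x := by
  have h1 := (phi_grad hz hφ hρ heq h hx).hasFDerivAt.add
    (rv_grad hz hφ hρ heq h c hx).hasFDerivAt
  rw [← map_add] at h1
  exact h1

theorem wf'_cont (c : X) {x : X} (hx : ∀ i, x ≠ R i) : ContinuousAt (wf' z R ρ H c) x := by
  unfold wf'
  exact (h.cont' hx).add (rv'_cont hz hφ hρ heq h c hx)

theorem rv_lip (c : X) : ∀ x, (∀ i, x ≠ R i) → LipAt (rv z R ρ c) x :=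
  lipAt_off (fun x hx => rv_grad hz hφ hρ heq h c hx) fun x hx => rv'_cont hz hφ hρ heq h c hx

theorem wf_lip (c : X) : ∀ x, (∀ i, x ≠ R i) → LipAt (wf z R ρ c) x :=
  lipAt_off (fun x hx => wf_grad hz hφ hρ heq h c hx) fun x hx => wf'_cont hz hφ hρ heq h c hx

theorem kD_lip (hb : 0 < b) : ∀ x, (∀ i, x ≠ R i) → LipAt (kD b z R ρ) x := by
  intro x hx
  have h1 : LipAt (fun y => -pot ρ y) x := by
    refine lipAt_off (R := R) (k' := fun x => -gradV ρ x) (fun x hx => ?_) (fun x hx => ?_) x hx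
    · have := (pot_grad hz hφ hρ heq hx).1.hasFDerivAt.neg
      rw [← map_neg] at this
      exact this
    · exact (pot_grad hz hφ hρ heq hx).2.neg
  exact h1.sub (LipAt_sum fun i _ => (ch_lip hb R i x).mul (wf_lip hz hφ hρ heq h (R i) x hx))

theorem kD_grad (hb : 0 < b) {x : X} (hx : ∀ i, x ≠ R i)
    (hs : ∀ i, ‖x - R i‖ ≠ b ∧ ‖x - R i‖ ≠ 2 * b) :
    HasGradientAt (kD b z R ρ) (kD' b z R ρ H x) x := by
  have h1 := (pot_grad hz hφ hρ heq hx).1.hasFDerivAt.neg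
  have h2 : ∀ i, HasFDerivAt (fun y => ch b R i y * wf z R ρ (R i) y)
      ((InnerProductSpace.toDual ℝ X) (ch b R i x • wf' z R ρ H (R i) x +
        wf z R ρ (R i) x • Flux.gcut b (x - R i))) x := by
    intro i
    have h3 := (ch_grad hb R i (hs i).1 (hs i).2).hasFDerivAt.mul
      (wf_grad hz hφ hρ heq h (R i) hx).hasFDerivAt
    refine h3.congr_fderiv ?_
    rw [map_add, map_smul, map_smul]
  have h4 : HasFDerivAt (fun y => ∑ i, ch b R i y * wf z R ρ (R i) y)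
      (∑ i, (InnerProductSpace.toDual ℝ X) (ch b R i x • wf' z R ρ H (R i) x +
        wf z R ρ (R i) x • Flux.gcut b (x - R i))) x := HasFDerivAt.fun_sum fun i _ => h2 i
  rw [hasGradientAt_iff_hasFDerivAt]
  refine (h1.sub h4).congr_fderiv ?_
  rw [kD', map_sub, map_sum, map_neg]

end sol

/-! ### the regions -/

/-- the nuclei are far from each other, and the density is supported near them -/
structure Sep (b : ℝ) (R : ι → X) (ρ : X → ℝ) : Prop where
  pos : 0 < b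
  sep : ∀ i j, i ≠ j → 8 * b ≤ ‖R i - R j‖
  off : ∀ x, (∀ i, b ≤ ‖x - R i‖) → ρ x = 0

theorem Sep.other (hS : Sep b R ρ) {x : X} {i : ι} (hx : ‖x - R i‖ ≤ 2 * b) :
    ∀ j, j ≠ i → 2 * b ≤ ‖x - R j‖ := by
  intro j hj
  have h1 := hS.sep i j (Ne.symm hj)
  have h2 : ‖R i - R j‖ ≤ ‖x - R j‖ + ‖x - R i‖ := by
    have := norm_sub_le (x - R j) (x - R i)
    rw [show x - R j - (x - R i) = R i - R j by abel] at this
    exact this
  have := hS.pos
  linarith

theorem Sep.inj (hS : Sep b R ρ) : Function.Injective R := by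
  intro i j hij
  by_contra hne
  have h1 := hS.sep i j hne
  have := hS.pos
  rw [hij, sub_self, norm_zero] at h1
  linarith

theorem ch_zero (hb : 0 < b) {i : ι} {x : X} (hx : 2 * b ≤ ‖x - R i‖) : ch b R i x = 0 :=
  Flux.cut_zero hb hx

theorem ch_one (hb : 0 < b) {i : ι} {x : X} (hx : ‖x - R i‖ ≤ b) : ch b R i x = 1 :=
  Flux.cut_one hb hx

theorem gcut_far {y : X} (hy : 2 * b ≤ ‖y‖) : Flux.gcut b y = 0 := by
  unfold Flux.gcut
  rw [indicator_of_notMem (by intro hh; exact absurd hh.2 (not_lt.2 hy)), zero_smul]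

theorem gcut_in {y : X} (hy : ‖y‖ ≤ b) : Flux.gcut b y = 0 := by
  unfold Flux.gcut
  rw [indicator_of_notMem (by intro hh; exact absurd hh.1 (not_lt.2 hy)), zero_smul]

/-- sums over the nuclei of terms supported in the balls of radius `2 b` -/
theorem Sep.sum_in {E : Type*} [AddCommMonoid E] (hS : Sep b R ρ) {x : X} {i : ι}
    (hx : ‖x - R i‖ ≤ 2 * b) {f : ι → E} (hf : ∀ j, 2 * b ≤ ‖x - R j‖ → f j = 0) :
    ∑ j, f j = f i := by
  classical
  refine Finset.sum_eq_single i (fun j _ hj => hf j (hS.other hx j hj)) fun hi => ?_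
  exact absurd (Finset.mem_univ i) hi

theorem sum_out {E : Type*} [AddCommMonoid E] {x : X}
    (hx : ∀ i, 2 * b ≤ ‖x - R i‖) {f : ι → E} (hf : ∀ j, 2 * b ≤ ‖x - R j‖ → f j = 0) :
    ∑ j, f j = 0 := Finset.sum_eq_zero fun j _ => hf j (hx j)

theorem kD_in (hS : Sep b R ρ) {x : X} {i : ι} (hx : ‖x - R i‖ ≤ 2 * b) :
    kD b z R ρ x = -pot ρ x - ch b R i x * wf z R ρ (R i) x := by
  unfold kD
  rw [hS.sum_in hx fun j hj => by rw [ch_zero hS.pos hj, zero_mul]]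

theorem kD_own (hS : Sep b R ρ) {x : X} {i : ι} (hx : ‖x - R i‖ ≤ b) :
    kD b z R ρ x = -Vpt z R x - rv z R ρ (R i) x := by
  rw [kD_in hS (i := i) (by linarith [hS.pos]), ch_one hS.pos hx, one_mul, wf]
  ring

theorem kD_out (hS : Sep b R ρ) {x : X} (hx : ∀ i, 2 * b ≤ ‖x - R i‖) :
    kD b z R ρ x = -pot ρ x := by
  unfold kD
  rw [sum_out hx fun j hj => by rw [ch_zero hS.pos hj, zero_mul], sub_zero]

theorem kD'_in (hS : Sep b R ρ) {x : X} {i : ι} (hx : ‖x - R i‖ ≤ 2 * b) :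
    kD' b z R ρ H x = -gradV ρ x - (ch b R i x • wf' z R ρ H (R i) x +
      wf z R ρ (R i) x • Flux.gcut b (x - R i)) := by
  unfold kD'
  rw [hS.sum_in hx fun j hj => by rw [ch_zero hS.pos hj, gcut_far hj, zero_smul, smul_zero,
    add_zero]]

theorem kD'_own (hS : Sep b R ρ) {x : X} {i : ι} (hx : ‖x - R i‖ ≤ b) :
    kD' b z R ρ H x = -gVpt z R x - rv' z R ρ H (R i) x := by
  rw [kD'_in hS (i := i) (by linarith [hS.pos]), ch_one hS.pos hx, one_smul, gcut_in hx,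
    smul_zero, add_zero, wf', psi']
  abel

theorem kD'_out (hS : Sep b R ρ) {x : X} (hx : ∀ i, 2 * b ≤ ‖x - R i‖) :
    kD' b z R ρ H x = -gradV ρ x := by
  unfold kD'
  rw [sum_out hx fun j hj => by rw [ch_zero hS.pos hj, gcut_far hj, zero_smul, smul_zero,
    add_zero], sub_zero]

theorem kD_nuc (hS : Sep b R ρ) (i : ι) : Vpt z R (R i) + kD b z R ρ (R i) = 0 := by
  rw [kD_own hS (i := i) (by rw [sub_self, norm_zero]; exact hS.pos.le), rv, sub_self,
    inner_zero_left]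
  ring

/-- the regions -/
theorem regions (b : ℝ) (R : ι → X) (x : X) : (∃ i, ‖x - R i‖ ≤ b) ∨
    (∃ i, b < ‖x - R i‖ ∧ ‖x - R i‖ ≤ 2 * b ∧ ∀ j, b < ‖x - R j‖) ∨
    ∀ i, 2 * b < ‖x - R i‖ ∧ b < ‖x - R i‖ := by
  by_cases h1 : ∃ i, ‖x - R i‖ ≤ b
  · exact Or.inl h1
  · push Not at h1
    by_cases h2 : ∃ i, ‖x - R i‖ ≤ 2 * b
    · obtain ⟨i, hi⟩ := h2
      exact Or.inr (Or.inl ⟨i, h1 i, hi, h1⟩)
    · push Not at h2
      exact Or.inr (Or.inr fun i => ⟨h2 i, h1 i⟩)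

/-- far away all cut-offs vanish -/
theorem far_out (R : ι → X) (b : ℝ) : ∃ N : ℝ, 0 < N ∧ ∀ x : X, N ≤ ‖x‖ →
    ∀ i, 2 * b < ‖x - R i‖ := by
  set ρ₀ : ℝ := ∑ i, ‖R i‖ with hρ₀
  have h0 : 0 ≤ ρ₀ := Finset.sum_nonneg fun i _ => norm_nonneg _
  refine ⟨ρ₀ + 2 * |b| + 1, by positivity, fun x hx i => ?_⟩
  have h5 : ‖R i‖ ≤ ρ₀ := Finset.single_le_sum (f := fun i => ‖R i‖)
    (fun i _ => norm_nonneg _) (Finset.mem_univ i)
  have h6 := norm_sub_norm_le x (R i)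
  have h7 := le_abs_self b
  linarith

/-- **the trial potential is admissible** -/
theorem trialD (hz : ∀ i, 0 < z i) (hφ : 0 < φ₀) (hρ : TC ρ)
    (heq : ∀ x, ρ x = tf (Vpt z R x - pot ρ x - φ₀)) (h : HessSol z R ρ H) (hS : Sep b R ρ) :
    TrialK (range R) (kD b z R ρ) (kD' b z R ρ H) ∧
      ∃ C : ℝ, ∀ᵐ x : X, ‖kD' b z R ρ H x‖ ≤ C * (1 + ∑ i, (‖x - R i‖⁻¹) ^ (3 / 4 : ℝ)) := by
  have hz0 : ∀ i, 0 ≤ z i := fun i => (hz i).le
  have hR := hS.inj
  have hb := hS.pos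
  obtain ⟨hTp, -, -⟩ := sol_facts hz0 R hφ hρ heq
  obtain ⟨N0, hN0, hfar⟩ := far_out R b
  have hlip := kD_lip hz0 hφ hρ heq h hb
  have hgr : ∀ x, (∀ i, x ≠ R i) → (∀ i, ‖x - R i‖ ≠ b ∧ ‖x - R i‖ ≠ 2 * b) →
      ∇ (kD b z R ρ) x = kD' b z R ρ H x := fun x hx hs =>
    (kD_grad hz0 hφ hρ heq h hb hx hs).gradient
  -- continuity
  have hcont : Continuous (kD b z R ρ) := by
    rw [continuous_iff_continuousAt]
    intro x
    by_cases hx : ∀ i, x ≠ R i
    · exact (hlip x hx).continuousAt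
    · push Not at hx
      obtain ⟨i, rfl⟩ := hx
      obtain ⟨C, η, hC, hη, hη1, hnuc⟩ := own_facts hz hR hφ hρ heq h i
      rw [continuousAt_iff_punctured_nhds]
      have hV := (calib_nuc (z := z) (R := R) hR (k := fun _ => (0 : ℝ)) continuous_const i).mono_left
        (nhdsWithin_le_nhds (s := {R i}ᶜ))
      have h1 : Tendsto (fun x : X => ‖x - R i‖) (𝓝[≠] (R i)) (𝓝 0) := by
        have h2 : Continuous fun x : X => ‖x - R i‖ := by fun_prop
        have h3 := h2.tendsto (R i)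
        rw [sub_self, norm_zero] at h3
        exact h3.mono_left nhdsWithin_le_nhds
      have hball : ∀ᶠ x in 𝓝[≠] (R i), 0 < ‖x - R i‖ ∧ ‖x - R i‖ < η ∧ ‖x - R i‖ < b := by
        have h2 : ∀ᶠ x in 𝓝[≠] (R i), ‖x - R i‖ < η := h1.eventually (gt_mem_nhds hη)
        have h3 : ∀ᶠ x in 𝓝[≠] (R i), ‖x - R i‖ < b := h1.eventually (gt_mem_nhds hb)
        filter_upwards [h2, h3, self_mem_nhdsWithin] with x hx hx3 hx2
        exact ⟨norm_pos_iff.mpr (sub_ne_zero.mpr hx2), hx, hx3⟩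
      have hE : Tendsto (fun x => rv z R ρ (R i) x + z i * ‖x - R i‖⁻¹) (𝓝[≠] (R i))
          (𝓝 0) := by
        have h2 : Tendsto (fun x : X => C * ‖x - R i‖ ^ (1 / 4 : ℝ)) (𝓝[≠] (R i)) (𝓝 (C * 0)) := by
          refine Tendsto.const_mul _ ?_
          have h3 := (Real.continuousAt_rpow_const 0 (1 / 4 : ℝ) (Or.inr (by norm_num))).tendsto
          rw [Real.zero_rpow (by norm_num)] at h3
          exact h3.comp h1
        rw [mul_zero] at h2
        refine squeeze_zero_norm' ?_ h2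
        filter_upwards [hball] with x hx
        rw [Real.norm_eq_abs]
        exact (hnuc x hx.1 hx.2.1).2.1
      have hfin := (hE.add hV).neg
      have e0 := kD_nuc (z := z) hS i
      have e1 : -(0 + (Vpt z R (R i) + 0)) = kD b z R ρ (R i) := by linarith
      rw [e1] at hfin
      refine hfin.congr' ?_
      filter_upwards [hball] with x hx
      rw [kD_own hS (i := i) hx.2.2.le]
      ring
  -- decay
  have hdec : ∀ δ : ℝ, 0 < δ → ∃ r, ∀ x, r ≤ ‖x‖ → |kD b z R ρ x| < δ := by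
    intro δ hδ
    obtain ⟨r, hr⟩ := hTp.decay δ hδ
    refine ⟨max r N0, fun x hx => ?_⟩
    rw [kD_out hS fun i => (hfar x ((le_max_right _ _).trans hx) i).le, abs_neg]
    exact hr x ((le_max_left _ _).trans hx)
  have hT := trialK_of R hcont hdec hlip
    (fun i => by
      obtain ⟨C, η, hC, hη, hη1, hnuc⟩ := own_facts hz hR hφ hρ heq h i
      refine ⟨C, min η b, lt_min hη hb, ?_⟩
      filter_upwards [ae_good R b] with x hx hxη
      rw [hgr x hx.1 hx.2, kD'_own hS (i := i) (hxη.trans_le (min_le_right _ _)).le]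
      have h1 := (hnuc x (norm_pos_iff.mpr (sub_ne_zero.mpr (hx.1 i)))
        (hxη.trans_le (min_le_left _ _))).2.2.1
      have e1 : -gVpt z R x - rv' z R ρ H (R i) x =
          -(gVpt z R x + psi' z R ρ x + H x (x - R i)) := by
        unfold rv'
        abel
      rw [e1, norm_neg]
      exact h1)
    (by
      obtain ⟨r, hr0, hr⟩ := sol_supp hz0 R hφ hρ heq
      refine ⟨4 * ∫ y, |ρ y|, max N0 (2 * r), ?_⟩
      filter_upwards [ae_good R b] with x hx hxN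
      rw [hgr x hx.1 hx.2, kD'_out hS fun i => (hfar x ((le_max_left _ _).trans hxN) i).le,
        norm_neg]
      exact gradV_decay hρ.int hρ.meas hr0 hr ((le_max_right _ _).trans hxN))
  obtain ⟨hT1, -, D, hD0, hD⟩ := hT
  have hae : (fun x => ∇ (kD b z R ρ) x) =ᵐ[volume] kD' b z R ρ H := by
    filter_upwards [ae_good R b] with x hx
    exact hgr x hx.1 hx.2
  refine ⟨⟨hT1.bdd, hT1.decay, hT1.cont, hT1.lip, ?_, ?_⟩, D, ?_⟩
  · filter_upwards [ae_good R b] with x hx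
    exact kD_grad hz0 hφ hρ heq h hb hx.1 hx.2
  · refine hT1.sq.congr ?_
    filter_upwards [hae] with x hx
    rw [hx]
  · filter_upwards [hae, hD] with x hx hx2
    rw [hx] at hx2
    refine hx2.trans (mul_le_mul_of_nonneg_left ?_ hD0)
    unfold Maj
    have h1 : ((1 + ‖x‖) ^ 2)⁻¹ ≤ 1 := by
      refine inv_le_one_of_one_le₀ (one_le_pow₀ ?_)
      linarith [norm_nonneg x]
    have h2 : ∑ i, (ball (R i) 1).indicator (fun y => (‖y - R i‖⁻¹) ^ (3 / 4 : ℝ)) x ≤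
        ∑ i, (‖x - R i‖⁻¹) ^ (3 / 4 : ℝ) := by
      refine Finset.sum_le_sum fun i _ => ?_
      exact indicator_le_self' (fun _ _ => by positivity) _
    linarith

end Pool.Agent.TF.Dis

end

section
/-! Nearly isolated ions: the calibration. -/

set_option linter.unusedSectionVars false

set_option linter.unusedVariables false

set_option linter.style.haveILetI false

namespace Pool.Agent.TF.Grd
end Pool.Agent.TF.Grd

namespace Pool.Agent.TF.Dis

open MeasureTheory Set Metric Filter Topology Pool.Agent.TF.Grd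

open scoped ENNReal NNReal RealInnerProductSpace Gradient

variable {ι : Type*} [Fintype ι]

variable {z : ι → ℝ} {R : ι → X} {φ₀ : ℝ} {ρ : X → ℝ} {H : X → X →L[ℝ] X} {b : ℝ}

/-- the multiplier -/
noncomputable def Hm (b : ℝ) (z : ι → ℝ) (R : ι → X) (ρ : X → ℝ) (x : X) : ℝ :=
  -(2 * Real.pi)⁻¹ * ∑ i, ch b R i x * rv z R ρ (R i) x

noncomputable def Hm' (b : ℝ) (z : ι → ℝ) (R : ι → X) (ρ : X → ℝ) (H : X → X →L[ℝ] X) (x : X) : X :=
  (-(2 * Real.pi)⁻¹) • ∑ i, (ch b R i x • rv' z R ρ H (R i) x +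
    rv z R ρ (R i) x • Flux.gcut b (x - R i))

/-- the weight of the second field -/
noncomputable def be (b : ℝ) (R : ι → X) (x : X) : ℝ := ∑ i, ch b R i x * ‖x - R i‖ ^ 2

noncomputable def be' (b : ℝ) (R : ι → X) (x : X) : X :=
  ∑ i, (ch b R i x • ((2 : ℝ) • (x - R i)) + ‖x - R i‖ ^ 2 • Flux.gcut b (x - R i))

noncomputable def Af (b : ℝ) (z : ι → ℝ) (R : ι → X) (ρ : X → ℝ) (H : X → X →L[ℝ] X) (x : X) : X :=
  (-(4 * Real.pi)⁻¹ * be b R x) • H x (psi' z R ρ x)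

noncomputable def Df (b φ₀ : ℝ) (z : ι → ℝ) (R : ι → X) (ρ : X → ℝ) (H : X → X →L[ℝ] X) (x : X) : ℝ :=
  -(4 * Real.pi)⁻¹ * (⟪be' b R x, H x (psi' z R ρ x)⟫ + be b R x * (hs (H x) +
    4 * Real.pi * gam (Grd.psi φ₀ z R ρ x) * ‖psi' z R ρ x‖ ^ 2))

theorem be_lip (hb : 0 < b) (R : ι → X) (x : X) : LipAt (be b R) x := by
  refine LipAt_sum fun i _ => (ch_lip hb R i x).mul ?_
  have h1 : ∀ y : X, HasGradientAt (fun y => ‖y - R i‖ ^ 2) ((2 : ℝ) • (y - R i)) y := by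
    intro y
    have h2 := ((hasStrictFDerivAt_norm_sq (y - R i)).hasFDerivAt.comp y
      ((hasFDerivAt_id y).sub_const (R i)))
    rw [hasGradientAt_iff_hasFDerivAt]
    refine h2.congr_fderiv ?_
    ext a
    simp [inner_smul_left]
  exact lipAt_of_gradient one_pos (fun y _ => h1 y) (by fun_prop)

theorem be_grad (hb : 0 < b) (R : ι → X) {x : X}
    (hs : ∀ i, ‖x - R i‖ ≠ b ∧ ‖x - R i‖ ≠ 2 * b) : HasGradientAt (be b R) (be' b R x) x := by
  have h2 : ∀ i, HasFDerivAt (fun y => ch b R i y * ‖y - R i‖ ^ 2)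
      ((InnerProductSpace.toDual ℝ X) (ch b R i x • ((2 : ℝ) • (x - R i)) +
        ‖x - R i‖ ^ 2 • Flux.gcut b (x - R i))) x := by
    intro i
    have h1 : HasFDerivAt (fun y => ‖y - R i‖ ^ 2)
        ((InnerProductSpace.toDual ℝ X) ((2 : ℝ) • (x - R i))) x := by
      have h2 := ((hasStrictFDerivAt_norm_sq (x - R i)).hasFDerivAt.comp x
        ((hasFDerivAt_id x).sub_const (R i)))
      refine h2.congr_fderiv ?_
      ext a
      simp [inner_smul_left]
    have h3 := (ch_grad hb R i (hs i).1 (hs i).2).hasFDerivAt.mul h1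
    refine h3.congr_fderiv ?_
    simp only [map_add, map_smul]
  rw [hasGradientAt_iff_hasFDerivAt, be', map_sum]
  exact HasFDerivAt.fun_sum fun i _ => h2 i

section sol

variable (hz : ∀ i, 0 ≤ z i) (hφ : 0 < φ₀) (hρ : TC ρ)
    (heq : ∀ x, ρ x = tf (Vpt z R x - pot ρ x - φ₀)) (h : HessSol z R ρ H)

include hz hφ hρ heq h

theorem Hm_lip (hb : 0 < b) : ∀ x, (∀ i, x ≠ R i) → LipAt (Hm b z R ρ) x := by
  intro x hx
  exact (LipAt.const _ x).mul
    (LipAt_sum fun i _ => (ch_lip hb R i x).mul (rv_lip hz hφ hρ heq h (R i) x hx))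

theorem Hm_grad (hb : 0 < b) {x : X} (hx : ∀ i, x ≠ R i)
    (hs : ∀ i, ‖x - R i‖ ≠ b ∧ ‖x - R i‖ ≠ 2 * b) :
    HasGradientAt (Hm b z R ρ) (Hm' b z R ρ H x) x := by
  have h2 : ∀ i, HasFDerivAt (fun y => ch b R i y * rv z R ρ (R i) y)
      ((InnerProductSpace.toDual ℝ X) (ch b R i x • rv' z R ρ H (R i) x +
        rv z R ρ (R i) x • Flux.gcut b (x - R i))) x := by
    intro i
    have h3 := (ch_grad hb R i (hs i).1 (hs i).2).hasFDerivAt.mul
      (rv_grad hz hφ hρ heq h (R i) hx).hasFDerivAt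
    refine h3.congr_fderiv ?_
    rw [map_add, map_smul, map_smul]
  have h4 : HasFDerivAt (fun y => ∑ i, ch b R i y * rv z R ρ (R i) y)
      (∑ i, (InnerProductSpace.toDual ℝ X) (ch b R i x • rv' z R ρ H (R i) x +
        rv z R ρ (R i) x • Flux.gcut b (x - R i))) x := HasFDerivAt.fun_sum fun i _ => h2 i
  rw [hasGradientAt_iff_hasFDerivAt]
  refine (h4.const_mul (-(2 * Real.pi)⁻¹)).congr_fderiv ?_
  rw [Hm', map_smul, map_sum]

theorem gampsi_cont {x : X} (hx : ∀ i, x ≠ R i) :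
    ContinuousAt (fun y => gam (Grd.psi φ₀ z R ρ y)) x :=
  gam_continuous.continuousAt.comp (psi_cont hz hφ hρ heq hx)

theorem Af_locInt (hb : 0 < b) : Flux.LocInt R (Af b z R ρ H) := by
  refine locInt_off fun x hx => ?_
  have h1 : ContinuousAt (be b R) x := (be_lip hb R x).continuousAt
  have h2 : ContinuousAt (fun y => H y (psi' z R ρ y)) x := (h.contAt hx).clm_apply (h.cont' hx)
  exact (continuousAt_const.mul h1).smul h2

theorem Df_locInt (hb : 0 < b) : Flux.LocInt R (Df b φ₀ z R ρ H) := by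
  have hbl : Flux.LocLip R (be b R) := locLip_of_lipAt fun x _ => be_lip hb R x
  have h1 : Flux.LocInt R (fun y => H y (psi' z R ρ y)) :=
    locInt_off fun x hx => (h.contAt hx).clm_apply (h.cont' hx)
  have h2 : Flux.LocInt R fun x => ⟪be' b R x, H x (psi' z R ρ x)⟫ := by
    refine hbl.grad_inner_locInt ?_ h1
    filter_upwards [ae_good R b] with x hx
    exact be_grad hb R hx.2
  have h3 : Flux.LocInt R fun x => (hs (H x) +
      4 * Real.pi * gam (Grd.psi φ₀ z R ρ x) * ‖psi' z R ρ x‖ ^ 2) * be b R x := by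
    refine hbl.mul_locInt (locInt_off fun x hx => ?_)
    have h4 := gampsi_cont hz hφ hρ heq h hx
    exact (hs_continuous.continuousAt.comp (h.contAt hx)).add
      ((continuousAt_const.mul h4).mul ((h.cont' hx).norm.pow 2))
  intro K hK hRK
  have h5 := ((h2 K hK hRK).add (h3 K hK hRK)).const_mul (-(4 * Real.pi)⁻¹)
  refine h5.congr (Eventually.of_forall fun x => ?_)
  simp only [Df, Pi.add_apply]
  ring

/-- the weak divergence of the second field -/
theorem flux_eq (hb : 0 < b) {ζ : X → ℝ} (hζ : Flux.TestFn R ζ) :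
    -∫ x, ⟪Af b z R ρ H x, ∇ ζ x⟫ ≤ ∫ x, ζ x * Df b φ₀ z R ρ H x := by
  obtain ⟨C, hC⟩ := hζ.lip
  have hoff : ∀ i, R i ∉ tsupport ζ := fun i hi =>
    absurd (notMem_tsupport_iff_eventuallyEq.mpr (hζ.off i)) (not_not.mpr hi)
  obtain ⟨e, he⟩ := exists_basis
  have hbl : Flux.LocLip R (be b R) := locLip_of_lipAt fun x _ => be_lip hb R x
  have key := Flux.boch (R := R) (P := psi' z R ρ) (T := H)
    (Gam := fun x => 4 * Real.pi * gam (Grd.psi φ₀ z R ρ x)) (β := be b R) (β' := be' b R) e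
    (fun x hx => h.deriv x hx) (fun x hx => h.contAt hx) (fun x hx => h.symm x hx)
    (fun x hx => continuousAt_const.mul (gampsi_cont hz hφ hρ heq h hx))
    (fun j η C hη hc ho => by
      rw [weak_hess hz R hφ hρ heq h (e j) hη hc ho])
    hbl (by
      filter_upwards [ae_good R b] with x hx
      exact be_grad hb R hx.2) hC hζ.supp hoff
  have e1 : ∫ x, ⟪Af b z R ρ H x, ∇ ζ x⟫ =
      -(4 * Real.pi)⁻¹ * ∫ x, ⟪be b R x • H x (psi' z R ρ x), ∇ ζ x⟫ := by
    rw [← integral_const_mul]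
    refine integral_congr_ae (Eventually.of_forall fun x => ?_)
    simp only [Af]
    rw [mul_smul, real_inner_smul_left]
  have e2 : ∫ x, ζ x * Df b φ₀ z R ρ H x = -(4 * Real.pi)⁻¹ *
      ∫ x, ζ x * (⟪be' b R x, H x (psi' z R ρ x)⟫ + be b R x * ((∑ j, ‖H x (e j)‖ ^ 2) +
        4 * Real.pi * gam (Grd.psi φ₀ z R ρ x) * ‖psi' z R ρ x‖ ^ 2)) := by
    rw [← integral_const_mul]
    refine integral_congr_ae (Eventually.of_forall fun x => ?_)
    simp only [Df]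
    rw [(he (H x)).1]
    ring
  rw [e1, e2, key]
  linarith

end sol

/-! ### the regions -/

theorem Hm_in (hS : Sep b R ρ) {x : X} {i : ι} (hx : ‖x - R i‖ ≤ 2 * b) :
    Hm b z R ρ x = -(2 * Real.pi)⁻¹ * (ch b R i x * rv z R ρ (R i) x) := by
  unfold Hm
  rw [hS.sum_in hx fun j hj => by rw [ch_zero hS.pos hj, zero_mul]]

theorem Hm_out (hS : Sep b R ρ) {x : X} (hx : ∀ i, 2 * b ≤ ‖x - R i‖) : Hm b z R ρ x = 0 := by
  unfold Hm
  rw [sum_out hx fun j hj => by rw [ch_zero hS.pos hj, zero_mul], mul_zero]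

theorem Hm'_in (hS : Sep b R ρ) {x : X} {i : ι} (hx : ‖x - R i‖ ≤ 2 * b) :
    Hm' b z R ρ H x = (-(2 * Real.pi)⁻¹) • (ch b R i x • rv' z R ρ H (R i) x +
      rv z R ρ (R i) x • Flux.gcut b (x - R i)) := by
  unfold Hm'
  rw [hS.sum_in hx fun j hj => by rw [ch_zero hS.pos hj, gcut_far hj, zero_smul, smul_zero,
    add_zero]]

theorem Hm'_out (hS : Sep b R ρ) {x : X} (hx : ∀ i, 2 * b ≤ ‖x - R i‖) :
    Hm' b z R ρ H x = 0 := by
  unfold Hm'
  rw [sum_out hx fun j hj => by rw [ch_zero hS.pos hj, gcut_far hj, zero_smul, smul_zero,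
    add_zero], smul_zero]

theorem be_in (hS : Sep b R ρ) {x : X} {i : ι} (hx : ‖x - R i‖ ≤ 2 * b) :
    be b R x = ch b R i x * ‖x - R i‖ ^ 2 := by
  unfold be
  rw [hS.sum_in hx fun j hj => by rw [ch_zero hS.pos hj, zero_mul]]

theorem be_out (hS : Sep b R ρ) {x : X} (hx : ∀ i, 2 * b ≤ ‖x - R i‖) : be b R x = 0 := by
  unfold be
  rw [sum_out hx fun j hj => by rw [ch_zero hS.pos hj, zero_mul]]

theorem be'_in (hS : Sep b R ρ) {x : X} {i : ι} (hx : ‖x - R i‖ ≤ 2 * b) :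
    be' b R x = ch b R i x • ((2 : ℝ) • (x - R i)) + ‖x - R i‖ ^ 2 • Flux.gcut b (x - R i) := by
  unfold be'
  rw [hS.sum_in hx fun j hj => by rw [ch_zero hS.pos hj, gcut_far hj, zero_smul, smul_zero,
    add_zero]]

theorem be'_out (hS : Sep b R ρ) {x : X} (hx : ∀ i, 2 * b ≤ ‖x - R i‖) : be' b R x = 0 := by
  unfold be'
  rw [sum_out hx fun j hj => by rw [ch_zero hS.pos hj, gcut_far hj, zero_smul, smul_zero,
    add_zero]]

/-- the shell density at the nucleus `i` -/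
noncomputable def shD (b : ℝ) (z : ι → ℝ) (R : ι → X) (ρ : X → ℝ) (H : X → X →L[ℝ] X) (i : ι)
    (x : X) : ℝ :=
  ‖psi' z R ρ x‖ ^ 2 - ‖psi' z R ρ x - (wf z R ρ (R i) x • Flux.gcut b (x - R i) +
    ch b R i x • wf' z R ρ H (R i) x)‖ ^ 2 -
    2 * ⟪ch b R i x • (-psi' z R ρ x - H x (x - R i)) +
      (-⟪x - R i, psi' z R ρ x⟫) • Flux.gcut b (x - R i), psi' z R ρ x⟫ +
    ⟪(‖x - R i‖ ^ 2) • Flux.gcut b (x - R i) + (2 * ch b R i x) • (x - R i),
      H x (psi' z R ρ x)⟫ + ch b R i x * ‖x - R i‖ ^ 2 * hs (H x)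

/-- the density in the own region -/
noncomputable def owD (φ₀ : ℝ) (z : ι → ℝ) (R : ι → X) (ρ : X → ℝ) (H : X → X →L[ℝ] X) (i : ι)
    (x : X) : ℝ :=
  2 * ‖psi' z R ρ x‖ ^ 2 + 2 * ⟪x - R i, H x (psi' z R ρ x)⟫ - ‖H x (x - R i)‖ ^ 2 +
    ‖x - R i‖ ^ 2 * hs (H x) - 2 * (4 * Real.pi * ρ x) * ⟪x - R i, psi' z R ρ x⟫ +
    4 * Real.pi * gam (Grd.psi φ₀ z R ρ x) * (‖x - R i‖ ^ 2 * ‖psi' z R ρ x‖ ^ 2 -
      ⟪x - R i, psi' z R ρ x⟫ ^ 2)

/-- the pointwise density of the calibration -/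
noncomputable def den (b φ₀ : ℝ) (z : ι → ℝ) (R : ι → X) (ρ : X → ℝ) (H : X → X →L[ℝ] X)
    (x : X) : ℝ :=
  Fcal φ₀ z R ρ (kD b z R ρ) (kD' b z R ρ H) x -
    ⟪Hm' b z R ρ H x, gVpt z R x - gradV ρ x⟫ - 4 * Real.pi * (ρ x * Hm b z R ρ x) -
    Df b φ₀ z R ρ H x

theorem den_own (hS : Sep b R ρ) {x : X} {i : ι} (hx : ‖x - R i‖ ≤ b)
    (hsym : ∀ u v, ⟪H x u, v⟫ = ⟪u, H x v⟫) :
    4 * Real.pi * den b φ₀ z R ρ H x = owD φ₀ z R ρ H i x := by
  have hpi := Real.pi_pos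
  have h2 : ‖x - R i‖ ≤ 2 * b := by linarith [hS.pos]
  unfold den
  obtain ⟨v, hv⟩ : ∃ v, v = psi' z R ρ x := ⟨_, rfl⟩
  have hv' : gVpt z R x - gradV ρ x = v := hv.symm
  have hY : Vpt z R x + kD b z R ρ x = -⟪x - R i, v⟫ := by
    rw [kD_own hS hx, rv, hv]
    ring
  have hY' : gVpt z R x + kD' b z R ρ H x = -(v + H x (x - R i)) := by
    rw [kD'_own hS hx, rv', hv]
    abel
  have hg : gam (Vpt z R x - pot ρ x - φ₀) = gam (Grd.psi φ₀ z R ρ x) := rfl
  rw [Fcal, hY, hY', hv', norm_neg, hg, Hm'_in hS h2, Hm_in hS h2, Df, be_in hS h2, be'_in hS h2,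
    ch_one hS.pos hx, gcut_in hx, rv', rv, owD, ← hv]
  simp only [one_smul, smul_zero, add_zero, one_mul, real_inner_smul_left, inner_add_left]
  obtain ⟨y, hy⟩ : ∃ y, y = x - R i := ⟨_, rfl⟩
  rw [← hy]
  have e1 : ‖v + H x y‖ ^ 2 = ‖v‖ ^ 2 + 2 * ⟪H x y, v⟫ + ‖H x y‖ ^ 2 := by
    rw [norm_add_sq_real, real_inner_comm]
  rw [e1, real_inner_self_eq_norm_sq, ← hsym y v]
  field_simp
  ring

theorem den_out (hS : Sep b R ρ) {x : X} (hx : ∀ i, 2 * b ≤ ‖x - R i‖) (hρ0 : ρ x = 0)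
    (hg0 : gam (Grd.psi φ₀ z R ρ x) = 0) : den b φ₀ z R ρ H x = 0 := by
  have hg : gam (Vpt z R x - pot ρ x - φ₀) = 0 := hg0
  have hY' : gVpt z R x + kD' b z R ρ H x = gVpt z R x - gradV ρ x := by
    rw [kD'_out hS hx]
    abel
  rw [den, Fcal, hY', hg, hρ0, Hm'_out hS hx, Hm_out hS hx, Df, be_out hS hx, be'_out hS hx]
  simp

theorem den_shell (hS : Sep b R ρ) {x : X} {i : ι} (hx : ‖x - R i‖ ≤ 2 * b) (hρ0 : ρ x = 0)
    (hg0 : gam (Grd.psi φ₀ z R ρ x) = 0) :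
    4 * Real.pi * den b φ₀ z R ρ H x = shD b z R ρ H i x := by
  have hpi := Real.pi_pos
  have hg : gam (Vpt z R x - pot ρ x - φ₀) = 0 := hg0
  unfold den
  obtain ⟨v, hv⟩ : ∃ v, v = psi' z R ρ x := ⟨_, rfl⟩
  have hv' : gVpt z R x - gradV ρ x = v := hv.symm
  have hY' : gVpt z R x + kD' b z R ρ H x = v - (wf z R ρ (R i) x • Flux.gcut b (x - R i) +
      ch b R i x • wf' z R ρ H (R i) x) := by
    rw [kD'_in hS hx, ← hv']
    abel
  rw [Fcal, hY', hv', hg, hρ0, Hm'_in hS hx, Hm_in hS hx, Df, be_in hS hx, be'_in hS hx, hg0,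
    shD, ← hv, rv', rv, ← hv]
  simp only [inner_smul_left, inner_add_left, smul_smul, inner_sub_left, inner_neg_left,
    RCLike.conj_to_real]
  field_simp
  ring

/-- **the second variation of the trial** -/
theorem VtrD (hz : ∀ i, 0 < z i) (hφ : 0 < φ₀) (hρ : TC ρ)
    (heq : ∀ x, ρ x = tf (Vpt z R x - pot ρ x - φ₀)) (h : HessSol z R ρ H) (hS : Sep b R ρ)
    (hown : ∀ i x, (∀ j, x ≠ R j) → 0 ≤ owD φ₀ z R ρ H i x)
    (hsh : ∀ i x, b < ‖x - R i‖ → ‖x - R i‖ < 2 * b → 0 ≤ shD b z R ρ H i x) :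
    0 ≤ Vtr φ₀ z R ρ (kD b z R ρ) ((8 * Real.pi)⁻¹ * ∫ x, ‖kD' b z R ρ H x‖ ^ 2) := by
  have hpi := Real.pi_pos
  have hz0 : ∀ i, 0 ≤ z i := fun i => (hz i).le
  have hR := hS.inj
  have hb := hS.pos
  obtain ⟨hT, C, hC⟩ := trialD hz hφ hρ heq h hS
  obtain ⟨N0, hN0, hfar⟩ := far_out R b
  have hzero : ∀ x, (∀ i, b ≤ ‖x - R i‖) → ρ x = 0 ∧ gam (Grd.psi φ₀ z R ρ x) = 0 := by
    intro x hx
    have h1 := hS.off x hx
    refine ⟨h1, gam_of_nonpos ?_⟩
    by_contra h2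
    push Not at h2
    have h3 := heq x
    rw [h1] at h3
    have h4 : 0 < tf (Vpt z R x - pot ρ x - φ₀) := by
      have h5 : 0 < Vpt z R x - pot ρ x - φ₀ := h2
      unfold tf
      rw [max_eq_left h5.le]
      positivity
    linarith
  have key := Vtr_ge_of_calib hz0 hR hφ hρ heq (finite_range R) hT hC
    (H := Hm b z R ρ) (D := Df b φ₀ z R ρ H) (e := fun _ => 0) (H' := Hm' b z R ρ H)
    (A := Af b z R ρ H) (integrable_zero _ _ _) (d := fun _ => 0)
    (locLip_of_lipAt (Hm_lip hz0 hφ hρ heq h hb))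
    (by
      filter_upwards [ae_good R b] with x hx
      exact Hm_grad hz0 hφ hρ heq h hb hx.1 hx.2)
    (Af_locInt hz0 hφ hρ heq h hb) (Df_locInt hz0 hφ hρ heq h hb)
    (fun ζ hζ => flux_eq hz0 hφ hρ heq h hb hζ)
    (by
      filter_upwards [ae_good R b] with x hx
      have e0 : -(0 : ℝ) ≤ den b φ₀ z R ρ H x := by
        rw [neg_zero]
        rcases regions b R x with ⟨i, hi⟩ | ⟨i, hi, hi2, hall⟩ | hall
        · have h1 := den_own (φ₀ := φ₀) (z := z) hS hi (h.symm x hx.1)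
          have h2 := hown i x hx.1
          rw [← h1] at h2
          exact nonneg_of_mul_nonneg_right h2 (by positivity)
        · obtain ⟨g1, g2⟩ := hzero x fun j => (hall j).le
          have h1 := den_shell (H := H) hS hi2 g1 g2
          have h2 := hsh i x hi (lt_of_le_of_ne hi2 (hx.2 i).2)
          rw [← h1] at h2
          exact nonneg_of_mul_nonneg_right h2 (by positivity)
        · obtain ⟨g1, g2⟩ := hzero x fun j => (hall j).2.le
          exact (den_out hS (fun j => (hall j).1.le) g1 g2).ge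
      exact e0)
    (by
      intro i δ hδ
      obtain ⟨C, η, hC, hη, hη1, hx⟩ := own_facts hz hR hφ hρ heq h i
      refine ⟨min (min η b) ((δ / (C + 1)) ^ 4), lt_min (lt_min hη hb) (by positivity), ?_⟩
      filter_upwards [off_ae R] with x hxo hxη
      have hx0 : 0 < ‖x - R i‖ := norm_pos_iff.mpr (sub_ne_zero.mpr (hxo i))
      have hxb : ‖x - R i‖ ≤ b :=
        (hxη.trans_le ((min_le_left _ _).trans (min_le_right _ _))).le
      obtain ⟨-, -, -, h4⟩ := hx x hx0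
        (hxη.trans_le ((min_le_left _ _).trans (min_le_left _ _)))
      have h5 : ‖x - R i‖ ^ (1 / 4 : ℝ) ≤ δ / (C + 1) := by
        have h6 : ‖x - R i‖ ^ (1 / 4 : ℝ) ≤ ((δ / (C + 1)) ^ 4) ^ (1 / 4 : ℝ) :=
          Real.rpow_le_rpow hx0.le (hxη.le.trans (min_le_right _ _)) (by norm_num)
        have h7 : ((δ / (C + 1)) ^ 4) ^ (1 / 4 : ℝ) = δ / (C + 1) := by
          rw [← Real.rpow_natCast, ← Real.rpow_mul (by positivity)]
          norm_num
        rwa [h7] at h6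
      have h8 : C * ‖x - R i‖ ^ (1 / 4 : ℝ) ≤ δ := by
        calc C * ‖x - R i‖ ^ (1 / 4 : ℝ) ≤ (C + 1) * (δ / (C + 1)) := by
              refine mul_le_mul (by linarith) h5 (by positivity) (by positivity)
          _ = δ := by field_simp
      have h9 := (abs_le.mp h4).2
      have h10 : ‖x - R i‖ ≤ 2 * b := by linarith
      rw [kD_nuc hS i, mul_zero, zero_add, zero_add]
      have hv' : gVpt z R x - gradV ρ x = psi' z R ρ x := rfl
      have e1 : 4 * Real.pi * ‖x - R i‖ ^ 2 * ⟪Hm b z R ρ x • (gVpt z R x - gradV ρ x) +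
          Af b z R ρ H x, ‖x - R i‖⁻¹ • (x - R i)⟫ =
          -(2 * ‖x - R i‖ * ⟪x - R i, psi' z R ρ x⟫ ^ 2) -
            ‖x - R i‖ ^ 3 * ⟪H x (psi' z R ρ x), x - R i⟫ := by
        rw [hv', Hm_in hS h10, Af, be_in hS h10, ch_one hb hxb, one_mul, one_mul, rv,
          inner_add_left, real_inner_smul_left, real_inner_smul_left, real_inner_smul_right,
          real_inner_smul_right, real_inner_comm (x - R i) (psi' z R ρ x)]
        field_simp
        ring
      rw [e1]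
      linarith)
    (by
      intro δ hδ
      refine ⟨N0, Eventually.of_forall fun x hx => ?_⟩
      have h1 : ∀ i, 2 * b ≤ ‖x - R i‖ := fun i => (hfar x hx.le i).le
      rw [Hm_out hS h1, Af, be_out hS h1, mul_zero, zero_smul, zero_smul, add_zero,
        inner_zero_left, mul_zero]
      linarith)
  simpa using key

end Pool.Agent.TF.Dis

end

section
/-! The densities of the calibration are nonnegative. -/

set_option linter.unusedSectionVars false

set_option linter.unusedVariables false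

set_option linter.style.haveILetI false

namespace Pool.Agent.TF.Grd
end Pool.Agent.TF.Grd

namespace Pool.Agent.TF.Dis

open MeasureTheory Set Metric Filter Topology Pool.Agent.TF.Grd

open scoped ENNReal NNReal RealInnerProductSpace Gradient

variable {ι : Type*} [Fintype ι]

variable {z : ι → ℝ} {R : ι → X} {φ₀ : ℝ} {ρ : X → ℝ} {H : X → X →L[ℝ] X} {b : ℝ}

theorem owD_nonneg (h : HessSol z R ρ H) (i : ι) {x : X} (hx : ∀ j, x ≠ R j) :
    0 ≤ owD φ₀ z R ρ H i x := by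
  have hpi := Real.pi_pos
  obtain ⟨e, he⟩ := exists_basis
  have h1 := own_sos e (H x) (h.symm x hx) (Rr := 4 * Real.pi * ρ x)
    (G := 4 * Real.pi * gam (Grd.psi φ₀ z R ρ x)) (by rw [(he (H x)).2, h.trace x hx])
    (mul_nonneg (by positivity) (gam_nonneg _)) (psi' z R ρ x) (x - R i)
  rw [(he (H x)).1] at h1
  exact h1

/-- the shell density is nonnegative where the potential is nearly `q / r + E` -/
theorem shD_nonneg (h : HessSol z R ρ H) (hb : 0 < b) {i : ι} {x : X} (hx : ∀ j, x ≠ R j)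
    (h1 : b < ‖x - R i‖) (h2 : ‖x - R i‖ < 2 * b) (hρ0 : ρ x = 0) {q E : ℝ} (hE : 0 < E)
    (hq : 100 * b * E ≤ q) (hphi : |Vpt z R x - pot ρ x - q / ‖x - R i‖ - E| ≤ E / 100)
    (hv : ‖psi' z R ρ x + (q / ‖x - R i‖ ^ 3) • (x - R i)‖ ≤ E / (100 * b))
    (hT : ‖H x (‖x - R i‖⁻¹ • (x - R i)) - (2 * q / ‖x - R i‖ ^ 4) • (x - R i)‖ ≤
      E / (100 * b ^ 2)) : 0 ≤ shD b z R ρ H i x := by
  obtain ⟨e, he⟩ := exists_basis
  have hr : 0 < ‖x - R i‖ := hb.trans h1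
  obtain ⟨y, hy⟩ : ∃ y, y = x - R i := ⟨_, rfl⟩
  obtain ⟨n, hn⟩ : ∃ n : X, n = ‖y‖⁻¹ • y := ⟨_, rfl⟩
  rw [← hy] at hr h1 h2 hphi hv hT
  have hn1 : ‖n‖ = 1 := by
    rw [hn, norm_smul, norm_inv, norm_norm, inv_mul_cancel₀ hr.ne']
  have hyn : y = ‖y‖ • n := by
    rw [hn, smul_smul, mul_inv_cancel₀ hr.ne', one_smul]
  have hgc : Flux.gcut b y = (-b⁻¹) • n := by
    unfold Flux.gcut
    rw [indicator_of_mem (show ‖y‖ ∈ Ioo b (2 * b) from ⟨h1, h2⟩), hn]
  have e1 : (q / ‖y‖ ^ 3) • y = (q / ‖y‖ ^ 2) • n := by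
    rw [hn, smul_smul]
    congr 1
    field_simp
  have e2 : (2 * q / ‖y‖ ^ 4) • y = (2 * q / ‖y‖ ^ 3) • n := by
    rw [hn, smul_smul]
    congr 1
    field_simp
  rw [e1] at hv
  rw [← hn, e2] at hT
  have key := shell_sos e (H x) (h.symm x hx)
    (by rw [(he (H x)).2, h.trace x hx, hρ0, mul_zero]) hn1
    (v := psi' z R ρ x) (v1 := psi' z R ρ x + (q / ‖y‖ ^ 2) • n)
    (t1 := H x n - (2 * q / ‖y‖ ^ 3) • n) (q := q) (E := E) (bb := b) (r := ‖y‖)
    (phi := Vpt z R x - pot ρ x) (ch := ch b R i x) hb h1.le h2.le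
    (Flux.cut_nonneg _ _) (Flux.cut_le_one _ _) hE hq (by module) (by abel) hv hT hphi
    (y := y) (gw := wf' z R ρ H (R i) x) (gc := Flux.gcut b y) (w := wf z R ρ (R i) x)
    hyn (by rw [wf, rv, ← hy]) (by rw [wf', rv', ← hy]; module) hgc
  rw [(he (H x)).1] at key
  unfold shD
  rw [← hy]
  exact key

end Pool.Agent.TF.Dis

end

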