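import Mathlib
import Pool.Agent.Lib.MP_9cf0c9_mp.Tr.Compare
import Pool.Agent.Lib.MP_9cf0c9_mp.Tr.PointSol
import Pool.Agent.Lib.MP_9cf0c9_mp.Tr.RadA

section
/-! One nucleus: uniqueness, radial symmetry and the radial profile of the Thomas-Fermi ion. -/

set_option autoImplicit false

set_option linter.unusedSectionVars false

set_option linter.unusedVariables false

set_option linter.style.haveILetI false

namespace Pool.Agent.TF

open MeasureTheory Set Metric Filter Topology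

open scoped ENNReal NNReal RealInnerProductSpace

section dim3

variable {V : Type*} [NormedAddCommGroup V] [InnerProductSpace ℝ V] [FiniteDimensional ℝ V]
  [MeasurableSpace V] [BorelSpace V]

variable [hd : Fact (Module.finrank ℝ V = 3)]

/-! ### uniqueness -/

/-- the Thomas-Fermi equation with a given outer potential has at most one solution -/
theorem sol_unique_ae {W ρ ρ' : V → ℝ} (hρ : TC ρ) (hρ' : TC ρ')
    (h : ∀ᵐ x, ρ x = tf (W x - pot ρ x)) (h' : ∀ᵐ x, ρ' x = tf (W x - pot ρ' x)) :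
    ρ =ᵐ[volume] ρ' := by
  have hI : Integrable fun x => -((ρ x - ρ' x) * (pot ρ x - pot ρ' x)) := by
    have h1 := ((((hρ.En_integrable hρ).sub (hρ.En_integrable hρ')).sub
      (hρ'.En_integrable hρ)).add (hρ'.En_integrable hρ')).neg
    refine h1.congr (Eventually.of_forall fun x => ?_)
    simp only [Pi.neg_apply, Pi.add_apply, Pi.sub_apply]
    ring
  have hval : ∫ x, (ρ x - ρ' x) * (pot ρ x - pot ρ' x) =
      En ρ ρ - En ρ ρ' - En ρ' ρ + En ρ' ρ' := by
    unfold En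
    rw [← integral_ssa (hρ.En_integrable hρ) (hρ.En_integrable hρ') (hρ'.En_integrable hρ)
      (hρ'.En_integrable hρ')]
    refine integral_congr_ae (Eventually.of_forall fun x => ?_)
    simp only
    ring
  have hpsd := hρ.psd hρ'
  have hsym := hρ'.En_symm hρ
  have hnn : 0 ≤ᵐ[volume] fun x => -((ρ x - ρ' x) * (pot ρ x - pot ρ' x)) := by
    filter_upwards [h, h'] with x hx hx'
    simp only [Pi.zero_apply]
    rcases le_total (pot ρ x) (pot ρ' x) with hle | hle
    · have h1 : ρ' x ≤ ρ x := by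
        rw [hx, hx']; exact tf_mono (by linarith)
      nlinarith
    · have h1 : ρ x ≤ ρ' x := by
        rw [hx, hx']; exact tf_mono (by linarith)
      nlinarith
  have h0 : ∫ x, -((ρ x - ρ' x) * (pot ρ x - pot ρ' x)) ≤ 0 := by
    rw [integral_neg, hval]
    linarith
  have h00 : ∫ x, -((ρ x - ρ' x) * (pot ρ x - pot ρ' x)) = 0 :=
    le_antisymm h0 (integral_nonneg_of_ae hnn)
  have hz := (integral_eq_zero_iff_of_nonneg_ae hnn hI).mp h00
  filter_upwards [hz, h, h'] with x hx h1 h2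
  simp only [Pi.zero_apply, neg_eq_zero, mul_eq_zero] at hx
  rcases hx with hx | hx
  · linarith
  · rw [h1, h2]
    congr 1
    linarith

/-! ### radial symmetry -/

theorem ion_isom {z φ₀ : ℝ} {ρ : V → ℝ} (hρ : TC ρ)
    (heq : ∀ x, x ≠ 0 → ρ x = tf (z * ‖x‖⁻¹ - pot ρ x - φ₀)) (L : V ≃ₗᵢ[ℝ] V) :
    (∀ x, pot ρ (L x) = pot ρ x) ∧ ∀ x, x ≠ 0 → ρ (L x) = ρ x := by
  haveI := nontriv (V := V)
  have hne : ∀ᵐ x : V, x ≠ 0 := by rw [ae_iff]; simp
  have hρL : TC fun x => ρ (L x) := by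
    have := hρ.push L.symm
    simpa using this
  have e1 : ∀ᵐ x, ρ x = tf ((z * ‖x‖⁻¹ - φ₀) - pot ρ x) := by
    filter_upwards [hne] with x hx
    rw [heq x hx]
    congr 1
    ring
  have e2 : ∀ᵐ x, (fun x => ρ (L x)) x = tf ((z * ‖x‖⁻¹ - φ₀) - pot (fun x => ρ (L x)) x) := by
    filter_upwards [hne] with x hx
    have hLx : L x ≠ 0 := by
      intro h
      rw [← norm_eq_zero, L.norm_map, norm_eq_zero] at h
      exact hx h
    rw [heq _ hLx, pot_comp_isom, L.norm_map]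
    congr 1
    ring
  have h1 := sol_unique_ae hρL hρ e2 e1
  have h2 : pot (fun x => ρ (L x)) = pot ρ := pot_congr_ae h1
  have h3 : ∀ x, pot ρ (L x) = pot ρ x := by
    intro x
    rw [← pot_comp_isom, h2]
  refine ⟨h3, fun x hx => ?_⟩
  have hLx : L x ≠ 0 := by
    intro h
    rw [← norm_eq_zero, L.norm_map, norm_eq_zero] at h
    exact hx h
  rw [heq _ hLx, heq _ hx, h3, L.norm_map]

/-! ### the radial profile -/

/-- the radial profile `ψ` (potential minus chemical potential) and the enclosed charge `q` of a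
Thomas-Fermi ion with nuclear charge `z` -/
structure Ion (z φ₀ : ℝ) (ψ q : ℝ → ℝ) : Prop where
  dψ : ∀ r, 0 < r → HasDerivAt ψ (-(q r) / r ^ 2) r
  dq : ∀ r, 0 < r → HasDerivAt q (-(4 * Real.pi * r ^ 2 * tf (ψ r))) r
  q0 : Tendsto q (𝓝[>] 0) (𝓝 z)
  up : ∀ r, 0 < r → ψ r ≤ z / r - φ₀
  low : ∃ B, ∀ r, 0 < r → z / r - B ≤ ψ r
  lim : Tendsto ψ atTop (𝓝 (-φ₀))

/-- the one-nucleus solution has a radial profile -/
theorem exists_ion {z φ₀ : ℝ} {ρ : V → ℝ} (hρ : TC ρ)
    (heq : ∀ x, x ≠ 0 → ρ x = tf (z * ‖x‖⁻¹ - pot ρ x - φ₀)) :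
    ∃ ψ q : ℝ → ℝ, Ion z φ₀ ψ q ∧ (∀ x, x ≠ 0 → z * ‖x‖⁻¹ - pot ρ x - φ₀ = ψ ‖x‖) ∧
      (∀ x, x ≠ 0 → ρ x = tf (ψ ‖x‖)) ∧
      (∀ r, 0 ≤ r → q r = z - ∫ x in ball (0 : V) r, ρ x) ∧
      Tendsto q atTop (𝓝 (z - ∫ x, ρ x)) := by
  haveI := nontriv (V := V)
  obtain ⟨e, he⟩ := exists_norm_eq V (zero_le_one (α := ℝ))
  have hne : ∀ᵐ x : V, x ≠ 0 := by rw [ae_iff]; simp
  -- radial functions
  have hPx : ∀ x : V, pot ρ x = pot ρ (‖x‖ • e) := by
    intro x
    obtain ⟨L, hL⟩ := exists_isom (v := x) (w := ‖x‖ • e) (by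
      rw [norm_smul, he, mul_one, norm_norm])
    rw [← hL]
    exact ((ion_isom hρ heq L).1 x).symm
  have hρx : ∀ x : V, x ≠ 0 → ρ x = ρ (‖x‖ • e) := by
    intro x hx
    obtain ⟨L, hL⟩ := exists_isom (v := x) (w := ‖x‖ • e) (by
      rw [norm_smul, he, mul_one, norm_norm])
    rw [← hL]
    exact ((ion_isom hρ heq L).2 x hx).symm
  set P : ℝ → ℝ := fun r => pot ρ (r • e) with hP
  set F : ℝ → ℝ := (Ioi (0 : ℝ)).indicator fun r => ρ (r • e) with hF
  have hFm : Measurable F :=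
    (hρ.meas.comp (measurable_id.smul_const e)).indicator measurableSet_Ioi
  have hF0 : ∀ s, 0 ≤ F s := fun s => indicator_nonneg (fun t _ => hρ.nonneg _) s
  have hFρ : ∀ x : V, x ≠ 0 → ρ x = F ‖x‖ := by
    intro x hx
    rw [hF, indicator_of_mem (mem_Ioi.mpr (norm_pos_iff.mpr hx))]
    exact hρx x hx
  have hae : ρ =ᵐ[volume] fun y => F ‖y‖ := by
    filter_upwards [hne] with x hx
    exact hFρ x hx
  set a : ℝ → ℝ := fun s => 4 * Real.pi * s ^ 2 * F s with ha
  set b : ℝ → ℝ := fun s => 4 * Real.pi * s * F s with hb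
  have hzero : ∀ s, s ≤ 0 → F s = 0 := fun s hs => indicator_of_notMem (by simpa using hs) _
  have haI : Integrable a := by
    have h1 : Integrable fun y : V => F ‖y‖ := hρ.int.congr hae
    rw [integrable_radial_iff] at h1
    rw [← integrableOn_univ, ← Iic_union_Ioi (a := (0 : ℝ))]
    refine IntegrableOn.union ?_ h1
    refine (integrableOn_congr_fun (fun s hs => ?_) measurableSet_Iic).mpr
      (integrableOn_zero : IntegrableOn (fun _ : ℝ => (0 : ℝ)) (Iic 0) volume)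
    simp only [ha]
    rw [hzero s hs, mul_zero]
  have hbI : Integrable b := by
    have h1 : Integrable fun y : V => (fun s : ℝ => s⁻¹ * F s) ‖y‖ := by
      refine (hρ.pot_integrable 0).congr ?_
      filter_upwards [hae] with y hy
      simp only [zero_sub, norm_neg]
      rw [hy]
    have h2 := (integrable_radial_iff (V := V) (fun s : ℝ => s⁻¹ * F s)).mp h1
    rw [← integrableOn_univ, ← Iic_union_Ioi (a := (0 : ℝ))]
    refine IntegrableOn.union ?_ (h2.congr_fun (fun s hs => ?_) measurableSet_Ioi)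
    · refine (integrableOn_congr_fun (fun s hs => ?_) measurableSet_Iic).mpr
        (integrableOn_zero : IntegrableOn (fun _ : ℝ => (0 : ℝ)) (Iic 0) volume)
      simp only [hb]
      rw [hzero s hs, mul_zero]
    · have hs' : s ≠ 0 := (mem_Ioi.mp hs).ne'
      simp only [hb]
      field_simp
  set A : ℝ → ℝ := fun r => ∫ s in (0 : ℝ)..r, a s with hA
  set B : ℝ → ℝ := fun r => ∫ s in (0 : ℝ)..r, b s with hB
  set T : ℝ := ∫ s in Ioi (0 : ℝ), b s with hT
  have hPr : ∀ r, 0 < r → P r = A r / r + T - B r := by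
    intro r hr
    have hre : r • e ≠ 0 := by
      rw [← norm_ne_zero_iff, norm_smul, he, mul_one, Real.norm_of_nonneg hr.le]
      exact hr.ne'
    have hnr : ‖r • e‖ = r := by rw [norm_smul, he, mul_one, Real.norm_of_nonneg hr.le]
    have h1 : P r = ∫ s in Ioi (0 : ℝ), 4 * Real.pi * s ^ 2 / max s r * F s := by
      have h2 := pot_radial hFm hF0 hre
      rw [hnr] at h2
      rw [← h2]
      simp only [hP]
      rw [pot_congr_ae hae]
    have hU : Ioi (0 : ℝ) = Ioc 0 r ∪ Ioi r := (Ioc_union_Ioi_eq_Ioi hr.le).symm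
    have hdisj : Disjoint (Ioc (0 : ℝ) r) (Ioi r) := by
      rw [disjoint_left]
      intro s h3 h4
      exact absurd h3.2 (not_le.mpr h4)
    have ic1 : IntegrableOn (fun s => 4 * Real.pi * s ^ 2 / max s r * F s) (Ioc 0 r) := by
      have h2 : IntegrableOn (fun s => a s / r) (Ioc 0 r) :=
        (haI.integrableOn (s := Ioc 0 r)).div_const r
      refine h2.congr_fun (fun s hs => ?_) measurableSet_Ioc
      simp only [ha]
      rw [max_eq_right hs.2]
      ring
    have ic2 : IntegrableOn (fun s => 4 * Real.pi * s ^ 2 / max s r * F s) (Ioi r) := by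
      refine (hbI.integrableOn (s := Ioi r)).congr_fun (fun s hs => ?_) measurableSet_Ioi
      have hs0 : s ≠ 0 := (hr.trans (mem_Ioi.mp hs)).ne'
      simp only [hb]
      rw [max_eq_left (mem_Ioi.mp hs).le]
      field_simp
    have v1 : ∫ s in Ioc 0 r, 4 * Real.pi * s ^ 2 / max s r * F s = A r / r := by
      simp only [hA]
      rw [intervalIntegral.integral_of_le hr.le, ← integral_div]
      refine setIntegral_congr_fun measurableSet_Ioc fun s hs => ?_
      simp only [ha]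
      rw [max_eq_right hs.2]
      ring
    have v2 : ∫ s in Ioi r, 4 * Real.pi * s ^ 2 / max s r * F s = ∫ s in Ioi r, b s := by
      refine setIntegral_congr_fun measurableSet_Ioi fun s hs => ?_
      have hs0 : s ≠ 0 := (hr.trans (mem_Ioi.mp hs)).ne'
      simp only [hb]
      rw [max_eq_left (mem_Ioi.mp hs).le]
      field_simp
    have v3 : T = B r + ∫ s in Ioi r, b s := by
      simp only [hT, hB]
      rw [intervalIntegral.integral_of_le hr.le, hU, setIntegral_union hdisj measurableSet_Ioi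
        hbI.integrableOn hbI.integrableOn]
    rw [h1, hU, setIntegral_union hdisj measurableSet_Ioi ic1 ic2, v1, v2]
    linarith
  have hAc : Continuous A := intervalIntegral.continuous_primitive
    (fun _ _ => haI.intervalIntegrable) 0
  have hBc : Continuous B := intervalIntegral.continuous_primitive
    (fun _ _ => hbI.intervalIntegrable) 0
  have hPc : ∀ r, 0 < r → ContinuousAt P r := by
    intro r hr
    have h1 : ContinuousAt (fun r => A r / r + T - B r) r :=
      ((hAc.continuousAt.div continuousAt_id hr.ne').add continuousAt_const).sub hBc.continuousAt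
    refine h1.congr ?_
    filter_upwards [Ioi_mem_nhds hr] with s hs
    exact (hPr s hs).symm
  set ψ : ℝ → ℝ := fun r => z / r - P r - φ₀ with hψ
  have hFψ : ∀ r, 0 < r → F r = tf (ψ r) := by
    intro r hr
    have hre : r • e ≠ 0 := by
      rw [← norm_ne_zero_iff, norm_smul, he, mul_one, Real.norm_of_nonneg hr.le]
      exact hr.ne'
    have hnr : ‖r • e‖ = r := by rw [norm_smul, he, mul_one, Real.norm_of_nonneg hr.le]
    have h1 := heq _ hre
    rw [hnr] at h1
    rw [hF, indicator_of_mem (mem_Ioi.mpr hr), h1]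
    rfl
  have hψc : ∀ r, 0 < r → ContinuousAt ψ r := by
    intro r hr
    exact ((continuousAt_const.div continuousAt_id hr.ne').sub (hPc r hr)).sub continuousAt_const
  have hFc : ∀ r, 0 < r → ContinuousAt F r := by
    intro r hr
    have h1 : ContinuousAt (fun r => tf (ψ r)) r := tf_continuous.continuousAt.comp (hψc r hr)
    refine h1.congr ?_
    filter_upwards [Ioi_mem_nhds hr] with s hs
    exact (hFψ s hs).symm
  have ham : Measurable a := ((by fun_prop : Measurable fun s : ℝ => 4 * Real.pi * s ^ 2)).mul hFm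
  have hbm : Measurable b := ((by fun_prop : Measurable fun s : ℝ => 4 * Real.pi * s)).mul hFm
  have hdA : ∀ r, 0 < r → HasDerivAt A (a r) r := by
    intro r hr
    refine intervalIntegral.integral_hasDerivAt_right haI.intervalIntegrable
      ham.stronglyMeasurable.stronglyMeasurableAtFilter ?_
    exact (by fun_prop : ContinuousAt (fun s : ℝ => 4 * Real.pi * s ^ 2) r).mul (hFc r hr)
  have hdB : ∀ r, 0 < r → HasDerivAt B (b r) r := by
    intro r hr
    refine intervalIntegral.integral_hasDerivAt_right hbI.intervalIntegrable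
      hbm.stronglyMeasurable.stronglyMeasurableAtFilter ?_
    exact (by fun_prop : ContinuousAt (fun s : ℝ => 4 * Real.pi * s) r).mul (hFc r hr)
  have hdP : ∀ r, 0 < r → HasDerivAt P (-(A r) / r ^ 2) r := by
    intro r hr
    have h1 := (((hdA r hr).div (hasDerivAt_id r) hr.ne').add_const T).sub (hdB r hr)
    have h2 : HasDerivAt (fun r => A r / r + T - B r) (-(A r) / r ^ 2) r := by
      refine h1.congr_deriv ?_
      simp only [ha, hb, id]
      field_simp
      ring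
    refine h2.congr_of_eventuallyEq ?_
    filter_upwards [Ioi_mem_nhds hr] with s hs
    exact hPr s hs
  set q : ℝ → ℝ := fun r => z - A r with hq
  have hA0 : A 0 = 0 := by simp [hA]
  have hAball : ∀ r, 0 ≤ r → A r = ∫ x in ball (0 : V) r, ρ x := by
    intro r hr
    rw [show ∫ x in ball (0 : V) r, ρ x = ∫ x in ball (0 : V) r, F ‖x‖ from
      integral_congr_ae (ae_restrict_of_ae hae), integral_radial_ball F hr]
  have hAtot : Tendsto A atTop (𝓝 (∫ x, ρ x)) := by
    have h1 : ∫ x, ρ x = ∫ s in Ioi (0 : ℝ), a s := by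
      rw [integral_congr_ae hae, integral_radial]
    rw [h1]
    exact intervalIntegral_tendsto_integral_Ioi 0 haI.integrableOn tendsto_id
  refine ⟨ψ, q, ⟨?_, ?_, ?_, ?_, ?_, ?_⟩, ?_, ?_, ?_, ?_⟩
  · intro r hr
    have h1 : HasDerivAt (fun r : ℝ => z / r) (-z / r ^ 2) r := by
      have := (hasDerivAt_const r z).div (hasDerivAt_id r) hr.ne'
      refine this.congr_deriv ?_
      simp
    have h2 := (h1.sub (hdP r hr)).sub_const φ₀
    refine h2.congr_deriv ?_
    simp only [hq]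
    ring
  · intro r hr
    have h1 := (hdA r hr).const_sub z
    refine h1.congr_deriv ?_
    simp only [ha]
    rw [hFψ r hr]
  · have h1 : Tendsto q (𝓝 0) (𝓝 (z - A 0)) := (continuous_const.sub hAc).tendsto 0
    rw [hA0, sub_zero] at h1
    exact h1.mono_left nhdsWithin_le_nhds
  · intro r hr
    have h1 : 0 ≤ P r := pot_nonneg hρ.nonneg _
    simp only [hψ]
    linarith
  · refine ⟨tcB ρ + φ₀, fun r hr => ?_⟩
    have h1 : P r ≤ tcB ρ := hρ.pot_le _
    simp only [hψ]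
    linarith
  · have h1 : Tendsto (fun r : ℝ => A r / r) atTop (𝓝 0) := by
      exact hAtot.div_atTop tendsto_id
    have h2 : Tendsto B atTop (𝓝 T) :=
      intervalIntegral_tendsto_integral_Ioi 0 hbI.integrableOn tendsto_id
    have h3 : Tendsto (fun r : ℝ => z / r) atTop (𝓝 0) := tendsto_const_nhds.div_atTop tendsto_id
    have h4 : Tendsto (fun r => z / r - (A r / r + T - B r) - φ₀) atTop
        (𝓝 (0 - (0 + T - T) - φ₀)) := (h3.sub ((h1.add_const T).sub h2)).sub_const φ₀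
    have h5 : (0 : ℝ) - (0 + T - T) - φ₀ = -φ₀ := by ring
    rw [h5] at h4
    refine h4.congr' ?_
    filter_upwards [eventually_gt_atTop (0 : ℝ)] with r hr
    simp only [hψ]
    rw [hPr r hr]
  · intro x hx
    simp only [hψ]
    rw [hPx x, div_eq_mul_inv]
  · intro x hx
    rw [hFρ x hx, hFψ _ (norm_pos_iff.mpr hx)]
  · intro r hr
    simp only [hq]
    rw [hAball r hr]
  · exact tendsto_const_nhds.sub hAtot

end dim3

end Pool.Agent.TF

end

section
/-! The isolated Thomas-Fermi ion: signs, edge, vacuum formula and the Sommerfeld bound. -/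

set_option autoImplicit false

set_option linter.unusedSectionVars false

set_option linter.unusedVariables false

namespace Pool.Agent.TF

open MeasureTheory Set Metric Filter Topology

namespace Ion

variable {z φ₀ : ℝ} {ψ q : ℝ → ℝ}

theorem contψ (h : Ion z φ₀ ψ q) : ContinuousOn ψ (Ioi 0) := fun r hr =>
  (h.dψ r hr).continuousAt.continuousWithinAt

theorem contq (h : Ion z φ₀ ψ q) : ContinuousOn q (Ioi 0) := fun r hr =>
  (h.dq r hr).continuousAt.continuousWithinAt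

theorem q_anti (h : Ion z φ₀ ψ q) : AntitoneOn q (Ioi 0) := by
  refine antitoneOn_of_deriv_nonpos (convex_Ioi 0) h.contq
    (fun r hr => ((h.dq r (by simpa using hr)).differentiableAt).differentiableWithinAt)
    fun r hr => ?_
  rw [(h.dq r (by simpa using hr)).deriv]
  have := tf_nonneg (ψ r)
  have h2 : 0 ≤ 4 * Real.pi * r ^ 2 * tf (ψ r) := by positivity
  linarith

theorem q_le (h : Ion z φ₀ ψ q) {r : ℝ} (hr : 0 < r) : q r ≤ z := by
  refine ge_of_tendsto h.q0 ?_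
  filter_upwards [Ioo_mem_nhdsGT hr] with s hs
  exact h.q_anti hs.1 hr hs.2.le

/-- the enclosed charge is positive -/
theorem q_pos (h : Ion z φ₀ ψ q) (hz : 0 < z) (hφ : 0 < φ₀) {r : ℝ} (hr : 0 < r) : 0 < q r := by
  by_contra hcon
  push Not at hcon
  -- beyond `r` the potential increases to `-φ₀`
  have hq : ∀ s, r ≤ s → q s ≤ 0 := fun s hs =>
    (h.q_anti hr (lt_of_lt_of_le hr hs) hs).trans hcon
  have hmono : MonotoneOn ψ (Ici r) := by
    refine monotoneOn_of_deriv_nonneg (convex_Ici r)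
      (h.contψ.mono fun s hs => lt_of_lt_of_le hr hs)
      (fun s hs => ?_) fun s hs => ?_
    · rw [interior_Ici, mem_Ioi] at hs
      exact (h.dψ s (hr.trans hs)).differentiableAt.differentiableWithinAt
    · rw [interior_Ici, mem_Ioi] at hs
      rw [(h.dψ s (hr.trans hs)).deriv]
      exact div_nonneg (by linarith [hq s hs.le]) (by positivity)
  have hneg : ψ r ≤ -φ₀ := by
    refine ge_of_tendsto h.lim ?_
    filter_upwards [eventually_ge_atTop r] with s hs
    exact hmono self_mem_Ici hs hs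
  -- a point with nonnegative potential
  obtain ⟨B, hB⟩ := h.low
  set s : ℝ := min (r / 2) (z / (|B| + 1)) with hs
  have hs0 : 0 < s := lt_min (by linarith) (by positivity)
  have hsr : s < r := lt_of_le_of_lt (min_le_left _ _) (by linarith)
  have hψs : 0 ≤ ψ s := by
    have h1 := hB s hs0
    have h2 : s ≤ z / (|B| + 1) := min_le_right _ _
    have h3 : |B| + 1 ≤ z / s := by
      rw [le_div_iff₀ hs0]
      rw [le_div_iff₀ (by positivity)] at h2
      linarith
    have h4 := le_abs_self B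
    linarith
  set S : Set ℝ := {t | t ∈ Icc s r ∧ 0 ≤ ψ t} with hS
  have hcIcc : ContinuousOn ψ (Icc s r) := h.contψ.mono fun t ht => lt_of_lt_of_le hs0 ht.1
  have hSc : IsCompact S := by
    have h1 : IsClosed (Icc s r ∩ ψ ⁻¹' Ici 0) := hcIcc.preimage_isClosed_of_isClosed
      isClosed_Icc isClosed_Ici
    exact isCompact_Icc.of_isClosed_subset h1 inter_subset_left
  obtain ⟨t, htS, htmax⟩ := hSc.exists_isGreatest ⟨s, ⟨le_rfl, hsr.le⟩, hψs⟩
  have ht0 : 0 < t := lt_of_lt_of_le hs0 htS.1.1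
  have htr : t < r := lt_of_le_of_ne htS.1.2 fun e => by
    have := htS.2
    rw [e] at this
    linarith
  have hlt : ∀ u, t < u → u ≤ r → ψ u < 0 := by
    intro u htu hur
    by_contra hc
    push Not at hc
    exact absurd (htmax ⟨⟨htS.1.1.trans htu.le, hur⟩, hc⟩) (not_le.mpr htu)
  have hqc : ∀ u, t < u → u ≤ r → q u ≤ 0 := by
    intro u htu hur
    have hmq : MonotoneOn q (Icc u r) := by
      refine monotoneOn_of_deriv_nonneg (convex_Icc u r)
        (h.contq.mono fun w hw => lt_of_lt_of_le (ht0.trans htu) hw.1)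
        (fun w hw => ?_) fun w hw => ?_
      · rw [interior_Icc] at hw
        exact (h.dq w ((ht0.trans htu).trans hw.1)).differentiableAt.differentiableWithinAt
      · rw [interior_Icc] at hw
        rw [(h.dq w ((ht0.trans htu).trans hw.1)).deriv,
          tf_of_nonpos (hlt w (htu.trans hw.1) hw.2.le).le]
        simp
    exact (hmq ⟨le_rfl, hur⟩ ⟨hur, le_rfl⟩ hur).trans hcon
  have hψm : MonotoneOn ψ (Icc t r) := by
    refine monotoneOn_of_deriv_nonneg (convex_Icc t r)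
      (h.contψ.mono fun w hw => lt_of_lt_of_le ht0 hw.1)
      (fun w hw => ?_) fun w hw => ?_
    · rw [interior_Icc] at hw
      exact (h.dψ w (ht0.trans hw.1)).differentiableAt.differentiableWithinAt
    · rw [interior_Icc] at hw
      rw [(h.dψ w (ht0.trans hw.1)).deriv]
      exact div_nonneg (by linarith [hqc w hw.1 hw.2.le]) (by positivity)
  have h1 := hψm ⟨le_rfl, htr.le⟩ ⟨htr.le, le_rfl⟩ htr.le
  have h2 := htS.2
  linarith

theorem ψ_anti (h : Ion z φ₀ ψ q) (hz : 0 < z) (hφ : 0 < φ₀) : StrictAntiOn ψ (Ioi 0) := by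
  refine strictAntiOn_of_deriv_neg (convex_Ioi 0) h.contψ fun r hr => ?_
  have hr0 : 0 < r := by simpa using hr
  rw [(h.dψ r hr0).deriv]
  have := h.q_pos hz hφ hr0
  exact div_neg_of_neg_of_pos (by linarith) (by positivity)

/-- the edge of the ion -/
theorem exists_edge (h : Ion z φ₀ ψ q) (hz : 0 < z) (hφ : 0 < φ₀) :
    ∃ r₀, 0 < r₀ ∧ ψ r₀ = 0 ∧ (∀ r, 0 < r → r < r₀ → 0 < ψ r) ∧ ∀ r, r₀ < r → ψ r < 0 := by
  obtain ⟨B, hB⟩ := h.low
  set s : ℝ := z / (|B| + 1) with hs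
  have hs0 : 0 < s := by positivity
  have hψs : 0 ≤ ψ s := by
    have h1 := hB s hs0
    have h3 : z / s = |B| + 1 := by rw [hs]; field_simp
    have h4 := le_abs_self B
    linarith
  have hev : ∀ᶠ t in atTop, ψ t < 0 := h.lim.eventually_lt_const (by linarith)
  obtain ⟨T, hT1, hT2⟩ := (hev.and (eventually_gt_atTop s)).exists
  obtain ⟨r₀, hr, hr0⟩ := intermediate_value_Icc' hT2.le
    (h.contψ.mono fun t ht => lt_of_lt_of_le hs0 ht.1) ⟨hT1.le, hψs⟩
  have hr00 : 0 < r₀ := lt_of_lt_of_le hs0 hr.1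
  refine ⟨r₀, hr00, hr0, fun r h1 h2 => ?_, fun r h1 => ?_⟩
  · have := h.ψ_anti hz hφ h1 hr00 h2
    linarith
  · have := h.ψ_anti hz hφ hr00 (hr00.trans h1) h1
    linarith

/-- the difference between `X = q / r` and `ψ + φ₀` -/
theorem dD (h : Ion z φ₀ ψ q) {r : ℝ} (hr : 0 < r) :
    HasDerivAt (fun r => q r / r - ψ r - φ₀) (-(4 * Real.pi * r * tf (ψ r))) r := by
  have h1 := (((h.dq r hr).div (hasDerivAt_id r) hr.ne').sub (h.dψ r hr)).sub_const φ₀
  refine h1.congr_deriv ?_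
  simp only [id]
  field_simp
  ring

theorem D_lim (h : Ion z φ₀ ψ q) (hz : 0 < z) (hφ : 0 < φ₀) :
    Tendsto (fun r => q r / r - ψ r - φ₀) atTop (𝓝 0) := by
  have h1 : Tendsto (fun r => q r / r) atTop (𝓝 0) := by
    have h2 : Tendsto (fun r : ℝ => z / r) atTop (𝓝 0) := tendsto_const_nhds.div_atTop tendsto_id
    refine tendsto_of_tendsto_of_tendsto_of_le_of_le' tendsto_const_nhds h2 ?_ ?_
    · filter_upwards [eventually_gt_atTop (0 : ℝ)] with r hr
      exact div_nonneg (h.q_pos hz hφ hr).le hr.le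
    · filter_upwards [eventually_gt_atTop (0 : ℝ)] with r hr
      exact div_le_div_of_nonneg_right (h.q_le hr) hr.le
  have h3 := (h1.sub h.lim).sub_const φ₀
  simpa using h3

theorem D_anti (h : Ion z φ₀ ψ q) : AntitoneOn (fun r => q r / r - ψ r - φ₀) (Ioi 0) := by
  refine antitoneOn_of_deriv_nonpos (convex_Ioi 0)
    (fun r hr => (h.dD hr).continuousAt.continuousWithinAt)
    (fun r hr => (h.dD (by simpa using hr)).differentiableAt.differentiableWithinAt)
    fun r hr => ?_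
  have hr0 : 0 < r := by simpa using hr
  rw [(h.dD hr0).deriv]
  have := tf_nonneg (ψ r)
  have h2 : 0 ≤ 4 * Real.pi * r * tf (ψ r) := by positivity
  linarith

/-- `ψ + φ₀ ≤ X` -/
theorem le_X (h : Ion z φ₀ ψ q) (hz : 0 < z) (hφ : 0 < φ₀) {r : ℝ} (hr : 0 < r) :
    ψ r + φ₀ ≤ q r / r := by
  have h1 : 0 ≤ q r / r - ψ r - φ₀ := by
    refine le_of_tendsto (h.D_lim hz hφ) ?_
    filter_upwards [eventually_ge_atTop r] with s hs
    exact h.D_anti hr (lt_of_lt_of_le hr hs) hs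
  linarith

/-- the vacuum formulas outside the edge -/
theorem vacuum (h : Ion z φ₀ ψ q) (hz : 0 < z) (hφ : 0 < φ₀) {r₀ : ℝ} (hr₀ : 0 < r₀)
    (he : ψ r₀ = 0) {r : ℝ} (hr : r₀ ≤ r) :
    q r = q r₀ ∧ q r₀ = φ₀ * r₀ ∧ ψ r = q r₀ / r - φ₀ := by
  have hneg : ∀ s, r₀ ≤ s → ψ s ≤ 0 := by
    intro s hs
    have := h.ψ_anti hz hφ |>.antitoneOn hr₀ (lt_of_lt_of_le hr₀ hs) hs
    linarith
  have hq : ∀ s, r₀ ≤ s → q s = q r₀ := by
    intro s hs
    have hmq : MonotoneOn q (Icc r₀ s) := by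
      refine monotoneOn_of_deriv_nonneg (convex_Icc r₀ s)
        (h.contq.mono fun w hw => lt_of_lt_of_le hr₀ hw.1)
        (fun w hw => ?_) fun w hw => ?_
      · rw [interior_Icc] at hw
        exact (h.dq w (hr₀.trans hw.1)).differentiableAt.differentiableWithinAt
      · rw [interior_Icc] at hw
        rw [(h.dq w (hr₀.trans hw.1)).deriv, tf_of_nonpos (hneg w hw.1.le)]
        simp
    exact le_antisymm (h.q_anti hr₀ (lt_of_lt_of_le hr₀ hs) hs)
      (hmq ⟨le_rfl, hs⟩ ⟨hs, le_rfl⟩ hs)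
  have hD : ∀ s, r₀ ≤ s → q s / s - ψ s - φ₀ = 0 := by
    intro s hs
    have hs0 : 0 < s := lt_of_lt_of_le hr₀ hs
    have hmD : MonotoneOn (fun r => q r / r - ψ r - φ₀) (Ici s) := by
      refine monotoneOn_of_deriv_nonneg (convex_Ici s)
        (fun w hw => (h.dD (lt_of_lt_of_le hs0 hw)).continuousAt.continuousWithinAt)
        (fun w hw => ?_) fun w hw => ?_
      · rw [interior_Ici] at hw
        exact (h.dD (hs0.trans hw)).differentiableAt.differentiableWithinAt
      · rw [interior_Ici] at hw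
        rw [(h.dD (hs0.trans hw)).deriv, tf_of_nonpos (hneg w (hs.trans (le_of_lt hw)))]
        simp
    have h1 : q s / s - ψ s - φ₀ ≤ 0 := by
      refine ge_of_tendsto (h.D_lim hz hφ) ?_
      filter_upwards [eventually_ge_atTop s] with w hw
      exact hmD self_mem_Ici hw hw
    have h2 := h.le_X hz hφ hs0
    linarith
  refine ⟨hq r hr, ?_, ?_⟩
  · have h1 := hD r₀ le_rfl
    rw [he] at h1
    field_simp at h1
    linarith
  · have h1 := hD r hr
    rw [hq r hr] at h1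
    linarith

end Ion

end Pool.Agent.TF

end

section
/-! The isolated ion as a function of its charge and chemical potential, and comparison of the
potential of a molecule with its ions. -/

set_option autoImplicit false

set_option linter.unusedSectionVars false

set_option linter.unusedVariables false

set_option linter.style.haveILetI false

namespace Pool.Agent.TF

open MeasureTheory Set Metric Filter Topology

theorem exists_ionρ {z φ₀ : ℝ} (hz : 0 ≤ z) (hφ : 0 < φ₀) :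
    ∃ ρ : X → ℝ, TC ρ ∧ ∀ x, ρ x = tf (z * ‖x‖⁻¹ - pot ρ x - φ₀) := by
  obtain ⟨ρ, hρ, -, heq, -⟩ := exists_point_min (ι := Unit) (z := fun _ => z) (fun _ => hz)
    (fun _ => (0 : X)) hφ
  refine ⟨ρ, hρ, fun x => ?_⟩
  have h := heq x
  unfold Vpt at h
  simpa using h

/-- the density of the isolated ion -/
noncomputable def ionρ (z φ₀ : ℝ) : X → ℝ :=
  open Classical in
  if h : 0 ≤ z ∧ 0 < φ₀ then (exists_ionρ h.1 h.2).choose else fun _ => 0

theorem ionρ_spec {z φ₀ : ℝ} (hz : 0 ≤ z) (hφ : 0 < φ₀) :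
    TC (ionρ z φ₀) ∧ ∀ x, ionρ z φ₀ x = tf (z * ‖x‖⁻¹ - pot (ionρ z φ₀) x - φ₀) := by
  have h : 0 ≤ z ∧ 0 < φ₀ := ⟨hz, hφ⟩
  have e : ionρ z φ₀ = (exists_ionρ h.1 h.2).choose := by
    unfold ionρ
    rw [dif_pos h]
  rw [e]
  exact (exists_ionρ h.1 h.2).choose_spec

theorem exists_profile {z φ₀ : ℝ} (hz : 0 ≤ z) (hφ : 0 < φ₀) :
    ∃ p : (ℝ → ℝ) × (ℝ → ℝ), Ion z φ₀ p.1 p.2 ∧
      (∀ x : X, x ≠ 0 → z * ‖x‖⁻¹ - pot (ionρ z φ₀) x - φ₀ = p.1 ‖x‖) ∧
      (∀ x : X, x ≠ 0 → ionρ z φ₀ x = tf (p.1 ‖x‖)) ∧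
      (∀ r, 0 ≤ r → p.2 r = z - ∫ x in ball (0 : X) r, ionρ z φ₀ x) ∧
      Tendsto p.2 atTop (𝓝 (z - ∫ x, ionρ z φ₀ x)) := by
  obtain ⟨h1, h2⟩ := ionρ_spec hz hφ
  obtain ⟨ψ, q, h⟩ := exists_ion h1 fun x _ => h2 x
  exact ⟨(ψ, q), h⟩

/-- the profile (potential minus chemical potential) of the isolated ion -/
noncomputable def ionψ (z φ₀ : ℝ) : ℝ → ℝ :=
  open Classical in
  if h : 0 ≤ z ∧ 0 < φ₀ then (exists_profile h.1 h.2).choose.1 else fun _ => 0

/-- the enclosed charge of the isolated ion -/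
noncomputable def ionq (z φ₀ : ℝ) : ℝ → ℝ :=
  open Classical in
  if h : 0 ≤ z ∧ 0 < φ₀ then (exists_profile h.1 h.2).choose.2 else fun _ => 0

theorem ion_all {z φ₀ : ℝ} (hz : 0 ≤ z) (hφ : 0 < φ₀) :
    Ion z φ₀ (ionψ z φ₀) (ionq z φ₀) ∧
      (∀ x : X, x ≠ 0 → z * ‖x‖⁻¹ - pot (ionρ z φ₀) x - φ₀ = ionψ z φ₀ ‖x‖) ∧
      (∀ x : X, x ≠ 0 → ionρ z φ₀ x = tf (ionψ z φ₀ ‖x‖)) ∧
      (∀ r, 0 ≤ r → ionq z φ₀ r = z - ∫ x in ball (0 : X) r, ionρ z φ₀ x) ∧
      Tendsto (ionq z φ₀) atTop (𝓝 (z - ∫ x, ionρ z φ₀ x)) := by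
  have h : 0 ≤ z ∧ 0 < φ₀ := ⟨hz, hφ⟩
  have e1 : ionψ z φ₀ = (exists_profile h.1 h.2).choose.1 := by
    unfold ionψ
    rw [dif_pos h]
  have e2 : ionq z φ₀ = (exists_profile h.1 h.2).choose.2 := by
    unfold ionq
    rw [dif_pos h]
  rw [e1, e2]
  exact (exists_profile h.1 h.2).choose_spec

theorem ion_ion {z φ₀ : ℝ} (hz : 0 ≤ z) (hφ : 0 < φ₀) : Ion z φ₀ (ionψ z φ₀) (ionq z φ₀) :=
  (ion_all hz hφ).1

theorem norm_e1' : ‖e1‖ = 1 := by
  have h : ‖e1‖ ^ 2 = 1 := by
    unfold e1; rw [norm_mk_sq]; simp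
  nlinarith [norm_nonneg e1]

variable {ι : Type*} [Fintype ι]

/-- the isolated ion at the position of the nucleus `j`, as a solution in the family -/
theorem ion_sol {z φ₀ : ℝ} (hz : 0 ≤ z) (hφ : 0 < φ₀) [DecidableEq ι] (R : ι → X) (j : ι) :
    Sol φ₀ (Pi.single j z) R (fun x => ionρ z φ₀ (x - R j)) ∧
      ∀ x, x ≠ R j → psi φ₀ (Pi.single j z) R (fun x => ionρ z φ₀ (x - R j)) x =
        ionψ z φ₀ ‖x - R j‖ := by
  obtain ⟨h1, h2⟩ := ionρ_spec hz hφ
  have hpot : ∀ x, pot (fun x => ionρ z φ₀ (x - R j)) x = pot (ionρ z φ₀) (x - R j) := by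
    intro x
    have := pot_translateV (ionρ z φ₀) (R j) (x - R j)
    rwa [sub_add_cancel] at this
  have hV : ∀ x, Vn (Pi.single j z) R x = z * ‖x - R j‖⁻¹ := by
    intro x
    unfold Vn
    rw [Finset.sum_eq_single j]
    · rw [Pi.single_eq_same]
    · intro i _ hi
      rw [Pi.single_eq_of_ne hi, zero_mul]
    · intro h
      exact absurd (Finset.mem_univ j) h
  refine ⟨⟨h1.translate (R j), fun x _ => ?_⟩, fun x hx => ?_⟩
  · rw [hV, hpot]
    exact h2 _
  · unfold psi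
    rw [hV, hpot]
    exact (ion_all hz hφ).2.1 _ (sub_ne_zero.mpr hx)

/-- the potential of a molecule is at least the potential of each of its ions -/
theorem ion_le {z φ φ₀ : ℝ} (hz : 0 ≤ z) (hφ : 0 < φ₀) (hφφ : φ ≤ φ₀) {z' : ι → ℝ}
    (hz' : ∀ i, 0 ≤ z' i) {R : ι → X} {ρ : X → ℝ} (h : Sol φ z' R ρ) (j : ι) (hj : z ≤ z' j)
    {x : X} (hx : ∀ i, x ≠ R i) : ionψ z φ₀ ‖x - R j‖ ≤ psi φ z' R ρ x := by
  classical
  obtain ⟨h1, h2⟩ := ion_sol hz hφ R j
  rw [← h2 x (hx j)]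
  refine compare (fun i => ?_) hφφ h1 h x hx
  by_cases hi : i = j
  · subst hi
    rw [Pi.single_eq_same]
    exact hj
  · rw [Pi.single_eq_of_ne hi]
    exact hz' i

end Pool.Agent.TF

end

section
/-! The isolated ion: lower bound of its charge, upper bound of its charge for a small chemical
potential, and the mass of a molecule whose ions do not overlap. -/

set_option linter.unusedSectionVars false

set_option linter.unusedVariables false

set_option linter.style.haveILetI false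

namespace Pool.Agent.TF.Dis

open MeasureTheory Set Metric Filter Topology

theorem tf_pos_eq {v : ℝ} (hv : 0 ≤ v) : tf v = v * √v := by
  unfold tf
  rw [max_eq_left hv]

/-- the enclosed charge near the nucleus -/
theorem q_low {z φ₀ : ℝ} {ψ q : ℝ → ℝ} (h : Ion z φ₀ ψ q) (hz : 0 < z) (hφ : 0 < φ₀) {r : ℝ}
    (hr : 0 < r) : z - 8 * Real.pi / 3 * (z * √z) * (r * √r) ≤ q r := by
  have hpi := Real.pi_pos
  set g : ℝ → ℝ := fun r => q r + 8 * Real.pi / 3 * (z * √z) * (r * √r) with hg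
  have hd : ∀ s, 0 < s → HasDerivAt g (-(4 * Real.pi * s ^ 2 * tf (ψ s)) +
      8 * Real.pi / 3 * (z * √z) * (1 * √s + s * (1 / (2 * √s)))) s := by
    intro s hs
    have h1 : HasDerivAt (fun r : ℝ => r * √r) (1 * √s + s * (1 / (2 * √s))) s :=
      (hasDerivAt_id s).mul (Real.hasDerivAt_sqrt hs.ne')
    exact (h.dq s hs).add (h1.const_mul _)
  have hmono : MonotoneOn g (Ioi 0) := by
    refine monotoneOn_of_deriv_nonneg (convex_Ioi 0)
      (fun s hs => (hd s hs).continuousAt.continuousWithinAt)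
      (fun s hs => (hd s (by simpa using hs)).differentiableAt.differentiableWithinAt)
      fun s hs => ?_
    have hs0 : 0 < s := by simpa using hs
    rw [(hd s hs0).deriv]
    have h1 : tf (ψ s) ≤ z / s * √(z / s) := by
      rw [← tf_pos_eq (by positivity)]
      refine tf_mono ?_
      have := h.up s hs0
      linarith
    have hss : √s * √s = s := Real.mul_self_sqrt hs0.le
    have hs1 : 0 < √s := Real.sqrt_pos.mpr hs0
    have h2 : s ^ 2 * (z / s * √(z / s)) = z * √z * √s := by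
      rw [Real.sqrt_div hz.le]
      field_simp
      rw [pow_two, hss]
    have h3 : 1 * √s + s * (1 / (2 * √s)) = 3 / 2 * √s := by
      field_simp
      nlinarith
    rw [h3]
    have h4 : s ^ 2 * tf (ψ s) ≤ z * √z * √s := by
      rw [← h2]
      exact mul_le_mul_of_nonneg_left h1 (by positivity)
    nlinarith
  have hlim : Tendsto g (𝓝[>] 0) (𝓝 (z + 8 * Real.pi / 3 * (z * √z) * (0 * √0))) := by
    refine h.q0.add ?_
    have h1 : Continuous fun r : ℝ => 8 * Real.pi / 3 * (z * √z) * (r * √r) := by fun_prop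
    exact (h1.tendsto 0).mono_left nhdsWithin_le_nhds
  have h5 : z + 8 * Real.pi / 3 * (z * √z) * (0 * √0) ≤ g r := by
    refine le_of_tendsto hlim ?_
    filter_upwards [Ioo_mem_nhdsGT hr] with s hs
    exact hmono hs.1 hr hs.2.le
  rw [zero_mul, mul_zero, add_zero] at h5
  simp only [hg] at h5
  linarith

/-- facts at the edge -/
theorem edge {z φ₀ : ℝ} (hz : 0 < z) (hφ : 0 < φ₀) : ∃ r₀ : ℝ, 0 < r₀ ∧ r₀ ≤ z / φ₀ ∧
    ionψ z φ₀ r₀ = 0 ∧ ionq z φ₀ r₀ = φ₀ * r₀ ∧
    (∀ r, r₀ ≤ r → ionψ z φ₀ r = φ₀ * r₀ / r - φ₀) ∧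
    z - ∫ x, ionρ z φ₀ x = φ₀ * r₀ := by
  obtain ⟨hI, h1, h2, h3, h4⟩ := ion_all hz.le hφ
  obtain ⟨r₀, hr₀, he, hpos, hneg⟩ := hI.exists_edge hz hφ
  have h5 := hI.up r₀ hr₀
  rw [he] at h5
  have h6 : r₀ ≤ z / φ₀ := by
    rw [le_div_iff₀ hφ]
    have : φ₀ ≤ z / r₀ := by linarith
    rw [le_div_iff₀ hr₀] at this
    linarith
  have h7 := (hI.vacuum hz hφ hr₀ he le_rfl).2.1
  refine ⟨r₀, hr₀, h6, he, h7, fun r hr => ?_, ?_⟩
  · rw [(hI.vacuum hz hφ hr₀ he hr).2.2, h7]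
  · refine tendsto_nhds_unique h4 ?_
    refine tendsto_const_nhds.congr' ?_
    filter_upwards [eventually_ge_atTop r₀] with r hr
    rw [(hI.vacuum hz hφ hr₀ he hr).1, h7]

/-- **lower bound of the potential of the isolated ion outside its cloud** -/
theorem ion_low {z φ₀ : ℝ} (hz : 0 < z) (hφ : 0 < φ₀) {r : ℝ} (hr : z / φ₀ ≤ r) :
    min (z / 2) (φ₀ * (3 / (16 * Real.pi * √z)) ^ (2 / 3 : ℝ)) / r ≤ ionψ z φ₀ r + φ₀ := by
  have hpi := Real.pi_pos
  obtain ⟨r₀, hr₀, hle, he, hq, hv, -⟩ := edge hz hφ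
  have hr0 : 0 < r := lt_of_lt_of_le (by positivity) hr
  rw [hv r (hle.trans hr), sub_add_cancel]
  refine div_le_div_of_nonneg_right ?_ hr0.le
  have hsz : 0 < √z := Real.sqrt_pos.mpr hz
  set a : ℝ := 3 / (16 * Real.pi * √z) with ha
  have ha0 : 0 < a := by positivity
  set r₁ : ℝ := a ^ (2 / 3 : ℝ) with hr₁
  have hr₁0 : 0 < r₁ := Real.rpow_pos_of_pos ha0 _
  rcases le_or_gt r₁ r₀ with h | h
  · exact (min_le_right _ _).trans (mul_le_mul_of_nonneg_left h hφ.le)
  · refine (min_le_left _ _).trans ?_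
    have hI := ion_ion hz.le hφ
    have h1 := q_low hI hz hφ hr₁0
    have h2 : r₁ * √r₁ = a := by
      have e1 : √r₁ = r₁ ^ (1 / 2 : ℝ) := Real.sqrt_eq_rpow r₁
      have e2 : r₁ * √r₁ = r₁ ^ (3 / 2 : ℝ) := by
        rw [e1]
        nth_rewrite 1 [← Real.rpow_one r₁]
        rw [← Real.rpow_add hr₁0]
        norm_num
      rw [e2, hr₁, ← Real.rpow_mul ha0.le]
      norm_num
    have h3 : 8 * Real.pi / 3 * (z * √z) * a = z / 2 := by
      rw [ha]
      field_simp
      norm_num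
    rw [h2, h3] at h1
    have h4 := hI.q_anti hr₀ hr₁0 h.le
    rw [hq] at h4
    linarith

/-- the cloud of the isolated ion -/
theorem ion_zero {z φ₀ : ℝ} (hz : 0 < z) (hφ : 0 < φ₀) {x : X} (hx : z / φ₀ < ‖x‖) :
    ionρ z φ₀ x = 0 := by
  obtain ⟨h1, h2⟩ := ionρ_spec hz.le hφ
  rw [h2 x]
  refine tf_of_nonpos ?_
  have h3 := pot_nonneg h1.nonneg x
  have hx0 : 0 < ‖x‖ := lt_of_le_of_lt (by positivity) hx
  have h4 : z * ‖x‖⁻¹ ≤ φ₀ := by
    rw [← div_eq_mul_inv, div_le_iff₀ hx0]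
    rw [div_lt_iff₀ hφ] at hx
    linarith
  linarith

/-- the charge of the isolated ion is small for a small chemical potential -/
theorem ion_charge {z φ₀ : ℝ} (hz : 0 < z) (hφ : 0 < φ₀) :
    (z - ∫ x, ionρ z φ₀ x) ^ 3 ≤ 6 / Real.pi * z * (φ₀ * √φ₀) ∧ 0 ≤ z - ∫ x, ionρ z φ₀ x := by
  have hpi := Real.pi_pos
  obtain ⟨r₀, hr₀, hle, he, hq, hv, hm⟩ := edge hz hφ
  rw [hm]
  refine ⟨?_, by positivity⟩
  have hI := ion_ion hz.le hφ
  have hs := Real.sqrt_pos.mpr hφ
  -- lower bound of the potential inside the cloud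
  have hψ : ∀ r, 0 < r → r ≤ r₀ / 2 → φ₀ ≤ ionψ z φ₀ r := by
    intro r hr hr2
    have hanti : AntitoneOn (fun s => ionψ z φ₀ s - φ₀ * r₀ / s) (Ioc 0 r₀) := by
      have hd : ∀ s, 0 < s → HasDerivAt (fun s => ionψ z φ₀ s - φ₀ * r₀ / s)
          (-(ionq z φ₀ s) / s ^ 2 - (0 * s - φ₀ * r₀ * 1) / s ^ 2) s := fun s hs =>
        (hI.dψ s hs).sub ((hasDerivAt_const s (φ₀ * r₀)).div (hasDerivAt_id s) hs.ne')
      refine antitoneOn_of_deriv_nonpos (convex_Ioc 0 r₀)
        (fun s hs => (hd s hs.1).continuousAt.continuousWithinAt)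
        (fun s hs => (hd s (by rw [interior_Ioc] at hs; exact hs.1)).differentiableAt.differentiableWithinAt)
        fun s hs => ?_
      rw [interior_Ioc] at hs
      rw [(hd s hs.1).deriv]
      have h1 := hI.q_anti hs.1 hr₀ hs.2.le
      rw [hq] at h1
      rw [← sub_div]
      refine div_nonpos_of_nonpos_of_nonneg ?_ (by positivity)
      linarith
    have h2 := hanti ⟨hr, by linarith⟩ (right_mem_Ioc.mpr hr₀) (by linarith : r ≤ r₀)
    simp only [he] at h2
    have h3 : φ₀ * r₀ / r₀ = φ₀ := by field_simp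
    have h4 : 2 * φ₀ ≤ φ₀ * r₀ / r := by
      rw [le_div_iff₀ hr]
      nlinarith
    linarith
  -- the enclosed charge
  set g : ℝ → ℝ := fun r => ionq z φ₀ r + 4 * Real.pi / 3 * (φ₀ * √φ₀) * r ^ 3 with hg
  have hd : ∀ s, 0 < s → HasDerivAt g (-(4 * Real.pi * s ^ 2 * tf (ionψ z φ₀ s)) +
      4 * Real.pi / 3 * (φ₀ * √φ₀) * ((3 : ℕ) * s ^ (3 - 1))) s := fun s hs =>
    (hI.dq s hs).add ((hasDerivAt_pow 3 s).const_mul _)
  have hanti : AntitoneOn g (Ioc 0 (r₀ / 2)) := by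
    refine antitoneOn_of_deriv_nonpos (convex_Ioc 0 _)
      (fun s hs => (hd s hs.1).continuousAt.continuousWithinAt)
      (fun s hs => (hd s (by rw [interior_Ioc] at hs; exact hs.1)).differentiableAt.differentiableWithinAt)
      fun s hs => ?_
    rw [interior_Ioc] at hs
    rw [(hd s hs.1).deriv]
    have h1 : φ₀ * √φ₀ ≤ tf (ionψ z φ₀ s) := by
      rw [← tf_pos_eq hφ.le]
      exact tf_mono (hψ s hs.1 hs.2.le)
    have h2 : s ^ 2 * (φ₀ * √φ₀) ≤ s ^ 2 * tf (ionψ z φ₀ s) :=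
      mul_le_mul_of_nonneg_left h1 (by positivity)
    norm_num
    nlinarith
  have hlim : Tendsto g (𝓝[>] 0) (𝓝 (z + 4 * Real.pi / 3 * (φ₀ * √φ₀) * 0 ^ 3)) := by
    refine hI.q0.add ?_
    have h1 : Continuous fun r : ℝ => 4 * Real.pi / 3 * (φ₀ * √φ₀) * r ^ 3 := by fun_prop
    exact (h1.tendsto 0).mono_left nhdsWithin_le_nhds
  have h5 : g (r₀ / 2) ≤ z + 4 * Real.pi / 3 * (φ₀ * √φ₀) * 0 ^ 3 := by
    refine ge_of_tendsto hlim ?_
    filter_upwards [Ioo_mem_nhdsGT (half_pos hr₀)] with s hs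
    exact hanti ⟨hs.1, hs.2.le⟩ (right_mem_Ioc.mpr (half_pos hr₀)) hs.2.le
  have h6 : 0 ≤ ionq z φ₀ (r₀ / 2) := (hI.q_pos hz hφ (half_pos hr₀)).le
  simp only [hg] at h5
  have h7 : 4 * Real.pi / 3 * (φ₀ * √φ₀) * (r₀ / 2) ^ 3 ≤ z := by
    norm_num at h5
    linarith
  have hss : √φ₀ * √φ₀ = φ₀ := Real.mul_self_sqrt hφ.le
  have h8 : (φ₀ * r₀) ^ 3 = 6 / Real.pi * (4 * Real.pi / 3 * (φ₀ * √φ₀) * (r₀ / 2) ^ 3) *
      (φ₀ * √φ₀) := by
    have e1 : 6 / Real.pi * (4 * Real.pi / 3 * (φ₀ * √φ₀) * (r₀ / 2) ^ 3) * (φ₀ * √φ₀) =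
        φ₀ ^ 2 * (√φ₀ * √φ₀) * r₀ ^ 3 := by
      field_simp
      ring
    rw [e1, hss]
    ring
  rw [h8]
  refine mul_le_mul_of_nonneg_right ?_ (by positivity)
  exact mul_le_mul_of_nonneg_left h7 (by positivity)

theorem ion_mass_up {z e : ℝ} (hz : 0 < z) (he : 0 < e) : ∃ φ₁ : ℝ, 0 < φ₁ ∧
    ∀ φ₀, 0 < φ₀ → φ₀ ≤ φ₁ → z - e ≤ ∫ x, ionρ z φ₀ x := by
  have hpi := Real.pi_pos
  refine ⟨min 1 (e ^ 3 * Real.pi / (6 * z)), lt_min one_pos (by positivity), fun φ₀ hφ hle => ?_⟩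
  obtain ⟨h1, h2⟩ := ion_charge hz hφ
  have h3 : √φ₀ ≤ 1 := by
    have := Real.sqrt_le_sqrt (hle.trans (min_le_left _ _))
    rwa [Real.sqrt_one] at this
  have h4 : φ₀ * √φ₀ ≤ e ^ 3 * Real.pi / (6 * z) := by
    calc φ₀ * √φ₀ ≤ φ₀ * 1 := mul_le_mul_of_nonneg_left h3 hφ.le
      _ = φ₀ := mul_one _
      _ ≤ _ := hle.trans (min_le_right _ _)
  have h5 : 6 / Real.pi * z * (φ₀ * √φ₀) ≤ e ^ 3 := by
    calc 6 / Real.pi * z * (φ₀ * √φ₀) ≤ 6 / Real.pi * z * (e ^ 3 * Real.pi / (6 * z)) :=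
          mul_le_mul_of_nonneg_left h4 (by positivity)
      _ = e ^ 3 := by field_simp
  have h6 : z - ∫ x, ionρ z φ₀ x ≤ e := le_of_pow_le_pow_left₀ (by norm_num) he.le (h1.trans h5)
  linarith

variable {ι : Type*} [Fintype ι]

theorem sol_of {z : ι → ℝ} {R : ι → X} {φ₀ : ℝ} {ρ : X → ℝ} (hρ : TC ρ)
    (heq : ∀ x, ρ x = tf (Vpt z R x - pot ρ x - φ₀)) : Sol φ₀ z R ρ :=
  ⟨hρ, fun x _ => heq x⟩

/-- **the mass of a molecule whose ions do not overlap** -/
theorem mass_sum {z : ι → ℝ} (hz : ∀ i, 0 < z i) {R : ι → X} {φ₀ : ℝ} (hφ : 0 < φ₀) {ρ : X → ℝ}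
    (hρ : TC ρ) (heq : ∀ x, ρ x = tf (Vpt z R x - pot ρ x - φ₀))
    (hsep : ∀ i j, i ≠ j → z i / φ₀ + z j / φ₀ < ‖R i - R j‖) :
    ∑ i, ∫ x, ionρ (z i) φ₀ x ≤ ∫ x, ρ x := by
  classical
  have hS := sol_of hρ heq
  have hz0 : ∀ i, 0 ≤ z i := fun i => (hz i).le
  have hI : ∀ i, Integrable fun x => ionρ (z i) φ₀ (x - R i) := fun i =>
    ((ionρ_spec (hz0 i) hφ).1.int).comp_sub_right (R i)
  have e1 : ∑ i, ∫ x, ionρ (z i) φ₀ x = ∫ x, ∑ i, ionρ (z i) φ₀ (x - R i) := by
    rw [integral_finsetSum _ fun i _ => hI i]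
    refine Finset.sum_congr rfl fun i _ => ?_
    exact (integral_sub_right_eq_self (fun x => ionρ (z i) φ₀ x) (R i)).symm
  rw [e1]
  refine integral_mono_ae (integrable_finsetSum _ fun i _ => hI i) hρ.int ?_
  have hne : ∀ᵐ x : X, ∀ i, x ≠ R i := by
    have := nontriv (V := X)
    rw [ae_all_iff]
    intro i
    rw [ae_iff]
    simp
  filter_upwards [hne] with x hx
  by_cases hall : ∀ i, ionρ (z i) φ₀ (x - R i) = 0
  · simp only [hall, Finset.sum_const_zero]
    exact hρ.nonneg x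
  · push Not at hall
    obtain ⟨i, hi⟩ := hall
    have hxi : ‖x - R i‖ ≤ z i / φ₀ := by
      by_contra hc
      push Not at hc
      exact hi (ion_zero (hz i) hφ hc)
    have h1 : ∑ j, ionρ (z j) φ₀ (x - R j) = ionρ (z i) φ₀ (x - R i) := by
      refine Finset.sum_eq_single i (fun j _ hj => ?_) fun h => absurd (Finset.mem_univ i) h
      refine ion_zero (hz j) hφ ?_
      have h2 := hsep i j (Ne.symm hj)
      have h3 : ‖R i - R j‖ ≤ ‖x - R j‖ + ‖x - R i‖ := by
        have := norm_sub_le (x - R j) (x - R i)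
        rw [show x - R j - (x - R i) = R i - R j by abel] at this
        exact this
      linarith
    rw [h1]
    obtain ⟨h4, -⟩ := ion_sol (hz0 i) hφ R i
    refine compare_rho (fun j => ?_) le_rfl h4 hS x hx
    by_cases hj : j = i
    · subst hj
      rw [Pi.single_eq_same]
    · rw [Pi.single_eq_of_ne hj]
      exact hz0 j

end Pool.Agent.TF.Dis

end

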