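import Mathlib
import Pool.Agent.Lib.MP_9cf0c9_mp.Tr.EqDefs

section
/-! Global solutions of ordinary differential equations in the plane with a Lipschitz right side,
and the radial Thomas-Fermi equation `f'' = 4 π r ^ (-1/2) h(f)` in the variable `τ = √r`, with its
linearisation in the initial slope. -/

set_option autoImplicit false

set_option linter.unusedSectionVars false

set_option linter.unusedVariables false

set_option linter.style.haveILetI false

namespace Pool.Agent.TF.Rad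

open MeasureTheory Set Metric Filter Topology

open scoped ENNReal NNReal

/-! ### global solutions in the plane -/

/-- projection to a square -/
noncomputable def cl (M : ℝ) (x : ℝ × ℝ) : ℝ × ℝ :=
  (max (-M) (min x.1 M), max (-M) (min x.2 M))

theorem cl_lip (M : ℝ) : LipschitzWith 1 (cl M) := by
  have h1 : LipschitzWith 1 (fun r : ℝ => max (-M) (min r M)) :=
    (LipschitzWith.id.min_const _).const_max _
  have h2 := (h1.comp LipschitzWith.prod_fst).prodMk (h1.comp LipschitzWith.prod_snd)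
  have h3 : cl M = fun x : ℝ × ℝ => (max (-M) (min x.1 M), max (-M) (min x.2 M)) := rfl
  rw [h3]
  simpa using h2

theorem cl_norm {M : ℝ} (hM : 0 ≤ M) (x : ℝ × ℝ) : ‖cl M x‖ ≤ M := by
  have h1 : ∀ r : ℝ, ‖max (-M) (min r M)‖ ≤ M := fun r => by
    rw [Real.norm_eq_abs, abs_le]
    exact ⟨le_max_left _ _, max_le (by linarith) (min_le_right _ _)⟩
  rw [Prod.norm_def]
  exact max_le (h1 _) (h1 _)

theorem cl_eq {M : ℝ} {x : ℝ × ℝ} (hx : ‖x‖ ≤ M) : cl M x = x := by
  have h1 : ∀ r : ℝ, ‖r‖ ≤ M → max (-M) (min r M) = r := fun r hr => by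
    rw [Real.norm_eq_abs, abs_le] at hr
    rw [min_eq_left hr.2, max_eq_right hr.1]
  have h2 : ‖x.1‖ ≤ M := (norm_fst_le x).trans hx
  have h3 : ‖x.2‖ ≤ M := (norm_snd_le x).trans hx
  unfold cl
  rw [h1 _ h2, h1 _ h3]

theorem cl_norm_le {M : ℝ} (hM : 0 ≤ M) (x : ℝ × ℝ) : ‖cl M x‖ ≤ ‖x‖ := by
  have h := (cl_lip M).dist_le_mul x 0
  have h0 : cl M 0 = 0 := cl_eq (by simpa using hM)
  rw [h0, NNReal.coe_one, one_mul, dist_zero_right, dist_zero_right] at h
  exact h

theorem deriv_Ici {N : ℝ} {y : ℝ → ℝ × ℝ} {y' : ℝ → ℝ × ℝ}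
    (hy : ∀ t ∈ Icc 0 N, HasDerivWithinAt y (y' t) (Icc 0 N) t) :
    ∀ t ∈ Ico 0 N, HasDerivWithinAt y (y' t) (Ici t) t := by
  intro t ht
  refine (hy t ⟨ht.1, ht.2.le⟩).mono_of_mem_nhdsWithin ?_
  exact mem_of_superset (Icc_mem_nhdsGE ht.2) (Icc_subset_Icc_left ht.1)

theorem ode_Icc (v : ℝ → ℝ × ℝ → ℝ × ℝ) {N : ℝ} (hN : 0 ≤ N) {K : ℝ≥0}
    (hK : ∀ t ∈ Icc 0 N, LipschitzWith K (v t)) (hc : ∀ x, ContinuousOn (fun t => v t x) (Icc 0 N))
    (x₀ : ℝ × ℝ) :
    ∃ y : ℝ → ℝ × ℝ, y 0 = x₀ ∧ ∀ t ∈ Icc 0 N, HasDerivWithinAt y (v t (y t)) (Icc 0 N) t := by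
  obtain ⟨c, hc0⟩ := isCompact_Icc.exists_bound_of_continuousOn (hc 0)
  have hc1 : 0 ≤ c := (norm_nonneg _).trans (hc0 0 (left_mem_Icc.mpr hN))
  have hgr : ∀ t ∈ Icc 0 N, ∀ x, ‖v t x‖ ≤ K * ‖x‖ + c := by
    intro t ht x
    have h1 := (hK t ht).dist_le_mul x 0
    rw [dist_zero_right, dist_eq_norm] at h1
    have h2 := hc0 t ht
    have h3 : ‖v t x‖ ≤ ‖v t x - v t 0‖ + ‖v t 0‖ := by
      have := norm_add_le (v t x - v t 0) (v t 0)
      rwa [sub_add_cancel] at this
    linarith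
  set M : ℝ := gronwallBound ‖x₀‖ K c N with hM
  have hmono := gronwallBound_mono (norm_nonneg x₀) hc1 K.coe_nonneg
  have hM0 : 0 ≤ M := by
    have h1 : gronwallBound ‖x₀‖ K c 0 ≤ M := hmono hN
    rw [gronwallBound_x0] at h1
    exact (norm_nonneg _).trans h1
  set B : ℝ≥0 := K * ⟨M, hM0⟩ + ⟨c, hc1⟩ with hB
  have hPL : IsPicardLindelof (fun t x => v t (cl M x))
      (⟨0, left_mem_Icc.2 hN⟩ : Icc (0 : ℝ) N) x₀ (B * Real.toNNReal N) 0 B (K * 1) := by
    refine ⟨?_, ?_, ?_, ?_⟩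
    · intro t ht
      exact ((hK t ht).comp (cl_lip M)).lipschitzOnWith
    · intro x _
      exact hc _
    · intro t ht x _
      refine (hgr t ht _).trans ?_
      rw [hB]
      push_cast
      have := cl_norm hM0 x
      have hK0 : (0 : ℝ) ≤ K := K.coe_nonneg
      show (K : ℝ) * ‖cl M x‖ + c ≤ K * M + c
      nlinarith
    · show (B : ℝ) * max (N - 0) (0 - 0) ≤ ((B * Real.toNNReal N : ℝ≥0) : ℝ) - ((0 : ℝ≥0) : ℝ)
      rw [sub_zero, sub_zero, max_eq_left hN, NNReal.coe_mul, Real.coe_toNNReal N hN,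
        NNReal.coe_zero, sub_zero]
  obtain ⟨y, hy0, hy⟩ := hPL.exists_eq_forall_mem_Icc_hasDerivWithinAt₀
  have hb : ∀ t ∈ Icc 0 N, ‖y t‖ ≤ M := by
    intro t ht
    have h1 := norm_le_gronwallBound_of_norm_deriv_right_le (K := (K : ℝ)) (ε := c)
      (δ := ‖x₀‖) (fun t ht => (hy t ht).continuousWithinAt) (deriv_Ici hy) (by
        show ‖y 0‖ ≤ ‖x₀‖
        rw [show y 0 = x₀ from hy0]) (fun s hs => by
        refine (hgr s ⟨hs.1, hs.2.le⟩ _).trans ?_
        have := cl_norm_le hM0 (y s)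
        have hK0 : (0 : ℝ) ≤ K := K.coe_nonneg
        nlinarith) t ht
    rw [sub_zero] at h1
    exact h1.trans (hmono ht.2)
  refine ⟨y, hy0, fun t ht => ?_⟩
  have h1 := hy t ht
  simp only [cl_eq (hb t ht)] at h1
  exact h1

theorem ode_unique (v : ℝ → ℝ × ℝ → ℝ × ℝ) {N : ℝ} {K : ℝ≥0}
    (hK : ∀ t ∈ Icc 0 N, LipschitzWith K (v t)) {y z : ℝ → ℝ × ℝ} (h0 : y 0 = z 0)
    (hy : ∀ t ∈ Icc 0 N, HasDerivWithinAt y (v t (y t)) (Icc 0 N) t)
    (hz : ∀ t ∈ Icc 0 N, HasDerivWithinAt z (v t (z t)) (Icc 0 N) t) :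
    EqOn y z (Icc 0 N) := by
  refine ODE_solution_unique_of_mem_Icc_right (K := K) (s := fun _ => univ)
    (v := v) (fun t ht => (hK t ⟨ht.1, ht.2.le⟩).lipschitzOnWith)
    (fun t ht => (hy t ht).continuousWithinAt) (deriv_Ici hy) (fun _ _ => mem_univ _)
    (fun t ht => (hz t ht).continuousWithinAt) (deriv_Ici hz) (fun _ _ => mem_univ _) h0

/-- global solutions on the half line -/
theorem ode_Ici (v : ℝ → ℝ × ℝ → ℝ × ℝ)
    (hK : ∀ N : ℝ, 0 ≤ N → ∃ K : ℝ≥0, ∀ t ∈ Icc 0 N, LipschitzWith K (v t))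
    (hc : ∀ x, ContinuousOn (fun t => v t x) (Ici 0)) (x₀ : ℝ × ℝ) :
    ∃ y : ℝ → ℝ × ℝ, y 0 = x₀ ∧ ∀ t : ℝ, 0 ≤ t → HasDerivWithinAt y (v t (y t)) (Ici 0) t := by
  have hex : ∀ N : ℕ, ∃ y : ℝ → ℝ × ℝ, y 0 = x₀ ∧ ∀ t ∈ Icc 0 (N : ℝ),
      HasDerivWithinAt y (v t (y t)) (Icc 0 (N : ℝ)) t := fun N => by
    obtain ⟨K, hK'⟩ := hK N (Nat.cast_nonneg N)
    exact ode_Icc v (Nat.cast_nonneg N) hK' (fun x => (hc x).mono fun t ht => ht.1) x₀
  choose Y hY0 hY using hex
  have hcomp : ∀ M N : ℕ, M ≤ N → ∀ t ∈ Icc 0 (M : ℝ), Y M t = Y N t := by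
    intro M N hMN t ht
    have hMN' : (M : ℝ) ≤ N := by exact_mod_cast hMN
    obtain ⟨K, hK'⟩ := hK M (Nat.cast_nonneg M)
    refine ode_unique v hK' (by rw [hY0, hY0]) (hY M) ?_ ht
    intro s hs
    exact (hY N s ⟨hs.1, hs.2.trans hMN'⟩).mono (Icc_subset_Icc_right hMN')
  set x : ℝ → ℝ × ℝ := fun t => Y (⌊t⌋₊ + 1) t with hx
  have hxY : ∀ (N : ℕ) (t : ℝ), 0 ≤ t → t < N → x t = Y N t := by
    intro N t ht htN
    have h1 : ⌊t⌋₊ + 1 ≤ N := (Nat.floor_lt ht).2 htN
    exact hcomp _ _ h1 t ⟨ht, by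
      have := Nat.lt_floor_add_one t
      push_cast
      exact this.le⟩
  refine ⟨x, ?_, ?_⟩
  · rw [hxY 1 0 le_rfl (by norm_num), hY0]
  · intro t ht
    set N : ℕ := ⌊t⌋₊ + 1 with hN
    have htN : t < N := by
      have := Nat.lt_floor_add_one t
      rw [hN]; push_cast; exact this
    have h1 := hY N t ⟨ht, htN.le⟩
    rw [← hxY N t ht htN] at h1
    have h2 : HasDerivWithinAt x (v t (x t)) (Icc 0 (N : ℝ)) t := by
      refine h1.congr_of_eventuallyEq ?_ (hxY N t ht htN)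
      have h3 : Iio (N : ℝ) ∈ 𝓝[Icc 0 (N : ℝ)] t := mem_nhdsWithin_of_mem_nhds (Iio_mem_nhds htN)
      filter_upwards [h3, self_mem_nhdsWithin] with s hs1 hs2
      exact hxY N s hs2.1 hs1
    refine h2.mono_of_mem_nhdsWithin ?_
    have h3 : Iio (N : ℝ) ∈ 𝓝[Ici 0] t := mem_nhdsWithin_of_mem_nhds (Iio_mem_nhds htN)
    filter_upwards [h3, self_mem_nhdsWithin] with s hs1 hs2
    exact ⟨hs2, hs1.le⟩

end Pool.Agent.TF.Rad

end

section
/-! Inversion of a family of radial solutions.  `p l r` is the potential and `q l r` the charge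
of the solution with label `l` at the radius `r`.  For every value `P` and every slope `G > 0`
exactly one solution passes through `P` with the slope `-G`; the radius `s P G` is a `C¹`
function which satisfies the equation of a first integral. -/

set_option autoImplicit false

set_option linter.unusedSectionVars false

set_option linter.unusedVariables false

set_option linter.style.haveILetI false

namespace Pool.Agent.TF

open MeasureTheory Set Metric Filter Topology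

/-- a family of radial solutions -/
structure Fan (z r₁ : ℝ) (p q u k Rt : ℝ → ℝ → ℝ) : Prop where
  cp : C1On HP p u (fun l r => -(q l r / r ^ 2))
  cq : C1On HP q k (fun l r => -(r ^ 2 * Rt r (p l r)))
  u1 : ∀ l r, 0 < r → 1 ≤ u l r
  k0 : ∀ l r, 0 < r → k l r ≤ 0
  R0 : ∀ r t, 0 ≤ Rt r t
  qz : ∀ l r, 0 < r → q l r ≤ z
  q1 : ∀ l r, 0 < r → r ≤ r₁ → q l r = z
  k1 : ∀ l r, 0 < r → r ≤ r₁ → k l r = 0
  R1 : ∀ r t, r ≤ r₁ → Rt r t = 0

namespace Fan

variable {z r₁ : ℝ} {p q u k Rt : ℝ → ℝ → ℝ}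

theorem p_mono (h : Fan z r₁ p q u k Rt) {r : ℝ} (hr : 0 < r) {l l' : ℝ} (hl : l ≤ l') :
    p l r + (l' - l) ≤ p l' r := by
  have hd : ∀ l, HasDerivAt (fun l => p l r - l) (u l r - 1) l := fun l =>
    (h.cp.d₁ l r hr).sub (hasDerivAt_id l)
  have hm : Monotone fun l => p l r - l := by
    refine monotone_of_deriv_nonneg (fun l => (hd l).differentiableAt) fun l => ?_
    rw [(hd l).deriv]
    linarith [h.u1 l r hr]
  have := hm hl
  simp only at this
  linarith

theorem p_strict (h : Fan z r₁ p q u k Rt) {r : ℝ} (hr : 0 < r) : StrictMono fun l => p l r := by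
  intro l l' hl
  have := h.p_mono hr hl.le
  simp only
  linarith

theorem p_surj (h : Fan z r₁ p q u k Rt) {r : ℝ} (hr : 0 < r) (P : ℝ) : ∃ l, p l r = P := by
  have hc : Continuous fun l => p l r :=
    continuous_iff_continuousAt.mpr fun l => (h.cp.d₁ l r hr).continuousAt
  refine hc.surjective ?_ ?_ P
  · refine tendsto_atTop_mono' atTop ?_ (tendsto_atTop_add_const_left atTop (p 0 r) tendsto_id)
    filter_upwards [eventually_ge_atTop (0 : ℝ)] with l hl
    have := h.p_mono hr hl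
    simp only [id]
    linarith
  · refine tendsto_atBot_mono' atBot ?_ (tendsto_atBot_add_const_left atBot (p 0 r) tendsto_id)
    filter_upwards [eventually_le_atBot (0 : ℝ)] with l hl
    have := h.p_mono hr hl
    simp only [id]
    linarith

theorem q_anti_l (h : Fan z r₁ p q u k Rt) {r : ℝ} (hr : 0 < r) : Antitone fun l => q l r := by
  have hd : ∀ l, HasDerivAt (fun l => q l r) (k l r) l := fun l => h.cq.d₁ l r hr
  refine antitone_of_deriv_nonpos (fun l => (hd l).differentiableAt) fun l => ?_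
  rw [(hd l).deriv]
  exact h.k0 l r hr

theorem q_anti_r (h : Fan z r₁ p q u k Rt) (l : ℝ) : AntitoneOn (fun r => q l r) (Ioi 0) := by
  have hd : ∀ r, 0 < r → HasDerivAt (fun r => q l r) (-(r ^ 2 * Rt r (p l r))) r :=
    fun r hr => h.cq.d₂ l r hr
  refine antitoneOn_of_deriv_nonpos (convex_Ioi 0)
    (fun r hr => (hd r hr).continuousAt.continuousWithinAt) ?_ ?_
  · intro r hr
    rw [interior_Ioi] at hr
    exact (hd r hr).differentiableAt.differentiableWithinAt
  · intro r hr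
    rw [interior_Ioi] at hr
    rw [(hd r hr).deriv]
    have := h.R0 r (p l r)
    have : 0 ≤ r ^ 2 * Rt r (p l r) := by positivity
    linarith

/-- where the charge is positive the potential decreases -/
theorem p_anti (h : Fan z r₁ p q u k Rt) {l a b : ℝ} (ha : 0 < a) (hab : a < b)
    (hq : 0 < q l b) : p l b < p l a := by
  have hd : ∀ r, 0 < r → HasDerivAt (fun r => p l r) (-(q l r / r ^ 2)) r :=
    fun r hr => h.cp.d₂ l r hr
  have hs : StrictAntiOn (fun r => p l r) (Icc a b) := by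
    refine strictAntiOn_of_deriv_neg (convex_Icc a b)
      (fun r hr => (hd r (ha.trans_le hr.1)).continuousAt.continuousWithinAt) ?_
    intro r hr
    rw [interior_Icc] at hr
    have hr0 : 0 < r := ha.trans hr.1
    rw [(hd r hr0).deriv]
    have h1 : q l b ≤ q l r := h.q_anti_r l (mem_Ioi.mpr hr0) (mem_Ioi.mpr (ha.trans hab)) hr.2.le
    have h2 : 0 < q l r := hq.trans_le h1
    have : 0 < q l r / r ^ 2 := by positivity
    linarith
  exact hs ⟨le_rfl, hab.le⟩ ⟨hab.le, le_rfl⟩ hab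

theorem uniq_aux (h : Fan z r₁ p q u k Rt) {G l l' r r' : ℝ} (hG : 0 < G) (hr : 0 < r)
    (hrr : r < r') (hp : p l r = p l' r') (hq : q l r = r ^ 2 * G)
    (hq' : q l' r' = r' ^ 2 * G) : False := by
  have hr' : 0 < r' := hr.trans hrr
  have h0 : 0 < q l' r' := by rw [hq']; positivity
  have h1 := h.p_anti hr hrr h0
  rw [← hp] at h1
  have h2 : l < l' := (h.p_strict hr).lt_iff_lt.mp h1
  have h3 : q l' r ≤ q l r := h.q_anti_l hr h2.le
  have h4 : q l' r' ≤ q l' r := h.q_anti_r l' (mem_Ioi.mpr hr) (mem_Ioi.mpr hr') hrr.le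
  have h5 : r ^ 2 * G < r' ^ 2 * G := by
    have : r ^ 2 < r' ^ 2 := by nlinarith
    exact mul_lt_mul_of_pos_right this hG
  linarith

theorem uniq (h : Fan z r₁ p q u k Rt) {G l l' r r' : ℝ} (hG : 0 < G) (hr : 0 < r)
    (hr' : 0 < r') (hp : p l r = p l' r') (hq : q l r = r ^ 2 * G)
    (hq' : q l' r' = r' ^ 2 * G) : l = l' ∧ r = r' := by
  rcases lt_trichotomy r r' with hlt | heq | hgt
  · exact (h.uniq_aux hG hr hlt hp hq hq').elim
  · subst heq
    exact ⟨(h.p_strict hr).injective hp, rfl⟩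
  · exact (h.uniq_aux hG hr' hgt hp.symm hq' hq).elim

theorem exi (h : Fan z r₁ p q u k Rt) (hz : 0 < z) (hr₁ : 0 < r₁) (P : ℝ) {G : ℝ} (hG : 0 < G) :
    ∃ l r, 0 < r ∧ p l r = P ∧ q l r = r ^ 2 * G := by
  choose L hL using fun r : {r : ℝ // 0 < r} => h.p_surj r.2 P
  -- continuity of the label
  have hLc : Continuous L := by
    rw [continuous_iff_continuousAt]
    intro r₀
    refine tendsto_order.2 ⟨fun a ha => ?_, fun a ha => ?_⟩
    · have h1 : p a r₀ < P := by
        rw [← hL r₀]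
        exact h.p_strict r₀.2 ha
      have h2 : ContinuousAt (fun r : ℝ => p a r) r₀ := (h.cp.d₂ a r₀ r₀.2).continuousAt
      have h3 : ∀ᶠ r : ℝ in 𝓝 (r₀ : ℝ), p a r < P := h2.eventually_lt_const h1
      have h4 : ∀ᶠ r : {r : ℝ // 0 < r} in 𝓝 r₀, p a r < P :=
        continuous_subtype_val.continuousAt.eventually h3
      filter_upwards [h4] with r hr
      rw [← hL r] at hr
      exact (h.p_strict r.2).lt_iff_lt.mp hr
    · have h1 : P < p a r₀ := by
        rw [← hL r₀]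
        exact h.p_strict r₀.2 ha
      have h2 : ContinuousAt (fun r : ℝ => p a r) r₀ := (h.cp.d₂ a r₀ r₀.2).continuousAt
      have h3 : ∀ᶠ r : ℝ in 𝓝 (r₀ : ℝ), P < p a r := h2.eventually_const_lt h1
      have h4 : ∀ᶠ r : {r : ℝ // 0 < r} in 𝓝 r₀, P < p a r :=
        continuous_subtype_val.continuousAt.eventually h3
      filter_upwards [h4] with r hr
      rw [← hL r] at hr
      exact (h.p_strict r.2).lt_iff_lt.mp hr
  set b : ℝ := √(z / G) with hb
  have hb0 : 0 < b := by positivity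
  have hb2 : b ^ 2 = z / G := Real.sq_sqrt (by positivity)
  set a : ℝ := min r₁ b with ha
  have ha0 : 0 < a := lt_min hr₁ hb0
  have hab : a ≤ b := min_le_right _ _
  have hpos : ∀ r : Icc a b, 0 < (r : ℝ) := fun r => ha0.trans_le r.2.1
  set f : Icc a b → ℝ := fun r => q (L ⟨r, hpos r⟩) r - r ^ 2 * G with hf
  have hfc : Continuous f := by
    have h1 : Continuous fun r : Icc a b => L ⟨r, hpos r⟩ :=
      hLc.comp (continuous_subtype_val.subtype_mk _)
    have h2 : Continuous fun r : Icc a b => q (L ⟨r, hpos r⟩) r := by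
      rw [continuous_iff_continuousAt]
      intro r
      have h3 : ContinuousAt (fun y : ℝ × ℝ => q y.1 y.2) (L ⟨r, hpos r⟩, (r : ℝ)) :=
        h.cq.continuousAt isOpen_HP (hpos r)
      exact h3.comp (f := fun r : Icc a b => (L ⟨r, hpos r⟩, (r : ℝ))) (x := r)
        (h1.continuousAt.prodMk continuous_subtype_val.continuousAt)
    exact h2.sub ((continuous_subtype_val.pow 2).mul continuous_const)
  haveI : PreconnectedSpace (Icc a b) := Subtype.preconnectedSpace isPreconnected_Icc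
  have hA : 0 ≤ f ⟨a, le_rfl, hab⟩ := by
    simp only [hf]
    rw [h.q1 _ _ ha0 (min_le_left _ _)]
    have h1 : a ^ 2 ≤ b ^ 2 := pow_le_pow_left₀ ha0.le hab 2
    rw [hb2] at h1
    have h2 : a ^ 2 * G ≤ z / G * G := mul_le_mul_of_nonneg_right h1 hG.le
    rw [div_mul_cancel₀ _ hG.ne'] at h2
    linarith
  have hB : f ⟨b, hab, le_rfl⟩ ≤ 0 := by
    simp only [hf]
    have h1 := h.qz (L ⟨b, hb0⟩) b hb0
    rw [hb2, div_mul_cancel₀ _ hG.ne']
    linarith
  obtain ⟨r, hr⟩ := mem_range_of_exists_le_of_exists_ge hfc ⟨_, hB⟩ ⟨_, hA⟩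
  refine ⟨L ⟨r, hpos r⟩, r, hpos r, hL _, ?_⟩
  simp only [hf] at hr
  linarith

end Fan

/-- the derivative of the map `(l, r) ↦ (p, q / r²)` -/
noncomputable def mat2 (a b c d : ℝ) : ℝ × ℝ →L[ℝ] ℝ × ℝ :=
  (a • ContinuousLinearMap.fst ℝ ℝ ℝ + b • ContinuousLinearMap.snd ℝ ℝ ℝ).prod
    (c • ContinuousLinearMap.fst ℝ ℝ ℝ + d • ContinuousLinearMap.snd ℝ ℝ ℝ)

theorem mat2_apply (a b c d : ℝ) (v : ℝ × ℝ) :
    mat2 a b c d v = (a * v.1 + b * v.2, c * v.1 + d * v.2) := by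
  simp [mat2]

/-- an invertible matrix -/
noncomputable def mat2Equiv (a b c d : ℝ) (h : a * d - b * c ≠ 0) : (ℝ × ℝ) ≃L[ℝ] ℝ × ℝ :=
  ContinuousLinearEquiv.equivOfInverse (mat2 a b c d)
    (mat2 (d / (a * d - b * c)) (-b / (a * d - b * c)) (-c / (a * d - b * c))
      (a / (a * d - b * c)))
    (fun v => by
      rw [mat2_apply, mat2_apply]
      ext
      · simp only
        have e : d / (a * d - b * c) * (a * v.1 + b * v.2) +
            -b / (a * d - b * c) * (c * v.1 + d * v.2) =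
            (a * d - b * c) / (a * d - b * c) * v.1 := by ring
        rw [e, div_self h, one_mul]
      · simp only
        have e : -c / (a * d - b * c) * (a * v.1 + b * v.2) +
            a / (a * d - b * c) * (c * v.1 + d * v.2) =
            (a * d - b * c) / (a * d - b * c) * v.2 := by ring
        rw [e, div_self h, one_mul])
    (fun v => by
      rw [mat2_apply, mat2_apply]
      ext
      · simp only
        have e : a * (d / (a * d - b * c) * v.1 + -b / (a * d - b * c) * v.2) +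
            b * (-c / (a * d - b * c) * v.1 + a / (a * d - b * c) * v.2) =
            (a * d - b * c) / (a * d - b * c) * v.1 := by ring
        rw [e, div_self h, one_mul]
      · simp only
        have e : c * (d / (a * d - b * c) * v.1 + -b / (a * d - b * c) * v.2) +
            d * (-c / (a * d - b * c) * v.1 + a / (a * d - b * c) * v.2) =
            (a * d - b * c) / (a * d - b * c) * v.2 := by ring
        rw [e, div_self h, one_mul])

/-- the radius function of a family of radial solutions -/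
structure RadInv (z r₁ : ℝ) (Rt s sp sG : ℝ → ℝ → ℝ) : Prop where
  c1 : C1On HP s sp sG
  pos : ∀ P G, 0 < G → 0 < s P G
  le : ∀ P G, 0 < G → s P G ^ 2 * G ≤ z
  sp_lo : ∀ P G, 0 < G → -1 ≤ G * sp P G
  sp_hi : ∀ P G, 0 < G → G * sp P G ≤ 0
  sG_lo : ∀ P G, 0 < G → -(1 / 2) * s P G ≤ G * sG P G
  sG_hi : ∀ P G, 0 < G → G * sG P G ≤ 0
  pde : ∀ P G, 0 < G → 1 + G * sp P G + (2 * G / s P G + Rt (s P G) P) * sG P G = 0
  nuc : ∀ P G, 0 < G → z / r₁ ^ 2 ≤ G → s P G = √(z / G)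
  nuc_p : ∀ P G, 0 < G → z / r₁ ^ 2 ≤ G → sp P G = 0
  nuc_G : ∀ P G, 0 < G → z / r₁ ^ 2 ≤ G → G * sG P G = -(1 / 2) * s P G

theorem Fan.exists_radInv {z r₁ : ℝ} {p q u k Rt : ℝ → ℝ → ℝ} (h : Fan z r₁ p q u k Rt)
    (hz : 0 < z) (hr₁ : 0 < r₁) : ∃ s sp sG, RadInv z r₁ Rt s sp sG := by
  classical
  have hex : ∀ y : ℝ × ℝ, ∃ v : ℝ × ℝ, 0 < y.2 →
      0 < v.2 ∧ p v.1 v.2 = y.1 ∧ q v.1 v.2 = v.2 ^ 2 * y.2 := by
    intro y
    by_cases hy : 0 < y.2
    · obtain ⟨l, r, h1, h2, h3⟩ := h.exi hz hr₁ y.1 hy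
      exact ⟨(l, r), fun _ => ⟨h1, h2, h3⟩⟩
    · exact ⟨0, fun h' => (hy h').elim⟩
  choose v hv using hex
  -- the inverse map
  set D : ℝ × ℝ → ℝ := fun y => u (v y).1 (v y).2 * (-Rt (v y).2 y.1 - 2 * y.2 / (v y).2) +
    y.2 * (k (v y).1 (v y).2 / (v y).2 ^ 2) with hD
  have hDneg : ∀ y : ℝ × ℝ, 0 < y.2 → D y ≤ -(u (v y).1 (v y).2 * (2 * y.2 / (v y).2)) ∧
      D y ≤ y.2 * (k (v y).1 (v y).2 / (v y).2 ^ 2) ∧ D y < 0 := by
    intro y hy
    obtain ⟨h1, h2, h3⟩ := hv y hy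
    have hu := h.u1 (v y).1 (v y).2 h1
    have hk := h.k0 (v y).1 (v y).2 h1
    have hR := h.R0 (v y).2 y.1
    have a1 : 0 < 2 * y.2 / (v y).2 := by positivity
    have a2 : y.2 * (k (v y).1 (v y).2 / (v y).2 ^ 2) ≤ 0 :=
      mul_nonpos_of_nonneg_of_nonpos hy.le (div_nonpos_of_nonpos_of_nonneg hk (by positivity))
    have a3 : 0 ≤ u (v y).1 (v y).2 * Rt (v y).2 y.1 := mul_nonneg (by linarith) hR
    have a4 : 0 < u (v y).1 (v y).2 * (2 * y.2 / (v y).2) := mul_pos (by linarith) a1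
    have e : D y = -(u (v y).1 (v y).2 * Rt (v y).2 y.1) -
        u (v y).1 (v y).2 * (2 * y.2 / (v y).2) +
        y.2 * (k (v y).1 (v y).2 / (v y).2 ^ 2) := by
      simp only [hD]
      ring
    refine ⟨?_, ?_, ?_⟩ <;> rw [e] <;> linarith
  have hst : ∀ y : ℝ × ℝ, 0 < y.2 → HasStrictFDerivAt v
      (mat2 ((-Rt (v y).2 y.1 - 2 * y.2 / (v y).2) / D y) (y.2 / D y)
        (-(k (v y).1 (v y).2 / (v y).2 ^ 2) / D y) (u (v y).1 (v y).2 / D y)) y := by
    intro y hy
    obtain ⟨h1, h2, h3⟩ := hv y hy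
    have hr0 : (v y).2 ≠ 0 := h1.ne'
    have hmem : v y ∈ HP := h1
    have s1 := h.cp.strict isOpen_HP hmem
    have s2 := h.cq.strict isOpen_HP hmem
    have s3 : HasStrictFDerivAt (fun w : ℝ × ℝ => (w.2 ^ 2)⁻¹)
        ((-(((v y).2 ^ 2) ^ 2)⁻¹ * (2 * (v y).2)) • ContinuousLinearMap.snd ℝ ℝ ℝ) (v y) := by
      have b1 : HasStrictDerivAt (fun r : ℝ => (r ^ 2)⁻¹)
          (-(((v y).2 ^ 2) ^ 2)⁻¹ * (2 * (v y).2)) (v y).2 := by
        have b2 : HasStrictDerivAt (fun r : ℝ => r ^ 2) (2 * (v y).2) (v y).2 := by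
          simpa using hasStrictDerivAt_pow 2 (v y).2
        have b3 : HasStrictDerivAt (fun t : ℝ => t⁻¹) (-(((v y).2 ^ 2) ^ 2)⁻¹) ((v y).2 ^ 2) :=
          hasStrictDerivAt_inv (pow_ne_zero 2 hr0)
        exact HasStrictDerivAt.comp (h := fun r : ℝ => r ^ 2) (h₂ := fun t : ℝ => t⁻¹) (v y).2
          b3 b2
      exact b1.comp_hasStrictFDerivAt (v y)
        (ContinuousLinearMap.snd ℝ ℝ ℝ).hasStrictFDerivAt
    have s4 := s2.mul s3
    have s5 := s1.prodMk s4
    set a : ℝ := u (v y).1 (v y).2 with ha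
    set b : ℝ := -y.2 with hb
    set c : ℝ := k (v y).1 (v y).2 / (v y).2 ^ 2 with hc
    set d : ℝ := -Rt (v y).2 y.1 - 2 * y.2 / (v y).2 with hd
    have hDe : a * d - b * c = D y := by
      simp only [hD, ha, hb, hc, hd]
      ring
    have hne : a * d - b * c ≠ 0 := by
      rw [hDe]
      exact (hDneg y hy).2.2.ne
    set Φ : ℝ × ℝ → ℝ × ℝ := fun w => (p w.1 w.2, q w.1 w.2 * (w.2 ^ 2)⁻¹) with hΦ
    have s6 : HasStrictFDerivAt Φ ((mat2Equiv a b c d hne : (ℝ × ℝ) ≃L[ℝ] ℝ × ℝ) :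
        ℝ × ℝ →L[ℝ] ℝ × ℝ) (v y) := by
      refine s5.congr_fderiv ?_
      have e : ((mat2Equiv a b c d hne : (ℝ × ℝ) ≃L[ℝ] ℝ × ℝ) :
        ℝ × ℝ →L[ℝ] ℝ × ℝ) = mat2 a b c d := rfl
      rw [e]
      refine ContinuousLinearMap.ext fun w => ?_
      rw [mat2_apply]
      simp only [ContinuousLinearMap.prod_apply, add_apply,
        smul_apply, ContinuousLinearMap.coe_fst',
        ContinuousLinearMap.coe_snd', smul_eq_mul]
      rw [h3, h2]
      ext
      · simp only [ha, hb]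
        field_simp
      · simp only [hc, hd]
        field_simp
        ring
    have hΦv : Φ (v y) = y := by
      simp only [hΦ]
      rw [h2, h3]
      ext
      · rfl
      · simp only
        field_simp
    obtain ⟨g, hg⟩ : ∃ g : ℝ × ℝ → ℝ × ℝ,
        g = HasStrictFDerivAt.localInverse Φ (mat2Equiv a b c d hne) (v y) s6 := ⟨_, rfl⟩
    have s7 : HasStrictFDerivAt g
        ((mat2Equiv a b c d hne).symm : ℝ × ℝ →L[ℝ] ℝ × ℝ) (Φ (v y)) := by
      rw [hg]
      exact s6.to_localInverse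
    have t1 : Tendsto g (𝓝 (Φ (v y))) (𝓝 (v y)) := by
      rw [hg]
      exact s6.localInverse_tendsto
    have t3 : ∀ᶠ w : ℝ × ℝ in 𝓝 (Φ (v y)), Φ (g w) = w := by
      rw [hg]
      exact s6.eventually_right_inverse
    rw [hΦv] at s7 t1 t3
    -- the local inverse is `v`
    have hloc : g =ᶠ[𝓝 y] v := by
      have t2 : ∀ᶠ w : ℝ × ℝ in 𝓝 y, g w ∈ HP := t1 (isOpen_HP.mem_nhds hmem)
      have t4 : ∀ᶠ w : ℝ × ℝ in 𝓝 y, w ∈ HP := isOpen_HP.mem_nhds hy
      filter_upwards [t2, t3, t4] with w w2 w3 w4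
      obtain ⟨g1, g2, g3⟩ := hv w w4
      have w2' : 0 < (g w).2 := w2
      have e1 : p (g w).1 (g w).2 = w.1 := congrArg Prod.fst w3
      have e2 : q (g w).1 (g w).2 * ((g w).2 ^ 2)⁻¹ = w.2 := congrArg Prod.snd w3
      have e3 : q (g w).1 (g w).2 = (g w).2 ^ 2 * w.2 := by
        rw [← e2]
        field_simp
      obtain ⟨f1, f2⟩ := h.uniq w4 w2' g1 (e1.trans g2.symm) e3 g3
      exact Prod.ext f1 f2
    have s8 : HasStrictFDerivAt v _ y := s7.congr_of_eventuallyEq hloc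
    refine s8.congr_fderiv ?_
    have e : ((mat2Equiv a b c d hne).symm : ℝ × ℝ →L[ℝ] ℝ × ℝ) =
      mat2 (d / (a * d - b * c)) (-b / (a * d - b * c)) (-c / (a * d - b * c))
      (a / (a * d - b * c)) := rfl
    rw [e, hDe, hb, neg_neg]
  have hvc : ∀ y : ℝ × ℝ, 0 < y.2 → ContinuousAt v y := fun y hy => (hst y hy).continuousAt
  -- continuity of the coefficients
  have cu : ∀ y : ℝ × ℝ, 0 < y.2 → ContinuousAt (fun y => u (v y).1 (v y).2) y := by
    intro y hy
    have h1 : ContinuousAt (fun w : ℝ × ℝ => u w.1 w.2) (v y) :=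
      h.cp.c₁.continuousAt (isOpen_HP.mem_nhds (hv y hy).1)
    exact h1.comp (f := v) (x := y) (hvc y hy)
  have ck : ∀ y : ℝ × ℝ, 0 < y.2 → ContinuousAt (fun y => k (v y).1 (v y).2) y := by
    intro y hy
    have h1 : ContinuousAt (fun w : ℝ × ℝ => k w.1 w.2) (v y) :=
      h.cq.c₁.continuousAt (isOpen_HP.mem_nhds (hv y hy).1)
    exact h1.comp (f := v) (x := y) (hvc y hy)
  have c2 : ∀ y : ℝ × ℝ, 0 < y.2 → ContinuousAt (fun y => (v y).2) y := fun y hy =>
    continuous_snd.continuousAt.comp (f := v) (x := y) (hvc y hy)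
  have cR : ∀ y : ℝ × ℝ, 0 < y.2 → ContinuousAt (fun y => Rt (v y).2 y.1) y := by
    intro y hy
    have h1 : ContinuousAt (fun w : ℝ × ℝ => -(w.2 ^ 2 * Rt w.2 (p w.1 w.2))) (v y) :=
      h.cq.c₂.continuousAt (isOpen_HP.mem_nhds (hv y hy).1)
    have h2 : ContinuousAt (fun y => -((v y).2 ^ 2 * Rt (v y).2 (p (v y).1 (v y).2))) y :=
      h1.comp (f := v) (x := y) (hvc y hy)
    have h3 : ContinuousAt (fun y => -(-((v y).2 ^ 2 * Rt (v y).2 (p (v y).1 (v y).2))) /
        (v y).2 ^ 2) y :=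
      h2.neg.div ((c2 y hy).pow 2) (pow_ne_zero 2 (hv y hy).1.ne')
    refine h3.congr ?_
    filter_upwards [isOpen_HP.mem_nhds hy] with w hw
    obtain ⟨g1, g2, g3⟩ := hv w hw
    rw [g2]
    have : (v w).2 ≠ 0 := g1.ne'
    field_simp
  have cD : ∀ y : ℝ × ℝ, 0 < y.2 → ContinuousAt D y := by
    intro y hy
    have h0 : (v y).2 ≠ 0 := (hv y hy).1.ne'
    have hy2 : ContinuousAt (fun y : ℝ × ℝ => y.2) y := continuous_snd.continuousAt
    exact ((cu y hy).mul ((cR y hy).neg.sub ((continuousAt_const.mul hy2).div (c2 y hy) h0))).add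
      (hy2.mul ((ck y hy).div ((c2 y hy).pow 2) (pow_ne_zero 2 h0)))
  have hne : ∀ y : ℝ × ℝ, 0 < y.2 → D y ≠ 0 := fun y hy => (hDneg y hy).2.2.ne
  refine ⟨fun P G => (v (P, G)).2,
    fun P G => -(k (v (P, G)).1 (v (P, G)).2 / (v (P, G)).2 ^ 2) / D (P, G),
    fun P G => u (v (P, G)).1 (v (P, G)).2 / D (P, G), ?_⟩
  have key1 : ∀ P G : ℝ, 0 < G → z / r₁ ^ 2 ≤ G → (v (P, G)).2 = √(z / G) := by
    intro P G hG hG1
    have hG' : 0 < ((P, G) : ℝ × ℝ).2 := hG
    obtain ⟨h1, h2, h3⟩ := hv (P, G) hG'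
    have hb0 : 0 < √(z / G) := by positivity
    have hb2 : √(z / G) ^ 2 = z / G := Real.sq_sqrt (by positivity)
    have hbr : √(z / G) ≤ r₁ := by
      rw [Real.sqrt_le_left hr₁.le, div_le_iff₀ hG]
      rw [div_le_iff₀ (by positivity)] at hG1
      linarith
    obtain ⟨l, hl⟩ := h.p_surj hb0 P
    have hq1 : q l √(z / G) = √(z / G) ^ 2 * G := by
      rw [h.q1 l _ hb0 hbr, hb2, div_mul_cancel₀ _ hG.ne']
    exact (h.uniq hG h1 hb0 (h2.trans hl.symm) h3 hq1).2
  have key2 : ∀ P G : ℝ, 0 < G → z / r₁ ^ 2 ≤ G → (v (P, G)).2 ≤ r₁ := by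
    intro P G hG hG1
    rw [key1 P G hG hG1, Real.sqrt_le_left hr₁.le, div_le_iff₀ hG]
    rw [div_le_iff₀ (by positivity)] at hG1
    linarith
  refine ⟨⟨?_, ?_, ?_, ?_⟩, ?_, ?_, ?_, ?_, ?_, ?_, ?_, key1, ?_, ?_⟩
  · intro P G hy
    have hG : 0 < ((P, G) : ℝ × ℝ).2 := hy
    have h1 := (hst (P, G) hG).hasFDerivAt
    have h2 : HasDerivAt (fun P : ℝ => (P, G)) ((1 : ℝ), (0 : ℝ)) P :=
      (hasDerivAt_id P).prodMk (hasDerivAt_const P G)
    have h3 := h1.comp_hasDerivAt P h2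
    have h4 := (ContinuousLinearMap.snd ℝ ℝ ℝ).hasFDerivAt.comp_hasDerivAt P h3
    refine h4.congr_deriv ?_
    rw [mat2_apply]
    simp
  · intro P G hy
    have hG : 0 < ((P, G) : ℝ × ℝ).2 := hy
    have h1 := (hst (P, G) hG).hasFDerivAt
    have h2 : HasDerivAt (fun G : ℝ => (P, G)) ((0 : ℝ), (1 : ℝ)) G :=
      (hasDerivAt_const G P).prodMk (hasDerivAt_id G)
    have h3 := h1.comp_hasDerivAt G h2
    have h4 := (ContinuousLinearMap.snd ℝ ℝ ℝ).hasFDerivAt.comp_hasDerivAt G h3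
    refine h4.congr_deriv ?_
    rw [mat2_apply]
    simp
  · intro y hy
    have h0 : (v y).2 ≠ 0 := (hv y hy).1.ne'
    exact ((((ck y hy).div ((c2 y hy).pow 2) (pow_ne_zero 2 h0)).neg).div (cD y hy)
      (hne y hy)).continuousWithinAt
  · intro y hy
    exact ((cu y hy).div (cD y hy) (hne y hy)).continuousWithinAt
  · intro P G hG
    exact (hv (P, G) hG).1
  · intro P G hG
    obtain ⟨h1, h2, h3⟩ := hv (P, G) hG
    have := h.qz (v (P, G)).1 (v (P, G)).2 h1
    simp only at h3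
    linarith
  · intro P G hG
    obtain ⟨h1, h2, h3⟩ := hDneg (P, G) hG
    simp only at h1 h2 h3 ⊢
    have e : G * (-(k (v (P, G)).1 (v (P, G)).2 / (v (P, G)).2 ^ 2) / D (P, G)) =
      -(G * (k (v (P, G)).1 (v (P, G)).2 / (v (P, G)).2 ^ 2) / D (P, G)) := by ring
    rw [e, neg_le_neg_iff, div_le_one_of_neg h3]
    exact h2
  · intro P G hG
    obtain ⟨h1, h2, h3⟩ := hDneg (P, G) hG
    have hk := h.k0 (v (P, G)).1 _ (hv (P, G) hG).1
    simp only at h1 h2 h3 hk ⊢
    refine mul_nonpos_of_nonneg_of_nonpos hG.le ?_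
    refine div_nonpos_of_nonneg_of_nonpos ?_ h3.le
    rw [Left.nonneg_neg_iff]
    exact div_nonpos_of_nonpos_of_nonneg hk (by positivity)
  · intro P G hG
    obtain ⟨h1, h2, h3⟩ := hDneg (P, G) hG
    have hs := (hv (P, G) hG).1
    have hu := h.u1 (v (P, G)).1 _ hs
    simp only at h1 h2 h3 hs hu ⊢
    rw [mul_div_assoc', le_div_iff_of_neg h3]
    have h4 : D (P, G) * (v (P, G)).2 ≤
        -(u (v (P, G)).1 (v (P, G)).2 * (2 * G / (v (P, G)).2)) * (v (P, G)).2 :=
      mul_le_mul_of_nonneg_right h1 hs.le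
    have h5 : -(u (v (P, G)).1 (v (P, G)).2 * (2 * G / (v (P, G)).2)) * (v (P, G)).2 =
        -(2 * (G * u (v (P, G)).1 (v (P, G)).2)) := by
      field_simp
    nlinarith
  · intro P G hG
    obtain ⟨h1, h2, h3⟩ := hDneg (P, G) hG
    have hu := h.u1 (v (P, G)).1 _ (hv (P, G) hG).1
    simp only at h1 h2 h3 hu ⊢
    exact mul_nonpos_of_nonneg_of_nonpos hG.le
      (div_nonpos_of_nonneg_of_nonpos (by linarith) h3.le)
  · intro P G hG
    have h3 := hne (P, G) hG
    have e : D (P, G) = u (v (P, G)).1 (v (P, G)).2 *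
        (-Rt (v (P, G)).2 P - 2 * G / (v (P, G)).2) +
        G * (k (v (P, G)).1 (v (P, G)).2 / (v (P, G)).2 ^ 2) := rfl
    set Dd := D (P, G) with hDd
    have e2 : 1 + G * (-(k (v (P, G)).1 (v (P, G)).2 / (v (P, G)).2 ^ 2) / Dd) +
        (2 * G / (v (P, G)).2 + Rt (v (P, G)).2 P) * (u (v (P, G)).1 (v (P, G)).2 / Dd) =
        1 - (u (v (P, G)).1 (v (P, G)).2 *
        (-Rt (v (P, G)).2 P - 2 * G / (v (P, G)).2) +
        G * (k (v (P, G)).1 (v (P, G)).2 / (v (P, G)).2 ^ 2)) / Dd := by ring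
    rw [e2, ← e, div_self h3, sub_self]
  · intro P G hG hG1
    have h1 := h.k1 (v (P, G)).1 _ (hv (P, G) hG).1 (key2 P G hG hG1)
    rw [h1]
    simp
  · intro P G hG hG1
    have hs := (hv (P, G) hG).1
    have h1 := h.k1 (v (P, G)).1 _ hs (key2 P G hG hG1)
    have h2 := h.R1 (v (P, G)).2 P (key2 P G hG hG1)
    have hu := h.u1 (v (P, G)).1 _ hs
    have e : D (P, G) = u (v (P, G)).1 (v (P, G)).2 *
        (-Rt (v (P, G)).2 P - 2 * G / (v (P, G)).2) +
        G * (k (v (P, G)).1 (v (P, G)).2 / (v (P, G)).2 ^ 2) := rfl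
    rw [e, h1, h2]
    have hu' : u (v (P, G)).1 (v (P, G)).2 ≠ 0 := by linarith
    have hs' : (v (P, G)).2 ≠ 0 := hs.ne'
    field_simp
    ring

theorem RadInv.abs_sG_le {z r₁ : ℝ} {Rt s sp sG : ℝ → ℝ → ℝ} (h : RadInv z r₁ Rt s sp sG)
    {P G : ℝ} (hG : 0 < G) : |sG P G| ≤ s P G / (2 * G) := by
  have h1 := h.sG_lo P G hG
  have h2 := h.sG_hi P G hG
  have h3 : sG P G ≤ 0 := by
    by_contra hc
    push Not at hc
    have : 0 < G * sG P G := mul_pos hG hc
    linarith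
  rw [abs_of_nonpos h3, le_div_iff₀ (by positivity)]
  linarith

/-- the radius function with an error: `Rt` is compared with the exact source -/
theorem RadInv.radFn {z r₁ : ℝ} {Rt s sp sG : ℝ → ℝ → ℝ} (h : RadInv z r₁ Rt s sp sG)
    {e : ℝ → ℝ → ℝ}
    (he : ∀ P G, 0 < G → |4 * Real.pi * tf P - Rt (s P G) P| * (s P G / (2 * G)) ≤ e P G) :
    RadFn z (z / r₁ ^ 2) s sp sG e := by
  have hpos : ∀ G : ℝ, 0 < G → ∀ t : ℝ, G * t ≤ 0 → t ≤ 0 := by
    intro G hG t ht
    by_contra hc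
    push Not at hc
    have : 0 < G * t := mul_pos hG hc
    linarith
  refine ⟨h.c1, h.pos, h.le, fun P G hG => hpos G hG _ (h.sp_hi P G hG), h.sp_lo,
    fun P G hG => hpos G hG _ (h.sG_hi P G hG), h.sG_lo, h.nuc, h.nuc_p, h.nuc_G, ?_⟩
  intro P G hG
  have h1 := h.pde P G hG
  have e1 : 1 + G * sp P G + (2 * G / s P G + 4 * Real.pi * tf P) * sG P G =
      (4 * Real.pi * tf P - Rt (s P G) P) * sG P G := by linear_combination h1
  rw [e1, abs_mul]
  exact (mul_le_mul_of_nonneg_left (h.abs_sG_le hG) (abs_nonneg _)).trans (he P G hG)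

end Pool.Agent.TF

end

section
/-! The fan of solutions of `F' = b F₁`, `F₁' = a φ(F)`, `F(0) = z`, `F₁(0) = l`: the
linearisation in the label `l`, estimates in the label, and signs of the label derivatives. -/

set_option autoImplicit false

set_option linter.unusedSectionVars false

set_option linter.unusedVariables false

set_option linter.style.haveILetI false

namespace Pool.Agent.TF.Rad

open MeasureTheory Set Metric Filter Topology

open scoped ENNReal NNReal

/-- the data of a fan -/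
structure FanData (a b φ φ' : ℝ → ℝ) (K : ℝ) : Prop where
  ac : Continuous a
  bc : Continuous b
  a0 : ∀ t, 0 ≤ t → 0 ≤ a t
  b0 : ∀ t, 0 ≤ t → 0 ≤ b t
  dφ : ∀ x, HasDerivAt φ (φ' x) x
  φ0 : ∀ x, 0 ≤ φ x
  φ'0 : ∀ x, 0 ≤ φ' x
  φ'K : ∀ x, φ' x ≤ K
  φ'H : ∀ x y, |φ' x - φ' y| ≤ K * √|x - y|

/-! ### Gronwall estimates -/

theorem gr {y y' : ℝ → ℝ × ℝ} {N K ε δ : ℝ} (hK : 1 ≤ K) (hε : 0 ≤ ε) (hδ : 0 ≤ δ)
    (hy : ∀ t, 0 ≤ t → HasDerivWithinAt y (y' t) (Ici 0) t) (h0 : ‖y 0‖ ≤ δ)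
    (hb : ∀ t ∈ Icc 0 N, ‖y' t‖ ≤ K * ‖y t‖ + ε) :
    ∀ t ∈ Icc 0 N, ‖y t‖ ≤ (δ + ε) * Real.exp (K * N) := by
  intro t ht
  have h1 := norm_le_gronwallBound_of_norm_deriv_right_le (f := y) (f' := y') (K := K) (ε := ε)
    (δ := δ) (a := 0) (b := N)
    (fun t ht => ((hy t ht.1).continuousWithinAt).mono fun s hs => hs.1)
    (fun t ht => (hy t ht.1).mono fun s hs => ht.1.trans hs) h0
    (fun t ht => hb t ⟨ht.1, ht.2.le⟩) t ht
  refine h1.trans ?_
  rw [sub_zero]
  refine (gronwallBound_mono hδ hε (by linarith) ht.2).trans ?_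
  rw [gronwallBound_of_K_ne_0 (by linarith)]
  have h2 : 1 ≤ Real.exp (K * N) := Real.one_le_exp (by nlinarith [ht.1, ht.2])
  have h3 : ε / K ≤ ε := div_le_self hε hK
  have h4 : ε / K * (Real.exp (K * N) - 1) ≤ ε * Real.exp (K * N) :=
    mul_le_mul h3 (by linarith) (by linarith) hε
  simp only
  linarith

variable {a b φ φ' : ℝ → ℝ} {K : ℝ}

theorem FanData.K0 (h : FanData a b φ φ' K) : 0 ≤ K := (h.φ'0 0).trans (h.φ'K 0)

theorem FanData.lip (h : FanData a b φ φ' K) (x y : ℝ) : |φ x - φ y| ≤ K * |x - y| := by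
  have h1 := Convex.norm_image_sub_le_of_norm_hasDerivWithin_le (f := φ) (f' := φ') (s := univ)
    (C := K) (fun x _ => (h.dφ x).hasDerivWithinAt) (fun x _ => by
      rw [Real.norm_eq_abs, abs_of_nonneg (h.φ'0 x)]; exact h.φ'K x) convex_univ
    (mem_univ y) (mem_univ x)
  simpa only [Real.norm_eq_abs] using h1

/-- Taylor expansion of the nonlinearity with the Hoelder rest -/
theorem FanData.taylor (h : FanData a b φ φ' K) (x y : ℝ) :
    |φ y - φ x - φ' x * (y - x)| ≤ K * √|y - x| * |y - x| := by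
  have h1 := Convex.norm_image_sub_le_of_norm_hasDerivWithin_le
    (f := fun t => φ t - φ' x * t) (f' := fun t => φ' t - φ' x) (s := uIcc x y)
    (C := K * √|y - x|) (fun t _ => by
      have h2 := (h.dφ t).sub ((hasDerivAt_id t).const_mul (φ' x))
      simp only [mul_one] at h2
      exact h2.hasDerivWithinAt) (fun t ht => by
      rw [Real.norm_eq_abs]
      refine (h.φ'H t x).trans (mul_le_mul_of_nonneg_left ?_ h.K0)
      refine Real.sqrt_le_sqrt ?_
      exact abs_sub_left_of_mem_uIcc ht) (convex_uIcc x y)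
    (left_mem_uIcc) (right_mem_uIcc)
  simp only [Real.norm_eq_abs] at h1
  have e : φ y - φ' x * y - (φ x - φ' x * x) = φ y - φ x - φ' x * (y - x) := by ring
  rwa [e] at h1

/-- bound for the weight -/
theorem FanData.abd (h : FanData a b φ φ' K) (N : ℝ) :
    ∃ A : ℝ, 1 ≤ A ∧ ∀ t ∈ Icc 0 N, a t ≤ A ∧ b t ≤ A := by
  obtain ⟨A, hA⟩ := isCompact_Icc.exists_bound_of_continuousOn (h.ac.continuousOn (s := Icc 0 N))
  obtain ⟨B, hB⟩ := isCompact_Icc.exists_bound_of_continuousOn (h.bc.continuousOn (s := Icc 0 N))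
  exact ⟨max (max A B) 1, le_max_right _ _, fun t ht =>
    ⟨(((le_abs_self _).trans (hA t ht)).trans (le_max_left _ _)).trans (le_max_left _ _),
      (((le_abs_self _).trans (hB t ht)).trans (le_max_right _ _)).trans (le_max_left _ _)⟩⟩

/-! ### the fan and its linearisation -/

/-- the fan -/
structure FanSol (a b φ φ' : ℝ → ℝ) (z : ℝ) (F F₁ W W₁ : ℝ → ℝ → ℝ) : Prop where
  F0 : ∀ l, F l 0 = z
  F₁0 : ∀ l, F₁ l 0 = l
  W0 : ∀ l, W l 0 = 0
  W₁0 : ∀ l, W₁ l 0 = 1
  dF : ∀ l t, 0 ≤ t → HasDerivWithinAt (F l) (b t * F₁ l t) (Ici 0) t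
  dF₁ : ∀ l t, 0 ≤ t → HasDerivWithinAt (F₁ l) (a t * φ (F l t)) (Ici 0) t
  dW : ∀ l t, 0 ≤ t → HasDerivWithinAt (W l) (b t * W₁ l t) (Ici 0) t
  dW₁ : ∀ l t, 0 ≤ t → HasDerivWithinAt (W₁ l) (a t * φ' (F l t) * W l t) (Ici 0) t

theorem FanData.cont' (h : FanData a b φ φ' K) : Continuous φ' := by
  rw [continuous_iff_continuousAt]
  intro x
  rw [ContinuousAt, tendsto_iff_dist_tendsto_zero]
  have h1 : Tendsto (fun y => K * √|y - x|) (𝓝 x) (𝓝 (K * √|x - x|)) :=
    (by fun_prop : Continuous fun y => K * √|y - x|).tendsto x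
  rw [sub_self, abs_zero, Real.sqrt_zero, mul_zero] at h1
  refine squeeze_zero (fun _ => dist_nonneg) (fun y => ?_) h1
  rw [Real.dist_eq]
  exact h.φ'H y x

theorem exists_fan_sol (h : FanData a b φ φ' K) (z : ℝ) :
    ∃ F F₁ W W₁ : ℝ → ℝ → ℝ, FanSol a b φ φ' z F F₁ W W₁ := by
  have hφc : Continuous φ := continuous_iff_continuousAt.mpr fun x => (h.dφ x).continuousAt
  have h1 : ∀ l : ℝ, ∃ y : ℝ → ℝ × ℝ, y 0 = (z, l) ∧ ∀ t : ℝ, 0 ≤ t →
      HasDerivWithinAt y (b t * (y t).2, a t * φ (y t).1) (Ici 0) t := by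
    intro l
    refine ode_Ici (fun t x => (b t * x.2, a t * φ x.1)) (fun N hN => ?_) (fun x => ?_) (z, l)
    · obtain ⟨A, hA1, hA⟩ := h.abd N
      have hA0 : 0 ≤ A := zero_le_one.trans hA1
      refine ⟨⟨max A (A * K), le_max_of_le_left hA0⟩, fun t ht => ?_⟩
      refine LipschitzWith.of_dist_le_mul fun x y => ?_
      rw [Prod.dist_eq]
      have e1 : dist x.2 y.2 ≤ dist x y := by rw [Prod.dist_eq]; exact le_max_right _ _
      have e2 : dist x.1 y.1 ≤ dist x y := by rw [Prod.dist_eq]; exact le_max_left _ _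
      have hd : 0 ≤ dist x y := dist_nonneg
      show max (dist (b t * x.2) (b t * y.2)) (dist (a t * φ x.1) (a t * φ y.1)) ≤
        max A (A * K) * dist x y
      refine max_le ?_ ?_
      · rw [Real.dist_eq, ← mul_sub, abs_mul, abs_of_nonneg (h.b0 t ht.1), ← Real.dist_eq]
        calc b t * dist x.2 y.2 ≤ A * dist x y := mul_le_mul (hA t ht).2 e1 dist_nonneg hA0
          _ ≤ _ := mul_le_mul_of_nonneg_right (le_max_left _ _) hd
      · rw [Real.dist_eq, ← mul_sub, abs_mul, abs_of_nonneg (h.a0 t ht.1)]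
        have h2 := h.lip x.1 y.1
        rw [← Real.dist_eq x.1 y.1] at h2
        calc a t * |φ x.1 - φ y.1| ≤ A * (K * dist x.1 y.1) :=
              mul_le_mul (hA t ht).1 h2 (abs_nonneg _) hA0
          _ ≤ A * (K * dist x y) :=
              mul_le_mul_of_nonneg_left (mul_le_mul_of_nonneg_left e2 h.K0) hA0
          _ = (A * K) * dist x y := by ring
          _ ≤ _ := mul_le_mul_of_nonneg_right (le_max_right _ _) hd
    · have := h.ac
      have := h.bc
      fun_prop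
  choose Y hY0 hY using h1
  have hYc : ∀ l, ContinuousOn (fun t => (Y l t).1) (Ici 0) := fun l =>
    continuous_fst.comp_continuousOn fun t ht => (hY l t ht).continuousWithinAt
  have h2 : ∀ l : ℝ, ∃ y : ℝ → ℝ × ℝ, y 0 = (0, 1) ∧ ∀ t : ℝ, 0 ≤ t →
      HasDerivWithinAt y (b t * (y t).2, a t * φ' (Y l t).1 * (y t).1) (Ici 0) t := by
    intro l
    refine ode_Ici (fun t x => (b t * x.2, a t * φ' (Y l t).1 * x.1)) (fun N hN => ?_) (fun x => ?_) (0, 1)
    · obtain ⟨A, hA1, hA⟩ := h.abd N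
      have hA0 : 0 ≤ A := zero_le_one.trans hA1
      refine ⟨⟨max A (A * K), le_max_of_le_left hA0⟩, fun t ht => ?_⟩
      refine LipschitzWith.of_dist_le_mul fun x y => ?_
      rw [Prod.dist_eq]
      have e1 : dist x.2 y.2 ≤ dist x y := by rw [Prod.dist_eq]; exact le_max_right _ _
      have e2 : dist x.1 y.1 ≤ dist x y := by rw [Prod.dist_eq]; exact le_max_left _ _
      have hd : 0 ≤ dist x y := dist_nonneg
      show max (dist (b t * x.2) (b t * y.2))
        (dist (a t * φ' (Y l t).1 * x.1) (a t * φ' (Y l t).1 * y.1)) ≤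
        max A (A * K) * dist x y
      refine max_le ?_ ?_
      · rw [Real.dist_eq, ← mul_sub, abs_mul, abs_of_nonneg (h.b0 t ht.1), ← Real.dist_eq]
        calc b t * dist x.2 y.2 ≤ A * dist x y := mul_le_mul (hA t ht).2 e1 dist_nonneg hA0
          _ ≤ _ := mul_le_mul_of_nonneg_right (le_max_left _ _) hd
      · have hc0 : 0 ≤ a t * φ' (Y l t).1 := mul_nonneg (h.a0 t ht.1) (h.φ'0 _)
        rw [Real.dist_eq, ← mul_sub, abs_mul, abs_of_nonneg hc0, ← Real.dist_eq]
        calc a t * φ' (Y l t).1 * dist x.1 y.1 ≤ A * K * dist x y :=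
              mul_le_mul (mul_le_mul (hA t ht).1 (h.φ'K _) (h.φ'0 _) hA0) e2 dist_nonneg
                (mul_nonneg hA0 h.K0)
          _ ≤ _ := mul_le_mul_of_nonneg_right (le_max_right _ _) hd
    · have h3 := h.ac
      have h4 : ContinuousOn (fun t => φ' (Y l t).1) (Ici 0) :=
        h.cont'.comp_continuousOn (hYc l)
      have h5 := h.bc
      exact (h5.continuousOn.mul continuousOn_const).prodMk
        ((h3.continuousOn.mul h4).mul continuousOn_const)
  choose U hU0 hU using h2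
  refine ⟨fun l t => (Y l t).1, fun l t => (Y l t).2, fun l t => (U l t).1, fun l t => (U l t).2,
    ⟨fun l => by simp only [hY0], fun l => by simp only [hY0], fun l => by simp only [hU0],
      fun l => by simp only [hU0], fun l t ht => ?_, fun l t ht => ?_, fun l t ht => ?_,
      fun l t ht => ?_⟩⟩
  · exact ((hasFDerivAt_fst.comp_hasDerivWithinAt t (hY l t ht)))
  · exact ((hasFDerivAt_snd.comp_hasDerivWithinAt t (hY l t ht)))
  · exact ((hasFDerivAt_fst.comp_hasDerivWithinAt t (hU l t ht)))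
  · exact ((hasFDerivAt_snd.comp_hasDerivWithinAt t (hU l t ht)))

/-! ### estimates in the label -/

/-- the estimates of the fan in the label, uniformly on bounded intervals -/
structure LabelEst (F F₁ W W₁ : ℝ → ℝ → ℝ) (N C : ℝ) : Prop where
  C0 : 0 ≤ C
  lF : ∀ l l' t, t ∈ Icc 0 N → |F l' t - F l t| ≤ C * |l' - l|
  lF₁ : ∀ l l' t, t ∈ Icc 0 N → |F₁ l' t - F₁ l t| ≤ C * |l' - l|
  dF : ∀ l l' t, t ∈ Icc 0 N → |F l' t - F l t - (l' - l) * W l t| ≤ C * √|l' - l| * |l' - l|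
  dF₁ : ∀ l l' t, t ∈ Icc 0 N → |F₁ l' t - F₁ l t - (l' - l) * W₁ l t| ≤ C * √|l' - l| * |l' - l|
  lW : ∀ l l' t, t ∈ Icc 0 N → |W l' t - W l t| ≤ C * √|l' - l|
  lW₁ : ∀ l l' t, t ∈ Icc 0 N → |W₁ l' t - W₁ l t| ≤ C * √|l' - l|

theorem FanSol.est (h : FanData a b φ φ' K) {z : ℝ} {F F₁ W W₁ : ℝ → ℝ → ℝ}
    (f : FanSol a b φ φ' z F F₁ W W₁) (N : ℝ) : ∃ C : ℝ, LabelEst F F₁ W W₁ N C := by
  obtain ⟨A, hA1, hA'⟩ := h.abd N
  have hA0 : 0 ≤ A := zero_le_one.trans hA1
  have hA : ∀ t ∈ Icc 0 N, a t ≤ A := fun t ht => (hA' t ht).1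
  have hK0 := h.K0
  set B : ℝ := max A (A * K) with hB
  have hBA : A ≤ B := le_max_left _ _
  have hB1 : 1 ≤ B := hA1.trans hBA
  have hbB : ∀ t ∈ Icc 0 N, ∀ y m : ℝ, |y| ≤ m → |b t * y| ≤ B * m := by
    intro t ht y m hm
    rw [abs_mul, abs_of_nonneg (h.b0 t ht.1)]
    exact mul_le_mul ((hA' t ht).2.trans hBA) hm (abs_nonneg _) (by linarith)
  have hB2 : A * K ≤ B := le_max_right _ _
  have hAK : 0 ≤ A * K := mul_nonneg hA0 hK0
  set E : ℝ := Real.exp (B * N) with hE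
  have hE0 : 0 ≤ E := (Real.exp_pos _).le
  -- Lipschitz in the label
  have e1 : ∀ l l' t, t ∈ Icc 0 N → ‖(F l' t - F l t, F₁ l' t - F₁ l t)‖ ≤ E * |l' - l| := by
    intro l l' t ht
    have h1 := gr (y := fun t => (F l' t - F l t, F₁ l' t - F₁ l t))
      (y' := fun t => (b t * F₁ l' t - b t * F₁ l t, a t * φ (F l' t) - a t * φ (F l t)))
      (N := N) (K := B) (ε := 0) (δ := |l' - l|) hB1 le_rfl (abs_nonneg _)
      (fun t ht => ((f.dF l' t ht).sub (f.dF l t ht)).prodMk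
        ((f.dF₁ l' t ht).sub (f.dF₁ l t ht)))
      (by
        simp only [f.F0, f.F₁0, sub_self]
        rw [Prod.norm_def]
        simp) (fun t ht => ?_) t ht
    · rw [add_zero] at h1
      linarith
    · rw [add_zero, Prod.norm_def, Prod.norm_def]
      simp only [Real.norm_eq_abs]
      set x := |F l' t - F l t|
      set y := |F₁ l' t - F₁ l t| with hy
      have hx0 : 0 ≤ x := abs_nonneg _
      have hm0 : 0 ≤ max x y := hx0.trans (le_max_left _ _)
      refine max_le ?_ ?_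
      · rw [← mul_sub]
        exact hbB t ht _ _ (le_max_right _ _)
      · rw [← mul_sub, abs_mul, abs_of_nonneg (h.a0 t ht.1)]
        calc a t * |φ (F l' t) - φ (F l t)| ≤ A * (K * x) :=
              mul_le_mul (hA t ht) (h.lip _ _) (abs_nonneg _) hA0
          _ = (A * K) * x := by ring
          _ ≤ B * max x y := mul_le_mul hB2 (le_max_left _ _) hx0 (by linarith)
  have e1a : ∀ l l' t, t ∈ Icc 0 N → |F l' t - F l t| ≤ E * |l' - l| := fun l l' t ht =>
    (norm_fst_le (F l' t - F l t, F₁ l' t - F₁ l t)).trans (e1 l l' t ht)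
  have e1b : ∀ l l' t, t ∈ Icc 0 N → |F₁ l' t - F₁ l t| ≤ E * |l' - l| := fun l l' t ht =>
    (norm_snd_le (F l' t - F l t, F₁ l' t - F₁ l t)).trans (e1 l l' t ht)
  -- bound of the linearisation
  have e2 : ∀ l t, t ∈ Icc 0 N → ‖(W l t, W₁ l t)‖ ≤ E := by
    intro l t ht
    have h1 := gr (y := fun t => (W l t, W₁ l t))
      (y' := fun t => (b t * W₁ l t, a t * φ' (F l t) * W l t))
      (N := N) (K := B) (ε := 0) (δ := 1) hB1 le_rfl zero_le_one
      (fun t ht => (f.dW l t ht).prodMk (f.dW₁ l t ht))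
      (by
        simp only [f.W0, f.W₁0]
        rw [Prod.norm_def]
        simp) (fun t ht => ?_) t ht
    · rw [add_zero, one_mul] at h1
      exact h1
    · rw [add_zero, Prod.norm_def, Prod.norm_def]
      simp only [Real.norm_eq_abs]
      set x := |W l t|
      set y := |W₁ l t| with hy
      have hx0 : 0 ≤ x := abs_nonneg _
      have hm0 : 0 ≤ max x y := hx0.trans (le_max_left _ _)
      refine max_le ?_ ?_
      · exact hbB t ht _ _ (le_max_right _ _)
      · have hc0 : 0 ≤ a t * φ' (F l t) := mul_nonneg (h.a0 t ht.1) (h.φ'0 _)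
        rw [abs_mul, abs_of_nonneg hc0]
        calc a t * φ' (F l t) * x ≤ (A * K) * max x y :=
              mul_le_mul (mul_le_mul (hA t ht) (h.φ'K _) (h.φ'0 _) hA0) (le_max_left _ _) hx0 hAK
          _ ≤ _ := mul_le_mul_of_nonneg_right hB2 hm0
  have e2a : ∀ l t, t ∈ Icc 0 N → |W l t| ≤ E := fun l t ht =>
    (norm_fst_le (W l t, W₁ l t)).trans (e2 l t ht)
  -- differentiability
  have hs0 : ∀ l l' : ℝ, 0 ≤ √|l' - l| := fun _ _ => Real.sqrt_nonneg _
  have hsF : ∀ l l' t, t ∈ Icc 0 N → √|F l' t - F l t| ≤ √E * √|l' - l| := by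
    intro l l' t ht
    rw [← Real.sqrt_mul hE0]
    exact Real.sqrt_le_sqrt (e1a l l' t ht)
  have e3 : ∀ l l' t, t ∈ Icc 0 N → ‖(F l' t - F l t - (l' - l) * W l t,
      F₁ l' t - F₁ l t - (l' - l) * W₁ l t)‖ ≤ (A * K * √E * E * E) * √|l' - l| * |l' - l| := by
    intro l l' t ht
    have hε0 : 0 ≤ A * K * (√E * √|l' - l|) * (E * |l' - l|) := by positivity
    have h1 := gr (y := fun t => (F l' t - F l t - (l' - l) * W l t,
        F₁ l' t - F₁ l t - (l' - l) * W₁ l t))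
      (y' := fun t => (b t * F₁ l' t - b t * F₁ l t - (l' - l) * (b t * W₁ l t),
        a t * φ (F l' t) - a t * φ (F l t) - (l' - l) * (a t * φ' (F l t) * W l t)))
      (N := N) (K := B) (ε := A * K * (√E * √|l' - l|) * (E * |l' - l|)) (δ := 0) hB1 hε0 le_rfl
      (fun t ht => (((f.dF l' t ht).sub (f.dF l t ht)).sub ((f.dW l t ht).const_mul _)).prodMk
        (((f.dF₁ l' t ht).sub (f.dF₁ l t ht)).sub ((f.dW₁ l t ht).const_mul _)))
      (by
        simp only [f.F0, f.F₁0, f.W0, f.W₁0, sub_self, mul_zero, mul_one]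
        rw [Prod.norm_def]
        simp) (fun t ht => ?_) t ht
    · rw [zero_add] at h1
      refine h1.trans (le_of_eq ?_)
      ring
    · rw [Prod.norm_def, Prod.norm_def]
      simp only [Real.norm_eq_abs]
      set x := |F l' t - F l t - (l' - l) * W l t|
      set y := |F₁ l' t - F₁ l t - (l' - l) * W₁ l t| with hy
      have hx0 : 0 ≤ x := abs_nonneg _
      have hm0 : 0 ≤ max x y := hx0.trans (le_max_left _ _)
      refine max_le ?_ ?_
      · have e0 : b t * F₁ l' t - b t * F₁ l t - (l' - l) * (b t * W₁ l t) =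
            b t * (F₁ l' t - F₁ l t - (l' - l) * W₁ l t) := by ring
        rw [e0]
        refine (hbB t ht _ _ (le_max_right x _)).trans ?_
        linarith
      · have e : a t * φ (F l' t) - a t * φ (F l t) - (l' - l) * (a t * φ' (F l t) * W l t) =
            a t * ((φ (F l' t) - φ (F l t) - φ' (F l t) * (F l' t - F l t)) +
              φ' (F l t) * (F l' t - F l t - (l' - l) * W l t)) := by ring
        rw [e, abs_mul, abs_of_nonneg (h.a0 t ht.1)]
        have h2 : |(φ (F l' t) - φ (F l t) - φ' (F l t) * (F l' t - F l t)) +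
              φ' (F l t) * (F l' t - F l t - (l' - l) * W l t)| ≤
            K * (√E * √|l' - l|) * (E * |l' - l|) + K * x := by
          refine (abs_add_le _ _).trans (add_le_add ?_ ?_)
          · refine (h.taylor (F l t) (F l' t)).trans ?_
            exact mul_le_mul (mul_le_mul_of_nonneg_left (hsF l l' t ht) hK0) (e1a l l' t ht)
              (abs_nonneg _) (by positivity)
          · rw [abs_mul, abs_of_nonneg (h.φ'0 _)]
            exact mul_le_mul_of_nonneg_right (h.φ'K _) hx0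
        calc a t * _ ≤ A * (K * (√E * √|l' - l|) * (E * |l' - l|) + K * x) :=
              mul_le_mul (hA t ht) h2 (abs_nonneg _) hA0
          _ = (A * K) * x + A * K * (√E * √|l' - l|) * (E * |l' - l|) := by ring
          _ ≤ B * max x y + A * K * (√E * √|l' - l|) * (E * |l' - l|) := by
              have := mul_le_mul hB2 (le_max_left x y) hx0 (by linarith : 0 ≤ B)
              linarith
  -- continuity of the linearisation
  have e4 : ∀ l l' t, t ∈ Icc 0 N → ‖(W l' t - W l t, W₁ l' t - W₁ l t)‖ ≤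
      (A * K * √E * E * E) * √|l' - l| := by
    intro l l' t ht
    have hε0 : 0 ≤ A * K * (√E * √|l' - l|) * E := by positivity
    have h1 := gr (y := fun t => (W l' t - W l t, W₁ l' t - W₁ l t))
      (y' := fun t => (b t * W₁ l' t - b t * W₁ l t,
        a t * φ' (F l' t) * W l' t - a t * φ' (F l t) * W l t))
      (N := N) (K := B) (ε := A * K * (√E * √|l' - l|) * E) (δ := 0) hB1 hε0 le_rfl
      (fun t ht => ((f.dW l' t ht).sub (f.dW l t ht)).prodMk
        ((f.dW₁ l' t ht).sub (f.dW₁ l t ht)))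
      (by
        simp only [f.W0, f.W₁0, sub_self]
        rw [Prod.norm_def]
        simp) (fun t ht => ?_) t ht
    · rw [zero_add] at h1
      refine h1.trans (le_of_eq ?_)
      ring
    · rw [Prod.norm_def, Prod.norm_def]
      simp only [Real.norm_eq_abs]
      set x := |W l' t - W l t|
      set y := |W₁ l' t - W₁ l t| with hy
      have hx0 : 0 ≤ x := abs_nonneg _
      have hm0 : 0 ≤ max x y := hx0.trans (le_max_left _ _)
      refine max_le ?_ ?_
      · rw [← mul_sub]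
        refine (hbB t ht _ _ (le_max_right x _)).trans ?_
        linarith
      · have e : a t * φ' (F l' t) * W l' t - a t * φ' (F l t) * W l t =
            a t * (φ' (F l' t) * (W l' t - W l t) + (φ' (F l' t) - φ' (F l t)) * W l t) := by ring
        rw [e, abs_mul, abs_of_nonneg (h.a0 t ht.1)]
        have h2 : |φ' (F l' t) * (W l' t - W l t) + (φ' (F l' t) - φ' (F l t)) * W l t| ≤
            K * x + K * (√E * √|l' - l|) * E := by
          refine (abs_add_le _ _).trans (add_le_add ?_ ?_)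
          · rw [abs_mul, abs_of_nonneg (h.φ'0 _)]
            exact mul_le_mul_of_nonneg_right (h.φ'K _) hx0
          · rw [abs_mul]
            refine mul_le_mul ((h.φ'H _ _).trans ?_) (e2a l t ht) (abs_nonneg _) (by positivity)
            exact mul_le_mul_of_nonneg_left (hsF l l' t ht) hK0
        calc a t * _ ≤ A * (K * x + K * (√E * √|l' - l|) * E) :=
              mul_le_mul (hA t ht) h2 (abs_nonneg _) hA0
          _ = (A * K) * x + A * K * (√E * √|l' - l|) * E := by ring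
          _ ≤ B * max x y + A * K * (√E * √|l' - l|) * E := by
              have := mul_le_mul hB2 (le_max_left x y) hx0 (by linarith : 0 ≤ B)
              linarith
  set C : ℝ := max E (A * K * √E * E * E) with hC
  have c1 : E ≤ C := le_max_left _ _
  have c2 : A * K * √E * E * E ≤ C := le_max_right _ _
  refine ⟨C, ⟨hE0.trans c1, fun l l' t ht => ?_, fun l l' t ht => ?_, fun l l' t ht => ?_,
    fun l l' t ht => ?_, fun l l' t ht => ?_, fun l l' t ht => ?_⟩⟩
  · exact (e1a l l' t ht).trans (mul_le_mul_of_nonneg_right c1 (abs_nonneg _))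
  · exact (e1b l l' t ht).trans (mul_le_mul_of_nonneg_right c1 (abs_nonneg _))
  · refine ((norm_fst_le _).trans (e3 l l' t ht)).trans ?_
    exact mul_le_mul_of_nonneg_right (mul_le_mul_of_nonneg_right c2 (hs0 _ _)) (abs_nonneg _)
  · refine ((norm_snd_le _).trans (e3 l l' t ht)).trans ?_
    exact mul_le_mul_of_nonneg_right (mul_le_mul_of_nonneg_right c2 (hs0 _ _)) (abs_nonneg _)
  · exact ((norm_fst_le _).trans (e4 l l' t ht)).trans (mul_le_mul_of_nonneg_right c2 (hs0 _ _))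
  · exact ((norm_snd_le _).trans (e4 l l' t ht)).trans (mul_le_mul_of_nonneg_right c2 (hs0 _ _))

end Pool.Agent.TF.Rad

end

section
/-! The fan of solutions of `F'' = a(r) φ(F)`, `F(0) = z`, `F'(0) = l` gives a family of radial
solutions in the sense of `FanInv`: potential `F / r`, charge `F - r F'`. -/

set_option autoImplicit false

set_option linter.unusedSectionVars false

set_option linter.unusedVariables false

set_option linter.style.haveILetI false

namespace Pool.Agent.TF.Rad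

open MeasureTheory Set Metric Filter Topology

open scoped ENNReal NNReal

/-! ### monotonicity on the half line -/

theorem zmem : (0 : ℝ) ∈ Ici (0 : ℝ) := le_refl (0 : ℝ)

theorem mono_Ici {f f' : ℝ → ℝ} (h : ∀ t, 0 ≤ t → HasDerivWithinAt f (f' t) (Ici 0) t)
    (h0 : ∀ t, 0 ≤ t → 0 ≤ f' t) : MonotoneOn f (Ici 0) := by
  refine monotoneOn_of_hasDerivWithinAt_nonneg (f' := f') (convex_Ici 0)
    (fun t ht => (h t ht).continuousWithinAt) (fun t ht => ?_) (fun t ht => ?_)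
  · rw [interior_Ici] at ht ⊢
    exact (h t (le_of_lt ht)).mono Ioi_subset_Ici_self
  · rw [interior_Ici] at ht
    exact h0 t (le_of_lt ht)

theorem const_Icc {f f' : ℝ → ℝ} {r₁ : ℝ}
    (h : ∀ t, 0 ≤ t → HasDerivWithinAt f (f' t) (Ici 0) t)
    (h0 : ∀ t ∈ Ico 0 r₁, f' t = 0) : ∀ t ∈ Icc 0 r₁, f t = f 0 := by
  refine constant_of_has_deriv_right_zero
    (fun t ht => ((h t ht.1).continuousWithinAt).mono fun s hs => hs.1) fun t ht => ?_
  have h1 := (h t ht.1).mono (s := Ici t) fun s hs => ht.1.trans hs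
  rwa [h0 t ht] at h1

/-! ### joint continuity -/

theorem cont2 {f : ℝ → ℝ → ℝ} (hc : ∀ l t, 0 < t → ContinuousAt (f l) t)
    (he : ∀ N : ℝ, ∃ C : ℝ, ∀ l l' t, t ∈ Icc 0 N →
      |f l' t - f l t| ≤ C * √|l' - l| + C * |l' - l|) :
    ContinuousOn (fun q : ℝ × ℝ => f q.1 q.2) HP := by
  rintro ⟨l, t⟩ ht
  have ht0 : 0 < t := ht
  refine ContinuousAt.continuousWithinAt ?_
  obtain ⟨C, hC⟩ := he (t + 1)
  rw [ContinuousAt, tendsto_iff_dist_tendsto_zero]
  have h1 : Tendsto (fun q : ℝ × ℝ => C * √|q.1 - l| + C * |q.1 - l|) (𝓝 (l, t))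
      (𝓝 (C * √|l - l| + C * |l - l|)) :=
    (by fun_prop : Continuous fun q : ℝ × ℝ => C * √|q.1 - l| + C * |q.1 - l|).tendsto (l, t)
  rw [sub_self, abs_zero, Real.sqrt_zero, mul_zero, add_zero] at h1
  have h2 : Tendsto (fun q : ℝ × ℝ => |f l q.2 - f l t|) (𝓝 (l, t)) (𝓝 0) := by
    have h3 : ContinuousAt (fun q : ℝ × ℝ => f l q.2) (l, t) :=
      (hc l t ht0).comp (f := fun q : ℝ × ℝ => q.2) (x := (l, t)) continuous_snd.continuousAt
    have h5 : Tendsto (fun q : ℝ × ℝ => |f l q.2 - f l t|) (𝓝 (l, t)) (𝓝 |f l t - f l t|) :=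
      (h3.tendsto.sub_const (f l t)).abs
    rw [sub_self, abs_zero] at h5
    exact h5
  have h3 := h1.add h2
  rw [add_zero] at h3
  refine squeeze_zero' (Eventually.of_forall fun _ => dist_nonneg) ?_ h3
  have h4 : ∀ᶠ q : ℝ × ℝ in 𝓝 (l, t), q.2 ∈ Icc 0 (t + 1) := by
    have h5 : Icc 0 (t + 1) ∈ 𝓝 t := Icc_mem_nhds ht0 (by linarith)
    exact continuous_snd.continuousAt.eventually h5
  filter_upwards [h4] with q hq
  rw [Real.dist_eq]
  have e : f q.1 q.2 - f l t = (f q.1 q.2 - f l q.2) + (f l q.2 - f l t) := by ring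
  rw [e]
  exact (abs_add_le _ _).trans (add_le_add (hC l q.1 q.2 hq) le_rfl)

theorem hasDerivAt_of_est {f : ℝ → ℝ} {f' C l : ℝ}
    (h : ∀ l', |f l' - f l - (l' - l) * f'| ≤ C * √|l' - l| * |l' - l|) : HasDerivAt f f' l := by
  rw [hasDerivAt_iff_isLittleO, Asymptotics.isLittleO_iff]
  intro c hc
  have h1 : Tendsto (fun l' => C * √|l' - l|) (𝓝 l) (𝓝 (C * √|l - l|)) :=
    (by fun_prop : Continuous fun l' => C * √|l' - l|).tendsto l
  rw [sub_self, abs_zero, Real.sqrt_zero, mul_zero] at h1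
  filter_upwards [h1.eventually (gt_mem_nhds hc)] with l' hl'
  rw [Real.norm_eq_abs, Real.norm_eq_abs, smul_eq_mul]
  exact (h l').trans (mul_le_mul_of_nonneg_right hl'.le (abs_nonneg _))

variable {a φ φ' : ℝ → ℝ} {K z r₁ : ℝ} {F F₁ W W₁ : ℝ → ℝ → ℝ}

theorem dAt {f f' : ℝ → ℝ} (h : ∀ t, 0 ≤ t → HasDerivWithinAt f (f' t) (Ici 0) t) {t : ℝ}
    (ht : 0 < t) : HasDerivAt f (f' t) t := (h t ht.le).hasDerivAt (Ici_mem_nhds ht)

theorem signs (h : FanData a (fun _ => 1) φ φ' K) (f : FanSol a (fun _ => 1) φ φ' z F F₁ W W₁)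
    (l : ℝ) {t : ℝ} (ht : 0 ≤ t) : 1 ≤ W₁ l t ∧ t ≤ W l t ∧ W l t ≤ t * W₁ l t := by
  have dW : ∀ t, 0 ≤ t → HasDerivWithinAt (W l) (W₁ l t) (Ici 0) t := fun t ht => by
    have := f.dW l t ht
    rwa [one_mul] at this
  have dW₁ := f.dW₁ l
  have hc0 : ∀ t, 0 ≤ t → 0 ≤ a t * φ' (F l t) := fun t ht => mul_nonneg (h.a0 t ht) (h.φ'0 _)
  -- the product is nonnegative
  have hm : ∀ t, 0 ≤ t → 0 ≤ W l t * W₁ l t := by
    have h1 : MonotoneOn (fun t => W l t * W₁ l t) (Ici 0) := by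
      refine mono_Ici (fun t ht => (dW t ht).mul (dW₁ t ht)) fun t ht => ?_
      have e : W₁ l t * W₁ l t + W l t * (a t * φ' (F l t) * W l t) =
          W₁ l t ^ 2 + (a t * φ' (F l t)) * W l t ^ 2 := by ring
      rw [e]
      have := hc0 t ht
      positivity
    intro t ht
    have h2 := h1 zmem ht ht
    simp only [f.W0, zero_mul] at h2
    exact h2
  have hsq : ∀ t, 0 ≤ t → 1 ≤ W₁ l t ^ 2 := by
    have h1 : MonotoneOn (fun t => W₁ l t ^ 2) (Ici 0) := by
      refine mono_Ici (fun t ht => (dW₁ t ht).pow 2) fun t ht => ?_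
      have e : (2 : ℕ) * W₁ l t ^ (2 - 1) * (a t * φ' (F l t) * W l t) =
          2 * (a t * φ' (F l t)) * (W l t * W₁ l t) := by
        push_cast
        ring
      rw [e]
      have h2 := hc0 t ht
      have h3 := hm t ht
      positivity
    intro t ht
    have h2 := h1 zmem ht ht
    simp only [f.W₁0, one_pow] at h2
    exact h2
  have hpos : ∀ t, 0 ≤ t → 0 < W₁ l t := by
    intro t ht
    by_contra hneg
    rw [not_lt] at hneg
    have hcont : ContinuousOn (W₁ l) (Icc 0 t) := fun s hs =>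
      ((dW₁ s hs.1).continuousWithinAt).mono fun x hx => hx.1
    have h2 : (0 : ℝ) ∈ W₁ l '' Icc 0 t := by
      refine intermediate_value_Icc' ht hcont ⟨hneg, ?_⟩
      rw [f.W₁0]
      exact zero_le_one
    obtain ⟨s, hs, hs0⟩ := h2
    have h3 := hsq s hs.1
    rw [hs0] at h3
    norm_num at h3
  have h1 : ∀ t, 0 ≤ t → 1 ≤ W₁ l t := fun t ht => by
    have := hsq t ht
    have := hpos t ht
    nlinarith
  have hWt : ∀ t, 0 ≤ t → t ≤ W l t := by
    have h2 : MonotoneOn (fun t => W l t - t) (Ici 0) := by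
      refine mono_Ici (fun t ht => (dW t ht).sub (hasDerivWithinAt_id t _)) fun t ht => ?_
      have := h1 t ht
      linarith
    intro t ht
    have h3 := h2 zmem ht ht
    simp only [f.W0, sub_zero] at h3
    linarith
  refine ⟨h1 t ht, hWt t ht, ?_⟩
  have h2 : MonotoneOn (fun t => t * W₁ l t - W l t) (Ici 0) := by
    refine mono_Ici (fun t ht => ((hasDerivWithinAt_id t _).mul (dW₁ t ht)).sub (dW t ht))
      fun t ht => ?_
    have e : 1 * W₁ l t + id t * (a t * φ' (F l t) * W l t) - W₁ l t =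
        (t * W l t) * (a t * φ' (F l t)) := by
      simp only [id]
      ring
    rw [e]
    have h3 := hc0 t ht
    have h4 := hWt t ht
    have h5 : 0 ≤ W l t := ht.trans h4
    positivity
  have h3 := h2 zmem ht ht
  simp only [f.W0, zero_mul, sub_zero] at h3
  linarith

/-- **the family of radial solutions of a fan** -/
theorem FanSol.fan (h : FanData a (fun _ => 1) φ φ' K)
    (f : FanSol a (fun _ => 1) φ φ' z F F₁ W W₁)
    (haz : ∀ t, t ≤ r₁ → a t = 0) (ha : ∀ t, 0 ≤ a t) (hr₁ : 0 < r₁) :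
    Fan z r₁ (fun l r => F l r / r) (fun l r => F l r - r * F₁ l r) (fun l r => W l r / r)
      (fun l r => W l r - r * W₁ l r) (fun r p => if 0 < r then a r * φ (r * p) / r else 0) := by
  have dF : ∀ l t, 0 ≤ t → HasDerivWithinAt (F l) (F₁ l t) (Ici 0) t := fun l t ht => by
    have := f.dF l t ht
    rwa [one_mul] at this
  have dW : ∀ l t, 0 ≤ t → HasDerivWithinAt (W l) (W₁ l t) (Ici 0) t := fun l t ht => by
    have := f.dW l t ht
    rwa [one_mul] at this
  choose C hC using f.est h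
  have hmem : ∀ t : ℝ, 0 < t → t ∈ Icc 0 t := fun t ht => ⟨ht.le, le_rfl⟩
  have lF : ∀ l t, 0 < t → HasDerivAt (fun l => F l t) (W l t) l := fun l t ht =>
    hasDerivAt_of_est fun l' => (hC t).dF l l' t (hmem t ht)
  have lF₁ : ∀ l t, 0 < t → HasDerivAt (fun l => F₁ l t) (W₁ l t) l := fun l t ht =>
    hasDerivAt_of_est fun l' => (hC t).dF₁ l l' t (hmem t ht)
  have cF : ContinuousOn (fun q : ℝ × ℝ => F q.1 q.2) HP := by
    refine cont2 (fun l t ht => (dAt (dF l) ht).continuousAt) fun N => ⟨C N, fun l l' t ht => ?_⟩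
    have h1 := (hC N).lF l l' t ht
    have h2 : 0 ≤ C N * √|l' - l| := mul_nonneg (hC N).C0 (Real.sqrt_nonneg _)
    linarith
  have cF₁ : ContinuousOn (fun q : ℝ × ℝ => F₁ q.1 q.2) HP := by
    refine cont2 (fun l t ht => (dAt (f.dF₁ l) ht).continuousAt) fun N =>
      ⟨C N, fun l l' t ht => ?_⟩
    have h1 := (hC N).lF₁ l l' t ht
    have h2 : 0 ≤ C N * √|l' - l| := mul_nonneg (hC N).C0 (Real.sqrt_nonneg _)
    linarith
  have cW : ContinuousOn (fun q : ℝ × ℝ => W q.1 q.2) HP := by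
    refine cont2 (fun l t ht => (dAt (dW l) ht).continuousAt) fun N => ⟨C N, fun l l' t ht => ?_⟩
    have h1 := (hC N).lW l l' t ht
    have h2 : 0 ≤ C N * |l' - l| := mul_nonneg (hC N).C0 (abs_nonneg _)
    linarith
  have cW₁ : ContinuousOn (fun q : ℝ × ℝ => W₁ q.1 q.2) HP := by
    refine cont2 (fun l t ht => (dAt (f.dW₁ l) ht).continuousAt) fun N =>
      ⟨C N, fun l l' t ht => ?_⟩
    have h1 := (hC N).lW₁ l l' t ht
    have h2 : 0 ≤ C N * |l' - l| := mul_nonneg (hC N).C0 (abs_nonneg _)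
    linarith
  have c2 : ContinuousOn (fun q : ℝ × ℝ => q.2) HP := continuous_snd.continuousOn
  have hne : ∀ q ∈ HP, q.2 ≠ 0 := fun q hq => (show 0 < q.2 from hq).ne'
  have hne2 : ∀ q ∈ HP, q.2 ^ 2 ≠ 0 := fun q hq => pow_ne_zero 2 (hne q hq)
  have hφc : Continuous φ := continuous_iff_continuousAt.mpr fun x => (h.dφ x).continuousAt
  have hRt : ∀ l r, 0 < r → (if 0 < r then a r * φ (r * (F l r / r)) / r else 0) =
      a r * φ (F l r) / r := fun l r hr => by
    rw [if_pos hr, mul_div_cancel₀ _ hr.ne']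
  refine ⟨⟨?_, ?_, ?_, ?_⟩, ⟨?_, ?_, ?_, ?_⟩, ?_, ?_, ?_, ?_, ?_, ?_, ?_⟩
  · intro l r hr
    exact (lF l r hr).div_const r
  · intro l r hr
    have hr0 : 0 < r := hr
    have h1 := (dAt (dF l) hr0).div (hasDerivAt_id r) hr0.ne'
    refine h1.congr_deriv ?_
    simp only [id, mul_one]
    field_simp
    ring
  · exact cW.div c2 hne
  · exact ((cF.sub (c2.mul cF₁)).div (c2.pow 2) hne2).neg
  · intro l r hr
    exact (lF l r hr).sub ((lF₁ l r hr).const_mul r)
  · intro l r hr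
    have hr0 : 0 < r := hr
    have h1 := (dAt (dF l) hr0).sub ((hasDerivAt_id r).mul (dAt (f.dF₁ l) hr0))
    refine h1.congr_deriv ?_
    rw [hRt l r hr0]
    simp only [id]
    field_simp
    ring
  · exact cW.sub (c2.mul cW₁)
  · have h1 : ContinuousOn (fun q : ℝ × ℝ => -(q.2 ^ 2 * (a q.2 * φ (F q.1 q.2) / q.2))) HP := by
      refine ((c2.pow 2).mul ?_).neg
      refine ContinuousOn.div ?_ c2 hne
      exact (h.ac.comp_continuousOn c2).mul (hφc.comp_continuousOn cF)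
    refine h1.congr fun q hq => ?_
    simp only
    rw [hRt q.1 q.2 hq]
  · intro l r hr
    rw [le_div_iff₀ hr, one_mul]
    exact (signs h f l hr.le).2.1
  · intro l r hr
    have := (signs h f l hr.le).2.2
    linarith
  · intro r p
    split_ifs with hr
    · exact div_nonneg (mul_nonneg (ha r) (h.φ0 _)) hr.le
    · exact le_rfl
  · intro l r hr
    have h2 : MonotoneOn (fun t => -(F l t - t * F₁ l t)) (Ici 0) := by
      refine mono_Ici (fun t ht => ((dF l t ht).sub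
        ((hasDerivWithinAt_id t _).mul (f.dF₁ l t ht))).neg) fun t ht => ?_
      have e : -(F₁ l t - (1 * F₁ l t + id t * (a t * φ (F l t)))) = t * (a t * φ (F l t)) := by
        simp only [id]
        ring
      rw [e]
      exact mul_nonneg ht (mul_nonneg (ha t) (h.φ0 _))
    have h3 := h2 zmem hr.le hr.le
    simp only [f.F0, zero_mul, sub_zero] at h3
    linarith
  · intro l r hr hr1
    have h2 := const_Icc (f := fun t => F l t - t * F₁ l t)
      (f' := fun t => F₁ l t - (1 * F₁ l t + id t * (a t * φ (F l t)))) (r₁ := r₁)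
      (fun t ht => (dF l t ht).sub ((hasDerivWithinAt_id t _).mul (f.dF₁ l t ht)))
      (fun t ht => by
        rw [haz t ht.2.le]
        ring) r ⟨hr.le, hr1⟩
    simp only [f.F0, zero_mul, sub_zero] at h2
    exact h2
  · intro l r hr hr1
    have h2 := const_Icc (f := fun t => W l t - t * W₁ l t)
      (f' := fun t => W₁ l t - (1 * W₁ l t + id t * (a t * φ' (F l t) * W l t))) (r₁ := r₁)
      (fun t ht => (dW l t ht).sub ((hasDerivWithinAt_id t _).mul (f.dW₁ l t ht)))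
      (fun t ht => by
        rw [haz t ht.2.le]
        ring) r ⟨hr.le, hr1⟩
    simp only [f.W0, zero_mul, sub_zero] at h2
    exact h2
  · intro r t hr
    split_ifs with hr0
    · rw [haz r hr, zero_mul, zero_div]
    · rfl

end Pool.Agent.TF.Rad

end

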