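import Mathlib
import Pool.Agent.Lib.MP_9cf0c9_mp.Tr.AllEqual
import Pool.Agent.Lib.MP_9cf0c9_mp.Tr.BochOK23
import Pool.Agent.Lib.MP_9cf0c9_mp.Tr.RadExists
import Pool.Agent.Lib.MP_9cf0c9_mp.Tr.TrialOK61
/-! Equal charges: assembly. -/

set_option linter.unusedSectionVars false

set_option linter.unusedVariables false

set_option linter.style.haveILetI false

namespace Pool.Agent
end Pool.Agent

namespace Pool.Agent.TF.Grd

open MeasureTheory Set Metric Filter Topology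

open scoped ENNReal NNReal RealInnerProductSpace Gradient

variable {ι : Type*} [Fintype ι]

variable {z : ι → ℝ} {R : ι → X} {φ₀ q : ℝ} {ρ : X → ℝ}

/-- **trial potentials with second variation at least `-δ` for equal positive charges** -/
theorem exists_trial (hz : ∀ i, z i = q) (hq : 0 < q) (hR : Function.Injective R) (hφ : 0 < φ₀)
    (hρ : TC ρ) (heq : ∀ x, ρ x = tf (Vpt z R x - pot ρ x - φ₀)) {δ : ℝ} (hδ : 0 < δ) :
    ∃ (S : Set X) (k : X → ℝ) (k' : X → X), S.Finite ∧ TrialK S k k' ∧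
      -δ ≤ Vtr φ₀ z R ρ k ((8 * Real.pi)⁻¹ * ∫ x, ‖k' x‖ ^ 2) := by
  have hz0 : ∀ i, 0 ≤ z i := fun i => (hz i).symm ▸ hq.le
  obtain ⟨H, h⟩ := exists_hessSol hz0 R hφ hρ heq
  refine exists_trial_of hz hq hR hφ hρ heq h (fun A r₁ hA hr => ?_)
    (fun ε G₁ s s₁ s₂ e hε hr => ?_) (fun ε G₁ c s s₁ s₂ e hε hr hc => ?_) hδ
  · obtain ⟨s, s₁, s₂, e, h1, -, h2⟩ := Rad.exists_radFn hq (hq.le.trans hA) hr
    exact ⟨_, s, s₁, s₂, e, h1, h2⟩
  · exact boch_ok hz0 hφ hρ heq h hε hr fun a η C h1 h2 h3 =>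
      weak_hess hz0 R hφ hρ heq h a h1 h2 h3
  · exact ⟨_, trialOK hz hq hR hφ hρ heq h hε hr hc⟩

end Pool.Agent.TF.Grd

namespace Pool.Agent.Lib.MP_9cf0c9_mp

open MeasureTheory Set Filter Topology Pool.Agent

/-- **equal charges**: differentiable energy, nonincreasing pressure, convexity in the volume,
nonnegative reciprocal compressibility -/
theorem equal_charges {k : ℕ} (z : Fin k → ℝ) (hz : ∀ j, 0 ≤ z j) (heq : ∀ i j, z i = z j)
    (R : Fin k → E3) (hR : Function.Injective R) (lam : ℝ) (hlam : 0 ≤ lam) :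
    (∀ l : ℝ, 0 < l → DifferentiableAt ℝ (dilated z R lam) l) ∧
      AntitoneOn (pressure z R lam) (Ioi 0) ∧
      ConvexOn ℝ (Ioi 0) (fun v : ℝ => dilated z R lam (v ^ (1 / 3 : ℝ))) ∧
      ∀ l : ℝ, 0 < l → DifferentiableAt ℝ (pressure z R lam) l →
        0 ≤ -(l / 3) * deriv (pressure z R lam) l :=
  allEqual_of (fun z q hq hz φ₀ hφ R' hR' ρ hρ he η hη =>
    TF.Grd.exists_trial hz hq hR' hφ hρ he hη) z hz heq R hR lam hlam

end Pool.Agent.Lib.MP_9cf0c9_mp
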