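import Mathlib
import Pool.Agent.Lib.MP_9cf0c9_mp.Tr.ErrA
/-! Convexity of the energy at fixed mass from large chemical potentials only, on a half line of
volumes. -/

set_option linter.unusedSectionVars false

set_option linter.unusedVariables false

set_option linter.style.haveILetI false

namespace Pool.Agent
end Pool.Agent

namespace Pool.Agent.TF

open MeasureTheory Set Metric Filter Topology

open scoped ENNReal NNReal RealInnerProductSpace Gradient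

/-- convexity on a half line from local quadratic supports -/
theorem convexOn_of_support_Ioi {f : ℝ → ℝ} {v₀ : ℝ} (husc : UpperSemicontinuousOn f (Ioi v₀))
    (h : ∀ x, v₀ < x → ∀ ε, 0 < ε → ∃ a δ, 0 < δ ∧ ∀ t, |t| < δ →
      f x + a * t - ε * t ^ 2 ≤ f (x + t)) :
    ConvexOn ℝ (Ioi v₀) f := by
  have h1 : ConvexOn ℝ (Ioi 0) fun x => f (v₀ + x) := by
    refine convexOn_of_support ?_ fun x hx ε hε => ?_
    · intro x hx
      have hx' : v₀ + x ∈ Ioi v₀ := by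
        have : (0 : ℝ) < x := hx
        simpa using this
      have h2 : Tendsto (fun x => v₀ + x) (𝓝[Ioi 0] x) (𝓝[Ioi v₀] (v₀ + x)) := by
        refine tendsto_nhdsWithin_of_tendsto_nhds_of_eventually_within _ ?_ ?_
        · exact ((by fun_prop : Continuous fun x : ℝ => v₀ + x).tendsto x).mono_left
            nhdsWithin_le_nhds
        · filter_upwards [self_mem_nhdsWithin] with y hy
          have : (0 : ℝ) < y := hy
          simpa using this
      intro c hc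
      exact h2.eventually (husc (v₀ + x) hx' c hc)
    · obtain ⟨a, δ, hδ, hs⟩ := h (v₀ + x) (by linarith) ε hε
      refine ⟨a, δ, hδ, fun t ht => ?_⟩
      rw [← add_assoc]
      exact hs t ht
  refine ⟨convex_Ioi v₀, fun x hx y hy a b ha hb hab => ?_⟩
  have hx' : v₀ < x := hx
  have hy' : v₀ < y := hy
  have h2 := h1.2 (show x - v₀ ∈ Ioi 0 from sub_pos.mpr hx')
    (show y - v₀ ∈ Ioi 0 from sub_pos.mpr hy') ha hb hab
  simp only [smul_eq_mul] at h2 ⊢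
  have e1 : v₀ + (x - v₀) = x := by ring
  have e2 : v₀ + (y - v₀) = y := by ring
  have e3 : v₀ + (a * (x - v₀) + b * (y - v₀)) = a * x + b * y := by
    have : b = 1 - a := by linarith
    subst this
    ring
  rw [e1, e2, e3] at h2
  exact h2

section dim3

variable {V : Type*} [NormedAddCommGroup V] [InnerProductSpace ℝ V] [FiniteDimensional ℝ V]
  [MeasurableSpace V] [BorelSpace V]

variable {ι : Type*} [Fintype ι]

variable [hd : Fact (Module.finrank ℝ V = 3)]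

/-- local quadratic supports of the energy under dilation, at every scale `c` with `v₀ < c ^ 3`,
give convexity in the volume on `(v₀, ∞)` -/
theorem GTF_convex_of_support_Ioi {φ₀ : ℝ} (hφ : 0 < φ₀) {z : ι → ℝ} (hz : ∀ i, 0 ≤ z i)
    (R : ι → V) {v₀ : ℝ} (hv₀ : 0 ≤ v₀)
    (h : ∀ c : ℝ, 0 < c → v₀ < c ^ 3 → ∀ ε : ℝ, 0 < ε → ∃ a δ : ℝ, 0 < δ ∧ ∀ t : ℝ, |t| < δ →
      GTF φ₀ z (fun i => c • R i) + a * t - ε * t ^ 2 ≤
        GTF φ₀ z (fun i => (1 + t) ^ (1 / 3 : ℝ) • c • R i)) :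
    ConvexOn ℝ (Ioi v₀) fun v : ℝ => GTF φ₀ z fun i => v ^ (1 / 3 : ℝ) • R i := by
  refine convexOn_of_support_Ioi ((GTF_usc hφ hz R).mono (Ioi_subset_Ioi hv₀)) fun v hv' ε hε => ?_
  have hv : 0 < v := hv₀.trans_lt hv'
  have hl0 : 0 < v ^ (1 / 3 : ℝ) := Real.rpow_pos_of_pos hv _
  have hl3 : (v ^ (1 / 3 : ℝ)) ^ 3 = v := by
    rw [← Real.rpow_natCast, ← Real.rpow_mul hv.le]
    norm_num
  obtain ⟨a, δ, hδ, hsup⟩ := h (v ^ (1 / 3 : ℝ)) hl0 (by rwa [hl3]) (ε * v ^ 2) (by positivity)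
  refine ⟨a / v, min (v * δ) v, lt_min (by positivity) hv, fun t ht => ?_⟩
  have ht1 : |t| < v * δ := lt_of_lt_of_le ht (min_le_left _ _)
  have ht2 : |t| < v := lt_of_lt_of_le ht (min_le_right _ _)
  have h1 : |t / v| < δ := by
    rw [abs_div, abs_of_pos hv, div_lt_iff₀ hv]
    linarith
  have h2 := hsup (t / v) h1
  have h3 : (fun i => (1 + t / v) ^ (1 / 3 : ℝ) • v ^ (1 / 3 : ℝ) • R i) =
      fun i => (v + t) ^ (1 / 3 : ℝ) • R i := by
    funext i
    have h4 : 0 ≤ 1 + t / v := by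
      have h5 : -1 < t / v := by
        rw [lt_div_iff₀ hv]
        have := neg_abs_le t
        linarith
      linarith
    rw [smul_smul, ← Real.mul_rpow h4 hv.le]
    congr 2
    field_simp
  rw [h3] at h2
  have h6 : a * (t / v) = a / v * t := by ring
  have h7 : ε * v ^ 2 * (t / v) ^ 2 = ε * t ^ 2 := by field_simp
  rw [h6, h7] at h2
  exact h2

/-- If some density of mass at least `lam` minimises the functional with chemical potential `φc`,
then the energy at mass `lam` is the supremum of `GTF φ₀ - φ₀ lam` over `φ₀ ≥ φc`. -/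
theorem exists_GTF_near_ge {z : ι → ℝ} (hz : ∀ i, 0 ≤ z i) (R : ι → V) {lam : ℝ} (hl : 0 < lam)
    {φc : ℝ} (hφc : 0 < φc) {ρ : V → ℝ} (hρ : TC ρ)
    (hmin : ∀ σ : V → ℝ, TC σ → Ept φc z R ρ ≤ Ept φc z R σ) (hm : lam ≤ ∫ x, ρ x)
    {η : ℝ} (hη : 0 < η) : ∃ φ₀, φc ≤ φ₀ ∧ eTF z R lam ≤ GTF φ₀ z R - φ₀ * lam + η := by
  obtain ⟨p, hp, hslope⟩ := exists_slope (eTF_convex hz R)
    (C := Unuc z R + 1) (fun y hy => eTF_upper hz _ hy) hl
  have hη' : 0 < η / lam := div_pos hη hl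
  rcases le_or_gt φc p with hpc | hpc
  · refine ⟨p + η / lam, by linarith, ?_⟩
    have h1 : eTF z R lam + p * lam ≤ GTF (p + η / lam) z R := by
      refine le_GTF R fun σ hσ => ?_
      have hy0 : 0 ≤ ∫ x, σ x := integral_nonneg hσ.nonneg
      have h2 := eTF_le hz R hσ
      have h3 := hslope (∫ x, σ x) hy0
      rw [Ept_eq]
      have h5 : 0 ≤ η / lam * ∫ x, σ x := mul_nonneg hη'.le hy0
      nlinarith
    have h2 : (p + η / lam) * lam = p * lam + η := by field_simp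
    rw [h2]
    linarith
  · refine ⟨φc, le_rfl, ?_⟩
    set M : ℝ := ∫ x, ρ x with hM
    have hM0 : 0 ≤ M := integral_nonneg hρ.nonneg
    have h1 := eTF_le hz R hρ
    have h2 := hslope M hM0
    have h3 : GTF φc z R = Ept 0 z R ρ + φc * M := by
      rw [GTF_eq hφc hz R hρ hmin, Ept_eq]
    have h4 := GTF_sub_le hφc hz R hl.le
    have h5 : M = lam := by
      have h6 : (φc - p) * (M - lam) ≤ 0 := by nlinarith
      by_contra hne
      have h7 : lam < M := lt_of_le_of_ne hm (Ne.symm hne)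
      have h8 : 0 < (φc - p) * (M - lam) := mul_pos (by linarith) (by linarith)
      linarith
    rw [← hM, h5] at h1
    rw [h3, h5]
    linarith

/-- convexity in the volume on `J` at every chemical potential `≥ φc` gives it at every fixed mass
which is at most the mass of the solution of chemical potential `φc` -/
theorem eTF_convex_volume_ge {z : ι → ℝ} (hz : ∀ i, 0 ≤ z i) (R : ι → V) {v₀ : ℝ} (hv₀ : 0 ≤ v₀)
    {φc : ℝ} (hφc : 0 < φc)
    (h : ∀ φ₀ : ℝ, φc ≤ φ₀ →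
      ConvexOn ℝ (Ioi v₀) fun v : ℝ => GTF φ₀ z fun i => v ^ (1 / 3 : ℝ) • R i)
    {lam : ℝ} (hl : 0 ≤ lam)
    (hN : ∀ v : ℝ, v₀ < v → ∃ ρ : V → ℝ, TC ρ ∧
      (∀ σ : V → ℝ, TC σ → Ept φc z (fun i => v ^ (1 / 3 : ℝ) • R i) ρ ≤
        Ept φc z (fun i => v ^ (1 / 3 : ℝ) • R i) σ) ∧ lam ≤ ∫ x, ρ x) :
    ConvexOn ℝ (Ioi v₀) fun v : ℝ => eTF z (fun i => v ^ (1 / 3 : ℝ) • R i) lam := by
  rcases hl.eq_or_lt with h0 | h0
  · subst h0
    have hU : ∀ v : ℝ, 0 < v → eTF z (fun i => v ^ (1 / 3 : ℝ) • R i) 0 =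
        Unuc z R * v ^ (-(1 / 3) : ℝ) := by
      intro v hv
      have hv3 : 0 < v ^ (1 / 3 : ℝ) := Real.rpow_pos_of_pos hv _
      obtain ⟨τ, hτ, hmτ⟩ := exists_mass (V := V) (le_refl (0 : ℝ))
      have hval : Unuc z (fun i => v ^ (1 / 3 : ℝ) • R i) = Unuc z R * v ^ (-(1 / 3) : ℝ) := by
        rw [Unuc_smul R hv3, Real.rpow_neg hv.le]
        ring
      refine le_antisymm ?_ ?_
      · have h1 := eTF_le hz (fun i => v ^ (1 / 3 : ℝ) • R i) hτ
        rw [hmτ, Ept_zero_mass z _ hτ hmτ, hval] at h1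
        exact h1
      · refine le_csInf (SS_nonempty hz _ le_rfl) ?_
        rintro t ⟨σ, hσ, hm, rfl⟩
        rw [Ept_zero_mass z _ hσ hm, hval]
    have hconv : ConvexOn ℝ (Ioi 0) fun v : ℝ => Unuc z R * v ^ (-(1 / 3) : ℝ) := by
      have h1 : ConvexOn ℝ (Ioi 0) fun v : ℝ => v ^ (-(1 / 3) : ℝ) :=
        convexOn_rpow_neg (by norm_num)
      simpa only [smul_eq_mul] using h1.smul (Unuc_nonneg hz R)
    exact (hconv.congr fun v hv => (hU v hv).symm).subset (Ioi_subset_Ioi hv₀) (convex_Ioi v₀)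
  · refine ⟨convex_Ioi v₀, fun x hx y hy a b ha hb hab => ?_⟩
    have hxy : a • x + b • y ∈ Ioi v₀ := convex_Ioi v₀ hx hy ha hb hab
    simp only [smul_eq_mul] at hxy ⊢
    refine le_of_forall_pos_le_add fun η hη => ?_
    obtain ⟨ρ, hρ, hmin, hm⟩ := hN _ hxy
    obtain ⟨φ₀, hφ, h1⟩ := exists_GTF_near_ge hz (fun i => (a * x + b * y) ^ (1 / 3 : ℝ) • R i) h0
      hφc hρ hmin hm hη
    have hφ0 : 0 < φ₀ := hφc.trans_le hφ
    have h2 := (h φ₀ hφ).2 hx hy ha hb hab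
    simp only [smul_eq_mul] at h2
    have h3 := GTF_sub_le hφ0 hz (fun i => x ^ (1 / 3 : ℝ) • R i) hl
    have h4 := GTF_sub_le hφ0 hz (fun i => y ^ (1 / 3 : ℝ) • R i) hl
    have h5 := mul_le_mul_of_nonneg_left h3 ha
    have h6 := mul_le_mul_of_nonneg_left h4 hb
    have h7 : φ₀ * lam = a * (φ₀ * lam) + b * (φ₀ * lam) := by rw [← add_mul, hab, one_mul]
    linarith

end dim3

theorem eTF_push' {V : Type*} [NormedAddCommGroup V] [InnerProductSpace ℝ V]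
    [FiniteDimensional ℝ V] [MeasurableSpace V] [BorelSpace V]
    {W : Type*} [NormedAddCommGroup W] [InnerProductSpace ℝ W] [FiniteDimensional ℝ W]
    [MeasurableSpace W] [BorelSpace W] {ι : Type*} [Fintype ι]
    (L : V ≃ₗᵢ[ℝ] W) (z : ι → ℝ) (R : ι → V) (lam : ℝ) :
    eTF z (fun i => L (R i)) lam = eTF z R lam := by
  unfold eTF
  congr 1
  ext t
  constructor
  · rintro ⟨σ, hσ, hm, ht⟩
    have h1 : TC (fun x => σ (L x)) := by
      have := hσ.push L.symm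
      simpa using this
    refine ⟨fun x => σ (L x), h1, ?_, ?_⟩
    · have h2 := integral_push L (fun x => σ (L x))
      simp only [L.apply_symm_apply] at h2
      rw [← h2, hm]
    · have h2 := Ept_push L 0 z R (fun x => σ (L x))
      simp only [L.apply_symm_apply] at h2
      rw [← h2, ht]
  · rintro ⟨σ, hσ, hm, ht⟩
    refine ⟨fun y => σ (L.symm y), hσ.push L, ?_, ?_⟩
    · rw [integral_push L σ, hm]
    · rw [Ept_push, ht]

/-- Convexity in the volume on `(v₀, ∞)` from trial functions, at every scale `c` with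
`v₀ < c ^ 3`, whose second variation is at least `-η` for every `η > 0`. -/
theorem GTF_convex_of_trial_err_Ioi {ι : Type*} [Fintype ι] {z : ι → ℝ} (hz : ∀ i, 0 ≤ z i)
    (R : ι → X) {φ₀ : ℝ} (hφ : 0 < φ₀) {v₀ : ℝ} (hv₀ : 0 ≤ v₀)
    (h : ∀ c : ℝ, 0 < c → v₀ < c ^ 3 → ∀ ρ : X → ℝ, TC ρ →
      (∀ x, ρ x = tf (Vpt z (fun i => c • R i) x - pot ρ x - φ₀)) → ∀ η : ℝ, 0 < η →
      ∃ (S : Set X) (k : X → ℝ) (k' : X → X), S.Finite ∧ TrialK S k k' ∧
        -η ≤ Vtr φ₀ z (fun i => c • R i) ρ k ((8 * Real.pi)⁻¹ * ∫ x, ‖k' x‖ ^ 2)) :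
    ConvexOn ℝ (Ioi v₀) fun v : ℝ => GTF φ₀ z fun i => v ^ (1 / 3 : ℝ) • R i := by
  refine GTF_convex_of_support_Ioi hφ hz R hv₀ fun c hc hcv ε hε => ?_
  obtain ⟨ρ, hρ, -, heq⟩ := exists_point_sol hz (fun i => c • R i) hφ
  obtain ⟨S, k, k', hS, hk, hV⟩ := h c hc hcv ρ hρ heq (ε / 2) (by positivity)
  obtain ⟨B, hB⟩ := hk.bdd
  obtain ⟨a, ha⟩ := support_of_Vtr_err hz (fun i => c • R i) hφ hρ heq hk.cont.measurable hB
    (fun σ τ hσ hτ c => thomson_mul hS hk hσ hτ c) (by positivity) hV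
  obtain ⟨δ, hδ, hsup⟩ := ha ε (by linarith)
  exact ⟨a, δ, hδ, hsup⟩

end Pool.Agent.TF

namespace Pool.Agent.Lib.MP_9cf0c9_mp

open MeasureTheory Set Filter Topology Pool.Agent

/-- convexity in the volume on `(L³, ∞)` gives a nonincreasing pressure on `(L, ∞)` -/
theorem pressure_anti_Ioi {k : ℕ} {z : Fin k → ℝ} (hz : ∀ j, 0 ≤ z j) (R : Fin k → E3)
    {lam : ℝ} (hlam : 0 ≤ lam) {L : ℝ} (hL : 0 ≤ L)
    (hconv : ConvexOn ℝ (Ioi (L ^ 3)) fun v : ℝ => dilated z R lam (v ^ (1 / 3 : ℝ))) :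
    AntitoneOn (pressure z R lam) (Ioi L) := by
  have hroot : ∀ x : ℝ, 0 < x → (x ^ 3) ^ (1 / 3 : ℝ) = x := by
    intro x hx
    rw [← Real.rpow_natCast, ← Real.rpow_mul hx.le]
    norm_num
  have hder : ∀ x : ℝ, 0 < x → HasDerivAt (fun v : ℝ => dilated z R lam (v ^ (1 / 3 : ℝ)))
      (-pressure z R lam x) (x ^ 3) := by
    intro x hx0
    have h1 : HasDerivAt (fun v : ℝ => v ^ (1 / 3 : ℝ)) (1 / 3 * (x ^ 3) ^ ((1 / 3 : ℝ) - 1)) (x ^ 3) :=
      Real.hasDerivAt_rpow_const (Or.inl (by positivity))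
    have h2 : (x ^ 3) ^ ((1 / 3 : ℝ) - 1) = (x ^ 2)⁻¹ := by
      rw [← Real.rpow_natCast, ← Real.rpow_mul hx0.le, ← Real.rpow_natCast, ← Real.rpow_neg hx0.le]
      norm_num
    rw [h2] at h1
    have h3 : HasDerivAt (dilated z R lam) (deriv (dilated z R lam) x) ((x ^ 3) ^ (1 / 3 : ℝ)) := by
      rw [hroot x hx0]
      exact (dilated_differentiable hz R hlam hx0).hasDerivAt
    have h4 := HasDerivAt.comp (x ^ 3) h3 h1
    refine h4.congr_deriv ?_
    unfold pressure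
    field_simp
  intro x hx y hy hxy
  rcases hxy.eq_or_lt with h | h
  · rw [h]
  have hxL : L < x := hx
  have hyL : L < y := hy
  have hx0 : 0 < x := hL.trans_lt hxL
  have hy0 : 0 < y := hL.trans_lt hyL
  have h3 : x ^ 3 < y ^ 3 := pow_lt_pow_left₀ h hx0.le (by norm_num)
  have hx3 : x ^ 3 ∈ Ioi (L ^ 3) := pow_lt_pow_left₀ hxL hL (by norm_num)
  have hy3 : y ^ 3 ∈ Ioi (L ^ 3) := pow_lt_pow_left₀ hyL hL (by norm_num)
  have h1 := hconv.deriv_le_slope hx3 hy3 h3 (hder x hx0).differentiableAt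
  have h2 := hconv.slope_le_deriv hx3 hy3 h3 (hder y hy0).differentiableAt
  have h4 := h1.trans h2
  rw [(hder x hx0).deriv, (hder y hy0).deriv] at h4
  linarith

/-- **the target on `(L, ∞)`** from convexity at the chemical potentials `≥ φc` and a lower bound
of the mass at `φc`, in the model space. -/
theorem target_of_GTF_levels {k : ℕ} (z : Fin k → ℝ) (hz : ∀ j, 0 ≤ z j) (R : Fin k → E3)
    (hR : Function.Injective R) {lam : ℝ} (hlam : 0 ≤ lam) {L φc : ℝ} (hL : 0 ≤ L) (hφc : 0 < φc)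
    (hG : ∀ φ₀ : ℝ, φc ≤ φ₀ → ∀ R' : Fin k → TF.X, Function.Injective R' →
      (∀ i j, ‖R' i - R' j‖ = ‖R i - R j‖) →
      ConvexOn ℝ (Ioi (L ^ 3)) fun v : ℝ => TF.GTF φ₀ z fun i => v ^ (1 / 3 : ℝ) • R' i)
    (hN : ∀ c : ℝ, L < c → ∀ R' : Fin k → TF.X, Function.Injective R' →
      (∀ i j, ‖R' i - R' j‖ = c * ‖R i - R j‖) →
      ∀ ρ : TF.X → ℝ, TF.TC ρ → (∀ x, ρ x = TF.tf (TF.Vpt z R' x - TF.pot ρ x - φc)) →
      lam ≤ ∫ x, ρ x) :
    ConvexOn ℝ (Ioi (L ^ 3)) (fun v : ℝ => dilated z R lam (v ^ (1 / 3 : ℝ))) ∧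
      AntitoneOn (pressure z R lam) (Ioi L) ∧
      ∀ l : ℝ, L < l → DifferentiableAt ℝ (pressure z R lam) l →
        0 ≤ -(l / 3) * deriv (pressure z R lam) l := by
  obtain ⟨e, he⟩ : ∃ e : E3, ‖e‖ = 1 := exists_norm_eq E3 zero_le_one
  obtain ⟨I, -⟩ := TF.exists_isom_X (V := E3) he
  have hL3 : 0 ≤ L ^ 3 := by positivity
  have hinj : ∀ c : ℝ, L < c → Function.Injective fun i => c • I (R i) := fun c hc i j hij =>
    hR (I.injective (smul_right_injective TF.X (hL.trans_lt hc).ne' hij))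
  have hdist : ∀ c : ℝ, L < c → ∀ i j, ‖c • I (R i) - c • I (R j)‖ = c * ‖R i - R j‖ := by
    intro c hc i j
    rw [← smul_sub, ← map_sub, norm_smul, LinearIsometryEquiv.norm_map,
      Real.norm_of_nonneg (hL.trans_lt hc).le]
  have hG' : ∀ φ₀ : ℝ, φc ≤ φ₀ →
      ConvexOn ℝ (Ioi (L ^ 3)) fun v : ℝ => TF.GTF φ₀ z fun i => v ^ (1 / 3 : ℝ) • I (R i) :=
    fun φ₀ hφ => hG φ₀ hφ (fun i => I (R i)) (fun i j hij => hR (I.injective hij)) fun i j => by
      rw [← map_sub, LinearIsometryEquiv.norm_map]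
  have hE := TF.eTF_convex_volume_ge hz (fun i => I (R i)) hL3 hφc hG' hlam fun v hv => by
    have hv0 : 0 < v := hL3.trans_lt hv
    have hc : 0 < v ^ (1 / 3 : ℝ) := Real.rpow_pos_of_pos hv0 _
    have hc3 : (v ^ (1 / 3 : ℝ)) ^ 3 = v := by
      rw [← Real.rpow_natCast, ← Real.rpow_mul hv0.le]
      norm_num
    have hLc : L < v ^ (1 / 3 : ℝ) := lt_of_pow_lt_pow_left₀ 3 hc.le (by rw [hc3]; exact hv)
    obtain ⟨ρ, hρ, -, heq⟩ := TF.exists_point_sol hz (fun i => v ^ (1 / 3 : ℝ) • I (R i)) hφc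
    exact ⟨ρ, hρ, fun σ hσ => TF.Ept_min hρ hσ (Eventually.of_forall heq),
      hN _ hLc _ (hinj _ hLc) (hdist _ hLc) ρ hρ heq⟩
  have hconv : ConvexOn ℝ (Ioi (L ^ 3)) fun v : ℝ => dilated z R lam (v ^ (1 / 3 : ℝ)) := by
    refine hE.congr fun v _ => ?_
    have h2 : (fun i => v ^ (1 / 3 : ℝ) • I (R i)) = fun i => I (v ^ (1 / 3 : ℝ) • R i) := by
      funext i
      rw [map_smul]
    unfold dilated
    beta_reduce
    rw [energy_eq, h2]
    exact TF.eTF_push' I z (fun i => v ^ (1 / 3 : ℝ) • R i) lam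
  have hanti := pressure_anti_Ioi hz R hlam hL hconv
  refine ⟨hconv, hanti, fun l hl hp => ?_⟩
  have hneg : deriv (pressure z R lam) l ≤ 0 :=
    nonpos_of_anti (Ioi_mem_nhds hl) hanti hp.hasDerivAt
  have hl0 : 0 < l := hL.trans_lt hl
  nlinarith

/-- **the target on `(L, ∞)`** from trial functions at the chemical potentials `≥ φc` and a lower
bound of the mass at `φc`. The positions `R'` are isometric copies of `c • R`, `c > L`. -/
theorem target_of_levels {k : ℕ} (z : Fin k → ℝ) (hz : ∀ j, 0 ≤ z j) (R : Fin k → E3)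
    (hR : Function.Injective R) {lam : ℝ} (hlam : 0 ≤ lam) {L φc : ℝ} (hL : 0 ≤ L) (hφc : 0 < φc)
    (hV : ∀ φ₀ : ℝ, φc ≤ φ₀ → ∀ c : ℝ, L < c → ∀ R' : Fin k → TF.X, Function.Injective R' →
      (∀ i j, ‖R' i - R' j‖ = c * ‖R i - R j‖) →
      ∀ ρ : TF.X → ℝ, TF.TC ρ → (∀ x, ρ x = TF.tf (TF.Vpt z R' x - TF.pot ρ x - φ₀)) →
      ∀ η : ℝ, 0 < η →
      ∃ (S : Set TF.X) (k : TF.X → ℝ) (k' : TF.X → TF.X), S.Finite ∧ TF.TrialK S k k' ∧
        -η ≤ TF.Vtr φ₀ z R' ρ k ((8 * Real.pi)⁻¹ * ∫ x, ‖k' x‖ ^ 2))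
    (hN : ∀ c : ℝ, L < c → ∀ R' : Fin k → TF.X, Function.Injective R' →
      (∀ i j, ‖R' i - R' j‖ = c * ‖R i - R j‖) →
      ∀ ρ : TF.X → ℝ, TF.TC ρ → (∀ x, ρ x = TF.tf (TF.Vpt z R' x - TF.pot ρ x - φc)) →
      lam ≤ ∫ x, ρ x) :
    ConvexOn ℝ (Ioi (L ^ 3)) (fun v : ℝ => dilated z R lam (v ^ (1 / 3 : ℝ))) ∧
      AntitoneOn (pressure z R lam) (Ioi L) ∧
      ∀ l : ℝ, L < l → DifferentiableAt ℝ (pressure z R lam) l →
        0 ≤ -(l / 3) * deriv (pressure z R lam) l := by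
  refine target_of_GTF_levels z hz R hR hlam hL hφc (fun φ₀ hφ R' hR' hd => ?_) hN
  refine TF.GTF_convex_of_trial_err_Ioi hz R' (hφc.trans_le hφ) (by positivity)
    fun c hc hc3 ρ hρ heq η hη => ?_
  refine hV φ₀ hφ c (lt_of_pow_lt_pow_left₀ 3 hc.le hc3) _
    (fun i j hij => hR' (smul_right_injective TF.X hc.ne' hij)) (fun i j => ?_) ρ hρ heq η hη
  rw [← smul_sub, norm_smul, Real.norm_of_nonneg hc.le, hd]

end Pool.Agent.Lib.MP_9cf0c9_mp
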