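import Mathlib
import Pool.Agent.Lib.MP_9cf0c9_mp.Tr.DisA
import Pool.Agent.Lib.MP_9cf0c9_mp.Tr.DisShell
import Pool.Agent.Lib.MP_9cf0c9_mp.Tr.EqualAll
import Pool.Agent.Lib.MP_9cf0c9_mp.Tr.LightGlue

section
/-! Nearly isolated ions: at large distances the clouds are separated and the shell densities are
nonnegative. -/

set_option linter.unusedSectionVars false

set_option linter.unusedVariables false

set_option linter.style.haveILetI false

namespace Pool.Agent.TF.Grd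
end Pool.Agent.TF.Grd

namespace Pool.Agent.TF.Dis

open MeasureTheory Set Metric Filter Topology Pool.Agent.TF.Grd

open scoped ENNReal NNReal RealInnerProductSpace Gradient

/-- **large distances** -/
theorem net_ok {ι : Type*} [Fintype ι] {z : ι → ℝ} {R : ι → X} {φ₀ : ℝ} {ρ : X → ℝ}
    {H : X → X →L[ℝ] X} (hz : ∀ i, 0 < z i) (hφ : 0 < φ₀) (hρ : TC ρ)
    (heq : ∀ x, ρ x = tf (Vpt z R x - pot ρ x - φ₀)) (h : HessSol z R ρ H)
    (hcard : ∃ i j : ι, i ≠ j) {Z d Dm qs b : ℝ} (hZ : ∑ i, z i = Z) (hd0 : 0 < d)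
    (hd : ∀ i j, i ≠ j → d ≤ ‖R i - R j‖) (hD : ∀ i j, ‖R i - R j‖ ≤ Dm) (hqs : 0 < qs)
    (hq : ∀ i, 2 * qs ≤ min (z i / 2) (φ₀ * (3 / (16 * Real.pi * √(z i))) ^ (2 / 3 : ℝ)))
    (hb0 : 0 < b) (hb1 : 600 * b ≤ d) (hb2 : 100 * Z * b ≤ qs * d) (hb3 : 2 * (Z / φ₀) ≤ b)
    (h1 : 16 * Z ^ 2 * (Z / φ₀) ≤ qs ^ 2 * d) (h2 : 80000 * (Z / φ₀) * Z * Dm ≤ b ^ 2 * qs) :
    Sep b R ρ ∧ ∀ i x, b < ‖x - R i‖ → ‖x - R i‖ < 2 * b → 0 ≤ shD b z R ρ H i x := by
  have hcard2 := hcard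
  obtain ⟨i₀, -, -⟩ := hcard
  haveI : Nonempty ι := ⟨i₀⟩
  have hZ0 : 0 < Z := by
    rw [← hZ]
    exact Finset.sum_pos (fun j _ => hz j) Finset.univ_nonempty
  have ha0 : 0 < Z / φ₀ := by positivity
  have hoff : ∀ x, (∀ i, b ≤ ‖x - R i‖) → ρ x = 0 := fun x hx =>
    supp_ball hz hφ hρ heq x fun i => by
      rw [hZ]
      have := hx i
      linarith
  refine ⟨⟨hb0, fun i j hij => ?_, hoff⟩, fun i x hx1 hx2 => ?_⟩
  · have := hd i j hij
    linarith
  · have hall : ∀ j, b ≤ ‖x - R j‖ := by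
      intro j
      by_cases hj : j = i
      · rw [hj]; exact hx1.le
      · have e1 := hd i j (Ne.symm hj)
        have e2 : ‖R i - R j‖ ≤ ‖x - R j‖ + ‖x - R i‖ := by
          have := norm_sub_le (x - R j) (x - R i)
          rwa [show x - R j - (x - R i) = R i - R j by abel] at this
        linarith
    have hne : ∀ j, x ≠ R j := fun j hj => by
      have := hall j
      rw [hj, sub_self, norm_zero] at this
      linarith
    obtain ⟨q, E, hE, hqE, v1, t1, hv, ht, hv1, ht1, hphi⟩ := shell_data hz hφ hρ heq h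
      hcard2 hZ hd0 hd hD hqs hq hb0 hb1 hb2 hb3 h1 h2 hx1 hx2
    have hr : 0 < ‖x - R i‖ := hb0.trans hx1
    refine shD_nonneg h hb0 hne hx1 hx2 (hoff x hall) hE hqE hphi ?_ ?_
    · have e1 : psi' z R ρ x + (q / ‖x - R i‖ ^ 3) • (x - R i) = v1 := by
        rw [hv, smul_smul]
        have e2 : -(q / ‖x - R i‖ ^ 2) * ‖x - R i‖⁻¹ = -(q / ‖x - R i‖ ^ 3) := by field_simp
        rw [e2, neg_smul]
        abel
      rw [e1]
      exact hv1
    · have e1 : H x (‖x - R i‖⁻¹ • (x - R i)) - (2 * q / ‖x - R i‖ ^ 4) • (x - R i) = t1 := by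
        rw [ht, smul_smul]
        have e2 : 2 * q / ‖x - R i‖ ^ 3 * ‖x - R i‖⁻¹ = 2 * q / ‖x - R i‖ ^ 4 := by field_simp
        rw [e2]
        abel
      rw [e1]
      exact ht1

end Pool.Agent.TF.Dis

end

section
/-! Dissociated molecules: assembly. -/

set_option linter.unusedSectionVars false

set_option linter.unusedVariables false

set_option linter.style.haveILetI false

namespace Pool.Agent.TF.Grd
end Pool.Agent.TF.Grd

namespace Pool.Agent
end Pool.Agent

namespace Pool.Agent.TF.Dis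

open MeasureTheory Set Metric Filter Topology Pool.Agent.TF.Grd

open scoped ENNReal NNReal RealInnerProductSpace Gradient

variable {ι : Type*} [Fintype ι]

/-- the trial function from the conditions of `VtrD` -/
theorem exists_trialD {z : ι → ℝ} {R : ι → X} {φ₀ : ℝ} {ρ : X → ℝ} (hz : ∀ i, 0 < z i)
    (hφ : 0 < φ₀) (hρ : TC ρ) (heq : ∀ x, ρ x = tf (Vpt z R x - pot ρ x - φ₀)) {b : ℝ}
    (hsh : ∀ H, HessSol z R ρ H → Sep b R ρ ∧
      ∀ i x, b < ‖x - R i‖ → ‖x - R i‖ < 2 * b → 0 ≤ shD b z R ρ H i x) :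
    ∃ (S : Set X) (k : X → ℝ) (k' : X → X), S.Finite ∧ TrialK S k k' ∧
      0 ≤ Vtr φ₀ z R ρ k ((8 * Real.pi)⁻¹ * ∫ x, ‖k' x‖ ^ 2) := by
  obtain ⟨H, h⟩ := exists_hessSol (fun i => (hz i).le) R hφ hρ heq
  obtain ⟨hS, h1⟩ := hsh H h
  exact ⟨range R, kD b z R ρ, kD' b z R ρ H, finite_range R, (trialD hz hφ hρ heq h hS).1,
    VtrD hz hφ hρ heq h hS (fun i x hx => owD_nonneg h i hx) h1⟩

/-! ### nuclei of zero charge can be dropped -/

open Classical in
theorem sum_sub {z : ι → ℝ} (hz : ∀ i, 0 ≤ z i) (f : ι → ℝ) :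
    ∑ i : {i // 0 < z i}, z i * f i = ∑ i, z i * f i := by
  rw [← Fintype.sum_subtype_add_sum_subtype (fun i => 0 < z i) fun i => z i * f i]
  have h1 : ∑ i : {i // ¬ 0 < z i}, z i * f i = 0 := by
    refine Finset.sum_eq_zero fun i _ => ?_
    have h2 : z i = 0 := le_antisymm (not_lt.mp i.2) (hz i)
    rw [h2, zero_mul]
  rw [h1, add_zero]

open Classical in
theorem Vpt_sub {z : ι → ℝ} (hz : ∀ i, 0 ≤ z i) (R : ι → X) :
    Vpt (fun i : {i // 0 < z i} => z i) (fun i => R i) = Vpt z R := by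
  funext x
  exact sum_sub hz fun i => ‖x - R i‖⁻¹

open Classical in
theorem Unuc_sub {z : ι → ℝ} (hz : ∀ i, 0 ≤ z i) (R : ι → X) :
    Unuc (fun i : {i // 0 < z i} => z i) (fun i => R i) = Unuc z R := by
  unfold Unuc
  congr 1
  have h1 : ∀ i : ι, ∑ j, z i * z j * ‖R i - R j‖⁻¹ = z i * ∑ j, z j * ‖R i - R j‖⁻¹ := by
    intro i
    rw [Finset.mul_sum]
    exact Finset.sum_congr rfl fun j _ => by ring
  have h2 : ∀ i : {i // 0 < z i}, ∑ j : {i // 0 < z i}, z i * z j * ‖R i - R j‖⁻¹ =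
      z i * ∑ j, z j * ‖R i - R j‖⁻¹ := by
    intro i
    rw [← sum_sub hz fun j => ‖R i - R j‖⁻¹, Finset.mul_sum]
    exact Finset.sum_congr rfl fun j _ => by ring
  simp_rw [h1, h2]
  exact sum_sub hz fun i => ∑ j, z j * ‖R i - R j‖⁻¹

open Classical in
theorem Vtr_sub {z : ι → ℝ} (hz : ∀ i, 0 ≤ z i) (R : ι → X) (φ₀ : ℝ) (ρ k : X → ℝ) (E : ℝ) :
    Vtr φ₀ (fun i : {i // 0 < z i} => z i) (fun i => R i) ρ k E = Vtr φ₀ z R ρ k E := by
  unfold Vtr
  rw [Unuc_sub hz, Vpt_sub hz, sum_sub hz fun i => pot ρ (R i)]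

end Pool.Agent.TF.Dis

namespace Pool.Agent.Lib.MP_9cf0c9_mp

open MeasureTheory Set Filter Topology Pool.Agent

open Classical in
/-- **dissociated molecules**: convexity in the volume, nonincreasing pressure and nonnegative
reciprocal compressibility for large `l`, uniformly for the electron numbers up to any number
below the nuclear charge -/
theorem dissociated {k : ℕ} (z : Fin k → ℝ) (hz : ∀ j, 0 ≤ z j) (R : Fin k → E3)
    (hR : Function.Injective R) {lam : ℝ} (hlam : 0 ≤ lam) (hlt : lam < ∑ j, z j) :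
    ∃ L : ℝ, 0 < L ∧ ∀ m : ℝ, 0 ≤ m → m ≤ lam →
      ConvexOn ℝ (Ioi (L ^ 3)) (fun v : ℝ => dilated z R m (v ^ (1 / 3 : ℝ))) ∧
      AntitoneOn (pressure z R m) (Ioi L) ∧
      ∀ l : ℝ, L < l → DifferentiableAt ℝ (pressure z R m) l →
        0 ≤ -(l / 3) * deriv (pressure z R m) l := by
  have hpi := Real.pi_pos
  set ι := {i : Fin k // 0 < z i} with hι
  set z' : ι → ℝ := fun i => z i with hz'
  have hzp : ∀ i : ι, 0 < z' i := fun i => i.2
  set Z : ℝ := ∑ j, z j with hZ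
  have hZ' : ∑ i, z' i = Z := by
    have := TF.Dis.sum_sub hz fun _ => (1 : ℝ)
    simpa using this
  have hZ0 : 0 < Z := lt_of_le_of_lt hlam hlt
  have hne : Nonempty ι := by
    by_contra hc
    rw [not_nonempty_iff] at hc
    rw [Finset.univ_eq_empty, Finset.sum_empty] at hZ'
    linarith
  have hzZ : ∀ i : ι, z' i ≤ Z := fun i => by
    rw [← hZ']
    exact Finset.single_le_sum (f := z') (fun j _ => (hzp j).le) (Finset.mem_univ i)
  -- the level
  obtain ⟨φc, hφc, hmass⟩ : ∃ φc : ℝ, 0 < φc ∧ lam ≤ ∑ i, ∫ x, TF.ionρ (z' i) φc x := by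
    set n : ℝ := ((Fintype.card ι : ℕ) : ℝ) with hn
    have hn0 : 0 < n := by
      rw [hn]
      exact_mod_cast Fintype.card_pos
    have he : 0 < (Z - lam) / n := div_pos (by linarith) hn0
    choose f hf hf2 using fun i => TF.Dis.ion_mass_up (hzp i) he
    obtain ⟨i₀, hi₀⟩ := Finite.exists_min f
    refine ⟨f i₀, hf i₀, ?_⟩
    have h1 : ∑ i, (z' i - (Z - lam) / n) ≤ ∑ i, ∫ x, TF.ionρ (z' i) (f i₀) x :=
      Finset.sum_le_sum fun i _ => hf2 i _ (hf i₀) (hi₀ i)
    have h2 : ∑ i, (z' i - (Z - lam) / n) = lam := by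
      rw [Finset.sum_sub_distrib, hZ', Finset.sum_const, nsmul_eq_mul, Finset.card_univ, ← hn]
      field_simp
      ring
    linarith
  -- the trial functions and the mass for large scales
  suffices hmain : ∃ L : ℝ, 0 < L ∧
      (∀ φ₀ : ℝ, φc ≤ φ₀ → ∀ c : ℝ, L < c → ∀ R' : Fin k → TF.X, Function.Injective R' →
        (∀ i j, ‖R' i - R' j‖ = c * ‖R i - R j‖) →
        ∀ ρ : TF.X → ℝ, TF.TC ρ →
        (∀ x, ρ x = TF.tf (TF.Vpt z' (fun i : ι => R' i) x - TF.pot ρ x - φ₀)) →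
        ∀ η : ℝ, 0 < η →
        ∃ (S : Set TF.X) (k : TF.X → ℝ) (k' : TF.X → TF.X), S.Finite ∧ TF.TrialK S k k' ∧
          -η ≤ TF.Vtr φ₀ z' (fun i : ι => R' i) ρ k ((8 * Real.pi)⁻¹ * ∫ x, ‖k' x‖ ^ 2)) ∧
      ∀ c : ℝ, L < c → ∀ i j : ι, i ≠ j → z' i / φc + z' j / φc < c * ‖R i - R j‖ by
    obtain ⟨L, hL, hV, hsep⟩ := hmain
    refine ⟨L, hL, fun m hm hml => target_of_levels z hz R hR hm hL.le hφc ?_ ?_⟩
    · intro φ₀ hφ c hc R' hR' hd ρ hρ heq η hη
      have heq' : ∀ x, ρ x = TF.tf (TF.Vpt z' (fun i : ι => R' i) x - TF.pot ρ x - φ₀) := by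
        intro x
        rw [heq x, hz', TF.Dis.Vpt_sub hz R']
      obtain ⟨S, κ, κ', hS, hk, hv⟩ := hV φ₀ hφ c hc R' hR' hd ρ hρ heq' η hη
      refine ⟨S, κ, κ', hS, hk, ?_⟩
      rw [hz', TF.Dis.Vtr_sub hz R'] at hv
      exact hv
    · intro c hc R' hR' hd ρ hρ heq
      have heq' : ∀ x, ρ x = TF.tf (TF.Vpt z' (fun i : ι => R' i) x - TF.pot ρ x - φc) := by
        intro x
        rw [heq x, hz', TF.Dis.Vpt_sub hz R']
      refine hml.trans (hmass.trans (TF.Dis.mass_sum hzp hφc hρ heq' fun i j hij => ?_))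
      rw [hd]
      exact hsep c hc i j hij
  rcases subsingleton_or_nontrivial ι with hsub | hnt
  · -- one nucleus
    refine ⟨1, one_pos, ?_, fun c hc i j hij => absurd (Subsingleton.elim i j) hij⟩
    intro φ₀ hφ c hc R' hR' hd ρ hρ heq η hη
    obtain ⟨i₀⟩ := hne
    exact TF.Grd.exists_trial (q := z' i₀) (fun i => by rw [Subsingleton.elim i i₀]) (hzp i₀)
      (fun i j _ => Subsingleton.elim i j) (hφc.trans_le hφ) hρ heq hη
  · obtain ⟨i₁, j₁, hij₁⟩ := exists_pair_ne ι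
    -- the distances
    obtain ⟨d, hd0, hd⟩ : ∃ d : ℝ, 0 < d ∧ ∀ i j : ι, i ≠ j → d ≤ ‖R i - R j‖ := by
      have : Nonempty {p : ι × ι // p.1 ≠ p.2} := ⟨⟨(i₁, j₁), hij₁⟩⟩
      obtain ⟨p, hp⟩ := Finite.exists_min fun p : {p : ι × ι // p.1 ≠ p.2} =>
        ‖R p.1.1 - R p.1.2‖
      refine ⟨‖R p.1.1 - R p.1.2‖, ?_, fun i j hij => hp ⟨(i, j), hij⟩⟩
      refine norm_pos_iff.mpr (sub_ne_zero.mpr fun h => p.2 ?_)
      exact Subtype.ext (hR h)
    obtain ⟨D, hD⟩ : ∃ D : ℝ, ∀ i j : ι, ‖R i - R j‖ ≤ D := by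
      obtain ⟨p, hp⟩ := Finite.exists_max fun p : ι × ι => ‖R p.1 - R p.2‖
      exact ⟨_, fun i j => hp (i, j)⟩
    have hD0 : 0 < D := lt_of_lt_of_le (lt_of_lt_of_le hd0 (hd i₁ j₁ hij₁)) (hD i₁ j₁)
    -- the smallest charge
    obtain ⟨qs, hqs, hq⟩ : ∃ qs : ℝ, 0 < qs ∧ ∀ i : ι, 2 * qs ≤ min (z' i / 2)
        (φc * (3 / (16 * Real.pi * √(z' i))) ^ (2 / 3 : ℝ)) := by
      obtain ⟨i₀, hi₀⟩ := Finite.exists_min fun i : ι => min (z' i / 2)
        (φc * (3 / (16 * Real.pi * √(z' i))) ^ (2 / 3 : ℝ))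
      refine ⟨min (z' i₀ / 2) (φc * (3 / (16 * Real.pi * √(z' i₀))) ^ (2 / 3 : ℝ)) / 2, ?_,
        fun i => ?_⟩
      · have h1 := hzp i₀
        have h2 : 0 < √(z' i₀) := Real.sqrt_pos.mpr h1
        have h3 : 0 < (3 / (16 * Real.pi * √(z' i₀))) ^ (2 / 3 : ℝ) :=
          Real.rpow_pos_of_pos (by positivity) _
        have h4 : 0 < min (z' i₀ / 2) (φc * (3 / (16 * Real.pi * √(z' i₀))) ^ (2 / 3 : ℝ)) :=
          lt_min (by positivity) (by positivity)
        positivity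
      · have := hi₀ i
        linarith
    set a : ℝ := Z / φc with ha
    have ha0 : 0 < a := by positivity
    set ε : ℝ := min (1 / 600) (qs / (100 * Z)) with hε
    have hε0 : 0 < ε := lt_min (by norm_num) (by positivity)
    set L : ℝ := 1 + 2 * a / (ε * d) + 16 * Z ^ 2 * a / (qs ^ 2 * d) +
      80000 * a * Z * D / (ε ^ 2 * d ^ 2 * qs) + 2 * a / d with hL
    have l1 : 0 < 2 * a / (ε * d) := by positivity
    have l2 : 0 < 16 * Z ^ 2 * a / (qs ^ 2 * d) := by positivity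
    have l3 : 0 < 80000 * a * Z * D / (ε ^ 2 * d ^ 2 * qs) := by positivity
    have l4 : 0 < 2 * a / d := by positivity
    refine ⟨L, by positivity, ?_, ?_⟩
    · intro φ₀ hφ c hc R' hR' hdR ρ hρ heq η hη
      have hφ0 : 0 < φ₀ := hφc.trans_le hφ
      have hc0 : 0 < c := by
        have : 0 < L := by positivity
        linarith
      have hRi : Function.Injective fun i : ι => R' i := fun i j h => Subtype.ext (hR' h)
      have hle : Z / φ₀ ≤ a := div_le_div_of_nonneg_left hZ0.le hφc hφ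
      have hZφ : 0 < Z / φ₀ := by positivity
      have c1 : 2 * a ≤ c * (ε * d) := by
        have : 2 * a / (ε * d) ≤ c := by linarith
        rwa [div_le_iff₀ (by positivity)] at this
      have c2 : 16 * Z ^ 2 * a ≤ c * (qs ^ 2 * d) := by
        have : 16 * Z ^ 2 * a / (qs ^ 2 * d) ≤ c := by linarith
        rwa [div_le_iff₀ (by positivity)] at this
      have c3 : 80000 * a * Z * D ≤ c * (ε ^ 2 * d ^ 2 * qs) := by
        have : 80000 * a * Z * D / (ε ^ 2 * d ^ 2 * qs) ≤ c := by linarith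
        rwa [div_le_iff₀ (by positivity)] at this
      obtain ⟨S, κ, κ', hS, hk, hv⟩ := TF.Dis.exists_trialD (b := ε * (c * d)) hzp hφ0 hρ heq
        fun H h => TF.Dis.net_ok hzp hφ0 hρ heq h ⟨i₁, j₁, hij₁⟩ hZ' (d := c * d) (Dm := c * D)
          (qs := qs) (b := ε * (c * d)) (by positivity)
          (fun i j hij => by
            rw [hdR]
            exact mul_le_mul_of_nonneg_left (hd i j hij) hc0.le)
          (fun i j => by
            rw [hdR]
            exact mul_le_mul_of_nonneg_left (hD i j) hc0.le) hqs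
          (fun i => (hq i).trans (min_le_min le_rfl (mul_le_mul_of_nonneg_right hφ
            (Real.rpow_nonneg (by positivity) _)))) (by positivity)
          (by
            have h1 : ε ≤ 1 / 600 := min_le_left _ _
            have h2 : ε * (c * d) ≤ 1 / 600 * (c * d) :=
              mul_le_mul_of_nonneg_right h1 (by positivity)
            linarith)
          (by
            have h1 : ε ≤ qs / (100 * Z) := min_le_right _ _
            rw [le_div_iff₀ (by positivity)] at h1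
            have h2 : ε * (100 * Z) * (c * d) ≤ qs * (c * d) :=
              mul_le_mul_of_nonneg_right h1 (by positivity)
            linarith)
          (by nlinarith)
          (by
            have h1 : 16 * Z ^ 2 * (Z / φ₀) ≤ 16 * Z ^ 2 * a :=
              mul_le_mul_of_nonneg_left hle (by positivity)
            nlinarith)
          (by
            have h1 : 80000 * (Z / φ₀) * Z * D ≤ 80000 * a * Z * D := by
              have : 80000 * (Z / φ₀) * Z ≤ 80000 * a * Z :=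
                mul_le_mul_of_nonneg_right (mul_le_mul_of_nonneg_left hle (by norm_num)) hZ0.le
              exact mul_le_mul_of_nonneg_right this hD0.le
            have h2 : 80000 * (Z / φ₀) * Z * (c * D) = c * (80000 * (Z / φ₀) * Z * D) := by ring
            have h3 : (ε * (c * d)) ^ 2 * qs = c * (c * (ε ^ 2 * d ^ 2 * qs)) := by ring
            rw [h2, h3]
            exact mul_le_mul_of_nonneg_left (h1.trans c3) hc0.le)
      exact ⟨S, κ, κ', hS, hk, by linarith⟩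
    · intro c hc i j hij
      have hc0 : 0 < c := by
        have : 0 < L := by positivity
        linarith
      have c4 : 2 * a < c * d := by
        have : 2 * a / d < c := by linarith
        rwa [div_lt_iff₀ hd0] at this
      have h1 : z' i / φc ≤ a := div_le_div_of_nonneg_right (hzZ i) hφc.le
      have h2 : z' j / φc ≤ a := div_le_div_of_nonneg_right (hzZ j) hφc.le
      have h3 : c * d ≤ c * ‖R i - R j‖ := mul_le_mul_of_nonneg_left (hd i j hij) hc0.le
      linarith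

end Pool.Agent.Lib.MP_9cf0c9_mp

end

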