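import Mathlib
import Pool.Agent.Lib.MP_9cf0c9_mp.Tr.NucD
/-! Two nuclei at `a e₁`, `b e₁`: the density on the plane `x₁ = m` of the trial
`X_a + D (b - m) P_b` on the left, `X_b + D (m - a) P_a` on the right of the plane. -/

set_option autoImplicit false

set_option linter.unusedSectionVars false

set_option linter.unusedVariables false

namespace Pool.Agent.TF.Grd
end Pool.Agent.TF.Grd

namespace Pool.Agent.TF.Col

open MeasureTheory Set Metric Filter Topology

open scoped ENNReal NNReal RealInnerProductSpace Gradient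

open Pool.Agent.TF.Grd

section defs

variable {ι : Type*} [Fintype ι]

/-- the density of the trial on the plane `x₁ = m` -/
noncomputable def Km (z : ι → ℝ) (R : ι → X) (ρ : X → ℝ) (H : X → X →L[ℝ] X) (a b m : ℝ)
    (x : X) : ℝ :=
  (ht x ^ 2 + (m - a) * (b - m)) * (wt z R ρ a b x * ⟪wt' z R ρ H b a x, e1⟫ -
    wt z R ρ b a x * ⟪wt' z R ρ H a b x, e1⟫) -
    (wt z R ρ a b x + wt z R ρ b a x) * ((m - a) * wt z R ρ a b x + (b - m) * wt z R ρ b a x)

end defs

end Pool.Agent.TF.Col
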