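import Mathlib
import Pool.Agent.Lib.MP_9cf0c9_mp.Tr.HalfDip48
import Pool.Agent.Lib.MP_9cf0c9_mp.Tr.NucD
/-! Two nuclei: the inequality on the mid plane, along rays. -/

set_option autoImplicit false

set_option linter.unusedSectionVars false

set_option linter.unusedVariables false

set_option linter.style.haveILetI false

namespace Pool.Agent.TF.Grd
end Pool.Agent.TF.Grd

namespace Pool.Agent.TF.Col

open MeasureTheory Set Metric Filter Topology

open scoped ENNReal NNReal RealInnerProductSpace Gradient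

open Pool.Agent.TF.Grd

/-! ### one dimension -/

/-- a function which is at least a derivative `Ψ'`, `limsup Ψ ≤ 0` at `0`, `liminf Ψ ≥ 0` at
infinity, has a nonnegative integral -/
theorem ioi_nonneg {G Ψ Ψ' : ℝ → ℝ} (hd : ∀ s, 0 < s → HasDerivAt Ψ (Ψ' s) s)
    (hle : ∀ s, 0 < s → Ψ' s ≤ G s)
    (h0 : ∀ η : ℝ, 0 < η → ∀ᶠ ε in 𝓝[>] (0 : ℝ), Ψ ε ≤ η)
    (hinf : ∀ η : ℝ, 0 < η → ∀ᶠ N in atTop, -η ≤ Ψ N) :
    0 ≤ ∫ s in Ioi (0 : ℝ), G s := by
  by_cases hI : IntegrableOn G (Ioi 0)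
  swap
  · rw [integral_undef hI]
  have hunion : (⋃ n : ℕ, Ioc ((n : ℝ) + 1)⁻¹ ((n : ℝ) + 1)) = Ioi 0 := by
    ext x
    simp only [mem_iUnion, mem_Ioc, mem_Ioi]
    constructor
    · rintro ⟨n, h1, h2⟩
      exact lt_trans (by positivity) h1
    · intro hx
      obtain ⟨n, hn⟩ := exists_nat_gt (max x x⁻¹)
      have h1 := (le_max_left x x⁻¹).trans_lt hn
      have h2 := (le_max_right x x⁻¹).trans_lt hn
      refine ⟨n, ?_, by linarith⟩
      rw [inv_lt_comm₀ (by positivity) hx]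
      linarith
  have hmono : Monotone fun n : ℕ => Ioc ((n : ℝ) + 1)⁻¹ ((n : ℝ) + 1) := by
    intro n k hnk
    have h1 : (n : ℝ) ≤ k := by exact_mod_cast hnk
    refine Ioc_subset_Ioc ?_ (by linarith)
    exact inv_anti₀ (by positivity) (by linarith)
  have hlim := tendsto_setIntegral_of_monotone (μ := (volume : Measure ℝ)) (f := G)
    (fun n : ℕ => measurableSet_Ioc) hmono (by rw [hunion]; exact hI)
  rw [hunion] at hlim
  refine le_of_forall_pos_le_add fun η hη => ?_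
  have hη2 : 0 < η / 2 := by linarith
  have ha : Tendsto (fun n : ℕ => ((n : ℝ) + 1)⁻¹) atTop (𝓝[>] 0) := by
    refine tendsto_nhdsWithin_iff.mpr ⟨?_, Eventually.of_forall fun n => ?_⟩
    · have := tendsto_one_div_add_atTop_nhds_zero_nat (𝕜 := ℝ)
      simpa [one_div] using this
    · exact mem_Ioi.mpr (by positivity)
  have hb : Tendsto (fun n : ℕ => (n : ℝ) + 1) atTop atTop :=
    tendsto_atTop_add_const_right _ _ tendsto_natCast_atTop_atTop
  have key : ∀ᶠ n : ℕ in atTop, -η ≤ ∫ s in Ioc ((n : ℝ) + 1)⁻¹ ((n : ℝ) + 1), G s := by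
    filter_upwards [ha.eventually (h0 _ hη2), hb.eventually (hinf _ hη2)] with n h1 h2
    have hpos : (0 : ℝ) < ((n : ℝ) + 1)⁻¹ := by positivity
    have hab : ((n : ℝ) + 1)⁻¹ ≤ (n : ℝ) + 1 := by
      have h3 : (1 : ℝ) ≤ (n : ℝ) + 1 := by
        have : (0 : ℝ) ≤ n := n.cast_nonneg
        linarith
      exact (inv_le_one_of_one_le₀ h3).trans h3
    have h4 := intervalIntegral.sub_le_integral_of_hasDeriv_right_of_le (g := Ψ) (g' := Ψ')
      (φ := G) hab
      (fun x hx => (hd x (hpos.trans_le hx.1)).continuousAt.continuousWithinAt)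
      (fun x hx => (hd x (hpos.trans hx.1)).hasDerivWithinAt)
      (hI.mono_set fun x hx => mem_Ioi.mpr (hpos.trans_le hx.1))
      (fun x hx => hle x (hpos.trans hx.1))
    rw [intervalIntegral.integral_of_le hab] at h4
    linarith
  have := ge_of_tendsto hlim key
  linarith

/-! ### pointwise relations -/

section gen

variable {ι : Type*} [Fintype ι]

variable {φ₀ : ℝ} {z : ι → ℝ} {R : ι → X} {ρ : X → ℝ} {H : X → X →L[ℝ] X} {lo hi : ℝ}

/-- the divergence relation for the weights -/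
theorem Dat.wt_div (D : Dat φ₀ z R ρ H lo hi) {a b : ℝ} (hab : a ≠ b) {x : X}
    (hx : x ∉ Col.ax) :
    (x.fst - a) * ⟪wt' z R ρ H a b x, e1⟫ + ht x * ⟪wt' z R ρ H a b x, es x⟫ +
      ((x.fst - b) * ⟪wt' z R ρ H b a x, e1⟫ + ht x * ⟪wt' z R ρ H b a x, es x⟫) +
      3 * (wt z R ρ a b x + wt z R ρ b a x) + 4 * Real.pi * ρ x = 0 := by
  have h1 : b - a ≠ 0 := sub_ne_zero.mpr hab.symm
  have hd := D.divr hx
  have h6 : (a - b)⁻¹ = -(b - a)⁻¹ := by rw [← inv_neg, neg_sub]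
  have e0 : (b - a)⁻¹ * (b - a) = 1 := inv_mul_cancel₀ h1
  rw [wt_add hab]
  unfold wt'
  rw [D.p'_eq hx, D.c'_eq hx, h6]
  simp only [inner_sub_left, inner_add_left, real_inner_smul_left, inner_e1_self,
    inner_es_self hx, inner_es_e1, inner_e1_es]
  unfold zt at hd
  linear_combination ((b - a)⁻¹ * (b - a)) * hd - (3 * pf z R ρ x + 4 * Real.pi * ρ x) * e0

end gen

/-! ### rays in a plane -/

section ray

variable {m s : ℝ} {v : E2}

theorem ray_ht (hv : ‖v‖ = 1) (hs : 0 ≤ s) : ht (mk m (s • v)) = s := by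
  unfold ht
  rw [mk_snd, norm_smul, hv, mul_one, Real.norm_of_nonneg hs]

theorem ray_off (hv : ‖v‖ = 1) (hs : 0 < s) : mk m (s • v) ∉ Col.ax := by
  intro h
  have h1 : ht (mk m (s • v)) = 0 := by
    unfold ht
    rw [mem_ax.mp h, norm_zero]
  rw [ray_ht hv hs.le] at h1
  exact hs.ne' h1

theorem smul_mk (t u : ℝ) (w : E2) : t • mk u w = mk (t * u) (t • w) := by
  unfold mk
  rw [← WithLp.toLp_smul, Prod.smul_mk, smul_eq_mul]

theorem ray_es (hv : ‖v‖ = 1) (hs : 0 < s) : es (mk m (s • v)) = mk 0 v := by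
  unfold es perp
  rw [ray_ht hv hs.le, mk_snd, smul_mk, mul_zero, smul_smul, inv_mul_cancel₀ hs.ne', one_smul]

theorem ray_eq (m s : ℝ) (v : E2) : mk m (s • v) = mk m 0 + s • mk 0 v := by
  rw [smul_mk, mul_zero]
  unfold mk
  rw [← WithLp.toLp_add, Prod.mk_add_mk, add_zero, zero_add]

theorem ray_deriv (m s : ℝ) (v : E2) : HasDerivAt (fun s : ℝ => mk m (s • v)) (mk 0 v) s := by
  have h1 : (fun s : ℝ => mk m (s • v)) = fun s : ℝ => mk m 0 + s • mk 0 v := by
    funext s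
    exact ray_eq m s v
  rw [h1]
  have h2 := ((hasDerivAt_id s).smul_const (mk 0 v)).const_add (mk m 0)
  simpa using h2

theorem ray_norm' (hv : ‖v‖ = 1) (m s : ℝ) : ‖mk m (s • v)‖ ^ 2 = m ^ 2 + s ^ 2 := by
  rw [norm_mk_sq, norm_smul, hv, mul_one, Real.norm_eq_abs, sq_abs]

theorem c1o_ray {f : X → ℝ} {f' : X → X} (hf : C1O f f') (hv : ‖v‖ = 1) (hs : 0 < s) :
    HasDerivAt (fun s : ℝ => f (mk m (s • v))) ⟪f' (mk m (s • v)), es (mk m (s • v))⟫ s := by
  rw [ray_es hv hs]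
  have h1 := (hf.grad _ (ray_off (m := m) hv hs)).hasFDerivAt
  have h2 := h1.comp_hasDerivAt s (ray_deriv m s v)
  rw [InnerProductSpace.toDual_apply_apply] at h2
  exact h2

end ray

/-! ### the inequality -/

end Pool.Agent.TF.Col
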