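import Mathlib
import Pool.Agent.Lib.MP_9cf0c9_mp.Tr.Km36
import Pool.Agent.Lib.MP_9cf0c9_mp.Tr.Plane39
import Pool.Agent.Lib.MP_9cf0c9_mp.Tr.Rot39
import Pool.Agent.Lib.MP_9cf0c9_mp.Tr.Slab13
/-! Two nuclei on the axis: all functions are invariant under the reflections in the planes
through the axis, so the integrals along the rays of a plane do not depend on the ray. -/

set_option autoImplicit false

set_option linter.unusedSectionVars false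

set_option linter.unusedVariables false

namespace Pool.Agent.TF.Grd
end Pool.Agent.TF.Grd

namespace Pool.Agent.TF.Col

open MeasureTheory Set Metric Filter Topology

open scoped ENNReal NNReal RealInnerProductSpace Gradient

open Pool.Agent.TF.Grd

section inv

variable {ι : Type*} [Fintype ι]

variable {φ₀ : ℝ} {z : ι → ℝ} {R : ι → X} {ρ : X → ℝ} {H : X → X →L[ℝ] X} {lo hi : ℝ}

theorem mirL_e1 {n : X} (hn : ‖n‖ = 1) (hne : ⟪n, e1⟫ = 0) : mirL n e1 = e1 := by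
  rw [mirL_apply hn, real_inner_comm, hne, mul_zero, zero_smul, sub_zero]

theorem mir_zero_eq {n : X} (hn : ‖n‖ = 1) (x : X) : mir 0 n x = mirL n x := by
  rw [mir_eq_mirL hn, neg_zero, add_zero, add_zero]

theorem mir_zero_fst {n : X} (hn : ‖n‖ = 1) (hne : ⟪n, e1⟫ = 0) (x : X) :
    (mir 0 n x).fst = x.fst := by
  rw [← inner_e1, ← inner_e1, mir_zero_eq hn, mirL_symm_inner, mirL_e1 hn hne]

theorem perp_mir {n : X} (hn : ‖n‖ = 1) (hne : ⟪n, e1⟫ = 0) (x : X) :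
    perp (mir 0 n x) = mirL n (perp x) := by
  rw [perp_eq, perp_eq, mir_zero_fst hn hne, mir_zero_eq hn, map_sub, map_smul, mirL_e1 hn hne]

theorem norm_perp_ht (x : X) : ‖perp x‖ = ht x := by
  have h : ‖perp x‖ ^ 2 = ht x ^ 2 := by
    unfold perp
    rw [norm_mk_sq]
    unfold ht
    ring
  exact (sq_eq_sq₀ (norm_nonneg _) (ht_nonneg x)).mp h

theorem ht_mir {n : X} (hn : ‖n‖ = 1) (hne : ⟪n, e1⟫ = 0) (x : X) : ht (mir 0 n x) = ht x := by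
  rw [← norm_perp_ht, ← norm_perp_ht, perp_mir hn hne, LinearIsometryEquiv.norm_map]

theorem ax_iff_ht {x : X} : x ∈ ax ↔ ht x = 0 := by
  unfold ht
  rw [norm_eq_zero]
  exact Iff.rfl

theorem mir_ax {n : X} (hn : ‖n‖ = 1) (hne : ⟪n, e1⟫ = 0) {x : X} (hx : x ∉ Col.ax) :
    mir 0 n x ∉ Col.ax := by
  rw [ax_iff_ht] at hx ⊢
  rwa [ht_mir hn hne]

theorem hgt_of_ax {n x : X} (hne : ⟪n, e1⟫ = 0) (hx : x ∈ Col.ax) : hgt 0 n x = 0 := by
  unfold hgt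
  rw [← fst_smul_of_ax hx, sub_zero, real_inner_smul_left, real_inner_comm, hne, mul_zero]

/-- **the potential is invariant** -/
theorem Dat.psi_mir (D : Dat φ₀ z R ρ H lo hi) {n : X} (hn : ‖n‖ = 1) (hne : ⟪n, e1⟫ = 0)
    {x : X} (hx : x ∉ Col.ax) : psi φ₀ z R ρ (mir 0 n x) = psi φ₀ z R ρ x := by
  have hoff : ∀ {y : X}, y ∉ Col.ax → ∀ i, y ≠ R i := fun hy => ax_nontrivial_off D.ax.on_axis hy
  have key : ∀ {m : X}, ‖m‖ = 1 → ⟪m, e1⟫ = 0 → ∀ {y : X}, y ∉ Col.ax → 0 < hgt 0 m y →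
      psi φ₀ z R ρ (mir 0 m y) ≤ psi φ₀ z R ρ y := by
    intro m hm hme y hy h0
    exact psi_mir_le_side hm D.hz D.sol (fun i _ => (hgt_of_ax hme (D.ax.on_axis i)).ge) h0
      (hoff hy) (hoff (mir_ax hm hme hy))
  have hn' : ‖-n‖ = 1 := by rw [norm_neg, hn]
  have hne' : ⟪-n, e1⟫ = 0 := by rw [inner_neg_left, hne, neg_zero]
  have hmn : ∀ y, mir 0 (-n) y = mir 0 n y := fun y => by
    unfold mir hgt
    rw [inner_neg_right]
    module
  have hhn : ∀ y, hgt 0 (-n) y = -hgt 0 n y := fun y => by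
    unfold hgt
    rw [inner_neg_right]
  have hmm := mir_mir hn (o := 0) x
  have hhm := hgt_mir hn (o := 0) x
  rcases lt_trichotomy (hgt 0 n x) 0 with h | h | h
  · refine le_antisymm ?_ ?_
    · have h1 := key hn' hne' hx (by rw [hhn]; linarith)
      rwa [hmn] at h1
    · have h1 := key hn hne (mir_ax hn hne hx) (by rw [hhm]; linarith)
      rwa [hmm] at h1
  · rw [mir_fix h]
  · refine le_antisymm (key hn hne hx h) ?_
    have h1 := key hn' hne' (mir_ax hn hne hx) (by rw [hhn, hhm]; linarith)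
    rwa [hmn, hmm] at h1

/-- the gradient of an invariant function -/
theorem C1O.grad_inv {f : X → ℝ} {f' : X → X} (hf : C1O f f') {n : X} (hn : ‖n‖ = 1)
    (hne : ⟪n, e1⟫ = 0) (hi : ∀ x, x ∉ Col.ax → f (mir 0 n x) = f x) {x : X} (hx : x ∉ Col.ax) :
    f' (mir 0 n x) = mirL n (f' x) := by
  have h1 := grad_mir hn (hf.grad _ (mir_ax hn hne hx))
  have h2 : (fun y => f (mir 0 n y)) =ᶠ[𝓝 x] f := by
    filter_upwards [isOpen_off_ax.mem_nhds hx] with y hy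
    exact hi y hy
  have h3 : HasGradientAt f (mirL n (f' (mir 0 n x))) x := by
    rw [hasGradientAt_iff_hasFDerivAt] at h1 ⊢
    exact h1.congr_of_eventuallyEq h2.symm
  have h4 : f' x = mirL n (f' (mir 0 n x)) := by
    rw [← (hf.grad x hx).gradient, ← h3.gradient]
  rw [h4]
  unfold mirL
  rw [Submodule.reflection_reflection]

theorem C1O.inner_inv {f : X → ℝ} {f' : X → X} (hf : C1O f f') {n : X} (hn : ‖n‖ = 1)
    (hne : ⟪n, e1⟫ = 0) (hi : ∀ x, x ∉ Col.ax → f (mir 0 n x) = f x) {x : X} (hx : x ∉ Col.ax) :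
    ⟪f' (mir 0 n x), e1⟫ = ⟪f' x, e1⟫ := by
  rw [hf.grad_inv hn hne hi hx, mirL_symm_inner, mirL_e1 hn hne]

theorem Dat.pf_mir (D : Dat φ₀ z R ρ H lo hi) {n : X} (hn : ‖n‖ = 1) (hne : ⟪n, e1⟫ = 0)
    {x : X} (hx : x ∉ Col.ax) : pf z R ρ (mir 0 n x) = pf z R ρ x := by
  unfold pf
  rw [D.c1_psi.grad_inv hn hne (fun x hx => D.psi_mir hn hne hx) hx, perp_mir hn hne,
    ht_mir hn hne, LinearIsometryEquiv.inner_map_map]

theorem Dat.e1_mir (D : Dat φ₀ z R ρ H lo hi) {n : X} (hn : ‖n‖ = 1) (hne : ⟪n, e1⟫ = 0)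
    {x : X} (hx : x ∉ Col.ax) : ⟪psi' z R ρ (mir 0 n x), e1⟫ = ⟪psi' z R ρ x, e1⟫ :=
  D.c1_psi.inner_inv hn hne (fun x hx => D.psi_mir hn hne hx) hx

theorem Dat.wt_inv (D : Dat φ₀ z R ρ H lo hi) {n : X} (hn : ‖n‖ = 1) (hne : ⟪n, e1⟫ = 0)
    (a b : ℝ) {x : X} (hx : x ∉ Col.ax) : wt z R ρ a b (mir 0 n x) = wt z R ρ a b x := by
  unfold wt cf
  rw [D.pf_mir hn hne hx, D.e1_mir hn hne hx, mir_zero_fst hn hne]

theorem Dat.wt'_inv (D : Dat φ₀ z R ρ H lo hi) {n : X} (hn : ‖n‖ = 1) (hne : ⟪n, e1⟫ = 0)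
    (a b : ℝ) {x : X} (hx : x ∉ Col.ax) :
    ⟪wt' z R ρ H a b (mir 0 n x), e1⟫ = ⟪wt' z R ρ H a b x, e1⟫ :=
  (D.c1_wt a b).inner_inv hn hne (fun x hx => D.wt_inv hn hne a b hx) hx

/-- the reflection that exchanges two rays -/
theorem exists_mir {v w : E2} (hv : ‖v‖ = 1) (hw : ‖w‖ = 1) (hvw : v ≠ w) :
    ∃ n : X, ‖n‖ = 1 ∧ ⟪n, e1⟫ = 0 ∧ ∀ t s : ℝ, mir 0 n (TF.mk t (s • v)) = TF.mk t (s • w) := by
  obtain ⟨c, hc⟩ : ∃ c : ℝ, c = ‖v - w‖ := ⟨_, rfl⟩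
  have hc0 : 0 < c := by rw [hc]; exact norm_pos_iff.mpr (sub_ne_zero.mpr hvw)
  have h1 : c ^ 2 = 2 - 2 * ⟪v, w⟫ := by
    rw [hc, norm_sub_sq_real, hv, hw]
    ring
  have h2 : ⟪v, v - w⟫ = 1 - ⟪v, w⟫ := by
    rw [inner_sub_right, real_inner_self_eq_norm_sq, hv]
    ring
  obtain ⟨u, hu⟩ : ∃ u : E2, u = c⁻¹ • (v - w) := ⟨_, rfl⟩
  have hu1 : ‖u‖ = 1 := by
    rw [hu, norm_smul, ← hc, Real.norm_eq_abs, abs_of_pos (inv_pos.mpr hc0), inv_mul_cancel₀ hc0.ne']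
  refine ⟨TF.mk 0 u, ?_, ?_, fun t s => ?_⟩
  · have h : ‖TF.mk 0 u‖ ^ 2 = 1 := by
      rw [norm_mk_sq, hu1]
      ring
    nlinarith [norm_nonneg (TF.mk 0 u)]
  · rw [inner_e1]
    rfl
  · unfold mir hgt
    rw [sub_zero, inner_X]
    have e1' : (TF.mk t (s • v) : X).fst = t := rfl
    have e2' : (TF.mk 0 u : X).fst = 0 := rfl
    have e3' : (TF.mk t (s • v) : X).snd = s • v := rfl
    have e4' : (TF.mk 0 u : X).snd = u := rfl
    rw [e2', e3', e4', mul_zero, zero_add, real_inner_smul_left]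
    have h3 : ⟪v, u⟫ = c⁻¹ * (1 - ⟪v, w⟫) := by rw [hu, real_inner_smul_right, h2]
    rw [h3, smul_mk, mul_zero]
    unfold TF.mk
    rw [← WithLp.toLp_sub, Prod.mk_sub_mk, sub_zero]
    congr 2
    rw [hu]
    have h4 : 2 * (s * (c⁻¹ * (1 - ⟪v, w⟫))) * c⁻¹ = s := by
      have h5 : 1 - ⟪v, w⟫ = c ^ 2 / 2 := by linarith
      rw [h5]
      field_simp
    rw [smul_smul, h4]
    module

/-- the integrals along the rays do not depend on the ray -/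
theorem ray_inv {F : X → ℝ} (hF : ∀ n : X, ‖n‖ = 1 → ⟪n, e1⟫ = 0 → ∀ x, x ∉ Col.ax →
    F (mir 0 n x) = F x) {v w : E2} (hv : ‖v‖ = 1) (hw : ‖w‖ = 1) (t : ℝ) {s : ℝ} (hs : 0 < s) :
    F (TF.mk t (s • v)) = F (TF.mk t (s • w)) := by
  by_cases hvw : v = w
  · rw [hvw]
  obtain ⟨n, hn, hne, h⟩ := exists_mir hv hw hvw
  rw [← h t s]
  refine (hF n hn hne _ ?_).symm
  refine mk_notMem_ax ?_
  intro h0
  rcases smul_eq_zero.mp h0 with h1 | h1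
  · exact hs.ne' h1
  · rw [h1, norm_zero] at hv
    exact zero_ne_one hv

theorem Dat.Km_inv (D : Dat φ₀ z R ρ H lo hi) {n : X} (hn : ‖n‖ = 1) (hne : ⟪n, e1⟫ = 0)
    (a b m : ℝ) {x : X} (hx : x ∉ Col.ax) :
    Km z R ρ H a b m (mir 0 n x) = Km z R ρ H a b m x := by
  unfold Km
  rw [D.wt_inv hn hne a b hx, D.wt_inv hn hne b a hx, D.wt'_inv hn hne a b hx,
    D.wt'_inv hn hne b a hx, ht_mir hn hne]

theorem Dat.Km_ray (D : Dat φ₀ z R ρ H lo hi) (a b m t : ℝ) {v w : E2} (hv : ‖v‖ = 1)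
    (hw : ‖w‖ = 1) :
    ∫ s in Ioi (0 : ℝ), s * Km z R ρ H a b m (TF.mk t (s • v)) =
      ∫ s in Ioi (0 : ℝ), s * Km z R ρ H a b m (TF.mk t (s • w)) := by
  refine setIntegral_congr_fun measurableSet_Ioi fun s hs => ?_
  show s * _ = s * _
  rw [ray_inv (fun n hn hne x hx => D.Km_inv hn hne a b m hx) hv hw t hs]

end inv

end Pool.Agent.TF.Col
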