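import Mathlib
import Pool.Agent.Lib.MP_9cf0c9_mp.Tr.Plane39
import Pool.Agent.Lib.MP_9cf0c9_mp.Tr.SlabW13
/-! Two nuclei: the force through the planes between the nuclei is the same for all planes, and
it is the integral of the current of the weights. -/

set_option autoImplicit false

set_option linter.unusedSectionVars false

set_option linter.unusedVariables false

set_option linter.style.haveILetI false

namespace Pool.Agent.TF.Grd
end Pool.Agent.TF.Grd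

namespace Pool.Agent.TF.Col

open MeasureTheory Set Metric Filter Topology

open scoped ENNReal NNReal RealInnerProductSpace Gradient

open Pool.Agent.TF.Grd

/-! ### the pressure -/

/-- the integral of `tf` -/
noncomputable def prs (v : ℝ) : ℝ := ∫ t in (0 : ℝ)..v, tf t

theorem prs_deriv (v : ℝ) : HasDerivAt prs (tf v) v :=
  intervalIntegral.integral_hasDerivAt_right (tf_continuous.intervalIntegrable _ _)
    (tf_continuous.stronglyMeasurableAtFilter _ _) tf_continuous.continuousAt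

theorem prs_cont : Continuous prs :=
  continuous_iff_continuousAt.mpr fun v => (prs_deriv v).continuousAt

theorem prs_zero {v : ℝ} (h : v ≤ 0) : prs v = 0 := by
  unfold prs
  rw [intervalIntegral.integral_symm, neg_eq_zero]
  have h1 : ∫ t in v..0, tf t = ∫ t in v..0, (0 : ℝ) := by
    refine intervalIntegral.integral_congr fun t ht => ?_
    rw [uIcc_of_le h] at ht
    exact tf_of_nonpos ht.2
  rw [h1]
  simp

theorem nonpos_of_tf {v : ℝ} (h : tf v = 0) : v ≤ 0 := by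
  by_contra hc
  push Not at hc
  have h1 : 0 < tf v := by
    unfold tf
    rw [max_eq_left hc.le]
    exact mul_pos hc (Real.sqrt_pos.mpr hc)
  exact h1.ne' h

/-! ### rays and planes -/

section ray

variable {F G : X → ℝ} {m δ : ℝ} {g : ℝ → ℝ} {v : E2}

theorem SlabOK.congr (h : SlabOK F m) (e : ∀ x, x ∉ ax → G x = F x) : SlabOK G m := by
  refine ⟨h.cont.congr fun x hx => e x hx, ?_, ?_⟩
  · obtain ⟨C, δ, hC, hδ, h1⟩ := h.near
    exact ⟨C, δ, hC, hδ, fun x hx hxa => by rw [e x hxa]; exact h1 x hx hxa⟩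
  · obtain ⟨C, N, hC, hN, h1⟩ := h.far
    exact ⟨C, N, hC, hN, fun x hx hxN => by rw [e x hx]; exact h1 x hx hxN⟩

theorem SlabOK.const_mul (h : SlabOK F m) (k : ℝ) : SlabOK (fun x => k * F x) m := by
  refine ⟨continuousOn_const.mul h.cont, ?_, ?_⟩
  · obtain ⟨C, δ, hC, hδ, h1⟩ := h.near
    refine ⟨|k| * C, δ, by positivity, hδ, fun x hx hxa => ?_⟩
    rw [abs_mul, mul_assoc]
    exact mul_le_mul_of_nonneg_left (h1 x hx hxa) (abs_nonneg _)
  · obtain ⟨C, N, hC, hN, h1⟩ := h.far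
    refine ⟨|k| * C, N, by positivity, hN, fun x hx hxN => ?_⟩
    rw [abs_mul, mul_assoc]
    exact mul_le_mul_of_nonneg_left (h1 x hx hxN) (abs_nonneg _)

/-- functions which are bounded near the axis and vanish far away -/
theorem SlabOK.of_supp (hc : ContinuousOn F axᶜ)
    (hn : ∃ C δ : ℝ, 0 < δ ∧ ∀ x ∈ ball (TF.mk m 0) δ, x ∉ ax → |F x| ≤ C)
    (hf : ∃ N : ℝ, ∀ x, x ∉ ax → N ≤ ‖x‖ → F x = 0) : SlabOK F m := by
  obtain ⟨C, δ, hδ, h1⟩ := hn
  obtain ⟨N, h2⟩ := hf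
  refine ⟨hc, ⟨|C|, δ, abs_nonneg _, hδ, fun x hx hxa => ?_⟩, ⟨0, max N 1, le_rfl, le_max_right _ _,
    fun x hx hxN => ?_⟩⟩
  · have h3 : 0 ≤ |C| * (√(ht x))⁻¹ := by positivity
    have h4 := (h1 x hx hxa).trans (le_abs_self _)
    linarith
  · rw [h2 x hx ((le_max_left _ _).trans hxN), abs_zero, zero_mul]

theorem ray_ne (hv : ‖v‖ = 1) {s : ℝ} (hs : 0 < s) : s • v ≠ 0 := by
  have h : v ≠ 0 := by
    intro h
    rw [h, norm_zero] at hv
    exact zero_ne_one hv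
  exact smul_ne_zero hs.ne' h

theorem ray_nrm (hv : ‖v‖ = 1) {s : ℝ} (hs : 0 < s) : ‖s • v‖ = s := by
  rw [norm_smul, hv, mul_one, Real.norm_of_nonneg hs.le]

theorem SlabB.ioi (h : SlabB F m δ g) : IntegrableOn (fun s => s * g s) (Ioi (0 : ℝ)) := by
  have hfin : Module.finrank ℝ E2 = 2 := by simp
  have h1 := h.int
  rw [integrable_fun_norm_addHaar (volume : Measure E2) (f := g), hfin] at h1
  refine h1.congr_fun (fun s _ => ?_) measurableSet_Ioi
  simp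

theorem SlabB.ray_bd (h : SlabB F m δ g) (hv : ‖v‖ = 1) {τ s : ℝ} (hτ : |τ - m| ≤ δ)
    (hs : 0 < s) : ‖s * F (TF.mk τ (s • v))‖ ≤ s * g s := by
  have h1 := h.bd τ hτ (s • v) (ray_ne hv hs)
  rw [ray_nrm hv hs] at h1
  rw [norm_mul, Real.norm_of_nonneg hs.le, Real.norm_eq_abs]
  exact mul_le_mul_of_nonneg_left h1 hs.le

theorem ray_meas (h : ContinuousOn F axᶜ) (hv : ‖v‖ = 1) (τ : ℝ) :
    AEStronglyMeasurable (fun s : ℝ => s * F (TF.mk τ (s • v))) (volume.restrict (Ioi 0)) := by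
  refine ContinuousOn.aestronglyMeasurable ?_ measurableSet_Ioi
  refine continuousOn_id.mul ?_
  refine h.comp (Continuous.continuousOn ?_) fun s hs => ray_off hv hs
  exact TF.mk_continuous.comp (Continuous.prodMk continuous_const (by fun_prop))

theorem SlabB.ray_int (h : SlabB F m δ g) (hv : ‖v‖ = 1) {τ : ℝ} (hτ : |τ - m| ≤ δ) :
    IntegrableOn (fun s : ℝ => s * F (TF.mk τ (s • v))) (Ioi 0) := by
  refine Integrable.mono' h.ioi (ray_meas h.cont hv τ) ?_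
  filter_upwards [ae_restrict_mem measurableSet_Ioi] with s hs
  exact h.ray_bd hv hτ hs

theorem SlabOK.ray_int (h : SlabOK F m) (hv : ‖v‖ = 1) :
    IntegrableOn (fun s : ℝ => s * F (TF.mk m (s • v))) (Ioi 0) := by
  obtain ⟨δ, g, hB⟩ := h.slabB
  exact hB.ray_int hv (by simpa using hB.pos.le)

/-- the boundary terms of the integration along a ray -/
theorem SlabOK.lim_zero (h : SlabOK F m) (hv : ‖v‖ = 1) :
    Tendsto (fun s : ℝ => s ^ 2 * F (TF.mk m (s • v))) (𝓝[>] 0) (𝓝 0) := by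
  obtain ⟨C, δ, hC, hδ, h1⟩ := h.near
  have h2 : Tendsto (fun s : ℝ => C * (s ^ 2 + s * √s)) (𝓝[>] 0) (𝓝 0) := by
    have h3 : ContinuousAt (fun s : ℝ => C * (s ^ 2 + s * √s)) 0 := by fun_prop
    have h4 := h3.tendsto.mono_left (nhdsWithin_le_nhds (s := Ioi 0))
    simpa using h4
  refine squeeze_zero_norm' ?_ h2
  filter_upwards [self_mem_nhdsWithin, Ioo_mem_nhdsGT hδ] with s hs hs'
  have hs0 : 0 < s := hs
  have h3 : TF.mk m (s • v) ∈ ball (TF.mk m 0) δ := by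
    rw [mem_ball_iff_norm]
    refine lt_of_pow_lt_pow_left₀ 2 hδ.le ?_
    rw [norm_mk_sub, ray_nrm hv hs0]
    have : s ^ 2 < δ ^ 2 := pow_lt_pow_left₀ hs'.2 hs0.le (by norm_num)
    nlinarith
  have h4 := h1 _ h3 (ray_off hv hs0)
  rw [ray_ht hv hs0.le] at h4
  have h5 : 0 < √s := Real.sqrt_pos.mpr hs0
  rw [norm_mul, Real.norm_of_nonneg (sq_nonneg s), Real.norm_eq_abs]
  refine (mul_le_mul_of_nonneg_left h4 (sq_nonneg s)).trans (le_of_eq ?_)
  have h6 : s * (√s)⁻¹ = √s := by rw [← div_eq_mul_inv, Real.div_sqrt]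
  linear_combination C * s * h6

theorem SlabOK.lim_top (h : SlabOK F m) (hv : ‖v‖ = 1) :
    Tendsto (fun s : ℝ => s ^ 2 * F (TF.mk m (s • v))) atTop (𝓝 0) := by
  obtain ⟨C, N, hC, hN, h1⟩ := h.far
  have h2 : Tendsto (fun s : ℝ => C * s⁻¹) atTop (𝓝 0) := by
    have h3 := (tendsto_inv_atTop_zero (𝕜 := ℝ)).const_mul C
    rwa [mul_zero] at h3
  refine squeeze_zero_norm' ?_ h2
  filter_upwards [eventually_ge_atTop N] with s hs
  have hs1 : 1 ≤ s := hN.trans hs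
  have hs0 : 0 < s := by linarith
  have hxs : s ≤ ‖TF.mk m (s • v)‖ := by
    refine (sq_le_sq₀ hs0.le (norm_nonneg _)).mp ?_
    rw [ray_norm' hv m s]
    nlinarith [sq_nonneg m]
  have h4 := h1 _ (ray_off hv hs0) (hs.trans hxs)
  have h5 : (‖TF.mk m (s • v)‖ ^ 4)⁻¹ ≤ (s ^ 4)⁻¹ :=
    inv_anti₀ (by positivity) (pow_le_pow_left₀ hs0.le hxs 4)
  rw [norm_mul, Real.norm_of_nonneg (sq_nonneg s), Real.norm_eq_abs]
  calc s ^ 2 * |F (TF.mk m (s • v))| ≤ s ^ 2 * (C * (s ^ 4)⁻¹) :=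
        mul_le_mul_of_nonneg_left (h4.trans (mul_le_mul_of_nonneg_left h5 hC)) (sq_nonneg s)
    _ = C * (s ^ 2)⁻¹ := by field_simp
    _ ≤ C * s⁻¹ := by
        refine mul_le_mul_of_nonneg_left (inv_anti₀ hs0 ?_) hC
        nlinarith

/-- **integration along a ray** -/
theorem SlabOK.ftc (hF : SlabOK F m) (hG : SlabOK G m) (hv : ‖v‖ = 1)
    (hd : ∀ s : ℝ, 0 < s → HasDerivAt (fun s : ℝ => s ^ 2 * F (TF.mk m (s • v)))
      (s * G (TF.mk m (s • v))) s) :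
    ∫ s in Ioi (0 : ℝ), s * G (TF.mk m (s • v)) = 0 := by
  have h1 : ContinuousWithinAt (fun s : ℝ => s ^ 2 * F (TF.mk m (s • v))) (Ici 0) 0 := by
    have h2 := hF.lim_zero hv
    rw [← continuousWithinAt_Ioi_iff_Ici]
    unfold ContinuousWithinAt
    simpa using h2
  have h3 := integral_Ioi_of_hasDerivAt_of_tendsto h1 (fun s hs => hd s hs) (hG.ray_int hv)
    (hF.lim_top hv)
  rw [h3]
  simp

/-- **differentiation in the direction of the axis** -/
theorem SlabOK.deriv_ray (hF : SlabOK F m) (hG : SlabOK G m) (hv : ‖v‖ = 1)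
    (hd : ∀ t s : ℝ, 0 < s → HasDerivAt (fun t : ℝ => F (TF.mk t (s • v)))
      (G (TF.mk t (s • v))) t) :
    HasDerivAt (fun t : ℝ => ∫ s in Ioi (0 : ℝ), s * F (TF.mk t (s • v)))
      (∫ s in Ioi (0 : ℝ), s * G (TF.mk m (s • v))) m := by
  obtain ⟨δ, g, hB⟩ := hG.slabB
  refine (hasDerivAt_integral_of_dominated_loc_of_deriv_le (bound := fun s => s * g s)
    (F' := fun t s => s * G (TF.mk t (s • v)))
    (Metric.ball_mem_nhds m hB.pos) (Eventually.of_forall fun t => ray_meas hF.cont hv t)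
    (hF.ray_int hv) (ray_meas hG.cont hv m) ?_ hB.ioi ?_).2
  · filter_upwards [ae_restrict_mem measurableSet_Ioi] with s hs t ht
    rw [mem_ball, Real.dist_eq] at ht
    exact hB.ray_bd hv ht.le hs
  · filter_upwards [ae_restrict_mem measurableSet_Ioi] with s hs t ht
    exact (hd t s hs).const_mul s

theorem line_deriv (t : ℝ) (y : E2) : HasDerivAt (fun t : ℝ => TF.mk t y) e1 t := by
  have h1 : (fun t : ℝ => TF.mk t y) = fun t : ℝ => t • e1 + TF.mk 0 y := by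
    funext t
    unfold e1
    rw [smul_mk, mul_one, smul_zero]
    unfold TF.mk
    rw [← WithLp.toLp_add, Prod.mk_add_mk, add_zero, zero_add]
  rw [h1]
  have h2 := ((hasDerivAt_id t).smul_const e1).add_const (TF.mk 0 y)
  simpa using h2

theorem c1o_line {f : X → ℝ} {f' : X → X} (hf : C1O f f') {y : E2} (hy : y ≠ 0) (t : ℝ) :
    HasDerivAt (fun t : ℝ => f (TF.mk t y)) ⟪f' (TF.mk t y), e1⟫ t := by
  have h1 := (hf.grad _ (mk_notMem_ax (τ := t) hy)).hasFDerivAt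
  have h2 := h1.comp_hasDerivAt t (line_deriv t y)
  rw [InnerProductSpace.toDual_apply_apply] at h2
  exact h2

end ray

section gen

variable {ι : Type*} [Fintype ι]

variable {φ₀ : ℝ} {z : ι → ℝ} {R : ι → X} {ρ : X → ℝ} {H : X → X →L[ℝ] X} {lo hi : ℝ}

variable {m a b : ℝ}

theorem Dat.slab_prs (D : Dat φ₀ z R ρ H lo hi) (hm : ∀ i, TF.mk m 0 ≠ R i) :
    SlabOK (fun x => prs (psi φ₀ z R ρ x)) m := by
  have hc : ContinuousAt (fun x => prs (psi φ₀ z R ρ x)) (TF.mk m 0) :=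
    prs_cont.continuousAt.comp (psi_grad D.hz D.hφ D.hρ D.heq hm).continuousAt
  obtain ⟨C, N, hF⟩ := D.farB
  refine SlabOK.of_supp (prs_cont.comp_continuousOn D.c1_psi.cont0) ?_ ⟨N, fun x hx hN => ?_⟩
  · obtain ⟨B, δ, hδ, hB, h⟩ := bdd_nhds hc
    exact ⟨B, δ, hδ, fun x hx _ => by simpa using h x hx⟩
  · have h1 := hF.rho x hN
    rw [D.heq x] at h1
    exact prs_zero (nonpos_of_tf h1)

theorem Dat.slab_rho (D : Dat φ₀ z R ρ H lo hi) (hm : ∀ i, TF.mk m 0 ≠ R i) {c : X → ℝ}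
    (hcc : Continuous c) (a b : ℝ) : SlabOK (fun x => c x * (ρ x * wt z R ρ a b x)) m := by
  have hc : ContinuousAt (fun x => c x * ρ x) (TF.mk m 0) := by
    have h1 : ContinuousAt (fun x => tf (Vpt z R x - pot ρ x - φ₀)) (TF.mk m 0) :=
      tf_continuous.continuousAt.comp (psi_grad D.hz D.hφ D.hρ D.heq hm).continuousAt
    exact hcc.continuousAt.mul (h1.congr (Eventually.of_forall fun x => (D.heq x).symm))
  obtain ⟨C, N, hF⟩ := D.farB
  refine SlabOK.of_supp (hcc.continuousOn.mul (D.c1_rho.cont0.mul (D.c1_wt a b).cont0)) ?_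
    ⟨N, fun x hx hN => ?_⟩
  · obtain ⟨B, δ, hδ, hB, h⟩ := bdd_nhds hc
    obtain ⟨C', δ', hC', hδ', h'⟩ := D.slab_wt_near a b hm
    refine ⟨|B| * C', min δ δ', lt_min hδ hδ', fun x hx hxa => ?_⟩
    have h1 := h x (ball_subset_ball (min_le_left _ _) hx)
    have h2 := h' x (ball_subset_ball (min_le_right _ _) hx) hxa
    rw [Real.norm_eq_abs] at h1
    rw [← mul_assoc, abs_mul]
    exact mul_le_mul (h1.trans (le_abs_self _)) h2 (abs_nonneg _) (abs_nonneg _)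
  · rw [hF.rho x hN, zero_mul, mul_zero]

/-! ### the stress -/

/-- the sum of the weights -/
noncomputable def sw (z : ι → ℝ) (R : ι → X) (ρ : X → ℝ) (a b : ℝ) (x : X) : ℝ :=
  wt z R ρ a b x + wt z R ρ b a x

/-- the axial component of the field -/
noncomputable def ew (z : ι → ℝ) (R : ι → X) (ρ : X → ℝ) (a b : ℝ) (x : X) : ℝ :=
  (x.fst - a) * wt z R ρ a b x + (x.fst - b) * wt z R ρ b a x

/-- the current of the weights -/
noncomputable def jw (z : ι → ℝ) (R : ι → X) (ρ : X → ℝ) (H : X → X →L[ℝ] X) (a b : ℝ)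
    (x : X) : ℝ :=
  wt z R ρ a b x * ⟪wt' z R ρ H b a x, e1⟫ - wt z R ρ b a x * ⟪wt' z R ρ H a b x, e1⟫

/-- the stress on the planes -/
noncomputable def stw (φ₀ : ℝ) (z : ι → ℝ) (R : ι → X) (ρ : X → ℝ) (a b : ℝ) (x : X) : ℝ :=
  ht x ^ 2 * sw z R ρ a b x ^ 2 - ew z R ρ a b x ^ 2 + 8 * Real.pi * prs (psi φ₀ z R ρ x)

/-- its derivative -/
noncomputable def stw' (z : ι → ℝ) (R : ι → X) (ρ : X → ℝ) (H : X → X →L[ℝ] X) (a b : ℝ)
    (x : X) : ℝ :=
  2 * ht x ^ 2 * sw z R ρ a b x * (⟪wt' z R ρ H a b x, e1⟫ + ⟪wt' z R ρ H b a x, e1⟫) -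
    2 * ew z R ρ a b x * (sw z R ρ a b x + (x.fst - a) * ⟪wt' z R ρ H a b x, e1⟫ +
      (x.fst - b) * ⟪wt' z R ρ H b a x, e1⟫) - 8 * Real.pi * ρ x * ew z R ρ a b x

/-- the boundary term of the flux -/
noncomputable def bw (φ₀ : ℝ) (z : ι → ℝ) (R : ι → X) (ρ : X → ℝ) (a b : ℝ) (x : X) : ℝ :=
  (ht x ^ 2 * sw z R ρ a b x ^ 2 + ew z R ρ a b x ^ 2) / 2 -
    4 * Real.pi * prs (psi φ₀ z R ρ x)

theorem cont_mix (k l a b : ℝ) :
    Continuous fun x : X => k * ht x ^ 2 + l * ((x.fst - a) * (x.fst - b)) := by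
  have := ht_continuous
  fun_prop

theorem mix_bd (k l a b : ℝ) : ∃ K : ℝ, 0 ≤ K ∧ ∀ x : X, 1 ≤ ‖x‖ →
    |k * ht x ^ 2 + l * ((x.fst - a) * (x.fst - b))| ≤ K * ‖x‖ ^ 2 := by
  obtain ⟨K, hK, h⟩ := poly_bd a b
  refine ⟨|k + l| + |l| * K, by positivity, fun x hx => ?_⟩
  have h1 : ht x ^ 2 ≤ ‖x‖ ^ 2 := by
    rw [norm_sq_eq]
    unfold ht
    nlinarith [sq_nonneg x.fst]
  have e : k * ht x ^ 2 + l * ((x.fst - a) * (x.fst - b)) =
      (k + l) * ht x ^ 2 + -l * (ht x ^ 2 - (x.fst - a) * (x.fst - b)) := by ring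
  rw [e]
  refine (abs_add_le _ _).trans ?_
  rw [abs_mul, abs_mul, abs_neg, abs_of_nonneg (sq_nonneg (ht x)), add_mul, mul_assoc |l|]
  exact add_le_add (mul_le_mul_of_nonneg_left h1 (abs_nonneg _))
    (mul_le_mul_of_nonneg_left (h x hx) (abs_nonneg _))

theorem cont_lin (k l a b : ℝ) : Continuous fun x : X => k * (x.fst - a) + l * (x.fst - b) := by
  fun_prop

theorem lin_bd (k l a b : ℝ) : ∃ K : ℝ, 0 ≤ K ∧ ∀ x : X, 1 ≤ ‖x‖ →
    |k * (x.fst - a) + l * (x.fst - b)| ≤ K * ‖x‖ ^ 2 := by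
  refine ⟨|k| * (1 + |a|) + |l| * (1 + |b|), by positivity, fun x hx => ?_⟩
  have h2 := TF.abs_fst_le x
  have h5 : ‖x‖ ≤ ‖x‖ ^ 2 := by nlinarith
  have h4 : ∀ c : ℝ, |x.fst - c| ≤ (1 + |c|) * ‖x‖ ^ 2 := fun c => by
    refine (abs_sub _ _).trans ?_
    nlinarith [mul_nonneg (abs_nonneg c) (sub_nonneg.mpr (hx.trans h5))]
  refine (abs_add_le _ _).trans ?_
  rw [abs_mul, abs_mul]
  have g1 := mul_le_mul_of_nonneg_left (h4 a) (abs_nonneg k)
  have g2 := mul_le_mul_of_nonneg_left (h4 b) (abs_nonneg l)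
  linarith

theorem Dat.slab_mix (D : Dat φ₀ z R ρ H lo hi) (hm : ∀ i, TF.mk m 0 ≠ R i) (k l c d : ℝ)
    (a b a' b' : ℝ) : SlabOK (fun x => (k * ht x ^ 2 + l * ((x.fst - c) * (x.fst - d))) *
      (wt z R ρ a b x * wt z R ρ a' b' x)) m :=
  D.slab_ww hm (cont_mix k l c d) (mix_bd k l c d) a b a' b'

theorem Dat.slab_mix' (D : Dat φ₀ z R ρ H lo hi) (hm : ∀ i, TF.mk m 0 ≠ R i) (k l c d : ℝ)
    (a b a' b' : ℝ) : SlabOK (fun x => (k * ht x ^ 2 + l * ((x.fst - c) * (x.fst - d))) *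
      (wt z R ρ a b x * ⟪wt' z R ρ H a' b' x, e1⟫)) m :=
  D.slab_wwp hm (cont_mix k l c d) (mix_bd k l c d) a b a' b'

theorem Dat.slab_lin (D : Dat φ₀ z R ρ H lo hi) (hm : ∀ i, TF.mk m 0 ≠ R i) (k l c d : ℝ)
    (a b a' b' : ℝ) : SlabOK (fun x => (k * (x.fst - c) + l * (x.fst - d)) *
      (wt z R ρ a b x * wt z R ρ a' b' x)) m :=
  D.slab_ww hm (cont_lin k l c d) (lin_bd k l c d) a b a' b'

theorem Dat.slab_jw (D : Dat φ₀ z R ρ H lo hi) (hm : ∀ i, TF.mk m 0 ≠ R i) (a b : ℝ) :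
    SlabOK (fun x => ht x ^ 2 * jw z R ρ H a b x) m := by
  refine ((D.slab_mix' hm 1 0 a b a b b a).sub (D.slab_mix' hm 1 0 a b b a a b)).congr
    fun x hx => ?_
  unfold jw
  ring

theorem Dat.slab_stw (D : Dat φ₀ z R ρ H lo hi) (hm : ∀ i, TF.mk m 0 ≠ R i) (a b : ℝ) :
    SlabOK (stw φ₀ z R ρ a b) m := by
  refine ((((D.slab_mix hm 1 (-1) a a a b a b).add (D.slab_mix hm 2 (-2) a b a b b a)).add
    (D.slab_mix hm 1 (-1) b b b a b a)).add ((D.slab_prs hm).const_mul (8 * Real.pi))).congr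
    fun x hx => ?_
  unfold stw sw ew
  ring

theorem Dat.slab_bw (D : Dat φ₀ z R ρ H lo hi) (hm : ∀ i, TF.mk m 0 ≠ R i) (a b : ℝ) :
    SlabOK (bw φ₀ z R ρ a b) m := by
  refine ((((D.slab_mix hm (1 / 2) (1 / 2) a a a b a b).add (D.slab_mix hm 1 1 a b a b b a)).add
    (D.slab_mix hm (1 / 2) (1 / 2) b b b a b a)).add
      ((D.slab_prs hm).const_mul (-(4 * Real.pi)))).congr fun x hx => ?_
  unfold bw sw ew
  ring

theorem Dat.slab_se (D : Dat φ₀ z R ρ H lo hi) (hm : ∀ i, TF.mk m 0 ≠ R i) (a b : ℝ) :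
    SlabOK (fun x => 2 * (sw z R ρ a b x * ew z R ρ a b x)) m := by
  refine (((D.slab_lin hm 2 0 a b a b a b).add (D.slab_lin hm 2 2 a b a b b a)).add
    (D.slab_lin hm 0 2 a b b a b a)).congr fun x hx => ?_
  unfold sw ew
  ring

theorem Dat.slab_stw' (D : Dat φ₀ z R ρ H lo hi) (hm : ∀ i, TF.mk m 0 ≠ R i) (a b : ℝ) :
    SlabOK (stw' z R ρ H a b) m := by
  have h1 := (((D.slab_mix' hm 2 (-2) a a a b a b).add (D.slab_mix' hm 2 (-2) a b a b b a)).add
    (D.slab_mix' hm 2 (-2) a b b a a b)).add (D.slab_mix' hm 2 (-2) b b b a b a)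
  have h2 := ((D.slab_lin hm 2 0 a b a b a b).add (D.slab_lin hm 2 2 a b a b b a)).add
    (D.slab_lin hm 0 2 a b b a b a)
  have h3 := (D.slab_rho hm (c := fun x => 8 * Real.pi * (x.fst - a)) (by fun_prop) a b).add
    (D.slab_rho hm (c := fun x => 8 * Real.pi * (x.fst - b)) (by fun_prop) b a)
  refine ((h1.sub h2).sub h3).congr fun x hx => ?_
  unfold stw' sw ew
  ring

theorem Dat.psi_es (D : Dat φ₀ z R ρ H lo hi) {a b : ℝ} (hab : a ≠ b) {x : X}
    (hx : x ∉ Col.ax) : ⟪psi' z R ρ x, es x⟫ = -(ht x * sw z R ρ a b x) := by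
  rw [D.psi'_wt hab hx, inner_neg_left, inner_add_left, real_inner_smul_left,
    real_inner_smul_left, inner_sub_left, inner_sub_left, real_inner_smul_left,
    real_inner_smul_left, inner_self_es hx, inner_e1_es]
  unfold sw
  ring

theorem Dat.psi_e1 (D : Dat φ₀ z R ρ H lo hi) {a b : ℝ} (hab : a ≠ b) {x : X}
    (hx : x ∉ Col.ax) : ⟪psi' z R ρ x, e1⟫ = -ew z R ρ a b x := by
  have h := D.E1_wt hab hx
  unfold ew
  linarith

/-- the derivative of the stress in the direction of the axis -/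
theorem Dat.stw_line (D : Dat φ₀ z R ρ H lo hi) {a b : ℝ} (hab : a ≠ b) {v : E2}
    (hv : ‖v‖ = 1) (t s : ℝ) (hs : 0 < s) :
    HasDerivAt (fun t : ℝ => stw φ₀ z R ρ a b (TF.mk t (s • v)))
      (stw' z R ρ H a b (TF.mk t (s • v))) t := by
  have hy := ray_ne hv hs
  have hx : TF.mk t (s • v) ∉ Col.ax := mk_notMem_ax hy
  have dq := c1o_line (D.c1_wt a b) hy t
  have dp := c1o_line (D.c1_wt b a) hy t
  have dpsi := (prs_deriv _).comp t (c1o_line D.c1_psi hy t)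
  have dl : ∀ c : ℝ, HasDerivAt (fun t : ℝ => t - c) 1 t := fun c => by
    simpa using (hasDerivAt_id t).sub_const c
  have d1 := (((dq.add dp).pow 2).const_mul (s ^ 2)).sub
    (((((dl a).mul dq).add ((dl b).mul dp)).pow 2))
  have d2 := d1.add (dpsi.const_mul (8 * Real.pi))
  have e0 : (fun t : ℝ => stw φ₀ z R ρ a b (TF.mk t (s • v))) = fun t : ℝ =>
      s ^ 2 * (wt z R ρ a b (TF.mk t (s • v)) + wt z R ρ b a (TF.mk t (s • v))) ^ 2 -
        ((t - a) * wt z R ρ a b (TF.mk t (s • v)) + (t - b) * wt z R ρ b a (TF.mk t (s • v))) ^ 2 +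
        8 * Real.pi * prs (psi φ₀ z R ρ (TF.mk t (s • v))) := by
    funext t
    unfold stw sw ew
    rw [ray_ht hv hs.le, mk_fst]
  rw [e0]
  refine HasDerivAt.congr_deriv (f := fun t : ℝ =>
      s ^ 2 * (wt z R ρ a b (TF.mk t (s • v)) + wt z R ρ b a (TF.mk t (s • v))) ^ 2 -
        ((t - a) * wt z R ρ a b (TF.mk t (s • v)) + (t - b) * wt z R ρ b a (TF.mk t (s • v))) ^ 2 +
        8 * Real.pi * prs (psi φ₀ z R ρ (TF.mk t (s • v)))) d2 ?_
  have h1 := D.psi_e1 hab hx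
  have h2 : tf (psi φ₀ z R ρ (TF.mk t (s • v))) = ρ (TF.mk t (s • v)) := (D.heq _).symm
  simp only [Pi.add_apply, Pi.mul_apply, Nat.cast_ofNat, Nat.add_one_sub_one, pow_one]
  rw [h1, h2]
  unfold stw' sw ew
  rw [ray_ht hv hs.le, mk_fst]
  ring

/-- the derivative of the stress is a derivative along the ray -/
theorem Dat.se_ray (D : Dat φ₀ z R ρ H lo hi) {a b m : ℝ} (hab : a ≠ b) {v : E2}
    (hv : ‖v‖ = 1) (s : ℝ) (hs : 0 < s) :
    HasDerivAt (fun s : ℝ => s ^ 2 * (2 * (sw z R ρ a b (TF.mk m (s • v)) *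
      ew z R ρ a b (TF.mk m (s • v))))) (s * stw' z R ρ H a b (TF.mk m (s • v))) s := by
  have hx := ray_off (m := m) hv hs
  have dq := c1o_ray (m := m) (D.c1_wt a b) hv hs
  have dp := c1o_ray (m := m) (D.c1_wt b a) hv hs
  have d1 := ((hasDerivAt_pow 2 s).mul (((dq.add dp).mul
    ((dq.const_mul (m - a)).add (dp.const_mul (m - b)))).const_mul 2))
  have e0 : (fun s : ℝ => s ^ 2 * (2 * (sw z R ρ a b (TF.mk m (s • v)) *
      ew z R ρ a b (TF.mk m (s • v))))) = fun s : ℝ => s ^ 2 * (2 *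
      ((wt z R ρ a b (TF.mk m (s • v)) + wt z R ρ b a (TF.mk m (s • v))) *
      ((m - a) * wt z R ρ a b (TF.mk m (s • v)) + (m - b) * wt z R ρ b a (TF.mk m (s • v))))) := by
    funext s
    unfold sw ew
    rw [mk_fst]
  rw [e0]
  refine HasDerivAt.congr_deriv (f := fun s : ℝ => s ^ 2 * (2 *
      ((wt z R ρ a b (TF.mk m (s • v)) + wt z R ρ b a (TF.mk m (s • v))) *
      ((m - a) * wt z R ρ a b (TF.mk m (s • v)) + (m - b) * wt z R ρ b a (TF.mk m (s • v)))))) d1 ?_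
  have hA := D.rot_wt hab hx
  have hB := D.wt_div hab hx
  unfold rot at hA
  rw [mk_fst, ray_ht hv hs.le] at hA
  rw [mk_fst, ray_ht hv hs.le] at hB
  simp only [Pi.add_apply, Pi.mul_apply, Nat.cast_ofNat, Nat.add_one_sub_one, pow_one]
  unfold stw' sw ew
  rw [ray_ht hv hs.le, mk_fst]
  generalize wt z R ρ a b (TF.mk m (s • v)) = q at *
  generalize wt z R ρ b a (TF.mk m (s • v)) = p at *
  generalize ⟪wt' z R ρ H a b (TF.mk m (s • v)), e1⟫ = q1 at *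
  generalize ⟪wt' z R ρ H b a (TF.mk m (s • v)), e1⟫ = p1 at *
  generalize ⟪wt' z R ρ H a b (TF.mk m (s • v)), es (TF.mk m (s • v))⟫ = qs at *
  generalize ⟪wt' z R ρ H b a (TF.mk m (s • v)), es (TF.mk m (s • v))⟫ = ps at *
  linear_combination 2 * s ^ 2 * (q + p) * hA +
    2 * s * ((m - a) * q + (m - b) * p) * hB

/-- the current is the stress plus a derivative along the ray -/
theorem Dat.bw_ray (D : Dat φ₀ z R ρ H lo hi) {a b m : ℝ} (hab : a ≠ b) {v : E2}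
    (hv : ‖v‖ = 1) (s : ℝ) (hs : 0 < s) :
    HasDerivAt (fun s : ℝ => s ^ 2 * bw φ₀ z R ρ a b (TF.mk m (s • v)))
      (s * ((b - a) * (ht (TF.mk m (s • v)) ^ 2 * jw z R ρ H a b (TF.mk m (s • v))) -
        stw φ₀ z R ρ a b (TF.mk m (s • v)))) s := by
  have hx := ray_off (m := m) hv hs
  have dq := c1o_ray (m := m) (D.c1_wt a b) hv hs
  have dp := c1o_ray (m := m) (D.c1_wt b a) hv hs
  have dpsi := (prs_deriv _).comp s (c1o_ray (m := m) D.c1_psi hv hs)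
  have d1 := ((hasDerivAt_pow 2 s).mul ((dq.add dp).pow 2)).add
    ((((dq.const_mul (m - a)).add (dp.const_mul (m - b))).pow 2))
  have d2 := (hasDerivAt_pow 2 s).mul
    ((d1.const_mul (1 / 2)).sub (dpsi.const_mul (4 * Real.pi)))
  have e0 : HasDerivAt (fun s : ℝ => s ^ 2 * bw φ₀ z R ρ a b (TF.mk m (s • v)))
      (s * ((b - a) * (ht (TF.mk m (s • v)) ^ 2 * jw z R ρ H a b (TF.mk m (s • v))) -
        stw φ₀ z R ρ a b (TF.mk m (s • v)))) s ↔
      HasDerivAt (fun s : ℝ => s ^ 2 * ((1 / 2) *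
      (s ^ 2 * (wt z R ρ a b (TF.mk m (s • v)) + wt z R ρ b a (TF.mk m (s • v))) ^ 2 +
      ((m - a) * wt z R ρ a b (TF.mk m (s • v)) + (m - b) * wt z R ρ b a (TF.mk m (s • v))) ^ 2) -
      4 * Real.pi * prs (psi φ₀ z R ρ (TF.mk m (s • v)))))
      (s * ((b - a) * (ht (TF.mk m (s • v)) ^ 2 * jw z R ρ H a b (TF.mk m (s • v))) -
        stw φ₀ z R ρ a b (TF.mk m (s • v)))) s := by
    refine ⟨fun h => h.congr_of_eventuallyEq ?_, fun h => h.congr_of_eventuallyEq ?_⟩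
    · filter_upwards [Ioi_mem_nhds hs] with s hs
      unfold bw sw ew
      rw [ray_ht hv (le_of_lt hs), mk_fst]
      ring
    · filter_upwards [Ioi_mem_nhds hs] with s hs
      unfold bw sw ew
      rw [ray_ht hv (le_of_lt hs), mk_fst]
      ring
  rw [e0]
  refine HasDerivAt.congr_deriv (f := fun s : ℝ => s ^ 2 * ((1 / 2) *
      (s ^ 2 * (wt z R ρ a b (TF.mk m (s • v)) + wt z R ρ b a (TF.mk m (s • v))) ^ 2 +
      ((m - a) * wt z R ρ a b (TF.mk m (s • v)) + (m - b) * wt z R ρ b a (TF.mk m (s • v))) ^ 2) -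
      4 * Real.pi * prs (psi φ₀ z R ρ (TF.mk m (s • v))))) d2 ?_
  have hA := D.rot_wt hab hx
  have hB := D.wt_div hab hx
  have h1 := D.psi_es hab hx
  have h2 : tf (psi φ₀ z R ρ (TF.mk m (s • v))) = ρ (TF.mk m (s • v)) := (D.heq _).symm
  unfold rot at hA
  rw [mk_fst, ray_ht hv hs.le] at hA
  rw [mk_fst, ray_ht hv hs.le] at hB
  simp only [Pi.add_apply, Pi.mul_apply, Pi.sub_apply, Pi.pow_apply, Function.comp_apply,
    Nat.cast_ofNat, Nat.add_one_sub_one, pow_one, one_div]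
  rw [h1, h2]
  unfold stw jw sw ew
  rw [ray_ht hv hs.le, mk_fst]
  generalize wt z R ρ a b (TF.mk m (s • v)) = q at *
  generalize wt z R ρ b a (TF.mk m (s • v)) = p at *
  generalize ⟪wt' z R ρ H a b (TF.mk m (s • v)), e1⟫ = q1 at *
  generalize ⟪wt' z R ρ H b a (TF.mk m (s • v)), e1⟫ = p1 at *
  generalize ⟪wt' z R ρ H a b (TF.mk m (s • v)), es (TF.mk m (s • v))⟫ = qs at *
  generalize ⟪wt' z R ρ H b a (TF.mk m (s • v)), es (TF.mk m (s • v))⟫ = ps at *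
  linear_combination s ^ 2 * ((m - a) * q + (m - b) * p) * hA + s ^ 3 * (q + p) * hB

end gen

section two

variable {φ₀ : ℝ} {z : Fin 2 → ℝ} {R : Fin 2 → X} {ρ : X → ℝ} {H : X → X →L[ℝ] X} {lo hi : ℝ}

theorem mk_ne_nuc {m : ℝ} (h0 : (R 0).fst < m) (h1 : m < (R 1).fst) (i : Fin 2) :
    TF.mk m 0 ≠ R i := by
  intro h
  have h2 : m = (R i).fst := by rw [← h]; rfl
  revert i
  refine Fin.forall_fin_two.mpr ⟨fun _ h => ?_, fun _ h => ?_⟩ <;> linarith

theorem Dat.flux_stw (D : Dat φ₀ z R ρ H lo hi) {a b m : ℝ} (hab : a ≠ b)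
    (hm : ∀ i, TF.mk m 0 ≠ R i) {v : E2} (hv : ‖v‖ = 1) :
    (b - a) * ∫ s in Ioi (0 : ℝ), s * (ht (TF.mk m (s • v)) ^ 2 *
      jw z R ρ H a b (TF.mk m (s • v))) =
      ∫ s in Ioi (0 : ℝ), s * stw φ₀ z R ρ a b (TF.mk m (s • v)) := by
  have h1 := ((D.slab_jw hm a b).const_mul (b - a)).sub (D.slab_stw hm a b)
  have h2 := (D.slab_bw hm a b).ftc h1 hv fun s hs => D.bw_ray hab hv s hs
  have h3 : Integrable (fun s : ℝ => (b - a) * (s * (ht (TF.mk m (s • v)) ^ 2 *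
      jw z R ρ H a b (TF.mk m (s • v))))) (volume.restrict (Ioi 0)) :=
    ((D.slab_jw hm a b).ray_int hv).const_mul (b - a)
  have h4 : Integrable (fun s : ℝ => s * stw φ₀ z R ρ a b (TF.mk m (s • v)))
    (volume.restrict (Ioi 0)) := (D.slab_stw hm a b).ray_int hv
  have h5 := integral_sub h3 h4
  rw [integral_const_mul] at h5
  have h6 : ∫ s in Ioi (0 : ℝ), ((b - a) * (s * (ht (TF.mk m (s • v)) ^ 2 *
      jw z R ρ H a b (TF.mk m (s • v)))) - s * stw φ₀ z R ρ a b (TF.mk m (s • v))) = 0 := by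
    refine Eq.trans ?_ h2
    refine integral_congr_ae (Eventually.of_forall fun s => ?_)
    simp only
    ring
  linarith

/-- **the flux constant** -/
theorem Dat.flux_const (D : Dat φ₀ z R ρ H lo hi) (hlt : (R 0).fst < (R 1).fst)
    {m n : ℝ} (hm0 : (R 0).fst < m) (hm1 : m < (R 1).fst) (hn0 : (R 0).fst < n)
    (hn1 : n < (R 1).fst) {v : E2} (hv : ‖v‖ = 1) :
    ∫ s in Ioi (0 : ℝ), s * (ht (TF.mk m (s • v)) ^ 2 *
      jw z R ρ H (R 0).fst (R 1).fst (TF.mk m (s • v))) =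
    ∫ s in Ioi (0 : ℝ), s * (ht (TF.mk n (s • v)) ^ 2 *
      jw z R ρ H (R 0).fst (R 1).fst (TF.mk n (s • v))) := by
  have key : ∀ m n : ℝ, (R 0).fst < m → m ≤ n → n < (R 1).fst →
      ∫ s in Ioi (0 : ℝ), s * (ht (TF.mk m (s • v)) ^ 2 *
        jw z R ρ H (R 0).fst (R 1).fst (TF.mk m (s • v))) =
      ∫ s in Ioi (0 : ℝ), s * (ht (TF.mk n (s • v)) ^ 2 *
        jw z R ρ H (R 0).fst (R 1).fst (TF.mk n (s • v))) := by
    intro m n hm hmn hn
    have hd : ∀ t ∈ Icc m n, HasDerivAt (fun t : ℝ => ∫ s in Ioi (0 : ℝ), s *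
        stw φ₀ z R ρ (R 0).fst (R 1).fst (TF.mk t (s • v))) 0 t := fun t ht => by
      have hnu := mk_ne_nuc (R := R) (lt_of_lt_of_le hm ht.1) (lt_of_le_of_lt ht.2 hn)
      have h1 := (D.slab_stw hnu (R 0).fst (R 1).fst).deriv_ray (D.slab_stw' hnu _ _) hv
        fun t s hs => D.stw_line hlt.ne hv t s hs
      rwa [(D.slab_se hnu (R 0).fst (R 1).fst).ftc (D.slab_stw' hnu _ _) hv
        fun s hs => D.se_ray hlt.ne hv s hs] at h1
    have h2 := constant_of_has_deriv_right_zero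
      (fun t ht => (hd t ht).continuousAt.continuousWithinAt)
      (fun t ht => (hd t (Ico_subset_Icc_self ht)).hasDerivWithinAt) n (right_mem_Icc.mpr hmn)
    have e1 := D.flux_stw hlt.ne (mk_ne_nuc (R := R) hm (lt_of_le_of_lt hmn hn)) hv
    have e2 := D.flux_stw hlt.ne (mk_ne_nuc (R := R) (lt_of_lt_of_le hm hmn) hn) hv
    have h3 : 0 < (R 1).fst - (R 0).fst := by linarith
    refine mul_left_cancel₀ h3.ne' ?_
    rw [e1, e2]
    exact h2.symm
  rcases le_total m n with h | h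
  · exact key m n hm0 h hn1
  · exact (key n m hn0 h hm1).symm

/-- **the flux constant**, in terms of the weights -/
theorem Dat.flux_const3 (D : Dat φ₀ z R ρ H lo hi) (hlt : (R 0).fst < (R 1).fst)
    {m n : ℝ} (hm0 : (R 0).fst < m) (hm1 : m < (R 1).fst) (hn0 : (R 0).fst < n)
    (hn1 : n < (R 1).fst) {v : E2} (hv : ‖v‖ = 1) :
    ∫ s in Ioi (0 : ℝ), s ^ 3 * (wt z R ρ (R 0).fst (R 1).fst (TF.mk m (s • v)) *
        ⟪wt' z R ρ H (R 1).fst (R 0).fst (TF.mk m (s • v)), e1⟫ -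
      wt z R ρ (R 1).fst (R 0).fst (TF.mk m (s • v)) *
        ⟪wt' z R ρ H (R 0).fst (R 1).fst (TF.mk m (s • v)), e1⟫) =
    ∫ s in Ioi (0 : ℝ), s ^ 3 * (wt z R ρ (R 0).fst (R 1).fst (TF.mk n (s • v)) *
        ⟪wt' z R ρ H (R 1).fst (R 0).fst (TF.mk n (s • v)), e1⟫ -
      wt z R ρ (R 1).fst (R 0).fst (TF.mk n (s • v)) *
        ⟪wt' z R ρ H (R 0).fst (R 1).fst (TF.mk n (s • v)), e1⟫) := by
  have key : ∀ t : ℝ, ∫ s in Ioi (0 : ℝ), s ^ 3 * (wt z R ρ (R 0).fst (R 1).fst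
        (TF.mk t (s • v)) * ⟪wt' z R ρ H (R 1).fst (R 0).fst (TF.mk t (s • v)), e1⟫ -
      wt z R ρ (R 1).fst (R 0).fst (TF.mk t (s • v)) *
        ⟪wt' z R ρ H (R 0).fst (R 1).fst (TF.mk t (s • v)), e1⟫) =
      ∫ s in Ioi (0 : ℝ), s * (ht (TF.mk t (s • v)) ^ 2 *
        jw z R ρ H (R 0).fst (R 1).fst (TF.mk t (s • v))) := fun t => by
    refine setIntegral_congr_fun measurableSet_Ioi fun s hs => ?_
    unfold jw
    rw [ray_ht hv (le_of_lt hs)]
    ring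
  rw [key, key]
  exact D.flux_const hlt hm0 hm1 hn0 hn1 hv

end two

end Pool.Agent.TF.Col
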