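import Mathlib
import Pool.Agent.Lib.MP_9cf0c9_mp.Tr.Flux29
import Pool.Agent.Lib.MP_9cf0c9_mp.Tr.Km36
/-! Two nuclei: the derivative of the plane integral of `E₁ p` in the direction of the axis. -/

set_option autoImplicit false

set_option linter.unusedSectionVars false

set_option linter.unusedVariables false

set_option linter.style.haveILetI false

namespace Pool.Agent.TF.Grd
end Pool.Agent.TF.Grd

namespace Pool.Agent.TF.Col

open MeasureTheory Set Metric Filter Topology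

open scoped ENNReal NNReal RealInnerProductSpace Gradient

open Pool.Agent.TF.Grd

theorem int_lin6 {μ : Measure ℝ} {A B C E F G : ℝ → ℝ} (hA : Integrable A μ)
    (hB : Integrable B μ) (hC : Integrable C μ) (hE : Integrable E μ) (hF : Integrable F μ)
    (hG : Integrable G μ) (a b c d e f : ℝ) :
    ∫ x, (a * A x + b * B x + c * C x + d * E x + e * F x + f * G x) ∂μ =
      a * (∫ x, A x ∂μ) + b * (∫ x, B x ∂μ) + c * (∫ x, C x ∂μ) + d * (∫ x, E x ∂μ) +
        e * (∫ x, F x ∂μ) + f * (∫ x, G x ∂μ) := by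
  have j1 : Integrable (fun x => a * A x) μ := hA.const_mul a
  have j2 : Integrable (fun x => b * B x) μ := hB.const_mul b
  have j3 : Integrable (fun x => c * C x) μ := hC.const_mul c
  have j4 : Integrable (fun x => d * E x) μ := hE.const_mul d
  have j5 : Integrable (fun x => e * F x) μ := hF.const_mul e
  have j6 : Integrable (fun x => f * G x) μ := hG.const_mul f
  have k2 : Integrable (fun x => a * A x + b * B x) μ := j1.add j2
  have k3 : Integrable (fun x => a * A x + b * B x + c * C x) μ := k2.add j3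
  have k4 : Integrable (fun x => a * A x + b * B x + c * C x + d * E x) μ := k3.add j4
  have k5 : Integrable (fun x => a * A x + b * B x + c * C x + d * E x + e * F x) μ := k4.add j5
  rw [integral_add k5 j6, integral_add k4 j5, integral_add k3 j4, integral_add k2 j3,
    integral_add j1 j2]
  simp only [integral_const_mul]

section gen

variable {ι : Type*} [Fintype ι]

variable {φ₀ : ℝ} {z : ι → ℝ} {R : ι → X} {ρ : X → ℝ} {H : X → X →L[ℝ] X} {lo hi : ℝ}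

variable {m a b : ℝ}

/-- `E₁ p` -/
noncomputable def kw (z : ι → ℝ) (R : ι → X) (ρ : X → ℝ) (a b : ℝ) (x : X) : ℝ :=
  ew z R ρ a b x * sw z R ρ a b x

/-- its derivative in the direction of the axis -/
noncomputable def kw' (z : ι → ℝ) (R : ι → X) (ρ : X → ℝ) (H : X → X →L[ℝ] X) (a b : ℝ)
    (x : X) : ℝ :=
  (sw z R ρ a b x + (x.fst - a) * ⟪wt' z R ρ H a b x, e1⟫ +
    (x.fst - b) * ⟪wt' z R ρ H b a x, e1⟫) * sw z R ρ a b x +
    ew z R ρ a b x * (⟪wt' z R ρ H a b x, e1⟫ + ⟪wt' z R ρ H b a x, e1⟫)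

/-- the derivative of `s² p²` along the rays, divided by `s` -/
noncomputable def rw' (z : ι → ℝ) (R : ι → X) (ρ : X → ℝ) (H : X → X →L[ℝ] X) (a b : ℝ)
    (x : X) : ℝ :=
  -4 * sw z R ρ a b x ^ 2 - 2 * sw z R ρ a b x * ((x.fst - a) * ⟪wt' z R ρ H a b x, e1⟫ +
    (x.fst - b) * ⟪wt' z R ρ H b a x, e1⟫) - 8 * Real.pi * ρ x * sw z R ρ a b x

theorem Dat.slab_lin' (D : Dat φ₀ z R ρ H lo hi) (hm : ∀ i, TF.mk m 0 ≠ R i) (k l c d : ℝ)
    (a b a' b' : ℝ) : SlabOK (fun x => (k * (x.fst - c) + l * (x.fst - d)) *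
      (wt z R ρ a b x * ⟪wt' z R ρ H a' b' x, e1⟫)) m :=
  D.slab_wwp hm (cont_lin k l c d) (lin_bd k l c d) a b a' b'

theorem Dat.slab_kw (D : Dat φ₀ z R ρ H lo hi) (hm : ∀ i, TF.mk m 0 ≠ R i) (a b : ℝ) :
    SlabOK (kw z R ρ a b) m := by
  refine ((D.slab_se hm a b).const_mul (1 / 2)).congr fun x hx => ?_
  unfold kw
  ring

theorem Dat.slab_sw2 (D : Dat φ₀ z R ρ H lo hi) (hm : ∀ i, TF.mk m 0 ≠ R i) (a b : ℝ) :
    SlabOK (fun x => sw z R ρ a b x ^ 2) m := by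
  refine (((D.slab_lin hm 1 (-1) 0 1 a b a b).add (D.slab_lin hm 2 (-2) 0 1 a b b a)).add
    (D.slab_lin hm 1 (-1) 0 1 b a b a)).congr fun x hx => ?_
  unfold sw
  ring

theorem Dat.slab_rsw (D : Dat φ₀ z R ρ H lo hi) (hm : ∀ i, TF.mk m 0 ≠ R i) (a b : ℝ) :
    SlabOK (fun x => 4 * Real.pi * ρ x * sw z R ρ a b x) m := by
  have h3 := (D.slab_rho hm (c := fun x => 4 * Real.pi) (by fun_prop) a b).add
    (D.slab_rho hm (c := fun x => 4 * Real.pi) (by fun_prop) b a)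
  refine h3.congr fun x hx => ?_
  unfold sw
  ring

theorem Dat.slab_kw' (D : Dat φ₀ z R ρ H lo hi) (hm : ∀ i, TF.mk m 0 ≠ R i) (a b : ℝ) :
    SlabOK (kw' z R ρ H a b) m := by
  have h1 := ((D.slab_lin' hm 2 0 a b a b a b).add (D.slab_lin' hm 1 1 a b b a a b)).add
    ((D.slab_lin' hm 0 2 a b b a b a).add (D.slab_lin' hm 1 1 a b a b b a))
  refine ((D.slab_sw2 hm a b).add h1).congr fun x hx => ?_
  unfold kw' sw ew
  ring

theorem Dat.slab_rw' (D : Dat φ₀ z R ρ H lo hi) (hm : ∀ i, TF.mk m 0 ≠ R i) (a b : ℝ) :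
    SlabOK (rw' z R ρ H a b) m := by
  have h1 := ((D.slab_lin' hm (-2) 0 a b a b a b).add (D.slab_lin' hm (-2) 0 a b b a a b)).add
    ((D.slab_lin' hm 0 (-2) a b b a b a).add (D.slab_lin' hm 0 (-2) a b a b b a))
  refine (((D.slab_sw2 hm a b).const_mul (-4)).add
    (h1.add ((D.slab_rsw hm a b).const_mul (-2)))).congr fun x hx => ?_
  unfold rw' sw
  ring

theorem Dat.kw_line (D : Dat φ₀ z R ρ H lo hi) {a b : ℝ} {v : E2}
    (hv : ‖v‖ = 1) (t s : ℝ) (hs : 0 < s) :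
    HasDerivAt (fun t : ℝ => kw z R ρ a b (TF.mk t (s • v)))
      (kw' z R ρ H a b (TF.mk t (s • v))) t := by
  have hy := ray_ne hv hs
  have dq := c1o_line (D.c1_wt a b) hy t
  have dp := c1o_line (D.c1_wt b a) hy t
  have dl : ∀ c : ℝ, HasDerivAt (fun t : ℝ => t - c) 1 t := fun c => by
    simpa using (hasDerivAt_id t).sub_const c
  have d1 := (((dl a).mul dq).add ((dl b).mul dp)).mul (dq.add dp)
  have e0 : (fun t : ℝ => kw z R ρ a b (TF.mk t (s • v))) = fun t : ℝ =>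
      ((t - a) * wt z R ρ a b (TF.mk t (s • v)) + (t - b) * wt z R ρ b a (TF.mk t (s • v))) *
      (wt z R ρ a b (TF.mk t (s • v)) + wt z R ρ b a (TF.mk t (s • v))) := by
    funext t
    unfold kw sw ew
    rw [mk_fst]
  rw [e0]
  refine HasDerivAt.congr_deriv (f := fun t : ℝ =>
      ((t - a) * wt z R ρ a b (TF.mk t (s • v)) + (t - b) * wt z R ρ b a (TF.mk t (s • v))) *
      (wt z R ρ a b (TF.mk t (s • v)) + wt z R ρ b a (TF.mk t (s • v)))) d1 ?_
  simp only [Pi.add_apply, Pi.mul_apply]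
  unfold kw' sw ew
  rw [mk_fst]
  ring

theorem Dat.sw2_ray (D : Dat φ₀ z R ρ H lo hi) {a b m : ℝ} (hab : a ≠ b) {v : E2}
    (hv : ‖v‖ = 1) (s : ℝ) (hs : 0 < s) :
    HasDerivAt (fun s : ℝ => s ^ 2 * sw z R ρ a b (TF.mk m (s • v)) ^ 2)
      (s * rw' z R ρ H a b (TF.mk m (s • v))) s := by
  have hx := ray_off (m := m) hv hs
  have dq := c1o_ray (m := m) (D.c1_wt a b) hv hs
  have dp := c1o_ray (m := m) (D.c1_wt b a) hv hs
  have d1 := (hasDerivAt_pow 2 s).mul ((dq.add dp).pow 2)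
  unfold sw
  refine HasDerivAt.congr_deriv (f := fun s : ℝ => s ^ 2 *
    (wt z R ρ a b (TF.mk m (s • v)) + wt z R ρ b a (TF.mk m (s • v))) ^ 2) d1 ?_
  have hB := D.wt_div hab hx
  rw [mk_fst, ray_ht hv hs.le] at hB
  simp only [Pi.add_apply, Pi.pow_apply, Nat.cast_ofNat, Nat.add_one_sub_one, pow_one]
  unfold rw' sw
  rw [mk_fst]
  generalize wt z R ρ a b (TF.mk m (s • v)) = q at *
  generalize wt z R ρ b a (TF.mk m (s • v)) = p at *
  generalize ⟪wt' z R ρ H a b (TF.mk m (s • v)), e1⟫ = q1 at *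
  generalize ⟪wt' z R ρ H b a (TF.mk m (s • v)), e1⟫ = p1 at *
  generalize ⟪wt' z R ρ H a b (TF.mk m (s • v)), es (TF.mk m (s • v))⟫ = qs at *
  generalize ⟪wt' z R ρ H b a (TF.mk m (s • v)), es (TF.mk m (s • v))⟫ = ps at *
  linear_combination 2 * s * (q + p) * hB

/-- the algebra on the plane -/
theorem km_alg (D : Dat φ₀ z R ρ H lo hi) {a b : ℝ} (x : X) :
    (b - a) * Km z R ρ H a b x.fst x - (b - a) * (ht x ^ 2 * jw z R ρ H a b x) =
      ((b - x.fst) - (x.fst - a)) * kw z R ρ a b x +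
      (x.fst - a) * (b - x.fst) * (kw' z R ρ H a b x + sw z R ρ a b x ^ 2 +
        2 * (4 * Real.pi * ρ x * sw z R ρ a b x) + rw' z R ρ H a b x) := by
  unfold Km kw kw' rw' jw sw ew
  ring

/-- **the derivative of `c K`**: `D I(t) = D N₀ + (c K)' + c ∫ p² + 2 c ∫ 4πρ p` -/
theorem Dat.hasDeriv_cK (D : Dat φ₀ z R ρ H lo hi) {a b m : ℝ} (hab : a ≠ b)
    (hm : ∀ i, TF.mk m 0 ≠ R i) {v : E2} (hv : ‖v‖ = 1) :
    HasDerivAt (fun t : ℝ => (t - a) * (b - t) *
        ∫ s in Ioi (0 : ℝ), s * kw z R ρ a b (TF.mk t (s • v)))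
      ((b - a) * (∫ s in Ioi (0 : ℝ), s * Km z R ρ H a b m (TF.mk m (s • v))) -
        (b - a) * (∫ s in Ioi (0 : ℝ), s * (ht (TF.mk m (s • v)) ^ 2 *
          jw z R ρ H a b (TF.mk m (s • v)))) -
        (m - a) * (b - m) * (∫ s in Ioi (0 : ℝ), s * sw z R ρ a b (TF.mk m (s • v)) ^ 2) -
        2 * ((m - a) * (b - m)) * (∫ s in Ioi (0 : ℝ), s *
          (4 * Real.pi * ρ (TF.mk m (s • v)) * sw z R ρ a b (TF.mk m (s • v))))) m := by
  have d1 := (D.slab_kw hm a b).deriv_ray (D.slab_kw' hm a b) hv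
    fun t s hs => D.kw_line hv t s hs
  have d2 : HasDerivAt (fun t : ℝ => (t - a) * (b - t)) ((b - m) - (m - a)) m := by
    have h1 := ((hasDerivAt_id m).sub_const a).mul ((hasDerivAt_id m).const_sub b)
    refine h1.congr_deriv ?_
    simp only [id]
    ring
  refine (d2.mul d1).congr_deriv ?_
  -- the integrals
  have i1 : Integrable (fun s : ℝ => s * kw z R ρ a b (TF.mk m (s • v)))
    (volume.restrict (Ioi 0)) := (D.slab_kw hm a b).ray_int hv
  have i2 : Integrable (fun s : ℝ => s * kw' z R ρ H a b (TF.mk m (s • v)))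
    (volume.restrict (Ioi 0)) := (D.slab_kw' hm a b).ray_int hv
  have i3 : Integrable (fun s : ℝ => s * sw z R ρ a b (TF.mk m (s • v)) ^ 2)
    (volume.restrict (Ioi 0)) := (D.slab_sw2 hm a b).ray_int hv
  have i4 : Integrable (fun s : ℝ => s * (4 * Real.pi * ρ (TF.mk m (s • v)) *
    sw z R ρ a b (TF.mk m (s • v)))) (volume.restrict (Ioi 0)) :=
    (D.slab_rsw hm a b).ray_int hv
  have i5 : Integrable (fun s : ℝ => s * rw' z R ρ H a b (TF.mk m (s • v)))
    (volume.restrict (Ioi 0)) := (D.slab_rw' hm a b).ray_int hv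
  have i6 : Integrable (fun s : ℝ => s * (ht (TF.mk m (s • v)) ^ 2 *
    jw z R ρ H a b (TF.mk m (s • v)))) (volume.restrict (Ioi 0)) :=
    (D.slab_jw hm a b).ray_int hv
  have z5 : ∫ s in Ioi (0 : ℝ), s * rw' z R ρ H a b (TF.mk m (s • v)) = 0 :=
    (D.slab_sw2 hm a b).ftc (D.slab_rw' hm a b) hv fun s hs => D.sw2_ray hab hv s hs
  obtain ⟨c, hc⟩ : ∃ c : ℝ, c = (m - a) * (b - m) := ⟨_, rfl⟩
  obtain ⟨c', hc'⟩ : ∃ c' : ℝ, c' = (b - m) - (m - a) := ⟨_, rfl⟩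
  have key : (b - a) * (∫ s in Ioi (0 : ℝ), s * Km z R ρ H a b m (TF.mk m (s • v))) =
      ∫ s in Ioi (0 : ℝ), ((b - a) * (s * (ht (TF.mk m (s • v)) ^ 2 *
        jw z R ρ H a b (TF.mk m (s • v)))) + c' * (s * kw z R ρ a b (TF.mk m (s • v))) +
        c * (s * kw' z R ρ H a b (TF.mk m (s • v))) +
        c * (s * sw z R ρ a b (TF.mk m (s • v)) ^ 2) +
        2 * c * (s * (4 * Real.pi * ρ (TF.mk m (s • v)) * sw z R ρ a b (TF.mk m (s • v)))) +
        c * (s * rw' z R ρ H a b (TF.mk m (s • v)))) := by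
    rw [← integral_const_mul]
    refine integral_congr_ae (Eventually.of_forall fun s => ?_)
    have h1 := km_alg D (a := a) (b := b) (TF.mk m (s • v))
    rw [mk_fst, ← hc, ← hc'] at h1
    simp only
    linear_combination s * h1
  have key2 : ∫ s in Ioi (0 : ℝ), ((b - a) * (s * (ht (TF.mk m (s • v)) ^ 2 *
        jw z R ρ H a b (TF.mk m (s • v)))) + c' * (s * kw z R ρ a b (TF.mk m (s • v))) +
        c * (s * kw' z R ρ H a b (TF.mk m (s • v))) +
        c * (s * sw z R ρ a b (TF.mk m (s • v)) ^ 2) +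
        2 * c * (s * (4 * Real.pi * ρ (TF.mk m (s • v)) * sw z R ρ a b (TF.mk m (s • v)))) +
        c * (s * rw' z R ρ H a b (TF.mk m (s • v)))) =
      (b - a) * (∫ s in Ioi (0 : ℝ), s * (ht (TF.mk m (s • v)) ^ 2 *
        jw z R ρ H a b (TF.mk m (s • v)))) +
      c' * (∫ s in Ioi (0 : ℝ), s * kw z R ρ a b (TF.mk m (s • v))) +
      c * (∫ s in Ioi (0 : ℝ), s * kw' z R ρ H a b (TF.mk m (s • v))) +
      c * (∫ s in Ioi (0 : ℝ), s * sw z R ρ a b (TF.mk m (s • v)) ^ 2) +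
      2 * c * (∫ s in Ioi (0 : ℝ), s * (4 * Real.pi * ρ (TF.mk m (s • v)) *
        sw z R ρ a b (TF.mk m (s • v)))) +
      c * (∫ s in Ioi (0 : ℝ), s * rw' z R ρ H a b (TF.mk m (s • v))) := by
    exact int_lin6 i6 i1 i2 i3 i4 i5 (b - a) c' c c (2 * c) c
  rw [key, key2, z5, ← hc, ← hc']
  ring

theorem Dat.kw_eq (D : Dat φ₀ z R ρ H lo hi) {a b : ℝ} (hab : a ≠ b) {x : X}
    (hx : x ∉ Col.ax) : kw z R ρ a b x = E1 z R ρ x * pf z R ρ x := by
  have h := D.E1_wt hab hx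
  unfold kw ew sw E1
  rw [h, wt_add hab]
  ring

theorem Dat.kpl_eq (D : Dat φ₀ z R ρ H lo hi) {a b : ℝ} (hab : a ≠ b) {v : E2}
    (hv : ‖v‖ = 1) (t : ℝ) : ∫ s in Ioi (0 : ℝ), s * kw z R ρ a b (TF.mk t (s • v)) =
      ∫ s in Ioi (0 : ℝ), s * (E1 z R ρ (TF.mk t (s • v)) * pf z R ρ (TF.mk t (s • v))) := by
  refine setIntegral_congr_fun measurableSet_Ioi fun s hs => ?_
  rw [D.kw_eq hab (ray_off hv hs)]

end gen

section two

variable {φ₀ : ℝ} {z : Fin 2 → ℝ} {R : Fin 2 → X} {ρ : X → ℝ} {H : X → X →L[ℝ] X} {lo hi : ℝ}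

theorem npl_eq (D : Dat φ₀ z R ρ H lo hi) (a b : ℝ) {v : E2} (hv : ‖v‖ = 1) (t : ℝ) :
    ∫ s in Ioi (0 : ℝ), s * (ht (TF.mk t (s • v)) ^ 2 * jw z R ρ H a b (TF.mk t (s • v))) =
      ∫ s in Ioi (0 : ℝ), s ^ 3 * jw z R ρ H a b (TF.mk t (s • v)) := by
  refine setIntegral_congr_fun measurableSet_Ioi fun s hs => ?_
  rw [ray_ht hv (le_of_lt hs)]
  ring

/-- **the slab inequality**: if the plane integrals of `Km` are nonpositive between the planes
`t₀` and `t₁`, then the weighted plane integral of `E₁ p` decreases by at least the flux -/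
theorem Dat.slabK0 (D : Dat φ₀ z R ρ H lo hi) (hlt : (R 0).fst < (R 1).fst) {t0 t1 w0 : ℝ}
    (h0 : (R 0).fst < t0) (h01 : t0 ≤ t1) (h1 : t1 < (R 1).fst) (hw : 0 ≤ w0)
    (HT : ∀ x, x ∉ Col.ax → t0 ≤ x.fst → x.fst ≤ t1 →
      E1 z R ρ x ≤ (w0 + (x.fst - t0)) * pf z R ρ x) {v : E2} (hv : ‖v‖ = 1)
    (HI : ∀ t, t0 ≤ t → t ≤ t1 → ∫ s in Ioi (0 : ℝ), s *
      Km z R ρ H (R 0).fst (R 1).fst t (TF.mk t (s • v)) ≤ 0) :
    (w0 + (t1 - t0)) * ((t1 - (R 0).fst) * ((R 1).fst - t1)) *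
        (∫ s in Ioi (0 : ℝ), s * (E1 z R ρ (TF.mk t1 (s • v)) * pf z R ρ (TF.mk t1 (s • v)))) -
      w0 * ((t0 - (R 0).fst) * ((R 1).fst - t0)) *
        (∫ s in Ioi (0 : ℝ), s * (E1 z R ρ (TF.mk t0 (s • v)) * pf z R ρ (TF.mk t0 (s • v)))) ≤
      -(((R 1).fst - (R 0).fst) * (∫ s in Ioi (0 : ℝ), s ^ 3 *
        jw z R ρ H (R 0).fst (R 1).fst (TF.mk t0 (s • v))) *
        (w0 * (t1 - t0) + (t1 - t0) ^ 2 / 2)) := by
  have hab := hlt.ne
  obtain ⟨N, hN⟩ : ∃ N : ℝ, N = ∫ s in Ioi (0 : ℝ), s ^ 3 *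
    jw z R ρ H (R 0).fst (R 1).fst (TF.mk t0 (s • v)) := ⟨_, rfl⟩
  have hNt : ∀ t, t0 ≤ t → t ≤ t1 → ∫ s in Ioi (0 : ℝ), s * (ht (TF.mk t (s • v)) ^ 2 *
      jw z R ρ H (R 0).fst (R 1).fst (TF.mk t (s • v))) = N := fun t ht0 ht1 => by
    rw [D.flux_const hlt (lt_of_lt_of_le h0 ht0) (lt_of_le_of_lt ht1 h1) h0
      (lt_of_le_of_lt h01 h1) hv, hN]
    exact npl_eq D _ _ hv t0
  rw [← hN, ← D.kpl_eq hab hv t1, ← D.kpl_eq hab hv t0]
  obtain ⟨G, hG⟩ : ∃ G : ℝ → ℝ, G = fun t => (w0 + (t - t0)) * ((t - (R 0).fst) *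
      ((R 1).fst - t) * ∫ s in Ioi (0 : ℝ), s * kw z R ρ (R 0).fst (R 1).fst
        (TF.mk t (s • v))) +
      ((R 1).fst - (R 0).fst) * N * (w0 * (t - t0) + (t - t0) ^ 2 / 2) := ⟨_, rfl⟩
  have hd : ∀ t, t0 ≤ t → t ≤ t1 → ∃ g' : ℝ, HasDerivAt G g' t ∧ g' ≤ 0 := fun t ht0 ht1 => by
    have hnu := mk_ne_nuc (R := R) (lt_of_lt_of_le h0 ht0) (lt_of_le_of_lt ht1 h1)
    have e1 := D.hasDeriv_cK hab hnu hv
    rw [hNt t ht0 ht1] at e1
    have e2 : HasDerivAt (fun t : ℝ => w0 + (t - t0)) 1 t := by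
      simpa using ((hasDerivAt_id t).sub_const t0).const_add w0
    have e3 : HasDerivAt (fun t : ℝ => ((R 1).fst - (R 0).fst) * N *
        (w0 * (t - t0) + (t - t0) ^ 2 / 2))
        (((R 1).fst - (R 0).fst) * N * (w0 + (t - t0))) t := by
      have e4 : HasDerivAt (fun t : ℝ => t - t0) 1 t := by
        simpa using (hasDerivAt_id t).sub_const t0
      have e5 := ((e4.const_mul w0).add ((e4.pow 2).div_const 2)).const_mul
        (((R 1).fst - (R 0).fst) * N)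
      refine HasDerivAt.congr_deriv (f := fun t : ℝ => ((R 1).fst - (R 0).fst) * N *
        (w0 * (t - t0) + (t - t0) ^ 2 / 2)) e5 ?_
      simp only [Nat.cast_ofNat, Nat.add_one_sub_one, pow_one]
      ring
    have e6 := (e2.mul e1).add e3
    refine ⟨_, by rw [hG]; exact e6, ?_⟩
    -- the sign
    have i1 : Integrable (fun s : ℝ => s * kw z R ρ (R 0).fst (R 1).fst (TF.mk t (s • v)))
      (volume.restrict (Ioi 0)) := (D.slab_kw hnu _ _).ray_int hv
    have i3 : Integrable (fun s : ℝ => s * sw z R ρ (R 0).fst (R 1).fst (TF.mk t (s • v)) ^ 2)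
      (volume.restrict (Ioi 0)) := (D.slab_sw2 hnu _ _).ray_int hv
    have hsw : ∀ s : ℝ, 0 < s → 0 < sw z R ρ (R 0).fst (R 1).fst (TF.mk t (s • v)) :=
      fun s hs => by
        unfold sw
        rw [wt_add hab]
        exact D.ax.pos _ (ray_off hv hs)
    have k1 : (∫ s in Ioi (0 : ℝ), s * kw z R ρ (R 0).fst (R 1).fst (TF.mk t (s • v))) ≤
        (w0 + (t - t0)) * ∫ s in Ioi (0 : ℝ), s *
          sw z R ρ (R 0).fst (R 1).fst (TF.mk t (s • v)) ^ 2 := by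
      rw [← integral_const_mul]
      refine setIntegral_mono_on i1 (i3.const_mul _) measurableSet_Ioi fun s hs => ?_
      have hs0 : 0 < s := hs
      have g1 := HT _ (ray_off (m := t) hv hs0) (by rwa [mk_fst]) (by rwa [mk_fst])
      have g2 := D.kw_eq hab (ray_off (m := t) hv hs0)
      have g3 := wt_add hab z R ρ (TF.mk t (s • v))
      rw [mk_fst] at g1
      rw [g2]
      unfold sw
      rw [g3]
      have g4 : 0 < pf z R ρ (TF.mk t (s • v)) := D.ax.pos _ (ray_off hv hs0)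
      have g5 := mul_le_mul_of_nonneg_right g1 (mul_nonneg hs0.le g4.le)
      linarith
    have k2 : 0 ≤ ∫ s in Ioi (0 : ℝ), s * (4 * Real.pi * ρ (TF.mk t (s • v)) *
        sw z R ρ (R 0).fst (R 1).fst (TF.mk t (s • v))) := by
      refine setIntegral_nonneg measurableSet_Ioi fun s hs => ?_
      have hs0 : 0 < s := hs
      have g1 := D.hρ.nonneg (TF.mk t (s • v))
      have g2 := (hsw s hs0).le
      positivity
    have k3 := HI t ht0 ht1
    have c0 : 0 ≤ (t - (R 0).fst) * ((R 1).fst - t) :=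
      mul_nonneg (by linarith) (by linarith)
    have om0 : 0 ≤ w0 + (t - t0) := by linarith
    have d0 : 0 ≤ (R 1).fst - (R 0).fst := by linarith
    have m1 := mul_le_mul_of_nonneg_left k1 c0
    have m2 := mul_nonneg (mul_nonneg om0 c0) k2
    have m3 := mul_nonpos_of_nonneg_of_nonpos (mul_nonneg om0 d0) k3
    nlinarith
  have hanti : AntitoneOn G (Icc t0 t1) := by
    refine antitoneOn_of_deriv_nonpos (convex_Icc t0 t1) (fun t ht => ?_) (fun t ht => ?_)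
      fun t ht => ?_
    · obtain ⟨g', h, -⟩ := hd t ht.1 ht.2
      exact h.continuousAt.continuousWithinAt
    · rw [interior_Icc] at ht
      obtain ⟨g', h, -⟩ := hd t ht.1.le ht.2.le
      exact h.differentiableAt.differentiableWithinAt
    · rw [interior_Icc] at ht
      obtain ⟨g', h, hle⟩ := hd t ht.1.le ht.2.le
      rw [h.deriv]
      exact hle
  have h2 := hanti (left_mem_Icc.mpr h01) (right_mem_Icc.mpr h01) h01
  rw [hG] at h2
  simp only [sub_self, add_zero, mul_zero, ne_eq, OfNat.ofNat_ne_zero, not_false_eq_true,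
    zero_pow, zero_div] at h2
  linarith

end two

end Pool.Agent.TF.Col
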