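import Mathlib
import Pool.Agent.Lib.MP_9cf0c9_mp.Tr.BaseA
/-! Two nuclei: the volume integrals against the ramp. -/

set_option autoImplicit false

set_option linter.unusedSectionVars false

set_option linter.unusedVariables false

set_option linter.style.haveILetI false

namespace Pool.Agent.TF.Grd
end Pool.Agent.TF.Grd

namespace Pool.Agent.TF.Col

open MeasureTheory Set Metric Filter Topology

open scoped ENNReal NNReal RealInnerProductSpace Gradient

open Pool.Agent.TF.Grd

section two

variable {φ₀ : ℝ} {z : Fin 2 → ℝ} {R : Fin 2 → X} {ρ : X → ℝ} {H : X → X →L[ℝ] X} {lo hi : ℝ}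

theorem inj_of_lt39 (hlt : (R 0).fst < (R 1).fst) : Function.Injective R := by
  intro i j hij
  revert i j
  refine Fin.forall_fin_two.mpr ⟨Fin.forall_fin_two.mpr ⟨fun _ => rfl, fun h => ?_⟩,
    Fin.forall_fin_two.mpr ⟨fun h => ?_, fun _ => rfl⟩⟩
  · exact absurd (congrArg (fun x : X => x.fst) h) hlt.ne
  · exact absurd (congrArg (fun x : X => x.fst) h) hlt.ne'

end two

end Pool.Agent.TF.Col
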