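import Mathlib
import Pool.Agent.Lib.MP_9cf0c9_mp.Tr.Col58L
/-! Fields with a flux of the good sign out of the axis: the divergence theorem as an
inequality. -/

set_option autoImplicit false

set_option linter.unusedSectionVars false

set_option linter.unusedVariables false

set_option linter.style.haveILetI false

namespace Pool.Agent.TF.Grd
end Pool.Agent.TF.Grd

namespace Pool.Agent.TF.Col

open MeasureTheory Set Metric Filter Topology

open scoped ENNReal NNReal RealInnerProductSpace Gradient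

open Pool.Agent.TF.Grd

/-! ### a cut-off near the axis -/

theorem hasDerivAt_max_sq39 (t : ℝ) : HasDerivAt (fun t : ℝ => max t 0 ^ 2) (2 * max t 0) t := by
  rcases lt_trichotomy t 0 with h | h | h
  · rw [max_eq_right h.le, mul_zero]
    refine (hasDerivAt_const t (0 : ℝ)).congr_of_eventuallyEq ?_
    filter_upwards [gt_mem_nhds h] with y hy
    rw [max_eq_right (le_of_lt hy)]
    simp
  · subst h
    rw [max_self, mul_zero, hasDerivAt_iff_isLittleO]
    simp only [max_self, sub_zero, smul_zero, ne_eq, OfNat.ofNat_ne_zero, not_false_eq_true,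
      zero_pow]
    rw [Asymptotics.isLittleO_iff]
    intro c hc
    filter_upwards [ball_mem_nhds (0 : ℝ) hc] with y hy
    rw [mem_ball_zero_iff, Real.norm_eq_abs] at hy
    have h0 : 0 ≤ max y 0 := le_max_right _ _
    have h1 : max y 0 ≤ |y| := max_le (le_abs_self y) (abs_nonneg y)
    rw [Real.norm_of_nonneg (by positivity), Real.norm_eq_abs]
    nlinarith [abs_nonneg y]
  · rw [max_eq_left h.le]
    have h1 : HasDerivAt (fun t : ℝ => t ^ 2) (2 * t) t := by
      simpa using hasDerivAt_pow 2 t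
    refine h1.congr_of_eventuallyEq ?_
    filter_upwards [lt_mem_nhds h] with y hy
    rw [max_eq_left (le_of_lt hy)]

/-- the profile -/
noncomputable def gA (n s : ℝ) : ℝ := 1 - (1 + max (n * s - 1) 0 ^ 2)⁻¹

noncomputable def gA' (n s : ℝ) : ℝ :=
  2 * max (n * s - 1) 0 * n / (1 + max (n * s - 1) 0 ^ 2) ^ 2

theorem gA_deriv (n s : ℝ) : HasDerivAt (gA n) (gA' n s) s := by
  have h1 : HasDerivAt (fun s : ℝ => n * s - 1) n s := by
    simpa using ((hasDerivAt_id s).const_mul n).sub_const 1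
  have h2 := (hasDerivAt_max_sq39 (n * s - 1)).comp s h1
  have h0 : (1 + max (n * s - 1) 0 ^ 2) ≠ 0 := by positivity
  have h3 := ((h2.const_add 1).inv h0).const_sub 1
  have h4 : HasDerivAt (gA n)
      (-(-(2 * max (n * s - 1) 0 * n) / (1 + max (n * s - 1) 0 ^ 2) ^ 2)) s := h3
  refine h4.congr_deriv ?_
  unfold gA'
  ring

theorem gA'_nonneg {n : ℝ} (hn : 0 ≤ n) (s : ℝ) : 0 ≤ gA' n s := by
  unfold gA'
  have : 0 ≤ max (n * s - 1) 0 := le_max_right _ _
  positivity

theorem gA'_le {n : ℝ} (hn : 0 ≤ n) (s : ℝ) : gA' n s ≤ n := by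
  unfold gA'
  obtain ⟨u, hu⟩ : ∃ u : ℝ, u = max (n * s - 1) 0 := ⟨_, rfl⟩
  rw [← hu, div_le_iff₀ (by positivity)]
  have h1 : 2 * u ≤ (1 + u ^ 2) ^ 2 := by nlinarith [sq_nonneg (u - 1), sq_nonneg (u ^ 2)]
  nlinarith

theorem gA'_cont (n : ℝ) : Continuous (gA' n) := by
  unfold gA'
  refine Continuous.div (by fun_prop) (by fun_prop) fun s => ?_
  positivity

theorem gA_nonneg (n s : ℝ) : 0 ≤ gA n s := by
  unfold gA
  have h1 : (1 : ℝ) ≤ 1 + max (n * s - 1) 0 ^ 2 := by
    have := sq_nonneg (max (n * s - 1) 0)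
    linarith
  have := inv_le_one_of_one_le₀ h1
  linarith

theorem gA_le_one (n s : ℝ) : gA n s ≤ 1 := by
  unfold gA
  have : 0 ≤ (1 + max (n * s - 1) 0 ^ 2)⁻¹ := by positivity
  linarith

theorem gA_zero {n s : ℝ} (h : n * s ≤ 1) : gA n s = 0 := by
  unfold gA
  rw [max_eq_right (by linarith)]
  simp

theorem gA_le {n s : ℝ} (h : 0 ≤ n * s) : gA n s ≤ n * s := by
  rcases le_total (n * s) 1 with h1 | h1
  · rw [gA_zero h1]; exact h
  · exact (gA_le_one n s).trans h1

theorem gA_lip {n : ℝ} (hn : 0 ≤ n) : LipschitzWith ⟨n, hn⟩ (gA n) := by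
  refine lipschitzWith_of_nnnorm_deriv_le (fun s => (gA_deriv n s).differentiableAt) fun s => ?_
  rw [(gA_deriv n s).deriv]
  rw [← NNReal.coe_le_coe, coe_nnnorm, Real.norm_of_nonneg (gA'_nonneg hn s)]
  exact gA'_le hn s

theorem gA_tendsto {s : ℝ} (hs : 0 < s) :
    Tendsto (fun n : ℕ => gA ((n : ℝ) + 1) s) atTop (𝓝 1) := by
  have h1 : Tendsto (fun n : ℕ => ((n : ℝ) + 1) * s - 1) atTop atTop := by
    refine tendsto_atTop_add_const_right _ _ ?_
    exact (tendsto_atTop_add_const_right _ _ tendsto_natCast_atTop_atTop).atTop_mul_const hs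
  have h2 : Tendsto (fun t : ℝ => (1 + max t 0 ^ 2)⁻¹) atTop (𝓝 0) := by
    refine tendsto_inv_atTop_zero.comp ?_
    refine tendsto_atTop_add_const_left _ _ ?_
    have h3 : Tendsto (fun t : ℝ => max t 0) atTop atTop :=
      tendsto_atTop_mono (fun t => le_max_left t 0) tendsto_id
    exact (tendsto_pow_atTop (by norm_num)).comp h3
  have h3 := (h2.comp h1).const_sub 1
  rw [sub_zero] at h3
  exact h3

theorem ht_lip39 : LipschitzWith 1 ht := by
  refine LipschitzWith.of_dist_le_mul fun x y => ?_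
  rw [NNReal.coe_one, one_mul, Real.dist_eq, dist_eq_norm]
  unfold ht
  refine (abs_norm_sub_norm_le _ _).trans ?_
  have h1 := norm_sq_eq (x - y)
  have h2 : (x - y).snd = x.snd - y.snd := rfl
  rw [h2] at h1
  refine (sq_le_sq₀ (norm_nonneg _) (norm_nonneg _)).mp ?_
  nlinarith [sq_nonneg (x - y).fst]

theorem c1o_gA (n : ℝ) : C1O (fun x => gA n (ht x)) fun x => gA' n (ht x) • es x :=
  C1O.ht.comp (F := gA n) (F' := gA' n) (T := univ) (fun _ _ => mem_univ _)
    (fun t _ => gA_deriv n t) (gA'_cont n).continuousOn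

/-- the test function -/
noncomputable def eA (n : ℝ) (x : X) : ℝ := gA n (ht x) * Flux.cut n ‖x‖

theorem eA_nonneg (n : ℝ) (x : X) : 0 ≤ eA n x :=
  mul_nonneg (gA_nonneg _ _) (Flux.cut_nonneg _ _)

theorem eA_le_one (n : ℝ) (x : X) : eA n x ≤ 1 :=
  mul_le_one₀ (gA_le_one _ _) (Flux.cut_nonneg _ _) (Flux.cut_le_one _ _)

theorem eA_tst {n : ℝ} (hn : 0 < n) : Tst (eA n) := by
  have hz : ∀ x : X, x ∉ closedBall (0 : X) (2 * n) → eA n x = 0 := by
    intro x hx
    rw [mem_closedBall_zero_iff, not_le] at hx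
    unfold eA
    rw [Flux.cut_zero hn hx.le, mul_zero]
  refine ⟨⟨⟨n, hn.le⟩ + ⟨n⁻¹, by positivity⟩, ?_⟩, ?_, ?_⟩
  · have h1 : LipschitzWith (⟨n, hn.le⟩ * 1) fun x : X => gA n (ht x) :=
      (gA_lip hn.le).comp ht_lip39
    have h2 : LipschitzWith (⟨n⁻¹, by positivity⟩ * 1) fun x : X => Flux.cut n ‖x‖ :=
      (Flux.cut_lip hn).comp lipschitzWith_one_norm
    rw [mul_one] at h1 h2
    refine LipschitzWith.of_dist_le_mul fun x y => ?_
    have h3 := h1.dist_le_mul x y
    have h4 := h2.dist_le_mul x y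
    rw [Real.dist_eq] at h3 h4 ⊢
    have e : eA n x - eA n y = (gA n (ht x) - gA n (ht y)) * Flux.cut n ‖x‖ +
        gA n (ht y) * (Flux.cut n ‖x‖ - Flux.cut n ‖y‖) := by
      unfold eA
      ring
    rw [e, NNReal.coe_add, add_mul]
    refine (abs_add_le _ _).trans (add_le_add ?_ ?_)
    · rw [abs_mul, abs_of_nonneg (Flux.cut_nonneg _ _)]
      exact (mul_le_of_le_one_right (abs_nonneg _) (Flux.cut_le_one _ _)).trans h3
    · rw [abs_mul, abs_of_nonneg (gA_nonneg _ _)]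
      exact (mul_le_of_le_one_left (abs_nonneg _) (gA_le_one _ _)).trans h4
  · exact HasCompactSupport.intro (isCompact_closedBall (0 : X) (2 * n)) hz
  · rw [Set.disjoint_left]
    intro x hx hx'
    have h1 : ht x < n⁻¹ := by
      have : ht x = 0 := by
        unfold ht
        rw [mem_ax.mp hx', norm_zero]
      rw [this]; positivity
    refine (notMem_tsupport_iff_eventuallyEq.mpr ?_) hx
    filter_upwards [(isOpen_lt ht_continuous continuous_const).mem_nhds h1] with y hy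
    have hy' : ht y < n⁻¹ := hy
    have h2 : n * ht y ≤ 1 := by
      have h3 := mul_le_mul_of_nonneg_left hy'.le hn.le
      rwa [mul_inv_cancel₀ hn.ne'] at h3
    show eA n y = 0
    unfold eA
    rw [gA_zero h2, zero_mul]

theorem eA_grad {n : ℝ} (hn : 0 < n) : ∀ᵐ x : X, ∇ (eA n) x =
    gA n (ht x) • Flux.gcut n x + Flux.cut n ‖x‖ • (gA' n (ht x) • es x) := by
  have h1 : ∀ᵐ x : X, DifferentiableAt ℝ (fun x : X => Flux.cut n ‖x‖) x :=
    ((Flux.cut_lip hn).comp lipschitzWith_one_norm).ae_differentiableAt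
  have hs : ∀ c : ℝ, ∀ᵐ x : X, ‖x‖ ≠ c := by
    intro c
    rw [ae_iff]
    have e : {x : X | ¬‖x‖ ≠ c} = sphere (0 : X) c := by
      ext x
      simp
    rw [e]
    exact Measure.addHaar_sphere _ _ _
  filter_upwards [hs n, hs (2 * n), ae_off_ax] with x hx1 hx2 hxa
  refine HasGradientAt.gradient ?_
  have h3 := Flux.hasGradient_cut hn hx1 hx2
  have h4 := (c1o_gA n).grad x hxa
  rw [hasGradientAt_iff_hasFDerivAt] at h3 h4 ⊢
  refine (h4.mul h3).congr_fderiv ?_
  rw [map_add, map_smul, map_smul, map_smul, map_smul]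

/-! ### the inequality -/

/-- **a field whose flux out of the axis has the good sign** -/
theorem axis_leak {B : X → X} {e₁ e₂ : X → ℝ} (hB : WDL B fun x => e₁ x + e₂ x)
    (hs : ∀ x, x ∉ ax → 0 ≤ ⟪B x, es x⟫) {C N : ℝ}
    (hfar : ∀ x, x ∉ ax → N ≤ ‖x‖ → ht x * ‖B x‖ ≤ C * (‖x‖ ^ 4)⁻¹)
    (h1 : ∀ᵐ x : X, 0 ≤ e₁ x) (hm : AEStronglyMeasurable e₁ volume) (h2 : Integrable e₂) :
    Integrable e₁ ∧ (∫ x, e₁ x) ≤ -∫ x, e₂ x := by
  have hn0 : ∀ n : ℕ, (0 : ℝ) < (n : ℝ) + 1 := fun n => by positivity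
  obtain ⟨hh, hhdef⟩ : ∃ hh : ℕ → X → ℝ, hh = fun (n : ℕ) (x : X) => gA ((n : ℝ) + 1) (ht x) *
    ⟪B x, Flux.gcut ((n : ℝ) + 1) x⟫ := ⟨_, rfl⟩
  obtain ⟨K, hK⟩ : ∃ K : X → ℝ, K = fun x => |C| * 16 * (1 + ‖x‖) ^ (-(4 : ℝ)) := ⟨_, rfl⟩
  have hKint : Integrable K := by
    rw [hK]
    refine (integrable_one_add_norm ?_).const_mul _
    have : Module.finrank ℝ X = 3 := Fact.out
    rw [this]; norm_num
  have hK0 : ∀ x, 0 ≤ K x := fun x => by rw [hK]; positivity
  have hbd : ∀ n : ℕ, N ≤ (n : ℝ) + 1 → ∀ x, x ∉ ax → ‖hh n x‖ ≤ K x := by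
    intro n hn x hx
    rw [hhdef]
    dsimp only
    by_cases h : ‖x‖ ≤ (n : ℝ) + 1
    · have e : Flux.gcut ((n : ℝ) + 1) x = 0 := by
        unfold Flux.gcut
        rw [indicator_of_notMem (fun hh => absurd hh.1 (not_lt.mpr h)), zero_smul]
      rw [e, inner_zero_right, mul_zero, norm_zero]
      exact hK0 x
    · rw [not_le] at h
      have hx1 : 1 ≤ ‖x‖ := by
        have : (0 : ℝ) ≤ n := n.cast_nonneg
        linarith
      have hht := ht_pos hx
      have a1 : gA ((n : ℝ) + 1) (ht x) ≤ ((n : ℝ) + 1) * ht x :=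
        gA_le (mul_nonneg (hn0 n).le hht.le)
      have a2 : |⟪B x, Flux.gcut ((n : ℝ) + 1) x⟫| ≤ ‖B x‖ * ((n : ℝ) + 1)⁻¹ :=
        (abs_real_inner_le_norm _ _).trans
          (mul_le_mul_of_nonneg_left (Flux.norm_gcut_le (hn0 n) x) (norm_nonneg _))
      have a3 : ‖gA ((n : ℝ) + 1) (ht x) * ⟪B x, Flux.gcut ((n : ℝ) + 1) x⟫‖ ≤
          ht x * ‖B x‖ := by
        rw [norm_mul, Real.norm_of_nonneg (gA_nonneg _ _), Real.norm_eq_abs]
        calc gA ((n : ℝ) + 1) (ht x) * |⟪B x, Flux.gcut ((n : ℝ) + 1) x⟫|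
            ≤ (((n : ℝ) + 1) * ht x) * (‖B x‖ * ((n : ℝ) + 1)⁻¹) :=
              mul_le_mul a1 a2 (abs_nonneg _) (by positivity)
          _ = ht x * ‖B x‖ := by
              have := (hn0 n).ne'
              field_simp
      refine a3.trans ((hfar x hx (hn.trans h.le)).trans ?_)
      have h3 : (‖x‖ ^ 4)⁻¹ ≤ 16 * (1 + ‖x‖) ^ (-(4 : ℝ)) := by
        have e1 : (1 + ‖x‖) ^ (-(4 : ℝ)) = ((1 + ‖x‖) ^ 4)⁻¹ := by
          rw [Real.rpow_neg (by positivity)]; norm_cast
        rw [e1, inv_le_iff_one_le_mul₀ (by positivity)]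
        have h6 : (1 + ‖x‖) ^ 4 ≤ (2 * ‖x‖) ^ 4 :=
          pow_le_pow_left₀ (by positivity) (by linarith) 4
        have h7 : 16 * ((1 + ‖x‖) ^ 4)⁻¹ * ‖x‖ ^ 4 = (2 * ‖x‖) ^ 4 / (1 + ‖x‖) ^ 4 := by
          field_simp
          ring
        rw [h7, le_div_iff₀ (by positivity)]
        linarith
      rw [hK]
      calc C * (‖x‖ ^ 4)⁻¹ ≤ |C| * (‖x‖ ^ 4)⁻¹ :=
            mul_le_mul_of_nonneg_right (le_abs_self C) (by positivity)
        _ ≤ |C| * (16 * (1 + ‖x‖) ^ (-(4 : ℝ))) := mul_le_mul_of_nonneg_left h3 (abs_nonneg C)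
        _ = |C| * 16 * (1 + ‖x‖) ^ (-(4 : ℝ)) := by ring
  have hBm : AEStronglyMeasurable B volume := off_ax_meas hB.contA
  have hhm : ∀ n, AEStronglyMeasurable (hh n) volume := by
    intro n
    rw [hhdef]
    refine AEStronglyMeasurable.mul ?_ ?_
    · exact ((gA_lip (hn0 n).le).continuous.comp ht_continuous).aestronglyMeasurable
    · exact hBm.inner (Flux.gcut_meas _).aestronglyMeasurable
  have hNn : ∀ᶠ n : ℕ in atTop, N ≤ (n : ℝ) + 1 :=
    (tendsto_atTop_add_const_right _ _ tendsto_natCast_atTop_atTop).eventually_ge_atTop N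
  have hhint : ∀ᶠ n : ℕ in atTop, Integrable (hh n) := by
    filter_upwards [hNn] with n hn
    refine hKint.mono' (hhm n) ?_
    filter_upwards [ae_off_ax] with x hx
    exact hbd n hn x hx
  have hhlim : Tendsto (fun n => ∫ x, hh n x) atTop (𝓝 0) := by
    have h3 := tendsto_integral_filter_of_dominated_convergence (μ := (volume : Measure X))
      (F := hh) (f := fun _ => (0 : ℝ)) (l := atTop) K (Eventually.of_forall hhm) (by
        filter_upwards [hNn] with n hn
        filter_upwards [ae_off_ax] with x hx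
        exact hbd n hn x hx) hKint (by
        refine Eventually.of_forall fun x => ?_
        refine tendsto_const_nhds.congr' ?_
        have h4 : ∀ᶠ n : ℕ in atTop, ‖x‖ ≤ (n : ℝ) + 1 :=
          (tendsto_atTop_add_const_right _ _ tendsto_natCast_atTop_atTop).eventually_ge_atTop _
        filter_upwards [h4] with n hn
        have e : Flux.gcut ((n : ℝ) + 1) x = 0 := by
          unfold Flux.gcut
          rw [indicator_of_notMem (fun hh => absurd hh.1 (not_lt.mpr hn)), zero_smul]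
        rw [hhdef]
        dsimp only
        rw [e, inner_zero_right, mul_zero])
    simpa using h3
  -- the test functions
  have hE1 : ∀ n : ℕ, Integrable fun x => (e₁ x + e₂ x) * eA ((n : ℝ) + 1) x := fun n =>
    (eA_tst (hn0 n)).int_mulL hB.locd
  have hem : ∀ n : ℕ, AEStronglyMeasurable (eA ((n : ℝ) + 1)) (volume : Measure X) := fun n => by
    obtain ⟨L, hL⟩ := (eA_tst (hn0 n)).lip
    exact hL.continuous.aestronglyMeasurable
  have heb : ∀ (n : ℕ) (x : X), ‖eA ((n : ℝ) + 1) x‖ ≤ 1 := fun n x => by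
    rw [Real.norm_of_nonneg (eA_nonneg _ _)]
    exact eA_le_one _ _
  have hE2 : ∀ n : ℕ, Integrable fun x => e₂ x * eA ((n : ℝ) + 1) x := fun n =>
    h2.mul_bdd (hem n) (Eventually.of_forall (heb n))
  have hE3 : ∀ n : ℕ, Integrable fun x => e₁ x * eA ((n : ℝ) + 1) x := fun n => by
    refine ((hE1 n).sub (hE2 n)).congr (Eventually.of_forall fun x => ?_)
    simp only [Pi.sub_apply]
    ring
  have hkey : ∀ᶠ n : ℕ in atTop, ∫ x, e₁ x * eA ((n : ℝ) + 1) x ≤
      -(∫ x, e₂ x * eA ((n : ℝ) + 1) x) - ∫ x, hh n x := by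
    filter_upwards [hhint] with n hn
    have h3 := hB.tst (eA_tst (hn0 n))
    have h4 : ∫ x, hh n x ≤ ∫ x, ⟪B x, ∇ (eA ((n : ℝ) + 1)) x⟫ := by
      refine integral_mono_ae hn ?_ ?_
      · exact (eA_tst (hn0 n)).int_inner hB.contA
      · filter_upwards [eA_grad (hn0 n), ae_off_ax] with x hx hxa
        rw [hx, inner_add_right, real_inner_smul_right, real_inner_smul_right,
          real_inner_smul_right, hhdef]
        dsimp only
        have h5 : 0 ≤ Flux.cut ((n : ℝ) + 1) ‖x‖ * (gA' ((n : ℝ) + 1) (ht x) * ⟪B x, es x⟫) :=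
          mul_nonneg (Flux.cut_nonneg _ _) (mul_nonneg (gA'_nonneg (hn0 n).le _) (hs x hxa))
        linarith
    have h6 : ∫ x, (e₁ x + e₂ x) * eA ((n : ℝ) + 1) x =
        (∫ x, e₁ x * eA ((n : ℝ) + 1) x) + ∫ x, e₂ x * eA ((n : ℝ) + 1) x := by
      rw [← integral_add (hE3 n) (hE2 n)]
      refine integral_congr_ae (Eventually.of_forall fun x => ?_)
      simp only
      ring
    rw [h6] at h3
    linarith
  have hlim1 : ∀ᵐ x : X, Tendsto (fun n : ℕ => eA ((n : ℝ) + 1) x) atTop (𝓝 1) := by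
    filter_upwards [ae_off_ax] with x hx
    have h3 := gA_tendsto (ht_pos hx)
    refine h3.congr' ?_
    have h4 : ∀ᶠ n : ℕ in atTop, ‖x‖ ≤ (n : ℝ) + 1 :=
      (tendsto_atTop_add_const_right _ _ tendsto_natCast_atTop_atTop).eventually_ge_atTop _
    filter_upwards [h4] with n hn
    unfold eA
    rw [Flux.cut_one (hn0 n) hn, mul_one]
  have hlim2 : Tendsto (fun n : ℕ => ∫ x, e₂ x * eA ((n : ℝ) + 1) x) atTop (𝓝 (∫ x, e₂ x)) := by
    refine tendsto_integral_of_dominated_convergence (fun x => ‖e₂ x‖) (fun n => (hE2 n).1)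
      h2.norm (fun n => Eventually.of_forall fun x => ?_) ?_
    · rw [norm_mul]
      exact mul_le_of_le_one_right (norm_nonneg _) (heb n x)
    · filter_upwards [hlim1] with x hx
      have := hx.const_mul (e₂ x)
      rwa [mul_one] at this
  have hR : Tendsto (fun n : ℕ => -(∫ x, e₂ x * eA ((n : ℝ) + 1) x) - ∫ x, hh n x) atTop
      (𝓝 (-∫ x, e₂ x)) := by
    have := hlim2.neg.sub hhlim
    rwa [sub_zero] at this
  -- Fatou
  have hF : ∫⁻ x, ENNReal.ofReal (e₁ x) ≤ ENNReal.ofReal (-∫ x, e₂ x) := by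
    have h3 : ∫⁻ x, ENNReal.ofReal (e₁ x) ≤
        liminf (fun n : ℕ => ∫⁻ x, ENNReal.ofReal (e₁ x * eA ((n : ℝ) + 1) x)) atTop := by
      have h4 := lintegral_liminf_le' (μ := (volume : Measure X)) (u := atTop)
        (f := fun (n : ℕ) (x : X) => ENNReal.ofReal (e₁ x * eA ((n : ℝ) + 1) x))
        (fun n => (hE3 n).1.aemeasurable.ennreal_ofReal)
      refine le_trans (le_of_eq ?_) h4
      refine lintegral_congr_ae ?_
      filter_upwards [hlim1] with x hx
      have h5 := hx.const_mul (e₁ x)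
      rw [mul_one] at h5
      exact ((ENNReal.tendsto_ofReal h5).liminf_eq).symm
    refine h3.trans ?_
    have h6 : Tendsto (fun n : ℕ => ENNReal.ofReal (-(∫ x, e₂ x * eA ((n : ℝ) + 1) x) -
        ∫ x, hh n x)) atTop (𝓝 (ENNReal.ofReal (-∫ x, e₂ x))) := ENNReal.tendsto_ofReal hR
    rw [← h6.liminf_eq]
    refine liminf_le_liminf ?_
    filter_upwards [hkey] with n hn
    have h7 : 0 ≤ᵐ[(volume : Measure X)] fun x => e₁ x * eA ((n : ℝ) + 1) x := by
      filter_upwards [h1] with x hx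
      exact mul_nonneg hx (eA_nonneg _ _)
    rw [← ofReal_integral_eq_lintegral_ofReal (hE3 n) h7]
    exact ENNReal.ofReal_le_ofReal hn
  have hint : Integrable e₁ := by
    refine ⟨hm, ?_⟩
    rw [hasFiniteIntegral_iff_ofReal h1]
    exact hF.trans_lt ENNReal.ofReal_lt_top
  refine ⟨hint, ?_⟩
  have hnn : 0 ≤ -∫ x, e₂ x := by
    refine ge_of_tendsto hR ?_
    filter_upwards [hkey] with n hn
    refine le_trans (integral_nonneg_of_ae ?_) hn
    filter_upwards [h1] with x hx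
    exact mul_nonneg hx (eA_nonneg _ _)
  rw [← ofReal_integral_eq_lintegral_ofReal hint h1] at hF
  exact (ENNReal.ofReal_le_ofReal_iff hnn).mp hF

end Pool.Agent.TF.Col
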