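import Mathlib
import Pool.Agent.Lib.MP_9cf0c9_mp.Tr.Col58H
import Pool.Agent.Lib.MP_9cf0c9_mp.Tr.ColTrial83
import Pool.Agent.Lib.MP_9cf0c9_mp.Tr.DdB36
import Pool.Agent.Lib.MP_9cf0c9_mp.Tr.KstepB39
import Pool.Agent.Lib.MP_9cf0c9_mp.Tr.Leak39
import Pool.Agent.Lib.MP_9cf0c9_mp.Tr.Mid13
import Pool.Agent.Lib.MP_9cf0c9_mp.Tr.Rot39
/-! Two nuclei: the integral of `(P²)_s / s` against a function of the first coordinate is
nonpositive. -/

set_option autoImplicit false

set_option linter.unusedSectionVars false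

set_option linter.unusedVariables false

set_option linter.style.haveILetI false

namespace Pool.Agent.TF.Grd
end Pool.Agent.TF.Grd

namespace Pool.Agent.TF.Col

open MeasureTheory Set Metric Filter Topology

open scoped ENNReal NNReal RealInnerProductSpace Gradient

open Pool.Agent.TF.Grd

/-! ### integrability -/

/-- `1/ht` near the axis with a decaying factor along the axis -/
theorem far_axis_int39 : Integrable fun x : X => (1 + |x.fst|) ^ (-(2 : ℝ)) *
    ((ball (0 : E2) 1).indicator (fun y : E2 => ‖y‖ ^ (-(1 : ℝ))) x.snd) := by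
  have h2 : Integrable ((ball (0 : E2) 1).indicator fun y : E2 => ‖y‖ ^ (-(1 : ℝ))) := by
    have h3 : (ball (0 : E2) 1).indicator (fun y : E2 => ‖y‖ ^ (-(1 : ℝ))) =
        fun y : E2 => (Iio (1 : ℝ)).indicator (fun s : ℝ => s ^ (-(1 : ℝ))) ‖y‖ := by
      funext y
      by_cases hy : ‖y‖ < 1
      · rw [indicator_of_mem (by simpa using hy), indicator_of_mem (by simpa using hy)]
      · rw [indicator_of_notMem (by simpa using hy), indicator_of_notMem (by simpa using hy)]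
    rw [h3, integrable_fun_norm_addHaar (μ := (volume : Measure E2))
      (f := fun s : ℝ => (Iio (1 : ℝ)).indicator (fun s : ℝ => s ^ (-(1 : ℝ))) s)]
    have h4 : Module.finrank ℝ E2 = 2 := by simp
    rw [h4]
    have h6 : IntegrableOn ((Iio (1 : ℝ)).indicator fun _ : ℝ => (1 : ℝ)) (Ioi 0) := by
      rw [IntegrableOn, integrable_indicator_iff measurableSet_Iio, IntegrableOn,
        Measure.restrict_restrict measurableSet_Iio, Iio_inter_Ioi]
      exact integrableOn_const (by simp)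
    refine h6.congr_fun (fun s hs => ?_) measurableSet_Ioi
    have hs0 : 0 < s := hs
    simp only [Nat.add_one_sub_one, pow_one, smul_eq_mul]
    by_cases h : s < 1
    · rw [indicator_of_mem (show s ∈ Iio (1 : ℝ) from h),
        indicator_of_mem (show s ∈ Iio (1 : ℝ) from h), Real.rpow_neg_one,
        mul_inv_cancel₀ hs0.ne']
    · rw [indicator_of_notMem (show s ∉ Iio (1 : ℝ) from h),
        indicator_of_notMem (show s ∉ Iio (1 : ℝ) from h), mul_zero]
  have h1 : Integrable fun t : ℝ => (1 + |t|) ^ (-(2 : ℝ)) := by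
    have := integrable_one_add_norm (E := ℝ) (μ := volume) (r := 2) (by simp)
    exact this
  have h3 := h1.mul_prod h2
  rw [← Measure.volume_eq_prod] at h3
  rw [← mk_measurePreserving.integrable_comp_emb mk_embedding]
  exact h3

/-- local integrability from local bounds by `ht ^ (-3/2)`, and a far bound -/
theorem int_of_axis39 {f : X → ℝ} (hf : ContinuousOn f axᶜ)
    (hax : ∀ x₀ ∈ ax, ∃ C δ : ℝ, 0 < δ ∧ ∀ x ∈ ball x₀ δ, x ∉ ax →
      |f x| ≤ C * (ht x) ^ (-(3 / 2 : ℝ)))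
    (hfar : ∃ C N : ℝ, ∀ x, x ∉ ax → N ≤ ‖x‖ → |f x| ≤ C * (‖x‖ ^ 6)⁻¹ * (ht x)⁻¹) :
    Integrable f := by
  have hm : AEStronglyMeasurable f volume := off_ax_meas hf
  have hloc : ∀ K : Set X, IsCompact K → IntegrableOn f K := by
    intro K hK
    refine hK.induction_on (p := fun s => IntegrableOn f s volume) integrableOn_empty
      (fun s t hst ht => ht.mono_set hst) (fun s t hs ht => hs.union ht) fun x₀ hx₀ => ?_
    by_cases hx : x₀ ∈ ax
    · obtain ⟨C, δ, hδ, hb⟩ := hax x₀ hx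
      refine ⟨ball x₀ δ, mem_nhdsWithin_of_mem_nhds (ball_mem_nhds _ hδ), ?_⟩
      have h1 : IntegrableOn (fun x : X => C * (ht x) ^ (-(3 / 2 : ℝ))) (ball x₀ δ) := by
        refine ((ht_rpow_integrableOn (by norm_num) (‖x₀‖ + δ)).mono_set
          fun x hx => ?_).const_mul C
        rw [mem_ball_zero_iff]
        rw [mem_ball, dist_eq_norm] at hx
        have := norm_add_le (x - x₀) x₀
        rw [sub_add_cancel] at this
        linarith
      refine h1.mono' hm.restrict ((ae_restrict_iff' measurableSet_ball).2 ?_)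
      filter_upwards [ae_off_ax] with x hxa hxb
      rw [Real.norm_eq_abs]
      exact hb x hxb hxa
    · obtain ⟨δ, hδ, hb⟩ := Metric.isOpen_iff.mp isOpen_off_ax x₀ hx
      have hsub : closedBall x₀ (δ / 2) ⊆ axᶜ := fun y hy => hb (by
        rw [mem_ball]; rw [mem_closedBall] at hy; linarith)
      refine ⟨closedBall x₀ (δ / 2), mem_nhdsWithin_of_mem_nhds (closedBall_mem_nhds _ (by
        positivity)), ?_⟩
      exact (hf.mono hsub).integrableOn_compact (isCompact_closedBall _ _)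
  obtain ⟨C, N, hfb⟩ := hfar
  obtain ⟨M, hM⟩ : ∃ M : ℝ, M = max N 1 := ⟨_, rfl⟩
  have hM1 : 1 ≤ M := hM ▸ le_max_right _ _
  have hMN : N ≤ M := hM ▸ le_max_left _ _
  have hS : MeasurableSet {x : X | M ≤ ‖x‖} := (isClosed_le continuous_const
    continuous_norm).measurableSet
  have hfarI : IntegrableOn f {x : X | M ≤ ‖x‖} := by
    have h1 : Integrable (fun x : X => |C| * 16 * (1 + ‖x‖) ^ (-(4 : ℝ))) := by
      refine (integrable_one_add_norm ?_).const_mul _
      have : Module.finrank ℝ X = 3 := Fact.out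
      rw [this]; norm_num
    have h2 := far_axis_int39.const_mul (|C| * 4)
    refine (h1.add h2).integrableOn.mono' hm.restrict ((ae_restrict_iff' hS).2 ?_)
    filter_upwards [ae_off_ax] with x hx hxM
    have hxM' : M ≤ ‖x‖ := hxM
    have hx1 : 1 ≤ ‖x‖ := hM1.trans hxM'
    have hs := ht_pos hx
    rw [Real.norm_eq_abs]
    refine (hfb x hx (hMN.trans hxM')).trans ?_
    have h3 : (‖x‖ ^ 4)⁻¹ ≤ 16 * (1 + ‖x‖) ^ (-(4 : ℝ)) := by
      have e1 : (1 + ‖x‖) ^ (-(4 : ℝ)) = ((1 + ‖x‖) ^ 4)⁻¹ := by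
        rw [Real.rpow_neg (by positivity)]; norm_cast
      rw [e1, inv_le_iff_one_le_mul₀ (by positivity)]
      have h6 : (1 + ‖x‖) ^ 4 ≤ (2 * ‖x‖) ^ 4 :=
        pow_le_pow_left₀ (by positivity) (by linarith) 4
      have h7 : 16 * ((1 + ‖x‖) ^ 4)⁻¹ * ‖x‖ ^ 4 = (2 * ‖x‖) ^ 4 / (1 + ‖x‖) ^ 4 := by
        field_simp
        ring
      rw [h7, le_div_iff₀ (by positivity)]
      linarith
    have h4 : (‖x‖ ^ 6)⁻¹ ≤ (‖x‖ ^ 4)⁻¹ :=
      inv_anti₀ (by positivity) (pow_le_pow_right₀ hx1 (by norm_num))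
    have hind0 : 0 ≤ (ball (0 : E2) 1).indicator (fun y : E2 => ‖y‖ ^ (-(1 : ℝ))) x.snd := by
      refine indicator_nonneg (fun y _ => ?_) _
      exact Real.rpow_nonneg (norm_nonneg _) _
    have hr0 : 0 ≤ (1 + |x.fst|) ^ (-(2 : ℝ)) := by positivity
    have hr1 : 0 ≤ (1 + ‖x‖) ^ (-(4 : ℝ)) := by positivity
    simp only [Pi.add_apply]
    rcases lt_or_ge (ht x) 1 with hc | hc
    · have h5 : (‖x‖ ^ 6)⁻¹ ≤ 4 * (1 + |x.fst|) ^ (-(2 : ℝ)) := by
        have e1 : (1 + |x.fst|) ^ (-(2 : ℝ)) = ((1 + |x.fst|) ^ 2)⁻¹ := by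
          rw [Real.rpow_neg (by positivity)]; norm_cast
        rw [e1, inv_le_iff_one_le_mul₀ (by positivity)]
        have h6 : |x.fst| ≤ ‖x‖ := abs_fst_le x
        have h7 : (1 + |x.fst|) ^ 2 ≤ (2 * ‖x‖) ^ 2 :=
          pow_le_pow_left₀ (by positivity) (by linarith) 2
        have h8 : ‖x‖ ^ 2 ≤ ‖x‖ ^ 6 := pow_le_pow_right₀ hx1 (by norm_num)
        have h9 : 4 * ((1 + |x.fst|) ^ 2)⁻¹ * ‖x‖ ^ 6 = 4 * ‖x‖ ^ 6 / (1 + |x.fst|) ^ 2 := by
          field_simp
        rw [h9, le_div_iff₀ (by positivity)]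
        nlinarith
      have h6 : (ball (0 : E2) 1).indicator (fun y : E2 => ‖y‖ ^ (-(1 : ℝ))) x.snd =
          (ht x)⁻¹ := by
        rw [indicator_of_mem (show x.snd ∈ ball (0 : E2) 1 from by
          rw [mem_ball_zero_iff]; exact hc), Real.rpow_neg_one]
        rfl
      rw [h6]
      have h7 : C * (‖x‖ ^ 6)⁻¹ * (ht x)⁻¹ ≤
          |C| * (4 * (1 + |x.fst|) ^ (-(2 : ℝ))) * (ht x)⁻¹ := by
        refine mul_le_mul_of_nonneg_right ?_ (by positivity)
        exact mul_le_mul (le_abs_self C) h5 (by positivity) (abs_nonneg C)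
      have h8 : 0 ≤ |C| * 16 * (1 + ‖x‖) ^ (-(4 : ℝ)) := by positivity
      linarith
    · have h5 : (ht x)⁻¹ ≤ 1 := inv_le_one_of_one_le₀ hc
      have h6 : C * (‖x‖ ^ 6)⁻¹ * (ht x)⁻¹ ≤ |C| * (16 * (1 + ‖x‖) ^ (-(4 : ℝ))) * 1 := by
        refine mul_le_mul ?_ h5 (by positivity) (by positivity)
        exact mul_le_mul (le_abs_self C) (h4.trans h3) (by positivity) (abs_nonneg C)
      have h7 : 0 ≤ |C| * 4 * ((1 + |x.fst|) ^ (-(2 : ℝ)) *
          (ball (0 : E2) 1).indicator (fun y : E2 => ‖y‖ ^ (-(1 : ℝ))) x.snd) := by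
        positivity
      linarith
  have h5 := (hloc (closedBall 0 M) (isCompact_closedBall _ _)).union hfarI
  have h6 : closedBall (0 : X) M ∪ {x : X | M ≤ ‖x‖} = univ := by
    ext x
    simp only [mem_union, mem_closedBall_zero_iff, mem_ofPred_eq, mem_univ, iff_true]
    exact le_total _ _
  rw [h6, integrableOn_univ] at h5
  exact h5

/-! ### the axis integral -/

section gen

variable {ι : Type*} [Fintype ι]

variable {φ₀ : ℝ} {z : ι → ℝ} {R : ι → X} {ρ : X → ℝ} {H : X → X →L[ℝ] X} {lo hi : ℝ}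

theorem wd_perp_ht39 : WD (fun x : X => (ht x ^ 2)⁻¹ • perp x) fun _ => 0 := by
  have hi : C1O (fun x : X => (ht x ^ 2)⁻¹) fun x => -((ht x ^ 2) ^ 2)⁻¹ • ((2 : ℝ) • perp x) :=
    C1O.ht_sq.inv fun x hx => by
      have := ht_pos hx
      positivity
  refine (WD.perp.mul hi).congr (fun x hx => rfl) fun x hx => ?_
  have hs := ht_pos hx
  have e1p : ⟪perp x, perp x⟫ = ht x ^ 2 := by
    rw [real_inner_self_eq_norm_sq, norm_perp]
  rw [real_inner_smul_left, real_inner_smul_left, e1p]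
  field_simp
  ring

/-- **the axis step** -/
theorem Dat.kaxis (D : Dat φ₀ z R ρ H lo hi) (hz : ∀ i, 0 < z i) (hR : Function.Injective R)
    {i j : ι} (hij : i ≠ j) (hall : ∀ k, k = i ∨ k = j)
    {Th Th' : ℝ → ℝ} {L : ℝ≥0} (hL : LipschitzWith L fun x : X => Th x.fst)
    (hg : ∀ᵐ x : X, HasGradientAt (fun x : X => Th x.fst) (Th' x.fst • e1) x)
    (h0 : ∀ t, 0 ≤ Th t) (h1 : ∀ t, Th t ≤ 1) {δ₀ : ℝ} (hδ₀ : 0 < δ₀)
    (hT : ∀ t, |t - (R i).fst| ≤ δ₀ → Th t = 0) :
    Integrable (fun x : X => Th x.fst * ((ht x)⁻¹ * (wt z R ρ (R i).fst (R j).fst x *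
      ⟪wt' z R ρ H (R i).fst (R j).fst x, es x⟫))) ∧
    (∫ x : X, Th x.fst * ((ht x)⁻¹ * (wt z R ρ (R i).fst (R j).fst x *
      ⟪wt' z R ρ H (R i).fst (R j).fst x, es x⟫))) ≤ 0 := by
  have hne : (R i).fst ≠ (R j).fst := D.fst_ne hR hij
  obtain ⟨c, hc⟩ : ∃ c : ℝ, c = (R i).fst := ⟨_, rfl⟩
  obtain ⟨c', hc'⟩ : ∃ c : ℝ, c = (R j).fst := ⟨_, rfl⟩
  obtain ⟨f, hf⟩ : ∃ f : X → ℝ, f = fun x : X => Th x.fst * ((ht x)⁻¹ * (wt z R ρ c c' x *
      ⟪wt' z R ρ H c c' x, es x⟫)) := ⟨_, rfl⟩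
  have hwc := (D.c1_wt c c').cont0
  have hwc' : ContinuousOn (wt' z R ρ H c c') Col.axᶜ := (D.c1_wt c c').cont
  have hfc : ContinuousOn f Col.axᶜ := by
    rw [hf]
    exact hL.continuous.continuousOn.mul (C1O.ht_inv.cont0.mul
      (hwc.mul (hwc'.inner C1O.ht.cont)))
  -- pointwise bound
  have hbd : ∀ {x : X} {C : ℝ}, x ∉ Col.ax → 0 ≤ C → |wt z R ρ c c' x| ≤ C →
      ‖wt' z R ρ H c c' x‖ ≤ C * (√(ht x))⁻¹ → |f x| ≤ C ^ 2 * (ht x) ^ (-(3 / 2 : ℝ)) := by
    intro x C hx hC a1 a2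
    have hs := ht_pos hx
    have a3 : |⟪wt' z R ρ H c c' x, es x⟫| ≤ C * (√(ht x))⁻¹ := by
      refine (abs_real_inner_le_norm _ _).trans ?_
      rw [norm_es hx, mul_one]
      exact a2
    rw [hf]
    dsimp only
    rw [abs_mul, abs_mul, abs_mul, abs_of_nonneg (h0 _), abs_of_pos (inv_pos.mpr hs)]
    have e1' : (ht x) ^ (-(3 / 2 : ℝ)) = (ht x)⁻¹ * (√(ht x))⁻¹ := by
      rw [Real.sqrt_eq_rpow, ← Real.rpow_neg_one (ht x), ← Real.rpow_neg_one (ht x ^ (1 / 2 : ℝ)),
        ← Real.rpow_mul hs.le, ← Real.rpow_add hs]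
      norm_num
    rw [e1']
    calc Th x.fst * ((ht x)⁻¹ * (|wt z R ρ c c' x| * |⟪wt' z R ρ H c c' x, es x⟫|))
        ≤ 1 * ((ht x)⁻¹ * (C * (C * (√(ht x))⁻¹))) := by
          refine mul_le_mul (h1 _) ?_ (by positivity) zero_le_one
          refine mul_le_mul_of_nonneg_left ?_ (by positivity)
          exact mul_le_mul a1 a3 (abs_nonneg _) hC
      _ = C ^ 2 * ((ht x)⁻¹ * (√(ht x))⁻¹) := by ring
  have hI : Integrable f := by
    refine int_of_axis39 hfc (fun x₀ hx₀ => ?_) ?_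
    · by_cases hi' : x₀ = R i
      · -- near the own nucleus the factor vanishes
        refine ⟨0, δ₀, hδ₀, fun x hx hxa => ?_⟩
        have h2 : |x.fst - (R i).fst| ≤ δ₀ := by
          rw [hi', mem_ball, dist_eq_norm] at hx
          have h3 : x.fst - (R i).fst = (x - R i).fst := (WithLp.sub_fst _ _).symm
          rw [h3]
          exact (abs_fst_le _).trans hx.le
        rw [hf]
        dsimp only
        rw [hT _ h2, zero_mul, abs_zero, zero_mul]
      · by_cases hj' : x₀ = R j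
        · obtain ⟨δ, C, W, hδ, hδ1, hC, hN, -⟩ := D.nuc_wt hz hR j (s := (R i).fst) hne.symm
          refine ⟨(|W| + C) ^ 2, δ, hδ, fun x hx hxa => ?_⟩
          rw [hj'] at hx
          have hb := hN x hx hxa
          rw [← hc, ← hc'] at hb
          have a1 : |wt z R ρ c c' x| ≤ |W| + C := by
            have h2 := hb.reg
            have h3 : √‖x - R j‖ ≤ 1 := by
              rw [mem_ball, dist_eq_norm] at hx
              rw [← Real.sqrt_one]
              exact Real.sqrt_le_sqrt (by linarith)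
            have h4 := abs_sub_abs_le_abs_sub (wt z R ρ c c' x) W
            have h5 : C * √‖x - R j‖ ≤ C := mul_le_of_le_one_right hC h3
            linarith
          have a2 : ‖wt' z R ρ H c c' x‖ ≤ (|W| + C) * (√(ht x))⁻¹ := by
            refine hb.reg'.trans (mul_le_mul_of_nonneg_right ?_ (by positivity))
            have := abs_nonneg W
            linarith
          exact hbd hxa (by positivity) a1 a2
        · have hx₀R : ∀ k, x₀ ≠ R k := fun k => by
            rcases hall k with h | h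
            · rw [h]; exact hi'
            · rw [h]; exact hj'
          obtain ⟨C₁, δ₁, hδ₁, hb₁⟩ := D.bdN_wt c c' x₀ hx₀ hx₀R
          obtain ⟨C₂, δ₂, hδ₂, hC₂, hb₂⟩ := D.axis_wt' c c' hx₀ hx₀R
          refine ⟨(|C₁| + C₂) ^ 2, min δ₁ δ₂, lt_min hδ₁ hδ₂, fun x hx hxa => ?_⟩
          have hs := ht_pos hxa
          have a1 : |wt z R ρ c c' x| ≤ |C₁| + C₂ := by
            have h2 := hb₁ x (ball_subset_ball (min_le_left _ _) hx) hxa
            rw [Real.norm_eq_abs] at h2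
            linarith [le_abs_self C₁]
          have a2 : ‖wt' z R ρ H c c' x‖ ≤ (|C₁| + C₂) * (√(ht x))⁻¹ := by
            have h2 := hb₂ x (ball_subset_ball (min_le_right _ _) hx) hxa
            have h3 : 0 < √(ht x) := Real.sqrt_pos.mpr hs
            rw [← div_eq_mul_inv, le_div_iff₀ h3, mul_comm]
            linarith [abs_nonneg C₁]
          exact hbd hxa (by positivity) a1 a2
    · obtain ⟨C, N, hC, hN, hF⟩ := D.far_wt c c'
      refine ⟨C ^ 2, N, fun x hx hxN => ?_⟩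
      obtain ⟨a1, a2⟩ := hF x hx hxN
      have hs := ht_pos hx
      have a3 : |⟪wt' z R ρ H c c' x, es x⟫| ≤ C * (‖x‖ ^ 3)⁻¹ := by
        refine (abs_real_inner_le_norm _ _).trans ?_
        rw [norm_es hx, mul_one]
        exact a2
      rw [hf]
      dsimp only
      rw [abs_mul, abs_mul, abs_mul, abs_of_nonneg (h0 _), abs_of_pos (inv_pos.mpr hs)]
      calc Th x.fst * ((ht x)⁻¹ * (|wt z R ρ c c' x| * |⟪wt' z R ρ H c c' x, es x⟫|))
          ≤ 1 * ((ht x)⁻¹ * (C * (‖x‖ ^ 3)⁻¹ * (C * (‖x‖ ^ 3)⁻¹))) := by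
            refine mul_le_mul (h1 _) ?_ (by positivity) zero_le_one
            refine mul_le_mul_of_nonneg_left ?_ (by positivity)
            exact mul_le_mul a1 a3 (abs_nonneg _) (by positivity)
        _ = C ^ 2 * (‖x‖ ^ 6)⁻¹ * (ht x)⁻¹ := by
            rw [one_mul]
            have : (‖x‖ ^ 6)⁻¹ = (‖x‖ ^ 3)⁻¹ * (‖x‖ ^ 3)⁻¹ := by
              rw [← mul_inv]; ring_nf
            rw [this]
            ring
  -- the field
  have hLa : ∀ x : X, x ∉ Col.ax → LipAt (fun x : X => Th x.fst) x := fun x _ =>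
    ⟨L, univ, univ_mem, hL.lipschitzOnWith⟩
  have hW := ((wd_perp_ht39.mul ((D.c1_wt c c').mul (D.c1_wt c c'))).toL).mul_lip hLa hg
  have hW2 : WDL (fun x : X => Th x.fst • ((wt z R ρ c c' x * wt z R ρ c c' x) •
      ((ht x ^ 2)⁻¹ • perp x))) fun x => (fun _ => (0 : ℝ)) x + (fun x => 2 * f x) x := by
    refine hW.congr (fun x hx => rfl) ?_
    filter_upwards [ae_off_ax] with x hx
    have hs := ht_pos hx
    rw [hf]
    dsimp only
    rw [perp_es hx]
    simp only [inner_add_left, real_inner_smul_left, real_inner_smul_right, inner_e1_es]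
    field_simp
    ring
  obtain ⟨C, N, hC, hN, hF⟩ := D.far_wt c c'
  have hmain := axis_leak (C := C ^ 2) (N := N) hW2 (fun x hx => ?_) (fun x hx hxN => ?_)
    (Eventually.of_forall fun x => le_rfl) aestronglyMeasurable_const (hI.const_mul 2)
  · rw [← hc, ← hc']
    refine ⟨hf ▸ hI, ?_⟩
    have h2 := hmain.2
    rw [integral_zero, integral_const_mul] at h2
    have h3 : ∫ x, f x ≤ 0 := by linarith
    rw [hf] at h3
    exact h3
  · have hs := ht_pos hx
    rw [perp_es hx, real_inner_smul_left, real_inner_smul_left, real_inner_smul_left,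
      real_inner_smul_left, inner_es_self hx]
    have := mul_self_nonneg (wt z R ρ c c' x)
    have := h0 x.fst
    positivity
  · obtain ⟨a1, a2⟩ := hF x hx hxN
    have hs := ht_pos hx
    have hx1 : 1 ≤ ‖x‖ := hN.trans hxN
    rw [norm_smul, norm_smul, norm_smul, norm_perp, Real.norm_of_nonneg (h0 _),
      Real.norm_of_nonneg (mul_self_nonneg _), Real.norm_of_nonneg (by positivity)]
    have a4 : wt z R ρ c c' x * wt z R ρ c c' x ≤ (C * (‖x‖ ^ 3)⁻¹) ^ 2 := by
      rw [← pow_two, ← sq_abs]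
      exact pow_le_pow_left₀ (abs_nonneg _) a1 2
    have a5 : (‖x‖ ^ 6)⁻¹ ≤ (‖x‖ ^ 4)⁻¹ :=
      inv_anti₀ (by positivity) (pow_le_pow_right₀ hx1 (by norm_num))
    calc ht x * (Th x.fst * (wt z R ρ c c' x * wt z R ρ c c' x * ((ht x ^ 2)⁻¹ * ht x)))
        = Th x.fst * (wt z R ρ c c' x * wt z R ρ c c' x) := by
          field_simp
      _ ≤ 1 * (C * (‖x‖ ^ 3)⁻¹) ^ 2 := mul_le_mul (h1 _) a4 (mul_self_nonneg _) zero_le_one
      _ = C ^ 2 * (‖x‖ ^ 6)⁻¹ := by
          rw [one_mul, mul_pow, ← inv_pow]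
          ring
      _ ≤ C ^ 2 * (‖x‖ ^ 4)⁻¹ := mul_le_mul_of_nonneg_left a5 (by positivity)

end gen

section two

variable {φ₀ : ℝ} {z : Fin 2 → ℝ} {R : Fin 2 → X} {ρ : X → ℝ} {H : X → X →L[ℝ] X} {lo hi : ℝ}

/-- **the axis step against the ramp**, both sides -/
theorem Dat.kaxis_ramp (D : Dat φ₀ z R ρ H lo hi) (hz : ∀ i, 0 < z i)
    (hlt : (R 0).fst < (R 1).fst) {m w : ℝ} (hw : 0 < w) (ha : (R 0).fst < m - w)
    (hb : m + w < (R 1).fst) :
    (Integrable (fun x : X => ramp m w x.fst * ((ht x)⁻¹ *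
      (wt z R ρ (R 0).fst (R 1).fst x * ⟪wt' z R ρ H (R 0).fst (R 1).fst x, es x⟫))) ∧
    (∫ x : X, ramp m w x.fst * ((ht x)⁻¹ *
      (wt z R ρ (R 0).fst (R 1).fst x * ⟪wt' z R ρ H (R 0).fst (R 1).fst x, es x⟫))) ≤ 0) ∧
    (Integrable (fun x : X => (1 - ramp m w x.fst) * ((ht x)⁻¹ *
      (wt z R ρ (R 1).fst (R 0).fst x * ⟪wt' z R ρ H (R 1).fst (R 0).fst x, es x⟫))) ∧
    (∫ x : X, (1 - ramp m w x.fst) * ((ht x)⁻¹ *
      (wt z R ρ (R 1).fst (R 0).fst x * ⟪wt' z R ρ H (R 1).fst (R 0).fst x, es x⟫))) ≤ 0) := by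
  have hRi := inj_of_lt39 hlt
  have hgr : ∀ᵐ x : X, HasGradientAt (fun y : X => ramp m w y.fst) (ramp' m w x.fst • e1) x := by
    filter_upwards [plane_null (m - w), plane_null (m + w)] with x hx1 hx2
    exact ramp_grad hw hx1 hx2
  have hlip := ramp_lipX (m := m) hw
  have hlip' : LipschitzWith (Real.toNNReal (2 * w)⁻¹) fun y : X => 1 - ramp m w y.fst := by
    refine LipschitzWith.of_dist_le_mul fun x y => ?_
    have h2 := hlip.dist_le_mul y x
    rw [Real.dist_eq] at h2 ⊢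
    rw [dist_comm x y]
    have e : 1 - ramp m w x.fst - (1 - ramp m w y.fst) = ramp m w y.fst - ramp m w x.fst := by
      ring
    rw [e]
    exact h2
  have hgr' : ∀ᵐ x : X, HasGradientAt (fun y : X => 1 - ramp m w y.fst)
      ((-ramp' m w x.fst) • e1) x := by
    filter_upwards [hgr] with x hx
    rw [hasGradientAt_iff_hasFDerivAt] at hx ⊢
    refine (hx.const_sub 1).congr_fderiv ?_
    rw [neg_smul, map_neg]
  refine ⟨?_, ?_⟩
  · refine D.kaxis hz hRi (i := 0) (j := 1) (by decide) (fin2_all (by decide)) hlip hgr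
      (ramp_nonneg m w) (ramp_le_one m w) (δ₀ := m - w - (R 0).fst) (by linarith)
      fun t ht => ramp_zero hw ?_
    have := abs_le.mp ht
    linarith [this.2]
  · refine D.kaxis hz hRi (i := 1) (j := 0) (by decide) (fin2_all (by decide))
      (Th := fun t => 1 - ramp m w t) (Th' := fun t => -ramp' m w t) hlip' hgr'
      (fun t => by have := ramp_le_one m w t; linarith)
      (fun t => by have := ramp_nonneg m w t; linarith) (δ₀ := (R 1).fst - (m + w))
      (by linarith) fun t ht => ?_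
    have := abs_le.mp ht
    rw [ramp_one hw (by linarith [this.1])]
    ring

end two

end Pool.Agent.TF.Col
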