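import Mathlib
import Pool.Agent.Lib.MP_9cf0c9_mp.Tr.Col83
import Pool.Agent.Lib.MP_9cf0c9_mp.Tr.HalfDip48
import Pool.Agent.Lib.MP_9cf0c9_mp.Tr.NucD
/-! The function `e` of the half space: `g = E₁ - e ≥ 0`, and the front lemma `e ≥ 0` behind the
nucleus. -/

set_option autoImplicit false

set_option linter.unusedSectionVars false

set_option linter.unusedVariables false

namespace Pool.Agent.TF.Grd
end Pool.Agent.TF.Grd

namespace Pool.Agent.TF.Col

open MeasureTheory Set Metric Filter Topology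

open scoped ENNReal NNReal RealInnerProductSpace Gradient

open Pool.Agent.TF.Grd

/-! ### real numbers, the axis -/

theorem small_rpow48 (C M : ℝ) {δ : ℝ} (hδ : 0 < δ) : ∃ r₀ > 0, ∀ r : ℝ, 0 < r → r < r₀ →
    C * (r⁻¹) ^ (3 / 4 : ℝ) + M < δ * r⁻¹ := by
  set K : ℝ := (|C| + |M|) / δ + 1 with hK
  have hK1 : 1 ≤ K := by
    have : 0 ≤ (|C| + |M|) / δ := by positivity
    linarith
  refine ⟨(K ^ 4)⁻¹, by positivity, fun r hr hrr => ?_⟩
  set y : ℝ := r⁻¹ with hy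
  have hyK : K ^ 4 < y := by
    rw [hy]
    exact (lt_inv_comm₀ hr (by positivity)).mp hrr
  have hy1 : 1 < y := lt_of_le_of_lt (one_le_pow₀ hK1) hyK
  have hy0 : 0 < y := by linarith
  have h1 : y = y ^ (3 / 4 : ℝ) * y ^ (1 / 4 : ℝ) := by
    rw [← Real.rpow_add hy0]
    norm_num
  have h2 : K < y ^ (1 / 4 : ℝ) := by
    have h3 : (K ^ 4) ^ (1 / 4 : ℝ) < y ^ (1 / 4 : ℝ) :=
      Real.rpow_lt_rpow (by positivity) hyK (by norm_num)
    have h4 : (K ^ 4) ^ (1 / 4 : ℝ) = K := by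
      rw [← Real.rpow_natCast, ← Real.rpow_mul (by linarith)]
      norm_num
    rwa [h4] at h3
  have h5 : 1 ≤ y ^ (3 / 4 : ℝ) := Real.one_le_rpow hy1.le (by norm_num)
  have h6 : |C| + |M| < δ * K := by
    rw [hK, mul_add, mul_div_cancel₀ _ hδ.ne']
    linarith
  have h7 : δ * K < δ * y ^ (1 / 4 : ℝ) := mul_lt_mul_of_pos_left h2 hδ
  calc C * y ^ (3 / 4 : ℝ) + M ≤ |C| * y ^ (3 / 4 : ℝ) + |M| * y ^ (3 / 4 : ℝ) := by
        have := mul_le_mul_of_nonneg_right (le_abs_self C) (by linarith : 0 ≤ y ^ (3 / 4 : ℝ))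
        have := le_abs_self M
        have := mul_le_mul_of_nonneg_left h5 (abs_nonneg M)
        linarith
    _ = (|C| + |M|) * y ^ (3 / 4 : ℝ) := by ring
    _ < (δ * y ^ (1 / 4 : ℝ)) * y ^ (3 / 4 : ℝ) :=
        mul_lt_mul_of_pos_right (h6.trans h7) (by linarith)
    _ = δ * y := by
        conv_rhs => rw [h1]
        ring

theorem dense_off_ax48 : Dense (axᶜ : Set X) := Measure.dense_of_ae ae_off_ax

/-- an inequality between functions which are continuous at `x` extends to `x` -/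
theorem ge_of_off_ax {u : X → ℝ} {x : X} {c : ℝ} (hu : ContinuousAt u x) {U : Set X}
    (hU : U ∈ 𝓝 x) (h : ∀ y ∈ U, y ∉ ax → c ≤ u y) : c ≤ u x := by
  by_contra hlt
  push Not at hlt
  have h1 : ∀ᶠ y in 𝓝 x, u y < c := hu.eventually_lt_const hlt
  obtain ⟨V, hV, hVo, hxV⟩ := _root_.mem_nhds_iff.mp (Filter.inter_mem h1 hU)
  obtain ⟨y, hyV, hy⟩ := dense_off_ax48.exists_mem_open hVo ⟨x, hxV⟩
  have h2 := hV hy
  have h3 : u y < c := h2.1
  linarith [h y h2.2 hyV]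

section sol

variable {ι : Type*} [Fintype ι]

variable {φ₀ : ℝ} {z : ι → ℝ} {R : ι → X} {ρ : X → ℝ} {H : X → X →L[ℝ] X} {lo hi : ℝ} {t : ℝ}

variable {i : ι} {δ : ℝ} {e : X → ℝ} {e' : X → X}

/-- the field near a nucleus -/
theorem Dat.near_E1 (D : Dat φ₀ z R ρ H lo hi) (hz : ∀ i, 0 < z i) (hR : Function.Injective R)
    (G : Geo R t i δ) : ∃ r C : ℝ, 0 < r ∧ 0 ≤ C ∧ ∀ x, ‖x - R i‖ < r → x ≠ R i →
      |E1 z R ρ x - z i * (‖x - R i‖ ^ 3)⁻¹ * (x.fst - (R i).fst)| ≤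
        C * (‖x - R i‖⁻¹) ^ (3 / 4 : ℝ) := by
  obtain ⟨r, C, hr, hr1, hC, hb⟩ := D.p_near hz hR i
  refine ⟨min r δ, C, lt_min hr G.hδ, hC, fun x hx hxi => ?_⟩
  set u : X → ℝ := fun x => C * (‖x - R i‖⁻¹) ^ (3 / 4 : ℝ) -
    |E1 z R ρ x - z i * (‖x - R i‖ ^ 3)⁻¹ * (x.fst - (R i).fst)| with hu
  have hoff : ∀ y, ‖y - R i‖ < min r δ → y ∉ Col.ax → 0 ≤ u y := by
    intro y hy hya
    have h1 := (hb y (by
      rw [mem_ball_iff_norm]
      exact hy.trans_le (min_le_left _ _)) hya).2.2.2.1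
    have h2 : E1 z R ρ y - z i * (‖y - R i‖ ^ 3)⁻¹ * (y.fst - (R i).fst) =
        -⟪psi' z R ρ y + (z i * (‖y - R i‖ ^ 3)⁻¹) • (y - R i), e1⟫ := by
      unfold E1
      rw [inner_add_left, real_inner_smul_left, inner_e1 (y - R i), WithLp.sub_fst]
      ring
    have h3 : |E1 z R ρ y - z i * (‖y - R i‖ ^ 3)⁻¹ * (y.fst - (R i).fst)| ≤
        C * (‖y - R i‖⁻¹) ^ (3 / 4 : ℝ) := by
      rw [h2, abs_neg]
      refine (abs_real_inner_le_norm _ _).trans ?_
      rw [norm_e1, mul_one]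
      exact h1
    simp only [hu]
    linarith
  have hxn : ∀ j, x ≠ R j := G.off ((hx.trans_le (min_le_right _ _)).le.trans
    (by linarith [G.hδ])) hxi
  have hn0 : ‖x - R i‖ ≠ 0 := norm_ne_zero_iff.mpr (sub_ne_zero.mpr hxi)
  have hcont : ContinuousAt u x := by
    have c1 : ContinuousAt (fun x : X => ‖x - R i‖⁻¹) x :=
      ContinuousAt.inv₀ (by fun_prop) hn0
    have c2 : ContinuousAt (fun x : X => (‖x - R i‖ ^ 3)⁻¹) x :=
      ContinuousAt.inv₀ (by fun_prop) (pow_ne_zero 3 hn0)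
    have c3 := D.c1_E1.cont0 (x := x) hxn
    have c4 : ContinuousAt (fun x : X => x.fst - (R i).fst) x := by fun_prop
    exact (continuousAt_const.mul (c1.rpow_const (Or.inr (by norm_num)))).sub
      (c3.sub ((continuousAt_const.mul c2).mul c4)).abs
  have h := ge_of_off_ax hcont (U := {y | ‖y - R i‖ < min r δ})
    ((isOpen_lt (by fun_prop) continuous_const).mem_nhds hx) (c := 0) fun y hy hya =>
      hoff y hy hya
  simp only [hu] at h
  linarith

/-! ### elementary properties of `e` -/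

/-! ### the front lemma -/

end sol

end Pool.Agent.TF.Col
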