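import Mathlib
import Pool.Agent.Lib.MP_9cf0c9_mp.Tr.ColJ
import Pool.Agent.Lib.MP_9cf0c9_mp.Tr.Mirror39
/-! The asymmetry of the coefficient `Γ = gam ψ` with respect to the plane through the nucleus
`R 1`: it is at most the asymmetry of the isolated ion `R 0`. -/

set_option autoImplicit false

set_option linter.unusedSectionVars false

set_option linter.unusedVariables false

set_option linter.style.haveILetI false

namespace Pool.Agent.TF.Grd
end Pool.Agent.TF.Grd

namespace Pool.Agent.TF

open MeasureTheory Set Metric Filter Topology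

open scoped ENNReal NNReal RealInnerProductSpace Gradient

/-! ### real numbers -/

theorem gam_sqrt (u : ℝ) : gam u = 3 / 2 * √(max u 0) := rfl

theorem gam_le_gam86 {u v : ℝ} (h : u ≤ v) : gam u ≤ gam v := by
  have := Real.sqrt_le_sqrt (max_le_max h (le_refl (0 : ℝ)))
  rw [gam_sqrt, gam_sqrt]
  linarith

/-! ### solutions -/

variable {ι : Type*} [Fintype ι]

end Pool.Agent.TF

/-! ### the plane through a nucleus on the axis, orthogonal to the axis -/

namespace Pool.Agent.TF.Col

open MeasureTheory Set Metric Filter Topology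

open scoped ENNReal NNReal RealInnerProductSpace Gradient

open Pool.Agent.TF.Grd

theorem hgt_plane (o x : X) : hgt o (-e1) x = o.fst - x.fst := by
  unfold hgt
  rw [inner_neg_right, inner_e1, WithLp.sub_fst]
  ring

theorem mir_plane (o x : X) : mir o (-e1) x = x + (2 * (o.fst - x.fst)) • e1 := by
  unfold mir
  rw [hgt_plane, smul_neg, sub_neg_eq_add]

theorem Dat.sol' {ι : Type*} [Fintype ι] {φ₀ : ℝ} {z : ι → ℝ} {R : ι → X} {ρ : X → ℝ}
    {H : X → X →L[ℝ] X} {lo hi : ℝ} (D : Dat φ₀ z R ρ H lo hi) : Sol φ₀ z R ρ :=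
  ⟨D.hρ, fun x _ => D.heq x⟩

end Pool.Agent.TF.Col
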