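import Mathlib
import Pool.Agent.Lib.MP_9cf0c9_mp.Tr.Gam86
import Pool.Agent.Lib.MP_9cf0c9_mp.Tr.HalfDip48
import Pool.Agent.Lib.MP_9cf0c9_mp.Tr.Rot39
/-! Two nuclei on the axis: the hypotheses of the front lemma, `E₁ ≥ 0` on the plane in the
middle, and the bounds of `g` by `(x₁ - a) q`, `q` the weight of the left nucleus. -/

set_option autoImplicit false

set_option linter.unusedSectionVars false

set_option linter.unusedVariables false

namespace Pool.Agent.TF.Grd
end Pool.Agent.TF.Grd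

namespace Pool.Agent.TF.Col

open MeasureTheory Set Metric Filter Topology

open scoped ENNReal NNReal RealInnerProductSpace Gradient

open Pool.Agent.TF.Grd

section two

variable {φ₀ : ℝ} {z : Fin 2 → ℝ} {R : Fin 2 → X} {ρ : X → ℝ} {H : X → X →L[ℝ] X} {lo hi t : ℝ}

variable {δ η : ℝ} {e : X → ℝ} {e' : X → X}

/-- **`E₁ ≥ 0` on the plane in the middle**, if the left nucleus is the heavier one -/
theorem Dat.E1_mid (D : Dat φ₀ z R ρ H lo hi) (hz : z 1 ≤ z 0) (hab : (R 0).fst < (R 1).fst)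
    {x : X} (hx : x.fst = ((R 0).fst + (R 1).fst) / 2) : 0 ≤ E1 z R ρ x := by
  have hR0 : (R 0).fst • e1 = R 0 := fst_smul_of_ax (D.ax.on_axis 0)
  have hR1 : (R 1).fst • e1 = R 1 := fst_smul_of_ax (D.ax.on_axis 1)
  have hne : R 0 ≠ R 1 := fun h => by rw [h] at hab; exact lt_irrefl _ hab
  obtain ⟨he, -, -, hh⟩ := mir_mid hne
  have hdir : ‖R 0 - R 1‖⁻¹ • (R 0 - R 1) = -e1 := by
    have h1 : R 0 - R 1 = (-((R 1).fst - (R 0).fst)) • e1 := by
      conv_lhs => rw [← hR0, ← hR1]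
      module
    have h2 : ‖R 0 - R 1‖ = (R 1).fst - (R 0).fst := by
      rw [h1, norm_smul, norm_e1, mul_one, Real.norm_eq_abs, abs_neg, abs_of_pos (by linarith)]
    rw [h2, h1, smul_smul]
    have h3 : ((R 1).fst - (R 0).fst)⁻¹ * -((R 1).fst - (R 0).fst) = -1 := by
      have : (R 1).fst - (R 0).fst ≠ 0 := by linarith
      field_simp
    rw [h3]
    module
  have hoff : ∀ j, x ≠ R j := by
    intro j hj
    rw [hj] at hx
    fin_cases j
    · simp only [Fin.zero_eta] at hx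
      linarith
    · simp only [Fin.mk_one] at hx
      linarith
  have hsq : ∀ y : X, ∀ j, ‖y - R j‖ ^ 2 = (y.fst - (R j).fst) ^ 2 + ht y ^ 2 := by
    intro y j
    have h1 : y - R j = TF.mk (y.fst - (R j).fst) y.snd := by
      have h0 := D.ax.on_axis j
      rw [← mk_eta (y - R j), WithLp.sub_fst, WithLp.sub_snd, h0, sub_zero]
    rw [h1, norm_mk_sq]
    rfl
  have hplane : hgt ((1 / 2 : ℝ) • (R 0 + R 1)) (‖R 0 - R 1‖⁻¹ • (R 0 - R 1)) x = 0 := by
    rw [hh, hsq x 0, hsq x 1, hx]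
    ring
  have hgrad := psi_grad D.hz D.hφ D.hρ D.heq hoff
  have key := inner_grad_nonneg_of_mir he hplane hgrad ?_
  · rw [hdir, inner_neg_right] at key
    exact key
  · have h0 : ∀ᶠ y in 𝓝 x, y ≠ R 0 := isOpen_ne.mem_nhds (hoff 0)
    filter_upwards [h0] with y hy hlt
    refine psi_mid_le hne hz D.sol' ?_ hy
    rw [hh] at hlt
    have h1 : 0 < ‖R 0 - R 1‖ := norm_pos_iff.mpr (sub_ne_zero.mpr hne)
    have h2 : 0 < ‖y - R 1‖ ^ 2 - ‖y - R 0‖ ^ 2 := by
      by_contra h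
      push Not at h
      have : (2 * ‖R 0 - R 1‖)⁻¹ * (‖y - R 1‖ ^ 2 - ‖y - R 0‖ ^ 2) ≤ 0 :=
        mul_nonpos_of_nonneg_of_nonpos (by positivity) h
      linarith
    exact lt_of_pow_lt_pow_left₀ 2 (norm_nonneg _) (by linarith)

theorem fin2_geo (h0t : (R 0).fst < t) : ∀ j, j ≠ (1 : Fin 2) → (R j).fst < t := fun j hj => by
  have : j = 0 := by
    rcases fin2_all (i := (1 : Fin 2)) (j := 0) (by decide) j with h | h
    · exact absurd h hj
    · exact h
  rw [this]; exact h0t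

end two

end Pool.Agent.TF.Col
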