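import Mathlib
import Pool.Agent.Lib.MP_9cf0c9_mp.Tr.ColGlue83
import Pool.Agent.Lib.MP_9cf0c9_mp.Tr.Hess
/-! The weak minimum principle, with test functions supported off the axis. -/

set_option autoImplicit false

set_option linter.unusedSectionVars false

set_option linter.unusedVariables false

namespace Pool.Agent.TF.Col

open MeasureTheory Set Metric Filter Topology

open scoped ENNReal NNReal RealInnerProductSpace Gradient

theorem grad_sq_integrable {u : X → ℝ} {C : ℝ≥0} (hu : LipschitzWith C u)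
    (hc : HasCompactSupport u) : Integrable fun x => ‖∇ u x‖ ^ 2 := (wTrial_of_lip hu hc).sq

theorem int_gradP {η : X → ℝ} {C : ℝ≥0} (hη : LipschitzWith C η) (hc : HasCompactSupport η)
    {p : X} (hp : p ∉ tsupport η) : Integrable fun x => ⟪gradP p x, ∇ η x⟫ := by
  have h1 : (fun x => ⟪gradP p x, ∇ η x⟫) = (tsupport η).indicator fun x => ⟪gradP p x, ∇ η x⟫ := by
    funext x
    by_cases hx : x ∈ tsupport η
    · rw [indicator_of_mem hx]
    · rw [indicator_of_notMem hx, gradient_zero_of_notMem hx, inner_zero_right]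
  rw [h1, integrable_indicator_iff (isClosed_tsupport η).measurableSet]
  have h2 : ContinuousOn (gradP p : X → X) (tsupport η) := by
    intro x hx
    have hxp : x ≠ p := by
      rintro rfl
      exact hp hx
    exact (hasFDerivAt_gradP hxp).continuousAt.continuousWithinAt
  have h3 : IntegrableOn (gradP p : X → X) (tsupport η) := h2.integrableOn_compact hc
  refine Integrable.mono' (h3.norm.const_mul (C : ℝ))
    (h3.1.inner (measurable_gradient η).aestronglyMeasurable) (Eventually.of_forall fun x => ?_)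
  calc ‖⟪gradP p x, ∇ η x⟫‖ ≤ ‖gradP p x‖ * ‖∇ η x‖ := norm_inner_le_norm _ _
    _ ≤ ‖gradP p x‖ * C := mul_le_mul_of_nonneg_left (gradient_bound hη x) (norm_nonneg _)
    _ = C * ‖gradP p x‖ := mul_comm _ _

theorem integral_gradP {η : X → ℝ} {C : ℝ≥0} (hη : LipschitzWith C η) (hc : HasCompactSupport η)
    {p : X} (hp : p ∉ tsupport η) : ∫ x, ⟪gradP p x, ∇ η x⟫ = 0 := by
  have h1 := rep hη hc p
  rw [image_eq_zero_of_notMem_tsupport hp, mul_zero, neg_zero] at h1
  have h2 : ∀ x, ⟪gradP p x, ∇ η x⟫ = -((‖x - p‖ ^ 3)⁻¹ * ⟪x - p, ∇ η x⟫) := fun x => by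
    unfold gradP
    rw [inner_neg_left, real_inner_smul_left]
  simp_rw [h2]
  rw [integral_neg, h1, neg_zero]

end Pool.Agent.TF.Col
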