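import Mathlib
import Pool.Agent.Lib.MP_9cf0c9_mp.Tr.Col58L
import Pool.Agent.Lib.MP_9cf0c9_mp.Tr.WMin48
/-! The weak minimum principle for functions which are only locally bounded below near the axis
(the axis has capacity zero). -/

set_option autoImplicit false

set_option linter.unusedSectionVars false

set_option linter.unusedVariables false

namespace Pool.Agent.TF.Col

open MeasureTheory Set Metric Filter Topology

open scoped ENNReal NNReal RealInnerProductSpace Gradient

/-- a gradient integral is small if the energy is small -/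
theorem pair_le48 {f : X → ℝ} (hf : BC f) {r : ℝ} (hr : 0 < r) : ∃ B, 0 ≤ B ∧
    ∀ v : X → ℝ, (∃ C : ℝ≥0, LipschitzWith C v) → (∀ x, r ≤ ‖x‖ → v x = 0) → ∀ s : ℝ, 0 < s →
      4 * Real.pi * ∫ x, f x * v x ≤ B * (s⁻¹ * (∫ x, ‖∇ v x‖ ^ 2) + s) := by
  obtain ⟨B0, hB0⟩ := gradV_bound hf
  have hB00 : 0 ≤ B0 := (norm_nonneg _).trans (hB0 0)
  set Vr : ℝ := (volume (closedBall (0 : X) (r + 1))).toReal with hVr
  have hVr0 : 0 ≤ Vr := ENNReal.toReal_nonneg
  refine ⟨B0 * (1 + Vr), by positivity, fun v ⟨C, hC⟩ hv s hs => ?_⟩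
  have hcs : HasCompactSupport v := by
    refine HasCompactSupport.intro (isCompact_closedBall (0 : X) r) fun x hx => hv x ?_
    rw [mem_closedBall_zero_iff, not_le] at hx
    exact hx.le
  obtain ⟨i1, e1⟩ := weak_poisson hf.integrable hf.meas hC hcs
  rw [← e1]
  have hsq := grad_sq_integrable hC hcs
  set Kr : Set X := closedBall (0 : X) (r + 1) with hKr
  have hgz : ∀ x, x ∉ Kr → ∇ v x = 0 := by
    intro x hx
    refine gradient_zero_of_notMem fun h => hx ?_
    refine closure_minimal (fun y hy => ?_) isClosed_closedBall h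
    rw [mem_closedBall_zero_iff]
    by_contra h1
    push Not at h1
    exact hy (hv y (by linarith))
  have hind : Integrable (Kr.indicator fun _ : X => s) :=
    (integrable_indicator_iff isClosed_closedBall.measurableSet).mpr
      (integrableOn_const (isCompact_closedBall (0 : X) (r + 1)).measure_lt_top.ne)
  have hpt : ∀ x, ⟪gradV f x, ∇ v x⟫ ≤ B0 * (s⁻¹ * ‖∇ v x‖ ^ 2 + Kr.indicator (fun _ => s) x) := by
    intro x
    by_cases hx : x ∈ Kr
    · rw [indicator_of_mem hx]
      have h1 : ⟪gradV f x, ∇ v x⟫ ≤ B0 * ‖∇ v x‖ :=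
        (real_inner_le_norm _ _).trans (mul_le_mul_of_nonneg_right (hB0 x) (norm_nonneg _))
      refine h1.trans (mul_le_mul_of_nonneg_left ?_ hB00)
      have h2 : s⁻¹ * ‖∇ v x‖ ^ 2 + s - 2 * ‖∇ v x‖ = s⁻¹ * (‖∇ v x‖ - s) ^ 2 := by
        field_simp
        ring
      have h3 : 0 ≤ s⁻¹ * (‖∇ v x‖ - s) ^ 2 := by positivity
      linarith [norm_nonneg (∇ v x)]
    · rw [hgz x hx, inner_zero_right, indicator_of_notMem hx, norm_zero]
      simp
  have h4 := integral_mono i1 (((hsq.const_mul s⁻¹).add hind).const_mul B0) hpt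
  refine h4.trans ?_
  have h5 : ∫ x, B0 * (s⁻¹ * ‖∇ v x‖ ^ 2 + Kr.indicator (fun _ => s) x) =
      B0 * (s⁻¹ * (∫ x, ‖∇ v x‖ ^ 2) + Vr * s) := by
    rw [integral_const_mul, integral_add (hsq.const_mul s⁻¹) hind, integral_const_mul,
      integral_indicator isClosed_closedBall.measurableSet, setIntegral_const, smul_eq_mul]
    rfl
  simp only [Pi.add_apply] at *
  rw [h5]
  have h6 : 0 ≤ s⁻¹ * ∫ x, ‖∇ v x‖ ^ 2 :=
    mul_nonneg (by positivity) (integral_nonneg fun x => by positivity)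
  have h7 : B0 * (1 + Vr) * (s⁻¹ * (∫ x, ‖∇ v x‖ ^ 2) + s) -
      B0 * (s⁻¹ * (∫ x, ‖∇ v x‖ ^ 2) + Vr * s) =
      B0 * (Vr * (s⁻¹ * ∫ x, ‖∇ v x‖ ^ 2) + s) := by ring
  have h8 : 0 ≤ B0 * (Vr * (s⁻¹ * ∫ x, ‖∇ v x‖ ^ 2) + s) := by positivity
  linarith

theorem en_alg48 (a z : X) (p c : ℝ) :
    ⟪z, (p * c) • a + c • (p • a + c • -z)⟫ = -‖p • a + c • -z‖ ^ 2 + p ^ 2 * ‖a‖ ^ 2 := by
  rw [← real_inner_self_eq_norm_sq (p • a + c • -z), ← real_inner_self_eq_norm_sq a]
  simp only [inner_add_left, inner_add_right, real_inner_smul_left, real_inner_smul_right,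
    inner_neg_left, inner_neg_right]
  rw [real_inner_comm z a]
  ring

/-- **the weak minimum principle**, local boundedness below near the axis suffices -/
theorem wminC {O : Set X} (hO : IsOpen O) {Z : X → ℝ} {Z' : X → X}
    (hL : ∀ x ∈ O, x ∉ ax → LipAt Z x)
    (hK : ∀ ε : ℝ, 0 < ε → ∃ (K : Set X) (M : ℝ), IsCompact K ∧ (∀ x ∈ K, x ∉ ax → x ∈ O) ∧
      (∀ x ∈ O, x ∉ ax → Z x ≤ -ε → x ∈ K) ∧ ∀ x ∈ K, x ∉ ax → -M ≤ Z x)
    (hg : ∀ᵐ x : X, x ∈ O → HasGradientAt Z (Z' x) x)
    (hw : ∀ η : X → ℝ, Tst η → (∀ x, 0 ≤ η x) → (∀ x ∈ tsupport η, x ∈ O ∧ Z x < 0) →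
      0 ≤ ∫ x, ⟪Z' x, ∇ η x⟫) :
    ∀ x ∈ O, x ∉ ax → 0 ≤ Z x := by
  classical
  intro x₀ hx₀ hx₀a
  by_contra hneg
  push Not at hneg
  set ε : ℝ := -Z x₀ / 2 with hε
  have hε0 : 0 < ε := by linarith
  obtain ⟨K, M, hKc, hKO, hKm, hKM⟩ := hK ε hε0
  set η : X → ℝ := fun y => if y ∈ O ∧ y ∉ ax then max (-ε - Z y) 0 else 0 with hη
  have hηO : ∀ y ∈ O, y ∉ ax → η y = max (-ε - Z y) 0 := fun y hy hya => by
    simp only [hη]; rw [if_pos ⟨hy, hya⟩]
  have hηn : ∀ y, y ∉ K → η y = 0 := by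
    intro y hy
    simp only [hη]
    split_ifs with h
    · rw [max_eq_right]
      by_contra h1
      push Not at h1
      exact hy (hKm y h.1 h.2 (by linarith))
    · rfl
  have hη0 : ∀ y, 0 ≤ η y := by
    intro y
    simp only [hη]
    split_ifs
    · exact le_max_right _ _
    · exact le_rfl
  have hηpos : ∀ y, 0 < η y → (y ∈ O ∧ y ∉ ax) ∧ Z y < -ε := by
    intro y hy
    by_cases h : y ∈ O ∧ y ∉ ax
    · rw [hηO y h.1 h.2] at hy
      rcases lt_max_iff.mp hy with h1 | h1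
      · exact ⟨h, by linarith⟩
      · exact absurd h1 (lt_irrefl _)
    · simp only [hη] at hy
      rw [if_neg h] at hy
      exact absurd hy (lt_irrefl _)
  set M' : ℝ := max M 0 with hM'
  have hM'0 : 0 ≤ M' := le_max_right _ _
  have hηle : ∀ y, η y ≤ M' := by
    intro y
    rcases (hη0 y).eq_or_lt with h | h
    · rw [← h]; exact hM'0
    · obtain ⟨⟨h1, h2⟩, h3⟩ := hηpos y h
      rw [hηO y h1 h2]
      refine max_le ?_ hM'0
      have := hKM y (hKm y h1 h2 h3.le) h2
      linarith [le_max_left M 0]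
  have hηL : ∀ y, y ∉ ax → LipAt η y := by
    intro y hya
    by_cases h : y ∈ O
    · have h1 : LipAt (fun y => max (-ε - Z y) 0) y :=
        ((LipAt.const (-ε) y).sub (hL y h hya)).max (LipAt.const 0 y)
      refine h1.congr ?_
      filter_upwards [hO.mem_nhds h, nhds_off hya] with w hw' hw2
      exact (hηO w hw' hw2).symm
    · have hyK : y ∉ K := fun h' => h (hKO y h' hya)
      refine (LipAt.const 0 y).congr ?_
      filter_upwards [hKc.isClosed.isOpen_compl.mem_nhds hyK] with w hw'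
      exact (hηn w hw').symm
  have hηc : ContinuousOn η axᶜ := fun y hy => (hηL y hy).continuousAt.continuousWithinAt
  have hηm : AEStronglyMeasurable η volume := off_ax_meas hηc
  obtain ⟨r0, hr0⟩ := hKc.isBounded.subset_closedBall (0 : X)
  set r : ℝ := max r0 0 + 1 with hr
  have hrpos : 0 < r := by positivity
  have hηr : ∀ y, r ≤ ‖y‖ → η y = 0 := by
    intro y hy
    apply hηn
    intro h
    have h1 := hr0 h
    rw [mem_closedBall_zero_iff] at h1
    have := le_max_left r0 0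
    linarith
  -- cutoff functions near the axis
  obtain ⟨χ, hχL, hχ0, hχ1, hχa, hχt, hχe⟩ := Col.zeroCap_ax (closedBall (0 : X) (r + 1))
    (isCompact_closedBall _ _)
  have hvL : ∀ n y, LipAt (fun x => η x * χ n x) y := by
    intro n y
    by_cases hy : y ∈ ax
    · refine (LipAt.const 0 y).congr ?_
      filter_upwards [hχa n y hy] with w hw'
      rw [hw', mul_zero]
    · obtain ⟨C, hC⟩ := hχL n
      exact (hηL y hy).mul (lipAt_of_lip hC y)
  have hv := fun n => lipschitz_of_compact (hvL n) hrpos fun y hy => by rw [hηr y hy, zero_mul]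
  have hχsupp : ∀ n, ∀ y ∈ tsupport (fun x => η x * χ n x), y ∉ ax := by
    intro n y hy hya
    refine (notMem_tsupport_iff_eventuallyEq.mpr ?_) hy
    filter_upwards [hχa n y hya] with w hw'
    simp [hw']
  have hsupp : ∀ n, ∀ y ∈ tsupport (fun x => η x * χ n x), y ∈ O ∧ Z y < 0 := by
    intro n y hy
    have hya := hχsupp n y hy
    have hyK : y ∈ K := by
      refine closure_minimal (fun w hw' => ?_) hKc.isClosed hy
      by_contra h
      exact hw' (by simp only; rw [hηn w h, zero_mul])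
    have hyO := hKO y hyK hya
    refine ⟨hyO, ?_⟩
    by_contra h
    push Not at h
    have h1 : ∀ᶠ w in 𝓝 y, -ε < Z w :=
      (hL y hyO hya).continuousAt.eventually_const_lt (by linarith)
    refine (notMem_tsupport_iff_eventuallyEq.mpr ?_) hy
    filter_upwards [h1, hO.mem_nhds hyO, nhds_off hya] with w g1 g2 g3
    simp only [Pi.zero_apply]
    rw [hηO w g2 g3, max_eq_right (by linarith), zero_mul]
  -- gradients of η
  have hgr1 : ∀ y, η y = 0 → ∇ η y = 0 := by
    intro y hy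
    have h1 : IsLocalMin η y := Eventually.of_forall fun w => by
      rw [hy]
      exact hη0 w
    have h2 := h1.fderiv_eq_zero
    unfold gradient
    rw [h2, map_zero]
  have hgr2 : ∀ᵐ y : X, 0 < η y → HasGradientAt η (-Z' y) y := by
    filter_upwards [hg] with y hy hy0
    obtain ⟨⟨h1, h1a⟩, h2⟩ := hηpos y hy0
    have h3 := hy h1
    have h4 : HasGradientAt (fun w => -ε - Z w) (-Z' y) y := by
      rw [hasGradientAt_iff_hasFDerivAt] at h3 ⊢
      refine (h3.const_sub (-ε)).congr_fderiv ?_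
      rw [map_neg]
    refine h4.congr_of_eventuallyEq ?_
    filter_upwards [hO.mem_nhds h1, nhds_off h1a,
      (hL y h1 h1a).continuousAt.eventually_lt_const h2] with w hw1 hw3 hw2
    rw [hηO w hw1 hw3, max_eq_left (by linarith)]
  have hηd : ∀ᵐ y : X, DifferentiableAt ℝ η y := ae_diff_of_lipAt hηL
  -- the energy of `η χ`
  have hen : ∀ n, ∫ x, ‖∇ (fun x => η x * χ n x) x‖ ^ 2 ≤
      M' ^ 2 * ∫ x in closedBall (0 : X) (r + 1), ‖∇ (χ n) x‖ ^ 2 := by
    intro n
    obtain ⟨⟨C, hC⟩, hcs⟩ := hv n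
    obtain ⟨D, hD⟩ := hχL n
    have hT : Tst fun x => η x * χ n x := ⟨⟨C, hC⟩, hcs, by
      rw [Set.disjoint_left]
      exact hχsupp n⟩
    have hT2 : Tst fun x => (η x * χ n x) * χ n x := by
      have := hT.mul_lip (f := χ n) fun x _ => lipAt_of_lip hD x
      have e : (fun x => χ n x * (η x * χ n x)) = fun x => (η x * χ n x) * χ n x := by
        funext x; ring
      rwa [e] at this
    have h1 := hw _ hT2 (fun x => mul_nonneg (mul_nonneg (hη0 x) (hχ0 n x)) (hχ0 n x))
      fun x hx => hsupp n x (tsupport_mul_subset_left hx)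
    have hsq := grad_sq_integrable hC hcs
    have hloc : Integrable fun x => η x ^ 2 * ‖∇ (χ n) x‖ ^ 2 := by
      have g1 : IntegrableOn (fun x => ‖∇ (χ n) x‖ ^ 2) (closedBall (0 : X) (r + 1)) :=
        Flux.lip_grad_sq_loc hD (isCompact_closedBall _ _)
      have g2 : Integrable ((closedBall (0 : X) (r + 1)).indicator fun x =>
          M' ^ 2 * ‖∇ (χ n) x‖ ^ 2) :=
        (integrable_indicator_iff isClosed_closedBall.measurableSet).mpr (g1.const_mul _)
      refine g2.mono' ((hηm.pow 2).mul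
        ((measurable_gradient (χ n)).norm.pow_const 2).aestronglyMeasurable)
        (Eventually.of_forall fun x => ?_)
      rw [Real.norm_of_nonneg (by positivity)]
      by_cases hx : x ∈ closedBall (0 : X) (r + 1)
      · rw [indicator_of_mem hx]
        exact mul_le_mul_of_nonneg_right (pow_le_pow_left₀ (hη0 x) (hηle x) 2) (by positivity)
      · rw [indicator_of_notMem hx, hηr x (by
          rw [mem_closedBall_zero_iff, not_le] at hx
          linarith)]
        simp
    have h2 : ∫ x, ⟪Z' x, ∇ (fun x => (η x * χ n x) * χ n x) x⟫ =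
        ∫ x, (-‖∇ (fun x => η x * χ n x) x‖ ^ 2 + η x ^ 2 * ‖∇ (χ n) x‖ ^ 2) := by
      refine integral_congr_ae ?_
      filter_upwards [hgr2, hηd, hD.ae_differentiableAt (μ := (volume : Measure X))] with
        x g2 d1 d2
      have h4 := d2.hasGradientAt
      rcases (hη0 x).eq_or_lt with h6 | h6
      · have g0 := hgr1 x h6.symm
        have h3 : HasGradientAt η 0 x := by
          rw [← g0]
          exact d1.hasGradientAt
        have h5 : HasGradientAt (fun x => η x * χ n x) 0 x := by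
          rw [hasGradientAt_iff_hasFDerivAt] at h3 h4 ⊢
          refine (h3.mul h4).congr_fderiv ?_
          rw [← h6]
          simp
        have h7 : HasGradientAt (fun x => (η x * χ n x) * χ n x) 0 x := by
          rw [hasGradientAt_iff_hasFDerivAt] at h5 h4 ⊢
          refine (h5.mul h4).congr_fderiv ?_
          rw [← h6]
          simp
        rw [h5.gradient, h7.gradient, ← h6]
        simp
      · have h3 := g2 h6
        have h5 : HasGradientAt (fun x => η x * χ n x)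
            (η x • ∇ (χ n) x + χ n x • -Z' x) x := by
          rw [hasGradientAt_iff_hasFDerivAt] at h3 h4 ⊢
          refine (h3.mul h4).congr_fderiv ?_
          rw [map_add, map_smul, map_smul]
        have h7 : HasGradientAt (fun x => (η x * χ n x) * χ n x)
            ((η x * χ n x) • ∇ (χ n) x + χ n x • (η x • ∇ (χ n) x + χ n x • -Z' x)) x := by
          rw [hasGradientAt_iff_hasFDerivAt] at h5 h4 ⊢
          refine (h5.mul h4).congr_fderiv ?_
          simp only [map_add, map_smul]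
        rw [h5.gradient, h7.gradient]
        exact en_alg48 _ _ _ _
    have hsqn : Integrable fun x => -‖∇ (fun x => η x * χ n x) x‖ ^ 2 := hsq.neg
    rw [h2, integral_add hsqn hloc] at h1
    have h3 : ∫ x, -‖∇ (fun x => η x * χ n x) x‖ ^ 2 =
        -∫ x, ‖∇ (fun x => η x * χ n x) x‖ ^ 2 := integral_neg _
    rw [h3] at h1
    have h4 : ∫ x, η x ^ 2 * ‖∇ (χ n) x‖ ^ 2 ≤
        M' ^ 2 * ∫ x in closedBall (0 : X) (r + 1), ‖∇ (χ n) x‖ ^ 2 := by
      have g1 : IntegrableOn (fun x => ‖∇ (χ n) x‖ ^ 2) (closedBall (0 : X) (r + 1)) :=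
        Flux.lip_grad_sq_loc hD (isCompact_closedBall _ _)
      have g2 : Integrable ((closedBall (0 : X) (r + 1)).indicator fun x =>
          M' ^ 2 * ‖∇ (χ n) x‖ ^ 2) :=
        (integrable_indicator_iff isClosed_closedBall.measurableSet).mpr (g1.const_mul _)
      rw [← integral_const_mul, ← integral_indicator isClosed_closedBall.measurableSet]
      refine integral_mono hloc g2 fun x => ?_
      simp only
      by_cases hx : x ∈ closedBall (0 : X) (r + 1)
      · rw [indicator_of_mem hx]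
        exact mul_le_mul_of_nonneg_right (pow_le_pow_left₀ (hη0 x) (hηle x) 2) (by positivity)
      · rw [indicator_of_notMem hx, hηr x (by
          rw [mem_closedBall_zero_iff, not_le] at hx
          linarith)]
        simp
    linarith
  -- a ball around `x₀`
  have hηx₀ : η x₀ = ε := by
    rw [hηO x₀ hx₀ hx₀a, hε, max_eq_left (by linarith)]
    ring
  have hnear : ∀ᶠ y in 𝓝 x₀, ε / 2 < η y :=
    (hηL x₀ hx₀a).continuousAt.eventually_const_lt (by rw [hηx₀]; linarith)
  obtain ⟨d, hd, hb⟩ := Metric.eventually_nhds_iff_ball.mp hnear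
  set f : X → ℝ := (ball x₀ d).indicator fun _ => (1 : ℝ) with hf
  have hf0 : ∀ x, 0 ≤ f x := fun x => indicator_nonneg (fun _ _ => zero_le_one) _
  have hf1 : ∀ x, f x ≤ 1 := fun x => by
    simp only [hf]
    by_cases hx : x ∈ ball x₀ d
    · rw [indicator_of_mem hx]
    · rw [indicator_of_notMem hx]; exact zero_le_one
  have hfBC : BC f := by
    refine ⟨measurable_const.indicator measurableSet_ball, ⟨1, fun x => ?_⟩,
      ⟨‖x₀‖ + d, fun x hx => ?_⟩⟩
    · rw [abs_of_nonneg (hf0 x)]; exact hf1 x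
    · simp only [hf]
      refine indicator_of_notMem (fun h => ?_) _
      rw [mem_ball, dist_eq_norm] at h
      have := norm_sub_norm_le x x₀
      linarith
  obtain ⟨B, hB0, hB⟩ := pair_le48 hfBC hrpos
  have hlim : Tendsto (fun n => ∫ x, f x * (η x * χ n x)) atTop (𝓝 (∫ x, f x * η x)) := by
    refine tendsto_integral_of_dominated_convergence (fun x => M' * f x) (fun n => ?_)
      (hfBC.integrable.const_mul M') (fun n => Eventually.of_forall fun x => ?_) ?_
    · obtain ⟨⟨C, hC⟩, -⟩ := hv n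
      exact hfBC.meas.aestronglyMeasurable.mul hC.continuous.aestronglyMeasurable
    · rw [Real.norm_of_nonneg (mul_nonneg (hf0 x) (mul_nonneg (hη0 x) (hχ0 n x))), mul_comm]
      refine mul_le_mul_of_nonneg_right ?_ (hf0 x)
      calc η x * χ n x ≤ M' * 1 := mul_le_mul (hηle x) (hχ1 n x) (hχ0 n x) hM'0
        _ = M' := mul_one _
    · filter_upwards [hχt] with x hx
      have := (hx.const_mul (η x)).const_mul (f x)
      rwa [mul_one] at this
  have hle : ∀ s : ℝ, 0 < s → 4 * Real.pi * ∫ x, f x * η x ≤ B * s := by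
    intro s hs
    have h1 : Tendsto (fun n => 4 * Real.pi * ∫ x, f x * (η x * χ n x)) atTop
        (𝓝 (4 * Real.pi * ∫ x, f x * η x)) := hlim.const_mul _
    have h2 : Tendsto (fun n => B * (s⁻¹ * (M' ^ 2 *
        ∫ x in closedBall (0 : X) (r + 1), ‖∇ (χ n) x‖ ^ 2) + s)) atTop
        (𝓝 (B * (s⁻¹ * (M' ^ 2 * 0) + s))) :=
      (((hχe.const_mul _).const_mul _).add_const s).const_mul B
    have h3 : B * (s⁻¹ * (M' ^ 2 * 0) + s) = B * s := by ring
    rw [h3] at h2
    refine le_of_tendsto_of_tendsto' h1 h2 fun n => ?_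
    refine (hB _ (hv n).1 (fun y hy => by rw [hηr y hy, zero_mul]) s hs).trans ?_
    refine mul_le_mul_of_nonneg_left ?_ hB0
    have := mul_le_mul_of_nonneg_left (hen n) (inv_nonneg.mpr hs.le)
    linarith
  have hge : 0 < ∫ x, f x * η x := by
    have g1 : Integrable fun x => f x * η x := by
      refine (hfBC.integrable.const_mul M').mono'
        (hfBC.meas.aestronglyMeasurable.mul hηm) (Eventually.of_forall fun x => ?_)
      rw [Real.norm_of_nonneg (mul_nonneg (hf0 x) (hη0 x)), mul_comm]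
      exact mul_le_mul_of_nonneg_right (hηle x) (hf0 x)
    have g2 : ∫ x, f x * (ε / 2) ≤ ∫ x, f x * η x := by
      refine integral_mono (hfBC.integrable.mul_const _) g1 fun x => ?_
      simp only
      by_cases hx : x ∈ ball x₀ d
      · exact mul_le_mul_of_nonneg_left (hb x hx).le (hf0 x)
      · simp only [hf]
        rw [indicator_of_notMem hx]
        simp
    refine lt_of_lt_of_le ?_ g2
    rw [integral_mul_const]
    refine mul_pos ?_ (by linarith)
    simp only [hf]
    rw [integral_indicator measurableSet_ball, setIntegral_const, smul_eq_mul, mul_one]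
    exact ENNReal.toReal_pos (measure_ball_pos _ _ hd).ne' measure_ball_lt_top.ne
  have hpi := Real.pi_pos
  have hcontra := hle ((2 * Real.pi * ∫ x, f x * η x) / (B + 1)) (by positivity)
  have h9 : B * ((2 * Real.pi * ∫ x, f x * η x) / (B + 1)) ≤ 2 * Real.pi * ∫ x, f x * η x := by
    rw [← mul_div_assoc, div_le_iff₀ (by positivity)]
    have : 0 < 2 * Real.pi * ∫ x, f x * η x := by positivity
    nlinarith
  have : 0 < 2 * Real.pi * ∫ x, f x * η x := by positivity
  linarith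

/-- boundary values as lower limits, off the axis -/
theorem wminC_bd {O : Set X} (hO : IsOpen O) {Z : X → ℝ} {Z' : X → X}
    (hL : ∀ x ∈ O, x ∉ ax → LipAt Z x)
    (hax : ∀ x ∈ closure O, x ∈ ax → ∃ M : ℝ, ∀ᶠ y in 𝓝 x, y ∈ O → y ∉ ax → -M ≤ Z y)
    (hinf : ∀ ε : ℝ, 0 < ε → ∃ r : ℝ, ∀ x ∈ O, x ∉ ax → r ≤ ‖x‖ → -ε < Z x)
    (hbd : ∀ y ∈ closure O, y ∉ O → y ∉ ax → ∀ ε : ℝ, 0 < ε →
      ∀ᶠ x in 𝓝 y, x ∈ O → x ∉ ax → -ε < Z x)
    (hg : ∀ᵐ x : X, x ∈ O → HasGradientAt Z (Z' x) x)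
    (hw : ∀ η : X → ℝ, Tst η → (∀ x, 0 ≤ η x) → (∀ x ∈ tsupport η, x ∈ O ∧ Z x < 0) →
      0 ≤ ∫ x, ⟪Z' x, ∇ η x⟫) :
    ∀ x ∈ O, x ∉ ax → 0 ≤ Z x := by
  refine wminC hO hL (fun ε hε => ?_) hg hw
  obtain ⟨r, hr⟩ := hinf ε hε
  set S : Set X := {x | (x ∈ O ∧ x ∉ ax) ∧ Z x ≤ -ε} with hS
  have hSO : S ⊆ O := fun x hx => hx.1.1
  have hcl : closure S ⊆ closure O := closure_mono hSO
  have hKc : IsCompact (closure S) := by
    refine (isCompact_closedBall (0 : X) (max r 0)).of_isClosed_subset isClosed_closure ?_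
    refine closure_minimal (fun x hx => ?_) isClosed_closedBall
    rw [mem_closedBall_zero_iff]
    by_contra h
    push Not at h
    have := hr x hx.1.1 hx.1.2 ((le_max_left _ _).trans h.le)
    linarith [hx.2]
  have hKO : ∀ x ∈ closure S, x ∉ ax → x ∈ O := by
    intro x hx hxa
    by_contra h
    have h1 := hbd x (hcl hx) h hxa ε hε
    obtain ⟨y, hy1, hy2⟩ := (mem_closure_iff_frequently.mp hx).and_eventually h1 |>.exists
    have := hy2 hy1.1.1 hy1.1.2
    linarith [hy1.2]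
  have hM : ∃ M : ℝ, ∀ x ∈ closure S, x ∈ O → x ∉ ax → -M ≤ Z x := by
    refine hKc.induction_on (p := fun s => ∃ M : ℝ, ∀ x ∈ s, x ∈ O → x ∉ ax → -M ≤ Z x)
      ⟨0, fun x hx => absurd hx (notMem_empty x)⟩
      (fun s t hst ⟨M, hM⟩ => ⟨M, fun x hx => hM x (hst hx)⟩)
      (fun s t ⟨M, hM⟩ ⟨N, hN⟩ => ⟨max M N, fun x hx hxO hxa => ?_⟩) fun x hx => ?_
    · rcases hx with hx | hx
      · linarith [hM x hx hxO hxa, le_max_left M N]
      · linarith [hN x hx hxO hxa, le_max_right M N]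
    · by_cases hxa : x ∈ ax
      · obtain ⟨M, hM⟩ := hax x (hcl hx) hxa
        exact ⟨_, mem_nhdsWithin_of_mem_nhds hM, M, fun y hy => hy⟩
      · have hxO := hKO x hx hxa
        have h1 : ∀ᶠ y in 𝓝 x, Z x - 1 < Z y :=
          (hL x hxO hxa).continuousAt.eventually_const_lt (by linarith)
        refine ⟨_, mem_nhdsWithin_of_mem_nhds h1, -(Z x - 1), fun y hy _ _ => ?_⟩
        have : Z x - 1 < Z y := hy
        linarith
  obtain ⟨M, hM⟩ := hM
  exact ⟨closure S, M, hKc, hKO, fun x h1 h2 h3 => subset_closure ⟨⟨h1, h2⟩, h3⟩,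
    fun x hx hxa => hM x hx (hKO x hx hxa) hxa⟩

/-- the same with poles -/
theorem wminC_poles {O : Set X} (hO : IsOpen O) {P : Set X} (hP : P.Finite)
    (hPO : ∀ p ∈ P, p ∉ O) {Z : X → ℝ} {Z' : X → X}
    (hL : ∀ x ∈ O, x ∉ ax → LipAt Z x)
    (hax : ∀ x ∈ closure O, x ∈ ax → x ∉ P →
      ∃ M : ℝ, ∀ᶠ y in 𝓝 x, y ∈ O → y ∉ ax → -M ≤ Z y)
    (hinf : ∀ ε : ℝ, 0 < ε → ∃ r : ℝ, ∀ x ∈ O, x ∉ ax → r ≤ ‖x‖ → -ε < Z x)
    (hbd : ∀ y ∈ closure O, y ∉ O → y ∉ ax → y ∉ P → ∀ ε : ℝ, 0 < ε →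
      ∀ᶠ x in 𝓝 y, x ∈ O → x ∉ ax → -ε < Z x)
    (hpole : ∀ p ∈ P, ∀ δ : ℝ, 0 < δ → ∀ᶠ x in 𝓝 p, x ∈ O → x ∉ ax → -(δ * ‖x - p‖⁻¹) < Z x)
    (hg : ∀ᵐ x : X, x ∈ O → HasGradientAt Z (Z' x) x)
    (hw : ∀ η : X → ℝ, Tst η → (∀ x, 0 ≤ η x) → (∀ x ∈ tsupport η, x ∈ O ∧ Z x < 0) →
      0 ≤ ∫ x, ⟪Z' x, ∇ η x⟫) :
    ∀ x ∈ O, x ∉ ax → 0 ≤ Z x := by
  classical
  set Pf : Finset X := hP.toFinset with hPf
  have hmem : ∀ p, p ∈ Pf ↔ p ∈ P := fun p => hP.mem_toFinset
  set h : X → ℝ := fun x => ∑ p ∈ Pf, ‖x - p‖⁻¹ with hh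
  set h' : X → X := fun x => ∑ p ∈ Pf, gradP p x with hh'
  have h0 : ∀ x, 0 ≤ h x := fun x => Finset.sum_nonneg fun p _ => by positivity
  have hgrad : ∀ x, x ∉ P → HasGradientAt h (h' x) x := by
    intro x hx
    have h1 : ∀ p ∈ Pf, HasFDerivAt (fun x : X => ‖x - p‖⁻¹)
        (InnerProductSpace.toDual ℝ X (gradP p x)) x := by
      intro p hp
      have hxp : x ≠ p := fun h => hx (h ▸ (hmem p).mp hp)
      exact hasGradientAt_iff_hasFDerivAt.mp (hasGradientAt_inv_norm hxp)
    rw [hasGradientAt_iff_hasFDerivAt]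
    refine (HasFDerivAt.fun_sum h1).congr_fderiv ?_
    simp only [hh', map_sum]
  have hnear : ∀ p ∈ P, ∀ δ : ℝ, 0 < δ → ∀ᶠ x in 𝓝 p, x ∈ O → x ∉ ax → 0 < Z x + δ * h x := by
    intro p hp δ hδ
    filter_upwards [hpole p hp δ hδ] with x hx hxO hxa
    have h1 := hx hxO hxa
    have h2 : ‖x - p‖⁻¹ ≤ h x :=
      Finset.single_le_sum (f := fun p => ‖x - p‖⁻¹) (fun p _ => by positivity)
        ((hmem p).mpr hp)
    have := mul_le_mul_of_nonneg_left h2 hδ.le
    linarith
  have key : ∀ δ : ℝ, 0 < δ → ∀ x ∈ O, x ∉ ax → 0 ≤ Z x + δ * h x := by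
    intro δ hδ
    refine wminC_bd hO (Z' := fun x => Z' x + δ • h' x) (fun x hx hxa => ?_)
      (fun x hx hxa => ?_) (fun ε hε => ?_) (fun y hy hyO hya ε hε => ?_) ?_
      fun η hη hη0 hηs => ?_
    · have hxP : x ∉ P := fun h => hPO x h hx
      have h1 : LipAt h x := by
        have h2 : ∀ᶠ y in 𝓝 x, y ∉ P := hP.isClosed.isOpen_compl.mem_nhds hxP
        obtain ⟨ρ, hρ, hb⟩ := Metric.eventually_nhds_iff_ball.mp h2
        refine lipAt_of_gradient hρ (k' := h') (fun y hy => hgrad y (hb y hy)) ?_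
        have h3 : ∀ p ∈ Pf, ContinuousAt (fun x : X => gradP p x) x := by
          intro p hp
          have hxp : x ≠ p := fun h => hxP (h ▸ (hmem p).mp hp)
          exact (hasFDerivAt_gradP hxp).continuousAt
        exact tendsto_finsetSum _ fun p hp => h3 p hp
      exact (hL x hx hxa).add ((LipAt.const δ x).mul h1)
    · by_cases hxP : x ∈ P
      · refine ⟨0, ?_⟩
        filter_upwards [hnear x hxP δ hδ] with y hy h1 h2
        have := hy h1 h2
        linarith
      · obtain ⟨M, hM⟩ := hax x hx hxa hxP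
        refine ⟨M, ?_⟩
        filter_upwards [hM] with y hy h1 h2
        have := hy h1 h2
        have := mul_nonneg hδ.le (h0 y)
        linarith
    · obtain ⟨r, hr⟩ := hinf ε hε
      refine ⟨r, fun x hx hxa hxr => ?_⟩
      have := hr x hx hxa hxr
      have := mul_nonneg hδ.le (h0 x)
      linarith
    · by_cases hyP : y ∈ P
      · filter_upwards [hnear y hyP δ hδ] with x hx hxO hxa
        have := hx hxO hxa
        linarith
      · filter_upwards [hbd y hy hyO hya hyP ε hε] with x hx hxO hxa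
        have := hx hxO hxa
        have := mul_nonneg hδ.le (h0 x)
        linarith
    · filter_upwards [hg] with x hx hxO
      have hxP : x ∉ P := fun h => hPO x h hxO
      have h1 := hx hxO
      have h2 := hgrad x hxP
      rw [hasGradientAt_iff_hasFDerivAt] at h1 h2 ⊢
      refine (h1.add (h2.const_mul δ)).congr_fderiv ?_
      rw [map_add, map_smul]
    · have hηs' : ∀ x ∈ tsupport η, x ∈ O ∧ Z x < 0 := by
        intro x hx
        obtain ⟨h1, h2⟩ := hηs x hx
        have := mul_nonneg hδ.le (h0 x)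
        exact ⟨h1, by linarith⟩
      have h1 := hw η hη hη0 hηs'
      obtain ⟨C, hC⟩ := hη.lip
      by_cases hi : Integrable fun x => ⟪Z' x, ∇ η x⟫
      · have h2 : ∀ p ∈ Pf, Integrable (fun x => ⟪gradP p x, ∇ η x⟫) ∧
            ∫ x, ⟪gradP p x, ∇ η x⟫ = 0 := by
          intro p hp
          have hp1 : p ∉ tsupport η := fun h => hPO p ((hmem p).mp hp) (hηs p h).1
          exact ⟨int_gradP hC hη.cs hp1, integral_gradP hC hη.cs hp1⟩
        have h3 : Integrable fun x => ⟪δ • h' x, ∇ η x⟫ := by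
          simp only [hh', Finset.smul_sum, sum_inner, real_inner_smul_left]
          exact integrable_finsetSum _ fun p hp => (h2 p hp).1.const_mul δ
        have h4 : ∫ x, ⟪δ • h' x, ∇ η x⟫ = 0 := by
          simp only [hh', Finset.smul_sum, sum_inner, real_inner_smul_left]
          rw [integral_finsetSum _ fun p hp => (h2 p hp).1.const_mul δ]
          refine Finset.sum_eq_zero fun p hp => ?_
          rw [integral_const_mul, (h2 p hp).2, mul_zero]
        simp_rw [inner_add_left]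
        rw [integral_add hi h3, h4, add_zero]
        exact h1
      · have h3 : Integrable fun x => ⟪δ • h' x, ∇ η x⟫ := by
          simp only [hh', Finset.smul_sum, sum_inner, real_inner_smul_left]
          refine integrable_finsetSum _ fun p hp => ?_
          have hp1 : p ∉ tsupport η := fun h => hPO p ((hmem p).mp hp) (hηs p h).1
          exact (int_gradP hC hη.cs hp1).const_mul δ
        rw [integral_undef]
        intro hi2
        apply hi
        refine (hi2.sub h3).congr (Eventually.of_forall fun x => ?_)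
        simp only [Pi.sub_apply, inner_add_left, add_sub_cancel_right]
  intro x hx hxa
  by_contra hneg
  push Not at hneg
  have h1 := key (-Z x / (2 * (h x + 1))) (by
    have := h0 x
    exact div_pos (by linarith) (by linarith)) x hx hxa
  have h2 : -Z x / (2 * (h x + 1)) * h x ≤ -Z x / 2 := by
    have := h0 x
    rw [div_mul_eq_mul_div, div_le_div_iff₀ (by positivity) (by norm_num)]
    nlinarith
  linarith

/-- **the weak minimum principle for fields with a weak divergence**, only local boundedness below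
near the axis is needed -/
theorem WDL.minC {O : Set X} (hO : IsOpen O) {P : Set X} (hP : P.Finite)
    (hPO : ∀ p ∈ P, p ∉ O) {Z : X → ℝ} {Z' : X → X} {d : X → ℝ} (h : WDL Z' d)
    (hL : ∀ x ∈ O, x ∉ ax → LipAt Z x)
    (hax : ∀ x ∈ closure O, x ∈ ax → x ∉ P →
      ∃ M : ℝ, ∀ᶠ y in 𝓝 x, y ∈ O → y ∉ ax → -M ≤ Z y)
    (hinf : ∀ ε : ℝ, 0 < ε → ∃ r : ℝ, ∀ x ∈ O, x ∉ ax → r ≤ ‖x‖ → -ε < Z x)
    (hbd : ∀ y ∈ closure O, y ∉ O → y ∉ ax → y ∉ P → ∀ ε : ℝ, 0 < ε →
      ∀ᶠ x in 𝓝 y, x ∈ O → x ∉ ax → -ε < Z x)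
    (hpole : ∀ p ∈ P, ∀ δ : ℝ, 0 < δ → ∀ᶠ x in 𝓝 p, x ∈ O → x ∉ ax → -(δ * ‖x - p‖⁻¹) < Z x)
    (hg : ∀ᵐ x : X, x ∈ O → HasGradientAt Z (Z' x) x)
    (hd : ∀ᵐ x : X, x ∈ O → Z x < 0 → d x ≤ 0) :
    ∀ x ∈ O, x ∉ ax → 0 ≤ Z x := by
  refine wminC_poles hO hP hPO hL hax hinf hbd hpole hg fun η hη hη0 hηs => ?_
  rw [h.tst hη]
  have h1 : ∫ x, d x * η x ≤ 0 := by
    refine integral_nonpos_of_ae ?_
    filter_upwards [hd] with x hx
    by_cases hxs : x ∈ tsupport η
    · obtain ⟨h2, h3⟩ := hηs x hxs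
      exact mul_nonpos_of_nonpos_of_nonneg (hx h2 h3) (hη0 x)
    · rw [image_eq_zero_of_notMem_tsupport hxs, mul_zero]
      exact le_rfl
  linarith

end Pool.Agent.TF.Col
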