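import Mathlib
import Pool.Agent.Lib.MP_9cf0c9_mp.Tr.HalfMin48
import Pool.Agent.Lib.MP_9cf0c9_mp.Tr.HalfTwo48
import Pool.Agent.Lib.MP_9cf0c9_mp.Tr.Km36
import Pool.Agent.Lib.MP_9cf0c9_mp.Tr.Plane39
import Pool.Agent.Lib.MP_9cf0c9_mp.Tr.SlabW13
import Pool.Agent.Lib.MP_9cf0c9_mp.Tr.WMinC48

section
/-! Two nuclei on the axis, the left one being the heavier: in the plane in the middle
`z 1 * P_a ≤ z 0 * P_b`.  Proof by a minimum principle for the pair of the even and the odd part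
with respect to the reflection in this plane. -/

set_option autoImplicit false

set_option linter.unusedSectionVars false

set_option linter.unusedVariables false

namespace Pool.Agent.TF.Grd
end Pool.Agent.TF.Grd

namespace Pool.Agent.TF.Col

open MeasureTheory Set Metric Filter Topology

open scoped ENNReal NNReal RealInnerProductSpace Gradient

open Pool.Agent.TF.Grd

/-! ### a convex function of the negative part -/

theorem comp_npart {J J' : ℝ → ℝ} (h : ∀ u, HasDerivAt J (J' u) u) (h0 : J' 0 = 0) (t : ℝ) :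
    HasDerivAt (fun t => J (max (-t) 0)) (-(J' (max (-t) 0))) t := by
  have hL : ∀ s : ℝ, HasDerivAt (fun t => J (-t)) (-(J' (-s))) s := fun s => by
    have h1 := (h (-s)).comp s (hasDerivAt_neg s)
    rw [mul_neg, mul_one] at h1
    exact h1
  rcases lt_trichotomy t 0 with ht | ht | ht
  · have h2 : (fun t => J (max (-t) 0)) =ᶠ[𝓝 t] fun t => J (-t) := by
      filter_upwards [gt_mem_nhds ht] with s hs
      rw [max_eq_left (by linarith)]
    rw [max_eq_left (by linarith)]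
    exact (hL t).congr_of_eventuallyEq h2
  · rw [ht]
    have h1 : HasDerivWithinAt (fun t => J (max (-t) 0)) (-(J' (max (-0) 0))) (Iic 0) 0 := by
      have h2 := (hL 0).hasDerivWithinAt (s := Iic 0)
      rw [max_eq_left (by simp)]
      refine h2.congr (fun s hs => ?_) (by simp)
      rw [mem_Iic] at hs
      rw [max_eq_left (by linarith)]
    have h3 : HasDerivWithinAt (fun t => J (max (-t) 0)) (-(J' (max (-0) 0))) (Ici 0) 0 := by
      have h2 : HasDerivWithinAt (fun _ : ℝ => J 0) 0 (Ici 0) 0 := hasDerivWithinAt_const _ _ _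
      rw [neg_zero, max_self, h0, neg_zero]
      refine h2.congr (fun s hs => ?_) (by simp)
      rw [mem_Ici] at hs
      rw [max_eq_right (by linarith)]
    have h4 := h1.union h3
    rw [Iic_union_Ici] at h4
    exact h4.hasDerivAt univ_mem
  · have h2 : (fun t => J (max (-t) 0)) =ᶠ[𝓝 t] fun _ => J 0 := by
      filter_upwards [lt_mem_nhds ht] with s hs
      rw [max_eq_right (by linarith)]
    rw [max_eq_right (by linarith), h0, neg_zero]
    exact (hasDerivAt_const t (J 0)).congr_of_eventuallyEq h2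

/-- `t₋ - arctan t₋` -/
noncomputable def jJ (t : ℝ) : ℝ := max (-t) 0 - Real.arctan (max (-t) 0)

/-- minus its derivative -/
noncomputable def jK (t : ℝ) : ℝ := max (-t) 0 ^ 2 / (1 + max (-t) 0 ^ 2)

/-- the derivative of `jK` -/
noncomputable def jL (t : ℝ) : ℝ := -(2 * max (-t) 0 / (1 + max (-t) 0 ^ 2) ^ 2)

theorem jJ_deriv (t : ℝ) : HasDerivAt jJ (-jK t) t := by
  have h : ∀ u : ℝ, HasDerivAt (fun u => u - Real.arctan u) (u ^ 2 / (1 + u ^ 2)) u := fun u => by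
    have h1 := (hasDerivAt_id u).sub (Real.hasDerivAt_arctan u)
    refine h1.congr_deriv ?_
    have : (0 : ℝ) < 1 + u ^ 2 := by positivity
    field_simp
    ring
  exact comp_npart h (by simp) t

theorem jK_deriv (t : ℝ) : HasDerivAt jK (jL t) t := by
  have h : ∀ u : ℝ, HasDerivAt (fun u => u ^ 2 / (1 + u ^ 2)) (2 * u / (1 + u ^ 2) ^ 2) u :=
    fun u => by
    have h0 : (0 : ℝ) < 1 + u ^ 2 := by positivity
    have h1 : HasDerivAt (fun u : ℝ => u ^ 2) (2 * u) u := by simpa using hasDerivAt_pow 2 u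
    have h2 := h1.div (h1.const_add 1) h0.ne'
    refine h2.congr_deriv ?_
    congr 1
    ring
  exact comp_npart h (by simp) t

theorem jJ_deriv' (t : ℝ) : HasDerivAt (fun t => -jJ t) (jK t) t := by
  have h := (jJ_deriv t).neg
  rwa [neg_neg] at h

theorem jK_cont : Continuous jK :=
  continuous_iff_continuousAt.mpr fun t => (jK_deriv t).continuousAt

theorem jL_cont : Continuous jL := by
  unfold jL
  refine (Continuous.div (by fun_prop) (by fun_prop) fun t => ?_).neg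
  positivity

theorem jJ_zero {t : ℝ} (h : 0 ≤ t) : jJ t = 0 := by
  unfold jJ
  rw [max_eq_right (by linarith), Real.arctan_zero, sub_zero]

theorem jK_zero {t : ℝ} (h : 0 ≤ t) : jK t = 0 := by
  unfold jK
  rw [max_eq_right (by linarith)]
  simp

theorem jL_zero {t : ℝ} (h : 0 ≤ t) : jL t = 0 := by
  unfold jL
  rw [max_eq_right (by linarith)]
  simp

theorem jL_nonpos (t : ℝ) : jL t ≤ 0 := by
  unfold jL
  have : 0 ≤ max (-t) 0 := le_max_right _ _
  have : 0 ≤ 2 * max (-t) 0 / (1 + max (-t) 0 ^ 2) ^ 2 := by positivity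
  linarith

theorem jK_nonneg (t : ℝ) : 0 ≤ jK t := by
  unfold jK
  positivity

theorem jJ_le (t : ℝ) : jJ t ≤ max (-t) 0 := by
  unfold jJ
  have h : 0 ≤ Real.arctan (max (-t) 0) := Real.arctan_nonneg.mpr (le_max_right _ _)
  linarith

theorem arctan_lt_self29 {u : ℝ} (hu : 0 < u) : Real.arctan u < u := by
  have h1 : 0 < Real.arctan u := Real.arctan_pos.mpr hu
  have h2 := Real.lt_tan h1 (Real.arctan_lt_pi_div_two u)
  rwa [Real.tan_arctan] at h2

theorem jJ_nonneg (t : ℝ) : 0 ≤ jJ t := by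
  unfold jJ
  rcases (le_max_right (-t) (0 : ℝ)).eq_or_lt with h | h
  · rw [← h, Real.arctan_zero, sub_zero]
  · linarith [arctan_lt_self29 h]

theorem nonneg_of_jJ {t : ℝ} (h : jJ t ≤ 0) : 0 ≤ t := by
  by_contra ht
  push Not at ht
  unfold jJ at h
  rw [max_eq_left (by linarith)] at h
  linarith [arctan_lt_self29 (show 0 < -t by linarith)]

/-- the algebra of the pair -/
theorem jK_pair {z a e G k : ℝ} (hk : 0 ≤ k) (hkG : k ≤ G) (he : 0 ≤ e) :
    jK (z + e) * (G * z - k * a) + jK (a + e) * (G * a - k * z) ≤ 0 := by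
  obtain ⟨τ, hτ⟩ : ∃ τ, τ = max (-(z + e)) 0 := ⟨_, rfl⟩
  obtain ⟨s, hs⟩ : ∃ s, s = max (-(a + e)) 0 := ⟨_, rfl⟩
  have hτ0 : 0 ≤ τ := by rw [hτ]; exact le_max_right _ _
  have hs0 : 0 ≤ s := by rw [hs]; exact le_max_right _ _
  have hτ1 : -τ ≤ z + e := by rw [hτ]; linarith [le_max_left (-(z + e)) (0 : ℝ)]
  have hs1 : -s ≤ a + e := by rw [hs]; linarith [le_max_left (-(a + e)) (0 : ℝ)]
  have kz : jK (z + e) = τ ^ 2 / (1 + τ ^ 2) := by rw [hτ]; rfl
  have ka : jK (a + e) = s ^ 2 / (1 + s ^ 2) := by rw [hs]; rfl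
  have e1 : jK (z + e) * (z + e) = -(jK (z + e) * τ) := by
    rcases le_total 0 (z + e) with h | h
    · rw [jK_zero h]; ring
    · rw [hτ, max_eq_left (by linarith)]; ring
  have e2 : jK (a + e) * (a + e) = -(jK (a + e) * s) := by
    rcases le_total 0 (a + e) with h | h
    · rw [jK_zero h]; ring
    · rw [hs, max_eq_left (by linarith)]; ring
  have n1 := jK_nonneg (z + e)
  have n2 := jK_nonneg (a + e)
  have m1 : 0 ≤ (jK (z + e) - jK (a + e)) * (τ - s) := by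
    have : (jK (z + e) - jK (a + e)) * (τ - s) =
        (τ - s) ^ 2 * (τ + s) / ((1 + τ ^ 2) * (1 + s ^ 2)) := by
      rw [kz, ka]
      field_simp
      ring
    rw [this]
    positivity
  obtain ⟨p, hp⟩ : ∃ p, p = jK (z + e) := ⟨_, rfl⟩
  obtain ⟨q, hq⟩ : ∃ q, q = jK (a + e) := ⟨_, rfl⟩
  rw [← hp] at e1 n1 m1 ⊢
  rw [← hq] at e2 n2 m1 ⊢
  have t1 : p * (-s) ≤ p * (a + e) := mul_le_mul_of_nonneg_left hs1 n1
  have t2 : q * (-τ) ≤ q * (z + e) := mul_le_mul_of_nonneg_left hτ1 n2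
  have t1' := mul_le_mul_of_nonneg_left t1 hk
  have t2' := mul_le_mul_of_nonneg_left t2 hk
  have t3 : 0 ≤ (G - k) * (p * τ + q * s) := mul_nonneg (by linarith) (by positivity)
  have t4 : 0 ≤ (G - k) * (e * (p + q)) := mul_nonneg (by linarith) (by positivity)
  have t5 : 0 ≤ k * ((p - q) * (τ - s)) := mul_nonneg hk m1
  have t6 : p * (G * z - k * a) + q * (G * a - k * z) =
      G * (p * (z + e)) - k * (p * (a + e)) + (G * (q * (a + e)) - k * (q * (z + e))) -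
        (G - k) * (e * (p + q)) := by ring
  rw [t6, e1, e2]
  nlinarith

/-! ### functions cut along the plane -/

theorem C1O.of_local {f : X → ℝ} {f' : X → X}
    (h : ∀ x, x ∉ ax → ∃ (f₁ : X → ℝ) (f₁' : X → X), C1O f₁ f₁' ∧ f =ᶠ[𝓝 x] f₁ ∧
      f' =ᶠ[𝓝 x] f₁') : C1O f f' := by
  refine ⟨fun x hx => ?_, fun x hx => ?_⟩
  · obtain ⟨f₁, f₁', h1, h2, h3⟩ := h x hx
    rw [h3.eq_of_nhds]
    exact (h1.grad x hx).congr_of_eventuallyEq h2
  · obtain ⟨f₁, f₁', h1, h2, h3⟩ := h x hx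
    exact ((h1.contAt hx).congr h3.symm).continuousWithinAt

/-- the sign of `x₁ - m` -/
noncomputable def sg (m : ℝ) (x : X) : ℝ := if m < x.fst then 1 else -1

theorem sg_sq (m : ℝ) (x : X) : sg m x * sg m x = 1 := by
  unfold sg
  split_ifs <;> norm_num

theorem sg_cut {m ε : ℝ} {A : X → ℝ} {A' : X → X} (hA : C1O A A')
    (hA0 : ∀ x, x ∉ ax → x.fst = m → A x = 0) (hε : 0 < ε) {F F' : ℝ → ℝ}
    (hF : ∀ t, HasDerivAt F (F' t) t) (hc : Continuous F') (h0 : ∀ t, 0 ≤ t → F t = 0)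
    (h0' : ∀ t, 0 ≤ t → F' t = 0) (c : ℝ → ℝ) :
    C1O (fun x => F (sg m x * A x + ε) * c (sg m x))
      fun x => (F' (sg m x * A x + ε) * sg m x * c (sg m x)) • A' x := by
  refine C1O.of_local fun x hx => ?_
  rcases lt_trichotomy x.fst m with h | h | h
  · refine ⟨fun x => c (-1) * F ((-1) * A x + ε),
      fun x => c (-1) • (F' ((-1) * A x + ε) • ((-1 : ℝ) • A' x)), ?_, ?_, ?_⟩
    · have h1 : C1O (fun x => (-1) * A x + ε) fun x => (-1 : ℝ) • A' x :=
        ((hA.const_mul (-1)).add (C1O.const ε)).congr' fun x _ => by rw [add_zero]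
      exact (h1.comp (T := univ) (fun _ _ => mem_univ _) (fun t _ => hF t)
        hc.continuousOn).const_mul _
    · filter_upwards [(isOpen_lt (fst_continuous) continuous_const).mem_nhds h] with y hy
      have : sg m y = -1 := if_neg (not_lt.mpr (le_of_lt hy))
      rw [this, mul_comm]
    · filter_upwards [(isOpen_lt (fst_continuous) continuous_const).mem_nhds h] with y hy
      have : sg m y = -1 := if_neg (not_lt.mpr (le_of_lt hy))
      rw [this, smul_smul, smul_smul]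
      congr 1
      ring
  · have h1 : ∀ᶠ y in 𝓝 x, |A y| < ε := by
      have h2 : ContinuousAt (fun y => |A y|) x := (hA.grad x hx).hasFDerivAt.continuousAt.abs
      have h4 : |A x| < ε := by
        rw [hA0 x hx h, abs_zero]
        exact hε
      exact h2.eventually_lt_const h4
    have h3 : ∀ y, |A y| < ε → 0 ≤ sg m y * A y + ε := fun y hy => by
      have h4 := abs_lt.mp hy
      unfold sg
      split_ifs <;> linarith [h4.1, h4.2]
    refine ⟨fun _ => 0, fun _ => 0, C1O.const 0, ?_, ?_⟩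
    · filter_upwards [h1] with y hy
      rw [h0 _ (h3 y hy), zero_mul]
    · filter_upwards [h1] with y hy
      rw [h0' _ (h3 y hy), zero_mul, zero_mul, zero_smul]
  · refine ⟨fun x => c 1 * F (1 * A x + ε),
      fun x => c 1 • (F' (1 * A x + ε) • ((1 : ℝ) • A' x)), ?_, ?_, ?_⟩
    · have h1 : C1O (fun x => 1 * A x + ε) fun x => (1 : ℝ) • A' x :=
        ((hA.const_mul 1).add (C1O.const ε)).congr' fun x _ => by rw [add_zero]
      exact (h1.comp (T := univ) (fun _ _ => mem_univ _) (fun t _ => hF t)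
        hc.continuousOn).const_mul _
    · filter_upwards [(isOpen_lt continuous_const (fst_continuous)).mem_nhds h] with y hy
      have : sg m y = 1 := if_pos hy
      rw [this, mul_comm]
    · filter_upwards [(isOpen_lt continuous_const (fst_continuous)).mem_nhds h] with y hy
      have : sg m y = 1 := if_pos hy
      rw [this, smul_smul, smul_smul]
      congr 1
      ring

/-! ### the minimum principle for the pair -/

theorem C1O.rf {w : X → ℝ} {w' : X → X} (h : C1O w w') (m : ℝ) :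
    C1O (fun x => w (rf m x)) fun x => mirL e1 (w' (rf m x)) :=
  (C1A.mir (s := axᶜ) ⟨fun x hx => h.grad x hx, fun x hx => h.contAt hx⟩ norm_e1
    (o := m • e1)).c1o fun x hx h' => hx (rf_ax.mp h')

theorem rf_tr {m : ℝ} {τ : X} (hτ : ⟪τ, e1⟫ = 0) (x : X) : ⟪rf m x, τ⟫ = ⟪x, τ⟫ :=
  inner_tr_mir hτ x

theorem pair_min {m : ℝ} {τ Q : X} {w g : X → ℝ} {w' : X → X} (hτ : ⟪τ, e1⟫ = 0)
    (hQ : m < Q.fst) (hQax : Q ∈ ax) (hw : C1O w w') (hwd : WD w' fun x => g x * w x)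
    (hg0 : ∀ x, 0 ≤ g x) (hgg : ∀ x, x ∉ ax → m < x.fst → g x ≤ g (rf m x))
    (hax : ∀ y ∈ ax, y ≠ Q → y ≠ rf m Q → ∃ M : ℝ, ∀ᶠ x in 𝓝 y, x ∉ ax → |w x| ≤ M)
    (hinf : ∀ ε : ℝ, 0 < ε → ∃ r : ℝ, ∀ x, x ∉ ax → r ≤ ‖x‖ → |w x| < ε)
    (hbd : ∀ x, x ∉ ax → ⟪x, τ⟫ = 0 → w x = 0)
    (hpole : ∀ δ : ℝ, 0 < δ → ∀ᶠ x in 𝓝 Q, 0 < ⟪x, τ⟫ →
      -(δ * ‖x - Q‖⁻¹) < w x - |w (rf m x)|)
    {x : X} (hx : 0 < ⟪x, τ⟫) (hxm : m ≤ x.fst) : |w (rf m x)| ≤ w x := by
  obtain ⟨Zf, hZ⟩ : ∃ Zf : X → ℝ, Zf = fun x => w x + w (Col.rf m x) := ⟨_, rfl⟩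
  obtain ⟨Af, hA⟩ : ∃ Af : X → ℝ, Af = fun x => w x - w (Col.rf m x) := ⟨_, rfl⟩
  obtain ⟨Z', hZ'⟩ : ∃ Z' : X → X, Z' = fun x => w' x + mirL e1 (w' (Col.rf m x)) := ⟨_, rfl⟩
  obtain ⟨A', hA'⟩ : ∃ A' : X → X, A' = fun x => w' x - mirL e1 (w' (Col.rf m x)) := ⟨_, rfl⟩
  have cZ : C1O Zf Z' := by rw [hZ, hZ']; exact hw.add (hw.rf m)
  have cA : C1O Af A' := by rw [hA, hA']; exact hw.sub (hw.rf m)
  have wZ : WD Z' fun x => g x * w x + g (Col.rf m x) * w (Col.rf m x) := by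
    rw [hZ']; exact hwd.add (hwd.rf m)
  have wA : WD A' fun x => g x * w x - g (Col.rf m x) * w (Col.rf m x) := by
    rw [hA']; exact hwd.sub (hwd.rf m)
  have hA0 : ∀ x, x ∉ ax → x.fst = m → Af x = 0 := fun x _ hx => by
    rw [hA]
    simp only
    rw [rf_fix hx, sub_self]
  have key : ∀ ε : ℝ, 0 < ε → ∀ x, 0 < ⟪x, τ⟫ → 0 ≤ Zf x + ε ∧ 0 ≤ sg m x * Af x + ε := by
    intro ε hε
    have cZe : C1O (fun x => Zf x + ε) Z' :=
      (cZ.add (C1O.const ε)).congr' fun x _ => by rw [add_zero]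
    have k1 : C1O (fun x => -jJ (Zf x + ε)) fun x => jK (Zf x + ε) • Z' x :=
      cZe.comp (F := fun t => -jJ t) (F' := jK) (T := univ) (fun _ _ => mem_univ _)
        (fun t _ => jJ_deriv' t) jK_cont.continuousOn
    have k2 : C1O (fun x => -jJ (sg m x * Af x + ε))
        fun x => (jK (sg m x * Af x + ε) * sg m x) • A' x := by
      have h := sg_cut cA hA0 hε (F := fun t => -jJ t) (F' := jK) jJ_deriv' jK_cont
        (fun t ht => by rw [jJ_zero ht, neg_zero]) (fun t ht => jK_zero ht) fun _ => 1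
      refine h.congr (fun x _ => ?_) fun x _ => ?_
      · rw [mul_one]
      · rw [mul_one]
    have k3 : C1O (fun x => jK (Zf x + ε)) fun x => jL (Zf x + ε) • Z' x :=
      cZe.comp (F := jK) (F' := jL) (T := univ) (fun _ _ => mem_univ _)
        (fun t _ => jK_deriv t) jL_cont.continuousOn
    have k4 : C1O (fun x => jK (sg m x * Af x + ε) * sg m x)
        fun x => jL (sg m x * Af x + ε) • A' x := by
      have h := sg_cut cA hA0 hε (F := jK) (F' := jL) jK_deriv jL_cont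
        (fun t ht => jK_zero ht) (fun t ht => jL_zero ht) fun s => s
      refine h.congr (fun x _ => rfl) fun x _ => ?_
      rw [mul_assoc, sg_sq, mul_one]
    have cF := k1.add k2
    have wF := (wZ.mul k3).add (wA.mul k4)
    have main := WDL.minC (O := {x : X | 0 < ⟪x, τ⟫})
      (isOpen_lt continuous_const (by fun_prop)) (P := {Q, Col.rf m Q})
      (by simp) ?_ (Z := fun x => -jJ (Zf x + ε) + -jJ (sg m x * Af x + ε)) wF.toL
      (fun x _ hxa => cF.lip hxa) ?_ ?_ ?_ ?_ ?_ ?_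
    · intro x hx
      have h1 := main x hx (off_of_tr hτ hx)
      have h2 := jJ_nonneg (Zf x + ε)
      have h3 := jJ_nonneg (sg m x * Af x + ε)
      exact ⟨nonneg_of_jJ (by linarith), nonneg_of_jJ (by linarith)⟩
    · -- the poles are not in the open set
      intro p hp hpO
      have hpa : p ∈ ax := by
        rcases hp with rfl | hp
        · exact hQax
        · rw [mem_singleton_iff] at hp
          rw [hp]
          exact rf_ax.mpr hQax
      exact off_of_tr hτ hpO hpa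
    · -- the axis
      intro y _ hy hyP
      simp only [mem_insert_iff, mem_singleton_iff, not_or] at hyP
      obtain ⟨M, hM⟩ := hax y hy hyP.1 hyP.2
      obtain ⟨N, hN⟩ := hax (Col.rf m y) (rf_ax.mpr hy)
        (fun h => hyP.2 (by rw [← h, rf_rf])) (fun h => hyP.1 (by rw [← rf_rf m y, h, rf_rf]))
      have hN' : ∀ᶠ x in 𝓝 y, Col.rf m x ∉ ax → |w (Col.rf m x)| ≤ N :=
        (rf_continuous m).continuousAt.eventually hN
      refine ⟨2 * (|M| + |N|), ?_⟩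
      filter_upwards [hM, hN'] with x h1 h2 hxO hxa
      have h3 := abs_le.mp (h1 hxa)
      have h4 := abs_le.mp (h2 fun h => hxa (rf_ax.mp h))
      have h5 := le_abs_self M
      have h6 := le_abs_self N
      have h7 := jJ_le (Zf x + ε)
      have h8 := jJ_le (sg m x * Af x + ε)
      have h9 : max (-(Zf x + ε)) 0 ≤ |M| + |N| := by
        refine max_le ?_ (by positivity)
        rw [hZ]
        simp only
        linarith [h3.1, h4.1]
      have h10 : max (-(sg m x * Af x + ε)) 0 ≤ |M| + |N| := by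
        refine max_le ?_ (by positivity)
        rw [hA]
        simp only
        unfold sg
        split_ifs <;> linarith [h3.1, h4.1, h3.2, h4.2]
      linarith
    · -- infinity
      intro δ hδ
      obtain ⟨r, hr⟩ := hinf (ε / 2) (by linarith)
      refine ⟨r + 2 * |m|, fun x _ hxa hxr => ?_⟩
      have h0 := abs_nonneg m
      have h1 := abs_lt.mp (hr x hxa (by linarith))
      have h2 : ‖x‖ ≤ ‖Col.rf m x‖ + 2 * |m| := by
        have := rf_norm_le m (Col.rf m x)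
        rwa [rf_rf] at this
      have h3 := abs_lt.mp (hr (Col.rf m x) (fun h => hxa (rf_ax.mp h)) (by linarith))
      have h4 : 0 ≤ Zf x + ε := by rw [hZ]; simp only; linarith [h1.1, h3.1]
      have h5 : 0 ≤ sg m x * Af x + ε := by
        rw [hA]
        simp only
        unfold sg
        split_ifs <;> linarith [h1.1, h1.2, h3.1, h3.2]
      rw [jJ_zero h4, jJ_zero h5]
      linarith
    · -- the plane `⟨x, τ⟩ = 0`
      intro y hy hyO hya _ δ hδ
      have h1 : ⟪y, τ⟫ = 0 := by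
        refine le_antisymm (not_lt.mp hyO) ?_
        have h2 : closure {x : X | 0 < ⟪x, τ⟫} ⊆ {x : X | 0 ≤ ⟪x, τ⟫} :=
          closure_minimal (fun x (hx : 0 < ⟪x, τ⟫) => hx.le)
            (isClosed_le continuous_const (by fun_prop))
        exact h2 hy
      have h2 : w y = 0 := hbd y hya h1
      have h3 : w (Col.rf m y) = 0 := hbd _ (fun h => hya (rf_ax.mp h)) (by rw [rf_tr hτ, h1])
      have h4 : Zf y = 0 := by rw [hZ]; simp only; rw [h2, h3, add_zero]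
      have h5 : Af y = 0 := by rw [hA]; simp only; rw [h2, h3, sub_zero]
      have h6 : ContinuousAt (fun x => -jJ (Zf x + ε) + -jJ (sg m x * Af x + ε)) y :=
        (cF.grad y hya).hasFDerivAt.continuousAt
      have h7 : -δ < -jJ (Zf y + ε) + -jJ (sg m y * Af y + ε) := by
        rw [h4, h5, mul_zero, zero_add, jJ_zero hε.le]
        linarith
      filter_upwards [h6.eventually_const_lt h7] with x hx _ _
      exact hx
    · -- the poles
      intro p hp δ hδ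
      have hgen : ∀ x : X, ∀ K : ℝ, 0 ≤ K →
          (sg m x = 1 ∧ -K < w x - |w (Col.rf m x)|) ∨
            (sg m x = -1 ∧ -K < w (Col.rf m x) - |w x|) →
          -(2 * K) ≤ -jJ (Zf x + ε) + -jJ (sg m x * Af x + ε) := by
        intro x K hK h
        have h7 := jJ_le (Zf x + ε)
        have h8 := jJ_le (sg m x * Af x + ε)
        have a1 := le_abs_self (w x)
        have a2 := neg_abs_le (w x)
        have a3 := le_abs_self (w (Col.rf m x))
        have a4 := neg_abs_le (w (Col.rf m x))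
        have h9 : max (-(Zf x + ε)) 0 ≤ K := by
          refine max_le ?_ hK
          rw [hZ]
          simp only
          rcases h with ⟨_, h⟩ | ⟨_, h⟩ <;> linarith
        have h10 : max (-(sg m x * Af x + ε)) 0 ≤ K := by
          refine max_le ?_ hK
          rw [hA]
          simp only
          rcases h with ⟨h', h⟩ | ⟨h', h⟩ <;> rw [h'] <;> linarith
        linarith
      have h0 := hpole (δ / 4) (by linarith)
      rcases hp with rfl | hp
      · filter_upwards [h0, (isOpen_lt continuous_const (fst_continuous)).mem_nhds hQ] with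
          x h1 h2 hxO hxa
        have h3 : 0 < ‖x - p‖⁻¹ := by
          rw [inv_pos, norm_pos_iff, sub_ne_zero]
          intro h
          exact hxa (h ▸ hQax)
        have h4 := hgen x (δ / 4 * ‖x - p‖⁻¹) (by positivity) (Or.inl ⟨if_pos h2, h1 hxO⟩)
        have h5 : 0 < δ * ‖x - p‖⁻¹ := by positivity
        linarith
      · rw [mem_singleton_iff] at hp
        subst hp
        have h1 : ∀ᶠ x in 𝓝 (Col.rf m Q), 0 < ⟪Col.rf m x, τ⟫ →
            -(δ / 4 * ‖Col.rf m x - Q‖⁻¹) < w (Col.rf m x) - |w (Col.rf m (Col.rf m x))| := by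
          have h2 : Tendsto (Col.rf m) (𝓝 (Col.rf m Q)) (𝓝 Q) := by
            have := (rf_continuous m).tendsto (Col.rf m Q)
            rwa [rf_rf] at this
          exact h2.eventually h0
        have hQ' : (Col.rf m Q).fst < m := by rw [rf_fst]; linarith
        filter_upwards [h1, (isOpen_lt (fst_continuous) continuous_const).mem_nhds hQ'] with
          x h1 h2 hxO hxa
        rw [rf_tr hτ, rf_rf, rf_dist'] at h1
        have h3 : 0 < ‖x - Col.rf m Q‖⁻¹ := by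
          rw [inv_pos, norm_pos_iff, sub_ne_zero]
          intro h
          exact hxa (h ▸ rf_ax.mpr hQax)
        have h4 := hgen x (δ / 4 * ‖x - Col.rf m Q‖⁻¹) (by positivity)
          (Or.inr ⟨if_neg (not_lt.mpr (le_of_lt h2)), h1 hxO⟩)
        have h5 : 0 < δ * ‖x - Col.rf m Q‖⁻¹ := by positivity
        linarith
    · -- the gradient
      filter_upwards [ae_off_ax] with x hxa _
      exact cF.grad x hxa
    · -- the sign
      filter_upwards [ae_off_ax] with x hxa hx _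
      have n1 : ⟪jL (Zf x + ε) • Z' x, Z' x⟫ ≤ 0 := by
        rw [real_inner_smul_left, real_inner_self_eq_norm_sq]
        exact mul_nonpos_of_nonpos_of_nonneg (jL_nonpos _) (by positivity)
      have n2 : ⟪jL (sg m x * Af x + ε) • A' x, A' x⟫ ≤ 0 := by
        rw [real_inner_smul_left, real_inner_self_eq_norm_sq]
        exact mul_nonpos_of_nonpos_of_nonneg (jL_nonpos _) (by positivity)
      have g0 := hg0 x
      have g1 := hg0 (Col.rf m x)
      have e1 : g x * w x + g (Col.rf m x) * w (Col.rf m x) =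
          (g x + g (Col.rf m x)) / 2 * Zf x - (g (Col.rf m x) - g x) / 2 * Af x := by
        rw [hZ, hA]; ring
      have e2 : g x * w x - g (Col.rf m x) * w (Col.rf m x) =
          (g x + g (Col.rf m x)) / 2 * Af x - (g (Col.rf m x) - g x) / 2 * Zf x := by
        rw [hZ, hA]; ring
      rw [e1, e2]
      by_cases hm : m < x.fst
      · have hs : sg m x = 1 := if_pos hm
        have h1 := jK_pair (z := Zf x) (a := Af x) (e := ε) (G := (g x + g (Col.rf m x)) / 2)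
          (k := (g (Col.rf m x) - g x) / 2) (by linarith [hgg x hxa hm]) (by linarith) hε.le
        rw [hs, one_mul] at n2 ⊢
        linarith
      · have hs : sg m x = -1 := if_neg hm
        have h2 : g (Col.rf m x) ≤ g x := by
          rcases (not_lt.mp hm).eq_or_lt with h | h
          · rw [rf_fix h]
          · have h3 := hgg (Col.rf m x) (fun h => hxa (rf_ax.mp h)) (by rw [rf_fst]; linarith)
            rwa [rf_rf] at h3
        have h1 := jK_pair (z := Zf x) (a := -Af x) (e := ε) (G := (g x + g (Col.rf m x)) / 2)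
          (k := (g x - g (Col.rf m x)) / 2) (by linarith) (by linarith) hε.le
        rw [hs, neg_one_mul] at n2 ⊢
        linarith
  have hlim : 0 ≤ Zf x ∧ 0 ≤ sg m x * Af x := by
    constructor
    · by_contra h
      push Not at h
      have := (key (-Zf x / 2) (by linarith) x hx).1
      linarith
    · by_contra h
      push Not at h
      have := (key (-(sg m x * Af x) / 2) (by linarith) x hx).2
      linarith
  rcases hxm.eq_or_lt with h | h
  · have h1 : Col.rf m x = x := rf_fix h.symm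
    have h2 := hlim.1
    rw [hZ] at h2
    simp only at h2
    rw [h1] at h2 ⊢
    rw [abs_of_nonneg (by linarith)]
  · have h1 := hlim.1
    have h2 := hlim.2
    have hs : sg m x = 1 := if_pos h
    rw [hs, one_mul, hA] at h2
    rw [hZ] at h1
    simp only at h1 h2
    rw [abs_le]
    constructor <;> linarith

/-! ### two nuclei -/

section two

variable {φ₀ : ℝ} {z : Fin 2 → ℝ} {R : Fin 2 → X} {ρ : X → ℝ} {H : X → X →L[ℝ] X} {lo hi : ℝ}

theorem Dat.rf_mid (D : Dat φ₀ z R ρ H lo hi) :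
    rf (((R 0).fst + (R 1).fst) / 2) (R 1) = R 0 := by
  have h0 : (R 0).snd = 0 := D.ax.on_axis 0
  have h1 : (R 1).snd = 0 := D.ax.on_axis 1
  have e1 : (rf (((R 0).fst + (R 1).fst) / 2) (R 1)).fst = (R 0).fst := by
    rw [rf_fst]; ring
  have e2 : (rf (((R 0).fst + (R 1).fst) / 2) (R 1)).snd = (R 0).snd := by
    rw [rf_snd, h0, h1]
  rw [← mk_eta (rf (((R 0).fst + (R 1).fst) / 2) (R 1)), e1, e2, mk_eta]

/-- on the side of the lighter nucleus the potential is smaller than at the mirror image -/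
theorem Dat.psi_rf_mid (D : Dat φ₀ z R ρ H lo hi) (hz : z 1 ≤ z 0) (hab : (R 0).fst < (R 1).fst)
    {x : X} (hx : x ∉ Col.ax) (hxm : ((R 0).fst + (R 1).fst) / 2 < x.fst) :
    psi φ₀ z R ρ x ≤ psi φ₀ z R ρ (rf (((R 0).fst + (R 1).fst) / 2) x) := by
  have hR0 : (R 0).fst • e1 = R 0 := fst_smul_of_ax (D.ax.on_axis 0)
  have hR1 : (R 1).fst • e1 = R 1 := fst_smul_of_ax (D.ax.on_axis 1)
  have hne : R 0 ≠ R 1 := fun h => by rw [h] at hab; exact lt_irrefl _ hab
  obtain ⟨m, hm⟩ : ∃ m, m = ((R 0).fst + (R 1).fst) / 2 := ⟨_, rfl⟩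
  rw [← hm] at hxm ⊢
  have hdir : ‖R 0 - R 1‖⁻¹ • (R 0 - R 1) = -e1 := by
    have h1 : R 0 - R 1 = (-((R 1).fst - (R 0).fst)) • e1 := by
      conv_lhs => rw [← hR0, ← hR1]
      module
    have h2 : ‖R 0 - R 1‖ = (R 1).fst - (R 0).fst := by
      rw [h1, norm_smul, norm_e1, mul_one, Real.norm_eq_abs, abs_neg, abs_of_pos (by linarith)]
    rw [h2, h1, smul_smul]
    have h3 : ((R 1).fst - (R 0).fst)⁻¹ * -((R 1).fst - (R 0).fst) = -1 := by
      have : (R 1).fst - (R 0).fst ≠ 0 := by linarith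
      field_simp
    rw [h3]
    module
  have hof : ((1 / 2 : ℝ) • (R 0 + R 1)).fst = m := by
    rw [WithLp.smul_fst, WithLp.add_fst, hm, smul_eq_mul]
    ring
  have hmir : ∀ y : X, TF.mir ((1 / 2 : ℝ) • (R 0 + R 1)) (‖R 0 - R 1‖⁻¹ • (R 0 - R 1)) y =
      rf m y := by
    intro y
    rw [hdir, mir_plane, rf_eq, hof]
  have hsq : ∀ y : X, ∀ j, ‖y - R j‖ ^ 2 = (y.fst - (R j).fst) ^ 2 + ht y ^ 2 := by
    intro y j
    have h1 : y - R j = TF.mk (y.fst - (R j).fst) y.snd := by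
      have h0 : (R j).snd = 0 := D.ax.on_axis j
      rw [← mk_eta (y - R j), WithLp.sub_fst, WithLp.sub_snd, h0, sub_zero]
    rw [h1, norm_mk_sq]
    rfl
  have hya : rf m x ∉ Col.ax := fun h => hx (rf_ax.mp h)
  have key := psi_mid_le hne hz D.sol' (x := rf m x) ?_ fun h => hya (h ▸ D.ax.on_axis 0)
  · rw [hmir, rf_rf] at key
    exact key
  · have h1 : ‖rf m x - R 0‖ ^ 2 < ‖rf m x - R 1‖ ^ 2 := by
      rw [hsq, hsq, rf_fst]
      nlinarith
    exact lt_of_pow_lt_pow_left₀ 2 (norm_nonneg _) h1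

/-- **the pair of the weights**: on the side of the lighter nucleus `z 0 P_b - z 1 P_a` is
nonnegative, and at least as large as its absolute value at the mirror image -/
theorem Dat.ratio_pair (D : Dat φ₀ z R ρ H lo hi) (hz : ∀ i, 0 < z i)
    (hR : Function.Injective R) (hz1 : z 1 ≤ z 0) (hab : (R 0).fst < (R 1).fst)
    {x : X} (hx : x ∉ Col.ax) (hxm : ((R 0).fst + (R 1).fst) / 2 ≤ x.fst) :
    |z 0 * wt z R ρ (R 1).fst (R 0).fst (rf (((R 0).fst + (R 1).fst) / 2) x) -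
        z 1 * wt z R ρ (R 0).fst (R 1).fst (rf (((R 0).fst + (R 1).fst) / 2) x)| ≤
      z 0 * wt z R ρ (R 1).fst (R 0).fst x - z 1 * wt z R ρ (R 0).fst (R 1).fst x := by
  obtain ⟨m, hm⟩ : ∃ m, m = ((R 0).fst + (R 1).fst) / 2 := ⟨_, rfl⟩
  obtain ⟨τ, hτd⟩ : ∃ τ, τ = es x := ⟨_, rfl⟩
  obtain ⟨p, hp⟩ : ∃ p : X → ℝ, p = wt z R ρ (R 1).fst (R 0).fst := ⟨_, rfl⟩
  obtain ⟨q, hq⟩ : ∃ q : X → ℝ, q = wt z R ρ (R 0).fst (R 1).fst := ⟨_, rfl⟩
  have hτ : ⟪τ, e1⟫ = 0 := by rw [hτd, inner_es_e1]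
  have hxτ : 0 < ⟪x, τ⟫ := by
    rw [hτd, inner_self_es hx]
    exact ht_pos hx
  rw [← hm] at hxm ⊢
  rw [← hp, ← hq]
  obtain ⟨g, hg⟩ : ∃ g : X → ℝ, g = fun x => 4 * Real.pi * gam (psi φ₀ z R ρ x) := ⟨_, rfl⟩
  obtain ⟨w, hw⟩ : ∃ w : X → ℝ, w = fun x => z 0 * (⟪x, τ⟫ * p x) - z 1 * (⟪x, τ⟫ * q x) :=
    ⟨_, rfl⟩
  have hz0 := (hz 0).le
  have hz1' := (hz 1).le
  have hpi := Real.pi_pos
  have hR0 : rf m (R 1) = R 0 := by rw [hm]; exact D.rf_mid
  have hR1 : rf m (R 0) = R 1 := by rw [← hR0, rf_rf]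
  have hcw := ((D.c1_twt (R 1).fst (R 0).fst τ).const_mul (z 0)).sub
    ((D.c1_twt (R 0).fst (R 1).fst τ).const_mul (z 1))
  have hwd := ((D.wd_twt (R 1).fst (R 0).fst hτ).const_smul (z 0)).sub
    ((D.wd_twt (R 0).fst (R 1).fst hτ).const_smul (z 1))
  rw [← hp, ← hq] at hcw hwd
  rw [← hw] at hcw
  have hwd' := hwd.congr (fun x _ => rfl) (e := fun x => g x * w x) fun x _ => by
    rw [hg, hw]
    ring
  -- bounds of the weights
  obtain ⟨d1, C1, hd1, hC1, hn1⟩ := D.wt_near hz hR 1 (b := (R 0).fst) hab.ne'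
  obtain ⟨d0, C0, hd0, hC0, hn0⟩ := D.wt_near hz hR 0 (b := (R 1).fst) hab.ne
  obtain ⟨Cq, hCq, hbq⟩ := D.wt_loc hz hR (a := (R 0).fst) (j := 1) (y := R 1) (Or.inl rfl)
  obtain ⟨Cp, hCp, hbp⟩ := D.wt_loc hz hR (a := (R 1).fst) (j := 0) (y := R 0) (Or.inl rfl)
  obtain ⟨Fp, Np, hFp, hNp, hfp⟩ := D.wt_far (R 1).fst (R 0).fst
  obtain ⟨Fq, Nq, hFq, hNq, hfq⟩ := D.wt_far (R 0).fst (R 1).fst
  rw [← hp] at hn1 hbp hfp
  rw [← hq] at hn0 hbq hfq
  have hwle : ∀ x, |w x| ≤ |⟪x, τ⟫| * (z 0 * |p x| + z 1 * |q x|) := fun x => by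
    rw [hw]
    refine (abs_sub _ _).trans ?_
    rw [abs_mul, abs_mul, abs_mul, abs_mul, abs_of_pos (hz 0), abs_of_pos (hz 1)]
    exact le_of_eq (by ring)
  have key := pair_min (Q := R 1) hτ (by rw [hm]; linarith) (D.ax.on_axis 1) hcw hwd'
    (fun x => by rw [hg]; have := gam_nonneg' (psi φ₀ z R ρ x); positivity)
    (m := m) ?_ ?_ ?_ ?_ ?_ hxτ hxm
  · rw [hw] at key
    simp only at key
    rw [rf_tr hτ] at key
    have e1' : z 0 * (⟪x, τ⟫ * p (rf m x)) - z 1 * (⟪x, τ⟫ * q (rf m x)) =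
        ⟪x, τ⟫ * (z 0 * p (rf m x) - z 1 * q (rf m x)) := by ring
    have e2' : z 0 * (⟪x, τ⟫ * p x) - z 1 * (⟪x, τ⟫ * q x) =
        ⟪x, τ⟫ * (z 0 * p x - z 1 * q x) := by ring
    rw [e1', e2', abs_mul, abs_of_pos hxτ] at key
    exact le_of_mul_le_mul_left key hxτ
  · -- the coefficient
    intro y hy hym
    rw [hg]
    refine mul_le_mul_of_nonneg_left (gam_le_gam86 ?_) (by positivity)
    have := D.psi_rf_mid hz1 hab hy (by rw [← hm]; exact hym)
    rwa [← hm] at this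
  · -- the axis
    intro y hy hy1 hy0
    rw [hR0] at hy0
    have hyk : ∀ k, y ≠ R k := fun k => by
      rcases fin2_all (i := (0 : Fin 2)) (j := 1) (by decide) k with rfl | rfl
      · exact hy0
      · exact hy1
    obtain ⟨K1, hK1, hb1⟩ := D.wt_loc hz hR (a := (R 0).fst) (j := 1) (y := y) (Or.inr hyk)
    obtain ⟨K0, hK0, hb0⟩ := D.wt_loc hz hR (a := (R 1).fst) (j := 0) (y := y) (Or.inr hyk)
    rw [← hq] at hb1
    rw [← hp] at hb0
    refine ⟨(‖y‖ + 1) * ‖τ‖ * (z 0 * K0 + z 1 * K1), ?_⟩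
    have h3 : ∀ᶠ x in 𝓝 y, ‖x‖ < ‖y‖ + 1 :=
      continuous_norm.continuousAt.eventually_lt_const (by linarith)
    filter_upwards [hb1, hb0, h3] with x h1 h0 h3 hxa
    refine (hwle x).trans (mul_le_mul ?_ ?_ (by positivity) (by positivity))
    · exact (abs_real_inner_le_norm _ _).trans (mul_le_mul_of_nonneg_right h3.le (norm_nonneg _))
    · have := h1 hxa
      have := h0 hxa
      gcongr
  · -- infinity
    intro ε hε
    obtain ⟨K, hK⟩ : ∃ K, K = ‖τ‖ * (z 0 * Fp + z 1 * Fq) := ⟨_, rfl⟩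
    have hK0 : 0 ≤ K := by rw [hK]; positivity
    refine ⟨max (max Np Nq) (K / ε + 1), fun x hxa hxN => ?_⟩
    have hx1 : Np ≤ ‖x‖ := (le_max_left _ _).trans ((le_max_left _ _).trans hxN)
    have hx2 : Nq ≤ ‖x‖ := (le_max_right _ _).trans ((le_max_left _ _).trans hxN)
    have hx3 : K / ε + 1 ≤ ‖x‖ := (le_max_right _ _).trans hxN
    have hx4 : 1 ≤ ‖x‖ := hNp.trans hx1
    have hx0 : 0 < ‖x‖ := by linarith
    have h1 := hfp x hxa hx1
    have h2 := hfq x hxa hx2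
    have h3 : |w x| ≤ (‖x‖ * ‖τ‖) * (z 0 * (Fp * (‖x‖ ^ 3)⁻¹) + z 1 * (Fq * (‖x‖ ^ 3)⁻¹)) := by
      refine (hwle x).trans (mul_le_mul (abs_real_inner_le_norm _ _) ?_ (by positivity)
        (by positivity))
      gcongr
    have h4 : (‖x‖ * ‖τ‖) * (z 0 * (Fp * (‖x‖ ^ 3)⁻¹) + z 1 * (Fq * (‖x‖ ^ 3)⁻¹)) =
        K * (‖x‖ ^ 2)⁻¹ := by
      rw [hK]
      field_simp
    have h5 : K * (‖x‖ ^ 2)⁻¹ ≤ K * ‖x‖⁻¹ := by
      refine mul_le_mul_of_nonneg_left (inv_anti₀ hx0 ?_) hK0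
      nlinarith
    have h6 : K * ‖x‖⁻¹ < ε := by
      rw [← div_eq_mul_inv, div_lt_iff₀ hx0]
      have h7 : K / ε < ‖x‖ := by linarith
      rwa [div_lt_iff₀ hε, mul_comm] at h7
    linarith
  · -- the plane
    intro y _ hy
    rw [hw]
    simp only
    rw [hy]
    ring
  · -- the pole
    intro δ hδ
    obtain ⟨K, hK⟩ : ∃ K, K = ‖τ‖ * (z 0 * C1 + z 1 * C0 + z 1 * Cq + z 0 * Cp) := ⟨_, rfl⟩
    have hpw := pole_wins (A := δ / 2) (B := 0) (C := K) (by linarith) le_rfl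
      (by rw [hK]; positivity) (R 1)
    have hrc : Tendsto (rf m) (𝓝 (R 1)) (𝓝 (R 0)) := by
      have := (rf_continuous m).tendsto (R 1)
      rwa [hR0] at this
    filter_upwards [hpw, ball_mem_nhds (R 1) hd1, hbq, hrc.eventually (ball_mem_nhds (R 0) hd0),
      hrc.eventually hbp] with x hx1 hx2 hx3 hx4 hx5 hxt
    have hxa := off_of_tr hτ hxt
    have hya : rf m x ∉ Col.ax := fun h => hxa (rf_ax.mp h)
    have hxn : x ≠ R 1 := fun h => hxa (h ▸ D.ax.on_axis 1)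
    have hr0 : 0 < ‖x - R 1‖ := norm_pos_iff.mpr (sub_ne_zero.mpr hxn)
    have hrr : ‖rf m x - R 0‖ = ‖x - R 1‖ := by rw [rf_dist', hR1]
    have h1 := abs_le.mp (hn1 x hx2 hxa)
    have h0 := abs_le.mp (hn0 _ hx4 hya)
    rw [hrr] at h0
    have hq1 := abs_le.mp (hx3 hxa)
    have hp0 := abs_le.mp (hx5 hya)
    have hmain := hx1 hxn
    obtain ⟨E, hE⟩ : ∃ E, E = (‖x - R 1‖⁻¹) ^ (7 / 4 : ℝ) + 1 := ⟨_, rfl⟩
    have hE1 : 1 ≤ E := by
      have : 0 ≤ (‖x - R 1‖⁻¹) ^ (7 / 4 : ℝ) := by positivity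
      rw [hE]; linarith
    rw [← hE] at h1 h0 hmain
    obtain ⟨L, hL⟩ : ∃ L, L = z 0 * (z 1 * (‖x - R 1‖ ^ 3)⁻¹) := ⟨_, rfl⟩
    obtain ⟨T, hT⟩ : ∃ T, T = z 0 * C1 + z 1 * C0 + z 1 * Cq + z 0 * Cp := ⟨_, rfl⟩
    -- the lower bound at `x`
    have b1 : L - (z 0 * C1 + z 1 * Cq) * E ≤ z 0 * p x - z 1 * q x := by
      have c1 : z 0 * (z 1 * (‖x - R 1‖ ^ 3)⁻¹ - C1 * E) ≤ z 0 * p x :=
        mul_le_mul_of_nonneg_left (by linarith [h1.1]) hz0
      have c2 : z 1 * q x ≤ z 1 * Cq := mul_le_mul_of_nonneg_left hq1.2 hz1'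
      have c3 : z 1 * Cq * 1 ≤ z 1 * Cq * E := mul_le_mul_of_nonneg_left hE1 (by positivity)
      rw [hL]
      linarith
    -- the upper bound at the mirror image
    have b2 : |z 0 * p (rf m x) - z 1 * q (rf m x)| ≤ L + (z 1 * C0 + z 0 * Cp) * E := by
      have c1 : z 1 * (z 0 * (‖x - R 1‖ ^ 3)⁻¹ - C0 * E) ≤ z 1 * q (rf m x) :=
        mul_le_mul_of_nonneg_left (by linarith [h0.1]) hz1'
      have c2 : z 1 * q (rf m x) ≤ z 1 * (z 0 * (‖x - R 1‖ ^ 3)⁻¹ + C0 * E) :=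
        mul_le_mul_of_nonneg_left (by linarith [h0.2]) hz1'
      have c3 : z 0 * p (rf m x) ≤ z 0 * Cp := mul_le_mul_of_nonneg_left hp0.2 hz0
      have c4 : z 0 * (-Cp) ≤ z 0 * p (rf m x) := mul_le_mul_of_nonneg_left hp0.1 hz0
      have c5 : z 0 * Cp * 1 ≤ z 0 * Cp * E := mul_le_mul_of_nonneg_left hE1 (by positivity)
      have c6 : 0 ≤ L := by rw [hL]; positivity
      have c7 : L = z 1 * (z 0 * (‖x - R 1‖ ^ 3)⁻¹) := by rw [hL]; ring
      have c8 : 0 ≤ z 1 * C0 * E := by positivity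
      rw [abs_le]
      constructor <;> linarith
    have b3 : -(T * E) ≤ (z 0 * p x - z 1 * q x) - |z 0 * p (rf m x) - z 1 * q (rf m x)| := by
      rw [hT]
      linarith
    have b4 : w x - |w (rf m x)| = ⟪x, τ⟫ *
        ((z 0 * p x - z 1 * q x) - |z 0 * p (rf m x) - z 1 * q (rf m x)|) := by
      rw [hw]
      simp only
      rw [rf_tr hτ]
      have e1' : z 0 * (⟪x, τ⟫ * p (rf m x)) - z 1 * (⟪x, τ⟫ * q (rf m x)) =
          ⟪x, τ⟫ * (z 0 * p (rf m x) - z 1 * q (rf m x)) := by ring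
      rw [e1', abs_mul, abs_of_pos hxt]
      ring
    have b5 : ⟪x, τ⟫ ≤ ‖x - R 1‖ * ‖τ‖ := by
      have h5 : ⟪x, τ⟫ = ⟪x - R 1, τ⟫ := by
        rw [inner_sub_left, tr_of_ax hτ (D.ax.on_axis 1), sub_zero]
      rw [h5]
      exact real_inner_le_norm _ _
    have hT0 : 0 ≤ T * E := by rw [hT]; positivity
    have b6 : ⟪x, τ⟫ * -(T * E) ≤ w x - |w (rf m x)| := by
      rw [b4]
      exact mul_le_mul_of_nonneg_left b3 hxt.le
    have b7 : ⟪x, τ⟫ * (T * E) ≤ ‖x - R 1‖ * ‖τ‖ * (T * E) := mul_le_mul_of_nonneg_right b5 hT0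
    have b8 : ‖x - R 1‖ * (K * E) = ‖x - R 1‖ * ‖τ‖ * (T * E) := by rw [hK, hT]; ring
    have b9 : 0 < δ / 2 * ‖x - R 1‖⁻¹ := by positivity
    linarith

end two

end Pool.Agent.TF.Col

end

section
/-! Two nuclei on the axis, the left one being the heavier: the bound of the ratio of the weights
in the half space of the lighter nucleus, and the first zero of the axial field on the axis. -/

set_option autoImplicit false

set_option linter.unusedSectionVars false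

set_option linter.unusedVariables false

namespace Pool.Agent.TF.Grd
end Pool.Agent.TF.Grd

namespace Pool.Agent.TF.Col

open MeasureTheory Set Metric Filter Topology

open scoped ENNReal NNReal RealInnerProductSpace Gradient

open Pool.Agent.TF.Grd

variable {φ₀ : ℝ} {z : Fin 2 → ℝ} {R : Fin 2 → X} {ρ : X → ℝ} {H : X → X →L[ℝ] X} {lo hi : ℝ}

/-- **the ratio of the weights on the side of the lighter nucleus** -/
theorem Dat.ratio_ge (D : Dat φ₀ z R ρ H lo hi) (hz : ∀ i, 0 < z i)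
    (hR : Function.Injective R) (hz1 : z 1 ≤ z 0) (hab : (R 0).fst < (R 1).fst)
    {x : X} (hx : x ∉ Col.ax) (hxm : ((R 0).fst + (R 1).fst) / 2 ≤ x.fst) :
    z 1 * wt z R ρ (R 0).fst (R 1).fst x ≤ z 0 * wt z R ρ (R 1).fst (R 0).fst x := by
  have h := (abs_nonneg _).trans (D.ratio_pair hz hR hz1 hab hx hxm)
  linarith

/-- the axial field in front of the plane in the middle, in terms of the sum of the weights -/
theorem Dat.E1_le_ratio (D : Dat φ₀ z R ρ H lo hi) (hz : ∀ i, 0 < z i)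
    (hR : Function.Injective R) (hz1 : z 1 ≤ z 0) (hab : (R 0).fst < (R 1).fst)
    {x : X} (hx : x ∉ Col.ax) (hxm : ((R 0).fst + (R 1).fst) / 2 ≤ x.fst) :
    E1 z R ρ x ≤ ((z 0 - z 1) / (z 0 + z 1) * (((R 1).fst - (R 0).fst) / 2) +
      (x.fst - ((R 0).fst + (R 1).fst) / 2)) * pf z R ρ x := by
  have h1 := D.ratio_ge hz hR hz1 hab hx hxm
  have h2 : E1 z R ρ x = _ := D.E1_wt hab.ne hx
  have h3 := wt_add hab.ne z R ρ x
  have hs : 0 < z 0 + z 1 := add_pos (hz 0) (hz 1)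
  have e1' : ((z 0 - z 1) / (z 0 + z 1) * (((R 1).fst - (R 0).fst) / 2) +
      (x.fst - ((R 0).fst + (R 1).fst) / 2)) * pf z R ρ x =
      ((z 0 - z 1) * ((((R 1).fst - (R 0).fst) / 2) * pf z R ρ x) +
        (z 0 + z 1) * ((x.fst - ((R 0).fst + (R 1).fst) / 2) * pf z R ρ x)) / (z 0 + z 1) := by
    field_simp
  rw [e1', le_div_iff₀ hs, h2, ← h3]
  have h5 : 0 ≤ ((R 1).fst - (R 0).fst) *
      (z 0 * wt z R ρ (R 1).fst (R 0).fst x - z 1 * wt z R ρ (R 0).fst (R 1).fst x) :=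
    mul_nonneg (by linarith) (by linarith)
  nlinarith

theorem mk_zero_eq (t : ℝ) : TF.mk t 0 = t • e1 := by
  rw [← mk_eta (t • e1), fst_smul_e1, snd_smul_e1]

/-- **a zero of the axial field on the axis**, between the middle and the lighter nucleus; the
axial field is nonnegative up to this zero -/
theorem Dat.exists_saddle (D : Dat φ₀ z R ρ H lo hi) (hz : ∀ i, 0 < z i)
    (hR : Function.Injective R) (hz1 : z 1 ≤ z 0) (hab : (R 0).fst < (R 1).fst) :
    ∃ t, ((R 0).fst + (R 1).fst) / 2 ≤ t ∧ t < (R 1).fst ∧ E1 z R ρ (TF.mk t 0) = 0 ∧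
      ∀ u, ((R 0).fst + (R 1).fst) / 2 ≤ u → u ≤ t → 0 ≤ E1 z R ρ (TF.mk u 0) := by
  obtain ⟨m, hm⟩ : ∃ m, m = ((R 0).fst + (R 1).fst) / 2 := ⟨_, rfl⟩
  obtain ⟨b, hb⟩ : ∃ b, b = (R 1).fst := ⟨_, rfl⟩
  rw [← hm, ← hb]
  have hmb : m < b := by rw [hm, hb]; linarith
  have hoff : ∀ t, m ≤ t → t < b → ∀ j, TF.mk t 0 ≠ R j := by
    intro t h1 h2 j hj
    have h3 : t = (R j).fst := by rw [← hj]; rfl
    rcases fin2_all (i := (0 : Fin 2)) (j := 1) (by decide) j with rfl | rfl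
    · rw [h3, hm] at h1
      linarith
    · rw [← hb] at h3
      linarith
  have hcont : ContinuousOn (fun t => E1 z R ρ (TF.mk t 0)) (Ico m b) := by
    intro t ht
    have h1 : ContinuousAt (fun x => E1 z R ρ x) (TF.mk t 0) := by
      have := D.c1_E1.cont0 (x := TF.mk t 0) (hoff t ht.1 ht.2)
      exact this
    have h2 : Continuous fun t : ℝ => TF.mk t (0 : E2) :=
      mk_continuous.comp (f := fun t : ℝ => (t, (0 : E2))) (by fun_prop)
    exact (ContinuousAt.comp (g := fun x => E1 z R ρ x) (f := fun t : ℝ => TF.mk t (0 : E2)) h1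
      h2.continuousAt).continuousWithinAt
  have h0 : 0 ≤ E1 z R ρ (TF.mk m 0) := D.E1_mid hz1 hab (x := TF.mk m 0) hm
  -- near the nucleus
  have hneg : ∃ s, m < s ∧ s < b ∧ E1 z R ρ (TF.mk s 0) < 0 := by
    have G := Geo.of_lt (R := R) (t := m) (i := 1) (by rw [← hb]; exact hmb)
      (fin2_geo (by rw [hm]; linarith))
    obtain ⟨r, C, hr, hC, hnear⟩ := D.near_E1 hz hR G
    obtain ⟨r₀, hr₀, hsm⟩ := small_rpow48 C 0 (δ := z 1) (hz 1)
    obtain ⟨δ, hδ⟩ : ∃ δ, δ = min (min (r / 2) (r₀ / 2)) (min (1 / 2) ((b - m) / 2)) := ⟨_, rfl⟩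
    have hδ0 : 0 < δ := by
      rw [hδ]
      exact lt_min (lt_min (by linarith) (by linarith)) (lt_min (by norm_num) (by linarith))
    have d1 : δ ≤ r / 2 := by rw [hδ]; exact (min_le_left _ _).trans (min_le_left _ _)
    have d2 : δ ≤ r₀ / 2 := by rw [hδ]; exact (min_le_left _ _).trans (min_le_right _ _)
    have d3 : δ ≤ 1 / 2 := by rw [hδ]; exact (min_le_right _ _).trans (min_le_left _ _)
    have d4 : δ ≤ (b - m) / 2 := by rw [hδ]; exact (min_le_right _ _).trans (min_le_right _ _)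
    refine ⟨b - δ, by linarith, by linarith, ?_⟩
    have hRb : R 1 = b • e1 := by rw [hb]; exact (fst_smul_of_ax (D.ax.on_axis 1)).symm
    have hn : ‖TF.mk (b - δ) 0 - R 1‖ = δ := by
      rw [hRb, mk_zero_eq, ← sub_smul, norm_smul, norm_e1, mul_one, Real.norm_eq_abs]
      rw [show b - δ - b = -δ by ring, abs_neg, abs_of_pos hδ0]
    have h1 := hnear (TF.mk (b - δ) 0) (by rw [hn]; linarith)
      (hoff _ (by linarith) (by linarith) 1)
    rw [hn] at h1
    have h2 : (TF.mk (b - δ) 0 : X).fst = b - δ := rfl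
    rw [h2, ← hb] at h1
    have h3 := hsm δ hδ0 (by linarith)
    have h4 := (abs_le.mp h1).2
    have h5 : z 1 * (δ ^ 3)⁻¹ * (b - δ - b) = -(z 1 * (δ ^ 2)⁻¹) := by
      field_simp
      ring
    rw [h5] at h4
    have h6 : z 1 * δ⁻¹ ≤ z 1 * (δ ^ 2)⁻¹ := by
      refine mul_le_mul_of_nonneg_left (inv_anti₀ (by positivity) ?_) (hz 1).le
      nlinarith
    linarith
  obtain ⟨s, hs1, hs2, hs3⟩ := hneg
  -- the first zero
  obtain ⟨A, hA⟩ : ∃ A : Set ℝ, A = Icc m s ∩ {t | E1 z R ρ (TF.mk t 0) ≤ 0} := ⟨_, rfl⟩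
  have hsub : Icc m s ⊆ Ico m b := fun t ht => ⟨ht.1, ht.2.trans_lt hs2⟩
  have hAc : IsClosed A := by
    rw [hA]
    have := (hcont.mono hsub).preimage_isClosed_of_isClosed isClosed_Icc (isClosed_Iic (a := (0 : ℝ)))
    exact this
  have hAn : A.Nonempty := ⟨s, by rw [hA]; exact ⟨⟨hs1.le, le_rfl⟩, hs3.le⟩⟩
  have hAb : BddBelow A := ⟨m, fun t ht => by rw [hA] at ht; exact ht.1.1⟩
  obtain ⟨t, ht⟩ : ∃ t, t = sInf A := ⟨_, rfl⟩
  have htA : t ∈ A := by rw [ht]; exact hAc.csInf_mem hAn hAb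
  have htmin : ∀ u, u ∈ A → t ≤ u := fun u hu => by rw [ht]; exact csInf_le hAb hu
  have htm := htA
  rw [hA] at htm
  have hnn : ∀ u, m ≤ u → u < t → 0 < E1 z R ρ (TF.mk u 0) := by
    intro u hu1 hu2
    by_contra h
    push Not at h
    have h1 : u ∈ A := by rw [hA]; exact ⟨⟨hu1, (hu2.trans_le htm.1.2).le⟩, h⟩
    exact absurd (htmin u h1) (not_le.mpr hu2)
  have ht0 : 0 ≤ E1 z R ρ (TF.mk t 0) := by
    rcases htm.1.1.eq_or_lt with h | h
    · rw [← h]; exact h0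
    · have h1 : ContinuousWithinAt (fun t => E1 z R ρ (TF.mk t 0)) (Ioo m t) t :=
        (hcont t (hsub htm.1)).mono fun u hu => ⟨hu.1.le, hu.2.trans (hsub htm.1).2⟩
      have h2 : t ∈ closure (Ioo m t) := by
        rw [closure_Ioo h.ne]
        exact ⟨h.le, le_rfl⟩
      have : (𝓝[Ioo m t] t).NeBot := mem_closure_iff_nhdsWithin_neBot.mp h2
      refine ge_of_tendsto h1 ?_
      filter_upwards [self_mem_nhdsWithin] with u hu
      exact (hnn u hu.1.le hu.2).le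
  refine ⟨t, htm.1.1, htm.1.2.trans_lt hs2, le_antisymm htm.2 ht0, fun u hu1 hu2 => ?_⟩
  rcases hu2.eq_or_lt with h | h
  · rw [h]; exact ht0
  · exact (hnn u hu1 h).le

end Pool.Agent.TF.Col

end

section
/-! Two nuclei: the plane quantities along rays, integrability, the identity on one plane, and
the mid plane. -/

set_option autoImplicit false

set_option linter.unusedSectionVars false

set_option linter.unusedVariables false

set_option linter.style.haveILetI false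

namespace Pool.Agent.TF.Grd
end Pool.Agent.TF.Grd

namespace Pool.Agent.TF.Col

open MeasureTheory Set Metric Filter Topology

open scoped ENNReal NNReal RealInnerProductSpace Gradient

open Pool.Agent.TF.Grd

/-! ### one dimension -/

theorem ioi_int39 {f : ℝ → ℝ} (hc : ContinuousOn f (Ioi 0)) {C δ : ℝ} (hδ : 0 < δ)
    (h0 : ∀ s, 0 < s → s < δ → |f s| ≤ C) {K N : ℝ} (hN : 0 < N)
    (hf : ∀ s, N ≤ s → |f s| ≤ K * s ^ (-(2 : ℝ))) : IntegrableOn f (Ioi 0) := by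
  obtain ⟨N', hN'⟩ : ∃ N', N' = max N δ := ⟨_, rfl⟩
  have hNN : N ≤ N' := hN' ▸ le_max_left _ _
  have hδN : δ ≤ N' := hN' ▸ le_max_right _ _
  have hN0 : 0 < N' := hN.trans_le hNN
  obtain ⟨δ', hδ'⟩ : ∃ δ', δ' = δ / 2 := ⟨_, rfl⟩
  have hδ0 : 0 < δ' := by rw [hδ']; linarith
  have hδδ : δ' < δ := by rw [hδ']; linarith
  have hms : AEStronglyMeasurable f (volume.restrict (Ioi 0)) :=
    hc.aestronglyMeasurable measurableSet_Ioi
  have h1 : IntegrableOn f (Ioc 0 δ') := by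
    refine Integrable.mono' (integrableOn_const (C := C) (by simp))
      (hms.mono_measure (Measure.restrict_mono Ioc_subset_Ioi_self le_rfl)) ?_
    refine (ae_restrict_iff' measurableSet_Ioc).mpr (Eventually.of_forall fun s hs => ?_)
    rw [Real.norm_eq_abs]
    exact h0 s hs.1 (hs.2.trans_lt hδδ)
  have h2 : IntegrableOn f (Icc δ' N') :=
    (hc.mono fun s hs => mem_Ioi.mpr (hδ0.trans_le hs.1)).integrableOn_compact isCompact_Icc
  have h3 : IntegrableOn f (Ioi N') := by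
    have h4 := (integrableOn_Ioi_rpow_of_lt (by norm_num : -(2 : ℝ) < -1) hN0).const_mul K
    refine Integrable.mono' h4
      (hms.mono_measure (Measure.restrict_mono (Ioi_subset_Ioi hN0.le) le_rfl)) ?_
    refine (ae_restrict_iff' measurableSet_Ioi).mpr (Eventually.of_forall fun s hs => ?_)
    rw [Real.norm_eq_abs]
    exact hf s (hNN.trans (le_of_lt hs))
  refine ((h1.union h2).union h3).mono_set fun s hs => ?_
  have hs0 : 0 < s := hs
  rcases le_or_gt s δ' with h | h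
  · exact Or.inl (Or.inl ⟨hs0, h⟩)
  · rcases le_or_gt s N' with h' | h'
    · exact Or.inl (Or.inr ⟨h.le, h'⟩)
    · exact Or.inr h'

/-- a function which is at least a derivative `Ψ'`, `limsup Ψ ≤ L` at `0`, `liminf Ψ ≥ 0` at
infinity, has an integral `≥ -L` -/
theorem ioi_lower39 {G Ψ Ψ' : ℝ → ℝ} {L : ℝ} (hI : IntegrableOn G (Ioi 0))
    (hd : ∀ s, 0 < s → HasDerivAt Ψ (Ψ' s) s) (hle : ∀ s, 0 < s → Ψ' s ≤ G s)
    (h0 : ∀ η : ℝ, 0 < η → ∀ᶠ ε in 𝓝[>] (0 : ℝ), Ψ ε ≤ L + η)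
    (hinf : ∀ η : ℝ, 0 < η → ∀ᶠ N in atTop, -η ≤ Ψ N) :
    -L ≤ ∫ s in Ioi (0 : ℝ), G s := by
  have hunion : (⋃ n : ℕ, Ioc ((n : ℝ) + 1)⁻¹ ((n : ℝ) + 1)) = Ioi 0 := by
    ext x
    simp only [mem_iUnion, mem_Ioc, mem_Ioi]
    constructor
    · rintro ⟨n, h1, h2⟩
      exact lt_trans (by positivity) h1
    · intro hx
      obtain ⟨n, hn⟩ := exists_nat_gt (max x x⁻¹)
      have h1 := (le_max_left x x⁻¹).trans_lt hn
      have h2 := (le_max_right x x⁻¹).trans_lt hn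
      refine ⟨n, ?_, by linarith⟩
      rw [inv_lt_comm₀ (by positivity) hx]
      linarith
  have hmono : Monotone fun n : ℕ => Ioc ((n : ℝ) + 1)⁻¹ ((n : ℝ) + 1) := by
    intro n k hnk
    have h1 : (n : ℝ) ≤ k := by exact_mod_cast hnk
    refine Ioc_subset_Ioc ?_ (by linarith)
    exact inv_anti₀ (by positivity) (by linarith)
  have hlim := tendsto_setIntegral_of_monotone (μ := (volume : Measure ℝ)) (f := G)
    (fun n : ℕ => measurableSet_Ioc) hmono (by rw [hunion]; exact hI)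
  rw [hunion] at hlim
  refine le_of_forall_pos_le_add fun η hη => ?_
  have hη2 : 0 < η / 2 := by linarith
  have ha : Tendsto (fun n : ℕ => ((n : ℝ) + 1)⁻¹) atTop (𝓝[>] 0) := by
    refine tendsto_nhdsWithin_iff.mpr ⟨?_, Eventually.of_forall fun n => ?_⟩
    · have := tendsto_one_div_add_atTop_nhds_zero_nat (𝕜 := ℝ)
      simpa [one_div] using this
    · exact mem_Ioi.mpr (by positivity)
  have hb : Tendsto (fun n : ℕ => (n : ℝ) + 1) atTop atTop :=
    tendsto_atTop_add_const_right _ _ tendsto_natCast_atTop_atTop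
  have key : ∀ᶠ n : ℕ in atTop, -L - η ≤ ∫ s in Ioc ((n : ℝ) + 1)⁻¹ ((n : ℝ) + 1), G s := by
    filter_upwards [ha.eventually (h0 _ hη2), hb.eventually (hinf _ hη2)] with n h1 h2
    have hpos : (0 : ℝ) < ((n : ℝ) + 1)⁻¹ := by positivity
    have hab : ((n : ℝ) + 1)⁻¹ ≤ (n : ℝ) + 1 := by
      have h3 : (1 : ℝ) ≤ (n : ℝ) + 1 := by
        have : (0 : ℝ) ≤ n := n.cast_nonneg
        linarith
      exact (inv_le_one_of_one_le₀ h3).trans h3
    have h4 := intervalIntegral.sub_le_integral_of_hasDeriv_right_of_le (g := Ψ) (g' := Ψ')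
      (φ := G) hab
      (fun x hx => (hd x (hpos.trans_le hx.1)).continuousAt.continuousWithinAt)
      (fun x hx => (hd x (hpos.trans hx.1)).hasDerivWithinAt)
      (hI.mono_set fun x hx => mem_Ioi.mpr (hpos.trans_le hx.1))
      (fun x hx => hle x (hpos.trans hx.1))
    rw [intervalIntegral.integral_of_le hab] at h4
    linarith
  have := ge_of_tendsto hlim key
  linarith

theorem int3_39 {A B C : ℝ → ℝ} (c d e : ℝ) (hA : IntegrableOn A (Ioi 0))
    (hB : IntegrableOn B (Ioi 0)) (hC : IntegrableOn C (Ioi 0)) :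
    IntegrableOn (fun s => c * A s - d * B s + e * C s) (Ioi 0) ∧
    ∫ s in Ioi (0 : ℝ), (c * A s - d * B s + e * C s) =
      c * (∫ s in Ioi (0 : ℝ), A s) - d * (∫ s in Ioi (0 : ℝ), B s) +
        e * ∫ s in Ioi (0 : ℝ), C s := by
  have h1 : Integrable (fun s => c * A s) (volume.restrict (Ioi 0)) := Integrable.const_mul hA c
  have h2 : Integrable (fun s => d * B s) (volume.restrict (Ioi 0)) := Integrable.const_mul hB d
  have h3 : Integrable (fun s => e * C s) (volume.restrict (Ioi 0)) := Integrable.const_mul hC e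
  have h4 : Integrable (fun s => c * A s - d * B s) (volume.restrict (Ioi 0)) := h1.sub h2
  refine ⟨h4.add h3, ?_⟩
  rw [integral_add h4 h3, integral_sub h1 h2, integral_const_mul, integral_const_mul,
    integral_const_mul]

section rays

variable {v : E2} {m : ℝ}

theorem ray_cont39 {f : X → ℝ} (hf : ContinuousOn f axᶜ) (hv : ‖v‖ = 1) :
    ContinuousOn (fun s : ℝ => f (TF.mk m (s • v))) (Ioi 0) := by
  refine hf.comp (fun s hs => (ray_deriv m s v).continuousAt.continuousWithinAt) fun s hs => ?_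
  exact ray_off hv hs

theorem ray_dist39 (hv : ‖v‖ = 1) {s : ℝ} (hs : 0 ≤ s) :
    dist (TF.mk m (s • v)) (TF.mk m 0) = s := by
  rw [dist_eq_norm]
  have h := norm_mk_sub m m (s • v)
  rw [norm_smul, hv, mul_one, sub_self, Real.norm_eq_abs, abs_of_nonneg hs] at h
  have h2 : ‖TF.mk m (s • v) - TF.mk m 0‖ ^ 2 = s ^ 2 := by rw [h]; ring
  exact (pow_left_inj₀ (norm_nonneg _) hs two_ne_zero).mp h2

theorem ray_le39 (hv : ‖v‖ = 1) {s : ℝ} (hs : 0 ≤ s) : s ≤ ‖TF.mk m (s • v)‖ := by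
  have h3 := ray_norm' hv m s
  refine (sq_le_sq₀ hs (norm_nonneg _)).mp ?_
  rw [h3]
  nlinarith [sq_nonneg m]

/-- products of two functions with the standard bounds are integrable along rays -/
theorem ray_int39 {f g : X → ℝ} (hf : ContinuousOn f axᶜ) (hg : ContinuousOn g axᶜ)
    (nf : ∃ C δ : ℝ, 0 ≤ C ∧ 0 < δ ∧ ∀ x ∈ ball (TF.mk m 0) δ, x ∉ Col.ax → |f x| ≤ C)
    (ng : ∃ C δ : ℝ, 0 ≤ C ∧ 0 < δ ∧ ∀ x ∈ ball (TF.mk m 0) δ, x ∉ Col.ax →
      |g x| ≤ C * (1 + (√(ht x))⁻¹))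
    (ff : ∃ C N : ℝ, 0 ≤ C ∧ 1 ≤ N ∧ ∀ x, x ∉ Col.ax → N ≤ ‖x‖ → |f x| ≤ C * (‖x‖ ^ 3)⁻¹)
    (fg : ∃ C N : ℝ, 0 ≤ C ∧ 1 ≤ N ∧ ∀ x, x ∉ Col.ax → N ≤ ‖x‖ → |g x| ≤ C * (‖x‖ ^ 3)⁻¹)
    (hv : ‖v‖ = 1) {k : ℕ} (hk1 : 1 ≤ k) (hk : k ≤ 3) :
    IntegrableOn (fun s : ℝ => s ^ k * (f (TF.mk m (s • v)) * g (TF.mk m (s • v)))) (Ioi 0) := by
  obtain ⟨C1, δ1, hC1, hδ1, h1⟩ := nf
  obtain ⟨C2, δ2, hC2, hδ2, h2⟩ := ng
  obtain ⟨K1, N1, hK1, hN1, h3⟩ := ff
  obtain ⟨K2, N2, hK2, hN2, h4⟩ := fg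
  refine ioi_int39 (C := 2 * (C1 * C2)) (δ := min (min δ1 δ2) 1) (K := K1 * K2)
    (N := max N1 N2) ?_ ?_ ?_ ?_ ?_
  · exact (continuousOn_id.pow k).mul ((ray_cont39 hf hv).mul (ray_cont39 hg hv))
  · exact lt_min (lt_min hδ1 hδ2) one_pos
  · intro s hs hsδ
    have e1 : s < δ1 := hsδ.trans_le ((min_le_left _ _).trans (min_le_left _ _))
    have e2 : s < δ2 := hsδ.trans_le ((min_le_left _ _).trans (min_le_right _ _))
    have e3 : s < 1 := hsδ.trans_le (min_le_right _ _)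
    have hd := ray_dist39 (m := m) hv hs.le
    have hx := ray_off (m := m) hv hs
    have i1 := h1 _ (mem_ball.mpr (by rw [hd]; exact e1)) hx
    have i2 := h2 _ (mem_ball.mpr (by rw [hd]; exact e2)) hx
    rw [ray_ht hv hs.le] at i2
    have i3 : |s ^ k| ≤ s := by
      rw [abs_of_nonneg (by positivity)]
      calc s ^ k ≤ s ^ 1 := pow_le_pow_of_le_one hs.le e3.le hk1
        _ = s := pow_one s
    have i4 : s * (1 + (√s)⁻¹) ≤ 2 := by
      have h5 : 0 < √s := Real.sqrt_pos.mpr hs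
      have h6 : s * (√s)⁻¹ = √s := by
        have h7 := Real.mul_self_sqrt hs.le
        field_simp
        nlinarith
      have h8 : √s ≤ 1 := Real.sqrt_le_one.mpr e3.le
      nlinarith
    rw [abs_mul, abs_mul]
    calc |s ^ k| * (|f (TF.mk m (s • v))| * |g (TF.mk m (s • v))|)
        ≤ s * (C1 * (C2 * (1 + (√s)⁻¹))) :=
          mul_le_mul i3 (mul_le_mul i1 i2 (abs_nonneg _) hC1) (by positivity) hs.le
      _ = C1 * C2 * (s * (1 + (√s)⁻¹)) := by ring
      _ ≤ C1 * C2 * 2 := mul_le_mul_of_nonneg_left i4 (by positivity)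
      _ = 2 * (C1 * C2) := by ring
  · exact lt_of_lt_of_le (by linarith) (le_max_left N1 N2)
  · intro s hs
    have e1 : N1 ≤ s := (le_max_left _ _).trans hs
    have e2 : N2 ≤ s := (le_max_right _ _).trans hs
    have hs1 : 1 ≤ s := hN1.trans e1
    have hs0 : 0 < s := by linarith
    have hx := ray_off (m := m) hv hs0
    have hle := ray_le39 (m := m) hv hs0.le
    have i1 := h3 _ hx (e1.trans hle)
    have i2 := h4 _ hx (e2.trans hle)
    have i5 : (‖TF.mk m (s • v)‖ ^ 3)⁻¹ ≤ (s ^ 3)⁻¹ :=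
      inv_anti₀ (by positivity) (pow_le_pow_left₀ hs0.le hle 3)
    have i6 : |f (TF.mk m (s • v))| ≤ K1 * (s ^ 3)⁻¹ :=
      i1.trans (mul_le_mul_of_nonneg_left i5 hK1)
    have i7 : |g (TF.mk m (s • v))| ≤ K2 * (s ^ 3)⁻¹ :=
      i2.trans (mul_le_mul_of_nonneg_left i5 hK2)
    have i3 : |s ^ k| ≤ s ^ 3 := by
      rw [abs_of_nonneg (by positivity)]
      exact pow_le_pow_right₀ hs1 hk
    have hrp : s ^ (-(2 : ℝ)) = (s ^ 2)⁻¹ := by
      rw [Real.rpow_neg hs0.le]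
      norm_num
    rw [abs_mul, abs_mul, hrp]
    calc |s ^ k| * (|f (TF.mk m (s • v))| * |g (TF.mk m (s • v))|)
        ≤ s ^ 3 * (K1 * (s ^ 3)⁻¹ * (K2 * (s ^ 3)⁻¹)) :=
          mul_le_mul i3 (mul_le_mul i6 i7 (abs_nonneg _) (by positivity)) (by positivity)
            (by positivity)
      _ = K1 * K2 * (s ^ 3)⁻¹ := by field_simp
      _ ≤ K1 * K2 * (s ^ 2)⁻¹ := by
          refine mul_le_mul_of_nonneg_left ?_ (by positivity)
          exact inv_anti₀ (by positivity) (pow_le_pow_right₀ hs1 (by norm_num))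

end rays

/-- the current density -/
noncomputable def jD {ι : Type*} [Fintype ι] (z : ι → ℝ) (R : ι → X) (ρ : X → ℝ)
    (H : X → X →L[ℝ] X) (a b : ℝ) (x : X) : ℝ :=
  wt z R ρ a b x * ⟪wt' z R ρ H b a x, e1⟫ - wt z R ρ b a x * ⟪wt' z R ρ H a b x, e1⟫

section gen

variable {ι : Type*} [Fintype ι]

variable {φ₀ : ℝ} {z : ι → ℝ} {R : ι → X} {ρ : X → ℝ} {H : X → X →L[ℝ] X} {lo hi : ℝ}

variable {v : E2} {m : ℝ}

theorem Dat.ray_ww (D : Dat φ₀ z R ρ H lo hi) (hm : ∀ i, TF.mk m 0 ≠ R i) (a b a' b' : ℝ)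
    (hv : ‖v‖ = 1) {k : ℕ} (hk1 : 1 ≤ k) (hk : k ≤ 3) :
    IntegrableOn (fun s : ℝ => s ^ k * (wt z R ρ a b (TF.mk m (s • v)) *
      wt z R ρ a' b' (TF.mk m (s • v)))) (Ioi 0) := by
  refine ray_int39 (D.c1_wt a b).cont0 (D.c1_wt a' b').cont0 (D.slab_wt_near a b hm)
    ?_ (D.slab_wt_far a b) (D.slab_wt_far a' b') hv hk1 hk
  obtain ⟨C, δ, hC, hδ, h⟩ := D.slab_wt_near a' b' hm
  refine ⟨C, δ, hC, hδ, fun x hx hxa => (h x hx hxa).trans ?_⟩
  have h1 : 0 ≤ C * (√(ht x))⁻¹ := by positivity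
  linarith

theorem Dat.ray_wwp (D : Dat φ₀ z R ρ H lo hi) (hm : ∀ i, TF.mk m 0 ≠ R i) (a b a' b' : ℝ)
    (hv : ‖v‖ = 1) {k : ℕ} (hk1 : 1 ≤ k) (hk : k ≤ 3) :
    IntegrableOn (fun s : ℝ => s ^ k * (wt z R ρ a b (TF.mk m (s • v)) *
      ⟪wt' z R ρ H a' b' (TF.mk m (s • v)), e1⟫)) (Ioi 0) :=
  ray_int39 (D.c1_wt a b).cont0 (D.cont_wt'e a' b') (D.slab_wt_near a b hm)
    (D.slab_wt'_near a' b' hm) (D.slab_wt_far a b) (D.slab_wt'_far a' b') hv hk1 hk

/-- the current along rays is integrable with the weights `s`, `s²`, `s³` -/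
theorem Dat.ray_jD (D : Dat φ₀ z R ρ H lo hi) (hm : ∀ i, TF.mk m 0 ≠ R i) (a b : ℝ)
    (hv : ‖v‖ = 1) {k : ℕ} (hk1 : 1 ≤ k) (hk : k ≤ 3) :
    IntegrableOn (fun s : ℝ => s ^ k * jD z R ρ H a b (TF.mk m (s • v))) (Ioi 0) := by
  have h1 := (D.ray_wwp hm a b b a hv hk1 hk).sub (D.ray_wwp hm b a a b hv hk1 hk)
  refine IntegrableOn.congr_fun h1 (fun s hs => ?_) measurableSet_Ioi
  simp only [Pi.sub_apply]
  unfold jD
  ring

/-- the product `E₁ p` along rays is integrable with the weight `s` -/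
theorem Dat.ray_k (D : Dat φ₀ z R ρ H lo hi) (hm : ∀ i, TF.mk m 0 ≠ R i) {a b : ℝ}
    (hab : a ≠ b) (hv : ‖v‖ = 1) :
    IntegrableOn (fun s : ℝ => s * (E1 z R ρ (TF.mk m (s • v)) * pf z R ρ (TF.mk m (s • v))))
      (Ioi 0) := by
  have h1 := (((D.ray_ww hm a b a b hv le_rfl (by norm_num : (1 : ℕ) ≤ 3)).const_mul (m - a)).add
    ((D.ray_ww hm a b b a hv le_rfl (by norm_num : (1 : ℕ) ≤ 3)).const_mul
      ((m - a) + (m - b)))).add
    ((D.ray_ww hm b a b a hv le_rfl (by norm_num : (1 : ℕ) ≤ 3)).const_mul (m - b))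
  refine IntegrableOn.congr_fun h1 (fun s hs => ?_) measurableSet_Ioi
  have h2 : E1 z R ρ (TF.mk m (s • v)) = _ := D.E1_wt hab (ray_off hv hs)
  rw [mk_fst] at h2
  simp only [Pi.add_apply]
  rw [h2, ← wt_add hab]
  ring

/-- the density `Km` along rays is integrable with the weight `s` -/
theorem Dat.ray_Km (D : Dat φ₀ z R ρ H lo hi) (hm : ∀ i, TF.mk m 0 ≠ R i) (a b : ℝ)
    (hv : ‖v‖ = 1) :
    IntegrableOn (fun s : ℝ => s * Km z R ρ H a b m (TF.mk m (s • v))) (Ioi 0) := by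
  have h13 : (1 : ℕ) ≤ 3 := by norm_num
  have h1 := ((D.ray_jD hm a b hv (by norm_num : 1 ≤ 3) le_rfl).add
    ((D.ray_jD hm a b hv le_rfl h13).const_mul ((m - a) * (b - m)))).sub
    ((((D.ray_ww hm a b a b hv le_rfl h13).const_mul (m - a)).add
      ((D.ray_ww hm a b b a hv le_rfl h13).const_mul ((m - a) + (b - m)))).add
    ((D.ray_ww hm b a b a hv le_rfl h13).const_mul (b - m)))
  refine IntegrableOn.congr_fun h1 (fun s hs => ?_) measurableSet_Ioi
  have hs0 : 0 < s := hs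
  simp only [Pi.add_apply, Pi.sub_apply]
  unfold Km jD
  rw [ray_ht hv hs0.le]
  ring

end gen

/-- the algebra on one plane -/
theorem sd_alg {A B s q p q1 qs p1 ps ρ E : ℝ} (hs : 0 < s)
    (hA : (A * qs - s * q1) + (-B * ps - s * p1) = 0)
    (hB : A * q1 + s * qs + (-B * p1 + s * ps) + 3 * (q + p) + ρ = 0) (hE : E = A * q - B * p) :
    (A + B) * (s * ((s ^ 2 + A * B) * (q * p1 - p * q1) - (q + p) * (A * q + B * p))) -
      (A + B) * (s ^ 3 * (q * p1 - p * q1)) + (A - B) * (s * (E * (q + p))) =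
    A * B * (s * (ρ * (q + p)) + (s * (q + p) ^ 2 + s ^ 2 * ((q + p) * (qs + ps)) +
      E * (A * qs - B * ps))) := by
  have hs' : s ≠ 0 := hs.ne'
  have h1 : s * (q1 + p1) = A * qs - B * ps := by linarith
  subst hE
  have hρ : ρ = -(A * q1 + s * qs + (-B * p1 + s * ps) + 3 * (q + p)) := by linarith
  rw [hρ]
  have h2 : (A * q - B * p) * (A * qs - B * ps) = (A * q - B * p) * (s * (q1 + p1)) := by rw [h1]
  have h3 : A * B * (s * (-(A * q1 + s * qs + (-B * p1 + s * ps) + 3 * (q + p)) * (q + p)) +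
      (s * (q + p) ^ 2 + s ^ 2 * ((q + p) * (qs + ps)) + (A * q - B * p) * (A * qs - B * ps))) =
      A * B * (s * (-(A * q1 + (-B * p1) + 2 * (q + p)) * (q + p)) +
        (A * q - B * p) * (s * (q1 + p1))) := by
    rw [h2]
    ring
  rw [h3]
  ring

section two

variable {φ₀ : ℝ} {z : Fin 2 → ℝ} {R : Fin 2 → X} {ρ : X → ℝ} {H : X → X →L[ℝ] X} {lo hi : ℝ}

theorem plane_off39 (hlt : (R 0).fst < (R 1).fst) {t : ℝ} (ha : (R 0).fst < t)
    (hb : t < (R 1).fst) : ∀ i, TF.mk t 0 ≠ R i := by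
  refine Fin.forall_fin_two.mpr ⟨fun h => ?_, fun h => ?_⟩
  · have := congrArg (fun x : X => x.fst) h
    simp only [mk_fst] at this
    linarith
  · have := congrArg (fun x : X => x.fst) h
    simp only [mk_fst] at this
    linarith

/-- **the identity on one plane** -/
theorem Dat.sd (D : Dat φ₀ z R ρ H lo hi) (hz : ∀ i, 0 < z i) (hlt : (R 0).fst < (R 1).fst)
    {t : ℝ} (ha : (R 0).fst < t) (hb : t < (R 1).fst) {v : E2} (hv : ‖v‖ = 1) :
    ((R 1).fst - (R 0).fst) * (∫ s in Ioi (0 : ℝ),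
        s ^ 3 * jD z R ρ H (R 0).fst (R 1).fst (TF.mk t (s • v))) -
      ((t - (R 0).fst) - ((R 1).fst - t)) * (∫ s in Ioi (0 : ℝ),
        s * (E1 z R ρ (TF.mk t (s • v)) * pf z R ρ (TF.mk t (s • v)))) -
      (t - (R 0).fst) * ((R 1).fst - t) * (E1 z R ρ (TF.mk t 0) ^ 2 / 2) ≤
    ((R 1).fst - (R 0).fst) * ∫ s in Ioi (0 : ℝ),
      s * Km z R ρ H (R 0).fst (R 1).fst t (TF.mk t (s • v)) := by
  have hne : (R 0).fst ≠ (R 1).fst := hlt.ne
  have hoff := plane_off39 hlt ha hb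
  have hRi : Function.Injective R := by
    intro i j hij
    revert i j
    refine Fin.forall_fin_two.mpr ⟨Fin.forall_fin_two.mpr ⟨fun _ => rfl, fun h => ?_⟩,
      Fin.forall_fin_two.mpr ⟨fun h => ?_, fun _ => rfl⟩⟩
    · exact absurd (congrArg (fun x : X => x.fst) h) hlt.ne
    · exact absurd (congrArg (fun x : X => x.fst) h) hlt.ne'
  have hN0 : ∀ x, x ∉ Col.ax → 0 ≤ wt z R ρ (R 0).fst (R 1).fst x := fun x hx =>
    D.wt_nonneg2 hz hRi (by decide : (0 : Fin 2) ≠ 1) (fin2_all (by decide)) hx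
  have hN1 : ∀ x, x ∉ Col.ax → 0 ≤ wt z R ρ (R 1).fst (R 0).fst x := fun x hx =>
    D.wt_nonneg2 hz hRi (by decide : (1 : Fin 2) ≠ 0) (fin2_all (by decide)) hx
  have hEc : ContinuousAt (E1 z R ρ) (TF.mk t 0) := by
    have h1 := psi'_continuousAt D.hz R D.hφ D.hρ D.heq hoff
    exact (h1.inner continuousAt_const).neg
  have hIK := D.ray_Km hoff (R 0).fst (R 1).fst hv
  have hIJ := D.ray_jD hoff (R 0).fst (R 1).fst hv (by norm_num : 1 ≤ 3) le_rfl
  have hIk := D.ray_k hoff hne hv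
  obtain ⟨a, haa⟩ : ∃ a : ℝ, a = (R 0).fst := ⟨_, rfl⟩
  obtain ⟨b, hbb⟩ : ∃ b : ℝ, b = (R 1).fst := ⟨_, rfl⟩
  obtain ⟨C0, δ0, hC0, hδ0, hq0⟩ := D.slab_wt_near a b hoff
  obtain ⟨C1, δ1, hC1, hδ1, hp0⟩ := D.slab_wt_near b a hoff
  rw [← haa, ← hbb] at hN0 hN1 hne hIK hIJ hlt ⊢
  rw [← haa] at ha
  rw [← hbb] at hb
  obtain ⟨A, hA'⟩ : ∃ A : ℝ, A = t - a := ⟨_, rfl⟩
  obtain ⟨B, hB'⟩ : ∃ B : ℝ, B = b - t := ⟨_, rfl⟩
  have hA0 : 0 < A := by rw [hA']; linarith
  have hB0 : 0 < B := by rw [hB']; linarith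
  have hAB : b - a = A + B := by rw [hA', hB']; ring
  have htb : t - b = -B := by rw [hB']; ring
  rw [← hA', ← hB', hAB]
  obtain ⟨q, hq⟩ : ∃ q : ℝ → ℝ, q = fun s => wt z R ρ a b (TF.mk t (s • v)) := ⟨_, rfl⟩
  obtain ⟨p, hp⟩ : ∃ p : ℝ → ℝ, p = fun s => wt z R ρ b a (TF.mk t (s • v)) := ⟨_, rfl⟩
  obtain ⟨qs, hqs⟩ : ∃ f : ℝ → ℝ, f = fun s => ⟪wt' z R ρ H a b (TF.mk t (s • v)),
    es (TF.mk t (s • v))⟫ := ⟨_, rfl⟩
  obtain ⟨ps, hps⟩ : ∃ f : ℝ → ℝ, f = fun s => ⟪wt' z R ρ H b a (TF.mk t (s • v)),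
    es (TF.mk t (s • v))⟫ := ⟨_, rfl⟩
  have dq : ∀ s, 0 < s → HasDerivAt q (qs s) s := fun s hs => by
    rw [hq, hqs]
    exact c1o_ray (D.c1_wt a b) hv hs
  have dp : ∀ s, 0 < s → HasDerivAt p (ps s) s := fun s hs => by
    rw [hp, hps]
    exact c1o_ray (D.c1_wt b a) hv hs
  have hE : ∀ s, 0 < s → E1 z R ρ (TF.mk t (s • v)) = A * q s - B * p s := fun s hs => by
    have h2 : E1 z R ρ (TF.mk t (s • v)) = _ := D.E1_wt hne (ray_off hv hs)
    rw [h2, mk_fst, htb, hq, hp, ← hA']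
    ring
  have hU : ∀ s, pf z R ρ (TF.mk t (s • v)) = q s + p s := fun s => by
    rw [← wt_add hne, hq, hp]
  obtain ⟨hIG, hsum⟩ := int3_39 (A + B) (A + B) (A - B) hIK hIJ hIk
  obtain ⟨E0, hE0⟩ : ∃ E0 : ℝ, E0 = E1 z R ρ (TF.mk t 0) := ⟨_, rfl⟩
  have key := ioi_lower39 (L := A * B * (E0 ^ 2 / 2))
    (Ψ := fun s => A * B * ((s ^ 2 * (q s + p s) ^ 2 + (A * q s - B * p s) ^ 2) / 2))
    (Ψ' := fun s => A * B * (s * (q s + p s) ^ 2 + s ^ 2 * ((q s + p s) * (qs s + ps s)) +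
      (A * q s - B * p s) * (A * qs s - B * ps s))) hIG (fun s hs => ?_) (fun s hs => ?_)
      (fun η hη => ?_) (fun η hη => ?_)
  · rw [hsum] at key
    rw [← hE0]
    linarith
  · have h3 := ((dq s hs).add (dp s hs)).pow 2
    have h4 := (((dq s hs).const_mul A).sub ((dp s hs).const_mul B)).pow 2
    have h5 := (((hasDerivAt_pow 2 s).mul h3).add h4).const_mul (A * B / 2)
    refine HasDerivAt.congr_deriv (f := fun s => A * B * ((s ^ 2 * (q s + p s) ^ 2 +
      (A * q s - B * p s) ^ 2) / 2)) (h5.congr_of_eventuallyEq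
        (Eventually.of_forall fun u => ?_)) ?_
    · simp only [Pi.add_apply, Pi.mul_apply, Pi.pow_apply, Pi.sub_apply]
      ring
    · simp only [Pi.add_apply, Pi.mul_apply, Pi.pow_apply, Pi.sub_apply, Nat.cast_ofNat,
        Nat.add_one_sub_one, pow_one]
      ring
  · have hx := ray_off (m := t) hv hs
    have eht := ray_ht (m := t) hv hs.le
    have hA := D.rot_wt hne hx
    have hB := D.wt_div hne hx
    unfold rot at hA
    rw [mk_fst, eht, htb, ← hA'] at hA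
    rw [mk_fst, eht, htb, ← hA'] at hB
    have hρ : 0 ≤ 4 * Real.pi * ρ (TF.mk t (s • v)) := by
      have := D.hρ.nonneg (TF.mk t (s • v))
      positivity
    have hU0 : 0 ≤ q s + p s := by
      rw [hq, hp]
      exact add_nonneg (hN0 _ hx) (hN1 _ hx)
    have key := sd_alg (A := A) (B := B) (q := q s) (p := p s) (qs := qs s) (ps := ps s)
      (q1 := ⟪wt' z R ρ H a b (TF.mk t (s • v)), e1⟫)
      (p1 := ⟪wt' z R ρ H b a (TF.mk t (s • v)), e1⟫) (ρ := 4 * Real.pi * ρ (TF.mk t (s • v)))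
      (E := A * q s - B * p s) hs
      (by rw [hqs, hps]; dsimp only; linarith) (by rw [hqs, hps, hq, hp]; dsimp only; linarith)
      rfl
    have hpos : 0 ≤ A * B * (s * (4 * Real.pi * ρ (TF.mk t (s • v)) * (q s + p s))) := by
      have := hs.le
      positivity
    have e1' : s * Km z R ρ H a b t (TF.mk t (s • v)) =
        s * ((s ^ 2 + A * B) * (q s * ⟪wt' z R ρ H b a (TF.mk t (s • v)), e1⟫ -
          p s * ⟪wt' z R ρ H a b (TF.mk t (s • v)), e1⟫) - (q s + p s) * (A * q s + B * p s)) := by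
      unfold Km
      rw [eht, ← hA', ← hB', hq, hp]
    have e2' : s ^ 3 * jD z R ρ H a b (TF.mk t (s • v)) =
        s ^ 3 * (q s * ⟪wt' z R ρ H b a (TF.mk t (s • v)), e1⟫ -
          p s * ⟪wt' z R ρ H a b (TF.mk t (s • v)), e1⟫) := by
      unfold jD
      rw [hq, hp]
    rw [e1', e2', hE s hs, hU s, key]
    have e3' : A * B * (s * (q s + p s) ^ 2 + s ^ 2 * ((q s + p s) * (qs s + ps s)) +
        (A * q s - B * p s) * (A * qs s - B * ps s)) +
        A * B * (s * (4 * Real.pi * ρ (TF.mk t (s • v)) * (q s + p s))) =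
        A * B * (s * (4 * Real.pi * ρ (TF.mk t (s • v)) * (q s + p s)) +
        (s * (q s + p s) ^ 2 + s ^ 2 * ((q s + p s) * (qs s + ps s)) +
        (A * q s - B * p s) * (A * qs s - B * ps s))) := by ring
    rw [← e3']
    linarith
  · -- near the axis
    have hlimE : Tendsto (fun s : ℝ => E1 z R ρ (TF.mk t (s • v))) (𝓝[>] 0) (𝓝 E0) := by
      rw [hE0]
      have h1 : Tendsto (fun s : ℝ => TF.mk t (s • v)) (𝓝[>] 0) (𝓝 (TF.mk t 0)) := by
        have h2 := (ray_deriv t 0 v).continuousAt.tendsto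
        rw [zero_smul] at h2
        exact h2.mono_left nhdsWithin_le_nhds
      exact hEc.tendsto.comp h1
    have hlim2 : Tendsto (fun s : ℝ => A * B * ((s ^ 2 * (C0 + C1) ^ 2 +
        E1 z R ρ (TF.mk t (s • v)) ^ 2) / 2)) (𝓝[>] 0) (𝓝 (A * B * ((0 ^ 2 * (C0 + C1) ^ 2 +
        E0 ^ 2) / 2))) := by
      have h1 : Tendsto (fun s : ℝ => s ^ 2 * (C0 + C1) ^ 2) (𝓝[>] 0) (𝓝 (0 ^ 2 * (C0 + C1) ^ 2)) :=
        (((continuous_pow 2).tendsto 0).mono_left nhdsWithin_le_nhds).mul_const _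
      exact ((h1.add (hlimE.pow 2)).div_const 2).const_mul _
    have hlt2 : A * B * ((0 ^ 2 * (C0 + C1) ^ 2 + E0 ^ 2) / 2) < A * B * (E0 ^ 2 / 2) + η := by
      have : A * B * ((0 ^ 2 * (C0 + C1) ^ 2 + E0 ^ 2) / 2) = A * B * (E0 ^ 2 / 2) := by ring
      linarith
    filter_upwards [hlim2.eventually (gt_mem_nhds hlt2), self_mem_nhdsWithin,
      Ioo_mem_nhdsGT (lt_min hδ0 hδ1)] with s h1 h2 h3
    have hs0 : 0 < s := h2
    have hx := ray_off (m := t) hv hs0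
    have hd := ray_dist39 (m := t) hv hs0.le
    have i1 := hq0 _ (mem_ball.mpr (by rw [hd]; exact h3.2.trans_le (min_le_left _ _))) hx
    have i2 := hp0 _ (mem_ball.mpr (by rw [hd]; exact h3.2.trans_le (min_le_right _ _))) hx
    have i3 : q s + p s ≤ C0 + C1 := by
      rw [hq, hp]
      exact add_le_add ((le_abs_self _).trans i1) ((le_abs_self _).trans i2)
    have i4 : 0 ≤ q s + p s := by
      rw [hq, hp]
      exact add_nonneg (hN0 _ hx) (hN1 _ hx)
    refine le_trans ?_ h1.le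
    rw [← hE s hs0]
    have i5 : (q s + p s) ^ 2 ≤ (C0 + C1) ^ 2 := pow_le_pow_left₀ i4 i3 2
    have i6 : s ^ 2 * (q s + p s) ^ 2 ≤ s ^ 2 * (C0 + C1) ^ 2 :=
      mul_le_mul_of_nonneg_left i5 (sq_nonneg s)
    refine mul_le_mul_of_nonneg_left ?_ (mul_nonneg hA0.le hB0.le)
    linarith
  · refine Eventually.of_forall fun s => ?_
    have : 0 ≤ A * B * ((s ^ 2 * (q s + p s) ^ 2 + (A * q s - B * p s) ^ 2) / 2) := by positivity
    linarith

/-- **the mid plane** -/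
theorem Dat.mc (D : Dat φ₀ z R ρ H lo hi) (hz : ∀ i, 0 < z i) (h10 : z 1 ≤ z 0)
    (hlt : (R 0).fst < (R 1).fst) {v : E2} (hv : ‖v‖ = 1) :
    0 ≤ (∫ s in Ioi (0 : ℝ), s ^ 3 * jD z R ρ H (R 0).fst (R 1).fst
      (TF.mk (((R 0).fst + (R 1).fst) / 2) (s • v))) ∧
    (∫ s in Ioi (0 : ℝ), s * (E1 z R ρ (TF.mk (((R 0).fst + (R 1).fst) / 2) (s • v)) *
      pf z R ρ (TF.mk (((R 0).fst + (R 1).fst) / 2) (s • v)))) ≤
      (z 0 / z 1 - z 1 / z 0) / 2 * ∫ s in Ioi (0 : ℝ), s ^ 3 * jD z R ρ H (R 0).fst (R 1).fst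
        (TF.mk (((R 0).fst + (R 1).fst) / 2) (s • v)) := by
  have hne : (R 0).fst ≠ (R 1).fst := hlt.ne
  have hoff := plane_off39 (t := ((R 0).fst + (R 1).fst) / 2) hlt (by linarith) (by linarith)
  have hRi : Function.Injective R := by
    intro i j hij
    revert i j
    refine Fin.forall_fin_two.mpr ⟨Fin.forall_fin_two.mpr ⟨fun _ => rfl, fun h => ?_⟩,
      Fin.forall_fin_two.mpr ⟨fun h => ?_, fun _ => rfl⟩⟩
    · exact absurd (congrArg (fun x : X => x.fst) h) hlt.ne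
    · exact absurd (congrArg (fun x : X => x.fst) h) hlt.ne'
  have hN0 : ∀ x, x ∉ Col.ax → 0 ≤ wt z R ρ (R 0).fst (R 1).fst x := fun x hx =>
    D.wt_nonneg2 hz hRi (by decide : (0 : Fin 2) ≠ 1) (fin2_all (by decide)) hx
  have hN1 : ∀ x, x ∉ Col.ax → 0 ≤ wt z R ρ (R 1).fst (R 0).fst x := fun x hx =>
    D.wt_nonneg2 hz hRi (by decide : (1 : Fin 2) ≠ 0) (fin2_all (by decide)) hx
  have hrot : ∀ x, x ∉ Col.ax → 0 ≤ rot (R 0).fst (wt' z R ρ H (R 0).fst (R 1).fst x) x :=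
    fun x hx => (D.rot_signs hz hRi (by decide : (0 : Fin 2) ≠ 1) (fin2_all (by decide)) hlt hx).1
  have hratio : ∀ x, x ∉ Col.ax → x.fst = ((R 0).fst + (R 1).fst) / 2 →
      z 1 * wt z R ρ (R 0).fst (R 1).fst x ≤ z 0 * wt z R ρ (R 1).fst (R 0).fst x :=
    fun x hx hxm => D.ratio_ge hz hRi h10 hlt hx hxm.symm.le
  have hIJ := D.ray_jD hoff (R 0).fst (R 1).fst hv (by norm_num : 1 ≤ 3) le_rfl
  have hIk := D.ray_k hoff hne hv
  have hIqp := D.ray_ww hoff (R 0).fst (R 1).fst (R 1).fst (R 0).fst hv le_rfl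
    (by norm_num : (1 : ℕ) ≤ 3)
  obtain ⟨a, haa⟩ : ∃ a : ℝ, a = (R 0).fst := ⟨_, rfl⟩
  obtain ⟨b, hbb⟩ : ∃ b : ℝ, b = (R 1).fst := ⟨_, rfl⟩
  obtain ⟨m, hm⟩ : ∃ m : ℝ, m = ((R 0).fst + (R 1).fst) / 2 := ⟨_, rfl⟩
  rw [← hm] at hratio hIJ hIk hIqp ⊢
  rw [← haa, ← hbb] at hN0 hN1 hrot hratio hne hIJ hIqp hlt hm ⊢
  obtain ⟨h, hh⟩ : ∃ h : ℝ, h = (b - a) / 2 := ⟨_, rfl⟩
  have hh0 : 0 < h := by rw [hh]; linarith
  have hma : m - a = h := by rw [hm, hh]; ring
  have hmb : m - b = -h := by rw [hm, hh]; ring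
  obtain ⟨q, hq⟩ : ∃ q : ℝ → ℝ, q = fun s => wt z R ρ a b (TF.mk m (s • v)) := ⟨_, rfl⟩
  obtain ⟨p, hp⟩ : ∃ p : ℝ → ℝ, p = fun s => wt z R ρ b a (TF.mk m (s • v)) := ⟨_, rfl⟩
  obtain ⟨qs, hqs⟩ : ∃ f : ℝ → ℝ, f = fun s => ⟪wt' z R ρ H a b (TF.mk m (s • v)),
    es (TF.mk m (s • v))⟫ := ⟨_, rfl⟩
  obtain ⟨ps, hps⟩ : ∃ f : ℝ → ℝ, f = fun s => ⟪wt' z R ρ H b a (TF.mk m (s • v)),
    es (TF.mk m (s • v))⟫ := ⟨_, rfl⟩
  have dq : ∀ s, 0 < s → HasDerivAt q (qs s) s := fun s hs => by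
    rw [hq, hqs]
    exact c1o_ray (D.c1_wt a b) hv hs
  have dp : ∀ s, 0 < s → HasDerivAt p (ps s) s := fun s hs => by
    rw [hp, hps]
    exact c1o_ray (D.c1_wt b a) hv hs
  have q0 : ∀ s, 0 < s → 0 ≤ q s := fun s hs => by
    rw [hq]
    exact hN0 _ (ray_off hv hs)
  have p0 : ∀ s, 0 < s → 0 ≤ p s := fun s hs => by
    rw [hp]
    exact hN1 _ (ray_off hv hs)
  -- the current
  have hj : 2 * h * (∫ s in Ioi (0 : ℝ), s ^ 1 * (wt z R ρ a b (TF.mk m (s • v)) *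
      wt z R ρ b a (TF.mk m (s • v)))) ≤
      ∫ s in Ioi (0 : ℝ), s ^ 3 * jD z R ρ H a b (TF.mk m (s • v)) := by
    have hI2 : IntegrableOn (fun s : ℝ => 2 * h * (s ^ 1 * (wt z R ρ a b (TF.mk m (s • v)) *
      wt z R ρ b a (TF.mk m (s • v))))) (Ioi 0) := Integrable.const_mul hIqp _
    have h1 := ioi_nonneg (G := fun s => s ^ 3 * jD z R ρ H a b (TF.mk m (s • v)) -
      2 * h * (s ^ 1 * (wt z R ρ a b (TF.mk m (s • v)) * wt z R ρ b a (TF.mk m (s • v)))))
      (Ψ := fun s => -h * (s ^ 2 * (q s * p s)))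
      (Ψ' := fun s => -h * (2 * s * (q s * p s) + s ^ 2 * (qs s * p s + q s * ps s)))
      (fun s hs => ?_) (fun s hs => ?_) (fun η hη => ?_) (fun η hη => ?_)
    · rw [integral_sub hIJ hI2, integral_const_mul] at h1
      linarith
    · have h3 := (((hasDerivAt_pow 2 s).mul ((dq s hs).mul (dp s hs))).const_mul (-h))
      refine HasDerivAt.congr_deriv (f := fun s => -h * (s ^ 2 * (q s * p s))) h3 ?_
      simp only [Pi.mul_apply, Nat.cast_ofNat, Nat.add_one_sub_one, pow_one]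
    · have hx := ray_off (m := m) hv hs
      have eht := ray_ht (m := m) hv hs.le
      have hA := D.rot_wt hne hx
      have hC := hrot _ hx
      unfold rot at hA hC
      rw [mk_fst, eht, hma] at hC
      rw [mk_fst, eht, hma, hmb] at hA
      have eq1 : s ^ 3 * jD z R ρ H a b (TF.mk m (s • v)) = s ^ 2 * (q s *
          (s * ⟪wt' z R ρ H b a (TF.mk m (s • v)), e1⟫) - p s *
          (s * ⟪wt' z R ρ H a b (TF.mk m (s • v)), e1⟫)) := by
        unfold jD
        rw [hq, hp]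
        ring
      rw [eq1]
      have eA : (h * qs s - s * ⟪wt' z R ρ H a b (TF.mk m (s • v)), e1⟫) +
          (-h * ps s - s * ⟪wt' z R ρ H b a (TF.mk m (s • v)), e1⟫) = 0 := by
        rw [hqs, hps]
        dsimp only
        linarith
      have eC : 0 ≤ h * qs s - s * ⟪wt' z R ρ H a b (TF.mk m (s • v)), e1⟫ := by
        rw [hqs]
        dsimp only
        linarith
      have e2 : s * ⟪wt' z R ρ H b a (TF.mk m (s • v)), e1⟫ =
          (h * qs s - s * ⟪wt' z R ρ H a b (TF.mk m (s • v)), e1⟫) - h * ps s := by linarith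
      have e3 : s * ⟪wt' z R ρ H a b (TF.mk m (s • v)), e1⟫ =
          h * qs s - (h * qs s - s * ⟪wt' z R ρ H a b (TF.mk m (s • v)), e1⟫) := by ring
      rw [e2, e3]
      obtain ⟨n, hn⟩ : ∃ n, n = h * qs s - s * ⟪wt' z R ρ H a b (TF.mk m (s • v)), e1⟫ := ⟨_, rfl⟩
      rw [← hn] at eC ⊢
      have e4 : s ^ 1 * (wt z R ρ a b (TF.mk m (s • v)) * wt z R ρ b a (TF.mk m (s • v))) =
          s * (q s * p s) := by
        rw [hq, hp, pow_one]
      rw [e4]
      have e5 : 0 ≤ s ^ 2 * (n * (q s + p s)) :=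
        mul_nonneg (sq_nonneg _) (mul_nonneg eC (add_nonneg (q0 s hs) (p0 s hs)))
      nlinarith
    · filter_upwards [self_mem_nhdsWithin] with s hs
      have hs0 : 0 < s := hs
      have : 0 ≤ h * (s ^ 2 * (q s * p s)) := mul_nonneg hh0.le (mul_nonneg (sq_nonneg _)
        (mul_nonneg (q0 s hs0) (p0 s hs0)))
      linarith
    · obtain ⟨K1, N1, hK1, hN1', hf1⟩ := D.slab_wt_far a b
      obtain ⟨K2, N2, hK2, hN2', hf2⟩ := D.slab_wt_far b a
      have hlim : Tendsto (fun s : ℝ => h * (K1 * K2) * s⁻¹) atTop (𝓝 0) := by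
        have h1 := (tendsto_inv_atTop_zero (𝕜 := ℝ)).const_mul (h * (K1 * K2))
        rwa [mul_zero] at h1
      filter_upwards [hlim.eventually (gt_mem_nhds hη), eventually_ge_atTop N1,
        eventually_ge_atTop N2, eventually_ge_atTop 1] with s h1 hs1 hs2 hs3
      have hs0 : 0 < s := by linarith
      have hle := ray_le39 (m := m) hv hs0.le
      have hx := ray_off (m := m) hv hs0
      have i5 : (‖TF.mk m (s • v)‖ ^ 3)⁻¹ ≤ (s ^ 3)⁻¹ :=
        inv_anti₀ (by positivity) (pow_le_pow_left₀ hs0.le hle 3)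
      have i1 : q s ≤ K1 * (s ^ 3)⁻¹ := by
        rw [hq]
        exact (le_abs_self _).trans ((hf1 _ hx (hs1.trans hle)).trans
          (mul_le_mul_of_nonneg_left i5 hK1))
      have i2 : p s ≤ K2 * (s ^ 3)⁻¹ := by
        rw [hp]
        exact (le_abs_self _).trans ((hf2 _ hx (hs2.trans hle)).trans
          (mul_le_mul_of_nonneg_left i5 hK2))
      have i3 : q s * p s ≤ K1 * (s ^ 3)⁻¹ * (K2 * (s ^ 3)⁻¹) :=
        mul_le_mul i1 i2 (p0 s hs0) (by positivity)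
      have i4 : s ^ 2 * (q s * p s) ≤ K1 * K2 * s⁻¹ := by
        calc s ^ 2 * (q s * p s) ≤ s ^ 2 * (K1 * (s ^ 3)⁻¹ * (K2 * (s ^ 3)⁻¹)) :=
              mul_le_mul_of_nonneg_left i3 (sq_nonneg s)
          _ = K1 * K2 * (s ^ 4)⁻¹ := by field_simp
          _ ≤ K1 * K2 * s⁻¹ := by
              refine mul_le_mul_of_nonneg_left (inv_anti₀ hs0 ?_) (by positivity)
              exact le_self_pow₀ hs3 (by norm_num)
      have i6 : h * (s ^ 2 * (q s * p s)) ≤ h * (K1 * K2) * s⁻¹ := by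
        calc h * (s ^ 2 * (q s * p s)) ≤ h * (K1 * K2 * s⁻¹) :=
              mul_le_mul_of_nonneg_left i4 hh0.le
          _ = h * (K1 * K2) * s⁻¹ := by ring
      linarith
  have hqp0 : 0 ≤ ∫ s in Ioi (0 : ℝ), s ^ 1 * (wt z R ρ a b (TF.mk m (s • v)) *
      wt z R ρ b a (TF.mk m (s • v))) := by
    refine setIntegral_nonneg measurableSet_Ioi fun s hs => ?_
    have hs0 : 0 < s := hs
    have hx := ray_off (m := m) hv hs0
    exact mul_nonneg (pow_nonneg hs0.le _) (mul_nonneg (hN0 _ hx) (hN1 _ hx))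
  refine ⟨le_trans (mul_nonneg (by positivity) hqp0) hj, ?_⟩
  have hz0 := hz 0
  have hz1 := hz 1
  obtain ⟨c, hc⟩ : ∃ c : ℝ, c = z 0 / z 1 - z 1 / z 0 := ⟨_, rfl⟩
  have hc0 : 0 ≤ c := by
    rw [hc, sub_nonneg, div_le_div_iff₀ hz0 hz1]
    nlinarith
  have hk : (∫ s in Ioi (0 : ℝ), s * (E1 z R ρ (TF.mk m (s • v)) * pf z R ρ (TF.mk m (s • v)))) ≤
      h * c * ∫ s in Ioi (0 : ℝ), s ^ 1 * (wt z R ρ a b (TF.mk m (s • v)) *
        wt z R ρ b a (TF.mk m (s • v))) := by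
    rw [← integral_const_mul]
    refine setIntegral_mono_on hIk (Integrable.const_mul hIqp _) measurableSet_Ioi fun s hs => ?_
    have hs0 : 0 < s := hs
    have hx := ray_off (m := m) hv hs0
    have h2 : E1 z R ρ (TF.mk m (s • v)) = _ := D.E1_wt hne hx
    rw [mk_fst, hma, hmb] at h2
    have h3 := hratio _ hx (mk_fst _ _)
    have hq' := hN0 _ hx
    have hp' := hN1 _ hx
    rw [h2, ← wt_add hne]
    obtain ⟨Q, hQ⟩ : ∃ Q, Q = wt z R ρ a b (TF.mk m (s • v)) := ⟨_, rfl⟩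
    obtain ⟨P, hP⟩ : ∃ P, P = wt z R ρ b a (TF.mk m (s • v)) := ⟨_, rfl⟩
    rw [← hQ, ← hP] at h3 ⊢
    rw [← hQ] at hq'
    rw [← hP] at hp'
    have e1 : Q ^ 2 - P ^ 2 - c * (P * Q) = (Q - z 0 / z 1 * P) * (Q + z 1 / z 0 * P) := by
      rw [hc]
      field_simp
      ring
    have e2 : Q - z 0 / z 1 * P ≤ 0 := by
      rw [sub_nonpos, div_mul_eq_mul_div, le_div_iff₀ hz1]
      linarith
    have e3 : 0 ≤ Q + z 1 / z 0 * P := by positivity
    have e4 : Q ^ 2 - P ^ 2 - c * (P * Q) ≤ 0 := by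
      rw [e1]
      exact mul_nonpos_of_nonpos_of_nonneg e2 e3
    have e5 : s * ((Q * h + P * -h) * (Q + P)) = s * h * (Q ^ 2 - P ^ 2) := by ring
    rw [e5]
    have e6 : h * c * (s ^ 1 * (Q * P)) = s * h * (c * (P * Q)) := by ring
    rw [e6]
    refine mul_le_mul_of_nonneg_left (by linarith) (by positivity)
  rw [← hc]
  have h5 : c / 2 * (2 * h * ∫ s in Ioi (0 : ℝ), s ^ 1 * (wt z R ρ a b (TF.mk m (s • v)) *
      wt z R ρ b a (TF.mk m (s • v)))) ≤
      c / 2 * ∫ s in Ioi (0 : ℝ), s ^ 3 * jD z R ρ H a b (TF.mk m (s • v)) :=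
    mul_le_mul_of_nonneg_left hj (by positivity)
  linarith

end two

end Pool.Agent.TF.Col

end

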