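import Mathlib
import Pool.Agent.Lib.MP_9cf0c9_mp.Tr.ColEndK36
import Pool.Agent.Lib.MP_9cf0c9_mp.Tr.CutA
import Pool.Agent.Lib.MP_9cf0c9_mp.Tr.Inv36
import Pool.Agent.Lib.MP_9cf0c9_mp.Tr.K29
import Pool.Agent.Lib.MP_9cf0c9_mp.Tr.Kaxis39
import Pool.Agent.Lib.MP_9cf0c9_mp.Tr.SadA

section
/-! Two nuclei: **the plane criterion**.  If for some plane between the nuclei the integral of
`Km` over the plane is nonnegative, then the second variation has the right sign. -/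

set_option autoImplicit false

set_option linter.unusedSectionVars false

set_option linter.unusedVariables false

set_option linter.style.haveILetI false

namespace Pool.Agent.TF.Grd
end Pool.Agent.TF.Grd

namespace Pool.Agent
end Pool.Agent

namespace Pool.Agent.TF.Col

open MeasureTheory Set Metric Filter Topology

open scoped ENNReal NNReal RealInnerProductSpace Gradient

open Pool.Agent.TF.Grd

theorem int6 {A B C E F G : X → ℝ} (c d : ℝ) (hA : Integrable A) (hB : Integrable B)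
    (hC : Integrable C) (hE : Integrable E) (hF : Integrable F) (hG : Integrable G) :
    (Integrable fun x => c * A x + d * B x - C x + 2 * E x + 2 * F x + G x) ∧
    ∫ x, (c * A x + d * B x - C x + 2 * E x + 2 * F x + G x) =
      c * (∫ x, A x) + d * (∫ x, B x) - (∫ x, C x) + 2 * (∫ x, E x) + 2 * (∫ x, F x) +
        ∫ x, G x := by
  have h1 : Integrable fun x => c * A x + d * B x := (hA.const_mul c).add (hB.const_mul d)
  have h2 : Integrable fun x => c * A x + d * B x - C x := h1.sub hC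
  have h3 : Integrable fun x => c * A x + d * B x - C x + 2 * E x := h2.add (hE.const_mul 2)
  have h4 : Integrable fun x => c * A x + d * B x - C x + 2 * E x + 2 * F x :=
    h3.add (hF.const_mul 2)
  refine ⟨h4.add hG, ?_⟩
  rw [integral_add h4 hG, integral_add h3 (hF.const_mul 2), integral_add h2 (hE.const_mul 2),
    integral_sub h1 hC, integral_add (hA.const_mul c) (hB.const_mul d), integral_const_mul,
    integral_const_mul, integral_const_mul, integral_const_mul]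

section two

variable {φ₀ : ℝ} {z : Fin 2 → ℝ} {R : Fin 2 → X} {ρ : X → ℝ} {H : X → X →L[ℝ] X} {lo hi : ℝ}

/-- the current through the plane -/
noncomputable def f1K (z : Fin 2 → ℝ) (R : Fin 2 → X) (ρ : X → ℝ) (H : X → X →L[ℝ] X)
    (a b m : ℝ) (x : X) : ℝ :=
  (ht x ^ 2 + (m - a) * (b - m)) * (wt z R ρ a b x * ⟪wt' z R ρ H b a x, e1⟫ -
    wt z R ρ b a x * ⟪wt' z R ρ H a b x, e1⟫)

noncomputable def f2K (z : Fin 2 → ℝ) (R : Fin 2 → X) (ρ : X → ℝ) (c a b : ℝ) (x : X) : ℝ :=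
  c * wt z R ρ a b x * (wt z R ρ a b x + wt z R ρ b a x)

theorem poly_bd2 (c : ℝ) : ∃ K : ℝ, 0 ≤ K ∧ ∀ x : X, 1 ≤ ‖x‖ → |ht x ^ 2 + c| ≤ K * ‖x‖ ^ 2 := by
  refine ⟨1 + |c|, by positivity, fun x hx => ?_⟩
  have h1 : ht x ≤ ‖x‖ := by
    refine le_of_sq_le_sq ?_ (norm_nonneg _)
    rw [norm_sq_eq]
    unfold ht
    nlinarith [sq_nonneg x.fst]
  have h3 : ht x ^ 2 ≤ ‖x‖ ^ 2 := pow_le_pow_left₀ (ht_nonneg x) h1 2
  have h4 : 1 ≤ ‖x‖ ^ 2 := one_le_pow₀ hx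
  refine (abs_add_le _ _).trans ?_
  rw [abs_of_nonneg (by positivity : 0 ≤ ht x ^ 2)]
  nlinarith [mul_nonneg (abs_nonneg c) (sub_nonneg.mpr h4)]

theorem const_bd2 (c : ℝ) : ∃ K : ℝ, 0 ≤ K ∧ ∀ x : X, 1 ≤ ‖x‖ → |c| ≤ K * ‖x‖ ^ 2 := by
  refine ⟨|c|, abs_nonneg _, fun x hx => ?_⟩
  have h4 : 1 ≤ ‖x‖ ^ 2 := one_le_pow₀ hx
  nlinarith [mul_nonneg (abs_nonneg c) (sub_nonneg.mpr h4)]

theorem Dat.slab_f1K (D : Dat φ₀ z R ρ H lo hi) {m : ℝ} (hm : ∀ i, TF.mk m 0 ≠ R i) (a b : ℝ) :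
    SlabOK (f1K z R ρ H a b m) m := by
  have hc : Continuous fun x : X => ht x ^ 2 + (m - a) * (b - m) := by
    have := ht_continuous
    fun_prop
  have h1 := D.slab_wwp hm hc (poly_bd2 _) a b b a
  have h2 := D.slab_wwp hm hc (poly_bd2 _) b a a b
  have e : f1K z R ρ H a b m = fun x => (ht x ^ 2 + (m - a) * (b - m)) * (wt z R ρ a b x *
      ⟪wt' z R ρ H b a x, e1⟫) - (ht x ^ 2 + (m - a) * (b - m)) * (wt z R ρ b a x *
      ⟪wt' z R ρ H a b x, e1⟫) := by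
    funext x
    unfold f1K
    ring
  rw [e]
  exact h1.sub h2

theorem Dat.slab_f2K (D : Dat φ₀ z R ρ H lo hi) {m : ℝ} (hm : ∀ i, TF.mk m 0 ≠ R i) (c a b : ℝ) :
    SlabOK (f2K z R ρ c a b) m := by
  have h1 := D.slab_ww hm (c := fun _ => c) continuous_const (const_bd2 c) a b a b
  have h2 := D.slab_ww hm (c := fun _ => c) continuous_const (const_bd2 c) a b b a
  have e : f2K z R ρ c a b = fun x => c * (wt z R ρ a b x * wt z R ρ a b x) +
      c * (wt z R ρ a b x * wt z R ρ b a x) := by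
    funext x
    unfold f2K
    ring
  rw [e]
  exact h1.add h2

/-- the remainder as a function on the space -/
noncomputable def rK (z : Fin 2 → ℝ) (R : Fin 2 → X) (ρ : X → ℝ) (H : X → X →L[ℝ] X)
    (a b m w : ℝ) (x : X) : ℝ :=
  zR a b m w (wt z R ρ a b x) (wt z R ρ b a x) ⟪wt' z R ρ H a b x, e1⟫
      ⟪wt' z R ρ H a b x, es x⟫ ⟪wt' z R ρ H b a x, e1⟫ ⟪wt' z R ρ H b a x, es x⟫ (ht x) x.fst
      (rph m w x.fst) (ramp m w x.fst)

theorem Dat.cont_rK (D : Dat φ₀ z R ρ H lo hi) {m w : ℝ} (hw : 0 < w) (a b : ℝ) :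
    ContinuousOn (rK z R ρ H a b m w) Col.axᶜ := by
  have cq : ContinuousOn (fun x => wt z R ρ a b x) Col.axᶜ := (D.c1_wt a b).cont0
  have cp : ContinuousOn (fun x => wt z R ρ b a x) Col.axᶜ := (D.c1_wt b a).cont0
  have cqx : ContinuousOn (fun x => ⟪wt' z R ρ H a b x, e1⟫) Col.axᶜ := D.cont_wt'e a b
  have cpx : ContinuousOn (fun x => ⟪wt' z R ρ H b a x, e1⟫) Col.axᶜ := D.cont_wt'e b a
  have cqs : ContinuousOn (fun x => ⟪wt' z R ρ H a b x, es x⟫) Col.axᶜ :=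
    (D.c1_wt a b).cont.inner C1O.ht.cont
  have cps : ContinuousOn (fun x => ⟪wt' z R ρ H b a x, es x⟫) Col.axᶜ :=
    (D.c1_wt b a).cont.inner C1O.ht.cont
  have cs : ContinuousOn (fun x => (ht x)⁻¹) Col.axᶜ := C1O.ht_inv.cont0
  have ct : ContinuousOn (fun x : X => x.fst) Col.axᶜ := fst_continuous.continuousOn
  have cφ : ContinuousOn (fun x : X => rph m w x.fst) Col.axᶜ := by
    have h1 : Continuous (rph m w) :=
      continuous_iff_continuousAt.mpr fun t => (rph_deriv hw t).continuousAt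
    exact (h1.comp fst_continuous).continuousOn
  have cθ : ContinuousOn (fun x : X => ramp m w x.fst) Col.axᶜ :=
    ((ramp_cont hw).comp fst_continuous).continuousOn
  unfold rK zR zX zL zW
  simp only [div_eq_mul_inv]
  fun_prop

/-- **the error density, decomposed** -/
theorem Dat.cutErr_K2 (D : Dat φ₀ z R ρ H lo hi) {a b : ℝ} (ha : a = (R 0).fst)
    (hb : b = (R 1).fst) (hab : a ≠ b) {m w : ℝ} (hw : 0 < w) {x : X} (hx : x ∉ Col.ax) :
    cutErr φ₀ z R ρ H (eK z R ρ a b m w) (fK z R ρ a b m w)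
      (eK' z R ρ H a b m w) (fK' z R ρ H a b m w)
      (eKl φ₀ z R ρ H a b m w) (fKl φ₀ z R ρ H a b m w)
      (fun x => ramp m w x.fst) (fun x => ramp' m w x.fst • e1) x =
    2 * (b - m) ^ 2 * ((1 - ramp m w x.fst) * ((ht x)⁻¹ * (wt z R ρ b a x *
        ⟪wt' z R ρ H b a x, es x⟫))) +
      2 * (m - a) ^ 2 * (ramp m w x.fst * ((ht x)⁻¹ * (wt z R ρ a b x *
        ⟪wt' z R ρ H a b x, es x⟫))) -
      ramp' m w x.fst * f1K z R ρ H a b m x +
      2 * ((ramp' m w x.fst * (1 - ramp m w x.fst)) * f2K z R ρ (b - m) b a x) +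
      2 * ((ramp' m w x.fst * ramp m w x.fst) * f2K z R ρ (m - a) a b x) +
      ramp' m w x.fst * rK z R ρ H a b m w x := by
  have hs := ht_pos hx
  have hrot : (x.fst - a) * ⟪wt' z R ρ H a b x, es x⟫ - ht x * ⟪wt' z R ρ H a b x, e1⟫ +
      ((x.fst - b) * ⟪wt' z R ρ H b a x, es x⟫ - ht x * ⟪wt' z R ρ H b a x, e1⟫) = 0 := by
    have := D.rot_wt hab hx
    unfold rot at this
    exact this
  rw [D.cutErr_K ha hb hab m w x, zEr_eq hs.ne' hrot]
  by_cases h1 : |x.fst - m| < w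
  · have hr : ramp' m w x.fst = (2 * w)⁻¹ := by
      unfold ramp'
      rw [if_pos h1]
    have hr1 : ramp' m w x.fst * (2 * w) = 1 := by
      rw [hr]
      field_simp
    unfold rK zR zM f1K f2K
    linear_combination (-(zX a b m (wt z R ρ a b x) (wt z R ρ b a x) x.fst (rph m w x.fst)
      (ramp m w x.fst) * zL b m ⟪wt' z R ρ H a b x, e1⟫ ⟪wt' z R ρ H a b x, es x⟫
      ⟪wt' z R ρ H b a x, e1⟫ ⟪wt' z R ρ H b a x, es x⟫ (ht x) (rph m w x.fst)
      (ramp m w x.fst) - (2 * (b - m) ^ 2 * ((1 - ramp m w x.fst) * ((ht x)⁻¹ * (wt z R ρ b a x *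
        ⟪wt' z R ρ H b a x, es x⟫))) + 2 * (m - a) ^ 2 * (ramp m w x.fst * ((ht x)⁻¹ *
        (wt z R ρ a b x * ⟪wt' z R ρ H a b x, es x⟫)))))) * hr1
  · have hr : ramp' m w x.fst = 0 := by
      unfold ramp'
      rw [if_neg h1]
    rw [hr]
    have h2 : x.fst ≤ m - w ∨ m + w ≤ x.fst := by
      rw [abs_lt, not_and_or] at h1
      rcases h1 with h | h
      · left; linarith
      · right; linarith
    rcases h2 with h | h
    · rw [rph_left hw h, ramp_zero hw h, zX_left]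
      ring
    · rw [rph_right hw h, ramp_one hw h, zX_right hs.ne' hrot]
      ring

theorem Dat.rK_le (D : Dat φ₀ z R ρ H lo hi) {a b m w : ℝ} (ha : a ≤ m) (hb : m ≤ b)
    (hw : 0 < w) (hwD : w ≤ b - a) {x : X} (hx : x ∉ Col.ax) :
    |ramp' m w x.fst * rK z R ρ H a b m w x| ≤
      (100 * (b - a + 1) ^ 2) * w * (ramp' m w x.fst * gK z R ρ H a b x) := by
  have hr := ramp'_nonneg (m := m) (t := x.fst) hw
  rw [abs_mul, abs_of_nonneg hr]
  by_cases h1 : |x.fst - m| < w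
  · have hes : ‖es x‖ = 1 := norm_es hx
    have hin : ∀ v : X, |⟪v, es x⟫| ≤ ‖v‖ := fun v => by
      have := abs_real_inner_le_norm v (es x)
      rwa [hes, mul_one] at this
    have n1 := norm_nonneg (wt' z R ρ H a b x)
    have n2 := norm_nonneg (wt' z R ρ H b a x)
    have hφ : |rph m w x.fst| ≤ 2 * w := by
      refine (abs_rph_le m w x.fst).trans ?_
      rw [abs_lt] at h1
      rw [abs_le]
      constructor <;> linarith [h1.1, h1.2]
    have h2 := zR_le (a := a) (b := b) (m := m) (w := w) (q := wt z R ρ a b x)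
      (p := wt z R ρ b a x) (qx := ⟪wt' z R ρ H a b x, e1⟫) (qs := ⟪wt' z R ρ H a b x, es x⟫)
      (px := ⟪wt' z R ρ H b a x, e1⟫) (ps := ⟪wt' z R ρ H b a x, es x⟫) (s := ht x)
      (t := x.fst) (φ := rph m w x.fst) (θ := ramp m w x.fst)
      (P := ‖wt' z R ρ H a b x‖ + ‖wt' z R ρ H b a x‖) (ht_pos hx) ha hb hw hwD
      (ramp_nonneg _ _ _) (ramp_le_one _ _ _) hφ h1.le rfl
      ((abs_inner_e1_le _).trans (by linarith)) ((hin _).trans (by linarith))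
      ((abs_inner_e1_le _).trans (by linarith)) ((hin _).trans (by linarith))
    have h3 := mul_le_mul_of_nonneg_left h2 hr
    refine h3.trans (le_of_eq ?_)
    unfold gK
    ring
  · have h2 : ramp' m w x.fst = 0 := by
      unfold ramp'
      rw [if_neg h1]
    rw [h2, zero_mul, zero_mul, mul_zero]

/-- **the limit of thin slabs** -/
theorem Dat.lim_K (D : Dat φ₀ z R ρ H lo hi) (hz : ∀ i, 0 < z i)
    (hlt : (R 0).fst < (R 1).fst) {a b : ℝ} (ha : a = (R 0).fst)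
    (hb : b = (R 1).fst) {m : ℝ} (ham : a < m) (hmb : m < b)
    (hv : ∀ v : E2, ‖v‖ = 1 → 0 ≤ ∫ s in Ioi (0 : ℝ), s * Km z R ρ H a b m (TF.mk m (s • v)))
    {η : ℝ} (hη : 0 < η) : ∃ w : ℝ, 0 < w ∧ a < m - w ∧ m + w < b ∧
      (Integrable (cutErr φ₀ z R ρ H (eK z R ρ a b m w) (fK z R ρ a b m w)
        (eK' z R ρ H a b m w) (fK' z R ρ H a b m w)
        (eKl φ₀ z R ρ H a b m w) (fKl φ₀ z R ρ H a b m w)
        (fun x => ramp m w x.fst) (fun x => ramp' m w x.fst • e1))) ∧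
      ∫ x, cutErr φ₀ z R ρ H (eK z R ρ a b m w) (fK z R ρ a b m w)
        (eK' z R ρ H a b m w) (fK' z R ρ H a b m w)
        (eKl φ₀ z R ρ H a b m w) (fKl φ₀ z R ρ H a b m w)
        (fun x => ramp m w x.fst) (fun x => ramp' m w x.fst • e1) x ≤ η := by
  have hab : a < b := ham.trans hmb
  have hm : ∀ i, TF.mk m 0 ≠ R i := by
    intro i h
    have h1 : (TF.mk m (0 : E2)).fst = m := rfl
    rw [h] at h1
    fin_cases i
    · rw [Fin.zero_eta, ← ha] at h1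
      linarith
    · rw [Fin.mk_one, ← hb] at h1
      linarith
  obtain ⟨δ₁, g₁, B₁⟩ := (D.slab_f1K hm a b).slabB
  obtain ⟨δ₂, g₂, B₂⟩ := (D.slab_f2K hm (b - m) b a).slabB
  obtain ⟨δ₃, g₃, B₃⟩ := (D.slab_f2K hm (m - a) a b).slabB
  obtain ⟨δ₄, g₄, B₄⟩ := (D.slab_gK hm a b).slabB
  -- the integral over the plane
  have i1 := B₁.int_plane (τ := m) (by simpa using B₁.pos.le)
  have i2 := B₂.int_plane (τ := m) (by simpa using B₂.pos.le)
  have i3 := B₃.int_plane (τ := m) (by simpa using B₃.pos.le)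
  have hKm : ∀ x, Km z R ρ H a b m x = f1K z R ρ H a b m x - f2K z R ρ (b - m) b a x -
      f2K z R ρ (m - a) a b x := by
    intro x
    unfold Km f1K f2K
    ring
  obtain ⟨I₁, hI₁⟩ : ∃ I : ℝ, I = ∫ y : E2, f1K z R ρ H a b m (TF.mk m y) := ⟨_, rfl⟩
  obtain ⟨I₂, hI₂⟩ : ∃ I : ℝ, I = ∫ y : E2, f2K z R ρ (b - m) b a (TF.mk m y) := ⟨_, rfl⟩
  obtain ⟨I₃, hI₃⟩ : ∃ I : ℝ, I = ∫ y : E2, f2K z R ρ (m - a) a b (TF.mk m y) := ⟨_, rfl⟩
  obtain ⟨I₄, hI₄⟩ : ∃ I : ℝ, I = ∫ y : E2, gK z R ρ H a b (TF.mk m y) := ⟨_, rfl⟩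
  have hI : 0 ≤ I₁ - I₂ - I₃ := by
    have h1 : Integrable fun y : E2 => Km z R ρ H a b m (TF.mk m y) :=
      ((i1.sub i2).sub i3).congr (Eventually.of_forall fun y => (hKm _).symm)
    have h2 := plane_integral_nonneg h1 hv
    have h3 : ∫ y : E2, Km z R ρ H a b m (TF.mk m y) = I₁ - I₂ - I₃ := by
      have h4 : Integrable fun y : E2 => f1K z R ρ H a b m (TF.mk m y) -
        f2K z R ρ (b - m) b a (TF.mk m y) := i1.sub i2
      rw [hI₁, hI₂, hI₃, ← integral_sub i1 i2, ← integral_sub h4 i3]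
      exact integral_congr_ae (Eventually.of_forall fun y => hKm _)
    rwa [h3] at h2
  have hη8 : 0 < η / 8 := by positivity
  obtain ⟨w₁, hw₁, hδ₁, L₁⟩ := B₁.lim_k hη8
  obtain ⟨w₂, hw₂, hδ₂, L₂⟩ := B₂.lim_k hη8
  obtain ⟨w₃, hw₃, hδ₃, L₃⟩ := B₃.lim_k hη8
  obtain ⟨w₄, hw₄, hδ₄, L₄⟩ := B₄.lim_k one_pos
  obtain ⟨C, hC⟩ : ∃ C : ℝ, C = (100 * (b - a + 1) ^ 2) * (|I₄| + 1) := ⟨_, rfl⟩
  have hC0 : 0 < C := by
    rw [hC]
    have : 0 < b - a + 1 := by linarith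
    positivity
  obtain ⟨w, hwd⟩ : ∃ w : ℝ, w = min (min (min w₁ w₂) (min w₃ w₄))
    (min (min ((m - a) / 2) ((b - m) / 2)) (η / 8 / C)) := ⟨_, rfl⟩
  have hw : 0 < w := by
    rw [hwd]
    refine lt_min (lt_min (lt_min hw₁ hw₂) (lt_min hw₃ hw₄)) (lt_min (lt_min ?_ ?_) ?_)
    · linarith
    · linarith
    · positivity
  have l1 : w ≤ w₁ := hwd ▸ ((min_le_left _ _).trans (min_le_left _ _)).trans (min_le_left _ _)
  have l2 : w ≤ w₂ := hwd ▸ ((min_le_left _ _).trans (min_le_left _ _)).trans (min_le_right _ _)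
  have l3 : w ≤ w₃ := hwd ▸ ((min_le_left _ _).trans (min_le_right _ _)).trans (min_le_left _ _)
  have l4 : w ≤ w₄ := hwd ▸ ((min_le_left _ _).trans (min_le_right _ _)).trans (min_le_right _ _)
  have l5 : w ≤ (m - a) / 2 :=
    hwd ▸ ((min_le_right _ _).trans (min_le_left _ _)).trans (min_le_left _ _)
  have l6 : w ≤ (b - m) / 2 :=
    hwd ▸ ((min_le_right _ _).trans (min_le_left _ _)).trans (min_le_right _ _)
  have l7 : w ≤ η / 8 / C := hwd ▸ (min_le_right _ _).trans (min_le_right _ _)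
  have h0 : a < m - w := by linarith
  have h1 : m + w < b := by linarith
  refine ⟨w, hw, h0, h1, ?_⟩
  -- the weights
  have kk : ∀ t, |ramp' m w t| ≤ ramp' m w t := fun t => (abs_of_nonneg (ramp'_nonneg hw)).le
  have k1 : ∀ t, |ramp' m w t * (1 - ramp m w t)| ≤ ramp' m w t := fun t => by
    have g1 := ramp_nonneg m w t
    have g2 := ramp_le_one m w t
    rw [abs_mul, abs_of_nonneg (ramp'_nonneg hw), abs_of_nonneg (by linarith)]
    exact mul_le_of_le_one_right (ramp'_nonneg hw) (by linarith)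
  have k2 : ∀ t, |ramp' m w t * ramp m w t| ≤ ramp' m w t := fun t => by
    rw [abs_mul, abs_of_nonneg (ramp'_nonneg hw)]
    exact mul_le_of_le_one_right (ramp'_nonneg hw) (abs_ramp_le m w t)
  have m0 : Measurable (ramp' m w) := ramp'_meas m w
  have m1 : Measurable fun t => ramp' m w t * (1 - ramp m w t) :=
    m0.mul ((measurable_const).sub (ramp_cont hw).measurable)
  have m2 : Measurable fun t => ramp' m w t * ramp m w t := m0.mul (ramp_cont hw).measurable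
  have T₁ := L₁ w hw l1 _ m0 kk
  have T₂ := L₂ w hw l2 _ m1 k1
  have T₃ := L₃ w hw l3 _ m2 k2
  have T₄ := L₄ w hw l4 _ m0 kk
  rw [ramp'_integral hw, one_mul, ← hI₁] at T₁
  rw [ramp'_ramp_integral' hw, ← hI₂] at T₂
  rw [ramp'_ramp_integral hw, ← hI₃] at T₃
  rw [ramp'_integral hw, one_mul, ← hI₄] at T₄
  -- integrability
  have n1 := B₁.integrable_k hw (l1.trans hδ₁) m0 (C := 1) fun t => by rw [one_mul]; exact kk t
  have n2 := B₂.integrable_k hw (l2.trans hδ₂) m1 (C := 1) fun t => by rw [one_mul]; exact k1 t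
  have n3 := B₃.integrable_k hw (l3.trans hδ₃) m2 (C := 1) fun t => by rw [one_mul]; exact k2 t
  have n4 := B₄.integrable_k hw (l4.trans hδ₄) m0 (C := 1) fun t => by rw [one_mul]; exact kk t
  obtain ⟨⟨ka, ka'⟩, kb, kb'⟩ := D.kaxis_ramp hz hlt hw (ha ▸ h0) (hb ▸ h1)
  rw [← ha, ← hb] at ka ka' kb kb'
  have hbd : ∀ᵐ x : X, ‖ramp' m w x.fst * rK z R ρ H a b m w x‖ ≤
      (100 * (b - a + 1) ^ 2) * w * (ramp' m w x.fst * gK z R ρ H a b x) := by
    filter_upwards [ae_off_ax] with x hx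
    rw [Real.norm_eq_abs]
    exact D.rK_le ham.le hmb.le hw (by linarith) hx
  have n5 : Integrable fun x : X => ramp' m w x.fst * rK z R ρ H a b m w x :=
    (n4.const_mul ((100 * (b - a + 1) ^ 2) * w)).mono'
      ((meas_fst m0).aestronglyMeasurable.mul (aesm_of_cont (D.cont_rK hw a b))) hbd
  have T₅ : ∫ x : X, ramp' m w x.fst * rK z R ρ H a b m w x ≤ η / 8 := by
    have g1 := norm_integral_le_of_norm_le (n4.const_mul ((100 * (b - a + 1) ^ 2) * w)) hbd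
    rw [integral_const_mul, Real.norm_eq_abs] at g1
    have g2 : ∫ x : X, ramp' m w x.fst * gK z R ρ H a b x ≤ |I₄| + 1 := by
      have := (abs_le.mp T₄).2
      have := le_abs_self I₄
      linarith
    have hc : 0 ≤ (100 * (b - a + 1) ^ 2) * w := by positivity
    have g3 := mul_le_mul_of_nonneg_left g2 hc
    have g4 : (100 * (b - a + 1) ^ 2) * w * (|I₄| + 1) = w * C := by rw [hC]; ring
    rw [g4] at g3
    rw [le_div_iff₀ hC0] at l7
    have g5 := le_abs_self (∫ x : X, ramp' m w x.fst * rK z R ρ H a b m w x)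
    linarith
  obtain ⟨hint, hval⟩ := int6 (2 * (b - m) ^ 2) (2 * (m - a) ^ 2) kb ka n1 n2 n3 n5
  have hae := ae_off_ax.mono fun x hx =>
    D.cutErr_K2 (H := H) ha hb hab.ne (m := m) hw (x := x) hx
  refine ⟨hint.congr (hae.mono fun x hx => hx.symm), ?_⟩
  rw [integral_congr_ae hae, hval]
  have s1 := (abs_le.mp T₁).1
  have s2 := (abs_le.mp T₂).2
  have s3 := (abs_le.mp T₃).2
  have p1 : 2 * (b - m) ^ 2 * (∫ x : X, (1 - ramp m w x.fst) * ((ht x)⁻¹ *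
      (wt z R ρ b a x * ⟪wt' z R ρ H b a x, es x⟫))) ≤ 0 :=
    mul_nonpos_of_nonneg_of_nonpos (by positivity) kb'
  have p2 : 2 * (m - a) ^ 2 * (∫ x : X, ramp m w x.fst * ((ht x)⁻¹ *
      (wt z R ρ a b x * ⟪wt' z R ρ H a b x, es x⟫))) ≤ 0 :=
    mul_nonpos_of_nonneg_of_nonpos (by positivity) ka'
  linarith

end two

end Pool.Agent.TF.Col

namespace Pool.Agent.Lib.MP_9cf0c9_mp

open MeasureTheory Set Filter Topology Pool.Agent

open scoped RealInnerProductSpace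

/-- **the plane criterion**: for the charges with the (symmetric) property `P`, if for some plane
between the nuclei the integral of `Km` over the plane is nonnegative, then the target holds -/
theorem two_of_plane (P : (Fin 2 → ℝ) → Prop)
    (hP : ∀ z : Fin 2 → ℝ, P z → P fun i => z (Equiv.swap 0 1 i))
    (H : ∀ φ₀ : ℝ, 0 < φ₀ → ∀ z : Fin 2 → ℝ, (∀ i, 0 < z i) → z 1 ≤ z 0 → P z →
      ∀ R : Fin 2 → TF.X, (∀ i, R i ∈ TF.Col.ax) → (R 0).fst < (R 1).fst →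
      ∀ ρ : TF.X → ℝ, ∀ Hs : TF.X → TF.X →L[ℝ] TF.X,
      TF.Col.Dat φ₀ z R ρ Hs (R 0).fst (R 1).fst →
      ∃ m : ℝ, (R 0).fst < m ∧ m < (R 1).fst ∧ ∀ v : TF.E2, ‖v‖ = 1 →
        0 ≤ ∫ s in Ioi (0 : ℝ), s * TF.Col.Km z R ρ Hs (R 0).fst (R 1).fst m (TF.mk m (s • v)))
    (z : Fin 2 → ℝ) (hz : ∀ j, 0 ≤ z j) (hPz : (∀ i, 0 < z i) → P z) (R : Fin 2 → E3)
    (hR : Function.Injective R) (lam : ℝ) (hlam : 0 ≤ lam) : Target z R lam := by
  refine two_of_trialNP P hP (fun φ₀ hφ z hzp hzz hPz R hax hlt ρ Hs D η hη => ?_) z hz hPz R hR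
    lam hlam
  have hRi := injective_of_lt hlt
  obtain ⟨d, hd⟩ : ∃ d : ℝ, d = (R 1).fst - (R 0).fst := ⟨_, rfl⟩
  have hd0 : 0 < d := by rw [hd]; linarith
  obtain ⟨m, ham, hmb, hv⟩ := H φ₀ hφ z hzp hzz hPz R hax hlt ρ Hs D
  obtain ⟨w, hw, h0, h1, hI, hle⟩ := D.lim_K hzp hlt rfl rfl ham hmb hv
    (show 0 < η / d ^ 2 by positivity)
  have hPE := D.pairK hzp hRi hlt hw h0 h1
  have hC := TF.Col.cutF_ramp (R := R) hw h0 h1
  obtain ⟨e0, he0⟩ := hPE.regl.nuc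
  obtain ⟨f0, hf0⟩ := hPE.regr.nuc
  obtain ⟨dd, hJ⟩ := hPE.certN D hzp hlt hC hI hd he0 hf0
  have hT := hPE.trLoc D hzp hRi hd he0 hf0
  refine ⟨_, _, _, _, _, _, _, _, _, _, ?_, (hT.trY hRi).toL, hJ⟩
  have h2 : d ^ 2 * (η / d ^ 2) = η := by field_simp
  nlinarith [mul_le_mul_of_nonneg_left hle (sq_nonneg d)]

end Pool.Agent.Lib.MP_9cf0c9_mp

end

section
/-! Two nuclei whose charges have a ratio at most `34/5`: the planes from the middle to the zero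
of the axial field together. -/

set_option autoImplicit false

set_option linter.unusedSectionVars false

set_option linter.unusedVariables false

namespace Pool.Agent.TF.Grd
end Pool.Agent.TF.Grd

namespace Pool.Agent
end Pool.Agent

namespace Pool.Agent.TF.Col

open MeasureTheory Set Metric Filter Topology

open scoped ENNReal NNReal RealInnerProductSpace Gradient

open Pool.Agent.TF.Grd

/-- the charges -/
theorem fin_charges {z0 z1 : ℝ} (h1 : 0 < z1) (h10 : z1 ≤ z0) (h : 5 * z0 ≤ 34 * z1) :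
    (z0 - z1) / (z0 + z1) * ((z0 / z1 - z1 / z0) / 2) ≤ 2 * ((z0 - z1) / (z0 + z1)) + 1 := by
  have h0 : 0 < z0 := h1.trans_le h10
  have e1' : (z0 - z1) / (z0 + z1) * ((z0 / z1 - z1 / z0) / 2) = (z0 - z1) ^ 2 / (2 * z0 * z1) := by
    field_simp
    ring
  have e2' : 2 * ((z0 - z1) / (z0 + z1)) + 1 = (3 * z0 - z1) / (z0 + z1) := by
    field_simp
    ring
  rw [e1', e2', div_le_div_iff₀ (by positivity) (by positivity)]
  -- `(ρ - 1) ^ 2 (ρ + 1) ≤ 2 ρ (3 ρ - 1)` for `1 ≤ ρ ≤ 34 / 5`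
  nlinarith [mul_nonneg (sub_nonneg.mpr h10) (sub_nonneg.mpr h), mul_pos h0 h1,
    mul_nonneg (mul_nonneg (sub_nonneg.mpr h10) (sub_nonneg.mpr h)) h1.le,
    mul_nonneg (mul_nonneg (sub_nonneg.mpr h10) (sub_nonneg.mpr h)) h0.le, pow_pos h1 3,
    mul_nonneg (sub_nonneg.mpr h10) (mul_pos h1 h1).le]

/-- the contradiction -/
theorem fin_core {h τ κ C N K0 K1 I1 : ℝ} (hh : 0 < h) (hτ : 0 ≤ τ) (hτh : τ < h) (hκ : 0 ≤ κ)
    (hC : κ * C ≤ 2 * κ + 1) (hN : 0 ≤ N) (MC : K0 ≤ C * N)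
    (SD : 2 * h * N - 2 * τ * K1 ≤ 2 * h * I1) (hI : I1 < 0)
    (SL : (κ * h + τ) * ((h + τ) * (h - τ)) * K1 - κ * h * (h * h) * K0 ≤
      -(2 * h * N * (κ * h * τ + τ ^ 2 / 2))) : False := by
  have hI2 : 2 * h * I1 < 0 := by nlinarith
  rcases hτ.eq_or_lt with h0 | h0
  · rw [← h0] at SD
    nlinarith [mul_nonneg hh.le hN]
  · have h1 : h * N < τ * K1 := by linarith
    have h2 : 0 < (κ * h + τ) * ((h + τ) * (h - τ)) := by
      have : 0 ≤ κ * h := mul_nonneg hκ hh.le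
      have h3 : 0 < κ * h + τ := by linarith
      have h4 : 0 < h - τ := by linarith
      positivity
    have h3 := mul_lt_mul_of_pos_left h1 h2
    have h4 : κ * h * (h * h) * τ * K0 ≤ κ * h * (h * h) * τ * (C * N) :=
      mul_le_mul_of_nonneg_left MC (by positivity)
    have h5 := mul_le_mul_of_nonneg_left SL h0.le
    have h6 : N * h * (h * (κ * (h - τ) ^ 2 + τ * h * (2 * κ + 1 - κ * C))) < 0 := by
      have e : N * h * (h * (κ * (h - τ) ^ 2 + τ * h * (2 * κ + 1 - κ * C))) =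
          (κ * h + τ) * ((h + τ) * (h - τ)) * (h * N) - κ * h * (h * h) * τ * (C * N) +
            2 * h * N * (κ * h * τ + τ ^ 2 / 2) * τ := by ring
      rw [e]
      nlinarith
    have h7 : 0 ≤ N * h * (h * (κ * (h - τ) ^ 2 + τ * h * (2 * κ + 1 - κ * C))) := by
      have : 0 ≤ 2 * κ + 1 - κ * C := by linarith
      positivity
    exact absurd h6 (not_lt.mpr h7)

section two

variable {φ₀ : ℝ} {z : Fin 2 → ℝ} {R : Fin 2 → X} {ρ : X → ℝ} {H : X → X →L[ℝ] X} {lo hi : ℝ}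

/-- the averaged inequality for the planes from the middle to `t₁` -/
def SlabIneq (z : Fin 2 → ℝ) (R : Fin 2 → X) (ρ : X → ℝ) (H : X → X →L[ℝ] X) (κ m : ℝ)
    (v : E2) : Prop :=
  ∀ t₁ : ℝ, m ≤ t₁ → t₁ < (R 1).fst →
    (∀ t : ℝ, m ≤ t → t ≤ t₁ →
      ∫ s in Ioi (0 : ℝ), s * Km z R ρ H (R 0).fst (R 1).fst t (TF.mk t (s • v)) ≤ 0) →
    (κ * (((R 1).fst - (R 0).fst) / 2) + (t₁ - m)) * ((t₁ - (R 0).fst) * ((R 1).fst - t₁)) *
        (∫ s in Ioi (0 : ℝ), s * (E1 z R ρ (TF.mk t₁ (s • v)) * pf z R ρ (TF.mk t₁ (s • v)))) -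
      κ * (((R 1).fst - (R 0).fst) / 2) * ((m - (R 0).fst) * ((R 1).fst - m)) *
        (∫ s in Ioi (0 : ℝ), s * (E1 z R ρ (TF.mk m (s • v)) * pf z R ρ (TF.mk m (s • v)))) ≤
      -(((R 1).fst - (R 0).fst) * (∫ s in Ioi (0 : ℝ), s ^ 3 *
          jD z R ρ H (R 0).fst (R 1).fst (TF.mk m (s • v))) *
        (κ * (((R 1).fst - (R 0).fst) / 2) * (t₁ - m) + (t₁ - m) ^ 2 / 2))

/-- **one of the planes is good** -/
theorem Dat.plane34 (D : Dat φ₀ z R ρ H lo hi) (hz : ∀ i, 0 < z i)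
    (hR : Function.Injective R) (h10 : z 1 ≤ z 0) (hlt : (R 0).fst < (R 1).fst)
    (hch : 5 * z 0 ≤ 34 * z 1) {v : E2} (hv : ‖v‖ = 1)
    (SL : SlabIneq z R ρ H ((z 0 - z 1) / (z 0 + z 1)) (((R 0).fst + (R 1).fst) / 2) v) :
    ∃ t, (R 0).fst < t ∧ t < (R 1).fst ∧
      0 ≤ ∫ s in Ioi (0 : ℝ), s * Km z R ρ H (R 0).fst (R 1).fst t (TF.mk t (s • v)) := by
  obtain ⟨t₁, hm, hb, hE, -⟩ := D.exists_saddle hz hR h10 hlt
  by_contra hcon
  push Not at hcon
  have hI := hcon t₁ (by linarith) hb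
  have hSL := SL t₁ hm hb fun t h1 h2 => (hcon t (by linarith) (by linarith)).le
  have hsd := D.sd hz hlt (t := t₁) (by linarith) hb hv
  obtain ⟨hN, hmc⟩ := D.mc hz h10 hlt hv
  have hfl := D.flux_const3 hlt (m := t₁) (n := ((R 0).fst + (R 1).fst) / 2) (by linarith) hb
    (by linarith) (by linarith) hv
  change ∫ s in Ioi (0 : ℝ), s ^ 3 * jD z R ρ H (R 0).fst (R 1).fst (TF.mk t₁ (s • v)) =
    ∫ s in Ioi (0 : ℝ), s ^ 3 * jD z R ρ H (R 0).fst (R 1).fst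
      (TF.mk (((R 0).fst + (R 1).fst) / 2) (s • v)) at hfl
  rw [hE, hfl] at hsd
  have hsum : 0 < z 0 + z 1 := add_pos (hz 0) (hz 1)
  obtain ⟨m, hmd⟩ : ∃ m, m = ((R 0).fst + (R 1).fst) / 2 := ⟨_, rfl⟩
  obtain ⟨h, hh⟩ : ∃ h, h = ((R 1).fst - (R 0).fst) / 2 := ⟨_, rfl⟩
  obtain ⟨τ, hτ⟩ : ∃ τ, τ = t₁ - m := ⟨_, rfl⟩
  rw [← hmd] at hSL hsd hN hmc hm
  have e1' : t₁ - (R 0).fst = h + τ := by rw [hτ, hmd, hh]; ring
  have e2' : (R 1).fst - t₁ = h - τ := by rw [hτ, hmd, hh]; ring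
  have e3' : m - (R 0).fst = h := by rw [hmd, hh]; ring
  have e4' : (R 1).fst - m = h := by rw [hmd, hh]; ring
  have e5' : (R 1).fst - (R 0).fst = 2 * h := by rw [hh]; ring
  rw [← hh, ← hτ, e1', e2', e3', e4', e5'] at hSL
  rw [e1', e2', e5'] at hsd
  refine fin_core (h := h) (τ := τ) (κ := (z 0 - z 1) / (z 0 + z 1))
    (C := (z 0 / z 1 - z 1 / z 0) / 2) (by rw [hh]; linarith) (by rw [hτ]; linarith)
    (by linarith) (div_nonneg (by linarith) hsum.le) (fin_charges (hz 1) h10 hch) hN hmc ?_ hI hSL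
  refine le_trans (le_of_eq ?_) hsd
  ring

end two

end Pool.Agent.TF.Col

namespace Pool.Agent.Lib.MP_9cf0c9_mp

open MeasureTheory Set Filter Topology Pool.Agent

open scoped RealInnerProductSpace

/-- **two nuclei whose charges have a ratio at most `34/5`**, given the averaged inequality -/
theorem two_of_ratio34_of
    (SL : ∀ φ₀ : ℝ, 0 < φ₀ → ∀ z : Fin 2 → ℝ, (∀ i, 0 < z i) → z 1 ≤ z 0 →
      ∀ R : Fin 2 → TF.X, (∀ i, R i ∈ TF.Col.ax) → Function.Injective R →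
      (R 0).fst < (R 1).fst →
      ∀ ρ : TF.X → ℝ, ∀ Hs : TF.X → TF.X →L[ℝ] TF.X,
      TF.Col.Dat φ₀ z R ρ Hs (R 0).fst (R 1).fst → ∀ v : TF.E2, ‖v‖ = 1 →
      TF.Col.SlabIneq z R ρ Hs ((z 0 - z 1) / (z 0 + z 1)) (((R 0).fst + (R 1).fst) / 2) v)
    (z : Fin 2 → ℝ) (hz : ∀ j, 0 ≤ z j) (h01 : 5 * z 0 ≤ 34 * z 1) (h10 : 5 * z 1 ≤ 34 * z 0)
    (R : Fin 2 → E3) (hR : Function.Injective R) (lam : ℝ) (hlam : 0 ≤ lam) :
    Target z R lam := by
  refine two_of_plane (fun z => 5 * z 0 ≤ 34 * z 1 ∧ 5 * z 1 ≤ 34 * z 0) (fun z h => ?_) ?_ z hz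
    (fun _ => ⟨h01, h10⟩) R hR lam hlam
  · simp only [Equiv.swap_apply_left, Equiv.swap_apply_right]
    exact ⟨h.2, h.1⟩
  intro φ₀ hφ z hzp hzz hP R hax hlt ρ Hs D
  have hRi := injective_of_lt hlt
  obtain ⟨v, hv⟩ : ∃ v : TF.E2, ‖v‖ = 1 := exists_norm_eq TF.E2 zero_le_one
  obtain ⟨t, h1, h2, h3⟩ := D.plane34 hzp hRi hzz hlt hP.1 hv
    (SL φ₀ hφ z hzp hzz R hax hRi hlt ρ Hs D v hv)
  refine ⟨t, h1, h2, fun w hw => ?_⟩
  rw [D.Km_ray _ _ _ _ hw hv]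
  exact h3

end Pool.Agent.Lib.MP_9cf0c9_mp

end

section
/-! Two nuclei whose charges have a ratio at most `34/5`. -/

set_option autoImplicit false

set_option linter.unusedSectionVars false

set_option linter.unusedVariables false

namespace Pool.Agent.TF.Grd
end Pool.Agent.TF.Grd

namespace Pool.Agent
end Pool.Agent

namespace Pool.Agent.TF.Col

open MeasureTheory Set Metric Filter Topology

open scoped ENNReal NNReal RealInnerProductSpace Gradient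

open Pool.Agent.TF.Grd

variable {φ₀ : ℝ} {z : Fin 2 → ℝ} {R : Fin 2 → X} {ρ : X → ℝ} {H : X → X →L[ℝ] X} {lo hi : ℝ}

/-- the averaged inequality -/
theorem Dat.slabIneq (D : Dat φ₀ z R ρ H lo hi) (hz : ∀ i, 0 < z i)
    (hR : Function.Injective R) (h10 : z 1 ≤ z 0) (hlt : (R 0).fst < (R 1).fst)
    {v : E2} (hv : ‖v‖ = 1) :
    SlabIneq z R ρ H ((z 0 - z 1) / (z 0 + z 1)) (((R 0).fst + (R 1).fst) / 2) v := by
  intro t₁ h1 h2 hI
  have hsum : 0 < z 0 + z 1 := add_pos (hz 0) (hz 1)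
  refine D.slabK0 hlt (by linarith) h1 h2
    (mul_nonneg (div_nonneg (by linarith) hsum.le) (by linarith)) (fun x hx h3 _ => ?_) hv hI
  exact D.E1_le_ratio hz hR h10 hlt hx h3

end Pool.Agent.TF.Col

namespace Pool.Agent.Lib.MP_9cf0c9_mp

open MeasureTheory Set Filter Topology Pool.Agent

open scoped RealInnerProductSpace

/-- **two nuclei whose charges have a ratio at most `34/5`** -/
theorem two_of_ratio34 (z : Fin 2 → ℝ) (hz : ∀ j, 0 ≤ z j) (h01 : 5 * z 0 ≤ 34 * z 1)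
    (h10 : 5 * z 1 ≤ 34 * z 0) (R : Fin 2 → E3) (hR : Function.Injective R) (lam : ℝ)
    (hlam : 0 ≤ lam) : Target z R lam :=
  two_of_ratio34_of (fun φ₀ hφ z hzp hzz R hax hRi hlt ρ Hs D v hv =>
    D.slabIneq hzp hRi hzz hlt hv) z hz h01 h10 R hR lam hlam

end Pool.Agent.Lib.MP_9cf0c9_mp

end

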