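import Mathlib
import Pool.Agent.Lib.MP_9cf0c9_mp.Tr.BaseA
/-! The pointwise inequality of the calibration in the interior `r ≤ r₀` of the isolated ion.

With `t = log r`, `X = q/r`, `P₀ = 4πr²ρ(ψ₀)`, `E₀ = 4πr²γ(ψ₀)`, `w = p - ψ₀(r)` and any `ξ`,
`G = X + w`, `h = 2X + P₀ - ξ - w`, `gg = X(2X + 2P₀ - ξ) + (2P₀ + X + X E₀ + ξ_t) w`. -/

set_option autoImplicit false

set_option linter.unusedSectionVars false

set_option linter.unusedVariables false

namespace Pool.Agent.TF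

open MeasureTheory Set Metric Filter Topology

theorem tf_sq {s : ℝ} (hs : 0 ≤ s) : tf (s ^ 2) = s ^ 3 := by
  unfold tf
  rw [max_eq_left (sq_nonneg s), Real.sqrt_sq hs]
  ring

namespace Ion

variable {z φ₀ : ℝ} {ψ q : ℝ → ℝ}

end Ion

namespace Ion

variable {z φ₀ : ℝ} {ψ q ξ ξ₁ : ℝ → ℝ} {ξ₂ : ℝ}

end Ion

end Pool.Agent.TF
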