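import Mathlib
import Pool.Agent.Lib.MP_9cf0c9_mp.Tr.Calib
import Pool.Agent.Lib.MP_9cf0c9_mp.Tr.IonA
/-! Definitions for the light case: the parts of the field of an isolated ion. -/

set_option autoImplicit false

namespace Pool.Agent.TF

open MeasureTheory

/-- the number of electrons of the isolated ion -/
noncomputable def ionN (z p : ℝ) : ℝ := ∫ x, ionρ z p x

/-- `X = q / r` -/
noncomputable def ionX (z p : ℝ) (x : X) : ℝ := ionq z p ‖x‖ * ‖x‖⁻¹

/-- `n = (z - q) / r` -/
noncomputable def ionn (z p : ℝ) (x : X) : ℝ := (z - ionq z p ‖x‖) * ‖x‖⁻¹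

/-- `f = gam(ψ) X` -/
noncomputable def ionf (z p : ℝ) (x : X) : ℝ := gam (ionψ z p ‖x‖) * ionX z p x

end Pool.Agent.TF
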