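import Mathlib
import Pool.Agent.Lib.MP_9cf0c9_mp.Tr.Inside
import Pool.Agent.Lib.MP_9cf0c9_mp.Tr.IonA
/-! Explicit bounds of the number of electrons of the isolated ion and of a molecule in terms of
the chemical potential. -/

set_option autoImplicit false

set_option linter.unusedSectionVars false

set_option linter.unusedVariables false

set_option linter.style.haveILetI false

namespace Pool.Agent.TF.Light

open MeasureTheory Set Metric Filter Topology Real

/-! ### one elementary integral -/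

theorem prim_deriv (t : ℝ) : HasDerivAt (fun t : ℝ => t / 16 + sin t * cos t / 16 +
    sin t * cos t ^ 3 / 24 - sin t * cos t ^ 5 / 6) (sin t ^ 2 * cos t ^ 4) t := by
  have hs := hasDerivAt_sin t
  have hc := hasDerivAt_cos t
  have h1 := (hasDerivAt_id' t).div_const 16
  have h2 := (hs.mul hc).div_const 16
  have h3 := (hs.mul (hc.pow 3)).div_const 24
  have h4 := (hs.mul (hc.pow 5)).div_const 6
  have h := ((h1.add h2).add h3).sub h4
  refine h.congr_deriv ?_
  have e : sin t ^ 2 = 1 - cos t ^ 2 := by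
    have := sin_sq_add_cos_sq t
    linarith
  simp only [Nat.add_one_sub_one, Nat.cast_ofNat, Pi.pow_apply]
  have e4 : sin t * -sin t = cos t ^ 2 - 1 := by
    have : sin t * -sin t = -(sin t ^ 2) := by ring
    rw [this, e]; ring
  have e5 : ∀ a : ℝ, sin t * (a * -sin t) = a * (cos t ^ 2 - 1) := by
    intro a
    rw [← e4]; ring
  rw [e4, e5, e5, e]
  ring

theorem int_sc : ∫ t in Ioo (0 : ℝ) (π / 2), sin t ^ 2 * cos t ^ 4 = π / 32 := by
  rw [← integral_Ioc_eq_integral_Ioo, ← intervalIntegral.integral_of_le (by positivity)]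
  rw [intervalIntegral.integral_eq_sub_of_hasDerivAt (fun t _ => prim_deriv t)
    (Continuous.intervalIntegrable (by fun_prop) _ _)]
  rw [cos_pi_div_two, sin_zero]
  ring

/-- the map `t ↦ a sin² t` -/
theorem image_sq {a : ℝ} (ha : 0 < a) :
    (fun t : ℝ => a * sin t ^ 2) '' Ioo (0 : ℝ) (π / 2) = Ioo 0 a := by
  ext s
  constructor
  · rintro ⟨t, ht, rfl⟩
    have h1 : 0 < sin t := sin_pos_of_pos_of_lt_pi ht.1 (by linarith [ht.2, pi_pos])
    have h2 : 0 < cos t := cos_pos_of_mem_Ioo ⟨by linarith [ht.1, pi_pos], ht.2⟩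
    have h3 := sin_sq_add_cos_sq t
    constructor
    · simp only
      positivity
    · simp only
      nlinarith [pow_pos h2 2]
  · rintro ⟨h0, h1⟩
    have hu0 : 0 < √(s / a) := sqrt_pos.mpr (by positivity)
    have hu1 : √(s / a) < 1 := by
      rw [sqrt_lt' one_pos, one_pow, div_lt_one ha]
      exact h1
    refine ⟨arcsin √(s / a), ⟨arcsin_pos.mpr hu0, arcsin_lt_pi_div_two.mpr hu1⟩, ?_⟩
    simp only
    rw [sin_arcsin (by linarith) hu1.le, sq_sqrt (by positivity)]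
    field_simp

theorem inj_sq {a : ℝ} (ha : 0 < a) :
    InjOn (fun t : ℝ => a * sin t ^ 2) (Ioo (0 : ℝ) (π / 2)) := by
  intro s hs t ht h
  simp only at h
  have h1 : 0 < sin t := sin_pos_of_pos_of_lt_pi ht.1 (by linarith [ht.2, pi_pos])
  have h2 : 0 < sin s := sin_pos_of_pos_of_lt_pi hs.1 (by linarith [hs.2, pi_pos])
  have h3 : sin s ^ 2 = sin t ^ 2 := mul_left_cancel₀ ha.ne' h
  have h4 : sin s = sin t := by
    rwa [sq_eq_sq₀ h2.le h1.le] at h3
  exact injOn_sin ⟨by linarith [hs.1, pi_pos], hs.2.le⟩ ⟨by linarith [ht.1, pi_pos], ht.2.le⟩ h4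

/-- the integral of the bare Coulomb density over the ball -/
theorem radial_coulomb {q φ : ℝ} (hq : 0 < q) (hφ : 0 < φ) :
    ∫ s in Ioi (0 : ℝ), 4 * π * s ^ 2 * tf (q * s⁻¹ - φ) = π ^ 2 / 4 * q ^ 3 / (φ * √φ) := by
  set a : ℝ := q / φ with ha
  have ha0 : 0 < a := by positivity
  have hqa : q = a * φ := by rw [ha]; field_simp
  have h1 : ∫ s in Ioi (0 : ℝ), 4 * π * s ^ 2 * tf (q * s⁻¹ - φ) =
      ∫ s in Ioo (0 : ℝ) a, 4 * π * s ^ 2 * tf (q * s⁻¹ - φ) := by
    rw [← integral_indicator measurableSet_Ioi, ← integral_indicator measurableSet_Ioo]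
    refine integral_congr_ae (Eventually.of_forall fun s => ?_)
    simp only [indicator_apply, mem_Ioi, mem_Ioo]
    by_cases h2 : 0 < s
    · by_cases h3 : s < a
      · simp [h2, h3]
      · simp only [h2, h3, and_false, if_true, if_false]
        rw [tf_of_nonpos, mul_zero]
        push Not at h3
        rw [hqa]
        have : a * s⁻¹ ≤ 1 := by
          rw [← div_eq_mul_inv, div_le_one h2]
          exact h3
        nlinarith
    · simp [h2]
  rw [h1, ← image_sq ha0, integral_image_eq_integral_abs_deriv_smul measurableSet_Ioo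
    (f' := fun t => a * (2 * sin t * cos t)) (fun t ht => ?_) (inj_sq ha0)]
  · have h2 : ∀ t ∈ Ioo (0 : ℝ) (π / 2), |a * (2 * sin t * cos t)| •
        (4 * π * (a * sin t ^ 2) ^ 2 * tf (q * (a * sin t ^ 2)⁻¹ - φ)) =
        8 * π * a ^ 3 * (φ * √φ) * (sin t ^ 2 * cos t ^ 4) := by
      intro t ht
      have hs : 0 < sin t := sin_pos_of_pos_of_lt_pi ht.1 (by linarith [ht.2, pi_pos])
      have hc : 0 < cos t := cos_pos_of_mem_Ioo ⟨by linarith [ht.1, pi_pos], ht.2⟩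
      have h3 := sin_sq_add_cos_sq t
      have h4 : q * (a * sin t ^ 2)⁻¹ - φ = (√φ * (cos t / sin t)) ^ 2 := by
        rw [mul_pow, sq_sqrt hφ.le, hqa, div_pow]
        have : cos t ^ 2 = 1 - sin t ^ 2 := by linarith
        rw [this]
        field_simp
      rw [h4, tf_sq (by positivity), abs_of_pos (by positivity), smul_eq_mul]
      have h5 : √φ ^ 3 = φ * √φ := by
        rw [pow_succ, sq_sqrt hφ.le]
      rw [mul_pow (√φ), h5]
      field_simp
      ring
    rw [setIntegral_congr_fun measurableSet_Ioo h2, integral_const_mul, int_sc, ha]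
    field_simp
    rw [sq_sqrt hφ.le]
    ring
  · have h5 := ((hasDerivAt_sin t).pow 2).const_mul a
    refine (h5.congr_deriv ?_).hasDerivWithinAt
    simp only [Nat.add_one_sub_one, Nat.cast_ofNat, pow_one]

theorem int_coulomb {q φ : ℝ} (hq : 0 ≤ q) (hφ : 0 < φ) :
    Integrable (fun x : X => tf (q * ‖x‖⁻¹ - φ)) ∧
      ∫ x : X, tf (q * ‖x‖⁻¹ - φ) = π ^ 2 / 4 * q ^ 3 / (φ * √φ) := by
  rcases hq.eq_or_lt with h | h
  · subst h
    have e : (fun x : X => tf (0 * ‖x‖⁻¹ - φ)) = fun _ => 0 := by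
      funext x
      rw [tf_of_nonpos]
      linarith
    rw [e]
    refine ⟨integrable_zero _ _ _, ?_⟩
    simp
  · have h1 : ∫ x : X, tf (q * ‖x‖⁻¹ - φ) = π ^ 2 / 4 * q ^ 3 / (φ * √φ) := by
      rw [integral_radial (fun s => tf (q * s⁻¹ - φ))]
      exact radial_coulomb h hφ
    refine ⟨?_, h1⟩
    by_contra hn
    rw [integral_undef hn] at h1
    have : 0 < π ^ 2 / 4 * q ^ 3 / (φ * √φ) := by positivity
    linarith

/-! ### the isolated ion -/

/-- the potential of a nonnegative radial density is at most its mass over the distance -/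
theorem pot_le_mass {F : ℝ → ℝ} (hF : Measurable F) (hF0 : ∀ s, 0 ≤ F s)
    (hi : Integrable fun y : X => F ‖y‖) {x : X} (hx : x ≠ 0) :
    pot (fun y : X => F ‖y‖) x ≤ (∫ y : X, F ‖y‖) * ‖x‖⁻¹ := by
  have hn : 0 < ‖x‖ := norm_pos_iff.mpr hx
  rw [pot_radial hF hF0 hx, integral_radial, ← integral_mul_const]
  have h1 := (integrable_radial_iff (V := X) F).mp hi
  have h2 : Integrable (fun s => 4 * π * s ^ 2 * F s * ‖x‖⁻¹) (volume.restrict (Ioi 0)) :=
    h1.mul_const _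
  refine integral_mono_of_nonneg ?_ h2 ?_
  · refine Eventually.of_forall fun s => ?_
    simp only [Pi.zero_apply]
    have : 0 < max s ‖x‖ := lt_of_lt_of_le hn (le_max_right _ _)
    have := hF0 s
    positivity
  · refine Eventually.of_forall fun s => ?_
    simp only
    have h3 : 4 * π * s ^ 2 / max s ‖x‖ ≤ 4 * π * s ^ 2 * ‖x‖⁻¹ := by
      rw [div_eq_mul_inv]
      refine mul_le_mul_of_nonneg_left ?_ (by positivity)
      exact inv_anti₀ hn (le_max_right _ _)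
    calc 4 * π * s ^ 2 / max s ‖x‖ * F s ≤ 4 * π * s ^ 2 * ‖x‖⁻¹ * F s :=
          mul_le_mul_of_nonneg_right h3 (hF0 s)
      _ = 4 * π * s ^ 2 * F s * ‖x‖⁻¹ := by ring

/-- the mass bound of the isolated ion -/
noncomputable def Nb (z φ : ℝ) : ℝ := π ^ 2 / 4 * z ^ 3 / (φ * √φ)

theorem ae_ne : ∀ᵐ x : X, x ≠ 0 := by
  haveI := nontriv (V := X)
  rw [ae_iff]
  simp

/-- the number of electrons of the isolated ion is at most `π²/4 z³ φ^(-3/2)` -/
theorem ion_mass_le {z φ : ℝ} (hz : 0 ≤ z) (hφ : 0 < φ) : ∫ x, ionρ z φ x ≤ Nb z φ := by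
  obtain ⟨h1, h2⟩ := ionρ_spec hz hφ
  obtain ⟨h3, h4⟩ := int_coulomb hz hφ
  unfold Nb
  rw [← h4]
  refine integral_mono h1.int h3 fun x => ?_
  simp only
  rw [h2 x]
  refine tf_mono ?_
  have : 0 ≤ pot (ionρ z φ) x := by
    unfold pot
    exact integral_nonneg fun y => mul_nonneg (by positivity) (h1.nonneg y)
  linarith

/-- the potential of the electrons of the isolated ion -/
theorem ion_pot_le {z φ : ℝ} (hz : 0 ≤ z) (hφ : 0 < φ) {x : X} (hx : x ≠ 0) :
    pot (ionρ z φ) x ≤ (∫ y, ionρ z φ y) * ‖x‖⁻¹ := by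
  obtain ⟨h1, h2⟩ := ionρ_spec hz hφ
  obtain ⟨hI, h3, h4, h5, h6⟩ := ion_all hz hφ
  -- a measurable radial profile of the density
  have hre : ∀ r : ℝ, 0 ≤ r → ‖r • e1‖ = r := by
    intro r hr
    rw [norm_smul, norm_e1', mul_one, Real.norm_of_nonneg hr]
  set F : ℝ → ℝ := fun r => ionρ z φ (r • e1) with hF
  have hFm : Measurable F := h1.meas.comp (measurable_id.smul_const _)
  have hF0 : ∀ r, 0 ≤ F r := fun r => h1.nonneg _
  have hρ : ∀ y : X, y ≠ 0 → ionρ z φ y = F ‖y‖ := by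
    intro y hy
    have hn : 0 < ‖y‖ := norm_pos_iff.mpr hy
    have hne : ‖y‖ • e1 ≠ (0 : X) := by
      rw [← norm_ne_zero_iff, hre _ hn.le]
      exact hn.ne'
    simp only [hF]
    rw [h4 y hy, h4 _ hne, hre _ hn.le]
  have hae : ionρ z φ =ᵐ[volume] fun y => F ‖y‖ := by
    filter_upwards [ae_ne] with y hy
    exact hρ y hy
  have hpot : pot (ionρ z φ) = pot (fun y : X => F ‖y‖) := pot_congr_ae hae
  have hint : Integrable fun y : X => F ‖y‖ := h1.int.congr hae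
  rw [hpot, integral_congr_ae hae]
  exact pot_le_mass hFm hF0 hint hx

/-- pointwise lower bound of the profile of the isolated ion -/
theorem ionψ_ge {z φ : ℝ} (hz : 0 ≤ z) (hφ : 0 < φ) {r : ℝ} (hr : 0 < r) :
    (z - ∫ y, ionρ z φ y) * r⁻¹ - φ ≤ ionψ z φ r := by
  have hre : ‖r • e1‖ = r := by
    rw [norm_smul, norm_e1', mul_one, Real.norm_of_nonneg hr.le]
  have hne : r • e1 ≠ (0 : X) := by
    rw [← norm_ne_zero_iff, hre]
    exact hr.ne'
  have h1 := ion_pot_le hz hφ hne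
  have h2 := (ion_all hz hφ).2.1 _ hne
  rw [hre] at h1 h2
  rw [← h2]
  linarith

/-- lower bound of the number of electrons of the isolated ion in terms of its net charge -/
theorem ion_mass_ge {z φ : ℝ} (hz : 0 ≤ z) (hφ : 0 < φ) :
    Nb (z - ∫ y, ionρ z φ y) φ ≤ ∫ y, ionρ z φ y := by
  obtain ⟨h1, h2⟩ := ionρ_spec hz hφ
  have h0 : 0 ≤ ∫ y, ionρ z φ y := integral_nonneg h1.nonneg
  rcases le_total 0 (z - ∫ y, ionρ z φ y) with h | h
  · obtain ⟨h3, h4⟩ := int_coulomb (q := z - ∫ y, ionρ z φ y) h hφ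
    rw [show Nb (z - ∫ y, ionρ z φ y) φ = ∫ x : X, tf ((z - ∫ y, ionρ z φ y) * ‖x‖⁻¹ - φ)
      from h4.symm]
    refine integral_mono_ae h3 h1.int ?_
    filter_upwards [ae_ne] with x hx
    rw [(ion_all hz hφ).2.2.1 x hx]
    exact tf_mono (ionψ_ge hz hφ (norm_pos_iff.mpr hx))
  · refine le_trans ?_ h0
    unfold Nb
    have h3 : (z - ∫ y, ionρ z φ y) ^ 3 ≤ 0 := Odd.pow_nonpos (by decide) h
    have h4 : 0 < φ * √φ := by positivity
    exact div_nonpos_of_nonpos_of_nonneg (mul_nonpos_of_nonneg_of_nonpos (by positivity) h3) h4.le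

theorem Nb_mono {z z' φ : ℝ} (hz : 0 ≤ z) (h : z ≤ z') (hφ : 0 < φ) : Nb z φ ≤ Nb z' φ := by
  unfold Nb
  gcongr

/-- lower bound of the number of electrons of the isolated ion -/
theorem ion_mass_ge' {z φ : ℝ} (hz : 0 ≤ z) (hφ : 0 < φ) (h : Nb z φ ≤ z) :
    Nb (z - Nb z φ) φ ≤ ∫ y, ionρ z φ y := by
  refine le_trans (Nb_mono (by linarith) ?_ hφ) (ion_mass_ge hz hφ)
  linarith [ion_mass_le hz hφ]

variable {ι : Type*} [Fintype ι]

/-- a molecule has at least as many electrons as each of its ions -/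
theorem mass_ge_ion {z : ι → ℝ} (hz : ∀ i, 0 ≤ z i) {R : ι → X} {φ : ℝ} (hφ : 0 < φ) {ρ : X → ℝ}
    (h : Sol φ z R ρ) (j : ι) : ∫ x, ionρ (z j) φ x ≤ ∫ x, ρ x := by
  classical
  haveI := nontriv (V := X)
  obtain ⟨h1, h2⟩ := ion_sol (hz j) hφ R j
  rw [← integral_sub_right_eq_self (ionρ (z j) φ) (R j)]
  have hae : ∀ᵐ y : X, ∀ i, y ≠ R i := by
    rw [ae_all_iff]
    intro i
    rw [ae_iff]
    simp
  refine integral_mono_ae h1.tc.int h.tc.int ?_
  filter_upwards [hae] with x hx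
  refine compare_rho (fun i => ?_) le_rfl h1 h x hx
  by_cases hi : i = j
  · subst hi
    rw [Pi.single_eq_same]
  · rw [Pi.single_eq_of_ne hi]
    exact hz i

/-- P2: explicit lower bound of the number of electrons of a molecule -/
theorem mass_ge {z : ι → ℝ} (hz : ∀ i, 0 ≤ z i) {R : ι → X} {φ : ℝ} (hφ : 0 < φ) {ρ : X → ℝ}
    (h : Sol φ z R ρ) (j : ι) (hj : Nb (z j) φ ≤ z j) :
    Nb (z j - Nb (z j) φ) φ ≤ ∫ x, ρ x :=
  (ion_mass_ge' (hz j) hφ hj).trans (mass_ge_ion hz hφ h j)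

/-- the same in the form `π²/4 (1 - π²/4 ε)³ z³ φ^(-3/2)` with `ε = z² φ^(-3/2)` -/
theorem Nb_sub_Nb (z φ : ℝ) : Nb (z - Nb z φ) φ =
    π ^ 2 / 4 * (1 - π ^ 2 / 4 * (z ^ 2 / (φ * √φ))) ^ 3 * z ^ 3 / (φ * √φ) := by
  unfold Nb
  ring

theorem mass_ge' {z : ι → ℝ} (hz : ∀ i, 0 ≤ z i) {R : ι → X} {φ : ℝ} (hφ : 0 < φ) {ρ : X → ℝ}
    (h : Sol φ z R ρ) (j : ι) (hj : π ^ 2 / 4 * (z j ^ 2 / (φ * √φ)) ≤ 1) :
    π ^ 2 / 4 * (1 - π ^ 2 / 4 * (z j ^ 2 / (φ * √φ))) ^ 3 * z j ^ 3 / (φ * √φ) ≤ ∫ x, ρ x := by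
  rw [← Nb_sub_Nb]
  refine mass_ge hz hφ h j ?_
  have e : Nb (z j) φ = π ^ 2 / 4 * (z j ^ 2 / (φ * √φ)) * z j := by unfold Nb; ring
  rw [e]
  nlinarith [hz j]

end Pool.Agent.TF.Light
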