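import Mathlib
import Pool.Agent.Lib.MP_9cf0c9_mp.Tr.CtwoA
import Pool.Agent.Lib.MP_9cf0c9_mp.Tr.LightDef
import Pool.Agent.Lib.MP_9cf0c9_mp.Tr.LightMass
/-! The charge distribution of the second variation of the isolated ion: the potential of
`gam(ψ) X - 2 ρ` is the potential `N(r) / r` of the enclosed electrons. -/

set_option autoImplicit false

set_option linter.unusedSectionVars false

set_option linter.unusedVariables false

set_option linter.style.haveILetI false

namespace Pool.Agent.TF.Light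

open MeasureTheory Set Metric Filter Topology Real

/-! ### one elementary fact of calculus -/

theorem ftc_Ioi {f f' : ℝ → ℝ} {a l m : ℝ} (hd : ∀ x ∈ Ioi a, HasDerivAt f (f' x) x)
    (hi : IntegrableOn f' (Ioi a)) (h0 : Tendsto f (𝓝[>] a) (𝓝 l)) (h1 : Tendsto f atTop (𝓝 m)) :
    ∫ x in Ioi a, f' x = m - l := by
  have hg : ∀ x, x ≠ a → Function.update f a l x = f x := fun x hx => Function.update_of_ne hx _ _
  have h2 := integral_Ioi_of_hasDerivAt_of_tendsto (f := Function.update f a l) (f' := f')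
    (a := a) (m := m) ?_ (fun x hx => ?_) hi ?_
  · rw [h2, Function.update_self]
  · have e : Ici a \ {a} = Ioi a := by
      ext x
      simp only [Set.mem_sdiff, mem_Ici, mem_singleton_iff, mem_Ioi]
      exact ⟨fun h => lt_of_le_of_ne h.1 (Ne.symm h.2), fun h => ⟨h.le, h.ne'⟩⟩
    rw [continuousWithinAt_update_same, e]
    exact h0
  · refine (hd x hx).congr_of_eventuallyEq ?_
    filter_upwards [Ioi_mem_nhds hx] with y hy
    exact hg y (ne_of_gt hy)
  · refine h1.congr' ?_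
    filter_upwards [eventually_gt_atTop a] with y hy
    exact (hg y (ne_of_gt hy)).symm

/-! ### the profile -/

section profile

variable {z p : ℝ} {ψ q : ℝ → ℝ}

theorem prof_tf_le (h : Ion z p ψ q) (hp : 0 < p) {r : ℝ} (hr : 0 < r) :
    tf (ψ r) ≤ tf (z / r) := by
  refine tf_mono ?_
  have := h.up r hr
  linarith

theorem prof_nonpos (h : Ion z p ψ q) (hp : 0 < p) {r : ℝ} (hr : 0 < r) (hrp : z / p ≤ r) :
    ψ r ≤ 0 := by
  have h1 := h.up r hr
  have h2 : z / r ≤ p := by
    rw [div_le_iff₀ hr]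
    rwa [div_le_iff₀ hp, mul_comm] at hrp
  linarith

/-- the derivative of the enclosed electrons -/
noncomputable def DD (ψ : ℝ → ℝ) (r : ℝ) : ℝ := 4 * π * r ^ 2 * tf (ψ r)

theorem DD_nonneg (ψ : ℝ → ℝ) (r : ℝ) : 0 ≤ DD ψ r := by
  unfold DD
  have := tf_nonneg (ψ r)
  positivity

theorem hasDerivAt_N (h : Ion z p ψ q) {r : ℝ} (hr : 0 < r) :
    HasDerivAt (fun r => z - q r) (DD ψ r) r := by
  refine ((h.dq r hr).const_sub z).congr_deriv ?_
  unfold DD
  ring

/-- the radial density of `f - 2 ρ` -/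
noncomputable def FF (ψ q : ℝ → ℝ) (r : ℝ) : ℝ := gam (ψ r) * (q r * r⁻¹) - 2 * tf (ψ r)

theorem hasDerivAt_DD (h : Ion z p ψ q) {r : ℝ} (hr : 0 < r) :
    HasDerivAt (DD ψ) (-(4 * π * r * FF ψ q r)) r := by
  have h1 : HasDerivAt (fun r => tf (ψ r)) (gam (ψ r) * (-(q r) / r ^ 2)) r :=
    (hasDerivAt_tf' (ψ r)).comp r (h.dψ r hr)
  have h2 : HasDerivAt (fun r : ℝ => 4 * π * r ^ 2) (8 * π * r) r := by
    refine ((hasDerivAt_pow 2 r).const_mul (4 * π)).congr_deriv ?_
    norm_num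
    ring
  refine (h2.mul h1).congr_deriv ?_
  unfold FF
  field_simp
  ring

theorem hasDerivAt_NrD (h : Ion z p ψ q) {r : ℝ} (hr : 0 < r) :
    HasDerivAt (fun r => (z - q r) - r * DD ψ r) (4 * π * r ^ 2 * FF ψ q r) r := by
  refine ((hasDerivAt_N h hr).sub ((hasDerivAt_id r).mul (hasDerivAt_DD h hr))).congr_deriv ?_
  simp only [id]
  ring

theorem DD_le (h : Ion z p ψ q) (hz : 0 < z) (hp : 0 < p) {r : ℝ} (hr : 0 < r) :
    DD ψ r ≤ 4 * π * z * √(z * r) := by
  have h1 := prof_tf_le h hp hr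
  have h0 : 0 < z / r := by positivity
  have h2 : tf (z / r) = z / r * √(z / r) := by
    unfold tf
    rw [max_eq_left h0.le]
  have h3 : r * √(z / r) = √(z * r) := by
    rw [show z * r = r ^ 2 * (z / r) by field_simp, sqrt_mul (by positivity), sqrt_sq hr.le]
  unfold DD
  calc 4 * π * r ^ 2 * tf (ψ r) ≤ 4 * π * r ^ 2 * (z / r * √(z / r)) := by
        rw [← h2]
        exact mul_le_mul_of_nonneg_left h1 (by positivity)
    _ = 4 * π * z * (r * √(z / r)) := by field_simp
    _ = 4 * π * z * √(z * r) := by rw [h3]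

theorem DD_zero (h : Ion z p ψ q) (hz : 0 < z) (hp : 0 < p) :
    Tendsto (DD ψ) (𝓝[>] 0) (𝓝 0) := by
  have h1 : Tendsto (fun r => 4 * π * z * √(z * r)) (𝓝[>] 0) (𝓝 0) := by
    have h2 : Continuous fun r : ℝ => 4 * π * z * √(z * r) := by fun_prop
    have h3 := h2.tendsto 0
    simp only [mul_zero, sqrt_zero] at h3
    exact h3.mono_left nhdsWithin_le_nhds
  refine tendsto_of_tendsto_of_tendsto_of_le_of_le' tendsto_const_nhds h1
    (Eventually.of_forall fun r => DD_nonneg ψ r) ?_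
  filter_upwards [self_mem_nhdsWithin] with r hr
  exact DD_le h hz hp hr

theorem DD_far (h : Ion z p ψ q) (hz : 0 < z) (hp : 0 < p) {r : ℝ} (hr : z / p ≤ r) :
    DD ψ r = 0 := by
  have hr0 : 0 < r := lt_of_lt_of_le (by positivity) hr
  unfold DD
  rw [tf_of_nonpos (prof_nonpos h hp hr0 hr), mul_zero]

theorem DD_top (h : Ion z p ψ q) (hz : 0 < z) (hp : 0 < p) : Tendsto (DD ψ) atTop (𝓝 0) := by
  refine tendsto_const_nhds.congr' ?_
  filter_upwards [eventually_ge_atTop (z / p)] with r hr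
  exact (DD_far h hz hp hr).symm

theorem N_zero (h : Ion z p ψ q) : Tendsto (fun r => z - q r) (𝓝[>] 0) (𝓝 0) := by
  have := h.q0.const_sub z
  rwa [sub_self] at this

theorem NrD_zero (h : Ion z p ψ q) (hz : 0 < z) (hp : 0 < p) :
    Tendsto (fun r => (z - q r) - r * DD ψ r) (𝓝[>] 0) (𝓝 0) := by
  have h1 : Tendsto (fun r : ℝ => r) (𝓝[>] 0) (𝓝 0) :=
    (continuous_id.tendsto 0).mono_left nhdsWithin_le_nhds
  have h2 := (N_zero h).sub (h1.mul (DD_zero h hz hp))
  simpa using h2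

end profile

/-! ### radial potentials of signed densities -/

/-- the Newton kernel times an integrable radial density is integrable -/
theorem int_kernel {F : ℝ → ℝ} (hF : Measurable F)
    (hi : IntegrableOn (fun s => 4 * π * s ^ 2 * F s) (Ioi 0)) {r : ℝ} (hr : 0 < r) :
    IntegrableOn (fun s => 4 * π * s ^ 2 / max s r * F s) (Ioi 0) := by
  have hm : Measurable fun s : ℝ => 4 * π * s ^ 2 / max s r * F s :=
    ((by fun_prop : Measurable fun s : ℝ => 4 * π * s ^ 2).div (by fun_prop)).mul hF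
  have h1 : IntegrableOn (fun s => r⁻¹ * ‖4 * π * s ^ 2 * F s‖) (Ioi 0) := hi.norm.const_mul _
  refine h1.mono' hm.aestronglyMeasurable (Eventually.of_forall fun s => ?_)
  have h2 : 0 < max s r := lt_of_lt_of_le hr (le_max_right _ _)
  rw [show 4 * π * s ^ 2 / max s r * F s = (max s r)⁻¹ * (4 * π * s ^ 2 * F s) by
    field_simp, norm_mul]
  refine mul_le_mul_of_nonneg_right ?_ (norm_nonneg _)
  rw [Real.norm_of_nonneg (by positivity)]
  exact inv_anti₀ hr (le_max_right _ _)

/-- the Newton integral with the kernel split at `r` -/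
theorem split_kernel {F : ℝ → ℝ} (hF : Measurable F)
    (hi : IntegrableOn (fun s => 4 * π * s ^ 2 * F s) (Ioi 0)) {r : ℝ} (hr : 0 < r) :
    ∫ s in Ioi (0 : ℝ), 4 * π * s ^ 2 / max s r * F s =
      (∫ s in (0 : ℝ)..r, 4 * π * s ^ 2 * F s) / r + ∫ s in Ioi r, 4 * π * s * F s := by
  have hk := int_kernel hF hi hr
  have hU : Ioi (0 : ℝ) = Ioc 0 r ∪ Ioi r := (Ioc_union_Ioi_eq_Ioi hr.le).symm
  have hdisj : Disjoint (Ioc (0 : ℝ) r) (Ioi r) := by
    rw [Set.disjoint_left]
    intro s h3 h4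
    exact absurd h3.2 (not_le.mpr h4)
  have s1 : Ioc (0 : ℝ) r ⊆ Ioi 0 := fun s hs => hs.1
  have s2 : Ioi r ⊆ Ioi (0 : ℝ) := fun s hs => hr.trans hs
  rw [hU, setIntegral_union hdisj measurableSet_Ioi (hk.mono_set s1) (hk.mono_set s2),
    intervalIntegral.integral_of_le hr.le, ← integral_div]
  congr 1
  · refine setIntegral_congr_fun measurableSet_Ioc fun s hs => ?_
    rw [max_eq_right hs.2]
    ring
  · refine setIntegral_congr_fun measurableSet_Ioi fun s hs => ?_
    have hs0 : s ≠ 0 := (hr.trans (mem_Ioi.mp hs)).ne'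
    rw [max_eq_left (mem_Ioi.mp hs).le]
    field_simp

/-! ### the ion -/

section ion

variable {z p : ℝ}

/-- the radial profile of `f`, measurable on the line -/
noncomputable def Gf (z p : ℝ) : ℝ → ℝ :=
  (Ioi (0 : ℝ)).indicator fun s => gam (ionψ z p s) * (ionq z p s * s⁻¹)

/-- the radial profile of `ρ`, measurable on the line -/
noncomputable def Gρ (z p : ℝ) : ℝ → ℝ := (Ioi (0 : ℝ)).indicator fun s => tf (ionψ z p s)

theorem contOn_ψ (hz : 0 < z) (hp : 0 < p) : ContinuousOn (ionψ z p) (Ioi 0) :=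
  (ion_ion hz.le hp).contψ

theorem contOn_q (hz : 0 < z) (hp : 0 < p) : ContinuousOn (ionq z p) (Ioi 0) :=
  (ion_ion hz.le hp).contq

theorem meas_of_contOn {g : ℝ → ℝ} (hg : ContinuousOn g (Ioi 0)) :
    Measurable ((Ioi (0 : ℝ)).indicator g) := by
  classical
  rw [← piecewise_eq_indicator]
  exact hg.measurable_piecewise continuousOn_const measurableSet_Ioi

theorem Gf_meas (hz : 0 < z) (hp : 0 < p) : Measurable (Gf z p) := by
  refine meas_of_contOn ?_
  exact (gam_continuous.comp_continuousOn (contOn_ψ hz hp)).mul ((contOn_q hz hp).mul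
    (continuousOn_id.inv₀ fun s hs => (mem_Ioi.mp hs).ne'))

theorem Gρ_meas (hz : 0 < z) (hp : 0 < p) : Measurable (Gρ z p) :=
  meas_of_contOn (tf_continuous.comp_continuousOn (contOn_ψ hz hp))

theorem Gf_nonneg (hz : 0 < z) (hp : 0 < p) (s : ℝ) : 0 ≤ Gf z p s :=
  indicator_nonneg (fun t ht => mul_nonneg (gam_nonneg _) (mul_nonneg
    ((ion_ion hz.le hp).q_pos hz hp ht).le (inv_nonneg.mpr (mem_Ioi.mp ht).le))) s

theorem Gρ_nonneg (s : ℝ) : 0 ≤ Gρ z p s := indicator_nonneg (fun t _ => tf_nonneg _) s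

theorem ionf_eq (x : X) : ionf z p x = Gf z p ‖x‖ := by
  unfold ionf ionX Gf
  rcases (norm_nonneg x).eq_or_lt with h | h
  · rw [← h, indicator_of_notMem (by simp)]
    simp
  · rw [indicator_of_mem (mem_Ioi.mpr h)]

theorem ionρ_eq (hz : 0 < z) (hp : 0 < p) {x : X} (hx : x ≠ 0) : ionρ z p x = Gρ z p ‖x‖ := by
  unfold Gρ
  rw [indicator_of_mem (mem_Ioi.mpr (norm_pos_iff.mpr hx))]
  exact (ion_all hz.le hp).2.2.1 x hx

theorem ionρ_ae (hz : 0 < z) (hp : 0 < p) : ionρ z p =ᵐ[volume] fun y : X => Gρ z p ‖y‖ := by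
  filter_upwards [ae_ne] with x hx
  exact ionρ_eq hz hp hx

/-! #### the elementary bounds -/

theorem ionX_add (z p : ℝ) (x : X) : ionX z p x + ionn z p x = z * ‖x‖⁻¹ := by
  unfold ionX ionn
  ring

theorem ionX_nonneg (hz : 0 < z) (hp : 0 < p) (x : X) : 0 ≤ ionX z p x := by
  unfold ionX
  rcases (norm_nonneg x).eq_or_lt with h | h
  · rw [← h]
    simp
  · exact mul_nonneg ((ion_ion hz.le hp).q_pos hz hp h).le (inv_nonneg.mpr h.le)

theorem ionn_nonneg (hz : 0 < z) (hp : 0 < p) (x : X) : 0 ≤ ionn z p x := by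
  unfold ionn
  rcases (norm_nonneg x).eq_or_lt with h | h
  · rw [← h]
    simp
  · exact mul_nonneg (by linarith [(ion_ion hz.le hp).q_le h]) (inv_nonneg.mpr h.le)

theorem ionX_le (hz : 0 < z) (hp : 0 < p) (x : X) : ionX z p x ≤ z * ‖x‖⁻¹ := by
  have h1 := ionX_add z p x
  have h2 := ionn_nonneg hz hp x
  linarith

theorem ionρ_tc (hz : 0 < z) (hp : 0 < p) : TC (ionρ z p) := (ionρ_spec hz.le hp).1

theorem ionn_le_pot (hz : 0 < z) (hp : 0 < p) (x : X) : ionn z p x ≤ pot (ionρ z p) x := by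
  by_cases hx : x = 0
  · subst hx
    unfold ionn
    rw [norm_zero, inv_zero, mul_zero]
    exact pot_nonneg (ionρ_tc hz hp).nonneg _
  · have hn : 0 < ‖x‖ := norm_pos_iff.mpr hx
    have h1 := (ion_all hz.le hp).2.1 x hx
    have h2 := (ion_ion hz.le hp).le_X hz hp hn
    have h3 := ionX_add z p x
    have h4 : ionX z p x = ionq z p ‖x‖ / ‖x‖ := by
      unfold ionX
      rw [div_eq_mul_inv]
    linarith

theorem ionn_le_mass (hz : 0 < z) (hp : 0 < p) (x : X) : ionn z p x ≤ ionN z p * ‖x‖⁻¹ := by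
  unfold ionn ionN
  refine mul_le_mul_of_nonneg_right ?_ (inv_nonneg.mpr (norm_nonneg x))
  have h := (ion_all hz.le hp).2.2.2.1 ‖x‖ (norm_nonneg x)
  rw [h]
  have h1 : ∫ y in ball (0 : X) ‖x‖, ionρ z p y ≤ ∫ y, ionρ z p y :=
    setIntegral_le_integral (ionρ_tc hz hp).int
      (Eventually.of_forall (ionρ_tc hz hp).nonneg)
  linarith

theorem ionN_nonneg (hz : 0 < z) (hp : 0 < p) : 0 ≤ ionN z p :=
  integral_nonneg (ionρ_tc hz hp).nonneg

theorem ionf_nonneg (hz : 0 < z) (hp : 0 < p) (x : X) : 0 ≤ ionf z p x :=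
  mul_nonneg (gam_nonneg _) (ionX_nonneg hz hp x)

/-! #### `f` is an admissible density -/

theorem ionf_meas (hz : 0 < z) (hp : 0 < p) : Measurable (ionf z p) := by
  have e : ionf z p = fun x => Gf z p ‖x‖ := funext fun x => ionf_eq x
  rw [e]
  exact (Gf_meas hz hp).comp measurable_norm

theorem ionf_le (hz : 0 < z) (hp : 0 < p) {x : X} (hx : x ≠ 0) :
    ionf z p x ≤ 3 / 2 * tf (2 * z * ‖x‖⁻¹ - p) := by
  have hn : 0 < ‖x‖ := norm_pos_iff.mpr hx
  have hI := ion_ion hz.le hp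
  have h1 := hI.up ‖x‖ hn
  set v : ℝ := z * ‖x‖⁻¹ with hv
  have hv0 : 0 ≤ v := by positivity
  rw [div_eq_mul_inv, ← hv] at h1
  have h2 : 2 * z * ‖x‖⁻¹ = 2 * v := by rw [hv]; ring
  rw [h2]
  rcases le_total v p with h | h
  · have h3 : ionf z p x = 0 := by
      unfold ionf
      rw [gam_of_nonpos (by linarith), zero_mul]
    rw [h3]
    have := tf_nonneg (2 * v - p)
    positivity
  · have h3 : gam (ionψ z p ‖x‖) ≤ 3 / 2 * √v := by
      unfold gam
      refine mul_le_mul_of_nonneg_left (sqrt_le_sqrt ?_) (by norm_num)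
      exact max_le (by linarith) hv0
    have h4 : v * √v ≤ tf (2 * v - p) := by
      have h5 : tf v = v * √v := by
        unfold tf
        rw [max_eq_left hv0]
      rw [← h5]
      exact tf_mono (by linarith)
    have h6 : ionX z p x ≤ v := ionX_le hz hp x
    calc ionf z p x = gam (ionψ z p ‖x‖) * ionX z p x := rfl
      _ ≤ 3 / 2 * √v * v := mul_le_mul h3 h6 (ionX_nonneg hz hp x) (by positivity)
      _ = 3 / 2 * (v * √v) := by ring
      _ ≤ 3 / 2 * tf (2 * v - p) := mul_le_mul_of_nonneg_left h4 (by norm_num)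

theorem ionf_TC (hz : 0 < z) (hp : 0 < p) : TC (ionf z p) := by
  have h1 := (gdom_TC (ι := Unit) (z := fun _ => 2 * z) (fun _ => by positivity)
    (fun _ => (0 : X)) hp).cmul (c := 3 / 2) (by norm_num)
  refine h1.of_le (ionf_meas hz hp) (ionf_nonneg hz hp) ?_
  filter_upwards [ae_ne] with x hx
  have h2 := ionf_le hz hp hx
  simpa [gdom, Vpt] using h2

/-! #### the potential identity -/

theorem int_Gf (hz : 0 < z) (hp : 0 < p) :
    IntegrableOn (fun s => 4 * π * s ^ 2 * Gf z p s) (Ioi 0) := by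
  rw [← integrable_radial_iff (V := X)]
  exact (ionf_TC hz hp).int.congr (Eventually.of_forall fun x => ionf_eq x)

theorem int_Gρ (hz : 0 < z) (hp : 0 < p) :
    IntegrableOn (fun s => 4 * π * s ^ 2 * Gρ z p s) (Ioi 0) := by
  rw [← integrable_radial_iff (V := X)]
  exact (ionρ_tc hz hp).int.congr (ionρ_ae hz hp)

theorem int_Gf0 (hz : 0 < z) (hp : 0 < p) :
    IntegrableOn (fun s => 4 * π * s ^ 2 * (s⁻¹ * Gf z p s)) (Ioi 0) := by
  rw [← integrable_radial_iff (V := X) (fun s => s⁻¹ * Gf z p s)]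
  refine ((ionf_TC hz hp).pot_integrable 0).congr (Eventually.of_forall fun y => ?_)
  simp only [zero_sub, norm_neg]
  rw [ionf_eq]

theorem int_Gρ0 (hz : 0 < z) (hp : 0 < p) :
    IntegrableOn (fun s => 4 * π * s ^ 2 * (s⁻¹ * Gρ z p s)) (Ioi 0) := by
  rw [← integrable_radial_iff (V := X) (fun s => s⁻¹ * Gρ z p s)]
  refine ((ionρ_tc hz hp).pot_integrable 0).congr ?_
  filter_upwards [ionρ_ae hz hp] with y hy
  simp only [zero_sub, norm_neg]
  rw [hy]

/-- the signed profile -/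
noncomputable def Gs (z p : ℝ) (s : ℝ) : ℝ := Gf z p s - 2 * Gρ z p s

theorem Gs_meas (hz : 0 < z) (hp : 0 < p) : Measurable (Gs z p) :=
  (Gf_meas hz hp).sub ((Gρ_meas hz hp).const_mul 2)

theorem Gs_eq {s : ℝ} (hs : 0 < s) : Gs z p s = FF (ionψ z p) (ionq z p) s := by
  unfold Gs Gf Gρ FF
  rw [indicator_of_mem (mem_Ioi.mpr hs), indicator_of_mem (mem_Ioi.mpr hs)]

theorem int_Gs (hz : 0 < z) (hp : 0 < p) :
    IntegrableOn (fun s => 4 * π * s ^ 2 * Gs z p s) (Ioi 0) := by
  refine ((int_Gf hz hp).sub ((int_Gρ hz hp).const_mul 2)).congr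
    (Eventually.of_forall fun s => ?_)
  simp only [Pi.sub_apply, Gs]
  ring

theorem int_Gs1 (hz : 0 < z) (hp : 0 < p) :
    IntegrableOn (fun s => 4 * π * s * Gs z p s) (Ioi 0) := by
  refine ((int_Gf0 hz hp).sub ((int_Gρ0 hz hp).const_mul 2)).congr_fun (fun s hs => ?_)
    measurableSet_Ioi
  have hs0 : s ≠ 0 := (mem_Ioi.mp hs).ne'
  simp only [Pi.sub_apply, Gs]
  field_simp

/-- (A1) the potential of `f - 2 ρ` -/
theorem ionf_pot (hz : 0 < z) (hp : 0 < p) (x : X) :
    pot (ionf z p) x - 2 * pot (ionρ z p) x = ionn z p x := by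
  have hI := ion_ion hz.le hp
  have e1 : pot (ionf z p) = pot (fun y : X => Gf z p ‖y‖) := by
    congr 1
    exact funext fun y => ionf_eq y
  have e2 : pot (ionρ z p) = pot (fun y : X => Gρ z p ‖y‖) := pot_congr_ae (ionρ_ae hz hp)
  rw [e1, e2]
  by_cases hx : x = 0
  · subst hx
    have h1 : ∀ G : ℝ → ℝ, pot (fun y : X => G ‖y‖) 0 =
        ∫ s in Ioi (0 : ℝ), 4 * π * s ^ 2 * (s⁻¹ * G s) := by
      intro G
      rw [← integral_radial (V := X) (fun s => s⁻¹ * G s)]
      unfold pot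
      simp only [zero_sub, norm_neg]
    rw [h1, h1, ← integral_const_mul, ← integral_sub (int_Gf0 hz hp) ((int_Gρ0 hz hp).const_mul 2)]
    have h2 : ∫ s in Ioi (0 : ℝ), (4 * π * s ^ 2 * (s⁻¹ * Gf z p s) -
        2 * (4 * π * s ^ 2 * (s⁻¹ * Gρ z p s))) = ∫ s in Ioi (0 : ℝ), 4 * π * s * Gs z p s := by
      refine setIntegral_congr_fun measurableSet_Ioi fun s hs => ?_
      have hs0 : s ≠ 0 := (mem_Ioi.mp hs).ne'
      simp only [Gs]
      field_simp
    rw [h2]
    have h3 := ftc_Ioi (f := fun r => -(DD (ionψ z p) r))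
      (f' := fun s => 4 * π * s * Gs z p s) (a := 0) (l := 0) (m := 0) ?_ (int_Gs1 hz hp) ?_ ?_
    · rw [h3]
      unfold ionn
      simp
    · intro s hs
      rw [Gs_eq hs]
      refine (hasDerivAt_DD hI hs).neg.congr_deriv ?_
      ring
    · simpa using (DD_zero hI hz hp).neg
    · simpa using (DD_top hI hz hp).neg
  · have hn : 0 < ‖x‖ := norm_pos_iff.mpr hx
    rw [pot_radial (Gf_meas hz hp) (Gf_nonneg hz hp) hx, pot_radial (Gρ_meas hz hp) Gρ_nonneg hx,
      ← integral_const_mul, ← integral_sub (int_kernel (Gf_meas hz hp) (int_Gf hz hp) hn)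
        ((int_kernel (Gρ_meas hz hp) (int_Gρ hz hp) hn).const_mul 2)]
    have h2 : ∫ s in Ioi (0 : ℝ), (4 * π * s ^ 2 / max s ‖x‖ * Gf z p s -
        2 * (4 * π * s ^ 2 / max s ‖x‖ * Gρ z p s)) =
        ∫ s in Ioi (0 : ℝ), 4 * π * s ^ 2 / max s ‖x‖ * Gs z p s := by
      refine setIntegral_congr_fun measurableSet_Ioi fun s hs => ?_
      simp only [Gs]
      ring
    rw [h2, split_kernel (Gs_meas hz hp) (int_Gs hz hp) hn]
    -- the inner part
    have h3 : ∫ s in (0 : ℝ)..‖x‖, 4 * π * s ^ 2 * Gs z p s =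
        ((z - ionq z p ‖x‖) - ‖x‖ * DD (ionψ z p) ‖x‖) - 0 := by
      refine intervalIntegral.integral_eq_sub_of_hasDerivAt_of_tendsto hn
        (f := fun r => (z - ionq z p r) - r * DD (ionψ z p) r) (fun s hs => ?_) ?_
        (NrD_zero hI hz hp) ?_
      · rw [Gs_eq hs.1]
        exact hasDerivAt_NrD hI hs.1
      · rw [intervalIntegrable_iff_integrableOn_Ioc_of_le hn.le]
        exact (int_Gs hz hp).mono_set fun s hs => hs.1
      · exact ((hasDerivAt_NrD hI hn).continuousAt.tendsto).mono_left nhdsWithin_le_nhds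
    -- the outer part
    have h4 : ∫ s in Ioi ‖x‖, 4 * π * s * Gs z p s = 0 - -(DD (ionψ z p) ‖x‖) := by
      refine ftc_Ioi (f := fun r => -(DD (ionψ z p) r)) (fun s hs => ?_) ?_ ?_ ?_
      · have hs0 : 0 < s := hn.trans hs
        rw [Gs_eq hs0]
        refine (hasDerivAt_DD hI hs0).neg.congr_deriv ?_
        ring
      · exact (int_Gs1 hz hp).mono_set fun s hs => hn.trans hs
      · exact ((hasDerivAt_DD hI hn).neg.continuousAt.tendsto).mono_left nhdsWithin_le_nhds
      · simpa using (DD_top hI hz hp).neg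
    rw [h3, h4]
    unfold ionn
    field_simp
    ring

/-- `n` is continuous -/
theorem ionn_continuous (hz : 0 < z) (hp : 0 < p) : Continuous (ionn z p) := by
  have e : ionn z p = fun x => pot (ionf z p) x - 2 * pot (ionρ z p) x :=
    funext fun x => (ionf_pot hz hp x).symm
  rw [e]
  exact (ionf_TC hz hp).pot_continuous.sub (continuous_const.mul (ionρ_tc hz hp).pot_continuous)

theorem ionn_meas (hz : 0 < z) (hp : 0 < p) : Measurable (ionn z p) :=
  (ionn_continuous hz hp).measurable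

/-! #### the self energy -/

theorem ion_self_int (hz : 0 < z) (hp : 0 < p) :
    Integrable fun x => ionρ z p x * (pot (ionρ z p) x - 2 * ionn z p x) := by
  have h1 : Integrable fun x => ionρ z p x * ionn z p x := by
    refine ((ionρ_tc hz hp).En_integrable (ionρ_tc hz hp)).mono'
      ((ionρ_tc hz hp).meas.mul (ionn_meas hz hp)).aestronglyMeasurable
      (Eventually.of_forall fun x => ?_)
    rw [Real.norm_of_nonneg (mul_nonneg ((ionρ_tc hz hp).nonneg x) (ionn_nonneg hz hp x))]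
    exact mul_le_mul_of_nonneg_left (ionn_le_pot hz hp x) ((ionρ_tc hz hp).nonneg x)
  refine (((ionρ_tc hz hp).En_integrable (ionρ_tc hz hp)).sub (h1.const_mul 2)).congr
    (Eventually.of_forall fun x => ?_)
  simp only [Pi.sub_apply]
  ring

/-- (A2) -/
theorem ion_self (hz : 0 < z) (hp : 0 < p) :
    ∫ x, ionρ z p x * (pot (ionρ z p) x - 2 * ionn z p x) = 0 := by
  have hI := ion_ion hz.le hp
  set T : ℝ → ℝ := fun r => ionq z p r / r - ionψ z p r - p with hT
  set G : ℝ → ℝ := fun s => tf (ionψ z p s) * (T s - (z - ionq z p s) / s) with hG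
  have hae : (fun x => ionρ z p x * (pot (ionρ z p) x - 2 * ionn z p x)) =ᵐ[volume]
      fun x : X => G ‖x‖ := by
    filter_upwards [ae_ne] with x hx
    have hn : 0 < ‖x‖ := norm_pos_iff.mpr hx
    have h1 := (ion_all hz.le hp).2.1 x hx
    have h2 := (ion_all hz.le hp).2.2.1 x hx
    have h3 : pot (ionρ z p) x = z * ‖x‖⁻¹ - ionψ z p ‖x‖ - p := by linarith
    rw [h3, h2]
    simp only [hG, hT, ionn]
    congr 1
    field_simp
    ring
  have hint : IntegrableOn (fun s => 4 * π * s ^ 2 * G s) (Ioi 0) := by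
    rw [← integrable_radial_iff (V := X)]
    exact (ion_self_int hz hp).congr hae
  rw [integral_congr_ae hae, integral_radial]
  have h0 := ftc_Ioi (f := fun r => (z - ionq z p r) * T r)
    (f' := fun s => 4 * π * s ^ 2 * G s) (a := 0) (l := 0) (m := 0) ?_ hint ?_ ?_
  · rw [h0, sub_zero]
  · intro s hs
    have hs0 : 0 < s := hs
    refine ((hasDerivAt_N hI hs0).mul (hI.dD hs0)).congr_deriv ?_
    simp only [hG, hT, DD]
    field_simp
    ring
  · -- at the origin
    have hb : ∀ r, 0 < r → |T r| ≤ tcB (ionρ z p) := by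
      intro r hr
      have hre : ‖r • e1‖ = r := by
        rw [norm_smul, norm_e1', mul_one, Real.norm_of_nonneg hr.le]
      have hne : r • e1 ≠ (0 : X) := by
        rw [← norm_ne_zero_iff, hre]
        exact hr.ne'
      have h1 := (ion_all hz.le hp).2.1 _ hne
      rw [hre] at h1
      have h2 := (ionρ_tc hz hp).pot_le (r • e1)
      have h3 := hI.le_X hz hp hr
      have h4 : ionq z p r / r ≤ z * r⁻¹ := by
        rw [div_eq_mul_inv]
        exact mul_le_mul_of_nonneg_right (hI.q_le hr) (inv_nonneg.mpr hr.le)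
      rw [abs_le]
      simp only [hT]
      constructor
      · have : 0 ≤ tcB (ionρ z p) :=
          (pot_nonneg (ionρ_tc hz hp).nonneg (r • e1)).trans h2
        linarith
      · linarith
    have h1 : Tendsto (fun r => |z - ionq z p r| * tcB (ionρ z p)) (𝓝[>] 0) (𝓝 0) := by
      have := ((N_zero hI).abs).mul_const (tcB (ionρ z p))
      simpa using this
    refine squeeze_zero_norm' ?_ h1
    filter_upwards [self_mem_nhdsWithin] with r hr
    rw [norm_mul, Real.norm_eq_abs, Real.norm_eq_abs]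
    exact mul_le_mul_of_nonneg_left (hb r hr) (abs_nonneg _)
  · have h1 := ((ion_all hz.le hp).2.2.2.2.const_sub z).mul (hI.D_lim hz hp)
    rw [mul_zero] at h1
    exact h1

end ion

end Pool.Agent.TF.Light
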