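import Mathlib
import Pool.Agent.Lib.MP_9cf0c9_mp.Tr.Calib
/-! Pointwise inequalities for finite families of reals used in the strongly ionised regime. -/

set_option autoImplicit false

set_option linter.unusedSectionVars false

set_option linter.unusedVariables false

set_option linter.style.haveILetI false

namespace Pool.Agent.TF.Light

open MeasureTheory Set Metric Filter Topology

theorem gam_nonneg (t : ℝ) : 0 ≤ gam t := by unfold gam; positivity

theorem gam_mono {s t : ℝ} (h : s ≤ t) : gam s ≤ gam t := by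
  unfold gam
  have := Real.sqrt_le_sqrt (max_le_max_right 0 h)
  linarith

theorem gam_of_nonpos {t : ℝ} (h : t ≤ 0) : gam t = 0 := by
  unfold gam
  rw [max_eq_right h, Real.sqrt_zero, mul_zero]

variable {ι : Type*} [Fintype ι]

/-- the sum of the squares of a nonnegative family is at most its maximum times its sum -/
theorem sq_sum_le_max {v : ι → ℝ} (hv : ∀ j, 0 ≤ v j) {J : ι} (hJ : ∀ j, v j ≤ v J) :
    ∑ j, v j ^ 2 ≤ v J * ∑ j, v j := by
  rw [Finset.mul_sum]
  refine Finset.sum_le_sum fun j _ => ?_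
  nlinarith [hv j, hJ j]

/-- the mixed products dominate twice the product of one term with the rest -/
theorem mixed_ge {v : ι → ℝ} (hv : ∀ j, 0 ≤ v j) (J : ι) :
    2 * (v J * (∑ j, v j - v J)) ≤ (∑ j, v j) ^ 2 - ∑ j, v j ^ 2 := by
  classical
  have h1 : ∑ j, v j = v J + ∑ j ∈ Finset.univ.erase J, v j :=
    (Finset.add_sum_erase _ _ (Finset.mem_univ J)).symm
  have h2 : ∑ j, v j ^ 2 = v J ^ 2 + ∑ j ∈ Finset.univ.erase J, v j ^ 2 :=
    (Finset.add_sum_erase _ (fun j => v j ^ 2) (Finset.mem_univ J)).symm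
  have h3 : ∑ j ∈ Finset.univ.erase J, v j ^ 2 ≤ (∑ j ∈ Finset.univ.erase J, v j) ^ 2 := by
    have h0 : 0 ≤ ∑ j ∈ Finset.univ.erase J, v j := Finset.sum_nonneg fun j _ => hv j
    calc ∑ j ∈ Finset.univ.erase J, v j ^ 2
        ≤ ∑ j ∈ Finset.univ.erase J, v j * (∑ j ∈ Finset.univ.erase J, v j) := by
          refine Finset.sum_le_sum fun j hj => ?_
          rw [sq]
          refine mul_le_mul_of_nonneg_left ?_ (hv j)
          exact Finset.single_le_sum (f := v) (fun i _ => hv i) hj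
      _ = (∑ j ∈ Finset.univ.erase J, v j) ^ 2 := by rw [← Finset.sum_mul, sq]
  rw [h1, h2]
  nlinarith [h3]

theorem mixed_nonneg {v : ι → ℝ} (hv : ∀ j, 0 ≤ v j) : 0 ≤ (∑ j, v j) ^ 2 - ∑ j, v j ^ 2 := by
  classical
  rcases isEmpty_or_nonempty ι with h | h
  · simp
  · obtain ⟨J⟩ := h
    have h1 := mixed_ge hv J
    have h2 : v J ≤ ∑ j, v j := Finset.single_le_sum (f := v) (fun i _ => hv i) (Finset.mem_univ J)
    have h3 := mul_nonneg (hv J) (sub_nonneg.mpr h2)
    linarith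

theorem exists_argmax [Nonempty ι] (v : ι → ℝ) : ∃ J, ∀ j, v j ≤ v J := by
  obtain ⟨J, -, hJ⟩ := Finset.exists_max_image Finset.univ v ⟨Classical.arbitrary ι, Finset.mem_univ _⟩
  exact ⟨J, fun j => hJ j (Finset.mem_univ j)⟩

/-- Section 4: the main pointwise inequality. `v j = z_j / r_j`, `x j = X_j`, `p j = ψ_j`,
`s = ψ`, `m = μ`. -/
theorem main_pt {v x p F : ι → ℝ} {s m : ℝ} (hv : ∀ j, 0 ≤ v j) (hx0 : ∀ j, 0 ≤ x j)
    (hx : ∀ j, x j ≤ v j) (hp : ∀ j, p j ≤ s) (hp2 : ∀ j, s ≤ p j + (∑ i, v i - v j))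
    (hs : s ≤ ∑ i, v i - m) (hF : ∀ j, 0 ≤ F j)
    (hE : ∀ j, ∑ i, v i - v j ≤ v j → m < ∑ i, v i →
      v j ^ 2 * (gam (p j + (∑ i, v i - v j)) - gam (p j)) ≤ F j * (∑ i, v i - v j)) :
    (∑ j, (gam s - gam (p j)) * x j) * ∑ j, x j ≤
      2 * gam s * ((∑ j, v j) ^ 2 - ∑ j, v j ^ 2) + ∑ j, F j * (∑ i, v i - v j) := by
  classical
  set V := ∑ i, v i with hV
  have hV0 : 0 ≤ V := Finset.sum_nonneg fun j _ => hv j
  have hvV : ∀ j, v j ≤ V := fun j =>
    Finset.single_le_sum (f := v) (fun i _ => hv i) (Finset.mem_univ j)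
  have hXV : ∑ j, x j ≤ V := Finset.sum_le_sum fun j _ => hx j
  have hX0 : 0 ≤ ∑ j, x j := Finset.sum_nonneg fun j _ => hx0 j
  have hFw : ∀ j, 0 ≤ F j * (V - v j) := fun j => mul_nonneg (hF j) (sub_nonneg.mpr (hvV j))
  have hg : ∀ j, 0 ≤ gam s - gam (p j) := fun j => sub_nonneg.mpr (gam_mono (hp j))
  have hgs : 0 ≤ gam s := gam_nonneg s
  rcases isEmpty_or_nonempty ι with h | h
  · simp only [Finset.univ_eq_empty, Finset.sum_empty, mul_zero, add_zero] at hV ⊢
    rw [hV]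
    simp
  obtain ⟨J, hJ⟩ := exists_argmax v
  have hS : 0 ≤ ∑ j, (gam s - gam (p j)) * v j :=
    Finset.sum_nonneg fun j _ => mul_nonneg (hg j) (hv j)
  have h1 : (∑ j, (gam s - gam (p j)) * x j) * ∑ j, x j ≤
      (∑ j, (gam s - gam (p j)) * v j) * V := by
    refine mul_le_mul ?_ hXV hX0 hS
    exact Finset.sum_le_sum fun j _ => mul_le_mul_of_nonneg_left (hx j) (hg j)
  have hFs : F J * (V - v J) ≤ ∑ j, F j * (V - v j) :=
    Finset.single_le_sum (f := fun j => F j * (V - v j)) (fun i _ => hFw i) (Finset.mem_univ J)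
  have hF0 : 0 ≤ ∑ j, F j * (V - v j) := Finset.sum_nonneg fun j _ => hFw j
  rcases lt_or_ge (v J) (V - v J) with hc | hc
  · have h2 : ∑ j, (gam s - gam (p j)) * v j ≤ gam s * V := by
      rw [hV, Finset.mul_sum]
      refine Finset.sum_le_sum fun j _ => mul_le_mul_of_nonneg_right ?_ (hv j)
      linarith [gam_nonneg (p j)]
    have h3 : ∑ j, v j ^ 2 ≤ v J * V := sq_sum_le_max hv hJ
    have h4 : V ^ 2 ≤ 2 * (V ^ 2 - ∑ j, v j ^ 2) := by nlinarith
    calc (∑ j, (gam s - gam (p j)) * x j) * ∑ j, x j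
        ≤ (∑ j, (gam s - gam (p j)) * v j) * V := h1
      _ ≤ gam s * V * V := mul_le_mul_of_nonneg_right h2 hV0
      _ = gam s * V ^ 2 := by ring
      _ ≤ gam s * (2 * (V ^ 2 - ∑ j, v j ^ 2)) := mul_le_mul_of_nonneg_left h4 hgs
      _ ≤ 2 * gam s * (V ^ 2 - ∑ j, v j ^ 2) + ∑ j, F j * (V - v j) := by linarith
  · have hw0 : 0 ≤ V - v J := sub_nonneg.mpr (hvV J)
    have h2 : ∑ j, (gam s - gam (p j)) * v j ≤ gam s * (V - v J) + (gam s - gam (p J)) * v J := by
      have e1 : ∑ j, (gam s - gam (p j)) * v j = (gam s - gam (p J)) * v J +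
          ∑ j ∈ Finset.univ.erase J, (gam s - gam (p j)) * v j :=
        (Finset.add_sum_erase _ (fun j => (gam s - gam (p j)) * v j) (Finset.mem_univ J)).symm
      have e2 : V - v J = ∑ j ∈ Finset.univ.erase J, v j := by
        rw [hV, ← Finset.add_sum_erase _ v (Finset.mem_univ J)]
        ring
      have e3 : ∑ j ∈ Finset.univ.erase J, (gam s - gam (p j)) * v j ≤ gam s * (V - v J) := by
        rw [e2, Finset.mul_sum]
        refine Finset.sum_le_sum fun j _ => mul_le_mul_of_nonneg_right ?_ (hv j)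
        linarith [gam_nonneg (p j)]
      linarith
    have h3 : 2 * (v J * (V - v J)) ≤ V ^ 2 - ∑ j, v j ^ 2 := mixed_ge hv J
    have h4 : (gam s - gam (p J)) * v J ^ 2 ≤ F J * (V - v J) := by
      rcases le_or_gt s 0 with h | h
      · rw [gam_of_nonpos h]
        have : (0 - gam (p J)) * v J ^ 2 ≤ 0 :=
          mul_nonpos_of_nonpos_of_nonneg (by linarith [gam_nonneg (p J)]) (by positivity)
        linarith [hFw J]
      · have h5 := hE J hc (by linarith)
        have h6 : gam s ≤ gam (p J + (V - v J)) := gam_mono (hp2 J)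
        calc (gam s - gam (p J)) * v J ^ 2 ≤ (gam (p J + (V - v J)) - gam (p J)) * v J ^ 2 :=
              mul_le_mul_of_nonneg_right (by linarith) (by positivity)
          _ = v J ^ 2 * (gam (p J + (V - v J)) - gam (p J)) := by ring
          _ ≤ F J * (V - v J) := h5
    have h5 : (gam s - gam (p J)) * (v J * (V - v J)) ≤ gam s * (v J * (V - v J)) :=
      mul_le_mul_of_nonneg_right (by linarith [gam_nonneg (p J)]) (mul_nonneg (hv J) hw0)
    have h6 : (V - v J) ^ 2 ≤ v J * (V - v J) := by nlinarith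
    have h7 := mul_le_mul_of_nonneg_left h6 hgs
    have h8 := mul_le_mul_of_nonneg_left h3 hgs
    have h9 : 0 ≤ gam s * (v J * (V - v J)) := mul_nonneg hgs (mul_nonneg (hv J) hw0)
    calc (∑ j, (gam s - gam (p j)) * x j) * ∑ j, x j
        ≤ (∑ j, (gam s - gam (p j)) * v j) * V := h1
      _ ≤ (gam s * (V - v J) + (gam s - gam (p J)) * v J) * V := mul_le_mul_of_nonneg_right h2 hV0
      _ = gam s * (V - v J) ^ 2 + gam s * (v J * (V - v J)) +
          (gam s - gam (p J)) * (v J * (V - v J)) + (gam s - gam (p J)) * v J ^ 2 := by ring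
      _ ≤ 2 * gam s * (V ^ 2 - ∑ j, v j ^ 2) + ∑ j, F j * (V - v j) := by
          have e : 2 * gam s * (V ^ 2 - ∑ j, v j ^ 2) = 2 * (gam s * (V ^ 2 - ∑ j, v j ^ 2)) := by
            ring
          rw [e]
          have e8 : gam s * (2 * (v J * (V - v J))) = 2 * (gam s * (v J * (V - v J))) := by ring
          rw [e8] at h8
          linarith

/-- (B3): the first order term. `r j = ρ_j`, `ρ` the density of the molecule. -/
theorem b3_pt {v r : ι → ℝ} {ρ T D : ℝ} (hv : ∀ j, 0 ≤ v j) (hr : ∀ j, 0 ≤ r j)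
    (hρ : ∀ j, r j ≤ ρ) (hD : 0 ≤ D) (hT0 : 0 ≤ T) (hT : T ≤ D * ∑ i, v i) :
    -(2 * D * ∑ j, r j * (∑ i, v i - v j)) ≤ (ρ - ∑ j, r j) * T := by
  classical
  set V := ∑ i, v i with hV
  have hV0 : 0 ≤ V := Finset.sum_nonneg fun j _ => hv j
  have hvV : ∀ j, v j ≤ V := fun j =>
    Finset.single_le_sum (f := v) (fun i _ => hv i) (Finset.mem_univ j)
  rcases isEmpty_or_nonempty ι with h | h
  · simp only [Finset.univ_eq_empty, Finset.sum_empty] at hV ⊢
    rw [hV, mul_zero] at hT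
    have : T = 0 := le_antisymm hT hT0
    rw [this]
    simp
  obtain ⟨J, hJ⟩ := exists_argmax v
  have h1 : ∑ j, r j = r J + ∑ j ∈ Finset.univ.erase J, r j :=
    (Finset.add_sum_erase _ _ (Finset.mem_univ J)).symm
  have h2 : -(∑ j ∈ Finset.univ.erase J, r j) * T ≤ (ρ - ∑ j, r j) * T := by
    refine mul_le_mul_of_nonneg_right ?_ hT0
    rw [h1]
    linarith [hρ J]
  have hE0 : 0 ≤ ∑ j ∈ Finset.univ.erase J, r j := Finset.sum_nonneg fun j _ => hr j
  have h3 : (∑ j ∈ Finset.univ.erase J, r j) * T ≤ (∑ j ∈ Finset.univ.erase J, r j) * (D * V) :=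
    mul_le_mul_of_nonneg_left hT hE0
  have h4 : ∀ j ∈ Finset.univ.erase J, V ≤ 2 * (V - v j) := by
    intro j hj
    have hjJ : j ≠ J := Finset.ne_of_mem_erase hj
    have h5 : v j + v J ≤ V := by
      have h6 : ∑ i ∈ {j, J}, v i ≤ V :=
        Finset.sum_le_sum_of_subset_of_nonneg (Finset.subset_univ _) fun i _ _ => hv i
      rwa [Finset.sum_pair hjJ] at h6
    linarith [hJ j]
  have h5 : (∑ j ∈ Finset.univ.erase J, r j) * V ≤ 2 * ∑ j, r j * (V - v j) := by
    rw [Finset.sum_mul, Finset.mul_sum]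
    calc ∑ j ∈ Finset.univ.erase J, r j * V
        ≤ ∑ j ∈ Finset.univ.erase J, 2 * (r j * (V - v j)) := by
          refine Finset.sum_le_sum fun j hj => ?_
          have := mul_le_mul_of_nonneg_left (h4 j hj) (hr j)
          linarith
      _ ≤ ∑ j, 2 * (r j * (V - v j)) :=
          Finset.sum_le_sum_of_subset_of_nonneg (Finset.erase_subset _ _) fun i _ _ =>
            mul_nonneg zero_le_two (mul_nonneg (hr i) (sub_nonneg.mpr (hvV i)))
  have h6 := mul_le_mul_of_nonneg_left h5 hD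
  have e : (∑ j ∈ Finset.univ.erase J, r j) * (D * V) =
      D * ((∑ j ∈ Finset.univ.erase J, r j) * V) := by ring
  rw [e] at h3
  linarith

/-- the pointwise bound used for the integral of `gam S₂`: `V = Z Σ c_i d_i`, `Σ c_i = 1` -/
theorem sqrt_le_cone {u m : ℝ} (hm : 0 < m) :
    √(max (u - m) 0) ≤ (√m)⁻¹ * max (u - 3 / 4 * m) 0 := by
  have hs : 0 < √m := Real.sqrt_pos.mpr hm
  rcases le_total (u - m) 0 with h | h
  · rw [max_eq_right h, Real.sqrt_zero]
    positivity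
  · rw [max_eq_left h, max_eq_left (by linarith)]
    have h1 : √m ^ 2 = m := Real.sq_sqrt hm.le
    have h2 : √(u - m) ^ 2 = u - m := Real.sq_sqrt h
    have h3 : √m * √(u - m) ≤ u - 3 / 4 * m := by
      nlinarith [sq_nonneg (√(u - m) - √m / 2)]
    rw [inv_mul_eq_div, le_div_iff₀ hs]
    linarith

theorem cone_convex {z d : ι → ℝ} (hz : ∀ i, 0 ≤ z i) {Z b : ℝ} (hZ : ∑ i, z i = Z) (hZ0 : 0 < Z)
    (hb : 0 ≤ b) :
    max (∑ i, z i * d i - b) 0 ≤ ∑ i, z i / Z * max (Z * d i - b) 0 := by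
  refine max_le ?_ (Finset.sum_nonneg fun i _ =>
    mul_nonneg (div_nonneg (hz i) hZ0.le) (le_max_right _ _))
  have h1 : ∑ i, z i * d i - b = ∑ i, z i / Z * (Z * d i - b) := by
    have h2 : ∀ i, z i / Z * (Z * d i - b) = z i * d i - z i * (b / Z) := by
      intro i
      field_simp
    simp_rw [h2]
    rw [Finset.sum_sub_distrib, ← Finset.sum_mul, hZ]
    field_simp
  rw [h1]
  exact Finset.sum_le_sum fun i _ =>
    mul_le_mul_of_nonneg_left (le_max_left _ _) (div_nonneg (hz i) hZ0.le)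

end Pool.Agent.TF.Light
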