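import Mathlib
import Pool.Agent.Lib.MP_9cf0c9_mp.Tr.LightIon
import Pool.Agent.Lib.MP_9cf0c9_mp.Tr.LightPt
/-! Strongly ionised molecules: the small terms of the second variation. -/

set_option autoImplicit false

set_option linter.unusedSectionVars false

set_option linter.unusedVariables false

set_option linter.style.haveILetI false

namespace Pool.Agent.TF.Light

open MeasureTheory Set Metric Filter Topology Real

variable {ι : Type*} [Fintype ι] {z : ι → ℝ} {R : ι → X} {p D : ℝ}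

/-- the double sum of the nuclear repulsion -/
theorem two_U (z : ι → ℝ) (R : ι → X) :
    ∑ i, ∑ j, z i * z j * ‖R i - R j‖⁻¹ = 2 * Unuc z R := by
  unfold Unuc
  ring

theorem pot_shiftB (σ : X → ℝ) (a x : X) : pot (fun y => σ (y - a)) x = pot σ (x - a) := by
  have := pot_translateV σ a (x - a)
  rwa [sub_add_cancel] at this

/-- the potential of the ion `i` at the nucleus `j` -/
theorem pair_le (hz : ∀ i, 0 < z i) (hp : 0 < p) (hR : Function.Injective R)
    (i j : ι) (hij : i ≠ j) :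
    ∫ x, ‖x - R j‖⁻¹ * ionρ (z i) p (x - R i) ≤ ionN (z i) p * ‖R i - R j‖⁻¹ := by
  have h1 : ∫ x, ‖x - R j‖⁻¹ * ionρ (z i) p (x - R i) =
      pot (fun y => ionρ (z i) p (y - R i)) (R j) := by
    unfold pot
    refine integral_congr_ae (Eventually.of_forall fun x => ?_)
    simp only
    rw [norm_sub_rev]
  rw [h1, pot_shiftB]
  have hne : R j - R i ≠ 0 := sub_ne_zero.mpr fun h => hij (hR h).symm
  have h2 := ion_pot_le (hz i).le hp hne
  rw [norm_sub_rev (R i) (R j)]
  exact h2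

theorem pair_int (hz : ∀ i, 0 < z i) (hp : 0 < p) (i j : ι) :
    Integrable fun x => ‖x - R j‖⁻¹ * ionρ (z i) p (x - R i) := by
  have h1 := ((ionρ_tc (hz i) hp).translate (R i)).pot_integrable (R j)
  refine h1.congr (Eventually.of_forall fun x => ?_)
  simp only
  rw [norm_sub_rev]

/-- (B1) -/
theorem b1 (hz : ∀ i, 0 < z i) (hp : 0 < p) (hN : ∀ i, ionN (z i) p ≤ D * z i) :
    ∑ i, z i * ∑ j, ionn (z j) p (R i - R j) ≤ D * (2 * Unuc z R) := by
  rw [← two_U, Finset.mul_sum]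
  refine Finset.sum_le_sum fun i _ => ?_
  rw [Finset.mul_sum, Finset.mul_sum]
  refine Finset.sum_le_sum fun j _ => ?_
  have h1 := ionn_le_mass (hz j) hp (R i - R j)
  have h2 : 0 ≤ ‖R i - R j‖⁻¹ := by positivity
  have h3 := mul_le_mul_of_nonneg_right (hN j) h2
  have h4 := mul_le_mul_of_nonneg_left (h1.trans h3) (hz i).le
  refine h4.trans (le_of_eq ?_)
  ring

/-- (B2) -/
theorem b2 [DecidableEq ι] (hz : ∀ i, 0 < z i) (hp : 0 < p) (hR : Function.Injective R) (hD : 0 ≤ D)
    (hN : ∀ i, ionN (z i) p ≤ D * z i) :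
    -(D ^ 2 * (2 * Unuc z R)) ≤ ∫ x, (∑ i, ionρ (z i) p (x - R i)) *
      (∑ j, pot (ionρ (z j) p) (x - R j) - 2 * ∑ j, ionn (z j) p (x - R j)) := by
  have hT : ∀ i, TC (fun x => ionρ (z i) p (x - R i)) := fun i =>
    (ionρ_tc (hz i) hp).translate (R i)
  -- the integrand as a double sum
  have e1 : ∀ x, (∑ i, ionρ (z i) p (x - R i)) *
      (∑ j, pot (ionρ (z j) p) (x - R j) - 2 * ∑ j, ionn (z j) p (x - R j)) =
      ∑ i, ∑ j, ionρ (z i) p (x - R i) *
        (pot (ionρ (z j) p) (x - R j) - 2 * ionn (z j) p (x - R j)) := by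
    intro x
    rw [Finset.mul_sum, ← Finset.sum_sub_distrib, Finset.sum_mul_sum]
  have hbn : ∀ j x, |pot (ionρ (z j) p) (x - R j) - 2 * ionn (z j) p (x - R j)| ≤
      2 * tcB (ionρ (z j) p) := by
    intro j x
    have a1 := (ionρ_tc (hz j) hp).pot_le (x - R j)
    have a2 := pot_nonneg (ionρ_tc (hz j) hp).nonneg (x - R j)
    have a3 := ionn_nonneg (hz j) hp (x - R j)
    have a4 := ionn_le_pot (hz j) hp (x - R j)
    rw [abs_le]
    constructor <;> linarith
  have hmn : ∀ j, Measurable fun x => pot (ionρ (z j) p) (x - R j) -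
      2 * ionn (z j) p (x - R j) := by
    intro j
    have m1 : Measurable fun x : X => pot (ionρ (z j) p) (x - R j) :=
      (ionρ_tc (hz j) hp).pot_continuous.measurable.comp (measurable_id.sub_const (R j))
    have m2 : Measurable fun x : X => ionn (z j) p (x - R j) :=
      (ionn_meas (hz j) hp).comp (measurable_id.sub_const (R j))
    exact m1.sub (m2.const_mul 2)
  have hI : ∀ i j, Integrable fun x => ionρ (z i) p (x - R i) *
      (pot (ionρ (z j) p) (x - R j) - 2 * ionn (z j) p (x - R j)) := by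
    intro i j
    have h1 := (hT i).int.mul_bdd (c := 2 * tcB (ionρ (z j) p)) (hmn j).aestronglyMeasurable
      (Eventually.of_forall fun x => by rw [Real.norm_eq_abs]; exact hbn j x)
    exact h1
  simp_rw [e1]
  rw [integral_finsetSum _ fun i _ => integrable_finsetSum _ fun j _ => hI i j]
  have e2 : ∀ i, ∫ x, ∑ j, ionρ (z i) p (x - R i) *
      (pot (ionρ (z j) p) (x - R j) - 2 * ionn (z j) p (x - R j)) =
      ∑ j, ∫ x, ionρ (z i) p (x - R i) *
      (pot (ionρ (z j) p) (x - R j) - 2 * ionn (z j) p (x - R j)) := fun i =>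
    integral_finsetSum _ fun j _ => hI i j
  simp_rw [e2]
  rw [← two_U, Finset.mul_sum, ← Finset.sum_neg_distrib]
  refine Finset.sum_le_sum fun i _ => ?_
  rw [Finset.mul_sum, ← Finset.sum_neg_distrib]
  refine Finset.sum_le_sum fun j _ => ?_
  by_cases hij : i = j
  · subst hij
    have h1 : ∫ x, ionρ (z i) p (x - R i) *
        (pot (ionρ (z i) p) (x - R i) - 2 * ionn (z i) p (x - R i)) = 0 := by
      rw [integral_sub_right_eq_self (fun x => ionρ (z i) p x *
        (pot (ionρ (z i) p) x - 2 * ionn (z i) p x)) (R i)]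
      exact ion_self (hz i) hp
    rw [h1, sub_self, norm_zero, inv_zero]
    simp
  · have h1 : ∫ x, -(ionN (z j) p * (‖x - R j‖⁻¹ * ionρ (z i) p (x - R i))) ≤
        ∫ x, ionρ (z i) p (x - R i) *
          (pot (ionρ (z j) p) (x - R j) - 2 * ionn (z j) p (x - R j)) := by
      refine integral_mono ((pair_int hz hp i j).const_mul _).neg (hI i j) fun x => ?_
      simp only
      have a1 := ionn_le_pot (hz j) hp (x - R j)
      have a2 := ionn_le_mass (hz j) hp (x - R j)
      have a3 := (ionρ_tc (hz i) hp).nonneg (x - R i)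
      have a4 : -(ionN (z j) p * ‖x - R j‖⁻¹) ≤
        pot (ionρ (z j) p) (x - R j) - 2 * ionn (z j) p (x - R j) := by linarith
      have a5 := mul_le_mul_of_nonneg_left a4 a3
      refine le_trans (le_of_eq ?_) a5
      ring
    rw [integral_neg, integral_const_mul] at h1
    have h2 := pair_le hz hp hR i j hij
    have h3 := mul_le_mul_of_nonneg_left h2 (ionN_nonneg (hz j) hp)
    have h4 : ionN (z j) p * (ionN (z i) p * ‖R i - R j‖⁻¹) ≤
        D ^ 2 * (z i * z j * ‖R i - R j‖⁻¹) := by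
      have b1 : ionN (z j) p * ionN (z i) p ≤ D * z j * (D * z i) :=
        mul_le_mul (hN j) (hN i) (ionN_nonneg (hz i) hp) (mul_nonneg hD (hz j).le)
      have b2 : 0 ≤ ‖R i - R j‖⁻¹ := by positivity
      have b3 := mul_le_mul_of_nonneg_right b1 b2
      refine le_trans (le_of_eq ?_) (b3.trans (le_of_eq ?_)) <;> ring
    linarith

/-- a molecule and its ions -/
theorem ionρ_le (hz : ∀ i, 0 < z i) (hp : 0 < p) {ρ : X → ℝ} (hρ : TC ρ)
    (heq : ∀ x, ρ x = tf (Vpt z R x - pot ρ x - p)) (j : ι) {x : X} (hx : ∀ i, x ≠ R i) :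
    ionρ (z j) p (x - R j) ≤ ρ x := by
  have hsol : Sol p z R ρ := ⟨hρ, fun x _ => heq x⟩
  have h1 := ion_le (hz j).le hp le_rfl (fun i => (hz i).le) hsol j le_rfl hx
  rw [heq x, (ion_all (hz j).le hp).2.2.1 _ (sub_ne_zero.mpr (hx j))]
  exact tf_mono h1

theorem rest_eq [DecidableEq ι] (j : ι) (x : X) :
    Vpt z R x - z j * ‖x - R j‖⁻¹ = ∑ i ∈ Finset.univ.erase j, z i * ‖x - R i‖⁻¹ := by
  unfold Vpt
  rw [← Finset.add_sum_erase _ (fun i => z i * ‖x - R i‖⁻¹) (Finset.mem_univ j)]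
  ring

theorem rest_int [DecidableEq ι] (hz : ∀ i, 0 < z i) (hp : 0 < p) (hR : Function.Injective R)
    (hN : ∀ i, ionN (z i) p ≤ D * z i) (j : ι) :
    Integrable (fun x => ionρ (z j) p (x - R j) * (Vpt z R x - z j * ‖x - R j‖⁻¹)) ∧
      ∫ x, ionρ (z j) p (x - R j) * (Vpt z R x - z j * ‖x - R j‖⁻¹) ≤
        D * ∑ i, z j * z i * ‖R j - R i‖⁻¹ := by
  have e1 : ∀ x, ionρ (z j) p (x - R j) * (Vpt z R x - z j * ‖x - R j‖⁻¹) =
      ∑ i ∈ Finset.univ.erase j, z i * (‖x - R i‖⁻¹ * ionρ (z j) p (x - R j)) := by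
    intro x
    rw [rest_eq, Finset.mul_sum]
    refine Finset.sum_congr rfl fun i _ => ?_
    ring
  have hI : ∀ i, Integrable fun x => z i * (‖x - R i‖⁻¹ * ionρ (z j) p (x - R j)) := fun i =>
    (pair_int hz hp j i).const_mul _
  simp_rw [e1]
  refine ⟨integrable_finsetSum _ fun i _ => hI i, ?_⟩
  rw [integral_finsetSum _ fun i _ => hI i, Finset.mul_sum]
  have h0 : ∀ i, 0 ≤ D * (z j * z i * ‖R j - R i‖⁻¹) := by
    intro i
    have a1 : 0 ≤ D * z j := (ionN_nonneg (hz j) hp).trans (hN j)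
    have a2 : 0 ≤ z i * ‖R j - R i‖⁻¹ := mul_nonneg (hz i).le (by positivity)
    have a3 := mul_nonneg a1 a2
    refine a3.trans (le_of_eq ?_)
    ring
  refine le_trans (Finset.sum_le_sum fun i hi => ?_)
    (Finset.sum_le_sum_of_subset_of_nonneg (Finset.erase_subset j Finset.univ) fun i _ _ => h0 i)
  rw [integral_const_mul]
  have h1 := pair_le hz hp hR j i (Finset.ne_of_mem_erase hi).symm
  have h2 : 0 ≤ ‖R j - R i‖⁻¹ := by positivity
  have h3 := mul_le_mul_of_nonneg_right (hN j) h2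
  have h4 := mul_le_mul_of_nonneg_left (h1.trans h3) (hz i).le
  refine h4.trans (le_of_eq ?_)
  ring

/-- (B3) -/
theorem b3 [DecidableEq ι] (hz : ∀ i, 0 < z i) (hp : 0 < p) (hR : Function.Injective R)
    {ρ : X → ℝ} (hρ : TC ρ) (heq : ∀ x, ρ x = tf (Vpt z R x - pot ρ x - p))
    (hD : 0 ≤ D) (hD2 : D ≤ 1 / 2) (hN : ∀ i, ionN (z i) p ≤ D * z i) :
    -(8 * D * (1 + D) * Unuc z R) ≤ 2 * ∫ x, (ρ x - ∑ i, ionρ (z i) p (x - R i)) *
      (Vpt z R x + ∑ j, pot (ionρ (z j) p) (x - R j) - 2 * ∑ j, ionn (z j) p (x - R j)) := by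
  have hT : ∀ i, TC (fun x => ionρ (z i) p (x - R i)) := fun i =>
    (ionρ_tc (hz i) hp).translate (R i)
  set T : X → ℝ := fun x => Vpt z R x + ∑ j, pot (ionρ (z j) p) (x - R j) -
    2 * ∑ j, ionn (z j) p (x - R j) with hTdef
  set K : X → ℝ := fun x => ∑ j, pot (ionρ (z j) p) (x - R j) -
    2 * ∑ j, ionn (z j) p (x - R j) with hK
  have hTK : ∀ x, T x = Vpt z R x + K x := fun x => by
    simp only [hTdef, hK]
    ring
  have hKm : Measurable K := by
    refine (Finset.measurable_fun_sum _ fun j _ => ?_).sub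
      ((Finset.measurable_fun_sum _ fun j _ => ?_).const_mul 2)
    · exact (ionρ_tc (hz j) hp).pot_continuous.measurable.comp (measurable_id.sub_const (R j))
    · exact (ionn_meas (hz j) hp).comp (measurable_id.sub_const (R j))
  have hKb : ∀ x, |K x| ≤ 2 * ∑ j, tcB (ionρ (z j) p) := by
    intro x
    have a1 : ∑ j, pot (ionρ (z j) p) (x - R j) ≤ ∑ j, tcB (ionρ (z j) p) :=
      Finset.sum_le_sum fun j _ => (ionρ_tc (hz j) hp).pot_le (x - R j)
    have a2 : 0 ≤ ∑ j, pot (ionρ (z j) p) (x - R j) :=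
      Finset.sum_nonneg fun j _ => pot_nonneg (ionρ_tc (hz j) hp).nonneg (x - R j)
    have a3 : 0 ≤ ∑ j, ionn (z j) p (x - R j) :=
      Finset.sum_nonneg fun j _ => ionn_nonneg (hz j) hp (x - R j)
    have a4 : ∑ j, ionn (z j) p (x - R j) ≤ ∑ j, pot (ionρ (z j) p) (x - R j) :=
      Finset.sum_le_sum fun j _ => ionn_le_pot (hz j) hp (x - R j)
    simp only [hK]
    rw [abs_le]
    constructor <;> linarith
  have hmulT : ∀ σ : X → ℝ, TC σ → Integrable fun x => σ x * T x := by
    intro σ hσ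
    have h1 := hσ.Vpt_int z R
    have h2 : Integrable fun x => σ x * K x := hσ.int.mul_bdd
      (c := 2 * ∑ j, tcB (ionρ (z j) p)) hKm.aestronglyMeasurable
      (Eventually.of_forall fun x => by rw [Real.norm_eq_abs]; exact hKb x)
    refine (h1.add h2).congr (Eventually.of_forall fun x => ?_)
    simp only [Pi.add_apply]
    rw [hTK]
    ring
  have hI : Integrable fun x => (ρ x - ∑ i, ionρ (z i) p (x - R i)) * T x := by
    have h1 : Integrable fun x => ρ x * T x - ∑ i, ionρ (z i) p (x - R i) * T x :=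
      (hmulT ρ hρ).sub (integrable_finsetSum _ fun i _ => hmulT _ (hT i))
    refine h1.congr (Eventually.of_forall fun x => ?_)
    simp only
    rw [sub_mul, Finset.sum_mul]
  have hr := fun j => rest_int hz hp hR hN j
  have hsumI : Integrable fun x => ∑ j, ionρ (z j) p (x - R j) *
      (Vpt z R x - z j * ‖x - R j‖⁻¹) := integrable_finsetSum _ fun j _ => (hr j).1
  have hpt : ∫ x, -(2 * (1 + D) * ∑ j, ionρ (z j) p (x - R j) *
      (Vpt z R x - z j * ‖x - R j‖⁻¹)) ≤
      ∫ x, (ρ x - ∑ i, ionρ (z i) p (x - R i)) * T x := by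
    refine integral_mono_ae (hsumI.const_mul _).neg hI ?_
    filter_upwards [ae_off R] with x hx
    have hV : Vpt z R x = ∑ i, z i * ‖x - R i‖⁻¹ := rfl
    have h1 : ∀ j, pot (ionρ (z j) p) (x - R j) ≤ D * (z j * ‖x - R j‖⁻¹) := by
      intro j
      have a1 := ion_pot_le (hz j).le hp (sub_ne_zero.mpr (hx j))
      have a2 : 0 ≤ ‖x - R j‖⁻¹ := by positivity
      have a3 := mul_le_mul_of_nonneg_right (hN j) a2
      refine (a1.trans a3).trans (le_of_eq ?_)
      ring
    have h2 : ∑ j, pot (ionρ (z j) p) (x - R j) ≤ D * Vpt z R x := by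
      rw [hV, Finset.mul_sum]
      exact Finset.sum_le_sum fun j _ => h1 j
    have h3 : ∑ j, ionn (z j) p (x - R j) ≤ ∑ j, pot (ionρ (z j) p) (x - R j) :=
      Finset.sum_le_sum fun j _ => ionn_le_pot (hz j) hp (x - R j)
    have h4 : 0 ≤ ∑ j, ionn (z j) p (x - R j) :=
      Finset.sum_nonneg fun j _ => ionn_nonneg (hz j) hp (x - R j)
    have h5 : 0 ≤ Vpt z R x := Vpt_nonneg (fun i => (hz i).le) R x
    have h6 : D * Vpt z R x ≤ 1 / 2 * Vpt z R x := mul_le_mul_of_nonneg_right hD2 h5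
    have h7 := b3_pt (v := fun j => z j * ‖x - R j‖⁻¹) (r := fun j => ionρ (z j) p (x - R j))
      (ρ := ρ x) (T := T x) (D := 1 + D) (fun j => mul_nonneg (hz j).le (by positivity))
      (fun j => (ionρ_tc (hz j) hp).nonneg _) (fun j => ionρ_le hz hp hρ heq j hx)
      (by linarith) (by simp only [hTdef]; linarith) (by
        simp only [hTdef]
        rw [← hV]
        linarith)
    exact h7
  rw [integral_neg, integral_const_mul, integral_finsetSum _ fun j _ => (hr j).1] at hpt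
  have hfin : ∑ j, ∫ x, ionρ (z j) p (x - R j) * (Vpt z R x - z j * ‖x - R j‖⁻¹) ≤
      D * (2 * Unuc z R) := by
    rw [← two_U, Finset.mul_sum]
    exact Finset.sum_le_sum fun j _ => (hr j).2
  have h8 := mul_le_mul_of_nonneg_left hfin (show (0 : ℝ) ≤ 2 * (2 * (1 + D)) by linarith)
  have h9 : 2 * (2 * (1 + D)) * (D * (2 * Unuc z R)) = 8 * D * (1 + D) * Unuc z R := by ring
  linarith

end Pool.Agent.TF.Light
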