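import Mathlib
import Pool.Agent.Lib.MP_9cf0c9_mp.Tr.Calib
import Pool.Agent.Lib.MP_9cf0c9_mp.Tr.IonA
/-! The edge estimate for the isolated ion: the increment of `gam` is bounded by an integrable
radial function of explicit mass. -/

set_option autoImplicit false

set_option linter.unusedSectionVars false

set_option linter.unusedVariables false

set_option linter.style.haveILetI false

namespace Pool.Agent.TF.Light

open MeasureTheory Set Metric Filter Topology Real

/-! ### the increment of `gam` -/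

theorem gam_incr_pos {t w : ℝ} (ht : 0 < t) (hw : 0 ≤ w) :
    gam (t + w) - gam t ≤ 3 / 4 * w / √t := by
  have h1 : 0 < √t := sqrt_pos.mpr ht
  unfold gam
  rw [max_eq_left (by linarith), max_eq_left ht.le]
  have h2 : √t ^ 2 = t := sq_sqrt ht.le
  have h3 : √(t + w) ^ 2 = t + w := sq_sqrt (by linarith)
  rw [le_div_iff₀ h1]
  nlinarith [sq_nonneg (√(t + w) - √t)]

theorem gam_incr_neg {t w : ℝ} (ht : t < 0) (hw : 0 ≤ w) :
    gam (t + w) - gam t ≤ 3 / 4 * w / √(-t) := by
  have h1 : 0 < √(-t) := sqrt_pos.mpr (by linarith)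
  unfold gam
  rw [max_eq_right ht.le, sqrt_zero]
  rcases le_total (t + w) 0 with h | h
  · rw [max_eq_right h, sqrt_zero]
    have : 0 ≤ 3 / 4 * w / √(-t) := by positivity
    linarith
  · rw [max_eq_left h]
    have h2 : √(-t) ^ 2 = -t := sq_sqrt (by linarith)
    have h3 : √(t + w) ^ 2 = t + w := sq_sqrt h
    have h4 : 0 ≤ √(t + w) := sqrt_nonneg _
    rw [le_div_iff₀ h1]
    nlinarith [sq_nonneg (√(t + w) - √(-t))]

theorem gam_incr {t w : ℝ} (ht : t ≠ 0) (hw : 0 ≤ w) :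
    gam (t + w) - gam t ≤ 3 / 4 * w / √|t| := by
  rcases lt_or_gt_of_ne ht with h | h
  · rw [abs_of_neg h]; exact gam_incr_neg h hw
  · rw [abs_of_pos h]; exact gam_incr_pos h hw

/-! ### the kernel -/

theorem rpow_neg_half {x : ℝ} (hx : x < 0) : x ^ (-(1 / 2) : ℝ) = 0 := by
  rw [rpow_def_of_neg hx]
  have : cos (-(1 / 2) * π) = 0 := by
    rw [show -(1 / 2) * π = -(π / 2) by ring, cos_neg, cos_pi_div_two]
  rw [this, mul_zero]

theorem rpow_half_nonneg (x : ℝ) : 0 ≤ x ^ (-(1 / 2) : ℝ) := by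
  rcases lt_or_ge x 0 with h | h
  · rw [rpow_neg_half h]
  · exact rpow_nonneg h _

theorem rpow_half_eq {x : ℝ} (hx : 0 < x) : x ^ (-(1 / 2) : ℝ) = (√x)⁻¹ := by
  rw [rpow_neg hx.le, ← sqrt_eq_rpow]

/-- the radial kernel -/
noncomputable def edK (a b r : ℝ) : ℝ :=
  a * (a - r) ^ (-(1 / 2) : ℝ) + √(a * b) * (r - a) ^ (-(1 / 2) : ℝ)

theorem edK_nonneg {a b : ℝ} (ha : 0 ≤ a) (r : ℝ) : 0 ≤ edK a b r := by
  unfold edK
  have h1 := rpow_half_nonneg (a - r)
  have h2 := rpow_half_nonneg (r - a)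
  positivity

theorem edK_meas (a b : ℝ) : Measurable (edK a b) := by
  unfold edK
  exact ((measurable_const.sub measurable_id).pow_const _ |>.const_mul a).add
    (((measurable_id.sub measurable_const).pow_const _).const_mul _)

theorem edK_ge {a b r : ℝ} (hr : 0 < r) (hra : r ≠ a) (ha : 0 < a) (hb : r ≤ b) :
    √(r * a / |r - a|) ≤ edK a b r := by
  unfold edK
  rw [sqrt_div (by positivity)]
  rcases lt_or_gt_of_ne hra with h | h
  · have h1 : 0 < a - r := by linarith
    rw [rpow_neg_half (by linarith : r - a < 0), mul_zero, add_zero, rpow_half_eq h1,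
      abs_of_neg (by linarith), neg_sub, div_eq_mul_inv]
    refine mul_le_mul_of_nonneg_right ?_ (by positivity)
    rw [sqrt_le_left ha.le]
    nlinarith
  · have h1 : 0 < r - a := by linarith
    rw [rpow_neg_half (by linarith : a - r < 0), mul_zero, zero_add, rpow_half_eq h1,
      abs_of_pos h1, div_eq_mul_inv]
    refine mul_le_mul_of_nonneg_right ?_ (by positivity)
    refine sqrt_le_sqrt ?_
    nlinarith

theorem edK_int {a b : ℝ} : IntervalIntegrable (edK a b) volume 0 b := by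
  unfold edK
  have h := intervalIntegral.intervalIntegrable_rpow' (a := a) (b := a - b) (r := (-(1 / 2) : ℝ))
    (by norm_num)
  have h1 : IntervalIntegrable (fun r => (a - r) ^ (-(1 / 2) : ℝ)) volume 0 b := by
    have := h.comp_sub_left a
    simpa using this
  have h' := intervalIntegral.intervalIntegrable_rpow' (a := 0 - a) (b := b - a)
    (r := (-(1 / 2) : ℝ)) (by norm_num)
  have h2 : IntervalIntegrable (fun r => (r - a) ^ (-(1 / 2) : ℝ)) volume 0 b := by
    have := h'.comp_sub_right a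
    simpa using this
  exact (h1.const_mul a).add (h2.const_mul _)

theorem edK_integral {a b : ℝ} (ha : 0 < a) (hab : a ≤ b) :
    ∫ r in (0 : ℝ)..b, edK a b r = a * (2 * √a) + √(a * b) * (2 * √(b - a)) := by
  unfold edK
  have h := intervalIntegral.intervalIntegrable_rpow' (a := a) (b := a - b) (r := (-(1 / 2) : ℝ))
    (by norm_num)
  have h1 : IntervalIntegrable (fun r => (a - r) ^ (-(1 / 2) : ℝ)) volume 0 b := by
    have := h.comp_sub_left a
    simpa using this
  have h' := intervalIntegral.intervalIntegrable_rpow' (a := 0 - a) (b := b - a)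
    (r := (-(1 / 2) : ℝ)) (by norm_num)
  have h2 : IntervalIntegrable (fun r => (r - a) ^ (-(1 / 2) : ℝ)) volume 0 b := by
    have := h'.comp_sub_right a
    simpa using this
  rw [intervalIntegral.integral_add (h1.const_mul a) (h2.const_mul _),
    intervalIntegral.integral_const_mul, intervalIntegral.integral_const_mul,
    intervalIntegral.integral_comp_sub_left (fun x => x ^ (-(1 / 2) : ℝ)),
    intervalIntegral.integral_comp_sub_right (fun x => x ^ (-(1 / 2) : ℝ)),
    integral_rpow (Or.inl (by norm_num)), integral_rpow (Or.inl (by norm_num))]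
  have e : (-(1 / 2) + 1 : ℝ) = 1 / 2 := by norm_num
  rw [e, ← sqrt_eq_rpow, ← sqrt_eq_rpow, ← sqrt_eq_rpow, ← sqrt_eq_rpow, sub_zero,
    sqrt_eq_zero_of_nonpos (by linarith : a - b ≤ 0),
    sqrt_eq_zero_of_nonpos (by linarith : 0 - a ≤ 0)]
  ring

/-- the radial weight -/
noncomputable def edF (z Q a b : ℝ) : ℝ → ℝ :=
  (Ioo 0 b).indicator fun r => 3 / 4 * (z / r) ^ 2 * (edK a b r / √Q)

theorem edF_meas (z Q a b : ℝ) : Measurable (edF z Q a b) := by
  unfold edF
  refine Measurable.indicator ?_ measurableSet_Ioo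
  exact ((((measurable_const.div measurable_id).pow_const _).const_mul _)).mul
    ((edK_meas a b).div_const _)

theorem edF_nonneg {z Q a b : ℝ} (ha : 0 ≤ a) (r : ℝ) : 0 ≤ edF z Q a b r := by
  unfold edF
  refine indicator_nonneg (fun r _ => ?_) r
  have := edK_nonneg (b := b) ha r
  positivity

theorem edF_rad (z Q a b : ℝ) (s : ℝ) : 4 * π * s ^ 2 * edF z Q a b s =
    (Ioo 0 b).indicator (fun r => 3 * π * z ^ 2 / √Q * edK a b r) s := by
  unfold edF
  by_cases h : s ∈ Ioo 0 b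
  · rw [indicator_of_mem h, indicator_of_mem h]
    have : s ≠ 0 := h.1.ne'
    field_simp
  · rw [indicator_of_notMem h, indicator_of_notMem h, mul_zero]

theorem edF_integrable {z Q a b : ℝ} (hb : 0 ≤ b) :
    Integrable fun x : X => edF z Q a b ‖x‖ := by
  rw [integrable_radial_iff (V := X)]
  simp_rw [edF_rad]
  have h := (edK_int (a := a) (b := b)).const_mul (3 * π * z ^ 2 / √Q)
  rw [intervalIntegrable_iff_integrableOn_Ioo_of_le hb] at h
  exact (h.integrable_indicator measurableSet_Ioo).integrableOn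

theorem edF_mass {z Q a b : ℝ} (ha : 0 < a) (hab : a ≤ b) :
    ∫ x : X, edF z Q a b ‖x‖ =
      3 * π * z ^ 2 / √Q * (a * (2 * √a) + √(a * b) * (2 * √(b - a))) := by
  rw [integral_radial (V := X)]
  simp_rw [edF_rad]
  rw [← edK_integral ha hab, ← intervalIntegral.integral_const_mul,
    intervalIntegral.integral_of_le (by linarith), integral_Ioc_eq_integral_Ioo,
    ← integral_indicator measurableSet_Ioi, ← integral_indicator measurableSet_Ioo,
    indicator_indicator]
  congr 1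
  rw [inter_eq_right.mpr (fun x hx => hx.1)]

/-! ### the profile near its zero -/

theorem ion_zero_at {z p : ℝ} {ψ q : ℝ → ℝ} (hz : 0 < z) (hp : 0 < p) (hI : Ion z p ψ q) :
    ∃ a, 0 < a ∧ a ≤ z / p ∧ ψ a = 0 := by
  obtain ⟨B, hB⟩ := hI.low
  have hB1 : 0 < |B| + 1 := by positivity
  set r₀ := min (z / p) (z / (|B| + 1)) with hr0
  have h0 : 0 < r₀ := lt_min (by positivity) (by positivity)
  have h1 : r₀ ≤ z / p := min_le_left _ _
  have h2 : r₀ ≤ z / (|B| + 1) := min_le_right _ _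
  have h3 : 0 ≤ ψ r₀ := by
    have h4 := hB r₀ h0
    have h5 : |B| + 1 ≤ z / r₀ := by
      rw [le_div_iff₀ h0]
      rw [le_div_iff₀ hB1] at h2
      linarith
    linarith [le_abs_self B]
  have h4 : ψ (z / p) ≤ 0 := by
    have h5 := hI.up (z / p) (by positivity)
    have h6 : z / (z / p) = p := by field_simp
    rw [h6] at h5
    linarith
  have hc : ContinuousOn ψ (Icc r₀ (z / p)) := fun x hx =>
    (hI.dψ x (lt_of_lt_of_le h0 hx.1)).continuousAt.continuousWithinAt
  obtain ⟨a, ha, ha0⟩ := intermediate_value_Icc' h1 hc (show (0 : ℝ) ∈ Icc (ψ (z / p)) (ψ r₀) from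
    ⟨h4, h3⟩)
  exact ⟨a, lt_of_lt_of_le h0 ha.1, ha.2, ha0⟩

theorem ion_anti {z p Q : ℝ} {ψ q : ℝ → ℝ} (hI : Ion z p ψ q) (hQ : ∀ r, 0 < r → Q ≤ q r) :
    AntitoneOn (fun r => ψ r - Q / r) (Ioi 0) := by
  have hd : ∀ r ∈ Ioi (0 : ℝ), HasDerivAt (fun r => ψ r - Q / r) (-(q r) / r ^ 2 + Q / r ^ 2) r := by
    intro r hr
    have hr0 : r ≠ 0 := ne_of_gt hr
    have h1 := (hasDerivAt_inv hr0).const_mul Q
    have h2 := (hI.dψ r hr).sub h1
    refine (h2.congr_deriv ?_).congr_of_eventuallyEq ?_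
    · field_simp
      ring
    · exact Eventually.of_forall fun x => by simp [div_eq_mul_inv]
  refine antitoneOn_of_deriv_nonpos (convex_Ioi 0) (fun r hr =>
    (hd r hr).continuousAt.continuousWithinAt) (fun r hr => ?_) fun r hr => ?_
  · rw [interior_Ioi] at hr
    exact (hd r hr).differentiableAt.differentiableWithinAt
  · rw [interior_Ioi] at hr
    rw [(hd r hr).deriv, ← add_div]
    have hr' : 0 < r := hr
    refine div_nonpos_of_nonpos_of_nonneg ?_ (by positivity)
    linarith [hQ r hr]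

theorem ion_abs_ge {z p Q a : ℝ} {ψ q : ℝ → ℝ} (hI : Ion z p ψ q) (hQ : ∀ r, 0 < r → Q ≤ q r)
    (hQ0 : 0 ≤ Q) (ha : 0 < a) (hψ : ψ a = 0) {r : ℝ} (hr : 0 < r) :
    Q * (|r - a| / (r * a)) ≤ |ψ r| := by
  have h := ion_anti hI hQ
  have e : Q * (|r - a| / (r * a)) = |Q / r - Q / a| := by
    have h1 : Q / r - Q / a = Q * ((a - r) / (r * a)) := by field_simp
    rw [h1, abs_mul, abs_div, abs_of_nonneg hQ0, abs_of_pos (by positivity : 0 < r * a),
      abs_sub_comm]
  rw [e]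
  rcases le_total r a with h1 | h1
  · have h2 := h (show r ∈ Ioi (0 : ℝ) from hr) (show a ∈ Ioi (0 : ℝ) from ha) h1
    simp only at h2
    rw [hψ] at h2
    have h3 : Q / a ≤ Q / r := div_le_div_of_nonneg_left hQ0 hr h1
    rw [abs_of_nonneg (by linarith)]
    exact le_trans (by linarith) (le_abs_self _)
  · have h2 := h (show a ∈ Ioi (0 : ℝ) from ha) (show r ∈ Ioi (0 : ℝ) from hr) h1
    simp only at h2
    rw [hψ] at h2
    have h3 : Q / r ≤ Q / a := div_le_div_of_nonneg_left hQ0 ha h1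
    rw [abs_of_nonpos (by linarith)]
    exact le_trans (by linarith) (neg_le_abs _)

/-- (A5), for a profile with net charge at least `Q` -/
theorem edge_of_ion {z p Q : ℝ} {ψ q : ℝ → ℝ} (hz : 0 < z) (hp : 0 < p) (hI : Ion z p ψ q)
    (hQ0 : 0 < Q) (hQ : ∀ r, 0 < r → Q ≤ q r) :
    ∃ F : ℝ → ℝ, ∃ a : ℝ, Measurable F ∧ (∀ r, 0 ≤ F r) ∧ Integrable (fun x : X => F ‖x‖) ∧
      ∫ x : X, F ‖x‖ ≤ 3 * π * z ^ 2 / √Q * ((2 + 2 * √2) * (z / p * √(z / p))) ∧
      ∀ r, 0 < r → r ≠ a → ∀ w, 0 ≤ w → w ≤ z / r → p < z / r + w →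
        (z / r) ^ 2 * (gam (ψ r + w) - gam (ψ r)) ≤ F r * w := by
  obtain ⟨a, ha0, ham, hψa⟩ := ion_zero_at hz hp hI
  set m := z / p with hm
  have hm0 : 0 < m := by positivity
  have hab : a ≤ 2 * m := by linarith
  refine ⟨edF z Q a (2 * m), a, edF_meas _ _ _ _, edF_nonneg ha0.le, edF_integrable (by linarith),
    ?_, ?_⟩
  · rw [edF_mass ha0 hab]
    refine mul_le_mul_of_nonneg_left ?_ (by positivity)
    have h1 : a * (2 * √a) ≤ 2 * (m * √m) := by
      have := sqrt_le_sqrt ham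
      nlinarith [sqrt_nonneg a, sqrt_nonneg m]
    have h2 : √(a * (2 * m)) * (2 * √(2 * m - a)) ≤ 2 * √2 * (m * √m) := by
      have e1 : √(a * (2 * m)) * √(2 * m - a) = √(2 * m) * √(a * (2 * m - a)) := by
        rw [← sqrt_mul (by positivity), ← sqrt_mul (by positivity)]
        congr 1
        ring
      have e2 : √(a * (2 * m - a)) ≤ m := by
        rw [sqrt_le_left hm0.le]
        nlinarith [sq_nonneg (m - a)]
      have e3 : √(2 * m) = √2 * √m := sqrt_mul (by norm_num) _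
      calc √(a * (2 * m)) * (2 * √(2 * m - a)) = 2 * (√(a * (2 * m)) * √(2 * m - a)) := by ring
        _ = 2 * (√(2 * m) * √(a * (2 * m - a))) := by rw [e1]
        _ ≤ 2 * (√(2 * m) * m) := by gcongr
        _ = 2 * √2 * (m * √m) := by rw [e3]; ring
    linarith
  · intro r hr hra w hw hwz hpw
    have hrb : r < 2 * m := by
      have h1 : p < 2 * (z / r) := by linarith
      have h2 : 2 * (z / r) = 2 * z / r := by ring
      rw [h2, lt_div_iff₀ hr] at h1
      rw [hm, show 2 * (z / p) = 2 * z / p by ring, lt_div_iff₀ hp]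
      linarith
    have hd : 0 < |r - a| := abs_pos.mpr (sub_ne_zero.mpr hra)
    have hlow := ion_abs_ge hI hQ hQ0.le ha0 hψa hr
    have hpos : 0 < Q * (|r - a| / (r * a)) := by positivity
    have hne : ψ r ≠ 0 := by
      intro h
      rw [h, abs_zero] at hlow
      linarith
    have h1 := gam_incr hne hw
    have h2 : 3 / 4 * w / √|ψ r| ≤ 3 / 4 * w * (edK a (2 * m) r / √Q) := by
      rw [div_eq_mul_inv]
      refine mul_le_mul_of_nonneg_left ?_ (by positivity)
      have h3 : (√|ψ r|)⁻¹ ≤ (√(Q * (|r - a| / (r * a))))⁻¹ :=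
        inv_anti₀ (sqrt_pos.mpr hpos) (sqrt_le_sqrt hlow)
      refine h3.trans ?_
      have h4 := edK_ge hr hra ha0 hrb.le
      rw [sqrt_mul hQ0.le, mul_inv, ← sqrt_inv (|r - a| / (r * a)), inv_div, div_eq_mul_inv,
        mul_comm]
      exact mul_le_mul_of_nonneg_right h4 (by positivity)
    have hF : edF z Q a (2 * m) r = 3 / 4 * (z / r) ^ 2 * (edK a (2 * m) r / √Q) := by
      unfold edF
      rw [indicator_of_mem (show r ∈ Ioo 0 (2 * m) from ⟨hr, hrb⟩)]
    rw [hF]
    calc (z / r) ^ 2 * (gam (ψ r + w) - gam (ψ r)) ≤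
        (z / r) ^ 2 * (3 / 4 * w * (edK a (2 * m) r / √Q)) :=
          mul_le_mul_of_nonneg_left (h1.trans h2) (by positivity)
      _ = 3 / 4 * (z / r) ^ 2 * (edK a (2 * m) r / √Q) * w := by ring

/-- (A5) -/
theorem light_edge {z p : ℝ} (hz : 0 < z) (hp : 0 < p) (hN : ∫ x, ionρ z p x ≤ z / 25) :
    ∃ F : ℝ → ℝ, ∃ a : ℝ, Measurable F ∧ (∀ r, 0 ≤ F r) ∧ Integrable (fun x : X => F ‖x‖) ∧
      ∫ x : X, F ‖x‖ ≤ 47 * z ^ 3 / (p * √p) ∧
      ∀ r, 0 < r → r ≠ a → ∀ w, 0 ≤ w → w ≤ z / r → p < z / r + w →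
        (z / r) ^ 2 * (gam (ionψ z p r + w) - gam (ionψ z p r)) ≤ F r * w := by
  obtain ⟨hI, h1, h2, h3, h4⟩ := ion_all hz.le hp
  have hT := (ionρ_spec hz.le hp).1
  obtain ⟨F, a, hm, h0, hi, hM, hw⟩ := edge_of_ion (Q := z - ∫ x, ionρ z p x) hz hp hI (by linarith)
    (fun r hr => by
      rw [h3 r hr.le]
      have : ∫ x in ball (0 : X) r, ionρ z p x ≤ ∫ x, ionρ z p x :=
        setIntegral_le_integral hT.int (Eventually.of_forall hT.nonneg)
      linarith)
  refine ⟨F, a, hm, h0, hi, hM.trans ?_, hw⟩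
  set Q := z - ∫ x, ionρ z p x with hQ
  have hQ1 : 24 / 25 * z ≤ Q := by rw [hQ]; linarith
  have e1 : z / p * √(z / p) = z * √z / (p * √p) := by
    rw [sqrt_div hz.le]
    field_simp
  have hsz : 0 < √z := sqrt_pos.mpr hz
  have e2 : z ^ 2 / √Q * √z ≤ 1.021 * z ^ 2 := by
    have h5 : √(24 / 25 * z) ≤ √Q := sqrt_le_sqrt hQ1
    have h6 : √z ≤ 1.021 * √(24 / 25 * z) := by
      rw [sqrt_mul (by norm_num)]
      have h7 : (1 : ℝ) / 1.021 ≤ √(24 / 25) := by
        apply le_sqrt_of_sq_le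
        norm_num
      have h8 : (1 : ℝ) ≤ 1.021 * √(24 / 25) := by
        have := mul_le_mul_of_nonneg_left h7 (by norm_num : (0 : ℝ) ≤ 1.021)
        norm_num at this ⊢
        linarith
      nlinarith
    have h9 : 0 < √Q := sqrt_pos.mpr (by linarith [show 0 < 24 / 25 * z by positivity])
    rw [div_mul_eq_mul_div, div_le_iff₀ h9]
    have h10 : √z ≤ 1.021 * √Q := h6.trans (by linarith)
    nlinarith [sq_nonneg z]
  have e3 : √2 ≤ 1.4143 := by
    rw [sqrt_le_left (by norm_num)]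
    norm_num
  have e4 : π ≤ 3.1416 := pi_lt_d4.le
  rw [e1]
  have e5 : 3 * π * z ^ 2 / √Q * ((2 + 2 * √2) * (z * √z / (p * √p))) =
      (3 * π * (2 + 2 * √2)) * (z ^ 2 / √Q * √z) * (z / (p * √p)) := by ring
  have e6 : 47 * z ^ 3 / (p * √p) = 47 * z ^ 2 * (z / (p * √p)) := by ring
  rw [e5, e6]
  refine mul_le_mul_of_nonneg_right ?_ (by positivity)
  have e7 : 3 * π * (2 + 2 * √2) ≤ 3 * 3.1416 * (2 + 2 * 1.4143) := by
    gcongr
  calc 3 * π * (2 + 2 * √2) * (z ^ 2 / √Q * √z)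
      ≤ (3 * 3.1416 * (2 + 2 * 1.4143)) * (1.021 * z ^ 2) := by
        refine mul_le_mul e7 e2 (by positivity) (by norm_num)
    _ ≤ 47 * z ^ 2 := by nlinarith [sq_nonneg z]

end Pool.Agent.TF.Light
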