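import Mathlib
import Pool.Agent.Lib.MP_9cf0c9_mp.Tr.LightMass
import Pool.Agent.Lib.MP_9cf0c9_mp.Tr.LightPt
/-! Newton's theorem for pair integrals and the integral of the mixed products. -/

set_option autoImplicit false

set_option linter.unusedSectionVars false

set_option linter.unusedVariables false

set_option linter.style.haveILetI false

namespace Pool.Agent.TF.Light

open MeasureTheory Set Metric Filter Topology Real

open scoped ENNReal

/-! ### pair integrals of radial functions -/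

theorem radial_int {F : ℝ → ℝ} (hF : Measurable F) (hF0 : ∀ s, 0 ≤ F s)
    (hi : Integrable fun y : X => F ‖y‖) {x : X} (hx : x ≠ 0) :
    Integrable fun y : X => ‖x - y‖⁻¹ * F ‖y‖ := by
  have hn : 0 < ‖x‖ := norm_pos_iff.mpr hx
  have hm1 : Measurable fun y : X => ‖x - y‖⁻¹ * F ‖y‖ :=
    (by fun_prop : Measurable fun y : X => ‖x - y‖⁻¹).mul (hF.comp measurable_norm)
  refine ⟨hm1.aestronglyMeasurable, ?_⟩
  rw [hasFiniteIntegral_iff_ofReal (Eventually.of_forall fun y =>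
    mul_nonneg (by positivity) (hF0 _))]
  have e1 : ∀ y : X, ENNReal.ofReal (‖x - y‖⁻¹ * F ‖y‖) =
      ENNReal.ofReal ‖x - y‖⁻¹ * ENNReal.ofReal (F ‖y‖) := fun y =>
    ENNReal.ofReal_mul (by positivity)
  simp_rw [e1]
  rw [lintegral_radial hx (Φ := fun s => ENNReal.ofReal (F s)) hF.ennreal_ofReal]
  have h1 := ((integrable_radial_iff (V := X) F).mp hi).mul_const ‖x‖⁻¹
  have h2 : ∫⁻ s in Ioi (0 : ℝ), ENNReal.ofReal (4 * π * s ^ 2 / max s ‖x‖) *
      ENNReal.ofReal (F s) ≤ ∫⁻ s in Ioi (0 : ℝ), ENNReal.ofReal (4 * π * s ^ 2 * F s * ‖x‖⁻¹) := by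
    refine lintegral_mono fun s => ?_
    simp only
    rw [← ENNReal.ofReal_mul (div_nonneg (by positivity) (hn.le.trans (le_max_right _ _)))]
    refine ENNReal.ofReal_le_ofReal ?_
    have h3 : 4 * π * s ^ 2 / max s ‖x‖ ≤ 4 * π * s ^ 2 * ‖x‖⁻¹ := by
      rw [div_eq_mul_inv]
      refine mul_le_mul_of_nonneg_left ?_ (by positivity)
      exact inv_anti₀ hn (le_max_right _ _)
    calc 4 * π * s ^ 2 / max s ‖x‖ * F s ≤ 4 * π * s ^ 2 * ‖x‖⁻¹ * F s :=
          mul_le_mul_of_nonneg_right h3 (hF0 s)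
      _ = 4 * π * s ^ 2 * F s * ‖x‖⁻¹ := by ring
  refine h2.trans_lt ?_
  have h3 := h1.2
  rwa [hasFiniteIntegral_iff_ofReal (Eventually.of_forall fun s => by
    have := hF0 s
    simp only [Pi.zero_apply]
    positivity)] at h3

/-- a radial function around `a` against the Coulomb potential of another point -/
theorem radial_pair {F : ℝ → ℝ} (hF : Measurable F) (hF0 : ∀ s, 0 ≤ F s)
    (hi : Integrable fun y : X => F ‖y‖) {a b : X} (hab : a ≠ b) :
    Integrable (fun x : X => F ‖x - a‖ * ‖x - b‖⁻¹) ∧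
      ∫ x : X, F ‖x - a‖ * ‖x - b‖⁻¹ ≤ ‖a - b‖⁻¹ * ∫ y : X, F ‖y‖ := by
  have hne : b - a ≠ 0 := sub_ne_zero.mpr (Ne.symm hab)
  have h1 := radial_int hF hF0 hi hne
  have e : (fun x : X => F ‖x - a‖ * ‖x - b‖⁻¹) =
      fun x : X => (fun y : X => ‖(b - a) - y‖⁻¹ * F ‖y‖) (x - a) := by
    funext x
    simp only
    rw [mul_comm, norm_sub_rev x b, sub_sub_sub_cancel_right]
  rw [e]
  refine ⟨h1.comp_sub_right a, ?_⟩
  rw [integral_sub_right_eq_self (fun y : X => ‖(b - a) - y‖⁻¹ * F ‖y‖) a]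
  have h2 := pot_le_mass hF hF0 hi hne
  unfold pot at h2
  rw [norm_sub_rev a b, mul_comm]
  exact h2

/-! ### truncated Coulomb potentials -/

theorem cone_eq {Z b s : ℝ} (hs : 0 < s) : s * max (Z * s⁻¹ - b) 0 = max (Z - b * s) 0 := by
  rw [mul_max_of_nonneg _ _ hs.le, mul_zero]
  congr 1
  field_simp

theorem cone_radial {Z b : ℝ} (hZ : 0 ≤ Z) (hb : 0 < b) :
    IntegrableOn (fun s => 4 * π * s * max (Z * s⁻¹ - b) 0) (Ioi 0) ∧
      ∫ s in Ioi (0 : ℝ), 4 * π * s * max (Z * s⁻¹ - b) 0 = 2 * π * Z ^ 2 / b := by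
  have hc : 0 ≤ Z / b := by positivity
  have e : ∀ s ∈ Ioi (0 : ℝ), 4 * π * s * max (Z * s⁻¹ - b) 0 =
      (Ioc 0 (Z / b)).indicator (fun s => 4 * π * (Z - b * s)) s := by
    intro s hs
    have hs0 : 0 < s := hs
    rw [mul_assoc, cone_eq hs0]
    by_cases h : s ≤ Z / b
    · rw [indicator_of_mem (show s ∈ Ioc 0 (Z / b) from ⟨hs0, h⟩), max_eq_left]
      rw [le_div_iff₀ hb] at h
      linarith
    · rw [indicator_of_notMem (fun h2 => h h2.2), max_eq_right, mul_zero]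
      push Not at h
      rw [div_lt_iff₀ hb] at h
      linarith
  have hint : IntegrableOn (fun s => 4 * π * (Z - b * s)) (Ioc 0 (Z / b)) := by
    rw [← intervalIntegrable_iff_integrableOn_Ioc_of_le hc]
    exact Continuous.intervalIntegrable (by fun_prop) _ _
  constructor
  · rw [integrableOn_congr_fun e measurableSet_Ioi]
    exact (hint.integrable_indicator measurableSet_Ioc).integrableOn
  · have hsub : Ioi (0 : ℝ) ∩ Ioc 0 (Z / b) = Ioc 0 (Z / b) :=
      inter_eq_right.mpr fun x hx => hx.1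
    rw [setIntegral_congr_fun measurableSet_Ioi e, ← integral_indicator measurableSet_Ioi,
      indicator_indicator, hsub,
      integral_indicator measurableSet_Ioc, ← intervalIntegral.integral_of_le hc]
    have hd : ∀ s ∈ uIcc 0 (Z / b), HasDerivAt (fun s => 4 * π * (Z * s - b * s ^ 2 / 2))
        (4 * π * (Z - b * s)) s := by
      intro s _
      have h1 := ((hasDerivAt_id' s).const_mul Z).sub ((((hasDerivAt_id' s).pow 2).const_mul b).div_const 2)
      refine (h1.const_mul (4 * π)).congr_deriv ?_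
      simp only [Nat.add_one_sub_one, Nat.cast_ofNat, pow_one, mul_one]
      ring
    rw [intervalIntegral.integral_eq_sub_of_hasDerivAt hd
      (Continuous.intervalIntegrable (by fun_prop) _ _)]
    field_simp
    ring

theorem cone_meas (Z b : ℝ) : Measurable fun s : ℝ => max (Z * s⁻¹ - b) 0 :=
  ((measurable_inv.const_mul Z).sub_const b).max measurable_const

theorem cone_int {Z b : ℝ} (hZ : 0 ≤ Z) (hb : 0 < b) :
    Integrable fun y : X => (fun s : ℝ => max (Z * s⁻¹ - b) 0) ‖y‖ := by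
  refine (integrable_radial_iff (V := X) (fun s : ℝ => max (Z * s⁻¹ - b) 0)).mpr ?_
  have h := (cone_radial hZ hb).1
  have hm : Measurable fun s : ℝ => 4 * π * s ^ 2 * max (Z * s⁻¹ - b) 0 :=
    (by fun_prop : Measurable fun s : ℝ => 4 * π * s ^ 2).mul (cone_meas Z b)
  refine Integrable.mono' (h.const_mul (Z / b)) hm.aestronglyMeasurable ?_
  refine (ae_restrict_iff' measurableSet_Ioi).mpr (Eventually.of_forall fun s hs => ?_)
  have hs0 : 0 < s := hs
  have h0 : 0 ≤ max (Z * s⁻¹ - b) 0 := le_max_right _ _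
  rw [Real.norm_of_nonneg (by positivity)]
  have e : 4 * π * s ^ 2 * max (Z * s⁻¹ - b) 0 = s * (4 * π * s * max (Z * s⁻¹ - b) 0) := by ring
  rw [e]
  by_cases h1 : s ≤ Z / b
  · exact mul_le_mul_of_nonneg_right h1 (by positivity)
  · have h2 : s * max (Z * s⁻¹ - b) 0 = 0 := by
      rw [cone_eq hs0, max_eq_right]
      push Not at h1
      rw [div_lt_iff₀ hb] at h1
      linarith
    have e2 : 4 * π * s * max (Z * s⁻¹ - b) 0 = 0 := by
      rw [mul_assoc, h2, mul_zero]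
    rw [e2, mul_zero, mul_zero]

/-- the integral of a truncated Coulomb potential against a Coulomb potential -/
theorem cone_pot {Z b : ℝ} (hZ : 0 ≤ Z) (hb : 0 < b) (a p : X) :
    Integrable (fun x : X => max (Z * ‖x - a‖⁻¹ - b) 0 * ‖x - p‖⁻¹) ∧
      ∫ x : X, max (Z * ‖x - a‖⁻¹ - b) 0 * ‖x - p‖⁻¹ ≤ 2 * π * Z ^ 2 / b := by
  by_cases hap : a = p
  · subst hap
    set G : ℝ → ℝ := fun s => max (Z * s⁻¹ - b) 0 * s⁻¹ with hG
    have e : (fun x : X => max (Z * ‖x - a‖⁻¹ - b) 0 * ‖x - a‖⁻¹) =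
        fun x : X => (fun y : X => G ‖y‖) (x - a) := rfl
    have e2 : ∀ s ∈ Ioi (0 : ℝ), 4 * π * s ^ 2 * G s = 4 * π * s * max (Z * s⁻¹ - b) 0 := by
      intro s hs
      have hs0 : s ≠ 0 := ne_of_gt hs
      simp only [hG]
      field_simp
    have h1 : Integrable fun y : X => G ‖y‖ := by
      rw [integrable_radial_iff (V := X), integrableOn_congr_fun e2 measurableSet_Ioi]
      exact (cone_radial hZ hb).1
    rw [e]
    refine ⟨h1.comp_sub_right a, ?_⟩
    rw [integral_sub_right_eq_self (fun y : X => G ‖y‖) a, integral_radial (V := X),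
      setIntegral_congr_fun measurableSet_Ioi e2, (cone_radial hZ hb).2]
  · have hne : p - a ≠ 0 := sub_ne_zero.mpr (Ne.symm hap)
    have hn : 0 < ‖p - a‖ := norm_pos_iff.mpr hne
    set F : ℝ → ℝ := fun s => max (Z * s⁻¹ - b) 0 with hF
    have hF0 : ∀ s, 0 ≤ F s := fun s => le_max_right _ _
    have hi : Integrable fun y : X => F ‖y‖ := cone_int hZ hb
    refine ⟨(radial_pair (cone_meas Z b) hF0 hi hap).1, ?_⟩
    have e : (fun x : X => max (Z * ‖x - a‖⁻¹ - b) 0 * ‖x - p‖⁻¹) =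
        fun x : X => (fun y : X => ‖(p - a) - y‖⁻¹ * F ‖y‖) (x - a) := by
      funext x
      simp only [hF]
      rw [mul_comm, norm_sub_rev x p, sub_sub_sub_cancel_right]
    rw [e, integral_sub_right_eq_self (fun y : X => ‖(p - a) - y‖⁻¹ * F ‖y‖) a]
    have h2 := pot_radial (V := X) (cone_meas Z b) hF0 hne
    unfold pot at h2
    rw [h2, ← (cone_radial hZ hb).2]
    refine integral_mono_of_nonneg ?_ (cone_radial hZ hb).1 ?_
    · refine Eventually.of_forall fun s => ?_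
      simp only [Pi.zero_apply]
      have : 0 < max s ‖p - a‖ := lt_of_lt_of_le hn (le_max_right _ _)
      have := hF0 s
      positivity
    · refine (ae_restrict_iff' measurableSet_Ioi).mpr (Eventually.of_forall fun s hs => ?_)
      have hs0 : 0 < s := hs
      simp only
      refine mul_le_mul_of_nonneg_right ?_ (hF0 s)
      rw [div_le_iff₀ (lt_of_lt_of_le hn (le_max_right _ _))]
      have : s ≤ max s ‖p - a‖ := le_max_left _ _
      nlinarith [mul_le_mul_of_nonneg_left this (by positivity : 0 ≤ 4 * π * s)]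

/-! ### the integral of the mixed products -/

variable {ι : Type*} [Fintype ι]

theorem inv_mul_le (R R' x : X) :
    ‖x - R‖⁻¹ * ‖x - R'‖⁻¹ * ‖R - R'‖ ≤ ‖x - R‖⁻¹ + ‖x - R'‖⁻¹ := by
  have h0 : ‖R - R'‖ ≤ ‖x - R‖ + ‖x - R'‖ := by
    have := norm_sub_le (x - R') (x - R)
    rw [sub_sub_sub_cancel_left] at this
    linarith
  rcases (norm_nonneg (x - R)).eq_or_lt with h1 | h1
  · rw [← h1, inv_zero, zero_mul, zero_mul, zero_add]
    positivity
  rcases (norm_nonneg (x - R')).eq_or_lt with h2 | h2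
  · rw [← h2, inv_zero, mul_zero, zero_mul, add_zero]
    positivity
  have e : ‖x - R‖⁻¹ + ‖x - R'‖⁻¹ = ‖x - R‖⁻¹ * ‖x - R'‖⁻¹ * (‖x - R‖ + ‖x - R'‖) := by
    field_simp
    ring
  rw [e]
  exact mul_le_mul_of_nonneg_left h0 (by positivity)

/-- the mixed products of Coulomb potentials are dominated by pair terms -/
theorem mixed_le {z : ι → ℝ} (hz : ∀ i, 0 ≤ z i) {R : ι → X} (hR : Function.Injective R) (x : X) :
    (∑ j, z j * ‖x - R j‖⁻¹) ^ 2 - ∑ j, (z j * ‖x - R j‖⁻¹) ^ 2 ≤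
      ∑ i, ∑ j, z i * z j * ‖R i - R j‖⁻¹ * (‖x - R i‖⁻¹ + ‖x - R j‖⁻¹) := by
  classical
  rw [sq, Finset.sum_mul_sum, ← Finset.sum_sub_distrib]
  refine Finset.sum_le_sum fun i _ => ?_
  rw [← Finset.add_sum_erase _ (fun j => z i * ‖x - R i‖⁻¹ * (z j * ‖x - R j‖⁻¹))
    (Finset.mem_univ i), ← Finset.add_sum_erase Finset.univ
    (fun j => z i * z j * ‖R i - R j‖⁻¹ * (‖x - R i‖⁻¹ + ‖x - R j‖⁻¹)) (Finset.mem_univ i)]
  rw [sub_self, norm_zero, inv_zero, mul_zero, zero_mul, zero_add, ← sq, add_sub_cancel_left]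
  refine Finset.sum_le_sum fun j hj => ?_
  have hij : j ≠ i := Finset.ne_of_mem_erase hj
  have hd : 0 < ‖R i - R j‖ := norm_pos_iff.mpr (sub_ne_zero.mpr fun h => hij (hR h).symm)
  have h1 := inv_mul_le (R i) (R j) x
  have h2 : ‖x - R i‖⁻¹ * ‖x - R j‖⁻¹ ≤ ‖R i - R j‖⁻¹ * (‖x - R i‖⁻¹ + ‖x - R j‖⁻¹) := by
    rw [inv_mul_eq_div (‖R i - R j‖), le_div_iff₀ hd]
    exact h1
  calc z i * ‖x - R i‖⁻¹ * (z j * ‖x - R j‖⁻¹)
      = z i * z j * (‖x - R i‖⁻¹ * ‖x - R j‖⁻¹) := by ring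
    _ ≤ z i * z j * (‖R i - R j‖⁻¹ * (‖x - R i‖⁻¹ + ‖x - R j‖⁻¹)) :=
        mul_le_mul_of_nonneg_left h2 (mul_nonneg (hz i) (hz j))
    _ = z i * z j * ‖R i - R j‖⁻¹ * (‖x - R i‖⁻¹ + ‖x - R j‖⁻¹) := by ring

/-- the integral of `√(V - μ)₊ S₂` -/
theorem S2_int {z : ι → ℝ} (hz : ∀ i, 0 ≤ z i) {R : ι → X} (hR : Function.Injective R) {Z m : ℝ}
    (hZ : ∑ i, z i = Z) (hZ0 : 0 < Z) (hm : 0 < m) :
    Integrable (fun x : X => √(max (Vpt z R x - m) 0) *
      (Vpt z R x ^ 2 - ∑ j, (z j * ‖x - R j‖⁻¹) ^ 2)) ∧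
    ∫ x : X, √(max (Vpt z R x - m) 0) * (Vpt z R x ^ 2 - ∑ j, (z j * ‖x - R j‖⁻¹) ^ 2) ≤
      32 * π / 3 * (Z ^ 2 / (m * √m)) * Unuc z R := by
  classical
  have hs : 0 < √m := Real.sqrt_pos.mpr hm
  have hb : 0 < 3 / 4 * m := by positivity
  set C : X → ℝ := fun x => ∑ l, z l / Z * max (Z * ‖x - R l‖⁻¹ - 3 / 4 * m) 0 with hC
  set D : X → ℝ := fun x => ∑ i, ∑ j, z i * z j * ‖R i - R j‖⁻¹ *
    (‖x - R i‖⁻¹ + ‖x - R j‖⁻¹) with hD
  have hv0 : ∀ x j, 0 ≤ z j * ‖x - R j‖⁻¹ := fun x j => mul_nonneg (hz j) (by positivity)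
  have hlow : ∀ x, 0 ≤ √(max (Vpt z R x - m) 0) *
      (Vpt z R x ^ 2 - ∑ j, (z j * ‖x - R j‖⁻¹) ^ 2) := fun x =>
    mul_nonneg (sqrt_nonneg _) (by
      have := mixed_nonneg (hv0 x)
      unfold Vpt
      exact this)
  have hup : ∀ x, √(max (Vpt z R x - m) 0) *
      (Vpt z R x ^ 2 - ∑ j, (z j * ‖x - R j‖⁻¹) ^ 2) ≤ (√m)⁻¹ * (C x * D x) := by
    intro x
    have h1 : √(max (Vpt z R x - m) 0) ≤ (√m)⁻¹ * C x := by
      refine (sqrt_le_cone hm).trans ?_
      refine mul_le_mul_of_nonneg_left ?_ (by positivity)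
      exact cone_convex (d := fun i => ‖x - R i‖⁻¹) hz hZ hZ0 hb.le
    have h2 : Vpt z R x ^ 2 - ∑ j, (z j * ‖x - R j‖⁻¹) ^ 2 ≤ D x := mixed_le hz hR x
    have h3 : 0 ≤ Vpt z R x ^ 2 - ∑ j, (z j * ‖x - R j‖⁻¹) ^ 2 := mixed_nonneg (hv0 x)
    calc _ ≤ (√m)⁻¹ * C x * D x := mul_le_mul h1 h2 h3 ((sqrt_nonneg _).trans h1)
      _ = (√m)⁻¹ * (C x * D x) := by ring
  -- the terms of the product
  set T : ι → ι → ι → X → ℝ := fun l i j x => z l / Z * (z i * z j * ‖R i - R j‖⁻¹) *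
    (max (Z * ‖x - R l‖⁻¹ - 3 / 4 * m) 0 * ‖x - R i‖⁻¹ +
      max (Z * ‖x - R l‖⁻¹ - 3 / 4 * m) 0 * ‖x - R j‖⁻¹) with hT
  have hCD : ∀ x, C x * D x = ∑ l, ∑ i, ∑ j, T l i j x := by
    intro x
    simp only [hC, hD, hT]
    rw [Finset.sum_mul]
    refine Finset.sum_congr rfl fun l _ => ?_
    rw [Finset.mul_sum]
    refine Finset.sum_congr rfl fun i _ => ?_
    rw [Finset.mul_sum]
    refine Finset.sum_congr rfl fun j _ => ?_
    ring
  have hTi : ∀ l i j, Integrable (T l i j) := fun l i j =>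
    (((cone_pot hZ0.le hb (R l) (R i)).1.add (cone_pot hZ0.le hb (R l) (R j)).1).const_mul _)
  have hTb : ∀ l i j, ∫ x, T l i j x ≤
      z l / Z * (z i * z j * ‖R i - R j‖⁻¹) * (2 * (2 * π * Z ^ 2 / (3 / 4 * m))) := by
    intro l i j
    simp only [hT]
    rw [integral_const_mul]
    refine mul_le_mul_of_nonneg_left ?_ ?_
    · rw [integral_add (cone_pot hZ0.le hb (R l) (R i)).1 (cone_pot hZ0.le hb (R l) (R j)).1]
      linarith [(cone_pot hZ0.le hb (R l) (R i)).2, (cone_pot hZ0.le hb (R l) (R j)).2]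
    · have := hz l
      have := hz i
      have := hz j
      positivity
  have hsum : Integrable fun x => (√m)⁻¹ * (C x * D x) := by
    simp_rw [hCD]
    refine Integrable.const_mul ?_ _
    exact integrable_finsetSum _ fun l _ => integrable_finsetSum _ fun i _ =>
      integrable_finsetSum _ fun j _ => hTi l i j
  have hmeas : Measurable fun x : X => √(max (Vpt z R x - m) 0) *
      (Vpt z R x ^ 2 - ∑ j, (z j * ‖x - R j‖⁻¹) ^ 2) := by
    refine (((Vpt_meas z R).sub_const m).max measurable_const).sqrt.mul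
      (((Vpt_meas z R).pow_const _).sub (Finset.measurable_sum _ fun j _ => ?_))
    exact ((((measurable_id.sub measurable_const).norm.inv).const_mul _).pow_const _)
  refine ⟨Integrable.mono' hsum hmeas.aestronglyMeasurable (Eventually.of_forall fun x => ?_), ?_⟩
  · rw [Real.norm_of_nonneg (hlow x)]
    exact hup x
  · refine (integral_mono_of_nonneg (Eventually.of_forall hlow) hsum
      (Eventually.of_forall hup)).trans ?_
    rw [integral_const_mul]
    simp_rw [hCD]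
    rw [integral_finsetSum _ fun l _ => integrable_finsetSum _ fun i _ =>
      integrable_finsetSum _ fun j _ => hTi l i j]
    have h1 : ∀ l, ∫ x, ∑ i, ∑ j, T l i j x = ∑ i, ∑ j, ∫ x, T l i j x := by
      intro l
      rw [integral_finsetSum _ fun i _ => integrable_finsetSum _ fun j _ => hTi l i j]
      refine Finset.sum_congr rfl fun i _ => ?_
      rw [integral_finsetSum _ fun j _ => hTi l i j]
    simp_rw [h1]
    have h2 : ∑ l, ∑ i, ∑ j, ∫ x, T l i j x ≤
        ∑ l, ∑ i, ∑ j, z l / Z * (z i * z j * ‖R i - R j‖⁻¹) *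
          (2 * (2 * π * Z ^ 2 / (3 / 4 * m))) :=
      Finset.sum_le_sum fun l _ => Finset.sum_le_sum fun i _ => Finset.sum_le_sum fun j _ =>
        hTb l i j
    have h3 : ∑ l, ∑ i, ∑ j, z l / Z * (z i * z j * ‖R i - R j‖⁻¹) *
        (2 * (2 * π * Z ^ 2 / (3 / 4 * m))) =
        (2 * Unuc z R) * (2 * (2 * π * Z ^ 2 / (3 / 4 * m))) := by
      have e1 : ∀ l, ∑ i, ∑ j, z l / Z * (z i * z j * ‖R i - R j‖⁻¹) *
          (2 * (2 * π * Z ^ 2 / (3 / 4 * m))) =
          z l / Z * ((2 * Unuc z R) * (2 * (2 * π * Z ^ 2 / (3 / 4 * m)))) := by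
        intro l
        unfold Unuc
        simp_rw [← Finset.sum_mul, ← Finset.mul_sum]
        ring
      simp_rw [e1]
      rw [← Finset.sum_mul, ← Finset.sum_div, hZ, div_self hZ0.ne', one_mul]
    rw [h3] at h2
    calc (√m)⁻¹ * ∑ l, ∑ i, ∑ j, ∫ x, T l i j x
        ≤ (√m)⁻¹ * ((2 * Unuc z R) * (2 * (2 * π * Z ^ 2 / (3 / 4 * m)))) :=
          mul_le_mul_of_nonneg_left h2 (by positivity)
      _ = 32 * π / 3 * (Z ^ 2 / (m * √m)) * Unuc z R := by
          field_simp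
          ring

end Pool.Agent.TF.Light
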