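import Mathlib
import Pool.Agent.Lib.MP_9cf0c9_mp.Tr.LightEdge
import Pool.Agent.Lib.MP_9cf0c9_mp.Tr.LightIon
import Pool.Agent.Lib.MP_9cf0c9_mp.Tr.LightNewton
/-! The main error term in the strongly ionised regime. -/

set_option autoImplicit false

set_option linter.unusedSectionVars false

set_option linter.unusedVariables false

set_option linter.style.haveILetI false

namespace Pool.Agent.TF.Light

open MeasureTheory Set Metric Filter Topology Real

variable {ι : Type*} [Fintype ι]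

theorem sub_eq_erase [DecidableEq ι] (v : ι → ℝ) (j : ι) :
    ∑ i, v i - v j = ∑ i ∈ Finset.univ.erase j, v i := by
  rw [← Finset.add_sum_erase _ v (Finset.mem_univ j)]
  ring

/-- the integrals of the edge weights against the potentials of the other nuclei -/
theorem edge_pairs {z : ι → ℝ} (hz : ∀ i, 0 ≤ z i) {R : ι → X} (hR : Function.Injective R)
    {F : ι → ℝ → ℝ} (hFm : ∀ j, Measurable (F j)) (hF0 : ∀ j s, 0 ≤ F j s)
    (hFi : ∀ j, Integrable fun x : X => F j ‖x‖) {M : ι → ℝ} (hM : ∀ j, ∫ x : X, F j ‖x‖ ≤ M j) :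
    Integrable (fun x : X => ∑ j, F j ‖x - R j‖ * (∑ i, z i * ‖x - R i‖⁻¹ - z j * ‖x - R j‖⁻¹)) ∧
    ∫ x : X, ∑ j, F j ‖x - R j‖ * (∑ i, z i * ‖x - R i‖⁻¹ - z j * ‖x - R j‖⁻¹) ≤
      ∑ j, ∑ i, z i * ‖R i - R j‖⁻¹ * M j := by
  classical
  have e : ∀ x : X, ∑ j, F j ‖x - R j‖ * (∑ i, z i * ‖x - R i‖⁻¹ - z j * ‖x - R j‖⁻¹) =
      ∑ j, ∑ i ∈ Finset.univ.erase j, z i * (F j ‖x - R j‖ * ‖x - R i‖⁻¹) := by
    intro x
    refine Finset.sum_congr rfl fun j _ => ?_
    rw [sub_eq_erase (fun i => z i * ‖x - R i‖⁻¹) j, Finset.mul_sum]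
    refine Finset.sum_congr rfl fun i _ => ?_
    ring
  have hp : ∀ j, ∀ i ∈ Finset.univ.erase j,
      Integrable (fun x : X => F j ‖x - R j‖ * ‖x - R i‖⁻¹) ∧
      ∫ x : X, F j ‖x - R j‖ * ‖x - R i‖⁻¹ ≤ ‖R j - R i‖⁻¹ * ∫ y : X, F j ‖y‖ := by
    intro j i hi
    refine radial_pair (hFm j) (hF0 j) (hFi j) fun h => ?_
    exact Finset.ne_of_mem_erase hi (hR h.symm)
  have hi1 : ∀ j, Integrable fun x : X => ∑ i ∈ Finset.univ.erase j,
      z i * (F j ‖x - R j‖ * ‖x - R i‖⁻¹) := fun j =>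
    integrable_finsetSum _ fun i hi => (hp j i hi).1.const_mul _
  simp_rw [e]
  refine ⟨integrable_finsetSum _ fun j _ => hi1 j, ?_⟩
  rw [integral_finsetSum _ fun j _ => hi1 j]
  refine Finset.sum_le_sum fun j _ => ?_
  rw [integral_finsetSum _ fun i hi => (hp j i hi).1.const_mul _]
  have hM0 : 0 ≤ M j := (integral_nonneg fun x => hF0 j _).trans (hM j)
  calc ∑ i ∈ Finset.univ.erase j, ∫ x : X, z i * (F j ‖x - R j‖ * ‖x - R i‖⁻¹)
      ≤ ∑ i ∈ Finset.univ.erase j, z i * ‖R i - R j‖⁻¹ * M j := by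
        refine Finset.sum_le_sum fun i hi => ?_
        rw [integral_const_mul, mul_assoc]
        refine mul_le_mul_of_nonneg_left ?_ (hz i)
        refine (hp j i hi).2.trans ?_
        rw [norm_sub_rev (R j) (R i)]
        exact mul_le_mul_of_nonneg_left (hM j) (by positivity)
    _ ≤ ∑ i, z i * ‖R i - R j‖⁻¹ * M j :=
        Finset.sum_le_sum_of_subset_of_nonneg (Finset.erase_subset _ _) fun i _ _ =>
          mul_nonneg (mul_nonneg (hz i) (by positivity)) hM0

theorem ae_sphere (c : X) (a : ℝ) : ∀ᵐ x : X, ‖x - c‖ ≠ a := by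
  haveI := nontriv (V := X)
  have h : (volume : Measure X) (sphere c a) = 0 := Measure.addHaar_sphere _ _ _
  rw [ae_iff]
  refine measure_mono_null ?_ h
  intro x hx
  simp only [ne_eq, not_not, mem_ofPred_eq] at hx
  rw [mem_sphere_iff_norm]
  exact hx

/-- (B4): the main error term -/
theorem b4_int {z : ι → ℝ} (hz : ∀ i, 0 < z i) {R : ι → X} (hR : Function.Injective R) {p : ℝ}
    (hp : 0 < p) {ρ : X → ℝ} (h : Sol p z R ρ) {Z : ℝ} (hZ : ∑ i, z i = Z)
    (hN : ∀ i, ionN (z i) p ≤ z i / 25) :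
    ∫ x : X, (∑ j, (gam (Vpt z R x - pot ρ x - p) - gam (ionψ (z j) p ‖x - R j‖)) *
      ionX (z j) p (x - R j)) * (∑ j, ionX (z j) p (x - R j)) ≤
      (32 * π + 94) * (Z ^ 2 / (p * √p)) * Unuc z R := by
  classical
  haveI := nontriv (V := X)
  have hz' : ∀ i, 0 ≤ z i := fun i => (hz i).le
  rcases isEmpty_or_nonempty ι with he | he
  · have : Unuc z R = 0 := by unfold Unuc; simp
    simp [this]
  have hZ0 : 0 < Z := by
    rw [← hZ]
    exact Finset.sum_pos (fun i _ => hz i) Finset.univ_nonempty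
  choose F a hFm hF0 hFi hFM hFE using fun i => light_edge (hz i) hp (hN i)
  obtain ⟨i1, b1⟩ := S2_int hz' hR hZ hZ0 hp
  obtain ⟨i2, b2⟩ := edge_pairs hz' hR hFm hF0 hFi hFM
  have hbd : Integrable fun x : X => 3 * (√(max (Vpt z R x - p) 0) *
      (Vpt z R x ^ 2 - ∑ j, (z j * ‖x - R j‖⁻¹) ^ 2)) +
      ∑ j, F j ‖x - R j‖ * (∑ i, z i * ‖x - R i‖⁻¹ - z j * ‖x - R j‖⁻¹) :=
    (i1.const_mul 3).add i2
  have hae : ∀ᵐ y : X, (∀ i, y ≠ R i) ∧ ∀ i, ‖y - R i‖ ≠ a i := by
    refine Filter.Eventually.and ?_ ?_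
    · rw [ae_all_iff]
      intro i
      rw [ae_iff]
      simp
    · rw [ae_all_iff]
      intro i
      exact ae_sphere _ _
  have hψge : ∀ x : X, (∀ i, x ≠ R i) → ∀ j, ionψ (z j) p ‖x - R j‖ ≤ Vpt z R x - pot ρ x - p :=
    fun x hx j => ion_le (hz' j) hp le_rfl hz' h j le_rfl hx
  have hpot0 : ∀ x, 0 ≤ pot ρ x := pot_nonneg h.tc.nonneg
  have hpotle : ∀ j x, pot (ionρ (z j) p) (x - R j) ≤ pot ρ x := by
    intro j x
    have h1 := (ion_sol (hz' j) hp R j).1
    have h2 : pot (fun x => ionρ (z j) p (x - R j)) x = pot (ionρ (z j) p) (x - R j) := by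
      have := pot_translateV (ionρ (z j) p) (R j) (x - R j)
      rwa [sub_add_cancel] at this
    rw [← h2]
    refine compare_pot (fun i => ?_) le_rfl h1 h x
    by_cases hi : i = j
    · subst hi
      rw [Pi.single_eq_same]
    · rw [Pi.single_eq_of_ne hi]
      exact hz' i
  have hlow : 0 ≤ᵐ[volume] fun x : X =>
      (∑ j, (gam (Vpt z R x - pot ρ x - p) - gam (ionψ (z j) p ‖x - R j‖)) *
      ionX (z j) p (x - R j)) * (∑ j, ionX (z j) p (x - R j)) := by
    filter_upwards [hae] with x hx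
    simp only [Pi.zero_apply]
    refine mul_nonneg (Finset.sum_nonneg fun j _ => mul_nonneg ?_ (ionX_nonneg (hz j) hp _))
      (Finset.sum_nonneg fun j _ => ionX_nonneg (hz j) hp _)
    exact sub_nonneg.mpr (gam_mono (hψge x hx.1 j))
  refine (integral_mono_of_nonneg hlow hbd ?_).trans ?_
  · filter_upwards [hae] with x hx
    have hv0 : ∀ j, 0 ≤ z j * ‖x - R j‖⁻¹ := fun j => mul_nonneg (hz' j) (by positivity)
    have hV : Vpt z R x = ∑ i, z i * ‖x - R i‖⁻¹ := rfl
    have hm := main_pt (v := fun j => z j * ‖x - R j‖⁻¹) (x := fun j => ionX (z j) p (x - R j))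
      (p := fun j => ionψ (z j) p ‖x - R j‖) (F := fun j => F j ‖x - R j‖)
      (s := Vpt z R x - pot ρ x - p) (m := p) hv0 (fun j => ionX_nonneg (hz j) hp _)
      (fun j => ionX_le (hz j) hp _) (fun j => hψge x hx.1 j) (fun j => ?_) (by
        rw [← hV]
        linarith [hpot0 x]) (fun j => hF0 j _) (fun j hj hm => ?_)
    · refine hm.trans (add_le_add ?_ le_rfl)
      have h1 : gam (Vpt z R x - pot ρ x - p) ≤ 3 / 2 * √(max (Vpt z R x - p) 0) := by
        unfold gam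
        refine mul_le_mul_of_nonneg_left (sqrt_le_sqrt (max_le_max_right 0 ?_)) (by norm_num)
        linarith [hpot0 x]
      have h2 := mixed_nonneg hv0
      have h3 := mul_le_mul_of_nonneg_right h1 h2
      rw [hV] at h3 ⊢
      linarith
    · have h1 := (ion_all (hz' j) hp).2.1 (x - R j) (sub_ne_zero.mpr (hx.1 j))
      have h2 := hpotle j x
      rw [← h1, hV]
      linarith
    · have hn : 0 < ‖x - R j‖ := norm_pos_iff.mpr (sub_ne_zero.mpr (hx.1 j))
      have h1 := hFE j ‖x - R j‖ hn (hx.2 j) (∑ i, z i * ‖x - R i‖⁻¹ - z j * ‖x - R j‖⁻¹) (by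
        have := Finset.single_le_sum (f := fun j => z j * ‖x - R j‖⁻¹) (fun i _ => hv0 i)
          (Finset.mem_univ j)
        linarith) (by rw [div_eq_mul_inv]; exact hj) (by
        rw [div_eq_mul_inv]
        linarith)
      rw [div_eq_mul_inv] at h1
      exact h1
  · rw [integral_add (i1.const_mul 3) i2, integral_const_mul]
    have hU : ∑ j, ∑ i, z i * ‖R i - R j‖⁻¹ * (47 * z j ^ 3 / (p * √p)) ≤
        94 * (Z ^ 2 / (p * √p)) * Unuc z R := by
      have h1 : ∀ j i, z i * ‖R i - R j‖⁻¹ * (47 * z j ^ 3 / (p * √p)) ≤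
          47 * (Z ^ 2 / (p * √p)) * (z i * z j * ‖R i - R j‖⁻¹) := by
        intro j i
        have h2 : z j ≤ Z := by
          rw [← hZ]
          exact Finset.single_le_sum (f := z) (fun i _ => hz' i) (Finset.mem_univ j)
        have h3 : z j ^ 2 ≤ Z ^ 2 := pow_le_pow_left₀ (hz' j) h2 2
        have e1 : z i * ‖R i - R j‖⁻¹ * (47 * z j ^ 3 / (p * √p)) =
            47 * (z j ^ 2 / (p * √p)) * (z i * z j * ‖R i - R j‖⁻¹) := by ring
        rw [e1]
        have h4 : 0 ≤ z i * z j * ‖R i - R j‖⁻¹ := by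
          have := hz' i
          have := hz' j
          positivity
        refine mul_le_mul_of_nonneg_right ?_ h4
        gcongr
      calc ∑ j, ∑ i, z i * ‖R i - R j‖⁻¹ * (47 * z j ^ 3 / (p * √p))
          ≤ ∑ j, ∑ i, 47 * (Z ^ 2 / (p * √p)) * (z i * z j * ‖R i - R j‖⁻¹) :=
            Finset.sum_le_sum fun j _ => Finset.sum_le_sum fun i _ => h1 j i
        _ = 94 * (Z ^ 2 / (p * √p)) * Unuc z R := by
            unfold Unuc
            rw [Finset.sum_comm]
            simp_rw [← Finset.mul_sum]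
            ring
    have e : (32 * π + 94) * (Z ^ 2 / (p * √p)) * Unuc z R =
        3 * (32 * π / 3 * (Z ^ 2 / (p * √p)) * Unuc z R) + 94 * (Z ^ 2 / (p * √p)) * Unuc z R := by
      ring
    rw [e]
    exact add_le_add (mul_le_mul_of_nonneg_left b1 (by norm_num)) (b2.trans hU)

end Pool.Agent.TF.Light
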