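import Mathlib
import Pool.Agent.Lib.MP_9cf0c9_mp.Tr.LightIon
import Pool.Agent.Lib.MP_9cf0c9_mp.Tr.LightTrial
/-! The second variation for the trial potential `V - n`, where `n` is the potential of `f - 2 g`:
an exact lower bound, and its form for the sum of the isolated ions. -/

set_option autoImplicit false

set_option linter.unusedSectionVars false

set_option linter.unusedVariables false

set_option linter.style.haveILetI false

namespace Pool.Agent.TF.Light

open MeasureTheory Set Metric Filter Topology Real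

variable {ι : Type*} [Fintype ι]

/-- The exact lower bound of the second variation of the trial potential `V - n`. -/
theorem Vtr_ge {z : ι → ℝ} (hz : ∀ i, 0 ≤ z i) (R : ι → X) {p : ℝ} (hp : 0 < p)
    {ρ f g n : X → ℝ} (hρ : TC ρ) (hf : TC f) (hg : TC g)
    (hn : ∀ x, pot f x - 2 * pot g x = n x) :
    4 * Unuc z R - (∑ i, z i * n (R i)) +
        2 * (∫ x, (ρ x - g x) * (Vpt z R x + pot g x - 2 * n x)) +
        (∫ x, g x * (pot g x - 2 * n x)) -
        (∫ x, (gam (Vpt z R x - pot ρ x - p) * (Vpt z R x - n x) - f x) * (Vpt z R x - n x)) ≤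
      Vtr p z R ρ (fun x => pot (fun y => 2 * g y) x - pot f x)
        (1 / 2 * En2 f (fun y => 2 * g y)) := by
  set V : X → ℝ := Vpt z R with hV
  have hg2 : TC (fun y => 2 * g y) := hg.cmul (by norm_num)
  have hk : ∀ x, pot (fun y => 2 * g y) x - pot f x = -n x := by
    intro x
    rw [pot_const_mul, ← hn x]
    ring
  -- `n` is bounded and measurable
  have hnm : Measurable n := by
    have e : n = fun x => pot f x - 2 * pot g x := funext fun x => (hn x).symm
    rw [e]
    exact (hf.pot_continuous.sub (continuous_const.mul hg.pot_continuous)).measurable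
  set B : ℝ := tcB f + 2 * tcB g with hB
  have hnB : ∀ x, |n x| ≤ B := by
    intro x
    rw [← hn x, abs_le, hB]
    have h1 := hf.pot_le x
    have h2 := hg.pot_le x
    have h3 := pot_nonneg hf.nonneg x
    have h4 := pot_nonneg hg.nonneg x
    constructor <;> linarith
  have hB0 : 0 ≤ B := (abs_nonneg _).trans (hnB 0)
  -- integrability
  have iV : ∀ {s : X → ℝ}, TC s → Integrable fun x => V x * s x := fun hs => hs.Vpt_int z R
  have iN : ∀ {s : X → ℝ}, TC s → Integrable fun x => s x * n x := by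
    intro s hs
    have h1 := (hs.En_integrable hf).sub ((hs.En_integrable hg).const_mul 2)
    refine h1.congr (Eventually.of_forall fun x => ?_)
    simp only [Pi.sub_apply]
    rw [← hn x]
    ring
  have iG : Integrable fun x => gam (V x - pot ρ x - p) * (V x - n x) ^ 2 := by
    refine gam_integrable hz R hp hρ hB0 (((Vpt_meas z R).sub hnm).pow_const 2) fun x => ?_
    have h1 := Vpt_nonneg hz R x
    have h2 := abs_le.mp (hnB x)
    rw [abs_of_nonneg (by positivity), ← sq_abs (Vpt z R x - n x)]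
    refine pow_le_pow_left₀ (abs_nonneg _) ?_ 2
    rw [abs_le]
    constructor <;> linarith
  -- the integrals
  have vN : ∀ {s : X → ℝ}, TC s → ∫ x, s x * n x = En s f - 2 * En s g := by
    intro s hs
    unfold En
    rw [← integral_const_mul, ← integral_sub (hs.En_integrable hf)
      ((hs.En_integrable hg).const_mul 2)]
    refine integral_congr_ae (Eventually.of_forall fun x => ?_)
    simp only
    rw [← hn x]
    ring
  have vV : ∀ {s : X → ℝ}, TC s → ∫ x, V x * s x = ∑ i, z i * pot s (R i) := fun hs =>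
    hs.Vpt_eq z R
  have s1 : ∑ i, z i * n (R i) = (∫ x, V x * f x) - 2 * ∫ x, V x * g x := by
    rw [vV hf, vV hg, Finset.mul_sum, ← Finset.sum_sub_distrib]
    refine Finset.sum_congr rfl fun i _ => ?_
    rw [← hn]
    ring
  have s2 : ∫ x, (ρ x - g x) * (V x + pot g x - 2 * n x) =
      ((∫ x, V x * ρ x) + En ρ g - 2 * ∫ x, ρ x * n x) -
        ((∫ x, V x * g x) + En g g - 2 * ∫ x, g x * n x) := by
    have j1 : Integrable fun x => V x * ρ x + ρ x * pot g x := (iV hρ).add (hρ.En_integrable hg)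
    have j2 : Integrable fun x => 2 * (ρ x * n x) := (iN hρ).const_mul 2
    have j3 : Integrable fun x => V x * g x + g x * pot g x := (iV hg).add (hg.En_integrable hg)
    have j4 : Integrable fun x => 2 * (g x * n x) := (iN hg).const_mul 2
    have a1 : Integrable fun x => V x * ρ x + ρ x * pot g x - 2 * (ρ x * n x) := j1.sub j2
    have a2 : Integrable fun x => V x * g x + g x * pot g x - 2 * (g x * n x) := j3.sub j4
    have e1 : (∫ x, V x * ρ x) + En ρ g - 2 * ∫ x, ρ x * n x =
        ∫ x, (V x * ρ x + ρ x * pot g x - 2 * (ρ x * n x)) := by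
      unfold En
      rw [← integral_add (iV hρ) (hρ.En_integrable hg), ← integral_const_mul,
        ← integral_sub j1 j2]
    have e2 : (∫ x, V x * g x) + En g g - 2 * ∫ x, g x * n x =
        ∫ x, (V x * g x + g x * pot g x - 2 * (g x * n x)) := by
      unfold En
      rw [← integral_add (iV hg) (hg.En_integrable hg), ← integral_const_mul,
        ← integral_sub j3 j4]
    rw [e1, e2, ← integral_sub a1 a2]
    refine integral_congr_ae (Eventually.of_forall fun x => ?_)
    simp only
    ring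
  have s3 : ∫ x, g x * (pot g x - 2 * n x) = En g g - 2 * ∫ x, g x * n x := by
    unfold En
    rw [← integral_const_mul, ← integral_sub (hg.En_integrable hg) ((iN hg).const_mul 2)]
    refine integral_congr_ae (Eventually.of_forall fun x => ?_)
    simp only
    ring
  have s4 : ∫ x, (gam (V x - pot ρ x - p) * (V x - n x) - f x) * (V x - n x) =
      (∫ x, gam (V x - pot ρ x - p) * (V x - n x) ^ 2) -
        ((∫ x, V x * f x) - ∫ x, f x * n x) := by
    have j5 : Integrable fun x => V x * f x - f x * n x := (iV hf).sub (iN hf)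
    rw [← integral_sub (iV hf) (iN hf), ← integral_sub iG j5]
    refine integral_congr_ae (Eventually.of_forall fun x => ?_)
    simp only
    ring
  -- the value of the second variation
  have v1 : ∫ x, ρ x * (pot (fun y => 2 * g y) x - pot f x) = -∫ x, ρ x * n x := by
    rw [← integral_neg]
    refine integral_congr_ae (Eventually.of_forall fun x => ?_)
    simp only
    rw [hk]
    ring
  have v2 : ∫ x, gam (V x - pot ρ x - p) * (V x + (pot (fun y => 2 * g y) x - pot f x)) ^ 2 =
      ∫ x, gam (V x - pot ρ x - p) * (V x - n x) ^ 2 := by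
    refine integral_congr_ae (Eventually.of_forall fun x => ?_)
    simp only
    rw [hk]
    ring
  have v3 : En2 f (fun y => 2 * g y) = (∫ x, f x * n x) - 2 * ∫ x, g x * n x := by
    have e1 : En f (fun y => 2 * g y) = 2 * En f g := En_cmul_right 2 f g
    have e2 : En (fun y => 2 * g y) (fun y => 2 * g y) = 4 * En g g := by
      rw [En_cmul_left, En_cmul_right]
      ring
    unfold En2
    rw [vN hf, vN hg, e1, e2, hg.En_symm hf]
    ring
  have v4 := hρ.psd hg
  unfold Vtr
  rw [← hV, v1, v2, v3, ← vV hρ, s1, s2, s3, s4]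
  linarith

/-! ### finite sums of densities -/

theorem TC_zero : TC (fun _ : X => (0 : ℝ)) := by
  refine ⟨measurable_const, fun _ => le_rfl, integrable_zero _ _ _, ?_⟩
  have e : (fun _ : X => (0 : ℝ) ^ (5 / 3 : ℝ)) = fun _ => 0 := by
    funext x
    rw [Real.zero_rpow (by norm_num)]
  rw [e]
  exact integrable_zero _ _ _

theorem TC_sum {κ : Type*} (s : Finset κ) {F : κ → X → ℝ} (h : ∀ i ∈ s, TC (F i)) :
    TC (fun x => ∑ i ∈ s, F i x) := by
  classical
  induction s using Finset.induction_on with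
  | empty => simpa using TC_zero
  | insert a s ha ih =>
    have h1 := (h a (Finset.mem_insert_self a s)).lin
      (ih fun i hi => h i (Finset.mem_insert_of_mem hi)) (a := 1) (b := 1) (by norm_num)
      (by norm_num)
    have e : (fun x => ∑ i ∈ insert a s, F i x) = fun x => 1 * F a x + 1 * ∑ i ∈ s, F i x := by
      funext x
      rw [Finset.sum_insert ha, one_mul, one_mul]
    rw [e]
    exact h1

theorem pot_sum {κ : Type*} (s : Finset κ) {F : κ → X → ℝ} (h : ∀ i ∈ s, TC (F i)) (x : X) :
    pot (fun y => ∑ i ∈ s, F i y) x = ∑ i ∈ s, pot (F i) x := by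
  unfold pot
  rw [← integral_finsetSum s fun i hi => (h i hi).pot_integrable x]
  refine integral_congr_ae (Eventually.of_forall fun y => ?_)
  simp only
  rw [Finset.mul_sum]

/-! ### the superposition of the isolated ions -/

/-- the density of the isolated ion at its nucleus -/
noncomputable def gj (z : ι → ℝ) (R : ι → X) (p : ℝ) (i : ι) (x : X) : ℝ := ionρ (z i) p (x - R i)

noncomputable def fj (z : ι → ℝ) (R : ι → X) (p : ℝ) (i : ι) (x : X) : ℝ := ionf (z i) p (x - R i)

noncomputable def nj (z : ι → ℝ) (R : ι → X) (p : ℝ) (i : ι) (x : X) : ℝ := ionn (z i) p (x - R i)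

noncomputable def Xj (z : ι → ℝ) (R : ι → X) (p : ℝ) (i : ι) (x : X) : ℝ := ionX (z i) p (x - R i)

variable {z : ι → ℝ} {R : ι → X} {p : ℝ}

theorem pot_shift (σ : X → ℝ) (v x : X) : pot (fun y => σ (y - v)) x = pot σ (x - v) := by
  have h := pot_translateV σ v (x - v)
  rwa [sub_add_cancel] at h

theorem gj_TC (hz : ∀ i, 0 < z i) (hp : 0 < p) (i : ι) : TC (gj z R p i) :=
  (ionρ_tc (hz i) hp).translate (R i)

theorem fj_TC (hz : ∀ i, 0 < z i) (hp : 0 < p) (i : ι) : TC (fj z R p i) :=
  (ionf_TC (hz i) hp).translate (R i)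

theorem gs_TC (hz : ∀ i, 0 < z i) (hp : 0 < p) : TC (fun x => ∑ i, gj z R p i x) :=
  TC_sum _ fun i _ => gj_TC hz hp i

theorem fs_TC (hz : ∀ i, 0 < z i) (hp : 0 < p) : TC (fun x => ∑ i, fj z R p i x) :=
  TC_sum _ fun i _ => fj_TC hz hp i

theorem pot_gj (z : ι → ℝ) (R : ι → X) (p : ℝ) (i : ι) (x : X) :
    pot (gj z R p i) x = pot (ionρ (z i) p) (x - R i) :=
  pot_shift _ _ _

theorem pot_fj (z : ι → ℝ) (R : ι → X) (p : ℝ) (i : ι) (x : X) :
    pot (fj z R p i) x = pot (ionf (z i) p) (x - R i) :=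
  pot_shift _ _ _

theorem pot_gs (hz : ∀ i, 0 < z i) (hp : 0 < p) (x : X) :
    pot (fun x => ∑ i, gj z R p i x) x = ∑ i, pot (gj z R p i) x :=
  pot_sum _ (fun i _ => gj_TC hz hp i) x

/-- the potential of `f - 2 g` for the superposition -/
theorem pot_fs (hz : ∀ i, 0 < z i) (hp : 0 < p) (x : X) :
    pot (fun x => ∑ i, fj z R p i x) x - 2 * pot (fun x => ∑ i, gj z R p i x) x =
      ∑ i, nj z R p i x := by
  rw [pot_sum _ (fun i _ => fj_TC hz hp i) x, pot_sum _ (fun i _ => gj_TC hz hp i) x,
    Finset.mul_sum, ← Finset.sum_sub_distrib]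
  refine Finset.sum_congr rfl fun i _ => ?_
  rw [pot_fj, pot_gj]
  exact ionf_pot (hz i) hp _

theorem Xj_add (z : ι → ℝ) (R : ι → X) (p : ℝ) (i : ι) (x : X) :
    Xj z R p i x + nj z R p i x = z i * ‖x - R i‖⁻¹ := ionX_add _ _ _

theorem Xs_eq (z : ι → ℝ) (R : ι → X) (p : ℝ) (x : X) :
    Vpt z R x - ∑ i, nj z R p i x = ∑ i, Xj z R p i x := by
  unfold Vpt
  rw [← Finset.sum_sub_distrib]
  refine Finset.sum_congr rfl fun i _ => ?_
  rw [← Xj_add z R p i x]
  ring

theorem main_eq (z : ι → ℝ) (R : ι → X) (p : ℝ) (ρ : X → ℝ) (x : X) :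
    (∑ i, (gam (Vpt z R x - pot ρ x - p) - gam (ionψ (z i) p ‖x - R i‖)) *
      Xj z R p i x) * ∑ i, Xj z R p i x =
      (gam (Vpt z R x - pot ρ x - p) * (Vpt z R x - ∑ i, nj z R p i x) -
        ∑ i, fj z R p i x) * (Vpt z R x - ∑ i, nj z R p i x) := by
  rw [Xs_eq]
  congr 1
  rw [Finset.mul_sum, ← Finset.sum_sub_distrib]
  refine Finset.sum_congr rfl fun i _ => ?_
  unfold fj ionf Xj
  ring

/-- (*) the lower bound of the second variation for the superposition of the isolated ions -/
theorem Vtr_light (hz : ∀ i, 0 < z i) (hp : 0 < p) {ρ : X → ℝ} (hρ : TC ρ) :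
    4 * Unuc z R - (∑ i, z i * ∑ j, nj z R p j (R i)) +
        2 * (∫ x, (ρ x - ∑ i, gj z R p i x) *
          (Vpt z R x + (∑ i, pot (gj z R p i) x) - 2 * ∑ i, nj z R p i x)) +
        (∫ x, (∑ i, gj z R p i x) * ((∑ i, pot (gj z R p i) x) - 2 * ∑ i, nj z R p i x)) -
        (∫ x, (∑ i, (gam (Vpt z R x - pot ρ x - p) - gam (ionψ (z i) p ‖x - R i‖)) *
          Xj z R p i x) * ∑ i, Xj z R p i x) ≤
      Vtr p z R ρ (fun x => pot (fun y => 2 * ∑ i, gj z R p i y) x -
        pot (fun y => ∑ i, fj z R p i y) x)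
        (1 / 2 * En2 (fun y => ∑ i, fj z R p i y) (fun y => 2 * ∑ i, gj z R p i y)) := by
  have h := Vtr_ge (fun i => (hz i).le) R hp hρ (fs_TC hz hp) (gs_TC hz hp)
    (n := fun x => ∑ i, nj z R p i x) fun x => pot_fs hz hp x
  simp_rw [main_eq]
  simp_rw [pot_gs hz hp] at h
  exact h

/-- (*) written out -/
theorem Vtr_light_out (hz : ∀ i, 0 < z i) (hp : 0 < p) {ρ : X → ℝ} (hρ : TC ρ) :
    4 * Unuc z R - (∑ i, z i * ∑ j, ionn (z j) p (R i - R j)) +
        2 * (∫ x, (ρ x - ∑ i, ionρ (z i) p (x - R i)) *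
          (Vpt z R x + (∑ i, pot (ionρ (z i) p) (x - R i)) - 2 * ∑ i, ionn (z i) p (x - R i))) +
        (∫ x, (∑ i, ionρ (z i) p (x - R i)) *
          ((∑ i, pot (ionρ (z i) p) (x - R i)) - 2 * ∑ i, ionn (z i) p (x - R i))) -
        (∫ x, (∑ j, (gam (Vpt z R x - pot ρ x - p) - gam (ionψ (z j) p ‖x - R j‖)) *
          ionX (z j) p (x - R j)) * ∑ j, ionX (z j) p (x - R j)) ≤
      Vtr p z R ρ (fun x => pot (fun y => 2 * ∑ i, ionρ (z i) p (y - R i)) x -
        pot (fun y => ∑ i, ionf (z i) p (y - R i)) x)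
        (1 / 2 * En2 (fun y => ∑ i, ionf (z i) p (y - R i))
          (fun y => 2 * ∑ i, ionρ (z i) p (y - R i))) := by
  have h := Vtr_light (R := R) hz hp hρ
  simp_rw [pot_gj] at h
  exact h

end Pool.Agent.TF.Light
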