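import Mathlib
import Pool.Agent.Lib.MP_9cf0c9_mp.Tr.LightB
import Pool.Agent.Lib.MP_9cf0c9_mp.Tr.LightB4
import Pool.Agent.Lib.MP_9cf0c9_mp.Tr.LightGlue
import Pool.Agent.Lib.MP_9cf0c9_mp.Tr.LightVtr
/-! Strongly ionised molecules: nonnegative second variation at large chemical potentials, and
the target statement for few electrons. -/

set_option autoImplicit false

set_option linter.unusedSectionVars false

set_option linter.unusedVariables false

set_option linter.style.haveILetI false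

namespace Pool.Agent
end Pool.Agent

namespace Pool.Agent.TF.Light

open MeasureTheory Set Metric Filter Topology Real

variable {ι : Type*} [Fintype ι] {z : ι → ℝ} {R : ι → X} {p : ℝ}

/-- the numbers -/
theorem light_numbers {ε δ U : ℝ} (hU : 0 ≤ U) (hε0 : 0 ≤ ε) (hε : ε ≤ 1 / 65)
    (hδ : δ = π ^ 2 / 4 * ε) :
    δ ≤ 1 / 25 ∧ 0 ≤ 4 * U - δ * (2 * U) - 8 * δ * (1 + δ) * U - δ ^ 2 * (2 * U) -
      (32 * π + 94) * ε * U := by
  have h1 := pi_gt_d4
  have h2 := pi_lt_d4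
  have hd0 : 0 ≤ δ := by rw [hδ]; positivity
  have hd : δ ≤ 0.03797 := by
    rw [hδ]
    have : π ^ 2 ≤ 3.1416 ^ 2 := by nlinarith
    nlinarith
  refine ⟨hd.trans (by norm_num), ?_⟩
  have e1 : (32 * π + 94) * ε ≤ 2.993 := by nlinarith
  have key : 0 ≤ 4 - δ * 2 - 8 * δ * (1 + δ) - δ ^ 2 * 2 - (32 * π + 94) * ε := by nlinarith
  have := mul_nonneg key hU
  linarith

/-- **nonnegative second variation at large chemical potentials** -/
theorem light_Vtr (hz : ∀ i, 0 < z i) (hR : Function.Injective R) (hp : 0 < p) {ρ : X → ℝ}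
    (hρ : TC ρ) (heq : ∀ x, ρ x = tf (Vpt z R x - pot ρ x - p))
    (hε : (∑ i, z i) ^ 2 / (p * √p) ≤ 1 / 65) :
    ∃ f g : X → ℝ, TC f ∧ TC g ∧
      0 ≤ Vtr p z R ρ (fun x => pot g x - pot f x) (1 / 2 * En2 f g) := by
  classical
  set Z := ∑ i, z i with hZ
  set ε := Z ^ 2 / (p * √p) with hεdef
  set δ := π ^ 2 / 4 * ε with hδ
  have hsp : 0 < √p := Real.sqrt_pos.mpr hp
  have hε0 : 0 ≤ ε := by positivity
  have hδ0 : 0 ≤ δ := by positivity
  have hz' : ∀ i, 0 ≤ z i := fun i => (hz i).le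
  have hU : 0 ≤ Unuc z R := Unuc_nonneg hz' R
  obtain ⟨hd, hfin⟩ := light_numbers hU hε0 hε hδ
  have hNb : ∀ i, ionN (z i) p ≤ δ * z i := by
    intro i
    have h1 : ionN (z i) p ≤ Nb (z i) p := ion_mass_le (hz' i) hp
    refine h1.trans ?_
    have h2 : z i ≤ Z := Finset.single_le_sum (f := z) (fun j _ => hz' j) (Finset.mem_univ i)
    have h3 : z i ^ 2 ≤ Z ^ 2 := pow_le_pow_left₀ (hz' i) h2 2
    have h4 : z i ^ 2 / (p * √p) ≤ ε := div_le_div_of_nonneg_right h3 (by positivity)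
    have h5 : Nb (z i) p = π ^ 2 / 4 * (z i ^ 2 / (p * √p)) * z i := by
      unfold Nb
      ring
    rw [h5, hδ]
    exact mul_le_mul_of_nonneg_right (mul_le_mul_of_nonneg_left h4 (by positivity)) (hz' i)
  have hN25 : ∀ i, ionN (z i) p ≤ z i / 25 := by
    intro i
    have h1 := mul_le_mul_of_nonneg_right hd (hz' i)
    have h2 := hNb i
    linarith
  have hsol : Sol p z R ρ := ⟨hρ, fun x _ => heq x⟩
  have hstar := Vtr_light_out (R := R) hz hp hρ
  have hb1 := b1 (R := R) hz hp hNb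
  have hb2 := b2 hz hp hR hδ0 hNb
  have hb3 := b3 hz hp hR hρ heq hδ0 (by linarith) hNb
  have hb4 := b4_int hz hR hp hsol rfl hN25
  refine ⟨_, _, fs_TC (R := R) hz hp, ((gs_TC (R := R) hz hp).cmul (c := 2) (by norm_num)), ?_⟩
  refine le_trans ?_ hstar
  rw [← hZ, ← hεdef] at hb4
  linarith

section subtype

variable {V : Type*} [NormedAddCommGroup V] [InnerProductSpace ℝ V] [FiniteDimensional ℝ V]
  [MeasurableSpace V] [BorelSpace V] {κ : Type*} [Fintype κ]

theorem sum_pos_subtype {z : κ → ℝ} [Fintype {i // 0 < z i}] (hz : ∀ i, 0 ≤ z i) (F : κ → ℝ)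
    (hF : ∀ i, z i = 0 → F i = 0) : ∑ i : {i // 0 < z i}, F i = ∑ i, F i := by
  classical
  have h : ∑ i ∈ Finset.univ.filter (fun i => 0 < z i), F i = ∑ i : {i // 0 < z i}, F i :=
    Finset.sum_subtype _ (fun x => by simp) F
  rw [← h]
  refine Finset.sum_subset (Finset.subset_univ _) fun i _ hi => hF i ?_
  have h2 : ¬ 0 < z i := fun h3 => hi (Finset.mem_filter.mpr ⟨Finset.mem_univ _, h3⟩)
  exact le_antisymm (not_lt.mp h2) (hz i)

/-- nuclei without charge may be dropped -/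
theorem GTF_pos_subtype {z : κ → ℝ} [Fintype {i // 0 < z i}] (hz : ∀ i, 0 ≤ z i) (φ₀ : ℝ)
    (R : κ → V) :
    GTF φ₀ (fun i : {i // 0 < z i} => z i) (fun i : {i // 0 < z i} => R i) = GTF φ₀ z R := by
  unfold GTF
  have hE : ∀ σ : V → ℝ, Ept φ₀ (fun i : {i // 0 < z i} => z i)
      (fun i : {i // 0 < z i} => R i) σ = Ept φ₀ z R σ := by
    intro σ
    unfold Ept Unuc
    have h1 : ∑ i : {i // 0 < z i}, z i * pot σ (R i) = ∑ i, z i * pot σ (R i) :=
      sum_pos_subtype hz (fun i => z i * pot σ (R i)) fun i hi => by rw [hi, zero_mul]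
    have h2 : ∀ i : κ, ∑ j : {i // 0 < z i}, z i * z j * ‖R i - R j‖⁻¹ =
        ∑ j, z i * z j * ‖R i - R j‖⁻¹ := fun i =>
      sum_pos_subtype hz (fun j => z i * z j * ‖R i - R j‖⁻¹) fun j hj => by
        rw [hj, mul_zero, zero_mul]
    have h3 : ∑ i : {i // 0 < z i}, ∑ j : {i // 0 < z i}, z i * z j * ‖R i - R j‖⁻¹ =
        ∑ i, ∑ j, z i * z j * ‖R i - R j‖⁻¹ := by
      rw [← sum_pos_subtype hz (fun i => ∑ j, z i * z j * ‖R i - R j‖⁻¹) fun i hi => by
        simp [hi]]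
      exact Finset.sum_congr rfl fun i _ => h2 i
    rw [h1, h3]
  simp_rw [hE]

end subtype

/-- convexity in the volume at large chemical potentials, zero charges allowed -/
theorem light_GTF (hz : ∀ i, 0 ≤ z i) (hR : Function.Injective R) (hp : 0 < p)
    (hε : (∑ i, z i) ^ 2 / (p * √p) ≤ 1 / 65) :
    ConvexOn ℝ (Ioi 0) fun v : ℝ => GTF p z fun i => v ^ (1 / 3 : ℝ) • R i := by
  classical
  have h : ConvexOn ℝ (Ioi 0) fun v : ℝ => GTF p (fun i : {i // 0 < z i} => z i)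
      fun i : {i // 0 < z i} => v ^ (1 / 3 : ℝ) • R i := by
    refine GTF_convex_of_pot_trial (fun i => (i.2).le) (fun i : {i // 0 < z i} => R i) hp
      fun c hc ρ hρ heq => ?_
    refine light_Vtr (fun i => i.2) (fun i j hij => ?_) hp hρ heq ?_
    · exact Subtype.ext (hR (smul_right_injective X hc.ne' hij))
    · rw [sum_pos_subtype hz z fun i hi => hi]
      exact hε
  exact h.congr fun v _ => GTF_pos_subtype hz p fun i => v ^ (1 / 3 : ℝ) • R i

end Pool.Agent.TF.Light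

namespace Pool.Agent.Lib.MP_9cf0c9_mp

open MeasureTheory Set Filter Topology Pool.Agent Real

/-- **few electrons**: convexity in the volume, nonincreasing pressure and nonnegative
compressibility at every scale when `30 Z² λ ≤ z_j³` for some nucleus `j` -/
theorem few_electrons {k : ℕ} (z : Fin k → ℝ) (hz : ∀ j, 0 ≤ z j) (R : Fin k → E3)
    (hR : Function.Injective R) (lam : ℝ) (hlam : 0 ≤ lam)
    (hsmall : ∃ j, 0 < z j ∧ 30 * (∑ i, z i) ^ 2 * lam ≤ z j ^ 3) :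
    ConvexOn ℝ (Ioi 0) (fun v : ℝ => dilated z R lam (v ^ (1 / 3 : ℝ))) ∧
      AntitoneOn (pressure z R lam) (Ioi 0) ∧
      ∀ l : ℝ, 0 < l → DifferentiableAt ℝ (pressure z R lam) l →
        0 ≤ -(l / 3) * deriv (pressure z R lam) l := by
  obtain ⟨j, hj0, hj⟩ := hsmall
  set Z := ∑ i, z i with hZ
  have hjZ : z j ≤ Z := Finset.single_le_sum (f := z) (fun i _ => hz i) (Finset.mem_univ j)
  have hZ0 : 0 < Z := lt_of_lt_of_le hj0 hjZ
  set φc : ℝ := (65 * Z ^ 2) ^ (2 / 3 : ℝ) with hφ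
  have hφc : 0 < φc := Real.rpow_pos_of_pos (by positivity) _
  have h32 : φc * √φc = 65 * Z ^ 2 := by
    have e1 : φc * √φc = φc ^ (3 / 2 : ℝ) := by
      have e0 : φc ^ (3 / 2 : ℝ) = φc ^ (1 + 1 / 2 : ℝ) := by norm_num
      rw [e0, Real.rpow_add hφc, Real.rpow_one, Real.sqrt_eq_rpow]
    rw [e1, hφ, ← Real.rpow_mul (by positivity)]
    norm_num
  have hmono : ∀ φ₀ : ℝ, φc ≤ φ₀ → Z ^ 2 / (φ₀ * √φ₀) ≤ 1 / 65 := by
    intro φ₀ h
    have h1 : φc * √φc ≤ φ₀ * √φ₀ :=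
      mul_le_mul h (Real.sqrt_le_sqrt h) (Real.sqrt_nonneg _) (hφc.le.trans h)
    have h2 : 0 < φ₀ * √φ₀ := lt_of_lt_of_le (by rw [h32]; positivity) h1
    rw [div_le_div_iff₀ h2 (by norm_num)]
    rw [h32] at h1
    linarith
  have h := target_of_GTF_levels z hz R hR hlam (L := 0) (φc := φc) le_rfl hφc
    (fun φ₀ hφ₀ R' hR' _ => by
      rw [show ((0 : ℝ) ^ 3) = 0 by norm_num]
      exact TF.Light.light_GTF hz hR' (hφc.trans_le hφ₀) (hmono φ₀ hφ₀))
    (fun c hc R' hR' _ ρ hρ heq => by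
      have hsol : TF.Sol φc z R' ρ := ⟨hρ, fun x _ => heq x⟩
      have hpi := Real.pi_pos
      have hp1 := pi_gt_d4
      have hp2 := pi_lt_d4
      have hq : z j ^ 2 / (φc * √φc) ≤ 1 / 65 := by
        refine le_trans ?_ (hmono φc le_rfl)
        exact div_le_div_of_nonneg_right (pow_le_pow_left₀ (hz j) hjZ 2) (by rw [h32]; positivity)
      have hq0 : 0 ≤ z j ^ 2 / (φc * √φc) := by rw [h32]; positivity
      have hpi2 : π ^ 2 ≤ 3.1416 ^ 2 := by nlinarith
      have hpi2' : 3.1415 ^ 2 ≤ π ^ 2 := by nlinarith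
      have ht : π ^ 2 / 4 * (z j ^ 2 / (φc * √φc)) ≤ 0.03797 := by nlinarith
      have hm := TF.Light.mass_ge' hz hφc hsol j (by linarith)
      refine le_trans ?_ hm
      have h3 : (0.88 : ℝ) ≤ (1 - π ^ 2 / 4 * (z j ^ 2 / (φc * √φc))) ^ 3 := by
        have h4 : (0.96203 : ℝ) ≤ 1 - π ^ 2 / 4 * (z j ^ 2 / (φc * √φc)) := by linarith
        have h5 := pow_le_pow_left₀ (by norm_num) h4 3
        refine le_trans (by norm_num) h5
      rw [h32]
      have h6 : (65 / 30 : ℝ) ≤ π ^ 2 / 4 * (1 - π ^ 2 / 4 * (z j ^ 2 / (φc * √φc))) ^ 3 := by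
        nlinarith
      rw [le_div_iff₀ (by positivity)]
      have h7 : 0 ≤ z j ^ 3 := by positivity
      have h8 := mul_le_mul_of_nonneg_right h6 h7
      rw [h32] at h8
      nlinarith)
  rw [show ((0 : ℝ) ^ 3) = 0 by norm_num] at h
  exact h

end Pool.Agent.Lib.MP_9cf0c9_mp
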